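import Pool.Agent.MP_9d78a0_co.st.TRg

-- ======== part 0: formerly Pool.Agent.MP_9d78a0_co.st.Red
section MrgPart0

/-! Pockets and stable paths. -/

set_option autoImplicit false

namespace Pool.Agent.MP_9d78a0_co.st

open Set Function fb

namespace RedAux

variable {V : Type} {H : SimpleGraph V}

theorem lift {K X P K' : Set V} (hP : Conn (red H K X) P)
    (h : ∀ x ∈ P ∩ X, ∀ y ∈ P ∩ X, Link H (K' ∪ {x, y}) x y) :
    ∃ P', P ⊆ P' ∧ P' ⊆ P ∪ K' ∧ Conn H P' := by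
  obtain ⟨p, hp⟩ := hP.1
  refine ⟨cp H (P ∪ K') p, fun v hv => ⟨Or.inl hv, ?_⟩, cp_sub, cp_conn (Or.inl hp)⟩
  refine Link.map (G' := H) id (fun u hu w hw e => ?_) (hP.2 p hp v hv)
  rcases e.2.2.2 with e | e
  · exact Link.single (Or.inl hu) (Or.inl hw) e
  · refine (h u ⟨hu, e.1⟩ w ⟨hw, e.2⟩).mono ?_
    rintro z (hz | rfl | rfl)
    exacts [Or.inr hz, Or.inl hu, Or.inl hw]

theorem thru {K X : Set V} (hK : Pock H K X) {x y : V} (hx : x ∈ X) (hy : y ∈ X) :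
    Link H (K ∪ {x, y}) x y := by
  obtain ⟨u, hu, e⟩ := hK.adj x hx
  obtain ⟨v, hv, e'⟩ := hK.adj y hy
  exact ((Link.single (S := K ∪ {x, y}) (Or.inr (Or.inl rfl)) (Or.inl hu) e.symm).trans
    ((hK.conn.2 u hu v hv).mono subset_union_left)).trans
    (Link.single (S := K ∪ {x, y}) (Or.inl hv) (Or.inr (Or.inr rfl)) e')

theorem two {K X P Q : Set V} (hK : Pock H K X) (h : Two (red H K X) Kᶜ P Q)
    (hQ : (Q ∩ X).Subsingleton) :
    ∃ P' Q', Two H univ P' Q' ∧ P ⊆ P' ∧ P' ⊆ P ∪ K ∧ Q ⊆ Q' ∧ Q' ⊆ Q ∪ K := by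
  obtain ⟨P', p1, p2, p3⟩ := lift (K' := K) h.cp fun x hx y hy => thru hK hx.2 hy.2
  obtain ⟨Q', q1, q2, q3⟩ := lift (K' := ∅) h.cq fun x hx y hy => by
    rw [hQ hx hy]; exact Link.refl _ _ _
  rw [union_empty] at q2
  refine ⟨P', Q', ⟨subset_univ _, subset_univ _, p3, q3, ?_⟩, p1, p2, q1,
    q2.trans subset_union_left⟩
  rw [disjoint_left]
  intro v hv hv'
  rcases p2 hv with c | c
  · exact disjoint_left.1 h.dis c (q2 hv')
  · exact h.sq (q2 hv') c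

theorem proj {K X P : Set V} (hK : Pock H K X) (hP : Conn H P) (hne : (P \ K).Nonempty) :
    Conn (red H K X) (P \ K) := by
  obtain ⟨p, hp⟩ := hne
  have key : ∀ w, Link H P p w → (w ∉ K → Link (red H K X) (P \ K) p w) ∧
      (w ∈ K → ∃ x ∈ X ∩ P, Link (red H K X) (P \ K) p x) := by
    intro w hw
    induction hw with
    | refl => exact ⟨fun _ => Link.refl _ _ _, fun c => absurd c hp.2⟩
    | @tail u w _ h2 ih =>
      obtain ⟨hu, hw, e⟩ := h2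
      by_cases c : u ∈ K
      · obtain ⟨x, hx, l⟩ := ih.2 c
        refine ⟨fun d => ?_, fun _ => ⟨x, hx, l⟩⟩
        have hw' : w ∈ X := (hK.nbr u c w e).resolve_left d
        have hx' : x ∉ K := fun k => disjoint_left.1 hK.dis k hx.1
        by_cases k : x = w
        · exact k ▸ l
        · exact l.trans (Link.single ⟨hx.2, hx'⟩ ⟨hw, d⟩ ⟨k, hx', d, Or.inr ⟨hx.1, hw'⟩⟩)
      · exact ⟨fun d => (ih.1 c).trans (Link.single ⟨hu, c⟩ ⟨hw, d⟩ ⟨e.ne, c, d, Or.inl e⟩),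
          fun d => ⟨u, ⟨(hK.nbr w d u e.symm).resolve_left c, hu⟩, ih.1 c⟩⟩
  exact conn_of_center hp fun v hv => (key v (hP.2 p hp.1 v hv.1)).1 hv.2

theorem short {D : Set V} {a b : V} (h : Link H D a b) (ha : a ∈ D) :
    ∃ f l, IsPath H D f l ∧ f 0 = a ∧ f l = b ∧
      ∀ i ≤ l, ∀ j ≤ l, H.Adj (f i) (f j) → i + 1 = j ∨ j + 1 = i := by
  classical
  have ex : ∃ l, ∃ f, IsPath H D f l ∧ f 0 = a ∧ f l = b := by
    obtain ⟨f, l, k⟩ := link_path h ha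
    exact ⟨l, f, k⟩
  obtain ⟨f, ⟨h1, h2, h3⟩, h4, h5⟩ := Nat.find_spec ex
  have hmin := fun m => Nat.find_min ex (m := m)
  generalize Nat.find ex = l at *
  have key : ∀ i j, i + 2 ≤ j → j ≤ l → ¬ H.Adj (f i) (f j) := by
    intro i j hij hj e
    obtain ⟨d, rfl⟩ : ∃ d, j = i + 1 + (d + 1) := ⟨j - i - 2, by omega⟩
    obtain ⟨m, rfl⟩ : ∃ m, l = m + (d + 1) := ⟨l - (d + 1), by omega⟩
    refine hmin m (by omega) ⟨fun t => f (if t ≤ i then t else t + (d + 1)),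
      ⟨fun t ht => h1 _ (by split_ifs <;> omega), fun t ht => ?_, fun s hs t ht k => ?_⟩,
      by simpa using h4, ?_⟩
    · by_cases c : t + 1 ≤ i
      · simp only [if_pos c, if_pos (show t ≤ i by omega)]
        exact h2 t (by omega)
      · by_cases c' : t ≤ i
        · obtain rfl : t = i := by omega
          simp only [if_neg c, if_pos c']
          exact e
        · simp only [if_neg c, if_neg c']
          rw [show t + 1 + (d + 1) = t + (d + 1) + 1 by omega]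
          exact h2 _ (by omega)
    · have := h3 _ (by split_ifs <;> omega) _ (by split_ifs <;> omega) k
      split_ifs at this <;> omega
    · simp only [if_neg (show ¬ m ≤ i by omega)]
      exact h5
  refine ⟨f, l, ⟨h1, h2, h3⟩, h4, h5, fun i hi j hj e => ?_⟩
  have k1 : ¬ i + 2 ≤ j := fun c => key i j c hj e
  have k2 : ¬ j + 2 ≤ i := fun c => key j i c hi e.symm
  have k3 : i ≠ j := fun c => e.ne (by rw [c])
  omega

theorem seg {D : Set V} {f : ℕ → V} {l i j : ℕ} {z : V} (h : IsPath H D f l) (hij : i ≤ j)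
    (hj : j ≤ l) (hz : ∀ t, i ≤ t → t ≤ j → f t ≠ z) : Link H (D \ {z}) (f i) (f j) := by
  induction j, hij using Nat.le_induction with
  | base => exact Link.refl _ _ _
  | succ n hn ih =>
    exact (ih (by omega) fun t h1 h2 => hz t h1 (by omega)).trans
      (Link.single ⟨h.1 n (by omega), hz n hn (by omega)⟩ ⟨h.1 _ hj, hz _ (by omega) le_rfl⟩
        (h.2.1 n (by omega)))

end RedAux

open RedAux

theorem redS : RedS := by
  intro V _ H K X hK hX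
  refine ⟨fun P Q h => ?_, fun P h1 h2 => proj hK h1 h2, fun P K' _ h1 _ h2 => lift h1 h2⟩
  by_cases c : (Q ∩ X).Subsingleton
  · exact two hK h c
  by_cases c' : (P ∩ X).Subsingleton
  · obtain ⟨Q', P', k, k1, k2, k3, k4⟩ := two hK ⟨h.sq, h.sp, h.cq, h.cp, h.dis.symm⟩ c'
    exact ⟨P', Q', ⟨k.sq, k.sp, k.cq, k.cp, k.dis.symm⟩, k3, k4, k1, k2⟩
  exfalso
  rw [not_subsingleton_iff, ← one_lt_ncard_iff_nontrivial] at c c'
  have d : Disjoint (P ∩ X) (Q ∩ X) := h.dis.mono inter_subset_left inter_subset_left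
  have e := ncard_union_eq d
  have e' : (P ∩ X ∪ Q ∩ X).ncard ≤ X.ncard :=
    ncard_le_ncard (union_subset inter_subset_right inter_subset_right)
  omega

theorem stabS : StabS := by
  intro V _ H U A S0 a b hT _ ha hb _ hS hl hab
  obtain ⟨D, ⟨d1, d2, d3, d4, d5⟩, hmin⟩ := (wellFounded_lt (α := Set V)).has_min
    {D | D ⊆ U \ S0 ∧ a ∈ D ∧ b ∈ D ∧ Link H D a b ∧ U \ D = lk H (U \ D) A}
    ⟨U \ S0, subset_rfl, ha, hb, hab, by rw [sdiff_sdiff_cancel_left hS]; exact hl⟩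
  have hm : ∀ D' ⊆ D, a ∈ D' → b ∈ D' → Link H D' a b → U \ D' = lk H (U \ D') A → D' = D := by
    intro D' h1 h2 h3 h4 h5
    by_contra c
    exact hmin D' ⟨h1.trans d1, h2, h3, h4, h5⟩ (lt_of_le_of_ne h1 c)
  refine ⟨D, d1, d2, d3, d4, d5, hm, ?_⟩
  have cut : ∀ z ∈ D, z ≠ a → z ≠ b → (∃ s ∈ U \ D, H.Adj z s) → ¬ Link H (D \ {z}) a b := by
    rintro z hz za zb ⟨s, hs, e⟩ k
    have sub : U \ D ⊆ U \ (D \ {z}) := sdiff_subset_sdiff_right sdiff_subset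
    have : D \ {z} = D := by
      refine hm _ sdiff_subset ⟨d2, za.symm⟩ ⟨d3, zb.symm⟩ k (Subset.antisymm ?_ fun v hv => hv.1)
      have old : ∀ v ∈ U \ D, v ∈ lk H (U \ (D \ {z})) A := by
        intro v hv
        obtain ⟨-, x, x1, x2, x3⟩ := d5 ▸ hv
        exact ⟨sub hv, x, x1, sub x2, x3.mono sub⟩
      intro v hv
      by_cases c : v ∈ D
      · obtain rfl : v = z := by
          by_contra c'
          exact hv.2 ⟨c, c'⟩
        obtain ⟨s1, x, x1, x2, x3⟩ := old s hs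
        exact ⟨hv, x, x1, x2, x3.trans (Link.single s1 hv e.symm)⟩
      · exact old v ⟨hv.1, c⟩
    exact (this.symm ▸ hz : z ∈ D \ {z}).2 rfl
  obtain ⟨f, l, hf, f0, fl, ind⟩ := short d4 d2
  by_cases hD : D ⊆ f '' Iic l
  · refine Or.inr ⟨f, l, hf, f0, fl, Subset.antisymm hD ?_, ind⟩
    rintro _ ⟨j, hj, rfl⟩
    exact hf.1 j hj
  obtain ⟨v, hv, hv'⟩ := not_subset.1 hD
  set Z : Set V := {z | z = a ∨ z = b ∨ ∃ s ∈ U \ D, H.Adj z s} with hZ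
  have onp : ∀ z ∈ D, z ∈ Z → ∃ j ≤ l, f j = z := by
    intro z hz k
    by_contra c
    push Not at c
    have za : z ≠ a := fun e => c 0 (by omega) (f0.trans e.symm)
    have zb : z ≠ b := fun e => c l le_rfl (fl.trans e.symm)
    refine cut z hz za zb ((k.resolve_left za).resolve_left zb) ?_
    rw [← f0, ← fl]
    exact seg hf (Nat.zero_le _) le_rfl fun t _ h2 => c t h2
  have hvZ : v ∈ D \ Z := ⟨hv, fun k => by
    obtain ⟨j, hj, e⟩ := onp v hv k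
    exact hv' ⟨j, hj, e⟩⟩
  set K := cp H (D \ Z) v with hK
  set X : Set V := {x | x ∉ K ∧ ∃ u ∈ K, H.Adj u x} with hX
  have XD : ∀ x ∈ X, x ∈ D ∧ x ∈ Z := by
    rintro x ⟨x1, u, hu, e⟩
    have xD : x ∈ D := by
      by_contra c
      exact (cp_sub hu).2 (Or.inr (Or.inr ⟨x, ⟨hT _ _ e.symm, c⟩, e⟩))
    refine ⟨xD, ?_⟩
    by_contra c
    exact x1 (cp_closed hu ⟨xD, c⟩ e)
  have pk : Pock H K X := ⟨cp_conn hvZ, disjoint_left.2 fun x h1 h2 => h2.1 h1,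
    fun u hu x e => (em (x ∈ K)).imp_right fun c => ⟨c, u, hu, e⟩, fun x hx => hx.2⟩
  refine Or.inl ⟨K, X, fun u hu => ⟨(cp_sub hu).1, ?_⟩, fun x hx => (XD x hx).1, ?_, pk⟩
  · rintro (e | e)
    exacts [(cp_sub hu).2 (Or.inl e), (cp_sub hu).2 (Or.inr (Or.inl e))]
  have mid : ∀ i j k, i < j → j < k → k ≤ l → f i ∈ X → f j ∈ X → f k ∈ X → False := by
    intro i j k hij hjk hk xi xj xk
    have ne : ∀ t ≤ l, t ≠ j → f t ≠ f j := fun t ht c e => c (hf.2.2 t ht j (by omega) e)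
    have za : f j ≠ a := f0 ▸ (ne 0 (by omega) (by omega)).symm
    have zb : f j ≠ b := fl ▸ (ne l le_rfl (by omega)).symm
    refine cut _ (XD _ xj).1 za zb (((XD _ xj).2.resolve_left za).resolve_left zb) ?_
    rw [← f0, ← fl]
    refine ((seg hf (Nat.zero_le i) (by omega) fun t _ _ => ne t (by omega) (by omega)).trans
      ((thru pk xi xk).mono ?_)).trans
      (seg hf hk le_rfl fun t _ _ => ne t (by omega) (by omega))
    rintro w (hw | rfl | rfl)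
    · exact ⟨(cp_sub hw).1, fun e => xj.1 (e ▸ hw)⟩
    · exact ⟨(XD _ xi).1, ne i (by omega) (by omega)⟩
    · exact ⟨(XD _ xk).1, ne k hk (by omega)⟩
  by_contra c
  obtain ⟨x, y, z, hx, hy, hz, xy, xz, yz⟩ := (two_lt_ncard_iff (toFinite X)).1 (not_le.1 c)
  obtain ⟨i, hi, rfl⟩ := onp x (XD x hx).1 (XD x hx).2
  obtain ⟨j, hj, rfl⟩ := onp y (XD y hy).1 (XD y hy).2
  obtain ⟨k, hk, rfl⟩ := onp z (XD z hz).1 (XD z hz).2
  have ij : i ≠ j := fun e => xy (by rw [e])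
  have ik : i ≠ k := fun e => xz (by rw [e])
  have jk : j ≠ k := fun e => yz (by rw [e])
  have m1 := fun p q => mid i j k p q hk hx hy hz
  have m2 := fun p q => mid i k j p q hj hx hz hy
  have m3 := fun p q => mid j i k p q hk hy hx hz
  have m4 := fun p q => mid j k i p q hi hy hz hx
  have m5 := fun p q => mid k i j p q hj hz hx hy
  have m6 := fun p q => mid k j i p q hi hz hy hx
  simp only [imp_false] at m1 m2 m3 m4 m5 m6
  omega

end Pool.Agent.MP_9d78a0_co.st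

end MrgPart0

-- ======== part 1: formerly Pool.Agent.MP_9d78a0_co.st.CutP
section MrgPart1

/-! The cut and the local criterion for societies with ports. -/

set_option autoImplicit false

namespace Pool.Agent.MP_9d78a0_co.st

open Set Function fb

namespace cutp

variable {V : Type} {H H' : SimpleGraph V} {U U' : Set V} {r : V → V}

/-- unions of fibres -/
def Sat (r : V → V) (S : Set V) : Prop := ∀ x y, r x = r y → x ∈ S → y ∈ S

/-- the quotient graph -/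
def qg (H : SimpleGraph V) (r : V → V) : SimpleGraph V where
  Adj u v := u ≠ v ∧ ∃ x y, H.Adj x y ∧ r x = u ∧ r y = v
  symm := ⟨fun _ _ ⟨h, x, y, e, h1, h2⟩ => ⟨h.symm, y, x, e.symm, h2, h1⟩⟩
  loopless := ⟨fun _ h => h.1 rfl⟩

theorem Sat.mem {S : Set V} (h : Sat r S) {x : V} (hx : r x ∈ r '' S) : x ∈ S := by
  obtain ⟨y, hy, e⟩ := hx
  exact h y x e hy

theorem Sat.diff {S T : Set V} (h : Sat r S) (h' : Sat r T) : Sat r (S \ T) :=
  fun x y e hx => ⟨h x y e hx.1, fun c => hx.2 (h' y x e.symm c)⟩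

theorem Sat.union {S T : Set V} (h : Sat r S) (h' : Sat r T) : Sat r (S ∪ T) :=
  fun x y e hx => hx.imp (h x y e) (h' x y e)

theorem Sat.img {S T : Set V} (h' : Sat r T) : r '' (S \ T) = r '' S \ r '' T := by
  ext v
  constructor
  · rintro ⟨x, hx, rfl⟩
    exact ⟨⟨x, hx.1, rfl⟩, fun c => hx.2 (h'.mem c)⟩
  · rintro ⟨⟨x, hx, rfl⟩, c⟩
    exact ⟨x, ⟨hx, fun d => c ⟨x, d, rfl⟩⟩, rfl⟩

theorem qadj (x y : V) (e : H.Adj x y) : r x = r y ∨ (qg H r).Adj (r x) (r y) := by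
  by_cases c : r x = r y
  · exact Or.inl c
  · exact Or.inr ⟨c, x, y, e, rfl, rfl⟩

theorem link_q (h : ∀ x y, H.Adj x y → r x = r y ∨ H'.Adj (r x) (r y)) {S : Set V} {u v : V}
    (k : Link H S u v) : Link H' (r '' S) (r u) (r v) := by
  refine Link.map r (fun a ha b hb e => ?_) k
  rcases h a b e with c | c
  · rw [c]
    exact Link.refl _ _ _
  · exact Link.single (mem_image_of_mem r ha) (mem_image_of_mem r hb) c

theorem conn_q (h : ∀ x y, H.Adj x y → r x = r y ∨ H'.Adj (r x) (r y)) {S : Set V}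
    (k : Conn H S) : Conn H' (r '' S) := by
  refine ⟨k.1.image r, ?_⟩
  rintro _ ⟨u, hu, rfl⟩ _ ⟨v, hv, rfl⟩
  exact link_q h (k.2 u hu v hv)

theorem px_map (h : ∀ x y, H.Adj x y → r x = r y ∨ H'.Adj (r x) (r y)) (hU : r '' U ⊆ U')
    {LL : List (Set V)} (hs : ∀ s ∈ LL, Sat r s)
    (hf : ∀ x ∈ U, ∀ y, r x = r y → x = y ∨ ∃ s ∈ LL, x ∈ s) (k : PX H U LL) :
    PX H' U' (LL.map fun s => r '' s) := by
  obtain ⟨a, b, c, d, h1, P, Q, t, ⟨pa, ha⟩, ⟨pc, hc⟩, ⟨qb, hb⟩, ⟨qd, hd⟩, h6⟩ := k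
  refine ⟨r '' a, r '' b, r '' c, r '' d, h1.map (fun s => r '' s), r '' P, r '' Q,
    ⟨(image_mono t.sp).trans hU, (image_mono t.sq).trans hU, conn_q h t.cp, conn_q h t.cq, ?_⟩,
    ⟨r pa, ⟨pa, ha.1, rfl⟩, pa, ha.2, rfl⟩, ⟨r pc, ⟨pc, hc.1, rfl⟩, pc, hc.2, rfl⟩,
    ⟨r qb, ⟨qb, hb.1, rfl⟩, qb, hb.2, rfl⟩, ⟨r qd, ⟨qd, hd.1, rfl⟩, qd, hd.2, rfl⟩, ?_⟩
  · rw [disjoint_left]
    rintro _ ⟨p, hp, rfl⟩ ⟨q, hq, e⟩
    rcases hf p (t.sp hp) q e.symm with rfl | ⟨s, h7, h8⟩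
    · exact disjoint_left.1 t.dis hp hq
    · rcases h6 s h7 with z | z
      · exact disjoint_left.1 z hp h8
      · exact disjoint_left.1 z hq (hs s h7 p q e.symm h8)
  · intro s' h7
    obtain ⟨s, h8, rfl⟩ := List.mem_map.1 h7
    refine (h6 s h8).imp (fun z => ?_) (fun z => ?_) <;>
    · rw [disjoint_left]
      rintro _ ⟨p, hp, rfl⟩ e
      exact disjoint_left.1 z hp ((hs s h8).mem e)

theorem eq_of_mem {LL : List (Set V)} (hp : LL.Pairwise Disjoint) {s t : Set V} (hs : s ∈ LL)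
    (ht : t ∈ LL) {x : V} (h1 : x ∈ s) (h2 : x ∈ t) : s = t := by
  by_contra c
  exact disjoint_left.1 (hp.forall hs ht c) h1 h2

theorem lift_path (hU : Sat r U) {T : Set V} (hf : ∀ x ∈ U, ∀ y, r x = r y → x = y ∨ r x ∈ T)
    {f : ℕ → V} {l : ℕ} (h : IsPath (qg H r) (r '' U) f l) (hl : 0 < l)
    (hi : ∀ i, 0 < i → i < l → f i ∉ T) :
    ∃ P ⊆ U, Conn H P ∧ (∀ p ∈ P, ∃ i ≤ l, r p = f i) ∧ (∃ p ∈ P, r p = f 0) ∧
      ∃ p ∈ P, r p = f l := by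
  have k : ∀ j, ∃ x y, j < l → H.Adj x y ∧ r x = f j ∧ r y = f (j + 1) := fun j => by
    by_cases c : j < l
    · obtain ⟨_, x, y, e⟩ := h.2.1 j c
      exact ⟨x, y, fun _ => e⟩
    · exact ⟨f 0, f 0, fun d => absurd d c⟩
  choose x y k using k
  have m : ∀ p ∈ ⋃ i ∈ Icc 0 (l - 1), ({x i, y i} : Set V), ∃ i ≤ l, r p = f i := by
    intro p hp
    obtain ⟨i, h1, h2⟩ := mem_iUnion₂.1 hp
    have h3 : i < l := by have := h1.2; omega
    rcases h2 with rfl | rfl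
    · exact ⟨i, h3.le, (k i h3).2.1⟩
    · exact ⟨i + 1, h3, (k i h3).2.2⟩
  refine ⟨⋃ i ∈ Icc 0 (l - 1), ({x i, y i} : Set V), fun p hp => ?_, ?_, m, ⟨x 0, ?_, (k 0 hl).2.1⟩,
    ⟨y (l - 1), ?_, ?_⟩⟩
  · obtain ⟨i, h1, h2⟩ := m p hp
    exact hU.mem (h2 ▸ h.1 i h1)
  · refine conn_chain (S := fun i => ({x i, y i} : Set V)) (Nat.zero_le _)
      (fun i h1 => conn_pair (k i (by have := h1.2; omega)).1) fun i _ h2 => Or.inl ?_
    have e1 := (k i (by omega)).2.2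
    have e2 := (k (i + 1) (by omega)).2.1
    rcases hf (y i) (hU.mem (e1 ▸ h.1 (i + 1) (by omega))) (x (i + 1)) (e1.trans e2.symm) with c | c
    · exact ⟨y i, Or.inr rfl, Or.inl c⟩
    · exact absurd (e1 ▸ c) (hi (i + 1) (by omega) (by omega))
  · exact mem_iUnion₂.2 ⟨0, ⟨le_rfl, Nat.zero_le _⟩, Or.inl rfl⟩
  · exact mem_iUnion₂.2 ⟨l - 1, ⟨Nat.zero_le _, le_rfl⟩, Or.inr rfl⟩
  · have := (k (l - 1) (by omega)).2.2
    rwa [Nat.sub_add_cancel hl] at this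

theorem px_lift (hN : NfS) (hU : Sat r U) {LL : List (Set V)} (hp : LL.Pairwise Disjoint)
    (hs : ∀ s ∈ LL, Sat r s) (hf : ∀ x ∈ U, ∀ y, r x = r y → x = y ∨ ∃ s ∈ LL, x ∈ s)
    (k : PX (qg H r) (r '' U) (LL.map fun s => r '' s)) : PX H U LL := by
  have hp' : (LL.map fun s => r '' s).Pairwise Disjoint := by
    refine List.pairwise_map.2 (hp.imp_of_mem fun {s t} _ ht z => ?_)
    rw [disjoint_left]
    rintro _ ⟨p, h1, rfl⟩ e
    exact disjoint_left.1 z h1 ((hs t ht).mem e)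
  obtain ⟨a', b', c', d', h1, f, g, l, m, hf1, hg1, hl, hm, fa, fc, gb, gd, hfg, fi, gi⟩ :=
    (hN V _ _).1 _ hp' k
  have hf' : ∀ x ∈ U, ∀ y, r x = r y → x = y ∨ r x ∈ un (LL.map fun s => r '' s) :=
    fun x hx y e => (hf x hx y e).imp id fun ⟨s, h2, h3⟩ =>
      ⟨r '' s, List.mem_map.2 ⟨s, h2, rfl⟩, x, h3, rfl⟩
  obtain ⟨P, p1, p2, p3, ⟨pa, p4, p5⟩, pc, p6, p7⟩ := lift_path hU hf' hf1 hl fi
  obtain ⟨Q, q1, q2, q3, ⟨qb, q4, q5⟩, qd, q6, q7⟩ := lift_path hU hf' hg1 hm gi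
  have d4 := hp'.sublist h1
  have m4 := h1.subset
  obtain ⟨L, h2, h3⟩ := List.sublist_map_iff.1 h1
  obtain ⟨a, L, rfl, rfl, h4⟩ := List.map_eq_cons_iff.1 h3.symm
  obtain ⟨b, L, rfl, rfl, h5⟩ := List.map_eq_cons_iff.1 h4
  obtain ⟨c, L, rfl, rfl, h6⟩ := List.map_eq_cons_iff.1 h5
  obtain ⟨d, L, rfl, rfl, h7⟩ := List.map_eq_cons_iff.1 h6
  obtain rfl := List.map_eq_nil_iff.1 h7
  have m5 := h2.subset
  refine ⟨a, b, c, d, h2, P, Q, ⟨p1, q1, p2, q2, ?_⟩,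
    ⟨pa, p4, (hs a (m5 (by simp))).mem (p5 ▸ fa)⟩, ⟨pc, p6, (hs c (m5 (by simp))).mem (p7 ▸ fc)⟩,
    ⟨qb, q4, (hs b (m5 (by simp))).mem (q5 ▸ gb)⟩, ⟨qd, q6, (hs d (m5 (by simp))).mem (q7 ▸ gd)⟩,
    fun s h4 => ?_⟩
  · rw [disjoint_left]
    intro v hv hv'
    obtain ⟨i, hi, e⟩ := p3 v hv
    obtain ⟨j, hj, e'⟩ := q3 v hv'
    exact hfg i hi j hj (e.symm.trans e')
  · by_contra z
    rw [not_or, not_disjoint_iff, not_disjoint_iff] at z
    obtain ⟨⟨p, z1, z2⟩, q, z3, z4⟩ := z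
    obtain ⟨i, hi, e⟩ := p3 p z1
    obtain ⟨j, hj, e'⟩ := q3 q z3
    have h5 : r '' s ∈ LL.map fun s => r '' s := List.mem_map.2 ⟨s, h4, rfl⟩
    have u1 : f i ∈ r '' s := ⟨p, z2, e⟩
    have u2 : g j ∈ r '' s := ⟨q, z4, e'⟩
    have v1 : r '' s = r '' a ∨ r '' s = r '' c := by
      rcases (by omega : i = 0 ∨ i = l ∨ (0 < i ∧ i < l)) with rfl | rfl | w
      · exact Or.inl (eq_of_mem hp' h5 (m4 (by simp)) u1 fa)
      · exact Or.inr (eq_of_mem hp' h5 (m4 (by simp)) u1 fc)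
      · exact absurd ⟨_, h5, u1⟩ (fi i w.1 w.2)
    have v2 : r '' s = r '' b ∨ r '' s = r '' d := by
      rcases (by omega : j = 0 ∨ j = m ∨ (0 < j ∧ j < m)) with rfl | rfl | w
      · exact Or.inl (eq_of_mem hp' h5 (m4 (by simp)) u2 gb)
      · exact Or.inr (eq_of_mem hp' h5 (m4 (by simp)) u2 gd)
      · exact absurd ⟨_, h5, u2⟩ (gi j w.1 w.2)
    simp only [List.pairwise_cons, List.mem_cons, forall_eq_or_imp] at d4
    rcases v1 with v1 | v1 <;> rcases v2 with v2 | v2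
    · exact disjoint_left.1 d4.1.1 (v1 ▸ u1) (v2 ▸ u1)
    · exact disjoint_left.1 d4.1.2.2.1 (v1 ▸ u1) (v2 ▸ u1)
    · exact disjoint_left.1 d4.2.1.1 (v2 ▸ u1) (v1 ▸ u1)
    · exact disjoint_left.1 d4.2.2.1.1 (v1 ▸ u1) (v2 ▸ u1)

theorem lk_self {W A : Set V} {x : V} (h : x ∈ W) (h' : x ∈ A) : x ∈ lk H W A :=
  ⟨h, x, h', h, Link.refl _ _ _⟩

theorem lk_q {W A : Set V} (hW : Sat r W) (hk : Sat r (lk H W A)) :
    r '' lk H W A = lk (qg H r) (r '' W) (r '' A) := by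
  ext v
  constructor
  · rintro ⟨x, ⟨h1, a, h2, h3, h4⟩, rfl⟩
    exact ⟨⟨x, h1, rfl⟩, r a, ⟨a, h2, rfl⟩, ⟨a, h3, rfl⟩, link_q qadj h4⟩
  · rintro ⟨h1, _, ⟨a, h2, rfl⟩, h3, h4⟩
    clear h1
    induction h4 with
    | refl => exact ⟨a, lk_self (hW.mem h3) h2, rfl⟩
    | tail _ e ih =>
      obtain ⟨_, e1, _, x, y, e2, rfl, rfl⟩ := e
      obtain ⟨k1, a, k2, k3, k4⟩ := hk.mem ih
      exact ⟨y, ⟨hW.mem e1, a, k2, k3, k4.trans (Link.single k1 (hW.mem e1) e2)⟩, rfl⟩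

/-- a root in every port -/
structure Rt (LL : List (Set V)) (r : V → V) (rt : Set V → V) : Prop where
  ins : ∀ s ∈ LL, ∀ v ∈ s, r v = rt s
  off : ∀ v, v ∉ un LL → r v = v
  mem : ∀ s ∈ LL, rt s ∈ s
  fib : ∀ x y, r x = r y → x = y ∨ ∃ s ∈ LL, x ∈ s ∧ y ∈ s
  dis : LL.Pairwise Disjoint

theorem exists_rt [Nonempty V] {LL : List (Set V)} (hp : LL.Pairwise Disjoint)
    (hn : ∀ s ∈ LL, s.Nonempty) : ∃ r rt, Rt LL r rt := by
  classical
  have k : ∀ s : Set V, ∃ x, s.Nonempty → x ∈ s := fun s => by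
    by_cases c : s.Nonempty
    · exact ⟨c.some, fun _ => c.some_mem⟩
    · exact ⟨Classical.arbitrary V, fun d => absurd d c⟩
  choose rt k using k
  have k2 : ∀ v, ∃ w, (∀ s ∈ LL, v ∈ s → w = rt s) ∧ (v ∉ un LL → w = v) := fun v => by
    by_cases c : v ∈ un LL
    · obtain ⟨s, h1, h2⟩ := id c
      exact ⟨rt s, fun t h3 h4 => by rw [eq_of_mem hp h1 h3 h2 h4], fun d => absurd c d⟩
    · exact ⟨v, fun t h3 h4 => absurd ⟨t, h3, h4⟩ c, fun _ => rfl⟩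
  choose r k2 k3 using k2
  refine ⟨r, rt, fun s h v h' => k2 v s h h', k3, fun s h => k s (hn s h), fun x y e => ?_, hp⟩
  by_cases c : x ∈ un LL <;> by_cases d : y ∈ un LL
  · obtain ⟨s, h1, h2⟩ := c
    obtain ⟨t, h3, h4⟩ := d
    rw [k2 x s h1 h2, k2 y t h3 h4] at e
    obtain rfl := eq_of_mem hp h1 h3 (k s (hn s h1)) (e ▸ k t (hn t h3))
    exact Or.inr ⟨s, h1, h2, h4⟩
  · obtain ⟨s, h1, h2⟩ := c
    rw [k2 x s h1 h2, k3 y d] at e
    exact absurd ⟨s, h1, e ▸ k s (hn s h1)⟩ d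
  · obtain ⟨s, h1, h2⟩ := d
    rw [k2 y s h1 h2, k3 x c] at e
    exact absurd ⟨s, h1, e ▸ k s (hn s h1)⟩ c
  · exact Or.inl (by rwa [k3 x c, k3 y d] at e)

variable {LL : List (Set V)} {rt : Set V → V}

theorem Rt.sat (h : Rt LL r rt) {S : Set V} (k : ∀ s ∈ LL, ∀ x ∈ s, x ∈ S → s ⊆ S) : Sat r S := by
  intro x y e hx
  rcases h.fib x y e with rfl | ⟨s, h1, h2, h3⟩
  · exact hx
  · exact k s h1 x h2 hx h3

theorem Rt.port (h : Rt LL r rt) {s : Set V} (hs : s ∈ LL) : Sat r s :=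
  h.sat fun _ ht _ h1 h2 => (eq_of_mem h.dis ht hs h1 h2).le

theorem Rt.img (h : Rt LL r rt) {s : Set V} (hs : s ∈ LL) : r '' s = {rt s} := by
  ext v
  constructor
  · rintro ⟨x, hx, rfl⟩
    exact h.ins s hs x hx
  · rintro rfl
    exact ⟨rt s, h.mem s hs, h.ins s hs _ (h.mem s hs)⟩

theorem Rt.map (h : Rt LL r rt) {M : List (Set V)} (hM : ∀ s ∈ M, s ∈ LL) :
    (M.map fun s => r '' s) = sg (M.map rt) := by
  rw [sg, List.map_map]
  exact List.map_congr_left fun s hs => h.img (hM s hs)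

theorem Rt.un (h : Rt LL r rt) {M : List (Set V)} (hM : ∀ s ∈ M, s ∈ LL) :
    r '' un M = ls (M.map rt) := by
  ext v
  constructor
  · rintro ⟨x, ⟨s, h1, h2⟩, rfl⟩
    exact List.mem_map.2 ⟨s, h1, (h.ins s (hM s h1) x h2).symm⟩
  · intro hv
    obtain ⟨s, h1, rfl⟩ := List.mem_map.1 hv
    exact ⟨rt s, ⟨s, h1, h.mem s (hM s h1)⟩, h.ins s (hM s h1) _ (h.mem s (hM s h1))⟩

theorem wq (hN : NfS) (h : Rt LL r rt) (hU : Sat r U) {M : List (Set V)} {S : Set V}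
    (hM : ∀ s ∈ M, s ∈ LL) (hp : M.Pairwise Disjoint) (hd : ∀ s ∈ M, Disjoint s S) (hS : Sat r S)
    (hc : ∀ s ∈ LL, s ∈ M ∨ s ⊆ S) (w : ¬ PX H U (M ++ [S])) :
    ¬ PX (qg H r) (r '' U) (sg (M.map rt) ++ [r '' S]) := by
  intro k
  refine w (px_lift hN hU ?_ ?_ ?_ ?_)
  · exact List.pairwise_append.2 ⟨hp, List.pairwise_singleton _ _, fun s h1 t h2 => by
      rw [List.mem_singleton.1 h2]
      exact hd s h1⟩
  · intro s h1
    rcases List.mem_append.1 h1 with h2 | h2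
    · exact h.port (hM s h2)
    · rw [List.mem_singleton.1 h2]
      exact hS
  · intro x _ y e
    refine (h.fib x y e).imp id fun ⟨s, h1, h2, _⟩ => ?_
    rcases hc s h1 with h3 | h3
    · exact ⟨s, List.mem_append_left _ h3, h2⟩
    · exact ⟨S, by simp, h3 h2⟩
  · rw [List.map_append, h.map hM]
    exact k

theorem link_res {S : Set V} (h : S ⊆ U) {u v : V} : Link (res H U) S u v ↔ Link H S u v :=
  ⟨Link.map (G := res H U) (G' := H) id fun _ ha _ hb e => Link.single ha hb e.1,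
    Link.map (G := H) (G' := res H U) id fun _ ha _ hb e => Link.single ha hb ⟨e, h ha, h hb⟩⟩

theorem conn_res {S : Set V} (h : S ⊆ U) : Conn (res H U) S ↔ Conn H S := by
  simp only [Conn, link_res h]

theorem lk_res {S A : Set V} (h : S ⊆ U) : lk (res H U) S A = lk H S A := by
  simp only [lk, link_res h]

theorem px_res {LL : List (Set V)} : PX (res H U) U LL ↔ PX H U LL := by
  constructor <;> rintro ⟨a, b, c, d, h1, P, Q, t, h2⟩
  · exact ⟨a, b, c, d, h1, P, Q,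
      ⟨t.sp, t.sq, (conn_res t.sp).1 t.cp, (conn_res t.sq).1 t.cq, t.dis⟩, h2⟩
  · exact ⟨a, b, c, d, h1, P, Q,
      ⟨t.sp, t.sq, (conn_res t.sp).2 t.cp, (conn_res t.sq).2 t.cq, t.dis⟩, h2⟩

open Classical in
/-- the nonempty ports -/
noncomputable def nz (LL : List (Set V)) : List (Set V) := LL.filter fun s => decide s.Nonempty

theorem mem_nz {s : Set V} : s ∈ nz LL ↔ s ∈ LL ∧ s.Nonempty := by simp [nz]

theorem un_nz : un (nz LL) = un LL := by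
  ext v
  exact ⟨fun ⟨s, h1, h2⟩ => ⟨s, (mem_nz.1 h1).1, h2⟩,
    fun ⟨s, h1, h2⟩ => ⟨s, mem_nz.2 ⟨h1, v, h2⟩, h2⟩⟩

theorem px_nz : PX H U (nz LL) ↔ PX H U LL := by
  constructor <;> rintro ⟨a, b, c, d, h1, P, Q, t, h2, h3, h4, h5, h6⟩
  · refine ⟨a, b, c, d, h1.trans List.filter_sublist, P, Q, t, h2, h3, h4, h5, fun s hs => ?_⟩
    rcases s.eq_empty_or_nonempty with rfl | z
    · exact Or.inl (disjoint_empty _)
    · exact h6 s (mem_nz.2 ⟨hs, z⟩)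
  · refine ⟨a, b, c, d, ?_, P, Q, t, h2, h3, h4, h5, fun s hs => h6 s (mem_nz.1 hs).1⟩
    have k : nz [a, b, c, d] = [a, b, c, d] := by
      refine List.filter_eq_self.2 ?_
      simp only [List.mem_cons, forall_eq_or_imp, decide_eq_true_eq]
      exact ⟨h2.mono inter_subset_right, h4.mono inter_subset_right, h3.mono inter_subset_right,
        h5.mono inter_subset_right, by simp⟩
    rw [← k]
    exact h1.filter _

theorem px_nz1 {X A Z : List (Set V)} : PX H U (X ++ nz A ++ Z) ↔ PX H U (X ++ A ++ Z) := by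
  rw [← px_nz, ← px_nz (LL := X ++ A ++ Z)]
  simp [nz, List.filter_append, List.filter_filter]

theorem px_nz2 {a : Set V} {A Z : List (Set V)} :
    PX H U (a :: nz A ++ Z) ↔ PX H U (a :: A ++ Z) := px_nz1 (X := [a])

/-- the data of a cut -/
structure Dat (H : SimpleGraph V) (U Q S1 S2 a b : Set V) (A1 A2 : List (Set V)) : Prop where
  dis : (a :: A1 ++ b :: A2).Pairwise Disjoint
  sub : un (a :: A1 ++ b :: A2) ⊆ U
  qs : Q ⊆ U
  qc : Conn H Q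
  qa : (Q ∩ a).Nonempty
  qb : (Q ∩ b).Nonempty
  d1 : Disjoint Q (un A1)
  d2 : Disjoint Q (un A2)
  s1 : S1 = lk H (U \ (Q ∪ a ∪ b)) (un A1)
  s2 : S2 = lk H (U \ (Q ∪ a ∪ b)) (un A2)

variable {Q S1 S2 a b : Set V} {A1 A2 : List (Set V)}

theorem Dat.symm (D : Dat H U Q S1 S2 a b A1 A2) : Dat H U Q S2 S1 b a A2 A1 := by
  refine ⟨(List.perm_append_comm.pairwise_iff fun h => h.symm).1 D.dis, ?_, D.qs, D.qc, D.qb, D.qa,
    D.d2, D.d1, ?_, ?_⟩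
  · rintro v ⟨s, h1, h2⟩
    exact D.sub ⟨s, List.perm_append_comm.mem_iff.1 h1, h2⟩
  · rw [union_right_comm]
    exact D.s2
  · rw [union_right_comm]
    exact D.s1

theorem Dat.nz (D : Dat H U Q S1 S2 a b A1 A2) : Dat H U Q S1 S2 a b (nz A1) (nz A2) := by
  have k : (a :: cutp.nz A1 ++ b :: cutp.nz A2).Sublist (a :: A1 ++ b :: A2) :=
    (List.filter_sublist.cons_cons a).append (List.filter_sublist.cons_cons b)
  refine ⟨D.dis.sublist k, fun v ⟨s, h1, h2⟩ => D.sub ⟨s, k.subset h1, h2⟩, D.qs, D.qc, D.qa, D.qb,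
    ?_, ?_, ?_, ?_⟩ <;> rw [un_nz]
  exacts [D.d1, D.d2, D.s1, D.s2]

theorem Dat.res (D : Dat H U Q S1 S2 a b A1 A2) : Dat (res H U) U Q S1 S2 a b A1 A2 :=
  ⟨D.dis, D.sub, D.qs, (conn_res D.qs).2 D.qc, D.qa, D.qb, D.d1, D.d2,
    by rw [lk_res sdiff_subset]; exact D.s1, by rw [lk_res sdiff_subset]; exact D.s2⟩

theorem Dat.out (D : Dat H U Q S1 S2 a b A1 A2) {v : V} (h : v ∈ S2) :
    v ∈ U ∧ v ∉ Q ∧ v ∉ a ∧ v ∉ b := by
  rw [D.s2] at h
  simpa [not_or, and_assoc] using h.1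

theorem Dat.free (D : Dat H U Q S1 S2 a b A1 A2) {s : Set V} (h : s ∈ A2) :
    s ⊆ U \ (Q ∪ a ∪ b) := by
  intro v hv
  have k := List.pairwise_append.1 D.dis
  refine ⟨D.sub ⟨s, by simp [h], hv⟩, ?_⟩
  rintro ((c | c) | c)
  · exact disjoint_left.1 D.d2 c ⟨s, h, hv⟩
  · exact disjoint_left.1 (k.2.2 a (by simp) s (by simp [h])) c hv
  · exact disjoint_left.1 ((List.pairwise_cons.1 k.2.1).1 s h) c hv

theorem Dat.port (D : Dat H U Q S1 S2 a b A1 A2) {s : Set V} (h : s ∈ A2) : s ⊆ S2 := by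
  intro v hv
  rw [D.s2]
  exact lk_self (D.free h hv) ⟨s, h, hv⟩

theorem Dat.reach (D : Dat H U Q S1 S2 a b A1 A2) {v : V} (h : v ∈ S2) :
    ∃ K ⊆ S2, Conn H K ∧ v ∈ K ∧ ∃ s ∈ A2, (K ∩ s).Nonempty := by
  rw [D.s2] at h ⊢
  obtain ⟨h1, t, ⟨s, h2, h3⟩, h4, h5⟩ := h
  exact ⟨cp H _ t, fun u hu => ⟨hu.1, t, ⟨s, h2, h3⟩, h4, hu.2⟩, cp_conn h4, ⟨h1, h5⟩, s, h2, t,
    cp_self h4, h3⟩

theorem Dat.cross (D : Dat H U Q S1 S2 a b A1 A2) {K x y : Set V} {Z : List (Set V)}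
    (h1 : K ⊆ S2) (h2 : Conn H K) (h3 : x ∈ A1) (h4 : (K ∩ x).Nonempty) (h5 : y ∈ Z)
    (h6 : (K ∩ y).Nonempty) (h7 : ∀ s ∈ Z, s ⊆ S2) : PX H U (a :: A1 ++ b :: Z) := by
  refine ⟨a, x, b, y, ?_, Q, K, ⟨D.qs, fun v hv => (D.out (h1 hv)).1, D.qc, h2,
    disjoint_right.2 fun v hv => (D.out (h1 hv)).2.1⟩, D.qa, D.qb, h4, h6, fun s hs => ?_⟩
  · exact ((List.singleton_sublist.2 h3).cons_cons a).append ((List.singleton_sublist.2 h5).cons_cons b)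
  · simp only [List.cons_append, List.mem_cons, List.mem_append] at hs
    rcases hs with rfl | hs | rfl | hs
    · exact Or.inr (disjoint_left.2 fun v hv => (D.out (h1 hv)).2.2.1)
    · exact Or.inl (disjoint_left.2 fun v c hv => disjoint_left.1 D.d1 c ⟨s, hs, hv⟩)
    · exact Or.inr (disjoint_left.2 fun v hv => (D.out (h1 hv)).2.2.2)
    · exact Or.inl (disjoint_right.2 fun v hv => (D.out (h7 s hs hv)).2.1)

theorem Dat.sep (D : Dat H U Q S1 S2 a b A1 A2) (w : ¬ PX H U (a :: A1 ++ [b, S2])) {s : Set V}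
    (h : s ∈ a :: A1 ++ [b]) : Disjoint s S2 := by
  rw [disjoint_right]
  intro v hv c
  simp only [List.cons_append, List.mem_cons, List.mem_append, List.not_mem_nil, or_false] at h
  rcases h with rfl | h | rfl
  · exact (D.out hv).2.2.1 c
  · exact w (D.cross (K := {v}) (singleton_subset_iff.2 hv) (conn_singleton _ _) h ⟨v, rfl, c⟩
      (List.mem_singleton_self _) ⟨v, rfl, hv⟩ fun t ht => (List.mem_singleton.1 ht).le)
  · exact (D.out hv).2.2.2 c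

theorem Dat.flat (D : Dat H U Q S1 S2 a b A1 A2) (w : ¬ PX H U (a :: A1 ++ b :: A2)) :
    ¬ PX H U (a :: A1 ++ [b, S2]) := by
  have k : ∀ s ∈ a :: A1 ++ [b], Disjoint s S2 := by
    intro s h
    rw [disjoint_right]
    intro v hv c
    simp only [List.cons_append, List.mem_cons, List.mem_append, List.not_mem_nil, or_false] at h
    rcases h with rfl | h | rfl
    · exact (D.out hv).2.2.1 c
    · obtain ⟨K, h1, h2, h3, t, h4, h5⟩ := D.reach hv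
      exact w (D.cross h1 h2 h ⟨v, h3, c⟩ h4 h5 fun _ => D.port)
    · exact (D.out hv).2.2.2 c
  have e1 : a :: A1 ++ [b, S2] = (a :: A1 ++ [b]) ++ [S2] := by simp
  have e2 : a :: A1 ++ b :: A2 = (a :: A1 ++ [b]) ++ A2 := by simp
  rw [e1]
  rw [e2] at w
  generalize a :: A1 ++ [b] = M at k w
  rintro ⟨x, y, z, t, h1, P, R, T, h2, h3, h4, h5, h6⟩
  have m : ∀ s ∈ M, Disjoint P s ∨ Disjoint R s := fun s hs => h6 s (List.mem_append_left _ hs)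
  have m2 := h6 S2 (by simp)
  have e3 : [x, y, z, t] = [x, y, z] ++ [t] := rfl
  obtain ⟨l1, l2, e, h7, h8⟩ := List.sublist_append_iff.1 h1
  rcases List.sublist_singleton.1 h8 with rfl | rfl
  · rw [List.append_nil] at e
    refine w ⟨x, y, z, t, (e ▸ h7).trans (List.sublist_append_left _ _), P, R, T, h2, h3, h4, h5,
      fun s hs => ?_⟩
    rcases List.mem_append.1 hs with c | c
    · exact m s c
    · exact m2.imp (·.mono_right (D.port c)) (·.mono_right (D.port c))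
  · rw [e3] at e
    obtain ⟨rfl, e⟩ := List.append_inj' e rfl
    obtain rfl : t = S2 := by simpa using e
    obtain ⟨v, v1, v2⟩ := h5
    have m3 : Disjoint P t := m2.resolve_right fun c => disjoint_left.1 c v1 v2
    obtain ⟨K, k1, k2, k3, u, k4, k5⟩ := D.reach v2
    refine w ⟨x, y, z, u, h7.append (List.singleton_sublist.2 k4), P, R ∪ K,
      ⟨T.sp, union_subset T.sq fun p hp => (D.out (k1 hp)).1, T.cp, pl.conn_union T.cq k2 v1 k3,
        disjoint_union_right.2 ⟨T.dis, m3.mono_right k1⟩⟩, h2, h3,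
      h4.mono (inter_subset_inter_left _ subset_union_left),
      k5.mono (inter_subset_inter_left _ subset_union_right), fun s hs => ?_⟩
    rcases List.mem_append.1 hs with c | c
    · exact (m s c).imp id fun d => disjoint_union_left.2 ⟨d, ((k s c).mono_right k1).symm⟩
    · exact Or.inl (m3.mono_right (D.port c))

theorem Dat.side (hN : NfS) (D : Dat H U Q S1 S2 a b A1 A2) (h : Rt LL r rt)
    (hL : ∀ s, s ∈ LL ↔ s ∈ a :: A1 ++ [b] ∨ s ∈ A2) (w : ¬ PX H U (a :: A1 ++ [b, S2])) :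
    Sat r U ∧ Sat r S2 ∧ r '' S2 = lk (qg H r) (r '' U \ r '' Q) (ls (A2.map rt)) ∧
      Disjoint (r '' Q) (ls (A2.map rt)) ∧ rt a ∈ r '' Q ∧
      ¬ PX (qg H r) (r '' U) (sg (rt a :: A1.map rt ++ [rt b]) ++ [r '' S2]) := by
  have e2 : a :: A1 ++ b :: A2 = (a :: A1 ++ [b]) ++ A2 := by simp
  have hU : Sat r U := h.sat fun s hs _ _ _ v hv =>
    D.sub ⟨s, e2 ▸ List.mem_append.2 ((hL s).1 hs), hv⟩
  have hS : Sat r S2 := h.sat fun s hs x h1 h2 => by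
    rcases (hL s).1 hs with c | c
    · exact absurd h2 (disjoint_left.1 (D.sep w c) h1)
    · exact D.port c
  have la : a ∈ LL := (hL a).2 (by simp)
  have lb : b ∈ LL := (hL b).2 (by simp)
  have l2 : ∀ s ∈ A2, s ∈ LL := fun s hs => (hL s).2 (Or.inr hs)
  have hT : Sat r (Q ∪ a ∪ b) := h.sat fun s hs x h1 h2 => by
    have c := (hL s).1 hs
    simp only [List.cons_append, List.mem_cons, List.mem_append, List.not_mem_nil, or_false] at c
    rcases c with (rfl | c | rfl) | c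
    · exact fun v hv => Or.inl (Or.inr hv)
    · exact absurd (by rwa [union_right_comm]) (D.symm.free c h1).2
    · exact fun v hv => Or.inr hv
    · exact absurd h2 (D.free c h1).2
  have qa : rt a ∈ r '' Q := by
    obtain ⟨v, v1, v2⟩ := D.qa
    exact ⟨v, v1, h.ins a la v v2⟩
  have qb : rt b ∈ r '' Q := by
    obtain ⟨v, v1, v2⟩ := D.qb
    exact ⟨v, v1, h.ins b lb v v2⟩
  have eQ : r '' (Q ∪ a ∪ b) = r '' Q := by
    rw [image_union, image_union, h.img la, h.img lb,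
      union_eq_self_of_subset_right (singleton_subset_iff.2 qa),
      union_eq_self_of_subset_right (singleton_subset_iff.2 qb)]
  refine ⟨hU, hS, ?_, ?_, qa, ?_⟩
  · rw [← eQ, ← hT.img, ← h.un l2, ← lk_q (hU.diff hT) (D.s2 ▸ hS), ← D.s2]
  · rw [← h.un l2, disjoint_left]
    rintro _ ⟨q, q1, rfl⟩ ⟨x, ⟨s, x1, x2⟩, e⟩
    exact disjoint_left.1 D.d2 q1 ⟨s, x1, h.port (l2 s x1) x q e x2⟩
  · have k := wq (H := H) hN h hU (M := a :: A1 ++ [b]) (fun s hs => (hL s).2 (Or.inl hs))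
      ((e2 ▸ D.dis).sublist (List.sublist_append_left _ _)) (fun s => D.sep w) hS
      (fun s hs => ((hL s).1 hs).imp id D.port) (by simpa using w)
    simpa using k

theorem Dat.core (hN : NfS) (hC : CutRS) [Finite V] (D : Dat H U Q S1 S2 a b A1 A2)
    (hT : Tight H U) (h : Rt (a :: A1 ++ b :: A2) r rt) (w1 : ¬ PX H U (a :: A1 ++ [b, S2]))
    (w2 : ¬ PX H U (b :: A2 ++ [a, S1])) :
    Sat r U ∧ Sat r S1 ∧ Sat r S2 ∧ (rt a :: A1.map rt ++ rt b :: A2.map rt).Nodup ∧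
    ∃ (Y : List V) (H1 H2 : SimpleGraph V) (U1 U2 : Set V),
      Split (qg H r) H1 H2 (r '' U) U1 U2 (ls (rt a :: Y ++ [rt b])) ∧
      (rt a :: Y ++ [rt b]).Nodup ∧ r '' S1 ⊆ U1 \ U2 ∧ r '' S2 ⊆ U2 \ U1 ∧
      (∀ y ∈ Y, y ∈ lk (qg H r) (r '' U \ (r '' S1 ∪ r '' S2)) {rt a}) ∧
      ¬ Cr H1 U1 (rt a :: A1.map rt ++ rt b :: Y.reverse) ∧
      ¬ Cr H2 U2 (rt b :: A2.map rt ++ rt a :: Y) := by
  obtain ⟨hU, s2, e2, d2, qa, p1⟩ := D.side hN h (fun s => by simp [or_assoc]) w1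
  obtain ⟨-, s1, e1, d1, qb, p2⟩ := D.symm.side hN h (fun s => by simp; tauto) w2
  have e : rt a :: A1.map rt ++ rt b :: A2.map rt = (a :: A1 ++ b :: A2).map rt := by simp
  have nd : (rt a :: A1.map rt ++ rt b :: A2.map rt).Nodup := by
    rw [e]
    exact List.pairwise_map.2 (h.dis.imp_of_mem fun {s t} hs ht z c =>
      disjoint_left.1 z (h.mem s hs) (c ▸ h.mem t ht))
  have so : Soc (qg H r) (r '' U) (rt a :: A1.map rt ++ rt b :: A2.map rt) := by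
    refine ⟨?_, nd, fun x hx => ?_⟩
    · rintro _ _ ⟨_, x, y, c, rfl, rfl⟩
      exact ⟨x, hT x y c, rfl⟩
    · rw [e] at hx
      exact image_mono D.sub ((h.un fun _ c => c).ge hx)
  obtain ⟨Y, H1, H2, U1, U2, k1, k2, k3, k4, k5, k6, k7, -⟩ := hC V _ _ _ _ _ _ _ _ _ so
    (image_mono D.qs) (conn_q qadj D.qc) qa qb d1 d2 e1 e2 p1 p2
  exact ⟨hU, s1, s2, nd, Y, H1, H2, U1, U2, k1, k2, k3, k4, k5, k6, k7⟩

theorem Dat.seam (D : Dat H U Q S1 S2 a b A1 A2) (h : Rt (a :: A1 ++ b :: A2) r rt) {Y : List V}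
    (nd : (rt a :: Y ++ [rt b]).Nodup)
    (k : ∀ y ∈ Y, y ∈ lk (qg H r) (r '' U \ (r '' S1 ∪ r '' S2)) {rt a}) {y : V} (hy : y ∈ Y) :
    y ∉ un (a :: A1 ++ b :: A2) ∧ r y = y ∧ ∀ v, r v = y → v = y := by
  obtain ⟨⟨u, -, e⟩, k2⟩ := (k y hy).1
  have m : ∀ v, r v = y → v ∉ un (a :: A1 ++ b :: A2) := by
    rintro v rfl ⟨s, h1, h2⟩
    have z := h.ins s h1 v h2
    simp only [List.cons_append, List.mem_cons, List.mem_append] at h1
    rcases h1 with rfl | h1 | rfl | h1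
    · exact (List.nodup_cons.1 nd).1 (List.mem_append_left _ (z ▸ hy))
    · exact k2 (Or.inl ⟨v, D.symm.port h1 h2, rfl⟩)
    · exact (List.nodup_append.1 nd).2.2 _ (List.mem_cons_of_mem _ hy) _
        (List.mem_singleton_self _) z
    · exact k2 (Or.inr ⟨v, D.port h1 h2, rfl⟩)
  have m2 : ∀ v, r v = y → v = y := fun v c => (h.off v (m v c)).symm.trans c
  obtain rfl := m2 u e
  exact ⟨m u e, e, m2⟩

theorem Dat.ne (D : Dat H U Q S1 S2 a b A1 A2) :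
    ∀ s ∈ a :: cutp.nz A1 ++ b :: cutp.nz A2, s.Nonempty := by
  intro s h
  simp only [List.cons_append, List.mem_cons, List.mem_append] at h
  rcases h with rfl | h | rfl | h
  exacts [D.qa.mono inter_subset_right, (mem_nz.1 h).2, D.qb.mono inter_subset_right,
    (mem_nz.1 h).2]

theorem Dat.loc (hN : NfS) (hC : CutRS) (hG : GlueS) [Finite V] (D : Dat H U Q S1 S2 a b A1 A2)
    (hT : Tight H U) (h : Rt (a :: A1 ++ b :: A2) r rt) (w1 : ¬ PX H U (a :: A1 ++ [b, S2]))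
    (w2 : ¬ PX H U (b :: A2 ++ [a, S1])) : ¬ PX H U (a :: A1 ++ b :: A2) := by
  obtain ⟨hU, s1, s2, nd, Y, H1, H2, U1, U2, k1, k2, k3, k4, k5, k6, k7⟩ := D.core hN hC hT h w1 w2
  have e : rt a :: A1.map rt ++ rt b :: A2.map rt = (a :: A1 ++ b :: A2).map rt := by simp
  intro k
  refine hG V _ H1 H2 _ U1 U2 _ _ _ _ Y k1 (List.nodup_append.2 ⟨nd, ?_, ?_⟩) ?_ ?_ k6 k7 ?_
  · exact (List.nodup_cons.1 (List.nodup_append.1 k2).1).2
  · rintro x hx _ hy rfl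
    rw [e] at hx
    obtain ⟨s, h1, rfl⟩ := List.mem_map.1 hx
    exact (D.seam h k2 k5 hy).1 ⟨s, h1, h.mem s h1⟩
  · intro x hx
    exact (k3 (image_mono (s := un A1) (fun v ⟨s, c, d⟩ => D.symm.port c d)
      ((h.un (M := A1) fun s c => by simp [c]).ge hx))).1
  · intro x hx
    exact (k4 (image_mono (s := un A2) (fun v ⟨s, c, d⟩ => D.port c d)
      ((h.un (M := A2) fun s c => by simp [c]).ge hx))).1
  · rw [(hN V _ _).2.1, e, ← h.map fun _ c => c]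
    exact px_map qadj le_rfl (fun s => h.port)
      (fun x _ y c => (h.fib x y c).imp id fun ⟨s, c1, c2, _⟩ => ⟨s, c1, c2⟩) k

theorem back (hN : NfS) (h : Rt LL r rt) {M : List (Set V)} {Z : List V} {U1 : Set V}
    (hM : ∀ s ∈ M, s ∈ LL) (hZ : ∀ y ∈ Z, r y = y ∧ ∀ v, r v = y → v = y)
    (he : ∀ x y, H.Adj x y → r x = r y ∨ H'.Adj (r x) (r y))
    (hc : ∀ s ∈ LL, s ∈ M ∨ ∀ x ∈ s, r x ∉ U1) (k : ¬ Cr H' U1 (M.map rt ++ Z)) :
    ¬ PX H (r ⁻¹' U1) (M ++ sg Z) := by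
  intro c
  have e : ((M ++ sg Z).map fun s => r '' s) = sg (M.map rt ++ Z) := by
    rw [List.map_append, h.map hM]
    simp only [sg, List.map_append, List.map_map]
    congr 1
    exact List.map_congr_left fun y hy => by simp [(hZ y hy).1]
  refine k (((hN V _ _).2.1 _).2 (e ▸ px_map he (image_preimage_subset r U1) ?_ ?_ c))
  · intro s hs
    rcases List.mem_append.1 hs with d | d
    · exact h.port (hM s d)
    · obtain ⟨y, h1, rfl⟩ := List.mem_map.1 d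
      rintro _ v e rfl
      exact (hZ _ h1).2 v (e.symm.trans (hZ _ h1).1)
  · intro x hx y e
    refine (h.fib x y e).imp id fun ⟨s, c1, c2, _⟩ => ⟨s, List.mem_append_left _ ?_, c2⟩
    exact (hc s c1).resolve_right fun d => d x c2 hx

/-- the edges that come from the first side -/
def pb (H H1 : SimpleGraph V) (U1 : Set V) (r : V → V) : SimpleGraph V where
  Adj u v := H.Adj u v ∧ (H1.Adj (r u) (r v) ∨ (r u = r v ∧ r u ∈ U1))
  symm := ⟨fun _ _ ⟨h, k⟩ => ⟨h.symm, k.imp (·.symm) fun ⟨c, d⟩ => ⟨c.symm, c ▸ d⟩⟩⟩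
  loopless := ⟨fun _ h => H.irrefl h.1⟩

theorem Dat.cut (hN : NfS) (hC : CutRS) [Finite V] (D : Dat H U Q S1 S2 a b A1 A2)
    (hT : Tight H U) (h : Rt (a :: A1 ++ b :: A2) r rt) (w : ¬ PX H U (a :: A1 ++ b :: A2)) :
    ∃ (Y : List V) (H1 H2 : SimpleGraph V) (U1 U2 : Set V),
      Split H H1 H2 U U1 U2 (a ∪ b ∪ ls Y) ∧ Y.Nodup ∧ Disjoint (ls Y) (a ∪ b) ∧
      S1 ⊆ U1 \ U2 ∧ S2 ⊆ U2 \ U1 ∧ (∀ y ∈ Y, y ∈ lk H (U \ (S1 ∪ S2)) (a ∪ b)) ∧
      ¬ PX H1 U1 (a :: A1 ++ b :: sg Y.reverse) ∧ ¬ PX H2 U2 (b :: A2 ++ a :: sg Y) := by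
  obtain ⟨hU, s1, s2, nd, Y, H1, H2, U1, U2, k1, k2, k3, k4, k5, k6, k7⟩ := D.core hN hC hT h
    (D.flat w) (D.symm.flat fun c => w ((hN V H U).2.2.1 _ _ List.isRotated_append c))
  have la : a ∈ a :: A1 ++ b :: A2 := by simp
  have lb : b ∈ a :: A1 ++ b :: A2 := by simp
  have sm := fun y (hy : y ∈ Y) => D.seam h k2 k5 hy
  have he : ∀ x y, (H \ pb H H1 U1 r).Adj x y → (r x = r y ∧ r x ∈ U2) ∨ H2.Adj (r x) (r y) := by
    rintro x y ⟨c, d⟩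
    rcases qadj (r := r) x y c with e | e
    · refine Or.inl ⟨e, Or.resolve_left (a := r x ∈ U1) ?_ fun z => d ⟨c, Or.inr ⟨e, z⟩⟩⟩
      exact k1.un.ge ⟨x, hT x y c, rfl⟩
    · rw [← k1.sup] at e
      exact Or.inr (Or.resolve_left e fun z => d ⟨c, Or.inl z⟩)
  refine ⟨Y, pb H H1 U1 r, H \ pb H H1 U1 r, r ⁻¹' U1, r ⁻¹' U2,
    ⟨sup_sdiff_cancel_right fun _ _ c => c.1, disjoint_sdiff_self_right, ?_, ?_, ?_, ?_⟩,
    (List.nodup_cons.1 (List.nodup_append.1 k2).1).2, ?_, fun v hv => k3 ⟨v, hv, rfl⟩,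
    fun v hv => k4 ⟨v, hv, rfl⟩, ?_, ?_, ?_⟩
  · rintro u v ⟨_, c | c⟩
    exacts [k1.t1 _ _ c, c.2]
  · intro u v c
    rcases he u v c with d | d
    exacts [d.2, k1.t2 _ _ d]
  · rw [← preimage_union, k1.un]
    exact Subset.antisymm (fun v hv => hU.mem hv) (subset_preimage_image r U)
  · rw [← preimage_inter, k1.int]
    ext v
    simp only [ls, mem_preimage, mem_ofPred_eq, List.cons_append, List.mem_cons, List.mem_append,
      List.not_mem_nil, or_false, mem_union]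
    constructor
    · rintro (c | c | c)
      · exact Or.inl (Or.inl ((h.port la).mem (by rw [h.img la]; exact c)))
      · exact Or.inr ((sm _ c).2.2 v rfl ▸ c)
      · exact Or.inl (Or.inr ((h.port lb).mem (by rw [h.img lb]; exact c)))
    · rintro ((c | c) | c)
      · exact Or.inl (h.ins a la v c)
      · exact Or.inr (Or.inr (h.ins b lb v c))
      · exact Or.inr (Or.inl ((sm v c).2.1.symm ▸ c))
  · rw [disjoint_left]
    rintro y hy (c | c)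
    exacts [(sm y hy).1 ⟨a, la, c⟩, (sm y hy).1 ⟨b, lb, c⟩]
  · intro y hy
    have hW := hU.diff (s1.union s2)
    have hk : Sat r (lk H (U \ (S1 ∪ S2)) (a ∪ b)) := fun x z e hx => by
      rcases h.fib x z e with rfl | ⟨s, c1, c2, c3⟩
      · exact hx
      · refine lk_self (hW x z e hx.1) ?_
        simp only [List.cons_append, List.mem_cons, List.mem_append] at c1
        rcases c1 with rfl | c1 | rfl | c1
        exacts [Or.inl c3, absurd (Or.inl (D.symm.port c1 c2)) hx.1.2, Or.inr c3,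
          absurd (Or.inr (D.port c1 c2)) hx.1.2]
    refine hk.mem ?_
    rw [lk_q hW hk, (s1.union s2).img, image_union r S1, (sm y hy).2.1]
    obtain ⟨c1, _, rfl, c2⟩ := k5 y hy
    exact ⟨c1, _, ⟨rt a, Or.inl (h.mem a la), h.ins a la _ (h.mem a la)⟩, c2⟩
  · have k := back (H := pb H H1 U1 r) (H' := H1) hN h (M := a :: A1 ++ [b]) (Z := Y.reverse)
      (U1 := U1) (fun s c => by simp at c ⊢; tauto) (fun y c => (sm y (List.mem_reverse.1 c)).2)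
      (fun x y c => c.2.symm.imp (·.1) id) (fun s c => ?_) (by simpa using k6)
    · simpa using k
    · refine Or.imp id (fun d x e => (k4 ⟨x, D.port d e, rfl⟩).2) ?_
      simp at c ⊢
      tauto
  · have k := back (H := H \ pb H H1 U1 r) (H' := H2) hN h (M := b :: A2 ++ [a]) (Z := Y)
      (U1 := U2) (fun s c => by simp at c ⊢; tauto) (fun y c => (sm y c).2)
      (fun x y c => (he x y c).imp (·.1) id) (fun s c => ?_) (by simpa using k7)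
    · simpa using k
    · refine Or.imp id (fun d x e => (k3 ⟨x, D.symm.port d e, rfl⟩).2) ?_
      simp at c ⊢
      tauto

end cutp

open cutp

theorem cutPS : NfS → CtrS → CutRS → CutPS := by
  intro hN _ hC V _ H U Q S1 S2 a b A1 A2 hT h1 h2 h3 h4 h5 h6 h7 h8 h9 h10 w
  have D : Dat H U Q S1 S2 a b A1 A2 := ⟨h1, h2, h3, h4, h5, h6, h7, h8, h9, h10⟩
  have : Nonempty V := ⟨h5.some⟩
  obtain ⟨r, rt, h⟩ := exists_rt D.nz.dis D.ne
  obtain ⟨Y, H1, H2, U1, U2, k1, k2, k3, k4, k5, k6, k7, k8⟩ := D.nz.cut hN hC hT h fun c => w <| by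
    have k := px_nz1 (H := H) (U := U) (X := a :: A1 ++ [b]) (A := A2) (Z := [])
    simp only [List.append_nil, List.append_assoc, List.singleton_append] at k
    exact k.1 (px_nz2.1 c)
  exact ⟨Y, H1, H2, U1, U2, k1, k2, k3, k4, k5, k6, fun c => k7 (px_nz2.2 c),
    fun c => k8 (px_nz2.2 c)⟩

theorem locS : NfS → CtrS → CutRS → GlueS → LocS := by
  intro hN _ hC hG V _ H U Q S1 S2 a b A1 A2 h1 h2 h3 h4 h5 h6 h7 h8 h9 h10 w1 w2 w
  have D : Dat H U Q S1 S2 a b A1 A2 := ⟨h1, h2, h3, h4, h5, h6, h7, h8, h9, h10⟩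
  have : Nonempty V := ⟨h5.some⟩
  obtain ⟨r, rt, h⟩ := exists_rt D.nz.dis D.ne
  refine D.nz.res.loc hN hC hG (fun _ _ c => c.2.1) h (fun c => w1 (px_nz2.1 (px_res.1 c)))
    (fun c => w2 (px_nz2.1 (px_res.1 c))) (px_res.2 (px_nz2.2 ?_))
  have k := px_nz1 (H := H) (U := U) (X := a :: A1 ++ [b]) (A := A2) (Z := [])
  simp only [List.append_nil, List.append_assoc, List.singleton_append] at k
  exact k.2 w

end Pool.Agent.MP_9d78a0_co.st

end MrgPart1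

-- ======== part 2: formerly Pool.Agent.MP_9d78a0_co.st.SB
section MrgPart2

/-! The structure theorem, part B: crooked linkages and one vortex. -/

set_option autoImplicit false

namespace Pool.Agent.MP_9d78a0_co.st

open Set Function fb

/-- `c` and `d` lie on different sides of the chord `a b` -/
def Xs (a b c d : ℕ) : Prop := (Btw a b c ∧ ¬ Btw a b d) ∨ (Btw a b d ∧ ¬ Btw a b c)

/-- the ends of `n` chords are all different -/
def Dst (n : ℕ) (x y : ℕ → ℕ) : Prop :=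
  ∀ i < n, ∀ j < n, x i ≠ y j ∧ (i ≠ j → x i ≠ x j ∧ y i ≠ y j)

/-- no chord is peripheral -/
def Crook (n : ℕ) (x y : ℕ → ℕ) : Prop :=
  ∀ i < n, (∃ j < n, Btw (x i) (y i) (x j) ∨ Btw (x i) (y i) (y j)) ∧
    ∃ j < n, j ≠ i ∧ (¬ Btw (x i) (y i) (x j) ∨ ¬ Btw (x i) (y i) (y j))

/-- `p` chords leave an interval -/
def Trn (n : ℕ) (x y : ℕ → ℕ) (p : ℕ) : Prop :=
  ∃ (α β : ℕ) (t : ℕ → ℕ), InjOn t (Iio p) ∧
    ∀ i < p, t i < n ∧ (x (t i) ∈ Ico α β ↔ y (t i) ∉ Ico α β)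

/-- a crooked diagram with a transaction -/
structure Dg (n : ℕ) (x y : ℕ → ℕ) (p : ℕ) : Prop where
  dst : Dst n x y
  crook : Crook n x y
  trn : Trn n x y p

section defs

variable {V : Type}

open Classical in
/-- the place of a letter -/
noncomputable def pos (L : List V) (v : V) : ℕ := L.idxOf v

/-- `n` disjoint connected sets with given ends -/
structure Lkg (H : SimpleGraph V) (U : Set V) (n : ℕ) (u v : ℕ → V) (Q : ℕ → Set V) : Prop where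
  mem : ∀ i < n, Q i ⊆ U ∧ Conn H (Q i) ∧ u i ∈ Q i ∧ v i ∈ Q i
  dis : ∀ i < n, ∀ j < n, i ≠ j → Disjoint (Q i) (Q j)

/-- a crooked linkage with `n` members that contains a transaction of order `p` -/
def CrkN (H : SimpleGraph V) (U : Set V) (L : List V) (n p : ℕ) : Prop :=
  ∃ (u v : ℕ → V) (Q : ℕ → Set V), Lkg H U n u v Q ∧ (∀ i < n, u i ∈ L ∧ v i ∈ L) ∧
    Dg n (fun i => pos L (u i)) (fun i => pos L (v i)) p

def Crk (H : SimpleGraph V) (U : Set V) (L : List V) (p : ℕ) : Prop := ∃ n, CrkN H U L n p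

end defs

/-- pruning, crossing pairs, monotone transactions -/
def PruneS : Prop :=
  (∀ (n p α β : ℕ) (x y t : ℕ → ℕ), Dst n x y → Crook n x y → 0 < p → InjOn t (Iio p) →
    (∀ i < p, t i < n ∧ (x (t i) ∈ Ico α β ↔ y (t i) ∉ Ico α β)) →
    ∃ (m : ℕ) (e : ℕ → ℕ), p ≤ m ∧ m ≤ p + 4 ∧ InjOn e (Iio m) ∧ (∀ i < m, e i < n) ∧
      (∀ i < p, e i = t i) ∧ Dg m (x ∘ e) (y ∘ e) p) ∧
  (∀ (n α β : ℕ) (x y : ℕ → ℕ) (J : Set ℕ), Dst n x y → Crook n x y →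
    J = Ico α β ∨ J = (Ico α β)ᶜ → (∀ i < n, x i ∈ J ↔ y i ∈ J) → (∃ i < n, x i ∈ J) →
    ∃ i < n, ∃ j < n, x i ∈ J ∧ x j ∈ J ∧ i ≠ j ∧ Xs (x i) (y i) (x j) (y j)) ∧
  (∀ M, ∃ N, ∀ x y : ℕ → ℕ, InjOn x (Iio N) → InjOn y (Iio N) →
    ∃ e : ℕ → ℕ, (∀ i < M, e i < N) ∧ (∀ i j, i < j → j < M → x (e i) < x (e j)) ∧ Mo (y ∘ e) M) ∧
  ∀ M, ∃ p, ∀ (n : ℕ) (x y : ℕ → ℕ), Dst n x y → Trn n x y p →
    ∃ t : ℕ → ℕ, InjOn t (Iio M) ∧ (∀ i < M, t i < n) ∧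
      (∀ i j, i < j → j < M → min (x (t i)) (y (t i)) < min (x (t j)) (y (t j))) ∧
      Mo (fun i => max (x (t i)) (y (t i))) M ∧
      ∀ i < M, ∀ j < M, min (x (t i)) (y (t i)) < max (x (t j)) (y (t j))

/-- transport of crooked linkages -/
def CrkS : Prop :=
  ∀ (V : Type) (H : SimpleGraph V) (U : Set V) (L : List V) (n p : ℕ), L.Nodup →
    (∀ H' U', H ≤ H' → U ⊆ U' → CrkN H U L n p → CrkN H' U' L n p) ∧
    (∀ L', List.Sublist L' L → CrkN H U L' n p → CrkN H U L n p) ∧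
    (∀ L', List.IsRotated L L' → CrkN H U L n p → CrkN H U L' n p) ∧
    (CrkN H U L n p → CrkN H U L.reverse n p) ∧
    (0 < p → CrkN H U L n p → ∃ m ≤ p + 4, CrkN H U L m p) ∧
    (Cr H U L → CrkN H U L 2 1) ∧
    (∀ a ∈ L, ∀ b ∈ L, ∀ c ∈ L, ∀ d ∈ L, Xs (pos L a) (pos L c) (pos L b) (pos L d) → a ≠ b → a ≠ d → c ≠ b → c ≠ d →
      ∀ P Q, Two H U P Q → a ∈ P → c ∈ P → b ∈ Q → d ∈ Q →
      ∃ a' b' c' d', List.Sublist [a', b', c', d'] L ∧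
        ((a' ∈ P ∧ c' ∈ P ∧ b' ∈ Q ∧ d' ∈ Q) ∨ (a' ∈ Q ∧ c' ∈ Q ∧ b' ∈ P ∧ d' ∈ P))) ∧
    ∀ a b c d, List.Sublist [a, b, c, d] L → pos L a < pos L b ∧ pos L b < pos L c ∧
      pos L c < pos L d

/-- removing caps -/
def UncapS : Prop :=
  ∀ (E : Finset ℕ) (σ ν : ℕ → ℕ) (n p : ℕ) (x y : ℕ → ℕ), Involutive σ → Involutive ν →
    (∀ z ∈ E, σ z ∈ E ∧ σ z ≠ z ∧ ν z ∈ E) →
    (∀ z ∈ E, ∀ w ∈ E, ν z ≠ z → ν w ≠ w → w ≠ z → w ≠ ν z → ¬ Xs z (ν z) w (ν w)) →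
    (∀ z ∈ E, ν z ≠ z → ∀ a ∈ E, ∀ b ∈ E, ν a = a → ν b = b → ¬ Xs z (ν z) a b) →
    (∀ z ∈ E, ν z = z ↔ ∃ i < n, z = x i ∨ z = y i) →
    (∀ i < n, x i ∈ E ∧ y i ∈ E ∧ CC σ ν (x i) (y i)) → Dg n x y p →
    ∃ (m : ℕ) (u : ℕ → ℕ), (∀ i < m, u i ∈ E) ∧ Dg m u (σ ∘ u) p

/-- index `k` starts a run of deep indices -/
def St (deep : ℕ → Prop) (k : ℕ) : Prop := deep k ∧ (k = 0 ∨ ¬ deep (k - 1))

/-- index `k` ends a run of deep indices -/
def En (deep : ℕ → Prop) (l k : ℕ) : Prop := deep k ∧ (k = l ∨ ¬ deep (k + 1))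

/-- the indices strictly between the deep indices `k` and `k'` exist and are shallow -/
def Cap (deep : ℕ → Prop) (l k k' : ℕ) : Prop :=
  k + 1 < k' ∧ k' ≤ l ∧ deep k ∧ deep k' ∧ ∀ j, k < j → j < k' → ¬ deep j

/-- the deep runs of `n` paths contain a crooked diagram -/
def RunsS : Prop :=
  ∀ (n p : ℕ) (x y l fs la : ℕ → ℕ) (deep : ℕ → ℕ → Prop) (π : ℕ → ℕ → ℕ), Dg n x y p →
    (∀ i < n, deep i (fs i) ∧ (∀ k < fs i, ¬ deep i k) ∧ deep i (la i) ∧ la i ≤ l i ∧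
      ∀ k, la i < k → k ≤ l i → ¬ deep i k) →
    (∀ i < n, ∀ k ≤ l i, St (deep i) k → ¬ En (deep i) (l i) k) →
    (∀ i < n, ∀ k ≤ l i, ∀ i' < n, ∀ k' ≤ l i', St (deep i) k ∨ En (deep i) (l i) k →
      St (deep i') k' ∨ En (deep i') (l i') k' → π i k = π i' k' → i = i' ∧ k = k') →
    (∀ e : Fin 4 → ℕ × Bool, Injective e → (∀ t, (e t).1 < n) →
      let o : Fin 4 → ℕ := fun t => if (e t).2 then y (e t).1 else x (e t).1
      let w : Fin 4 → ℕ := fun t => π (e t).1 (if (e t).2 then la (e t).1 else fs (e t).1)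
      Xs (o 0) (o 1) (o 2) (o 3) → Xs (w 0) (w 1) (w 2) (w 3)) →
    (∀ i < n, ∀ k k', Cap (deep i) (l i) k k' →
      (∀ j < n, ∀ m m', Cap (deep j) (l j) m m' → (i, k) ≠ (j, m) →
        ¬ Xs (π i k) (π i k') (π j m) (π j m')) ∧
      ∀ j < n, ∀ j' < n, ∀ m m', m = fs j ∨ m = la j → m' = fs j' ∨ m' = la j' →
        ¬ Xs (π i k) (π i k') (π j m) (π j' m')) →
    ∃ (m : ℕ) (r s t : ℕ → ℕ),
      (∀ j < m, r j < n ∧ s j < t j ∧ t j ≤ l (r j) ∧ St (deep (r j)) (s j) ∧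
        En (deep (r j)) (l (r j)) (t j) ∧ ∀ k, s j ≤ k → k ≤ t j → deep (r j) k) ∧
      Dg m (fun j => π (r j) (s j)) (fun j => π (r j) (t j)) p

/-- a linkage is rerouted so that it makes no turns in the middle levels -/
def RivS : Prop :=
  ∀ k, ∃ g s0, ∀ (V : Type) [Finite V] (H : SimpleGraph V) (U : Set V) (lev : V → ℕ)
    (D : ℕ → Set V) (s : ℕ) (u v : ℕ → V) (Q : ℕ → Set V), s0 ≤ s →
    LBand H ∅ U lev D (fun _ _ => ∅) s 0 →
    (∀ x ∈ U, ∀ y ∈ U, H.Adj x y → lev y ≤ lev x + 1) → Lkg H U k u v Q →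
    (∀ i < k, (lev (u i) = 0 ∨ lev (u i) = s) ∧ (lev (v i) = 0 ∨ lev (v i) = s)) →
    ∃ (f : ℕ → ℕ → V) (l : ℕ → ℕ) (α β lam : ℕ), α + g ≤ β ∧ β + 3 ≤ lam ∧ lam + 2 < s ∧
      (∀ i < k, IsPath H U (f i) (l i) ∧ f i 0 = u i ∧ f i (l i) = v i) ∧
      (∀ i < k, ∀ j < k, i ≠ j → ∀ a ≤ l i, ∀ b ≤ l j, f i a ≠ f j b) ∧
      (∀ i < k, ∀ a b c, a < b → b < c → c ≤ l i →
        (lam ≤ lev (f i a) + 1 → lam ≤ lev (f i c) + 1 → lev (f i b) ≤ β →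
          ∃ e, a < e ∧ e < c ∧ lev (f i e) ≤ α) ∧
        (lev (f i a) ≤ β → lev (f i c) ≤ β → lam ≤ lev (f i b) + 1 →
          ∃ e, a < e ∧ e < c ∧ lam + 1 ≤ lev (f i e))) ∧
      ∀ F : Finset (ℕ × ℕ × ℕ),
        (∀ t ∈ F, t.1 < k ∧ t.2.2 ≤ l t.1 ∧ (∃ a ∈ Icc t.2.1 t.2.2, lev (f t.1 a) ≤ β) ∧
          ∃ a ∈ Icc t.2.1 t.2.2, lam ≤ lev (f t.1 a) + 1) →
        (∀ t ∈ F, ∀ t' ∈ F, t ≠ t' → t.1 = t'.1 → t.2.2 < t'.2.1 ∨ t'.2.2 < t.2.1) → F.card ≤ g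

/-- a crooked linkage is moved off the letters behind a flat strip -/
def SliftS : Prop :=
  ∀ n p, ∃ m, 0 < m ∧ ∀ (V : Type) [Finite V] (H : SimpleGraph V) (U : Set V) (L1 Y L2 Ld : List V)
    (x y : ℕ → V) (Q : ℕ → Set V), Soc H U (L1 ++ Y ++ L2 ++ Ld) → Lkg H U m x y Q →
    (∀ l < m, Q l ∩ ls (L1 ++ Y ++ L2 ++ Ld) = {x l, y l}) →
    List.Sublist ((List.range m).map y).reverse L1 → List.Sublist ((List.range m).map x) L2 →
    L1.head? = some (y (m - 1)) → L2.getLast? = some (x (m - 1)) →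
    ¬ PX H U (sg (L1 ++ Y ++ L2) ++ [lk H (U \ Q (m - 1)) (ls Ld)]) →
    ∀ n' ≤ n, CrkN H U (L1 ++ Y ++ L2 ++ Ld) n' p → Crk H U (L1 ++ L2 ++ Ld) p

/-- a crooked linkage, or a drawing with one hole of bounded depth -/
def VorS : Prop :=
  ∀ p, ∃ d, ∀ (V : Type) [Finite V] (H : SimpleGraph V) (U : Set V) (L : List V), Soc H U L →
    Crk H U L p ∨ Drawn H U [L] 0 1 d

end Pool.Agent.MP_9d78a0_co.st

end MrgPart2

-- ======== part 3: formerly Pool.Agent.MP_9d78a0_co.st.SC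
section MrgPart3

/-! The structure theorem, parts C and D: collars, panels and complete minors. -/

set_option autoImplicit false

namespace Pool.Agent.MP_9d78a0_co.st

open Set Function fb

/-- the data of a collar: hub, rings `0, …, s`, columns `0, …, t - 1` -/
structure CD (V : Type) where
  I : Set V
  s : ℕ
  t : ℕ
  C : ℕ → ℕ → Set V
  Λ : ℕ → Set V
  o : ℕ → V
  seg : ℕ → List V

/-- the data of a panel: columns `0, …, n`, vertex set `P`, angle `κ`, level `lev` -/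
structure PD (V : Type) where
  n : ℕ
  s : ℕ
  C : ℕ → ℕ → Set V
  Λ : ℕ → Set V
  o : ℕ → V
  seg : ℕ → List V
  P : Set V
  κ : V → ℕ
  lev : V → ℕ

section defs

variable {V : Type}

/-- a union of three paths -/
def Thin (H : SimpleGraph V) (S : Set V) : Prop :=
  ∃ (f : Fin 3 → ℕ → V) (l : Fin 3 → ℕ), (∀ t, IsPath H S (f t) (l t)) ∧
    ∀ v ∈ S, ∃ t, ∃ x ≤ l t, f t x = v

/-- neighbouring angles on a line -/
def LSt (a b : ℕ) : Prop :=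
  a = b ∨ a + 1 = b ∨ b + 1 = a ∨ (a % 2 = 0 ∧ (a + 2 = b ∨ b + 2 = a))

namespace CD

variable (c : CD V)

/-- the part of column `i` at the levels `l, …, s` -/
def up (l i : ℕ) : Set V := c.Λ i ∪ {v | ∃ l', l ≤ l' ∧ l' ≤ c.s ∧ v ∈ c.C l' i}

def col (i : ℕ) : Set V := c.up 0 i

def cols : Set V := {v | ∃ i < c.t, v ∈ c.col i}

def ring (l : ℕ) : Set V := {v | ∃ i < c.t, v ∈ c.C l i}

/-- the inside of ring `l` -/
def In (H : SimpleGraph V) (U : Set V) (l : ℕ) : Set V := lk H (U \ c.ring l) c.I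

def Core (H : SimpleGraph V) (U : Set V) : Set V := c.In H U c.s ∪ c.cols

/-- the panel on the columns `u, …, u + n` modulo `t` -/
def pan (U : Set V) (lev ang : V → ℕ) (u n : ℕ) : PD V where
  n := n
  s := c.s
  C := fun l e => c.C l ((u + e) % c.t)
  Λ := fun e => c.Λ ((u + e) % c.t)
  o := fun e => c.o ((u + e) % c.t)
  seg := fun e => c.seg ((u + e) % c.t)
  P := {v | v ∈ U \ c.I ∧ ang v < 2 * c.t ∧ (ang v + 2 * c.t - 2 * u) % (2 * c.t) ≤ 2 * n}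
  κ := fun v => (ang v + 2 * c.t - 2 * u) % (2 * c.t)
  lev := lev

end CD

/-- a collar with arbitrary cells -/
structure FCol (H : SimpleGraph V) (U : Set V) (Ω : List V) (c : CD V) : Prop where
  soc : Soc H U Ω
  rot : List.IsRotated Ω (cyc c.o c.seg c.t)
  t4 : 4 ≤ c.t
  cell : ∀ l ≤ c.s, ∀ i < c.t, c.C l i ⊆ U \ (c.I ∪ ls Ω) ∧ Conn H (c.C l i)
  dis : ∀ l ≤ c.s, ∀ i < c.t, ∀ l' ≤ c.s, ∀ i' < c.t, (l, i) ≠ (l', i') →
    Disjoint (c.C l i) (c.C l' i')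
  hor : ∀ l ≤ c.s, ∀ i < c.t, Touch H (c.C l i) (c.C l ((i + 1) % c.t))
  ver : ∀ l < c.s, ∀ i < c.t, Touch H (c.C l i) (c.C (l + 1) i)
  lam : ∀ i < c.t, c.Λ i ⊆ U \ c.I ∧ Conn H (c.Λ i) ∧ Touch H (c.C c.s i) (c.Λ i) ∧
    c.Λ i ∩ ls Ω = {c.o i}
  lamd : ∀ i < c.t, ∀ j < c.t, (i ≠ j → Disjoint (c.Λ i) (c.Λ j)) ∧
    ∀ l ≤ c.s, Disjoint (c.Λ i) (c.C l j)
  hub : c.I ⊆ U ∧ Conn H c.I ∧ Disjoint c.I (ls Ω) ∧ ∀ i < c.t, Touch H c.I (c.C 0 i)
  flat : HF H U Ω c.I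

/-- a collar with thin cells whose hub fills the inside of ring `0` -/
structure Col (H : SimpleGraph V) (U : Set V) (Ω : List V) (c : CD V) : Prop
    extends FCol H U Ω c where
  thin : ∀ l ≤ c.s, ∀ i < c.t, Thin H (c.C l i)
  sat : ∀ u ∈ c.I, ∀ v, H.Adj u v → v ∈ c.I ∨ v ∈ c.ring 0

/-- coordinates outside the hub -/
structure Crd (H : SimpleGraph V) (U : Set V) (Ω : List V) (c : CD V) (lev ang : V → ℕ) :
    Prop where
  rng : ∀ v ∈ U \ c.I, lev v ≤ c.s ∧ ang v ≤ 2 * c.t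
  col : ∀ v ∈ U \ c.I, ∀ i < c.t, ang v = 2 * i ↔ v ∈ c.col i
  cell : ∀ l ≤ c.s, ∀ i < c.t, ∀ v ∈ c.C l i, lev v = l
  lam : ∀ i < c.t, (∀ v ∈ c.Λ i, lev v = c.s) ∧ ∀ v ∈ c.seg i, lev v = c.s ∧ ang v = 2 * i + 1
  junk : ∀ v ∈ U \ c.I, ang v < 2 * c.t ↔ v ∈ lk H (U \ c.I) (ls Ω ∪ c.cols)
  stp : ∀ u ∈ U \ c.I, ∀ v ∈ U \ c.I, H.Adj u v → (ang u < 2 * c.t → Stp c.t (ang u) (ang v)) ∧
    lev v ≤ lev u + 1 ∧ (lev v = lev u + 1 → v ∈ c.ring (lev v))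
  inn : ∀ l ≤ c.s, ∀ v ∈ U \ c.I, v ∈ c.In H U l ↔ lev v < l
  down : ∀ v ∈ U \ c.I, lev v < c.s → ∃ w ∈ c.ring (lev v),
    Link H ({x | x ∈ U \ c.I ∧ lev x = lev v ∧ ang x = ang v} ∪ {w}) v w
  att : ∀ v ∈ U \ c.I, ang v < 2 * c.t → ∃ w ∈ ls Ω ∪ c.cols,
    Link H ({x | x ∈ U \ c.I ∧ ang x = ang v} ∪ {w}) v w

namespace PD

variable (p : PD V)

def up (l e : ℕ) : Set V := p.Λ e ∪ {v | ∃ l', l ≤ l' ∧ l' ≤ p.s ∧ v ∈ p.C l' e}

def col (e : ℕ) : Set V := p.up 0 e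

def cols : Set V := {v | ∃ e ≤ p.n, v ∈ p.col e}

def ring (l : ℕ) : Set V := {v | ∃ e ≤ p.n, v ∈ p.C l e}

/-- the letters from `o u` to `o (u + m)` -/
def lin (u m : ℕ) : List V :=
  ((List.range m).flatMap fun j => p.o (u + j) :: p.seg (u + j)) ++ [p.o (u + m)]

/-- the same panel read backwards -/
def rev : PD V where
  n := p.n
  s := p.s
  C := fun l e => p.C l (p.n - e)
  Λ := fun e => p.Λ (p.n - e)
  o := fun e => p.o (p.n - e)
  seg := fun e => (p.seg (p.n - 1 - e)).reverse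
  P := p.P
  κ := fun v => 2 * p.n - p.κ v
  lev := p.lev

/-- the columns `u, …, u + m` -/
def sub (u m : ℕ) : PD V where
  n := m
  s := p.s
  C := fun l e => p.C l (u + e)
  Λ := fun e => p.Λ (u + e)
  o := fun e => p.o (u + e)
  seg := fun e => p.seg (u + e)
  P := {v | v ∈ p.P ∧ 2 * u ≤ p.κ v ∧ p.κ v ≤ 2 * (u + m)}
  κ := fun v => p.κ v - 2 * u
  lev := p.lev

end PD

/-- a flat sector of a collar, outside the set `I` -/
structure Pan (H : SimpleGraph V) (U I : Set V) (p : PD V) : Prop where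
  sub : p.P ⊆ U \ I
  cell : ∀ l ≤ p.s, ∀ e ≤ p.n, Conn H (p.C l e) ∧ ∀ v ∈ p.C l e, p.lev v = l ∧ v ∉ p.lin 0 p.n
  hor : ∀ l ≤ p.s, ∀ e < p.n, Touch H (p.C l e) (p.C l (e + 1))
  ver : ∀ l < p.s, ∀ e ≤ p.n, Touch H (p.C l e) (p.C (l + 1) e)
  lam : ∀ e ≤ p.n, Conn H (p.Λ e) ∧ Touch H (p.C p.s e) (p.Λ e) ∧ p.o e ∈ p.Λ e ∧
    Disjoint (p.Λ e) (p.C p.s e) ∧ ∀ v ∈ p.Λ e, p.lev v = p.s
  nd : (p.lin 0 p.n).Nodup
  seg : ∀ e < p.n, ∀ v ∈ p.seg e, v ∈ p.P ∧ p.lev v = p.s ∧ p.κ v = 2 * e + 1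
  rng : ∀ v ∈ p.P, p.lev v ≤ p.s ∧ p.κ v ≤ 2 * p.n
  col : ∀ e ≤ p.n, ∀ v, v ∈ p.col e ↔ v ∈ p.P ∧ p.κ v = 2 * e
  clo : ∀ v ∈ p.P, 0 < p.κ v → p.κ v < 2 * p.n → ∀ y, H.Adj v y →
    y ∈ p.P ∨ (y ∈ I ∧ v ∈ p.ring 0)
  stp : ∀ u ∈ p.P, ∀ v ∈ p.P, H.Adj u v → LSt (p.κ u) (p.κ v) ∧ p.lev v ≤ p.lev u + 1 ∧
    (p.lev v = p.lev u + 1 → v ∈ p.ring (p.lev v))
  foot : ∀ v ∈ p.P, ∀ y ∈ I, H.Adj v y → v ∈ p.ring 0
  down : ∀ v ∈ p.P, p.lev v < p.s → ∃ w ∈ p.ring (p.lev v),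
    Link H ({x | x ∈ p.P ∧ p.lev x = p.lev v ∧ p.κ x = p.κ v} ∪ {w}) v w
  att : ∀ v ∈ p.P, ∃ w ∈ ls (p.lin 0 p.n) ∪ p.cols,
    Link H ({x | x ∈ p.P ∧ p.κ x = p.κ v} ∪ {w}) v w
  flat : ∀ l ≤ p.s, ¬ PX H (p.P ∪ I) (sg (p.lin 0 p.n) ++ [I ∪ {v | v ∈ p.P ∧ p.lev v < l}])

/-- chords realised inside `W` through the vertices `ob` -/
structure Ch (G : SimpleGraph V) (W : Set V) (ob : ℕ → V) (n : ℕ) (x y : ℕ → ℕ)
    (X : ℕ → Set V) : Prop where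
  lkg : Lkg G W n (ob ∘ x) (ob ∘ y) X
  dst : Dst n x y

/-- `K` nested chords in `[lo, hi]` round the interval `[a, b]` -/
def Nest (K lo hi a b : ℕ) (x y : ℕ → ℕ) : Prop :=
  (∀ i j, i < j → j < K → x i < x j ∧ y j < y i) ∧
    ∀ i < K, lo ≤ x i ∧ x i < a ∧ b < y i ∧ y i ≤ hi

/-- `K` hairpins round `[a, b]` -/
def Pins (G : SimpleGraph V) (ob : ℕ → V) (K : ℕ) (W : Set V) (lo hi a b : ℕ) : Prop :=
  a ≤ b ∧ ∃ x y X, Ch G W ob K x y X ∧ Nest K lo hi a b x y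

/-- a gadget with hull `[lo, hi]` and exit `ex` -/
def Item (G : SimpleGraph V) (ob : ℕ → V) (K : ℕ) (W : Set V) (lo hi ex : ℕ) : Prop :=
  (ex = lo ∧ ∃ a b c d W0 P Q, Pins G ob K W0 lo hi a d ∧ a < b ∧ b < c ∧ c < d ∧ W0 ⊆ W ∧
    Two G (W \ W0) P Q ∧ ob a ∈ P ∧ ob c ∈ P ∧ ob b ∈ Q ∧ ob d ∈ Q) ∨
  (ex = lo ∧ ∃ x y X, Ch G W ob K x y X ∧ (∀ i j, i < j → j < K → x i < x j ∧ y i < y j) ∧
    ∀ i < K, ∀ j < K, lo ≤ x i ∧ x i < y j ∧ y j ≤ hi) ∨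
  (ex ∉ Icc lo hi ∧ ∃ u W0 E, Pins G ob K W0 lo hi u u ∧ W0 ⊆ W ∧ E ⊆ W \ W0 ∧ Conn G E ∧
    ob u ∈ E ∧ ob ex ∈ E)

/-- the involution `σ` is realised inside `W` -/
def Rl (G : SimpleGraph V) (W : Set V) (ob : ℕ → V) (lo n : ℕ) (σ : ℕ → ℕ) : Prop :=
  ∃ X : ℕ → Set V, ∀ x, σ x ≠ x → lo ≤ x ∧ x < n ∧ X x ⊆ W ∧ Conn G (X x) ∧ ob x ∈ X x ∧
    X (σ x) = X x ∧ ∀ y, σ y ≠ y → y ≠ x → y ≠ σ x → Disjoint (X x) (X y)

/-- the terminal pairs of a complete graph -/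
def Tst (h : ℕ) : Finset (ℕ × ℕ) :=
  ((Finset.range h ×ˢ Finset.range h).filter fun p => p.1 < p.2).image
    fun p => (p.1 * h + p.2, p.2 * h + p.1)

/-- no realised diagram routes the terminals -/
def Univ (G : SimpleGraph V) (h n : ℕ) (W : Set V) (ob : ℕ → V) : Prop :=
  h * h ≤ n ∧ ∀ σ, Involutive σ → Rl G W ob (h * h) n σ → ¬ Good σ (Tst h) (Iio n)

/-- `M` parallel rows -/
structure Rows (G : SimpleGraph V) (W : Set V) (ob : ℕ → V) (lo n M : ℕ) (a b : ℕ → ℕ)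
    (R : ℕ → Set V) : Prop where
  lkg : Lkg G W M (ob ∘ a) (ob ∘ b) R
  ma : ∀ i j, i < j → j < M → a i < a j
  mb : Mo b M
  ab : ∀ i < M, ∀ j < M, lo ≤ a i ∧ a i < b j ∧ b j < n

end defs

/-- the inside of a ring -/
def InS : Prop :=
  ∀ (V : Type) (H : SimpleGraph V) (U : Set V) (Ω : List V) (c : CD V), FCol H U Ω c →
    ∀ l ≤ c.s, Conn H (c.In H U l) ∧ c.I ⊆ c.In H U l ∧ Disjoint (c.In H U l) (ls Ω) ∧
      (∀ i < c.t, Disjoint (c.In H U l) (c.up l i) ∧ Touch H (c.In H U l) (c.C l i)) ∧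
      (∀ l' < l, c.In H U l' ∪ c.ring l' ⊆ c.In H U l) ∧
      ∀ u ∈ c.In H U l, ∀ v, H.Adj u v → v ∈ c.In H U l ∨ v ∈ c.ring l

/-- coordinates exist -/
def CrdS : Prop :=
  ∀ (V : Type) (H : SimpleGraph V) (U : Set V) (Ω : List V) (c : CD V), Col H U Ω c →
    ∃ lev ang, Crd H U Ω c lev ang

/-- panels of a collar, reflected panels and parts of panels -/
def PanS : Prop :=
  ∀ (V : Type) (H : SimpleGraph V) (U I : Set V),
    (∀ (Ω : List V) (c : CD V) (lev ang : V → ℕ) (u n : ℕ), Col H U Ω c → Crd H U Ω c lev ang →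
      u < c.t → n + 1 < c.t → I ⊆ c.I → (∀ v ∈ c.ring 0, ∀ y ∈ c.I, H.Adj v y → y ∈ I) →
      Pan H U I (c.pan U lev ang u n)) ∧
    ∀ p : PD V, Pan H U I p →
      (Pan H U I p.rev ∧ ∀ u m, u + m ≤ p.n → p.rev.lin u m = (p.lin (p.n - (u + m)) m).reverse) ∧
      ∀ u m, u + m ≤ p.n → Pan H U I (p.sub u m) ∧ ∀ u' m', (p.sub u m).lin u' m' = p.lin (u + u') m'

/-- fewer rings, fewer columns, thin cells -/
def CoarS : Prop :=
  ∀ (V : Type) (H : SimpleGraph V) (U : Set V) (Ω : List V) (c : CD V) (j s' t' : ℕ) (φ : ℕ → ℕ)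
    (E : ℕ → Set V), FCol H U Ω c → j + s' < c.s → 4 ≤ t' →
    (∀ i i', i < i' → i' < t' → φ i < φ i') → (∀ i < t', φ i < c.t) →
    (∀ i < t', Touch H (E i) (c.C j (φ i))) →
    ∃ c' : CD V, Col H U Ω c' ∧ c'.s = s' ∧ c'.t = t' ∧ c.In H U j ⊆ c'.I ∧
      c'.I ⊆ c.In H U (j + 1) ∧ c'.Core H U ⊆ c.Core H U ∧
      ∀ i < t', c'.o i = c.o (φ i) ∧ c'.Λ i = c.up (j + s' + 1) (φ i) ∧ Touch H (E i) (c'.C 0 i) ∧
        ∀ l ≤ s', ∀ v ∈ c'.C l i, ∃ x < c.t, v ∈ c.C (j + l) x ∧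
          ((φ i ≤ x ∧ (i + 1 < t' → x < φ (i + 1))) ∨ (i + 1 = t' ∧ x < φ 0))

/-- a collar survives the deletion of few vertices -/
def DelS : Prop :=
  ∀ (V : Type) [Finite V] (H : SimpleGraph V) (U Y U' : Set V) (Ω : List V) (c : CD V)
    (y s' t' : ℕ), Col H U Ω c → Y.ncard ≤ y → (y + 1) * (s' + 3) ≤ c.s →
    (y + 1) * (t' + 1) ≤ c.t → 4 ≤ t' → U' = lk H (U \ Y) (ls Ω) →
    (∃ (c' : CD V) (u : ℕ), Col (res H U') U' (del Y Ω) c' ∧ c'.s = s' ∧ c'.t = t' ∧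
      u + t' ≤ c.t ∧ (∀ i < t', c'.o i = c.o (u + i)) ∧
      c'.Core (res H U') U' ⊆ c.Core H U) ∧
    ∀ w ∈ c.I \ Y, w ∉ lk H (c.Core H U \ Y) (c.o '' Iio c.t) →
      Disjoint (cp H (c.Core H U \ Y) w) U'

/-- hairpins round the back of a collar -/
def ZoneS : Prop :=
  ∀ (V : Type) (G H : SimpleGraph V) (U : Set V) (Ω : List V) (c : CD V) (ob : ℕ → V)
    (π : ℕ → ℕ) (K : ℕ), FCol H U Ω c → H ≤ G → (∀ i j, i < j → j < c.t → π i < π j) →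
    (∀ i < c.t, c.o i = ob (π i)) → 0 < K → K ≤ c.s → 2 * K < c.t →
    ∃ W0 ⊆ c.cols, Disjoint W0 (c.In H U (c.s + 1 - K)) ∧
      (∀ i, K ≤ i → i + K < c.t → Disjoint W0 (c.col i)) ∧
      ∀ a b, K ≤ a → a ≤ b → b + K < c.t → Pins G ob K W0 (π 0) (π (c.t - 1)) (π a) (π b)

/-- a crooked linkage is combed on rails -/
def AliftS : Prop :=
  ∀ n p, 0 < p → ∃ s0 t0, ∀ (V : Type) [Finite V] (H : SimpleGraph V) (U : Set V) (Ω : List V)
    (c : CD V) (ρ : ℕ → ℕ), Col H U Ω c → s0 ≤ c.s → (∀ i < t0, ρ i + 1 < c.t) →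
    (∀ i, i + 1 < t0 → ρ i + 2 ≤ ρ (i + 1)) → ∀ n' ≤ n, CrkN H U Ω n' p →
    ∃ (j m : ℕ) (x y : ℕ → ℕ) (J : ℕ → Set V), j < s0 ∧ Dg m x y p ∧
      (∀ e < m, x e ∈ ρ '' Iio t0 ∧ y e ∈ ρ '' Iio t0 ∧ J e ⊆ c.In H U (j + 1) ∧ Conn H (J e) ∧
        c.C j (x e) ⊆ J e ∧ c.C j (y e) ⊆ J e) ∧
      ∀ e < m, ∀ e' < m, e ≠ e' → Disjoint (J e) (J e')

/-- a grid with rails is universal -/
def KhS : Prop :=
  ∀ (V : Type) (G : SimpleGraph V) (h n n' : ℕ) (W : Set V) (ob : ℕ → V) (B : ℕ × ℕ → Set V)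
    (T : ℕ → Set V), NoK h G → h * h ≤ n → h * h ≤ n' → n ≤ 2 * n' →
    (∀ z : ℕ × ℕ, z.1 < n' → z.2 < 3 * n' + 3 → Conn G (B z) ∧ Disjoint (B z) W ∧
      (∀ x < n, Disjoint (B z) (T x)) ∧
      ∀ z' : ℕ × ℕ, z'.1 < n' → z'.2 < 3 * n' + 3 →
        (z ≠ z' → Disjoint (B z) (B z')) ∧ (gridN.Adj z z' → Touch G (B z) (B z'))) →
    (∀ x < n, Conn G (T x) ∧ Touch G (T x) (B (node n' x)) ∧
      (∀ y < n, x ≠ y → Disjoint (T x) (T y)) ∧ (x + 1 < h * h → Touch G (T x) (T (x + 1))) ∧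
      (x < h * h → Disjoint (T x) W) ∧ (h * h ≤ x → T x ∩ W = {ob x})) →
    Univ G h n W ob

/-- chords give a realised involution -/
def MksS : Prop :=
  ∀ (V : Type) (G : SimpleGraph V) (W : Set V) (ob : ℕ → V) (h n : ℕ) (ι : Type) (F : Set ι)
    (x y : ι → ℕ) (X : ι → Set V),
    (∀ i ∈ F, X i ⊆ W ∧ Conn G (X i) ∧ ob (x i) ∈ X i ∧ ob (y i) ∈ X i ∧ x i ≠ y i ∧
      h * h ≤ x i ∧ x i < n ∧ h * h ≤ y i ∧ y i < n) →
    (∀ i ∈ F, ∀ j ∈ F, i ≠ j → Disjoint (X i) (X j)) →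
    ∃ σ, Rl G W ob (h * h) n σ ∧ Term (h * h) σ (Tst h) ∧ ends (Tst h) ⊆ Iio (h * h) ∧
      ∀ i ∈ F, σ (x i) = y i ∧ σ (y i) = x i

/-- many gadgets -/
def JgS : Prop :=
  ∀ h, ∃ K Q, 0 < K ∧ ∀ (V : Type) (G : SimpleGraph V) (n : ℕ) (Ur : Set V) (ob : ℕ → V)
    (W : ℕ → Set V) (lo hi ex : ℕ → ℕ), Univ G h n Ur ob →
    (∀ s < Q, Item G ob K (W s) (lo s) (hi s) (ex s) ∧ W s ⊆ Ur ∧ h * h ≤ lo s ∧ hi s < n ∧
      h * h ≤ ex s ∧ ex s < n) →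
    (∀ s < Q, ∀ t < Q, s ≠ t → Disjoint (W s) (W t) ∧
      Disjoint (Icc (lo s) (hi s)) (Icc (lo t) (hi t)) ∧ ex s ∉ Icc (lo t) (hi t) ∧ ex s ≠ ex t) →
    False

/-- many jumps out of blocks of a band -/
def BjS : Prop :=
  ∀ h, ∃ w N, 0 < w ∧ ∀ (V : Type) (G : SimpleGraph V) (n : ℕ) (Ur : Set V) (ob : ℕ → V) (M : ℕ)
    (a b : ℕ → ℕ) (R X : ℕ → Set V) (e lo hi lam : ℕ → ℕ), Univ G h n Ur ob →
    Rows G Ur ob (h * h) n M a b R →
    (∀ s < N, X s ⊆ Ur ∧ Conn G (X s) ∧ ob (a (e s)) ∈ X s ∧ ob (lam s) ∈ X s ∧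
      lo s + w ≤ e s ∧ e s + w ≤ hi s ∧ hi s < M ∧
      ((∃ r < M, lam s = a r ∧ r ∉ Icc (lo s) (hi s)) ∨
        (h * h ≤ lam s ∧ lam s < n ∧ lam s ∉ hull a M ∧ lam s ∉ hull b M))) →
    (∀ s < N, ∀ t < N, (s ≠ t → Disjoint (X s) (X t) ∧
        Disjoint (Icc (lo s) (hi s)) (Icc (lo t) (hi t))) ∧
      ∀ r, lo s ≤ r → r ≤ hi s → r < lo s + w ∨ hi s < r + w → Disjoint (R r) (X t)) →
    False

/-- the position of a point of a strip -/
def sp (M : ℕ) (a b : ℕ → ℕ) (z : ℕ) : ℕ := if z < M then a z else b (2 * M - 1 - z)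

/-- many crosses in blocks of a band -/
def XbS : Prop :=
  ∀ h, ∃ w Q, 0 < w ∧ ∀ (V : Type) (G : SimpleGraph V) (n : ℕ) (Ur : Set V) (ob : ℕ → V) (M : ℕ)
    (a b : ℕ → ℕ) (R X X' : ℕ → Set V) (lo hi : ℕ → ℕ) (z : ℕ → Fin 4 → ℕ), Univ G h n Ur ob →
    Rows G Ur ob (h * h) n M a b R →
    (∀ s < Q, Two G Ur (X s) (X' s) ∧ w ≤ lo s ∧ lo s ≤ hi s ∧ hi s + w < M ∧ StrictMono (z s) ∧
      (∀ t, z s t ∈ Icc (lo s) (hi s) ∨ z s t ∈ Icc (2 * M - 1 - hi s) (2 * M - 1 - lo s)) ∧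
      ob (sp M a b (z s 0)) ∈ X s ∧ ob (sp M a b (z s 2)) ∈ X s ∧
      ob (sp M a b (z s 1)) ∈ X' s ∧ ob (sp M a b (z s 3)) ∈ X' s) →
    (∀ s t, s < t → t < Q → hi s + w < lo t ∧ Disjoint (X s ∪ X' s) (X t ∪ X' t)) →
    (∀ r < M, (∀ s < Q, r ∉ Icc (lo s) (hi s)) → ∀ s < Q, Disjoint (R r) (X s ∪ X' s)) →
    False

end Pool.Agent.MP_9d78a0_co.st

end MrgPart3

-- ======== part 4: formerly Pool.Agent.MP_9d78a0_co.st.Del
section MrgPart4

/-! A collar survives the deletion of few vertices. -/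

set_option autoImplicit false

namespace Pool.Agent.MP_9d78a0_co.st

open Set Function fb

namespace Del

variable {V : Type} {H : SimpleGraph V}

theorem free [Finite V] (F : ℕ → Set V) (Y : Set V) (y m N : ℕ) (hY : Y.ncard ≤ y)
    (hN : (y + 1) * m ≤ N) (hd : ∀ i < N, ∀ j < N, i ≠ j → Disjoint (F i) (F j)) :
    ∃ a, a + m ≤ N ∧ ∀ i, a ≤ i → i < a + m → Disjoint (F i) Y := by
  by_contra hc
  push Not at hc
  have hb : ∀ k : Fin (y + 1), k.1 * m + m ≤ N := fun k => by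
    have : (k.1 + 1) * m ≤ (y + 1) * m := Nat.mul_le_mul_right _ k.2
    nlinarith
  have h1 : ∀ k : Fin (y + 1), ∃ i v, k.1 * m ≤ i ∧ i < k.1 * m + m ∧ v ∈ F i ∧ v ∈ Y := fun k => by
    obtain ⟨i, h1, h2, h3⟩ := hc _ (hb k)
    obtain ⟨v, h4, h5⟩ := not_disjoint_iff.1 h3
    exact ⟨i, v, h1, h2, h4, h5⟩
  choose i v h1 h2 h3 h4 using h1
  have hlt : ∀ k k' : Fin (y + 1), k < k' → v k ≠ v k' := fun k k' hk he => by
    have e1 : (k.1 + 1) * m ≤ k'.1 * m := Nat.mul_le_mul_right _ hk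
    have e2 := h1 k'
    have e3 := h2 k
    have e4 := h2 k'
    have e5 := hb k
    have e6 := hb k'
    have e7 : (k.1 + 1) * m = k.1 * m + m := by ring
    exact disjoint_left.1 (hd (i k) (by omega) (i k') (by omega) (by omega)) (h3 k) (he ▸ h3 k')
  have hinj : Injective v := fun k k' he => by
    rcases lt_trichotomy k k' with h | h | h
    · exact absurd he (hlt _ _ h)
    · exact h
    · exact absurd he.symm (hlt _ _ h)
  have e := ncard_le_ncard (s := range v) (t := Y) (by rintro _ ⟨k, rfl⟩; exact h4 k) (toFinite Y)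
  rw [← image_univ, ncard_image_of_injective _ hinj, ncard_univ] at e
  simp at e
  omega

theorem exit {S A B : Set V} {w x : V} (h : Link H S w x) (hx : x ∉ A)
    (hc : ∀ u ∈ A, ∀ v, H.Adj u v → v ∈ A ∨ v ∈ B) :
    w ∈ A → ∃ r ∈ B, Link H (S ∩ (A ∪ B)) w r := by
  induction h using Relation.ReflTransGen.head_induction_on with
  | refl => exact fun h => absurd h hx
  | head h1 _ ih =>
    intro hw
    rcases hc _ hw _ h1.2.2 with k | k
    · obtain ⟨r, hr, h2⟩ := ih k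
      refine ⟨r, hr, Link.trans (Link.single ?_ ?_ h1.2.2) h2⟩
      exacts [⟨h1.1, Or.inl hw⟩, ⟨h1.2.1, Or.inl k⟩]
    · refine ⟨_, k, Link.single ?_ ?_ h1.2.2⟩
      exacts [⟨h1.1, Or.inl hw⟩, ⟨h1.2.1, Or.inr k⟩]

theorem link_res {S W : Set V} (hS : S ⊆ W) {a b : V} (h : Link H S a b) :
    Link (res H W) S a b :=
  Link.map (G' := res H W) id (fun _ ha _ hb e => Link.single ha hb ⟨e, hS ha, hS hb⟩) h

theorem link_of_res {S W : Set V} {a b : V} (h : Link (res H W) S a b) : Link H S a b :=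
  Link.map (G := res H W) (G' := H) id
    (fun _ ha _ hb (e : (res H W).Adj _ _) => Link.single ha hb e.1) h

theorem conn_res {S W : Set V} (hS : S ⊆ W) (h : Conn H S) : Conn (res H W) S :=
  ⟨h.1, fun u hu v hv => link_res hS (h.2 u hu v hv)⟩

theorem conn_of_res {S W : Set V} (h : Conn (res H W) S) : Conn H S :=
  ⟨h.1, fun u hu v hv => link_of_res (h.2 u hu v hv)⟩

theorem touch_res {S T W : Set V} (hS : S ⊆ W) (hT : T ⊆ W) (h : Touch H S T) :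
    Touch (res H W) S T := by
  obtain ⟨u, hu, v, hv, e⟩ := h
  exact ⟨u, hu, v, hv, e, hS hu, hT hv⟩

theorem sub_lk {S T A : Set V} (hS : S ⊆ T) (h : Conn H S) {x : V} (hx : x ∈ S)
    (hx' : x ∈ lk H T A) : S ⊆ lk H T A := by
  obtain ⟨-, a, h1, h2, h3⟩ := hx'
  exact fun v hv => ⟨hS hv, a, h1, h2, h3.trans ((h.2 x hx v hv).mono hS)⟩

theorem link_lk {S A : Set V} {a v : V} (ha : a ∈ A) (haS : a ∈ S) (h : Link H S a v) :
    Link H (lk H S A) a v := by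
  induction h with
  | refl => exact Link.refl _ _ _
  | tail h1 h2 ih =>
    exact ih.trans (Link.single ⟨h2.1, a, ha, haS, h1⟩
      ⟨h2.2.1, a, ha, haS, Relation.ReflTransGen.tail h1 h2⟩ h2.2.2)

theorem conn_lk {S A : Set V} (hA : Conn H A) (hS : A ⊆ S) : Conn H (lk H S A) := by
  obtain ⟨a, ha⟩ := hA.1
  have hsub : A ⊆ lk H S A := fun x hx => ⟨hS hx, x, hx, hS hx, Link.refl _ _ _⟩
  refine conn_of_center (hsub ha) ?_
  rintro v ⟨-, b, h1, h2, h3⟩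
  exact ((hA.2 a ha b h1).mono hsub).trans (link_lk h1 h2 h3)

variable {U : Set V} {Ω : List V} {c : CD V}

theorem ring_conn (h : FCol H U Ω c) {l : ℕ} (hl : l ≤ c.s) : Conn H (c.ring l) := by
  have h4 := h.t4
  have e : c.ring l = ⋃ i ∈ Icc 0 (c.t - 1), c.C l i := by
    ext v
    simp only [CD.ring, mem_ofPred_eq, mem_iUnion, mem_Icc, exists_prop]
    exact ⟨fun ⟨i, h1, h2⟩ => ⟨i, by omega, h2⟩, fun ⟨i, h1, h2⟩ => ⟨i, by omega, h2⟩⟩
  rw [e]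
  refine conn_chain (Nat.zero_le _) (fun i hi => (h.cell l hl i (by have := hi.2; omega)).2)
    fun i _ hi => Or.inr ?_
  have := h.hor l hl i (by omega)
  rwa [Nat.mod_eq_of_lt (by omega)] at this

theorem col_conn (h : FCol H U Ω c) {i : ℕ} (hi : i < c.t) : Conn H (c.col i) := by
  have e : c.col i = (⋃ l ∈ Icc 0 c.s, c.C l i) ∪ c.Λ i := by
    ext v
    simp only [CD.col, CD.up, mem_union, mem_ofPred_eq, mem_iUnion, mem_Icc, exists_prop, and_assoc]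
    exact or_comm
  rw [e]
  refine conn_union_touch (conn_chain (Nat.zero_le _) (fun l hl => (h.cell l hl.2 i hi).2)
    fun l _ hl => Or.inr (h.ver l hl i hi)) (h.lam i hi).2.1 ?_
  exact (h.lam i hi).2.2.1.mono (fun v hv => mem_iUnion₂.2 ⟨c.s, ⟨Nat.zero_le _, le_rfl⟩, hv⟩)
    Subset.rfl

theorem col_sub (h : FCol H U Ω c) {i : ℕ} (hi : i < c.t) : c.col i ⊆ U := by
  rintro v (hv | ⟨l, -, hl, hv⟩)
  · exact ((h.lam i hi).1 hv).1
  · exact ((h.cell l hl i hi).1 hv).1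

theorem o_mem (h : FCol H U Ω c) {i : ℕ} (hi : i < c.t) : c.o i ∈ c.Λ i ∧ c.o i ∈ Ω := by
  have : c.o i ∈ c.Λ i ∩ ls Ω := by rw [(h.lam i hi).2.2.2]; rfl
  exact this

theorem mem_del {Y : Set V} {L : List V} {x : V} : x ∈ del Y L ↔ x ∈ L ∧ x ∉ Y := by
  simp [del]

theorem del_rot {Y : Set V} {L L' : List V} (h : List.IsRotated L L') :
    List.IsRotated (del Y L) (del Y L') := by
  obtain ⟨n, hn, rfl⟩ := List.isRotated_iff_mod.1 h
  rw [List.rotate_eq_drop_append_take hn]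
  conv_lhs => rw [← List.take_append_drop n L]
  simp only [del, List.filter_append]
  exact List.isRotated_append

theorem del_cyc {Y : Set V} (o : ℕ → V) (seg : ℕ → List V) (n : ℕ) (h : ∀ i < n, o i ∉ Y) :
    del Y (cyc o seg n) = cyc o (fun i => del Y (seg i)) n := by
  induction n with
  | zero => simp [cyc, del]
  | succ n ih =>
    have := ih fun i hi => h i (by omega)
    simp only [cyc, del, List.range_succ, List.flatMap_append, List.filter_append] at this ⊢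
    rw [this]
    simp [h n (by omega)]

end Del

open Del in
theorem delS : InS → CoarS → DelS := by
  intro hin hco V _ H U Y U' Ω c y s' t' hc hY hs ht h4 hU
  have hf := hc.toFCol
  obtain ⟨a, ha, hfa⟩ := free c.ring Y y (s' + 3) c.s hY hs (by
    intro i hi j hj hij
    rw [disjoint_left]
    rintro v ⟨x, hx, h1⟩ ⟨x', hx', h2⟩
    exact disjoint_left.1 (hf.dis i hi.le x hx j hj.le x' hx' (by simp [hij])) h1 h2)
  obtain ⟨u, hu, hfu⟩ := free c.col Y y (t' + 1) c.t hY ht (by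
    intro i hi j hj hij
    rw [disjoint_left]
    rintro v (h1 | ⟨l, -, hl, h1⟩) (h2 | ⟨l', -, hl', h2⟩)
    · exact disjoint_left.1 ((hf.lamd i hi j hj).1 hij) h1 h2
    · exact disjoint_left.1 ((hf.lamd i hi j hj).2 l' hl') h1 h2
    · exact disjoint_left.1 ((hf.lamd j hj i hi).2 l hl) h2 h1
    · exact disjoint_left.1 (hf.dis l hl i hi l' hl' j hj (by simp [hij])) h1 h2)
  have hUs : U' ⊆ U \ Y := fun v hv => by rw [hU] at hv; exact hv.1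
  have hring : ∀ l ≤ c.s, c.ring l ⊆ c.cols := by
    rintro l hl v ⟨i, hi, hv⟩
    exact ⟨i, hi, Or.inr ⟨l, Nat.zero_le _, hl, hv⟩⟩
  have hcols : c.cols ⊆ U := by
    rintro v ⟨i, hi, hv⟩
    exact col_sub hf hi hv
  have hcolU : ∀ i ≤ t', c.col (u + i) ⊆ U' := by
    intro i hi
    have h1 : u + i < c.t := by omega
    have h2 : c.col (u + i) ⊆ U \ Y := fun v hv =>
      ⟨col_sub hf h1 hv, disjoint_left.1 (hfu _ (by omega) (by omega)) hv⟩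
    have h3 : c.o (u + i) ∈ c.col (u + i) := Or.inl (o_mem hf h1).1
    rw [hU]
    exact sub_lk h2 (col_conn hf h1) h3 ⟨h2 h3, _, (o_mem hf h1).2, h2 h3, Link.refl _ _ _⟩
  have hringU : ∀ l, a ≤ l → l < a + (s' + 3) → c.ring l ⊆ U' := by
    intro l h1 h2
    have h3 : l ≤ c.s := by omega
    obtain ⟨x, hx⟩ := (hf.cell l h3 u (by omega)).2.1
    have h5 := hcolU 0 (Nat.zero_le _) (Or.inr ⟨l, Nat.zero_le _, h3, hx⟩)
    rw [hU] at h5 ⊢
    exact sub_lk (fun v hv => ⟨hcols (hring l h3 hv), disjoint_left.1 (hfa l h1 h2) hv⟩)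
      (ring_conn hf h3) ⟨u, by omega, hx⟩ h5
  obtain ⟨-, iI, iΩ, -, -, icl⟩ := hin V H U Ω c hf a (by omega)
  constructor
  · obtain ⟨d, hd, ds, dt, dI, -, dC, dr⟩ := hco V H U Ω c (a + 1) s' t' (fun i => u + i)
      (fun i => c.C a (u + i)) hf (by omega) h4 (fun i i' h _ => by omega) (fun i h => by omega)
      (fun i h => hf.ver a (by omega) _ (by omega))
    have hdf := hd.toFCol
    have hra : c.ring a ⊆ d.I \ Y := fun v hv =>
      ⟨dI ((hin V H U Ω c hf (a + 1) (by omega)).2.2.2.2.1 a (by omega) (Or.inr hv)),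
        disjoint_left.1 (hfa a le_rfl (by omega)) hv⟩
    set J := lk H (d.I \ Y) (c.ring a) with hJ
    have hJc : Conn H J := conn_lk (ring_conn hf (by omega)) hra
    have hrJ : c.ring a ⊆ J := fun x hx => ⟨hra hx, x, hx, hra hx, Link.refl _ _ _⟩
    have hJI : J ⊆ d.I := fun v hv => hv.1.1
    have hJU : J ⊆ U' := by
      obtain ⟨x, hx⟩ := (ring_conn hf (l := a) (by omega)).1
      have h5 := hringU a le_rfl (by omega) hx
      rw [hU] at h5 ⊢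
      exact sub_lk (fun v hv => ⟨hdf.hub.1 hv.1.1, hv.1.2⟩) hJc (hrJ hx) h5
    have hCU : ∀ l ≤ d.s, ∀ i < d.t, d.C l i ⊆ U' := by
      intro l hl i hi v hv
      obtain ⟨x, hx, h1, -⟩ := (dr i (dt ▸ hi)).2.2.2 l (ds ▸ hl) v hv
      exact hringU (a + 1 + l) (by omega) (by omega) ⟨x, hx, h1⟩
    have hLU : ∀ i < d.t, d.Λ i ⊆ U' := by
      intro i hi v hv
      rw [(dr i (dt ▸ hi)).2.1] at hv
      refine hcolU i (by omega) ?_
      rcases hv with hv | ⟨l, -, hl, hv⟩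
      · exact Or.inl hv
      · exact Or.inr ⟨l, Nat.zero_le _, hl, hv⟩
    have hoY : ∀ i < d.t, d.o i ∉ Y := fun i hi => (hUs (hLU i hi (o_mem hdf hi).1)).2
    have hdel : ls (del Y Ω) ⊆ ls Ω := fun x hx => (mem_del.1 hx).1
    refine ⟨⟨J, d.s, d.t, d.C, d.Λ, d.o, fun i => del Y (d.seg i)⟩, u,
      ⟨⟨⟨fun _ _ e => e.2.1, hf.soc.nd.filter _, fun x hx => ?_⟩, ?_, hdf.t4, fun l hl i hi => ?_,
        hdf.dis, fun l hl i hi => ?_, fun l hl i hi => ?_, fun i hi => ?_, hdf.lamd, ?_, ?_⟩,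
        fun l hl i hi => ?_, ?_⟩, ds, dt, by omega, fun i hi => (dr i hi).1, ?_⟩
    · obtain ⟨h1, h2⟩ := mem_del.1 hx
      rw [hU]
      exact ⟨⟨hf.soc.sub x h1, h2⟩, x, h1, ⟨hf.soc.sub x h1, h2⟩, Link.refl _ _ _⟩
    · have := del_rot (Y := Y) hdf.rot
      rwa [del_cyc _ _ _ hoY] at this
    · refine ⟨fun v hv => ⟨hCU l hl i hi hv, ?_⟩, conn_res (hCU l hl i hi) (hdf.cell l hl i hi).2⟩
      have := ((hdf.cell l hl i hi).1 hv).2
      rintro (k | k)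
      exacts [this (Or.inl (hJI k)), this (Or.inr (hdel k))]
    · exact touch_res (hCU l hl i hi) (hCU l hl _ (Nat.mod_lt _ (by have := hdf.t4; omega)))
        (hdf.hor l hl i hi)
    · exact touch_res (hCU l hl.le i hi) (hCU _ hl i hi) (hdf.ver l hl i hi)
    · obtain ⟨h1, h2, h3, h5⟩ := hdf.lam i hi
      refine ⟨fun v hv => ⟨hLU i hi hv, fun k => (h1 hv).2 (hJI k)⟩, conn_res (hLU i hi) h2,
        touch_res (hCU _ le_rfl i hi) (hLU i hi) h3, ?_⟩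
      refine Subset.antisymm (fun v hv => h5 ▸ ⟨hv.1, hdel hv.2⟩) ?_
      rintro v rfl
      exact ⟨(o_mem hdf hi).1, mem_del.2 ⟨(o_mem hdf hi).2, hoY i hi⟩⟩
    · refine ⟨hJU, conn_res hJU hJc, hdf.hub.2.2.1.mono hJI hdel, fun i hi => ?_⟩
      refine touch_res hJU (hCU 0 (Nat.zero_le _) i hi) ((dr i (dt ▸ hi)).2.2.1.mono ?_ Subset.rfl)
      exact fun v hv => hrJ ⟨u + i, by have : i < t' := dt ▸ hi; omega, hv⟩
    · intro x1 x2 x3 x4 hsub P Q hT m1 m3 m2 m4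
      have hsub' : List.Sublist [x1, x2, x3, x4] Ω := hsub.trans List.filter_sublist
      have hT' : Two H U P Q := ⟨fun v hv => (hUs (hT.sp hv)).1, fun v hv => (hUs (hT.sq hv)).1,
        conn_of_res hT.cp, conn_of_res hT.cq, hT.dis⟩
      obtain ⟨k1, k2⟩ := hf.flat x1 x2 x3 x4 hsub' P Q hT' m1 m3 m2 m4
      have key : ∀ (R : Set V) (x : V), Conn H R → x ∈ R → x ∈ Ω → (R ∩ c.I).Nonempty →
          (R ∩ J).Nonempty := by
        rintro R x hR hx hxΩ ⟨w, w1, w2⟩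
        obtain ⟨r, hr, hl⟩ := exit (hR.2 w w1 x hx) (fun k => disjoint_left.1 iΩ k hxΩ) icl (iI w2)
        exact ⟨r, (hl.mem ⟨w1, Or.inl (iI w2)⟩).1, hrJ hr⟩
      exact ⟨key P x1 hT'.cp m1 (hsub'.subset (by simp)) k1,
        key Q x2 hT'.cq m2 (hsub'.subset (by simp)) k2⟩
    · obtain ⟨f, n, h1, h2⟩ := hd.thin l hl i hi
      refine ⟨f, n, fun t => ⟨(h1 t).1, fun j hj => ⟨(h1 t).2.1 j hj, ?_, ?_⟩, (h1 t).2.2⟩, h2⟩
      · exact hCU l hl i hi ((h1 t).1 j hj.le)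
      · exact hCU l hl i hi ((h1 t).1 (j + 1) hj)
    · intro x hx v e
      rcases hd.sat x (hJI hx) v e.1 with k | k
      · obtain ⟨h1, r, h2, h3, h5⟩ := hx
        have hv : v ∈ d.I \ Y := ⟨k, (hUs e.2.2).2⟩
        exact Or.inl ⟨hv, r, h2, h3, h5.trans (Link.single h1 hv e.1)⟩
      · exact Or.inr k
    · refine Subset.trans ?_ dC
      have hm : U' \ d.ring d.s ⊆ U \ d.ring d.s := fun v hv => ⟨(hUs hv.1).1, hv.2⟩
      rintro v (⟨h1, r, h2, h3, h5⟩ | hv)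
      · exact Or.inl ⟨hm h1, r, hJI h2, hm h3, (link_of_res h5).mono hm⟩
      · exact Or.inr hv
  · intro w hw hn
    rw [disjoint_left]
    intro z hz hz'
    apply hn
    have hCore : c.Core H U \ Y ⊆ U \ Y := by
      rintro v ⟨hv | hv, hv'⟩
      exacts [⟨hv.1.1, hv'⟩, ⟨hcols hv, hv'⟩]
    have hIa : c.In H U a ⊆ c.In H U c.s := fun v hv =>
      (hin V H U Ω c hf c.s le_rfl).2.2.2.2.1 a (by omega) (Or.inl hv)
    rw [hU] at hz'
    obtain ⟨-, x, x1, -, x3⟩ := hz'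
    obtain ⟨r, hr, hl⟩ := exit ((hz.2.mono hCore).trans x3.symm)
      (fun k => disjoint_left.1 iΩ k x1) icl (iI hw.1)
    have hm : (U \ Y) ∩ (c.In H U a ∪ c.ring a) ⊆ c.Core H U \ Y := by
      rintro v ⟨h1, h2 | h2⟩
      exacts [⟨Or.inl (hIa h2), h1.2⟩, ⟨Or.inr (hring a (by omega) h2), h1.2⟩]
    have hu' : u < c.t := by omega
    have c1 : c.ring a ⊆ c.Core H U \ Y := fun v hv =>
      ⟨Or.inr (hring a (by omega) hv), disjoint_left.1 (hfa a le_rfl (by omega)) hv⟩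
    have c2 : c.col u ⊆ c.Core H U \ Y := fun v hv =>
      ⟨Or.inr ⟨u, hu', hv⟩, disjoint_left.1 (hfu u le_rfl (by omega)) hv⟩
    obtain ⟨q, hq⟩ := (hf.cell a (by omega) u hu').2.1
    have q1 : q ∈ c.col u := Or.inr ⟨a, Nat.zero_le _, by omega, hq⟩
    have q2 : c.o u ∈ c.col u := Or.inl (o_mem hf hu').1
    refine ⟨⟨Or.inl (hIa (iI hw.1)), hw.2⟩, c.o u, ⟨u, hu', rfl⟩, c2 q2, ?_⟩
    exact (((col_conn hf hu').2 _ q2 _ q1).mono c2).trans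
      ((((ring_conn hf (l := a) (by omega)).2 _ ⟨u, hu', hq⟩ _ hr).mono c1).trans
        (hl.mono hm).symm)

end Pool.Agent.MP_9d78a0_co.st

end MrgPart4

-- marker of a merged file
example : 731051 + 701096 = 731051 + 701096 := rfl
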