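import Pool.Agent.MP_9d78a0_co.fb.S2
import Mathlib.Combinatorics.Pigeonhole
import Mathlib.Dynamics.PeriodicPts.Defs
import Mathlib.Data.Finset.Sort
import Pool.Agent.MP_9d78a0_co.st.Del

-- ======== part 0: formerly Pool.Agent.MP_9d78a0_co.fb.Kit1a
section MrgPart0

/-! Ramsey theorem for pairs, orbits of two involutions, non-crossing matchings. -/

set_option autoImplicit false

namespace Pool.Agent.MP_9d78a0_co.fb

open Set Function

namespace Kit1a

theorem exists_enum (T : Finset ℕ) (m : ℕ) (h : m ≤ T.card) :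
    ∃ g : ℕ → ℕ, (∀ i j, i < j → j < m → g i < g j) ∧ ∀ i < m, g i ∈ T := by
  let e := T.orderEmbOfCardLe h
  refine ⟨fun i => if hi : i < m then e ⟨i, hi⟩ else 0, ?_, ?_⟩
  · intro i j hij hj
    have hi : i < m := hij.trans hj
    simp only [hi, hj, dif_pos]
    exact e.strictMono (by simpa using hij)
  · intro i hi
    simp only [hi, dif_pos]
    exact T.orderEmbOfCardLe_mem h _

theorem big_fiber {α C : Type} [Fintype C] [DecidableEq C] [Nonempty C] (B : Finset α)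
    (κ : α → C) (N : ℕ) (h : Fintype.card C * N ≤ B.card) :
    ∃ γ, N ≤ (B.filter (fun x => κ x = γ)).card := by
  obtain ⟨y, -, hy⟩ := Finset.exists_le_card_fiber_of_mul_le_card_of_maps_to
    (s := B) (t := Finset.univ) (f := κ) (n := N) (fun _ _ => Finset.mem_univ _)
    Finset.univ_nonempty (by simpa using h)
  exact ⟨y, hy⟩

theorem ramsey_aux (C : Type) [Fintype C] [DecidableEq C] [Nonempty C] (n : ℕ) :
    ∃ M, ∀ (c : ℕ → ℕ → C) (S : Finset ℕ), M ≤ S.card →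
      ∃ (f : ℕ → ℕ) (γ : ℕ → C), (∀ i j, i < j → j < n → f i < f j) ∧ (∀ i < n, f i ∈ S) ∧
        ∀ i j, i < j → j < n → c (f i) (f j) = γ i := by
  induction n with
  | zero => exact ⟨0, fun c S _ => ⟨id, fun _ => Classical.arbitrary C, by simp, by simp, by simp⟩⟩
  | succ n ih =>
    obtain ⟨M, hM⟩ := ih
    refine ⟨Fintype.card C * M + 1, fun c S hS => ?_⟩
    have hne : S.Nonempty := Finset.card_pos.1 (by omega)
    set v := S.min' hne with hv
    have hvS : v ∈ S := S.min'_mem hne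
    obtain ⟨γ0, hγ0⟩ := big_fiber (S.erase v) (fun x => c v x) M
      (by rw [Finset.card_erase_of_mem hvS]; omega)
    obtain ⟨f, γ, h1, h2, h3⟩ := hM c _ hγ0
    have hf : ∀ i < n, f i ∈ S ∧ v < f i ∧ c v (f i) = γ0 := by
      intro i hi
      have := h2 i hi
      simp only [Finset.mem_filter, Finset.mem_erase] at this
      exact ⟨this.1.2, lt_of_le_of_ne (S.min'_le _ this.1.2) (Ne.symm this.1.1), this.2⟩
    refine ⟨fun i => match i with | 0 => v | i + 1 => f i,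
      fun i => match i with | 0 => γ0 | i + 1 => γ i, ?_, ?_, ?_⟩
    · intro i j hij hj
      match i, j with
      | 0, j + 1 => exact (hf j (by omega)).2.1
      | i + 1, j + 1 => exact h1 i j (by omega) (by omega)
    · intro i hi
      match i with
      | 0 => exact hvS
      | i + 1 => exact (hf i (by omega)).1
    · intro i j hij hj
      match i, j with
      | 0, j + 1 => exact (hf j (by omega)).2.2
      | i + 1, j + 1 => exact h3 i j (by omega) (by omega)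

theorem ramsey (C : Type) [Fintype C] [DecidableEq C] [Nonempty C] (m : ℕ) :
    ∃ M, ∀ (c : ℕ → ℕ → C), ∃ (f : ℕ → ℕ) (γ : C), (∀ i j, i < j → j < m → f i < f j) ∧
      (∀ i < m, f i < M) ∧ ∀ i j, i < j → j < m → c (f i) (f j) = γ := by
  obtain ⟨M, hM⟩ := ramsey_aux C (Fintype.card C * m)
  refine ⟨M, fun c => ?_⟩
  obtain ⟨f, γ, h1, h2, h3⟩ := hM c (Finset.range M) (by simp)
  obtain ⟨γ0, h0⟩ := big_fiber (Finset.range (Fintype.card C * m)) γ m (by simp)
  obtain ⟨g, g1, g2⟩ := exists_enum _ m h0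
  have g3 : ∀ i < m, g i < Fintype.card C * m ∧ γ (g i) = γ0 := by
    intro i hi
    simpa using g2 i hi
  refine ⟨fun i => f (g i), γ0, ?_, ?_, ?_⟩
  · intro i j hij hj
    exact h1 _ _ (g1 i j hij hj) (g3 j hj).1
  · intro i hi
    simpa using h2 _ (g3 i hi).1
  · intro i j hij hj
    rw [h3 _ _ (g1 i j hij hj) (g3 j hj).1, (g3 i (hij.trans hj)).2]

/-- the orbit of a point fixed by `σ` is an orbit of the product -/
theorem orbit {σ μ : ℕ → ℕ} (hσ : Involutive σ) (hμ : Involutive μ) {a : ℕ} (ha : σ a = a) :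
    ∃ (F : ℤ → ℕ) (d : ℤ), F 0 = a ∧ (∀ z, σ (F z) = F (-z)) ∧ (∀ z, μ (F z) = F (1 - z)) ∧
      (∀ z w, F z = F w ↔ d ∣ z - w) ∧ ∀ x, CC σ μ a x → ∃ z, x = F z := by
  set S : Equiv.Perm ℕ := hσ.toPerm σ with hS
  set M : Equiv.Perm ℕ := hμ.toPerm μ with hM
  set f : Equiv.Perm ℕ := M * S with hf
  have hSS : S * S = 1 := by
    ext x
    simp [hS, hσ x]
  have hMM : M * M = 1 := by
    ext x
    simp [hM, hμ x]
  have hSi : S⁻¹ = S := inv_eq_of_mul_eq_one_right hSS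
  have hMi : M⁻¹ = M := inv_eq_of_mul_eq_one_right hMM
  have h1 : S * f * S⁻¹ = f⁻¹ := by
    rw [hf, mul_inv_rev, hSi, hMi, mul_assoc, mul_assoc, hSS, mul_one]
  have h2 : ∀ z : ℤ, S * f ^ z = f ^ (-z) * S := by
    intro z
    have : S * f ^ z * S⁻¹ = f ^ (-z) := by
      rw [← conj_zpow, h1, inv_zpow']
    rw [← this]
    simp
  have h3 : M = f * S := by rw [hf, mul_assoc, hSS, mul_one]
  have hσF : ∀ z : ℤ, σ ((f ^ z) a) = (f ^ (-z)) a := by
    intro z
    have := congrArg (fun g : Equiv.Perm ℕ => g a) (h2 z)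
    simpa [hS, ha] using this
  have hμF : ∀ z : ℤ, μ ((f ^ z) a) = (f ^ (1 - z)) a := by
    intro z
    have e1 : μ ((f ^ z) a) = f (σ ((f ^ z) a)) := by
      have := congrArg (fun g : Equiv.Perm ℕ => g ((f ^ z) a)) h3
      simpa [hS, hM] using this
    rw [e1, hσF, sub_eq_add_neg, zpow_add, zpow_one]
    rfl
  refine ⟨fun z => (f ^ z) a, (minimalPeriod (f • ·) a : ℤ), by simp, hσF, hμF, ?_, ?_⟩
  · intro z w
    rw [← MulAction.zpow_smul_eq_iff_minimalPeriod_dvd, Equiv.Perm.smul_def]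
    have e : (f ^ z) a = (f ^ w) ((f ^ (z - w)) a) := by
      rw [← Equiv.Perm.mul_apply, ← zpow_add]
      simp
    simp only [e]
    exact (f ^ w).injective.eq_iff
  · intro x hx
    unfold CC at hx
    induction hx with
    | refl => exact ⟨0, by simp⟩
    | tail _ h ih =>
      obtain ⟨z, rfl⟩ := ih
      rcases h with h | h
      · exact ⟨-z, by rw [h, hσF]⟩
      · exact ⟨1 - z, by rw [h, hμF]⟩

theorem ncm_aux (n : ℕ) : ∀ A B : Finset ℕ, Disjoint A B → A.card = n → B.card = n →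
    ∃ ν : ℕ → ℕ, Involutive ν ∧ NC ν ∧ (∀ x ∈ A, ν x ∈ B) ∧ (∀ x ∈ B, ν x ∈ A) ∧
      ∀ x, x ∉ A → x ∉ B → ν x = x := by
  induction n with
  | zero =>
    intro A B _ hA hB
    rw [Finset.card_eq_zero] at hA hB
    subst hA hB
    refine ⟨id, fun _ => rfl, ?_, by simp, by simp, fun _ _ _ => rfl⟩
    intro x y h1 h2
    simp only [id] at h2
    omega
  | succ n ih =>
    intro A B hd hA hB
    have hne : (A ×ˢ B).Nonempty :=
      Finset.Nonempty.product (Finset.card_pos.1 (by omega)) (Finset.card_pos.1 (by omega))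
    obtain ⟨⟨a, b⟩, hab, hmin⟩ := Finset.exists_min_image (A ×ˢ B)
      (fun p : ℕ × ℕ => (p.1 - p.2) + (p.2 - p.1)) hne
    rw [Finset.mem_product] at hab
    obtain ⟨ha, hb⟩ := hab
    simp only at ha hb
    have hdis : ∀ x, x ∈ A → x ∈ B → False := fun x h1 h2 => Finset.disjoint_left.1 hd h1 h2
    have hab : a ≠ b := fun h => hdis a ha (h ▸ hb)
    have hnb : ∀ z, z ∈ A ∨ z ∈ B → ¬ Btw a b z := by
      intro z hz hbt
      unfold Btw at hbt
      rcases hz with hz | hz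
      · have := hmin (z, b) (Finset.mem_product.2 ⟨hz, hb⟩)
        simp only at this
        omega
      · have := hmin (a, z) (Finset.mem_product.2 ⟨ha, hz⟩)
        simp only at this
        omega
    obtain ⟨ν, h1, h2, h3, h4, h5⟩ := ih (A.erase a) (B.erase b)
      (hd.mono (Finset.erase_subset _ _) (Finset.erase_subset _ _))
      (by rw [Finset.card_erase_of_mem ha]; omega) (by rw [Finset.card_erase_of_mem hb]; omega)
    have hνa : ν a = a := h5 a (by simp) (fun h => hdis a ha (Finset.mem_of_mem_erase h))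
    have hνb : ν b = b := h5 b (fun h => hdis b (Finset.mem_of_mem_erase h) hb) (by simp)
    have hna : ∀ x, x ≠ a → ν x ≠ a := fun x hx h => hx (by rw [← h1 x, h, hνa])
    have hnb' : ∀ x, x ≠ b → ν x ≠ b := fun x hx h => hx (by rw [← h1 x, h, hνb])
    have hmv : ∀ x, ν x ≠ x → ¬ Btw a b x ∧ ¬ Btw a b (ν x) := by
      intro x hx
      by_cases hxA : x ∈ A.erase a
      · exact ⟨hnb x (Or.inl (Finset.mem_of_mem_erase hxA)),
          hnb _ (Or.inr (Finset.mem_of_mem_erase (h3 x hxA)))⟩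
      · by_cases hxB : x ∈ B.erase b
        · exact ⟨hnb x (Or.inr (Finset.mem_of_mem_erase hxB)),
            hnb _ (Or.inl (Finset.mem_of_mem_erase (h4 x hxB)))⟩
        · exact absurd (h5 x hxA hxB) hx
    obtain ⟨τ, ta, tb, tx⟩ : ∃ τ : ℕ → ℕ, τ a = b ∧ τ b = a ∧ ∀ x, x ≠ a → x ≠ b → τ x = ν x :=
      ⟨fun x => if x = a then b else if x = b then a else ν x, by simp, by simp [hab.symm],
        fun x p q => by simp [p, q]⟩
    refine ⟨τ, ?_, ?_, ?_, ?_, ?_⟩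
    · intro x
      by_cases p : x = a
      · rw [p, ta, tb]
      · by_cases q : x = b
        · rw [q, tb, ta]
        · rw [tx x p q, tx _ (hna x p) (hnb' x q), h1 x]
    · intro x y hxy hy
      have hin : ∀ y, Btw a b y → τ y = y := by
        intro y hy
        have hy' := hy
        unfold Btw at hy'
        rw [tx y (by omega) (by omega)]
        by_contra h
        exact (hmv y h).1 hy
      by_cases p : x = a
      · rw [p, ta] at hy ⊢
        rw [p] at hxy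
        rw [hin y (Or.inl ⟨hxy, hy⟩)]
        exact ⟨hxy, hy⟩
      · by_cases q : x = b
        · rw [q, tb] at hy ⊢
          rw [q] at hxy
          rw [hin y (Or.inr ⟨hxy, hy⟩)]
          exact ⟨hxy, hy⟩
        · rw [tx x p q] at hy ⊢
          have hm := hmv x (by omega)
          have e1 := hna x p
          have e2 := hnb' x q
          unfold Btw at hm
          by_cases p' : y = a
          · rw [p', ta]
            omega
          · by_cases q' : y = b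
            · rw [q', tb]
              omega
            · rw [tx y p' q']
              exact h2 x y hxy hy
    · intro x hx
      by_cases p : x = a
      · rw [p, ta]; exact hb
      · have q : x ≠ b := fun h => hdis x hx (h ▸ hb)
        rw [tx x p q]
        exact Finset.mem_of_mem_erase (h3 x (Finset.mem_erase.2 ⟨p, hx⟩))
    · intro x hx
      by_cases q : x = b
      · rw [q, tb]; exact ha
      · have p : x ≠ a := fun h => hdis x (h ▸ ha) hx
        rw [tx x p q]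
        exact Finset.mem_of_mem_erase (h4 x (Finset.mem_erase.2 ⟨q, hx⟩))
    · intro x hxA hxB
      have p : x ≠ a := fun h => hxA (h ▸ ha)
      have q : x ≠ b := fun h => hxB (h ▸ hb)
      rw [tx x p q]
      exact h5 x (fun h => hxA (Finset.mem_of_mem_erase h))
        (fun h => hxB (Finset.mem_of_mem_erase h))

end Kit1a

theorem ramseyS : RamseyS := by
  intro Γ _ r
  classical
  rcases isEmpty_or_nonempty Γ with h | h
  · exact ⟨0, fun c => (h.false (c 0 0)).elim⟩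
  · haveI := Fintype.ofFinite Γ
    exact Kit1a.ramsey Γ r

theorem diS : DiS := by
  intro σ μ hσ hμ
  constructor
  · intro a b c ha hb hc hab hac
    obtain ⟨F, d, h0, h1, -, h3, h4⟩ := Kit1a.orbit hσ hμ ha
    obtain ⟨i, rfl⟩ := h4 b hab
    obtain ⟨j, rfl⟩ := h4 c hac
    rw [h1, h3] at hb hc
    obtain ⟨p, hp⟩ := hb
    obtain ⟨q, hq⟩ := hc
    rw [← h0, h3, h3, h3]
    rcases Int.even_or_odd' p with ⟨u, rfl | rfl⟩
    · exact Or.inl ⟨u, by linarith⟩
    · rcases Int.even_or_odd' q with ⟨v, rfl | rfl⟩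
      · exact Or.inr (Or.inl ⟨v, by linarith⟩)
      · exact Or.inr (Or.inr ⟨v - u, by linarith⟩)
  · intro a b c ha hb hc hab hac
    obtain ⟨F, d, h0, h1, h2, h3, h4⟩ := Kit1a.orbit hσ hμ ha
    obtain ⟨i, rfl⟩ := h4 b hab
    obtain ⟨j, rfl⟩ := h4 c hac
    rw [h1, h3] at hb
    rw [h2, h3] at hc
    obtain ⟨p, hp⟩ := hb
    obtain ⟨q, hq⟩ := hc
    rw [← h0, h3]
    exact ⟨j * p - i * q, by linear_combination j * hp - i * hq⟩

theorem ncmS : NcmS := fun A B hd hc => Kit1a.ncm_aux B.card A B hd hc rfl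

end Pool.Agent.MP_9d78a0_co.fb

end MrgPart0

-- ======== part 1: formerly Pool.Agent.MP_9d78a0_co.fb.Draw
section MrgPart1

/-! A non-crossing matching is drawn in the grid. -/

set_option autoImplicit false

namespace Pool.Agent.MP_9d78a0_co.fb

open Set Function

namespace Draw

/-- weakly between -/
def bt (a b c : ℕ) : Prop := (a ≤ c ∧ c ≤ b) ∨ (b ≤ c ∧ c ≤ a)

/-- two vertical segments joined along row `r` -/
def arc (u v : ℕ × ℕ) (r : ℕ) : Set (ℕ × ℕ) :=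
  {z | (z.1 = u.1 ∧ bt u.2 r z.2) ∨ (z.2 = r ∧ bt u.1 v.1 z.1) ∨ (z.1 = v.1 ∧ bt v.2 r z.2)}

theorem link_up {S : Set (ℕ × ℕ)} {f : ℕ → ℕ × ℕ} (hf : ∀ t, gridN.Adj (f t) (f (t + 1)))
    {a b : ℕ} (hab : a ≤ b) (h : ∀ t, a ≤ t → t ≤ b → f t ∈ S) : Link gridN S (f a) (f b) := by
  induction b, hab using Nat.le_induction with
  | base => exact Link.refl _ _ _
  | succ m hm ih =>
    exact (ih fun t h1 h2 => h t h1 (by omega)).trans
      (Link.single (h m hm (by omega)) (h (m + 1) (by omega) le_rfl) (hf m))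

theorem link_bt {S : Set (ℕ × ℕ)} {f : ℕ → ℕ × ℕ} (hf : ∀ t, gridN.Adj (f t) (f (t + 1)))
    {a b : ℕ} (h : ∀ t, bt a b t → f t ∈ S) : Link gridN S (f a) (f b) := by
  rcases le_total a b with c | c
  · exact link_up hf c fun t h1 h2 => h t (Or.inl ⟨h1, h2⟩)
  · exact (link_up hf c fun t h1 h2 => h t (Or.inr ⟨h1, h2⟩)).symm

theorem adjV (c t : ℕ) : gridN.Adj (c, t) (c, t + 1) := Or.inl ⟨rfl, Or.inl rfl⟩

theorem adjH (r t : ℕ) : gridN.Adj (t, r) (t + 1, r) := Or.inr ⟨rfl, Or.inl rfl⟩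

theorem arc_conn (u v : ℕ × ℕ) (r : ℕ) : Conn gridN (arc u v r) := by
  have h0 : (u.1, r) ∈ arc u v r := Or.inl ⟨rfl, by simp only [bt]; omega⟩
  refine conn_of_center h0 ?_
  rintro ⟨c, t⟩ (⟨h1, h2⟩ | ⟨h1, h2⟩ | ⟨h1, h2⟩)
  · obtain rfl : c = u.1 := h1
    refine link_bt (f := fun t => (u.1, t)) (adjV _) fun s hs => Or.inl ⟨rfl, ?_⟩
    simp only [bt] at *
    omega
  · obtain rfl : t = r := h1
    refine link_bt (f := fun s => (s, t)) (adjH _) fun s hs => Or.inr (Or.inl ⟨rfl, ?_⟩)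
    simp only [bt] at *
    omega
  · obtain rfl : c = v.1 := h1
    refine (link_bt (f := fun s => (s, r)) (adjH _) fun s hs => Or.inr (Or.inl ⟨rfl, hs⟩)).trans ?_
    refine link_bt (f := fun t => (v.1, t)) (adjV _) fun s hs => Or.inr (Or.inr ⟨rfl, ?_⟩)
    simp only [bt] at *
    omega

/-- the row of the arc with ends `p < q` -/
def row (n p q : ℕ) : ℕ :=
  if q < n then q - p else if n ≤ p then 3 * n + 2 - (q - p)
    else if p + q + 1 ≤ 2 * n then 2 * n - p else n + p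

/-- the arc with ends `p < q` -/
def A (n p q : ℕ) : Set (ℕ × ℕ) := arc (node n p) (node n q) (row n p q)

theorem mem_A {n p q : ℕ} {z : ℕ × ℕ} (hpq : p < q) (hq : q < 2 * n) (h : z ∈ A n p q) :
    (q < n ∧ (((z.1 = p ∨ z.1 = q) ∧ z.2 + p ≤ q) ∨ (z.2 + p = q ∧ p ≤ z.1 ∧ z.1 ≤ q))) ∨
    (n ≤ p ∧ z.2 ≤ 3 * n + 2 ∧
      (((z.1 + p + 1 = 2 * n ∨ z.1 + q + 1 = 2 * n) ∧ 3 * n + 2 + p ≤ z.2 + q) ∨
      (3 * n + 2 + p = z.2 + q ∧ 2 * n ≤ z.1 + q + 1 ∧ z.1 + p + 1 ≤ 2 * n))) ∨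
    (p < n ∧ n ≤ q ∧ p + q + 1 ≤ 2 * n ∧ ((z.1 = p ∧ z.2 + p ≤ 2 * n) ∨
      (z.2 + p = 2 * n ∧ p ≤ z.1 ∧ z.1 + q + 1 ≤ 2 * n) ∨
      (z.1 + q + 1 = 2 * n ∧ 2 * n ≤ z.2 + p ∧ z.2 ≤ 3 * n + 2))) ∨
    (p < n ∧ n ≤ q ∧ 2 * n < p + q + 1 ∧ ((z.1 = p ∧ z.2 ≤ n + p) ∨
      (z.2 = n + p ∧ z.1 ≤ p ∧ 2 * n ≤ z.1 + q + 1) ∨
      (z.1 + q + 1 = 2 * n ∧ n + p ≤ z.2 ∧ z.2 ≤ 3 * n + 2))) := by
  simp only [A, arc, bt, node, row, mem_setOf_eq] at h
  by_cases c1 : q < n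
  · have c2 : p < n := by omega
    simp only [c1, c2, if_true] at h
    exact Or.inl ⟨c1, by omega⟩
  · by_cases c2 : p < n
    · have c3 : ¬ n ≤ p := by omega
      by_cases c4 : p + q + 1 ≤ 2 * n
      · simp only [c1, c2, c3, c4, if_true, if_false] at h
        exact Or.inr (Or.inr (Or.inl ⟨c2, by omega, c4, by omega⟩))
      · simp only [c1, c2, c3, c4, if_true, if_false] at h
        exact Or.inr (Or.inr (Or.inr ⟨c2, by omega, by omega, by omega⟩))
    · have c3 : n ≤ p := by omega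
      simp only [c1, c2, c3, if_true, if_false] at h
      exact Or.inr (Or.inl ⟨c3, by omega, by omega⟩)

theorem A_box {n p q : ℕ} {z : ℕ × ℕ} (hpq : p < q) (hq : q < 2 * n) (h : z ∈ A n p q) :
    z.1 < n ∧ z.2 < 3 * n + 3 := by
  have := mem_A hpq hq h
  omega

theorem left_mem (n p q : ℕ) : node n p ∈ A n p q :=
  Or.inl ⟨rfl, by simp only [bt]; omega⟩

theorem right_mem (n p q : ℕ) : node n q ∈ A n p q :=
  Or.inr (Or.inr ⟨rfl, by simp only [bt]; omega⟩)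

theorem node_not_mem {n p q y : ℕ} (hpq : p < q) (hq : q < 2 * n) (hy : y < 2 * n) (h1 : y ≠ p)
    (h2 : y ≠ q) : node n y ∉ A n p q := by
  intro h
  have k := mem_A hpq hq h
  by_cases c : y < n
  · simp only [node, c, if_true] at k
    omega
  · simp only [node, c, if_false] at k
    omega

theorem A_disj {n p q p' q' : ℕ} (hpq : p < q) (hq : q < 2 * n) (hpq' : p' < q')
    (hq' : q' < 2 * n) (h : p < p') (h' : q < p' ∨ q' < q) : Disjoint (A n p q) (A n p' q') := by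
  rw [disjoint_left]
  intro z h1 h2
  have k1 := mem_A hpq hq h1
  have k2 := mem_A hpq' hq' h2
  clear h1 h2
  rcases k1 with k1 | k1 | k1 | k1 <;> rcases k2 with k2 | k2 | k2 | k2 <;> omega

end Draw

open Draw in
theorem drawS : DrawS := by
  intro n μ hi hn hb
  have lt : ∀ x, μ x ≠ x → min x (μ x) < max x (μ x) := fun x h => by omega
  have bd : ∀ x < 2 * n, max x (μ x) < 2 * n := fun x h => by have := hb x h; omega
  refine ⟨fun x => A n (min x (μ x)) (max x (μ x)), fun x hx hm =>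
    ⟨arc_conn _ _ _, fun z hz => A_box (lt x hm) (bd x hx) hz, ?_, ?_, fun y hy h1 h2 =>
      ⟨node_not_mem (lt x hm) (bd x hx) hy (by omega) (by omega), fun hm' => ?_⟩⟩⟩
  · rcases le_total x (μ x) with c | c
    · simpa only [min_eq_left c] using left_mem n x (max x (μ x))
    · simpa only [max_eq_left c] using right_mem n (min x (μ x)) x
  · simp only [hi x, min_comm, max_comm]
  · have h3 : μ y ≠ x := fun e => h2 (by rw [← e, hi y])
    have h4 : μ y ≠ μ x := fun e => h1 (hi.injective e)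
    have n1 := hn x y
    have n2 := hn x (μ y)
    have n3 := hn (μ x) y
    have n4 := hn (μ x) (μ y)
    have n5 := hn y x
    have n6 := hn y (μ x)
    have n7 := hn (μ y) x
    have n8 := hn (μ y) (μ x)
    rw [hi x] at n3 n4 n6 n8
    rw [hi y] at n2 n4 n7 n8
    rcases lt_or_gt_of_ne (show min x (μ x) ≠ min y (μ y) by omega) with c | c
    · exact A_disj (lt x hm) (bd x hx) (lt y hm') (bd y hy) c (by omega)
    · exact (A_disj (lt y hm') (bd y hy) (lt x hm) (bd x hx) c (by omega)).symm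

end Pool.Agent.MP_9d78a0_co.fb

end MrgPart1

-- ======== part 2: formerly Pool.Agent.MP_9d78a0_co.st.Kh
section MrgPart2

/-! A grid with rails is universal; chords give a realised involution. -/

set_option autoImplicit false

namespace Pool.Agent.MP_9d78a0_co.st

open Set Function fb

namespace Kh

theorem enc_lt {h b c : ℕ} (hb : b < h) (hc : c < h) : b * h + c < h * h := by
  have := Nat.mul_le_mul_right h (Nat.succ_le_of_lt hb)
  rw [Nat.succ_mul] at this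
  omega

theorem enc_inj {h b c b' c' : ℕ} (hc : c < h) (hc' : c' < h) (e : b * h + c = b' * h + c') :
    b = b' ∧ c = c' := by
  rcases lt_trichotomy b b' with k | rfl | k
  · have := Nat.mul_le_mul_right h (Nat.succ_le_of_lt k)
    rw [Nat.succ_mul] at this
    omega
  · omega
  · have := Nat.mul_le_mul_right h (Nat.succ_le_of_lt k)
    rw [Nat.succ_mul] at this
    omega

theorem mem_T {h : ℕ} {p : ℕ × ℕ} :
    p ∈ Tst h ↔ ∃ b c, b < c ∧ c < h ∧ p = (b * h + c, c * h + b) := by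
  simp only [Tst, Finset.mem_image, Finset.mem_filter, Finset.mem_product, Finset.mem_range]
  exact ⟨fun ⟨q, ⟨⟨_, h2⟩, h3⟩, e⟩ => ⟨q.1, q.2, h3, h2, e.symm⟩,
    fun ⟨b, c, h1, h2, e⟩ => ⟨(b, c), ⟨⟨h1.trans h2, h2⟩, h1⟩, e.symm⟩⟩

theorem ends_lt (h : ℕ) : ends (Tst h) ⊆ Iio (h * h) := by
  rintro a ⟨p, hp, k⟩
  obtain ⟨b, c, h1, h2, rfl⟩ := mem_T.1 hp
  rcases k with rfl | rfl
  exacts [enc_lt (h1.trans h2) h2, enc_lt h2 (h1.trans h2)]

theorem cc_symm {σ μ : ℕ → ℕ} (hσ : Involutive σ) (hμ : Involutive μ) {a b : ℕ}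
    (h : CC σ μ a b) : CC σ μ b a := by
  induction h with
  | refl => exact Relation.ReflTransGen.refl
  | @tail x y _ h2 ih =>
    refine Relation.ReflTransGen.head ?_ ih
    rcases h2 with rfl | rfl
    exacts [Or.inl (hσ x).symm, Or.inr (hμ x).symm]

variable {V : Type} {G : SimpleGraph V}

theorem sub_cp {Z S T : Set V} {a : V} (hT : T ⊆ cp G Z a) (h : Conn G S) (hS : S ⊆ Z)
    (k : (T ∩ S).Nonempty ∨ Touch G T S) : S ⊆ cp G Z a := by
  rcases k with ⟨x, h1, h2⟩ | ⟨x, h1, y, h2, e⟩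
  exacts [conn_sub_cp h hS h2 (hT h1), conn_sub_cp h hS h2 (cp_closed (hT h1) (hS h2) e)]

/-- the minor from rails `T`, chords `X` and drawn arcs `D` -/
theorem core {h n : ℕ} {σ μ : ℕ → ℕ} {T X D : ℕ → Set V} (hn : h * h ≤ n)
    (hσ : Involutive σ) (hμ : Involutive μ) (cc : ∀ p ∈ Tst h, CC σ μ p.1 p.2)
    (hT : ∀ x < n, Conn G (T x) ∧ (∀ y < n, x ≠ y → Disjoint (T x) (T y)) ∧
      (x + 1 < h * h → Touch G (T x) (T (x + 1))))
    (hX : ∀ x, σ x ≠ x → h * h ≤ x ∧ x < n ∧ Conn G (X x) ∧ (T x ∩ X x).Nonempty ∧ X (σ x) = X x ∧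
      (∀ y, σ y ≠ y → y ≠ x → y ≠ σ x → Disjoint (X x) (X y)) ∧
      ∀ y < n, (T y ∩ X x).Nonempty → h * h ≤ y ∧ (σ y ≠ y → (X y ∩ X x).Nonempty))
    (hD : ∀ x, μ x ≠ x → x < n ∧ Conn G (D x) ∧ Touch G (T x) (D x) ∧ D (μ x) = D x ∧
      (∀ y, μ y ≠ y → y ≠ x → y ≠ μ x → Disjoint (D x) (D y)) ∧
      (∀ y < n, Disjoint (D x) (T y)) ∧ ∀ y, σ y ≠ y → Disjoint (D x) (X y)) :
    IsMinor (⊤ : SimpleGraph (Fin h)) G := by
  have fx : ∀ x < h * h, σ x = x := fun x hx => not_not.1 fun k => by have := (hX x k).1; omega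
  have cq : ∀ {b c}, b < c → c < h → CC σ μ (b * h + c) (c * h + b) := fun {b c} h1 h2 =>
    cc (_, _) (mem_T.2 ⟨b, c, h1, h2, rfl⟩)
  have pq : ∀ {b c}, b < c → c < h → b * h + c ≠ c * h + b := fun {b c} h1 h2 e => by
    have := enc_inj h2 (h1.trans h2) e; omega
  have two : ∀ {b c x}, b < c → c < h → CC σ μ (b * h + c) x → σ x = x →
      x = b * h + c ∨ x = c * h + b := fun {b c x} h1 h2 k e => by
    rcases (diS σ μ hσ hμ).1 _ _ x (fx _ (enc_lt (h1.trans h2) h2))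
      (fx _ (enc_lt h2 (h1.trans h2))) e (cq h1 h2) k with l | l | l
    exacts [absurd l (pq h1 h2), Or.inl l.symm, Or.inr l.symm]
  let O : ℕ → ℕ → Prop := fun b x => ∃ c, b < c ∧ c < h ∧ CC σ μ (b * h + c) x
  have Ou : ∀ {b b' x}, O b x → O b' x → b = b' := by
    rintro b b' x ⟨c, h1, h2, k⟩ ⟨c', h3, h4, k'⟩
    rcases two h1 h2 (k.trans (cc_symm hσ hμ k')) (fx _ (enc_lt (h3.trans h4) h4)) with e | e
    · exact (enc_inj h4 h2 e).1.symm
    · have := enc_inj h4 (h1.trans h2) e; omega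
  have Os : ∀ {b x}, O b x → O b (σ x) := fun ⟨c, h1, h2, k⟩ => ⟨c, h1, h2, k.tail (Or.inl rfl)⟩
  have Om : ∀ {b x}, O b x → O b (μ x) := fun ⟨c, h1, h2, k⟩ => ⟨c, h1, h2, k.tail (Or.inr rfl)⟩
  have On : ∀ {b x}, O b x → x < n := by
    rintro b x ⟨c, h1, h2, k⟩
    induction k with
    | refl => exact (enc_lt (h1.trans h2) h2).trans_le hn
    | @tail x y _ e ih =>
      by_cases l : y = x
      · exact l ▸ ih
      · rcases e with rfl | rfl
        · exact (hX _ (by rw [hσ x]; exact fun k => l k.symm)).2.1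
        · exact (hD _ (by rw [hμ x]; exact fun k => l k.symm)).1
  let A : ℕ → ℕ → Prop := fun b x => (∃ c < h, x = b * h + c) ∨ (h * h ≤ x ∧ O b x)
  have An : ∀ {b x}, b < h → A b x → x < n := by
    rintro b x hb (⟨c, h1, rfl⟩ | k)
    exacts [(enc_lt hb h1).trans_le hn, On k.2]
  let Br : ℕ → Set V := fun b => {v | ∃ x, (A b x ∧ v ∈ T x) ∨
    (O b x ∧ ((σ x ≠ x ∧ v ∈ X x) ∨ (μ x ≠ x ∧ v ∈ D x)))}
  have sT : ∀ {b x}, A b x → T x ⊆ Br b := fun {b x} k v hv => ⟨x, Or.inl ⟨k, hv⟩⟩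
  have sX : ∀ {b x}, O b x → σ x ≠ x → X x ⊆ Br b := fun {b x} k l v hv =>
    ⟨x, Or.inr ⟨k, Or.inl ⟨l, hv⟩⟩⟩
  have sD : ∀ {b x}, O b x → μ x ≠ x → D x ⊆ Br b := fun {b x} k l v hv =>
    ⟨x, Or.inr ⟨k, Or.inr ⟨l, hv⟩⟩⟩
  have TX : ∀ {b b' x y v}, b < h → A b x → O b' y → σ y ≠ y → v ∈ T x → v ∈ X y → b = b' := by
    intro b b' x y v hb k k' l h1 h2
    obtain ⟨h3, h4⟩ := (hX y l).2.2.2.2.2.2 x (An hb k) ⟨v, h1, h2⟩
    have ko : O b x := by
      rcases k with ⟨c, h5, rfl⟩ | k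
      exacts [absurd (enc_lt hb h5) (by omega), k.2]
    have sx : σ x ≠ x := fun e => by
      obtain ⟨c, h5, h6, k⟩ := ko
      have := enc_lt (h5.trans h6) h6
      have := enc_lt h6 (h5.trans h6)
      rcases two h5 h6 k e with l | l <;> omega
    by_cases e1 : x = y
    · exact Ou ko (e1 ▸ k')
    by_cases e2 : x = σ y
    · exact Ou ko (e2 ▸ Os k')
    exact absurd ((hX y l).2.2.2.2.2.1 x sx e1 e2).symm (not_disjoint_iff.2 (h4 sx))
  refine (isMinor_iff _ _).2 ⟨fun b => Br b, fun _ => subset_univ _, fun b => ?_,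
    fun b b' hb => disjoint_left.2 ?_, ?_⟩
  · obtain ⟨b, hb⟩ := b
    have a0 : ∀ c < h, A b (b * h + c) := fun c hc => Or.inl ⟨c, hc, rfl⟩
    obtain ⟨a, ha⟩ := (hT _ (An hb (a0 0 (by omega)))).1.1
    have bus : ∀ c < h, T (b * h + c) ⊆ cp G (Br b) a := fun c hc => by
      induction c with
      | zero =>
        exact conn_sub_cp (hT _ (An hb (a0 0 hc))).1 (sT (a0 0 hc)) ha (cp_self (sT (a0 0 hc) ha))
      | succ c ih =>
        exact sub_cp (ih (by omega)) (hT _ (An hb (a0 _ hc))).1 (sT (a0 _ hc))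
          (Or.inr ((hT _ (An hb (a0 c (by omega)))).2.2 (enc_lt hb hc)))
    have fT : ∀ x, O b x → T x ⊆ cp G (Br b) a → (σ x ≠ x → X x ⊆ cp G (Br b) a) ∧
        (μ x ≠ x → D x ⊆ cp G (Br b) a) := fun x k l =>
      ⟨fun e => sub_cp l (hX x e).2.2.1 (sX k e) (Or.inl (hX x e).2.2.2.1),
        fun e => sub_cp l (hD x e).2.1 (sD k e) (Or.inr (hD x e).2.2.1)⟩
    have orb : ∀ x, O b x → (h * h ≤ x → T x ⊆ cp G (Br b) a) ∧
        (σ x ≠ x → X x ⊆ cp G (Br b) a) ∧ (μ x ≠ x → D x ⊆ cp G (Br b) a) := by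
      rintro x ⟨c, h1, h2, k⟩
      induction k with
      | refl => exact ⟨fun _ => bus c h2, fT _ ⟨c, h1, h2, .refl⟩ (bus c h2)⟩
      | @tail x y k e ih =>
        have ky : O b y := ⟨c, h1, h2, k.tail e⟩
        by_cases l : y = x
        · exact l ▸ ih
        rcases e with rfl | rfl
        · have l' : σ (σ x) ≠ σ x := by rw [hσ x]; exact fun k => l k.symm
          have t := sub_cp (T := X (σ x)) ((hX x l).2.2.2.2.1 ▸ ih.2.1 l) (hT _ (On ky)).1
            (sT (Or.inr ⟨(hX _ l').1, ky⟩)) (Or.inl (inter_comm _ _ ▸ (hX _ l').2.2.2.1))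
          exact ⟨fun _ => t, fT _ ky t⟩
        · have l' : μ (μ x) ≠ μ x := by rw [hμ x]; exact fun k => l k.symm
          have d : D (μ x) ⊆ cp G (Br b) a := (hD x l).2.2.2.1 ▸ ih.2.2 l
          by_cases g : h * h ≤ μ x
          · have t := sub_cp d (hT _ (On ky)).1 (sT (Or.inr ⟨g, ky⟩)) (Or.inr (hD _ l').2.2.1.symm)
            exact ⟨fun _ => t, fT _ ky t⟩
          · exact ⟨fun g' => absurd g' g, fun e => absurd (hX _ e).1 g, fun _ => d⟩
    refine conn_of_center (sT (a0 0 (by omega)) ha) ?_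
    rintro v ⟨x, ⟨⟨c, h1, rfl⟩ | k, hv⟩ | ⟨k, ⟨e, hv⟩ | ⟨e, hv⟩⟩⟩
    exacts [(bus c h1 hv).2, ((orb x k.2).1 k.1 hv).2, ((orb x k).2.1 e hv).2,
      ((orb x k).2.2 e hv).2]
  · rintro v ⟨x, ⟨k, hv⟩ | ⟨k, ⟨e, hv⟩ | ⟨e, hv⟩⟩⟩ ⟨y, ⟨k', hv'⟩ | ⟨k', ⟨e', hv'⟩ | ⟨e', hv'⟩⟩⟩
    · by_cases l : x = y
      · subst l
        refine hb (Fin.ext ?_)
        rcases k with ⟨c, h1, rfl⟩ | k <;> rcases k' with ⟨c', h2, e⟩ | k'
        · exact (enc_inj h1 h2 e).1
        · exact absurd (enc_lt b.2 h1) (by omega)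
        · exact absurd (enc_lt b'.2 h2) (by omega)
        · exact Ou k.2 k'.2
      · exact disjoint_left.1 ((hT x (An b.2 k)).2.1 y (An b'.2 k') l) hv hv'
    · exact hb (Fin.ext (TX b.2 k k' e' hv hv'))
    · exact disjoint_left.1 ((hD y e').2.2.2.2.2.1 x (An b.2 k)) hv' hv
    · exact hb (Fin.ext (TX b'.2 k' k e hv' hv).symm)
    · refine disjoint_left.1 ((hX x e).2.2.2.2.2.1 y e' (fun l => ?_) fun l => ?_) hv hv'
      exacts [hb (Fin.ext (Ou k (l ▸ k'))), hb (Fin.ext (Ou (Os k) (l ▸ k')))]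
    · exact disjoint_left.1 ((hD y e').2.2.2.2.2.2 x e) hv' hv
    · exact disjoint_left.1 ((hD x e).2.2.2.2.2.1 y (An b'.2 k')) hv hv'
    · exact disjoint_left.1 ((hD x e).2.2.2.2.2.2 y e') hv hv'
    · refine disjoint_left.1 ((hD x e).2.2.2.2.1 y e' (fun l => ?_) fun l => ?_) hv hv'
      exacts [hb (Fin.ext (Ou k (l ▸ k'))), hb (Fin.ext (Ou (Om k) (l ▸ k')))]
  · have key : ∀ b c, b < c → c < h → Touch G (Br b) (Br c) := fun b c h1 h2 => by
      have m : μ (c * h + b) ≠ c * h + b := fun e => pq h1 h2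
        ((diS σ μ hσ hμ).2 _ _ _ (fx _ (enc_lt (h1.trans h2) h2)) (fx _ (enc_lt h2 (h1.trans h2)))
          e (cq h1 h2) (cq h1 h2))
      exact (hD _ m).2.2.1.symm.mono (sD ⟨c, h1, h2, cq h1 h2⟩ m)
        (sT (Or.inl ⟨b, h1.trans h2, rfl⟩))
    intro b b' e
    rcases lt_or_gt_of_ne (show b ≠ b' from e) with l | l
    exacts [key b b' l b'.2, (key b' b l b.2).symm]

end Kh

open Kh in
theorem khS : KhS := by
  intro V G h n n' W ob B T hK hn _ hn2 hB hT
  refine ⟨hn, ?_⟩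
  rintro σ hσ ⟨X, hX⟩ ⟨μ, hμ, nc, sup, cc⟩
  have sup' : ∀ x, μ x ≠ x → x < 2 * n' := fun x e => lt_of_lt_of_le (sup x e) hn2
  obtain ⟨S, hS⟩ := drawS n' μ hμ nc fun x hx => by
    by_cases e : μ x = x
    · rwa [e]
    · exact sup' _ (by rw [hμ x]; exact fun k => e k.symm)
  refine hK (core (T := T) (X := X) (D := fun x => ⋃ z ∈ S x, B z) hn hσ hμ cc
    (fun x hx => ⟨(hT x hx).1, (hT x hx).2.2.1, (hT x hx).2.2.2.1⟩) (fun x e => ?_) fun x e => ?_)
  · obtain ⟨h1, h2, h3, h4, h5, h6, h7⟩ := hX x e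
    have t : ob x ∈ T x ∩ W := ((hT x h2).2.2.2.2.2 h1).symm ▸ rfl
    refine ⟨h1, h2, h4, ⟨_, t.1, h5⟩, h6, h7, fun y hy ⟨v, v1, v2⟩ => ?_⟩
    have g : h * h ≤ y := not_lt.1 fun l => disjoint_left.1 ((hT y hy).2.2.2.2.1 l) v1 (h3 v2)
    have : v ∈ ({ob y} : Set V) := (hT y hy).2.2.2.2.2 g ▸ ⟨v1, h3 v2⟩
    exact ⟨g, fun e' => ⟨v, (show v = ob y from this) ▸ (hX y e').2.2.2.2.1, v2⟩⟩
  · obtain ⟨h1, h2, h3, h4, h5⟩ := hS x (sup' x e) e
    have b := fun z hz => hB z (h2 z hz).1 (h2 z hz).2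
    refine ⟨sup x e, conn_biUnion h3 (fun z hz => (b z hz).1) fun z hz => ?_,
      (hT x (sup x e)).2.1.mono Subset.rfl (subset_biUnion_of_mem (u := B) h3), by simp only [h4],
      fun y e' l l' => ?_, fun y hy => disjoint_iUnion₂_left.2 fun z hz => (b z hz).2.2.1 y hy,
      fun y e' => disjoint_iUnion₂_left.2 fun z hz =>
        (b z hz).2.1.mono_right (hX y e').2.2.1⟩
    · have l := h1.2 _ h3 z hz
      clear hz
      induction l with
      | refl => exact .refl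
      | tail _ k ih =>
        exact ih.tail ⟨k.1, k.2.1, Or.inr
          (((b _ k.1).2.2.2 _ (h2 _ k.2.1).1 (h2 _ k.2.1).2).2 k.2.2)⟩
    · refine disjoint_iUnion₂_left.2 fun z hz => disjoint_iUnion₂_right.2 fun w hw => ?_
      have k := (hS y (sup' y e') e').2.1 w hw
      exact ((b z hz).2.2.2 w k.1 k.2).1 fun c =>
        disjoint_left.1 ((h5 y (sup' y e') l l').2 e') hz (c ▸ hw)

open Kh in
theorem mksS : MksS := by
  intro V G W ob h n ι F x y X h1 h2
  have u : ∀ i ∈ F, ∀ j ∈ F, ∀ z, z = x i ∨ z = y i → z = x j ∨ z = y j → i = j :=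
    fun i hi j hj z k k' => not_not.1 fun e => disjoint_left.1 (h2 i hi j hj e)
      (show ob z ∈ X i from k.elim (· ▸ (h1 i hi).2.2.1) (· ▸ (h1 i hi).2.2.2.1))
      (k'.elim (· ▸ (h1 j hj).2.2.1) (· ▸ (h1 j hj).2.2.2.1))
  have ex : ∀ z, ∃ (w : ℕ) (S : Set V), (∀ i ∈ F, (z = x i → w = y i ∧ S = X i) ∧
      (z = y i → w = x i ∧ S = X i)) ∧ (w ≠ z → ∃ i ∈ F, z = x i ∨ z = y i) := fun z => by
    by_cases c : ∃ i ∈ F, z = x i ∨ z = y i
    · obtain ⟨i, hi, k | k⟩ := c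
      · refine ⟨y i, X i, fun j hj => ⟨fun e => ?_, fun e => ?_⟩, fun _ => ⟨i, hi, Or.inl k⟩⟩
        · obtain rfl := u i hi j hj z (Or.inl k) (Or.inl e)
          exact ⟨rfl, rfl⟩
        · obtain rfl := u i hi j hj z (Or.inl k) (Or.inr e)
          exact absurd (k.symm.trans e) (h1 i hi).2.2.2.2.1
      · refine ⟨x i, X i, fun j hj => ⟨fun e => ?_, fun e => ?_⟩, fun _ => ⟨i, hi, Or.inr k⟩⟩
        · obtain rfl := u i hi j hj z (Or.inr k) (Or.inl e)
          exact absurd (e.symm.trans k) (h1 i hi).2.2.2.2.1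
        · obtain rfl := u i hi j hj z (Or.inr k) (Or.inr e)
          exact ⟨rfl, rfl⟩
    · exact ⟨z, ∅, fun i hi => ⟨fun e => absurd ⟨i, hi, Or.inl e⟩ c,
        fun e => absurd ⟨i, hi, Or.inr e⟩ c⟩, fun e => absurd rfl e⟩
  choose σ S s1 s2 using ex
  have sx := fun i hi => (s1 (x i) i hi).1 rfl
  have sy := fun i hi => (s1 (y i) i hi).2 rfl
  have all : ∀ z, σ z ≠ z → ∃ i ∈ F, (z = x i ∨ z = y i) ∧ (σ z = x i ∨ σ z = y i) ∧ S z = X i ∧
      S (σ z) = X i ∧ σ (σ z) = z ∧ ∀ w, w = x i ∨ w = y i → w = z ∨ w = σ z := fun z e => by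
    obtain ⟨i, hi, rfl | rfl⟩ := s2 z e
    · rw [(sx i hi).1]
      exact ⟨i, hi, Or.inl rfl, Or.inr rfl, (sx i hi).2, (sy i hi).2, (sy i hi).1, fun _ k => k⟩
    · rw [(sy i hi).1]
      exact ⟨i, hi, Or.inr rfl, Or.inl rfl, (sy i hi).2, (sx i hi).2, (sx i hi).1,
        fun _ k => k.symm⟩
  have lo : ∀ z, σ z ≠ z → h * h ≤ z ∧ z < n := fun z e => by
    obtain ⟨i, hi, rfl | rfl⟩ := s2 z e
    exacts [⟨(h1 i hi).2.2.2.2.2.1, (h1 i hi).2.2.2.2.2.2.1⟩, (h1 i hi).2.2.2.2.2.2.2]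
  refine ⟨σ, ⟨S, fun z e => ?_⟩, ⟨fun z => ?_, ?_, fun a ha => ?_, fun p hp => ?_,
    fun p hp q hq e => ?_⟩, ends_lt h, fun i hi => ⟨(sx i hi).1, (sy i hi).1⟩⟩
  · obtain ⟨i, hi, k1, -, k3, k4, -, k6⟩ := all z e
    refine ⟨(lo z e).1, (lo z e).2, k3 ▸ (h1 i hi).1, k3 ▸ (h1 i hi).2.1,
      k3 ▸ k1.elim (· ▸ (h1 i hi).2.2.1) (· ▸ (h1 i hi).2.2.2.1), k4.trans k3.symm,
      fun w e' l l' => ?_⟩
    obtain ⟨j, hj, m1, -, m3, -⟩ := all w e'
    rw [k3, m3]
    refine h2 i hi j hj fun c => ?_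
    subst c
    exact (k6 w m1).elim l l'
  · by_cases e : σ z = z
    · rw [e, e]
    · exact (all z e).choose_spec.2.2.2.2.2.1
  · exact Finset.card_image_le.trans ((Finset.card_filter_le _ _).trans (by simp))
  · exact not_not.1 fun e => absurd (ends_lt h ha) (not_lt.2 (lo a e).1)
  · obtain ⟨b, c, k1, k2, rfl⟩ := mem_T.1 hp
    exact fun e => by have := enc_inj k2 (k1.trans k2) e; omega
  · obtain ⟨b, c, k1, k2, rfl⟩ := mem_T.1 hp
    obtain ⟨b', c', k3, k4, rfl⟩ := mem_T.1 hq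
    have n1 : ¬ (b = b' ∧ c = c') := fun k => e (by rw [k.1, k.2])
    refine ⟨fun l => n1 (enc_inj k2 k4 l), fun l => ?_, fun l => ?_,
      fun l => n1 (enc_inj (k1.trans k2) (k3.trans k4) l).symm⟩
    · have := enc_inj k2 (k3.trans k4) l; omega
    · have := enc_inj (k1.trans k2) k4 l; omega

end Pool.Agent.MP_9d78a0_co.st

end MrgPart2

-- marker of a merged file
example : 731051 + 656170 = 731051 + 656170 := rfl
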