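import Pool.Agent.MP_9d78a0_co.fb.S2
import Pool.Agent.MP_9d78a0_co.st.Del
import Pool.Agent.MP_9d78a0_co.st.Kh
import Pool.Agent.MP_9d78a0_co.fb.B31

-- ======== part 0: formerly Pool.Agent.MP_9d78a0_co.fb.Kit1b
section MrgPart0

/-! Caps, simulation and the four gadgets. -/

set_option autoImplicit false

namespace Pool.Agent.MP_9d78a0_co.fb

open Set Function

namespace Kit1b

theorem cc_symm {σ μ : ℕ → ℕ} (hσ : Involutive σ) (hμ : Involutive μ) {x y : ℕ}
    (h : CC σ μ x y) : CC σ μ y x := by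
  unfold CC at h ⊢
  induction h with
  | refl => exact Relation.ReflTransGen.refl
  | tail _ h2 ih =>
    refine Relation.ReflTransGen.head ?_ ih
    rcases h2 with h2 | h2
    · left; rw [h2, hσ]
    · right; rw [h2, hμ]

theorem cc_mono {σ ν μ : ℕ → ℕ} (hA : ∀ x, ν x ≠ x → μ x = ν x) {x y : ℕ}
    (h : CC σ ν x y) : CC σ μ x y := by
  unfold CC at h ⊢
  induction h with
  | refl => exact Relation.ReflTransGen.refl
  | @tail u v _ h2 ih =>
    rcases h2 with h2 | h2
    · exact ih.tail (Or.inl h2)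
    · by_cases hu : ν u = u
      · rw [h2, hu]; exact ih
      · exact ih.tail (Or.inr (by rw [h2, hA u hu]))

theorem btw_nc {μ : ℕ → ℕ} (hμ : Involutive μ) (hn : NC μ) {a c : ℕ} (h : Btw a (μ a) c) :
    Btw a (μ a) (μ c) := by
  rcases h with ⟨h1, h2⟩ | ⟨h1, h2⟩
  · exact Or.inl (hn a c h1 h2)
  · have h3 := hn (μ a) c h1 (by rw [hμ]; exact h2)
    rw [hμ] at h3
    exact Or.inr h3

open Classical in
/-- the map given by a family of caps -/
noncomputable def cap {ι : Type} (I : Set ι) (a b : ι → ℕ) (x : ℕ) : ℕ :=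
  if h : ∃ i ∈ I, x = a i then b h.choose
  else if h' : ∃ i ∈ I, x = b i then a h'.choose else x

open Classical in
/-- the merged routing -/
noncomputable def mrg (ν e μ : ℕ → ℕ) (x : ℕ) : ℕ :=
  if ν x ≠ x then ν x else if h : ∃ y, μ y ≠ y ∧ e y = x then e (μ h.choose) else x

end Kit1b

open Kit1b

theorem capS : CapS := by
  intro ι I a b hab hne hnc
  have hA : ∀ i ∈ I, cap I a b (a i) = b i := by
    intro i hi
    have h : ∃ j ∈ I, a i = a j := ⟨i, hi, rfl⟩
    unfold cap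
    rw [dif_pos h]
    obtain ⟨h1, h2⟩ := h.choose_spec
    by_cases hij : i = h.choose
    · rw [← hij]
    · exact absurd h2 (hne i hi _ h1 hij).1
  have hB : ∀ i ∈ I, cap I a b (b i) = a i := by
    intro i hi
    have h0 : ¬ ∃ j ∈ I, b i = a j := by
      rintro ⟨j, hj, h⟩
      by_cases hij : j = i
      · rw [hij] at h
        have := hab i hi
        omega
      · exact (hne j hj i hi hij).2.2 h.symm
    have h : ∃ j ∈ I, b i = b j := ⟨i, hi, rfl⟩
    unfold cap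
    rw [dif_neg h0, dif_pos h]
    obtain ⟨h1, h2⟩ := h.choose_spec
    by_cases hij : i = h.choose
    · rw [← hij]
    · exact absurd h2 (hne i hi _ h1 hij).2.1
  have hC : ∀ x, (∃ i ∈ I, x = a i) ∨ (∃ i ∈ I, x = b i) ∨ cap I a b x = x := by
    intro x
    by_cases h1 : ∃ i ∈ I, x = a i
    · exact Or.inl h1
    by_cases h2 : ∃ i ∈ I, x = b i
    · exact Or.inr (Or.inl h2)
    right; right
    unfold cap
    rw [dif_neg h1, dif_neg h2]
  refine ⟨cap I a b, ?_, ?_, fun i hi => ⟨hA i hi, hB i hi⟩, ?_⟩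
  · intro x
    rcases hC x with ⟨i, hi, rfl⟩ | ⟨i, hi, rfl⟩ | h
    · rw [hA i hi, hB i hi]
    · rw [hB i hi, hA i hi]
    · rw [h, h]
  · intro x y hxy hy
    rcases hC x with ⟨i, hi, rfl⟩ | ⟨i, hi, rfl⟩ | h
    · rw [hA i hi] at hy ⊢
      rcases hC y with ⟨j, hj, rfl⟩ | ⟨j, hj, rfl⟩ | h
      · rw [hA j hj]
        have h1 := hab j hj
        exact ⟨by omega, hnc i hi j hj hxy hy⟩
      · rw [hB j hj]
        have h1 := hab j hj
        refine ⟨?_, by omega⟩
        have hij : i ≠ j := by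
          rintro rfl
          omega
        have h2 := (hne i hi j hj hij).1
        by_contra h3
        have h4 := hnc j hj i hi (by omega) hxy
        omega
      · rw [h]; exact ⟨hxy, hy⟩
    · rw [hB i hi] at hy
      have := hab i hi
      omega
    · rw [h] at hy
      omega
  · intro x hx
    rcases hC x with ⟨i, hi, h⟩ | ⟨i, hi, h⟩ | h
    · exact ⟨i, hi, Or.inl h⟩
    · exact ⟨i, hi, Or.inr h⟩
    · exact absurd h hx

theorem simS : SimS := by
  intro σ ν σ' e T T' P P' D hσ hν hnc hP hP' hinj hcr hin hD hst hT hG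
  obtain ⟨μ, hμ, hμn, hμP, hμT⟩ := hG
  have hs : ∀ y, μ y ≠ y → μ (μ y) ≠ μ y := by
    intro y hy h
    rw [hμ] at h
    exact hy h.symm
  have hA : ∀ x, ν x ≠ x → mrg ν e μ x = ν x := by
    intro x hx
    unfold mrg
    rw [if_pos hx]
  have hB : ∀ y, μ y ≠ y → mrg ν e μ (e y) = e (μ y) := by
    intro y hy
    have h : ∃ z, μ z ≠ z ∧ e z = e y := ⟨y, hy, rfl⟩
    unfold mrg
    rw [if_neg (not_not.mpr (hP' y (hμP y hy)).2), dif_pos h]
    obtain ⟨h1, h2⟩ := h.choose_spec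
    rw [hinj (hμP _ h1) (hμP y hy) h2]
  have hC : ∀ x, ν x ≠ x ∨ (∃ y, μ y ≠ y ∧ e y = x) ∨ mrg ν e μ x = x := by
    intro x
    by_cases h1 : ν x ≠ x
    · exact Or.inl h1
    by_cases h2 : ∃ y, μ y ≠ y ∧ e y = x
    · exact Or.inr (Or.inl h2)
    right; right
    unfold mrg
    rw [if_neg h1, dif_neg h2]
  have hI : Involutive (mrg ν e μ) := by
    intro x
    rcases hC x with h | ⟨y, hy, rfl⟩ | h
    · rw [hA x h, hA (ν x) (by rw [hν]; exact fun h' => h h'.symm), hν]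
    · rw [hB y hy, hB (μ y) (hs y hy), hμ]
    · rw [h, h]
  have hW : ∀ x ∈ D, ∀ y, CC σ' μ x y → y ∈ D ∧ CC σ (mrg ν e μ) (e x) (e y) := by
    intro x hx y h
    unfold CC at h
    induction h with
    | refl => exact ⟨hx, Relation.ReflTransGen.refl⟩
    | @tail u v _ h2 ih =>
      rcases h2 with h2 | h2
      · rw [h2]
        exact ⟨(hst u ih.1).1, Relation.ReflTransGen.trans ih.2 (cc_mono hA (hst u ih.1).2)⟩
      · by_cases hu : μ u = u
        · rw [h2, hu]; exact ih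
        · rw [h2]
          exact ⟨hD (hμP _ (hs u hu)),
            Relation.ReflTransGen.tail ih.2 (Or.inr (hB u hu).symm)⟩
  refine ⟨mrg ν e μ, hI, ?_, ?_, ?_⟩
  · intro x y hxy hy
    rcases hC x with h | ⟨a, ha, rfl⟩ | h
    · rw [hA x h] at hy ⊢
      rcases hC y with h' | ⟨c, hc, rfl⟩ | h'
      · rw [hA y h']; exact hnc x y hxy hy
      · rw [hB c hc]
        exact hin x c (hμP c hc) (μ c) (hμP _ (hs c hc)) hxy hy
      · rw [h']; exact ⟨hxy, hy⟩
    · rw [hB a ha] at hy ⊢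
      have haP := hμP a ha
      have hbP := hμP _ (hs a ha)
      rcases hC y with h' | ⟨c, hc, rfl⟩ | h'
      · rw [hA y h']
        have h1 : ν y ≠ e a := by
          intro h
          have h2 := hν y
          rw [h, (hP' a haP).2] at h2
          omega
        have h2 : ν y ≠ e (μ a) := by
          intro h
          have h2 := hν y
          rw [h, (hP' _ hbP).2] at h2
          omega
        constructor
        · by_contra h3
          have h4 := hin (ν y) a haP (μ a) hbP (by omega) (by rw [hν]; exact hxy)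
          rw [hν] at h4
          omega
        · by_contra h3
          have h4 := hin y (μ a) hbP a haP hy (by omega)
          omega
      · rw [hB c hc]
        have hcP := hμP c hc
        have hdP := hμP _ (hs c hc)
        have h1 : e (μ c) ≠ e a := by
          intro h
          have h2 := hinj hdP haP h
          have h3 := hμ c
          rw [h2] at h3
          rw [h3] at hy
          omega
        have h2 : e (μ c) ≠ e (μ a) := by
          intro h
          have h2 := hμ.injective (hinj hdP hbP h)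
          rw [h2] at hxy
          omega
        by_contra h3
        refine hcr a haP (μ a) hbP c hcP (μ c) hdP hxy hy (by omega) ⟨btw_nc hμ hμn, fun h => ?_⟩
        have h4 := btw_nc hμ hμn h
        rw [hμ] at h4
        exact h4
      · rw [h']; exact ⟨hxy, hy⟩
    · rw [h] at hy
      omega
  · intro x hx
    rcases hC x with h | ⟨y, hy, rfl⟩ | h
    · exact hP x h
    · exact (hP' y (hμP y hy)).1
    · exact absurd h hx
  · intro p hp
    rcases hT p hp with h | ⟨q, hq, hqD, h⟩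
    · exact cc_mono hA h
    · have h0 := (hW q.1 hqD q.2 (hμT q hq)).2
      rcases h with ⟨h1, h2⟩ | ⟨h1, h2⟩
      · exact Relation.ReflTransGen.trans (cc_mono hA h1)
          (Relation.ReflTransGen.trans h0 (cc_symm hσ hI (cc_mono hA h2)))
      · exact Relation.ReflTransGen.trans (cc_mono hA h1)
          (Relation.ReflTransGen.trans (cc_symm hσ hI h0) (cc_symm hσ hI (cc_mono hA h2)))

theorem gadS : GadS := by
  intro σ K Z b hb hZ
  refine ⟨?_, fun hd => ⟨?_, ?_, ?_⟩⟩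
  · intro hi j h3 hj
    refine ⟨j - 1, b, fun i i' h h' => hb i i' h (by omega), fun i h => ?_,
      Or.inr (Or.inr ⟨by omega, fun i h => ?_⟩)⟩
    · obtain ⟨h1, h2, h4⟩ := hZ i (by omega)
      exact ⟨h1, h2, fun i' h' => h4 i' (by omega)⟩
    · rcases Nat.eq_zero_or_pos i with rfl | h0
      · exact le_rfl
      · exact (hi 0 i h0 (by omega)).le
  · intro c d hc hd' hsc hsd h1 h2 h4 hbc j h3 hj
    obtain ⟨u, hu⟩ : ∃ u : ℕ → ℕ, ∀ i, (i + 2 < j ∧ u i = b i) ∨ (i + 2 = j ∧ u i = c) ∨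
        (j < i + 2 ∧ u i = d) := by
      refine ⟨fun i => if i + 2 < j then b i else if i + 2 = j then c else d, fun i => ?_⟩
      by_cases h : i + 2 < j
      · left; exact ⟨h, if_pos h⟩
      by_cases h' : i + 2 = j
      · right; left; exact ⟨h', by simp only [if_neg h, if_pos h']⟩
      · right; right; exact ⟨by omega, by simp only [if_neg h, if_neg h']⟩
    have hu0 : u 0 = b 0 := by
      rcases hu 0 with h | h | h
      · exact h.2
      · omega
      · omega
    refine ⟨j, u, ?_, ?_, Or.inl ⟨rfl, ?_, j - 2, by omega, ?_⟩⟩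
    · intro i i' h h'
      rcases hu i with ⟨p, q⟩ | ⟨p, q⟩ | ⟨p, q⟩ <;> rcases hu i' with ⟨p', q'⟩ | ⟨p', q'⟩ | ⟨p', q'⟩ <;>
        rw [q, q'] <;> first
          | omega
          | exact hb i i' h (by omega)
          | (have := hbc i (by omega); omega)
    · intro i h
      refine ⟨?_, ?_, fun i' h' => ?_⟩
      · rcases hu i with ⟨p, q⟩ | ⟨p, q⟩ | ⟨p, q⟩ <;> rw [q]
        exacts [(hZ i (by omega)).1, hc, hd']
      · rcases hu i with ⟨p, q⟩ | ⟨p, q⟩ | ⟨p, q⟩ <;> rw [q]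
        exacts [(hZ i (by omega)).2.1, hsc, hsd]
      · rcases hu i with ⟨p, q⟩ | ⟨p, q⟩ | ⟨p, q⟩ <;>
          rcases hu i' with ⟨p', q'⟩ | ⟨p', q'⟩ | ⟨p', q'⟩ <;>
          rw [q, q'] <;> first
            | omega
            | exact (hZ i (by omega)).2.2 i' (by omega)
            | (have := hbc i (by omega); omega)
            | (have := hbc i' (by omega); omega)
    · intro i h
      rw [hu0]
      have h0 := hbc 0 (by omega)
      rcases hu i with ⟨p, q⟩ | ⟨p, q⟩ | ⟨p, q⟩ <;> rw [q]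
      · rcases Nat.eq_zero_or_pos i with rfl | h0
        · exact le_rfl
        · exact (hd 0 i h0 (by omega)).le
      · omega
      · omega
    · have e1 : u (j - 2) = c := by
        rcases hu (j - 2) with h | h | h
        · omega
        · exact h.2
        · omega
      have e2 : u (j - 1) = d := by
        rcases hu (j - 1) with h | h | h
        · omega
        · omega
        · exact h.2
      rw [e1, e2]
      exact h4
  · intro a ha hsa h1 hab j h3 hj
    obtain ⟨u, hu⟩ : ∃ u : ℕ → ℕ, ∀ i, (i = 0 ∧ u i = a) ∨ (0 < i ∧ u i = b (i - 1)) := by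
      refine ⟨fun i => if i = 0 then a else b (i - 1), fun i => ?_⟩
      by_cases h : i = 0
      · left; exact ⟨h, if_pos h⟩
      · right; exact ⟨by omega, if_neg h⟩
    have hu0 : u 0 = a := by
      rcases hu 0 with h | h
      · exact h.2
      · omega
    refine ⟨j - 1, u, ?_, ?_, Or.inr (Or.inr ⟨by omega, ?_⟩)⟩
    · intro i i' h h'
      rcases hu i with ⟨p, q⟩ | ⟨p, q⟩ <;> rcases hu i' with ⟨p', q'⟩ | ⟨p', q'⟩ <;>
        rw [q, q'] <;> first
          | omega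
          | exact hb (i - 1) (i' - 1) (by omega) (by omega)
          | (have := hab (i' - 1) (by omega); omega)
    · intro i h
      refine ⟨?_, ?_, fun i' h' => ?_⟩
      · rcases hu i with ⟨p, q⟩ | ⟨p, q⟩ <;> rw [q]
        exacts [ha, (hZ (i - 1) (by omega)).1]
      · rcases hu i with ⟨p, q⟩ | ⟨p, q⟩ <;> rw [q]
        exacts [hsa, (hZ (i - 1) (by omega)).2.1]
      · rcases hu i with ⟨p, q⟩ | ⟨p, q⟩ <;> rcases hu i' with ⟨p', q'⟩ | ⟨p', q'⟩ <;>
          rw [q, q'] <;> first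
            | omega
            | exact (hZ (i - 1) (by omega)).2.2 (i' - 1) (by omega)
            | (have := hab (i' - 1) (by omega); omega)
            | (have := hab (i - 1) (by omega); omega)
    · intro i h
      rw [hu0]
      rcases hu i with ⟨p, q⟩ | ⟨p, q⟩ <;> rw [q]
      have := hab (i - 1) (by omega)
      omega
  · intro a ha hsa h1 hab j h3 hj
    obtain ⟨u, hu⟩ : ∃ u : ℕ → ℕ, ∀ i, (i + 1 < j ∧ u i = b i) ∨ (j ≤ i + 1 ∧ u i = a) := by
      refine ⟨fun i => if i + 1 < j then b i else a, fun i => ?_⟩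
      by_cases h : i + 1 < j
      · left; exact ⟨h, if_pos h⟩
      · right; exact ⟨by omega, if_neg h⟩
    have hu0 : u 0 = b 0 := by
      rcases hu 0 with h | h
      · exact h.2
      · omega
    have hu1 : u (j - 1) = a := by
      rcases hu (j - 1) with h | h
      · omega
      · exact h.2
    refine ⟨j, u, ?_, ?_, Or.inr (Or.inl ⟨rfl, ?_⟩)⟩
    · intro i i' h h'
      rcases hu i with ⟨p, q⟩ | ⟨p, q⟩ <;> rcases hu i' with ⟨p', q'⟩ | ⟨p', q'⟩ <;>
        rw [q, q'] <;> first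
          | omega
          | exact hb i i' h (by omega)
          | (have := hab i (by omega); omega)
    · intro i h
      refine ⟨?_, ?_, fun i' h' => ?_⟩
      · rcases hu i with ⟨p, q⟩ | ⟨p, q⟩ <;> rw [q]
        exacts [(hZ i (by omega)).1, ha]
      · rcases hu i with ⟨p, q⟩ | ⟨p, q⟩ <;> rw [q]
        exacts [(hZ i (by omega)).2.1, hsa]
      · rcases hu i with ⟨p, q⟩ | ⟨p, q⟩ <;> rcases hu i' with ⟨p', q'⟩ | ⟨p', q'⟩ <;>
          rw [q, q'] <;> first
            | omega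
            | exact (hZ i (by omega)).2.2 i' (by omega)
            | (have := hab i (by omega); omega)
            | (have := hab i' (by omega); omega)
    · intro i h
      rw [hu0, hu1]
      have h0 := hab 0 (by omega)
      unfold Btw
      rcases hu i with ⟨p, q⟩ | ⟨p, q⟩ <;> rw [q]
      · rcases Nat.eq_zero_or_pos i with rfl | hi
        · omega
        · have := hd 0 i hi (by omega)
          omega
      · omega

end Pool.Agent.MP_9d78a0_co.fb

end MrgPart0

-- ======== part 1: formerly Pool.Agent.MP_9d78a0_co.fb.Ua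
section MrgPart1

/-! Universality of a sequence of gadgets. -/

set_option autoImplicit false

namespace Pool.Agent.MP_9d78a0_co.fb

open Set Function

namespace Ua

/-- the image of a set of pairs -/
def im (g : ℕ → ℕ) (T : Finset (ℕ × ℕ)) : Finset (ℕ × ℕ) := T.image fun p => (g p.1, g p.2)

theorem mem_im {g : ℕ → ℕ} {T : Finset (ℕ × ℕ)} {p : ℕ × ℕ} (hp : p ∈ T) :
    (g p.1, g p.2) ∈ im g T := Finset.mem_image_of_mem (fun p : ℕ × ℕ => (g p.1, g p.2)) hp

theorem fst_end {T : Finset (ℕ × ℕ)} {p : ℕ × ℕ} (hp : p ∈ T) : p.1 ∈ ends T := ⟨p, hp, Or.inl rfl⟩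

theorem snd_end {T : Finset (ℕ × ℕ)} {p : ℕ × ℕ} (hp : p ∈ T) : p.2 ∈ ends T := ⟨p, hp, Or.inr rfl⟩

theorem ends_im {g : ℕ → ℕ} {T : Finset (ℕ × ℕ)} {x : ℕ} (hx : x ∈ ends (im g T)) :
    ∃ a ∈ ends T, x = g a := by
  obtain ⟨q, hq, h⟩ := hx
  obtain ⟨p, hp, rfl⟩ := Finset.mem_image.1 hq
  rcases h with h | h
  · exact ⟨p.1, fst_end hp, h⟩
  · exact ⟨p.2, snd_end hp, h⟩

theorem term_im {k : ℕ} {σ σ' g : ℕ → ℕ} {T : Finset (ℕ × ℕ)} (h : Term k σ T)
    (hg : InjOn g (ends T)) (hi : Involutive σ') (hf : ∀ a ∈ ends T, σ' (g a) = g a) :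
    Term k σ' (im g T) := by
  refine ⟨hi, Finset.card_image_le.trans h.card, ?_, ?_, ?_⟩
  · intro x hx
    obtain ⟨a, ha, rfl⟩ := ends_im hx
    exact hf a ha
  · intro q hq
    obtain ⟨p, hp, rfl⟩ := Finset.mem_image.1 hq
    exact fun e => h.ne p hp (hg (fst_end hp) (snd_end hp) e)
  · intro q hq q' hq' hne
    obtain ⟨p, hp, rfl⟩ := Finset.mem_image.1 hq
    obtain ⟨p', hp', rfl⟩ := Finset.mem_image.1 hq'
    obtain ⟨h1, h2, h3, h4⟩ := h.dis p hp p' hp' fun e => hne (by rw [e])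
    exact ⟨fun e => h1 (hg (fst_end hp) (fst_end hp') e),
      fun e => h2 (hg (fst_end hp) (snd_end hp') e),
      fun e => h3 (hg (snd_end hp) (fst_end hp') e),
      fun e => h4 (hg (snd_end hp) (snd_end hp') e)⟩

/-- simulation without a change of coordinates; no point of `P'` lies under an arc -/
theorem sim0 (h : SimS) {σ ν σ' : ℕ → ℕ} {T T' : Finset (ℕ × ℕ)} {P P' : Set ℕ}
    (h1 : Involutive σ) (h2 : Involutive ν) (h3 : NC ν) (h4 : ∀ x, ν x ≠ x → x ∈ P)
    (h5 : ∀ x ∈ P', x ∈ P ∧ ν x = x) (h6 : ∀ z, ∀ x ∈ P', z < x → ν z ≤ x)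
    (h7 : ∀ x, σ' x = x ∨ σ' x = σ x)
    (h8 : ∀ p ∈ T, CC σ ν p.1 p.2 ∨ ∃ q ∈ T', CC σ ν p.1 q.1 ∧ CC σ ν p.2 q.2)
    (h9 : Good σ' T' P') : Good σ T P := by
  refine h σ ν σ' id T T' P P' univ h1 h2 h3 h4 h5 (injOn_id _) ?_ ?_ (subset_univ _) ?_ ?_ h9
  · intro a _ b _ c _ d _ e1 e2 e3
    simp only [id] at e1 e2 e3
    unfold Btw
    omega
  · intro z x hx y _ e1 e2
    have := h6 z x hx e1
    simp only [id] at e2
    omega
  · intro x _
    refine ⟨mem_univ _, ?_⟩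
    rcases h7 x with e | e
    · rw [e]; exact Relation.ReflTransGen.refl
    · exact Relation.ReflTransGen.single (Or.inl e)
  · intro p hp
    rcases h8 p hp with e | ⟨q, hq, e⟩
    · exact Or.inl e
    · exact Or.inr ⟨q, hq, mem_univ _, Or.inl e⟩

theorem gad_congr {σ σ' : ℕ → ℕ} {K c : ℕ} {Z : Set ℕ} (h : Gad σ K Z)
    (e : ∀ x ∈ Z, σ x ∈ Z → σ' (x + c) = σ x + c) : Gad σ' K ((· + c) '' Z) := by
  intro j h1 h2
  obtain ⟨m, u, a1, a2, a3⟩ := h j h1 h2
  have k : ∀ i < m, σ' (u i + c) = σ (u i) + c := fun i hi => e _ (a2 i hi).1 (a2 i hi).2.1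
  refine ⟨m, fun i => u i + c, fun i i' b1 b2 => Nat.add_lt_add_right (a1 i i' b1 b2) c, ?_, ?_⟩
  · intro i hi
    refine ⟨⟨_, (a2 i hi).1, rfl⟩, ⟨_, (a2 i hi).2.1, (k i hi).symm⟩, fun i' hi' => ?_⟩
    rw [k i' hi']
    exact Nat.add_lt_add_right ((a2 i hi).2.2 i' hi') c
  · rcases a3 with ⟨b1, b2, i, hi, b3⟩ | ⟨b1, b2⟩ | ⟨b1, b2⟩
    · refine Or.inl ⟨b1, fun l hl => ?_, i, hi, ?_⟩
      · rw [k l hl, k 0 (by omega)]
        exact Nat.add_le_add_right (b2 l hl) c
      · rw [k i hi, k (m - 1) (by omega)]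
        exact Nat.add_lt_add_right b3 c
    · refine Or.inr (Or.inl ⟨b1, fun l hl => ?_⟩)
      have := b2 l hl
      rw [k l hl, k 0 (by omega), k (m - 1) (by omega)]
      unfold Btw at this ⊢
      omega
    · refine Or.inr (Or.inr ⟨b1, fun l hl => ?_⟩)
      rw [k l hl, k 0 (by omega)]
      exact Nat.add_le_add_right (b2 l hl) c

/-- normal form: all ends lie below all zones -/
structure NF (k Q : ℕ) (σ : ℕ → ℕ) (T : Finset (ℕ × ℕ)) (Z : ℕ → Set ℕ) : Prop where
  term : Term k σ T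
  gad : ∀ s < Q, Gad σ (2 * k) (Z s)
  ord : ∀ s t, s < t → t < Q → ∀ z ∈ Z s, ∀ z' ∈ Z t, z < z'
  lt : ∀ a ∈ ends T, ∀ s < Q, ∀ z ∈ Z s, a < z

/-- the support -/
def sp (Q : ℕ) (T : Finset (ℕ × ℕ)) (Z : ℕ → Set ℕ) : Set ℕ :=
  {x | x ∈ ends T ∨ ∃ s < Q, x ∈ Z s}

/-- the ends as a finite set -/
def en (T : Finset (ℕ × ℕ)) : Finset ℕ := T.image Prod.fst ∪ T.image Prod.snd

theorem mem_en {T : Finset (ℕ × ℕ)} {a : ℕ} : a ∈ en T ↔ a ∈ ends T := by
  simp only [en, Finset.mem_union, Finset.mem_image]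
  constructor
  · rintro (⟨p, hp, rfl⟩ | ⟨p, hp, rfl⟩)
    · exact fst_end hp
    · exact snd_end hp
  · rintro ⟨p, hp, rfl | rfl⟩
    · exact Or.inl ⟨p, hp, rfl⟩
    · exact Or.inr ⟨p, hp, rfl⟩

theorem card_en (T : Finset (ℕ × ℕ)) : (en T).card ≤ 2 * T.card := by
  have h1 := Finset.card_union_le (T.image Prod.fst) (T.image Prod.snd)
  have h2 : (T.image Prod.fst).card ≤ T.card := Finset.card_image_le
  have h3 : (T.image Prod.snd).card ≤ T.card := Finset.card_image_le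
  unfold en
  omega

/-- the number of larger ends -/
def rk (T : Finset (ℕ × ℕ)) (a : ℕ) : ℕ := ((en T).filter fun c => a < c).card

theorem rk_lt {T : Finset (ℕ × ℕ)} {a b : ℕ} (hb : b ∈ ends T) (h : a < b) : rk T b < rk T a := by
  refine Finset.card_lt_card ⟨fun c hc => ?_, fun hs => ?_⟩
  · rw [Finset.mem_filter] at hc ⊢
    exact ⟨hc.1, h.trans hc.2⟩
  · have := hs (Finset.mem_filter.2 ⟨mem_en.2 hb, h⟩)
    exact lt_irrefl _ (Finset.mem_filter.1 this).2

theorem rk_card {T : Finset (ℕ × ℕ)} {a : ℕ} (ha : a ∈ ends T) : rk T a + 1 ≤ 2 * T.card := by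
  refine le_trans (Finset.card_lt_card ⟨Finset.filter_subset _ _, fun hs => ?_⟩) (card_en T)
  exact lt_irrefl _ (Finset.mem_filter.1 (hs (mem_en.2 ha))).2

theorem rk_top {T : Finset (ℕ × ℕ)} {a : ℕ} (ha : ∀ c ∈ ends T, c ≤ a) : rk T a = 0 := by
  refine Finset.card_eq_zero.2 (Finset.filter_eq_empty_iff.2 fun c hc => ?_)
  exact not_lt.2 (ha c (mem_en.1 hc))

/-- partners -/
def Pa (T : Finset (ℕ × ℕ)) (a b : ℕ) : Prop := (a, b) ∈ T ∨ (b, a) ∈ T

theorem Pa.im {T : Finset (ℕ × ℕ)} {a b : ℕ} (h : Pa T a b) (g : ℕ → ℕ) :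
    Pa (im g T) (g a) (g b) := h.imp mem_im mem_im

theorem Pa.l {T : Finset (ℕ × ℕ)} {a b : ℕ} (h : Pa T a b) : a ∈ ends T :=
  h.elim fst_end snd_end

theorem Pa.r {T : Finset (ℕ × ℕ)} {a b : ℕ} (h : Pa T a b) : b ∈ ends T :=
  h.elim snd_end fst_end

/-- a pair with no end in between -/
def Adj (T : Finset (ℕ × ℕ)) : Prop := ∃ a b, Pa T a b ∧ ∀ c ∈ ends T, ¬ Btw a b c

/-- the partner of the largest end has small rank -/
def Top (T : Finset (ℕ × ℕ)) (f : ℕ) : Prop :=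
  ∃ a b, Pa T a b ∧ (∀ c ∈ ends T, c ≤ a) ∧ rk T b ≤ f

theorem top_ex {T : Finset (ℕ × ℕ)} (h : T.Nonempty) : Top T (2 * T.card) := by
  obtain ⟨p, hp⟩ := h
  obtain ⟨a, ha, hm⟩ := Finset.exists_max_image (en T) id ⟨p.1, mem_en.2 (fst_end hp)⟩
  obtain ⟨q, hq, e⟩ := mem_en.1 ha
  have hm' : ∀ c ∈ ends T, c ≤ a := fun c hc => hm c (mem_en.2 hc)
  rcases e with rfl | rfl
  · exact ⟨q.1, q.2, Or.inl hq, hm', (Nat.le_succ _).trans (rk_card (snd_end hq))⟩
  · exact ⟨q.2, q.1, Or.inr hq, hm', (Nat.le_succ _).trans (rk_card (fst_end hq))⟩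

theorem adj_step (h1 : SimS) {k Q : ℕ} {σ : ℕ → ℕ} {T : Finset (ℕ × ℕ)} {Z : ℕ → Set ℕ}
    (h : NF k Q σ T Z) (ha : Adj T)
    (ih : ∀ T' : Finset (ℕ × ℕ), T'.card < T.card → NF k Q σ T' Z → Good σ T' (sp Q T' Z)) :
    Good σ T (sp Q T Z) := by
  obtain ⟨p, hp, hb⟩ : ∃ p ∈ T, ∀ c ∈ ends T, ¬ Btw p.1 p.2 c := by
    obtain ⟨a, b, hab | hab, hb⟩ := ha
    · exact ⟨_, hab, hb⟩
    · exact ⟨_, hab, fun c hc e => hb c hc (Or.symm e)⟩
  have hs : ∀ a ∈ ends (T.erase p), a ∈ ends T ∧ a ≠ p.1 ∧ a ≠ p.2 := by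
    rintro a ⟨q, hq, e⟩
    obtain ⟨hne, hq⟩ := Finset.mem_erase.1 hq
    obtain ⟨a1, a2, a3, a4⟩ := h.term.dis q hq p hp hne
    rcases e with rfl | rfl
    · exact ⟨fst_end hq, a1, a2⟩
    · exact ⟨snd_end hq, a3, a4⟩
  have hn : NF k Q σ (T.erase p) Z :=
    ⟨⟨h.term.inv, (Finset.card_erase_le).trans h.term.card, fun a ha => h.term.fix a (hs a ha).1,
      fun q hq => h.term.ne q (Finset.mem_of_mem_erase hq),
      fun q hq q' hq' => h.term.dis q (Finset.mem_of_mem_erase hq) q'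
        (Finset.mem_of_mem_erase hq')⟩, h.gad, h.ord, fun a ha => h.lt a (hs a ha).1⟩
  have hx : ∀ x ∈ sp Q (T.erase p) Z, x ∈ sp Q T Z ∧ x ≠ p.1 ∧ x ≠ p.2 ∧ ¬ Btw p.1 p.2 x := by
    rintro x (hx | ⟨s, hs, hx⟩)
    · exact ⟨Or.inl (hs x hx).1, (hs x hx).2.1, (hs x hx).2.2, hb x (hs x hx).1⟩
    · have a1 := h.lt _ (fst_end hp) s hs x hx
      have a2 := h.lt _ (snd_end hp) s hs x hx
      refine ⟨Or.inr ⟨s, hs, hx⟩, by omega, by omega, ?_⟩
      unfold Btw
      omega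
  have hne := h.term.ne p hp
  refine sim0 h1 (ν := fun x => if x = p.1 then p.2 else if x = p.2 then p.1 else x) h.term.inv
    ?_ ?_ ?_ ?_ ?_ (fun x => Or.inr rfl) ?_ (ih _ (Finset.card_erase_lt_of_mem hp) hn)
  · intro x
    dsimp only
    split_ifs <;> omega
  · intro x y
    dsimp only
    split_ifs <;> omega
  · intro x e
    by_cases e1 : x = p.1
    · exact Or.inl (e1 ▸ fst_end hp)
    · by_cases e2 : x = p.2
      · exact Or.inl (e2 ▸ snd_end hp)
      · simp [e1, e2] at e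
  · intro x hx'
    obtain ⟨a1, a2, a3, _⟩ := hx x hx'
    exact ⟨a1, by simp [a2, a3]⟩
  · intro z x hx' e
    obtain ⟨_, a2, a3, a4⟩ := hx x hx'
    unfold Btw at a4
    split_ifs <;> omega
  · intro q hq
    by_cases e : q = p
    · exact Or.inl (Relation.ReflTransGen.single (Or.inr (by simp [e])))
    · exact Or.inr ⟨q, Finset.mem_erase.2 ⟨e, hq⟩, Relation.ReflTransGen.refl,
        Relation.ReflTransGen.refl⟩

theorem gad_step (h1 : SimS) (h2 : CapS) {k Q f : ℕ} {σ : ℕ → ℕ} {T : Finset (ℕ × ℕ)}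
    {Z : ℕ → Set ℕ} (h : NF k (Q + 1) σ T Z) (ht : Top T (f + 1))
    (ih : ∀ (σ' : ℕ → ℕ) (T' : Finset (ℕ × ℕ)) (Z' : ℕ → Set ℕ), T'.card ≤ T.card →
      NF k Q σ' T' Z' → Adj T' ∨ Top T' f → Good σ' T' (sp Q T' Z'))
    (hna : ¬ Adj T) : Good σ T (sp (Q + 1) T Z) := by
  classical
  obtain ⟨a, b, hab, htop, hf⟩ := ht
  have ha0 : rk T a = 0 := rk_top htop
  have hb2 : 2 ≤ rk T b := by
    by_contra hlt
    refine hna ⟨a, b, hab, fun c hc e => ?_⟩
    have a1 := htop c hc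
    have a2 : b < c ∧ c < a := by
      unfold Btw at e
      omega
    have a3 := rk_lt hc a2.1
    have a4 := rk_lt hab.l a2.2
    omega
  have hbk : rk T b + 1 ≤ 2 * k :=
    (rk_card hab.r).trans (Nat.mul_le_mul_left 2 h.term.card)
  obtain ⟨m, u, u1, u2, u3⟩ := h.gad 0 (Nat.succ_pos Q) (rk T b + 1) (by omega) hbk
  have hm : 0 < m := by omega
  have eu : ∀ c ∈ ends T, ∀ l < m, c < u l ∧ c < σ (u l) := fun c hc l hl =>
    ⟨h.lt c hc 0 (Nat.succ_pos Q) _ (u2 l hl).1, h.lt c hc 0 (Nat.succ_pos Q) _ (u2 l hl).2.1⟩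
  have uz : ∀ s < Q, ∀ z ∈ Z (s + 1), ∀ l < m, u l < z ∧ σ (u l) < z := fun s hs z hz l hl =>
    ⟨h.ord 0 (s + 1) (by omega) (by omega) _ (u2 l hl).1 z hz,
      h.ord 0 (s + 1) (by omega) (by omega) _ (u2 l hl).2.1 z hz⟩
  have rinj : ∀ c ∈ ends T, ∀ c' ∈ ends T, rk T c = rk T c' → c = c' := by
    intro c hc c' hc' e
    rcases lt_trichotomy c c' with e1 | e1 | e1
    · have := rk_lt hc' e1; omega
    · exact e1
    · have := rk_lt hc e1; omega
  have uinj : ∀ l < m, ∀ l' < m, u l = u l' → l = l' := by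
    intro l hl l' hl' e
    rcases lt_trichotomy l l' with e1 | e1 | e1
    · have := u1 l l' e1 hl'; omega
    · exact e1
    · have := u1 l' l e1 hl; omega
  obtain ⟨ν, n1, n2, n3, n4⟩ := h2 ℕ {c | c ∈ ends T ∧ rk T c < m} id (fun c => u (rk T c))
    (fun c hc => (eu c hc.1 _ hc.2).1)
    (fun c hc c' hc' e => ⟨e, fun e' => e (rinj c hc.1 c' hc'.1 (uinj _ hc.2 _ hc'.2 e')),
      (eu c hc.1 _ hc'.2).1.ne⟩)
    (fun c hc c' hc' e _ => u1 _ _ (rk_lt hc'.1 e) hc.2)
  simp only [id, mem_ofPred_eq] at n3 n4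
  obtain ⟨g, g1, g2⟩ : ∃ g : ℕ → ℕ, (∀ c, rk T c < m → g c = σ (u (rk T c))) ∧
      ∀ c, ¬ rk T c < m → g c = c :=
    ⟨fun c => if rk T c < m then σ (u (rk T c)) else c, fun c hc => if_pos hc,
      fun c hc => if_neg hc⟩
  obtain ⟨σ', s1, s2⟩ : ∃ σ' : ℕ → ℕ, (∀ x, (∃ l < m, x = u l ∨ x = σ (u l)) → σ' x = x) ∧
      ∀ x, ¬ (∃ l < m, x = u l ∨ x = σ (u l)) → σ' x = σ x :=
    ⟨fun x => if ∃ l < m, x = u l ∨ x = σ (u l) then x else σ x, fun x hx => if_pos hx,
      fun x hx => if_neg hx⟩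
  have s3 : ∀ x, σ' x = x ∨ σ' x = σ x := fun x =>
    (em (∃ l < m, x = u l ∨ x = σ (u l))).imp (s1 x) (s2 x)
  have sinv : Involutive σ' := by
    intro x
    by_cases e : ∃ l < m, x = u l ∨ x = σ (u l)
    · rw [s1 x e, s1 x e]
    · rw [s2 x e, s2, h.term.inv x]
      rintro ⟨l, hl, e1 | e1⟩
      · exact e ⟨l, hl, Or.inr (by rw [← e1, h.term.inv x])⟩
      · exact e ⟨l, hl, Or.inl (h.term.inv.injective e1)⟩
  have gc : ∀ x ∈ ends (im g T), (∃ l < m, x = σ (u l)) ∨ (x ∈ ends T ∧ m ≤ rk T x) := by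
    intro x hx
    obtain ⟨c, hc, rfl⟩ := ends_im hx
    by_cases e : rk T c < m
    · exact Or.inl ⟨_, e, g1 c e⟩
    · rw [g2 c e]
      exact Or.inr ⟨hc, not_lt.1 e⟩
  have hn : NF k Q σ' (im g T) fun s => Z (s + 1) := by
    refine ⟨term_im h.term ?_ sinv ?_, fun s hs => ?_,
      fun s t e1 e2 => h.ord (s + 1) (t + 1) (by omega) (by omega), fun x hx s hs z hz => ?_⟩
    · intro c hc c' hc' e
      by_cases e1 : rk T c < m <;> by_cases e2 : rk T c' < m
      · rw [g1 c e1, g1 c' e2] at e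
        exact rinj c hc c' hc' (uinj _ e1 _ e2 (h.term.inv.injective e))
      · rw [g1 c e1, g2 c' e2] at e
        have := (eu c' hc' _ e1).2
        omega
      · rw [g2 c e1, g1 c' e2] at e
        have := (eu c hc _ e2).2
        omega
      · rwa [g2 c e1, g2 c' e2] at e
    · intro c hc
      by_cases e : rk T c < m
      · exact s1 _ ⟨_, e, Or.inr (g1 c e)⟩
      · rw [g2 c e]
        rcases s3 c with e1 | e1
        · exact e1
        · rw [e1, h.term.fix c hc]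
    · have := gad_congr (σ' := σ') (c := 0) (h.gad (s + 1) (by omega)) fun x hx _ => by
        refine s2 x ?_
        rintro ⟨l, hl, e⟩
        have := uz s hs x hx l hl
        omega
      simpa using this
    · rcases gc x hx with ⟨l, hl, rfl⟩ | ⟨e, _⟩
      · exact (uz s hs z hz l hl).2
      · exact h.lt x e (s + 1) (by omega) z hz
  have hga : g a = σ (u 0) := by rw [g1 a (by omega), ha0]
  have hnew : Adj (im g T) ∨ Top (im g T) f := by
    rcases u3 with ⟨b1, b2, i, hi, b3⟩ | ⟨b1, b2⟩ | ⟨b1, b2⟩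
    · have hgb : g b = σ (u (m - 1)) := by
        rw [g1 b (by omega)]
        congr 2
        omega
      refine Or.inr ⟨g a, g b, hab.im g, fun x hx => ?_, ?_⟩
      · rw [hga]
        rcases gc x hx with ⟨l, hl, rfl⟩ | ⟨e, _⟩
        · exact b2 l hl
        · exact (eu x e 0 hm).2.le
      · have hi' : i < m - 1 := by
          rcases Nat.lt_or_ge i (m - 1) with e | e
          · exact e
          · rw [show i = m - 1 by omega] at b3
            exact absurd b3 (lt_irrefl _)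
        have hsub : ((en (im g T)).filter fun c => g b < c) ⊆
            ((Finset.range (m - 1)).erase i).image fun l => σ (u l) := by
          intro x hx
          obtain ⟨x1, x2⟩ := Finset.mem_filter.1 hx
          rw [hgb] at x2
          rcases gc x (mem_en.1 x1) with ⟨l, hl, rfl⟩ | ⟨e, _⟩
          · refine Finset.mem_image.2 ⟨l, Finset.mem_erase.2 ⟨?_, Finset.mem_range.2 ?_⟩, rfl⟩
            · rintro rfl
              omega
            · rcases Nat.lt_or_ge l (m - 1) with e | e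
              · exact e
              · rw [show l = m - 1 by omega] at x2
                exact absurd x2 (lt_irrefl _)
          · have := (eu x e (m - 1) (by omega)).2
            omega
        have := (Finset.card_le_card hsub).trans Finset.card_image_le
        rw [Finset.card_erase_of_mem (Finset.mem_range.2 hi'), Finset.card_range] at this
        unfold rk at hf b1 ⊢
        omega
    · have hgb : g b = σ (u (m - 1)) := by
        rw [g1 b (by omega)]
        congr 2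
        omega
      refine Or.inl ⟨g a, g b, hab.im g, fun x hx => ?_⟩
      rw [hga, hgb]
      rcases gc x hx with ⟨l, hl, rfl⟩ | ⟨e, _⟩
      · exact b2 l hl
      · have a1 := (eu x e (m - 1) (by omega)).2
        have a2 := (eu x e 0 hm).2
        unfold Btw
        omega
    · refine Or.inl ⟨g a, g b, hab.im g, fun x hx => ?_⟩
      rw [hga, g2 b (by omega)]
      have a1 := (eu b hab.r 0 hm).2
      rcases gc x hx with ⟨l, hl, rfl⟩ | ⟨e, e'⟩
      · have := b2 l hl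
        unfold Btw
        omega
      · have a2 : ¬ b < x := fun e1 => by
          have := rk_lt e e1
          omega
        unfold Btw
        omega
  have hx : ∀ x ∈ sp Q (im g T) fun s => Z (s + 1), x ∈ sp (Q + 1) T Z ∧
      ∀ c ∈ ends T, rk T c < m → x < c ∨ u (rk T c) < x := by
    rintro x (hx | ⟨s, hs, hx⟩)
    · rcases gc x hx with ⟨l, hl, rfl⟩ | ⟨e, e'⟩
      · exact ⟨Or.inr ⟨0, Nat.succ_pos Q, (u2 l hl).2.1⟩,
          fun c _ e => Or.inr ((u2 _ e).2.2 l hl)⟩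
      · refine ⟨Or.inl e, fun c _ e1 => Or.inl ?_⟩
        rcases lt_trichotomy x c with e2 | e2 | e2
        · exact e2
        · subst e2; omega
        · have := rk_lt e e2; omega
    · exact ⟨Or.inr ⟨s + 1, by omega, hx⟩, fun c _ e => Or.inr (uz s hs x hx _ e).1⟩
  have hcc : ∀ c ∈ ends T, CC σ ν c (g c) := by
    intro c hc
    by_cases e : rk T c < m
    · rw [g1 c e]
      exact Relation.ReflTransGen.tail (b := u (rk T c))
        (Relation.ReflTransGen.single (Or.inr (n3 c ⟨hc, e⟩).1.symm)) (Or.inl rfl)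
    · rw [g2 c e]
      exact Relation.ReflTransGen.refl
  refine sim0 h1 h.term.inv n1 n2 ?_ ?_ ?_ s3 ?_ (ih σ' _ _ Finset.card_image_le hn hnew)
  · intro x e
    obtain ⟨c, hc, rfl | rfl⟩ := n4 x e
    · exact Or.inl hc.1
    · exact Or.inr ⟨0, Nat.succ_pos Q, (u2 _ hc.2).1⟩
  · intro x hx'
    refine ⟨(hx x hx').1, ?_⟩
    by_contra e
    obtain ⟨c, hc, e1⟩ := n4 x e
    have a1 := (hx x hx').2 c hc.1 hc.2
    have a2 := (eu c hc.1 _ hc.2).1
    omega
  · intro z x hx' e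
    by_cases e0 : ν z = z
    · omega
    · obtain ⟨c, hc, e1⟩ := n4 z e0
      have a1 := (hx x hx').2 c hc.1 hc.2
      have a2 := (eu c hc.1 _ hc.2).1
      obtain ⟨a3, a4⟩ := n3 c hc
      rcases e1 with rfl | rfl <;> omega
  · intro p hp
    exact Or.inr ⟨_, mem_im hp, hcc _ (fst_end hp), hcc _ (snd_end hp)⟩

theorem stepA (h1 : SimS) (h2 : CapS) (k t : ℕ) : ∀ Q, t * (2 * k) ≤ Q →
    ∀ (σ : ℕ → ℕ) (T : Finset (ℕ × ℕ)) (Z : ℕ → Set ℕ), T.card ≤ t → NF k Q σ T Z →
      Good σ T (sp Q T Z) := by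
  induction t with
  | zero =>
    intro Q _ σ T Z hT _
    rw [Finset.card_eq_zero.1 (Nat.le_zero.1 hT)]
    exact ⟨id, fun _ => rfl, fun x y e1 e2 => absurd (e1.trans e2) (lt_irrefl _),
      fun x e => absurd rfl e, fun p hp => absurd hp (Finset.notMem_empty p)⟩
  | succ t ih =>
    have inner : ∀ f Q, t * (2 * k) + f ≤ Q →
        ∀ (σ : ℕ → ℕ) (T : Finset (ℕ × ℕ)) (Z : ℕ → Set ℕ), T.card ≤ t + 1 → NF k Q σ T Z →
          Adj T ∨ Top T f → Good σ T (sp Q T Z) := by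
      intro f
      induction f with
      | zero =>
        intro Q hQ σ T Z hT h ha
        refine adj_step h1 h ?_ fun T' e h' => ih Q (by omega) σ T' Z (by omega) h'
        rcases ha with ha | ⟨a, b, hab, htop, hf⟩
        · exact ha
        · refine ⟨a, b, hab, fun c hc e => ?_⟩
          have a1 := htop c hc
          have a2 : b < c := by
            unfold Btw at e
            omega
          have a3 := rk_lt hc a2
          omega
      | succ f ihf =>
        intro Q hQ σ T Z hT h ha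
        by_cases hna : Adj T
        · exact adj_step h1 h hna fun T' e h' => ih Q (by omega) σ T' Z (by omega) h'
        · obtain ⟨Q, rfl⟩ : ∃ Q', Q = Q' + 1 := ⟨Q - 1, by omega⟩
          exact gad_step h1 h2 h (ha.resolve_left hna)
            (fun σ' T' Z' e h' ha' => ihf Q (by omega) σ' T' Z' (by omega) h' ha') hna
    intro Q hQ σ T Z hT h
    rcases T.eq_empty_or_nonempty with e | e
    · exact ih Q (by nlinarith) σ T Z (by simp [e]) h
    · obtain ⟨a, b, a1, a2, a3⟩ := top_ex e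
      exact inner (2 * k) Q (by nlinarith) σ T Z hT h
        (Or.inr ⟨a, b, a1, a2, a3.trans (Nat.mul_le_mul_left 2 h.term.card)⟩)

end Ua

open Ua in
theorem uaS (h1 : SimS) (h2 : CapS) : UaS := by
  classical
  intro k
  refine ⟨k * (2 * k), fun σ T Z A P ht hz ho hA hd hP => ?_⟩
  have mono : Good σ T (sp (k * (2 * k)) T Z) → Good σ T P := by
    rintro ⟨μ, a1, a2, a3, a4⟩
    refine ⟨μ, a1, a2, fun x e => ?_, a4⟩
    rcases a3 x e with e1 | ⟨s, hs, e1⟩
    · exact hP e1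
    · exact (hz s hs).2.2 e1
  have hne : ∀ a ∈ ends T, ∀ z ∈ A, a ≠ z := fun a ha z hz e =>
    Set.disjoint_left.1 hd ha (e ▸ hz)
  by_cases hex : ∃ r, r ∈ ends T ∧ ∃ z ∈ A, z < r
  swap
  · refine mono (stepA h1 h2 k k _ le_rfl σ T Z ht.card ⟨ht, fun s hs => (hz s hs).1, ho, ?_⟩)
    intro a ha s hs z hz'
    have a1 := hne a ha z ((hz s hs).2.1 hz')
    have a2 : ¬ z < a := fun e => hex ⟨a, ha, z, (hz s hs).2.1 hz', e⟩
    omega
  obtain ⟨r, ⟨hr, z0, hz0, hz0r⟩, hmin⟩ : ∃ r, (r ∈ ends T ∧ ∃ z ∈ A, z < r) ∧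
      ∀ a < r, ¬ (a ∈ ends T ∧ ∃ z ∈ A, z < a) :=
    ⟨Nat.find hex, Nat.find_spec hex, fun a ha => Nat.find_min hex ha⟩
  have hAr : ∀ z ∈ A, z < r := by
    intro z hz
    by_contra e
    exact hne r hr r (hA.out hz0 hz ⟨hz0r.le, not_lt.1 e⟩) rfl
  have hlow : ∀ a ∈ ends T, a < r → ∀ z ∈ A, a < z := by
    intro a ha e z hz
    have a1 := hne a ha z hz
    have a2 : ¬ z < a := fun e' => hmin a e ⟨ha, z, hz, e'⟩
    omega
  obtain ⟨c, hc⟩ : ∃ c, ∀ a ∈ ends T, a < r + c := by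
    obtain ⟨N, hN⟩ := (en T).bddAbove
    exact ⟨N + 1, fun a ha => by have := hN (Finset.mem_coe.2 (mem_en.2 ha)); omega⟩
  obtain ⟨g, hg⟩ : ∃ g : ℕ → ℕ, ∀ y, (r ≤ y ∧ g y + r = y) ∨ (y < r ∧ g y = y + c) :=
    ⟨fun y => if r ≤ y then y - r else y + c, fun y => by dsimp only; split_ifs <;> omega⟩
  obtain ⟨e, he⟩ : ∃ e : ℕ → ℕ, ∀ x, (x < c ∧ e x = x + r) ∨ (c ≤ x ∧ e x + c = x) :=
    ⟨fun x => if x < c then x + r else x - c, fun y => by dsimp only; split_ifs <;> omega⟩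
  obtain ⟨σ', s1, s2⟩ : ∃ σ' : ℕ → ℕ, (∀ y < r, σ y < r → σ' (y + c) = σ y + c) ∧
      ∀ x, ¬ (∃ y < r, σ y < r ∧ x = y + c) → σ' x = x := by
    refine ⟨fun x => if ∃ y < r, σ y < r ∧ x = y + c then σ (x - c) + c else x,
      fun y e1 e2 => ?_, fun x hx => if_neg hx⟩
    dsimp only
    rw [if_pos ⟨y, e1, e2, rfl⟩, Nat.add_sub_cancel]
  have heg : ∀ a ∈ ends T, e (g a) = a ∧ g a < r + c := by
    intro a ha
    have a1 := hc a ha
    have a2 := hg a
    have a3 := he (g a)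
    omega
  have hn : NF k (k * (2 * k)) σ' (im g T) fun s => (· + c) '' Z s := by
    refine ⟨term_im ht ?_ ?_ ?_, fun s hs => gad_congr (hz s hs).1 fun x e1 e2 =>
      s1 x (hAr _ ((hz s hs).2.1 e1)) (hAr _ ((hz s hs).2.1 e2)), ?_, ?_⟩
    · intro a ha b hb e1
      rw [← (heg a ha).1, e1, (heg b hb).1]
    · intro x
      by_cases e1 : ∃ y < r, σ y < r ∧ x = y + c
      · obtain ⟨y, a1, a2, rfl⟩ := e1
        rw [s1 y a1 a2, s1 (σ y) a2 (by rw [ht.inv y]; exact a1), ht.inv y]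
      · rw [s2 x e1, s2 x e1]
    · intro a ha
      rcases hg a with ⟨a1, a2⟩ | ⟨a1, a2⟩
      · refine s2 _ ?_
        rintro ⟨y, _, _, a3⟩
        have := hc a ha
        omega
      · rw [a2, s1 a a1 (by rw [ht.fix a ha]; exact a1), ht.fix a ha]
    · rintro s t e1 e2 _ ⟨z, a1, rfl⟩ _ ⟨z', a2, rfl⟩
      exact Nat.add_lt_add_right (ho s t e1 e2 z a1 z' a2) c
    · rintro x hx s hs _ ⟨z, a1, rfl⟩
      obtain ⟨a, ha, rfl⟩ := ends_im hx
      have a2 := hc a ha
      have a3 := fun e1 => hlow a ha e1 z ((hz s hs).2.1 a1)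
      have a4 := hg a
      dsimp only
      omega
  have hsp : ∀ x ∈ sp (k * (2 * k)) (im g T) fun s => (· + c) '' Z s, e x ∈ P ∧ x < r + c := by
    rintro x (hx | ⟨s, hs, z, a1, rfl⟩)
    · obtain ⟨a, ha, rfl⟩ := ends_im hx
      exact ⟨by rw [(heg a ha).1]; exact hP ha, (heg a ha).2⟩
    · have a2 := hAr z ((hz s hs).2.1 a1)
      have a3 := he (z + c)
      dsimp only
      exact ⟨by rw [show e (z + c) = z by omega]; exact (hz s hs).2.2 a1, by omega⟩
  refine h1 σ id σ' e T (im g T) P _ (Iio (r + c)) ht.inv (fun _ => rfl)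
    (fun x y e1 e2 => absurd (e1.trans e2) (lt_irrefl _)) (fun x e1 => absurd rfl e1)
    (fun x hx => ⟨(hsp x hx).1, rfl⟩) ?_ ?_
    (fun z x _ y _ e1 e2 => absurd (e1.trans e2) (lt_irrefl _)) (fun x hx => (hsp x hx).2) ?_ ?_
    (stepA h1 h2 k k _ le_rfl σ' _ _ hn.term.card hn)
  · intro x hx y hy e1
    have a1 := (hsp x hx).2
    have a2 := (hsp y hy).2
    have a3 := he x
    have a4 := he y
    omega
  · intro x hx y hy z hz' w hw e1 e2 e3
    have a1 := (hsp x hx).2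
    have a2 := (hsp y hy).2
    have a3 := (hsp z hz').2
    have a4 := (hsp w hw).2
    have b1 := he x
    have b2 := he y
    have b3 := he z
    have b4 := he w
    unfold Btw
    omega
  · intro x hx
    by_cases e1 : ∃ y < r, σ y < r ∧ x = y + c
    · obtain ⟨y, a1, a2, rfl⟩ := e1
      have b1 := he (y + c)
      have b2 := he (σ y + c)
      rw [s1 y a1 a2, show e (y + c) = y by omega, show e (σ y + c) = σ y by omega]
      exact ⟨Nat.add_lt_add_right a2 c, Relation.ReflTransGen.single (Or.inl rfl)⟩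
    · rw [s2 x e1]
      exact ⟨hx, Relation.ReflTransGen.refl⟩
  · intro p hp
    refine Or.inr ⟨_, mem_im hp, (heg _ (fst_end hp)).2, Or.inl ?_⟩
    dsimp only
    rw [(heg _ (fst_end hp)).1, (heg _ (snd_end hp)).1]
    exact ⟨Relation.ReflTransGen.refl, Relation.ReflTransGen.refl⟩

end Pool.Agent.MP_9d78a0_co.fb

end MrgPart1

-- ======== part 2: formerly Pool.Agent.MP_9d78a0_co.fb.B0
section MrgPart2

/-! Row B0: a band with a crossed pair in each block. -/

set_option autoImplicit false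

namespace Pool.Agent.MP_9d78a0_co.fb

open Set Function

namespace B0

lemma cc_symm {σ μ : ℕ → ℕ} (h1 : Involutive σ) (h2 : Involutive μ) {a b : ℕ}
    (h : CC σ μ a b) : CC σ μ b a := by
  induction h with
  | refl => exact Relation.ReflTransGen.refl
  | tail _ hs ih =>
    refine Relation.ReflTransGen.head ?_ ih
    rcases hs with rfl | rfl
    · exact Or.inl (h1 _).symm
    · exact Or.inr (h2 _).symm

/-- simulation with the identity map -/
lemma sim0 (h : SimS) {σ ν σ' : ℕ → ℕ} {T : Finset (ℕ × ℕ)} {P P' : Set ℕ} (h1 : Involutive σ)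
    (h2 : Involutive ν) (h3 : NC ν) (h4 : ∀ x, ν x ≠ x → x ∈ P)
    (h5 : ∀ x ∈ P', x ∈ P ∧ ν x = x) (h6 : ∀ z, ∀ x ∈ P', z < x → ν z ≤ x)
    (h7 : ∀ x, CC σ ν x (σ' x)) (h8 : Good σ' T P') : Good σ T P := by
  refine h σ ν σ' id T T P P' univ h1 h2 h3 h4 h5 (injOn_id _) ?_ ?_ (subset_univ _)
    (fun x _ => ⟨mem_univ _, h7 x⟩)
    (fun p hp => Or.inr ⟨p, hp, mem_univ _,
      Or.inl ⟨Relation.ReflTransGen.refl, Relation.ReflTransGen.refl⟩⟩) h8
  · intro a _ b _ c _ d _ hac hcb hd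
    simp only [id] at hac hcb hd
    unfold Btw
    omega
  · intro z x hx y _ hz hz'
    have := h6 z x hx hz
    simp only [id] at hz'
    omega

/-- an involution of an index set transported along an injective map -/
lemma exists_inv {ι : Type} (I : Set ι) (f : ι → ℕ) (π : ι → ι) (hf : InjOn f I)
    (hπ : ∀ i ∈ I, π i ∈ I ∧ π (π i) = i) :
    ∃ s : ℕ → ℕ, Involutive s ∧ (∀ i ∈ I, s (f i) = f (π i)) ∧
      ∀ y, (∀ i ∈ I, y ≠ f i) → s y = y := by
  classical
  let s : ℕ → ℕ := fun y => if h : ∃ i ∈ I, y = f i then f (π h.choose) else y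
  have h1 : ∀ i ∈ I, s (f i) = f (π i) := by
    intro i hi
    have h : ∃ j ∈ I, f i = f j := ⟨i, hi, rfl⟩
    have e : h.choose = i := hf h.choose_spec.1 hi h.choose_spec.2.symm
    simp only [s]
    rw [dif_pos h, e]
  have h2 : ∀ y, (∀ i ∈ I, y ≠ f i) → s y = y := by
    intro y hy
    simp only [s]
    rw [dif_neg]
    rintro ⟨i, hi, e⟩
    exact hy i hi e
  refine ⟨s, fun y => ?_, h1, h2⟩
  by_cases h : ∃ i ∈ I, y = f i
  · obtain ⟨i, hi, rfl⟩ := h
    rw [h1 i hi, h1 _ (hπ i hi).1, (hπ i hi).2]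
  · have e : s y = y := h2 y fun i hi e => h ⟨i, hi, e⟩
    rw [e, e]

lemma mo2_iff {x : ℕ → ℕ → ℕ} {Q W : ℕ} (h : Mo2 x Q W) :
    (∀ s < Q, ∀ i < W, ∀ t < Q, ∀ j < W, x s i < x t j ↔ s < t ∨ (s = t ∧ i < j)) ∨
      (∀ s < Q, ∀ i < W, ∀ t < Q, ∀ j < W, x t j < x s i ↔ s < t ∨ (s = t ∧ i < j)) := by
  refine h.imp (fun h s hs i hi t ht j hj => ⟨fun hl => ?_, h s hs i hi t ht j hj⟩)
    (fun h s hs i hi t ht j hj => ⟨fun hl => ?_, h s hs i hi t ht j hj⟩)
  all_goals
    by_contra hn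
    by_cases e : s = t ∧ i = j
    · rw [e.1, e.2] at hl
      exact lt_irrefl _ hl
    · have := h t ht j hj s hs i hi (by omega)
      omega

lemma mo2_inj {x : ℕ → ℕ → ℕ} {Q W : ℕ} (h : Mo2 x Q W) {s i t j : ℕ} (hs : s < Q) (hi : i < W)
    (ht : t < Q) (hj : j < W) (e : x s i = x t j) : s = t ∧ i = j := by
  rcases mo2_iff h with h | h
  all_goals
    have h1 := h s hs i hi t ht j hj
    have h2 := h t ht j hj s hs i hi
    omega

/-- the transposition of `K` and `K + 1` -/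
def tt (K i : ℕ) : ℕ := if i = K then K + 1 else if i = K + 1 then K else i

/-- the pattern of the composite chords -/
def pp (K i : ℕ) : ℕ := tt K (2 * K + 3 - tt K i)

lemma swap_eq (K i : ℕ) : Equiv.swap K (K + 1) i = tt K i := by
  rw [Equiv.swap_apply_def]; rfl

lemma tt_lt {K i : ℕ} (h : i < 2 * K + 4) : tt K i < 2 * K + 4 := by
  unfold tt; split_ifs <;> omega

lemma tt_tt (K i : ℕ) : tt K (tt K i) = i := by
  unfold tt; split_ifs <;> omega

lemma pp_lt (K i : ℕ) : pp K i < 2 * K + 4 := tt_lt (by omega)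

lemma pp_pp {K i : ℕ} (h : i < 2 * K + 4) : pp K (pp K i) = i := by
  have := tt_lt h
  unfold pp
  rw [tt_tt, show 2 * K + 3 - (2 * K + 3 - tt K i) = tt K i by omega, tt_tt]

lemma pp_cap {K i : ℕ} (h : i < 2 * K + 4) : pp K (2 * K + 3 - i) = 2 * K + 3 - pp K i := by
  unfold pp tt; split_ifs <;> omega

lemma pp_low {K i : ℕ} (h : i < K) : pp K i = 2 * K + 3 - i := by
  unfold pp tt; split_ifs <;> omega

lemma pp_K (K : ℕ) : pp K K = K + 2 := by
  unfold pp tt; split_ifs <;> omega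

lemma pp_K1 (K : ℕ) : pp K (K + 1) = K + 3 := by
  unfold pp tt; split_ifs <;> omega

/-- the gadget of one increasing block -/
lemma gad_block (h3 : GadS) {σ : ℕ → ℕ} {K : ℕ} {b : ℕ → ℕ}
    (hb : ∀ i j, i < j → j < 2 * K + 4 → b i < b j)
    (hσ : ∀ i < 2 * K + 4, σ (b i) = b (pp K i)) :
    Gad σ K {y | ∃ i < 2 * K + 4, y = b i} := by
  have hm : ∀ i < 2 * K + 4, b i ∈ {y | ∃ i < 2 * K + 4, y = b i} := fun i hi => ⟨i, hi, rfl⟩
  have hl : ∀ i < K, σ (b i) = b (2 * K + 3 - i) := fun i hi => by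
    rw [hσ i (by omega), pp_low hi]
  have hK : σ (b K) = b (K + 2) := by rw [hσ K (by omega), pp_K]
  have hK1 : σ (b (K + 1)) = b (K + 3) := by rw [hσ (K + 1) (by omega), pp_K1]
  refine ((h3 σ K _ b (fun i j hij hj => hb i j hij (by omega)) fun i hi =>
    ⟨hm i (by omega), ?_, fun j hj => ?_⟩).2 fun i j hij hj => ?_).1 (b K) (b (K + 1))
      (hm _ (by omega)) (hm _ (by omega)) ?_ ?_ (hb _ _ (by omega) (by omega)) ?_ ?_
      fun i hi => ⟨hb _ _ hi (by omega), ?_⟩
  · rw [hl i hi]; exact hm _ (by omega)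
  · rw [hl j hj]; exact hb _ _ (by omega) (by omega)
  · rw [hl j hj, hl i (by omega)]; exact hb _ _ (by omega) (by omega)
  · rw [hK]; exact hm _ (by omega)
  · rw [hK1]; exact hm _ (by omega)
  · rw [hK]; exact hb _ _ (by omega) (by omega)
  · rw [hK, hK1]; exact hb _ _ (by omega) (by omega)
  · rw [hK1, hl i hi]; exact hb _ _ (by omega) (by omega)

/-- the caps inside the blocks do not cross -/
lemma nc_caps {ρ : ℕ → ℕ → ℕ} {Q W : ℕ} (h : Mo2 ρ Q (W + 1)) {ν : ℕ → ℕ}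
    (h1 : ∀ s < Q, ∀ i < W + 1, ν (ρ s i) = ρ s (W - i))
    (h2 : ∀ y, (∀ s < Q, ∀ i < W + 1, y ≠ ρ s i) → ν y = y) : NC ν := by
  intro a b hab hb
  by_cases ha : ∃ s < Q, ∃ i < W + 1, a = ρ s i
  · obtain ⟨s, hs, i, hi, rfl⟩ := ha
    by_cases hb' : ∃ t < Q, ∃ j < W + 1, b = ρ t j
    · obtain ⟨t, ht, j, hj, rfl⟩ := hb'
      rw [h1 s hs i hi] at hb ⊢
      rw [h1 t ht j hj]
      rcases mo2_iff h with h | h
      · rw [h s hs i hi t ht j hj] at hab
        rw [h t ht j hj s hs _ (by omega)] at hb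
        rw [h s hs i hi t ht _ (by omega), h t ht _ (by omega) s hs _ (by omega)]
        omega
      · rw [h t ht j hj s hs i hi] at hab
        rw [h s hs _ (by omega) t ht j hj] at hb
        rw [h t ht _ (by omega) s hs i hi, h s hs _ (by omega) t ht _ (by omega)]
        omega
    · rw [h2 b fun t ht j hj e => hb' ⟨t, ht, j, hj, e⟩]
      exact ⟨hab, hb⟩
  · rw [h2 a fun s hs i hi e => ha ⟨s, hs, i, hi, e⟩] at hb
    omega

end B0

open B0

theorem b0S (h1 : SimS) (_h2 : CapS) (h3 : GadS) (h4 : UaS) : B0S := by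
  intro k
  obtain ⟨Q, hQ⟩ := h4 k
  refine ⟨Q, fun σ ν T x ρ A A' P hT hν hnc hsup hx hρ hA hA' hAA heA heA' hmem hP hcc => ?_⟩
  have eW : 4 * k + 4 = 2 * (2 * k) + 4 := by ring
  rw [eW] at hx hρ hmem hP hcc
  generalize hK : 2 * k = K at hx hρ hmem hP hcc hQ
  have hxρ : ∀ s < Q, ∀ i < 2 * K + 4, ∀ t < Q, ∀ j < 2 * K + 4, x s i ≠ ρ t j :=
    fun s hs i hi t ht j hj e =>
      Set.disjoint_left.1 hAA (hmem s hs i hi).1 (e ▸ (hmem t ht j hj).2)
  -- the three involutions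
  obtain ⟨s2, i2, a2, b2⟩ := exists_inv {p : ℕ × ℕ | p.1 < Q ∧ p.2 < 2 * K + 4}
    (fun p => x p.1 p.2) (fun p => (p.1, pp K p.2))
    (fun p hp q hq e => Prod.ext (mo2_inj hx hp.1 hp.2 hq.1 hq.2 e).1
      (mo2_inj hx hp.1 hp.2 hq.1 hq.2 e).2)
    (fun p hp => ⟨⟨hp.1, pp_lt _ _⟩, Prod.ext rfl (pp_pp hp.2)⟩)
  obtain ⟨n1, j1, c1, d1⟩ := exists_inv {p : ℕ × ℕ | p.1 < Q ∧ p.2 < 2 * K + 4}
    (fun p => ρ p.1 p.2) (fun p => (p.1, 2 * K + 3 - p.2))
    (fun p hp q hq e => Prod.ext (mo2_inj hρ hp.1 hp.2 hq.1 hq.2 e).1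
      (mo2_inj hρ hp.1 hp.2 hq.1 hq.2 e).2)
    (fun p hp => ⟨⟨hp.1, by simp only; omega⟩, Prod.ext rfl (by have := hp.2; simp only; omega)⟩)
  obtain ⟨s1, i1, a1, b1⟩ := exists_inv {p : Bool × ℕ × ℕ | p.2.1 < Q ∧ p.2.2 < 2 * K + 4}
    (fun p => cond p.1 (x p.2.1 p.2.2) (ρ p.2.1 p.2.2)) (fun p => (!p.1, p.2.1, tt K p.2.2))
    (by
      rintro ⟨b, s, i⟩ hp ⟨c, t, j⟩ hq e
      cases b <;> cases c
      · obtain ⟨rfl, rfl⟩ := mo2_inj hρ hp.1 hp.2 hq.1 hq.2 e
        rfl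
      · exact absurd e.symm (hxρ t hq.1 j hq.2 s hp.1 i hp.2)
      · exact absurd e (hxρ s hp.1 i hp.2 t hq.1 j hq.2)
      · obtain ⟨rfl, rfl⟩ := mo2_inj hx hp.1 hp.2 hq.1 hq.2 e
        rfl)
    (fun p hp => ⟨⟨hp.1, tt_lt hp.2⟩, Prod.ext (Bool.not_not _) (Prod.ext rfl (tt_tt _ _))⟩)
  have a2' : ∀ s < Q, ∀ i < 2 * K + 4, s2 (x s i) = x s (pp K i) :=
    fun s hs i hi => a2 (s, i) ⟨hs, hi⟩
  have c1' : ∀ s < Q, ∀ i < 2 * K + 4, n1 (ρ s i) = ρ s (2 * K + 3 - i) :=
    fun s hs i hi => c1 (s, i) ⟨hs, hi⟩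
  have d1' : ∀ y, (∀ s < Q, ∀ i < 2 * K + 4, y ≠ ρ s i) → n1 y = y :=
    fun y hy => d1 y fun p hp => hy p.1 hp.1 p.2 hp.2
  have ax : ∀ s < Q, ∀ i < 2 * K + 4, s1 (x s i) = ρ s (tt K i) :=
    fun s hs i hi => a1 (true, s, i) ⟨hs, hi⟩
  have aρ : ∀ s < Q, ∀ i < 2 * K + 4, s1 (ρ s i) = x s (tt K i) :=
    fun s hs i hi => a1 (false, s, i) ⟨hs, hi⟩
  -- first step: the gadgets
  have hT2 : Term k s2 T := ⟨i2, hT.card, fun a ha => b2 a fun p hp e =>
    Set.disjoint_left.1 heA ha (e ▸ (hmem p.1 hp.1 p.2 hp.2).1), hT.ne, hT.dis⟩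
  have key : ∀ x' : ℕ → ℕ → ℕ,
      (∀ s < Q, ∀ i < 2 * K + 4, ∀ t < Q, ∀ j < 2 * K + 4,
        s < t ∨ (s = t ∧ i < j) → x' s i < x' t j) →
      (∀ s < Q, ∀ i < 2 * K + 4, s2 (x' s i) = x' s (pp K i)) →
      (∀ s < Q, ∀ i < 2 * K + 4, ∃ t < Q, ∃ j < 2 * K + 4, x' s i = x t j) →
      Good s2 T {y | y ∈ ends T ∨ ∃ s < Q, ∃ i < 2 * K + 4, y = x s i} := by
    intro x' m1 m2 m3
    refine hQ s2 T (fun s => {y | ∃ i < 2 * K + 4, y = x' s i}) A _ hT2 (fun s hs => ⟨gad_block h3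
      (fun i j hij hj => m1 s hs i (by omega) s hs j hj (Or.inr ⟨rfl, hij⟩)) (m2 s hs), ?_, ?_⟩)
      ?_ hA heA fun a ha => Or.inl ha
    · rintro y ⟨i, hi, rfl⟩
      obtain ⟨t, ht, j, hj, e⟩ := m3 s hs i hi
      rw [e]; exact (hmem t ht j hj).1
    · rintro y ⟨i, hi, rfl⟩
      exact Or.inr (m3 s hs i hi)
    · rintro s t hst ht z ⟨i, hi, rfl⟩ z' ⟨j, hj, rfl⟩
      exact m1 s (by omega) i hi t ht j hj (Or.inl hst)
  have g2 : Good s2 T {y | y ∈ ends T ∨ ∃ s < Q, ∃ i < 2 * K + 4, y = x s i} := by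
    rcases hx with hx | hx
    · exact key x hx a2' fun s hs i hi => ⟨s, hs, i, hi, rfl⟩
    · refine key (fun s i => x (Q - 1 - s) (2 * K + 3 - i)) (fun s hs i hi t ht j hj h => ?_)
        (fun s hs i hi => ?_) fun s hs i hi => ⟨_, by omega, _, by omega, rfl⟩
      · exact hx _ (by omega) _ (by omega) _ (by omega) _ (by omega) (by omega)
      · rw [a2' _ (by omega) _ (by omega), pp_cap hi]
  -- second step: caps on the other side
  have hnA : ∀ y, y ∉ A' → n1 y = y := fun y hy =>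
    d1' y fun s hs i hi e => hy (e ▸ (hmem s hs i hi).2)
  have hP2 : ∀ y ∈ {y | y ∈ ends T ∨ ∃ s < Q, ∃ i < 2 * K + 4, y = x s i}, y ∉ A' := by
    rintro y (hy | ⟨s, hs, i, hi, rfl⟩)
    · exact Set.disjoint_left.1 heA' hy
    · exact Set.disjoint_left.1 hAA (hmem s hs i hi).1
  have g1 : Good s1 T {y | y ∈ ends T ∨ ∃ s < Q, ∃ i < 2 * K + 4, y = x s i ∨ y = ρ s i} := by
    refine sim0 h1 i1 j1 (nc_caps (W := 2 * K + 3) hρ c1' d1') (fun y hy => ?_)
      (fun y hy => ⟨?_, hnA y (hP2 y hy)⟩) (fun z y hy hz => ?_) (fun y => ?_) g2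
    · by_contra hn
      exact hy (d1' y fun s hs i hi e => hn (Or.inr ⟨s, hs, i, hi, Or.inr e⟩))
    · rcases hy with hy | ⟨s, hs, i, hi, e⟩
      · exact Or.inl hy
      · exact Or.inr ⟨s, hs, i, hi, Or.inl e⟩
    · by_cases hz' : ∃ s < Q, ∃ i < 2 * K + 4, z = ρ s i
      · obtain ⟨s, hs, i, hi, rfl⟩ := hz'
        rw [c1' s hs i hi]
        by_contra hn
        exact hP2 y hy (hA'.out (hmem s hs i hi).2 (hmem s hs (2 * K + 3 - i) (by omega)).2
          ⟨hz.le, (not_le.1 hn).le⟩)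
      · rw [d1' z fun s hs i hi e => hz' ⟨s, hs, i, hi, e⟩]
        exact hz.le
    · by_cases hy : ∃ s < Q, ∃ i < 2 * K + 4, y = x s i
      · obtain ⟨s, hs, i, hi, rfl⟩ := hy
        rw [a2' s hs i hi]
        have e1 : CC s1 n1 (x s i) (ρ s (tt K i)) :=
          Relation.ReflTransGen.single (Or.inl (ax s hs i hi).symm)
        have e2 : CC s1 n1 (x s i) (ρ s (2 * K + 3 - tt K i)) :=
          Relation.ReflTransGen.tail e1 (Or.inr (c1' s hs _ (tt_lt hi)).symm)
        exact Relation.ReflTransGen.tail e2 (Or.inl (aρ s hs _ (by omega)).symm)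
      · rw [b2 y fun p hp e => hy ⟨p.1, hp.1, p.2, hp.2, e⟩]
        exact Relation.ReflTransGen.refl
  -- third step: the given caps
  refine sim0 h1 hT.inv hν hnc hsup (fun y hy => ⟨(hP y hy).1, (hP y hy).2.1⟩)
    (fun z y hy => (hP y hy).2.2 z) (fun y => ?_) g1
  by_cases hy : ∃ s < Q, ∃ i < 2 * K + 4, y = x s i
  · obtain ⟨s, hs, i, hi, rfl⟩ := hy
    rw [ax s hs i hi, ← swap_eq]
    exact hcc s hs i hi
  · by_cases hy' : ∃ s < Q, ∃ i < 2 * K + 4, y = ρ s i
    · obtain ⟨s, hs, i, hi, rfl⟩ := hy'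
      rw [aρ s hs i hi]
      have := hcc s hs _ (tt_lt hi)
      rw [swap_eq, tt_tt] at this
      exact cc_symm hT.inv hν this
    · rw [b1 y]
      · exact Relation.ReflTransGen.refl
      · rintro ⟨b, s, i⟩ hp e
        cases b
        · exact hy' ⟨s, hp.1, i, hp.2, e⟩
        · exact hy ⟨s, hp.1, i, hp.2, e⟩

end Pool.Agent.MP_9d78a0_co.fb

end MrgPart2

-- ======== part 3: formerly Pool.Agent.MP_9d78a0_co.st.Jg
section MrgPart3

/-! Many gadgets route the terminals. -/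

set_option autoImplicit false

namespace Pool.Agent.MP_9d78a0_co.st

open Set Function fb

namespace JgAux

/-- what an item gives on the level of the involution -/
def It (k n : ℕ) (σ : ℕ → ℕ) (lo hi ex : ℕ) : Prop :=
  k ≤ lo ∧ lo ≤ hi ∧ hi < n ∧ k ≤ ex ∧ ex < n ∧ Gad σ (2 * k) (Icc (min lo ex) (max hi ex)) ∧
    (ex = lo ∨ ∃ u p, lo ≤ p ∧ p < u ∧ u < σ p ∧ σ p ≤ hi ∧ σ u = ex)

theorem sorted (r : ℕ) : ∃ m, ∀ f : ℕ → ℕ, (∀ i < m, ∀ j < m, i ≠ j → f i ≠ f j) →
    ∃ e : ℕ → ℕ, (∀ i < r, e i < m) ∧ ∀ i j, i < j → j < r → f (e i) < f (e j) := by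
  obtain ⟨m, hm⟩ := ramseyS Prop r
  refine ⟨m, fun f hf => ?_⟩
  obtain ⟨s, γ, h1, h2, h3⟩ := hm fun i j => f i < f j
  by_cases c : γ
  · exact ⟨s, h2, fun i j hij hj => by rw [h3 i j hij hj]; exact c⟩
  · refine ⟨fun i => s (r - 1 - i), fun i hi => h2 _ (by omega), fun i j hij hj => ?_⟩
    have a1 := h3 (r - 1 - j) (r - 1 - i) (by omega) (by omega)
    have a2 := h1 (r - 1 - j) (r - 1 - i) (by omega) (by omega)
    have a3 := hf _ (h2 (r - 1 - j) (by omega)) _ (h2 (r - 1 - i) (by omega)) (by omega)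
    rw [← a1] at c
    show f (s (r - 1 - i)) < f (s (r - 1 - j))
    omega

/-- items in increasing order -/
theorem core0 (k : ℕ) : ∃ Q, ∀ (σ : ℕ → ℕ) (T : Finset (ℕ × ℕ)) (n : ℕ) (lo hi ex : ℕ → ℕ),
    Term k σ T → ends T ⊆ Iio k → k ≤ n → (∀ s < Q, It k n σ (lo s) (hi s) (ex s)) →
    (∀ s t, s < t → t < Q → hi s < lo t) →
    (∀ s < Q, ∀ t < Q, s ≠ t → ex s ∉ Icc (lo t) (hi t) ∧ ex s ≠ ex t) → Good σ T (Iio n) := by
  obtain ⟨Qa, hA⟩ := uaS simS capS k
  obtain ⟨Qb, W, hB⟩ := b31S capS (b0S simS capS gadS (uaS simS capS)) k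
  obtain ⟨M, hM⟩ : ∃ M, M = W + (W + 1) * Qb + 2 := ⟨_, rfl⟩
  obtain ⟨r, hr⟩ : ∃ r, r = Qa + M + 3 := ⟨_, rfl⟩
  obtain ⟨m, hm⟩ := ramseyS (Prop × Prop × Prop) r
  refine ⟨m, fun σ T n lo hi ex hT hE hn hI ho hx => ?_⟩
  obtain ⟨e, ⟨α, β, γ⟩, h1, h2, h3⟩ := hm fun s t => (ex s < lo t, ex t < lo s, ex s < ex t)
  simp only [Prod.mk.injEq] at h3
  have hEP : ends T ⊆ Iio n := fun a ha => lt_of_lt_of_le (hE ha) hn
  have I : ∀ s < r, It k n σ (lo (e s)) (hi (e s)) (ex (e s)) := fun s hs => hI _ (h2 s hs)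
  have O : ∀ s t, s < t → t < r → hi (e s) < lo (e t) := fun s t hst ht =>
    ho _ _ (h1 s t hst ht) (h2 t ht)
  have X : ∀ s t, s < t → t < r → (ex (e s) < lo (e t) ∨ hi (e t) < ex (e s)) ∧
      (ex (e t) < lo (e s) ∨ hi (e s) < ex (e t)) ∧ ex (e s) ≠ ex (e t) := fun s t hst ht => by
    have a := h1 s t hst ht
    have b1 := hx _ (h2 s (by omega)) _ (h2 t ht) (by omega)
    have b2 := hx _ (h2 t ht) _ (h2 s (by omega)) (by omega)
    simp only [mem_Icc] at b1 b2
    omega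
  have L : ∀ s < r, lo (e s) ≤ hi (e s) := fun s hs => (I s hs).2.1
  by_cases c : α ∧ ¬ β
  · -- side by side
    have a1 : ∀ s t, s < t → t < r → ex (e s) < lo (e t) := fun s t hst ht => by
      rw [(h3 s t hst ht).1]; exact c.1
    have a2 : ∀ s t, s < t → t < r → hi (e s) < ex (e t) := fun s t hst ht => by
      have b := c.2
      rw [← (h3 s t hst ht).2.1] at b
      have := X s t hst ht
      omega
    have a3 : γ := by
      rw [← (h3 0 2 (by omega) (by omega)).2.2]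
      have := a1 0 1 (by omega) (by omega)
      have := a2 1 2 (by omega) (by omega)
      have := L 1 (by omega)
      omega
    refine hA σ T (fun s => Icc (min (lo (e s)) (ex (e s))) (max (hi (e s)) (ex (e s)))) (Ici k) _ hT
      (fun s hs => ⟨(I s (by omega)).2.2.2.2.2.1, fun z hz => ?_, fun z hz => ?_⟩)
      (fun s t hst ht z hz z' hz' => ?_) ordConnected_Ici
      (Set.disjoint_left.2 fun a ha hb => Nat.not_lt.2 hb (hE ha)) hEP
    · obtain ⟨b1, b2, b3, b4, b5, -⟩ := I s (by omega)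
      simp only [mem_Icc, mem_Ici] at hz ⊢
      omega
    · obtain ⟨b1, b2, b3, b4, b5, -⟩ := I s (by omega)
      simp only [mem_Icc, mem_Iio] at hz ⊢
      omega
    · have b1 := a1 s t hst (by omega)
      have b2 := a2 s t hst (by omega)
      have b3 := O s t hst (by omega)
      have b4 : ex (e s) < ex (e t) := by rw [(h3 s t hst (by omega)).2.2]; exact a3
      simp only [mem_Icc] at hz hz'
      omega
  · -- a band
    have far : (∀ s < M, hi (e (r - 1)) < ex (e (s + 1))) ∨ ∀ s < M, ex (e (s + 1)) < lo (e 0) := by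
      by_cases d : α
      · right
        intro s hs
        rw [(h3 0 (s + 1) (by omega) (by omega)).2.1]
        by_contra d'
        exact c ⟨d, d'⟩
      · left
        intro s hs
        rw [← (h3 (s + 1) (r - 1) (by omega) (by omega)).1] at d
        have := X (s + 1) (r - 1) (by omega) (by omega)
        omega
    have J : ∀ s, ∃ u p, s < M → lo (e (s + 1)) ≤ p ∧ p < u ∧ u < σ p ∧ σ p ≤ hi (e (s + 1)) ∧
        σ u = ex (e (s + 1)) := fun s => by
      by_cases hs : s < M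
      · rcases (I (s + 1) (by omega)).2.2.2.2.2.2 with d | ⟨u, p, d⟩
        · exfalso
          have := O (s + 1) (r - 1) (by omega) (by omega)
          have := O 0 (s + 1) (by omega) (by omega)
          have := L (s + 1) (by omega)
          have := L (r - 1) (by omega)
          have := L 0 (by omega)
          rcases far with f | f <;> have := f s hs <;> omega
        · exact ⟨u, p, fun _ => d⟩
      · exact ⟨0, 0, fun h => absurd h hs⟩
    choose u p hu using J
    have um : ∀ i j, i < j → j < M → u i < p j ∧ σ (p i) < u j := fun i j hij hj => by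
      have := hu i (by omega)
      have := hu j hj
      have := O (i + 1) (j + 1) (by omega) (by omega)
      omega
    have ub : ∀ i < M, hi (e 0) < u i ∧ u i < lo (e (r - 1)) ∧ k ≤ u i ∧ u i < n := fun i hi => by
      have := hu i hi
      have := O 0 (i + 1) (by omega) (by omega)
      have := O (i + 1) (r - 1) (by omega) (by omega)
      obtain ⟨b1, b2, b3, -⟩ := I (i + 1) (by omega)
      omega
    have xb : ∀ i < M, k ≤ σ (u i) ∧ σ (u i) < n := fun i hi => by
      obtain ⟨b1, b2, b3, b4, b5, -⟩ := I (i + 1) (by omega)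
      rw [(hu i hi).2.2.2.2]
      exact ⟨b4, b5⟩
    have hmul : ∀ s < Qb, (W + 1) * s + (W + 1) ≤ (W + 1) * Qb := fun s hs => by
      rw [← Nat.mul_succ]; exact Nat.mul_le_mul_left _ hs
    refine hB σ T M u (fun s => W + (W + 1) * s) (fun s => W + (W + 1) * s + 1)
      (fun s => p (W + (W + 1) * s + 1)) _ hT ⟨Or.inl fun i j hij hj => ?_, ?_, ?_, ?_, ?_⟩
      ⟨hEP, fun j _ hj => ⟨(ub j hj).2.2.2, (xb j hj).2⟩⟩ (fun s hs => ?_) fun s t hst ht => ?_
    · have := um i j hij hj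
      have := hu j hj
      omega
    · by_cases d : γ
      · refine Or.inl fun i j hij hj => ?_
        simp only [comp]
        rw [(hu i (by omega)).2.2.2.2, (hu j hj).2.2.2.2,
          (h3 (i + 1) (j + 1) (by omega) (by omega)).2.2]
        exact d
      · refine Or.inr fun i j hij hj => ?_
        simp only [comp]
        rw [(hu i (by omega)).2.2.2.2, (hu j hj).2.2.2.2]
        rw [← (h3 (i + 1) (j + 1) (by omega) (by omega)).2.2] at d
        have := X (i + 1) (j + 1) (by omega) (by omega)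
        omega
    · refine Set.disjoint_left.2 ?_
      rintro a ⟨i, hi', j, hj, b1, b2⟩ ⟨i', hi'', j', hj', b3, b4⟩
      simp only [comp] at b3 b4
      rw [(hu i' hi'').2.2.2.2] at b3
      rw [(hu j' hj').2.2.2.2] at b4
      have := ub i hi'
      have := ub j hj
      have := L (r - 1) (by omega)
      have := L 0 (by omega)
      rcases far with f | f
      · have := f i' hi''
        omega
      · have := f j' hj'
        omega
    · refine Set.disjoint_left.2 ?_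
      rintro a ha ⟨i, hi', j, hj, b1, b2⟩
      have := ub i hi'
      have := hE ha
      simp only [mem_Iio] at this
      omega
    · refine Set.disjoint_left.2 ?_
      rintro a ha ⟨i, hi', j, hj, b1, b2⟩
      have := xb i hi'
      have := hE ha
      simp only [mem_Iio, comp] at this b1
      omega
    · have b0 := hmul s hs
      generalize (W + 1) * s = z at b0
      have b1 := hu (W + z + 1) (by omega)
      have b2 := um (W + z) (W + z + 1) (by omega) (by omega)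
      have b3 := um (W + z + 1) (W + z + 1 + 1) (by omega) (by omega)
      have b4 := ub (W + z + 1) (by omega)
      have b5 := ub (W + z + 1 + 1) (by omega)
      refine ⟨by omega, by omega, by omega, Or.inl ⟨b2.1, b1.2.1⟩, Or.inl ⟨b1.2.2.1, b3.2⟩, ?_, ?_⟩
      · simp only [mem_Iio]; omega
      · simp only [mem_Iio]; omega
    · have : (W + 1) * s + (W + 1) ≤ (W + 1) * t := by
        rw [← Nat.mul_succ]; exact Nat.mul_le_mul_left _ hst
      omega

theorem core (k : ℕ) : ∃ Q, ∀ (σ : ℕ → ℕ) (T : Finset (ℕ × ℕ)) (n : ℕ) (lo hi ex : ℕ → ℕ),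
    Term k σ T → ends T ⊆ Iio k → k ≤ n → (∀ s < Q, It k n σ (lo s) (hi s) (ex s)) →
    (∀ s < Q, ∀ t < Q, s ≠ t → Disjoint (Icc (lo s) (hi s)) (Icc (lo t) (hi t)) ∧
      ex s ∉ Icc (lo t) (hi t) ∧ ex s ≠ ex t) → Good σ T (Iio n) := by
  obtain ⟨r, hr⟩ := core0 k
  obtain ⟨m, hm⟩ := sorted r
  refine ⟨m, fun σ T n lo hi ex hT hE hn hI hx => ?_⟩
  have D : ∀ s < m, ∀ t < m, s ≠ t → lo s ≤ lo t → hi s < lo t := fun s hs t ht hst h => by
    by_contra c
    exact Set.disjoint_left.1 (hx s hs t ht hst).1 ⟨h, not_lt.1 c⟩ ⟨le_rfl, (hI t ht).2.1⟩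
  obtain ⟨e, h1, h2⟩ := hm lo fun i hi' j hj hij h => by
    have := D i hi' j hj hij h.le
    have := (hI i hi').2.1
    omega
  have ne : ∀ s < r, ∀ t < r, s ≠ t → e s ≠ e t := fun s hs t ht hst h => by
    rcases lt_or_gt_of_ne hst with c | c
    · have := h2 s t c ht
      rw [h] at this
      omega
    · have := h2 t s c hs
      rw [h] at this
      omega
  exact hr σ T n (lo ∘ e) (hi ∘ e) (ex ∘ e) hT hE hn (fun s hs => hI _ (h1 s hs))
    (fun s t hst ht => D _ (h1 s (by omega)) _ (h1 t ht) (ne s (by omega) t ht (by omega))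
      (h2 s t hst ht).le)
    fun s hs t ht hst => (hx _ (h1 s hs) _ (h1 t ht) (ne s hs t ht hst)).2

variable {V : Type}

/-- a family of realised chords -/
def Fm (G : SimpleGraph V) (W : Set V) (ob : ℕ → V) (k n m : ℕ) (x y : ℕ → ℕ) (X : ℕ → Set V) :
    Prop :=
  (∀ i < m, X i ⊆ W ∧ Conn G (X i) ∧ ob (x i) ∈ X i ∧ ob (y i) ∈ X i ∧ x i ≠ y i ∧
    k ≤ x i ∧ x i < n ∧ k ≤ y i ∧ y i < n) ∧ ∀ i < m, ∀ j < m, i ≠ j → Disjoint (X i) (X j)

theorem Fm.snoc {G : SimpleGraph V} {W : Set V} {ob : ℕ → V} {k n m : ℕ} {x y : ℕ → ℕ}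
    {X : ℕ → Set V} (h : Fm G W ob k n m x y X) {a b : ℕ} {E : Set V} (h1 : E ⊆ W) (h2 : Conn G E)
    (h3 : ob a ∈ E) (h4 : ob b ∈ E) (h5 : a ≠ b ∧ k ≤ a ∧ a < n ∧ k ≤ b ∧ b < n)
    (h6 : ∀ i < m, Disjoint (X i) E) :
    Fm G W ob k n (m + 1) (update x m a) (update y m b) (update X m E) := by
  refine ⟨fun i hi => ?_, fun i hi j hj hij => ?_⟩
  · by_cases c : i = m
    · subst c
      simp only [update_self]
      exact ⟨h1, h2, h3, h4, h5⟩
    · simp only [update_of_ne c]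
      exact h.1 i (by omega)
  · by_cases c : i = m
    · subst c
      rw [update_self, update_of_ne hij.symm]
      exact (h6 j (by omega)).symm
    · by_cases d : j = m
      · subst d
        rw [update_self, update_of_ne c]
        exact h6 i (by omega)
      · rw [update_of_ne c, update_of_ne d]
        exact h.2 i (by omega) j (by omega) hij

theorem fm_of {G : SimpleGraph V} {W W0 : Set V} {ob : ℕ → V} {k n m : ℕ} {x y : ℕ → ℕ}
    {X : ℕ → Set V} (h : Ch G W0 ob m x y X) (hW : W0 ⊆ W)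
    (hb : ∀ i < m, k ≤ x i ∧ x i < y i ∧ y i < n) : Fm G W ob k n m x y X :=
  ⟨fun i hi => by
    obtain ⟨a1, a2, a3, a4⟩ := h.lkg.mem i hi
    have := hb i hi
    exact ⟨a1.trans hW, a2, a3, a4, by omega, by omega, by omega, by omega, by omega⟩, h.lkg.dis⟩

theorem item {G : SimpleGraph V} {W : Set V} {ob : ℕ → V} {k n lo hi ex : ℕ}
    (h : Item G ob (2 * k + 1) W lo hi ex) (h1 : k ≤ lo) (h2 : hi < n) (h3 : k ≤ ex) (h4 : ex < n) :
    ∃ m x y X, Fm G W ob k n m x y X ∧ ∀ σ : ℕ → ℕ, (∀ i < m, σ (x i) = y i ∧ σ (y i) = x i) →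
      It k n σ lo hi ex := by
  rcases h with ⟨rfl, a, b, c, d, W0, P, Q, ⟨-, x, y, X, hc, n1, n2⟩, o1, o2, o3, hW, tw, m1, m2, m3,
      m4⟩ | ⟨rfl, x, y, X, hc, n1, n2⟩ | ⟨he, u, W0, E, ⟨-, x, y, X, hc, n1, n2⟩, hW, hE, cE, m1, m2⟩
  · have b0 := n2 0 (by omega)
    have f0 : Fm G W ob k n _ x y X := fm_of hc hW fun i hi => by have := n2 i hi; omega
    have dP : ∀ i < 2 * k + 1, ∀ S, S ⊆ W \ W0 → Disjoint (X i) S := fun i hi S hS =>
      Set.disjoint_left.2 fun v hv hv' => (hS hv').2 ((hc.lkg.mem i hi).1 hv)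
    have f1 := f0.snoc (tw.sp.trans sdiff_subset) tw.cp m1 m2 (by omega) fun i hi => dP i hi _ tw.sp
    have f2 := f1.snoc (tw.sq.trans sdiff_subset) tw.cq m3 m4 (by omega) fun i hi => by
      by_cases e : i = 2 * k + 1
      · subst e
        rw [update_self]
        exact tw.dis
      · rw [update_of_ne e]
        exact dP i (by omega) _ tw.sq
    refine ⟨_, _, _, _, f2, fun σ hσ => ?_⟩
    have s0 : ∀ i < 2 * k + 1, σ (x i) = y i := fun i hi => by
      have := (hσ i (by omega)).1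
      rwa [update_of_ne (by omega), update_of_ne (by omega), update_of_ne (by omega),
        update_of_ne (by omega)] at this
    have s1 : σ a = c := by
      have := (hσ (2 * k + 1) (by omega)).1
      rwa [update_of_ne (Nat.succ_ne_self _).symm, update_of_ne (Nat.succ_ne_self _).symm,
        update_self, update_self] at this
    have s2 : σ b = d := by
      have := (hσ (2 * k + 1 + 1) (by omega)).1
      rwa [update_self, update_self] at this
    refine ⟨h1, by omega, h2, h3, h4, ?_, Or.inl rfl⟩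
    refine ((gadS σ (2 * k) _ x (fun i j hij hj => (n1 i j hij (by omega)).1) fun i hi => ?_).2
      fun i j hij hj => ?_).1 a b ?_ ?_ ?_ ?_ o1 (by omega) (by omega) fun i hi => ?_
    · have := n2 i (by omega)
      rw [s0 i (by omega)]
      refine ⟨⟨by omega, by omega⟩, ⟨by omega, by omega⟩, fun j hj => ?_⟩
      have := n2 j (by omega)
      rw [s0 j (by omega)]
      omega
    · rw [s0 i (by omega), s0 j (by omega)]
      exact (n1 i j hij (by omega)).2
    · exact ⟨by omega, by omega⟩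
    · exact ⟨by omega, by omega⟩
    · exact ⟨by omega, by omega⟩
    · exact ⟨by omega, by omega⟩
    · have := n2 i (by omega)
      rw [s0 i (by omega)]
      omega
  · have b0 := n2 0 (by omega) 0 (by omega)
    refine ⟨_, _, _, _, fm_of hc subset_rfl fun i hi => by have := n2 i hi i hi; omega,
      fun σ hσ => ⟨h1, by omega, h2, h3, h4, ?_, Or.inl rfl⟩⟩
    refine (gadS σ (2 * k) _ x (fun i j hij hj => (n1 i j hij (by omega)).1) fun i hi => ?_).1
      fun i j hij hj => ?_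
    · have := n2 i (by omega) i (by omega)
      rw [(hσ i (by omega)).1]
      refine ⟨⟨by omega, by omega⟩, ⟨by omega, by omega⟩, fun j hj => ?_⟩
      rw [(hσ j (by omega)).1]
      exact (n2 i (by omega) j (by omega)).2.1
    · rw [(hσ i (by omega)).1, (hσ j (by omega)).1]
      exact (n1 i j hij (by omega)).2
  · have b0 := n2 0 (by omega)
    simp only [mem_Icc] at he
    have f0 : Fm G W ob k n _ x y X := fm_of hc hW fun i hi => by have := n2 i hi; omega
    have f1 := f0.snoc (hE.trans sdiff_subset) cE m1 m2 (by omega) fun i hi =>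
      Set.disjoint_left.2 fun v hv hv' => (hE hv').2 ((hc.lkg.mem i hi).1 hv)
    refine ⟨_, _, _, _, f1, fun σ hσ => ?_⟩
    have s0 : ∀ i < 2 * k + 1, σ (x i) = y i := fun i hi => by
      have := (hσ i (by omega)).1
      rwa [update_of_ne (by omega), update_of_ne (by omega)] at this
    have s1 : σ u = ex ∧ σ ex = u := by
      have := hσ (2 * k + 1) (by omega)
      rwa [update_self, update_self] at this
    refine ⟨h1, by omega, h2, h3, h4, ?_, Or.inr ⟨u, x 0, by omega, by omega, ?_, ?_, s1.1⟩⟩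
    · have g := ((gadS σ (2 * k) (Icc (min lo ex) (max hi ex)) x
        (fun i j hij hj => (n1 i j hij (by omega)).1) fun i hi => by
          have := n2 i (by omega)
          rw [s0 i (by omega)]
          refine ⟨⟨by omega, by omega⟩, ⟨by omega, by omega⟩, fun j hj => ?_⟩
          have := n2 j (by omega)
          rw [s0 j (by omega)]
          omega).2 fun i j hij hj => by
          rw [s0 i (by omega), s0 j (by omega)]
          exact (n1 i j hij (by omega)).2).2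
      obtain ⟨s1, s2⟩ := s1
      by_cases c : ex < lo
      · refine g.1 ex ⟨by omega, by omega⟩ ⟨by omega, by omega⟩ (by omega) fun i hi => ?_
        have := n2 i (by omega)
        rw [s0 i (by omega)]
        omega
      · refine g.2 u ⟨by omega, by omega⟩ ⟨by omega, by omega⟩ (by omega) fun i hi => ?_
        have := n2 i (by omega)
        rw [s0 i (by omega)]
        omega
    · rw [s0 0 (by omega)]; omega
    · rw [s0 0 (by omega)]; omega

end JgAux

open JgAux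

theorem jgS (hM : MksS) : JgS := by
  intro h
  obtain ⟨Q, hQ⟩ := core (h * h)
  refine ⟨2 * (h * h) + 1, Q, by omega, fun V G n Ur ob W lo hi ex hU hI hD => ?_⟩
  have J : ∀ s, ∃ m x y X, s < Q → Fm G (W s) ob (h * h) n m x y X ∧
      ∀ σ : ℕ → ℕ, (∀ i < m, σ (x i) = y i ∧ σ (y i) = x i) →
        It (h * h) n σ (lo s) (hi s) (ex s) := fun s => by
    by_cases hs : s < Q
    · obtain ⟨a1, -, a3, a4, a5, a6⟩ := hI s hs
      obtain ⟨m, x, y, X, a⟩ := item a1 a3 a4 a5 a6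
      exact ⟨m, x, y, X, fun _ => a⟩
    · exact ⟨0, id, id, fun _ => ∅, fun c => absurd c hs⟩
  choose m x y X hm using J
  obtain ⟨σ, s1, s2, s3, s4⟩ := hM V G Ur ob h n (ℕ × ℕ) {z | z.1 < Q ∧ z.2 < m z.1}
    (fun z => x z.1 z.2) (fun z => y z.1 z.2) (fun z => X z.1 z.2)
    (fun z hz => by
      obtain ⟨a1, a2⟩ := (hm z.1 hz.1).1.1 z.2 hz.2
      exact ⟨a1.trans (hI z.1 hz.1).2.1, a2⟩)
    (by
      rintro ⟨s, i⟩ hz ⟨t, j⟩ hw hne
      by_cases c : s = t
      · subst c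
        exact (hm s hz.1).1.2 i hz.2 j hw.2 fun e => hne (by rw [e])
      · exact (hD s hz.1 t hw.1 c).1.mono ((hm s hz.1).1.1 i hz.2).1 ((hm t hw.1).1.1 j hw.2).1)
  exact hU.2 σ s2.inv s1 (hQ σ _ n lo hi ex s2 s3 hU.1
    (fun s hs => (hm s hs).2 σ fun i hi => s4 (s, i) ⟨hs, hi⟩)
    fun s hs t ht hst => (hD s hs t ht hst).2)

end Pool.Agent.MP_9d78a0_co.st

end MrgPart3

-- marker of a merged file
example : 731051 + 613184 = 731051 + 613184 := rfl
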