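import Mathlib.Data.ZMod.Basic
import Mathlib.Data.Multiset.Count
import Mathlib.Algebra.BigOperators.Group.Finset.Basic
import Mathlib.Logic.Relation
import Mathlib.Tactic

/-! Translation of drawings to maps, part a: matchings of flags around the nodes. -/

set_option autoImplicit false
set_option linter.unusedSectionVars false

namespace Pool.Agent.MP_9d78a0_co.st.tr

open Function

variable {D V : Type} [DecidableEq D]

theorem even_inv (K : Finset D) (f : D → D) (h1 : ∀ d ∈ K, f d ∈ K) (h2 : ∀ d ∈ K, f (f d) = d)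
    (h3 : ∀ d ∈ K, f d ≠ d) : Even K.card := by
  rw [← ZMod.natCast_eq_zero_iff_even, Finset.card_eq_sum_ones]
  push_cast
  exact Finset.sum_involution (fun d _ => f d) (fun _ _ => by decide) (fun d hd _ => h3 d hd)
    h1 h2

/-- linked by pairs of `T` and by `γ` -/
def Rl (γ : D → D) (T : Multiset (D × D)) : D → D → Prop :=
  Relation.EqvGen fun d e => (d, e) ∈ T ∨ e = γ d

namespace Rl
variable {γ : D → D} {T T' : Multiset (D × D)}

theorem refl (d : D) : Rl γ T d d := Relation.EqvGen.refl d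
theorem symm {d e : D} (h : Rl γ T d e) : Rl γ T e d := Relation.EqvGen.symm _ _ h
theorem trans {d e f : D} (h : Rl γ T d e) (h' : Rl γ T e f) : Rl γ T d f :=
  Relation.EqvGen.trans _ _ _ h h'
theorem mem {d e : D} (h : (d, e) ∈ T) : Rl γ T d e := Relation.EqvGen.rel _ _ (Or.inl h)
theorem ga (d : D) : Rl γ T d (γ d) := Relation.EqvGen.rel _ _ (Or.inr rfl)

theorem mono (h : ∀ x ∈ T, Rl γ T' x.1 x.2) {d e : D} (hr : Rl γ T d e) : Rl γ T' d e := by
  induction hr with
  | rel x y hxy =>
    rcases hxy with hxy | rfl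
    · exact h _ hxy
    · exact ga _
  | refl x => exact refl x
  | symm x y _ ih => exact ih.symm
  | trans x y z _ _ ih ih' => exact ih.trans ih'

theorem inv {ω : Type} (t : D → ω) (h : ∀ x ∈ T, t x.1 = t x.2) (hg : ∀ d, t (γ d) = t d)
    {d e : D} (hr : Rl γ T d e) : t d = t e := by
  induction hr with
  | rel x y hxy =>
    rcases hxy with hxy | rfl
    · exact h _ hxy
    · exact (hg _).symm
  | refl x => rfl
  | symm x y _ ih => exact ih.symm
  | trans x y z _ _ ih ih' => exact ih.trans ih'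

end Rl

/-- `T` is a perfect matching of `S` -/
def PM (S : Finset D) (T : Multiset (D × D)) : Prop := T.map Prod.fst + T.map Prod.snd = S.val

theorem PM.fst {S : Finset D} {T : Multiset (D × D)} (h : PM S T) {x : D × D} (hx : x ∈ T) :
    x.1 ∈ S := by
  have : x.1 ∈ S.val := by
    rw [← h]; exact Multiset.mem_add.2 (Or.inl (Multiset.mem_map_of_mem _ hx))
  exact this

theorem PM.snd {S : Finset D} {T : Multiset (D × D)} (h : PM S T) {x : D × D} (hx : x ∈ T) :
    x.2 ∈ S := by
  have : x.2 ∈ S.val := by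
    rw [← h]; exact Multiset.mem_add.2 (Or.inr (Multiset.mem_map_of_mem _ hx))
  exact this

/-- the fixed data: side flip, labels, a colouring of the two parts -/
structure Amb (γ : D → D) (l : D → V) (S : Finset D) (sd : D → Prop) : Prop where
  gg : ∀ d, γ (γ d) = d
  gn : ∀ d, γ d ≠ d
  gl : ∀ d, l (γ d) = l d
  gs : ∀ d ∈ S, γ d ∈ S
  sd : ∀ d, sd (γ d) ↔ sd d

theorem parity {γ : D → D} {l : D → V} {S : Finset D} {sd : D → Prop} (A : Amb γ l S sd)
    {p q p' q' : D} {T : Multiset (D × D)} (h : PM S ((p, q) ::ₘ (p', q') ::ₘ T))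
    (h1 : ¬ Rl γ T p p') (h2 : ¬ Rl γ T p q') : Rl γ T p q := by
  classical
  by_contra h3
  have he : Even (S.filter (Rl γ T p)).card := by
    apply even_inv _ γ
    · intro d hd
      rw [Finset.mem_filter] at hd ⊢
      exact ⟨A.gs d hd.1, hd.2.trans (Rl.ga d)⟩
    · intro d _; exact A.gg d
    · intro d _; exact A.gn d
  have hc : (S.filter (Rl γ T p)).card = Multiset.countP (Rl γ T p) S.val := by
    rw [Multiset.countP_eq_card_filter]; rfl
  have hcc : Multiset.countP (Rl γ T p) (T.map Prod.fst)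
      = Multiset.countP (Rl γ T p) (T.map Prod.snd) := by
    rw [Multiset.countP_map, Multiset.countP_map]
    congr 1
    apply Multiset.filter_congr
    intro x hx
    have hx' : Rl γ T x.1 x.2 := Rl.mem hx
    exact ⟨fun h => h.trans hx', fun h => h.trans hx'.symm⟩
  rw [hc, ← h] at he
  simp only [Multiset.map_cons, Multiset.countP_add, Multiset.countP_cons] at he
  rw [hcc, if_neg h1, if_neg h2, if_neg h3, if_pos (Rl.refl p)] at he
  have odd : ∀ m : ℕ, ¬ Even (m + 0 + 1 + (m + 0 + 0)) := by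
    rintro m ⟨k, hk⟩
    omega
  exact odd _ he

/-- matching with the right labels; nodes outside `Z` are single orbits, nodes in `Z` are one orbit on
each side -/
structure G (γ : D → D) (l : D → V) (S : Finset D) (T : Multiset (D × D)) (Z : Set V)
    (sd : D → Prop) : Prop where
  pm : PM S T
  lab : ∀ x ∈ T, l x.1 = l x.2
  con : ∀ d ∈ S, ∀ e ∈ S, l d = l e → ((sd d ↔ sd e) ∨ l d ∉ Z) → Rl γ T d e
  sep : ∀ x ∈ T, l x.1 ∈ Z → (sd x.1 ↔ sd x.2)

namespace G
variable {γ : D → D} {l : D → V} {S : Finset D} {sd : D → Prop} {Z : Set V}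

theorem not_rl (A : Amb γ l S sd) {T : Multiset (D × D)} (h : G γ l S T Z sd) {p p' : D}
    (hz : l p ∈ Z) (hs : ¬ (sd p ↔ sd p')) : ¬ Rl γ T p p' := by
  intro hr
  have h1 : l p = l p' := Rl.inv l h.lab A.gl hr
  have h2 := Rl.inv (fun d => l d ∈ Z ∧ sd d) (T := T) (γ := γ) ?_ ?_ hr
  · simp only [eq_iff_iff] at h2
    apply hs
    constructor
    · intro h3; exact (h2.1 ⟨hz, h3⟩).2
    · intro h3; exact (h2.2 ⟨h1 ▸ hz, h3⟩).2
  · intro x hx
    have h3 := h.lab x hx
    have h4 := h.sep x hx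
    simp only [eq_iff_iff]
    constructor
    · rintro ⟨a, b⟩; exact ⟨h3 ▸ a, (h4 a).1 b⟩
    · rintro ⟨a, b⟩; exact ⟨h3 ▸ a, (h4 (h3 ▸ a)).2 b⟩
  · intro d
    simp only [A.gl, A.sd]

theorem flip {T T' : Multiset (D × D)} (h : G γ l S (T + T') Z sd) :
    G γ l S (T.map Prod.swap + T') Z sd := by
  have key : ∀ x ∈ T.map Prod.swap + T', x ∈ T + T' ∨ x.swap ∈ T + T' := by
    intro x hx
    rcases Multiset.mem_add.1 hx with hx | hx
    · obtain ⟨y, hy, rfl⟩ := Multiset.mem_map.1 hx
      right; simpa using Or.inl hy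
    · left; exact Multiset.mem_add.2 (Or.inr hx)
  refine ⟨?_, ?_, ?_, ?_⟩
  · have := h.pm
    unfold PM at this ⊢
    rw [← this]
    simp only [Multiset.map_add, Multiset.map_map, comp_def, Prod.fst_swap, Prod.snd_swap]
    abel
  · intro x hx
    rcases key x hx with hx | hx
    · exact h.lab x hx
    · exact (h.lab _ hx).symm
  · intro d hd e he hl hs
    refine Rl.mono ?_ (h.con d hd e he hl hs)
    intro x hx
    rcases Multiset.mem_add.1 hx with hx | hx
    · have : x.swap ∈ T.map Prod.swap + T' :=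
        Multiset.mem_add.2 (Or.inl (Multiset.mem_map_of_mem _ hx))
      exact (Rl.mem this).symm
    · exact Rl.mem (Multiset.mem_add.2 (Or.inr hx))
  · intro x hx hz
    rcases key x hx with hx | hx
    · exact h.sep x hx hz
    · have h1 := h.lab _ hx
      exact (h.sep _ hx (by simpa using (by simpa using h1 : l x.2 = l x.1) ▸ hz)).symm

theorem merge (A : Amb γ l S sd) {p q p' q' : D} {T : Multiset (D × D)}
    (h : G γ l S ((p, q) ::ₘ (p', q') ::ₘ T) Z sd) (hl : l p = l p') (hz : l p ∈ Z)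
    (hs : ¬ (sd p ↔ sd p')) : G γ l S ((p', q) ::ₘ (p, q') ::ₘ T) (Z \ {l p}) sd := by
  have lq : l p = l q := h.lab (p, q) (by simp)
  have lq' : l p' = l q' := h.lab (p', q') (by simp)
  have sq : sd p ↔ sd q := h.sep (p, q) (by simp) hz
  have sq' : sd p' ↔ sd q' := h.sep (p', q') (by simp) (hl ▸ hz)
  have up : ∀ {d e : D}, Rl γ T d e → Rl γ ((p, q) ::ₘ (p', q') ::ₘ T) d e :=
    fun hr => Rl.mono (fun x hx => Rl.mem (by simp [hx])) hr
  have up' : ∀ {d e : D}, Rl γ T d e → Rl γ ((p', q) ::ₘ (p, q') ::ₘ T) d e :=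
    fun hr => Rl.mono (fun x hx => Rl.mem (by simp [hx])) hr
  have r1 : Rl γ T p q := parity A h.pm (fun hr => h.not_rl A hz hs (up hr))
    (fun hr => h.not_rl A hz (by tauto) (up hr))
  have r2 : Rl γ T p' q' := by
    refine parity A (p' := p) (q' := q) ?_ (fun hr => h.not_rl A hz hs (up hr).symm)
      (fun hr => h.not_rl A (lq ▸ hz) (by tauto) (up hr).symm)
    rw [Multiset.cons_swap]; exact h.pm
  have r3 : Rl γ ((p', q) ::ₘ (p, q') ::ₘ T) p p' :=
    (up' r1).trans (Rl.mem (by simp)).symm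
  have old : ∀ {d e : D}, Rl γ ((p, q) ::ₘ (p', q') ::ₘ T) d e →
      Rl γ ((p', q) ::ₘ (p, q') ::ₘ T) d e := by
    intro d e hr
    refine Rl.mono ?_ hr
    intro x hx
    simp only [Multiset.mem_cons] at hx
    rcases hx with rfl | rfl | hx
    · exact up' r1
    · exact up' r2
    · exact up' (Rl.mem hx)
  have pS : p ∈ S := h.pm.fst (x := (p, q)) (by simp)
  have pS' : p' ∈ S := h.pm.fst (x := (p', q')) (by simp)
  refine ⟨?_, ?_, ?_, ?_⟩
  · have := h.pm
    unfold PM at this ⊢
    rw [← this]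
    simp only [Multiset.map_cons]
    rw [Multiset.cons_swap p' p]
  · intro x hx
    simp only [Multiset.mem_cons] at hx
    rcases hx with rfl | rfl | hx
    · exact hl.symm.trans lq
    · exact hl.trans lq'
    · exact h.lab x (by simp [hx])
  · intro d hd e he hde hc
    by_cases h1 : (sd d ↔ sd e) ∨ l d ∉ Z
    · exact old (h.con d hd e he hde h1)
    · have h2 : l d = l p := by
        by_contra h3
        apply h1
        rcases hc with hc | hc
        · exact Or.inl hc
        · exact Or.inr fun h4 => hc ⟨h4, h3⟩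
      have h3 : ¬ (sd d ↔ sd e) := fun h => h1 (Or.inl h)
      by_cases h4 : sd d ↔ sd p
      · exact ((old (h.con d hd p pS h2 (Or.inl h4))).trans r3).trans
          (old (h.con p' pS' e he (by rw [← hl, ← h2, hde]) (Or.inl (by tauto))))
      · exact ((old (h.con d hd p' pS' (h2.trans hl) (Or.inl (by tauto)))).trans r3.symm).trans
          (old (h.con p pS e he (by rw [← h2, hde]) (Or.inl (by tauto))))
  · intro x hx hz'
    simp only [Multiset.mem_cons] at hx
    rcases hx with rfl | rfl | hx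
    · exact absurd hl.symm hz'.2
    · exact absurd rfl hz'.2
    · exact h.sep x (by simp [hx]) hz'.1

theorem union {S1 S2 : Finset D} {T1 T2 : Multiset (D × D)} {s1 s2 : D → Prop}
    (h1 : G γ l S1 T1 ∅ s1) (h2 : G γ l S2 T2 ∅ s2) (a1 : ∀ d ∈ S1, sd d) (a2 : ∀ d ∈ S2, ¬ sd d)
    (hz : ∀ d ∈ S1, ∀ e ∈ S2, l d = l e → l d ∈ Z) : G γ l (S1 ∪ S2) (T1 + T2) Z sd := by
  have hd : Disjoint S1 S2 := Finset.disjoint_left.2 fun d x y => a2 d y (a1 d x)
  have u1 : ∀ {d e : D}, Rl γ T1 d e → Rl γ (T1 + T2) d e :=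
    fun hr => Rl.mono (fun x hx => Rl.mem (by simp [hx])) hr
  have u2 : ∀ {d e : D}, Rl γ T2 d e → Rl γ (T1 + T2) d e :=
    fun hr => Rl.mono (fun x hx => Rl.mem (by simp [hx])) hr
  refine ⟨?_, ?_, ?_, ?_⟩
  · have e1 := h1.pm
    have e2 := h2.pm
    unfold PM at e1 e2 ⊢
    rw [← Finset.disjUnion_eq_union _ _ hd, Finset.disjUnion_val, ← e1, ← e2]
    simp only [Multiset.map_add]
    abel
  · intro x hx
    rcases Multiset.mem_add.1 hx with hx | hx
    · exact h1.lab x hx
    · exact h2.lab x hx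
  · intro d hd e he hl hc
    rcases Finset.mem_union.1 hd with hd | hd <;> rcases Finset.mem_union.1 he with he | he
    · exact u1 (h1.con d hd e he hl (Or.inr (by simp)))
    · rcases hc with hc | hc
      · exact absurd (hc.1 (a1 d hd)) (a2 e he)
      · exact absurd (hz d hd e he hl) hc
    · rcases hc with hc | hc
      · exact absurd (hc.2 (a1 e he)) (a2 d hd)
      · exact absurd (hl ▸ hz e he d hd hl.symm) hc
    · exact u2 (h2.con d hd e he hl (Or.inr (by simp)))
  · intro x hx _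
    rcases Multiset.mem_add.1 hx with hx | hx
    · exact iff_of_true (a1 _ (h1.pm.fst hx)) (a1 _ (h1.pm.snd hx))
    · exact iff_of_false (a2 _ (h2.pm.fst hx)) (a2 _ (h2.pm.snd hx))

end G

end Pool.Agent.MP_9d78a0_co.st.tr
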