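import Pool.Agent.MP_9d78a0_co.gm.Map
import Pool.Agent.MP_9d78a0_co.st.TRa

-- ======== part 0: formerly Pool.Agent.MP_9d78a0_co.fb.Stage
section MrgPart0

/-! Rerouting the rivers along rails. -/

set_option autoImplicit false

namespace Pool.Agent.MP_9d78a0_co.fb

open Set Function

namespace Stage

variable {k : ℕ} {I : Iv k} {d : Bool}

theorem riv_mem {u : ℕ} (hI : I.lo ≤ I.hi) (h : u ≤ I.hi - I.lo) : riv I d u ∈ I.set := by
  cases d
  · exact ⟨rfl, show I.lo ≤ I.hi - u by omega, show I.hi - u ≤ I.hi by omega⟩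
  · exact ⟨rfl, show I.lo ≤ I.lo + u by omega, show I.lo + u ≤ I.hi by omega⟩

theorem riv_inj {u u' : ℕ} (h : u ≤ I.hi - I.lo) (h' : u' ≤ I.hi - I.lo)
    (e : riv I d u = riv I d u') : u = u' := by
  cases d
  · have : I.hi - u = I.hi - u' := congrArg Prod.snd e
    omega
  · have : I.lo + u = I.lo + u' := congrArg Prod.snd e
    omega

theorem riv_surj {v : Vx k} (h : v ∈ I.set) : ∃ u ≤ I.hi - I.lo, riv I d u = v := by
  obtain ⟨p, i⟩ := v
  obtain ⟨h1, h2, h3⟩ := h
  simp only at h1 h2 h3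
  subst h1
  cases d
  · exact ⟨I.hi - i, by omega, Prod.ext rfl (show I.hi - (I.hi - i) = i by omega)⟩
  · exact ⟨i - I.lo, by omega, Prod.ext rfl (show I.lo + (i - I.lo) = i by omega)⟩

theorem riv_nb {u : ℕ} {v : Vx k} (h : 1 ≤ u) (h' : u + 1 ≤ I.hi - I.lo)
    (e : (riv I d u).1 = v.1) (n : (riv I d u).2 + 1 = v.2 ∨ v.2 + 1 = (riv I d u).2) :
    v = riv I d (u + 1) ∨ v = riv I d (u - 1) := by
  obtain ⟨p, i⟩ := v
  cases d
  · have e' : I.p = p := e
    have n' : I.hi - u + 1 = i ∨ i + 1 = I.hi - u := n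
    subst e'
    rcases n' with n' | n'
    · exact Or.inr (Prod.ext rfl (show i = I.hi - (u - 1) by omega))
    · exact Or.inl (Prod.ext rfl (show i = I.hi - (u + 1) by omega))
  · have e' : I.p = p := e
    have n' : I.lo + u + 1 = i ∨ i + 1 = I.lo + u := n
    subst e'
    rcases n' with n' | n'
    · exact Or.inl (Prod.ext rfl (show i = I.lo + (u + 1) by omega))
    · exact Or.inr (Prod.ext rfl (show i = I.lo + (u - 1) by omega))

theorem riv_inner {u : ℕ} (h : 1 ≤ u) (h' : u + 1 ≤ I.hi - I.lo) :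
    (riv I d u).1 = I.p ∧ I.lo < (riv I d u).2 ∧ (riv I d u).2 < I.hi := by
  cases d
  · exact ⟨rfl, show I.lo < I.hi - u by omega, show I.hi - u < I.hi by omega⟩
  · exact ⟨rfl, show I.lo < I.lo + u by omega, show I.lo + u < I.hi by omega⟩

variable {V : Type} {G : SimpleGraph V}

theorem riv_touch {len : Fin k → ℕ} {β : Vx k → Set V}
    (ht : ∀ p i, i < len p → Touch G (β (p, i)) (β (p, i + 1))) (hI : I.hi ≤ len I.p) {u : ℕ}
    (h : u < I.hi - I.lo) : Touch G (β (riv I d u)) (β (riv I d (u + 1))) := by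
  cases d
  · have k1 := (ht I.p (I.hi - (u + 1)) (by omega)).symm
    have e : I.hi - (u + 1) + 1 = I.hi - u := by omega
    rw [e] at k1
    exact k1
  · exact ht I.p (I.lo + u) (by omega)

/-- replacing segments of a sequence of blobs by connected sets -/
theorem repl {ι : Type} {S : Set V} {D : ℕ → Set V} {s : ℕ} {σ τ : Fin k → V} {len : Fin k → ℕ}
    {β : Vx k → Set V} (hB : Blobs G S D s σ τ len β) (P : ι → Set (Vx k)) (Y : ι → Set V)
    (q : ι → Fin k) (hq : ∀ a, ∀ v ∈ P a, v.1 = q a ∧ 0 < v.2 ∧ v.2 < len v.1)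
    (hP : ∀ a a', ∀ v ∈ P a, v ∈ P a' → a = a') (hY : ∀ a, Y a ⊆ S ∧ Conn G (Y a))
    (hd : Pairwise (Disjoint on Y))
    (hK : ∀ v ∈ Vs len, (∀ a, v ∉ P a) → ∀ a, Disjoint (β v) (Y a))
    (hN : ∀ a, ∀ v ∈ P a, ∀ v' : Vx k, v.1 = v'.1 → v.2 + 1 = v'.2 ∨ v'.2 + 1 = v.2 → v' ∉ P a →
      (∀ a', v' ∉ P a') ∧ Touch G (Y a) (β v')) :
    ∃ Q, Lk G S σ τ Q ∧ ∀ p, ∀ x ∈ Q p,
      (∃ v ∈ Vs len, (∀ a, v ∉ P a) ∧ x ∈ β v) ∨ ∃ a, x ∈ Y a ∧ Y a ⊆ Q p := by
  let γ : Vx k → Set V := fun v => {x | ((∀ a, v ∉ P a) ∧ x ∈ β v) ∨ ∃ a, v ∈ P a ∧ x ∈ Y a}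
  have g1 : ∀ v, (∀ a, v ∉ P a) → γ v = β v := fun v h => by
    ext x
    exact ⟨fun c => c.elim And.right fun ⟨a, c1, _⟩ => absurd c1 (h a), fun c => Or.inl ⟨h, c⟩⟩
  have g2 : ∀ a, ∀ v ∈ P a, γ v = Y a := fun a v h => by
    ext x
    exact ⟨fun c => c.elim (fun c1 => absurd h (c1.1 a)) fun ⟨a', c1, c2⟩ =>
      hP a' a v c1 h ▸ c2, fun c => Or.inr ⟨a, h, c⟩⟩
  have g3 : ∀ v, (∀ a, v ∉ P a) ∨ ∃ a, v ∈ P a := fun v => by
    by_cases c : ∃ a, v ∈ P a
    · exact Or.inr c
    · exact Or.inl fun a h => c ⟨a, h⟩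
  have g4 : ∀ v ∈ Vs len, γ v ⊆ S ∧ Conn G (γ v) := fun v hv => by
    rcases g3 v with c | ⟨a, c⟩
    · rw [g1 v c]
      exact hB.conn v hv
    · rw [g2 a v c]
      exact hY a
  refine ⟨fun p => ⋃ i ∈ Icc 0 (len p), γ (p, i), ⟨fun p => ⟨?_, ?_, ?_, ?_⟩, ?_⟩, ?_⟩
  · exact iUnion₂_subset fun i hi => (g4 (p, i) hi.2).1
  · refine conn_chain (Nat.zero_le _) (fun i hi => (g4 (p, i) hi.2).2) fun i _ hi => ?_
    rcases g3 (p, i) with c | ⟨a, c⟩
    · rcases g3 (p, i + 1) with c' | ⟨a', c'⟩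
      · rw [g1 _ c, g1 _ c']
        exact Or.inr (hB.touch p i hi)
      · rw [g1 _ c, g2 a' _ c']
        exact Or.inr (hN a' _ c' (p, i) rfl (Or.inr rfl) (c a')).2.symm
    · by_cases c' : (p, i + 1) ∈ P a
      · rw [g2 a _ c, g2 a _ c', inter_self]
        exact Or.inl (hY a).2.1
      · obtain ⟨c1, c2⟩ := hN a _ c (p, i + 1) rfl (Or.inl rfl) c'
        rw [g2 a _ c, g1 _ c1]
        exact Or.inr c2
  · exact mem_biUnion (left_mem_Icc.2 (Nat.zero_le _))
      (Or.inl ⟨fun a c => lt_irrefl _ (hq a _ c).2.1, (hB.ends p).1⟩)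
  · exact mem_biUnion (right_mem_Icc.2 (Nat.zero_le _))
      (Or.inl ⟨fun a c => lt_irrefl _ (hq a _ c).2.2, (hB.ends p).2⟩)
  · intro p p' n
    refine disjoint_left.2 fun x hx hx' => ?_
    obtain ⟨i, hi, hx⟩ := mem_iUnion₂.1 hx
    obtain ⟨i', hi', hx'⟩ := mem_iUnion₂.1 hx'
    rcases hx with ⟨c, hx⟩ | ⟨a, c, hx⟩ <;> rcases hx' with ⟨c', hx'⟩ | ⟨a', c', hx'⟩
    · exact disjoint_left.1
        (hB.dis (p, i) hi.2 (p', i') hi'.2 fun e => n (congrArg Prod.fst e)) hx hx'
    · exact disjoint_left.1 (hK (p, i) hi.2 c a') hx hx'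
    · exact disjoint_left.1 (hK (p', i') hi'.2 c' a) hx' hx
    · refine disjoint_left.1 (hd (i := a) (j := a') fun e => n ?_) hx hx'
      subst e
      exact (hq a _ c).1.trans (hq a _ c').1.symm
  · intro p x hx
    obtain ⟨i, hi, hx⟩ := mem_iUnion₂.1 hx
    rcases hx with ⟨c, hx⟩ | ⟨a, c, hx⟩
    · exact Or.inl ⟨(p, i), hi.2, c, hx⟩
    · exact Or.inr ⟨a, hx, fun y hy => mem_biUnion hi (Or.inr ⟨a, c, hy⟩)⟩

/-- the first index at which a sequence with small steps reaches a value -/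
theorem first {f : ℕ → ℕ} {N l : ℕ} (hs : ∀ u < N, f (u + 1) ≤ f u + 1) (h0 : f 0 < l)
    (hN : l ≤ f N) :
    ∃ e, 1 ≤ e ∧ e ≤ N ∧ f e = l ∧ f (e - 1) + 1 = l ∧ ∀ u < e, f u < l := by
  classical
  have ex : ∃ u, l ≤ f u := ⟨N, hN⟩
  have h1 := Nat.find_spec ex
  have h2 : Nat.find ex ≤ N := Nat.find_min' ex hN
  have h3 : ∀ u < Nat.find ex, f u < l := fun u hu => not_le.1 (Nat.find_min ex hu)
  generalize Nat.find ex = e at h1 h2 h3
  have h4 : 1 ≤ e := by
    by_contra c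
    obtain rfl : e = 0 := by omega
    omega
  have h5 := hs (e - 1) (by omega)
  have h6 := h3 (e - 1) (by omega)
  rw [show e - 1 + 1 = e by omega] at h5
  exact ⟨e, h4, h2, by omega, by omega, h3⟩

end Stage

open Stage in
theorem stageS (h1 : OneS) (h2 : Chain2S) : StageS := by
  intro k n
  obtain ⟨R, hR⟩ : ∃ R, R = n.factorial + 1 := ⟨_, rfl⟩
  refine ⟨2 * n + 3, 2 * R + 2, by omega, ?_⟩
  intro g hg V _ G A W S lev D ρ s t σ τ len β lam c r I d hnt hrn hL hWS _ hB hlam hRv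
  -- the levels
  have hc : ∀ i j, i < j → j < 2 * R + 2 → c i + g < c j := fun i j hij hj => by
    induction j, hij using Nat.le_induction with
    | base => exact hRv.gap i hj
    | succ j _ ih =>
      have a1 := ih (by omega)
      have a2 := hRv.gap j hj
      omega
  have hc' : ∀ i j, i ≤ j → j < 2 * R + 2 → c i ≤ c j := fun i j hij hj => by
    rcases hij.eq_or_lt with e | e
    · rw [e]
    · have := hc i j e hj
      omega
  have hpos : c (2 * R + 1) + g < s := hRv.pos.2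
  -- the rivers
  obtain ⟨N, hN⟩ : ∃ N : Fin r → ℕ, ∀ a, N a = (I a).hi - (I a).lo := ⟨_, fun _ => rfl⟩
  obtain ⟨rv, hrv⟩ : ∃ rv : Fin r → ℕ → Vx k, ∀ a u, rv a u = riv (I a) (d a) u :=
    ⟨_, fun _ _ => rfl⟩
  have hI := fun a : Fin r => hRv.ivs.1 a a.2
  have r1 : ∀ a, ∀ u ≤ N a, rv a u ∈ (I a).set := fun a u hu => by
    rw [hrv]
    exact riv_mem (hI a).1 (hN a ▸ hu)
  have r2 : ∀ a, ∀ u ≤ N a, rv a u ∈ Vs len := fun a u hu => by
    obtain ⟨a1, -, a2⟩ := r1 a u hu
    exact show (rv a u).2 ≤ len (rv a u).1 from a1 ▸ a2.trans (hI a).2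
  have r3 : ∀ a, ∀ u ≤ N a, ∀ x ∈ β (rv a u), x ∈ W ∧ lev x = lam (rv a u) := fun a u hu x hx => by
    have a1 := hlam _ (r2 a u hu) x hx
    have a2 := (hRv.rng a a.2 _ (r1 a u hu)).1
    have a3 : x ∈ W := by
      by_contra c
      have := a1.2 c
      omega
    exact ⟨a3, a1.1 a3⟩
  have r4 : ∀ a, ∀ u < N a, Touch G (β (rv a u)) (β (rv a (u + 1))) := fun a u hu => by
    rw [hrv, hrv]
    exact riv_touch hB.touch (hI a).2 (hN a ▸ hu)
  have r5 : ∀ a a', ∀ u ≤ N a, ∀ u' ≤ N a', rv a u = rv a' u' → a = a' ∧ u = u' :=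
    fun a a' u hu u' hu' e => by
      have a1 : a = a' := by
        by_contra c
        exact disjoint_left.1 (hRv.ivs.2 a a.2 a' a'.2 fun e' => c (Fin.ext e')) (r1 a u hu)
          (e ▸ r1 a' u' hu')
      subst a1
      rw [hrv, hrv] at e
      exact ⟨rfl, riv_inj (hN a ▸ hu) (hN a ▸ hu') e⟩
  have r6 : ∀ a, ∀ u < N a, lam (rv a (u + 1)) ≤ lam (rv a u) + 1 := fun a u hu => by
    obtain ⟨x, hx, y, hy, e⟩ := r4 a u hu
    obtain ⟨a1, a2⟩ := r3 a u hu.le x hx
    obtain ⟨a3, a4⟩ := r3 a (u + 1) hu y hy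
    have a5 := hRv.rng a a.2 _ (r1 a u hu.le)
    rcases hL.nbr x a1 (by omega) (by omega) y e with c | c
    · exact absurd c (disjoint_left.1 hL.dis a3)
    · omega
  -- the entries into the ranges
  have ex : ∀ w, w ≤ R → ∀ a, ∃ e, 1 ≤ e ∧ e ≤ N a ∧ lam (rv a e) = c (2 * w + 1) ∧
      lam (rv a (e - 1)) + 1 = c (2 * w + 1) ∧ ∀ u < e, lam (rv a u) < c (2 * w + 1) :=
    fun w hw a => by
      refine first (f := fun u => lam (rv a u)) (r6 a) ?_ ?_
      · have a1 := hRv.first a a.2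
        have a2 := hc' 0 (2 * w + 1) (by omega) (by omega)
        rw [← hrv] at a1
        exact a1.trans_le a2
      · have a1 := hRv.last a a.2
        have a2 := hc' (2 * w + 1) (2 * R + 1) (by omega) (by omega)
        rw [← hrv, ← hN, show 2 * R + 2 - 1 = 2 * R + 1 from rfl] at a1
        show c (2 * w + 1) ≤ lam (rv a (N a))
        omega
  choose! e e1 e2 e3 e4 e5 using ex
  have e6 : ∀ w ≤ R, ∀ a u, e w a ≤ u → u ≤ N a → c (2 * w) < lam (rv a u) :=
    fun w hw a u hu hu' => by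
      have a1 := hc (2 * w) (2 * w + 1) (by omega) (by omega)
      have a2 := e3 w hw a
      rcases hu.eq_or_lt with c1 | c1
      · rw [← c1]
        omega
      · have a3 := hRv.ret a a.2 (2 * w) (by omega) (e w a) u c1 (hN a ▸ hu')
        rw [← hrv, ← hrv] at a3
        exact a3 (by omega)
  have e7 : ∀ w < R, ∀ a, c (2 * w + 1) + g < lam (rv a (e (w + 1) a - 1)) := fun w hw a => by
    have a1 := e4 (w + 1) hw a
    have a2 := hc (2 * w + 1) (2 * w + 2) (by omega) (by omega)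
    have a3 := hc (2 * w + 2) (2 * (w + 1) + 1) (by omega) (by omega)
    omega
  have e8 : ∀ w < R, ∀ a, e w a < e (w + 1) a := fun w hw a => by
    by_contra c1
    have a1 := e1 (w + 1) hw a
    have a2 := e5 w hw.le a (e (w + 1) a - 1) (by omega)
    have a3 := e7 w hw a
    omega
  have e9 : ∀ w w', w ≤ w' → w' ≤ R → ∀ a, e w a ≤ e w' a := fun w w' hw hw' a => by
    induction w', hw using Nat.le_induction with
    | base => exact le_rfl
    | succ j _ ih => exact (ih (by omega)).trans (e8 j hw' a).le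
  have et : ∀ w, ∀ a, ∃ x y, w ≤ R →
      x ∈ β (rv a (e w a - 1)) ∧ y ∈ β (rv a (e w a)) ∧ G.Adj x y := fun w a => by
    by_cases hw : w ≤ R
    · have a1 := e1 w hw a
      have a2 := e2 w hw a
      obtain ⟨x, hx, y, hy, ad⟩ := r4 a (e w a - 1) (by omega)
      rw [show e w a - 1 + 1 = e w a by omega] at hy
      exact ⟨x, y, fun _ => ⟨hx, hy, ad⟩⟩
    · obtain ⟨x, -⟩ := (hB.conn _ (r2 a 0 (Nat.zero_le _))).2.1
      exact ⟨x, x, fun c => absurd c hw⟩
  choose x y hxy using et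
  -- the stages
  have st : ∀ w, w < R → ∃ (θ : Equiv.Perm (Fin r)) (T : Fin r → Set V),
      Pairwise (Disjoint on T) ∧ ∀ a, Conn G (T a) ∧ y w a ∈ T a ∧ x (w + 1) (θ a) ∈ T a ∧
        (∀ z ∈ T a, z ∈ Lv W lev (c (2 * w + 1)) (c (2 * w + 1) + g + 1) ∨
          ∃ a' u, e w a' ≤ u ∧ u < e (w + 1) a' ∧ z ∈ β (rv a' u)) ∧
        ∀ z ∈ T a, lev z = c (2 * w + 1) + n + 1 →
          ∃ i < t, z ∈ ρ i (c (2 * w + 1) + n + 1) ∧ ρ i (c (2 * w + 1) + n + 1) ⊆ T a := by
    intro w hw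
    have a1 := fun a => e8 w hw a
    have a2 := fun a => e2 (w + 1) hw a
    have a3 : ∀ a, ∀ u ≤ e (w + 1) a - e w a - 1, e w a + u ≤ N a := fun a u hu => by
      have := a1 a
      have := a2 a
      omega
    have a4 : ∀ a, e w a + (e (w + 1) a - e w a - 1) = e (w + 1) a - 1 := fun a => by
      have := a1 a
      omega
    have a5 := hc 0 (2 * w + 1) (by omega) (by omega)
    have a6 := hc' (2 * w + 1) (2 * R + 1) (by omega) (by omega)
    obtain ⟨θ, T, b1, b2⟩ := h1 V (Fin r) G A W lev D ρ s t n (c (2 * w + 1)) (c (2 * w + 1) + g)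
      (fun a u => β (rv a (e w a + u))) (fun a u => lam (rv a (e w a + u)))
      (fun a => e (w + 1) a - e w a - 1) (y w) (x (w + 1)) (by simpa using hrn.le) hnt hL
      (by omega) (by omega) (by omega)
      (fun a u hu => ⟨(hB.conn _ (r2 a _ (a3 a u hu))).2,
        (hRv.rng a a.2 _ (r1 a _ (a3 a u hu))).1, (hRv.rng a a.2 _ (r1 a _ (a3 a u hu))).2,
        r3 a _ (a3 a u hu)⟩)
      (fun a u hu => r4 a _ (a3 a (u + 1) hu))
      (fun a a' u hu u' hu' ne => hB.dis _ (r2 a _ (a3 a u hu)) _ (r2 a' _ (a3 a' u' hu'))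
        fun c1 => ne (by
          obtain ⟨rfl, c2⟩ := r5 a a' _ (a3 a u hu) _ (a3 a' u' hu') c1
          rw [Nat.add_left_cancel c2]))
      (fun a => ⟨e3 w hw.le a, by simpa only [a4] using e7 w hw a, (hxy w a hw.le).2.1,
        by simpa only [a4] using (hxy (w + 1) a hw).1⟩)
    refine ⟨θ, T, b1, fun a => ?_⟩
    obtain ⟨b3, b4, b5, b6, b7⟩ := b2 a
    refine ⟨b3, b4, b5, fun z hz => (b6 z hz).imp_right ?_, b7⟩
    rintro ⟨a', u, hu, hz⟩
    have := a1 a'
    exact ⟨a', _, Nat.le_add_right _ _, by omega, hz⟩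
  choose! θ T t1 t2 using st
  have t3 : ∀ w < R, ∀ a, ∀ z ∈ T w a, z ∈ W ∧ c (2 * w) < lev z := fun w hw a z hz => by
    rcases (t2 w hw a).2.2.2.1 z hz with c1 | ⟨a', u, c1, c2, c3⟩
    · have a1 := hc (2 * w) (2 * w + 1) (by omega) (by omega)
      have a2 := c1.2.1
      exact ⟨c1.1, by omega⟩
    · have a1 : u ≤ N a' := c2.le.trans (e2 (w + 1) hw a')
      obtain ⟨a2, a3⟩ := r3 a' u a1 z c3
      exact ⟨a2, a3 ▸ e6 w hw.le a' u c1 a1⟩
  have t4 : ∀ w w', w < w' → w' < R → ∀ a a', Disjoint (T w a) (T w' a') :=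
    fun w w' hw hw' a a' => disjoint_left.2 fun z hz hz' => by
      have a1 := (t3 w' hw' a' z hz').2
      rcases (t2 w (hw.trans hw') a).2.2.2.1 z hz with c1 | ⟨b, u, c1, c2, c3⟩
      · have a2 := hc (2 * w + 1) (2 * w') (by omega) (by omega)
        have a3 := c1.2.2
        omega
      · have a2 : u ≤ N b := c2.le.trans (e2 (w + 1) (by omega) b)
        rcases (t2 w' hw' a').2.2.2.1 z hz' with c4 | ⟨b', u', c4, c5, c6⟩
        · have a3 := (r3 b u a2 z c3).2
          have a4 := e5 (w + 1) (by omega) b u c2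
          have a5 := hc' (2 * (w + 1) + 1) (2 * w' + 1) (by omega) (by omega)
          have a6 := c4.2.1
          omega
        · have a3 : u' ≤ N b' := c5.le.trans (e2 (w' + 1) hw' b')
          refine disjoint_left.1 (hB.dis _ (r2 b u a2) _ (r2 b' u' a3) fun c7 => ?_) c3 c6
          obtain ⟨rfl, rfl⟩ := r5 b b' u a2 u' a3 c7
          have := e9 (w + 1) w' hw hw'.le b
          omega
  obtain ⟨w1, w2, hw, hw2, Y, y1, y2⟩ := h2 (Fin r) R
    (by
      rw [Nat.card_fin, hR]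
      exact Nat.lt_succ_of_le (Nat.factorial_le hrn.le))
    V G y (fun w => x (w + 1)) θ T
    (fun w hw a => ⟨(t2 w hw a).1, (t2 w hw a).2.1, (t2 w hw a).2.2.1⟩)
    (fun w hw w' hw' a a' ne => by
      rcases lt_trichotomy w w' with c1 | c1 | c1
      · exact t4 w w' c1 hw' a a'
      · subst c1
        exact t1 w hw fun c2 => ne (by rw [c2])
      · exact (t4 w' w c1 hw a' a).symm)
    (fun w hw a => (hxy (w + 1) a hw.le).2.2)
  have hw1 : w1 ≤ R := by omega
  -- the replaced segments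
  obtain ⟨P, hP⟩ : ∃ P : Fin r → Set (Vx k),
      ∀ a v, v ∈ P a ↔ ∃ u, e w1 a ≤ u ∧ u < e (w2 + 1) a ∧ rv a u = v :=
    ⟨fun a => {v | ∃ u, e w1 a ≤ u ∧ u < e (w2 + 1) a ∧ rv a u = v}, fun _ _ => Iff.rfl⟩
  have p1 : ∀ a a', ∀ u ≤ N a, rv a u ∈ P a' → a = a' ∧ e w1 a ≤ u ∧ u < e (w2 + 1) a :=
    fun a a' u hu h => by
      obtain ⟨u', c1, c2, c3⟩ := (hP _ _).1 h
      obtain ⟨rfl, rfl⟩ := r5 a' a u' (c2.le.trans (e2 (w2 + 1) hw2 a')) u hu c3
      exact ⟨rfl, c1, c2⟩
  have p2 : ∀ v ∈ Vs len, (∀ a, v ∉ P a) → ∀ z ∈ β v, ∀ w, w1 ≤ w → w ≤ w2 →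
      z ∉ Lv W lev (c (2 * w + 1)) (c (2 * w + 1) + g + 1) := by
    rintro v hv hk z hz w c1 c2 ⟨c3, c4, c5⟩
    rw [(hlam v hv z hz).1 c3] at c4 c5
    have a1 := hc 0 (2 * w + 1) (by omega) (by omega)
    have a2 := hc (2 * w + 1) (2 * R + 1) (by omega) (by omega)
    obtain ⟨a, ha, c6⟩ := hRv.only v hv (by omega) (show lam v < c (2 * R + 1) by omega)
    obtain ⟨u, hu, c7⟩ := riv_surj (d := d a) c6
    have c8 : rv ⟨a, ha⟩ u = v := (hrv _ _).trans c7
    have hu' : u ≤ N ⟨a, ha⟩ := (hN ⟨a, ha⟩).symm ▸ hu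
    generalize (⟨a, ha⟩ : Fin r) = b at c8 hu'
    subst c8
    by_cases c9 : u < e w1 b
    · have a3 := e5 w1 hw1 b u c9
      have a4 := hc' (2 * w1 + 1) (2 * w + 1) (by omega) (by omega)
      omega
    · have a3 := e6 (w2 + 1) hw2 b u
        (not_lt.1 fun c0 => hk b ((hP _ _).2 ⟨u, not_lt.1 c9, c0, rfl⟩)) hu'
      have a4 := hc (2 * w + 1) (2 * (w2 + 1)) (by omega) (by omega)
      omega
  obtain ⟨Q, q1, q2⟩ := repl hB P Y (fun a => (I a).p)
    (fun a v hv => by
      obtain ⟨u, c1, c2, rfl⟩ := (hP _ _).1 hv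
      have a1 := e1 w1 hw1 a
      have a2 := e2 (w2 + 1) hw2 a
      have a3 := hN a
      obtain ⟨a4, a5, a6⟩ := riv_inner (I := I a) (d := d a) (u := u) (by omega) (by omega)
      rw [← hrv] at a4 a5 a6
      exact ⟨a4, by omega, a4 ▸ a6.trans_le (hI a).2⟩)
    (fun a a' v hv hv' => by
      obtain ⟨u, -, c2, rfl⟩ := (hP _ _).1 hv
      exact (p1 a a' u (c2.le.trans (e2 (w2 + 1) hw2 a)) hv').1)
    (fun a => ⟨fun z hz => by
      obtain ⟨w, -, c2, b, c3, -⟩ := (y2 a).2.2.2 z hz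
      exact hWS (t3 w (by omega) b z c3).1, (y2 a).1⟩)
    y1
    (fun v hv hk a => disjoint_left.2 fun z hz hz' => by
      obtain ⟨w, c1, c2, b, c3, -⟩ := (y2 a).2.2.2 z hz'
      rcases (t2 w (by omega) b).2.2.2.1 z c3 with c4 | ⟨b', u, c4, c5, c6⟩
      · exact p2 v hv hk z hz w c1 c2 c4
      · have a1 := e9 w1 w c1 (by omega) b'
        have a2 := e9 (w + 1) (w2 + 1) (by omega) hw2 b'
        have a3 := e2 (w2 + 1) hw2 b'
        refine disjoint_left.1 (hB.dis v hv _ (r2 b' u (by omega)) fun c7 => ?_) hz c6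
        exact hk b' ((hP _ _).2 ⟨u, by omega, by omega, c7.symm⟩))
    (fun a v hv v' c1 c2 c3 => by
      obtain ⟨u, c4, c5, rfl⟩ := (hP _ _).1 hv
      have a1 := e1 w1 hw1 a
      have a2 := e2 (w2 + 1) hw2 a
      have a3 := hN a
      rw [hrv] at c1 c2
      have a4 := riv_nb (by omega) (by omega) c1 c2
      rw [← hrv, ← hrv] at a4
      rcases a4 with rfl | rfl
      · have a5 : u + 1 = e (w2 + 1) a := by
          by_contra c6
          exact c3 ((hP _ _).2 ⟨u + 1, by omega, by omega, rfl⟩)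
        refine ⟨fun a' c6 => ?_, ?_⟩
        · have := p1 a a' (u + 1) (by omega) c6
          omega
        · obtain ⟨-, b1, b2⟩ := hxy (w2 + 1) a hw2
          rw [a5]
          exact ⟨_, (y2 a).2.2.1, _, b1, b2⟩
      · have a5 : u = e w1 a := by
          by_contra c6
          exact c3 ((hP _ _).2 ⟨u - 1, by omega, by omega, rfl⟩)
        refine ⟨fun a' c6 => ?_, ?_⟩
        · have := p1 a a' (u - 1) (by omega) c6
          omega
        · obtain ⟨b1, -, b2⟩ := hxy w1 a hw1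
          rw [a5]
          exact ⟨_, (y2 a).2.1, _, b1, b2.symm⟩)
  have f1 := hc' (2 * w1 + 1) (2 * R + 1) (by omega) (by omega)
  refine ⟨c (2 * w1 + 1) + n + 1, Q, by omega, by omega, q1, fun p z hz c1 c2 => ?_⟩
  rcases q2 p z hz with ⟨v, hv, hk, c3⟩ | ⟨a, c3, c4⟩
  · exact absurd ⟨c1, by omega, by omega⟩ (p2 v hv hk z c3 w1 le_rfl hw)
  · obtain ⟨w, c5, c6, b, c7, c8⟩ := (y2 a).2.2.2 z c3
    obtain rfl : w1 = w := by
      by_contra c9
      have a1 := (t3 w (by omega) b z c7).2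
      have a2 := hc (2 * w1 + 1) (2 * w) (by omega) (by omega)
      omega
    obtain ⟨i, hi, c9, c0⟩ := (t2 w1 (by omega) b).2.2.2.2 z c7 c2
    exact ⟨i, hi, c9, c0.trans (c8.trans c4)⟩

end Pool.Agent.MP_9d78a0_co.fb

end MrgPart0

-- ======== part 1: formerly Pool.Agent.MP_9d78a0_co.st.TRb
section MrgPart1

/-! Translation of drawings to maps, part b: words of corners and the number of faces. -/

set_option autoImplicit false
set_option linter.unusedSectionVars false

namespace Pool.Agent.MP_9d78a0_co.st.tr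

open Function

variable {D V : Type} [DecidableEq D]

/-- a chain of corners from the class `s` to the class `e` -/
def Ch (sg : D → ℕ) : ℕ → List (D × D) → ℕ → Prop
  | s, [], e => s = e
  | s, x :: L, e => s = sg x.1 ∧ Ch sg (sg x.2) L e

theorem ch_append {sg : D → ℕ} (A B : List (D × D)) (s e : ℕ) :
    Ch sg s (A ++ B) e ↔ ∃ m, Ch sg s A m ∧ Ch sg m B e := by
  induction A generalizing s with
  | nil => simp [Ch]
  | cons x A ih =>
    simp only [List.cons_append, Ch, ih]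
    constructor
    · rintro ⟨a, m, b, c⟩; exact ⟨m, ⟨a, b⟩, c⟩
    · rintro ⟨m, ⟨a, b⟩, c⟩; exact ⟨a, m, b, c⟩

/-- the word read backwards -/
def rv (A : List (D × D)) : List (D × D) := A.reverse.map Prod.swap

theorem ch_rv {sg : D → ℕ} (A : List (D × D)) (s e : ℕ) (h : Ch sg s A e) : Ch sg e (rv A) s := by
  induction A generalizing s with
  | nil => exact Eq.symm h
  | cons x A ih =>
    have := ih _ h.2
    unfold rv at this ⊢
    rw [List.reverse_cons, List.map_append, ch_append]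
    exact ⟨_, this, rfl, h.1.symm⟩

theorem ch_comp {sg sg' : D → ℕ} (f : ℕ → ℕ) (A : List (D × D)) (s e : ℕ) (h : Ch sg s A e)
    (hf : ∀ x ∈ A, sg' x.1 = f (sg x.1) ∧ sg' x.2 = f (sg x.2)) : Ch sg' (f s) A (f e) := by
  induction A generalizing s with
  | nil => exact congrArg f h
  | cons x A ih =>
    have h1 := hf x (by simp)
    refine ⟨by rw [h1.1, h.1], ?_⟩
    rw [h1.2]
    exact ih _ h.2 fun y hy => hf y (by simp [hy])

/-- the number of faces lost by cutting at the corners of the words -/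
def ex (W : List (List (D × D))) : ℕ := (W.map fun w => w.length - 1).sum

/-- the state: closed corners `M`, words `W`, at least `n` faces -/
def ST (α γ : D → D) (l : D → V) (S : Finset D) (sd : D → Prop) (W : List (List (D × D)))
    (Z : Set V) (n : ℤ) : Prop :=
  ∃ (M : Multiset (D × D)) (sg : D → ℕ), G γ l S (W.flatten + M) Z sd ∧ (∀ d, sg (α d) = sg d) ∧
    (∀ x ∈ M, sg x.1 = sg x.2) ∧ (∀ w ∈ W, ∃ s, Ch sg s w s) ∧ n + ex W ≤ (S.image sg).card

namespace ST
variable {α γ : D → D} {l : D → V} {S : Finset D} {sd : D → Prop} {Z : Set V} {n : ℤ}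
  {W W' : List (List (D × D))}

theorem perm (hp : W.Perm W') (h : ST α γ l S sd W Z n) : ST α γ l S sd W' Z n := by
  obtain ⟨M, sg, g, ha, hm, hw, hn⟩ := h
  refine ⟨M, sg, ?_, ha, hm, fun w hw' => hw w (hp.mem_iff.2 hw'), ?_⟩
  · rwa [← Multiset.coe_eq_coe.2 hp.flatten]
  · have : ex W' = ex W := (hp.map _).sum_eq.symm
    rwa [this]

theorem rot {A B : List (D × D)} (h : ST α γ l S sd ((A ++ B) :: W) Z n) :
    ST α γ l S sd ((B ++ A) :: W) Z n := by
  obtain ⟨M, sg, g, ha, hm, hw, hn⟩ := h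
  refine ⟨M, sg, ?_, ha, hm, ?_, ?_⟩
  · convert g using 2
    rw [Multiset.coe_eq_coe]
    exact List.perm_append_comm.append_right _
  · intro w hw'
    rcases List.mem_cons.1 hw' with rfl | hw'
    · obtain ⟨s, hs⟩ := hw (A ++ B) (by simp)
      obtain ⟨m, a, b⟩ := (ch_append _ _ _ _).1 hs
      exact ⟨m, (ch_append _ _ _ _).2 ⟨s, b, a⟩⟩
    · exact hw w (by simp [hw'])
  · simpa [ex, add_comm] using hn

theorem rev {A : List (D × D)} (h : ST α γ l S sd (A :: W) Z n) :
    ST α γ l S sd (rv A :: W) Z n := by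
  obtain ⟨M, sg, g, ha, hm, hw, hn⟩ := h
  refine ⟨M, sg, ?_, ha, hm, ?_, ?_⟩
  · rw [List.flatten_cons, ← Multiset.coe_add, add_assoc] at g ⊢
    convert g.flip using 2
    simp [rv]
  · intro w hw'
    rcases List.mem_cons.1 hw' with rfl | hw'
    · obtain ⟨s, hs⟩ := hw A (by simp)
      exact ⟨s, ch_rv _ _ _ hs⟩
    · exact hw w (by simp [hw'])
  · simpa [ex, rv] using hn

theorem drop {x : D × D} {U : List (D × D)} (h : ST α γ l S sd ((x :: U) :: W) Z n) :
    ST α γ l S sd (U :: W) Z n := by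
  obtain ⟨M, sg, g, ha, hm, hw, hn⟩ := h
  obtain ⟨s, hs1, hs2⟩ := hw (x :: U) (by simp)
  let f : ℕ → ℕ := fun t => if t = sg x.1 then sg x.2 else t
  have f1 : f (sg x.1) = sg x.2 := by simp [f]
  have f2 : f (sg x.2) = sg x.2 := by simp [f]
  refine ⟨x ::ₘ M, f ∘ sg, ?_, fun d => by simp [ha], ?_, ?_, ?_⟩
  · convert g using 1
    simp only [List.flatten_cons, List.cons_append, ← Multiset.cons_coe, Multiset.cons_add,
      Multiset.add_cons]
  · intro y hy
    rcases Multiset.mem_cons.1 hy with rfl | hy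
    · simp [f1, f2]
    · simp [hm y hy]
  · intro w hw'
    rcases List.mem_cons.1 hw' with rfl | hw'
    · have := ch_comp (sg' := f ∘ sg) f w _ _ hs2 fun _ _ => ⟨rfl, rfl⟩
      rw [hs1, f1, f2] at this
      exact ⟨_, this⟩
    · obtain ⟨t, ht⟩ := hw w (by simp [hw'])
      exact ⟨_, ch_comp f w _ _ ht fun _ _ => ⟨rfl, rfl⟩⟩
  · rw [← Finset.image_image]
    simp only [ex, List.map_cons, List.sum_cons, List.length_cons, add_tsub_cancel_right] at hn ⊢
    rcases U with _ | ⟨y, U⟩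
    · have e : sg x.2 = sg x.1 := Eq.trans hs2 hs1
      have : f = id := by
        funext t
        simp only [f, id]
        split_ifs with h
        · rw [h, e]
        · rfl
      rw [this, Finset.image_id]
      simpa using hn
    · have h1 : (S.image sg).erase (sg x.1) ⊆ (S.image sg).image f := by
        intro t ht
        rw [Finset.mem_erase] at ht
        exact Finset.mem_image.2 ⟨t, ht.2, by simp [f, ht.1]⟩
      have h2 := Finset.card_le_card h1
      have h3 := Finset.pred_card_le_card_erase (s := S.image sg) (a := sg x.1)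
      simp only [List.length_cons, add_tsub_cancel_right] at hn ⊢
      push_cast at hn ⊢
      omega

theorem forget {A : List (D × D)} (h : ST α γ l S sd (A :: W) Z n) : ST α γ l S sd W Z n := by
  induction A with
  | nil =>
    obtain ⟨M, sg, g, ha, hm, hw, hn⟩ := h
    exact ⟨M, sg, by simpa using g, ha, hm, fun w hw' => hw w (by simp [hw']), by simpa [ex] using hn⟩
  | cons x A ih => exact ih h.drop

theorem mono {m : ℤ} (h : ST α γ l S sd W Z n) (hm : m ≤ n) : ST α γ l S sd W Z m := by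
  obtain ⟨M, sg, g, ha, hm', hw, hn⟩ := h
  exact ⟨M, sg, g, ha, hm', hw, by omega⟩

/-- two corners of different words -/
theorem m1 (A : Amb γ l S sd) {x y : D × D} {U U' : List (D × D)}
    (h : ST α γ l S sd ((x :: U) :: (y :: U') :: W) Z n) (hl : l x.1 = l y.1) (hz : l x.1 ∈ Z)
    (hs : ¬ (sd x.1 ↔ sd y.1)) :
    ST α γ l S sd (((y.1, x.2) :: U ++ (x.1, y.2) :: U') :: W) (Z \ {l x.1}) (n - 1) := by
  obtain ⟨M, sg, g, ha, hm, hw, hn⟩ := h
  refine ⟨M, sg, ?_, ha, hm, ?_, ?_⟩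
  · have g' : G γ l S ((x.1, x.2) ::ₘ (y.1, y.2) ::ₘ (U + U' + W.flatten + M)) Z sd := by
      convert g using 1
      simp only [List.flatten_cons, List.cons_append, ← Multiset.cons_coe, ← Multiset.coe_add,
        ← Multiset.singleton_add]
      abel
    convert g'.merge A hl hz hs using 1
    simp only [List.flatten_cons, List.cons_append, ← Multiset.cons_coe, ← Multiset.coe_add,
      ← Multiset.singleton_add]
    abel
  · intro w hw'
    rcases List.mem_cons.1 hw' with rfl | hw'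
    · obtain ⟨s, a1, a2⟩ := hw (x :: U) (by simp)
      obtain ⟨t, b1, b2⟩ := hw (y :: U') (by simp)
      exact ⟨t, b1, (ch_append _ _ _ _).2 ⟨s, a2, a1, b2⟩⟩
    · exact hw w (by simp [hw'])
  · simp only [ex, List.map_cons, List.sum_cons, List.length_cons, List.length_append,
      List.cons_append] at hn ⊢
    omega

/-- two corners of one word -/
theorem m2 (A : Amb γ l S sd) {x y : D × D} {U U' : List (D × D)}
    (h : ST α γ l S sd ((x :: U ++ y :: U') :: W) Z n) (hl : l x.1 = l y.1) (hz : l x.1 ∈ Z)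
    (hs : ¬ (sd x.1 ↔ sd y.1)) :
    ST α γ l S sd (((y.1, x.2) :: U) :: ((x.1, y.2) :: U') :: W) (Z \ {l x.1}) (n + 1) := by
  obtain ⟨M, sg, g, ha, hm, hw, hn⟩ := h
  refine ⟨M, sg, ?_, ha, hm, ?_, ?_⟩
  · have g' : G γ l S ((x.1, x.2) ::ₘ (y.1, y.2) ::ₘ (U + U' + W.flatten + M)) Z sd := by
      convert g using 1
      simp only [List.flatten_cons, List.cons_append, ← Multiset.cons_coe, ← Multiset.coe_add,
        ← Multiset.singleton_add]
      abel
    convert g'.merge A hl hz hs using 1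
    simp only [List.flatten_cons, List.cons_append, ← Multiset.cons_coe, ← Multiset.coe_add,
      ← Multiset.singleton_add]
    abel
  · obtain ⟨s, a1, a2⟩ := hw (x :: U ++ y :: U') (by simp)
    obtain ⟨m, b1, b2, b3⟩ := (ch_append _ _ _ _).1 a2
    intro w hw'
    simp only [List.mem_cons] at hw'
    rcases hw' with rfl | rfl | hw'
    · exact ⟨m, b2, b1⟩
    · exact ⟨s, a1, b3⟩
    · exact hw w (by simp [hw'])
  · simp only [ex, List.map_cons, List.sum_cons, List.length_cons, List.length_append,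
      List.cons_append] at hn ⊢
    omega

/-- two corners of one word, with a twist -/
theorem m3 (A : Amb γ l S sd) {x y : D × D} {U U' : List (D × D)}
    (h : ST α γ l S sd ((x :: U ++ y :: U') :: W) Z n) (hl : l x.1 = l y.1) (hz : l x.1 ∈ Z)
    (hs : ¬ (sd x.1 ↔ sd y.1)) :
    ST α γ l S sd (((y.2, x.2) :: U ++ (y.1, x.1) :: rv U') :: W) (Z \ {l x.1}) n := by
  obtain ⟨M, sg, g, ha, hm, hw, hn⟩ := h
  refine ⟨M, sg, ?_, ha, hm, ?_, ?_⟩
  · have g0 : G γ l S ({y} + ({x} + U + U' + W.flatten + M)) Z sd := by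
      convert g using 1
      simp only [List.flatten_cons, List.cons_append, ← Multiset.cons_coe, ← Multiset.coe_add,
        ← Multiset.singleton_add]
      abel
    have ly : l y.1 = l y.2 := g0.lab y (by simp)
    have sy : sd y.1 ↔ sd y.2 := g0.sep y (by simp) (hl ▸ hz)
    have g' : G γ l S ((x.1, x.2) ::ₘ (y.2, y.1) ::ₘ (U + U' + W.flatten + M)) Z sd := by
      convert g0.flip using 1
      simp only [Multiset.map_singleton, ← Multiset.singleton_add, Prod.swap]
      abel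
    have g1 := g'.merge A (hl.trans ly) hz (by tauto)
    have g2 : G γ l S (({(x.1, y.1)} + U') + ({(y.2, x.2)} + U + W.flatten + M)) (Z \ {l x.1}) sd := by
      convert g1 using 1
      simp only [← Multiset.singleton_add]
      abel
    convert g2.flip using 1
    simp only [List.flatten_cons, List.cons_append, ← Multiset.cons_coe, ← Multiset.coe_add,
      ← Multiset.singleton_add, Multiset.map_add, Multiset.map_singleton, Prod.swap_prod_mk, rv,
      ← Multiset.map_coe, Multiset.coe_reverse]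
    abel
  · obtain ⟨s, a1, a2⟩ := hw (x :: U ++ y :: U') (by simp)
    obtain ⟨m, b1, b2, b3⟩ := (ch_append _ _ _ _).1 a2
    intro w hw'
    rcases List.mem_cons.1 hw' with rfl | hw'
    · refine ⟨sg y.2, rfl, (ch_append _ _ _ _).2 ⟨m, b1, b2, ?_⟩⟩
      rw [← a1]
      exact ch_rv _ _ _ b3
    · exact hw w (by simp [hw'])
  · simpa [ex, rv] using hn

theorem union {S1 S2 : Finset D} {s1 s2 : D → Prop} {W1 W2 : List (List (D × D))} {n1 n2 : ℤ}
    (h1 : ST α γ l S1 s1 W1 ∅ n1) (h2 : ST α γ l S2 s2 W2 ∅ n2) (a1 : ∀ d ∈ S1, sd d)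
    (a2 : ∀ d ∈ S2, ¬ sd d) (aa : ∀ d, sd (α d) ↔ sd d)
    (hz : ∀ d ∈ S1, ∀ e ∈ S2, l d = l e → l d ∈ Z) :
    ST α γ l (S1 ∪ S2) sd (W1 ++ W2) Z (n1 + n2) := by
  classical
  obtain ⟨M1, g1, G1, ha1, hm1, hw1, hn1⟩ := h1
  obtain ⟨M2, g2, G2, ha2, hm2, hw2, hn2⟩ := h2
  let sg : D → ℕ := fun d => if sd d then 2 * g1 d else 2 * g2 d + 1
  have e1 : ∀ d ∈ S1, sg d = 2 * g1 d := fun d hd => by simp [sg, a1 d hd]
  have e2 : ∀ d ∈ S2, sg d = 2 * g2 d + 1 := fun d hd => by simp [sg, a2 d hd]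
  refine ⟨M1 + M2, sg, ?_, fun d => by simp [sg, aa, ha1, ha2], ?_, ?_, ?_⟩
  · convert G1.union G2 a1 a2 hz using 1
    rw [List.flatten_append, ← Multiset.coe_add]
    abel
  · intro x hx
    rcases Multiset.mem_add.1 hx with hx | hx
    · have hx' := Multiset.mem_add.2 (Or.inr hx : x ∈ (W1.flatten : Multiset _) ∨ _)
      rw [e1 _ (G1.pm.fst hx'), e1 _ (G1.pm.snd hx'), hm1 x hx]
    · have hx' := Multiset.mem_add.2 (Or.inr hx : x ∈ (W2.flatten : Multiset _) ∨ _)
      rw [e2 _ (G2.pm.fst hx'), e2 _ (G2.pm.snd hx'), hm2 x hx]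
  · intro w hw
    rcases List.mem_append.1 hw with hw | hw
    · obtain ⟨s, hs⟩ := hw1 w hw
      refine ⟨_, ch_comp (fun t => 2 * t) w _ _ hs fun x hx => ?_⟩
      have hx' : x ∈ (W1.flatten : Multiset _) + M1 :=
        Multiset.mem_add.2 (Or.inl (List.mem_flatten.2 ⟨w, hw, hx⟩))
      exact ⟨e1 _ (G1.pm.fst hx'), e1 _ (G1.pm.snd hx')⟩
    · obtain ⟨s, hs⟩ := hw2 w hw
      refine ⟨_, ch_comp (fun t => 2 * t + 1) w _ _ hs fun x hx => ?_⟩
      have hx' : x ∈ (W2.flatten : Multiset _) + M2 :=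
        Multiset.mem_add.2 (Or.inl (List.mem_flatten.2 ⟨w, hw, hx⟩))
      exact ⟨e2 _ (G2.pm.fst hx'), e2 _ (G2.pm.snd hx')⟩
  · have i1 : S1.image sg = (S1.image g1).image fun t => 2 * t := by
      rw [Finset.image_image]; exact Finset.image_congr fun d hd => e1 d hd
    have i2 : S2.image sg = (S2.image g2).image fun t => 2 * t + 1 := by
      rw [Finset.image_image]; exact Finset.image_congr fun d hd => e2 d hd
    rw [Finset.image_union, i1, i2, Finset.card_union_of_disjoint,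
      Finset.card_image_of_injective (f := fun t => 2 * t) _ (fun a b h => by simpa using h),
      Finset.card_image_of_injective (f := fun t => 2 * t + 1) _ (fun a b h => by simpa using h)]
    · simp only [ex, List.map_append, List.sum_append] at hn1 hn2 ⊢
      push_cast at hn1 hn2 ⊢
      omega
    · rw [Finset.disjoint_left]
      intro t h1 h2
      obtain ⟨a, _, rfl⟩ := Finset.mem_image.1 h1
      obtain ⟨b, _, h⟩ := Finset.mem_image.1 h2
      omega

end ST

end Pool.Agent.MP_9d78a0_co.st.tr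

end MrgPart1

-- ======== part 2: formerly Pool.Agent.MP_9d78a0_co.st.TRc
section MrgPart2

/-! Translation of drawings to maps, part c: gluing along a segment. -/

set_option autoImplicit false
set_option linter.unusedSectionVars false

namespace Pool.Agent.MP_9d78a0_co.st.tr

open Function

variable {D V : Type} [DecidableEq D]

/-- the letters of a list of corners -/
def lw (l : D → V) (A : List (D × D)) : List V := A.map fun x => l x.1

@[simp] theorem lw_nil (l : D → V) : lw l [] = [] := rfl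
@[simp] theorem lw_cons (l : D → V) (x : D × D) (A : List (D × D)) :
    lw l (x :: A) = l x.1 :: lw l A := rfl
@[simp] theorem lw_append (l : D → V) (A B : List (D × D)) : lw l (A ++ B) = lw l A ++ lw l B :=
  List.map_append
theorem lw_reverse (l : D → V) (A : List (D × D)) : lw l A.reverse = (lw l A).reverse :=
  List.map_reverse

theorem zs (Z : Set V) (y : V) (Y : List V) :
    (Z \ {y}) \ {v | v ∈ Y} = Z \ {v | v ∈ y :: Y} := by
  ext v
  simp only [Set.mem_sdiff, Set.mem_singleton_iff, Set.mem_ofPred_eq, List.mem_cons, not_or, and_assoc]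

theorem zm {Z : Set V} {y : V} {Y : List V} (hY : (y :: Y).Nodup) (hZ : ∀ v ∈ y :: Y, v ∈ Z) :
    ∀ v ∈ Y, v ∈ Z \ {y} := fun v hv =>
  ⟨hZ v (by simp [hv]), fun e => (List.nodup_cons.1 hY).1 ((show v = y from e) ▸ hv)⟩

namespace ST
variable {α γ : D → D} {l : D → V} {S : Finset D} {sd : D → Prop} {Z : Set V} {n : ℤ}
  {W : List (List (D × D))}

theorem mem (h : ST α γ l S sd W Z n) {w : List (D × D)} (hw : w ∈ W) {x : D × D} (hx : x ∈ w) :
    x.1 ∈ S ∧ x.2 ∈ S ∧ l x.1 = l x.2 ∧ (l x.1 ∈ Z → (sd x.1 ↔ sd x.2)) := by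
  obtain ⟨M, sg, g, -⟩ := h
  have hx' : x ∈ (W.flatten : Multiset _) + M :=
    Multiset.mem_add.2 (Or.inl (List.mem_flatten.2 ⟨w, hw, hx⟩))
  exact ⟨g.pm.fst hx', g.pm.snd hx', g.lab x hx', g.sep x hx'⟩

theorem lw_rv (h : ST α γ l S sd W Z n) {w : List (D × D)} (hw : w ∈ W) {A : List (D × D)}
    (hA : ∀ x ∈ A, x ∈ w) : lw l (rv A) = (lw l A).reverse := by
  unfold rv lw
  rw [List.map_map, ← List.map_reverse]
  apply List.map_congr_left
  intro x hx
  exact (h.mem hw (hA x (List.mem_reverse.1 hx))).2.2.1.symm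

theorem zip (Am : Amb γ l S sd) (Y : List V) {z : D × D} {A A' R : List (D × D)}
    (h : ST α γ l S sd ((z :: A ++ R ++ A'.reverse) :: W) Z n) (hA : lw l A = Y) (hA' : lw l A' = Y)
    (hY : Y.Nodup) (hZ : ∀ y ∈ Y, y ∈ Z) (hs : ∀ x ∈ A, ∀ y ∈ A', ¬ (sd x.1 ↔ sd y.1)) :
    ∃ z', l z'.1 = (l z.1 :: Y).getLast (by simp) ∧
      ST α γ l S sd ((z' :: R) :: W) (Z \ {y | y ∈ Y}) (n + Y.length) := by
  induction Y generalizing z A A' Z n with
  | nil =>
    obtain rfl : A = [] := List.map_eq_nil_iff.1 hA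
    obtain rfl : A' = [] := List.map_eq_nil_iff.1 hA'
    exact ⟨z, rfl, by simpa using h⟩
  | cons y Y ih =>
    obtain ⟨a, A, rfl, ha, hA⟩ := List.map_eq_cons_iff.1 hA
    obtain ⟨a', A', rfl, ha', hA'⟩ := List.map_eq_cons_iff.1 hA'
    have h1 : ST α γ l S sd ((a' :: [z] ++ a :: (A ++ R ++ A'.reverse)) :: W) Z n := by
      have := rot (A := z :: a :: (A ++ R ++ A'.reverse)) (B := [a']) (by simpa using h)
      simpa using this
    have h2 := (h1.m2 Am (ha'.trans ha.symm) (ha' ▸ hZ y (by simp))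
      (fun e => hs a (by simp) a' (by simp) e.symm)).forget
    rw [ha'] at h2
    obtain ⟨z', e, h3⟩ := ih (z := (a'.1, a.2)) (A := A) (A' := A') (by simpa using h2) hA hA' hY.of_cons
      (zm hY hZ)
      (fun x hx v hv => hs x (by simp [hx]) v (by simp [hv]))
    refine ⟨z', ?_, ?_⟩
    · rw [e]; simp [ha']
    · rw [zs] at h3
      exact h3.mono (by simp only [List.length_cons]; push_cast; omega)

/-- gluing two words along a segment -/
theorem glue1 (Am : Amb γ l S sd) (y : V) (Y : List V) {A A' U U' : List (D × D)}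
    (h : ST α γ l S sd ((A ++ U) :: (A' ++ U') :: W) Z n) (hA : lw l A = y :: Y)
    (hA' : lw l A' = (y :: Y).reverse) (hY : (y :: Y).Nodup) (hZ : ∀ v ∈ y :: Y, v ∈ Z)
    (hs : ∀ x ∈ A, ∀ y ∈ A', ¬ (sd x.1 ↔ sd y.1)) :
    ∃ z z', l z.1 = (y :: Y).getLast (by simp) ∧ l z'.1 = y ∧
      ST α γ l S sd ((z :: U ++ z' :: U') :: W) (Z \ {v | v ∈ y :: Y}) (n + Y.length - 1) := by
  obtain ⟨a, A, rfl, ha, hA⟩ := List.map_eq_cons_iff.1 hA
  have hB0 : lw l A'.reverse = y :: Y := by rw [lw_reverse, hA', List.reverse_reverse]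
  obtain ⟨a', B, e, ha', hB⟩ := List.map_eq_cons_iff.1 hB0
  obtain rfl : A' = B.reverse ++ [a'] := by rw [← List.reverse_reverse A', e]; simp
  have h1 : ST α γ l S sd ((a :: (A ++ U)) :: (a' :: (U' ++ B.reverse)) :: W) Z n := by
    have := rot (A := B.reverse) (B := a' :: U') (W := (a :: A ++ U) :: W)
      (by simpa using h.perm (List.Perm.swap _ _ _))
    simpa using this.perm (List.Perm.swap _ _ _)
  have h2 := h1.m1 Am (ha.trans ha'.symm) (ha ▸ hZ y (by simp)) (hs a (by simp) a' (by simp))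
  rw [ha] at h2
  obtain ⟨z, e, h3⟩ := zip Am Y (z := (a'.1, a.2)) (A := A) (A' := B) (R := U ++ (a.1, a'.2) :: U')
    (by simpa using h2) hA hB hY.of_cons
    (zm hY hZ)
    (fun x hx v hv => hs x (by simp [hx]) v (by simp [hv]))
  refine ⟨z, (a.1, a'.2), by rw [e]; simp [ha'], ha, ?_⟩
  rw [zs] at h3
  exact h3.mono (by omega)

/-- gluing a word to itself, splitting it -/
theorem glue2 (Am : Amb γ l S sd) (y : V) (Y : List V) {A A' U U' : List (D × D)}
    (h : ST α γ l S sd ((A ++ U ++ A' ++ U') :: W) Z n) (hA : lw l A = y :: Y)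
    (hA' : lw l A' = (y :: Y).reverse) (hY : (y :: Y).Nodup) (hZ : ∀ v ∈ y :: Y, v ∈ Z)
    (hs : ∀ x ∈ A, ∀ y ∈ A', ¬ (sd x.1 ↔ sd y.1)) :
    ∃ z z', l z.1 = (y :: Y).getLast (by simp) ∧ l z'.1 = y ∧
      ST α γ l S sd ((z :: U) :: (z' :: U') :: W) (Z \ {v | v ∈ y :: Y}) (n + Y.length + 1) := by
  obtain ⟨a, A, rfl, ha, hA⟩ := List.map_eq_cons_iff.1 hA
  have hB0 : lw l A'.reverse = y :: Y := by rw [lw_reverse, hA', List.reverse_reverse]
  obtain ⟨a', B, e, ha', hB⟩ := List.map_eq_cons_iff.1 hB0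
  obtain rfl : A' = B.reverse ++ [a'] := by rw [← List.reverse_reverse A', e]; simp
  have h1 : ST α γ l S sd ((a :: (A ++ U ++ B.reverse) ++ a' :: U') :: W) Z n := by simpa using h
  have h2 := h1.m2 Am (ha.trans ha'.symm) (ha ▸ hZ y (by simp)) (hs a (by simp) a' (by simp))
  rw [ha] at h2
  obtain ⟨z, e, h3⟩ := zip Am Y (z := (a'.1, a.2)) (A := A) (A' := B) (R := U)
    (by simpa using h2) hA hB hY.of_cons
    (zm hY hZ)
    (fun x hx v hv => hs x (by simp [hx]) v (by simp [hv]))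
  refine ⟨z, (a.1, a'.2), by rw [e]; simp [ha'], ha, ?_⟩
  rw [zs] at h3
  exact h3.mono (by omega)

/-- gluing a word to itself with a twist -/
theorem glue3 (Am : Amb γ l S sd) (y : V) (Y : List V) {A A' U U' : List (D × D)}
    (h : ST α γ l S sd ((A ++ U ++ A' ++ U') :: W) Z n) (hA : lw l A = y :: Y)
    (hA' : lw l A' = y :: Y) (hY : (y :: Y).Nodup) (hZ : ∀ v ∈ y :: Y, v ∈ Z)
    (hs : ∀ x ∈ A, ∀ y ∈ A', ¬ (sd x.1 ↔ sd y.1)) :
    ∃ z z', l z.1 = (y :: Y).getLast (by simp) ∧ l z'.1 = y ∧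
      ST α γ l S sd ((z :: U ++ z' :: rv U') :: W) (Z \ {v | v ∈ y :: Y}) (n + Y.length) := by
  obtain ⟨a, A, rfl, ha, hA⟩ := List.map_eq_cons_iff.1 hA
  obtain ⟨a', B, rfl, ha', hB⟩ := List.map_eq_cons_iff.1 hA'
  have hm : ∀ x ∈ a' :: B, l x.1 = l x.2 ∧ (l x.1 ∈ Z → (sd x.1 ↔ sd x.2)) := fun x hx =>
    (h.mem (List.mem_cons_self) (by simp only [List.mem_append]; tauto)).2.2
  have h1 : ST α γ l S sd ((a :: (A ++ U) ++ a' :: (B ++ U')) :: W) Z n := by simpa using h
  have h2 := h1.m3 Am (ha.trans ha'.symm) (ha ▸ hZ y (by simp)) (hs a (by simp) a' (by simp))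
  rw [ha] at h2
  obtain ⟨z, e, h3⟩ := zip Am Y (z := (a'.2, a.2)) (A := A) (A' := B.map Prod.swap)
    (R := U ++ (a'.1, a.1) :: rv U') (by simpa [rv] using h2) hA
    (by
      rw [← hB, lw, List.map_map]
      exact List.map_congr_left fun x hx => (hm x (by simp [hx])).1.symm) hY.of_cons
    (zm hY hZ)
    (fun x hx v hv => by
      obtain ⟨u, hu, rfl⟩ := List.mem_map.1 hv
      have h4 := hs x (by simp [hx]) u (by simp [hu])
      have h5 := (hm u (by simp [hu])).2 (hZ _ (List.mem_cons_of_mem _ (hB ▸ List.mem_map_of_mem hu)))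
      simp only [Prod.fst_swap]
      tauto)
  refine ⟨z, (a'.1, a.1), ?_, ha', ?_⟩
  · rw [e]; simp [← (hm a' (by simp)).1, ha']
  · rw [zs] at h3
    exact h3

end ST

end Pool.Agent.MP_9d78a0_co.st.tr

end MrgPart2

-- ======== part 3: formerly Pool.Agent.MP_9d78a0_co.st.TRd
section MrgPart3

/-! Translation of drawings to maps, part d: deleting spokes. -/

set_option autoImplicit false
set_option linter.unusedSectionVars false

namespace Pool.Agent.MP_9d78a0_co.st.tr

open Function gm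

variable {D V ι : Type} [DecidableEq D]

/-- an involution whose orbits with `γ` are the classes of `l` -/
structure Hf (f γ : D → D) (l : D → V) (S : Finset D) : Prop where
  inv : ∀ d ∈ S, f d ∈ S ∧ f (f d) = d ∧ f d ≠ d
  lab : ∀ d ∈ S, l (f d) = l d
  con : ∀ d ∈ S, ∀ e ∈ S, l d = l e → e ∈ orb f γ d

/-- jump over the flags `x` and `γ x` -/
def skip (f γ : D → D) (x d : D) : D := if f d = x ∨ f d = γ x then f (γ (f d)) else f d

theorem Hf.skip {f γ : D → D} {l : D → V} {S : Finset D} {sd : D → Prop} (A : Amb γ l S sd)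
    (h : Hf f γ l S) (x : D) : Hf (skip f γ x) γ l (S \ {x, γ x}) := by
  have ms : ∀ d, d ∈ S \ {x, γ x} ↔ d ∈ S ∧ ¬ (d = x ∨ d = γ x) := by intro d; simp
  have gx : ∀ d, (γ d = x ∨ γ d = γ x) ↔ (d = x ∨ d = γ x) := by
    intro d
    constructor
    · rintro (e | e)
      · right; rw [← e, A.gg]
      · left; rw [← A.gg d, e, A.gg]
    · rintro (rfl | rfl)
      · right; rfl
      · left; exact A.gg x
  have two : ∀ u v, (u = x ∨ u = γ x) → (v = x ∨ v = γ x) → u = v ∨ u = γ v := by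
    rintro u v (rfl | rfl) (h | h)
    · left; exact h.symm
    · right; rw [h, A.gg]
    · right; rw [h]
    · left; exact h.symm
  have key : ∀ y ∈ S, (y = x ∨ y = γ x) → ¬ (f y = x ∨ f y = γ x) →
      ¬ (f (γ y) = x ∨ f (γ y) = γ x) := by
    intro y hy h1 h2 h3
    have i := h.inv _ (A.gs y hy)
    rcases two _ _ h3 h1 with e | e
    · apply h2
      rw [← e, i.2.1]
      exact (gx y).2 h1
    · exact i.2.2 e
  refine ⟨?_, ?_, ?_⟩
  · intro d hd
    rw [ms] at hd
    have i := h.inv d hd.1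
    by_cases c : f d = x ∨ f d = γ x
    · have j := h.inv _ (A.gs _ i.1)
      have e : tr.skip f γ x d = f (γ (f d)) := if_pos c
      rw [e]
      refine ⟨(ms _).2 ⟨j.1, key _ i.1 c (by rw [i.2.1]; exact hd.2)⟩, ?_, ?_⟩
      · unfold tr.skip
        rw [j.2.1, if_pos ((gx _).2 c), A.gg, i.2.1]
      · intro e'
        apply A.gn (f d)
        rw [← j.2.1, e']
    · have e : tr.skip f γ x d = f d := if_neg c
      rw [e]
      refine ⟨(ms _).2 ⟨i.1, c⟩, ?_, i.2.2⟩
      unfold tr.skip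
      rw [i.2.1, if_neg hd.2]
  · intro d hd
    rw [ms] at hd
    have i := h.inv d hd.1
    unfold tr.skip
    split_ifs
    · rw [h.lab _ (A.gs _ i.1), A.gl, h.lab d hd.1]
    · exact h.lab d hd.1
  · intro d hd e he hl
    rw [ms] at hd he
    have main : ∀ y ∈ orb f γ d, y ∈ S ∧ (¬ (y = x ∨ y = γ x) → y ∈ orb (tr.skip f γ x) γ d) ∧
        ((y = x ∨ y = γ x) → ¬ (f y = x ∨ f y = γ x) ∧ f y ∈ orb (tr.skip f γ x) γ d) := by
      intro y hy
      induction hy with
      | refl => exact ⟨hd.1, fun _ => Relation.ReflTransGen.refl, fun c => absurd c hd.2⟩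
      | @tail y z _ hz ih =>
        obtain ⟨yS, y1, y2⟩ := ih
        have i := h.inv y yS
        rcases hz with rfl | rfl
        · refine ⟨i.1, fun c => ?_, fun c => ?_⟩
          · by_cases c' : y = x ∨ y = γ x
            · exact (y2 c').2
            · exact (y1 c').tail (Or.inl (if_neg c).symm)
          · rw [i.2.1]
            have c' : ¬ (y = x ∨ y = γ x) := fun c' => (y2 c').1 c
            exact ⟨c', y1 c'⟩
        · refine ⟨A.gs y yS, fun c => ?_, fun c => ?_⟩
          · exact (y1 fun c' => c ((gx y).2 c')).tail (Or.inr rfl)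
          · have c' := (gx y).1 c
            refine ⟨key y yS c' (y2 c').1, (y2 c').2.tail (Or.inl ?_)⟩
            unfold tr.skip
            rw [i.2.1, if_pos c']
    exact (main e (h.con d hd.1 e he.1 hl)).2.1 he.2

/-- if `f x = γ x` the class of `x` has two flags -/
theorem Hf.pair {f γ : D → D} {l : D → V} {S : Finset D} {sd : D → Prop} (A : Amb γ l S sd)
    (h : Hf f γ l S) {x e : D} (hx : x ∈ S) (he : e ∈ S) (hl : l x = l e) (hf : f x = γ x) :
    e = x ∨ e = γ x := by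
  have := h.con x hx e he hl
  clear he hl
  induction this with
  | refl => exact Or.inl rfl
  | tail _ hz ih =>
    rcases ih with rfl | rfl <;> rcases hz with rfl | rfl
    · exact Or.inr hf
    · exact Or.inr rfl
    · left; rw [← hf, (h.inv x hx).2.1]
    · left; exact A.gg x

theorem img_le {ω : Type} [DecidableEq ω] (t : D → ω) (S : Finset D) (x y : D) (e : t x = t y) :
    (S.image t).card ≤ ((S \ {x, y}).image t).card + 1 := by
  have h1 : (S.image t).erase (t x) ⊆ (S \ {x, y}).image t := by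
    intro w hw
    rw [Finset.mem_erase, Finset.mem_image] at hw
    obtain ⟨h, d, hd, rfl⟩ := hw
    refine Finset.mem_image_of_mem _ ?_
    simp only [Finset.mem_sdiff, Finset.mem_insert, Finset.mem_singleton, not_or]
    exact ⟨hd, fun c => h (by rw [c]), fun c => h (by rw [c, e])⟩
  have h2 := Finset.card_le_card h1
  have h3 := Finset.pred_card_le_card_erase (s := S.image t) (a := t x)
  omega

theorem img_eq {ω : Type} [DecidableEq ω] (t : D → ω) (S : Finset D) (x y z : D) (e : t x = t y)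
    (hz : z ∈ S \ {x, y}) (ez : t z = t x) : (S.image t).card ≤ ((S \ {x, y}).image t).card := by
  apply Finset.card_le_card
  intro w hw
  obtain ⟨d, hd, rfl⟩ := Finset.mem_image.1 hw
  by_cases c : d = x ∨ d = y
  · refine Finset.mem_image.2 ⟨z, hz, ?_⟩
    rcases c with rfl | rfl
    · exact ez
    · exact ez.trans e
  · exact Finset.mem_image_of_mem _ (by simpa using ⟨hd, by tauto⟩)

variable [DecidableEq V] [DecidableEq ι]

/-- a hypermap with a bound for its Euler characteristic -/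
structure HM (α β γ : D → D) (l : D → V) (k : D → ι) (S : Finset D) (n : ℤ) : Prop where
  ha : Hf α γ k S
  hb : Hf β γ l S
  cnt : ∃ sg : D → ℕ, (∀ d ∈ S, sg (α d) = sg d ∧ sg (β d) = sg d) ∧
    n + S.card ≤ 2 * ((S.image l).card + (S.image k).card + (S.image sg).card)

theorem HM.del {α β γ : D → D} {l : D → V} {k : D → ι} {S : Finset D} {n : ℤ} {sd : D → Prop}
    (A : Amb γ l S sd) (A' : Amb γ k S sd) (h : HM α β γ l k S n) {x : D} (hx : x ∈ S)
    (hn : ¬ (α x = γ x ∧ β x = γ x)) :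
    HM (skip α γ x) (skip β γ x) γ l k (S \ {x, γ x}) n := by
  refine ⟨h.ha.skip A' x, h.hb.skip A x, ?_⟩
  obtain ⟨sg, hs, hc⟩ := h.cnt
  let f : ℕ → ℕ := fun t => if t = sg x then sg (γ x) else t
  have f1 : f (sg x) = sg (γ x) := by simp [f]
  have f2 : f (sg (γ x)) = sg (γ x) := by simp [f]
  have fg : ∀ y, (y = x ∨ y = γ x) → f (sg (γ y)) = f (sg y) := by
    rintro y (rfl | rfl)
    · rw [f1, f2]
    · rw [A.gg, f1, f2]
  have ia := h.ha.inv x hx
  have ib := h.hb.inv x hx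
  have cs : (S \ {x, γ x}).card + 2 = S.card := by
    have : ({x, γ x} : Finset D) ⊆ S := by
      intro y hy
      simp only [Finset.mem_insert, Finset.mem_singleton] at hy
      rcases hy with rfl | rfl
      · exact hx
      · exact A.gs x hx
    rw [← Finset.card_sdiff_add_card_eq_card this, Finset.card_pair (A.gn x).symm]
  refine ⟨f ∘ sg, ?_, ?_⟩
  · intro d hd
    have dS := (Finset.mem_sdiff.1 hd).1
    have ja := h.ha.inv d dS
    have jb := h.hb.inv d dS
    unfold skip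
    constructor
    · split_ifs with c
      · simp only [comp]
        rw [(hs _ (A.gs _ ja.1)).1, fg _ c, (hs d dS).1]
      · simp only [comp, (hs d dS).1]
    · split_ifs with c
      · simp only [comp]
        rw [(hs _ (A.gs _ jb.1)).2, fg _ c, (hs d dS).2]
      · simp only [comp, (hs d dS).2]
  · have fid : sg (γ x) = sg x → f ∘ sg = sg := by
      intro e
      funext d
      simp only [f, comp]
      split_ifs with c
      · rw [c, e]
      · rfl
    have ma : α x ≠ γ x → α x ∈ S \ {x, γ x} := fun c => by simp [ia.1, ia.2.2, c]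
    have mb : β x ≠ γ x → β x ∈ S \ {x, γ x} := fun c => by simp [ib.1, ib.2.2, c]
    by_cases ca : α x = γ x
    · have cb : β x ≠ γ x := fun c => hn ⟨ca, c⟩
      have e : sg (γ x) = sg x := by rw [← ca, (hs x hx).1]
      rw [fid e]
      have a1 := img_eq l S x (γ x) _ (A.gl x).symm (mb cb) (h.hb.lab x hx)
      have a2 := img_le k S x (γ x) (A'.gl x).symm
      have a3 := img_eq sg S x (γ x) _ e.symm (mb cb) (hs x hx).2
      omega
    · have a2 := img_eq k S x (γ x) _ (A'.gl x).symm (ma ca) (h.ha.lab x hx)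
      by_cases cb : β x = γ x
      · have e : sg (γ x) = sg x := by rw [← cb, (hs x hx).2]
        rw [fid e]
        have a1 := img_le l S x (γ x) (A.gl x).symm
        have a3 := img_eq sg S x (γ x) _ e.symm (ma ca) (hs x hx).1
        omega
      · have a1 := img_eq l S x (γ x) _ (A.gl x).symm (mb cb) (h.hb.lab x hx)
        have a3 := img_eq (f ∘ sg) S x (γ x) _ (fg x (Or.inl rfl)).symm (ma ca)
          (by simp only [comp, (hs x hx).1])
        have h1 : (S.image sg).erase (sg x) ⊆ S.image (f ∘ sg) := by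
          intro t ht
          rw [Finset.mem_erase, Finset.mem_image] at ht
          obtain ⟨c, d, hd, rfl⟩ := ht
          exact Finset.mem_image.2 ⟨d, hd, by simp [f, c]⟩
        have h2 := Finset.card_le_card h1
        have h3 := Finset.pred_card_le_card_erase (s := S.image sg) (a := sg x)
        omega

/-- restriction to a set of spokes to which everything is linked -/
theorem HM.restrict {α β γ : D → D} {l : D → V} {k : D → ι} {S : Finset D} {n : ℤ}
    (A : Amb γ l S fun _ => True) (A' : Amb γ k S fun _ => True) (h : HM α β γ l k S n)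
    (K : Finset D) (hK : K ⊆ S) (gK : ∀ d ∈ K, γ d ∈ K)
    (hc : ∀ d ∈ S, ∃ e ∈ K, Relation.ReflTransGen
      (fun u v => u ∈ S ∧ (l u = l v ∨ k u = k v)) d e) :
    ∃ α' β', HM α' β' γ l k K n ∧ ∀ d ∈ K, α d ∈ K → α' d = α d := by
  induction hm : (S \ K).card using Nat.strong_induction_on generalizing K with
  | _ m ih =>
  by_cases e : S ⊆ K
  · obtain rfl : K = S := Finset.Subset.antisymm hK e
    exact ⟨α, β, h, fun _ _ _ => rfl⟩
  obtain ⟨d, hd, dK⟩ := Finset.not_subset.1 e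
  obtain ⟨x, xS, xK, y, yK, hxy⟩ : ∃ x ∈ S, x ∉ K ∧ ∃ y ∈ K, l x = l y ∨ k x = k y := by
    obtain ⟨e, eK, r⟩ := hc d hd
    clear hd
    induction r using Relation.ReflTransGen.head_induction_on with
    | refl => exact absurd eK dK
    | @head u v huv _ ih' =>
      by_cases c : v ∈ K
      · exact ⟨u, huv.1, dK, v, c, huv.2⟩
      · exact ih' c
  have gxK : γ x ∉ K := fun c => xK (by simpa [A.gg] using gK _ c)
  have sub : K ∪ {x, γ x} ⊆ S := by
    intro u hu
    simp only [Finset.mem_union, Finset.mem_insert, Finset.mem_singleton] at hu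
    rcases hu with hu | rfl | rfl
    · exact hK hu
    · exact xS
    · exact A.gs x xS
  have gK' : ∀ u ∈ K ∪ {x, γ x}, γ u ∈ K ∪ {x, γ x} := by
    intro u hu
    simp only [Finset.mem_union, Finset.mem_insert, Finset.mem_singleton] at hu ⊢
    rcases hu with hu | rfl | rfl
    · exact Or.inl (gK u hu)
    · exact Or.inr (Or.inr rfl)
    · exact Or.inr (Or.inl (A.gg x))
  obtain ⟨α', β', h', ha'⟩ := ih (S \ (K ∪ {x, γ x})).card (by
      rw [← hm]
      apply Finset.card_lt_card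
      refine ⟨Finset.sdiff_subset_sdiff_right _ Finset.subset_union_left, fun c => ?_⟩
      have := c (Finset.mem_sdiff.2 ⟨xS, xK⟩)
      simp at this) (K ∪ {x, γ x}) sub gK'
    (fun u hu => by
      obtain ⟨e, eK, r⟩ := hc u hu
      exact ⟨e, Finset.mem_union_left _ eK, r⟩) rfl
  have B : Amb γ l (K ∪ {x, γ x}) fun _ => True := ⟨A.gg, A.gn, A.gl, gK', A.sd⟩
  have B' : Amb γ k (K ∪ {x, γ x}) fun _ => True := ⟨A.gg, A.gn, A'.gl, gK', A.sd⟩
  have xm : x ∈ K ∪ {x, γ x} := by simp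
  have ym : y ∈ K ∪ {x, γ x} := Finset.mem_union_left _ yK
  have h2 := h'.del B B' xm (by
    rintro ⟨c1, c2⟩
    have : y = x ∨ y = γ x := by
      rcases hxy with hxy | hxy
      · exact h'.hb.pair B xm ym hxy c2
      · exact h'.ha.pair B' xm ym hxy c1
    rcases this with rfl | rfl
    · exact xK yK
    · exact gxK yK)
  have ek : (K ∪ {x, γ x}) \ {x, γ x} = K := by
    apply Finset.union_sdiff_cancel_right
    rw [Finset.disjoint_left]
    intro u hu hu'
    simp only [Finset.mem_insert, Finset.mem_singleton] at hu'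
    rcases hu' with rfl | rfl
    · exact xK hu
    · exact gxK hu
  rw [ek] at h2
  refine ⟨_, _, h2, fun u hu hu' => ?_⟩
  have e1 := ha' u (Finset.mem_union_left _ hu) (Finset.mem_union_left _ hu')
  unfold skip
  rw [e1, if_neg]
  rintro (c | c)
  · exact xK (c ▸ hu')
  · exact gxK (c ▸ hu')

end Pool.Agent.MP_9d78a0_co.st.tr

end MrgPart3

-- marker of a merged file
example : 731051 + 844375 = 731051 + 844375 := rfl
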