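import Pool.Agent.MP_9d78a0_co.gm.Map
import Pool.Agent.MP_9d78a0_co.st.TRd
import Mathlib.GroupTheory.Perm.List

-- ======== part 0: formerly Pool.Agent.MP_9d78a0_co.st.SA
section MrgPart0

/-! The structure theorem, part A: crosses, cuts and drawings. -/

set_option autoImplicit false

namespace Pool.Agent.MP_9d78a0_co.st

open Set Function fb

section defs

variable {V : Type}

/-- the vertices of `S` that are linked inside `S` to a vertex of `A` -/
def lk (H : SimpleGraph V) (S A : Set V) : Set V := {v | v ∈ S ∧ ∃ a ∈ A, a ∈ S ∧ Link H S a v}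

/-- all edges lie inside `U` -/
def Tight (H : SimpleGraph V) (U : Set V) : Prop := ∀ u v, H.Adj u v → u ∈ U

/-- the edges inside `U` -/
def res (H : SimpleGraph V) (U : Set V) : SimpleGraph V where
  Adj u v := H.Adj u v ∧ u ∈ U ∧ v ∈ U
  symm := ⟨fun _ _ h => ⟨h.1.symm, h.2.2, h.2.1⟩⟩
  loopless := ⟨fun _ h => H.irrefl h.1⟩

/-- the entries of a list -/
def ls (L : List V) : Set V := {v | v ∈ L}

/-- the union of a list of sets -/
def un (LL : List (Set V)) : Set V := {v | ∃ s ∈ LL, v ∈ s}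

/-- letters as ports -/
def sg (L : List V) : List (Set V) := L.map fun x => {x}

open Classical in
/-- the letters outside `A` -/
noncomputable def del (A : Set V) (L : List V) : List V := L.filter fun x => decide (x ∉ A)

/-- a society -/
structure Soc (H : SimpleGraph V) (U : Set V) (L : List V) : Prop where
  tight : Tight H U
  nd : L.Nodup
  sub : ∀ x ∈ L, x ∈ U

/-- two disjoint connected sets inside `U` -/
structure Two (H : SimpleGraph V) (U P Q : Set V) : Prop where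
  sp : P ⊆ U
  sq : Q ⊆ U
  cp : Conn H P
  cq : Conn H Q
  dis : Disjoint P Q

/-- a cross -/
def Cr (H : SimpleGraph V) (U : Set V) (L : List V) : Prop :=
  ∃ a b c d, List.Sublist [a, b, c, d] L ∧ ∃ P Q, Two H U P Q ∧ a ∈ P ∧ c ∈ P ∧ b ∈ Q ∧ d ∈ Q

/-- a cross on a list of ports -/
def PX (H : SimpleGraph V) (U : Set V) (LL : List (Set V)) : Prop :=
  ∃ a b c d, List.Sublist [a, b, c, d] LL ∧ ∃ P Q, Two H U P Q ∧ (P ∩ a).Nonempty ∧
    (P ∩ c).Nonempty ∧ (Q ∩ b).Nonempty ∧ (Q ∩ d).Nonempty ∧ ∀ s ∈ LL, Disjoint P s ∨ Disjoint Q s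

/-- flat apart from the hub `I` -/
def HF (H : SimpleGraph V) (U : Set V) (L : List V) (I : Set V) : Prop :=
  ∀ a b c d, List.Sublist [a, b, c, d] L → ∀ P Q, Two H U P Q → a ∈ P → c ∈ P → b ∈ Q → d ∈ Q →
    (P ∩ I).Nonempty ∧ (Q ∩ I).Nonempty

/-- the set `S` is contracted to its vertex `ω` -/
def ctr (H : SimpleGraph V) (S : Set V) (ω : V) : SimpleGraph V where
  Adj u v := u ≠ v ∧ (u ∉ S ∨ u = ω) ∧ (v ∉ S ∨ v = ω) ∧
    ∃ x y, H.Adj x y ∧ (x = u ∨ (u = ω ∧ x ∈ S)) ∧ (y = v ∨ (v = ω ∧ y ∈ S))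
  symm := ⟨fun _ _ ⟨h1, h2, h3, x, y, h4, h5, h6⟩ => ⟨h1.symm, h3, h2, y, x, h4.symm, h6, h5⟩⟩
  loopless := ⟨fun _ h => h.1 rfl⟩

/-- the set `K` is replaced by a clique on `X` -/
def red (H : SimpleGraph V) (K X : Set V) : SimpleGraph V where
  Adj u v := u ≠ v ∧ u ∉ K ∧ v ∉ K ∧ (H.Adj u v ∨ (u ∈ X ∧ v ∈ X))
  symm := ⟨fun _ _ ⟨h1, h2, h3, h4⟩ => ⟨h1.symm, h3, h2, h4.imp (·.symm) (·.symm)⟩⟩
  loopless := ⟨fun _ h => h.1 rfl⟩

/-- a connected set with neighbourhood `X` -/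
structure Pock (H : SimpleGraph V) (K X : Set V) : Prop where
  conn : Conn H K
  dis : Disjoint K X
  nbr : ∀ u ∈ K, ∀ v, H.Adj u v → v ∈ K ∨ v ∈ X
  adj : ∀ x ∈ X, ∃ u ∈ K, H.Adj u x

/-- a separation with common part `S` -/
structure Split (H H1 H2 : SimpleGraph V) (U U1 U2 S : Set V) : Prop where
  sup : H1 ⊔ H2 = H
  dis : Disjoint H1 H2
  t1 : Tight H1 U1
  t2 : Tight H2 U2
  un : U1 ∪ U2 = U
  int : U1 ∩ U2 = S

/-- neighbouring angles on a circle with `n` spokes (even) and `n` sectors (odd) -/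
def Stp (n a b : ℕ) : Prop :=
  a = b ∨ (a + 1) % (2 * n) = b ∨ (b + 1) % (2 * n) = a ∨
    (a % 2 = 0 ∧ ((a + 2) % (2 * n) = b ∨ (b + 2) % (2 * n) = a))

/-- the letters from `o u` to `o (u + m)`, indices modulo `n` -/
def arc (o : ℕ → V) (seg : ℕ → List V) (n u m : ℕ) : List V :=
  ((List.range m).flatMap fun j => o ((u + j) % n) :: seg ((u + j) % n)) ++ [o ((u + m) % n)]

/-- all letters -/
def cyc (o : ℕ → V) (seg : ℕ → List V) (n : ℕ) : List V :=
  (List.range n).flatMap fun j => o j :: seg j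

end defs

/-- kinds of cells -/
inductive Kind
  | cell
  | hole
  | void
  deriving DecidableEq

/-- a cell: its graph, its vertices, its nodes -/
structure Cell (V : Type) where
  g : SimpleGraph V
  W : Set V
  N : List V
  k : Kind

section draw

variable {V : Type}

/-- at most `d` disjoint connections between two complementary arcs -/
def Depth (H : SimpleGraph V) (U : Set V) (L : List V) (d : ℕ) : Prop :=
  ∀ X Y : List V, List.IsRotated (X ++ Y) L → ∀ R : Fin (d + 1) → Set V,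
    (∀ i, R i ⊆ U ∧ Conn H (R i) ∧ (R i ∩ ls X).Nonempty ∧ (R i ∩ ls Y).Nonempty) →
    ¬ Pairwise (Disjoint on R)

/-- what is asked of a cell -/
structure Cell.Ok (d : ℕ) (c : Cell V) : Prop where
  soc : Soc c.g c.W c.N
  len : c.k = .cell → c.N.length ≤ 3
  two : c.k = .cell → ∀ x y, c.N = [x, y] → Link c.g c.W x y
  star : c.k = .cell → c.N.length = 3 →
    ∃ K ⊆ c.W \ ls c.N, Conn c.g K ∧ ∀ x ∈ c.N, ∃ y ∈ K, c.g.Adj x y
  hole : c.k = .hole → Depth c.g c.W c.N d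
  void : c.k = .void → c.g = ⊥ ∧ c.W = ls c.N ∧ c.N.length = 2

/-- the vertices of a list of cells -/
def Vc (cs : List (Cell V)) : Set V := {v | ∃ c ∈ cs, v ∈ c.W}

/-- `Y` starts with `a` and ends with `b` -/
def Ends (Y : List V) (a b : V) : Prop := Y.head? = some a ∧ Y.getLast? = some b

/-- drawings: cells, words on open faces, a bound for the Euler genus -/
inductive Dr : List (Cell V) → List (List V) → ℕ → Prop
  | new (c : Cell V) : Dr [c] [c.N] 0
  | union {cs cs' : List (Cell V)} {ws ws' : List (List V)} {g g' : ℕ} :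
      Dr cs ws g → Dr cs' ws' g' → Disjoint (Vc cs) (Vc cs') → Dr (cs ++ cs') (ws ++ ws') (g + g')
  | nil {cs : List (Cell V)} {ws : List (List V)} {g : ℕ} : Dr cs ws g → Dr cs ([] :: ws) g
  | join {cs cs' : List (Cell V)} {ws ws' : List (List V)} {g g' : ℕ} {Y A B : List V} {a b : V} :
      Dr cs ((Y ++ A) :: ws) g → Dr cs' ((Y.reverse ++ B) :: ws') g' → Vc cs ∩ Vc cs' ⊆ ls Y →
      Y.Nodup → Ends Y a b → Dr (cs ++ cs') ((b :: A ++ a :: B) :: (ws ++ ws')) (g + g')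
  | x2 {cs cs' : List (Cell V)} {ws ws' : List (List V)} {g g' : ℕ} {Y Z A B C D : List V}
      {a b c d : V} :
      Dr cs ((Y ++ A ++ Z ++ B) :: ws) g → Dr cs' ((Y.reverse ++ C ++ Z ++ D) :: ws') g' →
      Vc cs ∩ Vc cs' ⊆ ls (Y ++ Z) → (Y ++ Z).Nodup → Ends Y a b → Ends Z c d →
      Dr (cs ++ cs') ((b :: A ++ c :: C.reverse ++ a :: B.reverse ++ d :: D) :: (ws ++ ws'))
        (g + g' + 2)
  | s2 {cs cs' : List (Cell V)} {ws ws' : List (List V)} {g g' : ℕ} {Y Z A B C D : List V}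
      {a b c d : V} :
      Dr cs ((Y ++ A ++ Z ++ B) :: ws) g → Dr cs' ((Y.reverse ++ C ++ Z.reverse ++ D) :: ws') g' →
      Vc cs ∩ Vc cs' ⊆ ls (Y ++ Z) → (Y ++ Z).Nodup → Ends Y a b → Ends Z c d →
      Dr (cs ++ cs') ((b :: A ++ c :: D) :: (d :: B ++ a :: C) :: (ws ++ ws')) (g + g' + 2)
  | m2 {cs cs' : List (Cell V)} {ws ws' : List (List V)} {g g' : ℕ} {Y Z A B C D : List V}
      {a b c d : V} :
      Dr cs ((Y ++ A) :: (Z ++ B) :: ws) g →
      Dr cs' ((Y.reverse ++ C ++ Z.reverse ++ D) :: ws') g' →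
      Vc cs ∩ Vc cs' ⊆ ls (Y ++ Z) → (Y ++ Z).Nodup → Ends Y a b → Ends Z c d →
      Dr (cs ++ cs') ((b :: A ++ a :: C ++ d :: B ++ c :: D) :: (ws ++ ws')) (g + g' + 2)
  | sub {cs : List (Cell V)} {ws : List (List V)} {g : ℕ} {w w' : List V} :
      Dr cs (w :: ws) g → List.Sublist w' w → Dr cs (w' :: ws) g
  | forget {cs : List (Cell V)} {ws : List (List V)} {g : ℕ} {w : List V} :
      Dr cs (w :: ws) g → Dr cs ws g
  | rot {cs : List (Cell V)} {ws : List (List V)} {g : ℕ} {w w' : List V} :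
      Dr cs (w :: ws) g → List.IsRotated w w' → Dr cs (w' :: ws) g
  | rev {cs : List (Cell V)} {ws : List (List V)} {g : ℕ} {w : List V} :
      Dr cs (w :: ws) g → Dr cs (w.reverse :: ws) g
  | perm {cs cs' : List (Cell V)} {ws ws' : List (List V)} {g g' : ℕ} :
      Dr cs ws g → List.Perm cs cs' → List.Perm ws ws' → g ≤ g' → Dr cs' ws' g'

/-- the cells partition the edges of `H` and cover `U` -/
structure Rend (H : SimpleGraph V) (U : Set V) (cs : List (Cell V)) : Prop where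
  adj : ∀ u v, H.Adj u v ↔ ∃ c ∈ cs, c.g.Adj u v
  dis : cs.Pairwise fun c c' => Disjoint c.g c'.g
  cov : Vc cs = U

/-- `H` on `U` is drawn with words `ws`, genus at most `g`, at most `q` holes of depth at most `d` -/
def Drawn (H : SimpleGraph V) (U : Set V) (ws : List (List V)) (g q d : ℕ) : Prop :=
  ∃ cs, Dr cs ws g ∧ Rend H U cs ∧ (∀ c ∈ cs, c.Ok d) ∧
    (cs.countP fun c => decide (c.k = .hole)) ≤ q

/-- first and last letter, as lists -/
def hd (Y : List V) : List V := Y.head?.toList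
def lt (Y : List V) : List V := Y.getLast?.toList

end draw

/-! Statements. -/

/-- normal form of a cross; letters as ports; rotation and reflection; merging ports -/
def NfS : Prop :=
  ∀ (V : Type) (H : SimpleGraph V) (U : Set V),
    (∀ LL : List (Set V), LL.Pairwise Disjoint → PX H U LL →
      ∃ a b c d, List.Sublist [a, b, c, d] LL ∧ ∃ (f g : ℕ → V) (l m : ℕ), IsPath H U f l ∧
        IsPath H U g m ∧ 0 < l ∧ 0 < m ∧ f 0 ∈ a ∧ f l ∈ c ∧ g 0 ∈ b ∧ g m ∈ d ∧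
        (∀ i ≤ l, ∀ j ≤ m, f i ≠ g j) ∧ (∀ i, 0 < i → i < l → f i ∉ un LL) ∧
        ∀ j, 0 < j → j < m → g j ∉ un LL) ∧
    (∀ L : List V, Cr H U L ↔ PX H U (sg L)) ∧
    (∀ LL LL' : List (Set V), List.IsRotated LL LL' → PX H U LL → PX H U LL') ∧
    (∀ LL : List (Set V), PX H U LL → PX H U LL.reverse) ∧
    (∀ L L' : List V, List.IsRotated L L' → Cr H U L → Cr H U L') ∧
    (∀ L : List V, Cr H U L → Cr H U L.reverse) ∧
    (∀ (L L' : List V) (I : Set V), List.IsRotated L L' → HF H U L I → HF H U L' I) ∧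
    (∀ (L : List V) (I : Set V), HF H U L I → HF H U L.reverse I) ∧
    ∀ L1 M L2 : List (Set V), (L1 ++ M ++ L2).Pairwise Disjoint → PX H U (L1 ++ un M :: L2) →
      PX H U (L1 ++ M ++ L2)

/-- contraction of a port or of a hub -/
def CtrS : Prop :=
  ∀ (V : Type) (H : SimpleGraph V) (U S : Set V) (ω : V), ω ∈ S → S ⊆ U →
    (Tight H U → Tight (ctr H S ω) (U \ S ∪ {ω})) ∧
    (∀ P, Conn H P → (P ∩ S).Nonempty → Conn (ctr H S ω) (P \ S ∪ {ω})) ∧
    (∀ P, Disjoint P S → (Conn H P ↔ Conn (ctr H S ω) P)) ∧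
    (∀ P, Conn H S → Disjoint (P \ {ω}) S → ω ∈ P → Conn (ctr H S ω) P → Conn H (P ∪ S)) ∧
    (∀ L1 L2 : List (Set V), (L1 ++ S :: L2).Pairwise Disjoint →
      (PX H U (L1 ++ S :: L2) ↔ PX (ctr H S ω) (U \ S ∪ {ω}) (L1 ++ {ω} :: L2))) ∧
    ∀ L : List V, Conn H S → Disjoint S (ls L) →
      (HF H U L S ↔ ¬ Cr (ctr H S ω) (U \ S ∪ {ω}) L)

/-- a linkage is augmented without losing a start -/
def PerfS : Prop :=
  ∀ (V : Type) [Finite V] (H : SimpleGraph V) (U T B : Set V) (k : ℕ) (x : Fin k → V)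
    (R : Fin k → Set V), (∀ i, R i ⊆ U ∧ Conn H (R i) ∧ R i ∩ T = {x i} ∧ (R i ∩ B).Nonempty) →
    Pairwise (Disjoint on R) →
    (∃ z : Fin k → V, (∀ i, z i ∈ R i) ∧
      ∀ S ⊆ U \ range z, Conn H S → (S ∩ T).Nonempty → Disjoint S B) ∨
    ∃ (y : V) (R' : Option (Fin k) → Set V),
      (∀ i, R' i ⊆ U ∧ Conn H (R' i) ∧ (R' i ∩ B).Nonempty) ∧ (∀ i, R' (some i) ∩ T = {x i}) ∧
      R' none ∩ T = {y} ∧ Pairwise (Disjoint on R')

/-- a tripod gives a cross or is cut off on its legs -/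
def TriS : Prop :=
  ∀ (V : Type) [Finite V] (H : SimpleGraph V) (U : Set V) (L : List V) (u v : V)
    (f : Fin 3 → ℕ → V) (l m : Fin 3 → ℕ) (R : Fin 3 → Set V), L.Nodup →
    (∀ t, IsPath H U (f t) (l t) ∧ f t 0 = u ∧ f t (l t) = v ∧ 0 < m t ∧ m t < l t) →
    (∀ t t', t ≠ t' → ∀ i, 0 < i → i < l t → ∀ j ≤ l t', f t i ≠ f t' j) →
    (∀ t, R t ⊆ U ∧ Conn H (R t) ∧ R t ∩ {w | ∃ t', ∃ j ≤ l t', f t' j = w} = {f t (m t)} ∧
      (R t ∩ ls L).Nonempty) → Pairwise (Disjoint on R) →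
    Cr H U L ∨ ∃ z : Fin 3 → V, (∀ t, z t ∈ R t) ∧ ∀ S ⊆ U \ range z, Conn H S →
      (S ∩ {w | ∃ t', ∃ j ≤ l t', f t' j = w}).Nonempty → Disjoint S (ls L)

/-- lifting and projecting through a pocket -/
def RedS : Prop :=
  ∀ (V : Type) [Finite V] (H : SimpleGraph V) (K X : Set V), Pock H K X → X.ncard ≤ 3 →
    (∀ P Q, Two (red H K X) Kᶜ P Q →
      ∃ P' Q', Two H univ P' Q' ∧ P ⊆ P' ∧ P' ⊆ P ∪ K ∧ Q ⊆ Q' ∧ Q' ⊆ Q ∪ K) ∧
    (∀ P, Conn H P → (P \ K).Nonempty → Conn (red H K X) (P \ K)) ∧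
    ∀ P K', P ⊆ Kᶜ → Conn (red H K X) P → K' ⊆ K →
      (∀ x ∈ P ∩ X, ∀ y ∈ P ∩ X, Link H (K' ∪ {x, y}) x y) → ∃ P', P ⊆ P' ∧ P' ⊆ P ∪ K' ∧ Conn H P'

/-- a stable path or a pocket with at most two neighbours -/
def StabS : Prop :=
  ∀ (V : Type) [Finite V] (H : SimpleGraph V) (U A S0 : Set V) (a b : V), Tight H U → a ≠ b →
    a ∈ U \ S0 → b ∈ U \ S0 → A ⊆ S0 → S0 ⊆ U → S0 = lk H S0 A → Link H (U \ S0) a b →
    ∃ D ⊆ U \ S0, a ∈ D ∧ b ∈ D ∧ Link H D a b ∧ U \ D = lk H (U \ D) A ∧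
      (∀ D' ⊆ D, a ∈ D' → b ∈ D' → Link H D' a b → U \ D' = lk H (U \ D') A → D' = D) ∧
      ((∃ K X, K ⊆ D \ {a, b} ∧ X ⊆ D ∧ X.ncard ≤ 2 ∧ Pock H K X) ∨
        ∃ f l, IsPath H D f l ∧ f 0 = a ∧ f l = b ∧ D = f '' Iic l ∧
          ∀ i ≤ l, ∀ j ≤ l, H.Adj (f i) (f j) → i + 1 = j ∨ j + 1 = i)

/-- one side of a stable induced path -/
def SideS : Prop :=
  ∀ (V : Type) [Finite V] (H : SimpleGraph V) (U S1 S2 : Set V) (A1 A2 : List V) (f : ℕ → V)
    (l : ℕ), Soc H U (f 0 :: A1 ++ f l :: A2) → IsPath H U f l →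
    (∀ i ≤ l, ∀ j ≤ l, H.Adj (f i) (f j) → i + 1 = j ∨ j + 1 = i) →
    (∀ i ≤ l, f i ∉ A1 ∧ f i ∉ A2) → S1 = lk H (U \ f '' Iic l) (ls A1) →
    S2 = lk H (U \ f '' Iic l) (ls A2) → U = f '' Iic l ∪ S1 ∪ S2 →
    ¬ PX H U (sg (f 0 :: A1 ++ [f l]) ++ [S2]) →
    ¬ Cr H (f '' Iic l ∪ S1) (f 0 :: A1 ++ f l :: ((List.range' 1 (l - 1)).map f).reverse) ∨
    ∃ i k x C, i + 2 ≤ k ∧ k ≤ l ∧ x ∈ S1 ∧ Pock H C {f i, f k, x} ∧ Disjoint C (ls A1) ∧
      Disjoint C S2 ∧ C ∩ f '' Iic l = f '' Ioo i k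

/-- the relative cut along a connected set -/
def CutRS : Prop :=
  ∀ (V : Type) [Finite V] (H : SimpleGraph V) (U Q S1 S2 : Set V) (a b : V) (A1 A2 : List V),
    Soc H U (a :: A1 ++ b :: A2) → Q ⊆ U → Conn H Q → a ∈ Q → b ∈ Q → Disjoint Q (ls A1) →
    Disjoint Q (ls A2) → S1 = lk H (U \ Q) (ls A1) → S2 = lk H (U \ Q) (ls A2) →
    ¬ PX H U (sg (a :: A1 ++ [b]) ++ [S2]) → ¬ PX H U (sg (b :: A2 ++ [a]) ++ [S1]) →
    ∃ (Y : List V) (H1 H2 : SimpleGraph V) (U1 U2 : Set V),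
      Split H H1 H2 U U1 U2 (ls (a :: Y ++ [b])) ∧ (a :: Y ++ [b]).Nodup ∧
      S1 ⊆ U1 \ U2 ∧ S2 ⊆ U2 \ U1 ∧ (∀ y ∈ Y, y ∈ lk H (U \ (S1 ∪ S2)) {a}) ∧
      ¬ Cr H1 U1 (a :: A1 ++ b :: Y.reverse) ∧ ¬ Cr H2 U2 (b :: A2 ++ a :: Y) ∧
      ∀ x ∈ a :: Y ++ [b], ∀ y ∈ a :: Y ++ [b], H.Adj x y →
        [x, y] <:+: a :: Y ++ [b] ∨ [y, x] <:+: a :: Y ++ [b]

/-- two flat sides make a flat society -/
def GlueS : Prop :=
  ∀ (V : Type) (H H1 H2 : SimpleGraph V) (U U1 U2 : Set V) (a b : V) (A1 A2 Y : List V),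
    Split H H1 H2 U U1 U2 (ls (a :: Y ++ [b])) → (a :: A1 ++ b :: A2 ++ Y).Nodup →
    (∀ x ∈ A1, x ∈ U1) → (∀ x ∈ A2, x ∈ U2) → ¬ Cr H1 U1 (a :: A1 ++ b :: Y.reverse) →
    ¬ Cr H2 U2 (b :: A2 ++ a :: Y) → ¬ Cr H U (a :: A1 ++ b :: A2)

/-- the cut of a flat society with ports -/
def CutPS : Prop :=
  ∀ (V : Type) [Finite V] (H : SimpleGraph V) (U Q S1 S2 a b : Set V) (A1 A2 : List (Set V)),
    Tight H U → (a :: A1 ++ b :: A2).Pairwise Disjoint → un (a :: A1 ++ b :: A2) ⊆ U →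
    Q ⊆ U → Conn H Q → (Q ∩ a).Nonempty → (Q ∩ b).Nonempty → Disjoint Q (un A1) →
    Disjoint Q (un A2) → S1 = lk H (U \ (Q ∪ a ∪ b)) (un A1) →
    S2 = lk H (U \ (Q ∪ a ∪ b)) (un A2) → ¬ PX H U (a :: A1 ++ b :: A2) →
    ∃ (Y : List V) (H1 H2 : SimpleGraph V) (U1 U2 : Set V),
      Split H H1 H2 U U1 U2 (a ∪ b ∪ ls Y) ∧ Y.Nodup ∧ Disjoint (ls Y) (a ∪ b) ∧
      S1 ⊆ U1 \ U2 ∧ S2 ⊆ U2 \ U1 ∧ (∀ y ∈ Y, y ∈ lk H (U \ (S1 ∪ S2)) (a ∪ b)) ∧
      ¬ PX H1 U1 (a :: A1 ++ b :: sg Y.reverse) ∧ ¬ PX H2 U2 (b :: A2 ++ a :: sg Y)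

/-- flatness is local -/
def LocS : Prop :=
  ∀ (V : Type) [Finite V] (H : SimpleGraph V) (U Q S1 S2 a b : Set V) (A1 A2 : List (Set V)),
    (a :: A1 ++ b :: A2).Pairwise Disjoint → un (a :: A1 ++ b :: A2) ⊆ U →
    Q ⊆ U → Conn H Q → (Q ∩ a).Nonempty → (Q ∩ b).Nonempty → Disjoint Q (un A1) →
    Disjoint Q (un A2) → S1 = lk H (U \ (Q ∪ a ∪ b)) (un A1) →
    S2 = lk H (U \ (Q ∪ a ∪ b)) (un A2) → ¬ PX H U (a :: A1 ++ [b, S2]) →
    ¬ PX H U (b :: A2 ++ [a, S1]) → ¬ PX H U (a :: A1 ++ b :: A2)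

/-- operations on drawings; seams may be empty -/
def KitS : Prop :=
  ∀ (V : Type) (d : ℕ),
    (∀ (H : SimpleGraph V) U ws g q g' q' d', Drawn H U ws g q d → g ≤ g' → q ≤ q' → d ≤ d' →
      Drawn H U ws g' q' d') ∧
    (∀ (H : SimpleGraph V) U w w' ws g q, Drawn H U (w :: ws) g q d →
      List.Sublist w' w ∨ List.IsRotated w w' ∨ w' = w.reverse → Drawn H U (w' :: ws) g q d) ∧
    (∀ (H : SimpleGraph V) U w ws g q, Drawn H U (w :: ws) g q d → Drawn H U ws g q d) ∧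
    (∀ (H : SimpleGraph V) U ws ws' g q, Drawn H U ws g q d → List.Perm ws ws' →
      Drawn H U ws' g q d) ∧
    ∀ (H H1 H2 : SimpleGraph V) (U U1 U2 S : Set V) (ws ws' : List (List V)) (g g' q q' : ℕ)
      (Y Z A B C D : List V), Split H H1 H2 U U1 U2 S →
      (S = ∅ → Drawn H1 U1 ws g q d → Drawn H U ws g q d) ∧
      (S ⊆ ls Y → (Y ++ A ++ B).Nodup → Drawn H1 U1 ((Y ++ A) :: ws) g q d →
        Drawn H2 U2 ((Y.reverse ++ B) :: ws') g' q' d →
        Drawn H U ((lt Y ++ A ++ hd Y ++ B) :: (ws ++ ws')) (g + g') (q + q') d) ∧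
      (S ⊆ ls (Y ++ Z) → (Y ++ Z ++ A ++ B ++ C ++ D).Nodup →
        (Drawn H1 U1 ((Y ++ A ++ Z ++ B) :: ws) g q d →
          Drawn H2 U2 ((Y.reverse ++ C ++ Z ++ D) :: ws') g' q' d →
          Drawn H U ((lt Y ++ A ++ hd Z ++ C.reverse ++ hd Y ++ B.reverse ++ lt Z ++ D) ::
            (ws ++ ws')) (g + g' + 2) (q + q') d) ∧
        (Drawn H1 U1 ((Y ++ A ++ Z ++ B) :: ws) g q d →
          Drawn H2 U2 ((Y.reverse ++ C ++ Z.reverse ++ D) :: ws') g' q' d →
          ∀ P Q, List.Sublist P (lt Y ++ A ++ hd Z ++ D) → List.Sublist Q (lt Z ++ B ++ hd Y ++ C) →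
            List.Disjoint P Q → Drawn H U (P :: Q :: (ws ++ ws')) (g + g' + 4) (q + q') d) ∧
        (Drawn H1 U1 ((Y ++ A) :: (Z ++ B) :: ws) g q d →
          Drawn H2 U2 ((Y.reverse ++ C ++ Z.reverse ++ D) :: ws') g' q' d →
          Drawn H U ((lt Y ++ A ++ hd Y ++ C ++ lt Z ++ B ++ hd Z ++ D) :: (ws ++ ws'))
            (g + g' + 4) (q + q') d))

/-- letters are nodes; a vertex of two cells is a node of both -/
def InvS : Prop :=
  ∀ (V : Type) (cs : List (Cell V)) (ws : List (List V)) (g : ℕ), Dr cs ws g →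
    (∀ w ∈ ws, ∀ x ∈ w, ∃ c ∈ cs, x ∈ c.N) ∧
    ((∀ c ∈ cs, ls c.N ⊆ c.W) → cs.Pairwise fun c c' => c.W ∩ c'.W ⊆ ls c.N ∩ ls c'.N)

/-- the two paths theorem -/
def TwoS : Prop :=
  ∀ (V : Type) [Finite V] (H : SimpleGraph V) (U : Set V) (L : List V), Soc H U L → ¬ Cr H U L →
    Drawn H U [L] 0 0 0

/-- flat windows round a hub -/
def FanS : Prop :=
  ∀ (V : Type) [Finite V] (H : SimpleGraph V) (U I : Set V) (k : ℕ) (G : ℕ → Set V) (o : ℕ → V)
    (seg : ℕ → List V) (κ : V → ℕ), 2 ≤ k → Soc H U (cyc o seg (3 * k)) → I ⊆ U → Conn H I →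
    Disjoint I (ls (cyc o seg (3 * k))) →
    (∀ i < 3 * k, G i ⊆ U \ I ∧ Conn H (G i) ∧ Touch H I (G i) ∧ o i ∈ G i ∧
      ∀ x ∈ seg i, κ x = 2 * i + 1) →
    (∀ v ∈ U \ I, κ v < 6 * k ∧ ∀ i < 3 * k, κ v = 2 * i ↔ v ∈ G i) →
    ¬ Touch H (G (3 * k - 1)) (G 0) →
    (∀ u ∈ U \ I, ∀ v ∈ U \ I, H.Adj u v → Stp (3 * k) (κ u) (κ v)) →
    (∀ i < k, ¬ PX H (I ∪ {v | v ∈ U \ I ∧ ∃ x ≤ 10, κ v = (6 * i + x) % (6 * k)})
      (sg (arc o seg (3 * k) (3 * i) 5) ++ [I])) →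
    HF H U (cyc o seg (3 * k)) I

/-- the edges of the ordinary cells -/
def Gc {V : Type} (cs : List (Cell V)) : SimpleGraph V where
  Adj u v := ∃ c ∈ cs, c.k = .cell ∧ c.g.Adj u v
  symm := ⟨fun _ _ ⟨c, h1, h2, h3⟩ => ⟨c, h1, h2, h3.symm⟩⟩
  loopless := ⟨fun _ ⟨c, _, _, h⟩ => c.g.irrefl h⟩

/-- the structure theorem -/
def StructS : Prop :=
  ∀ h, ∃ α q d γ w : ℕ, ∀ r, ∃ g, ∀ (V : Type) [Finite V] (G : SimpleGraph V)
    (B : Fin g × Fin g → Set V), NoK h G → Model (grid g) G univ B →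
    ∃ (A : Set V) (cs : List (Cell V)) (X : Fin r × Fin r → Set V) (x0 y0 : ℕ), A.ncard ≤ α ∧
      Dr cs [] γ ∧ Rend (res G Aᶜ) Aᶜ cs ∧ (∀ c ∈ cs, c.Ok d) ∧
      (cs.countP fun c => decide (c.k = .hole)) ≤ q ∧ Model (grid r) (Gc cs) Aᶜ X ∧
      ∀ p, ∃ n ∈ X p, (∃ c ∈ cs, c.k = .cell ∧ n ∈ c.N) ∧ ∃ x y : Fin g, n ∈ B (x, y) ∧
        x0 + w * p.1.1 ≤ x.1 ∧ x.1 < x0 + w * p.1.1 + w ∧ y0 + w * p.2.1 ≤ y.1 ∧
        y.1 < y0 + w * p.2.1 + w

end Pool.Agent.MP_9d78a0_co.st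

end MrgPart0

-- ======== part 1: formerly Pool.Agent.MP_9d78a0_co.st.Nf
section MrgPart1

/-! Normal form of a cross; sublists with four entries. -/

set_option autoImplicit false

namespace Pool.Agent.MP_9d78a0_co.st

open Set Function fb

namespace nf

section lists

variable {α : Type}

theorem cons_sub_iff {a : α} {t L : List α} :
    List.Sublist (a :: t) L ↔ ∃ i, L[i]? = some a ∧ List.Sublist t (L.drop (i + 1)) := by
  induction L with
  | nil => simp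
  | cons x L ih =>
    constructor
    · intro h
      cases h with
      | cons _ h =>
        obtain ⟨i, h1, h2⟩ := ih.1 h
        exact ⟨i + 1, by simpa using h1, by simpa using h2⟩
      | cons_cons _ h => exact ⟨0, by simp, by simpa using h⟩
    · rintro ⟨i, h1, h2⟩
      cases i with
      | zero =>
        have e : x = a := by simpa using h1
        subst e
        exact List.Sublist.cons_cons _ (by simpa using h2)
      | succ i => exact List.Sublist.cons _ (ih.2 ⟨i, by simpa using h1, by simpa using h2⟩)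

/-- sublists with two entries, by positions -/
theorem sub2_iff {a b : α} {L : List α} :
    List.Sublist [a, b] L ↔ ∃ i j : ℕ, i < j ∧ L[i]? = some a ∧ L[j]? = some b := by
  simp only [cons_sub_iff, List.nil_sublist, and_true, List.getElem?_drop]
  constructor
  · rintro ⟨i, h1, j, h2⟩
    exact ⟨i, i + 1 + j, by omega, h1, h2⟩
  · rintro ⟨i, j, h, h1, h2⟩
    exact ⟨i, h1, j - (i + 1), by rwa [show i + 1 + (j - (i + 1)) = j by omega]⟩

/-- sublists with three entries, by positions -/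
theorem sub3_iff {a b c : α} {L : List α} :
    List.Sublist [a, b, c] L ↔
      ∃ i j k : ℕ, i < j ∧ j < k ∧ L[i]? = some a ∧ L[j]? = some b ∧ L[k]? = some c := by
  rw [cons_sub_iff]
  simp only [sub2_iff, List.getElem?_drop]
  constructor
  · rintro ⟨i, h1, j, k, h, h2, h3⟩
    exact ⟨i, i + 1 + j, i + 1 + k, by omega, by omega, h1, h2, h3⟩
  · rintro ⟨i, j, k, h, h', h1, h2, h3⟩
    exact ⟨i, h1, j - (i + 1), k - (i + 1), by omega,
      by rwa [show i + 1 + (j - (i + 1)) = j by omega],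
      by rwa [show i + 1 + (k - (i + 1)) = k by omega]⟩

/-- sublists with four entries, by positions -/
theorem sub4_iff {a b c d : α} {L : List α} :
    List.Sublist [a, b, c, d] L ↔ ∃ i j k m : ℕ, i < j ∧ j < k ∧ k < m ∧ L[i]? = some a ∧
      L[j]? = some b ∧ L[k]? = some c ∧ L[m]? = some d := by
  rw [cons_sub_iff]
  simp only [sub3_iff, List.getElem?_drop]
  constructor
  · rintro ⟨i, h1, j, k, m, h, h', h2, h3, h4⟩
    exact ⟨i, i + 1 + j, i + 1 + k, i + 1 + m, by omega, by omega, by omega, h1, h2, h3, h4⟩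
  · rintro ⟨i, j, k, m, h, h', h'', h1, h2, h3, h4⟩
    exact ⟨i, h1, j - (i + 1), k - (i + 1), m - (i + 1), by omega, by omega,
      by rwa [show i + 1 + (j - (i + 1)) = j by omega],
      by rwa [show i + 1 + (k - (i + 1)) = k by omega],
      by rwa [show i + 1 + (m - (i + 1)) = m by omega]⟩

theorem sub2_append {a b : α} {X Y : List α} :
    List.Sublist [a, b] (X ++ Y) ↔
      List.Sublist [a, b] Y ∨ (a ∈ X ∧ b ∈ Y) ∨ List.Sublist [a, b] X := by
  constructor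
  · intro h
    obtain ⟨l1, l2, e, h1, h2⟩ := List.sublist_append_iff.1 h
    rcases l1 with _ | ⟨x, _ | ⟨y, _ | ⟨z, l1⟩⟩⟩ <;> simp at e
    · subst e; exact Or.inl h2
    · obtain ⟨rfl, rfl⟩ := e
      exact Or.inr (Or.inl ⟨by simpa using h1, by simpa using h2⟩)
    · obtain ⟨rfl, rfl, rfl⟩ := e
      exact Or.inr (Or.inr h1)
  · rintro (h | ⟨h1, h2⟩ | h)
    · exact h.trans (List.sublist_append_right _ _)
    · exact (List.singleton_sublist.2 h1).append (List.singleton_sublist.2 h2)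
    · exact h.trans (List.sublist_append_left _ _)

theorem sub3_append {a b c : α} {X Y : List α} :
    List.Sublist [a, b, c] (X ++ Y) ↔
      List.Sublist [a, b, c] Y ∨ (a ∈ X ∧ List.Sublist [b, c] Y) ∨
        (List.Sublist [a, b] X ∧ c ∈ Y) ∨ List.Sublist [a, b, c] X := by
  constructor
  · intro h
    obtain ⟨l1, l2, e, h1, h2⟩ := List.sublist_append_iff.1 h
    rcases l1 with _ | ⟨x, _ | ⟨y, _ | ⟨z, _ | ⟨w, l1⟩⟩⟩⟩ <;> simp at e
    · subst e; exact Or.inl h2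
    · obtain ⟨rfl, rfl⟩ := e
      exact Or.inr (Or.inl ⟨by simpa using h1, h2⟩)
    · obtain ⟨rfl, rfl, rfl⟩ := e
      exact Or.inr (Or.inr (Or.inl ⟨h1, by simpa using h2⟩))
    · obtain ⟨rfl, rfl, rfl, rfl⟩ := e
      exact Or.inr (Or.inr (Or.inr h1))
  · rintro (h | ⟨h1, h2⟩ | ⟨h1, h2⟩ | h)
    · exact h.trans (List.sublist_append_right _ _)
    · exact (List.singleton_sublist.2 h1).append h2
    · exact h1.append (List.singleton_sublist.2 h2)
    · exact h.trans (List.sublist_append_left _ _)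

theorem sub4_append {a b c d : α} {X Y : List α} :
    List.Sublist [a, b, c, d] (X ++ Y) ↔
      List.Sublist [a, b, c, d] Y ∨ (a ∈ X ∧ List.Sublist [b, c, d] Y) ∨
        (List.Sublist [a, b] X ∧ List.Sublist [c, d] Y) ∨ (List.Sublist [a, b, c] X ∧ d ∈ Y) ∨
        List.Sublist [a, b, c, d] X := by
  constructor
  · intro h
    obtain ⟨l1, l2, e, h1, h2⟩ := List.sublist_append_iff.1 h
    rcases l1 with _ | ⟨x, _ | ⟨y, _ | ⟨z, _ | ⟨w, _ | ⟨u, l1⟩⟩⟩⟩⟩ <;> simp at e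
    · subst e; exact Or.inl h2
    · obtain ⟨rfl, rfl⟩ := e
      exact Or.inr (Or.inl ⟨by simpa using h1, h2⟩)
    · obtain ⟨rfl, rfl, rfl⟩ := e
      exact Or.inr (Or.inr (Or.inl ⟨h1, h2⟩))
    · obtain ⟨rfl, rfl, rfl, rfl⟩ := e
      exact Or.inr (Or.inr (Or.inr (Or.inl ⟨h1, by simpa using h2⟩)))
    · obtain ⟨rfl, rfl, rfl, rfl, rfl⟩ := e
      exact Or.inr (Or.inr (Or.inr (Or.inr h1)))
  · rintro (h | ⟨h1, h2⟩ | ⟨h1, h2⟩ | ⟨h1, h2⟩ | h)
    · exact h.trans (List.sublist_append_right _ _)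
    · exact (List.singleton_sublist.2 h1).append h2
    · exact h1.append h2
    · exact h1.append (List.singleton_sublist.2 h2)
    · exact h.trans (List.sublist_append_left _ _)

theorem sub4_cons {a b c d x : α} {Y : List α} :
    List.Sublist [a, b, c, d] (x :: Y) ↔
      List.Sublist [a, b, c, d] Y ∨ (a = x ∧ List.Sublist [b, c, d] Y) := List.cons_sublist_cons'

theorem sub4_snoc {a b c d x : α} {X : List α} :
    List.Sublist [a, b, c, d] (X ++ [x]) ↔
      List.Sublist [a, b, c, d] X ∨ (List.Sublist [a, b, c] X ∧ d = x) := by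
  rw [sub4_append]
  constructor
  · rintro (h | ⟨_, h⟩ | ⟨_, h⟩ | ⟨h1, h2⟩ | h)
    · have := h.length_le; simp at this
    · have := h.length_le; simp at this
    · have := h.length_le; simp at this
    · exact Or.inr ⟨h1, by simpa using h2⟩
    · exact Or.inl h
  · rintro (h | ⟨h1, rfl⟩)
    · exact Or.inr (Or.inr (Or.inr (Or.inr h)))
    · exact Or.inr (Or.inr (Or.inr (Or.inl ⟨h1, by simp⟩)))

/-- a sublist of a list with a marked entry -/
theorem sub_mid {T L1 L2 : List α} {x : α} (h : List.Sublist T (L1 ++ x :: L2)) :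
    List.Sublist T (L1 ++ L2) ∨
      ∃ T1 T2, T = T1 ++ x :: T2 ∧ List.Sublist T1 L1 ∧ List.Sublist T2 L2 := by
  obtain ⟨l1, l2, rfl, h1, h2⟩ := List.sublist_append_iff.1 h
  cases h2 with
  | cons _ h => exact Or.inl (h1.append h)
  | cons_cons _ h => exact Or.inr ⟨_, _, rfl, h1, h⟩

theorem sub4_mid {a b c d x : α} {L1 L2 : List α} :
    List.Sublist [a, b, c, d] (L1 ++ x :: L2) ↔
      List.Sublist [a, b, c, d] (L1 ++ L2) ∨ (a = x ∧ List.Sublist [b, c, d] L2) ∨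
        (b = x ∧ a ∈ L1 ∧ List.Sublist [c, d] L2) ∨ (c = x ∧ List.Sublist [a, b] L1 ∧ d ∈ L2) ∨
        (d = x ∧ List.Sublist [a, b, c] L1) := by
  constructor
  · intro h
    rcases sub_mid h with h | ⟨T1, T2, e, h1, h2⟩
    · exact Or.inl h
    right
    rcases T1 with _ | ⟨x1, _ | ⟨x2, _ | ⟨x3, _ | ⟨x4, l1⟩⟩⟩⟩ <;> simp at e
    · obtain ⟨rfl, rfl⟩ := e
      exact Or.inl ⟨rfl, h2⟩
    · obtain ⟨rfl, rfl, rfl⟩ := e
      exact Or.inr (Or.inl ⟨rfl, by simpa using h1, h2⟩)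
    · obtain ⟨rfl, rfl, rfl, rfl⟩ := e
      exact Or.inr (Or.inr (Or.inl ⟨rfl, h1, by simpa using h2⟩))
    · obtain ⟨rfl, rfl, rfl, rfl, rfl⟩ := e
      exact Or.inr (Or.inr (Or.inr ⟨rfl, h1⟩))
  · rintro (h | ⟨rfl, h⟩ | ⟨rfl, h1, h2⟩ | ⟨rfl, h1, h2⟩ | ⟨rfl, h⟩)
    · exact h.trans ((List.Sublist.refl _).append (List.sublist_cons_self _ _))
    · exact (h.cons_cons _).trans (List.sublist_append_right _ _)
    · exact (List.singleton_sublist.2 h1).append (h2.cons_cons _)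
    · exact h1.append ((List.singleton_sublist.2 h2).cons_cons _)
    · exact h.append ((List.nil_sublist _).cons_cons _)

theorem rot_split {L L' : List α} (h : List.IsRotated L L') :
    ∃ X Y, L = X ++ Y ∧ L' = Y ++ X := by
  obtain ⟨n, hn, rfl⟩ := List.isRotated_iff_mod.1 h
  exact ⟨L.take n, L.drop n, (List.take_append_drop _ _).symm, List.rotate_eq_drop_append_take hn⟩

theorem sub3_rot {a b c : α} {L L' : List α} (hr : List.IsRotated L L')
    (h : List.Sublist [a, b, c] L) :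
    List.Sublist [a, b, c] L' ∨ List.Sublist [b, c, a] L' ∨ List.Sublist [c, a, b] L' := by
  obtain ⟨X, Y, rfl, rfl⟩ := rot_split hr
  rcases sub3_append.1 h with h | ⟨h1, h2⟩ | ⟨h1, h2⟩ | h
  · exact Or.inl (h.trans (List.sublist_append_left _ _))
  · exact Or.inr (Or.inl (h2.append (List.singleton_sublist.2 h1)))
  · exact Or.inr (Or.inr ((List.singleton_sublist.2 h2).append h1))
  · exact Or.inl (h.trans (List.sublist_append_right _ _))

theorem sub4_rot {a b c d : α} {L L' : List α} (hr : List.IsRotated L L')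
    (h : List.Sublist [a, b, c, d] L) :
    List.Sublist [a, b, c, d] L' ∨ List.Sublist [b, c, d, a] L' ∨ List.Sublist [c, d, a, b] L' ∨
      List.Sublist [d, a, b, c] L' := by
  obtain ⟨X, Y, rfl, rfl⟩ := rot_split hr
  rcases sub4_append.1 h with h | ⟨h1, h2⟩ | ⟨h1, h2⟩ | ⟨h1, h2⟩ | h
  · exact Or.inl (h.trans (List.sublist_append_left _ _))
  · exact Or.inr (Or.inl (h2.append (List.singleton_sublist.2 h1)))
  · exact Or.inr (Or.inr (Or.inl (h2.append h1)))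
  · exact Or.inr (Or.inr (Or.inr ((List.singleton_sublist.2 h2).append h1)))
  · exact Or.inl (h.trans (List.sublist_append_right _ _))

theorem sub3_rev {a b c : α} {L : List α} :
    List.Sublist [a, b, c] L.reverse ↔ List.Sublist [c, b, a] L := by
  rw [← List.reverse_sublist]; simp

theorem sub4_rev {a b c d : α} {L : List α} :
    List.Sublist [a, b, c, d] L.reverse ↔ List.Sublist [d, c, b, a] L := by
  rw [← List.reverse_sublist]; simp

theorem sub3_map {β : Type} {f : β → α} {a b c : α} {L : List β} :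
    List.Sublist [a, b, c] (L.map f) ↔
      ∃ x y z, List.Sublist [x, y, z] L ∧ a = f x ∧ b = f y ∧ c = f z := by
  rw [List.sublist_map_iff]
  constructor
  · rintro ⟨l, h, e⟩
    rcases l with _ | ⟨x, _ | ⟨y, _ | ⟨z, _ | ⟨u, l1⟩⟩⟩⟩ <;> simp at e
    exact ⟨x, y, z, h, e⟩
  · rintro ⟨x, y, z, h, rfl, rfl, rfl⟩
    exact ⟨_, h, rfl⟩

theorem sub4_map {β : Type} {f : β → α} {a b c d : α} {L : List β} :
    List.Sublist [a, b, c, d] (L.map f) ↔
      ∃ x y z w, List.Sublist [x, y, z, w] L ∧ a = f x ∧ b = f y ∧ c = f z ∧ d = f w := by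
  rw [List.sublist_map_iff]
  constructor
  · rintro ⟨l, h, e⟩
    rcases l with _ | ⟨x, _ | ⟨y, _ | ⟨z, _ | ⟨w, _ | ⟨u, l1⟩⟩⟩⟩⟩ <;> simp at e
    exact ⟨x, y, z, w, h, e⟩
  · rintro ⟨x, y, z, w, h, rfl, rfl, rfl, rfl⟩
    exact ⟨_, h, rfl⟩

theorem sub4_mem {a b c d : α} {L : List α} (h : List.Sublist [a, b, c, d] L) :
    a ∈ L ∧ b ∈ L ∧ c ∈ L ∧ d ∈ L :=
  ⟨h.subset (by simp), h.subset (by simp), h.subset (by simp), h.subset (by simp)⟩

end lists

variable {V : Type} {H : SimpleGraph V} {U : Set V}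

theorem mem_sg {s : Set V} {L : List V} : s ∈ sg L ↔ ∃ x ∈ L, s = {x} := by
  simp only [sg, List.mem_map]
  exact ⟨fun ⟨x, h, e⟩ => ⟨x, h, e.symm⟩, fun ⟨x, h, e⟩ => ⟨x, h, e.symm⟩⟩

theorem sg_append (A B : List V) : sg (A ++ B) = sg A ++ sg B := List.map_append

theorem sg_cons (x : V) (A : List V) : sg (x :: A) = {x} :: sg A := rfl

theorem sg_reverse (A : List V) : sg A.reverse = (sg A).reverse := List.map_reverse

theorem un_sg (A : List V) : un (sg A) = ls A := by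
  ext v
  simp only [un, ls, mem_ofPred_eq, mem_sg]
  exact ⟨fun ⟨_, ⟨x, h, e⟩, hv⟩ => by subst e; exact (show v = x from hv) ▸ h,
    fun h => ⟨_, ⟨v, h, rfl⟩, rfl⟩⟩

theorem un_append (A B : List (Set V)) : un (A ++ B) = un A ∪ un B := by
  ext v
  simp only [un, mem_ofPred_eq, List.mem_append, mem_union]
  exact ⟨fun ⟨s, h, hv⟩ => h.imp (fun h => ⟨s, h, hv⟩) fun h => ⟨s, h, hv⟩,
    fun h => h.elim (fun ⟨s, h, hv⟩ => ⟨s, Or.inl h, hv⟩) fun ⟨s, h, hv⟩ => ⟨s, Or.inr h, hv⟩⟩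

theorem un_cons (s : Set V) (A : List (Set V)) : un (s :: A) = s ∪ un A := by
  ext v
  simp [un]

theorem un_nil : un ([] : List (Set V)) = ∅ := by
  ext v
  simp [un]

theorem sub_un {s : Set V} {A : List (Set V)} (h : s ∈ A) : s ⊆ un A := fun _ hv => ⟨s, h, hv⟩

theorem sg_disj {A : List V} : (sg A).Pairwise Disjoint ↔ A.Nodup := by
  simp only [sg, List.pairwise_map, disjoint_singleton]
  rfl

theorem sub3_sg {a b c : Set V} {L : List V} :
    List.Sublist [a, b, c] (sg L) ↔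
      ∃ x y z, List.Sublist [x, y, z] L ∧ a = {x} ∧ b = {y} ∧ c = {z} := sub3_map

theorem sub4_sg {a b c d : Set V} {L : List V} :
    List.Sublist [a, b, c, d] (sg L) ↔
      ∃ x y z w, List.Sublist [x, y, z, w] L ∧ a = {x} ∧ b = {y} ∧ c = {z} ∧ d = {w} := sub4_map

theorem sub4_sg_port {a b c d S : Set V} {L : List V} :
    List.Sublist [a, b, c, d] (sg L ++ [S]) ↔
      (∃ x y z w, List.Sublist [x, y, z, w] L ∧ a = {x} ∧ b = {y} ∧ c = {z} ∧ d = {w}) ∨
      ∃ x y z, List.Sublist [x, y, z] L ∧ a = {x} ∧ b = {y} ∧ c = {z} ∧ d = S := by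
  rw [sub4_snoc, sub4_sg, sub3_sg]
  refine or_congr Iff.rfl ⟨?_, ?_⟩
  · rintro ⟨⟨x, y, z, h, h1, h2, h3⟩, h4⟩
    exact ⟨x, y, z, h, h1, h2, h3, h4⟩
  · rintro ⟨x, y, z, h, h1, h2, h3, h4⟩
    exact ⟨⟨x, y, z, h, h1, h2, h3⟩, h4⟩

theorem two_symm {P Q : Set V} (h : Two H U P Q) : Two H U Q P :=
  ⟨h.sq, h.sp, h.cq, h.cp, h.dis.symm⟩

theorem two_mono {P Q U' : Set V} (h : Two H U P Q) (hU : U ⊆ U') : Two H U' P Q :=
  ⟨h.sp.trans hU, h.sq.trans hU, h.cp, h.cq, h.dis⟩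

theorem two_single {P Q : Set V} (h : Two H U P Q) (x : V) :
    Disjoint P {x} ∨ Disjoint Q {x} := by
  by_cases c : x ∈ P
  · exact Or.inr (disjoint_singleton_right.2 (disjoint_left.1 h.dis c))
  · exact Or.inl (disjoint_singleton_right.2 c)

/-- a cross on letters and one port -/
theorem px_sg_port {S : Set V} {L : List V} :
    PX H U (sg L ++ [S]) ↔ ∃ P Q, Two H U P Q ∧ (Disjoint P S ∨ Disjoint Q S) ∧
      ((∃ a b c d, List.Sublist [a, b, c, d] L ∧ a ∈ P ∧ c ∈ P ∧ b ∈ Q ∧ d ∈ Q) ∨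
        ∃ a b c, List.Sublist [a, b, c] L ∧ a ∈ P ∧ c ∈ P ∧ b ∈ Q ∧ (Q ∩ S).Nonempty) := by
  constructor
  · rintro ⟨a, b, c, d, hs, P, Q, hT, h1, h2, h3, h4, h5⟩
    refine ⟨P, Q, hT, h5 S (by simp), ?_⟩
    rcases sub4_sg_port.1 hs with ⟨x, y, z, w, h, rfl, rfl, rfl, rfl⟩ |
      ⟨x, y, z, h, rfl, rfl, rfl, rfl⟩
    · exact Or.inl ⟨x, y, z, w, h, inter_singleton_nonempty.1 h1, inter_singleton_nonempty.1 h2,
        inter_singleton_nonempty.1 h3, inter_singleton_nonempty.1 h4⟩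
    · exact Or.inr ⟨x, y, z, h, inter_singleton_nonempty.1 h1, inter_singleton_nonempty.1 h2,
        inter_singleton_nonempty.1 h3, h4⟩
  · rintro ⟨P, Q, hT, hS, h⟩
    have key : ∀ s ∈ sg L ++ [S], Disjoint P s ∨ Disjoint Q s := by
      intro s hs
      rcases List.mem_append.1 hs with hs | hs
      · obtain ⟨x, -, rfl⟩ := mem_sg.1 hs
        exact two_single hT x
      · rw [List.mem_singleton.1 hs]; exact hS
    rcases h with ⟨x, y, z, w, h, h1, h2, h3, h4⟩ | ⟨x, y, z, h, h1, h2, h3, h4⟩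
    · exact ⟨_, _, _, _, sub4_sg_port.2 (Or.inl ⟨x, y, z, w, h, rfl, rfl, rfl, rfl⟩), P, Q, hT,
        inter_singleton_nonempty.2 h1, inter_singleton_nonempty.2 h2,
        inter_singleton_nonempty.2 h3, inter_singleton_nonempty.2 h4, key⟩
    · exact ⟨_, _, _, _, sub4_sg_port.2 (Or.inr ⟨x, y, z, h, rfl, rfl, rfl, rfl⟩), P, Q, hT,
        inter_singleton_nonempty.2 h1, inter_singleton_nonempty.2 h2,
        inter_singleton_nonempty.2 h3, h4, key⟩

theorem cr_iff_px {L : List V} : Cr H U L ↔ PX H U (sg L) := by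
  constructor
  · rintro ⟨x, y, z, w, h, P, Q, hT, h1, h2, h3, h4⟩
    refine ⟨_, _, _, _, sub4_sg.2 ⟨x, y, z, w, h, rfl, rfl, rfl, rfl⟩, P, Q, hT,
      inter_singleton_nonempty.2 h1, inter_singleton_nonempty.2 h2,
      inter_singleton_nonempty.2 h3, inter_singleton_nonempty.2 h4, fun s hs => ?_⟩
    obtain ⟨x, -, rfl⟩ := mem_sg.1 hs
    exact two_single hT x
  · rintro ⟨a, b, c, d, hs, P, Q, hT, h1, h2, h3, h4, -⟩
    obtain ⟨x, y, z, w, h, rfl, rfl, rfl, rfl⟩ := sub4_sg.1 hs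
    exact ⟨x, y, z, w, h, P, Q, hT, inter_singleton_nonempty.1 h1, inter_singleton_nonempty.1 h2,
      inter_singleton_nonempty.1 h3, inter_singleton_nonempty.1 h4⟩

theorem px_rot {LL LL' : List (Set V)} (hr : List.IsRotated LL LL') (h : PX H U LL) :
    PX H U LL' := by
  obtain ⟨a, b, c, d, hs, P, Q, hT, h1, h2, h3, h4, h5⟩ := h
  have k : ∀ s ∈ LL', Disjoint P s ∨ Disjoint Q s := fun s hs => h5 s (hr.mem_iff.2 hs)
  rcases sub4_rot hr hs with h | h | h | h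
  · exact ⟨_, _, _, _, h, P, Q, hT, h1, h2, h3, h4, k⟩
  · exact ⟨_, _, _, _, h, Q, P, two_symm hT, h3, h4, h2, h1, fun s hs => (k s hs).symm⟩
  · exact ⟨_, _, _, _, h, P, Q, hT, h2, h1, h4, h3, k⟩
  · exact ⟨_, _, _, _, h, Q, P, two_symm hT, h4, h3, h1, h2, fun s hs => (k s hs).symm⟩

theorem px_rev {LL : List (Set V)} (h : PX H U LL) : PX H U LL.reverse := by
  obtain ⟨a, b, c, d, hs, P, Q, hT, h1, h2, h3, h4, h5⟩ := h
  exact ⟨_, _, _, _, sub4_rev.2 hs, Q, P, two_symm hT, h4, h3, h2, h1,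
    fun s hs => (h5 s (List.mem_reverse.1 hs)).symm⟩

theorem cr_rot {L L' : List V} (hr : List.IsRotated L L') (h : Cr H U L) : Cr H U L' :=
  cr_iff_px.2 (px_rot (hr.map _) (cr_iff_px.1 h))

theorem cr_rev {L : List V} (h : Cr H U L) : Cr H U L.reverse :=
  cr_iff_px.2 (by rw [sg_reverse]; exact px_rev (cr_iff_px.1 h))

theorem cr_sub {L L' : List V} (hs : List.Sublist L L') (h : Cr H U L) : Cr H U L' := by
  obtain ⟨a, b, c, d, h1, h2⟩ := h
  exact ⟨a, b, c, d, h1.trans hs, h2⟩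

theorem cr_mono {L : List V} {U' : Set V} (hU : U ⊆ U') (h : Cr H U L) : Cr H U' L := by
  obtain ⟨a, b, c, d, h1, P, Q, hT, h2⟩ := h
  exact ⟨a, b, c, d, h1, P, Q, two_mono hT hU, h2⟩

theorem px_mono {LL : List (Set V)} {U' : Set V} (hU : U ⊆ U') (h : PX H U LL) : PX H U' LL := by
  obtain ⟨a, b, c, d, h1, P, Q, hT, h2⟩ := h
  exact ⟨a, b, c, d, h1, P, Q, two_mono hT hU, h2⟩

theorem hf_rot {L L' : List V} {I : Set V} (hr : List.IsRotated L L') (h : HF H U L I) :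
    HF H U L' I := by
  intro a b c d hs P Q hT h1 h2 h3 h4
  rcases sub4_rot hr.symm hs with e | e | e | e
  · exact h _ _ _ _ e P Q hT h1 h2 h3 h4
  · exact (h _ _ _ _ e Q P (two_symm hT) h3 h4 h2 h1).symm
  · exact h _ _ _ _ e P Q hT h2 h1 h4 h3
  · exact (h _ _ _ _ e Q P (two_symm hT) h4 h3 h1 h2).symm

theorem hf_rev {L : List V} {I : Set V} (h : HF H U L I) : HF H U L.reverse I := by
  intro a b c d hs P Q hT h1 h2 h3 h4
  exact (h _ _ _ _ (sub4_rev.1 hs) Q P (two_symm hT) h4 h3 h2 h1).symm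

theorem px_unmerge {L1 M L2 : List (Set V)} (h : PX H U (L1 ++ un M :: L2)) :
    PX H U (L1 ++ M ++ L2) := by
  obtain ⟨a, b, c, d, hs, P, Q, hT, h1, h2, h3, h4, h5⟩ := h
  have k : ∀ s ∈ L1 ++ M ++ L2, Disjoint P s ∨ Disjoint Q s := by
    intro s hs
    simp only [List.mem_append] at hs
    rcases hs with (hs | hs) | hs
    · exact h5 s (by simp [hs])
    · exact (h5 (un M) (by simp)).imp (fun h => h.mono_right (sub_un hs))
        fun h => h.mono_right (sub_un hs)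
    · exact h5 s (by simp [hs])
  have ins : ∀ s ∈ M, List.Sublist (L1 ++ s :: L2) (L1 ++ M ++ L2) := fun s hs => by
    rw [List.append_assoc]
    exact (List.Sublist.refl _).append ((List.singleton_sublist.2 hs).append (List.Sublist.refl _))
  rcases sub4_mid.1 hs with e | ⟨rfl, e⟩ | ⟨rfl, e⟩ | ⟨rfl, e⟩ | ⟨rfl, e⟩
  · exact ⟨a, b, c, d, e.trans ((List.sublist_append_left _ _).append (List.Sublist.refl _)),
      P, Q, hT, h1, h2, h3, h4, k⟩
  · obtain ⟨v, hv, s, hs, hv'⟩ := h1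
    exact ⟨s, b, c, d, (sub4_mid.2 (Or.inr (Or.inl ⟨rfl, e⟩))).trans (ins s hs), P, Q, hT,
      ⟨v, hv, hv'⟩, h2, h3, h4, k⟩
  · obtain ⟨v, hv, s, hs, hv'⟩ := h3
    exact ⟨a, s, c, d, (sub4_mid.2 (Or.inr (Or.inr (Or.inl ⟨rfl, e⟩)))).trans (ins s hs), P, Q, hT,
      h1, h2, ⟨v, hv, hv'⟩, h4, k⟩
  · obtain ⟨v, hv, s, hs, hv'⟩ := h2
    exact ⟨a, b, s, d, (sub4_mid.2 (Or.inr (Or.inr (Or.inr (Or.inl ⟨rfl, e⟩))))).trans (ins s hs),
      P, Q, hT, h1, ⟨v, hv, hv'⟩, h3, h4, k⟩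
  · obtain ⟨v, hv, s, hs, hv'⟩ := h4
    exact ⟨a, b, c, s, (sub4_mid.2 (Or.inr (Or.inr (Or.inr (Or.inr ⟨rfl, e⟩))))).trans (ins s hs),
      P, Q, hT, h1, h2, h3, ⟨v, hv, hv'⟩, k⟩

/-- a path of positive length inside `S` whose inner vertices miss `W` -/
def IP (H : SimpleGraph V) (S W : Set V) (x y : V) : Prop :=
  ∃ f l, IsPath H S f l ∧ 0 < l ∧ f 0 = x ∧ f l = y ∧ ∀ i, 0 < i → i < l → f i ∉ W

theorem path_rev {S : Set V} {f : ℕ → V} {l : ℕ} (h : IsPath H S f l) :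
    IsPath H S (fun i => f (l - i)) l :=
  ⟨fun j _ => h.1 _ (by omega), fun j hj => by
    have := (h.2.1 (l - (j + 1)) (by omega)).symm
    rwa [show l - (j + 1) + 1 = l - j by omega] at this,
   fun i hi j hj e => by have := h.2.2 _ (by omega) _ (by omega) e; omega⟩

theorem path_sub {S : Set V} {f : ℕ → V} {l i j : ℕ} (h : IsPath H S f l) (hij : i ≤ j)
    (hj : j ≤ l) : IsPath H S (fun t => f (i + t)) (j - i) :=
  ⟨fun t _ => h.1 _ (by omega), fun t _ => h.2.1 (i + t) (by omega),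
   fun t _ t' _ e => by have := h.2.2 _ (by omega) _ (by omega) e; omega⟩

theorem path_mono {S S' : Set V} {f : ℕ → V} {l : ℕ} (h : IsPath H S f l) (hS : S ⊆ S') :
    IsPath H S' f l := ⟨fun j hj => hS (h.1 j hj), h.2⟩

theorem IP.symm {S W : Set V} {x y : V} (h : IP H S W x y) : IP H S W y x := by
  obtain ⟨f, l, h1, h2, h3, h4, h5⟩ := h
  exact ⟨_, l, path_rev h1, h2, h4, by simpa using h3, fun i a b => h5 _ (by omega) (by omega)⟩

/-- a link between two hits of different colour contains consecutive hits of different colour -/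
theorem ip_of_link {S W : Set V} (c : V → Prop) {x y : V} (hx : x ∈ S) (h : Link H S x y)
    (hxW : x ∈ W) (hyW : y ∈ W) (cx : c x) (cy : ¬ c y) :
    ∃ u ∈ S, ∃ v ∈ S, u ∈ W ∧ v ∈ W ∧ c u ∧ ¬ c v ∧ IP H S W u v := by
  classical
  obtain ⟨f, l, hp, rfl, rfl⟩ := link_path h hx
  have ex : ∃ j, j ≤ l ∧ f j ∈ W ∧ ¬ c (f j) := ⟨l, le_rfl, hyW, cy⟩
  obtain ⟨hj, hjW, hjc⟩ := Nat.find_spec ex
  have hmin := fun m => Nat.find_min ex (m := m)
  generalize Nat.find ex = j at *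
  have j0 : 0 < j := Nat.pos_of_ne_zero fun e => by subst e; exact hjc cx
  have hi : Nat.findGreatest (fun i => f i ∈ W) (j - 1) ≤ j - 1 := Nat.findGreatest_le _
  have hiW : f (Nat.findGreatest (fun i => f i ∈ W) (j - 1)) ∈ W :=
    Nat.findGreatest_spec (P := fun i => f i ∈ W) (Nat.zero_le _) hxW
  have hmax := fun m => Nat.findGreatest_is_greatest (P := fun i => f i ∈ W) (n := j - 1) (k := m)
  generalize Nat.findGreatest (fun i => f i ∈ W) (j - 1) = i at *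
  refine ⟨f i, hp.1 _ (by omega), f j, hp.1 _ hj, hiW, hjW, ?_, hjc, _, j - i,
    path_sub hp (by omega) hj, by omega, rfl, by rw [show i + (j - i) = j by omega],
    fun t a b => hmax (i + t) (by omega) (by omega)⟩
  by_contra hc
  exact hmin i (by omega) ⟨by omega, hiW, hc⟩

theorem pos_uniq {LL : List (Set V)} (hd : LL.Pairwise Disjoint) {i j : ℕ} {s t : Set V} {v : V}
    (hi : LL[i]? = some s) (hj : LL[j]? = some t) (hs : v ∈ s) (ht : v ∈ t) : i = j := by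
  have key : ∀ {i j : ℕ} {s t : Set V}, LL[i]? = some s → LL[j]? = some t → v ∈ s → v ∈ t →
      ¬ i < j := fun hi hj hs ht hlt => by
    have := hd.sublist (sub2_iff.2 ⟨_, _, hlt, hi, hj⟩)
    simp only [List.pairwise_cons, List.mem_singleton, forall_eq] at this
    exact disjoint_left.1 this.1 hs ht
  have h1 := key hi hj hs ht
  have h2 := key hj hi ht hs
  omega

theorem normal {LL : List (Set V)} (hd : LL.Pairwise Disjoint) (h : PX H U LL) :
    ∃ a b c d, List.Sublist [a, b, c, d] LL ∧ ∃ P Q, Two H U P Q ∧ ∃ x ∈ a, ∃ y ∈ b, ∃ z ∈ c,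
      ∃ w ∈ d, IP H P (un LL) x z ∧ IP H Q (un LL) y w := by
  obtain ⟨a, b, c, d, hs, P, Q, hT, ⟨x, xP, xa⟩, ⟨z, zP, zc⟩, ⟨y, yQ, yb⟩, ⟨w, wQ, wd⟩, h5⟩ := h
  obtain ⟨i1, i2, i3, i4, l1, l2, l3, e1, e2, e3, e4⟩ := sub4_iff.1 hs
  have hpos : ∀ v, ∃ p : ℕ, v ∈ un LL → ∃ s, LL[p]? = some s ∧ v ∈ s := fun v => by
    by_cases hv : v ∈ un LL
    · obtain ⟨s, hs, hv⟩ := hv
      obtain ⟨p, hp⟩ := List.getElem?_of_mem hs
      exact ⟨p, fun _ => ⟨s, hp, hv⟩⟩
    · exact ⟨0, fun h => absurd h hv⟩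
  choose pos hpos using hpos
  have hu : ∀ {v : V} {s : Set V} {i : ℕ}, LL[i]? = some s → v ∈ s → v ∈ un LL ∧ pos v = i :=
    fun {v s i} hi hv => by
      have hm : v ∈ un LL := ⟨s, List.mem_of_getElem? hi, hv⟩
      obtain ⟨t, ht, hv'⟩ := hpos v hm
      exact ⟨hm, pos_uniq hd ht hi hv' hv⟩
  have hne : ∀ u ∈ P, ∀ v ∈ Q, u ∈ un LL → v ∈ un LL → pos u ≠ pos v := fun u hu v hv a1 a2 e => by
    obtain ⟨s, b1, b2⟩ := hpos u a1
    obtain ⟨t, b3, b4⟩ := hpos v a2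
    rw [e, b3] at b1
    obtain rfl : t = s := Option.some.inj b1
    rcases h5 t (List.mem_of_getElem? b3) with h | h
    · exact disjoint_left.1 h hu b2
    · exact disjoint_left.1 h hv b4
  obtain ⟨xW, px⟩ := hu e1 xa
  obtain ⟨yW, py⟩ := hu e2 yb
  obtain ⟨zW, pz⟩ := hu e3 zc
  obtain ⟨wW, pw⟩ := hu e4 wd
  obtain ⟨q, qP, p, pP, qW, pW, cq, cp, hP⟩ := ip_of_link (W := un LL)
    (fun v => i2 < pos v ∧ pos v < i4) zP (hT.cp.2 z zP x xP) zW xW (by omega) (by omega)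
  have n1 := hne p pP y yQ pW yW
  have n2 := hne p pP w wQ pW wW
  have fin : ∀ {P Q : Set V} {x y z w : V}, Two H U P Q → x ∈ un LL → y ∈ un LL → z ∈ un LL →
      w ∈ un LL → pos x < pos y → pos y < pos z → pos z < pos w → IP H P (un LL) x z →
      IP H Q (un LL) y w → ∃ a b c d, List.Sublist [a, b, c, d] LL ∧ ∃ P Q, Two H U P Q ∧
        ∃ x ∈ a, ∃ y ∈ b, ∃ z ∈ c, ∃ w ∈ d, IP H P (un LL) x z ∧ IP H Q (un LL) y w :=
    fun {P Q x y z w} hT hx hy hz hw l1 l2 l3 hP hQ => by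
      obtain ⟨a, a1, a2⟩ := hpos x hx
      obtain ⟨b, b1, b2⟩ := hpos y hy
      obtain ⟨c, c1, c2⟩ := hpos z hz
      obtain ⟨d, d1, d2⟩ := hpos w hw
      exact ⟨a, b, c, d, sub4_iff.2 ⟨_, _, _, _, l1, l2, l3, a1, b1, c1, d1⟩, P, Q, hT, x, a2, y, b2,
        z, c2, w, d2, hP, hQ⟩
  by_cases hc : pos p < i2
  · obtain ⟨r, rQ, s, sQ, rW, sW, cr, cs, hQ⟩ := ip_of_link (W := un LL)
      (fun v => pos p < pos v ∧ pos v < pos q) yQ (hT.cq.2 y yQ w wQ) yW wW (by omega) (by omega)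
    have n3 := hne p pP s sQ pW sW
    have n4 := hne q qP s sQ qW sW
    by_cases hc' : pos s < pos p
    · exact fin (two_symm hT) sW pW rW qW hc' cr.1 cr.2 hQ.symm hP.symm
    · exact fin hT pW rW qW sW cr.1 cr.2 (by omega) hP.symm hQ
  · obtain ⟨r, rQ, s, sQ, rW, sW, cr, cs, hQ⟩ := ip_of_link (W := un LL)
      (fun v => pos q < pos v ∧ pos v < pos p) wQ (hT.cq.2 w wQ y yQ) wW yW (by omega) (by omega)
    have n3 := hne p pP s sQ pW sW
    have n4 := hne q qP s sQ qW sW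
    by_cases hc' : pos s < pos q
    · exact fin (two_symm hT) sW qW rW pW hc' cr.1 cr.2 hQ.symm hP
    · exact fin hT qW rW pW sW cr.1 cr.2 (by omega) hP hQ

end nf

theorem nfS : NfS := by
  intro V H U
  refine ⟨fun LL hd h => ?_, fun _ => nf.cr_iff_px, fun _ _ => nf.px_rot, fun _ => nf.px_rev,
    fun _ _ => nf.cr_rot, fun _ => nf.cr_rev, fun _ _ _ => nf.hf_rot, fun _ _ => nf.hf_rev,
    fun _ _ _ _ => nf.px_unmerge⟩
  obtain ⟨a, b, c, d, hs, P, Q, hT, x, hx, y, hy, z, hz, w, hw, ⟨f, l, f1, f2, rfl, rfl, f3⟩,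
    g, m, g1, g2, rfl, rfl, g3⟩ := nf.normal hd h
  exact ⟨a, b, c, d, hs, f, g, l, m, nf.path_mono f1 hT.sp, nf.path_mono g1 hT.sq, f2, g2, hx, hz,
    hy, hw, fun i hi j hj e => disjoint_left.1 hT.dis (f1.1 i hi) (e ▸ g1.1 j hj), f3, g3⟩

end Pool.Agent.MP_9d78a0_co.st

end MrgPart1

-- ======== part 2: formerly Pool.Agent.MP_9d78a0_co.st.Tri
section MrgPart2

/-! A tripod gives a cross or is cut off on its legs. -/

set_option autoImplicit false

namespace Pool.Agent.MP_9d78a0_co.st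

open Set Function fb

namespace tri

variable {V : Type} {H : SimpleGraph V}

theorem pick0 : ∀ a b c d : Option (Fin 3), [a, b, c, d].Nodup → ∃ t : Fin 3,
    [a, b, c, d].map (fun i => decide (i = none ∨ i = some t)) = [true, false, true, false] ∨
    [a, b, c, d].map (fun i => decide (i = none ∨ i = some t)) = [false, true, false, true] := by
  decide

theorem pick (a b c d : Option (Fin 3)) (h : [a, b, c, d].Nodup) :
    ∃ t : Fin 3, ((a = none ∨ a = some t) ∧ ¬ (b = none ∨ b = some t) ∧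
      (c = none ∨ c = some t) ∧ ¬ (d = none ∨ d = some t)) ∨
      (¬ (a = none ∨ a = some t) ∧ (b = none ∨ b = some t) ∧
      ¬ (c = none ∨ c = some t) ∧ (d = none ∨ d = some t)) := by
  simpa only [List.map_cons, List.map_nil, List.cons.injEq, decide_eq_true_eq,
    decide_eq_false_iff_not, and_true] using pick0 a b c d h

/-- four letters that can be paired in all three ways -/
theorem cr_of {U : Set V} {L : List V} (e : Option (Fin 3) → V) (he : Injective e)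
    (hL : ∀ i, e i ∈ L)
    (h : ∀ t : Fin 3, ∃ P Q, Two H U P Q ∧ (∀ i, i = none ∨ i = some t → e i ∈ P) ∧
      ∀ i, ¬ (i = none ∨ i = some t) → e i ∈ Q) : Cr H U L := by
  have n1 : (([none, some 0, some 1, some 2] : List (Option (Fin 3))).map e).Nodup :=
    List.Nodup.map he (by decide)
  obtain ⟨M, hp, hs⟩ := List.subperm_of_subset (l₂ := L) n1 (fun x hx => by
    obtain ⟨i, _, rfl⟩ := List.mem_map.1 hx
    exact hL i)
  have n2 := hp.nodup_iff.2 n1
  have hl : M.length = 4 := by simpa using hp.length_eq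
  have hm : ∀ x ∈ M, ∃ i, e i = x := fun x hx => by
    obtain ⟨i, _, k⟩ := List.mem_map.1 (hp.subset hx)
    exact ⟨i, k⟩
  obtain ⟨a, b, c, d, rfl⟩ := List.length_eq_four.1 hl
  obtain ⟨a, rfl⟩ := hm a (by simp)
  obtain ⟨b, rfl⟩ := hm b (by simp)
  obtain ⟨c, rfl⟩ := hm c (by simp)
  obtain ⟨d, rfl⟩ := hm d (by simp)
  obtain ⟨t, ht⟩ := pick a b c d (List.Nodup.of_map e n2)
  obtain ⟨P, Q, w, hP, hQ⟩ := h t
  rcases ht with ⟨ha, hb, hc, hd⟩ | ⟨ha, hb, hc, hd⟩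
  · exact ⟨_, _, _, _, hs, P, Q, w, hP _ ha, hP _ hc, hQ _ hb, hQ _ hd⟩
  · exact ⟨_, _, _, _, hs, Q, P, ⟨w.sq, w.sp, w.cq, w.cp, w.dis.symm⟩, hQ _ ha, hQ _ hc, hP _ hb,
      hP _ hd⟩

/-- connected sets attached to a connected set -/
theorem conn_att {ι : Type} {P : Set V} {R : ι → Set V} {p : ι → Prop} (hP : Conn H P)
    (hR : ∀ i, p i → Conn H (R i) ∧ (R i ∩ P).Nonempty) :
    Conn H {v | v ∈ P ∨ ∃ i, p i ∧ v ∈ R i} := by
  obtain ⟨a, ha⟩ := hP.1
  refine conn_of_center (a := a) (Or.inl ha) ?_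
  rintro v (hv | ⟨i, hi, hv⟩)
  · exact (hP.2 a ha v hv).mono fun _ h => Or.inl h
  · obtain ⟨k, x, h1, h2⟩ := hR i hi
    exact ((hP.2 a ha x h2).mono fun _ h => Or.inl h).trans
      ((k.2 x h1 v hv).mono fun _ h => Or.inr ⟨i, hi, h⟩)

/-- the legs are added to a routing inside `T` -/
theorem legs {ι : Type} {U T P Q : Set V} {R : ι → Set V} {x : ι → V} {p : ι → Prop}
    (hR : ∀ i, R i ⊆ U ∧ Conn H (R i)) (hx : ∀ i, R i ∩ T = {x i})
    (hd : Pairwise (Disjoint on R)) (w : Two H U P Q) (hP : P ⊆ T) (hQ : Q ⊆ T)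
    (h1 : ∀ i, p i → x i ∈ P) (h2 : ∀ i, ¬ p i → x i ∈ Q) :
    Two H U {v | v ∈ P ∨ ∃ i, p i ∧ v ∈ R i} {v | v ∈ Q ∨ ∃ i, ¬ p i ∧ v ∈ R i} := by
  have m : ∀ i, x i ∈ R i := fun i => ((hx i).symm.subset rfl).1
  refine ⟨?_, ?_, conn_att w.cp fun i hi => ⟨(hR i).2, x i, m i, h1 i hi⟩,
    conn_att w.cq fun i hi => ⟨(hR i).2, x i, m i, h2 i hi⟩, disjoint_left.2 ?_⟩
  · rintro v (hv | ⟨i, _, hv⟩)
    exacts [w.sp hv, (hR i).1 hv]
  · rintro v (hv | ⟨i, _, hv⟩)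
    exacts [w.sq hv, (hR i).1 hv]
  · rintro v (hv | ⟨i, hi, hv⟩) (hv' | ⟨j, hj, hv'⟩)
    · exact disjoint_left.1 w.dis hv hv'
    · have e : v = x j := (hx j).subset ⟨hv', hP hv⟩
      exact disjoint_left.1 w.dis hv (e ▸ h2 j hj)
    · have e : v = x i := (hx i).subset ⟨hv, hQ hv'⟩
      exact disjoint_left.1 w.dis (e ▸ h1 i hi) hv'
    · exact disjoint_left.1 (hd (show i ≠ j from fun e => hj (e ▸ hi))) hv hv'

/-- the three pairings inside the theta -/
theorem route {U T D : Set V} {L : List V} {lo hi : Fin 3 → Set V} {u v y : V} {x : Fin 3 → V}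
    {R : Option (Fin 3) → Set V}
    (hR : ∀ i, R i ⊆ U ∧ Conn H (R i) ∧ (R i ∩ ls L).Nonempty) (hx : ∀ i, R (some i) ∩ T = {x i})
    (hy : R none ∩ T = {y}) (hd : Pairwise (Disjoint on R))
    (h1 : ∀ t, lo t ⊆ U ∩ T ∧ Conn H (lo t) ∧ u ∈ lo t ∧ x t ∈ lo t)
    (h2 : ∀ t, hi t ⊆ U ∩ T ∧ Conn H (hi t) ∧ v ∈ hi t ∧ x t ∈ hi t)
    (h3 : D ⊆ U ∩ T ∧ Conn H D ∧ u ∈ D ∧ y ∈ D)
    (d1 : ∀ t t', t ≠ t' → Disjoint (lo t) (hi t')) (d2 : ∀ t, Disjoint D (hi t)) :
    Cr H U L := by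
  choose e he using fun i => (hR i).2.2
  refine cr_of e (fun i j k => ?_) (fun i => (he i).2) fun t => ?_
  · by_contra c
    exact disjoint_left.1 (hd c) (he i).1 (k ▸ (he j).1)
  · have s1 : D ∪ lo t ⊆ U ∩ T := union_subset h3.1 (h1 t).1
    have s2 : {w | w ∈ ({v} : Set V) ∨ ∃ i, i ≠ t ∧ w ∈ hi i} ⊆ U ∩ T := by
      rintro w (rfl | ⟨i, _, hw⟩)
      exacts [(h2 t).1 (h2 t).2.2.1, (h2 i).1 hw]
    obtain ⟨t', ht'⟩ := exists_ne t
    have w : Two H U (D ∪ lo t) {w | w ∈ ({v} : Set V) ∨ ∃ i, i ≠ t ∧ w ∈ hi i} := by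
      refine ⟨fun _ h => (s1 h).1, fun _ h => (s2 h).1, ?_,
        conn_att (conn_singleton H v) fun i _ => ⟨(h2 i).2.1, v, (h2 i).2.2.1, rfl⟩,
        disjoint_left.2 ?_⟩
      · refine conn_of_center (a := u) (Or.inl h3.2.2.1) ?_
        rintro w (hw | hw)
        · exact (h3.2.1.2 u h3.2.2.1 w hw).mono subset_union_left
        · exact ((h1 t).2.1.2 u (h1 t).2.2.1 w hw).mono subset_union_right
      · rintro w (hw | hw) (rfl | ⟨i, k, hw'⟩)
        · exact disjoint_left.1 (d2 t) hw (h2 t).2.2.1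
        · exact disjoint_left.1 (d2 i) hw hw'
        · exact disjoint_left.1 (d1 t t' ht'.symm) hw (h2 t').2.2.1
        · exact disjoint_left.1 (d1 t i k.symm) hw hw'
    refine ⟨_, _, legs (T := T) (x := fun i => i.elim y x) (p := fun i => i = none ∨ i = some t)
      (fun i => ⟨(hR i).1, (hR i).2.1⟩) ?_ hd w (fun _ h => (s1 h).2) (fun _ h => (s2 h).2) ?_ ?_,
      fun i k => Or.inr ⟨i, k, (he i).1⟩, fun i k => Or.inr ⟨i, k, (he i).1⟩⟩
    · rintro (_ | i)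
      exacts [hy, hx i]
    · rintro i (rfl | rfl)
      exacts [Or.inl h3.2.2.2, Or.inr (h1 t).2.2.2]
    · rintro (_ | i) k
      · exact (k (Or.inl rfl)).elim
      · exact Or.inr ⟨i, fun c => k (Or.inr (congrArg some c)), (h2 i).2.2.2⟩

end tri

open tri in
theorem triS : PerfS → TriS := by
  intro perf V _ H U L u v f l m R _ hf hdis hR hd
  rcases perf V H U {w | ∃ t', ∃ j ≤ l t', f t' j = w} (ls L) 3 (fun t => f t (m t)) R hR hd with
    h | ⟨y, R', h1, h2, h3, h4⟩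
  · exact Or.inr h
  left
  have key : ∀ a b i j, i < l a → 0 < j → j ≤ l b → f a i = f b j → a = b ∧ i = j := by
    intro a b i j k1 k2 k3 e
    by_cases c : a = b
    · subst c
      exact ⟨rfl, (hf a).1.2.2 i k1.le j k3 e⟩
    · rcases Nat.eq_zero_or_pos i with rfl | k4
      · rw [(hf a).2.1, ← (hf b).2.1] at e
        have := (hf b).1.2.2 0 (Nat.zero_le _) j k3 e
        omega
      · exact (hdis a b c i k4 k1 j k3 e).elim
  have seg : ∀ t a b, a ≤ b → b ≤ l t →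
      f t '' Icc a b ⊆ U ∩ {w | ∃ t', ∃ j ≤ l t', f t' j = w} ∧ Conn H (f t '' Icc a b) := by
    intro t a b k1 k2
    refine ⟨?_, conn_seg k1 fun i _ k => (hf t).1.2.1 i (by omega)⟩
    rintro _ ⟨i, hi, rfl⟩
    exact ⟨(hf t).1.1 i (hi.2.trans k2), t, i, hi.2.trans k2, rfl⟩
  have ml : ∀ t, 0 < m t ∧ m t < l t := fun t => (hf t).2.2.2
  have lo : ∀ t, f t '' Icc 0 (m t) ⊆ U ∩ {w | ∃ t', ∃ j ≤ l t', f t' j = w} ∧
      Conn H (f t '' Icc 0 (m t)) ∧ u ∈ f t '' Icc 0 (m t) ∧ f t (m t) ∈ f t '' Icc 0 (m t) :=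
    fun t => ⟨(seg t _ _ (Nat.zero_le _) (ml t).2.le).1, (seg t _ _ (Nat.zero_le _) (ml t).2.le).2,
      ⟨0, ⟨le_rfl, Nat.zero_le _⟩, (hf t).2.1⟩, ⟨_, ⟨Nat.zero_le _, le_rfl⟩, rfl⟩⟩
  have hi : ∀ t, f t '' Icc (m t) (l t) ⊆ U ∩ {w | ∃ t', ∃ j ≤ l t', f t' j = w} ∧
      Conn H (f t '' Icc (m t) (l t)) ∧ v ∈ f t '' Icc (m t) (l t) ∧
      f t (m t) ∈ f t '' Icc (m t) (l t) :=
    fun t => ⟨(seg t _ _ (ml t).2.le le_rfl).1, (seg t _ _ (ml t).2.le le_rfl).2,
      ⟨_, ⟨(ml t).2.le, le_rfl⟩, (hf t).2.2.1⟩, ⟨_, ⟨le_rfl, (ml t).2.le⟩, rfl⟩⟩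
  have d1 : ∀ t t', t ≠ t' → Disjoint (f t '' Icc 0 (m t)) (f t' '' Icc (m t') (l t')) := by
    intro t t' c
    refine disjoint_left.2 ?_
    rintro _ ⟨i, k1, rfl⟩ ⟨j, k2, e⟩
    exact c (key t t' i j (k1.2.trans_lt (ml t).2) ((ml t').1.trans_le k2.1) k2.2 e.symm).1
  obtain ⟨hy, s, j, hj, rfl⟩ := h3.symm.subset (mem_singleton y)
  have ne : j ≠ m s := by
    rintro rfl
    exact disjoint_left.1 (h4 (show (none : Option (Fin 3)) ≠ some s by simp)) hy
      ((h2 s).symm.subset rfl).1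
  rcases lt_or_gt_of_ne ne with c | c
  · refine route (D := f s '' Icc 0 j) h1 h2 h3 h4 lo hi
      ⟨(seg s _ _ (Nat.zero_le _) hj).1, (seg s _ _ (Nat.zero_le _) hj).2,
        ⟨0, ⟨le_rfl, Nat.zero_le _⟩, (hf s).2.1⟩, ⟨_, ⟨Nat.zero_le _, le_rfl⟩, rfl⟩⟩ d1 fun t => ?_
    refine disjoint_left.2 ?_
    rintro _ ⟨i, k1, rfl⟩ ⟨i', k2, e⟩
    obtain ⟨rfl, rfl⟩ := key s t i i' (k1.2.trans_lt (c.trans (ml s).2))
      ((ml t).1.trans_le k2.1) k2.2 e.symm
    exact absurd (k2.1.trans k1.2) (not_le.2 c)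
  · refine route (D := f s '' Icc j (l s)) h1 h2 h3 h4 hi lo
      ⟨(seg s _ _ hj le_rfl).1, (seg s _ _ hj le_rfl).2,
        ⟨_, ⟨hj, le_rfl⟩, (hf s).2.2.1⟩, ⟨_, ⟨le_rfl, hj⟩, rfl⟩⟩
      (fun t t' k => (d1 t' t k.symm).symm) fun t => ?_
    refine disjoint_left.2 ?_
    rintro _ ⟨i, k1, rfl⟩ ⟨i', k2, e⟩
    obtain ⟨rfl, rfl⟩ := key t s i' i (k2.2.trans_lt (ml t).2)
      (((ml s).1.trans c).trans_le k1.1) k1.2 e
    exact absurd (k1.1.trans k2.2) (not_le.2 c)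

end Pool.Agent.MP_9d78a0_co.st

end MrgPart2

-- ======== part 3: formerly Pool.Agent.MP_9d78a0_co.st.TRe
section MrgPart3

/-! Translation of drawings to maps, part e: from matchings to flag maps. -/

set_option autoImplicit false
set_option linter.unusedSectionVars false

namespace Pool.Agent.MP_9d78a0_co.st.tr

open Function gm

variable {D V ι : Type} [DecidableEq D]

theorem PM.fn {S : Finset D} {T : Multiset (D × D)} (h : PM S T) :
    ∃ β : D → D, (∀ x ∈ T, β x.1 = x.2 ∧ β x.2 = x.1 ∧ x.1 ≠ x.2) ∧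
      ∀ d ∈ S, ∃ x ∈ T, d = x.1 ∨ d = x.2 := by
  classical
  have nd : (T.map Prod.fst + T.map Prod.snd).Nodup := by rw [h]; exact S.nodup
  rw [Multiset.nodup_add] at nd
  obtain ⟨n1, n2, n3⟩ := nd
  have i1 := Multiset.inj_on_of_nodup_map n1
  have i2 := Multiset.inj_on_of_nodup_map n2
  have i3 : ∀ x ∈ T, ∀ y ∈ T, x.1 ≠ y.2 := fun x hx y hy e =>
    Multiset.disjoint_left.1 n3 (Multiset.mem_map_of_mem _ hx) (e ▸ Multiset.mem_map_of_mem _ hy)
  refine ⟨fun d => if c : ∃ x ∈ T, x.1 = d then c.choose.2 else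
    if c : ∃ x ∈ T, x.2 = d then c.choose.1 else d, fun x hx => ⟨?_, ?_, i3 x hx x hx⟩, ?_⟩
  · have c : ∃ y ∈ T, y.1 = x.1 := ⟨x, hx, rfl⟩
    simp only [dif_pos c]
    rw [i1 _ c.choose_spec.1 x hx c.choose_spec.2]
  · have c : ∃ y ∈ T, y.2 = x.2 := ⟨x, hx, rfl⟩
    have c' : ¬ ∃ y ∈ T, y.1 = x.2 := fun ⟨y, hy, e⟩ => i3 y hy x hx e
    simp only [dif_pos c, dif_neg c']
    rw [i2 _ c.choose_spec.1 x hx c.choose_spec.2]
  · intro d hd
    have : d ∈ T.map Prod.fst + T.map Prod.snd := by rw [h]; exact hd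
    rcases Multiset.mem_add.1 this with c | c <;> obtain ⟨x, hx, e⟩ := Multiset.mem_map.1 c
    · exact ⟨x, hx, Or.inl e.symm⟩
    · exact ⟨x, hx, Or.inr e.symm⟩

theorem orb_symm {p q : D → D} {S : Set D} (hp : ∀ d ∈ S, p d ∈ S ∧ p (p d) = d)
    (hq : ∀ d ∈ S, q d ∈ S ∧ q (q d) = d) {d e : D} (hd : d ∈ S) (h : e ∈ orb p q d) :
    e ∈ S ∧ d ∈ orb p q e := by
  induction h with
  | refl => exact ⟨hd, Relation.ReflTransGen.refl⟩
  | @tail y z _ hz ih =>
    rcases hz with rfl | rfl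
    · exact ⟨(hp y ih.1).1, Relation.ReflTransGen.head (Or.inl (hp y ih.1).2.symm) ih.2⟩
    · exact ⟨(hq y ih.1).1, Relation.ReflTransGen.head (Or.inr (hq y ih.1).2.symm) ih.2⟩

theorem ST.fn {α γ : D → D} {l : D → V} {S : Finset D} {sd : D → Prop} {n : ℤ}
    (A : Amb γ l S sd) (h : ST α γ l S sd [] ∅ n) :
    ∃ β, Hf β γ l S ∧ ∃ sg : D → ℕ, (∀ d ∈ S, sg (α d) = sg d ∧ sg (β d) = sg d) ∧
      n ≤ (S.image sg).card := by
  classical
  obtain ⟨M, sg, g, ha, hm, -, hn⟩ := h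
  simp only [List.flatten_nil, Multiset.coe_nil, zero_add] at g
  obtain ⟨β, b1, b2⟩ := g.pm.fn
  have inv : ∀ d ∈ S, β d ∈ S ∧ β (β d) = d ∧ β d ≠ d := by
    intro d hd
    obtain ⟨x, hx, rfl | rfl⟩ := b2 d hd
    · rw [(b1 x hx).1, (b1 x hx).2.1]; exact ⟨g.pm.snd hx, rfl, (b1 x hx).2.2.symm⟩
    · rw [(b1 x hx).2.1, (b1 x hx).1]; exact ⟨g.pm.fst hx, rfl, (b1 x hx).2.2⟩
  refine ⟨β, ⟨inv, ?_, ?_⟩, sg, fun d hd => ⟨ha d, ?_⟩, by simpa [ex] using hn⟩
  · intro d hd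
    obtain ⟨x, hx, rfl | rfl⟩ := b2 d hd
    · rw [(b1 x hx).1, g.lab x hx]
    · rw [(b1 x hx).2.1, g.lab x hx]
  · intro d hd e he hl
    have r := g.con d hd e he hl (Or.inr (by simp))
    have main : ∀ u v, Rl γ M u v → (u ∈ S ↔ v ∈ S) ∧ (u ∈ S → v ∈ orb β γ u) := by
      intro u v r
      induction r with
      | rel x y hxy =>
        rcases hxy with hxy | rfl
        · exact ⟨iff_of_true (g.pm.fst hxy) (g.pm.snd hxy),
            fun _ => Relation.ReflTransGen.single (Or.inl (b1 _ hxy).1.symm)⟩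
        · exact ⟨⟨A.gs x, fun c => by simpa [A.gg] using A.gs _ c⟩,
            fun _ => Relation.ReflTransGen.single (Or.inr rfl)⟩
      | refl x => exact ⟨Iff.rfl, fun _ => Relation.ReflTransGen.refl⟩
      | symm x y _ ih =>
        exact ⟨ih.1.symm, fun c => (orb_symm (S := S) (fun d hd => ⟨(inv d hd).1, (inv d hd).2.1⟩)
          (fun d hd => ⟨A.gs d hd, A.gg d⟩) (ih.1.2 c) (ih.2 (ih.1.2 c))).2⟩
      | trans x y z _ _ ih ih' =>
        exact ⟨ih.1.trans ih'.1, fun c => Relation.ReflTransGen.trans (ih.2 c) (ih'.2 (ih.1.1 c))⟩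
    exact (main d e r).2 hd
  · obtain ⟨x, hx, rfl | rfl⟩ := b2 d hd
    · rw [(b1 x hx).1, hm x hx]
    · rw [(b1 x hx).2.1, hm x hx]

/-- the incidence map of a hypermap -/
def toFM (α β γ : D → D) (S : Finset D) : FM (D × Bool) where
  S := {f | f.1 ∈ S}
  a := fun f => (f.1, !f.2)
  b := fun f => (if f.2 = true then α f.1 else β f.1, f.2)
  c := fun f => (γ f.1, f.2)

/-- the names of its vertices -/
def vxo (l : D → V) (k : D → ι) (f : D × Bool) : V ⊕ ι :=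
  if f.2 = true then Sum.inr (k f.1) else Sum.inl (l f.1)

theorem card_orb {Φ ω : Type} (S : Set Φ) (hS : S.Finite) (o : Φ → Set Φ) (t : Φ → ω)
    (h1 : ∀ f ∈ S, f ∈ o f) (h2 : ∀ f ∈ S, ∀ g ∈ o f, t g = t f) :
    (t '' S).ncard ≤ (o '' S).ncard := by
  have e : (fun w : ω => ({w} : Set ω)) '' (t '' S) = (fun X => t '' X) '' (o '' S) := by
    rw [Set.image_image, Set.image_image]
    apply Set.image_congr
    intro f hf
    ext w
    constructor
    · rintro rfl; exact ⟨f, h1 f hf, rfl⟩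
    · rintro ⟨g, hg, rfl⟩; exact h2 f hf g hg
  rw [← Set.ncard_image_of_injective (t '' S) Set.singleton_injective, e]
  exact Set.ncard_image_le (hS.image _)

theorem orb_inv {Φ ω : Type} {p q : Φ → Φ} {S : Set Φ} (t : Φ → ω)
    (hp : ∀ f ∈ S, p f ∈ S ∧ t (p f) = t f) (hq : ∀ f ∈ S, q f ∈ S ∧ t (q f) = t f) {f g : Φ}
    (hf : f ∈ S) (h : g ∈ orb p q f) : g ∈ S ∧ t g = t f := by
  induction h with
  | refl => exact ⟨hf, rfl⟩
  | @tail y z _ hz ih =>
    rcases hz with rfl | rfl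
    · exact ⟨(hp y ih.1).1, (hp y ih.1).2.trans ih.2⟩
    · exact ⟨(hq y ih.1).1, (hq y ih.1).2.trans ih.2⟩

variable [DecidableEq V] [DecidableEq ι]

namespace HM
variable {α β γ : D → D} {l : D → V} {k : D → ι} {S : Finset D} {n : ℤ}

theorem fin : (toFM α β γ S).S.Finite :=
  (S.finite_toSet.prod (Set.toFinite (Set.univ : Set Bool))).subset fun _ hf => ⟨hf, trivial⟩

theorem ok (A : Amb γ l S fun _ => True) (h : HM α β γ l k S n) : (toFM α β γ S).Ok := by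
  refine ⟨fin, ?_, ?_, ?_, ?_⟩
  · rintro ⟨d, t⟩ hd
    exact ⟨hd, by simp [toFM], by simp [toFM]⟩
  · rintro ⟨d, t⟩ hd
    have a := h.ha.inv d hd
    have b := h.hb.inv d hd
    cases t
    · exact ⟨b.1, by simp [toFM, b.2.1], by simp [toFM, b.2.2]⟩
    · exact ⟨a.1, by simp [toFM, a.2.1], by simp [toFM, a.2.2]⟩
  · rintro ⟨d, t⟩ hd
    exact ⟨A.gs d hd, by simp [toFM, A.gg], by simp [toFM, A.gn]⟩
  · rintro ⟨d, t⟩ hd
    exact ⟨rfl, by simp [toFM]⟩

theorem vo_inv (A : Amb γ l S fun _ => True) (A' : Amb γ k S fun _ => True)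
    (h : HM α β γ l k S n) : ∀ f ∈ (toFM α β γ S).S, ∀ g ∈ (toFM α β γ S).vo f,
      vxo l k g = vxo l k f := by
  intro f hf g hg
  refine (orb_inv (S := (toFM α β γ S).S) (vxo l k) ?_ ?_ hf hg).2
  · rintro ⟨d, t⟩ hd
    cases t
    · exact ⟨(h.hb.inv d hd).1, by simp [toFM, vxo, h.hb.lab d hd]⟩
    · exact ⟨(h.ha.inv d hd).1, by simp [toFM, vxo, h.ha.lab d hd]⟩
  · rintro ⟨d, t⟩ hd
    exact ⟨A.gs d hd, by simp [toFM, vxo, A.gl, A'.gl]⟩

theorem lbl (A : Amb γ l S fun _ => True) (A' : Amb γ k S fun _ => True)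
    (h : HM α β γ l k S n) : (toFM α β γ S).Lbl (vxo l k) := by
  rintro ⟨d, t⟩ hd ⟨e, u⟩ he
  refine ⟨fun c => ?_, fun c => (h.vo_inv A A' _ hd _ c).symm⟩
  cases t <;> cases u <;> simp only [vxo, Bool.false_eq_true, if_false, if_true, Sum.inl.injEq,
    Sum.inr.injEq, reduceCtorEq] at c
  · have r := h.hb.con d hd e he c
    clear he c
    induction r with
    | refl => exact Relation.ReflTransGen.refl
    | tail _ hz ih => exact ih.tail (by rcases hz with rfl | rfl <;> simp [toFM])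
  · have r := h.ha.con d hd e he c
    clear he c
    induction r with
    | refl => exact Relation.ReflTransGen.refl
    | tail _ hz ih => exact ih.tail (by rcases hz with rfl | rfl <;> simp [toFM])

theorem con (A : Amb γ l S fun _ => True) (A' : Amb γ k S fun _ => True)
    (h : HM α β γ l k S n) (hc : ∀ d ∈ S, ∀ e ∈ S, Relation.ReflTransGen
      (fun u v => u ∈ S ∧ v ∈ S ∧ (l u = l v ∨ k u = k v)) d e) : (toFM α β γ S).Con := by
  have vo : ∀ f g, g ∈ (toFM α β γ S).vo f → g ∈ (toFM α β γ S).co f := by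
    intro f g c
    induction c with
    | refl => exact Relation.ReflTransGen.refl
    | tail _ hz ih => exact ih.tail (Or.inr hz)
  have fl : ∀ d t u, (d, u) ∈ (toFM α β γ S).co (d, t) := by
    intro d t u
    cases t <;> cases u
    · exact Relation.ReflTransGen.refl
    · exact Relation.ReflTransGen.single (Or.inl rfl)
    · exact Relation.ReflTransGen.single (Or.inl rfl)
    · exact Relation.ReflTransGen.refl
  rintro ⟨d, t⟩ hd ⟨e, u⟩ he
  have r := hc d hd e he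
  clear he
  induction r generalizing u with
  | refl => exact fl d t u
  | @tail y z _ hz ih =>
    obtain ⟨yS, zS, c | c⟩ := hz
    · exact ((ih false).trans (vo _ _ ((h.lbl A A' (y, false) yS (z, false) zS).1
        (by simp [vxo, c])))).trans (fl z false u)
    · exact ((ih true).trans (vo _ _ ((h.lbl A A' (y, true) yS (z, true) zS).1
        (by simp [vxo, c])))).trans (fl z true u)

theorem eg (A : Amb γ l S fun _ => True) (A' : Amb γ k S fun _ => True) {g : ℤ}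
    (h : HM α β γ l k S (4 - 2 * g)) (hc : (toFM α β γ S).Con) (up : D → Prop)
    (hu : ∀ d, up (γ d) ↔ ¬ up d) : (toFM α β γ S).eg ≤ g := by
  classical
  obtain ⟨sg, hs, hn⟩ := h.cnt
  have ok := h.ok A
  have c1 : ((toFM α β γ S).co '' (toFM α β γ S).S).ncard ≤ 1 := by
    rw [Set.ncard_le_one (fin.image _)]
    rintro _ ⟨f, hf, rfl⟩ _ ⟨f', hf', rfl⟩
    ext x
    exact ⟨fun c => (hc f' hf' f hf).trans c, fun c => (hc f hf f' hf').trans c⟩
  have c2 : (S.image l).card + (S.image k).card ≤ ((toFM α β γ S).vo '' (toFM α β γ S).S).ncard := by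
    refine le_trans (le_of_eq ?_) (card_orb _ fin _ (vxo l k)
      (fun _ _ => Relation.ReflTransGen.refl) (h.vo_inv A A'))
    rw [← Finset.card_disjSum, ← Set.ncard_coe_finset]
    congr 1
    ext (v | i)
    · simp [toFM, vxo]
    · simp [toFM, vxo]
  have c3 : (S.image sg).card ≤ ((toFM α β γ S).fo '' (toFM α β γ S).S).ncard := by
    refine le_trans (le_of_eq ?_) (card_orb _ fin _ (fun f => sg f.1)
      (fun _ _ => Relation.ReflTransGen.refl) ?_)
    · rw [← Set.ncard_coe_finset]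
      congr 1
      ext v
      simp [toFM]
    · intro f hf f' hf'
      refine (orb_inv (S := (toFM α β γ S).S) (fun f => sg f.1) ?_ ?_ hf hf').2
      · rintro ⟨d, t⟩ hd
        exact ⟨hd, rfl⟩
      · rintro ⟨d, t⟩ hd
        refine ⟨(ok.ib _ hd).1, ?_⟩
        cases t
        · exact (hs d hd).2
        · exact (hs d hd).1
  have c4 : ((toFM α β γ S).eo '' (toFM α β γ S).S).ncard ≤ (S.filter up).card := by
    rw [← Set.ncard_coe_finset]
    refine le_trans (Set.ncard_le_ncard (t := (fun d => (toFM α β γ S).eo (d, false)) '' (S.filter up))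
      ?_ ((Finset.finite_toSet _).image _)) (Set.ncard_image_le (Finset.finite_toSet _))
    have sym : ∀ f ∈ (toFM α β γ S).S, ∀ f' ∈ (toFM α β γ S).eo f,
        (toFM α β γ S).eo f' = (toFM α β γ S).eo f := by
      intro f hf f' hf'
      have := (orb_symm (S := (toFM α β γ S).S) (fun d hd => ⟨(ok.ia d hd).1, (ok.ia d hd).2.1⟩)
        (fun d hd => ⟨(ok.ic d hd).1, (ok.ic d hd).2.1⟩) hf hf').2
      ext x
      exact ⟨fun c => Relation.ReflTransGen.trans hf' c, fun c => Relation.ReflTransGen.trans this c⟩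
    rintro _ ⟨⟨d, t⟩, hd, rfl⟩
    have r1 : (d, false) ∈ (toFM α β γ S).eo (d, t) := by
      cases t
      · exact Relation.ReflTransGen.refl
      · exact Relation.ReflTransGen.single (Or.inl rfl)
    by_cases c : up d
    · exact ⟨d, by simpa using ⟨hd, c⟩, sym _ hd _ r1⟩
    · exact ⟨γ d, by simpa using ⟨A.gs d hd, (hu d).2 c⟩, sym _ hd _ (r1.tail (Or.inr rfl))⟩
  have c5 : 2 * (S.filter up).card ≤ S.card := by
    have e1 := Finset.card_filter_add_card_filter_not (s := S) up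
    have e2 : (S.filter up).card ≤ (S.filter fun d => ¬ up d).card := by
      apply Finset.card_le_card_of_injOn γ
      · intro d hd
        simp only [Finset.coe_filter, Set.mem_ofPred_eq] at hd ⊢
        exact ⟨A.gs d hd.1, fun c => (hu d).1 c hd.2⟩
      · intro d _ e _ c
        rw [← A.gg d, c, A.gg]
    omega
  unfold FM.eg
  omega

end HM

end Pool.Agent.MP_9d78a0_co.st.tr

end MrgPart3

-- ======== part 4: formerly Pool.Agent.MP_9d78a0_co.st.TRf
section MrgPart4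

/-! Translation of drawings to maps, part f: the flags of a family of cells. -/

set_option autoImplicit false
set_option linter.unusedSectionVars false

namespace Pool.Agent.MP_9d78a0_co.st.tr

open Function gm

variable {V ι : Type} [DecidableEq V] [DecidableEq ι]

/-- cell, node, side -/
abbrev Fl (ι V : Type) : Type := ι × V × Bool

/-- round the corner at the cell -/
def al (N : ι → List V) (d : Fl ι V) : Fl ι V :=
  if d.2.2 = true then (d.1, (N d.1).formPerm d.2.1, false)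
  else (d.1, (N d.1).formPerm.symm d.2.1, true)

/-- across the spoke -/
def ga (d : Fl ι V) : Fl ι V := (d.1, d.2.1, !d.2.2)

/-- the node -/
def lb (d : Fl ι V) : V := d.2.1

/-- the cell -/
def kp (d : Fl ι V) : ι := d.1

/-- the flags of the cells `I` -/
def fl (N : ι → List V) (I : Finset ι) : Finset (Fl ι V) :=
  I.biUnion fun i => {i} ×ˢ ((N i).toFinset ×ˢ Finset.univ)

theorem mem_fl {N : ι → List V} {I : Finset ι} {d : Fl ι V} :
    d ∈ fl N I ↔ d.1 ∈ I ∧ d.2.1 ∈ N d.1 := by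
  obtain ⟨i, x, s⟩ := d
  simp only [fl, Finset.mem_biUnion, Finset.mem_product, Finset.mem_singleton, List.mem_toFinset,
    Finset.mem_univ, and_true]
  constructor
  · rintro ⟨j, a, rfl, b⟩; exact ⟨a, b⟩
  · rintro ⟨a, b⟩; exact ⟨i, a, rfl, b⟩

theorem fl_union (N : ι → List V) (I J : Finset ι) : fl N (I ∪ J) = fl N I ∪ fl N J := by
  ext d; simp only [mem_fl, Finset.mem_union]; tauto

theorem amb (N : ι → List V) (I : Finset ι) (P : ι → Prop) :
    Amb ga lb (fl N I) fun d => P d.1 :=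
  ⟨fun d => by simp [ga], fun ⟨i, x, s⟩ => by simp [ga], fun _ => rfl,
    fun d hd => mem_fl.2 (mem_fl.1 hd :), fun _ => Iff.rfl⟩

theorem ambk (N : ι → List V) (I : Finset ι) : Amb ga kp (fl N I) fun _ => True :=
  ⟨fun d => by simp [ga], fun ⟨i, x, s⟩ => by simp [ga], fun _ => rfl,
    fun d hd => mem_fl.2 (mem_fl.1 hd :), fun _ => Iff.rfl⟩

theorem al_fst (N : ι → List V) (d : Fl ι V) : (al N d).1 = d.1 := by
  unfold al; split_ifs <;> rfl

theorem hf_al {N : ι → List V} {I : Finset ι} (hN : ∀ i ∈ I, (N i).Nodup) :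
    Hf (al N) ga kp (fl N I) := by
  refine ⟨?_, fun d _ => al_fst N d, ?_⟩
  · rintro ⟨i, x, s⟩ hd
    rw [mem_fl] at hd
    cases s
    · refine ⟨mem_fl.2 ⟨hd.1, ?_⟩, by simp [al], by simp [al]⟩
      simp only [al, Bool.false_eq_true, if_false]
      rw [← List.formPerm_mem_iff_mem]
      simpa using hd.2
    · exact ⟨mem_fl.2 ⟨hd.1, List.formPerm_mem_iff_mem.2 hd.2⟩, by simp [al], by simp [al]⟩
  · rintro ⟨i, x, s⟩ hd ⟨j, y, t⟩ he c
    obtain rfl : i = j := c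
    rw [mem_fl] at hd he
    simp only at hd he
    have fp : ∀ z u v, ((i, z, v) : Fl ι V) ∈ orb (al N) ga (i, z, u) := by
      intro z u v
      cases u <;> cases v
      · exact Relation.ReflTransGen.refl
      · exact Relation.ReflTransGen.single (Or.inr rfl)
      · exact Relation.ReflTransGen.single (Or.inr rfl)
      · exact Relation.ReflTransGen.refl
    have st : ∀ m : ℕ, ((i, ((N i).formPerm ^ m) x, false) : Fl ι V) ∈ orb (al N) ga (i, x, s) := by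
      intro m
      induction m with
      | zero => exact fp x s false
      | succ m ih =>
        refine (Relation.ReflTransGen.trans ih (fp _ false true)).tail (Or.inl ?_)
        simp [al, pow_succ']
    obtain ⟨a, ha, rfl⟩ := List.getElem_of_mem hd.2
    obtain ⟨b, hb, rfl⟩ := List.getElem_of_mem he.2
    have := st (b + (N i).length - a)
    rw [List.formPerm_pow_apply_getElem _ (hN i hd.1)] at this
    have e : (a + (b + (N i).length - a)) % (N i).length = b := by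
      rw [show a + (b + (N i).length - a) = b + (N i).length by omega, Nat.add_mod_right,
        Nat.mod_eq_of_lt hb]
    simp only [e] at this
    exact Relation.ReflTransGen.trans this (fp _ false t)

theorem ch_new {D : Type} (sg : D → ℕ) (enc : V → ℕ) (σ : V → V) (f : V → D × D)
    (h1 : ∀ x, sg (f x).1 = enc x) (h2 : ∀ x, sg (f x).2 = enc (σ x)) (x : V) (L : List V)
    (h : List.IsChain (fun a b => σ a = b) (x :: L)) :
    Ch sg (enc x) ((x :: L).map f) (enc (σ ((x :: L).getLast (by simp)))) := by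
  induction L generalizing x with
  | nil => exact ⟨(h1 x).symm, h2 x⟩
  | cons y L ih =>
    rw [List.isChain_cons_cons] at h
    refine ⟨(h1 x).symm, ?_⟩
    rw [h2, h.1]
    exact ih y h.2

theorem st_new (N : ι → List V) (i : ι) (hN : (N i).Nodup) (h0 : N i ≠ []) :
    ST (al N) ga lb (fl N {i}) (fun _ => True)
      [(N i).map fun x => ((i, x, false), (i, x, true))] ∅ 1 := by
  let sg : Fl ι V → ℕ := fun d =>
    (N i).idxOf (if d.2.2 = true then (N d.1).formPerm d.2.1 else d.2.1)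
  refine ⟨0, sg, ⟨?_, ?_, ?_, by simp⟩, ?_, by simp, ?_, ?_⟩
  · unfold PM
    rw [Multiset.Nodup.ext _ (fl N {i}).nodup]
    · rintro ⟨j, x, s⟩
      rw [Finset.mem_val, mem_fl]
      cases s <;> simp <;> grind
    · simp only [List.flatten_cons, List.flatten_nil, List.append_nil, add_zero, Multiset.map_coe,
        List.map_map, Multiset.nodup_add, Multiset.coe_nodup]
      refine ⟨hN.map fun a b h => by simpa using h, hN.map fun a b h => by simpa using h, ?_⟩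
      simp [Multiset.disjoint_left]
  · simp [lb]
  · rintro ⟨j, x, s⟩ hd ⟨j', y, t⟩ he c _
    rw [mem_fl, Finset.mem_singleton] at hd he
    obtain rfl : x = y := c
    obtain rfl : j = j' := hd.1.trans he.1.symm
    cases s <;> cases t
    · exact Rl.refl _
    · exact Rl.ga _
    · exact Rl.ga _
    · exact Rl.refl _
  · rintro ⟨j, x, s⟩
    cases s <;> simp [sg, al]
  · intro w hw
    rw [List.mem_singleton] at hw
    subst hw
    obtain ⟨x, L, e⟩ := List.exists_cons_of_ne_nil h0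
    have c : List.IsChain (fun a b => (N i).formPerm a = b) (N i) :=
      List.isChain_iff_getElem.2 fun a ha => List.formPerm_apply_lt_getElem _ hN a ha
    have := ch_new sg (fun v => (N i).idxOf v) (N i).formPerm
      (fun x => ((i, x, false), (i, x, true))) (fun _ => by simp [sg]) (fun _ => by simp [sg]) x L
      (by rw [← e]; exact c)
    have e2 : (N i).formPerm ((x :: L).getLast (by simp)) = x := by
      rw [e]; exact List.formPerm_apply_getLast x L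
    rw [e2, ← e] at this
    exact ⟨_, this⟩
  · have h1 : Finset.range (N i).length ⊆ (fl N {i}).image sg := by
      intro a ha
      rw [Finset.mem_range] at ha
      exact Finset.mem_image.2 ⟨(i, (N i)[a], false), mem_fl.2 ⟨by simp, by simp⟩, by
        simp [sg, hN.idxOf_getElem]⟩
    have h2 := Finset.card_le_card h1
    have h3 := List.length_pos_iff.2 h0
    simp only [Finset.card_range] at h2
    simp only [ex, List.map_cons, List.length_map, List.map_nil, List.sum_cons, List.sum_nil]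
    omega

theorem ST.sd {D : Type} [DecidableEq D] {α γ : D → D} {l : D → V} {S : Finset D}
    {sd : D → Prop} (sd' : D → Prop) {W : List (List (D × D))} {n : ℤ} {Z : Set V}
    (h : ST α γ l S sd W Z n) (hZ : ∀ v, v ∉ Z) : ST α γ l S sd' W ∅ n := by
  obtain ⟨M, sg, g, r⟩ := h
  exact ⟨M, sg, ⟨g.pm, g.lab, fun d hd e he c _ => g.con d hd e he c (Or.inr (hZ _)), by simp⟩, r⟩

/-- the flags are linked through common nodes and cells -/
def Cn (S : Finset (Fl ι V)) : Prop := ∀ d ∈ S, ∀ e ∈ S, Relation.ReflTransGen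
  (fun u v => u ∈ S ∧ v ∈ S ∧ (lb u = lb v ∨ kp u = kp v)) d e

theorem Cn.union {S T : Finset (Fl ι V)} (h1 : Cn S) (h2 : Cn T) {x y : Fl ι V} (hx : x ∈ S)
    (hy : y ∈ T) (e : lb x = lb y) : Cn (S ∪ T) := by
  have up : ∀ {R : Finset (Fl ι V)}, Cn R → R ⊆ S ∪ T → ∀ d ∈ R, ∀ e ∈ R, Relation.ReflTransGen
      (fun u v => u ∈ S ∪ T ∧ v ∈ S ∪ T ∧ (lb u = lb v ∨ kp u = kp v)) d e := by
    intro R h s d hd e he
    have := h d hd e he
    clear he
    induction this with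
    | refl => exact Relation.ReflTransGen.refl
    | tail _ hz ih => exact ih.tail ⟨s hz.1, s hz.2.1, hz.2.2⟩
  have u1 := up h1 Finset.subset_union_left
  have u2 := up h2 Finset.subset_union_right
  have x' := Finset.mem_union_left T hx
  have y' := Finset.mem_union_right S hy
  intro d hd f hf
  rcases Finset.mem_union.1 hd with hd | hd <;> rcases Finset.mem_union.1 hf with hf | hf
  · exact u1 d hd f hf
  · exact ((u1 d hd x hx).tail ⟨x', y', Or.inl e⟩).trans (u2 y hy f hf)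
  · exact ((u2 d hd y hy).tail ⟨y', x', Or.inl e.symm⟩).trans (u1 x hx f hf)
  · exact u2 d hd f hf

/-- the Euler count of the flags `S` with `n` faces -/
def Eu (S : Finset (Fl ι V)) (n g : ℤ) : Prop :=
  4 - 2 * g + S.card ≤ 2 * ((S.image lb).card + (S.image kp).card + n)

/-- the invariant: the cells `I` are drawn with the words `ws` and genus at most `g` -/
def IV (N : ι → List V) (I : Finset ι) (ws : List (List V)) (g : ℤ) : Prop :=
  ∃ W n, W.map (lw lb) = ws ∧ ST (al N) ga lb (fl N I) (fun _ => True) W ∅ n ∧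
    ((fl N I).Nonempty → Eu (fl N I) n g) ∧ Cn (fl N I)

namespace IV
variable {N : ι → List V} {I J : Finset ι} {ws ws' : List (List V)} {g g' : ℤ}

theorem new (N : ι → List V) (i : ι) (hN : (N i).Nodup) : IV N {i} [N i] 0 := by
  have cn : Cn (fl N {i}) := fun d hd e he => Relation.ReflTransGen.single ⟨hd, he, Or.inr (by
    rw [mem_fl, Finset.mem_singleton] at hd he; exact hd.1.trans he.1.symm)⟩
  by_cases h0 : N i = []
  · have e : fl N {i} = ∅ := by
      ext d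
      simp only [mem_fl, Finset.mem_singleton, Finset.notMem_empty, iff_false, not_and]
      intro c; rw [c, h0]; simp
    refine ⟨[[]], 0, by simp [h0], ?_, by simp [e], cn⟩
    rw [e]
    exact ⟨0, fun _ => 0, ⟨by simp [PM], by simp, by simp, by simp⟩, by simp, by simp,
      by simp [Ch], by simp [ex]⟩
  · refine ⟨_, 1, ?_, st_new N i hN h0, fun hne => ?_, cn⟩
    · simp [lw, lb, comp_def]
    · have e1 : (fl N {i}).card = (N i).toFinset.card * 2 := by simp [fl]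
      have e2 : (N i).toFinset ⊆ (fl N {i}).image lb := fun x hx =>
        Finset.mem_image.2 ⟨(i, x, true), mem_fl.2 ⟨by simp, by simpa using hx⟩, rfl⟩
      have e3 := Finset.card_le_card e2
      have e4 := (hne.image kp).card_pos
      unfold Eu
      omega

theorem mono (h : IV N I ws g) (hg : g ≤ g') : IV N I ws g' := by
  obtain ⟨W, n, e, s, c, k⟩ := h
  exact ⟨W, n, e, s, fun hne => by have := c hne; unfold Eu at this ⊢; omega, k⟩

theorem perm (h : IV N I ws g) (hp : ws.Perm ws') : IV N I ws' g := by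
  obtain ⟨W, n, rfl, s, c, k⟩ := h
  obtain ⟨W', e, p⟩ := (List.perm_comp_forall₂ hp.symm
    (List.forall₂_map_left_iff.2 (List.forall₂_same.2 fun _ _ => rfl) :
      List.Forall₂ (fun a b => a = lw lb b) (W.map (lw lb)) W))
  refine ⟨W', n, ?_, s.perm p.symm, c, k⟩
  rw [← List.forall₂_eq_eq_eq, List.forall₂_map_left_iff]
  exact e.flip.imp fun _ _ h => h.symm

theorem rot {A B : List V} (h : IV N I ((A ++ B) :: ws) g) : IV N I ((B ++ A) :: ws) g := by
  obtain ⟨W, n, e, s, c, k⟩ := h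
  obtain ⟨w, W, rfl, e1, rfl⟩ := List.map_eq_cons_iff.1 e
  obtain ⟨A', B', rfl, rfl, rfl⟩ := List.map_eq_append_iff.1 e1
  exact ⟨_, n, by simp [lw], s.rot, c, k⟩

theorem rev {A : List V} (h : IV N I (A :: ws) g) : IV N I (A.reverse :: ws) g := by
  obtain ⟨W, n, e, s, c, k⟩ := h
  obtain ⟨w, W, rfl, rfl, rfl⟩ := List.map_eq_cons_iff.1 e
  exact ⟨_, n, by rw [List.map_cons, s.lw_rv List.mem_cons_self fun _ h => h], s.rev, c, k⟩

theorem drop {x : V} {A : List V} (h : IV N I ((x :: A) :: ws) g) : IV N I (A :: ws) g := by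
  obtain ⟨W, n, e, s, c, k⟩ := h
  obtain ⟨w, W, rfl, e1, rfl⟩ := List.map_eq_cons_iff.1 e
  obtain ⟨y, A', rfl, rfl, rfl⟩ := List.map_eq_cons_iff.1 e1
  exact ⟨_, n, rfl, s.drop, c, k⟩

theorem forget {A : List V} (h : IV N I (A :: ws) g) : IV N I ws g := by
  obtain ⟨W, n, e, s, c, k⟩ := h
  obtain ⟨w, W, rfl, rfl, rfl⟩ := List.map_eq_cons_iff.1 e
  exact ⟨_, n, rfl, s.forget, c, k⟩

theorem letter {w : List V} {x : V} (h : IV N I ws g) (hw : w ∈ ws) (hx : x ∈ w) :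
    ∃ i ∈ I, x ∈ N i := by
  obtain ⟨W, n, rfl, s, c, k⟩ := h
  obtain ⟨w, hw', rfl⟩ := List.mem_map.1 hw
  obtain ⟨y, hy, rfl⟩ := List.mem_map.1 hx
  exact ⟨_, mem_fl.1 (s.mem hw' hy).1⟩

end IV

/-- the union of two drawn parts before gluing -/
theorem st_union {N : ι → List V} {I J : Finset ι} {W W' : List (List (Fl ι V × Fl ι V))}
    {n n' g g' : ℤ} (Y : List V) (s : ST (al N) ga lb (fl N I) (fun _ => True) W ∅ n)
    (s' : ST (al N) ga lb (fl N J) (fun _ => True) W' ∅ n') (c : Eu (fl N I) n g)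
    (c' : Eu (fl N J) n' g') (hd : Disjoint I J)
    (hY : ∀ i ∈ I, ∀ j ∈ J, ∀ x ∈ N i, x ∈ N j → x ∈ Y) :
    ST (al N) ga lb (fl N (I ∪ J)) (fun d => d.1 ∈ I) (W ++ W') {v | v ∈ Y} (n + n') ∧
      Eu (fl N (I ∪ J)) (n + n' + Y.length - 2) (g + g') := by
  have hz : ∀ d ∈ fl N I, ∀ e ∈ fl N J, lb d = lb e → lb d ∈ Y := fun d hd e he c =>
    hY _ (mem_fl.1 hd).1 _ (mem_fl.1 he).1 _ (mem_fl.1 hd).2 (by
      have := (mem_fl.1 he).2
      unfold lb at c
      rwa [← c] at this)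
  have a2 : ∀ d ∈ fl N J, d.1 ∉ I := fun d h c => Finset.disjoint_left.1 hd c (mem_fl.1 h).1
  rw [fl_union]
  refine ⟨s.union s' (fun d h => (mem_fl.1 h).1) a2 (fun d => by rw [al_fst]) hz, ?_⟩
  have e1 := Finset.card_union_le (fl N I) (fl N J)
  have e2 := Finset.card_union_add_card_inter ((fl N I).image lb) ((fl N J).image lb)
  have e3 : (fl N I).image lb ∩ (fl N J).image lb ⊆ Y.toFinset := by
    intro v hv
    simp only [Finset.mem_inter, Finset.mem_image] at hv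
    obtain ⟨⟨d, hd, rfl⟩, e, he, c⟩ := hv
    exact List.mem_toFinset.2 (hz d hd e he c.symm)
  have e4 := (Finset.card_le_card e3).trans Y.toFinset_card_le
  have e5 : Disjoint ((fl N I).image kp) ((fl N J).image kp) := by
    rw [Finset.disjoint_left]
    intro v h1 h2
    obtain ⟨d, hd, rfl⟩ := Finset.mem_image.1 h1
    obtain ⟨e, he, c⟩ := Finset.mem_image.1 h2
    exact a2 e he (by rw [show e.1 = d.1 from c]; exact (mem_fl.1 hd).1)
  have e6 := Finset.card_union_of_disjoint e5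
  unfold Eu at c c' ⊢
  rw [Finset.image_union, Finset.image_union]
  omega

end Pool.Agent.MP_9d78a0_co.st.tr

end MrgPart4

-- ======== part 5: formerly Pool.Agent.MP_9d78a0_co.st.TRg
section MrgPart5

/-! Translation of drawings to maps, part g: attaching a part; the map of a connected subfamily. -/

set_option autoImplicit false
set_option linter.unusedSectionVars false

namespace Pool.Agent.MP_9d78a0_co.st.tr

open Function gm

variable {V ι : Type} [DecidableEq V] [DecidableEq ι]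

namespace IV
variable {N : ι → List V} {I J : Finset ι} {ws ws' : List (List V)} {g g' : ℤ}

theorem toHM (hN : ∀ i ∈ I, (N i).Nodup) (h : IV N I ws g) (K : Finset ι) (hK : K ⊆ I)
    (h0 : (fl N K).Nonempty) : ∃ β, HM (al N) β ga lb kp (fl N K) (4 - 2 * g) := by
  have h1 : IV N I [] g := by
    induction ws with
    | nil => exact h
    | cons _ _ ih => exact ih h.forget
  obtain ⟨W, n, e, s, c, k⟩ := h1
  obtain rfl := List.map_eq_nil_iff.1 e
  have sub : fl N K ⊆ fl N I := fun d hd => mem_fl.2 ⟨hK (mem_fl.1 hd).1, (mem_fl.1 hd).2⟩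
  obtain ⟨β, hb, sg, hs, hn⟩ := s.fn (amb N I fun _ => True)
  have H : HM (al N) β ga lb kp (fl N I) (4 - 2 * g) := ⟨hf_al hN, hb, sg, hs, by
    have := c (h0.mono sub)
    unfold Eu at this
    omega⟩
  obtain ⟨α', β', H', ha⟩ := H.restrict (amb N I fun _ => True) (ambk N I) (fl N K) sub
    (ambk N K).gs (by
      intro d hd
      obtain ⟨e, he⟩ := h0
      refine ⟨e, he, ?_⟩
      have := k d hd e (sub he)
      clear he
      induction this with
      | refl => exact Relation.ReflTransGen.refl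
      | tail _ hz ih => exact ih.tail ⟨hz.1, hz.2.2⟩)
  have hK' := hf_al (N := N) (I := K) fun i hi => hN i (hK hi)
  obtain ⟨sg, hs, hn⟩ := H'.cnt
  refine ⟨β', hK', H'.hb, sg, fun d hd => ?_, hn⟩
  rw [← ha d hd (hK'.inv d hd).1]
  exact hs d hd

/-- the first seam; the letters of `Z` are still to be glued -/
theorem att {y : V} {Y Z : List V} {U U' : List V} (h : IV N I ((y :: Y ++ U) :: ws) g)
    (h' : IV N J (((y :: Y).reverse ++ U') :: ws') g') (hd : Disjoint I J)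
    (nd : (y :: Y ++ Z).Nodup) (hY : ∀ i ∈ I, ∀ j ∈ J, ∀ x ∈ N i, x ∈ N j → x ∈ y :: Y ++ Z) :
    ∃ (z z' : Fl ι V × Fl ι V) (B B' : List (Fl ι V × Fl ι V)) (W W' : List (List (Fl ι V × Fl ι V)))
      (n : ℤ), lb z.1 = (y :: Y).getLast (by simp) ∧ lb z'.1 = y ∧ lw lb B = U ∧ lw lb B' = U' ∧
      W.map (lw lb) = ws ∧ W'.map (lw lb) = ws' ∧ (∀ x ∈ B, x.1.1 ∈ I) ∧ (∀ x ∈ B', x.1.1 ∉ I) ∧
      (∀ w ∈ W, ∀ x ∈ w, x.1.1 ∈ I) ∧
      ST (al N) ga lb (fl N (I ∪ J)) (fun d => d.1 ∈ I) ((z :: B ++ z' :: B') :: (W ++ W'))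
        {v | v ∈ Z} n ∧ Eu (fl N (I ∪ J)) (n + Z.length) (g + g') ∧ Cn (fl N (I ∪ J)) := by
  obtain ⟨W, n, e, s, c, k⟩ := h
  obtain ⟨w, W, rfl, e1, rfl⟩ := List.map_eq_cons_iff.1 e
  obtain ⟨A, B, rfl, hA, rfl⟩ := List.map_eq_append_iff.1 (show _ = (y :: Y) ++ U from e1)
  obtain ⟨W', n', e', s', c', k'⟩ := h'
  obtain ⟨w', W', rfl, e2, rfl⟩ := List.map_eq_cons_iff.1 e'
  obtain ⟨A', B', rfl, hA', rfl⟩ := List.map_eq_append_iff.1 e2
  have m1 : ∀ w ∈ (A ++ B) :: W, ∀ x ∈ w, x.1 ∈ fl N I := fun w hw x hx => (s.mem hw hx).1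
  have m2 : ∀ x ∈ A' ++ B', x.1 ∈ fl N J := fun x hx => (s'.mem List.mem_cons_self hx).1
  have m3 : ∀ x ∈ A' ++ B', x.1.1 ∉ I := fun x hx c =>
    Finset.disjoint_left.1 hd c (mem_fl.1 (m2 x hx)).1
  obtain ⟨a, ha, ea⟩ := List.mem_map.1 (show y ∈ A.map fun x => lb x.1 by rw [hA]; simp)
  obtain ⟨a', ha', ea'⟩ := List.mem_map.1 (show y ∈ A'.map fun x => lb x.1 by rw [hA']; simp)
  have aI := m1 _ List.mem_cons_self a (by simp [ha])
  have aJ := m2 a' (by simp [ha'])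
  obtain ⟨s1, c1⟩ := st_union (y :: Y ++ Z) s s' (c ⟨_, aI⟩) (c' ⟨_, aJ⟩) hd hY
  have s2 := s1.perm (W' := (A ++ B) :: (A' ++ B') :: (W ++ W'))
    (List.Perm.cons _ List.perm_middle)
  obtain ⟨z, z', e3, e4, s3⟩ := s2.glue1 (amb N (I ∪ J) (· ∈ I)) y Y hA hA'
    (List.Nodup.of_append_left nd) (fun v hv => List.mem_append_left Z hv)
    (fun x hx x' hx' c => m3 x' (by simp [hx'])
      (c.1 (mem_fl.1 (m1 _ List.mem_cons_self x (by simp [hx]))).1))
  refine ⟨z, z', B, B', W, W', _, e3, e4, rfl, rfl, rfl, rfl,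
    fun x hx => (mem_fl.1 (m1 _ List.mem_cons_self x (by simp [hx]))).1,
    fun x hx => m3 x (by simp [hx]), fun w hw x hx => (mem_fl.1 (m1 w (by simp [hw]) x hx)).1,
    by
      convert s3 using 1
      ext v
      have := List.disjoint_of_nodup_append (show ((y :: Y) ++ Z).Nodup from nd)
      constructor
      · intro hv; exact ⟨List.mem_append_right _ hv, fun c => this c hv⟩
      · rintro ⟨h1, h2⟩; exact (List.mem_append.1 h1).resolve_left h2, ?_, ?_⟩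
  · convert c1 using 1
    simp only [List.cons_append, List.length_cons, List.length_append]
    push_cast
    ring
  · rw [fl_union]
    exact k.union k' aI aJ (ea.trans ea'.symm)

theorem join {y : V} {Y U U' : List V} (h : IV N I ((y :: Y ++ U) :: ws) g)
    (h' : IV N J (((y :: Y).reverse ++ U') :: ws') g') (hd : Disjoint I J)
    (nd : (y :: Y).Nodup) (hY : ∀ i ∈ I, ∀ j ∈ J, ∀ x ∈ N i, x ∈ N j → x ∈ y :: Y) :
    IV N (I ∪ J) (((y :: Y).getLast (by simp) :: U ++ y :: U') :: (ws ++ ws')) (g + g') := by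
  obtain ⟨z, z', B, B', W, W', n, e1, e2, rfl, rfl, rfl, rfl, -, -, -, s, c, k⟩ :=
    h.att (Z := []) h' hd (by simpa using nd) (by simpa using hY)
  exact ⟨_, n, by simp [e1, e2], s.sd _ (by simp), fun _ => by simpa using c, k⟩

/-- the second seam splits the word -/
theorem s2 {y x : V} {Y X U1 U2 V1 V2 : List V}
    (h : IV N I ((y :: Y ++ (U1 ++ (x :: X) ++ U2)) :: ws) g)
    (h' : IV N J (((y :: Y).reverse ++ (V1 ++ (x :: X).reverse ++ V2)) :: ws') g') (hd : Disjoint I J)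
    (nd : (y :: Y ++ x :: X).Nodup)
    (hY : ∀ i ∈ I, ∀ j ∈ J, ∀ v ∈ N i, v ∈ N j → v ∈ y :: Y ++ x :: X) :
    IV N (I ∪ J) (((x :: X).getLast (by simp) :: U2 ++ y :: V1) ::
      (x :: V2 ++ (y :: Y).getLast (by simp) :: U1) :: (ws ++ ws')) (g + g') := by
  obtain ⟨z, z', B, B', W, W', n, e1, e2, e3, e4, rfl, rfl, m1, m2, -, s, c, k⟩ :=
    h.att h' hd nd hY
  obtain ⟨B0, B3, rfl, e5, rfl⟩ := List.map_eq_append_iff.1 e3
  obtain ⟨B1, B2, rfl, rfl, hA⟩ := List.map_eq_append_iff.1 e5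
  obtain ⟨C0, C3, rfl, e6, rfl⟩ := List.map_eq_append_iff.1 e4
  obtain ⟨C1, C2, rfl, rfl, hA'⟩ := List.map_eq_append_iff.1 e6
  have s1 := ST.rot (A := z :: B1) (B := B2 ++ (B3 ++ z' :: C1) ++ C2 ++ C3) (by simpa only [List.cons_append, List.append_assoc] using s)
  obtain ⟨u, u', e7, e8, s3⟩ := ST.glue2 (amb N (I ∪ J) (· ∈ I)) x X (A := B2) (A' := C2)
    (U := B3 ++ z' :: C1) (U' := C3 ++ z :: B1) (Z := {v | v ∈ x :: X}) (W := W ++ W') (n := n) (α := al N)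
    (by simpa only [List.cons_append, List.append_assoc] using s1) hA hA'
    (List.Nodup.of_append_right (show ((y :: Y) ++ x :: X).Nodup from nd)) (fun v hv => hv)
    (fun a ha a' ha' c => m2 a' (by simp [ha']) (c.1 (m1 a (by simp [ha]))))
  refine ⟨_, _, ?_, s3.sd _ (by simp), fun _ => ?_, k⟩
  · simp [e1, e2, e7, e8, lw]
  · convert c using 1
    simp only [List.length_cons]; push_cast; ring

/-- the second seam is twisted -/
theorem x2 {y x : V} {Y X U1 U2 V1 V2 : List V}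
    (h : IV N I ((y :: Y ++ (U1 ++ (x :: X) ++ U2)) :: ws) g)
    (h' : IV N J (((y :: Y).reverse ++ (V1 ++ (x :: X) ++ V2)) :: ws') g') (hd : Disjoint I J)
    (nd : (y :: Y ++ x :: X).Nodup)
    (hY : ∀ i ∈ I, ∀ j ∈ J, ∀ v ∈ N i, v ∈ N j → v ∈ y :: Y ++ x :: X) :
    IV N (I ∪ J) (((x :: X).getLast (by simp) :: (U2 ++ y :: V1) ++
      x :: (V2 ++ (y :: Y).getLast (by simp) :: U1).reverse) :: (ws ++ ws')) (g + g' + 1) := by
  obtain ⟨z, z', B, B', W, W', n, e1, e2, e3, e4, rfl, rfl, m1, m2, -, s, c, k⟩ :=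
    h.att h' hd nd hY
  obtain ⟨B0, B3, rfl, e5, rfl⟩ := List.map_eq_append_iff.1 e3
  obtain ⟨B1, B2, rfl, rfl, hA⟩ := List.map_eq_append_iff.1 e5
  obtain ⟨C0, C3, rfl, e6, rfl⟩ := List.map_eq_append_iff.1 e4
  obtain ⟨C1, C2, rfl, rfl, hA'⟩ := List.map_eq_append_iff.1 e6
  have s1 := ST.rot (A := z :: B1) (B := B2 ++ (B3 ++ z' :: C1) ++ C2 ++ C3) (by simpa only [List.cons_append, List.append_assoc] using s)
  obtain ⟨u, u', e7, e8, s3⟩ := ST.glue3 (amb N (I ∪ J) (· ∈ I)) x X (A := B2) (A' := C2)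
    (U := B3 ++ z' :: C1) (U' := C3 ++ z :: B1) (Z := {v | v ∈ x :: X}) (W := W ++ W') (n := n) (α := al N)
    (by simpa only [List.cons_append, List.append_assoc] using s1) hA hA'
    (List.Nodup.of_append_right (show ((y :: Y) ++ x :: X).Nodup from nd)) (fun v hv => hv)
    (fun a ha a' ha' c => m2 a' (by simp [ha']) (c.1 (m1 a (by simp [ha]))))
  have e9 := s1.lw_rv List.mem_cons_self (A := C3 ++ z :: B1) (fun a ha => by
    simp only [List.mem_append] at ha ⊢; simp only [List.mem_cons] at ha ⊢; tauto)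
  refine ⟨_, _, ?_, s3.sd _ (by simp), fun _ => ?_, k⟩
  · rw [List.map_cons, lw_append, lw_cons, lw_cons, e9]
    simp [e1, e2, e7, e8, lw]
  · unfold Eu at c ⊢
    simp only [List.length_cons] at c
    push_cast at c
    omega

/-- the second seam lies on another word -/
theorem m2 {y x : V} {Y X U1 U2 V1 V2 : List V}
    (h : IV N I ((y :: Y ++ U1) :: (x :: X ++ U2) :: ws) g)
    (h' : IV N J (((y :: Y).reverse ++ (V1 ++ (x :: X).reverse ++ V2)) :: ws') g') (hd : Disjoint I J)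
    (nd : (y :: Y ++ x :: X).Nodup)
    (hY : ∀ i ∈ I, ∀ j ∈ J, ∀ v ∈ N i, v ∈ N j → v ∈ y :: Y ++ x :: X) :
    IV N (I ∪ J) (((x :: X).getLast (by simp) :: U2 ++
      x :: (V2 ++ (y :: Y).getLast (by simp) :: U1 ++ y :: V1)) :: (ws ++ ws')) (g + g' + 2) := by
  obtain ⟨z, z', B, B', W, W', n, e1, e2, rfl, e4, e3, rfl, -, m2, m1, s, c, k⟩ :=
    h.att h' hd nd hY
  obtain ⟨w, W, rfl, e5, rfl⟩ := List.map_eq_cons_iff.1 e3
  obtain ⟨B2, B3, rfl, hA, rfl⟩ := List.map_eq_append_iff.1 (show _ = (x :: X) ++ U2 from e5)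
  obtain ⟨C0, C3, rfl, e6, rfl⟩ := List.map_eq_append_iff.1 e4
  obtain ⟨C1, C2, rfl, rfl, hA'⟩ := List.map_eq_append_iff.1 e6
  have s1 := ST.rot (A := z :: B ++ z' :: C1) (B := C2 ++ C3) (by simpa only [List.cons_append, List.append_assoc] using s)
  obtain ⟨u, u', e7, e8, s3⟩ := ST.glue1 (amb N (I ∪ J) (· ∈ I)) x X (A := B2) (A' := C2)
    (U := B3) (U' := C3 ++ z :: B ++ z' :: C1) (W := W ++ W') (Z := {v | v ∈ x :: X}) (n := n)
    (α := al N)
    (by simpa only [List.cons_append, List.append_assoc] using s1.perm (List.Perm.swap _ _ _)) hA hA'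
    (List.Nodup.of_append_right (show ((y :: Y) ++ x :: X).Nodup from nd)) (fun v hv => hv)
    (fun a ha a' ha' c => m2 a' (by simp [ha']) (c.1 (m1 _ List.mem_cons_self a (by simp [ha]))))
  refine ⟨_, _, ?_, s3.sd _ (by simp), fun _ => ?_, k⟩
  · simp [e1, e2, e7, e8, lw]
  · unfold Eu at c ⊢
    simp only [List.length_cons] at c
    push_cast at c
    omega

end IV

end Pool.Agent.MP_9d78a0_co.st.tr

end MrgPart5

-- marker of a merged file
example : 731051 + 215065 = 731051 + 215065 := rfl
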