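import Pool.Agent.MP_9d78a0_co.st.Del
import Pool.Agent.MP_9d78a0_co.st.Kh
import Pool.Agent.MP_9d78a0_co.st.Jg
import Pool.Agent.MP_9d78a0_co.st.TRg

-- ======== part 0: formerly Pool.Agent.MP_9d78a0_co.st.CrkA
section MrgPart0

/-! A map that preserves crossings preserves crooked diagrams. -/

set_option autoImplicit false

namespace Pool.Agent.MP_9d78a0_co.st

open Set Function fb

namespace Crk

/-- the place of an end of a chord -/
def en (x y : ℕ → ℕ) (e : ℕ × Bool) : ℕ := if e.2 then y e.1 else x e.1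

@[simp] theorem en_true (x y : ℕ → ℕ) (i : ℕ) : en x y (i, true) = y i := rfl

@[simp] theorem en_false (x y : ℕ → ℕ) (i : ℕ) : en x y (i, false) = x i := rfl

theorem en_inj {n : ℕ} {x y : ℕ → ℕ} (h : Dst n x y) {e e' : ℕ × Bool} (he : e.1 < n)
    (he' : e'.1 < n) (hne : e ≠ e') : en x y e ≠ en x y e' := by
  obtain ⟨i, b⟩ := e
  obtain ⟨j, c⟩ := e'
  have h1 := h i he j he'
  have h2 := h j he' i he
  cases b <;> cases c <;> simp only [en_true, en_false]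
  · exact (h1.2 fun hij => hne (by rw [hij])).1
  · exact h1.1
  · exact h2.1.symm
  · exact (h1.2 fun hij => hne (by rw [hij])).2

/-- a convex finite set is cut out by an interval -/
theorem convex_int {A B : Set ℕ} (hA : A.Finite) (hd : Disjoint A B)
    (h : ∀ a ∈ A, ∀ c ∈ A, ∀ b ∈ B, ¬ (a < b ∧ b < c)) :
    ∃ α β, (∀ a ∈ A, a ∈ Ico α β) ∧ ∀ b ∈ B, b ∉ Ico α β := by
  rcases A.eq_empty_or_nonempty with rfl | hne
  · exact ⟨0, 0, by simp, by simp⟩
  obtain ⟨a, ha, hmin⟩ := Set.exists_min_image A id hA hne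
  obtain ⟨c, hc, hmax⟩ := Set.exists_max_image A id hA hne
  refine ⟨a, c + 1, fun z hz => ⟨hmin z hz, Nat.lt_succ_of_le (hmax z hz)⟩, fun b hb hI => ?_⟩
  have h1 : b ≠ a := fun e => Set.disjoint_left.1 hd ha (e ▸ hb)
  have h2 : b ≠ c := fun e => Set.disjoint_left.1 hd hc (e ▸ hb)
  have := h a ha c hc b hb
  have h3 := hI.1
  have h4 := hI.2
  omega

/-- two finite sets that do not alternate: one of them is cut out by an interval -/
theorem nonalt_int {A B : Set ℕ} (hA : A.Finite) (hB : B.Finite) (hd : Disjoint A B)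
    (h : ∀ a ∈ A, ∀ c ∈ A, ∀ b ∈ B, ∀ d ∈ B, ¬ Xs a c b d) :
    ∃ α β, ((∀ a ∈ A, a ∈ Ico α β) ∧ ∀ b ∈ B, b ∉ Ico α β) ∨
      ((∀ b ∈ B, b ∈ Ico α β) ∧ ∀ a ∈ A, a ∉ Ico α β) := by
  by_cases hc : ∀ a ∈ A, ∀ c ∈ A, ∀ b ∈ B, ¬ (a < b ∧ b < c)
  · obtain ⟨α, β, h1⟩ := convex_int hA hd hc
    exact ⟨α, β, Or.inl h1⟩
  · push Not at hc
    obtain ⟨a, ha, c, hc, b, hb, hab, hbc⟩ := hc
    obtain ⟨α, β, h1⟩ := convex_int hB hd.symm (fun b' hb' d' hd' a' ha' hh => by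
      have hne : b ≠ a' := fun e => Set.disjoint_left.1 hd ha' (e ▸ hb)
      have k1 := h a ha a' ha' b hb d' hd'
      have k2 := h a' ha' c hc b hb b' hb'
      unfold Xs fb.Btw at k1 k2
      omega)
    exact ⟨α, β, Or.inr h1⟩

theorem btw_iff {a b c : ℕ} (h1 : a ≠ c) (h2 : b ≠ c) : Btw a b c ↔ ¬ (a < c ↔ b < c) := by
  unfold fb.Btw
  omega

theorem xs_iff {a b c d : ℕ} (hac : a ≠ c) (had : a ≠ d) (hbc : b ≠ c) (hbd : b ≠ d) :
    Xs a b c d ↔ ¬ ((a < c ↔ b < c) ↔ (a < d ↔ b < d)) := by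
  unfold Xs
  rw [btw_iff hac hbc, btw_iff had hbd]
  tauto

/-- of the three matchings of four different points exactly one crosses -/
theorem xs_tri {a b c d : ℕ} (hab : a ≠ b) (hac : a ≠ c) (had : a ≠ d) (hbc : b ≠ c)
    (hbd : b ≠ d) (hcd : c ≠ d) : ¬ Xs a b c d ↔ (Xs a c b d ∨ Xs a d b c) := by
  rw [xs_iff hac had hbc hbd, xs_iff hab had hbc.symm hcd, xs_iff hab hac hbd.symm hcd.symm]
  have e1 : c < b ↔ ¬ b < c := by omega
  have e2 : d < b ↔ ¬ b < d := by omega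
  have e3 : d < c ↔ ¬ c < d := by omega
  rw [e1, e2, e3]
  by_cases h1 : a < b <;> by_cases h2 : a < c <;> by_cases h3 : a < d <;> by_cases h4 : b < c <;>
    by_cases h5 : b < d <;> by_cases h6 : c < d <;>
    first | (simp [h1, h2, h3, h4, h5, h6]; done) | (exfalso; omega)

/-- crossings of four different ends are kept -/
def Keep (n : ℕ) (x y x' y' : ℕ → ℕ) : Prop :=
  ∀ a b c d : ℕ × Bool, a.1 < n → b.1 < n → c.1 < n → d.1 < n → a ≠ b → a ≠ c → a ≠ d → b ≠ c →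
    b ≠ d → c ≠ d → Xs (en x y a) (en x y b) (en x y c) (en x y d) →
    Xs (en x' y' a) (en x' y' b) (en x' y' c) (en x' y' d)

theorem Keep.back {n : ℕ} {x y x' y' : ℕ → ℕ} (k : Keep n x y x' y') (h : Dst n x y)
    (h' : Dst n x' y') : Keep n x' y' x y := by
  intro a b c d ha hb hc hd hab hac had hbc hbd hcd hx
  by_contra hn
  refine (xs_tri (en_inj h' ha hb hab) (en_inj h' ha hc hac) (en_inj h' ha hd had)
    (en_inj h' hb hc hbc) (en_inj h' hb hd hbd) (en_inj h' hc hd hcd)).2 ?_ hx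
  exact ((xs_tri (en_inj h ha hb hab) (en_inj h ha hc hac) (en_inj h ha hd had)
    (en_inj h hb hc hbc) (en_inj h hb hd hbd) (en_inj h hc hd hcd)).1 hn).imp
    (k a c b d ha hc hb hd hac hab had hbc.symm hcd hbd)
    (k a d b c ha hd hb hc had hab hac hbd.symm hcd.symm hbc)

theorem crook_iff {n : ℕ} {x y : ℕ → ℕ} : Crook n x y ↔ ∀ i < n, ∃ c d : ℕ × Bool, c.1 < n ∧
    d.1 < n ∧ c.1 ≠ i ∧ d.1 ≠ i ∧ Xs (x i) (y i) (en x y c) (en x y d) := by
  constructor
  · intro h i hi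
    obtain ⟨⟨j, hj, h1⟩, j', hj', hne, h2⟩ := h i hi
    have hji : j ≠ i := by
      rintro rfl
      unfold fb.Btw at h1
      omega
    obtain ⟨c, hc, hc1⟩ : ∃ c : ℕ × Bool, c.1 = j ∧ Btw (x i) (y i) (en x y c) :=
      h1.elim (fun h => ⟨(j, false), rfl, h⟩) fun h => ⟨(j, true), rfl, h⟩
    obtain ⟨d, hd, hd1⟩ : ∃ d : ℕ × Bool, d.1 = j' ∧ ¬ Btw (x i) (y i) (en x y d) :=
      h2.elim (fun h => ⟨(j', false), rfl, h⟩) fun h => ⟨(j', true), rfl, h⟩
    exact ⟨c, d, hc ▸ hj, hd ▸ hj', hc ▸ hji, hd ▸ hne, Or.inl ⟨hc1, hd1⟩⟩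
  · intro h i hi
    obtain ⟨c, d, hc, hd, hci, hdi, hx⟩ := h i hi
    have key : ∀ c d : ℕ × Bool, c.1 < n → d.1 < n → d.1 ≠ i → Btw (x i) (y i) (en x y c) →
        ¬ Btw (x i) (y i) (en x y d) →
        (∃ j < n, Btw (x i) (y i) (x j) ∨ Btw (x i) (y i) (y j)) ∧
          ∃ j < n, j ≠ i ∧ (¬ Btw (x i) (y i) (x j) ∨ ¬ Btw (x i) (y i) (y j)) := by
      rintro ⟨j, b⟩ ⟨j', b'⟩ hc hd hdi h1 h2
      refine ⟨⟨j, hc, ?_⟩, j', hd, hdi, ?_⟩
      · cases b
        · exact Or.inl h1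
        · exact Or.inr h1
      · cases b'
        · exact Or.inl h2
        · exact Or.inr h2
    exact hx.elim (fun h => key c d hc hd hdi h.1 h.2) fun h => key d c hd hc hci h.1 h.2

theorem Keep.crook {n : ℕ} {x y x' y' : ℕ → ℕ} (k : Keep n x y x' y') (h : Crook n x y) :
    Crook n x' y' := by
  rw [crook_iff] at h ⊢
  intro i hi
  obtain ⟨c, d, hc, hd, hci, hdi, hx⟩ := h i hi
  refine ⟨c, d, hc, hd, hci, hdi, ?_⟩
  have hcd : c ≠ d := by
    rintro rfl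
    unfold Xs at hx
    tauto
  exact k (i, false) (i, true) c d hi hi hc hd (by simp) (fun e => hci (by rw [← e]))
    (fun e => hdi (by rw [← e])) (fun e => hci (by rw [← e])) (fun e => hdi (by rw [← e])) hcd hx

/-- a set of ends that does not alternate with its complement is an interval or a co-interval -/
theorem ends_int {n : ℕ} {x y : ℕ → ℕ} (h : Dst n x y) (X : Set (ℕ × Bool))
    (hX : ∀ a c b d : ℕ × Bool, a.1 < n → c.1 < n → b.1 < n → d.1 < n → a ∈ X → c ∈ X → b ∉ X →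
      d ∉ X → a ≠ c → b ≠ d → ¬ Xs (en x y a) (en x y c) (en x y b) (en x y d)) :
    ∃ α β, (∀ e : ℕ × Bool, e.1 < n → (e ∈ X ↔ en x y e ∈ Ico α β)) ∨
      ∀ e : ℕ × Bool, e.1 < n → (e ∈ X ↔ en x y e ∉ Ico α β) := by
  have hfin : {e : ℕ × Bool | e.1 < n}.Finite := by
    refine ((Set.finite_lt_nat n).prod (Set.finite_univ (α := Bool))).subset ?_
    intro e he
    exact ⟨he, trivial⟩
  obtain ⟨α, β, hh⟩ := nonalt_int (A := en x y '' {e | e.1 < n ∧ e ∈ X})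
    (B := en x y '' {e | e.1 < n ∧ e ∉ X}) ((hfin.subset fun e he => he.1).image _)
    ((hfin.subset fun e he => he.1).image _) (by
      rw [Set.disjoint_left]
      rintro _ ⟨e, he, rfl⟩ ⟨e', he', hee⟩
      exact en_inj h he'.1 he.1 (fun k => he'.2 (k ▸ he.2)) hee) (by
      rintro _ ⟨a, ha, rfl⟩ _ ⟨c, hc, rfl⟩ _ ⟨b, hb, rfl⟩ _ ⟨d, hd, rfl⟩ hx
      refine hX a c b d ha.1 hc.1 hb.1 hd.1 ha.2 hc.2 hb.2 hd.2 ?_ ?_ hx
      · rintro rfl
        unfold Xs fb.Btw at hx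
        omega
      · rintro rfl
        unfold Xs at hx
        tauto)
  refine ⟨α, β, hh.imp (fun k e he => ⟨fun hx => k.1 _ ⟨e, ⟨he, hx⟩, rfl⟩, fun hI => ?_⟩)
    fun k e he => ⟨fun hx => k.2 _ ⟨e, ⟨he, hx⟩, rfl⟩, fun hI => ?_⟩⟩
  · by_contra hx
    exact k.2 _ ⟨e, ⟨he, hx⟩, rfl⟩ hI
  · by_contra hx
    exact hI (k.1 _ ⟨e, ⟨he, hx⟩, rfl⟩)

theorem Keep.trn {n p : ℕ} {x y x' y' : ℕ → ℕ} (k : Keep n x' y' x y) (h' : Dst n x' y')
    (h : Trn n x y p) : Trn n x' y' p := by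
  obtain ⟨α, β, t, ht, hp⟩ := h
  obtain ⟨α', β', hh⟩ := ends_int h' {e | en x y e ∈ Ico α β} (by
    intro a c b d ha hc hb hd haX hcX hbX hdX hac hbd hx
    have hx' := k a c b d ha hc hb hd hac (fun e => hbX (e ▸ haX)) (fun e => hdX (e ▸ haX))
      (fun e => hbX (e ▸ hcX)) (fun e => hdX (e ▸ hcX)) hbd hx
    simp only [mem_ofPred_eq, mem_Ico] at haX hcX hbX hdX
    unfold Xs fb.Btw at hx'
    omega)
  refine ⟨α', β', t, ht, fun i hi => ⟨(hp i hi).1, ?_⟩⟩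
  have h0 := (hp i hi).2
  rcases hh with hh | hh
  all_goals
    have h1 := hh (t i, false) (hp i hi).1
    have h2 := hh (t i, true) (hp i hi).1
    simp only [mem_ofPred_eq, en_true, en_false] at h1 h2
    tauto

/-- a map that keeps crossings keeps crooked diagrams -/
theorem Keep.dg {n p : ℕ} {x y x' y' : ℕ → ℕ} (k : Keep n x y x' y') (h' : Dst n x' y')
    (h : Dg n x y p) : Dg n x' y' p :=
  ⟨h', k.crook h.crook, (k.back h.dst h').trn h' h.trn⟩

/-- the same with the four ends given as a function -/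
theorem keep_of_fin {n : ℕ} {x y x' y' : ℕ → ℕ}
    (k : ∀ e : Fin 4 → ℕ × Bool, Injective e → (∀ t, (e t).1 < n) →
      Xs (en x y (e 0)) (en x y (e 1)) (en x y (e 2)) (en x y (e 3)) →
      Xs (en x' y' (e 0)) (en x' y' (e 1)) (en x' y' (e 2)) (en x' y' (e 3))) :
    Keep n x y x' y' := by
  intro a b c d ha hb hc hd hab hac had hbc hbd hcd hx
  refine k ![a, b, c, d] ?_ ?_ hx
  · intro i j hij
    fin_cases i <;> fin_cases j <;> simp_all [eq_comm]
  · intro t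
    fin_cases t <;> simpa

end Crk

end Pool.Agent.MP_9d78a0_co.st

end MrgPart0

-- ======== part 1: formerly Pool.Agent.MP_9d78a0_co.st.Crk
section MrgPart1

/-! Transport of crooked linkages. -/

set_option autoImplicit false

namespace Pool.Agent.MP_9d78a0_co.st

open Set Function fb

namespace Crk

variable {V : Type}

theorem pos_inj {L : List V} {a b : V} (ha : a ∈ L) (h : pos L a = pos L b) : a = b := by
  classical
  unfold pos at h
  exact (List.idxOf_inj ha).1 h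

theorem pos_lt {L : List V} {a : V} (ha : a ∈ L) : pos L a < L.length := by
  classical
  unfold pos
  exact List.idxOf_lt_length_of_mem ha

theorem pos_left {A B : List V} {a : V} (ha : a ∈ A) : pos (A ++ B) a = pos A a := by
  classical
  unfold pos
  exact List.idxOf_append_of_mem ha

theorem pos_right {A B : List V} {a : V} (ha : a ∉ A) : pos (A ++ B) a = A.length + pos B a := by
  classical
  unfold pos
  exact List.idxOf_append_of_notMem ha

theorem pos_pairwise {L : List V} (h : L.Nodup) : L.Pairwise fun a b => pos L a < pos L b := by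
  classical
  rw [List.pairwise_iff_getElem]
  intro i j hi hj hij
  unfold pos
  rw [h.idxOf_getElem i hi, h.idxOf_getElem j hj]
  exact hij

theorem pos_sub {L M : List V} (h : L.Nodup) (hs : M.Sublist L) :
    M.Pairwise fun a b => pos L a < pos L b := (pos_pairwise h).sublist hs

/-- letters in increasing places form a sublist -/
theorem sub_of_pos {L M : List V} (h : L.Nodup) (hm : ∀ v ∈ M, v ∈ L)
    (hp : M.Pairwise fun a b => pos L a < pos L b) : M.Sublist L := by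
  have : Std.Antisymm fun a b => pos L a < pos L b := ⟨fun a b h1 h2 => absurd h1 h2.asymm⟩
  have hM : M.Nodup := hp.imp fun {a b} hab e => by
    rw [e] at hab
    exact lt_irrefl _ hab
  exact List.sublist_of_subperm_of_pairwise (List.subperm_of_subset hM hm) hp (pos_pairwise h)

theorem pos_lt_iff {L : List V} (h : L.Nodup) {a b : V} (ha : a ∈ L) (hb : b ∈ L) :
    pos L a < pos L b ↔ [a, b].Sublist L :=
  ⟨fun k => sub_of_pos h (by simp [ha, hb]) (by simpa using k),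
    fun k => by simpa using pos_sub h k⟩

theorem pos_lt_sub {L L' : List V} (h : L.Nodup) (hs : L'.Sublist L) {a b : V} (ha : a ∈ L')
    (hb : b ∈ L') : pos L' a < pos L' b ↔ pos L a < pos L b := by
  have key : ∀ a b, a ∈ L' → b ∈ L' → pos L' a < pos L' b → pos L a < pos L b :=
    fun a b ha hb k => (pos_lt_iff h (hs.subset ha) (hs.subset hb)).2
      (((pos_lt_iff (h.sublist hs) ha hb).1 k).trans hs)
  refine ⟨key a b ha hb, fun k => ?_⟩
  rcases lt_trichotomy (pos L' a) (pos L' b) with h1 | h1 | h1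
  · exact h1
  · rw [pos_inj ha h1] at k
    exact absurd k (lt_irrefl _)
  · exact absurd (key b a hb ha h1) k.asymm

theorem pos_lt_rev {L : List V} (h : L.Nodup) {a b : V} (ha : a ∈ L) (hb : b ∈ L) :
    pos L.reverse b < pos L.reverse a ↔ pos L a < pos L b := by
  rw [pos_lt_iff h ha hb, pos_lt_iff (List.nodup_reverse.2 h) (List.mem_reverse.2 hb)
    (List.mem_reverse.2 ha), ← List.reverse_sublist]
  simp

theorem conn_le {H H' : SimpleGraph V} (hle : H ≤ H') {S : Set V} (h : Conn H S) : Conn H' S :=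
  ⟨h.1, fun u hu v hv =>
    Link.map (G' := H') id (fun _ ha _ hb hab => Link.single ha hb (hle hab)) (h.2 u hu v hv)⟩

/-- a change of the list that keeps crossings -/
theorem crkN_of {H : SimpleGraph V} {U : Set V} {L L' : List V} {n p : ℕ}
    (hm : ∀ v ∈ L, v ∈ L')
    (hx : ∀ a ∈ L, ∀ b ∈ L, ∀ c ∈ L, ∀ d ∈ L, a ≠ c → a ≠ d → b ≠ c → b ≠ d →
      Xs (pos L a) (pos L b) (pos L c) (pos L d) → Xs (pos L' a) (pos L' b) (pos L' c) (pos L' d))
    (h : CrkN H U L n p) : CrkN H U L' n p := by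
  obtain ⟨u, v, Q, hl, hL, hd⟩ := h
  refine ⟨u, v, Q, hl, fun i hi => ⟨hm _ (hL i hi).1, hm _ (hL i hi).2⟩, Keep.dg ?_ ?_ hd⟩
  · have e1 : ∀ (M : List V) (e : ℕ × Bool), en (fun i => pos M (u i)) (fun i => pos M (v i)) e =
        pos M (if e.2 then v e.1 else u e.1) := by
      rintro M ⟨i, b⟩
      cases b <;> rfl
    have e2 : ∀ e : ℕ × Bool, e.1 < n → (if e.2 then v e.1 else u e.1) ∈ L := by
      rintro ⟨i, b⟩ hi
      cases b
      · exact (hL i hi).1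
      · exact (hL i hi).2
    have e3 : ∀ e e' : ℕ × Bool, e.1 < n → e'.1 < n → e ≠ e' →
        (if e.2 then v e.1 else u e.1) ≠ (if e'.2 then v e'.1 else u e'.1) := by
      intro e e' he he' hne k
      have := en_inj hd.dst he he' hne
      rw [e1, e1, k] at this
      exact this rfl
    intro a b c d ha hb hc hd' _ hac had hbc hbd _ k
    simp only [e1] at k ⊢
    exact hx _ (e2 a ha) _ (e2 b hb) _ (e2 c hc) _ (e2 d hd') (e3 a c ha hc hac)
      (e3 a d ha hd' had) (e3 b c hb hc hbc) (e3 b d hb hd' hbd) k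
  · have key : ∀ a ∈ L, ∀ b, pos L a ≠ pos L b → pos L' a ≠ pos L' b :=
      fun a ha b k e => k (by rw [pos_inj (hm a ha) e])
    intro i hi j hj
    have := hd.dst i hi j hj
    exact ⟨key _ (hL i hi).1 _ this.1, fun hij =>
      ⟨key _ (hL i hi).1 _ (this.2 hij).1, key _ (hL i hi).2 _ (this.2 hij).2⟩⟩

theorem xs_rot {r s a b c d a' b' c' d' : ℕ}
    (ha : (a < r ∧ a' = s + a) ∨ (r ≤ a ∧ a' + r = a ∧ a' < s))
    (hb : (b < r ∧ b' = s + b) ∨ (r ≤ b ∧ b' + r = b ∧ b' < s))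
    (hc : (c < r ∧ c' = s + c) ∨ (r ≤ c ∧ c' + r = c ∧ c' < s))
    (hd : (d < r ∧ d' = s + d) ∨ (r ≤ d ∧ d' + r = d ∧ d' < s))
    (hac : a ≠ c) (had : a ≠ d) (hbc : b ≠ c) (hbd : b ≠ d) (h : Xs a b c d) : Xs a' b' c' d' := by
  have key : ∀ {x y x' y' : ℕ}, ((x < r ∧ x' = s + x) ∨ (r ≤ x ∧ x' + r = x ∧ x' < s)) →
      ((y < r ∧ y' = s + y) ∨ (r ≤ y ∧ y' + r = y ∧ y' < s)) → x ≠ y →
      x' ≠ y' ∧ (x' < y' ↔ (x < y ↔ (x < r ↔ y < r))) := by
    intro x y x' y' hx hy hxy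
    rcases hx with hx | hx <;> rcases hy with hy | hy <;> omega
  have k1 := key ha hc hac
  have k2 := key ha hd had
  have k3 := key hb hc hbc
  have k4 := key hb hd hbd
  rw [xs_iff hac had hbc hbd] at h
  rw [xs_iff k1.1 k2.1 k3.1 k4.1, k1.2, k2.2, k3.2, k4.2]
  revert h
  generalize (a < c) = p1, (a < d) = p2, (b < c) = p3, (b < d) = p4, (a < r) = q1, (b < r) = q2,
    (c < r) = q3, (d < r) = q4
  by_cases p1 <;> by_cases p2 <;> by_cases p3 <;> by_cases p4 <;> by_cases q1 <;> by_cases q2 <;>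
    by_cases q3 <;> by_cases q4 <;> simp [*]

theorem pos_rot {A B : List V} (h : (A ++ B).Nodup) {a : V} (ha : a ∈ A ++ B) :
    (pos (A ++ B) a < A.length ∧ pos (B ++ A) a = B.length + pos (A ++ B) a) ∨
      (A.length ≤ pos (A ++ B) a ∧ pos (B ++ A) a + A.length = pos (A ++ B) a ∧
        pos (B ++ A) a < B.length) := by
  have hd := (List.nodup_append.1 h).2.2
  rcases List.mem_append.1 ha with k | k
  · have k' : a ∉ B := fun e => hd a k a e rfl
    rw [pos_left k, pos_right k']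
    exact Or.inl ⟨pos_lt k, rfl⟩
  · have k' : a ∉ A := fun e => hd a e a k rfl
    rw [pos_left k, pos_right k']
    exact Or.inr ⟨by omega, by omega, pos_lt k⟩

theorem four {L : List V} (h : L.Nodup) {a b c d : V} (hs : [a, b, c, d].Sublist L) :
    pos L a < pos L b ∧ pos L b < pos L c ∧ pos L c < pos L d := by
  have := pos_sub h hs
  simp only [List.pairwise_cons, List.mem_cons, forall_eq_or_imp] at this
  exact ⟨this.1.1, this.2.1.1, this.2.2.1.1⟩

theorem four' {L : List V} (h : L.Nodup) {a b c d : V} (ha : a ∈ L) (hb : b ∈ L) (hc : c ∈ L)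
    (hd : d ∈ L) (h1 : pos L a < pos L b) (h2 : pos L b < pos L c) (h3 : pos L c < pos L d) :
    [a, b, c, d].Sublist L := by
  refine sub_of_pos h (by simp [ha, hb, hc, hd]) ?_
  simp only [List.pairwise_cons, List.mem_cons, forall_eq_or_imp, List.not_mem_nil, false_imp_iff,
    implies_true, List.Pairwise.nil, and_true]
  omega

theorem of_cr {H : SimpleGraph V} {U : Set V} {L : List V} (h : L.Nodup) (hc : Cr H U L) :
    CrkN H U L 2 1 := by
  obtain ⟨a, b, c, d, hs, P, Q, ht, ha, hc, hb, hd⟩ := hc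
  obtain ⟨h1, h2, h3⟩ := four h hs
  have hm : ∀ z ∈ [a, b, c, d], z ∈ L := fun z hz => hs.subset hz
  refine ⟨fun i => if i = 0 then a else b, fun i => if i = 0 then c else d,
    fun i => if i = 0 then P else Q, ⟨fun i hi => ?_, fun i hi j hj hij => ?_⟩, fun i hi => ?_,
    fun i hi j hj => ?_, fun i hi => ?_, pos L a, pos L a + 1, fun _ => 0, ?_, fun i hi => ?_⟩
  · interval_cases i
    · exact ⟨ht.sp, ht.cp, ha, hc⟩
    · exact ⟨ht.sq, ht.cq, hb, hd⟩
  · interval_cases i <;> interval_cases j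
    · exact absurd rfl hij
    · exact ht.dis
    · exact ht.dis.symm
    · exact absurd rfl hij
  · interval_cases i
    · exact ⟨hm a (by simp), hm c (by simp)⟩
    · exact ⟨hm b (by simp), hm d (by simp)⟩
  · interval_cases i <;> interval_cases j <;> simp <;> omega
  · interval_cases i
    · refine ⟨⟨1, by omega, Or.inl (Or.inl ?_)⟩, 1, by omega, by omega, Or.inr ?_⟩
      · exact ⟨h1, h2⟩
      · change ¬ fb.Btw (pos L a) (pos L c) (pos L d)
        unfold fb.Btw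
        omega
    · refine ⟨⟨0, by omega, Or.inr (Or.inl ?_)⟩, 0, by omega, by omega, Or.inl ?_⟩
      · exact ⟨h2, h3⟩
      · change ¬ fb.Btw (pos L b) (pos L d) (pos L a)
        unfold fb.Btw
        omega
  · intro i hi j hj _
    have h4 : i < 1 := hi
    have h5 : j < 1 := hj
    omega
  · refine ⟨Nat.zero_lt_two, ?_⟩
    simp only [mem_Ico, if_true]
    omega

end Crk

open Crk in
theorem crkS (hP : PruneS) : CrkS := by
  intro V H U L n p h
  refine ⟨?_, fun L' hs => crkN_of (fun _ hv => hs.subset hv) ?_, fun L' hr => ?_,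
    crkN_of (fun _ hv => List.mem_reverse.2 hv) ?_, fun hp => ?_, of_cr h, ?_,
    fun a b c d hs => four h hs⟩
  · rintro H' U' hH hU ⟨u, v, Q, hl, hL, hd⟩
    exact ⟨u, v, Q, ⟨fun i hi => ⟨(hl.mem i hi).1.trans hU, conn_le hH (hl.mem i hi).2.1,
      (hl.mem i hi).2.2⟩, hl.dis⟩, hL, hd⟩
  · intro a ha b hb c hc d hd _ _ _ _ k
    unfold Xs fb.Btw at k ⊢
    simpa only [pos_lt_sub h hs, ha, hb, hc, hd] using k
  · obtain ⟨k, rfl⟩ := hr
    rw [List.rotate_eq_drop_append_take_mod]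
    generalize k % L.length = m
    obtain ⟨A, B, rfl, e⟩ : ∃ A B, L = A ++ B ∧ L.drop m ++ L.take m = B ++ A :=
      ⟨L.take m, L.drop m, (List.take_append_drop m L).symm, rfl⟩
    rw [e]
    refine crkN_of (fun v hv => by simpa [or_comm] using hv) ?_
    intro a ha b hb c hc d hd hac had hbc hbd
    exact xs_rot (pos_rot h ha) (pos_rot h hb) (pos_rot h hc) (pos_rot h hd)
      (fun e => hac (pos_inj ha e)) (fun e => had (pos_inj ha e)) (fun e => hbc (pos_inj hb e))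
      fun e => hbd (pos_inj hb e)
  · intro a ha b hb c hc d hd _ _ _ _ k
    have key : ∀ a ∈ L, ∀ b ∈ L, ∀ c ∈ L, fb.Btw (pos L.reverse a) (pos L.reverse b)
        (pos L.reverse c) ↔ fb.Btw (pos L a) (pos L b) (pos L c) := by
      intro a ha b hb c hc
      unfold fb.Btw
      simp only [pos_lt_rev h, ha, hb, hc]
      tauto
    unfold Xs at k ⊢
    rw [key a ha b hb c hc, key a ha b hb d hd]
    exact k
  · rintro ⟨u, v, Q, hl, hL, hd⟩
    obtain ⟨α, β, t, ht, hT⟩ := hd.trn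
    obtain ⟨m, e, -, hm, he, hn, -, hD⟩ := hP.1 n p α β _ _ t hd.dst hd.crook hp ht hT
    exact ⟨m, hm, u ∘ e, v ∘ e, Q ∘ e, ⟨fun i hi => hl.mem _ (hn i hi), fun i hi j hj hij =>
      hl.dis _ (hn i hi) _ (hn j hj) fun k => hij (he hi hj k)⟩, fun i hi => hL _ (hn i hi), hD⟩
  · intro a ha b hb c hc d hd hx hab had hcb hcd P Q _ haP hcP hbQ hdQ
    have k1 : pos L a ≠ pos L b := fun e => hab (pos_inj ha e)
    have k2 : pos L a ≠ pos L d := fun e => had (pos_inj ha e)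
    have k3 : pos L c ≠ pos L b := fun e => hcb (pos_inj hc e)
    have k4 : pos L c ≠ pos L d := fun e => hcd (pos_inj hc e)
    have key : ∀ a ∈ L, ∀ c ∈ L, ∀ b ∈ L, ∀ d ∈ L, a ∈ P → c ∈ P → b ∈ Q → d ∈ Q →
        pos L a < pos L b → pos L b < pos L c → pos L d < pos L a ∨ pos L c < pos L d →
        ∃ a' b' c' d', List.Sublist [a', b', c', d'] L ∧
          ((a' ∈ P ∧ c' ∈ P ∧ b' ∈ Q ∧ d' ∈ Q) ∨ (a' ∈ Q ∧ c' ∈ Q ∧ b' ∈ P ∧ d' ∈ P)) := by
      intro a ha c hc b hb d hd haP hcP hbQ hdQ h1 h2 h3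
      rcases h3 with h3 | h3
      · exact ⟨d, a, b, c, four' h hd ha hb hc h3 h1 h2, Or.inr ⟨hdQ, hbQ, haP, hcP⟩⟩
      · exact ⟨a, b, c, d, four' h ha hb hc hd h1 h2 h3, Or.inl ⟨haP, hcP, hbQ, hdQ⟩⟩
    unfold Xs fb.Btw at hx
    rcases hx with ⟨h1 | h1, h2⟩ | ⟨h1 | h1, h2⟩
    · exact key a ha c hc b hb d hd haP hcP hbQ hdQ h1.1 h1.2 (by omega)
    · exact key c hc a ha b hb d hd hcP haP hbQ hdQ h1.1 h1.2 (by omega)
    · exact key a ha c hc d hd b hb haP hcP hdQ hbQ h1.1 h1.2 (by omega)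
    · exact key c hc a ha d hd b hb hcP haP hdQ hbQ h1.1 h1.2 (by omega)

end Pool.Agent.MP_9d78a0_co.st

end MrgPart1

-- ======== part 2: formerly Pool.Agent.MP_9d78a0_co.st.Uncap
section MrgPart2

/-! Removing caps from a crooked diagram. -/

set_option autoImplicit false

namespace Pool.Agent.MP_9d78a0_co.st

open Set Function fb

namespace Uncap

theorem xs_symm {a b c d : ℕ} (h1 : a ≠ c) (h2 : a ≠ d) (h3 : b ≠ c) (h4 : b ≠ d) :
    Xs a b c d ↔ Xs c d a b := by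
  unfold Xs fb.Btw
  omega

theorem not_xs {a b c d : ℕ} : ¬ Xs a b c d ↔ (Btw a b c ↔ Btw a b d) := by
  unfold Xs fb.Btw
  omega

theorem same {a b c d : ℕ} (h : ¬ Xs a b c d) (h1 : a ≠ c) (h2 : a ≠ d) (h3 : b ≠ c)
    (h4 : b ≠ d) : Btw c d a ↔ Btw c d b :=
  not_xs.1 fun h' => h ((xs_symm h1 h2 h3 h4).2 h')

theorem xs_swap {a b c d : ℕ} : Xs a b c d ↔ Xs b a c d := by
  unfold Xs fb.Btw
  omega

theorem cc_map {σ ν ν' f : ℕ → ℕ} (h1 : ∀ z, CC σ ν' (f z) (f (σ z)))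
    (h2 : ∀ z, CC σ ν' (f z) (f (ν z))) {a b : ℕ} (h : CC σ ν a b) : CC σ ν' (f a) (f b) := by
  unfold CC at h
  induction h with
  | refl => exact Relation.ReflTransGen.refl
  | tail _ h3 ih =>
    rcases h3 with rfl | rfl
    · exact Relation.ReflTransGen.trans ih (h1 _)
    · exact Relation.ReflTransGen.trans ih (h2 _)

theorem cc_l {σ ν : ℕ → ℕ} (z : ℕ) : CC σ ν z (σ z) := Relation.ReflTransGen.single (Or.inl rfl)

theorem cc_r {σ ν : ℕ → ℕ} {z w : ℕ} (h : w = ν z) : CC σ ν z w :=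
  Relation.ReflTransGen.single (Or.inr h)

theorem cc_eq {σ ν : ℕ → ℕ} {z w : ℕ} (h : z = w) : CC σ ν z w := h ▸ Relation.ReflTransGen.refl

theorem cc_comm {σ ν : ℕ → ℕ} {a b : ℕ} (h : CC σ ν a b) : CC ν σ a b := by
  unfold CC at h ⊢
  induction h with
  | refl => exact Relation.ReflTransGen.refl
  | tail _ h3 ih => exact ih.tail h3.symm

/-- the invariant -/
structure Inv {ι : Type} (σ : ℕ → ℕ) (bar : ι → ι) (e0 : ι → ℕ) (E : Finset ℕ) (ν : ℕ → ℕ)
    (e : ι → ℕ) : Prop where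
  inv : Involutive ν
  cl : ∀ z ∈ E, σ z ∈ E ∧ σ z ≠ z ∧ ν z ∈ E
  nc : ∀ z ∈ E, ∀ w ∈ E, ν z ≠ z → ν w ≠ w → w ≠ z → w ≠ ν z → ¬ Xs z (ν z) w (ν w)
  fr : ∀ z ∈ E, ν z ≠ z → ∀ a b, ¬ Xs z (ν z) (e a) (e b)
  sur : ∀ z ∈ E, ν z = z → ∃ k, z = e k
  fix : ∀ k, e k ∈ E ∧ ν (e k) = e k
  inj : Injective e
  cc : ∀ k, CC σ ν (e k) (e (bar k))
  xs : ∀ a b c d, a ≠ c → a ≠ d → b ≠ c → b ≠ d →
    (Xs (e a) (e b) (e c) (e d) ↔ Xs (e0 a) (e0 b) (e0 c) (e0 d))

variable {ι : Type} {σ : ℕ → ℕ} {bar : ι → ι} {e0 : ι → ℕ} {E : Finset ℕ} {ν : ℕ → ℕ} {e : ι → ℕ}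

/-- a peripheral chord that is also a cap -/
theorem step_cyc (hσ : Involutive σ) (h : Inv σ bar e0 E ν e) {u v : ℕ} (hu : u ∈ E)
    (hv : σ u = v) (huv : ν u = v) : Inv σ bar e0 ((E.erase u).erase v) ν e := by
  have hvu : σ v = u := by rw [← hv, hσ]
  have hvu' : ν v = u := by rw [← huv, h.inv]
  have hne : v ≠ u := hv ▸ (h.cl u hu).2.1
  have sub : ∀ z ∈ (E.erase u).erase v, z ∈ E := fun z hz =>
    Finset.mem_of_mem_erase (Finset.mem_of_mem_erase hz)
  refine ⟨h.inv, fun z hz => ?_, fun z hz w hw => h.nc z (sub z hz) w (sub w hw),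
    fun z hz => h.fr z (sub z hz), fun z hz => h.sur z (sub z hz), fun k => ⟨?_, (h.fix k).2⟩,
    h.inj, h.cc, h.xs⟩
  · simp only [Finset.mem_erase] at hz ⊢
    obtain ⟨h1, h2, h3⟩ := hz
    obtain ⟨c1, c2, c3⟩ := h.cl z h3
    refine ⟨⟨fun c => h2 ?_, fun c => h1 ?_, c1⟩, c2, fun c => h2 ?_, fun c => h1 ?_, c3⟩
    · rw [← hσ z, c, hvu]
    · rw [← hσ z, c, hv]
    · rw [← h.inv z, c, hvu']
    · rw [← h.inv z, c, huv]
  · simp only [Finset.mem_erase]
    refine ⟨fun c => hne ?_, fun c => hne ?_, (h.fix k).1⟩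
    · rw [← hvu', ← c, (h.fix k).2]
    · rw [← huv, ← c, (h.fix k).2]

/-- a peripheral chord with one capped end -/
theorem step_one (hσ : Involutive σ) (h : Inv σ bar e0 E ν e) {u v : ℕ} (hu : u ∈ E)
    (hv : σ u = v) (hper : ∀ c ∈ E, ∀ d ∈ E, c ≠ u → c ≠ v → d ≠ u → d ≠ v → ¬ Xs u v c d)
    (h1 : ν u ≠ u) (h2 : ν v = v) : ∃ ν' e', Inv σ bar e0 ((E.erase u).erase v) ν' e' := by
  have hvu : σ v = u := by rw [← hv, hσ]
  have hne : v ≠ u := hv ▸ (h.cl u hu).2.1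
  have hvE : v ∈ E := hv ▸ (h.cl u hu).1
  obtain ⟨w, hw⟩ : ∃ w, ν u = w := ⟨_, rfl⟩
  have hwu : ν w = u := by rw [← hw, h.inv]
  have hwE : w ∈ E := hw ▸ (h.cl u hu).2.2
  have hw1 : w ≠ u := hw ▸ h1
  have hw2 : w ≠ v := fun c => hne (by rw [← hwu, c, h2])
  have eu : ∀ k, e k ≠ u := fun k c => h1 (by rw [← c, (h.fix k).2])
  have ew : ∀ k, e k ≠ w := fun k c => hw1 (by rw [← hwu, ← c, (h.fix k).2])
  have adj : ∀ c ∈ E, ∀ d ∈ E, c ≠ u → c ≠ v → d ≠ u → d ≠ v → (Btw c d u ↔ Btw c d v) :=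
    fun c hc d hd a1 a2 a3 a4 => same (hper c hc d hd a1 a2 a3 a4) a1.symm a3.symm a2.symm a4.symm
  have key : ∀ a b, e a ≠ v → e b ≠ v → (Btw (e a) (e b) v ↔ Btw (e a) (e b) w) := by
    intro a b ha hb
    rw [← adj _ (h.fix a).1 _ (h.fix b).1 (eu a) ha (eu b) hb]
    have := h.fr u hu h1 a b
    rw [hw] at this
    exact same this (eu a).symm (eu b).symm (ew a).symm (ew b).symm
  have nu : ∀ z, z ≠ w → ν z ≠ u := fun z hz c => hz (by rw [← h.inv z, c, hw])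
  have nw : ∀ z, z ≠ u → ν z ≠ w := fun z hz c => hz (by rw [← h.inv z, c, hwu])
  have nv : ∀ z, z ≠ v → ν z ≠ v := fun z hz c => hz (by rw [← h.inv z, c, h2])
  have su : ∀ z, z ≠ v → σ z ≠ u := fun z hz c => hz (by rw [← hσ z, c, hv])
  have sv : ∀ z, z ≠ u → σ z ≠ v := fun z hz c => hz (by rw [← hσ z, c, hvu])
  obtain ⟨ν', n1, n2, n3⟩ : ∃ ν' : ℕ → ℕ, ν' u = u ∧ ν' w = w ∧ ∀ z, z ≠ u → z ≠ w → ν' z = ν z :=
    ⟨fun z => if z = u ∨ z = w then z else ν z, by simp, by simp, fun z a b => by simp [a, b]⟩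
  obtain ⟨f, f1, f2, f3⟩ : ∃ f : ℕ → ℕ, f u = w ∧ f v = w ∧ ∀ z, z ≠ u → z ≠ v → f z = z :=
    ⟨fun z => if z = u ∨ z = v then w else z, by simp, by simp, fun z a b => by simp [a, b]⟩
  have fe : ∀ k, (e k = v ∧ f (e k) = w) ∨ (e k ≠ v ∧ f (e k) = e k) := fun k => by
    by_cases c : e k = v
    · exact Or.inl ⟨c, by rw [c, f2]⟩
    · exact Or.inr ⟨c, f3 _ (eu k) c⟩
  have cap : ∀ z ∈ (E.erase u).erase v, ν' z ≠ z → z ∈ E ∧ z ≠ u ∧ z ≠ v ∧ z ≠ w ∧ ν' z = ν z := by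
    intro z hz hn
    simp only [Finset.mem_erase] at hz
    have : z ≠ w := fun c => hn (by rw [c, n2])
    exact ⟨hz.2.2, hz.2.1, hz.1, this, n3 z hz.2.1 this⟩
  have fi : Injective (f ∘ e) := by
    intro a b hab
    simp only [comp_apply] at hab
    have := ew a
    have := ew b
    rcases fe a with ⟨c1, c2⟩ | ⟨c1, c2⟩ <;> rcases fe b with ⟨c3, c4⟩ | ⟨c3, c4⟩ <;>
      exact h.inj (by omega)
  have kx : ∀ a b c d, e a ≠ v → e b ≠ v →
      (Xs (f (e a)) (f (e b)) (f (e c)) (f (e d)) ↔ Xs (e a) (e b) (e c) (e d)) := by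
    intro a b c d ha hb
    have k : ∀ c, Btw (e a) (e b) (f (e c)) ↔ Btw (e a) (e b) (e c) := fun c => by
      rcases fe c with ⟨c1, c2⟩ | ⟨c1, c2⟩
      · rw [c2, c1, key a b ha hb]
      · rw [c2]
    rw [f3 _ (eu a) ha, f3 _ (eu b) hb]
    unfold Xs
    rw [k, k]
  refine ⟨ν', f ∘ e, fun z => ?_, fun z hz => ?_, fun z hz y hy a b => ?_, fun z hz a => ?_,
    fun z hz a => ?_, fun k => ?_, fi, fun k => ?_, fun a b c d a1 a2 a3 a4 => ?_⟩
  · by_cases c : z = u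
    · rw [c, n1, n1]
    · by_cases c' : z = w
      · rw [c', n2, n2]
      · rw [n3 z c c', n3 _ (nu z c') (nw z c), h.inv]
  · simp only [Finset.mem_erase] at hz ⊢
    obtain ⟨c1, c2, c3⟩ := h.cl z hz.2.2
    refine ⟨⟨sv z hz.2.1, su z hz.1, c1⟩, c2, ?_⟩
    by_cases c' : z = w
    · rw [c', n2]
      exact ⟨hw2, hw1, hwE⟩
    · rw [n3 z hz.2.1 c']
      exact ⟨nv z hz.1, nu z c', c3⟩
  · obtain ⟨z1, -, -, -, z5⟩ := cap z hz a
    obtain ⟨y1, -, -, -, y5⟩ := cap y hy b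
    rw [z5] at a ⊢
    rw [y5] at b ⊢
    exact h.nc z z1 y y1 a b
  · obtain ⟨z1, z2, z3, z4, z5⟩ := cap z hz a
    rw [z5] at a ⊢
    have k1 : Btw z (ν z) v ↔ Btw z (ν z) w := by
      rw [← adj z z1 _ (h.cl z z1).2.2 z2 z3 (nu z z4) (nv z z3), ← hw]
      exact not_xs.1 (h.nc z z1 u hu a h1 z2.symm (nu z z4).symm)
    have k2 : ∀ k, Btw z (ν z) (f (e k)) ↔ Btw z (ν z) (e k) := fun k => by
      rcases fe k with ⟨c1, c2⟩ | ⟨c1, c2⟩
      · rw [c2, c1, k1]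
      · rw [c2]
    intro b c
    rw [not_xs, comp_apply, comp_apply, k2, k2]
    exact not_xs.1 (h.fr z z1 a b c)
  · simp only [Finset.mem_erase] at hz
    by_cases c' : z = w
    · obtain ⟨k, hk⟩ := h.sur v hvE h2
      exact ⟨k, by rw [comp_apply, ← hk, f2, c']⟩
    · rw [n3 z hz.2.1 c'] at a
      obtain ⟨k, hk⟩ := h.sur z hz.2.2 a
      exact ⟨k, by rw [comp_apply, ← hk, f3 z hz.2.1 hz.1]⟩
  · simp only [Finset.mem_erase, comp_apply]
    rcases fe k with ⟨c1, c2⟩ | ⟨c1, c2⟩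
    · rw [c2]
      exact ⟨⟨hw2, hw1, hwE⟩, n2⟩
    · rw [c2, n3 _ (eu k) (ew k)]
      exact ⟨⟨c1, eu k, (h.fix k).1⟩, (h.fix k).2⟩
  · refine cc_map (f := f) (fun z => ?_) (fun z => ?_) (h.cc k)
    · by_cases c : z = u
      · exact cc_eq (by rw [c, hv, f1, f2])
      · by_cases c' : z = v
        · exact cc_eq (by rw [c', hvu, f1, f2])
        · rw [f3 z c c', f3 _ (su z c') (sv z c)]
          exact cc_l z
    · by_cases c : z = u
      · exact cc_eq (by rw [c, hw, f1, f3 w hw1 hw2])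
      · by_cases c' : z = v
        · exact cc_eq (by rw [c', h2])
        · by_cases c'' : z = w
          · exact cc_eq (by rw [c'', hwu, f1, f3 w hw1 hw2])
          · rw [f3 z c c', f3 _ (nu z c'') (nv z c')]
            exact cc_r (n3 z c c'').symm
  · rw [← h.xs a b c d a1 a2 a3 a4]
    by_cases k : e a ≠ v ∧ e b ≠ v
    · exact kx a b c d k.1 k.2
    · have b1 := h.inj.ne a1
      have b2 := h.inj.ne a2
      have b3 := h.inj.ne a3
      have b4 := h.inj.ne a4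
      rw [xs_symm b1 b2 b3 b4, xs_symm (fi.ne a1) (fi.ne a2) (fi.ne a3) (fi.ne a4)]
      exact kx c d a b (by omega) (by omega)

/-- a peripheral chord with two capped ends -/
theorem step_two (hσ : Involutive σ) (h : Inv σ bar e0 E ν e) {u v : ℕ} (hu : u ∈ E)
    (hv : σ u = v) (hper : ∀ c ∈ E, ∀ d ∈ E, c ≠ u → c ≠ v → d ≠ u → d ≠ v → ¬ Xs u v c d)
    (h1 : ν u ≠ u) (h2 : ν v ≠ v) (h3 : ν u ≠ v) :
    ∃ ν', Inv σ bar e0 ((E.erase u).erase v) ν' e := by
  have hvu : σ v = u := by rw [← hv, hσ]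
  have hne : v ≠ u := hv ▸ (h.cl u hu).2.1
  have hvE : v ∈ E := hv ▸ (h.cl u hu).1
  obtain ⟨w, hw⟩ : ∃ w, ν u = w := ⟨_, rfl⟩
  obtain ⟨t, ht⟩ : ∃ t, ν v = t := ⟨_, rfl⟩
  have hwu : ν w = u := by rw [← hw, h.inv]
  have htv : ν t = v := by rw [← ht, h.inv]
  have hwE : w ∈ E := hw ▸ (h.cl u hu).2.2
  have htE : t ∈ E := ht ▸ (h.cl v hvE).2.2
  have hw1 : w ≠ u := hw ▸ h1
  have hw2 : w ≠ v := hw ▸ h3
  have ht1 : t ≠ u := fun c => h3 (by rw [← c, htv])
  have ht2 : t ≠ v := ht ▸ h2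
  have hwt : w ≠ t := fun c => hne (by rw [← hwu, c, htv])
  have eu : ∀ k, e k ≠ u := fun k c => h1 (by rw [← c, (h.fix k).2])
  have ev : ∀ k, e k ≠ v := fun k c => h2 (by rw [← c, (h.fix k).2])
  have ew : ∀ k, e k ≠ w := fun k c => hw1 (by rw [← hwu, ← c, (h.fix k).2])
  have et : ∀ k, e k ≠ t := fun k c => ht2 (by rw [← htv, ← c, (h.fix k).2])
  have adj : ∀ c ∈ E, ∀ d ∈ E, c ≠ u → c ≠ v → d ≠ u → d ≠ v → (Btw c d u ↔ Btw c d v) :=
    fun c hc d hd a1 a2 a3 a4 => same (hper c hc d hd a1 a2 a3 a4) a1.symm a3.symm a2.symm a4.symm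
  have nu : ∀ z, z ≠ w → ν z ≠ u := fun z hz c => hz (by rw [← h.inv z, c, hw])
  have nw : ∀ z, z ≠ u → ν z ≠ w := fun z hz c => hz (by rw [← h.inv z, c, hwu])
  have nv : ∀ z, z ≠ t → ν z ≠ v := fun z hz c => hz (by rw [← h.inv z, c, ht])
  have nt : ∀ z, z ≠ v → ν z ≠ t := fun z hz c => hz (by rw [← h.inv z, c, htv])
  have su : ∀ z, z ≠ v → σ z ≠ u := fun z hz c => hz (by rw [← hσ z, c, hv])
  have sv : ∀ z, z ≠ u → σ z ≠ v := fun z hz c => hz (by rw [← hσ z, c, hvu])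
  obtain ⟨ν', n1, n2, n3, n4, n5⟩ : ∃ ν' : ℕ → ℕ, ν' u = u ∧ ν' v = v ∧ ν' w = t ∧ ν' t = w ∧
      ∀ z, z ≠ u → z ≠ v → z ≠ w → z ≠ t → ν' z = ν z :=
    ⟨fun z => if z = u ∨ z = v then z else if z = w then t else if z = t then w else ν z, by simp,
      by simp, by simp [hw1, hw2], by simp [ht1, ht2, hwt.symm], fun z a b c d => by simp [a, b, c, d]⟩
  obtain ⟨f, f1, f2, f3⟩ : ∃ f : ℕ → ℕ, f u = w ∧ f v = t ∧ ∀ z, z ≠ u → z ≠ v → f z = z :=
    ⟨fun z => if z = u then w else if z = v then t else z, by simp, by simp [hne],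
      fun z a b => by simp [a, b]⟩
  have old : ∀ z ∈ E, z ≠ u → z ≠ v → z ≠ w → z ≠ t → ν z ≠ z →
      (Btw z (ν z) w ↔ Btw z (ν z) t) := by
    intro z z1 z2 z3 z4 z5 a
    have k1 := not_xs.1 (h.nc z z1 u hu a h1 z2.symm (nu z z4).symm)
    have k2 := not_xs.1 (h.nc z z1 v hvE a h2 z3.symm (nv z z5).symm)
    rw [hw] at k1
    rw [ht] at k2
    rw [← k1, ← k2]
    exact adj z z1 _ (h.cl z z1).2.2 z2 z3 (nu z z4) (nv z z5)
  have key : ∀ a b, ¬ Xs w t (e a) (e b) := by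
    intro a b
    have k1 := h.fr u hu h1 a b
    have k2 := h.fr v hvE h2 a b
    rw [hw] at k1
    rw [ht] at k2
    rw [xs_symm (ew a).symm (ew b).symm (et a).symm (et b).symm, not_xs,
      ← same k1 (eu a).symm (eu b).symm (ew a).symm (ew b).symm,
      ← same k2 (ev a).symm (ev b).symm (et a).symm (et b).symm]
    exact adj _ (h.fix a).1 _ (h.fix b).1 (eu a) (ev a) (eu b) (ev b)
  have tri : ∀ z, z ≠ u → z ≠ v →
      (z = w ∧ ν' z = t) ∨ (z = t ∧ ν' z = w) ∨ (z ≠ w ∧ z ≠ t ∧ ν' z = ν z) := by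
    intro z z2 z3
    by_cases c : z = w
    · exact Or.inl ⟨c, by rw [c, n3]⟩
    · by_cases c' : z = t
      · exact Or.inr (Or.inl ⟨c', by rw [c', n4]⟩)
      · exact Or.inr (Or.inr ⟨c, c', n5 z z2 z3 c c'⟩)
  refine ⟨ν', fun z => ?_, fun z hz => ?_, fun z hz y hy a b => ?_, fun z hz a => ?_,
    fun z hz a => ?_, fun k => ?_, h.inj, fun k => ?_, h.xs⟩
  · by_cases c : z = u
    · rw [c, n1, n1]
    · by_cases c' : z = v
      · rw [c', n2, n2]
      · rcases tri z c c' with ⟨c1, c2⟩ | ⟨c1, c2⟩ | ⟨c1, c2, c3⟩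
        · rw [c2, n4, c1]
        · rw [c2, n3, c1]
        · rw [c3, n5 _ (nu z c1) (nv z c2) (nw z c) (nt z c'), h.inv]
  · simp only [Finset.mem_erase] at hz ⊢
    obtain ⟨c1, c2, c3⟩ := h.cl z hz.2.2
    refine ⟨⟨sv z hz.2.1, su z hz.1, c1⟩, c2, ?_⟩
    rcases tri z hz.2.1 hz.1 with ⟨-, c5⟩ | ⟨-, c5⟩ | ⟨c4, c5, c6⟩
    · rw [c5]
      exact ⟨ht2, ht1, htE⟩
    · rw [c5]
      exact ⟨hw2, hw1, hwE⟩
    · rw [c6]
      exact ⟨nv z c5, nu z c4, c3⟩
  · simp only [Finset.mem_erase] at hz hy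
    intro c d
    rcases tri z hz.2.1 hz.1 with ⟨c1, c2⟩ | ⟨c1, c2⟩ | ⟨c1, c2, c3⟩ <;>
      rcases tri y hy.2.1 hy.1 with ⟨d1, d2⟩ | ⟨d1, d2⟩ | ⟨d1, d2, d3⟩
    · exact absurd (d1.trans c1.symm) c
    · exact absurd (d1.trans c2.symm) d
    · rw [d3] at b
      rw [c2, d3, c1, xs_symm d1.symm (nw y hy.2.1).symm d2.symm (nt y hy.1).symm, not_xs]
      exact old y hy.2.2 hy.2.1 hy.1 d1 d2 b
    · exact absurd (d1.trans c2.symm) d
    · exact absurd (d1.trans c1.symm) c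
    · rw [d3] at b
      rw [c2, d3, c1, xs_symm d2.symm (nt y hy.1).symm d1.symm (nw y hy.2.1).symm, not_xs]
      exact (old y hy.2.2 hy.2.1 hy.1 d1 d2 b).symm
    · rw [c3] at a
      rw [c3, d2, d1, not_xs]
      exact old z hz.2.2 hz.2.1 hz.1 c1 c2 a
    · rw [c3] at a
      rw [c3, d2, d1, not_xs]
      exact (old z hz.2.2 hz.2.1 hz.1 c1 c2 a).symm
    · rw [c3] at a d ⊢
      rw [d3] at b ⊢
      exact h.nc z hz.2.2 y hy.2.2 a b c d
  · simp only [Finset.mem_erase] at hz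
    intro b c
    rcases tri z hz.2.1 hz.1 with ⟨c1, c2⟩ | ⟨c1, c2⟩ | ⟨c1, c2, c3⟩
    · rw [c2, c1]
      exact key b c
    · rw [c2, c1, xs_swap]
      exact key b c
    · rw [c3] at a ⊢
      exact h.fr z hz.2.2 a b c
  · simp only [Finset.mem_erase] at hz
    rcases tri z hz.2.1 hz.1 with ⟨c1, c2⟩ | ⟨c1, c2⟩ | ⟨c1, c2, c3⟩
    · exact absurd (c1.symm.trans (a.symm.trans c2)) hwt
    · exact absurd (c2.symm.trans (a.trans c1)) hwt
    · exact h.sur z hz.2.2 (c3 ▸ a)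
  · simp only [Finset.mem_erase]
    rw [n5 _ (eu k) (ev k) (ew k) (et k)]
    exact ⟨⟨ev k, eu k, (h.fix k).1⟩, (h.fix k).2⟩
  · rw [← f3 _ (eu k) (ev k), ← f3 _ (eu (bar k)) (ev (bar k))]
    refine cc_map (f := f) (fun z => ?_) (fun z => ?_) (h.cc k)
    · by_cases c : z = u
      · rw [c, hv, f1, f2]
        exact cc_r n3.symm
      · by_cases c' : z = v
        · rw [c', hvu, f1, f2]
          exact cc_r n4.symm
        · rw [f3 z c c', f3 _ (su z c') (sv z c)]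
          exact cc_l z
    · by_cases c : z = u
      · exact cc_eq (by rw [c, hw, f1, f3 w hw1 hw2])
      · by_cases c' : z = v
        · exact cc_eq (by rw [c', ht, f2, f3 t ht1 ht2])
        · rcases tri z c c' with ⟨c1, -⟩ | ⟨c1, -⟩ | ⟨c1, c2, c3⟩
          · exact cc_eq (by rw [c1, hwu, f1, f3 w hw1 hw2])
          · exact cc_eq (by rw [c1, htv, f2, f3 t ht1 ht2])
          · rw [f3 z c c', f3 _ (nu z c1) (nv z c2)]
            exact cc_r c3.symm

/-- peripheral chords are removed one after the other -/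
theorem core (hσ : Involutive σ) (hb : ∀ k, bar k ≠ k)
    (hc : ∀ k, ∃ c d, c ≠ k ∧ c ≠ bar k ∧ d ≠ k ∧ d ≠ bar k ∧
      Xs (e0 k) (e0 (bar k)) (e0 c) (e0 d)) (N : ℕ) :
    ∀ (E : Finset ℕ) (ν : ℕ → ℕ) (e : ι → ℕ), E.card ≤ N → Inv σ bar e0 E ν e →
      ∃ E' ⊆ E, ∃ ν' e', Inv σ bar e0 E' ν' e' ∧
        ∀ z ∈ E', ∃ c ∈ E', ∃ d ∈ E', c ≠ z ∧ c ≠ σ z ∧ d ≠ z ∧ d ≠ σ z ∧ Xs z (σ z) c d := by
  induction N with
  | zero =>
    intro E ν e hN h
    refine ⟨E, Finset.Subset.refl _, ν, e, h, fun z hz => ?_⟩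
    have := Finset.card_pos.2 ⟨z, hz⟩
    omega
  | succ N ih =>
    intro E ν e hN h
    by_cases hp : ∀ z ∈ E, ∃ c ∈ E, ∃ d ∈ E, c ≠ z ∧ c ≠ σ z ∧ d ≠ z ∧ d ≠ σ z ∧ Xs z (σ z) c d
    · exact ⟨E, Finset.Subset.refl _, ν, e, h, hp⟩
    push Not at hp
    obtain ⟨u, hu, hper⟩ := hp
    obtain ⟨v, hv⟩ : ∃ v, σ u = v := ⟨_, rfl⟩
    rw [hv] at hper
    have hvu : σ v = u := by rw [← hv, hσ]
    have hvE : v ∈ E := hv ▸ (h.cl u hu).1
    have step : ∃ ν' e', Inv σ bar e0 ((E.erase u).erase v) ν' e' := by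
      by_cases h1 : ν u = u
      · by_cases h2 : ν v = v
        · exfalso
          obtain ⟨k, hk⟩ := h.sur u hu h1
          have cl : ∀ w, CC σ ν u w → w = u ∨ w = v := by
            intro w hw
            unfold CC at hw
            induction hw with
            | refl => exact Or.inl rfl
            | tail _ h3 ih =>
              rcases ih with i | i <;> rcases h3 with j | j <;> rw [j, i] <;> simp only [hv, hvu, h1, h2,
                true_or, or_true]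
          have hk' : e (bar k) = v :=
            (cl _ (hk ▸ h.cc k)).resolve_left fun c => hb k (h.inj (c.trans hk))
          obtain ⟨c, d, c1, c2, c3, c4, c5⟩ := hc k
          rw [← h.xs _ _ _ _ c1.symm c3.symm c2.symm c4.symm, ← hk, hk'] at c5
          exact hper _ (h.fix c).1 _ (h.fix d).1 (hk ▸ h.inj.ne c1) (hk' ▸ h.inj.ne c2)
            (hk ▸ h.inj.ne c3) (hk' ▸ h.inj.ne c4) c5
        · rw [Finset.erase_right_comm]
          exact step_one hσ h hvE hvu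
            (fun c hc d hd a1 a2 a3 a4 x => hper c hc d hd a2 a1 a4 a3 (xs_swap.1 x)) h2 h1
      · by_cases h2 : ν v = v
        · exact step_one hσ h hu hv hper h1 h2
        · by_cases h3 : ν u = v
          · exact ⟨ν, e, step_cyc hσ h hu hv h3⟩
          · obtain ⟨ν', h'⟩ := step_two hσ h hu hv hper h1 h2 h3
            exact ⟨ν', e, h'⟩
    obtain ⟨ν', e', h'⟩ := step
    have hcard : ((E.erase u).erase v).card ≤ N := by
      have := Finset.card_erase_le (s := E.erase u) (a := v)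
      have := Finset.card_erase_lt_of_mem hu
      omega
    obtain ⟨E', h1, h2⟩ := ih _ ν' e' hcard h'
    exact ⟨E', h1.trans ((Finset.erase_subset _ _).trans (Finset.erase_subset _ _)), h2⟩

/-- a set of ends that does not alternate with its complement is an arc -/
theorem arc_aux [Finite ι] (he : Injective e) (X : Set ι) (hX : X.Nonempty) (k0 : ι) (h0 : k0 ∉ X)
    (hm : ∀ k, e k0 ≤ e k)
    (h : ∀ a ∈ X, ∀ b ∈ X, ∀ c ∉ X, ∀ d ∉ X, ¬ Xs (e a) (e b) (e c) (e d)) :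
    ∃ a b, ∀ k, (e a < e k ∧ e k ≤ e b) ↔ k ∈ X := by
  obtain ⟨b, hb, hb'⟩ := Set.exists_max_image X e (Set.toFinite _) hX
  obtain ⟨a1, ha, ha'⟩ := Set.exists_min_image X e (Set.toFinite _) hX
  have h1 : e k0 < e a1 := lt_of_le_of_ne (hm a1) fun c => h0 (he c ▸ ha)
  obtain ⟨a, hc, hc'⟩ := Set.exists_max_image {k | e k < e a1} e (Set.toFinite _) ⟨k0, h1⟩
  refine ⟨a, b, fun k => ⟨fun hk => ?_, fun hk => ⟨lt_of_lt_of_le hc (ha' k hk), hb' k hk⟩⟩⟩
  by_contra c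
  have h2 := h a1 ha b hb k c k0 h0
  have h3 : e k ≠ e a1 := fun x => c (he x ▸ ha)
  have h4 : e k ≠ e b := fun x => c (he x ▸ hb)
  have h5 : e k < e a1 → e k ≤ e a := hc' k
  have h6 := ha' b hb
  unfold Xs fb.Btw at h2
  omega

theorem arc_ex [Finite ι] (he : Injective e) (X : Set ι) (hX : X.Nonempty) (hX' : Xᶜ.Nonempty)
    (h : ∀ a ∈ X, ∀ b ∈ X, ∀ c ∉ X, ∀ d ∉ X, ¬ Xs (e a) (e b) (e c) (e d)) :
    ∃ a b, ∀ k k', (k ∈ X ↔ k' ∉ X) →
      ((e a < e k ∧ e k ≤ e b) ↔ ¬ (e a < e k' ∧ e k' ≤ e b)) := by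
  obtain ⟨k0, -, hm⟩ := Set.exists_min_image univ e (Set.toFinite _) ⟨hX.some, trivial⟩
  by_cases h0 : k0 ∈ X
  · obtain ⟨a, b, hab⟩ := arc_aux he Xᶜ hX' k0 (fun c => c h0) (fun k => hm k trivial)
      (fun a ha b hb c hc d hd x => h c (not_not.1 hc) d (not_not.1 hd) a ha b hb
        ((xs_symm (he.ne (ne_of_mem_of_not_mem ha hc)) (he.ne (ne_of_mem_of_not_mem ha hd))
          (he.ne (ne_of_mem_of_not_mem hb hc)) (he.ne (ne_of_mem_of_not_mem hb hd))).1 x))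
    refine ⟨a, b, fun k k' hk => ?_⟩
    rw [hab, hab, mem_compl_iff, mem_compl_iff, hk]
  · obtain ⟨a, b, hab⟩ := arc_aux he X hX k0 h0 (fun k => hm k trivial) h
    exact ⟨a, b, fun k k' hk => by rw [hab, hab, hk]⟩

/-- a class that leaves an arc which no cap leaves does so along a chord -/
theorem exit {I : Set ℕ} (hcl : ∀ z ∈ E, σ z ∈ E ∧ σ z ≠ z ∧ ν z ∈ E)
    (hI : ∀ z ∈ E, z ∈ I ↔ ν z ∈ I) {a b : ℕ} (ha : a ∈ E) (h : CC σ ν a b)
    (hab : a ∈ I ↔ b ∉ I) : ∃ z ∈ E, CC σ ν a z ∧ (z ∈ I ↔ σ z ∉ I) := by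
  by_contra hn
  push Not at hn
  have : ∀ w, CC σ ν a w → w ∈ E ∧ (a ∈ I ↔ w ∈ I) := by
    intro w hw
    unfold CC at hw
    induction hw with
    | refl => exact ⟨ha, Iff.rfl⟩
    | tail h1 h2 ih =>
      rcases h2 with rfl | rfl
      · have := hn _ ih.1 h1
        exact ⟨(hcl _ ih.1).1, by tauto⟩
      · exact ⟨(hcl _ ih.1).2.2, ih.2.trans (hI _ ih.1)⟩
  have := (this b h).2
  tauto

end Uncap

open Uncap

theorem uncapS : UncapS := by
  intro E σ ν n p x y hσ hν hcl hnc hfr hfix hcc hd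
  obtain ⟨α, β, t, ht, htr⟩ := hd.trn
  let e0 : Fin n × Bool → ℕ := fun k => if k.2 then y k.1 else x k.1
  let bar : Fin n × Bool → Fin n × Bool := fun k => (k.1, !k.2)
  have hb : ∀ k, bar k ≠ k := fun k c => by simpa [bar] using congrArg Prod.snd c
  have hinj : Injective e0 := by
    rintro ⟨i, a⟩ ⟨j, b⟩ hij
    have d1 := hd.dst i i.2 j j.2
    have d2 := hd.dst j j.2 i i.2
    have : i.1 = j.1 ∧ a = b := by
      cases a <;> cases b <;> simp only [e0, if_true, if_false, Bool.false_eq_true] at hij <;>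
        simp <;> omega
    exact Prod.ext (Fin.ext this.1) this.2
  have hfx : ∀ k, e0 k ∈ E ∧ ν (e0 k) = e0 k := by
    rintro ⟨i, a⟩
    have d1 := hcc i i.2
    cases a
    · exact ⟨d1.1, (hfix _ d1.1).2 ⟨i, i.2, Or.inl rfl⟩⟩
    · exact ⟨d1.2.1, (hfix _ d1.2.1).2 ⟨i, i.2, Or.inr rfl⟩⟩
  have h0 : Inv σ bar e0 E ν e0 := by
    refine ⟨hν, hcl, hnc, fun z hz a b c => hfr z hz a _ (hfx b).1 _ (hfx c).1 (hfx b).2 (hfx c).2,
      fun z hz a => ?_, hfx, hinj, ?_, fun _ _ _ _ _ _ _ _ => Iff.rfl⟩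
    · obtain ⟨i, hi, rfl | rfl⟩ := (hfix z hz).1 a
      · exact ⟨(⟨i, hi⟩, false), rfl⟩
      · exact ⟨(⟨i, hi⟩, true), rfl⟩
    · rintro ⟨i, a⟩
      cases a
      · exact (hcc i i.2).2.2
      · exact Kit1b.cc_symm hσ hν (hcc i i.2).2.2
  have hc : ∀ k, ∃ c d, c ≠ k ∧ c ≠ bar k ∧ d ≠ k ∧ d ≠ bar k ∧
      Xs (e0 k) (e0 (bar k)) (e0 c) (e0 d) := by
    rintro ⟨i, a⟩
    obtain ⟨⟨j, hj, c1⟩, j', hj', c2, c3⟩ := hd.crook i i.2
    obtain ⟨c, hc⟩ : ∃ c, Btw (x i) (y i) (e0 c) :=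
      c1.elim (fun c => ⟨(⟨j, hj⟩, false), c⟩) fun c => ⟨(⟨j, hj⟩, true), c⟩
    obtain ⟨d, hd1, hd2⟩ : ∃ d : Fin n × Bool, d.1 ≠ i ∧ ¬ Btw (x i) (y i) (e0 d) :=
      c3.elim (fun c => ⟨(⟨j', hj'⟩, false), fun z => c2 (congrArg Fin.val z), c⟩)
        fun c => ⟨(⟨j', hj'⟩, true), fun z => c2 (congrArg Fin.val z), c⟩
    have hc1 : c.1 ≠ i := by
      rintro rfl
      obtain ⟨c, b⟩ := c
      unfold fb.Btw at hc
      cases b <;> simp only [e0, if_true, if_false, Bool.false_eq_true] at hc <;> omega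
    refine ⟨c, d, fun z => hc1 (congrArg Prod.fst z), fun z => hc1 (congrArg Prod.fst z),
      fun z => hd1 (congrArg Prod.fst z), fun z => hd1 (congrArg Prod.fst z), ?_⟩
    cases a
    · exact Or.inl ⟨hc, hd2⟩
    · exact xs_swap.1 (Or.inl ⟨hc, hd2⟩)
  obtain ⟨E', hsub, ν', e, h, hcr⟩ := core hσ hb hc E.card E ν e0 le_rfl h0
  let F := E'.filter fun z => z < σ z
  let en := F.orderEmbOfFin rfl
  let u : ℕ → ℕ := fun i => if hi : i < F.card then en ⟨i, hi⟩ else 0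
  have hu : ∀ i < F.card, u i ∈ E' ∧ u i < σ (u i) := fun i hi => by
    simp only [u, hi, dif_pos]
    exact Finset.mem_filter.1 (F.orderEmbOfFin_mem rfl _)
  have ui : ∀ i < F.card, ∀ j < F.card, u i = u j → i = j := fun i hi j hj c => by
    simp only [u, hi, hj, dif_pos] at c
    exact congrArg Fin.val (en.injective c)
  have us : ∀ z ∈ E', ∃ i < F.card, z = u i ∨ z = σ (u i) := by
    have : ∀ z ∈ F, ∃ i < F.card, z = u i := fun z hz => by
      have : z ∈ range en := by rw [Finset.range_orderEmbOfFin]; exact hz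
      obtain ⟨i, rfl⟩ := this
      exact ⟨i, i.2, by simp only [u, i.2, dif_pos]⟩
    intro z hz
    obtain ⟨c1, c2, -⟩ := h.cl z hz
    rcases lt_or_gt_of_ne c2 with c | c
    · obtain ⟨i, hi, c3⟩ := this (σ z) (Finset.mem_filter.2 ⟨c1, by rwa [hσ]⟩)
      exact ⟨i, hi, Or.inr (by rw [← c3, hσ])⟩
    · obtain ⟨i, hi, c3⟩ := this z (Finset.mem_filter.2 ⟨hz, c⟩)
      exact ⟨i, hi, Or.inl c3⟩
  refine ⟨F.card, u, fun i hi => hsub (hu i hi).1, fun i hi j hj => ⟨fun c => ?_, fun c => ?_⟩,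
    fun i hi => ?_, ?_⟩
  · have c1 := (hu i hi).2
    have c2 := (hu j hj).2
    rw [comp_apply] at c
    rw [c, hσ] at c1
    omega
  · exact ⟨fun z => c (ui i hi j hj z), fun z => c (ui i hi j hj (hσ.injective z))⟩
  · obtain ⟨c, hc, d, hd, c1, c2, c3, c4, c5⟩ := hcr _ (hu i hi).1
    have : ∀ c ∈ E', ∀ d ∈ E', d ≠ u i → d ≠ σ (u i) → Btw (u i) (σ (u i)) c →
        ¬ Btw (u i) (σ (u i)) d →
        (∃ j < F.card, Btw (u i) (σ (u i)) (u j) ∨ Btw (u i) (σ (u i)) (σ (u j))) ∧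
        ∃ j < F.card, j ≠ i ∧ (¬ Btw (u i) (σ (u i)) (u j) ∨ ¬ Btw (u i) (σ (u i)) (σ (u j))) := by
      intro c hc d hd c3 c4 c5 c6
      obtain ⟨j, hj, k⟩ := us c hc
      obtain ⟨j', hj', k'⟩ := us d hd
      refine ⟨⟨j, hj, by rcases k with k | k <;> rw [k] at c5 <;> simp only [c5, true_or, or_true]⟩,
        j', hj', ?_, by rcases k' with k | k <;> rw [k] at c6 <;> simp only [c6, not_false_eq_true,
          true_or, or_true]⟩
      rintro rfl
      exact k'.elim c3 c4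
    rcases c5 with c5 | c5
    · exact this c hc d hd c3 c4 c5.1 c5.2
    · exact this d hd c hc c1 c2 c5.1 c5.2
  · rcases Nat.eq_zero_or_pos p with rfl | hp
    · exact ⟨0, 0, id, injOn_id _, fun i hi => absurd hi (Nat.not_lt_zero _)⟩
    have hX : ∀ i (hi : i < p), e0 (⟨t i, (htr i hi).1⟩, false) ∈ Ico α β ↔
        e0 (bar (⟨t i, (htr i hi).1⟩, false)) ∉ Ico α β := fun i hi => (htr i hi).2
    obtain ⟨a, b, hab⟩ := arc_ex h.inj {k | e0 k ∈ Ico α β}
      (by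
        by_cases c : e0 (⟨t 0, (htr 0 hp).1⟩, false) ∈ Ico α β
        · exact ⟨_, c⟩
        · exact ⟨_, not_not.1 fun z => c ((hX 0 hp).2 z)⟩)
      (by
        by_cases c : e0 (⟨t 0, (htr 0 hp).1⟩, false) ∈ Ico α β
        · exact ⟨_, (hX 0 hp).1 c⟩
        · exact ⟨_, c⟩)
      (by
        intro a ha b hb c hc d hd
        rw [h.xs a b c d (fun z => hc (z ▸ ha)) (fun z => hd (z ▸ ha)) (fun z => hc (z ▸ hb))
          (fun z => hd (z ▸ hb))]
        simp only [mem_ofPred_eq, mem_Ico] at ha hb hc hd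
        unfold Xs fb.Btw
        omega)
    have hI : ∀ z ∈ E', z ∈ Ico (e a + 1) (e b + 1) ↔ ν' z ∈ Ico (e a + 1) (e b + 1) := by
      intro z hz
      by_cases c : ν' z = z
      · rw [c]
      · have k := h.fr z hz c a b
        have k1 : ∀ k, e k ≠ z := fun k d => c (by rw [← d, (h.fix k).2])
        have k2 : ∀ k, e k ≠ ν' z := fun k d => k1 k (by rw [← (h.fix k).2, d, h.inv])
        have := k1 a
        have := k1 b
        have := k2 a
        have := k2 b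
        simp only [mem_Ico]
        unfold Xs fb.Btw at k
        omega
    have : ∀ i, ∃ j, ∀ hi : i < p, j < F.card ∧ CC σ ν' (e (⟨t i, (htr i hi).1⟩, false)) (u j) ∧
        (u j ∈ Ico (e a + 1) (e b + 1) ↔ σ (u j) ∉ Ico (e a + 1) (e b + 1)) := by
      intro i
      by_cases hi : i < p
      · obtain ⟨z, hz, c1, c2⟩ := exit h.cl hI (h.fix (⟨t i, (htr i hi).1⟩, false)).1 (h.cc _) (by
          have := hab _ _ (hX i hi)
          simp only [mem_Ico]
          omega)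
        obtain ⟨j, hj, rfl | rfl⟩ := us z hz
        · exact ⟨j, fun _ => ⟨hj, c1, c2⟩⟩
        · refine ⟨j, fun _ => ⟨hj, Relation.ReflTransGen.tail c1 (Or.inl (hσ _).symm), ?_⟩⟩
          rw [hσ] at c2
          tauto
      · exact ⟨0, fun c => absurd c hi⟩
    choose s hs using this
    refine ⟨e a + 1, e b + 1, s, fun i hi j hj c => ?_, fun i hi => ⟨(hs i hi).1, (hs i hi).2.2⟩⟩
    have c1 := (hs i hi).2.1
    have c2 := (hs j hj).2.1
    rw [← c] at c2
    have c3 := Relation.ReflTransGen.trans c1 (Kit1b.cc_symm hσ h.inv c2)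
    rcases (diS ν' σ h.inv hσ).1 _ _ _ (h.fix _).2 (h.fix _).2 (h.fix _).2
      (cc_comm (h.cc (⟨t i, (htr i hi).1⟩, false))) (cc_comm c3) with d | d | d
    · exact absurd (h.inj d).symm (hb _)
    · exact ht hi hj (congrArg (fun k => k.1.1) (h.inj d))
    · exact ht hi hj (congrArg (fun k => k.1.1) (h.inj d))

end Pool.Agent.MP_9d78a0_co.st

end MrgPart2

-- ======== part 3: formerly Pool.Agent.MP_9d78a0_co.st.CApi
section MrgPart3

/-! Tools for collars: regions made of cells, angles of letters, gates. -/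

set_option autoImplicit false

namespace Pool.Agent.MP_9d78a0_co.st

open Set Function fb

namespace capi

variable {V : Type} {H : SimpleGraph V} {U : Set V} {Ω : List V} {c : CD V}

section lk

variable {S A T : Set V}

theorem conn_meet (h : Conn H S) (h' : Conn H T) (k : (S ∩ T).Nonempty) : Conn H (S ∪ T) := by
  obtain ⟨x, hx, hx'⟩ := k
  refine conn_of_center (Or.inl hx) ?_
  rintro v (hv | hv)
  · exact (h.2 x hx v hv).mono subset_union_left
  · exact (h'.2 x hx' v hv).mono subset_union_right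

theorem link_le {G : SimpleGraph V} (hle : H ≤ G) {u v : V} (h : Link H S u v) : Link G S u v :=
  Link.map (G' := G) id (fun _ ha _ hb e => Link.single ha hb (hle e)) h

theorem conn_le {G : SimpleGraph V} (hle : H ≤ G) (h : Conn H S) : Conn G S :=
  ⟨h.1, fun u hu v hv => link_le hle (h.2 u hu v hv)⟩

theorem lk_sub : lk H S A ⊆ S := fun _ h => h.1

theorem lk_self {a : V} (ha : a ∈ A) (hs : a ∈ S) : a ∈ lk H S A :=
  ⟨hs, a, ha, hs, Link.refl _ _ _⟩

theorem lk_link {u v : V} (hu : u ∈ lk H S A) (h : Link H S u v) : v ∈ lk H S A := by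
  obtain ⟨h1, a, h2, h3, h4⟩ := hu
  exact ⟨h.mem h1, a, h2, h3, h4.trans h⟩

theorem lk_closed {u v : V} (hu : u ∈ lk H S A) (hv : v ∈ S) (e : H.Adj u v) : v ∈ lk H S A :=
  lk_link hu (Link.single hu.1 hv e)

theorem lk_mono {S' A' : Set V} (hS : S ⊆ S') (hA : A ⊆ A') : lk H S A ⊆ lk H S' A' := by
  rintro v ⟨h1, a, h2, h3, h4⟩
  exact ⟨hS h1, a, hA h2, hS h3, h4.mono hS⟩

/-- a link that starts in `lk` stays in it -/
theorem link_lk {u v : V} (hu : u ∈ lk H S A) (h : Link H S u v) : Link H (lk H S A) u v := by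
  induction h with
  | refl => exact Link.refl _ _ _
  | tail h1 h2 ih =>
    exact ih.trans (Link.single (lk_link hu h1) (lk_closed (lk_link hu h1) h2.2.1 h2.2.2) h2.2.2)

theorem lk_conn (hA : Conn H A) (hS : A ⊆ S) : Conn H (lk H S A) := by
  obtain ⟨a, ha⟩ := hA.1
  refine conn_of_center (lk_self ha (hS ha)) ?_
  rintro v ⟨-, b, h2, h3, h4⟩
  exact ((hA.2 a ha b h2).mono fun x hx => lk_self hx (hS hx)).trans (link_lk (lk_self h2 h3) h4)

theorem sub_lk_meet (hT : Conn H T) (hS : T ⊆ S) (k : (T ∩ lk H S A).Nonempty) :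
    T ⊆ lk H S A := by
  obtain ⟨x, hx, hx'⟩ := k
  exact fun v hv => lk_link hx' ((hT.2 x hx v hv).mono hS)

theorem sub_lk_touch (hT : Conn H T) (hS : T ⊆ S) (k : Touch H (lk H S A) T) : T ⊆ lk H S A := by
  obtain ⟨x, hx, y, hy, e⟩ := k
  exact sub_lk_meet hT hS ⟨y, hy, lk_closed hx (hS hy) e⟩

/-- first hit: a vertex of `T` in `lk H S A` gives a vertex of `T` next to `lk H (S \ T) A` -/
theorem lk_hit (hA : Disjoint A T) {v : V} (hv : v ∈ lk H S A) (hT : v ∈ T) :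
    ∃ x ∈ lk H (S \ T) A, ∃ y ∈ T, y ∈ S ∧ H.Adj x y := by
  obtain ⟨-, a, h2, h3, h4⟩ := hv
  have ha : a ∈ Tᶜ := fun k => disjoint_left.1 hA h2 k
  obtain ⟨x, y, h5, h6, h7, h8, h9, h10⟩ := link_exit (T := Tᶜ) h4 ha (fun k => k hT)
  exact ⟨x, ⟨⟨h5, h7⟩, a, h2, ⟨h3, ha⟩, h10⟩, y, not_not.1 h8, h6, h9⟩

end lk

section reg

/-- cells; `Λ i` is the cell of level `s + 1` -/
def D (c : CD V) (l i : ℕ) : Set V := if l ≤ c.s then c.C l i else c.Λ i

/-- the union of the cells selected by `A` -/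
def reg (c : CD V) (A : ℕ → ℕ → Prop) : Set V :=
  {v | ∃ l ≤ c.s + 1, ∃ i < c.t, A l i ∧ v ∈ D c l i}

variable {A B : ℕ → ℕ → Prop} {l l' i j a b : ℕ} {v : V}

theorem D_C (h : l ≤ c.s) : D c l i = c.C l i := if_pos h

theorem D_top : D c (c.s + 1) i = c.Λ i := if_neg (by omega)

theorem D_cases (h : l ≤ c.s + 1) (hv : v ∈ D c l i) :
    (l ≤ c.s ∧ v ∈ c.C l i) ∨ (l = c.s + 1 ∧ v ∈ c.Λ i) := by
  by_cases k : l ≤ c.s
  · exact Or.inl ⟨k, D_C k ▸ hv⟩
  · obtain rfl : l = c.s + 1 := by omega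
    exact Or.inr ⟨rfl, D_top (c := c) (i := i) ▸ hv⟩

theorem mem_reg : v ∈ reg c A ↔
    (∃ l ≤ c.s, ∃ i < c.t, A l i ∧ v ∈ c.C l i) ∨ ∃ i < c.t, A (c.s + 1) i ∧ v ∈ c.Λ i := by
  constructor
  · rintro ⟨l, hl, i, hi, h, hv⟩
    rcases D_cases hl hv with ⟨k, hv'⟩ | ⟨rfl, hv'⟩
    · exact Or.inl ⟨l, k, i, hi, h, hv'⟩
    · exact Or.inr ⟨i, hi, h, hv'⟩
  · rintro (⟨l, hl, i, hi, h, hv⟩ | ⟨i, hi, h, hv⟩)
    · exact ⟨l, by omega, i, hi, h, (D_C hl).symm ▸ hv⟩
    · exact ⟨c.s + 1, le_rfl, i, hi, h, by rwa [D_top]⟩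

theorem D_sub_reg (hl : l ≤ c.s + 1) (hi : i < c.t) (h : A l i) : D c l i ⊆ reg c A :=
  fun _ hv => ⟨l, hl, i, hi, h, hv⟩

theorem C_sub_reg (hl : l ≤ c.s) (hi : i < c.t) (h : A l i) : c.C l i ⊆ reg c A :=
  fun _ hv => mem_reg.2 (Or.inl ⟨l, hl, i, hi, h, hv⟩)

theorem lam_sub_reg (hi : i < c.t) (h : A (c.s + 1) i) : c.Λ i ⊆ reg c A :=
  fun _ hv => mem_reg.2 (Or.inr ⟨i, hi, h, hv⟩)

theorem reg_mono (h : ∀ l ≤ c.s + 1, ∀ i < c.t, A l i → B l i) : reg c A ⊆ reg c B :=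
  fun _ ⟨l, hl, i, hi, k, hv⟩ => ⟨l, hl, i, hi, h l hl i hi k, hv⟩

theorem reg_congr (h : ∀ l ≤ c.s + 1, ∀ i < c.t, A l i ↔ B l i) : reg c A = reg c B :=
  Subset.antisymm (reg_mono fun l hl i hi => (h l hl i hi).1)
    (reg_mono fun l hl i hi => (h l hl i hi).2)

theorem reg_union : reg c A ∪ reg c B = reg c fun l i => A l i ∨ B l i := by
  ext v
  constructor
  · rintro (h | h)
    · exact reg_mono (fun _ _ _ _ k => Or.inl k) h
    · exact reg_mono (fun _ _ _ _ k => Or.inr k) h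
  · rintro ⟨l, hl, i, hi, k | k, hv⟩
    · exact Or.inl ⟨l, hl, i, hi, k, hv⟩
    · exact Or.inr ⟨l, hl, i, hi, k, hv⟩

theorem D_eq (hl : l ≤ c.s + 1) (hi : i < c.t) : D c l i = reg c fun m j => m = l ∧ j = i := by
  refine Subset.antisymm (D_sub_reg hl hi ⟨rfl, rfl⟩) ?_
  rintro v ⟨m, -, j, -, ⟨rfl, rfl⟩, hv⟩
  exact hv

theorem C_eq (hl : l ≤ c.s) (hi : i < c.t) : c.C l i = reg c fun m j => m = l ∧ j = i :=
  (D_C hl).symm.trans (D_eq (by omega) hi)

theorem lam_eq (hi : i < c.t) : c.Λ i = reg c fun m j => m = c.s + 1 ∧ j = i :=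
  D_top.symm.trans (D_eq le_rfl hi)

theorem up_eq (hl : l ≤ c.s + 1) (hi : i < c.t) : c.up l i = reg c fun m j => l ≤ m ∧ j = i := by
  ext v
  rw [mem_reg]
  constructor
  · rintro (h | ⟨m, h1, h2, h⟩)
    · exact Or.inr ⟨i, hi, ⟨hl, rfl⟩, h⟩
    · exact Or.inl ⟨m, h2, i, hi, ⟨h1, rfl⟩, h⟩
  · rintro (⟨m, h2, j, -, ⟨h1, rfl⟩, h⟩ | ⟨j, -, ⟨-, rfl⟩, h⟩)
    · exact Or.inr ⟨m, h1, h2, h⟩
    · exact Or.inl h

theorem col_eq (hi : i < c.t) : c.col i = reg c fun _ j => j = i :=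
  (up_eq (Nat.zero_le _) hi).trans (reg_congr fun _ _ _ _ => by simp)

theorem ring_eq (hl : l ≤ c.s) : c.ring l = reg c fun m _ => m = l := by
  ext v
  constructor
  · rintro ⟨i, hi, h⟩
    exact C_sub_reg hl hi rfl h
  · rintro ⟨m, -, i, hi, rfl, h⟩
    exact ⟨i, hi, D_C hl ▸ h⟩

theorem cols_eq : c.cols = reg c fun _ _ => True := by
  ext v
  constructor
  · rintro ⟨i, hi, h⟩
    rw [col_eq hi] at h
    exact reg_mono (fun _ _ _ _ _ => trivial) h
  · rintro ⟨m, hm, i, hi, -, h⟩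
    exact ⟨i, hi, (col_eq hi).symm ▸ D_sub_reg hm hi rfl h⟩

theorem reg_sub_cols : reg c A ⊆ c.cols := cols_eq ▸ reg_mono fun _ _ _ _ _ => trivial

theorem up_anti (h : l ≤ l') : c.up l' i ⊆ c.up l i := by
  rintro v (k | ⟨m, h1, h2, k⟩)
  · exact Or.inl k
  · exact Or.inr ⟨m, h.trans h1, h2, k⟩

theorem C_sub_up (h : l ≤ l') (h' : l' ≤ c.s) : c.C l' i ⊆ c.up l i :=
  fun _ k => Or.inr ⟨l', h, h', k⟩

theorem lam_sub_up : c.Λ i ⊆ c.up l i := fun _ k => Or.inl k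

theorem up_sub_col : c.up l i ⊆ c.col i := up_anti (Nat.zero_le _)

theorem C_sub_ring (hi : i < c.t) : c.C l i ⊆ c.ring l := fun _ k => ⟨i, hi, k⟩

variable (F : FCol H U Ω c)
include F

theorem D_sub (hl : l ≤ c.s + 1) (hi : i < c.t) : D c l i ⊆ U \ c.I := by
  intro v hv
  rcases D_cases hl hv with ⟨k, hv⟩ | ⟨-, hv⟩
  · have := (F.cell l k i hi).1 hv
    exact ⟨this.1, fun e => this.2 (Or.inl e)⟩
  · exact (F.lam i hi).1 hv

theorem D_conn (hl : l ≤ c.s + 1) (hi : i < c.t) : Conn H (D c l i) := by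
  by_cases k : l ≤ c.s
  · exact D_C k ▸ (F.cell l k i hi).2
  · obtain rfl : l = c.s + 1 := by omega
    exact D_top ▸ (F.lam i hi).2.1

theorem D_ver (hl : l ≤ c.s) (hi : i < c.t) : Touch H (D c l i) (D c (l + 1) i) := by
  rcases hl.lt_or_eq with k | rfl
  · rw [D_C hl, D_C (Nat.succ_le_of_lt k)]
    exact F.ver l k i hi
  · rw [D_C hl, D_top]
    exact (F.lam i hi).2.2.1

theorem D_hor (hl : l ≤ c.s) (hi : i + 1 < c.t) : Touch H (D c l i) (D c l (i + 1)) := by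
  have := F.hor l hl i (by omega)
  rwa [Nat.mod_eq_of_lt hi, ← D_C hl, ← D_C hl] at this

theorem D_back (hl : l ≤ c.s) : Touch H (D c l (c.t - 1)) (D c l 0) := by
  have t4 := F.t4
  have := F.hor l hl (c.t - 1) (by omega)
  rwa [show c.t - 1 + 1 = c.t by omega, Nat.mod_self, ← D_C hl, ← D_C hl] at this

/-- a vertex lies in one cell only -/
theorem D_uniq (hl : l ≤ c.s + 1) (hi : i < c.t) (hl' : l' ≤ c.s + 1) (hj : j < c.t)
    (h : v ∈ D c l i) (h' : v ∈ D c l' j) : l = l' ∧ i = j := by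
  rcases D_cases hl h with ⟨k, h⟩ | ⟨e, h⟩ <;> rcases D_cases hl' h' with ⟨k', h'⟩ | ⟨e', h'⟩
  · by_contra n
    exact disjoint_left.1 (F.dis l k i hi l' k' j hj fun e => n (Prod.mk.inj e)) h h'
  · exact (disjoint_left.1 ((F.lamd j hj i hi).2 l k) h' h).elim
  · exact (disjoint_left.1 ((F.lamd i hi j hj).2 l' k') h h').elim
  · refine ⟨e.trans e'.symm, ?_⟩
    by_contra n
    exact disjoint_left.1 ((F.lamd i hi j hj).1 n) h h'

theorem reg_sub : reg c A ⊆ U \ c.I := fun _ ⟨_, hl, _, hi, _, hv⟩ => D_sub F hl hi hv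

theorem reg_subU : reg c A ⊆ U := fun _ h => (reg_sub F h).1

theorem reg_disI : Disjoint (reg c A) c.I := disjoint_left.2 fun _ h => (reg_sub F h).2

theorem reg_dis (h : ∀ l ≤ c.s + 1, ∀ i < c.t, A l i → B l i → False) :
    Disjoint (reg c A) (reg c B) := by
  refine disjoint_left.2 ?_
  rintro v ⟨l, hl, i, hi, k, hv⟩ ⟨l', hl', j, hj, k', hv'⟩
  obtain ⟨rfl, rfl⟩ := D_uniq F hl hi hl' hj hv hv'
  exact h l hl i hi k k'

/-- membership of a vertex of a known cell -/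
theorem mem_reg_D (hl : l ≤ c.s + 1) (hi : i < c.t) (hv : v ∈ D c l i) : v ∈ reg c A ↔ A l i := by
  refine ⟨?_, fun k => D_sub_reg hl hi k hv⟩
  rintro ⟨l', hl', j, hj, k, hv'⟩
  obtain ⟨rfl, rfl⟩ := D_uniq F hl hi hl' hj hv hv'
  exact k

theorem mem_reg_C (hl : l ≤ c.s) (hi : i < c.t) (hv : v ∈ c.C l i) : v ∈ reg c A ↔ A l i :=
  mem_reg_D F (by omega) hi ((D_C hl).symm ▸ hv)

theorem o_lam (hi : i < c.t) : c.o i ∈ c.Λ i := ((F.lam i hi).2.2.2.ge rfl).1

theorem o_mem (hi : i < c.t) : c.o i ∈ Ω := ((F.lam i hi).2.2.2.ge rfl).2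

theorem o_up (hi : i < c.t) : c.o i ∈ c.up l i := lam_sub_up (o_lam F hi)

theorem o_reg (hi : i < c.t) : c.o i ∈ reg c A ↔ A (c.s + 1) i :=
  mem_reg_D F le_rfl hi (D_top.symm ▸ o_lam F hi)

/-- the letters of a region -/
theorem reg_letter (hv : v ∈ reg c A) (hΩ : v ∈ Ω) : ∃ i < c.t, A (c.s + 1) i ∧ v = c.o i := by
  rcases mem_reg.1 hv with ⟨l, hl, i, hi, -, k⟩ | ⟨i, hi, h, k⟩
  · exact (((F.cell l hl i hi).1 k).2 (Or.inr hΩ)).elim
  · exact ⟨i, hi, h, (F.lam i hi).2.2.2.le ⟨k, hΩ⟩⟩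

theorem reg_meet (hl : l ≤ c.s + 1) (hi : i < c.t) (h : A l i) (h' : B l i) :
    (reg c A ∩ reg c B).Nonempty := by
  obtain ⟨v, hv⟩ := (D_conn F hl hi).1
  exact ⟨v, D_sub_reg hl hi h hv, D_sub_reg hl hi h' hv⟩

/-- two connected regions with a common cell -/
theorem conn_or (h : Conn H (reg c A)) (h' : Conn H (reg c B)) (hl : l ≤ c.s + 1) (hi : i < c.t)
    (k : A l i) (k' : B l i) : Conn H (reg c fun l i => A l i ∨ B l i) :=
  reg_union ▸ conn_meet h h' (reg_meet F hl hi k k')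

/-- a vertical segment -/
theorem conn_vs (hi : i < c.t) (h : l ≤ l') (hl : l' ≤ c.s + 1) :
    Conn H (reg c fun m j => l ≤ m ∧ m ≤ l' ∧ j = i) := by
  have := conn_chain (G := H) (S := fun m => D c m i) h
    (fun m hm => D_conn F (hm.2.trans hl) hi) fun m _ h2 => Or.inr (D_ver F (by omega) hi)
  convert this using 1
  ext v
  simp only [mem_iUnion, mem_Icc, exists_prop]
  constructor
  · rintro ⟨m, -, j, -, ⟨h1, h2, rfl⟩, hv⟩
    exact ⟨m, ⟨h1, h2⟩, hv⟩
  · rintro ⟨m, ⟨h1, h2⟩, hv⟩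
    exact ⟨m, h2.trans hl, i, hi, ⟨h1, h2, rfl⟩, hv⟩

/-- a horizontal segment -/
theorem conn_hs (hl : l ≤ c.s) (h : a ≤ b) (hb : b < c.t) :
    Conn H (reg c fun m j => m = l ∧ a ≤ j ∧ j ≤ b) := by
  have := conn_chain (G := H) (S := fun j => D c l j) h
    (fun j hj => D_conn F (by omega) (by have := hj.2; omega))
    fun j _ h2 => Or.inr (D_hor F hl (by omega))
  convert this using 1
  ext v
  simp only [mem_iUnion, mem_Icc, exists_prop]
  constructor
  · rintro ⟨m, -, j, -, ⟨rfl, h1, h2⟩, hv⟩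
    exact ⟨j, ⟨h1, h2⟩, hv⟩
  · rintro ⟨j, ⟨h1, h2⟩, hv⟩
    exact ⟨l, by omega, j, by omega, ⟨rfl, h1, h2⟩, hv⟩

omit F in
/-- `j` lies on the cyclic arc that goes upwards from `a` to `b` -/
def Arc (a b j : ℕ) : Prop := (a ≤ j ∧ j ≤ b) ∨ (b < a ∧ (a ≤ j ∨ j ≤ b))

/-- an arc of a ring -/
theorem conn_arc (hl : l ≤ c.s) (ha : a < c.t) (hb : b < c.t) :
    Conn H (reg c fun m j => m = l ∧ Arc a b j) := by
  by_cases h : a ≤ b
  · convert conn_hs F hl h hb using 1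
    exact reg_congr fun m _ j _ => by unfold Arc; omega
  · have k := conn_union_touch (conn_hs F hl (a := a) (b := c.t - 1) (by omega) (by omega))
      (conn_hs F hl (Nat.zero_le b) hb)
      ((D_back F hl).mono (D_sub_reg (by omega) (by omega) ⟨rfl, by omega, le_rfl⟩)
        (D_sub_reg (by omega) (by omega) ⟨rfl, le_rfl, Nat.zero_le _⟩))
    rw [reg_union] at k
    convert k using 1
    exact reg_congr fun m _ j _ => by unfold Arc; omega

theorem conn_ring (hl : l ≤ c.s) : Conn H (c.ring l) := by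
  have t4 := F.t4
  rw [ring_eq hl]
  convert conn_hs F hl (Nat.zero_le (c.t - 1)) (by omega) using 1
  exact reg_congr fun m _ j _ => by omega

theorem conn_up (hl : l ≤ c.s + 1) (hi : i < c.t) : Conn H (c.up l i) := by
  rw [up_eq hl hi]
  convert conn_vs F hi hl le_rfl using 1
  exact reg_congr fun m _ j _ => by omega

theorem conn_col (hi : i < c.t) : Conn H (c.col i) := conn_up F (Nat.zero_le _) hi

theorem up_sub (hi : i < c.t) : c.up l i ⊆ U \ c.I :=
  up_sub_col.trans (col_eq hi ▸ reg_sub F)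

theorem ring_sub (hl : l ≤ c.s) : c.ring l ⊆ U \ c.I := ring_eq hl ▸ reg_sub F

theorem cols_sub : c.cols ⊆ U \ c.I := cols_eq ▸ reg_sub F

theorem col_dis (hi : i < c.t) (hj : j < c.t) (n : i ≠ j) : Disjoint (c.col i) (c.col j) := by
  rw [col_eq hi, col_eq hj]
  exact reg_dis F fun _ _ _ _ h h' => n (h.symm.trans h')

theorem up_dis (hi : i < c.t) (hj : j < c.t) (n : i ≠ j) : Disjoint (c.up l i) (c.up l' j) :=
  (col_dis F hi hj n).mono up_sub_col up_sub_col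

theorem up_letter (hi : i < c.t) (hv : v ∈ c.up l i) (hΩ : v ∈ Ω) : v = c.o i := by
  have := up_sub_col hv
  rw [col_eq hi] at this
  obtain ⟨j, -, rfl, e⟩ := reg_letter F this hΩ
  exact e

theorem hub_touch (hi : i < c.t) (h : A 0 i) : Touch H c.I (reg c A) :=
  (F.hub.2.2.2 i hi).mono Subset.rfl (C_sub_reg (Nat.zero_le _) hi h)

/-- the hub with two columns -/
theorem conn_hub_col (hi : i < c.t) : Conn H (c.I ∪ c.col i) :=
  conn_union_touch F.hub.2.1 (conn_col F hi)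
    ((F.hub.2.2.2 i hi).mono Subset.rfl (C_sub_up le_rfl (Nat.zero_le _)))

omit F in
/-- the arc of ring `l` from `a` to `b` with the two upper columns -/
def gate (c : CD V) (l a b : ℕ) : Set V :=
  reg c fun m j => (m = l ∧ Arc a b j) ∨ (l ≤ m ∧ (j = a ∨ j = b))

theorem conn_gate (hl : l ≤ c.s) (ha : a < c.t) (hb : b < c.t) : Conn H (gate c l a b) := by
  have h1 := conn_up F (l := l) (by omega) ha
  have h2 := conn_up F (l := l) (by omega) hb
  rw [up_eq (by omega) ha] at h1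
  rw [up_eq (by omega) hb] at h2
  have h3 := conn_or F (conn_or F (conn_arc F hl ha hb) h1 (l := l) (by omega) ha
    ⟨rfl, by unfold Arc; omega⟩ ⟨le_rfl, rfl⟩) h2 (l := l) (by omega) hb
    (Or.inl ⟨rfl, by unfold Arc; omega⟩) ⟨le_rfl, rfl⟩
  convert h3 using 1
  exact reg_congr fun m _ j _ => by tauto

theorem gate_left (hl : l ≤ c.s + 1) (ha : a < c.t) : c.o a ∈ gate c l a b :=
  (o_reg F ha).2 (Or.inr ⟨hl, Or.inl rfl⟩)

theorem gate_right (hl : l ≤ c.s + 1) (hb : b < c.t) : c.o b ∈ gate c l a b :=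
  (o_reg F hb).2 (Or.inr ⟨hl, Or.inr rfl⟩)

end reg

section ang

/-- the letters of angle `k` -/
def blk (o : ℕ → V) (seg : ℕ → List V) (k : ℕ) : List V :=
  if k % 2 = 0 then [o (k / 2)] else seg (k / 2)

theorem cyc_eq (o : ℕ → V) (seg : ℕ → List V) (n : ℕ) :
    cyc o seg n = (List.range (2 * n)).flatMap (blk o seg) := by
  induction n with
  | zero => rfl
  | succ n ih =>
    have e1 : blk o seg (2 * n) = [o n] := by
      rw [blk, if_pos (by omega), show 2 * n / 2 = n by omega]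
    have e2 : blk o seg (2 * n + 1) = seg n := by
      rw [blk, if_neg (by omega), show (2 * n + 1) / 2 = n by omega]
    unfold cyc at ih ⊢
    rw [show 2 * (n + 1) = 2 * n + 1 + 1 by omega, List.range_succ, List.range_succ,
      List.range_succ, List.flatMap_append, List.flatMap_append, List.flatMap_append, ih]
    simp [e1, e2]

theorem sub_flat {α : Type} (f : ℕ → List α) {K : List ℕ} {X : List α}
    (h : List.Forall₂ (fun k x => x ∈ f k) K X) {R : List ℕ} (hK : List.Sublist K R) :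
    List.Sublist X (R.flatMap f) := by
  refine List.Sublist.trans ?_ (hK.flatMap f)
  clear hK
  induction h with
  | nil => simp
  | cons h1 _ ih =>
    rw [List.flatMap_cons]
    exact (List.singleton_sublist.2 h1).append ih

/-- the letter `x` has angle `α`: `2 i` for `o i`, `2 i + 1` on `seg i` -/
def Ang (c : CD V) (x : V) (α : ℕ) : Prop := α < 2 * c.t ∧ x ∈ blk c.o c.seg α

variable {x y z w : V} {α β γ δ i : ℕ}

theorem ang_o (hi : i < c.t) : Ang c (c.o i) (2 * i) :=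
  ⟨by omega, by rw [blk, if_pos (by omega), show 2 * i / 2 = i by omega]; simp⟩

theorem ang_seg (hi : i < c.t) (h : x ∈ c.seg i) : Ang c x (2 * i + 1) :=
  ⟨by omega, by rwa [blk, if_neg (by omega), show (2 * i + 1) / 2 = i by omega]⟩

theorem ang_cases (h : Ang c x α) :
    ∃ i < c.t, (α = 2 * i ∧ x = c.o i) ∨ (α = 2 * i + 1 ∧ x ∈ c.seg i) := by
  obtain ⟨h1, h2⟩ := h
  refine ⟨α / 2, by omega, ?_⟩
  unfold blk at h2
  split_ifs at h2 with k
  · exact Or.inl ⟨by omega, by simpa using h2⟩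
  · exact Or.inr ⟨by omega, h2⟩

theorem mem_cyc : x ∈ cyc c.o c.seg c.t ↔ ∃ α, Ang c x α := by
  simp [cyc_eq, Ang]

theorem ang_sub2 (h1 : Ang c x α) (h2 : Ang c y β) (k : α < β) :
    List.Sublist [x, y] (cyc c.o c.seg c.t) := by
  rw [cyc_eq]
  refine sub_flat _ (K := [α, β]) (.cons h1.2 (.cons h2.2 .nil)) ?_
  exact nf.sub2_iff.2 ⟨α, β, k, List.getElem?_range h1.1, List.getElem?_range h2.1⟩

theorem ang_sub3 (h1 : Ang c x α) (h2 : Ang c y β) (h3 : Ang c z γ) (k : α < β) (k' : β < γ) :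
    List.Sublist [x, y, z] (cyc c.o c.seg c.t) := by
  rw [cyc_eq]
  refine sub_flat _ (K := [α, β, γ]) (.cons h1.2 (.cons h2.2 (.cons h3.2 .nil))) ?_
  exact nf.sub3_iff.2 ⟨α, β, γ, k, k', List.getElem?_range h1.1, List.getElem?_range h2.1,
    List.getElem?_range h3.1⟩

theorem ang_sub4 (h1 : Ang c x α) (h2 : Ang c y β) (h3 : Ang c z γ) (h4 : Ang c w δ) (k : α < β)
    (k' : β < γ) (k'' : γ < δ) : List.Sublist [x, y, z, w] (cyc c.o c.seg c.t) := by
  rw [cyc_eq]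
  refine sub_flat _ (K := [α, β, γ, δ]) (.cons h1.2 (.cons h2.2 (.cons h3.2 (.cons h4.2 .nil)))) ?_
  exact nf.sub4_iff.2 ⟨α, β, γ, δ, k, k', k'', List.getElem?_range h1.1, List.getElem?_range h2.1,
    List.getElem?_range h3.1, List.getElem?_range h4.1⟩

/-- the pairs `p p'` and `q q'` alternate -/
def Alt (p p' q q' : ℕ) : Prop :=
  (min p p' < q ∧ q < max p p' ∧ (q' < min p p' ∨ max p p' < q')) ∨
    (min p p' < q' ∧ q' < max p p' ∧ (q < min p p' ∨ max p p' < q))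

variable (F : FCol H U Ω c)
include F

theorem mem_iff : x ∈ Ω ↔ ∃ α, Ang c x α := F.rot.mem_iff.trans mem_cyc

theorem ang_mem (h : Ang c x α) : x ∈ Ω := (mem_iff F).2 ⟨α, h⟩

theorem seg_mem (hi : i < c.t) (h : x ∈ c.seg i) : x ∈ Ω := ang_mem F (ang_seg hi h)

theorem cyc_nodup : (cyc c.o c.seg c.t).Nodup := F.rot.nodup_iff.1 F.soc.nd

theorem ang_uniq (h : Ang c x α) (h' : Ang c x β) : α = β := by
  rcases lt_trichotomy α β with k | k | k
  · simpa using (cyc_nodup F).sublist (ang_sub2 h h' k)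
  · exact k
  · simpa using (cyc_nodup F).sublist (ang_sub2 h' h k)

theorem o_inj {j : ℕ} (hi : i < c.t) (hj : j < c.t) (e : c.o i = c.o j) : i = j := by
  have := ang_uniq F (ang_o hi) (e ▸ ang_o hj)
  omega

/-- a letter of odd angle lies in no region -/
theorem seg_not_reg {A : ℕ → ℕ → Prop} (hi : i < c.t) (h : x ∈ c.seg i) : x ∉ reg c A := by
  intro k
  obtain ⟨j, hj, -, rfl⟩ := reg_letter F k (seg_mem F hi h)
  have := ang_uniq F (ang_seg hi h) (ang_o hj)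
  omega

theorem hf_cyc : HF H U (cyc c.o c.seg c.t) c.I := nf.hf_rot F.rot F.flat

/-- two disjoint connected sets whose letters alternate both meet the hub -/
theorem hf_alt {P Q : Set V} (T : Two H U P Q) (h1 : Ang c x α) (h2 : Ang c y β) (h3 : Ang c z γ)
    (h4 : Ang c w δ) (hx : x ∈ P) (hy : y ∈ P) (hz : z ∈ Q) (hw : w ∈ Q) (k : Alt α β γ δ) :
    (P ∩ c.I).Nonempty ∧ (Q ∩ c.I).Nonempty := by
  have f := hf_cyc F
  have T' := nf.two_symm T
  unfold Alt at k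
  rcases le_total α β with e | e
  · rw [min_eq_left e, max_eq_right e] at k
    rcases k with ⟨a, b, d | d⟩ | ⟨a, b, d | d⟩
    · exact (f _ _ _ _ (ang_sub4 h4 h1 h3 h2 d a b) Q P T' hw hz hx hy).symm
    · exact f _ _ _ _ (ang_sub4 h1 h3 h2 h4 a b d) P Q T hx hy hz hw
    · exact (f _ _ _ _ (ang_sub4 h3 h1 h4 h2 d a b) Q P T' hz hw hx hy).symm
    · exact f _ _ _ _ (ang_sub4 h1 h4 h2 h3 a b d) P Q T hx hy hw hz
  · rw [min_eq_right e, max_eq_left e] at k
    rcases k with ⟨a, b, d | d⟩ | ⟨a, b, d | d⟩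
    · exact (f _ _ _ _ (ang_sub4 h4 h2 h3 h1 d a b) Q P T' hw hz hy hx).symm
    · exact f _ _ _ _ (ang_sub4 h2 h3 h1 h4 a b d) P Q T hy hx hz hw
    · exact (f _ _ _ _ (ang_sub4 h3 h2 h4 h1 d a b) Q P T' hz hw hy hx).symm
    · exact f _ _ _ _ (ang_sub4 h2 h4 h1 h3 a b d) P Q T hy hx hw hz

/-- a connected set off the hub separates the letters that alternate with its letters -/
theorem sep_alt {P Q : Set V} (T : Two H U P Q) (hQ : Disjoint Q c.I) (h1 : Ang c x α)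
    (h2 : Ang c y β) (h3 : Ang c z γ) (h4 : Ang c w δ) (hx : x ∈ P) (hy : y ∈ P) (hz : z ∈ Q)
    (hw : w ∈ Q) (k : Alt α β γ δ) : False :=
  (hf_alt F T h1 h2 h3 h4 hx hy hz hw k).2.ne_empty hQ.inter_eq

/-- no connected set off a gate has letters on its two sides -/
theorem gate_sep {P : Set V} {l a b : ℕ} (hl : l ≤ c.s) (ha : a < c.t) (hb : b < c.t)
    (hP : P ⊆ U) (cP : Conn H P) (hd : Disjoint P (gate c l a b)) (h1 : Ang c x α)
    (h2 : Ang c y β) (hx : x ∈ P) (hy : y ∈ P) (k : Alt α β (2 * a) (2 * b)) : False :=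
  sep_alt F ⟨hP, reg_subU F, cP, conn_gate F hl ha hb, hd⟩ (reg_disI F) h1 h2 (ang_o ha) (ang_o hb)
    hx hy (gate_left F (by omega) ha) (gate_right F (by omega) hb) k

/-- a connected set `Q` off the hub and off the columns `i`, `j` has no letters on both sides
of these columns -/
theorem hub_sep {Q : Set V} {j : ℕ} (hi : i < c.t) (hj : j < c.t) (hQ : Q ⊆ U \ c.I)
    (cQ : Conn H Q) (d1 : Disjoint Q (c.col i)) (d2 : Disjoint Q (c.col j)) (h3 : Ang c z γ)
    (h4 : Ang c w δ) (hz : z ∈ Q) (hw : w ∈ Q) (k : Alt (2 * i) (2 * j) γ δ) : False := by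
  have dI : Disjoint Q c.I := disjoint_left.2 fun v hv => (hQ hv).2
  obtain ⟨u, hu⟩ := F.hub.2.1.1
  refine sep_alt F (P := (c.I ∪ c.col i) ∪ (c.I ∪ c.col j)) ⟨?_, fun v hv => (hQ hv).1,
    conn_meet (conn_hub_col F hi) (conn_hub_col F hj) ⟨u, Or.inl hu, Or.inl hu⟩, cQ, ?_⟩ dI
    (ang_o hi) (ang_o hj) h3 h4 (Or.inl (Or.inr (o_up F hi))) (Or.inr (Or.inr (o_up F hj))) hz hw k
  · rintro v ((h | h) | (h | h))
    exacts [F.hub.1 h, (up_sub F hi h).1, F.hub.1 h, (up_sub F hj h).1]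
  · simp only [disjoint_union_left]
    exact ⟨⟨dI.symm, d1.symm⟩, dI.symm, d2.symm⟩

end ang

end capi

end Pool.Agent.MP_9d78a0_co.st

end MrgPart3

-- ======== part 4: formerly Pool.Agent.MP_9d78a0_co.st.In
section MrgPart4

/-! The inside of a ring; hairpins round the back of a collar. -/

set_option autoImplicit false

namespace Pool.Agent.MP_9d78a0_co.st

open Set Function fb capi

namespace inn

variable {V : Type} {H : SimpleGraph V} {U : Set V} {Ω : List V} {c : CD V} {l : ℕ}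
  (F : FCol H U Ω c)
include F

theorem hub_sub (hl : l ≤ c.s) : c.I ⊆ U \ c.ring l :=
  fun _ h => ⟨F.hub.1 h, fun k => (ring_sub F hl k).2 h⟩

theorem hub_in (hl : l ≤ c.s) : c.I ⊆ c.In H U l := fun _ h => lk_self h (hub_sub F hl h)

/-- the inside of ring `l` misses the letters and the upper columns -/
theorem no_leak (hl : l ≤ c.s) {v : V} (hv : v ∈ c.In H U l)
    (hT : v ∈ (reg c fun m _ => l < m) ∪ ls Ω) : False := by
  have t4 := F.t4
  have hI : Disjoint c.I ((reg c fun m _ => l < m) ∪ ls Ω) :=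
    disjoint_union_right.2 ⟨(reg_disI F).symm, F.hub.2.2.1⟩
  obtain ⟨x, hx, y, hy, hyU, e⟩ := lk_hit hI hv hT
  set W := lk H ((U \ c.ring l) \ ((reg c fun m _ => l < m) ∪ ls Ω)) c.I with hW
  have IS : c.I ⊆ (U \ c.ring l) \ ((reg c fun m _ => l < m) ∪ ls Ω) :=
    fun _ h => ⟨hub_sub F hl h, disjoint_left.1 hI h⟩
  have cW : Conn H W := lk_conn F.hub.2.1 IS
  have IW : c.I ⊆ W := fun _ h => lk_self h (IS h)
  have dW : ∀ a b, Disjoint W (gate c l a b) := by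
    intro a b
    refine disjoint_left.2 ?_
    rintro z hz ⟨m, hm, j, hj, k, hz'⟩
    by_cases n : m = l
    · exact hz.1.1.2 (by rw [ring_eq hl]; exact D_sub_reg hm hj n hz')
    · exact hz.1.2 (Or.inl (D_sub_reg hm hj (by omega) hz'))
  -- a set `R` next to `W` with a letter, a gate round it and a far column
  have key : ∀ (R : Set V) (z : V) (α a b k : ℕ), R ⊆ U → Conn H R → y ∈ R → z ∈ R → Ang c z α →
      a < c.t → b < c.t → k < c.t → Disjoint R (gate c l a b) → ¬ Arc a b k →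
      Alt α (2 * k) (2 * a) (2 * b) → False := by
    intro R z α a b k h1 h2 h3 h4 h5 ha hb hk h6 h7 h8
    refine gate_sep F (P := (W ∪ R) ∪ c.col k) hl ha hb ?_ ?_ ?_ h5 (ang_o hk)
      (Or.inl (Or.inr h4)) (Or.inr (o_up F hk)) h8
    · exact union_subset (union_subset (fun _ h => h.1.1.1) h1) fun _ h => (up_sub F hk h).1
    · exact conn_union_touch (conn_union_touch cW h2 ⟨x, hx, y, h3, e⟩) (conn_col F hk)
        ((F.hub.2.2.2 k hk).mono (IW.trans subset_union_left) (C_sub_up le_rfl (Nat.zero_le _)))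
    · refine disjoint_union_left.2 ⟨disjoint_union_left.2 ⟨dW a b, h6⟩, ?_⟩
      rw [col_eq hk]
      exact reg_dis F fun m _ j _ e1 e2 => by unfold Arc at h7 e2; omega
  have up : ∀ j < c.t, y ∈ c.up (l + 1) j → False := by
    intro j hj h
    have d : ∀ a b, j ≠ a → j ≠ b → Disjoint (c.up (l + 1) j) (gate c l a b) := by
      intro a b n1 n2
      rw [up_eq (by omega) hj]
      exact reg_dis F fun m _ i _ e1 e2 => by omega
    have k := fun a b k => key (c.up (l + 1) j) (c.o j) (2 * j) a b k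
      (fun _ h => (up_sub F hj h).1) (conn_up F (by omega) hj) h (o_up F hj) (ang_o hj)
    by_cases e0 : j = 0
    · exact k (c.t - 1) 1 2 (by omega) (by omega) (by omega) (d _ _ (by omega) (by omega))
        (by unfold Arc; omega) (by unfold Alt; omega)
    by_cases e1 : j + 1 = c.t
    · exact k (j - 1) 0 1 (by omega) (by omega) (by omega) (d _ _ (by omega) (by omega))
        (by unfold Arc; omega) (by unfold Alt; omega)
    by_cases e2 : j + 2 = c.t
    · exact k (j - 1) (j + 1) 0 (by omega) (by omega) (by omega) (d _ _ (by omega) (by omega))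
        (by unfold Arc; omega) (by unfold Alt; omega)
    · exact k (j - 1) (j + 1) (j + 2) (by omega) (by omega) (by omega)
        (d _ _ (by omega) (by omega)) (by unfold Arc; omega) (by unfold Alt; omega)
  rcases hy with ⟨m, hm, j, hj, h1, h2⟩ | hy
  · refine up j hj ?_
    rw [up_eq (by omega) hj]
    exact D_sub_reg hm hj ⟨h1, rfl⟩ h2
  obtain ⟨α, hα⟩ := (mem_iff F).1 hy
  obtain ⟨j, hj, ⟨-, e1⟩ | ⟨rfl, h1⟩⟩ := ang_cases hα
  · exact up j hj (e1 ▸ o_up F hj)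
  have k := fun a b k ha hb hk => key {y} y (2 * j + 1) a b k (singleton_subset_iff.2 hyU.1)
    (conn_singleton _ _) rfl rfl hα ha hb hk (disjoint_singleton_left.2 (seg_not_reg F hj h1))
  by_cases e1 : j + 1 = c.t
  · exact k j 0 1 hj (by omega) (by omega) (by unfold Arc; omega) (by unfold Alt; omega)
  by_cases e2 : j + 2 = c.t
  · exact k j (j + 1) 0 hj (by omega) (by omega) (by unfold Arc; omega) (by unfold Alt; omega)
  · exact k j (j + 1) (j + 2) hj (by omega) (by omega) (by unfold Arc; omega)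
      (by unfold Alt; omega)

/-- the inside of ring `l` misses every cell of level at least `l` -/
theorem in_dis (hl : l ≤ c.s) {A : ℕ → ℕ → Prop} (h : ∀ m ≤ c.s + 1, ∀ j < c.t, A m j → l ≤ m) :
    Disjoint (c.In H U l) (reg c A) := by
  refine disjoint_left.2 ?_
  rintro v hv ⟨m, hm, j, hj, k, hv'⟩
  rcases (h m hm j hj k).lt_or_eq with e | e
  · exact no_leak F hl hv (Or.inl (D_sub_reg hm hj e hv'))
  · exact hv.1.2 (by rw [ring_eq hl]; exact D_sub_reg hm hj e.symm hv')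

/-- the inside of ring `l` contains every cell of lower level -/
theorem sub_in (hl : l ≤ c.s) {A : ℕ → ℕ → Prop} (h : ∀ m ≤ c.s + 1, ∀ j < c.t, A m j → m < l) :
    reg c A ⊆ c.In H U l := by
  rintro v ⟨m, hm, j, hj, k, hv⟩
  have e := h m hm j hj k
  refine sub_lk_touch (S := U \ c.ring l) (conn_vs F hj (Nat.zero_le m) hm)
    (fun z hz => (mem_sdiff _).2 ⟨reg_subU F hz, ?_⟩)
    ((hub_touch F hj ⟨le_rfl, Nat.zero_le _, rfl⟩).mono (hub_in F hl) Subset.rfl)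
    (D_sub_reg hm hj ⟨Nat.zero_le _, le_rfl, rfl⟩ hv)
  rw [ring_eq hl]
  exact disjoint_left.1 (reg_dis F fun _ _ _ _ e1 e2 => by omega) hz

end inn

open inn

theorem inS : InS := by
  intro V H U Ω c F l hl
  refine ⟨lk_conn F.hub.2.1 (hub_sub F hl), hub_in F hl,
    disjoint_left.2 fun v hv k => no_leak F hl hv (Or.inr k), fun i hi => ⟨?_, ?_⟩,
    fun l' h => union_subset ?_ ?_, fun u hu v e => ?_⟩
  · rw [up_eq (by omega) hi]
    exact in_dis F hl fun _ _ _ _ k => k.1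
  · rcases l with _ | l
    · exact (F.hub.2.2.2 i hi).mono (hub_in F hl) Subset.rfl
    · refine (F.ver l hl i hi).mono ?_ Subset.rfl
      rw [C_eq (by omega) hi]
      exact sub_in F hl fun _ _ _ _ k => by omega
  · intro v hv
    have hl' : l' ≤ c.s := by omega
    obtain ⟨a, ha⟩ := F.hub.2.1.1
    refine sub_lk_meet (S := U \ c.ring l) (lk_conn F.hub.2.1 (hub_sub F hl'))
      (fun z hz => (mem_sdiff _).2 ⟨hz.1.1, ?_⟩) ⟨a, hub_in F hl' ha, hub_in F hl ha⟩ hv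
    rw [ring_eq hl]
    exact disjoint_left.1 (in_dis F hl' fun _ _ _ _ k => by omega) hz
  · rw [ring_eq (by omega)]
    exact sub_in F hl fun _ _ _ _ k => by omega
  · by_cases k : v ∈ c.ring l
    · exact Or.inr k
    · exact Or.inl (lk_closed hu ⟨F.soc.tight _ _ e.symm, k⟩ e)

theorem zoneS : InS → ZoneS := by
  intro _ V G H U Ω c ob π K F hle hπ ho K0 Ks Kt
  have mo : ∀ i j, i ≤ j → j < c.t → π i ≤ π j := fun i j h hj =>
    h.lt_or_eq.elim (fun e => (hπ i j e hj).le) fun e => e ▸ le_rfl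
  refine ⟨reg c fun m j => c.s + 1 - K ≤ m ∧ (j < K ∨ c.t ≤ j + K), reg_sub_cols,
    (in_dis F (by omega) fun _ _ _ _ k => k.1).symm, fun i h1 h2 => ?_, fun a b h1 h2 h3 => ?_⟩
  · rw [col_eq (by omega)]
    exact reg_dis F fun _ _ _ _ e1 e2 => by omega
  refine ⟨mo a b h2 (by omega), fun i => π i, fun i => π (c.t - 1 - i),
    fun i => gate c (c.s - i) (c.t - 1 - i) i, ⟨⟨fun i hi => ⟨?_, ?_, ?_, ?_⟩, ?_⟩, ?_⟩, ?_, ?_⟩
  · exact reg_mono fun m _ j _ k => by unfold Arc at k; omega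
  · exact conn_le hle (conn_gate F (by omega) (by omega) (by omega))
  · show ob (π i) ∈ _
    rw [← ho i (by omega)]
    exact gate_right F (by omega) (by omega)
  · show ob (π (c.t - 1 - i)) ∈ _
    rw [← ho _ (by omega)]
    exact gate_left F (by omega) (by omega)
  · intro i hi j hj n
    exact reg_dis F fun m _ x _ e1 e2 => by unfold Arc at e1 e2; omega
  · intro i hi j hj
    refine ⟨(hπ _ _ (by omega) (by omega)).ne, fun n => ?_⟩
    rcases Nat.lt_or_gt_of_ne n with e | e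
    · exact ⟨(hπ _ _ e (by omega)).ne, (hπ _ _ (by omega) (by omega)).ne'⟩
    · exact ⟨(hπ _ _ e (by omega)).ne', (hπ _ _ (by omega) (by omega)).ne⟩
  · intro i j e hj
    exact ⟨hπ _ _ e (by omega), hπ _ _ (by omega) (by omega)⟩
  · intro i hi
    exact ⟨mo _ _ (Nat.zero_le _) (by omega), hπ _ _ (by omega) (by omega),
      hπ _ _ (by omega) (by omega), mo _ _ (by omega) (by omega)⟩

end Pool.Agent.MP_9d78a0_co.st

end MrgPart4

-- marker of a merged file
example : 731051 + 641627 = 731051 + 641627 := rfl
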