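import Pool.Agent.MP_9d78a0_co.st.TRg
import Pool.Agent.MP_9d78a0_co.st.Del
import Pool.Agent.MP_9d78a0_co.st.In

-- ======== part 0: formerly Pool.Agent.MP_9d78a0_co.st.Ctr
section MrgPart0

/-! Contraction of a port or of a hub. -/

set_option autoImplicit false

namespace Pool.Agent.MP_9d78a0_co.st

open Set Function fb

namespace Ctr

variable {V : Type} {H : SimpleGraph V} {U S P Q : Set V} {ω : V}

open Classical in
/-- the projection -/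
noncomputable def pr (S : Set V) (ω : V) (v : V) : V := if v ∈ S then ω else v

theorem pr_in {v : V} (h : v ∈ S) : pr S ω v = ω := if_pos h

theorem pr_out {v : V} (h : v ∉ S) : pr S ω v = v := if_neg h

theorem pr_fix (hω : ω ∈ S) {v : V} (h : v ∉ S ∨ v = ω) : pr S ω v = v :=
  h.elim pr_out fun k => by rw [k, pr_in hω]

theorem pr_ok (v : V) : pr S ω v ∉ S ∨ pr S ω v = ω := by
  by_cases c : v ∈ S
  exacts [Or.inr (pr_in c), Or.inl (by rwa [pr_out c])]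

theorem pr_eq (hω : ω ∈ S) {x y : V} (h : pr S ω x = pr S ω y) : x = y ∨ (x ∈ S ∧ y ∈ S) := by
  by_cases c : x ∈ S <;> by_cases d : y ∈ S
  · exact Or.inr ⟨c, d⟩
  · rw [pr_in c, pr_out d] at h
    exact absurd (h ▸ hω) d
  · rw [pr_out c, pr_in d] at h
    exact absurd (h ▸ hω) c
  · rw [pr_out c, pr_out d] at h
    exact Or.inl h

theorem adj_pr {x y : V} (h : H.Adj x y) (n : pr S ω x ≠ pr S ω y) :
    (ctr H S ω).Adj (pr S ω x) (pr S ω y) := by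
  have k : ∀ z, z = pr S ω z ∨ (pr S ω z = ω ∧ z ∈ S) := fun z => by
    by_cases c : z ∈ S
    exacts [Or.inr ⟨pr_in c, c⟩, Or.inl (pr_out c).symm]
  exact ⟨n, pr_ok x, pr_ok y, x, y, h, k x, k y⟩

theorem adj_lift (hω : ω ∈ S) {u v : V} (h : (ctr H S ω).Adj u v) :
    ∃ x y, H.Adj x y ∧ pr S ω x = u ∧ pr S ω y = v := by
  obtain ⟨-, h1, h2, x, y, e, h3, h4⟩ := h
  refine ⟨x, y, e, ?_, ?_⟩
  · exact h3.elim (fun k => k ▸ pr_fix hω (k ▸ h1)) fun k => (pr_in k.2).trans k.1.symm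
  · exact h4.elim (fun k => k ▸ pr_fix hω (k ▸ h2)) fun k => (pr_in k.2).trans k.1.symm

theorem conn_img (h : Conn H P) : Conn (ctr H S ω) (pr S ω '' P) := by
  refine ⟨h.1.image _, ?_⟩
  rintro _ ⟨u, hu, rfl⟩ _ ⟨v, hv, rfl⟩
  refine Link.map _ (fun a ha b hb e => ?_) (h.2 u hu v hv)
  by_cases c : pr S ω a = pr S ω b
  · rw [c]
    exact Link.refl _ _ _
  · exact Link.single (mem_image_of_mem _ ha) (mem_image_of_mem _ hb) (adj_pr e c)

theorem img_out (h : Disjoint P S) : pr S ω '' P = P :=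
  (image_congr fun _ k => pr_out (disjoint_left.1 h k)).trans (image_id' P)

theorem img_meet (h : (P ∩ S).Nonempty) : pr S ω '' P = P \ S ∪ {ω} := by
  ext v
  constructor
  · rintro ⟨x, hx, rfl⟩
    by_cases c : x ∈ S
    · exact Or.inr (pr_in c)
    · rw [pr_out c]
      exact Or.inl ⟨hx, c⟩
  · rintro (k | rfl)
    exacts [⟨v, k.1, pr_out k.2⟩, let ⟨x, a, b⟩ := h; ⟨x, a, pr_in b⟩]

theorem img_dis (hω : ω ∈ S) (h : Disjoint P Q) (k : Disjoint P S ∨ Disjoint Q S) :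
    Disjoint (pr S ω '' P) (pr S ω '' Q) := by
  refine disjoint_left.2 ?_
  rintro _ ⟨x, hx, rfl⟩ ⟨y, hy, e⟩
  rcases pr_eq hω e with rfl | ⟨a, b⟩
  exacts [disjoint_left.1 h hx hy, k.elim (fun l => disjoint_left.1 l hx b)
    fun l => disjoint_left.1 l hy a]

theorem img_sub (hω : ω ∈ S) (hS : S ⊆ U) (h : P ⊆ U) : pr S ω '' P ⊆ U \ S ∪ {ω} :=
  (image_mono h).trans (img_meet ⟨ω, hS hω, hω⟩).subset

theorem pre_mem (hω : ω ∈ S) (hS : S ⊆ U) {x : V} (h : pr S ω x ∈ U \ S ∪ {ω}) : x ∈ U := by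
  by_cases c : x ∈ S
  · exact hS c
  · rw [pr_out c] at h
    exact h.elim (·.1) fun k => hS ((show x = ω from k) ▸ hω)

theorem two_img (hω : ω ∈ S) (hS : S ⊆ U) (h : Two H U P Q) (k : Disjoint P S ∨ Disjoint Q S) :
    Two (ctr H S ω) (U \ S ∪ {ω}) (pr S ω '' P) (pr S ω '' Q) :=
  ⟨img_sub hω hS h.sp, img_sub hω hS h.sq, conn_img h.cp, conn_img h.cq, img_dis hω h.dis k⟩

theorem conn_pre (hω : ω ∈ S) (hS : ω ∈ P → Conn H S) (hP : ∀ v ∈ P, v ∉ S ∨ v = ω)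
    (h : Conn (ctr H S ω) P) : Conn H (pr S ω ⁻¹' P) := by
  have fib : ∀ x y, pr S ω x ∈ P → pr S ω x = pr S ω y → Link H (pr S ω ⁻¹' P) x y := by
    intro x y a e
    rcases pr_eq hω e with rfl | ⟨p, q⟩
    · exact Link.refl _ _ _
    · rw [pr_in p] at a
      exact ((hS a).2 x p y q).mono fun z hz => show pr S ω z ∈ P by rwa [pr_in hz]
  obtain ⟨u, hu⟩ := h.1
  refine ⟨⟨u, show pr S ω u ∈ P by rwa [pr_fix hω (hP u hu)]⟩, fun x hx y hy => ?_⟩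
  have l : Link H (pr S ω ⁻¹' P) (pr S ω x) (pr S ω y) := by
    refine Link.map id (fun a ha b hb e => ?_) (h.2 _ hx _ hy)
    obtain ⟨s, t, e', rfl, rfl⟩ := adj_lift hω e
    exact ((fib s _ ha (pr_fix hω (pr_ok s)).symm).symm.trans (Link.single ha hb e')).trans
      (fib t _ hb (pr_fix hω (pr_ok t)).symm)
  exact ((fib x _ hx (pr_fix hω (pr_ok x)).symm).trans l).trans
    (fib y _ hy (pr_fix hω (pr_ok y)).symm).symm

theorem lift (hω : ω ∈ S) {f : ℕ → V} {l : ℕ} (hl : 0 < l)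
    (h : ∀ j < l, (ctr H S ω).Adj (f j) (f (j + 1))) (hi : ∀ i, 0 < i → i < l → f i ≠ ω) :
    ∃ f' : ℕ → V, Conn H (f' '' Icc 0 l) ∧ ∀ i ≤ l, pr S ω (f' i) = f i := by
  have : Nonempty V := ⟨ω⟩
  choose! x y e a b using fun j (k : j < l) => adj_lift hω (h j k)
  refine ⟨fun i => if i < l then x i else y (l - 1), conn_seg (Nat.zero_le l) fun i _ k => ?_,
    fun i k => ?_⟩
  · simp only [if_pos k]
    split_ifs with c
    · rcases pr_eq hω ((a _ c).trans (b i k).symm) with q | q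
      · exact q ▸ e i k
      · exact absurd ((a _ c).symm.trans (pr_in q.1)) (hi _ (Nat.succ_pos i) c)
    · rw [show l - 1 = i by omega]
      exact e i k
  · simp only
    split_ifs with c
    · exact a i c
    · rw [b _ (by omega), show l - 1 + 1 = i by omega]

theorem ports (hω : ω ∈ S) {L1 L2 : List (Set V)} (h : (L1 ++ S :: L2).Pairwise Disjoint) :
    (∀ s ∈ L1 ++ S :: L2, s = S ∨ Disjoint s S) ∧
      (L1 ++ S :: L2).map (image (pr S ω)) = L1 ++ {ω} :: L2 := by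
  rw [List.pairwise_append, List.pairwise_cons] at h
  have a : ∀ s ∈ L1, Disjoint s S := fun s k => h.2.2 s k S List.mem_cons_self
  have b : ∀ s ∈ L2, Disjoint s S := fun s k => (h.2.1.1 s k).symm
  refine ⟨fun s k => ?_, ?_⟩
  · rcases List.mem_append.1 k with k | k
    · exact Or.inr (a s k)
    · exact (List.mem_cons.1 k).imp id (b s)
  · rw [List.map_append, List.map_cons, img_meet ⟨ω, hω, hω⟩, Set.sdiff_self, empty_union,
      (List.map_congr_left fun s k => img_out (a s k)).trans (List.map_id' L1),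
      (List.map_congr_left fun s k => img_out (b s k)).trans (List.map_id' L2)]

theorem px (nf : NfS) (hω : ω ∈ S) (hS : S ⊆ U) {LL : List (Set V)} (hd : LL.Pairwise Disjoint)
    (hm : S ∈ LL) (hs : ∀ s ∈ LL, s = S ∨ Disjoint s S) :
    PX H U LL ↔ PX (ctr H S ω) (U \ S ∪ {ω}) (LL.map (image (pr S ω))) := by
  have sat : ∀ s ∈ LL, ∀ x, pr S ω x ∈ pr S ω '' s → x ∈ s := by
    rintro s k x ⟨y, hy, e⟩
    rcases pr_eq hω e with rfl | ⟨p, q⟩
    · exact hy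
    · exact (hs s k).elim (fun r => r ▸ q) fun r => absurd p (disjoint_left.1 r hy)
  constructor
  · rintro ⟨a, b, c, d, h0, P, Q, h1, h2, h3, h4, h5, h6⟩
    have m : ∀ A B : Set V, (A ∩ B).Nonempty → (pr S ω '' A ∩ pr S ω '' B).Nonempty :=
      fun A B k => (k.image _).mono (image_inter_subset _ _ _)
    refine ⟨_, _, _, _, h0.map (image (pr S ω)), _, _, two_img hω hS h1 (h6 S hm), m _ _ h2,
      m _ _ h3, m _ _ h4, m _ _ h5, fun s k => ?_⟩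
    obtain ⟨t, ht, rfl⟩ := List.mem_map.1 k
    have q : ∀ A : Set V, Disjoint A t → Disjoint (pr S ω '' A) (pr S ω '' t) := fun A l =>
      img_dis hω l ((hs t ht).imp (fun r : t = S => r ▸ l) id)
    exact (h6 t ht).imp (q P) (q Q)
  · intro h
    have hd' : (LL.map (image (pr S ω))).Pairwise Disjoint := by
      rw [List.pairwise_map]
      refine hd.imp_of_mem fun {s t} p q r => disjoint_left.2 ?_
      rintro _ ⟨x, hx, rfl⟩ k
      exact disjoint_left.1 r hx (sat t q x k)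
    obtain ⟨a, b, c, d, h0, f, g, l, m, pf, pg, hl, hm', fa, fc, gb, gd, fg, fi, gi⟩ :=
      (nf V _ _).1 _ hd' h
    have ou : ω ∈ un (LL.map (image (pr S ω))) :=
      ⟨_, List.mem_map_of_mem hm, ω, hω, pr_in hω⟩
    obtain ⟨f', f1, f2⟩ := lift hω hl pf.2.1 fun i p q e => fi i p q (e ▸ ou)
    obtain ⟨g', g1, g2⟩ := lift hω hm' pg.2.1 fun i p q e => gi i p q (e ▸ ou)
    obtain ⟨l', h1, h2⟩ := List.sublist_map_iff.1 h0
    obtain ⟨a, l', rfl, rfl, h3⟩ := List.map_eq_cons_iff.1 h2.symm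
    obtain ⟨b, l', rfl, rfl, h4⟩ := List.map_eq_cons_iff.1 h3
    obtain ⟨c, l', rfl, rfl, h5⟩ := List.map_eq_cons_iff.1 h4
    obtain ⟨d, l', rfl, rfl, h6⟩ := List.map_eq_cons_iff.1 h5
    obtain rfl := List.map_eq_nil_iff.1 h6
    have ma : a ∈ LL := h1.subset (by simp)
    have mb : b ∈ LL := h1.subset (by simp)
    have mc : c ∈ LL := h1.subset (by simp)
    have md : d ∈ LL := h1.subset (by simp)
    have fa' : f' 0 ∈ a := sat a ma _ (by rwa [f2 0 l.zero_le])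
    have fc' : f' l ∈ c := sat c mc _ (by rwa [f2 l le_rfl])
    have gb' : g' 0 ∈ b := sat b mb _ (by rwa [g2 0 m.zero_le])
    have gd' : g' m ∈ d := sat d md _ (by rwa [g2 m le_rfl])
    refine ⟨a, b, c, d, h1, f' '' Icc 0 l, g' '' Icc 0 m, ⟨?_, ?_, f1, g1, disjoint_left.2 ?_⟩,
      ⟨_, ⟨0, ⟨le_rfl, l.zero_le⟩, rfl⟩, fa'⟩, ⟨_, ⟨l, ⟨l.zero_le, le_rfl⟩, rfl⟩, fc'⟩,
      ⟨_, ⟨0, ⟨le_rfl, m.zero_le⟩, rfl⟩, gb'⟩, ⟨_, ⟨m, ⟨m.zero_le, le_rfl⟩, rfl⟩, gd'⟩,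
      fun s hs => ?_⟩
    · rintro _ ⟨i, k, rfl⟩
      exact pre_mem hω hS (by rw [f2 i k.2]; exact pf.1 i k.2)
    · rintro _ ⟨i, k, rfl⟩
      exact pre_mem hω hS (by rw [g2 i k.2]; exact pg.1 i k.2)
    · rintro _ ⟨i, k, rfl⟩ ⟨j, k', e⟩
      exact fg i k.2 j k'.2 (by rw [← f2 i k.2, ← g2 j k'.2, e])
    · have same : ∀ t ∈ LL, ∀ x ∈ s, x ∈ t → s = t := fun t ht x p q => by
        by_contra n
        exact disjoint_left.1 (hd.forall hs ht n) p q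
      have key : ∀ (u u' : ℕ → V) (n : ℕ) (p q : Set V), p ∈ LL → q ∈ LL → u' 0 ∈ p → u' n ∈ q →
          (∀ i ≤ n, pr S ω (u' i) = u i) →
          (∀ i, 0 < i → i < n → u i ∉ un (LL.map (image (pr S ω)))) →
          ¬ Disjoint (u' '' Icc 0 n) s → s = p ∨ s = q := by
        intro u u' n p q mp mq e1 e2 e3 e4 k
        obtain ⟨_, ⟨i, hi, rfl⟩, k⟩ := not_disjoint_iff.1 k
        by_cases c1 : i = 0
        · exact Or.inl (same p mp _ k (c1 ▸ e1))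
        by_cases c2 : i = n
        · exact Or.inr (same q mq _ k (c2 ▸ e2))
        exact absurd ⟨_, List.mem_map_of_mem hs, _, k, e3 i hi.2⟩
          (e4 i (Nat.pos_of_ne_zero c1) (lt_of_le_of_ne hi.2 c2))
      by_contra n
      rw [not_or] at n
      have pw := hd.sublist h1
      simp only [List.pairwise_cons, List.mem_cons, List.not_mem_nil, or_false, forall_eq_or_imp,
        forall_eq] at pw
      rcases key f f' l a c ma mc fa' fc' f2 fi n.1 with p | p <;>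
        rcases key g g' m b d mb md gb' gd' g2 gi n.2 with q | q
      · exact disjoint_left.1 pw.1.1 fa' (p.symm.trans q ▸ fa')
      · exact disjoint_left.1 pw.1.2.2 fa' (p.symm.trans q ▸ fa')
      · exact disjoint_left.1 pw.2.1.1 (p.symm.trans q ▸ fc') fc'
      · exact disjoint_left.1 pw.2.2.1 fc' (p.symm.trans q ▸ fc')

end Ctr

open Ctr in
theorem ctrS (nf : NfS) : CtrS := by
  intro V H U S ω hω hS
  refine ⟨fun h u v e => ?_, fun P h k => img_meet (ω := ω) k ▸ conn_img h, fun P h => ?_,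
    fun P h1 h2 h3 h4 => ?_, fun L1 L2 h => ?_, fun L h1 h2 => ?_⟩
  · obtain ⟨x, y, e', rfl, -⟩ := adj_lift hω e
    exact img_sub hω hS subset_rfl (mem_image_of_mem _ (h x y e'))
  · have o : ω ∉ P := fun k => disjoint_left.1 h k hω
    refine ⟨fun k => img_out (ω := ω) h ▸ conn_img k, fun k => ?_⟩
    have := conn_pre hω (fun l => absurd l o) (fun v l => Or.inl (disjoint_left.1 h l)) k
    rwa [show pr S ω ⁻¹' P = P from ?_] at this
    ext x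
    by_cases c : x ∈ S
    · simp only [mem_preimage, pr_in c]
      exact ⟨fun l => absurd l o, fun l => absurd c (disjoint_left.1 h l)⟩
    · rw [mem_preimage, pr_out c]
  · have := conn_pre hω (fun _ => h1) (fun v l => by
      by_cases c : v = ω
      exacts [Or.inr c, Or.inl (disjoint_left.1 h2 ⟨l, c⟩)]) h4
    rwa [show pr S ω ⁻¹' P = P ∪ S from ?_] at this
    ext x
    by_cases c : x ∈ S
    · simp only [mem_preimage, pr_in c]
      exact ⟨fun _ => Or.inr c, fun _ => h3⟩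
    · rw [mem_preimage, pr_out c]
      exact ⟨Or.inl, fun l => l.resolve_right c⟩
  · obtain ⟨a, b⟩ := ports hω h
    rw [← b]
    exact px nf hω hS h (by simp) a
  · have fx : ∀ {l : List V}, List.Sublist l L → ∀ x ∈ l, pr S ω x = x := fun k x hx =>
      pr_out fun c => disjoint_left.1 h2 c (k.subset hx)
    constructor
    · rintro h ⟨a, b, c, d, h0, P, Q, t, ha, hc, hb, hd⟩
      have ok : ∀ A ⊆ U \ S ∪ {ω}, ∀ v ∈ A, v ∉ S ∨ v = ω := fun A k v l => (k l).imp (·.2) id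
      obtain ⟨⟨x, x1, x2⟩, y, y1, y2⟩ := h a b c d h0 (pr S ω ⁻¹' P) (pr S ω ⁻¹' Q)
        ⟨fun x k => pre_mem hω hS (t.sp k), fun x k => pre_mem hω hS (t.sq k),
          conn_pre hω (fun _ => h1) (ok P t.sp) t.cp, conn_pre hω (fun _ => h1) (ok Q t.sq) t.cq,
          t.dis.preimage _⟩
        (by rwa [mem_preimage, fx h0 a (by simp)]) (by rwa [mem_preimage, fx h0 c (by simp)])
        (by rwa [mem_preimage, fx h0 b (by simp)]) (by rwa [mem_preimage, fx h0 d (by simp)])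
      rw [mem_preimage, pr_in x2] at x1
      rw [mem_preimage, pr_in y2] at y1
      exact disjoint_left.1 t.dis x1 y1
    · intro h a b c d h0 P Q t ha hc hb hd
      by_contra n
      refine h ⟨a, b, c, d, h0, _, _, two_img hω hS t ?_, ⟨a, ha, fx h0 a (by simp)⟩,
        ⟨c, hc, fx h0 c (by simp)⟩, ⟨b, hb, fx h0 b (by simp)⟩, ⟨d, hd, fx h0 d (by simp)⟩⟩
      rw [not_and_or, not_nonempty_iff_eq_empty, not_nonempty_iff_eq_empty] at n
      exact n.imp disjoint_iff_inter_eq_empty.2 disjoint_iff_inter_eq_empty.2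

end Pool.Agent.MP_9d78a0_co.st

end MrgPart0

-- ======== part 1: formerly Pool.Agent.MP_9d78a0_co.st.Two
section MrgPart1

/-! The two paths theorem. -/

set_option autoImplicit false

namespace Pool.Agent.MP_9d78a0_co.st

open Set Function fb

namespace TwoP

variable {V : Type} {H : SimpleGraph V} {U : Set V}

open Classical in
theorem nd_of {l l' : List V} (h : l.Nodup) (k : ∀ x, l'.count x ≤ l.count x) : l'.Nodup :=
  List.nodup_iff_count_le_one.2 fun x => (k x).trans (List.nodup_iff_count_le_one.1 h x)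

theorem un_sg (L : List V) : un (sg L) = ls L := by
  ext v
  simp [un, sg, ls]

theorem one {N : List V} (h : Soc H U N) (h1 : N.length ≤ 3) (h2 : ∀ x y, N = [x, y] → Link H U x y)
    (h3 : N.length = 3 → ∃ K ⊆ U \ ls N, Conn H K ∧ ∀ x ∈ N, ∃ y ∈ K, H.Adj x y) :
    Drawn H U [N] 0 0 0 := by
  refine ⟨[⟨H, U, N, .cell⟩], Dr.new _, ⟨by simp, by simp, by simp [Vc]⟩, fun c hc => ?_, by simp⟩
  obtain rfl := List.mem_singleton.1 hc
  exact ⟨h, fun _ => h1, fun _ => h2, fun _ => h3, nofun, nofun⟩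

theorem self_lk {S A : Set V} {x : V} (h : x ∈ S) (h' : x ∈ A) : x ∈ lk H S A :=
  ⟨h, x, h', h, Link.refl _ _ _⟩

theorem res_le : res H U ≤ H := fun _ _ k => k.1

theorem split (ht : Tight H U) {S A : Set V} (hS : S ⊆ U) :
    Split H (res H (U \ lk H (U \ S) A)) (H \ res H (U \ lk H (U \ S) A)) U (U \ lk H (U \ S) A)
      (lk H (U \ S) A ∪ S) S := by
  refine ⟨sup_sdiff_cancel_right res_le, disjoint_sdiff_self_right, fun _ _ k => k.2.1,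
    fun u v k => ?_, ?_, ?_⟩
  · by_contra c
    have hu : u ∈ U \ S := ⟨ht _ _ k.1, fun l => c (Or.inr l)⟩
    exact k.2 ⟨k.1, ⟨hu.1, fun l => c (Or.inl l)⟩, ht _ _ k.1.symm, fun ⟨l1, a, l2, l3, l4⟩ =>
      c (Or.inl ⟨hu, a, l2, l3, l4.trans (Link.single l1 hu k.1.symm)⟩)⟩
  · rw [← union_assoc, sdiff_union_of_subset fun _ k => k.1.1, union_eq_self_of_subset_right hS]
  · exact subset_antisymm (fun _ k => k.2.resolve_left k.1.2) fun x k =>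
      ⟨⟨hS k, fun l => l.1.2 k⟩, Or.inr k⟩

theorem cr_mono {H' : SimpleGraph V} {U' : Set V} {L L' : List V} (h : H' ≤ H) (h' : U' ⊆ U)
    (hl : L'.Sublist L) (k : Cr H' U' L') : Cr H U L :=
  let ⟨a, b, c, d, k1, P, Q, k2, k3⟩ := k
  ⟨a, b, c, d, k1.trans hl, P, Q,
    ⟨k2.sp.trans h', k2.sq.trans h', pl.conn_mono k2.cp h, pl.conn_mono k2.cq h, k2.dis⟩, k3⟩

theorem soc_rot {L L' : List V} (h : Soc H U L) (r : L ~r L') : Soc H U L' :=
  ⟨h.tight, r.nodup_iff.1 h.nd, fun x k => h.sub x (r.mem_iff.2 k)⟩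

variable [Finite V]

/-- the statement for all smaller societies -/
def Less (H : SimpleGraph V) (U : Set V) : Prop :=
  ∀ (H' : SimpleGraph V) (U' : Set V) (L : List V),
    U'.ncard + H'.edgeSet.ncard < U.ncard + H.edgeSet.ncard → Soc H' U' L → ¬ Cr H' U' L →
    Drawn H' U' [L] 0 0 0

theorem lt_of {H' : SimpleGraph V} {U' : Set V} (h : H' ≤ H) (h' : U' ⊆ U) {x : V} (hx : x ∈ U)
    (hx' : x ∉ U') : U'.ncard + H'.edgeSet.ncard < U.ncard + H.edgeSet.ncard :=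
  add_lt_add_of_lt_of_le (ncard_lt_ncard ⟨h', fun k => hx' (k hx)⟩ (toFinite _))
    (ncard_le_ncard (SimpleGraph.edgeSet_mono h) (toFinite _))

omit [Finite V] in
theorem rot (kit : KitS) {L L' : List V} (r : L ~r L') (h : Drawn H U [L] 0 0 0) :
    Drawn H U [L'] 0 0 0 := (kit V 0).2.1 H U L L' [] 0 0 h (Or.inr (Or.inl r))

omit [Finite V] in
theorem join (kit : KitS) {H1 H2 : SimpleGraph V} {U1 U2 S : Set V} (s : Split H H1 H2 U U1 U2 S)
    (Y A B : List V) (h : S ⊆ ls Y) (n : (Y ++ A ++ B).Nodup) (h1 : Drawn H1 U1 [Y ++ A] 0 0 0)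
    (h2 : Drawn H2 U2 [Y.reverse ++ B] 0 0 0) : Drawn H U [lt Y ++ A ++ hd Y ++ B] 0 0 0 :=
  ((kit V 0).2.2.2.2 H H1 H2 U U1 U2 S [] [] 0 0 0 0 Y [] A B [] [] s).2.1 h n h1 h2

theorem cut (nf : NfS) (cu : CutPS) (kit : KitS) (ih : Less H U) {a b : V} {A1 A2 : List V}
    {Q : Set V} (h : Soc H U (a :: A1 ++ b :: A2)) (hc : ¬ Cr H U (a :: A1 ++ b :: A2)) (q1 : Q ⊆ U)
    (q2 : Conn H Q) (q3 : a ∈ Q) (q4 : b ∈ Q) (q5 : Disjoint Q (ls A1)) (q6 : Disjoint Q (ls A2))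
    (n1 : A1 ≠ []) (n2 : A2 ≠ []) : Drawn H U [a :: A1 ++ b :: A2] 0 0 0 := by
  classical
  have e : ∀ (x y : V) (A B : List V), {x} :: sg A ++ {y} :: sg B = sg (x :: A ++ y :: B) := by
    simp [sg]
  obtain ⟨Y, H1, H2, U1, U2, s, y1, y2, y3, y4, -, y5, y6⟩ := cu V H U Q _ _ {a} {b} (sg A1) (sg A2)
    h.tight (by rw [e, sg, List.pairwise_map]; exact h.nd.imp disjoint_singleton.2)
    (by rw [e, un_sg]; exact h.sub) q1 q2 ⟨a, q3, rfl⟩ ⟨b, q4, rfl⟩ (by rwa [un_sg])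
    (by rwa [un_sg]) rfl rfl (by rwa [e, ← (nf V H U).2.1])
  rw [e, ← (nf V _ _).2.1] at y5 y6
  rw [un_sg, show Q ∪ {a} ∪ {b} = Q by simp [q3, q4]] at y3 y4
  have m1 : ∀ x ∈ A1, x ∈ U1 \ U2 := fun x k =>
    y3 (self_lk ⟨h.sub x (by simp [k]), disjoint_right.1 q5 k⟩ k)
  have m2 : ∀ x ∈ A2, x ∈ U2 \ U1 := fun x k =>
    y4 (self_lk ⟨h.sub x (by simp [k]), disjoint_right.1 q6 k⟩ k)
  have m3 : ∀ x, x = a ∨ x = b ∨ x ∈ Y → x ∈ U1 ∩ U2 := fun x k => by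
    rw [s.int]
    simp only [ls, mem_union, mem_singleton_iff, mem_ofPred_eq]
    tauto
  have nd : (a :: A1 ++ b :: A2 ++ Y).Nodup := h.nd.append y1 fun x k l => by
    have := m3 x (Or.inr (Or.inr l))
    have := disjoint_left.1 y2 (show x ∈ ls Y from l)
    have := m1 x
    have := m2 x
    grind
  obtain ⟨x1, k1⟩ := List.exists_mem_of_ne_nil _ n1
  obtain ⟨x2, k2⟩ := List.exists_mem_of_ne_nil _ n2
  have d1 := ih H1 U1 _ (lt_of (s.sup ▸ le_sup_left) (subset_union_left.trans s.un.subset)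
    (h.sub x2 (by simp [k2])) (m2 x2 k2).2) ⟨s.t1, nd_of nd fun x => by
      simp only [List.count_append, List.count_cons, List.count_reverse]; omega, fun x k => by
      have := m1 x; have := m3 x; grind⟩ y5
  have d2 := ih H2 U2 _ (lt_of (s.sup ▸ le_sup_right) (subset_union_right.trans s.un.subset)
    (h.sub x1 (by simp [k1])) (m1 x1 k1).2) ⟨s.t2, nd_of nd fun x => by
      simp only [List.count_append, List.count_cons]; omega, fun x k => by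
      have := m2 x; have := m3 x; grind⟩ y6
  have := join kit s (b :: Y.reverse ++ [a]) A1 A2 (fun x k => by simp [ls] at k ⊢; tauto)
    (nd_of nd fun x => by
      simp only [List.count_append, List.count_cons, List.count_reverse, List.count_nil]; omega)
    (by simpa using rot kit List.isRotated_append d1) (by simpa using rot kit List.isRotated_append d2)
  rwa [show lt (b :: Y.reverse ++ [a]) = [a] by rw [lt, List.getLast?_concat]; rfl,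
    show hd (b :: Y.reverse ++ [a]) = [b] from rfl, List.append_assoc] at this

theorem near (nf : NfS) (cu : CutPS) (kit : KitS) (ih : Less H U) {u v : V} {B : List V}
    {Q : Set V} (h : Soc H U (u :: v :: B)) (hc : ¬ Cr H U (u :: v :: B)) (q1 : Q ⊆ U)
    (q2 : Conn H Q) (q3 : u ∈ Q) (q4 : v ∈ Q) (q5 : Disjoint Q (ls B)) :
    Drawn H U [u :: v :: B] 0 0 0 := by
  classical
  have nd := h.nd
  simp only [List.nodup_cons, List.mem_cons, not_or] at nd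
  have hS : ({u, v} : Set V) ⊆ U := pair_subset (q1 q3) (q1 q4)
  have s := split (A := ls B) h.tight hS
  have hB : ∀ x ∈ B, x ∈ lk H (U \ {u, v}) (ls B) := fun x k =>
    self_lk ⟨h.sub x (by simp [k]), by grind⟩ k
  have hu : u ∈ U \ lk H (U \ {u, v}) (ls B) := ⟨q1 q3, fun k => k.1.2 (by simp)⟩
  have hv : v ∈ U \ lk H (U \ {u, v}) (ls B) := ⟨q1 q4, fun k => k.1.2 (by simp)⟩
  by_cases c0 : Link H (U \ lk H (U \ {u, v}) (ls B)) u v
  · have c' : Link (res H (U \ lk H (U \ {u, v}) (ls B))) (U \ lk H (U \ {u, v}) (ls B)) u v :=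
      Link.map id (fun x hx y hy k => Link.single hx hy (show (res _ _).Adj x y from ⟨k, hx, hy⟩)) c0
    obtain ⟨x, y, -, -, -, -, k, -⟩ := link_exit (T := {u}) c' rfl (Ne.symm nd.1.1)
    refine join kit s [v, u] [] B (fun x k => by simp [ls] at k ⊢; tauto) (nd_of h.nd fun x => by
      simp only [List.count_append, List.count_cons, List.count_nil]; omega)
      (one ⟨s.t1, by simpa using Ne.symm nd.1.1, by simpa using ⟨hv, hu⟩⟩ (by simp) ?_ (by simp))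
      (ih _ _ _ (add_lt_add_of_le_of_lt (ncard_le_ncard (subset_union_right.trans s.un.subset) (toFinite _))
        (ncard_lt_ncard ⟨SimpleGraph.edgeSet_mono sdiff_le, fun l => ?_⟩ (toFinite _)))
        ⟨s.t2, h.nd, fun x k => ?_⟩ fun k => hc (cr_mono sdiff_le (subset_union_right.trans s.un.subset)
          (List.Sublist.refl _) k))
    · intro x y e
      obtain ⟨rfl, rfl⟩ : v = x ∧ u = y := by simpa using e
      exact c'.symm
    · exact (show (H \ _).Adj x y from l (show s(x, y) ∈ H.edgeSet from k.1)).2 k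
    · have := hB x
      simp at k
      grind
  obtain ⟨f, l, ⟨f1, f2, f3⟩, f4, f5⟩ := link_path (q2.2 u q3 v q4) q3
  obtain ⟨i, i1, i2⟩ : ∃ i ≤ l, f i ∈ lk H (U \ {u, v}) (ls B) := by
    by_contra d
    push Not at d
    refine c0 (((conn_seg l.zero_le fun i _ k => f2 i k).2 u ⟨0, by simp, f4⟩ v
      ⟨l, by simp, f5⟩).mono ?_)
    rintro _ ⟨i, k, rfl⟩
    exact ⟨q1 (f1 i k.2), d i k.2⟩
  have i3 : i ≠ 0 := fun e => hu.2 (by rwa [e, f4] at i2)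
  have i4 : i ≠ l := fun e => hv.2 (by rwa [e, f5] at i2)
  obtain ⟨-, z, z1, -, z2⟩ := i2
  obtain ⟨x, c, x1, -, x2, c2, x3, x4⟩ := link_exit (T := (ls B)ᶜ) z2.symm
    (disjoint_left.1 q5 (f1 i i1)) (not_not.2 z1)
  have k0 : f '' Icc 1 (l - 1) ⊆ U \ {u, v} ∩ (ls B)ᶜ := by
    rintro _ ⟨j, k, rfl⟩
    have := k.1
    have := k.2
    refine ⟨⟨q1 (f1 j (by omega)), ?_⟩, disjoint_left.1 q5 (f1 j (by omega))⟩
    rintro (e | e)
    · have := f3 j (by omega) 0 (by omega) (e.trans f4.symm)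
      omega
    · have := f3 j (by omega) l le_rfl (e.trans f5.symm)
      omega
  have k1 : f i ∈ f '' Icc 1 (l - 1) := ⟨i, ⟨by omega, by omega⟩, rfl⟩
  have k2 := conn_sub_cp (conn_seg (by omega) fun j _ _ => f2 j (by omega)) k0 k1 (cp_self (k0 k1))
  have k3 := cp_conn (G := H) (k0 k1)
  have k4 : x ∈ cp H (U \ {u, v} ∩ (ls B)ᶜ) (f i) := ⟨⟨x1, x2⟩, x4⟩
  have k5 : cp H (U \ {u, v} ∩ (ls B)ᶜ) (f i) ⊆ _ := cp_sub
  generalize cp H (U \ {u, v} ∩ (ls B)ᶜ) (f i) = K at *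
  have a1 : ∃ y ∈ K, H.Adj u y := ⟨f 1, k2 ⟨1, ⟨le_rfl, by omega⟩, rfl⟩, f4 ▸ f2 0 (by omega)⟩
  have a2 : ∃ y ∈ K, H.Adj v y := ⟨f (l - 1), k2 ⟨_, ⟨by omega, le_rfl⟩, rfl⟩, by
    have := f2 (l - 1) (by omega)
    rw [show l - 1 + 1 = l by omega, f5] at this
    exact this.symm⟩
  obtain ⟨B1, B2, rfl⟩ := List.append_of_mem (show c ∈ B from not_not.1 c2)
  have hK : ∀ w ∈ K, w ∈ U ∧ w ≠ u ∧ w ≠ v ∧ w ∉ B1 ∧ w ≠ c ∧ w ∉ B2 := fun w k => by
    simpa [ls, and_assoc] using k5 k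
  have nd' := List.nodup_append.1 nd.2.2
  have sub : ∀ w ∈ u :: v :: (B1 ++ c :: B2), insert w (insert c K) ⊆ U := fun w k =>
    insert_subset (h.sub w k) (insert_subset (h.sub c (by simp)) fun y k => (hK y k).1)
  have con : ∀ w, (∃ y ∈ K, H.Adj w y) → Conn H (insert w (insert c K)) := fun w ⟨y, k, k'⟩ =>
    (k3.insert k4 x3.symm).insert (Or.inr k) k'
  by_cases e2 : B2 = []
  · subst e2
    by_cases e1 : B1 = []
    · subst e1
      refine one h (by simp) (by simp) fun _ => ⟨K, fun w k => ⟨(hK w k).1, ?_⟩, k3, ?_⟩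
      · simpa [ls] using (hK w k).2
      · simpa using ⟨a1, a2, x, k4, x3.symm⟩
    · have r : (u :: v :: (B1 ++ [c])) ~r (v :: B1 ++ c :: [u]) := by
        simpa using List.isRotated_append (l := [u]) (l' := v :: (B1 ++ [c]))
      exact rot kit r.symm (cut nf cu kit ih (soc_rot h r)
        (fun k => hc ((nf V H U).2.2.2.2.1 _ _ r.symm k)) (sub v (by simp)) (con v a2) (by simp)
        (by simp) (disjoint_left.2 fun w k (l : w ∈ B1) => by have := hK w; grind)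
        (disjoint_left.2 fun w k (l : w ∈ [u]) => by have := hK w; grind) e1 (by simp))
  · exact cut (A1 := v :: B1) nf cu kit ih h hc (sub u (by simp)) (con u a1) (by simp) (by simp)
      (disjoint_left.2 fun w k (l : w ∈ v :: B1) => by have := hK w; grind)
      (disjoint_left.2 fun w k (l : w ∈ B2) => by have := hK w; grind) (by simp) e2

theorem step (nf : NfS) (cu : CutPS) (kit : KitS) (ih : Less H U) {L : List V} (h : Soc H U L)
    (hc : ¬ Cr H U L) : Drawn H U [L] 0 0 0 := by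
  rcases L with _ | ⟨a, B⟩
  · exact one h (by simp) (by simp) (by simp)
  have nd := List.nodup_cons.1 h.nd
  have ha : a ∈ U := h.sub a (by simp)
  by_cases c : a ∈ lk H (U \ ∅) (ls B)
  · obtain ⟨-, z, z1, -, z2⟩ := c
    rw [sdiff_empty] at z2
    obtain ⟨x, b, x1, b1, x2, b2, x3, x4⟩ := link_exit (T := (ls B)ᶜ) z2.symm nd.1 (not_not.2 z1)
    have q0 : a ∈ U ∩ (ls B)ᶜ := ⟨ha, nd.1⟩
    have q1 : insert b (cp H (U ∩ (ls B)ᶜ) a) ⊆ U := insert_subset b1 fun _ k => k.1.1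
    have q2 := (cp_conn (G := H) q0).insert ⟨⟨x1, x2⟩, x4⟩ x3.symm
    have q3 : a ∈ insert b (cp H (U ∩ (ls B)ᶜ) a) := Or.inr (cp_self q0)
    have q4 : ∀ w ∈ insert b (cp H (U ∩ (ls B)ᶜ) a), w = b ∨ w ∉ B := fun w k =>
      k.imp id fun l => l.1.2
    have q5 := mem_insert b (cp H (U ∩ (ls B)ᶜ) a)
    generalize insert b (cp H (U ∩ (ls B)ᶜ) a) = Q at *
    obtain ⟨A1, A2, rfl⟩ := List.append_of_mem (show b ∈ B from not_not.1 b2)
    have nd' := List.nodup_append.1 nd.2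
    have d1 : Disjoint Q (ls A1) := disjoint_left.2 fun w k (l : w ∈ A1) => by
      have := q4 w k; grind
    have d2 : Disjoint Q (ls A2) := disjoint_left.2 fun w k (l : w ∈ A2) => by
      have := q4 w k; grind
    by_cases e1 : A1 = []
    · subst e1
      exact near nf cu kit ih h hc q1 q2 q3 q5 d2
    by_cases e2 : A2 = []
    · subst e2
      have r : (a :: (A1 ++ [b])) ~r (b :: a :: A1) := List.isRotated_concat b (a :: A1)
      exact rot kit r.symm (near nf cu kit ih (soc_rot h r)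
        (fun k => hc ((nf V H U).2.2.2.2.1 _ _ r.symm k)) q1 q2 q5 q3 d1)
    exact cut nf cu kit ih h hc q1 q2 q3 q5 d1 d2 e1 e2
  · have s := split (A := ls B) h.tight (empty_subset U)
    exact join kit s [] [a] B (empty_subset _) h.nd
      (one ⟨s.t1, by simp, by simpa using ⟨ha, by simpa using c⟩⟩ (by simp) (by simp) (by simp))
      (ih _ _ _ (lt_of sdiff_le (subset_union_right.trans s.un.subset) ha fun k => k.elim c id)
        ⟨s.t2, nd.2, fun x k => Or.inl (self_lk ⟨h.sub x (List.mem_cons_of_mem _ k), id⟩ k)⟩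
        fun k => hc (cr_mono sdiff_le (subset_union_right.trans s.un.subset) (List.sublist_cons_self _ _) k))

end TwoP

theorem twoS : NfS → CutPS → KitS → TwoS := by
  intro nf cu kit V _ H U L
  generalize e : U.ncard + H.edgeSet.ncard = n
  induction n using Nat.strong_induction_on generalizing H U L with
  | _ n ih => exact TwoP.step nf cu kit fun H' U' L' k => ih _ (e ▸ k) H' U' L' rfl

end Pool.Agent.MP_9d78a0_co.st

end MrgPart1

-- ======== part 2: formerly Pool.Agent.MP_9d78a0_co.st.SM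
section MrgPart2

/-! The structure theorem: the recursion on collars. -/

set_option autoImplicit false

namespace Pool.Agent.MP_9d78a0_co.st

open Set Function fb

/-- finished items and pending zones -/
structure XD (V : Type) where
  m : ℕ
  W : ℕ → Set V
  lo : ℕ → ℕ
  hi : ℕ → ℕ
  ex : ℕ → ℕ
  b : ℕ
  Z : ℕ → Set V
  E : ℕ → Set V
  zl : ℕ → ℕ
  zh : ℕ → ℕ
  zu : ℕ → ℕ

section defs

variable {V : Type}

/-- a collar whose columns end in root positions -/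
structure Sit (G H : SimpleGraph V) (h n : ℕ) (Ur U : Set V) (ob : ℕ → V) (Ω : List V) (c : CD V)
    (π : ℕ → ℕ) : Prop where
  univ : Univ G h n Ur ob
  le : H ≤ G
  col : Col H U Ω c
  mono : ∀ i j, i < j → j < c.t → π i < π j
  pos : ∀ i < c.t, c.o i = ob (π i) ∧ h * h ≤ π i ∧ π i < n
  core : c.Core H U ⊆ Ur

/-- items and zones lie outside `U`, their positions outside `[p, p']`; each zone touches `I` -/
structure Ctx (G : SimpleGraph V) (h n K : ℕ) (Ur U I : Set V) (ob : ℕ → V) (p p' : ℕ)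
    (x : XD V) : Prop where
  item : ∀ s < x.m, Item G ob K (x.W s) (x.lo s) (x.hi s) (x.ex s) ∧ x.W s ⊆ Ur \ U ∧
    h * h ≤ x.lo s ∧ x.hi s < n ∧ h * h ≤ x.ex s ∧ x.ex s < n ∧
    Disjoint (Icc (x.lo s) (x.hi s)) (Icc p p') ∧ x.ex s ∉ Icc p p'
  idis : ∀ s < x.m, ∀ t < x.m, s ≠ t → Disjoint (x.W s) (x.W t) ∧
    Disjoint (Icc (x.lo s) (x.hi s)) (Icc (x.lo t) (x.hi t)) ∧ x.ex s ∉ Icc (x.lo t) (x.hi t) ∧
    x.ex s ≠ x.ex t
  zone : ∀ i < x.b, Pins G ob K (x.Z i) (x.zl i) (x.zh i) (x.zu i) (x.zu i) ∧ Conn G (x.E i) ∧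
    ob (x.zu i) ∈ x.E i ∧ Disjoint (x.Z i) (x.E i) ∧ x.Z i ∪ x.E i ⊆ Ur \ U ∧ Touch G (x.E i) I ∧
    h * h ≤ x.zl i ∧ x.zh i < n ∧ Disjoint (Icc (x.zl i) (x.zh i)) (Icc p p')
  zdis : ∀ i < x.b, ∀ j < x.b, i ≠ j → Disjoint (x.Z i ∪ x.E i) (x.Z j ∪ x.E j) ∧
    Disjoint (Icc (x.zl i) (x.zh i)) (Icc (x.zl j) (x.zh j))
  mix : ∀ s < x.m, ∀ i < x.b, Disjoint (x.W s) (x.Z i ∪ x.E i) ∧
    Disjoint (Icc (x.lo s) (x.hi s)) (Icc (x.zl i) (x.zh i)) ∧ x.ex s ∉ Icc (x.zl i) (x.zh i)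

/-- after the deletion of at most `α` vertices the society is drawn -/
def Done (H : SimpleGraph V) (U : Set V) (ws : List (List V)) (α q d γ : ℕ) : Prop :=
  ∃ A : Set V, A.ncard ≤ α ∧ Drawn (res H (U \ A)) (U \ A) (ws.map (del A)) γ q d

end defs

/-- a collar of size `s, t` with `m` items and `b` zones is drawn within the bound `α` -/
def MainAt (h K m b s t α : ℕ) : Prop :=
  ∀ (V : Type) [Finite V] (G H : SimpleGraph V) (n : ℕ) (Ur U : Set V) (ob : ℕ → V) (Ω : List V)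
    (c : CD V) (π : ℕ → ℕ) (x : XD V), Sit G H h n Ur U ob Ω c π → s ≤ c.s → t ≤ c.t →
    Ctx G h n K Ur U c.I ob (π 0) (π (c.t - 1)) x → m ≤ x.m → b ≤ x.b → Done H U [Ω] α α α α

/-- a big collar with universal columns is drawn -/
def MainS : Prop :=
  ∀ h, ∃ s t α : ℕ, ∀ (V : Type) [Finite V] (G H : SimpleGraph V) (n : ℕ) (Ur U : Set V)
    (ob : ℕ → V) (Ω : List V) (c : CD V) (π : ℕ → ℕ), Sit G H h n Ur U ob Ω c π → s ≤ c.s →
    t ≤ c.t → Done H U [Ω] α α α α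

end Pool.Agent.MP_9d78a0_co.st

end MrgPart2

-- ======== part 3: formerly Pool.Agent.MP_9d78a0_co.st.SN
section MrgPart3

/-! The structure theorem: contexts, two children, the ends of the recursion, bands. -/

set_option autoImplicit false

namespace Pool.Agent.MP_9d78a0_co.st

open Set Function fb

section defs

variable {V : Type}

/-- all four bounds equal -/
def Dn (H : SimpleGraph V) (U : Set V) (ws : List (List V)) (α : ℕ) : Prop := Done H U ws α α α α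

/-- a drawing of the second society gives one of the first -/
def Asm (H : SimpleGraph V) (U : Set V) (ws : List (List V)) (H' : SimpleGraph V) (U' : Set V)
    (ws' : List (List V)) (N : ℕ) : Prop := ∀ α, Dn H' U' ws' α → Dn H U ws (α + N)

/-- two disjoint children; `D` touches both hubs -/
structure Kids (G : SimpleGraph V) (h n : ℕ) (Ur U : Set V) (ob : ℕ → V) (p p' b : ℕ)
    (E : ℕ → Set V) (D : Set V) (H' : Fin 2 → SimpleGraph V) (U' : Fin 2 → Set V)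
    (Ω : Fin 2 → List V) (c : Fin 2 → CD V) (π : Fin 2 → ℕ → ℕ) : Prop where
  sit : ∀ i, Sit G (H' i) h n Ur (U' i) ob (Ω i) (c i) (π i) ∧ U' i ⊆ U ∧ p ≤ π i 0 ∧
    π i ((c i).t - 1) ≤ p'
  dis : Disjoint (U' 0) (U' 1) ∧ π 0 ((c 0).t - 1) < π 1 0
  del : D ⊆ (U ∩ Ur) \ (U' 0 ∪ U' 1) ∧ ∀ z ∈ D, ∀ i, Touch G {z} (c i).I
  pend : ∀ j < b, (∃ i, Touch G (E j) (c i).I) ∨
    ∃ S ⊆ (U ∩ Ur) \ (U' 0 ∪ U' 1), Conn G S ∧ Touch G (E j) S ∧ (S ∩ D).Nonempty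
  xing : D = ∅ → ∀ i, Cr (H' i) (U' i) (Ω i)

/-- a crooked system of chords through the hub whose members `0, …, M` form a band on consecutive
columns, with `t` free columns after each side -/
structure Bnd (H : SimpleGraph V) (c : CD V) (M t uA uB : ℕ) (up : Bool) (m : ℕ) (x y : ℕ → ℕ)
    (J : ℕ → Set V) : Prop where
  dst : Dst m x y
  crook : Crook m x y
  ch : ∀ e < m, x e < c.t ∧ y e < c.t ∧ J e ⊆ c.I ∧ Conn H (J e) ∧ Thin H (J e) ∧
    Touch H (J e) (c.C 0 (x e)) ∧ Touch H (J e) (c.C 0 (y e))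
  dis : ∀ e < m, ∀ e' < m, e ≠ e' → Disjoint (J e) (J e')
  band : M < m ∧ ∀ e ≤ M, x e = uA + e ∧ y e = if up then uB + e else uB + M - e
  gap : uA + M + t < uB ∧ uB + M + t < c.t

/-- what lies outside the hub and is linked there to a letter or a column -/
def CD.Out (c : CD V) (H : SimpleGraph V) (U : Set V) (Ω : List V) : Set V :=
  lk H (U \ c.I) (ls Ω ∪ c.cols)

/-- two collars in one graph whose outsides are apart -/
structure Dbl (G H : SimpleGraph V) (h n : ℕ) (Ur U : Set V) (ob : ℕ → V) (Ω : Fin 2 → List V)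
    (c : Fin 2 → CD V) (π : Fin 2 → ℕ → ℕ) : Prop where
  univ : Univ G h n Ur ob
  le : H ≤ G
  col : ∀ i, Col H U (Ω i) (c i)
  mono : ∀ i a b, a < b → b < (c i).t → π i a < π i b
  pos : ∀ i, ∀ a < (c i).t, (c i).o a = ob (π i a) ∧ h * h ≤ π i a ∧ π i a < n
  ord : π 0 ((c 0).t - 1) < π 1 0
  lev : (c 0).s = (c 1).s
  out : Disjoint ((c 0).Out H U (Ω 0)) ((c 1).Out H U (Ω 1)) ∧
    ¬ Touch H ((c 0).Out H U (Ω 0)) ((c 1).Out H U (Ω 1)) ∧
    U ⊆ ((c 0).I ∩ (c 1).I) ∪ (c 0).Out H U (Ω 0) ∪ (c 1).Out H U (Ω 1)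
  core : (c 0).Core H U ∩ (c 1).Core H U ⊆ Ur

/-- a band between the first `M + 1` columns of two collars -/
structure Bnd2 (H : SimpleGraph V) (c : Fin 2 → CD V) (M t : ℕ) (up : Bool) (J : ℕ → Set V) :
    Prop where
  ch : ∀ e ≤ M, J e ⊆ (c 0).I ∩ (c 1).I ∧ Conn H (J e) ∧ Thin H (J e) ∧
    Touch H (J e) ((c 0).C 0 e) ∧ Touch H (J e) ((c 1).C 0 (if up then e else M - e))
  dis : ∀ e ≤ M, ∀ e' ≤ M, e ≠ e' → Disjoint (J e) (J e')
  gap : ∀ i, M + t < (c i).t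

end defs

/-- `Q` items are impossible -/
def JgAt (h K Q : ℕ) : Prop :=
  ∀ (V : Type) (G : SimpleGraph V) (n : ℕ) (Ur : Set V) (ob : ℕ → V)
    (W : ℕ → Set V) (lo hi ex : ℕ → ℕ), Univ G h n Ur ob →
    (∀ s < Q, Item G ob K (W s) (lo s) (hi s) (ex s) ∧ W s ⊆ Ur ∧ h * h ≤ lo s ∧ hi s < n ∧
      h * h ≤ ex s ∧ ex s < n) →
    (∀ s < Q, ∀ t < Q, s ≠ t → Disjoint (W s) (W t) ∧
      Disjoint (Icc (lo s) (hi s)) (Icc (lo t) (hi t)) ∧ ex s ∉ Icc (lo t) (hi t) ∧ ex s ≠ ex t) →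
    False

/-- operations on finished societies -/
def DoneS : Prop :=
  ∀ (V : Type) [Finite V] (H : SimpleGraph V) (U : Set V) (α : ℕ),
    (∀ ws α', Dn H U ws α → α ≤ α' → Dn H U ws α') ∧
    (∀ w w' ws, Dn H U (w :: ws) α →
      List.Sublist w' w ∨ List.IsRotated w w' ∨ w' = w.reverse → Dn H U (w' :: ws) α) ∧
    (∀ ws ws', Dn H U ws α → List.Perm ws ws' → Dn H U ws' α) ∧
    (∀ L, Soc H U L → ¬ Cr H U L → Dn H U [L] α) ∧
    (∀ L, Soc H U L → Drawn H U [L] 0 1 α → Dn H U [L] (α + 1)) ∧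
    (∀ (Y U1 : Set V) (y : ℕ) ws, Y.ncard ≤ y → U1 ⊆ U \ Y →
      (∀ u ∈ U1, ∀ v ∈ U \ Y, H.Adj u v → v ∈ U1) →
      Dn (res H U1) U1 (ws.map (del Y)) α → Dn H U ws (α + y)) ∧
    (∀ (Y U1 U2 : Set V) (y : ℕ) w1 w2, Y.ncard ≤ y → U1 ∪ U2 ⊆ U \ Y → Disjoint U1 U2 →
      (∀ u ∈ U1, ∀ v ∈ U \ Y, H.Adj u v → v ∈ U1) → (∀ u ∈ U2, ∀ v ∈ U \ Y, H.Adj u v → v ∈ U2) →
      ls w1 ⊆ U1 → ls w2 ⊆ U2 → Dn (res H U1) U1 [w1] α → Dn (res H U2) U2 [w2] α → Dn H U [w1, w2] (2 * α + y)) ∧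
    ∀ (Ω : List V) (c : CD V), Col H U Ω c →
      Col (res H (lk H U (ls Ω))) (lk H U (ls Ω)) Ω c ∧
      c.Core (res H (lk H U (ls Ω))) (lk H U (ls Ω)) = c.Core H U ∧
      lk (res H (lk H U (ls Ω))) (lk H U (ls Ω)) (ls Ω) = lk H U (ls Ω)

/-- operations on contexts -/
def CtxS : Prop :=
  ∀ (V : Type) (G : SimpleGraph V) (h n K : ℕ) (Ur U I U1 I1 : Set V) (ob : ℕ → V)
    (p p' q q' : ℕ) (x : XD V), 0 < K → Ctx G h n K Ur U I ob p p' x → U1 ⊆ U → p ≤ q →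
    q' ≤ p' →
    (∀ b ≤ x.b, (∀ i < b, Touch G (x.E i) I1) → Ctx G h n K Ur U1 I1 ob q q' { x with b := b }) ∧
    (∀ W lo hi ex, Item G ob K W lo hi ex → W ⊆ (U ∩ Ur) \ U1 → p ≤ lo → hi ≤ p' → p ≤ ex →
      ex ≤ p' → h * h ≤ lo → hi < n → h * h ≤ ex → ex < n → Disjoint (Icc lo hi) (Icc q q') →
      ex ∉ Icc q q' → ∃ x' : XD V, x'.m = x.m + 1 ∧ Ctx G h n K Ur U1 I1 ob q q' x') ∧
    (∀ i < x.b, ∀ S ex, S ⊆ (U ∩ Ur) \ U1 → Conn G S → Touch G (x.E i) S → ob ex ∈ S → p ≤ ex →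
      ex ≤ p' → h * h ≤ ex → ex < n → ex ∉ Icc q q' →
      ∃ x' : XD V, x'.m = x.m + 1 ∧ Ctx G h n K Ur U1 I1 ob q q' x') ∧
    (∀ i < x.b, ∀ j < x.b, i ≠ j → ∀ S, S ⊆ (U ∩ Ur) \ U1 → Conn G S → Touch G (x.E i) S →
      Touch G (x.E j) S → ∃ x' : XD V, x'.m = x.m + 1 ∧ Ctx G h n K Ur U1 I1 ob q q' x') ∧
    ∀ Z E zl zh zu, Pins G ob K Z zl zh zu zu → Conn G E → ob zu ∈ E → Disjoint Z E →
      Z ∪ E ⊆ (U ∩ Ur) \ U1 → p ≤ zl → zh ≤ p' → h * h ≤ zl → zh < n →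
      Disjoint (Icc zl zh) (Icc q q') → Touch G E I1 → (∀ i < x.b, Touch G (x.E i) I1) →
      ∃ x' : XD V, x'.m = x.m ∧ x'.b = x.b + 1 ∧ Ctx G h n K Ur U1 I1 ob q q' x'

/-- a cross in a big collar is an item -/
def OneS : Prop :=
  ∀ K, 0 < K → ∃ s t, ∀ (V : Type) [Finite V] (G H : SimpleGraph V) (h n : ℕ) (Ur U : Set V)
    (ob : ℕ → V) (Ω : List V) (c : CD V) (π : ℕ → ℕ), Sit G H h n Ur U ob Ω c π → s ≤ c.s →
    t ≤ c.t → Cr H U Ω →
    ∃ W ⊆ c.Core H U, Item G ob K W (π 0) (π (c.t - 1)) (π 0)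

/-- both children are drawn -/
def KidsS : Prop :=
  ∀ h K m b s t α, 0 < K → MainAt h K (m + 1) 0 s t α → MainAt h K m (b + 1) s t α →
    ∃ s' t', ∀ (V : Type) [Finite V] (G : SimpleGraph V) (n : ℕ) (Ur U I : Set V) (ob : ℕ → V)
      (p p' : ℕ) (x : XD V) (D : Set V) (H' : Fin 2 → SimpleGraph V) (U' : Fin 2 → Set V)
      (Ω : Fin 2 → List V) (c : Fin 2 → CD V) (π : Fin 2 → ℕ → ℕ), Ctx G h n K Ur U I ob p p' x →
      m ≤ x.m → x.b = b → Kids G h n Ur U ob p p' b x.E D H' U' Ω c π →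
      (∀ i, s' ≤ (c i).s ∧ t' ≤ (c i).t) → ∀ i, Dn (H' i) (U' i) [Ω i] α

/-- many zones -/
def EndS : Prop :=
  ∀ h K Q m s t α, 0 < K → JgAt h K Q → MainAt h K (m + 1) 0 s t α →
    ∃ s' t' α', MainAt h K m (2 * Q) s' t' α'

/-- one step -/
def StepS : Prop :=
  ∀ h K m b s t α, 0 < K → MainAt h K (m + 1) 0 s t α → MainAt h K m (b + 1) s t α →
    ∃ s' t' α', MainAt h K m b s' t' α'

/-- a crooked linkage gives a band on consecutive columns -/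
def BndS : Prop :=
  ∀ M s' t', ∃ p s t, ∀ (V : Type) [Finite V] (G H : SimpleGraph V) (h n : ℕ) (Ur U : Set V)
    (ob : ℕ → V) (Ω : List V) (c : CD V) (π : ℕ → ℕ), Sit G H h n Ur U ob Ω c π → s ≤ c.s →
    t ≤ c.t → Crk H U Ω p →
    ∃ (c' : CD V) (π' : ℕ → ℕ) (uA uB : ℕ) (up : Bool) (m : ℕ) (x y : ℕ → ℕ) (J : ℕ → Set V),
      Sit G H h n Ur U ob Ω c' π' ∧ c'.s = s' ∧ c.I ⊆ c'.I ∧ π 0 ≤ π' 0 ∧
      π' (c'.t - 1) ≤ π (c.t - 1) ∧ Bnd H c' M t' uA uB up m x y J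

/-- many links between the outsides of two collars give a band -/
def MenS : Prop :=
  ∀ M s' t', 3 ≤ t' → ∃ k s t, ∀ (V : Type) [Finite V] (G H : SimpleGraph V) (h n : ℕ)
    (Ur U : Set V) (ob : ℕ → V) (Ω : Fin 2 → List V) (c : Fin 2 → CD V) (π : Fin 2 → ℕ → ℕ)
    (R : Fin k → Set V), Dbl G H h n Ur U ob Ω c π → (∀ i, s ≤ (c i).s ∧ t ≤ (c i).t) →
    (∀ j, R j ⊆ U ∧ Conn H (R j) ∧
      ∀ i, (R j ∩ ((c i).Out H U (Ω i) \ (c i).In H U (c i).s)).Nonempty) →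
    Pairwise (Disjoint on R) →
    ∃ (c' : Fin 2 → CD V) (π' : Fin 2 → ℕ → ℕ) (up : Bool) (J : ℕ → Set V),
      Dbl G H h n Ur U ob Ω c' π' ∧ Bnd2 H c' M t' up J ∧
      ∀ i, (c' i).s = s' ∧ π i 0 ≤ π' i 0 ∧ π' i ((c' i).t - 1) ≤ π i ((c i).t - 1)

end Pool.Agent.MP_9d78a0_co.st

end MrgPart3

-- ======== part 4: formerly Pool.Agent.MP_9d78a0_co.st.Ctx
section MrgPart4

/-! The structure theorem: operations on contexts and the double recursion. -/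

set_option autoImplicit false

namespace Pool.Agent.MP_9d78a0_co.st

open Set Function fb

namespace ctx

variable {V : Type} {G : SimpleGraph V} {h n K : ℕ} {Ur U I U1 I1 : Set V} {ob : ℕ → V}
  {p p' q q' : ℕ} {x : XD V}

theorem pins_mem {Z : Set V} {lo hi u : ℕ} (hK : 0 < K) (hp : Pins G ob K Z lo hi u u) :
    u ∈ Icc lo hi := by
  obtain ⟨-, a, b, X, -, -, h2⟩ := hp
  have := h2 0 hK
  exact ⟨by omega, by omega⟩

theorem icc_sub (h1 : p ≤ q) (h2 : q' ≤ p') : Icc q q' ⊆ Icc p p' := Icc_subset_Icc h1 h2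

theorem out_sub (hU : U1 ⊆ U) : Ur \ U ⊆ Ur \ U1 := fun _ hv => ⟨hv.1, fun k => hv.2 (hU k)⟩

theorem in_sub : (U ∩ Ur) \ U1 ⊆ Ur \ U1 := fun _ hv => ⟨hv.1.2, hv.2⟩

theorem dis_io {A B : Set V} (hA : A ⊆ Ur \ U) (hB : B ⊆ (U ∩ Ur) \ U1) : Disjoint A B :=
  disjoint_left.2 fun _ ha hb => (hA ha).2 (hB hb).1.1

/-- a new item at the last index; the zones are dropped -/
theorem app (c : Ctx G h n K Ur U I ob p p' x) (hU : U1 ⊆ U) (h1 : p ≤ q) (h2 : q' ≤ p')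
    {W : Set V} {lo hi ex : ℕ} (it : Item G ob K W lo hi ex) (hW : W ⊆ Ur \ U1)
    (b1 : h * h ≤ lo) (b2 : hi < n) (b3 : h * h ≤ ex) (b4 : ex < n)
    (d1 : Disjoint (Icc lo hi) (Icc q q')) (d2 : ex ∉ Icc q q')
    (d : ∀ s < x.m, Disjoint (x.W s) W ∧ Disjoint (Icc (x.lo s) (x.hi s)) (Icc lo hi) ∧
      x.ex s ∉ Icc lo hi ∧ ex ∉ Icc (x.lo s) (x.hi s) ∧ x.ex s ≠ ex) :
    ∃ x' : XD V, x'.m = x.m + 1 ∧ Ctx G h n K Ur U1 I1 ob q q' x' := by
  refine ⟨⟨x.m + 1, update x.W x.m W, update x.lo x.m lo, update x.hi x.m hi,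
    update x.ex x.m ex, 0, x.Z, x.E, x.zl, x.zh, x.zu⟩, rfl, ?_, ?_, ?_, ?_, ?_⟩
  · intro s hs
    dsimp only at hs ⊢
    by_cases e : s = x.m
    · subst e
      simp only [update_self]
      exact ⟨it, hW, b1, b2, b3, b4, d1, d2⟩
    · simp only [update_of_ne e]
      obtain ⟨a1, a2, a3, a4, a5, a6, a7, a8⟩ := c.item s (by omega)
      exact ⟨a1, a2.trans (out_sub hU), a3, a4, a5, a6, a7.mono_right (icc_sub h1 h2),
        fun k => a8 (icc_sub h1 h2 k)⟩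
  · intro s hs t ht hst
    dsimp only at hs ht ⊢
    by_cases e : s = x.m
    · have e' : t ≠ x.m := fun k => hst (e.trans k.symm)
      subst e
      simp only [update_self, update_of_ne e']
      obtain ⟨a1, a2, a3, a4, a5⟩ := d t (by omega)
      exact ⟨a1.symm, a2.symm, a4, a5.symm⟩
    · by_cases e' : t = x.m
      · subst e'
        simp only [update_self, update_of_ne e]
        obtain ⟨a1, a2, a3, a4, a5⟩ := d s (by omega)
        exact ⟨a1, a2, a3, a5⟩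
      · simp only [update_of_ne e, update_of_ne e']
        exact c.idis s (by omega) t (by omega) hst
  · intro i hi
    exact absurd hi (Nat.not_lt_zero _)
  · intro i hi
    exact absurd hi (Nat.not_lt_zero _)
  · intro s _ i hi
    exact absurd hi (Nat.not_lt_zero _)

/-- a zone with a connected set from its centre to an exit is an item -/
theorem zone_item (c : Ctx G h n K Ur U I ob p p' x) (hU : U1 ⊆ U) (h1 : p ≤ q) (h2 : q' ≤ p')
    {i : ℕ} (hi : i < x.b) {T : Set V} {ex : ℕ} (hT : T ⊆ Ur \ U1) (hc : Conn G (x.E i ∪ T))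
    (hz : Disjoint (x.Z i) T) (he : ob ex ∈ T) (b3 : h * h ≤ ex) (b4 : ex < n)
    (d0 : ex ∉ Icc (x.zl i) (x.zh i)) (d2 : ex ∉ Icc q q')
    (d : ∀ s < x.m, Disjoint (x.W s) T ∧ ex ∉ Icc (x.lo s) (x.hi s) ∧ x.ex s ≠ ex) :
    ∃ x' : XD V, x'.m = x.m + 1 ∧ Ctx G h n K Ur U1 I1 ob q q' x' := by
  obtain ⟨a1, a2, a3, a4, a5, a6, a7, a8, a9⟩ := c.zone i hi
  refine app (W := (x.Z i ∪ x.E i) ∪ T) (lo := x.zl i) (hi := x.zh i) (ex := ex) c hU h1 h2 ?_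
    (union_subset (a5.trans (out_sub hU)) hT) a7 a8 b3 b4 (a9.mono_right (icc_sub h1 h2)) d2 ?_
  · refine Or.inr (Or.inr ⟨d0, x.zu i, x.Z i, x.E i ∪ T, a1, fun v hv => Or.inl (Or.inl hv), ?_,
      hc, Or.inl a3, Or.inr he⟩)
    rintro v (hv | hv)
    · exact ⟨Or.inl (Or.inr hv), fun k => disjoint_left.1 a4 k hv⟩
    · exact ⟨Or.inr hv, fun k => disjoint_left.1 hz k hv⟩
  · intro s hs
    obtain ⟨m1, m2, m3⟩ := c.mix s hs i hi
    obtain ⟨k1, k2, k3⟩ := d s hs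
    exact ⟨disjoint_union_right.2 ⟨m1, k1⟩, m2, m3, k2, k3⟩

theorem mono_main (hd : DoneS) {m b s t α s' t' α' : ℕ} (hm : MainAt h K m b s t α) (h1 : s ≤ s')
    (h2 : t ≤ t') (h3 : α ≤ α') : MainAt h K m b s' t' α' := by
  intro V _ G H n Ur U ob Ω c π x hs a1 a2 hc a3 a4
  exact (hd V H U α).1 [Ω] α' (hm V G H n Ur U ob Ω c π x hs (h1.trans a1) (h2.trans a2) hc a3 a4) h3

end ctx

open ctx

theorem ctxS : CtxS := by
  intro V G h n K Ur U I U1 I1 ob p p' q q' x hK c hU h1 h2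
  refine ⟨?_, ?_, ?_, ?_, ?_⟩
  · intro b hb ht
    refine ⟨?_, c.idis, ?_, ?_, ?_⟩
    · intro s hs
      obtain ⟨a1, a2, a3, a4, a5, a6, a7, a8⟩ := c.item s hs
      exact ⟨a1, a2.trans (out_sub hU), a3, a4, a5, a6, a7.mono_right (icc_sub h1 h2),
        fun k => a8 (icc_sub h1 h2 k)⟩
    · intro i hi
      obtain ⟨a1, a2, a3, a4, a5, a6, a7, a8, a9⟩ := c.zone i (lt_of_lt_of_le hi hb)
      exact ⟨a1, a2, a3, a4, a5.trans (out_sub hU), ht i hi, a7, a8,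
        a9.mono_right (icc_sub h1 h2)⟩
    · intro i hi j hj hij
      exact c.zdis i (lt_of_lt_of_le hi hb) j (lt_of_lt_of_le hj hb) hij
    · intro s hs i hi
      exact c.mix s hs i (lt_of_lt_of_le hi hb)
  · intro W lo hi ex it hW c1 c2 c3 c4 b1 b2 b3 b4 d1 d2
    refine app c hU h1 h2 it (hW.trans in_sub) b1 b2 b3 b4 d1 d2 fun s hs => ?_
    obtain ⟨a1, a2, a3, a4, a5, a6, a7, a8⟩ := c.item s hs
    exact ⟨dis_io a2 hW, a7.mono_right (icc_sub c1 c2), fun k => a8 (icc_sub c1 c2 k),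
      fun k => disjoint_left.1 a7 k ⟨c3, c4⟩, fun k => a8 (k ▸ ⟨c3, c4⟩)⟩
  · intro i hi S ex hS hc ht he c3 c4 b3 b4 d2
    obtain ⟨a1, a2, a3, a4, a5, a6, a7, a8, a9⟩ := c.zone i hi
    refine zone_item c hU h1 h2 hi (hS.trans in_sub) (conn_union_touch a2 hc ht)
      (dis_io (subset_union_left.trans a5) hS) he b3 b4
      (fun k => disjoint_left.1 a9 k ⟨c3, c4⟩) d2 fun s hs => ?_
    obtain ⟨e1, e2, e3, e4, e5, e6, e7, e8⟩ := c.item s hs
    exact ⟨dis_io e2 hS, fun k => disjoint_left.1 e7 k ⟨c3, c4⟩, fun k => e8 (k ▸ ⟨c3, c4⟩)⟩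
  · intro i hi j hj hij S hS hc ht ht'
    obtain ⟨a1, a2, a3, a4, a5, a6, a7, a8, a9⟩ := c.zone i hi
    obtain ⟨f1, f2, f3, f4, f5, f6, f7, f8, f9⟩ := c.zone j hj
    obtain ⟨z1, z2⟩ := c.zdis i hi j hj hij
    have hu := pins_mem hK f1
    refine zone_item (T := S ∪ x.E j) (ex := x.zu j) c hU h1 h2 hi
      (union_subset (hS.trans in_sub) ((subset_union_right.trans f5).trans (out_sub hU)))
      (conn_union_touch a2 (conn_union_touch hc f2 ht'.symm) (ht.mono Subset.rfl subset_union_left))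
      (disjoint_union_right.2 ⟨dis_io (subset_union_left.trans a5) hS,
        z1.mono subset_union_left subset_union_right⟩)
      (Or.inr f3) (f7.trans hu.1) (lt_of_le_of_lt hu.2 f8)
      (fun k => disjoint_left.1 z2 k hu) (fun k => disjoint_left.1 f9 hu (icc_sub h1 h2 k))
      fun s hs => ?_
    obtain ⟨e1, e2, e3, e4, e5, e6, e7, e8⟩ := c.item s hs
    obtain ⟨m1, m2, m3⟩ := c.mix s hs j hj
    exact ⟨disjoint_union_right.2 ⟨dis_io e2 hS, m1.mono_right subset_union_right⟩,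
      fun k => disjoint_left.1 m2 k hu, fun k => m3 (k ▸ hu)⟩
  · intro Z E zl zh zu hp hc he hd hs c1 c2 b1 b2 d1 ht hts
    refine ⟨⟨x.m, x.W, x.lo, x.hi, x.ex, x.b + 1, update x.Z x.b Z, update x.E x.b E,
      update x.zl x.b zl, update x.zh x.b zh, update x.zu x.b zu⟩, rfl, rfl, ?_, c.idis, ?_, ?_, ?_⟩
    · intro s hs
      obtain ⟨a1, a2, a3, a4, a5, a6, a7, a8⟩ := c.item s hs
      exact ⟨a1, a2.trans (out_sub hU), a3, a4, a5, a6, a7.mono_right (icc_sub h1 h2),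
        fun k => a8 (icc_sub h1 h2 k)⟩
    · intro i hi
      dsimp only at hi ⊢
      by_cases e : i = x.b
      · subst e
        simp only [update_self]
        exact ⟨hp, hc, he, hd, hs.trans in_sub, ht, b1, b2, d1⟩
      · simp only [update_of_ne e]
        obtain ⟨a1, a2, a3, a4, a5, a6, a7, a8, a9⟩ := c.zone i (by omega)
        exact ⟨a1, a2, a3, a4, a5.trans (out_sub hU), hts i (by omega), a7, a8,
          a9.mono_right (icc_sub h1 h2)⟩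
    · have key : ∀ i < x.b, Disjoint (x.Z i ∪ x.E i) (Z ∪ E) ∧
          Disjoint (Icc (x.zl i) (x.zh i)) (Icc zl zh) := fun i hi => by
        obtain ⟨a1, a2, a3, a4, a5, a6, a7, a8, a9⟩ := c.zone i hi
        exact ⟨dis_io a5 hs, a9.mono_right (icc_sub c1 c2)⟩
      intro i hi j hj hij
      dsimp only at hi hj ⊢
      by_cases e : i = x.b
      · have e' : j ≠ x.b := fun k => hij (e.trans k.symm)
        subst e
        simp only [update_self, update_of_ne e']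
        exact ⟨(key j (by omega)).1.symm, (key j (by omega)).2.symm⟩
      · by_cases e' : j = x.b
        · subst e'
          simp only [update_self, update_of_ne e]
          exact key i (by omega)
        · simp only [update_of_ne e, update_of_ne e']
          exact c.zdis i (by omega) j (by omega) hij
    · intro s hs' i hi
      dsimp only at hs' hi ⊢
      by_cases e : i = x.b
      · subst e
        simp only [update_self]
        obtain ⟨a1, a2, a3, a4, a5, a6, a7, a8⟩ := c.item s hs'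
        exact ⟨dis_io a2 hs, a7.mono_right (icc_sub c1 c2), fun k => a8 (icc_sub c1 c2 k)⟩
      · simp only [update_of_ne e]
        exact c.mix s hs' i (by omega)

theorem mainS : JgS → DoneS → EndS → StepS → MainS := by
  intro hj hd he hs h
  obtain ⟨K, Q, hK, hJ⟩ := hj h
  have hJ' : JgAt h K Q := hJ
  have outer : ∀ k m, m + k = Q → ∃ s t α, MainAt h K m 0 s t α := by
    intro k
    induction k with
    | zero =>
      intro m hm
      refine ⟨0, 0, 0, ?_⟩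
      intro V _ G H n Ur U ob Ω c π x st _ _ hc a3 _
      refine (hJ V G n Ur ob x.W x.lo x.hi x.ex st.univ (fun s hs => ?_)
        fun s hs t ht hst => hc.idis s (by omega) t (by omega) hst).elim
      obtain ⟨a1, a2, a3, a4, a5, a6, -, -⟩ := hc.item s (by omega)
      exact ⟨a1, a2.trans sdiff_subset, a3, a4, a5, a6⟩
    | succ k ih =>
      intro m hm
      obtain ⟨s, t, α, h0⟩ := ih (m + 1) (by omega)
      have inner : ∀ j b, b + j = 2 * Q → ∃ s' t' α', MainAt h K m b s' t' α' := by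
        intro j
        induction j with
        | zero =>
          intro b hb
          have e : b = 2 * Q := by omega
          subst e
          exact he h K Q m s t α hK hJ' h0
        | succ j ij =>
          intro b hb
          obtain ⟨s', t', α', h1⟩ := ij (b + 1) (by omega)
          exact hs h K m b (max s s') (max t t') (max α α') hK
            (mono_main hd h0 (le_max_left _ _) (le_max_left _ _) (le_max_left _ _))
            (mono_main hd h1 (le_max_right _ _) (le_max_right _ _) (le_max_right _ _))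
      exact inner (2 * Q) 0 (by omega)
  obtain ⟨s, t, α, h0⟩ := outer Q 0 (by omega)
  refine ⟨s, t, α, ?_⟩
  intro V _ G H n Ur U ob Ω c π st a1 a2
  refine h0 V G H n Ur U ob Ω c π
    ⟨0, fun _ => ∅, fun _ => 0, fun _ => 0, fun _ => 0, 0, fun _ => ∅, fun _ => ∅, fun _ => 0,
      fun _ => 0, fun _ => 0⟩ st a1 a2 ⟨?_, ?_, ?_, ?_, ?_⟩ le_rfl le_rfl
  all_goals
    intro i hi
    exact absurd hi (Nat.not_lt_zero _)

end Pool.Agent.MP_9d78a0_co.st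

end MrgPart4

-- ======== part 5: formerly Pool.Agent.MP_9d78a0_co.st.SE
section MrgPart5

/-! The structure theorem, part E: a flat strip along a band. -/

set_option autoImplicit false

namespace Pool.Agent.MP_9d78a0_co.st

open Set Function fb

/-- two panels whose columns are joined by the sets `J e` -/
structure FD (V : Type) where
  A : PD V
  B : PD V
  J : ℕ → Set V

/-- the result of two cuts: the middle piece, the rest, the seams, the halves -/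
structure SD (V : Type) where
  w : ℕ
  K : ℕ
  Hm : SimpleGraph V
  H' : SimpleGraph V
  Um : Set V
  U' : Set V
  Y1 : List V
  Y2 : List V
  WL : Set V
  WR : Set V
  pL : V → ℕ
  pR : V → ℕ

section defs

variable {V : Type}

/-- the letters strictly between the first and the last column -/
def PD.opn (p : PD V) : List V := (p.lin 0 p.n).tail.dropLast

/-- the same panel -/
def PD.Eqv (p q : PD V) : Prop :=
  p.n = q.n ∧ p.s = q.s ∧ p.P = q.P ∧ (∀ v ∈ p.P, p.κ v = q.κ v ∧ p.lev v = q.lev v) ∧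
    (∀ e ≤ p.n, (∀ l, p.C l e = q.C l e) ∧ p.Λ e = q.Λ e ∧ p.o e = q.o e) ∧
    ∀ e < p.n, p.seg e = q.seg e

namespace FD

variable (F : FD V)

def low (e : ℕ) : Set V := F.A.C 0 e ∪ F.J e ∪ F.B.C 0 e

def row (e : ℕ) : Set V := F.A.col e ∪ F.J e ∪ F.B.col e

def feet : Set V := F.A.ring 0 ∪ F.B.ring 0

def core : Set V := F.A.cols ∪ F.B.cols ∪ {v | v ∈ F.A.P ∧ F.A.lev v < F.A.s} ∪
  {v | v ∈ F.B.P ∧ F.B.lev v < F.B.s}

def dom (Z : Set V) : Set V := Z ∪ F.A.P ∪ F.B.P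

def sub (u m : ℕ) : FD V := ⟨F.A.sub u m, F.B.sub u m, fun e => F.J (u + e)⟩

def swap : FD V := ⟨F.B, F.A, F.J⟩

def rev : FD V := ⟨F.A.rev, F.B.rev, fun e => F.J (F.A.n - e)⟩

def Eqv (F' : FD V) : Prop := F.A.Eqv F'.A ∧ F.B.Eqv F'.B ∧ ∀ e ≤ F.A.n, F.J e = F'.J e

/-- the skeleton: low parts of the rows and feet of the other columns -/
def sk (O : Set ℕ) (ft : ℕ → Set V) : Set V :=
  {v | (∃ e ≤ F.A.n, v ∈ F.low e) ∨ ∃ x ∈ O, v ∈ ft x}

/-- the low vertices strictly between two rows -/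
def win (Z : Set V) (pos : V → ℕ) (e e' : ℕ) : Set V :=
  {v | v ∈ Z ∪ F.feet ∧ 2 * e < pos v ∧ pos v < 2 * e'}

/-- `S` touches every window of length `L` -/
def Den (G : SimpleGraph V) (Z : Set V) (pos : V → ℕ) (L : ℕ) (S : Set V) : Prop :=
  ∀ e, e + L ≤ F.A.n → Touch G S (F.win Z pos e (e + L))

end FD

/-- two panels outside `I` and a band inside -/
structure Bas (H : SimpleGraph V) (U I : Set V) (F : FD V) : Prop where
  tight : Tight H U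
  iu : I ⊆ U
  a : Pan H U I F.A
  b : Pan H U I F.B
  n : F.B.n = F.A.n
  s : 3 ≤ F.A.s ∧ 3 ≤ F.B.s
  dis : Disjoint F.A.P F.B.P ∧ ¬ Touch H F.A.P F.B.P
  j : ∀ e ≤ F.A.n, F.J e ⊆ I ∧ Conn H (F.J e) ∧ Touch H (F.J e) (F.A.C 0 e) ∧
    Touch H (F.J e) (F.B.C 0 e)
  jd : ∀ e ≤ F.A.n, ∀ e' ≤ F.A.n, e ≠ e' → Disjoint (F.J e) (F.J e')

/-- a frame: positions of all columns; every edge that leaves `I` ends in a foot -/
structure Frm (G H : SimpleGraph V) (h n : ℕ) (Ur U I : Set V) (ob : ℕ → V) (F : FD V)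
    (a b : ℕ → ℕ) (O : Set ℕ) (ft cl : ℕ → Set V) : Prop where
  bas : Bas H U I F
  univ : Univ G h n Ur ob
  le : H ≤ G
  thin : ∀ e ≤ F.A.n, Thin H (F.A.C 0 e) ∧ Thin H (F.J e) ∧ Thin H (F.B.C 0 e)
  pos : ∀ e ≤ F.A.n, F.A.o e = ob (a e) ∧ F.B.o e = ob (b e)
  ma : ∀ i j, i < j → j ≤ F.A.n → a i < a j
  mb : Mo b (F.A.n + 1)
  ab : ∀ i ≤ F.A.n, ∀ j ≤ F.A.n, h * h ≤ a i ∧ a i < b j ∧ b j < n
  oth : ∀ x ∈ O, h * h ≤ x ∧ x < n ∧ x ∉ hull a (F.A.n + 1) ∧ x ∉ hull b (F.A.n + 1) ∧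
    ob x ∈ cl x ∧ Conn H (cl x) ∧ ft x ⊆ cl x ∧ Thin H (ft x) ∧ cl x ⊆ Ur ∧
    Disjoint (cl x) (I ∪ F.A.P ∪ F.B.P) ∧ ∀ y ∈ O, x ≠ y → Disjoint (cl x) (cl y)
  edge : ∀ u ∈ I, ∀ v, H.Adj u v → v ∈ I ∪ F.feet ∨ ∃ x ∈ O, v ∈ ft x
  ur : I ∪ F.core ⊆ Ur

/-- a flat block between two ports -/
structure Blk (H : SimpleGraph V) (U I D : Set V) (F : FD V) (Z lam rho : Set V) : Prop where
  bas : Bas H U I F
  z : Z ⊆ I \ D ∧ ∀ e ≤ F.A.n, F.J e ⊆ Z
  d : Disjoint D (F.A.P ∪ F.B.P)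
  port : Disjoint lam rho ∧ Disjoint (lam ∪ rho) (F.dom Z)
  att : ∀ v ∈ Z, ∃ e ≤ F.A.n, ∃ u ∈ F.low e,
    Link H ((Z \ {x | ∃ e' ≤ F.A.n, x ∈ F.J e'}) ∪ {u}) v u
  clo : (∀ v ∈ Z, ∀ y, H.Adj v y → y ∈ Z ∪ D ∪ F.feet ∪ lam ∪ rho) ∧
    ∀ v ∈ F.feet, ∀ y ∈ I, H.Adj v y → y ∈ Z ∪ D ∪ lam ∪ rho
  flat : ¬ PX H (Z ∪ F.core ∪ lam ∪ rho) (lam :: sg ((List.range (F.A.n + 1)).map F.A.o) ++
    rho :: sg ((List.range (F.A.n + 1)).map F.B.o).reverse)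

/-- a strip with positions, closed up to `D`, flat below the top level -/
structure Str (H : SimpleGraph V) (U I D : Set V) (F : FD V) (Z : Set V) (pos : V → ℕ) : Prop where
  bas : Bas H U I F
  z : Z ⊆ I \ D ∧ ∀ e ≤ F.A.n, F.J e ⊆ Z
  d : Disjoint D (F.A.P ∪ F.B.P)
  rng : ∀ v ∈ Z, pos v ≤ 2 * F.A.n ∧ ∀ e ≤ F.A.n, (pos v = 2 * e ↔ v ∈ F.J e)
  kap : (∀ v ∈ F.A.P, pos v = F.A.κ v) ∧ ∀ v ∈ F.B.P, pos v = F.B.κ v
  clo : ∀ v ∈ F.dom Z, 0 < pos v → pos v < 2 * F.A.n → ∀ y, H.Adj v y → y ∈ F.dom Z ∪ D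
  stp : ∀ u ∈ F.dom Z, ∀ v ∈ F.dom Z, H.Adj u v → LSt (pos u) (pos v)
  att : ∀ v ∈ Z, ∃ e ≤ F.A.n, ∃ u ∈ F.low e, Link H ({x | x ∈ Z ∧ pos x = pos v} ∪ {u}) v u
  flat : ¬ PX H (Z ∪ F.core) (F.row 0 :: sg ((List.range' 1 (F.A.n - 1)).map F.A.o) ++
    F.row F.A.n :: sg ((List.range' 1 (F.A.n - 1)).map F.B.o).reverse)

/-- the whole strip is flat -/
def Top (H : SimpleGraph V) (F : FD V) (Z : Set V) : Prop :=
  ¬ PX H (F.dom Z) (F.row 0 :: sg F.A.opn ++ F.row F.A.n :: sg F.B.opn.reverse)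

/-- one half of a cut strip: rows `0, …, n`, then the letters `mid` -/
structure Half (H0 H : SimpleGraph V) (U : Set V) (F : FD V) (W : Set V) (pos : V → ℕ)
    (mid : List V) : Prop where
  sub : W ⊆ U
  n : F.B.n = F.A.n
  rng : ∀ v ∈ W, pos v ≤ 2 * F.A.n + 1
  row : ∀ e ≤ F.A.n, ∀ v, v ∈ F.row e ↔ v ∈ W ∧ pos v = 2 * e
  kap : (∀ v ∈ F.A.P, v ∈ W ∧ pos v = F.A.κ v) ∧ ∀ v ∈ F.B.P, v ∈ W ∧ pos v = F.B.κ v
  j : ∀ e ≤ F.A.n, Conn H0 (F.J e) ∧ Touch H0 (F.J e) (F.A.C 0 e) ∧ Touch H0 (F.J e) (F.B.C 0 e) ∧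
    Disjoint (F.J e) (F.A.P ∪ F.B.P)
  keep : ∀ u ∈ W, pos u ≤ 2 * F.A.n → ∀ v ∈ W, H0.Adj u v → H.Adj u v
  clo : ∀ u ∈ W, 0 < pos u → ∀ v, H.Adj u v → v ∈ W
  stp : ∀ u ∈ W, ∀ v ∈ W, H.Adj u v → LSt (pos u) (pos v)
  nd : mid.Nodup ∧ ∀ v ∈ mid, v ∈ W ∧ pos v = 2 * F.A.n + 1
  att : ∀ v ∈ W \ (F.A.P ∪ F.B.P), pos v < 2 * F.A.n → ∃ e ≤ F.A.n, ∃ u ∈ F.low e,
    Link H ({x | x ∈ W \ (F.A.P ∪ F.B.P) ∧ pos x = pos v} ∪ {u}) v u
  lnk : ∀ v ∈ W, v ∈ lk H W (ls (F.A.lin 0 F.A.n ++ mid ++ F.B.lin 0 F.A.n))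
  flat : ¬ PX H W (F.row 0 :: sg ((F.A.lin 0 F.A.n).tail ++ mid ++ (F.B.lin 0 F.A.n).tail.reverse))

namespace SD

variable (σ : SD V) (F : FD V)

def s1 : List V := F.A.o (σ.w + 1) :: σ.Y1 ++ [F.B.o (σ.w + 1)]

def s2 : List V := F.A.o (σ.w + σ.K + 2) :: σ.Y2 ++ [F.B.o (σ.w + σ.K + 2)]

def midL : List V := F.A.seg σ.w ++ σ.s1 F ++ (F.B.seg σ.w).reverse

def midR : List V :=
  (F.B.seg (σ.w + σ.K + 2)).reverse ++ (σ.s2 F).reverse ++ F.A.seg (σ.w + σ.K + 2)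

/-- the letters of a panel between the two halves -/
def gap (p : PD V) : List V := p.seg σ.w ++ p.lin (σ.w + 1) (σ.K + 1) ++ p.seg (σ.w + σ.K + 2)

def Lm : List V :=
  F.A.lin (σ.w + 1) (σ.K + 1) ++ σ.Y2 ++ (F.B.lin (σ.w + 1) (σ.K + 1)).reverse ++ σ.Y1.reverse

def FL : FD V := F.sub 0 σ.w

def FR : FD V := (F.sub (σ.w + σ.K + 3) σ.w).rev.swap

end SD

/-- the strip is cut along the rows `w + 1` and `w + K + 2` -/
structure Seam (H : SimpleGraph V) (U D : Set V) (F : FD V) (Z : Set V) (pos : V → ℕ) (σ : SD V) :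
    Prop where
  n : F.A.n = 2 * σ.w + σ.K + 3
  spl : Split (res H (U \ D)) σ.H' σ.Hm (U \ D) σ.U' σ.Um (ls (σ.s1 F) ∪ ls (σ.s2 F))
  mid : Soc σ.Hm σ.Um (σ.Lm F) ∧ ¬ Cr σ.Hm σ.Um (σ.Lm F)
  um : ∀ v ∈ σ.Um, v ∈ F.dom Z ∧ 2 * σ.w < pos v ∧ pos v < 2 * (σ.w + σ.K + 3)
  rows : ∀ e, σ.w + 1 < e → e < σ.w + σ.K + 2 → F.row e ⊆ σ.Um \ σ.U'
  hl : Half H σ.H' σ.U' (σ.FL F) σ.WL σ.pL (σ.midL F)
  hr : Half H σ.H' σ.U' (σ.FR F) σ.WR σ.pR (σ.midR F)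
  w : Disjoint σ.WL σ.WR ∧ σ.WL ∪ σ.WR = F.dom Z ∩ σ.U'
  pl : (∀ v ∈ σ.WL, σ.pL v = min (pos v) (2 * σ.w + 1)) ∧
    ∀ v ∈ F.dom Z, pos v ≤ 2 * σ.w → v ∈ σ.WL
  pr : (∀ v ∈ σ.WR, σ.pR v = min (2 * F.A.n - pos v) (2 * σ.w + 1)) ∧
    ∀ v ∈ F.dom Z, 2 * (σ.w + σ.K + 3) ≤ pos v → v ∈ σ.WR

end defs

/-- after few deletions the bridges of many blocks stay in their buffers -/
def IsoS : Prop :=
  ∀ h Q gap, ∃ N w, 0 < w ∧ ∀ L, ∃ M, ∀ (V : Type) [Finite V] (G H : SimpleGraph V) (n : ℕ)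
    (Ur U I : Set V) (ob : ℕ → V) (F : FD V) (a b : ℕ → ℕ) (O : Set ℕ) (ft cl : ℕ → Set V),
    Frm G H h n Ur U I ob F a b O ft cl → M ≤ F.A.n →
    ∃ (D : Set V) (lo : ℕ → ℕ), D.ncard ≤ N ∧ D ⊆ I ∪ F.sk O ft ∧
      (∀ q < Q, w + gap ≤ lo q ∧ lo q + L + w + gap ≤ F.A.n ∧
        (∀ e, lo q ≤ e + w → e ≤ lo q + L + w → Disjoint D (F.low e)) ∧
        ∀ e, lo q ≤ e → e ≤ lo q + L → ∀ u ∈ F.low e, ∀ v ∈ F.sk O ft \ D,
          Link H ((I \ (F.sk O ft ∪ D)) ∪ {u, v}) u v →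
          ∃ e', lo q ≤ e' + w ∧ e' ≤ lo q + L + w ∧ v ∈ F.low e') ∧
      ∀ q q', q < q' → q' < Q → lo q + L + 2 * w + gap < lo q'

/-- one block is flat -/
def BlkS : Prop :=
  ∀ h, ∃ N, ∀ L, ∃ M, ∀ (V : Type) [Finite V] (G H : SimpleGraph V) (n : ℕ)
    (Ur U I : Set V) (ob : ℕ → V) (F : FD V) (a b : ℕ → ℕ) (O : Set ℕ) (ft cl : ℕ → Set V),
    Frm G H h n Ur U I ob F a b O ft cl → M ≤ F.A.n →
    ∃ (D : Set V) (lo : ℕ) (Z lam rho : Set V), D.ncard ≤ N ∧ D ⊆ I ∪ F.sk O ft ∧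
      lo + L ≤ F.A.n ∧ Blk H U I D (F.sub lo L) Z lam rho

/-- positions in a flat block -/
def PosS : Prop :=
  ∀ (V : Type) [Finite V] (H : SimpleGraph V) (U I D : Set V) (F : FD V) (Z lam rho : Set V),
    Blk H U I D F Z lam rho → 4 ≤ F.A.n → ∃ Z' pos, Str H U I D (F.sub 1 (F.A.n - 2)) Z' pos

/-- a range in which every deleted vertex and every given set is dense or absent -/
def SelS : Prop :=
  ∀ (N b : ℕ) (Φ : ℕ → ℕ), ∃ M, ∀ (V : Type) [Finite V] (G H : SimpleGraph V) (U I D : Set V)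
    (F : FD V) (Z : Set V) (pos : V → ℕ) (E : ℕ → Set V), Str H U I D F Z pos → H ≤ G →
    D.ncard ≤ N → M ≤ F.A.n →
    ∃ (f L : ℕ) (D' Z' : Set V) (pos' : V → ℕ), f + Φ L ≤ F.A.n ∧ D' ⊆ D ∧
      Str H U I D' (F.sub f (Φ L)) Z' pos' ∧ (∀ z ∈ D', (F.sub f (Φ L)).Den G Z' pos' L {z}) ∧
      ∀ j < b, (F.sub f (Φ L)).Den G Z' pos' L (E j) ∨
        ¬ Touch G (E j) ((F.sub f (Φ L)).win Z' pos' 0 (Φ L))

/-- the outer window -/
def OutS : Prop :=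
  ∀ (V : Type) [Finite V] (H : SimpleGraph V) (U I D : Set V) (F : FD V) (Z : Set V) (pos : V → ℕ)
    (S : Set V), Str H U I D F Z pos → 2 ≤ F.A.n →
    S ⊆ F.dom Z \ (F.A.ring 1 ∪ F.row 0 ∪ F.row F.A.n) →
    (∀ u ∈ S, ∀ v ∈ F.dom Z \ (F.A.ring 1 ∪ F.row 0 ∪ F.row F.A.n), H.Adj u v → v ∈ S) →
    (∀ e, 0 < e → e < F.A.n → F.J e ⊆ S) → (∀ v ∈ S ∩ F.A.P, v ∈ lk H S I) →
    ¬ PX H (F.dom Z) (F.row 0 :: sg F.A.opn ++ [F.row F.A.n, S])

/-- the middle window -/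
def MidS : Prop :=
  ∀ (V : Type) [Finite V] (H : SimpleGraph V) (U I D : Set V) (F : FD V) (Z : Set V) (pos : V → ℕ),
    Str H U I D F Z pos → 2 ≤ F.A.n →
    ¬ PX H (F.dom Z) [F.row 0,
      lk H (F.dom Z \ (F.A.ring 1 ∪ F.row 0 ∪ F.row F.A.n)) (ls F.A.opn), F.row F.A.n,
      lk H (F.dom Z \ (F.B.ring 1 ∪ F.row 0 ∪ F.row F.A.n)) (ls F.B.opn)]

def TopS : Prop :=
  ∀ (V : Type) [Finite V] (H : SimpleGraph V) (U I D : Set V) (F : FD V) (Z : Set V) (pos : V → ℕ),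
    Str H U I D F Z pos → 2 ≤ F.A.n → Top H F Z

/-- two cuts -/
def SeamS : Prop :=
  ∀ (V : Type) [Finite V] (H : SimpleGraph V) (U I D : Set V) (F : FD V) (Z : Set V) (pos : V → ℕ)
    (w K : ℕ), Str H U I D F Z pos → Top H F Z → F.A.n = 2 * w + K + 3 →
    ∃ σ : SD V, σ.w = w ∧ σ.K = K ∧ Seam H U D F Z pos σ

/-- the strip theorem -/
def StripS : Prop :=
  ∀ (h b K : ℕ) (Φ : ℕ → ℕ), ∃ N M, ∀ (V : Type) [Finite V] (G H : SimpleGraph V) (n : ℕ)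
    (Ur U I : Set V) (ob : ℕ → V) (F : FD V) (a b' : ℕ → ℕ) (O : Set ℕ) (ft cl E : ℕ → Set V),
    Frm G H h n Ur U I ob F a b' O ft cl → M ≤ F.A.n →
    ∃ (f L : ℕ) (D Z : Set V) (pos : V → ℕ) (F' : FD V) (σ : SD V), σ.w = Φ L ∧ σ.K = K ∧
      f + F'.A.n ≤ F.A.n ∧ F'.Eqv (F.sub f F'.A.n) ∧ D.ncard ≤ N ∧ D ⊆ I ∪ F.sk O ft ∧
      Str H U I D F' Z pos ∧ Seam H U D F' Z pos σ ∧ (∀ z ∈ D, F'.Den G Z pos L {z}) ∧
      ∀ j < b, F'.Den G Z pos L (E j) ∨ ¬ Touch G (E j) (F'.win Z pos 0 F'.A.n)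

/-- calculus of panels -/
def EqvS : Prop :=
  ∀ (V : Type),
    (∀ p : PD V, p.Eqv p) ∧ (∀ p q : PD V, p.Eqv q → q.Eqv p) ∧
    (∀ p q r : PD V, p.Eqv q → q.Eqv r → p.Eqv r) ∧
    (∀ p q : PD V, p.Eqv q → (∀ v ∈ p.P, p.κ v ≤ 2 * p.n) → p.rev.Eqv q.rev ∧
      (∀ u m, u + m ≤ p.n → (p.sub u m).Eqv (q.sub u m) ∧ p.lin u m = q.lin u m) ∧
      (∀ e ≤ p.n, ∀ l, p.up l e = q.up l e) ∧ p.cols = q.cols ∧ ∀ l, p.ring l = q.ring l) ∧
    (∀ p : PD V, (∀ v ∈ p.P, p.κ v ≤ 2 * p.n) → p.rev.rev.Eqv p ∧ (p.sub 0 p.n).Eqv p ∧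
      ∀ u m, u + m ≤ p.n → (p.rev.sub u m).Eqv (p.sub (p.n - (u + m)) m).rev ∧
        ∀ u' m', u' + m' ≤ m → ((p.sub u m).sub u' m').Eqv (p.sub (u + u') m')) ∧
    (∀ (c : CD V) (U : Set V) (lev ang : V → ℕ) (u n u' m : ℕ), u < c.t → n < c.t → u' + m ≤ n →
      ((c.pan U lev ang u n).sub u' m).Eqv (c.pan U lev ang ((u + u') % c.t) m)) ∧
    (∀ (p : PD V) (u a b : ℕ),
      p.lin u (a + 1 + b) = p.lin u a ++ p.seg (u + a) ++ p.lin (u + a + 1) b) ∧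
    (∀ (c : CD V) (U : Set V) (lev ang : V → ℕ) (u : ℕ), u < c.t →
      List.IsRotated (cyc c.o c.seg c.t)
        ((c.pan U lev ang u (c.t - 1)).lin 0 (c.t - 1) ++ c.seg ((u + (c.t - 1)) % c.t))) ∧
    ∀ (H0 H : SimpleGraph V) (U W : Set V) (F : FD V) (pos : V → ℕ) (mid : List V),
      Half H0 H U F W pos mid → (∀ F', F.Eqv F' → Half H0 H U F' W pos mid) ∧
        Half H0 H U F.swap W pos mid.reverse

/-- the middle piece is put back -/
def AsmS : Prop :=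
  ∀ (V : Type) [Finite V] (H : SimpleGraph V) (U D : Set V) (F : FD V) (Z : Set V) (pos : V → ℕ)
    (σ : SD V) (N : ℕ) (R0 R1 : List V), Seam H U D F Z pos σ → D.ncard ≤ N →
    (R0 ++ R1 ++ σ.midL F ++ σ.midR F).Nodup → ls (R0 ++ R1) ⊆ σ.U' →
    Asm H U [R1 ++ σ.gap F.A ++ R0 ++ (σ.gap F.B).reverse] σ.H' σ.U'
      [R0 ++ σ.midR F, R1 ++ σ.midL F] (N + 4) ∧
    Asm H U [R1 ++ σ.gap F.A ++ R0 ++ σ.gap F.B] σ.H' σ.U'
      [R1 ++ σ.midL F ++ R0.reverse ++ (σ.midR F).reverse] (N + 4) ∧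
    Asm H U [R0 ++ σ.gap F.A, R1 ++ σ.gap F.B] σ.H' σ.U'
      [R0 ++ σ.midL F ++ R1.reverse ++ σ.midR F] (N + 4)

end Pool.Agent.MP_9d78a0_co.st

end MrgPart5

-- ======== part 6: formerly Pool.Agent.MP_9d78a0_co.st.SF
section MrgPart6

/-! The structure theorem, part F: the children of a cut strip. -/

set_option autoImplicit false

namespace Pool.Agent.MP_9d78a0_co.st

open Set Function fb

/-- `k` arcs and `k` halves; half `i` joins the end of arc `i` to the start of the next arc -/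
structure HD (V : Type) where
  k : ℕ
  w : ℕ
  s : ℕ
  arc : ℕ → PD V
  J : ℕ → ℕ → Set V
  W : ℕ → Set V
  pos : ℕ → V → ℕ
  mid : ℕ → List V

section defs

variable {V : Type}

namespace HD

variable (d : HD V)

def F (i : ℕ) : FD V :=
  ⟨(d.arc i).sub ((d.arc i).n - d.w) d.w, ((d.arc ((i + 1) % d.k)).sub 0 d.w).rev, d.J i⟩

def list : List V := (List.range d.k).flatMap fun i => (d.arc i).lin 0 (d.arc i).n ++ d.mid i

/-- what lies on or outside the ring of level `l` and row `g` -/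
def X (l g : ℕ) : Set V :=
  {v | ∃ i < d.k, (v ∈ (d.arc i).P ∧ l ≤ (d.arc i).lev v) ∨ (v ∈ d.W i ∧ 2 * g ≤ d.pos i v)}

def top : Set V := d.X d.s d.w

/-- the ring of level `l` and row `g` -/
def rg (l g : ℕ) : Set V :=
  {v | ∃ i < d.k, (∃ j, d.w ≤ j + g ∧ j + d.w ≤ (d.arc i).n + g ∧ v ∈ (d.arc i).C l j) ∨
    (v ∈ (d.F i).row g ∧ ∀ j < d.k, v ∈ (d.arc j).P → (d.arc j).lev v ≤ l)}

/-- the low vertices of half `i` strictly between two rows -/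
def win (i e e' : ℕ) : Set V :=
  {v | v ∈ d.W i ∧ 2 * e < d.pos i v ∧ d.pos i v < 2 * e' ∧
    ∀ j < d.k, v ∈ (d.arc j).P → v ∈ (d.arc j).ring 0}

def Den (G : SimpleGraph V) (L : ℕ) (S : Set V) : Prop :=
  ∀ i < d.k, ∀ e, e + L ≤ d.w → Touch G S (d.win i e (e + L))

end HD

/-- arcs are panels of the old graph `H0`; halves live in the new graph `H` -/
structure Pre (H0 : SimpleGraph V) (U0 : Set V) (H : SimpleGraph V) (U : Set V) (d : HD V) :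
    Prop where
  k : d.k = 1 ∨ d.k = 2
  le : H ≤ H0
  tight : Tight H U
  pan : ∀ i < d.k, (∃ I, Pan H0 U0 I (d.arc i)) ∧ (d.arc i).s = d.s ∧ 2 * d.w + 2 ≤ (d.arc i).n
  keep : ∀ i < d.k, ∀ v ∈ (d.arc i).P, 1 ≤ (d.arc i).lev v → v ∈ U ∧
    ∀ y ∈ (d.arc i).P, 1 ≤ (d.arc i).lev y → H0.Adj v y → H.Adj v y
  adis : ∀ i < d.k, ∀ j < d.k, i ≠ j → Disjoint (d.arc i).P (d.arc j).P ∧
    ¬ Touch H0 (d.arc i).P (d.arc j).P ∧ Disjoint (d.W i) (d.W j)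
  half : ∀ i < d.k, Half H0 H U (d.F i) (d.W i) (d.pos i) (d.mid i)
  war : ∀ i < d.k, ∀ j < d.k, d.W i ∩ (d.arc j).P ⊆ (d.F i).A.P ∪ (d.F i).B.P

/-- the frame of a band in one collar -/
def CD.frm (c : CD V) (U : Set V) (lev ang : V → ℕ) (uA uB M : ℕ) (up : Bool) (J : ℕ → Set V) :
    FD V :=
  ⟨c.pan U lev ang uA M, if up then c.pan U lev ang uB M else (c.pan U lev ang uB M).rev, J⟩

/-- the frame of a band between two collars -/
def frm2 (c : Fin 2 → CD V) (U : Set V) (lev ang : Fin 2 → V → ℕ) (M : ℕ) (up : Bool)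
    (J : ℕ → Set V) : FD V :=
  ⟨(c 0).pan U (lev 0) (ang 0) 0 M,
    if up then (c 1).pan U (lev 1) (ang 1) 0 M else ((c 1).pan U (lev 1) (ang 1) 0 M).rev, J⟩

/-- a planar strip has been cut out: an inner (`0`) and an outer (`1`) boundary remain -/
structure Pl (G H : SimpleGraph V) (h n K N L s t : ℕ) (Ur U I : Set V) (ob : ℕ → V) (Ω : List V)
    (p p' b : ℕ) (E : ℕ → Set V) (D : Set V) (H' : SimpleGraph V) (U' : Set V) (d : Fin 2 → HD V)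
    (u : Fin 2 → ℕ) (π : Fin 2 → ℕ → ℕ) (W0 : Set V) (lo hi : ℕ) : Prop where
  univ : Univ G h n Ur ob
  le : H ≤ G
  pre : ∀ i, Pre H U H' U' (d i) ∧ (d i).k = 1 ∧ (d i).s = s ∧ (d i).w = (d 0).w
  dis : Disjoint ((d 0).X 1 0) ((d 1).X 1 0)
  rest : U' ⊆ U \ D ∧ U' \ ((d 0).top ∪ (d 1).top) ⊆ Ur ∧ ∀ i, ((d i).arc 0).cols ⊆ Ur
  spl : ∀ x ∈ U' \ (ls (d 0).list ∪ ls (d 1).list), ∀ y ∉ D, H.Adj x y → H'.Adj x y
  hub : Conn H I ∧ I ⊆ U ∩ Ur ∧ (I ∩ (d 0).top).Nonempty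
  del : D ⊆ U ∩ Ur ∧ ∀ z ∈ D, ∀ i, (d i).Den G L {z}
  pend : ∀ j < b, (∀ i, (d i).Den G L (E j)) ∨ Touch G (E j) D ∨
    Touch G (E j) ((I ∩ U') \ ((d 0).X 1 1 ∪ (d 1).X 1 1))
  pos : ∀ i, (d i).w ≤ u i ∧ u i + t + (d i).w ≤ ((d i).arc 0).n ∧
    (∀ a a', a < a' → a' < t → π i a < π i a') ∧
    ∀ a < t, ((d i).arc 0).o (u i + a) = ob (π i a) ∧ h * h ≤ π i a ∧ π i a < n
  pins : W0 ⊆ (U ∩ Ur) \ U' ∧ (∀ x, π 0 0 ≤ x → x ≤ π 0 (t - 1) → Pins G ob K W0 lo hi x x) ∧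
    p ≤ lo ∧ h * h ≤ lo ∧ lo ≤ π 0 0 ∧ π 0 (t - 1) ≤ hi ∧ hi < π 1 0 ∧ π 1 (t - 1) ≤ p'
  xing : D = ∅ → Disjoint (lk H' U' (ls (d 0).list)) (lk H' U' (ls (d 1).list)) →
    ∀ i, Cr H' U' (d i).list
  asm : Asm H U [Ω] H' U' [(d 0).list, (d 1).list] N

end defs

/-- rings and outsides -/
def XrS : Prop :=
  ∀ (V : Type) (H0 H : SimpleGraph V) (U0 U : Set V) (d : HD V), Pre H0 U0 H U d → 1 ≤ d.s →
    Soc H U d.list ∧ ls d.list ⊆ d.top ∧
    ∀ l g, 1 ≤ l → l ≤ d.s → g ≤ d.w → d.X l g ⊆ U ∧ d.X l g ⊆ lk H (d.X l g) (ls d.list) ∧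
      (∀ j, d.w ≤ j → j + d.w ≤ (d.arc 0).n → Conn H ((d.arc 0).up l j) ∧
        (d.arc 0).up l j ⊆ d.X l g ∧ (d.arc 0).C l j ⊆ d.rg l g ∧ (d.arc 0).o j ∈ d.list) ∧
      (∀ i < d.k, ∀ e e', e' ≤ g → ∀ v ∈ d.win i e e', v ∉ d.X l g ∧
        v ∈ lk H {x | x ∈ d.W i ∧ 2 * e ≤ d.pos i x ∧ d.pos i x ≤ 2 * e'} (d.X l g)) ∧
      (l < d.s → 1 ≤ g → g < d.w → d.rg l g ⊆ d.X l g ∧ Conn H (d.rg l g) ∧
        Disjoint (d.rg l g) (d.X (l + 1) (g + 1)) ∧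
        ∀ u ∈ d.X l g, ∀ v ∉ d.X l g, H.Adj u v → u ∈ d.rg l g)

/-- the child is flat outside its hub -/
def HubS : Prop :=
  ∀ (V : Type) [Finite V] (H0 H : SimpleGraph V) (U0 U U' : Set V) (d : HD V) (l g : ℕ),
    Pre H0 U0 H U d → 1 ≤ l → l + 2 ≤ d.s → 3 ≤ g → g + 2 ≤ d.w → d.X l g ⊆ U' → U' ⊆ U →
    HF (res H U') U' d.list (lk H (U' \ d.rg (l + 1) (g + 1)) (d.rg l g))

/-- the collar of the child -/
def ChildS : Prop :=
  ∀ (V : Type) [Finite V] (H0 H : SimpleGraph V) (U0 U U' : Set V) (d : HD V) (l g s' t' u : ℕ),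
    Pre H0 U0 H U d → 1 ≤ l → l + s' + 3 ≤ d.s → 3 ≤ g → g + s' + 3 ≤ d.w → 4 ≤ t' → d.w ≤ u →
    u + t' + d.w ≤ (d.arc 0).n → d.X l g ⊆ U' → U' ⊆ U →
    ∃ c : CD V, Col (res H U') U' d.list c ∧ c.s = s' ∧ c.t = t' ∧
      (∀ j < t', c.o j = (d.arc 0).o (u + j)) ∧ d.rg l g ⊆ c.I ∧
      lk H U' (d.X l g) \ d.X l g ⊆ c.I ∧ c.cols ⊆ d.X l g ∧
      Disjoint (c.In (res H U') U' s') d.top ∧
      c.Core (res H U') U' ⊆ (d.arc 0).cols ∪ (U' \ d.top)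

/-- frames exist -/
def FrmS : Prop :=
  ∀ (V : Type) (G H : SimpleGraph V) (h n : ℕ) (Ur U : Set V) (ob : ℕ → V) (M t : ℕ) (up : Bool)
    (J : ℕ → Set V), 1 ≤ t →
    (∀ (Ω : List V) (c : CD V) (π : ℕ → ℕ) (lev ang : V → ℕ) (uA uB m : ℕ) (x y : ℕ → ℕ),
      Sit G H h n Ur U ob Ω c π → Crd H U Ω c lev ang → 3 ≤ c.s → Bnd H c M t uA uB up m x y J →
      ∃ a b O ft cl, Frm G H h n Ur U c.I ob (c.frm U lev ang uA uB M up J) a b O ft cl ∧
        (c.frm U lev ang uA uB M up J).sk O ft ⊆ c.I ∪ c.ring 0) ∧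
    ∀ (Ω : Fin 2 → List V) (c : Fin 2 → CD V) (π : Fin 2 → ℕ → ℕ) (lev ang : Fin 2 → V → ℕ),
      Dbl G H h n Ur U ob Ω c π → (∀ i, Crd H U (Ω i) (c i) (lev i) (ang i)) → 3 ≤ (c 0).s →
      Bnd2 H c M t up J →
      (∃ a b O ft cl, Frm G H h n Ur U ((c 0).I ∩ (c 1).I) ob (frm2 c U lev ang M up J) a b O ft cl ∧
        (frm2 c U lev ang M up J).sk O ft ⊆ ((c 0).I ∩ (c 1).I) ∪ (c 0).ring 0 ∪ (c 1).ring 0) ∧
      ∀ i, ∀ v ∈ (c i).Out H U (Ω i), v ∈ (c i).cols ∨ lev i v < (c i).s → v ∈ Ur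

/-- what a cut leaves of a panel that keeps away from the middle -/
def ArcS : Prop :=
  ∀ (V : Type) (H : SimpleGraph V) (U I D : Set V) (F : FD V) (Z : Set V) (pos : V → ℕ) (σ : SD V),
    Str H U I D F Z pos → Seam H U D F Z pos σ →
    (σ.H' ≤ H ∧ Tight σ.H' σ.U' ∧ σ.U' ⊆ U \ D ∧ U \ (D ∪ F.dom Z) ⊆ σ.U' ∧
      ∀ x ∈ σ.U' \ (ls (σ.midL F) ∪ ls (σ.midR F)), ∀ y ∉ D, H.Adj x y → σ.H'.Adj x y) ∧
    (∀ S, S ⊆ U \ D → Conn H S → Disjoint S (F.row 0 ∪ F.row F.A.n) → (S \ F.dom Z).Nonempty →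
      S ⊆ σ.U' \ F.dom Z ∧ Conn σ.H' S) ∧
    (∀ e ≤ F.A.n, e ≤ σ.w ∨ σ.w + σ.K + 3 ≤ e → F.row e ⊆ σ.U' ∧ Conn σ.H' (F.row e)) ∧
    ∀ p : PD V, p.P ⊆ U \ I → (∀ v ∈ D ∩ p.P, p.lev v = 0) →
      (∀ v ∈ p.P ∩ F.dom Z, pos v ≤ 2 * σ.w ∨ 2 * (σ.w + σ.K + 3) ≤ pos v) →
      (∀ v ∈ p.P, 1 ≤ p.lev v → v ∈ σ.U' ∧
        ∀ y ∈ p.P, 1 ≤ p.lev y → H.Adj v y → σ.H'.Adj v y) ∧
      σ.WL ∩ p.P ⊆ (σ.FL F).A.P ∪ (σ.FL F).B.P ∧ σ.WR ∩ p.P ⊆ (σ.FR F).A.P ∪ (σ.FR F).B.P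

/-- a planar band -/
def PlanS : Prop :=
  ∀ (h K b : ℕ) (Φ : ℕ → ℕ), ∃ N M0, ∀ (V : Type) [Finite V] (G H : SimpleGraph V) (n : ℕ)
    (Ur U : Set V) (ob : ℕ → V) (Ω : List V) (c : CD V) (π : ℕ → ℕ) (M t uA uB m : ℕ)
    (x y : ℕ → ℕ) (J E : ℕ → Set V), Sit G H h n Ur U ob Ω c π → U = lk H U (ls Ω) → 3 ≤ c.s →
    M0 ≤ M → 1 ≤ t → Bnd H c M t uA uB false m x y J → (∀ j < b, Touch G (E j) c.I) →
    ∃ (L : ℕ) (D : Set V) (H' : SimpleGraph V) (U' : Set V) (d : Fin 2 → HD V) (u : Fin 2 → ℕ)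
      (π' : Fin 2 → ℕ → ℕ) (W0 : Set V) (lo hi : ℕ), (d 0).w = Φ L ∧
      Pl G H h n K N L c.s t Ur U c.I ob Ω (π 0) (π (c.t - 1)) b E D H' U' d u π' W0 lo hi

/-- a twisted band: one child and one item -/
def XcapS : Prop :=
  ∀ h K s t, 4 ≤ t → ∃ N M0 s0, ∀ (V : Type) [Finite V] (G H : SimpleGraph V) (n : ℕ)
    (Ur U : Set V) (ob : ℕ → V) (Ω : List V) (c : CD V) (π : ℕ → ℕ) (M t' uA uB m : ℕ)
    (x y : ℕ → ℕ) (J : ℕ → Set V), Sit G H h n Ur U ob Ω c π → U = lk H U (ls Ω) → s0 ≤ c.s →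
    M0 ≤ M → t ≤ t' → Bnd H c M t' uA uB true m x y J →
    ∃ (H' : SimpleGraph V) (U' : Set V) (Ω' : List V) (c' : CD V) (π' : ℕ → ℕ) (W : Set V)
      (lo hi : ℕ), Sit G H' h n Ur U' ob Ω' c' π' ∧ c'.s = s ∧ c'.t = t ∧ U' ⊆ U ∧
      Item G ob K W lo hi lo ∧ W ⊆ (U ∩ Ur) \ U' ∧ π 0 ≤ lo ∧ lo ≤ hi ∧ hi < π' 0 ∧
      π' (t - 1) ≤ π (c.t - 1) ∧ Asm H U [Ω] H' U' [Ω'] N

/-- a band between two collars: one child and one chord -/
def TwocS : Prop :=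
  ∀ h s t, 4 ≤ t → ∃ N M s0, ∀ (V : Type) [Finite V] (G H : SimpleGraph V) (n : ℕ)
    (Ur U : Set V) (ob : ℕ → V) (Ω : Fin 2 → List V) (c : Fin 2 → CD V) (π : Fin 2 → ℕ → ℕ)
    (up : Bool) (J : ℕ → Set V), Dbl G H h n Ur U ob Ω c π → s0 ≤ (c 0).s → Bnd2 H c M t up J →
    ∃ (H' : SimpleGraph V) (U' : Set V) (Ω' : List V) (c' : CD V) (π' : ℕ → ℕ) (S : Set V)
      (u ex : ℕ), Sit G H' h n Ur U' ob Ω' c' π' ∧ c'.s = s ∧ c'.t = t ∧ U' ⊆ U ∧
      S ⊆ (U ∩ Ur) \ U' ∧ Conn G S ∧ ob u ∈ S ∧ ob ex ∈ S ∧ π 0 0 ≤ u ∧ u ≤ π 0 ((c 0).t - 1) ∧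
      π 1 0 ≤ ex ∧ ex < π' 0 ∧ π' (t - 1) ≤ π 1 ((c 1).t - 1) ∧
      Asm H U [Ω 0, Ω 1] H' U' [Ω'] N

/-- many links between the two boundaries, or two separate children -/
def SplitS : Prop :=
  ∀ (V : Type) [Finite V] (G H : SimpleGraph V) (h n K N L s t : ℕ) (Ur U I : Set V) (ob : ℕ → V)
    (Ω : List V) (p p' b : ℕ) (E : ℕ → Set V) (D : Set V) (H' : SimpleGraph V) (U' : Set V)
    (d : Fin 2 → HD V) (u : Fin 2 → ℕ) (π : Fin 2 → ℕ → ℕ) (W0 : Set V) (lo hi k s' : ℕ),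
    Pl G H h n K N L s t Ur U I ob Ω p p' b E D H' U' d u π W0 lo hi → 0 < k → 4 ≤ t → k ≤ t →
    k + s' + 4 ≤ s → k * (L + 2) + s' + 6 ≤ (d 0).w →
    (∃ R : Fin k → Set V, (∀ j, R j ⊆ U' ∧ Conn H' (R j) ∧ ∀ i, (R j ∩ (d i).top).Nonempty) ∧
      Pairwise (Disjoint on R)) ∨
    ∃ (D' : Set V) (H'' : Fin 2 → SimpleGraph V) (U'' : Fin 2 → Set V) (c : Fin 2 → CD V),
      Kids G h n Ur U ob p p' b E D' H'' U'' (fun i => (d i).list) c π ∧
      (∀ i, (c i).s = s' ∧ (c i).t = t) ∧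
      ∀ α, (∀ i, Dn (H'' i) (U'' i) [(d i).list] α) → Dn H U [Ω] (2 * α + k + N)

/-- linked boundaries give two collars in one graph -/
def DblS : Prop :=
  ∀ (V : Type) [Finite V] (G H : SimpleGraph V) (h n K N L s t : ℕ) (Ur U I : Set V) (ob : ℕ → V)
    (Ω : List V) (p p' b : ℕ) (E : ℕ → Set V) (D : Set V) (H' : SimpleGraph V) (U' : Set V)
    (d : Fin 2 → HD V) (u : Fin 2 → ℕ) (π : Fin 2 → ℕ → ℕ) (W0 : Set V) (lo hi k s' : ℕ)
    (R : Fin k → Set V), Pl G H h n K N L s t Ur U I ob Ω p p' b E D H' U' d u π W0 lo hi →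
    0 < k → 4 ≤ t → s' + 4 ≤ s → s' + 6 ≤ (d 0).w →
    (∀ j, R j ⊆ U' ∧ Conn H' (R j) ∧ ∀ i, (R j ∩ (d i).top).Nonempty) →
    ∃ (H'' : SimpleGraph V) (U'' : Set V) (c : Fin 2 → CD V), U'' ⊆ U' ∧
      Dbl G H'' h n Ur U'' ob (fun i => (d i).list) c π ∧ (∀ i, (c i).s = s' ∧ (c i).t = t) ∧
      (∀ j, R j ⊆ U'' ∧ Conn H'' (R j) ∧
        ∀ i, (R j ∩ ((c i).Out H'' U'' (d i).list \ (c i).In H'' U'' (c i).s)).Nonempty) ∧
      Asm H U [Ω] H'' U'' [(d 0).list, (d 1).list] N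

/-- the planar case of a step -/
def PlaS : Prop :=
  ∀ h K m b s t α, 0 < K → MainAt h K (m + 1) 0 s t α → MainAt h K m (b + 1) s t α →
    ∃ (s' t' α' : ℕ) (Φ : ℕ → ℕ), 4 ≤ t' ∧ ∀ (V : Type) [Finite V] (G H : SimpleGraph V)
      (n N L s0 : ℕ) (Ur U I I0 : Set V) (ob : ℕ → V) (Ω : List V) (p p' : ℕ) (x : XD V)
      (D : Set V) (H' : SimpleGraph V) (U' : Set V) (d : Fin 2 → HD V) (u : Fin 2 → ℕ)
      (π : Fin 2 → ℕ → ℕ) (W0 : Set V) (lo hi : ℕ), Ctx G h n K Ur U I0 ob p p' x → m ≤ x.m →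
      x.b = b → Pl G H h n K N L s0 t' Ur U I ob Ω p p' b x.E D H' U' d u π W0 lo hi → s' ≤ s0 →
      (d 0).w = Φ L → Dn H U [Ω] (α' + N)

end Pool.Agent.MP_9d78a0_co.st

end MrgPart6

-- ======== part 7: formerly Pool.Agent.MP_9d78a0_co.st.Dbl
section MrgPart7

/-! The structure theorem: linked boundaries give two collars in one graph. -/

set_option autoImplicit false

namespace Pool.Agent.MP_9d78a0_co.st

open Set Function fb capi

namespace dbl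

variable {V : Type} {H : SimpleGraph V} {U S A : Set V}

theorem link_res {u v : V} (hS : S ⊆ U) (l : Link H S u v) : Link (res H U) S u v :=
  Link.map (G' := res H U) id (fun _ ha _ hb e => Link.single ha hb ⟨e, hS ha, hS hb⟩) l

theorem conn_res (hS : S ⊆ U) (h : Conn H S) : Conn (res H U) S :=
  ⟨h.1, fun u hu v hv => link_res hS (h.2 u hu v hv)⟩

theorem X_mono (d : HD V) {l g l' g' : ℕ} (h1 : l ≤ l') (h2 : g ≤ g') : d.X l' g' ⊆ d.X l g := by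
  rintro v ⟨i, hi, h | h⟩
  · exact ⟨i, hi, Or.inl ⟨h.1, h1.trans h.2⟩⟩
  · exact ⟨i, hi, Or.inr ⟨h.1, le_trans (by omega) h.2⟩⟩

theorem del_empty (L : List V) : del ∅ L = L := by
  unfold del
  exact List.filter_eq_self.2 fun a _ => by simp

/-- what is linked to the hub or to a letter lies in the hub or outside -/
theorem cover {Ω : List V} {c : CD V} (hc : Col H U Ω c) :
    lk H U (c.I ∪ ls Ω) ⊆ c.I ∪ c.Out H U Ω := by
  rintro v ⟨hv, a, ha, haU, l⟩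
  induction l with
  | refl =>
    by_cases k : a ∈ c.I
    · exact Or.inl k
    · exact Or.inr (lk_self (Or.inl (ha.resolve_left k)) ⟨haU, k⟩)
  | @tail x y _ e ih =>
    by_cases k : y ∈ c.I
    · exact Or.inl k
    · rcases ih e.1 with hx | hx
      · obtain ⟨i, hi, hy⟩ := (hc.sat x hx y e.2.2).resolve_left k
        exact Or.inr (lk_self (Or.inr ⟨i, hi, C_sub_up le_rfl (Nat.zero_le _) hy⟩) ⟨hv, k⟩)
      · exact Or.inr (lk_closed hx ⟨hv, k⟩ e.2.2)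

/-- a set that is left through `r` only contains what is linked to it off `r` -/
theorem stay {X r : Set V} (hA : A ⊆ X) (hr : Disjoint S r)
    (he : ∀ u ∈ X, ∀ v ∉ X, H.Adj u v → u ∈ r) : lk H S A ⊆ X := by
  rintro v ⟨hv, a, ha, -, l⟩
  clear hv
  induction l with
  | refl => exact hA ha
  | @tail x y _ e ih =>
    by_contra k
    exact disjoint_left.1 hr e.1 (he x ih y k e.2.2)

end dbl

open dbl

theorem dblS : InS → DoneS → XrS → ChildS → DblS := by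
  intro hin hd hx hch V _ G H h n K N L s t Ur U I ob Ω p p' b E D H' U' d u π W0 lo hi k s' R P hk
    ht hs hw hR
  have xr := fun i => hx V H H' U U' (d i) (P.pre i).1 (by have := (P.pre i).2.2.1; omega)
  have hs' : ∀ i, (d i).s = s := fun i => (P.pre i).2.2.1
  have hw' : ∀ i, (d i).w = (d 0).w := fun i => (P.pre i).2.2.2
  have x13 := fun i => (xr i).2.2 1 3 le_rfl (by rw [hs']; omega) (by rw [hw']; omega)
  have ex := fun i => (x13 i).2.2.2.2 (by rw [hs']; omega) (by omega) (by rw [hw']; omega)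
  have tx : ∀ i, (d i).top ⊆ (d i).X 1 3 := fun i =>
    X_mono (d i) (by rw [hs']; omega) (by rw [hw']; omega)
  have xd : Disjoint ((d 0).X 1 3) ((d 1).X 1 3) :=
    P.dis.mono (X_mono _ le_rfl (by omega)) (X_mono _ le_rfl (by omega))
  obtain ⟨U'', hU⟩ : ∃ U'', U'' = lk H' U' ((d 0).X 1 3 ∪ (d 1).X 1 3) := ⟨_, rfl⟩
  have us : U'' ⊆ U' := hU ▸ lk_sub
  have xu : ∀ i, (d i).X 1 3 ⊆ U'' := fun i v hv => by
    rw [hU]
    refine lk_self ?_ ((x13 i).1 hv)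
    fin_cases i
    · exact Or.inl hv
    · exact Or.inr hv
  have ch := fun i => hch V H H' U U' U'' (d i) 1 3 s' t (u i) (P.pre i).1 le_rfl
    (by rw [hs']; omega) le_rfl (by rw [hw']; omega) ht (P.pos i).1 (P.pos i).2.1 (xu i) us
  choose c c1 c2 c3 c4 c5 c6 c7 c8 c9 using ch
  have ru : ∀ j, R j ⊆ U'' := fun j => by
    obtain ⟨v, h1, h2⟩ := (hR j).2.2 0
    rw [hU]
    exact sub_lk_meet (hR j).2.1 (hR j).1 ⟨v, h1, hU ▸ xu 0 (tx 0 h2)⟩
  have rc : ∀ j, Conn (res H' U'') (R j) := fun j => conn_res (ru j) (hR j).2.1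
  have ox : ∀ i, (c i).Out (res H' U'') U'' (d i).list ⊆ (d i).X 1 3 := fun i =>
    stay (r := (d i).rg 1 3) (union_subset ((xr i).2.1.trans (tx i)) (c7 i))
      (disjoint_left.2 fun v hv hv' => hv.2 (c5 i hv')) fun a ha y hy e => (ex i).2.2.2 a ha y hy e.1
  have xk : ∀ i, (d i).X 1 3 ⊆ lk (res H' U'') U'' ((c i).I ∪ ls (d i).list) := fun i v hv => by
    obtain ⟨-, a, h1, h2, l⟩ := (x13 i).2.1 hv
    exact ⟨xu i hv, a, Or.inr h1, xu i h2, (link_res (xu i) l).mono (xu i)⟩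
  have ik : ∀ i i', Disjoint ((d i).X 1 3) ((d i').X 1 3) →
      (c i).I ⊆ lk (res H' U'') U'' ((c i').I ∪ ls (d i').list) := fun i i' hdis => by
    obtain ⟨a, a1, a2⟩ := (hR ⟨0, hk⟩).2.2 i
    obtain ⟨z, z1, z2⟩ := (hR ⟨0, hk⟩).2.2 i'
    obtain ⟨x, y, h5, -, h7, h8, h9, -⟩ := link_exit (T := (d i).X 1 3)
      ((hR ⟨0, hk⟩).2.1.2 a a1 z z1) (tx i a2) fun q => disjoint_left.1 hdis q (tx i' z2)
    have hr := sub_lk_meet (rc ⟨0, hk⟩) (ru _) ⟨z, z1, xk i' (tx i' z2)⟩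
    exact sub_lk_meet (c1 i).hub.2.1 (c1 i).hub.1 ⟨x, c5 i ((ex i).2.2.2 x h7 y h8 h9), hr h5⟩
  refine ⟨res H' U'', U'', c, us, ⟨P.univ, fun _ _ e => P.le ((P.pre 0).1.le e.1), c1, ?_, ?_, ?_,
    (c2 0).trans (c2 1).symm, ⟨xd.mono (ox 0) (ox 1), ?_, ?_⟩, ?_⟩, fun i => ⟨c2 i, c3 i⟩,
    fun j => ⟨ru j, rc j, fun i => ?_⟩, ?_⟩
  · intro i a a' h1 h2
    exact (P.pos i).2.2.1 a a' h1 (c3 i ▸ h2)
  · intro i a ha
    rw [c3 i] at ha
    rw [c4 i a ha]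
    exact (P.pos i).2.2.2 a ha
  · rw [c3 0]
    exact lt_of_le_of_lt P.pins.2.2.2.2.2.1 P.pins.2.2.2.2.2.2.1
  · rintro ⟨a, ha, y, hy, e⟩
    exact ha.1.2 (c5 0 ((ex 0).2.2.2 a (ox 0 ha) y (fun q => disjoint_left.1 xd q (ox 1 hy)) e.1))
  · intro v hv
    have key : ∀ i, ∀ a ∈ (d i).X 1 3, Link H' U' a v →
        v ∈ lk (res H' U'') U'' ((c i).I ∪ ls (d i).list) := fun i a ha l => by
      refine lk_link (xk i ha) (link_res Subset.rfl ?_)
      have := xu i ha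
      rw [hU] at this ⊢
      exact link_lk this l
    have hv' := hv
    rw [hU] at hv'
    obtain ⟨-, a, ha | ha, -, l⟩ := hv'
    · rcases cover (c1 0) (key 0 a ha l) with q | q
      · rcases cover (c1 1) (ik 0 1 xd q) with q' | q'
        · exact Or.inl (Or.inl ⟨q, q'⟩)
        · exact Or.inr q'
      · exact Or.inl (Or.inr q)
    · rcases cover (c1 1) (key 1 a ha l) with q | q
      · rcases cover (c1 0) (ik 1 0 xd.symm q) with q' | q'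
        · exact Or.inl (Or.inl ⟨q', q⟩)
        · exact Or.inl (Or.inr q')
      · exact Or.inr q
  · rintro v ⟨h0, h1⟩
    rcases c9 0 h0 with q | q
    · exact P.rest.2.2 0 q
    · rcases c9 1 h1 with q' | q'
      · exact P.rest.2.2 1 q'
      · exact P.rest.2.1 ⟨us q.1, fun z => z.elim q.2 q'.2⟩
  · obtain ⟨v, h1, h2⟩ := (hR j).2.2 i
    have hn : v ∉ (c i).In (res H' U'') U'' (c i).s := fun q =>
      disjoint_left.1 (c8 i) (c2 i ▸ q) h2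
    refine ⟨v, h1, (cover (c1 i) (xk i (tx i h2))).resolve_left fun q => hn ?_, hn⟩
    exact (hin V _ _ _ _ (c1 i).toFCol _ le_rfl).2.1 q
  · intro α hα
    refine P.asm α ?_
    refine (hd V H' U' α).2.2.2.2.2.1 ∅ U'' 0 _ (by simp) (by simpa using us) ?_ ?_
    · intro a ha y hy e
      rw [hU] at ha ⊢
      exact lk_closed ha hy.1 e
    · simpa only [List.map_cons, List.map_nil, del_empty] using hα

end Pool.Agent.MP_9d78a0_co.st

end MrgPart7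

-- marker of a merged file
example : 731051 + 284965 = 731051 + 284965 := rfl
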