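import Pool.Agent.MP_9d78a0_co.gm.Map
import Pool.Agent.MP_9d78a0_co.st.Del
import Pool.Agent.MP_9d78a0_co.st.Dbl

-- ======== part 0: formerly Pool.Agent.MP_9d78a0_co.fb.Cyl
section MrgPart0

/-! A large grid model contains a cylinder model. -/

set_option autoImplicit false

namespace Pool.Agent.MP_9d78a0_co.fb

open Set Function

namespace CylAux

theorem hseg (y a b : ℕ) (h : a ≤ b) :
    Conn gridN {z : ℕ × ℕ | z.2 = y ∧ a ≤ z.1 ∧ z.1 ≤ b} := by
  have k := conn_seg (G := gridN) (f := fun x => (x, y)) h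
    (fun i _ _ => Or.inr ⟨rfl, Or.inl rfl⟩)
  convert k using 1
  ext ⟨u, v⟩
  simp only [mem_ofPred_eq, mem_image, mem_Icc, Prod.mk.injEq]
  constructor
  · rintro ⟨h1, h2, h3⟩
    exact ⟨u, ⟨h2, h3⟩, rfl, h1.symm⟩
  · rintro ⟨x, ⟨h2, h3⟩, rfl, rfl⟩
    exact ⟨rfl, h2, h3⟩

theorem vseg (x a b : ℕ) (h : a ≤ b) :
    Conn gridN {z : ℕ × ℕ | z.1 = x ∧ a ≤ z.2 ∧ z.2 ≤ b} := by
  have k := conn_seg (G := gridN) (f := fun y => (x, y)) h
    (fun i _ _ => Or.inl ⟨rfl, Or.inl rfl⟩)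
  convert k using 1
  ext ⟨u, v⟩
  simp only [mem_ofPred_eq, mem_image, mem_Icc, Prod.mk.injEq]
  constructor
  · rintro ⟨h1, h2, h3⟩
    exact ⟨v, ⟨h2, h3⟩, h1.symm, rfl⟩
  · rintro ⟨y, ⟨h2, h3⟩, rfl, rfl⟩
    exact ⟨rfl, h2, h3⟩

theorem cunion {V : Type} {G : SimpleGraph V} {S T : Set V} (h : Conn G S) (h' : Conn G T) {x : V}
    (hx : x ∈ S) (hx' : x ∈ T) : Conn G (S ∪ T) := by
  refine conn_of_center (Or.inl hx) ?_
  rintro v (hv | hv)
  · exact (h.2 x hx v hv).mono subset_union_left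
  · exact (h'.2 x hx' v hv).mono subset_union_right

/-- the long cell of ring `i` -/
def long (N p i : ℕ) : Set (ℕ × ℕ) :=
  {z : ℕ × ℕ | z.2 = i ∧ N + p - 1 ≤ z.1 ∧ z.1 ≤ 2 * N + p - 1 - i} ∪
  {z : ℕ × ℕ | z.1 = 2 * N + p - 1 - i ∧ i ≤ z.2 ∧ z.2 ≤ 2 * N + p - 1 - i} ∪
  {z : ℕ × ℕ | z.2 = 2 * N + p - 1 - i ∧ i ≤ z.1 ∧ z.1 ≤ 2 * N + p - 1 - i} ∪
  {z : ℕ × ℕ | z.1 = i ∧ i ≤ z.2 ∧ z.2 ≤ 2 * N + p - 1 - i} ∪
  {z : ℕ × ℕ | z.2 = i ∧ i ≤ z.1 ∧ z.1 ≤ N - 1}

theorem long_conn {N p i : ℕ} (hp : 3 ≤ p) (hi : i < N) : Conn gridN (long N p i) := by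
  unfold long
  refine cunion (cunion (cunion (cunion (hseg _ _ _ (by omega)) (vseg _ _ _ (by omega))
    (x := (2 * N + p - 1 - i, i)) ?_ ?_) (hseg _ _ _ (by omega))
    (x := (2 * N + p - 1 - i, 2 * N + p - 1 - i)) ?_ ?_) (vseg _ _ _ (by omega))
    (x := (i, 2 * N + p - 1 - i)) ?_ ?_) (hseg _ _ _ (by omega)) (x := (i, i)) ?_ ?_
  all_goals simp only [mem_union, mem_ofPred_eq, true_and, le_refl, and_true]
  all_goals omega

/-- the cells in the grid -/
def cell (N p i j : ℕ) : Set (ℕ × ℕ) := if j + 1 < p then {(N + j, i)} else long N p i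

theorem mem_cell {N p i j : ℕ} {z : ℕ × ℕ} : z ∈ cell N p i j ↔
    (j + 1 < p ∧ z.1 = N + j ∧ z.2 = i) ∨ (p ≤ j + 1 ∧
      ((z.2 = i ∧ N + p - 1 ≤ z.1 ∧ z.1 ≤ 2 * N + p - 1 - i) ∨
      (z.1 = 2 * N + p - 1 - i ∧ i ≤ z.2 ∧ z.2 ≤ 2 * N + p - 1 - i) ∨
      (z.2 = 2 * N + p - 1 - i ∧ i ≤ z.1 ∧ z.1 ≤ 2 * N + p - 1 - i) ∨
      (z.1 = i ∧ i ≤ z.2 ∧ z.2 ≤ 2 * N + p - 1 - i) ∨
      (z.2 = i ∧ i ≤ z.1 ∧ z.1 ≤ N - 1))) := by
  unfold cell
  split_ifs with h
  · simp only [mem_singleton_iff, Prod.ext_iff]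
    exact ⟨fun k => Or.inl ⟨h, k⟩, fun k => k.elim (fun k => k.2) fun k => absurd k.1 (by omega)⟩
  · simp only [long, mem_union, mem_ofPred_eq, or_assoc]
    exact ⟨fun k => Or.inr ⟨by omega, k⟩, fun k => k.elim (fun k => absurd k.1 h) fun k => k.2⟩

theorem cell_conn {N p i j : ℕ} (hp : 3 ≤ p) (hi : i < N) : Conn gridN (cell N p i j) := by
  unfold cell
  split_ifs
  · exact conn_singleton _ _
  · exact long_conn hp hi

theorem cell_lt {N p i j : ℕ} (hp : 3 ≤ p) (hi : i < N) {z : ℕ × ℕ} (hz : z ∈ cell N p i j) :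
    z.1 < 2 * N + p ∧ z.2 < 2 * N + p := by
  rw [mem_cell] at hz
  omega

theorem cell_dis {N p i j i' j' : ℕ} (hp : 3 ≤ p) (hi : i < N) (hj : j < p) (hi' : i' < N)
    (hj' : j' < p) {z : ℕ × ℕ} (hz : z ∈ cell N p i j) (hz' : z ∈ cell N p i' j') :
    i = i' ∧ j = j' := by
  rw [mem_cell] at hz hz'
  obtain ⟨x, y⟩ := z
  dsimp only at hz hz'
  rcases hz with h | ⟨h0, h | h | h | h | h⟩ <;> rcases hz' with h' | ⟨h0', h' | h' | h' | h' | h'⟩ <;>
    omega

theorem cell_hor {N p i j : ℕ} (hp : 3 ≤ p) (hi : i < N) (hj : j < p) :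
    Touch gridN (cell N p i j) (cell N p i ((j + 1) % p)) := by
  by_cases h : j + 1 < p
  · rw [Nat.mod_eq_of_lt h]
    refine ⟨(N + j, i), mem_cell.2 ?_, (N + j + 1, i), mem_cell.2 ?_, Or.inr ⟨rfl, Or.inl rfl⟩⟩
    all_goals dsimp only
    all_goals omega
  · obtain rfl : p = j + 1 := by omega
    rw [Nat.mod_self]
    refine ⟨(N - 1, i), mem_cell.2 ?_, (N, i), mem_cell.2 ?_, Or.inr ⟨rfl, Or.inl ?_⟩⟩
    all_goals dsimp only
    all_goals omega

theorem cell_ver {N p i j : ℕ} (hp : 3 ≤ p) (hi : i + 1 < N) (hj : j < p) :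
    Touch gridN (cell N p i j) (cell N p (i + 1) j) := by
  refine ⟨(N + j, i), mem_cell.2 ?_, (N + j, i + 1), mem_cell.2 ?_, Or.inl ⟨rfl, Or.inl rfl⟩⟩
  all_goals dsimp only
  all_goals omega

variable {V : Type} {G : SimpleGraph V}

/-- four vertices of a connected set lie in a connected union of three paths -/
theorem three_paths {S : Set V} (h : Conn G S) (a : V) (b : Fin 3 → V) (ha : a ∈ S)
    (hb : ∀ t, b t ∈ S) : ∃ S' ⊆ S, Conn G S' ∧ a ∈ S' ∧ (∀ t, b t ∈ S') ∧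
      ∃ (f : Fin 3 → ℕ → V) (l : Fin 3 → ℕ), (∀ t, IsPath G S' (f t) (l t)) ∧
        ∀ v ∈ S', ∃ t, ∃ x ≤ l t, f t x = v := by
  choose f l hf h0 hl using fun t => link_path (h.2 a ha (b t) (hb t)) ha
  have ha' : a ∈ {v | ∃ t, ∃ x ≤ l t, f t x = v} := ⟨0, 0, Nat.zero_le _, h0 0⟩
  refine ⟨{v | ∃ t, ∃ x ≤ l t, f t x = v}, ?_, conn_of_center ha' ?_, ha',
    fun t => ⟨t, l t, le_rfl, hl t⟩, f, l, fun t => ⟨fun j hj => ⟨t, j, hj, rfl⟩, (hf t).2⟩,
    fun v hv => hv⟩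
  · rintro v ⟨t, x, hx, rfl⟩
    exact (hf t).1 x hx
  · rintro v ⟨t, x, hx, rfl⟩
    have k := conn_seg (G := G) (f := f t) (Nat.zero_le (l t)) fun i _ hi => (hf t).2.1 i hi
    have k2 := k.2 (f t 0) ⟨0, ⟨le_rfl, Nat.zero_le _⟩, rfl⟩ (f t x) ⟨x, ⟨Nat.zero_le _, hx⟩, rfl⟩
    rw [h0 t] at k2
    refine k2.mono ?_
    rintro v ⟨y, hy, rfl⟩
    exact ⟨t, y, hy.2, rfl⟩

/-- cells can be shrunk to unions of three paths -/
theorem shrink {U : Set V} {N p : ℕ} {C : ℕ → ℕ → Set V}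
    (conn : ∀ i < N, ∀ j < p, C i j ⊆ U ∧ Conn G (C i j))
    (dis : ∀ i < N, ∀ j < p, ∀ i' < N, ∀ j' < p, (i, j) ≠ (i', j') → Disjoint (C i j) (C i' j'))
    (hor : ∀ i < N, ∀ j < p, Touch G (C i j) (C i ((j + 1) % p)))
    (ver : ∀ i, i + 1 < N → ∀ j < p, Touch G (C i j) (C (i + 1) j)) : ∃ C', Cyl G U N p C' := by
  classical
  rcases isEmpty_or_nonempty V with hV | hV
  · refine ⟨C, conn, dis, hor, ver, fun i hi j hj => ?_⟩
    exact hV.elim (conn i hi j hj).2.1.some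
  choose! hu hhu hv hhv he using hor
  choose! vu hvu vv hvv ve using ver
  let pr : ℕ → ℕ := fun j => if j = 0 then p - 1 else j - 1
  have pr1 : ∀ j < p, pr j < p ∧ (pr j + 1) % p = j := fun j hj => by
    by_cases c : j = 0
    · have e : p - 1 + 1 = p := by omega
      simp only [pr, c, if_true, e, Nat.mod_self, and_true]
      omega
    · have e : j - 1 + 1 = j := by omega
      simp only [pr, c, if_false, e, Nat.mod_eq_of_lt hj, and_true]
      omega
  have pr2 : ∀ j < p, pr ((j + 1) % p) = j := fun j hj => by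
    by_cases c : j + 1 < p
    · simp [pr, Nat.mod_eq_of_lt c]
    · obtain rfl : p = j + 1 := by omega
      simp [pr]
  let b : ℕ → ℕ → Fin 3 → V := fun i j =>
    ![hv i (pr j), if i + 1 < N then vu i j else hu i j, if 0 < i then vv (i - 1) j else hu i j]
  have hb : ∀ i < N, ∀ j < p, ∀ t, b i j t ∈ C i j := fun i hi j hj t => by
    fin_cases t
    · have k := hhv i hi (pr j) (pr1 j hj).1
      rw [(pr1 j hj).2] at k
      exact k
    · show (if i + 1 < N then vu i j else hu i j) ∈ C i j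
      split_ifs with c
      exacts [hvu i c j hj, hhu i hi j hj]
    · show (if 0 < i then vv (i - 1) j else hu i j) ∈ C i j
      split_ifs with c
      · have e : i - 1 + 1 = i := by omega
        have k := hvv (i - 1) (by omega) j hj
        rwa [e] at k
      · exact hhu i hi j hj
  choose! C' h1 h2 h3 h4 h5 using fun i (hi : i < N) j (hj : j < p) =>
    three_paths (conn i hi j hj).2 (hu i j) (b i j) (hhu i hi j hj) (hb i hi j hj)
  refine ⟨C', fun i hi j hj => ⟨(h1 i hi j hj).trans (conn i hi j hj).1, h2 i hi j hj⟩,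
    fun i hi j hj i' hi' j' hj' e => (dis i hi j hj i' hi' j' hj' e).mono (h1 i hi j hj)
      (h1 i' hi' j' hj'), fun i hi j hj => ?_, fun i hi j hj => ?_, h5⟩
  · have k : hv i (pr ((j + 1) % p)) ∈ C' i ((j + 1) % p) :=
      h4 i hi ((j + 1) % p) (Nat.mod_lt _ (by omega)) 0
    rw [pr2 j hj] at k
    exact ⟨_, h3 i hi j hj, _, k, he i hi j hj⟩
  · have k : (if i + 1 < N then vu i j else hu i j) ∈ C' i j := h4 i (by omega) j hj 1
    have k' : (if 0 < i + 1 then vv (i + 1 - 1) j else hu (i + 1) j) ∈ C' (i + 1) j :=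
      h4 (i + 1) hi j hj 2
    rw [if_pos hi] at k
    rw [if_pos (Nat.succ_pos i), Nat.add_sub_cancel] at k'
    exact ⟨_, k, _, k', ve i hi j hj⟩

end CylAux

open CylAux in
theorem cylS : CylS := by
  intro N p hp
  refine ⟨2 * N + p, by omega, fun V G U B hB => ?_⟩
  obtain ⟨b1, b2, b3, b4⟩ := hB
  let B' : ℕ × ℕ → Set V := fun z =>
    if h : z.1 < 2 * N + p ∧ z.2 < 2 * N + p then B (⟨z.1, h.1⟩, ⟨z.2, h.2⟩) else ∅
  have e : ∀ z (h : z.1 < 2 * N + p ∧ z.2 < 2 * N + p), B' z = B (⟨z.1, h.1⟩, ⟨z.2, h.2⟩) :=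
    fun z h => dif_pos h
  have tc : ∀ z z', z.1 < 2 * N + p ∧ z.2 < 2 * N + p → z'.1 < 2 * N + p ∧ z'.2 < 2 * N + p →
      gridN.Adj z z' → Touch G (B' z) (B' z') := fun z z' h h' a => by
    rw [e z h, e z' h']
    exact b4 _ _ a
  have tc2 : ∀ i < N, ∀ j, ∀ i' < N, ∀ j', Touch gridN (cell N p i j) (cell N p i' j') →
      Touch G (⋃ z ∈ cell N p i j, B' z) (⋃ z ∈ cell N p i' j', B' z) := by
    rintro i hi j i' hi' j' ⟨z, hz, z', hz', a⟩
    exact (tc z z' (cell_lt hp hi hz) (cell_lt hp hi' hz') a).mono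
      (subset_biUnion_of_mem (u := B') hz) (subset_biUnion_of_mem (u := B') hz')
  refine shrink (C := fun i j => ⋃ z ∈ cell N p i j, B' z) (fun i hi j _ => ⟨?_, ?_⟩)
    (fun i hi j hj i' hi' j' hj' ne => ?_)
    (fun i hi j hj => tc2 i hi j i hi _ (cell_hor hp hi hj))
    (fun i hi j hj => tc2 i (by omega) j (i + 1) hi j (cell_ver hp hi hj))
  · refine iUnion₂_subset fun z hz => ?_
    rw [e z (cell_lt hp hi hz)]
    exact b1 _
  · obtain ⟨⟨z0, h0⟩, hc⟩ := cell_conn (j := j) hp hi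
    refine conn_biUnion h0 (fun z hz => ?_) fun z hz => ?_
    · rw [e z (cell_lt hp hi hz)]
      exact b2 _
    · have k := hc z0 h0 z hz
      clear hz
      induction k with
      | refl => exact Relation.ReflTransGen.refl
      | tail _ a ih =>
        exact ih.tail ⟨a.1, a.2.1,
          Or.inr (tc _ _ (cell_lt hp hi a.1) (cell_lt hp hi a.2.1) a.2.2)⟩
  · simp only [disjoint_iUnion_left, disjoint_iUnion_right]
    intro z' hz' z hz
    rw [e z (cell_lt hp hi hz), e z' (cell_lt hp hi' hz')]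
    refine b3 _ _ fun c => ne ?_
    have c1 : z = z' := by
      simp only [Prod.mk.injEq, Fin.mk.injEq] at c
      exact Prod.ext c.1 c.2
    subst c1
    obtain ⟨rfl, rfl⟩ := cell_dis hp hi hj hi' hj' hz hz'
    rfl

end Pool.Agent.MP_9d78a0_co.fb

end MrgPart0

-- ======== part 1: formerly Pool.Agent.MP_9d78a0_co.st.Coar
section MrgPart1

/-! Row COAR: fewer rings, fewer columns, thin cells. -/

set_option autoImplicit false

namespace Pool.Agent.MP_9d78a0_co.st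

open Set Function fb

namespace Coar

variable {V : Type} {H : SimpleGraph V} {U : Set V} {Ω : List V} {c : CD V}

theorem lk_link {S A : Set V} {a v : V} (h : Link H S a v) (ha : a ∈ A) (hs : a ∈ S) :
    v ∈ lk H S A ∧ Link H (lk H S A) a v := by
  induction h with
  | refl => exact ⟨⟨hs, a, ha, hs, Link.refl _ _ _⟩, Link.refl _ _ _⟩
  | @tail x y h1 h2 ih =>
    have k : y ∈ lk H S A := ⟨h2.2.1, a, ha, hs, Relation.ReflTransGen.tail h1 h2⟩
    exact ⟨k, ih.2.trans (Link.single ih.1 k h2.2.2)⟩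

theorem sub_lk {S A : Set V} (h : A ⊆ S) : A ⊆ lk H S A :=
  fun a ha => ⟨h ha, a, ha, h ha, Link.refl _ _ _⟩

theorem lk_conn {S A : Set V} (h : A ⊆ S) (hA : Conn H A) : Conn H (lk H S A) := by
  obtain ⟨a, ha⟩ := hA.1
  refine conn_of_center (sub_lk h ha) ?_
  rintro v ⟨-, b, hb, hs, k⟩
  exact ((hA.2 a ha b hb).mono (sub_lk h)).trans (lk_link k hb hs).2

theorem hf_mono {I J : Set V} (h : HF H U Ω I) (hI : I ⊆ J) : HF H U Ω J :=
  fun a b c d s P Q t h1 h2 h3 h4 =>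
    (h a b c d s P Q t h1 h2 h3 h4).imp (·.mono (inter_subset_inter_right _ hI))
      (·.mono (inter_subset_inter_right _ hI))

theorem cell_up {l l' i : ℕ} (h : l ≤ l') (h' : l' ≤ c.s) : c.C l' i ⊆ c.up l i :=
  fun _ hv => Or.inr ⟨l', h, h', hv⟩

theorem up_mono {l l' i : ℕ} (h : l ≤ l') : c.up l' i ⊆ c.up l i := by
  rintro v (k | ⟨m, h1, h2, h3⟩)
  exacts [Or.inl k, Or.inr ⟨m, h.trans h1, h2, h3⟩]

theorem ring_conn (h : FCol H U Ω c) {m : ℕ} (hm : m ≤ c.s) : Conn H (c.ring m) := by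
  have t4 := h.t4
  have k := conn_chain (G := H) (S := c.C m) (Nat.zero_le (c.t - 1))
    (fun i hi => (h.cell m hm i (by have := hi.2; omega)).2) fun i _ hi => Or.inr (by
      have := h.hor m hm i (by omega)
      rwa [Nat.mod_eq_of_lt (by omega)] at this)
  convert k using 1
  ext v
  simp only [CD.ring, mem_ofPred_eq, mem_iUnion, mem_Icc, exists_prop]
  exact ⟨fun ⟨i, h1, h2⟩ => ⟨i, ⟨Nat.zero_le _, by omega⟩, h2⟩,
    fun ⟨i, h1, h2⟩ => ⟨i, by omega, h2⟩⟩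

theorem up_conn (h : FCol H U Ω c) {l i : ℕ} (hl : l ≤ c.s) (hi : i < c.t) : Conn H (c.up l i) := by
  have k := conn_chain (G := H) (S := fun m => c.C m i) hl
    (fun m hm => (h.cell m hm.2 i hi).2) fun m _ hm => Or.inr (h.ver m hm i hi)
  have k2 := conn_union_touch (h.lam i hi).2.1 k ((h.lam i hi).2.2.1.symm.mono subset_rfl
    (subset_biUnion_of_mem (u := fun m => c.C m i) (right_mem_Icc.2 hl)))
  convert k2 using 1
  ext v
  simp only [CD.up, mem_union, mem_ofPred_eq, mem_iUnion, mem_Icc, exists_prop, and_assoc]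

theorem in_sub (hin : InS) {c' : CD V} (h : FCol H U Ω c) (h' : FCol H U Ω c') (hI : c.I ⊆ c'.I)
    {l m i : ℕ} (hl : l ≤ c'.s) (hm : m ≤ c.s) (hd : Disjoint (c.ring m) (c'.ring l))
    (hi : i < c'.t) (hw : (c.ring m ∩ c'.up l i).Nonempty) : c'.In H U l ⊆ c.In H U m := by
  obtain ⟨a1, a2, -, a4, -, a6⟩ := hin V H U Ω c' h' l hl
  obtain ⟨w, w1, w2⟩ := hw
  have key : c'.In H U l ⊆ U \ c.ring m := fun v hv => ⟨hv.1.1, fun k => by
    have e : ∀ x, Link H (c.ring m) v x → x ∈ c'.In H U l := by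
      intro x hx
      induction hx with
      | refl => exact hv
      | tail _ h2 ih => exact (a6 _ ih _ h2.2.2).resolve_right (disjoint_left.1 hd h2.2.1)
    exact disjoint_left.1 (a4 i hi).1 (e w ((ring_conn h hm).2 v k w w1)) w2⟩
  obtain ⟨a, ha⟩ := h.hub.2.1.1
  have ha' := a2 (hI ha)
  exact fun v hv => ⟨key hv, a, ha, key ha', (a1.2 a ha' v hv).mono key⟩

/-- the hub is saturated -/
theorem sat (hin : InS) (h : FCol H U Ω c) : FCol H U Ω {c with I := c.In H U 0} := by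
  obtain ⟨a1, a2, a3, a4, -, -⟩ := hin V H U Ω c h 0 (Nat.zero_le _)
  exact ⟨h.soc, h.rot, h.t4, fun l hl i hi => ⟨fun v hv => ⟨((h.cell l hl i hi).1 hv).1, fun k =>
      k.elim (fun k => disjoint_left.1 (a4 i hi).1 k (cell_up (Nat.zero_le _) hl hv))
        fun k => ((h.cell l hl i hi).1 hv).2 (Or.inr k)⟩, (h.cell l hl i hi).2⟩,
    h.dis, h.hor, h.ver, fun i hi => ⟨fun v hv => ⟨((h.lam i hi).1 hv).1, fun k =>
      disjoint_left.1 (a4 i hi).1 k (Or.inl hv)⟩, (h.lam i hi).2⟩, h.lamd,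
    ⟨fun _ hv => hv.1.1, a1, a3, fun i hi => (a4 i hi).2⟩, hf_mono h.flat a2⟩

/-- smaller cells -/
theorem small (h : FCol H U Ω c) {C' : ℕ → ℕ → Set V}
    (h1 : ∀ l ≤ c.s, ∀ i < c.t, C' l i ⊆ c.C l i ∧ Conn H (C' l i))
    (h2 : ∀ l ≤ c.s, ∀ i < c.t, Touch H (C' l i) (C' l ((i + 1) % c.t)))
    (h3 : ∀ l < c.s, ∀ i < c.t, Touch H (C' l i) (C' (l + 1) i))
    (h4 : ∀ i < c.t, Touch H (C' c.s i) (c.Λ i)) :
    ∃ J, c.I ⊆ J ∧ FCol H U Ω {c with C := C', I := J} := by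
  let S : Set V := c.I ∪ (c.ring 0 \ {v | ∃ i < c.t, v ∈ C' 0 i})
  have hS : c.I ⊆ S := subset_union_left
  have z : 0 ≤ c.s := Nat.zero_le _
  refine ⟨lk H S c.I, sub_lk hS, h.soc, h.rot, h.t4, fun l hl i hi => ⟨fun v hv => ?_,
    (h1 l hl i hi).2⟩, fun l hl i hi l' hl' i' hi' e =>
      (h.dis l hl i hi l' hl' i' hi' e).mono (h1 l hl i hi).1 (h1 l' hl' i' hi').1, h2, h3,
    fun i hi => ⟨fun v hv => ⟨((h.lam i hi).1 hv).1, ?_⟩, (h.lam i hi).2.1, h4 i hi,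
      (h.lam i hi).2.2.2⟩, fun i hi j hj => ⟨(h.lamd i hi j hj).1, fun l hl =>
      ((h.lamd i hi j hj).2 l hl).mono_right (h1 l hl j hj).1⟩,
    ⟨?_, lk_conn hS h.hub.2.1, disjoint_left.2 ?_, fun i hi => ?_⟩, hf_mono h.flat (sub_lk hS)⟩
  · have k := (h.cell l hl i hi).1 ((h1 l hl i hi).1 hv)
    refine ⟨k.1, ?_⟩
    rintro (⟨a | ⟨⟨x, hx, a⟩, b⟩, -⟩ | a)
    · exact k.2 (Or.inl a)
    · by_cases e : l = 0
      · subst e
        exact b ⟨i, hi, hv⟩
      · exact disjoint_left.1 (h.dis l hl i hi 0 z x hx fun d => e (Prod.ext_iff.1 d).1)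
          ((h1 l hl i hi).1 hv) a
    · exact k.2 (Or.inr a)
  · rintro ⟨a | ⟨⟨x, hx, a⟩, -⟩, -⟩
    · exact ((h.lam i hi).1 hv).2 a
    · exact disjoint_left.1 ((h.lamd i hi x hx).2 0 z) hv a
  · rintro v ⟨a | ⟨⟨x, hx, a⟩, -⟩, -⟩
    exacts [h.hub.1 a, ((h.cell 0 z x hx).1 a).1]
  · rintro v ⟨a | ⟨⟨x, hx, a⟩, -⟩, -⟩ b
    exacts [disjoint_left.1 h.hub.2.2.1 a b, ((h.cell 0 z x hx).1 a).2 (Or.inr b)]
  · obtain ⟨y, hy, x, hx, e⟩ := h.hub.2.2.2 i hi
    by_cases d : x ∈ C' 0 i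
    · exact ⟨y, sub_lk hS hy, x, d, e⟩
    obtain ⟨w, hw⟩ := (h1 0 z i hi).2.1
    obtain ⟨x', y', b1, -, b3, b4, b5, b6⟩ := link_exit (T := (C' 0 i)ᶜ)
      ((h.cell 0 z i hi).2.2 x hx w ((h1 0 z i hi).1 hw)) d fun k => k hw
    have sb : c.C 0 i ∩ (C' 0 i)ᶜ ⊆ S := by
      rintro v ⟨a, b⟩
      refine Or.inr ⟨⟨i, hi, a⟩, fun ⟨i', hi', k⟩ => ?_⟩
      by_cases e : i = i'
      · exact b (e ▸ k)
      · exact disjoint_left.1 (h.dis 0 z i hi 0 z i' hi' fun d => e (Prod.ext_iff.1 d).2) a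
          ((h1 0 z i' hi').1 k)
    exact ⟨x', ⟨sb ⟨b1, b3⟩, y, hy, hS hy,
      (Link.single (hS hy) (sb ⟨hx, d⟩) e).trans (b6.mono sb)⟩, y', not_not.1 b4, b5⟩

/-- thin cells -/
theorem thin (h : FCol H U Ω c) {E : ℕ → Set V} (hE : ∀ i < c.t, Touch H (E i) (c.C 0 i)) :
    ∃ C' J, c.I ⊆ J ∧ FCol H U Ω {c with C := C', I := J} ∧
      (∀ l ≤ c.s, ∀ i < c.t, C' l i ⊆ c.C l i ∧ Thin H (C' l i)) ∧
      ∀ i < c.t, Touch H (E i) (C' 0 i) := by
  classical
  have t4 := h.t4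
  have : Nonempty V := ⟨h.hub.2.1.1.some⟩
  choose! hu hhu hv hhv he using h.hor
  choose! vu hvu vv hvv ve using h.ver
  choose! lu hlu lv hlv le using fun i hi => (h.lam i hi).2.2.1
  choose! eu heu ev hev ee using hE
  let pr : ℕ → ℕ := fun j => if j = 0 then c.t - 1 else j - 1
  have pr1 : ∀ j < c.t, pr j < c.t ∧ (pr j + 1) % c.t = j := fun j hj => by
    by_cases d : j = 0
    · have e : c.t - 1 + 1 = c.t := by omega
      simp only [pr, d, if_true, e, Nat.mod_self, and_true]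
      omega
    · have e : j - 1 + 1 = j := by omega
      simp only [pr, d, if_false, e, Nat.mod_eq_of_lt hj, and_true]
      omega
  have pr2 : ∀ j < c.t, pr ((j + 1) % c.t) = j := fun j hj => by
    by_cases d : j + 1 < c.t
    · rw [Nat.mod_eq_of_lt d]
      simp [pr]
    · have e : j + 1 = c.t := by omega
      rw [e, Nat.mod_self]
      simp only [pr, if_true]
      omega
  let b : ℕ → ℕ → Fin 3 → V := fun l i =>
    ![hv l (pr i), if l < c.s then vu l i else lu i, if l = 0 then ev i else vv (l - 1) i]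
  have hb : ∀ l ≤ c.s, ∀ i < c.t, ∀ t, b l i t ∈ c.C l i := fun l hl i hi t => by
    fin_cases t
    · have k := hhv l hl _ (pr1 i hi).1
      rwa [(pr1 i hi).2] at k
    · change (if l < c.s then vu l i else lu i) ∈ _
      split_ifs with d
      · exact hvu l d i hi
      · obtain rfl : l = c.s := by omega
        exact hlu i hi
    · change (if l = 0 then ev i else vv (l - 1) i) ∈ _
      split_ifs with d
      · exact d ▸ hev i hi
      · have k := hvv (l - 1) (by omega) i hi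
        rwa [Nat.sub_add_cancel (by omega)] at k
  choose! C' h1 h2 h3 h4 h5 using fun l (hl : l ≤ c.s) i (hi : i < c.t) =>
    CylAux.three_paths (h.cell l hl i hi).2 (hu l i) (b l i) (hhu l hl i hi) (hb l hl i hi)
  obtain ⟨J, j1, j2⟩ := small h (C' := C') (fun l hl i hi => ⟨h1 l hl i hi, h2 l hl i hi⟩)
    (fun l hl i hi => by
      have k : hv l (pr ((i + 1) % c.t)) ∈ C' l ((i + 1) % c.t) :=
        h4 l hl _ (Nat.mod_lt _ (by omega)) 0
      rw [pr2 i hi] at k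
      exact ⟨_, h3 l hl i hi, _, k, he l hl i hi⟩)
    (fun l hl i hi => by
      have k : (if l < c.s then vu l i else lu i) ∈ C' l i := h4 l hl.le i hi 1
      have k' : (if l + 1 = 0 then ev i else vv (l + 1 - 1) i) ∈ C' (l + 1) i :=
        h4 (l + 1) hl i hi 2
      rw [if_pos hl] at k
      rw [if_neg (Nat.succ_ne_zero l), Nat.add_sub_cancel] at k'
      exact ⟨_, k, _, k', ve l hl i hi⟩)
    (fun i hi => by
      have k : (if c.s < c.s then vu c.s i else lu i) ∈ C' c.s i := h4 c.s le_rfl i hi 1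
      rw [if_neg (lt_irrefl _)] at k
      exact ⟨_, k, _, hlv i hi, le i hi⟩)
  refine ⟨C', J, j1, j2, fun l hl i hi => ⟨h1 l hl i hi, h5 l hl i hi⟩, fun i hi => ?_⟩
  have k : (if 0 = 0 then ev i else vv (0 - 1) i) ∈ C' 0 i := h4 0 (Nat.zero_le _) i hi 2
  rw [if_pos rfl] at k
  exact ⟨_, heu i hi, _, k, ee i hi⟩

/-- the letters of the columns `a, …, b - 1` -/
def rng (c : CD V) (a b : ℕ) : List V :=
  (List.range' a (b - a)).flatMap fun j => c.o j :: c.seg j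

theorem rng_app {a b d : ℕ} (h : a ≤ b) (h' : b ≤ d) : rng c a b ++ rng c b d = rng c a d := by
  obtain ⟨m, rfl⟩ := Nat.exists_eq_add_of_le h
  obtain ⟨n, rfl⟩ := Nat.exists_eq_add_of_le h'
  rw [rng, rng, rng, ← List.flatMap_append, Nat.add_sub_cancel_left, Nat.add_sub_cancel_left,
    List.range'_append_1, Nat.add_assoc, Nat.add_sub_cancel_left]

theorem rng_cons {a b : ℕ} (h : a < b) : rng c a b = c.o a :: (c.seg a ++ rng c (a + 1) b) := by
  rw [← rng_app (Nat.le_succ a) h]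
  simp [rng]

/-- the end of block `i` -/
def nx (t t' : ℕ) (φ : ℕ → ℕ) (i : ℕ) : ℕ := if i + 1 < t' then φ (i + 1) else t + φ 0

/-- merged cells -/
def mg (c : CD V) (I : Set V) (j s' t' : ℕ) (φ : ℕ → ℕ) : CD V where
  I := I
  s := s'
  t := t'
  C := fun l i => ⋃ y ∈ Icc (φ i) (nx c.t t' φ i - 1), c.C (j + l) (y % c.t)
  Λ := fun i => c.up (j + s' + 1) (φ i)
  o := fun i => c.o (φ i)
  seg := fun i => if i + 1 < t' then c.seg (φ i) ++ rng c (φ i + 1) (φ (i + 1))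
    else c.seg (φ i) ++ rng c (φ i + 1) c.t ++ rng c 0 (φ 0)

section merge

variable {I : Set V} {j s' t' : ℕ} {φ : ℕ → ℕ}

theorem mg_rot (h4 : 4 ≤ t') (hm : ∀ i i', i < i' → i' < t' → φ i < φ i')
    (hφ : ∀ i < t', φ i < c.t) :
    List.IsRotated (cyc c.o c.seg c.t) (cyc (mg c I j s' t' φ).o (mg c I j s' t' φ).seg t') := by
  have k : ∀ m < t', φ 0 ≤ φ m ∧ cyc (mg c I j s' t' φ).o (mg c I j s' t' φ).seg m =
      rng c (φ 0) (φ m) := by
    intro m
    induction m with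
    | zero => exact fun _ => ⟨le_rfl, by simp [cyc, rng]⟩
    | succ m ih =>
      intro h
      obtain ⟨a, b⟩ := ih (by omega)
      have d := hm m (m + 1) (by omega) h
      refine ⟨by omega, ?_⟩
      rw [← rng_app a d.le, ← b, rng_cons d]
      simp [cyc, List.range_succ, mg, h]
  obtain ⟨m, rfl⟩ : ∃ m, t' = m + 1 := ⟨t' - 1, by omega⟩
  obtain ⟨a, b⟩ := k m (by omega)
  have d := hφ m (by omega)
  have e1 : cyc (mg c I j s' (m + 1) φ).o (mg c I j s' (m + 1) φ).seg (m + 1) =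
      rng c (φ 0) c.t ++ rng c 0 (φ 0) := by
    rw [← rng_app a d.le, ← b, rng_cons d]
    simp [cyc, List.range_succ, mg]
  have e2 : cyc c.o c.seg c.t = rng c 0 (φ 0) ++ rng c (φ 0) c.t := by
    rw [rng_app (Nat.zero_le _) (by omega), rng, cyc, List.range_eq_range', Nat.sub_zero]
  rw [e1, e2]
  exact List.isRotated_append

theorem nx_gt (hm : ∀ i i', i < i' → i' < t' → φ i < φ i') (hφ : ∀ i < t', φ i < c.t) {i : ℕ}
    (hi : i < t') : φ i < nx c.t t' φ i := by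
  unfold nx
  split_ifs with d
  · exact hm i _ (by omega) d
  · have := hφ i hi
    omega

theorem mg_mem (hm : ∀ i i', i < i' → i' < t' → φ i < φ i') (hφ : ∀ i < t', φ i < c.t) {l i : ℕ}
    (hi : i < t') {v : V} (h : v ∈ (mg c I j s' t' φ).C l i) : ∃ x < c.t, v ∈ c.C (j + l) x ∧
      ((φ i ≤ x ∧ (i + 1 < t' → x < φ (i + 1))) ∨ (i + 1 = t' ∧ x < φ 0)) := by
  obtain ⟨y, ⟨h1, h2⟩, h3⟩ := mem_iUnion₂.1 h
  have a := nx_gt hm hφ hi
  have b := hφ i hi
  have b0 := hφ 0 (by omega)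
  refine ⟨y % c.t, Nat.mod_lt _ (by omega), h3, ?_⟩
  unfold nx at a h2
  split_ifs at a h2 with d
  · have := hφ _ d
    rw [Nat.mod_eq_of_lt (by omega)]
    exact Or.inl ⟨h1, fun _ => by omega⟩
  · by_cases e : y < c.t
    · rw [Nat.mod_eq_of_lt e]
      exact Or.inl ⟨h1, fun k => absurd k d⟩
    · rw [Nat.mod_eq_sub_mod (by omega), Nat.mod_eq_of_lt (by omega)]
      exact Or.inr ⟨by omega, by omega⟩

theorem mg_sub (hm : ∀ i i', i < i' → i' < t' → φ i < φ i') (hφ : ∀ i < t', φ i < c.t) {l i : ℕ}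
    (hi : i < t') : c.C (j + l) (φ i) ⊆ (mg c I j s' t' φ).C l i := fun v hv =>
  mem_iUnion₂.2 ⟨φ i, ⟨le_rfl, by have := nx_gt hm hφ hi; omega⟩, by
    rwa [Nat.mod_eq_of_lt (hφ i hi)]⟩

theorem up_dis (h : FCol H U Ω c) {l x y : ℕ} (hx : x < c.t) (hy : y < c.t) (e : x ≠ y) :
    Disjoint (c.up l x) (c.up l y) := by
  rw [disjoint_left]
  rintro v (a | ⟨m, -, a1, a⟩) (b | ⟨m', -, b1, b⟩)
  · exact disjoint_left.1 ((h.lamd x hx y hy).1 e) a b
  · exact disjoint_left.1 ((h.lamd x hx y hy).2 m' b1) a b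
  · exact disjoint_left.1 ((h.lamd y hy x hx).2 m a1) b a
  · exact disjoint_left.1 (h.dis m a1 x hx m' b1 y hy fun d => e (Prod.ext_iff.1 d).2) a b

theorem merge (hin : InS) (h : FCol H U Ω c) (hs : j + s' < c.s) (h4 : 4 ≤ t')
    (hm : ∀ i i', i < i' → i' < t' → φ i < φ i') (hφ : ∀ i < t', φ i < c.t) :
    FCol H U Ω (mg c (c.In H U j) j s' t' φ) := by
  obtain ⟨a1, a2, a3, a4, -, -⟩ := hin V H U Ω c h j (by omega)
  have t4 := h.t4
  have hr : ∀ l ≤ s', ∀ y, Touch H (c.C (j + l) (y % c.t)) (c.C (j + l) ((y + 1) % c.t)) :=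
    fun l hl y => by
      have := h.hor (j + l) (by omega) (y % c.t) (Nat.mod_lt _ (by omega))
      rwa [Nat.mod_add_mod] at this
  refine ⟨h.soc, h.rot.trans (mg_rot h4 hm hφ), h4, fun l (hl : l ≤ s') i (hi : i < t') =>
    ⟨fun v hv => ?_, ?_⟩, fun l (hl : l ≤ s') i (hi : i < t') l' (hl' : l' ≤ s') i'
      (hi' : i' < t') e => disjoint_left.2 fun v hv hv' => ?_,
    fun l (hl : l ≤ s') i (hi : i < t') => ?_, fun l (hl : l < s') i (hi : i < t') => ?_,
    fun i (hi : i < t') => ⟨fun v hv => ⟨?_, fun k => ?_⟩, up_conn h hs (hφ i hi), ?_, ?_⟩,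
    fun i (hi : i < t') i' (hi' : i' < t') => ⟨fun e => up_dis h (hφ i hi) (hφ i' hi') ?_,
      fun l (hl : l ≤ s') => disjoint_left.2 fun v hv hv' => ?_⟩,
    ⟨fun _ hv => hv.1.1, a1, a3, fun i (hi : i < t') =>
      (a4 _ (hφ i hi)).2.mono subset_rfl (mg_sub (l := 0) hm hφ hi)⟩, hf_mono h.flat a2⟩
  · obtain ⟨x, hx, k, -⟩ := mg_mem hm hφ hi hv
    have b := (h.cell (j + l) (by omega) x hx).1 k
    refine ⟨b.1, ?_⟩
    rintro (d | d)
    · exact disjoint_left.1 (a4 x hx).1 d (cell_up (by omega) (by omega) k)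
    · exact b.2 (Or.inr d)
  · exact conn_chain (S := fun y => c.C (j + l) (y % c.t)) (by have := nx_gt hm hφ hi; omega)
      (fun y _ => (h.cell (j + l) (by omega) _ (Nat.mod_lt _ (by omega))).2)
      fun y _ _ => Or.inr (hr l hl y)
  · obtain ⟨x, hx, k, b⟩ := mg_mem hm hφ hi hv
    obtain ⟨x', hx', k', b'⟩ := mg_mem hm hφ hi' hv'
    refine disjoint_left.1 (h.dis (j + l) (by omega) x hx (j + l') (by omega) x' hx' fun d => e ?_)
      k k'
    obtain ⟨d1, rfl⟩ := Prod.ext_iff.1 d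
    have mono : ∀ a a', a ≤ a' → a' < t' → φ a ≤ φ a' := fun a a' p q =>
      p.eq_or_lt.elim (fun r => r ▸ le_rfl) fun r => (hm a a' r q).le
    have m1 := mono 0 i (by omega) hi
    have m2 := mono 0 i' (by omega) hi'
    have m3 := fun p => mono (i + 1) i' p hi'
    have m4 := fun p => mono (i' + 1) i p hi
    simp only at d1 hx' b b'
    refine Prod.ext (by simpa using d1) ?_
    change i = i'
    omega
  · have g := nx_gt hm hφ hi
    have k := hr l hl (nx c.t t' φ i - 1)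
    have e : (nx c.t t' φ i - 1 + 1) % c.t = φ ((i + 1) % t') := by
      rw [Nat.sub_add_cancel (by omega), nx]
      split_ifs with d
      · rw [Nat.mod_eq_of_lt d, Nat.mod_eq_of_lt (hφ _ d)]
      · rw [show i + 1 = t' by omega, Nat.mod_self, Nat.add_mod_left,
          Nat.mod_eq_of_lt (hφ 0 (by omega))]
    rw [e] at k
    exact k.mono (subset_biUnion_of_mem (u := fun y => c.C (j + l) (y % c.t))
      (right_mem_Icc.2 (by omega))) (mg_sub hm hφ (Nat.mod_lt _ (by omega)))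
  · exact (h.ver (j + l) (by omega) _ (hφ i hi)).mono (mg_sub hm hφ hi)
      (mg_sub (l := l + 1) hm hφ hi)
  · rcases hv with k | ⟨m, -, k1, k⟩
    exacts [((h.lam _ (hφ i hi)).1 k).1, ((h.cell m k1 _ (hφ i hi)).1 k).1]
  · exact disjoint_left.1 (a4 _ (hφ i hi)).1 k (up_mono (by omega) hv)
  · exact (h.ver (j + s') hs _ (hφ i hi)).mono (mg_sub hm hφ hi) (cell_up le_rfl hs)
  · change c.up _ _ ∩ _ = {c.o (φ i)}
    rw [← (h.lam _ (hφ i hi)).2.2.2]
    refine subset_antisymm ?_ (inter_subset_inter_left _ subset_union_left)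
    rintro v ⟨k | ⟨m, -, k1, k⟩, b⟩
    exacts [⟨k, b⟩, absurd (Or.inr b) ((h.cell m k1 _ (hφ i hi)).1 k).2]
  · rcases lt_or_gt_of_ne e with d | d
    exacts [(hm _ _ d hi').ne, (hm _ _ d hi).ne']
  · obtain ⟨x, hx, k', -⟩ := mg_mem hm hφ hi' hv'
    rcases hv with k | ⟨m, k0, k1, k⟩
    · exact disjoint_left.1 ((h.lamd _ (hφ i hi) x hx).2 (j + l) (by omega)) k k'
    · refine disjoint_left.1 (h.dis m k1 _ (hφ i hi) (j + l) (by omega) x hx fun d => ?_) k k'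
      have := (Prod.ext_iff.1 d).1
      simp only at this
      omega

end merge

end Coar

open Coar in
theorem coarS : InS → CoarS := by
  intro hin V H U Ω c j s' t' φ E h hs h4 hm hφ hE
  have h1 := merge hin h hs h4 hm hφ
  obtain ⟨C', J, j1, h2, h3, h5⟩ := thin h1 (E := E) fun i hi =>
    (hE i hi).mono subset_rfl (mg_sub (l := 0) hm hφ hi)
  have h6 := sat hin h2
  obtain ⟨-, a2, -, -, -, a6⟩ := hin V H U Ω _ h2 0 (Nat.zero_le _)
  have i0 : c.I ⊆ c.In H U j := (hin V H U Ω c h j (by omega)).2.1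
  have mem : ∀ l ≤ s', ∀ i < t', ∀ v ∈ C' l i, ∃ x < c.t, v ∈ c.C (j + l) x ∧
      ((φ i ≤ x ∧ (i + 1 < t' → x < φ (i + 1))) ∨ (i + 1 = t' ∧ x < φ 0)) :=
    fun l hl i hi v hv => mg_mem hm hφ hi ((h3 l hl i hi).1 hv)
  have dis : ∀ l ≤ s', ∀ m ≤ c.s, j + l < m → Disjoint (c.ring m) {v | ∃ i < t', v ∈ C' l i} := by
    intro l hl m k1 k2
    rw [disjoint_left]
    rintro v ⟨x, hx, a⟩ ⟨i, hi, b⟩
    obtain ⟨y, hy, d, -⟩ := mem l hl i hi v b
    refine disjoint_left.1 (h.dis m k1 x hx (j + l) (by omega) y hy fun e => ?_) a d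
    have := (Prod.ext_iff.1 e).1
    simp only at this
    omega
  have p0 := hφ 0 (by omega)
  refine ⟨_, ⟨h6, fun l hl i hi => (h3 l hl i hi).2, a6⟩, rfl, rfl, j1.trans a2, ?_, ?_,
    fun i hi => ⟨rfl, rfl, h5 i hi, fun l hl => mem l hl i hi⟩⟩
  · refine in_sub hin (i := 0) h h2 (i0.trans j1) (Nat.zero_le _) (by omega)
      (dis 0 (Nat.zero_le _) _ (by omega) (by omega)) (show 0 < t' by omega) ?_
    rcases Nat.eq_zero_or_pos s' with rfl | p
    · obtain ⟨w, hw⟩ := (h.cell (j + 1) hs _ p0).2.1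
      exact ⟨w, ⟨_, p0, hw⟩, Or.inl (cell_up le_rfl hs hw)⟩
    · obtain ⟨w, hw⟩ := (h2.cell 1 p 0 (show 0 < t' by omega)).2.1
      obtain ⟨x, hx, d, -⟩ := mem 1 p 0 (by omega) w hw
      exact ⟨w, ⟨x, hx, d⟩, Or.inr ⟨1, Nat.zero_le _, p, hw⟩⟩
  · refine union_subset_union (in_sub hin (i := 0) h h6 (i0.trans (j1.trans a2)) le_rfl le_rfl
      (dis s' le_rfl _ le_rfl hs) (show 0 < t' by omega) ?_) ?_
    · obtain ⟨w, hw⟩ := (h.cell c.s le_rfl _ p0).2.1
      exact ⟨w, ⟨_, p0, hw⟩, Or.inl (cell_up hs le_rfl hw)⟩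
    · rintro v ⟨i, hi, k | ⟨l, -, hl, k⟩⟩
      · exact ⟨φ i, hφ i hi, up_mono (Nat.zero_le _) k⟩
      · obtain ⟨x, hx, d, -⟩ := mem l hl i hi v k
        exact ⟨x, hx, cell_up (Nat.zero_le _) (by change l ≤ s' at hl; omega) d⟩

end Pool.Agent.MP_9d78a0_co.st

end MrgPart1

-- ======== part 2: formerly Pool.Agent.MP_9d78a0_co.st.SG
section MrgPart2

/-! The structure theorem, part G: a flat window, a flat disc and the first collar. -/

set_option autoImplicit false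

namespace Pool.Agent.MP_9d78a0_co.st

open Set Function fb

section defs

variable {V : Type}

/-- the cells in the rows `i0, …, i1 - 1` and the columns `j0, …, j1 - 1` -/
def blk (C : ℕ → ℕ → Set V) (i0 i1 j0 j1 : ℕ) : Set V :=
  {v | ∃ i j, i0 ≤ i ∧ i < i1 ∧ j0 ≤ j ∧ j < j1 ∧ v ∈ C i j}

/-- a square of cells; `D i j` is the cell in row `i` and column `j` -/
structure Gr (H : SimpleGraph V) (W : Set V) (m : ℕ) (D : ℕ → ℕ → Set V) : Prop where
  conn : ∀ i < m, ∀ j < m, D i j ⊆ W ∧ Conn H (D i j)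
  dis : ∀ i < m, ∀ j < m, ∀ i' < m, ∀ j' < m, (i, j) ≠ (i', j') → Disjoint (D i j) (D i' j')
  hor : ∀ i < m, ∀ j, j + 1 < m → Touch H (D i j) (D i (j + 1))
  ver : ∀ i, i + 1 < m → ∀ j < m, Touch H (D i j) (D (i + 1) j)

/-- a flat window `W` with the ports left, top, right, bottom -/
structure FW (H : SimpleGraph V) (U W l t r b : Set V) (m : ℕ) (D : ℕ → ℕ → Set V) : Prop
    extends Gr H W m D where
  tight : Tight H U
  sub : W ∪ l ∪ t ∪ r ∪ b ⊆ U
  pd : [W, l, t, r, b].Pairwise Disjoint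
  pc : Conn H l ∧ Conn H t ∧ Conn H r ∧ Conn H b ∧ Touch H l t ∧ Touch H t r ∧ Touch H r b
  side : ∀ i < m, Touch H l (D i 0) ∧ Touch H t (D 0 i) ∧ Touch H r (D i (m - 1)) ∧
    Touch H b (D (m - 1) i)
  clo : ∀ v ∈ W, ∀ y, H.Adj v y → y ∈ W ∪ l ∪ t ∪ r ∪ b
  flat : ¬ PX H (W ∪ l ∪ t ∪ r ∪ b) [l, t, r, b]

/-- a flat disc `H0, U0, L` in the middle of the square, with the hub `I` outside -/
structure Disc (H H0 H1 : SimpleGraph V) (U U0 U1 W I : Set V) (L : List V) (m k : ℕ)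
    (D : ℕ → ℕ → Set V) : Prop extends Gr H W m D where
  split : Split H H0 H1 U U0 U1 (ls L)
  nd : L.Nodup
  flat : ¬ Cr H0 U0 L
  sub : U0 ⊆ W ∧ W ⊆ U ∧ I ⊆ U \ W
  hub : Conn H1 I ∧ ∀ j < m, Touch H I (D 0 j)
  hf : HF H1 U1 L I
  out : ∀ i < m, ∀ j < m, i < k ∨ j < k ∨ m ≤ i + k ∨ m ≤ j + k → Disjoint (D i j) U0
  deep : ∀ i j, k + 3 ≤ i → k + 3 ≤ j → i + k + 2 ≤ m → j + k + 2 ≤ m → Disjoint (D i j) U1

/-- `Q` quiet ranges of `m` rows with margins `u` -/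
def Far (G : SimpleGraph V) (C : ℕ → ℕ → Set V) (N p : ℕ) (A : Set V) (Q m lam u : ℕ)
    (lo : ℕ → ℕ) : Prop :=
  (∀ s < Q, u ≤ lo s ∧ lo s + m + u ≤ N ∧ Quiet G C N p A (lo s) (lo s + m) lam) ∧
    ∀ s t, s < t → t < Q → lo s + m + u ≤ lo t

/-- jumps off `A` from the rows `lo, …, hi - 1` move by at most one column -/
def ColQ (G : SimpleGraph V) (C : ℕ → ℕ → Set V) (N p : ℕ) (A : Set V) (lo hi : ℕ) : Prop :=
  ∀ J u v i j i' j', Jump G (Mesh C N p) J u v → Disjoint J A → lo ≤ i → i < hi → i' < N →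
    j < p → j' < p → u ∈ C i j → v ∈ C i' j' → j' = j ∨ j' = (j + 1) % p ∨ j = (j' + 1) % p

/-- the square with corner `(i, j)` and its bridges off `A` -/
def win (G : SimpleGraph V) (C : ℕ → ℕ → Set V) (N p : ℕ) (A : Set V) (i j m : ℕ) : Set V :=
  lk (res G Aᶜ) ((Aᶜ \ Mesh C N p) ∪ blk C i (i + m) j (j + m)) (blk C i (i + m) j (j + m))

/-- the four ports of the square -/
def pL (C : ℕ → ℕ → Set V) (i j m : ℕ) : Set V := blk C i (i + m) (j - 1) j

def pR (C : ℕ → ℕ → Set V) (i j m : ℕ) : Set V := blk C i (i + m) (j + m) (j + m + 1)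

def pT (C : ℕ → ℕ → Set V) (i j m lam : ℕ) : Set V := blk C (i - lam) i (j - 1) (j + m + 1)

def pB (C : ℕ → ℕ → Set V) (i j m lam : ℕ) : Set V :=
  blk C (i + m) (i + m + lam) (j - 1) (j + m + 1)

end defs

/-- a cylinder whose cells lie in known branch sets -/
def Cyl2S : Prop :=
  ∀ N p, 3 ≤ p → ∃ g, ∀ (V : Type) (G : SimpleGraph V) (B : Fin g × Fin g → Set V),
    Model (grid g) G univ B → ∃ C, Cyl G univ N p C ∧
      ∀ i < N, ∀ j, j + 1 < p → ∃ x y : Fin g, x.1 = N + j ∧ y.1 = i ∧ C i j ⊆ B (x, y)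

/-- many crosses in the strip of the columns `3 N + 5, …, p - 1` -/
def XblkS : Prop :=
  ∀ h, ∃ w Q, ∀ (V : Type) (G : SimpleGraph V) (N p : ℕ) (C : ℕ → ℕ → Set V)
    (X X' : ℕ → Set V) (lo hi a a' b b' : ℕ → ℕ), NoK h G → Cyl G univ N p C → 3 * N + 5 < p →
    (∀ s < Q, Two G univ (X s) (X' s) ∧ h * h + w ≤ lo s ∧ hi s + w < N ∧
      lo s ≤ a s ∧ a s < a' s ∧ a' s ≤ hi s ∧ lo s ≤ b' s ∧ b' s < b s ∧ b s ≤ hi s ∧
      C (a s) (p - 1) ⊆ X s ∧ C (b s) (3 * N + 5) ⊆ X s ∧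
      C (a' s) (p - 1) ⊆ X' s ∧ C (b' s) (3 * N + 5) ⊆ X' s ∧
      (X s ∪ X' s) ∩ Mesh C N p ⊆ blk C (lo s) (hi s + 1) (3 * N + 5) p) →
    (∀ s t, s < t → t < Q → hi s + w < lo t ∧ Disjoint (X s ∪ X' s) (X t ∪ X' t)) → False

/-- a range without jumps over a column -/
def ColqS : Prop :=
  ∀ h lam, ∃ Q u, ∀ (V : Type) (G : SimpleGraph V) (N p : ℕ) (C : ℕ → ℕ → Set V) (A : Set V)
    (m : ℕ) (lo : ℕ → ℕ), NoK h G → Cyl G univ N p C → (2 * Q + 1) * (3 * N + 6) ≤ p →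
    Far G C N p A Q m lam u lo → ∃ s < Q, ColQ G C N p A (lo s) (lo s + m)

/-- a range whose window has no cross -/
def FlatqS : Prop :=
  ∀ h lam, 0 < lam → ∃ Q u, ∀ (V : Type) (G : SimpleGraph V) (N p : ℕ) (C : ℕ → ℕ → Set V)
    (A : Set V) (m j : ℕ) (lo : ℕ → ℕ), NoK h G → Cyl G univ N p C → 0 < m → 3 * N + 6 ≤ j →
    j + m + 1 < p → Far G C N p A Q m lam u lo →
    ∃ s < Q, ¬ PX (res G Aᶜ) (win G C N p A (lo s) j m ∪ pL C (lo s) j m ∪ pT C (lo s) j m lam ∪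
        pR C (lo s) j m ∪ pB C (lo s) j m lam)
      [pL C (lo s) j m, pT C (lo s) j m lam, pR C (lo s) j m, pB C (lo s) j m lam]

/-- a flat window in a big grid -/
def WinS : Prop :=
  ∀ h, ∃ a, ∀ m, 0 < m → ∃ g, ∀ (V : Type) [Finite V] (G : SimpleGraph V)
    (B : Fin g × Fin g → Set V), NoK h G → Model (grid g) G univ B →
    ∃ (A W l t r b : Set V) (D : ℕ → ℕ → Set V) (x0 y0 : ℕ), A.ncard ≤ a ∧
      FW (res G Aᶜ) Aᶜ W l t r b m D ∧
      ∀ i < m, ∀ j < m, ∃ x y : Fin g, x.1 = x0 + j ∧ y.1 = y0 + i ∧ D i j ⊆ B (x, y)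

/-- three flat pieces round a disc -/
def AnnS : Prop :=
  ∀ (V : Type) (H1 Hu Ht Ho : SimpleGraph V) (U1 W I Uu Ut Uo l t r b : Set V) (y y' z z' : V)
    (Ya Ym Yb Z1 Zm Z2 Y3 : List V), Tight Hu Uu → Tight Ht Ut → Tight Ho Uo →
    (Ya ++ y :: Ym ++ y' :: Yb ++ (Z1 ++ z :: Zm ++ z' :: Z2) ++ Y3).Nodup →
    ls (Ya ++ y :: Ym ++ y' :: Yb ++ (Z1 ++ z :: Zm ++ z' :: Z2) ++ Y3) ⊆ W →
    [W, l, t, r, b].Pairwise Disjoint → l.Nonempty → Ut ⊆ W →
    l ∪ t ∪ r ∪ ls (Ya ++ y :: Ym ++ y' :: Yb) ⊆ Uu → Disjoint b Uu →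
    r ∪ b ∪ l ∪ ls (Ya ++ y :: y' :: Yb) ∪ ls (Z1 ++ z :: Zm ++ z' :: Z2) ⊆ Uo → Disjoint t Uo →
    ls (y :: Ym ++ y' :: Z1 ++ z :: z' :: Z2 ++ Y3) ⊆ Ut →
    Uu ∩ Ut ⊆ ls (y :: Ym ++ [y']) → Uu ∩ Uo ⊆ l ∪ r ∪ ls (Ya ++ y :: y' :: Yb) →
    Ut ∩ Uo ⊆ ls (y :: y' :: Z1 ++ z :: z' :: Z2) →
    ¬ PX Hu Uu (l :: [t] ++ r :: sg (Ya ++ y :: Ym ++ y' :: Yb).reverse) →
    ¬ PX Ho Uo ({y'} :: (sg Yb ++ [r, b, l] ++ sg Ya) ++ {y} :: sg (Z1 ++ z :: Zm ++ z' :: Z2)) →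
    ¬ Cr Ht Ut (z :: (Z1.reverse ++ y :: Ym ++ y' :: Z2.reverse) ++ z' :: Y3) →
    l ∪ t ∪ r ∪ b ⊆ I → Disjoint I W →
    (∀ u ∈ W, ∀ v, H1.Adj u v → v ∈ W ∪ l ∪ t ∪ r ∪ b ∧ (Hu ⊔ Ht ⊔ Ho).Adj u v) →
    HF H1 U1 (z' :: Zm.reverse ++ z :: Y3.reverse) I

/-- a flat window contains a flat disc -/
def DiscS : Prop :=
  ∀ (V : Type) [Finite V] (H : SimpleGraph V) (U W l t r b : Set V) (m k : ℕ)
    (D : ℕ → ℕ → Set V), FW H U W l t r b m D → 0 < k → 2 * k + 5 ≤ m →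
    ∃ H0 H1 U0 U1 I L, Disc H H0 H1 U U0 U1 W I L m k D

/-- columns round a hub end in cyclic order -/
def OrdS : Prop :=
  ∀ (V : Type) (H : SimpleGraph V) (U I : Set V) (Ω : List V) (t : ℕ) (K : ℕ → Set V)
    (o : ℕ → V), Ω.Nodup → 4 ≤ t →
    (∀ i < t, K i ⊆ U \ I ∧ Conn H (K i) ∧ o i ∈ K i ∧ o i ∈ Ω ∧ Touch H (K i) (K ((i + 1) % t))) →
    (∀ i < t, ∀ j < t, i ≠ j → Disjoint (K i) (K j)) → HF H U Ω I →
    ∃ seg, List.IsRotated Ω (cyc o seg t) ∨ List.IsRotated Ω.reverse (cyc o seg t)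

/-- the first collar -/
def SitS : Prop :=
  ∀ (V : Type) [Finite V] (G H H0 H1 : SimpleGraph V) (U U0 U1 W I : Set V) (L : List V)
    (h s t m k : ℕ) (D : ℕ → ℕ → Set V), NoK h G → H ≤ G → Disc H H0 H1 U U0 U1 W I L m k D →
    4 ≤ t → s + 2 ≤ k → 2 * k + 3 * (h * h + t) + 10 ≤ m →
    ∃ Ω c n Ur ob π, (Ω = L ∨ Ω = L.reverse) ∧ Sit G H1 h n Ur U1 ob Ω c π ∧ c.s = s ∧ c.t = t

/-- a connected set with four links to the letters contains a node -/
def WallS : Prop :=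
  ∀ (V : Type) (H : SimpleGraph V) (U X : Set V) (cs : List (Cell V)) (Y : List V) (g d : ℕ)
    (R : Fin 4 → Set V), Dr cs [Y] g → Rend H U cs → (∀ c ∈ cs, c.Ok d ∧ c.k ≠ .hole) →
    Conn H X → X.Nontrivial →
    (∀ i, Conn H (R i) ∧ (R i ∩ X).Nonempty ∧ (R i ∩ ls Y).Nonempty) → Pairwise (Disjoint on R) →
    ∃ n ∈ X, ∃ c ∈ cs, c.k = .cell ∧ n ∈ c.N

end Pool.Agent.MP_9d78a0_co.st

end MrgPart2

-- ======== part 3: formerly Pool.Agent.MP_9d78a0_co.st.Colq
section MrgPart3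

/-! The structure theorem, part G: a range without jumps over a column. -/

set_option autoImplicit false

namespace Pool.Agent.MP_9d78a0_co.st

open Set Function fb

namespace Colq

variable {V : Type} {G : SimpleGraph V} {N p : ℕ} {C : ℕ → ℕ → Set V}

theorem cell_eq (hC : Cyl G univ N p C) {i j i' j' : ℕ} {x : V} (hi : i < N) (hj : j < p)
    (hi' : i' < N) (hj' : j' < p) (h : x ∈ C i j) (h' : x ∈ C i' j') : i = i' ∧ j = j' := by
  by_contra c
  exact disjoint_left.1 (hC.dis i hi j hj i' hi' j' hj' fun e => c (Prod.mk.inj e)) h h'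

theorem sub_blk {i0 i1 j0 j1 i j : ℕ} (h1 : i0 ≤ i) (h2 : i < i1) (h3 : j0 ≤ j) (h4 : j < j1) :
    C i j ⊆ blk C i0 i1 j0 j1 := fun _ h => ⟨i, j, h1, h2, h3, h4, h⟩

theorem row_conn (hC : Cyl G univ N p C) {i j0 j1 : ℕ} (hi : i < N) (h : j0 ≤ j1) (hp : j1 < p) :
    Conn G (blk C i (i + 1) j0 (j1 + 1)) := by
  have e : blk C i (i + 1) j0 (j1 + 1) = ⋃ j ∈ Icc j0 j1, C i j := by
    ext v
    simp only [blk, mem_ofPred_eq, mem_iUnion, mem_Icc, exists_prop]
    constructor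
    · rintro ⟨a, b, h1, h2, h3, h4, h5⟩
      obtain rfl : a = i := by omega
      exact ⟨b, ⟨h3, by omega⟩, h5⟩
    · rintro ⟨b, ⟨h3, h4⟩, h5⟩
      exact ⟨i, b, le_rfl, by omega, h3, by omega, h5⟩
  rw [e]
  refine conn_chain h (fun j hj => (hC.conn i hi j (by have := hj.2; omega)).2) fun j _ h2 => ?_
  have := hC.hor i hi j (by omega)
  rw [Nat.mod_eq_of_lt (by omega)] at this
  exact Or.inr this

theorem col_conn (hC : Cyl G univ N p C) {j i0 i1 : ℕ} (hj : j < p) (h : i0 ≤ i1) (hN : i1 < N) :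
    Conn G (blk C i0 (i1 + 1) j (j + 1)) := by
  have e : blk C i0 (i1 + 1) j (j + 1) = ⋃ i ∈ Icc i0 i1, C i j := by
    ext v
    simp only [blk, mem_ofPred_eq, mem_iUnion, mem_Icc, exists_prop]
    constructor
    · rintro ⟨a, b, h1, h2, h3, h4, h5⟩
      obtain rfl : b = j := by omega
      exact ⟨a, ⟨h1, by omega⟩, h5⟩
    · rintro ⟨a, ⟨h3, h4⟩, h5⟩
      exact ⟨a, j, h3, by omega, le_rfl, by omega, h5⟩
  rw [e]
  exact conn_chain h (fun i hi => (hC.conn i (by have := hi.2; omega) j hj).2)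
    fun i _ h2 => Or.inr (hC.ver i (by omega) j hj)

theorem meet {S T Z : Set V} (h : Conn G S) (h' : Conn G T) (hZ : Conn G Z) (h1 : Z ⊆ S)
    (h2 : Z ⊆ T) : Conn G (S ∪ T) := by
  obtain ⟨x, hx⟩ := hZ.1
  refine conn_of_center (Or.inl (h1 hx)) ?_
  rintro v (hv | hv)
  · exact (h.2 x (h1 hx) v hv).mono subset_union_left
  · exact (h'.2 x (h2 hx) v hv).mono subset_union_right

/-- a jump over a column gives a cross -/
theorem cross (hC : Cyl G univ N p C) {Y : Set V} {i c i' c' top bot b : ℕ} (hY : Conn G Y)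
    (h1 : C i c ⊆ Y) (h2 : C i' c' ⊆ Y) (h3 : Y ∩ Mesh C N p ⊆ C i c ∪ C i' c') (t1 : top < i)
    (t2 : top < i') (b1 : i < bot) (b2 : i' < bot) (hN : bot < N) (c1 : b ≤ c) (c2 : c + 2 ≤ c')
    (c3 : c' < p) : ∃ X X' a' b', Two G univ X X' ∧ top < a' ∧ a' ≤ bot ∧ top ≤ b' ∧ b' < bot ∧
      C top (p - 1) ⊆ X ∧ C bot b ⊆ X ∧ C a' (p - 1) ⊆ X' ∧ C b' b ⊆ X' ∧
      (X ∪ X') ∩ Mesh C N p ⊆ blk C top (bot + 1) b p ∧ X ∪ X' ⊆ Y ∪ Mesh C N p := by
  have hX : ∀ x ∈ blk C top (top + 1) (c + 1) (p - 1 + 1) ∪ blk C top (bot + 1) (c + 1) (c + 1 + 1) ∪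
      blk C bot (bot + 1) b (c + 1 + 1), ∃ r j, top ≤ r ∧ r ≤ bot ∧ b ≤ j ∧ j < p ∧ x ∈ C r j ∧
        ((r = top ∧ c < j) ∨ j = c + 1 ∨ (r = bot ∧ j ≤ c + 1)) := by
    rintro x ((⟨r, j, k1, k2, k3, k4, k5⟩ | ⟨r, j, k1, k2, k3, k4, k5⟩) |
      ⟨r, j, k1, k2, k3, k4, k5⟩) <;>
    exact ⟨r, j, by omega, by omega, by omega, by omega, k5, by omega⟩
  have hX' : ∀ x ∈ blk C i (i + 1) b (c + 1) ∪ Y ∪ blk C i' (i' + 1) c' (p - 1 + 1),
      x ∈ Mesh C N p → ∃ r j, b ≤ j ∧ j < p ∧ x ∈ C r j ∧ ((r = i ∧ j ≤ c) ∨ (r = i' ∧ c' ≤ j)) := by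
    rintro x ((⟨r, j, k1, k2, k3, k4, k5⟩ | k) | ⟨r, j, k1, k2, k3, k4, k5⟩) hm
    · exact ⟨r, j, by omega, by omega, k5, by omega⟩
    · rcases h3 ⟨k, hm⟩ with k5 | k5
      · exact ⟨i, c, by omega, by omega, k5, by omega⟩
      · exact ⟨i', c', by omega, by omega, k5, by omega⟩
    · exact ⟨r, j, by omega, by omega, k5, by omega⟩
  refine ⟨blk C top (top + 1) (c + 1) (p - 1 + 1) ∪ blk C top (bot + 1) (c + 1) (c + 1 + 1) ∪
      blk C bot (bot + 1) b (c + 1 + 1),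
    blk C i (i + 1) b (c + 1) ∪ Y ∪ blk C i' (i' + 1) c' (p - 1 + 1), i', i,
    ⟨subset_univ _, subset_univ _, ?_, ?_, ?_⟩, t2, b2.le, t1.le, b1, ?_, ?_, ?_, ?_, ?_, ?_⟩
  · refine meet (meet (row_conn hC (by omega) (by omega) (by omega))
      (col_conn hC (by omega) (by omega) hN) (hC.conn top (by omega) (c + 1) (by omega)).2
      (sub_blk le_rfl (by omega) le_rfl (by omega)) (sub_blk le_rfl (by omega) le_rfl (by omega)))
      (row_conn hC hN (by omega) (by omega)) (hC.conn bot hN (c + 1) (by omega)).2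
      ((sub_blk (by omega) (by omega) le_rfl (by omega)).trans subset_union_right)
      (sub_blk le_rfl (by omega) (by omega) (by omega))
  · exact meet (meet (row_conn hC (by omega) c1 (by omega)) hY
      (hC.conn i (by omega) c (by omega)).2 (sub_blk le_rfl (by omega) c1 (by omega)) h1)
      (row_conn hC (by omega) (by omega) (by omega)) (hC.conn i' (by omega) c' c3).2
      (h2.trans subset_union_right) (sub_blk le_rfl (by omega) le_rfl (by omega))
  · refine disjoint_left.2 fun x hx hx' => ?_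
    obtain ⟨r, j, k1, k2, k3, k4, k5, k6⟩ := hX x hx
    obtain ⟨r', j', l3, l4, l5, l6⟩ := hX' x hx' ⟨r, by omega, j, k4, k5⟩
    have := cell_eq hC (by omega) k4 (by omega) l4 k5 l5
    omega
  · exact fun x hx => Or.inl (Or.inl (sub_blk le_rfl (by omega) (by omega) (by omega) hx))
  · exact fun x hx => Or.inr (sub_blk le_rfl (by omega) le_rfl (by omega) hx)
  · exact fun x hx => Or.inr (sub_blk le_rfl (by omega) (by omega) (by omega) hx)
  · exact fun x hx => Or.inl (Or.inl (sub_blk le_rfl (by omega) le_rfl (by omega) hx))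
  · rintro x ⟨hx | hx, hm⟩
    · obtain ⟨r, j, k1, k2, k3, k4, k5, -⟩ := hX x hx
      exact ⟨r, j, k1, by omega, k3, k4, k5⟩
    · obtain ⟨r, j, k3, k4, k5, k6⟩ := hX' x hx hm
      exact ⟨r, j, by omega, by omega, k3, k4, k5⟩
  · rintro x (hx | ((⟨r, j, k1, k2, k3, k4, k5⟩ | k) | ⟨r, j, k1, k2, k3, k4, k5⟩))
    · obtain ⟨r, j, k1, k2, k3, k4, k5, -⟩ := hX x hx
      exact Or.inr ⟨r, by omega, j, k4, k5⟩
    · exact Or.inr ⟨r, by omega, j, by omega, k5⟩
    · exact Or.inl k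
    · exact Or.inr ⟨r, by omega, j, by omega, k5⟩

/-- a rotated cylinder -/
theorem rot (hC : Cyl G univ N p C) (k : ℕ) : Cyl G univ N p fun i j => C i ((j + k) % p) where
  conn i hi j hj := hC.conn i hi _ (Nat.mod_lt _ (by omega))
  dis i hi j hj i' hi' j' hj' e := hC.dis i hi _ (Nat.mod_lt _ (by omega)) i' hi' _
    (Nat.mod_lt _ (by omega)) fun c => e (by
      obtain ⟨c1, c2⟩ := Prod.mk.inj c
      rw [c1, Nat.ModEq.eq_of_lt_of_lt (Nat.ModEq.add_right_cancel' k c2) hj hj'])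
  hor i hi j hj := by
    have := hC.hor i hi ((j + k) % p) (Nat.mod_lt _ (by omega))
    rwa [Nat.mod_add_mod, Nat.add_right_comm, ← Nat.mod_add_mod (j + 1)] at this
  ver i hi j hj := hC.ver i hi _ (Nat.mod_lt _ (by omega))
  three i hi j hj := hC.three i hi _ (Nat.mod_lt _ (by omega))

theorem pull {j k b : ℕ} (hj : j < p) (hk : k + b ≤ p) (h : j < k ∨ k + b ≤ j) :
    ∃ c, b ≤ c ∧ c < p ∧ (c + k) % p = j := by
  rcases h with h | h
  · refine ⟨j + p - k, by omega, by omega, ?_⟩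
    rw [show j + p - k + k = j + p by omega, Nat.add_mod_right, Nat.mod_eq_of_lt hj]
  · exact ⟨j - k, by omega, by omega, by rw [show j - k + k = j by omega, Nat.mod_eq_of_lt hj]⟩

/-- the part of a jump before its second end -/
theorem half {M J : Set V} {u v : V} (h : Jump G M J u v) (e : u ≠ v) :
    ∃ K ⊆ J, Conn G K ∧ u ∈ K ∧ (∀ x ∈ K, x ∈ M → x = u) ∧ ∃ x ∈ K, G.Adj x v := by
  obtain ⟨h1, h2, h3, h4⟩ := h
  obtain ⟨x, y, k1, -, k3, k4, k5, k6⟩ := link_exit (T := {v}ᶜ) (h1.2 u h2 v h3) e fun c => c rfl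
  obtain rfl : y = v := not_not.1 k4
  exact ⟨cp G (J ∩ {y}ᶜ) u, fun _ a => a.1.1, cp_conn ⟨h2, e⟩, cp_self ⟨h2, e⟩,
    fun z hz hm => (h4 z hz.1.1 hm).resolve_right hz.1.2, x, ⟨⟨k1, k3⟩, k6⟩, k5⟩

end Colq

open Colq

theorem colqS (xb : XblkS) : ColqS := by
  intro h lam
  obtain ⟨w, Q, hx⟩ := xb h
  refine ⟨Q, h * h + w + 2 * lam + 4, fun V G N p C A m lo hK hC hp hF => ?_⟩
  by_contra c
  have key : ∀ s, ∃ (K : Set V) (u : V) (i j i' j' : ℕ), s < Q → Conn G K ∧ u ∈ K ∧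
      (∀ x ∈ K, x ∈ Mesh C N p → x = u) ∧ Disjoint K A ∧ lo s ≤ i ∧ i < lo s + m ∧
      i < i' + lam ∧ i' < i + lam ∧ j < p ∧ j' < p ∧ u ∈ C i j ∧ Touch G K (C i' j') ∧
      j' ≠ j ∧ j' ≠ (j + 1) % p ∧ j ≠ (j' + 1) % p := by
    intro s
    by_cases hs : s < Q
    swap
    · exact ⟨∅, (hC.conn 0 (by
        have := (hF.1 0 (by
          by_contra q
          exact hx V G N p C (fun _ => ∅) (fun _ => ∅) lo lo lo lo lo lo hK hC (by nlinarith)
            (fun _ a => absurd a (by omega)) fun _ _ _ a => absurd a (by omega))).2.1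
        omega) 0 (by nlinarith)).2.1.some, 0, 0, 0, 0, fun a => absurd a hs⟩
    have c1 : ¬ColQ G C N p A (lo s) (lo s + m) := fun a => c ⟨s, hs, a⟩
    simp only [ColQ, not_forall, not_or] at c1
    obtain ⟨J, u, v, i, j, i', j', k1, k2, k3, k4, k5, k6, k7, k8, k9, l1, l2, l3⟩ := c1
    obtain ⟨q1, q2, q3⟩ := hF.1 s hs
    obtain ⟨q4, q5⟩ := q3 J u v i i' k1 k2 k3 k4 k5 ⟨j, k6, k8⟩ ⟨j', k7, k9⟩
    obtain ⟨K, a1, a2, a3, a4, x, a5, a6⟩ := half k1 fun e =>
      l1 (cell_eq hC (by omega) k6 k5 k7 k8 (e ▸ k9)).2.symm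
    exact ⟨K, u, i, j, i', j', fun _ => ⟨a2, a3, a4, k2.mono_left a1, k3, k4, q4, q5, k6, k7, k8,
      ⟨x, a5, v, k9, a6⟩, l1, l2, l3⟩⟩
  choose K u i j i' j' hK' using key
  obtain ⟨k, hk, hk'⟩ : ∃ k ∈ Finset.range (2 * Q + 1),
      k ∉ (Finset.range Q).image (fun s => j s / (3 * N + 6)) ∪
        (Finset.range Q).image fun s => j' s / (3 * N + 6) := by
    refine Finset.exists_mem_notMem_of_card_lt_card ((Finset.card_union_le _ _).trans_lt ?_)
    have h1 := Finset.card_image_le (s := Finset.range Q) (f := fun s => j s / (3 * N + 6))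
    have h2 := Finset.card_image_le (s := Finset.range Q) (f := fun s => j' s / (3 * N + 6))
    simp only [Finset.card_range] at h1 h2 ⊢
    omega
  have hk1 : k * (3 * N + 6) + (3 * N + 6) ≤ p := by
    rw [← Nat.succ_mul]
    exact (Nat.mul_le_mul_right _ (Finset.mem_range.1 hk)).trans hp
  have hk2 : ∀ a, a / (3 * N + 6) ≠ k → a < k * (3 * N + 6) ∨ k * (3 * N + 6) + (3 * N + 5) ≤ a :=
    fun a ha => by
      by_contra q
      exact ha (Nat.div_eq_of_lt_le (by omega) (by rw [Nat.succ_mul]; omega))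
  have hR := rot hC (k * (3 * N + 6))
  have hM : Mesh (fun i j => C i ((j + k * (3 * N + 6)) % p)) N p ⊆ Mesh C N p :=
    fun x ⟨r, hr, _, _, hx⟩ => ⟨r, hr, _, Nat.mod_lt _ (by omega), hx⟩
  simp only [Finset.mem_union, Finset.mem_image, Finset.mem_range, not_or, not_exists,
    not_and] at hk'
  generalize k * (3 * N + 6) = j0 at hk1 hk2 hR hM
  have main : ∀ s, ∃ (X X' : Set V) (a' b' : ℕ), s < Q → Two G univ X X' ∧
      lo s - lam - 1 < a' ∧ a' ≤ lo s + m + lam ∧ lo s - lam - 1 ≤ b' ∧ b' < lo s + m + lam ∧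
      C (lo s - lam - 1) ((p - 1 + j0) % p) ⊆ X ∧ C (lo s + m + lam) ((3 * N + 5 + j0) % p) ⊆ X ∧
      C a' ((p - 1 + j0) % p) ⊆ X' ∧ C b' ((3 * N + 5 + j0) % p) ⊆ X' ∧
      (X ∪ X') ∩ Mesh (fun i j => C i ((j + j0) % p)) N p ⊆
        blk (fun i j => C i ((j + j0) % p)) (lo s - lam - 1) (lo s + m + lam + 1) (3 * N + 5) p ∧
      X ∪ X' ⊆ K s ∪ Mesh (fun i j => C i ((j + j0) % p)) N p := by
    intro s
    by_cases hs : s < Q
    swap
    · exact ⟨∅, ∅, 0, 0, fun a => absurd a hs⟩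
    obtain ⟨a1, a2, a3, -, a5, a6, a7, a8, a9, b1, b2, b3, b4, b5, b6⟩ := hK' s hs
    obtain ⟨q1, q2, -⟩ := hF.1 s hs
    obtain ⟨c, c1, c2, c3⟩ := pull a9 (by omega) (hk2 _ (hk'.1 s hs))
    obtain ⟨d, d1, d2, d3⟩ := pull b1 (by omega) (hk2 _ (hk'.2 s hs))
    have hY : Conn G (K s ∪ C (i s) (j s) ∪ C (i' s) (j' s)) :=
      conn_union_touch (meet a1 (hC.conn _ (by omega) _ a9).2 (conn_singleton G (u s))
        (singleton_subset_iff.2 a2) (singleton_subset_iff.2 b2)) (hC.conn _ (by omega) _ b1).2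
        (b3.mono subset_union_left Subset.rfl)
    have hY3 : (K s ∪ C (i s) (j s) ∪ C (i' s) (j' s)) ∩
        Mesh (fun i j => C i ((j + j0) % p)) N p ⊆ C (i s) (j s) ∪ C (i' s) (j' s) := by
      rintro x ⟨(hx | hx) | hx, hm⟩
      exacts [Or.inl (a3 x hx (hM hm) ▸ b2), Or.inl hx, Or.inr hx]
    have hY4 : K s ∪ C (i s) (j s) ∪ C (i' s) (j' s) ∪ Mesh (fun i j => C i ((j + j0) % p)) N p ⊆
        K s ∪ Mesh (fun i j => C i ((j + j0) % p)) N p := by
      rintro x (((hx | hx) | hx) | hx)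
      exacts [Or.inl hx, Or.inr ⟨i s, by omega, c, c2, by rwa [← c3] at hx⟩,
        Or.inr ⟨i' s, by omega, d, d2, by rwa [← d3] at hx⟩, Or.inr hx]
    have hcd : c + 2 ≤ d ∨ d + 2 ≤ c := by
      have e1 : d ≠ c := fun e => b4 (by rw [← d3, ← c3, e])
      have e2 : d ≠ c + 1 := fun e => b5 (by
        rw [← d3, ← c3, e, Nat.mod_add_mod, Nat.add_right_comm])
      have e3 : c ≠ d + 1 := fun e => b6 (by
        rw [← d3, ← c3, e, Nat.mod_add_mod, Nat.add_right_comm])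
      omega
    rw [← c3, ← d3] at hY hY3 hY4
    rcases hcd with e | e
    · obtain ⟨X, X', a', b', z⟩ := cross hR (top := lo s - lam - 1) (bot := lo s + m + lam) hY
        (subset_union_right.trans subset_union_left) subset_union_right hY3 (by omega) (by omega)
        (by omega) (by omega) (by omega) c1 e d2
      obtain ⟨z1, z2, z3, z4, z5, z6, z7, z8, z9, y1, y2⟩ := z
      exact ⟨X, X', a', b', fun _ => ⟨z1, z2, z3, z4, z5, z6, z7, z8, z9, y1, y2.trans hY4⟩⟩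
    · obtain ⟨X, X', a', b', z⟩ := cross hR (top := lo s - lam - 1) (bot := lo s + m + lam) hY
        subset_union_right (subset_union_right.trans subset_union_left)
        (hY3.trans (union_comm _ _).subset) (by omega) (by omega)
        (by omega) (by omega) (by omega) d1 e c2
      obtain ⟨z1, z2, z3, z4, z5, z6, z7, z8, z9, y1, y2⟩ := z
      exact ⟨X, X', a', b', fun _ => ⟨z1, z2, z3, z4, z5, z6, z7, z8, z9, y1, y2.trans hY4⟩⟩
  choose X X' a' b' hX using main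
  refine hx V G N p _ X X' (fun s => lo s - lam - 1) (fun s => lo s + m + lam)
    (fun s => lo s - lam - 1) a' (fun s => lo s + m + lam) b' hK hR (by omega) (fun s hs => ?_)
    fun s t hst ht => ?_
  · obtain ⟨z1, z2, z3, z4, z5, z6, z7, z8, z9, y1, -⟩ := hX s hs
    obtain ⟨q1, q2, -⟩ := hF.1 s hs
    exact ⟨z1, by omega, by omega, le_rfl, z2, z3, z4, z5, le_rfl, z6, z7, z8, z9, y1⟩
  · have hs : s < Q := by omega
    have q0 := hF.2 s t hst ht
    obtain ⟨q1, q2, q3⟩ := hF.1 s hs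
    obtain ⟨q4, q5, -⟩ := hF.1 t ht
    refine ⟨by omega, disjoint_left.2 fun x h1 h2 => ?_⟩
    obtain ⟨-, -, -, -, -, -, -, -, -, y1, y2⟩ := hX s hs
    obtain ⟨-, -, -, -, -, -, -, -, -, y3, y4⟩ := hX t ht
    by_cases hm : x ∈ Mesh (fun i j => C i ((j + j0) % p)) N p
    · obtain ⟨r, e, k1, k2, k3, k4, k5⟩ := y1 ⟨h1, hm⟩
      obtain ⟨r', e', l1, l2, l3, l4, l5⟩ := y3 ⟨h2, hm⟩
      have := cell_eq hR (by omega) k4 (by omega) l4 k5 l5
      omega
    · obtain ⟨a1, a2, a3, a4, a5, a6, -, -, a9, -, b2, -⟩ := hK' s hs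
      obtain ⟨c1, c2, c3, c4, c5, c6, -, -, c9, -, d2, -⟩ := hK' t ht
      have := q3 (K s ∪ K t) (u s) (u t) (i s) (i t)
        ⟨meet a1 c1 (conn_singleton G x) (singleton_subset_iff.2 ((y2 h1).resolve_right hm))
          (singleton_subset_iff.2 ((y4 h2).resolve_right hm)), Or.inl a2, Or.inr c2,
          fun z hz hzm => hz.imp (fun a => a3 z a hzm) fun a => c3 z a hzm⟩
        (disjoint_union_left.2 ⟨a4, c4⟩) a5 a6 (by omega) ⟨_, a9, b2⟩ ⟨_, c9, d2⟩
      omega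

end Pool.Agent.MP_9d78a0_co.st

end MrgPart3

-- ======== part 4: formerly Pool.Agent.MP_9d78a0_co.st.Flatq
section MrgPart4

/-! A range of rows whose window has no cross. -/

set_option autoImplicit false

namespace Pool.Agent.MP_9d78a0_co.st

open Set Function fb

namespace flatq

variable {V : Type} {G : SimpleGraph V} {N p : ℕ} {C : ℕ → ℕ → Set V}

theorem cell_blk {i0 i1 j0 j1 i j : ℕ} (h1 : i0 ≤ i) (h2 : i < i1) (h3 : j0 ≤ j) (h4 : j < j1) :
    C i j ⊆ blk C i0 i1 j0 j1 := fun _ hv => ⟨i, j, h1, h2, h3, h4, hv⟩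

theorem blk_mono {i0 i1 j0 j1 i0' i1' j0' j1' : ℕ} (h1 : i0' ≤ i0) (h2 : i1 ≤ i1') (h3 : j0' ≤ j0)
    (h4 : j1 ≤ j1') : blk C i0 i1 j0 j1 ⊆ blk C i0' i1' j0' j1' := by
  rintro v ⟨i, j, k1, k2, k3, k4, hv⟩
  exact ⟨i, j, by omega, by omega, by omega, by omega, hv⟩

theorem blk_mesh {i0 i1 j0 j1 : ℕ} (h1 : i1 ≤ N) (h2 : j1 ≤ p) :
    blk C i0 i1 j0 j1 ⊆ Mesh C N p := by
  rintro v ⟨i, j, -, k2, -, k4, hv⟩
  exact ⟨i, by omega, j, by omega, hv⟩

theorem blk_disj (h : Cyl G univ N p C) {i0 i1 j0 j1 i0' i1' j0' j1' : ℕ} (h1 : i1 ≤ N)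
    (h2 : j1 ≤ p) (h3 : i1' ≤ N) (h4 : j1' ≤ p)
    (k : i1 ≤ i0' ∨ i1' ≤ i0 ∨ j1 ≤ j0' ∨ j1' ≤ j0) :
    Disjoint (blk C i0 i1 j0 j1) (blk C i0' i1' j0' j1') := by
  refine disjoint_left.2 ?_
  rintro v ⟨i, j, k1, k2, k3, k4, hv⟩ ⟨i', j', k1', k2', k3', k4', hv'⟩
  refine disjoint_left.1 (h.dis i (by omega) j (by omega) i' (by omega) j' (by omega) fun e => ?_)
    hv hv'
  simp only [Prod.mk.injEq] at e
  omega

theorem blk_conn (h : Cyl G univ N p C) {i0 i1 j0 j1 : ℕ} (h1 : i0 < i1) (h2 : i1 ≤ N)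
    (h3 : j0 < j1) (h4 : j1 ≤ p) : Conn G (blk C i0 i1 j0 j1) := by
  have e : blk C i0 i1 j0 j1 = ⋃ i ∈ Icc i0 (i1 - 1), ⋃ j ∈ Icc j0 (j1 - 1), C i j := by
    ext v
    simp only [blk, mem_ofPred_eq, mem_iUnion, mem_Icc, exists_prop]
    exact ⟨fun ⟨i, j, k1, k2, k3, k4, hv⟩ => ⟨i, ⟨k1, by omega⟩, j, ⟨k3, by omega⟩, hv⟩,
      fun ⟨i, ⟨k1, k2⟩, j, ⟨k3, k4⟩, hv⟩ => ⟨i, j, k1, by omega, k3, by omega, hv⟩⟩
  rw [e]
  have m : j0 ∈ Icc j0 (j1 - 1) := ⟨le_rfl, by omega⟩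
  refine conn_chain (S := fun i => ⋃ j ∈ Icc j0 (j1 - 1), C i j) (by omega) (fun i hi => ?_)
    fun i _ hi => Or.inr ((h.ver i (by omega) j0 (by omega)).mono
      (subset_biUnion_of_mem (u := C i) m) (subset_biUnion_of_mem (u := C (i + 1)) m))
  have := hi.2
  refine conn_chain (S := C i) (by omega)
    (fun j hj => (h.conn i (by omega) j (by have := hj.2; omega)).2) fun j _ hj => Or.inr ?_
  have k := h.hor i (by omega) j (by omega)
  rwa [Nat.mod_eq_of_lt (by omega)] at k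

theorem res_le (U : Set V) : res G U ≤ G := fun _ _ e => e.1

/-- two connected sets with a common cell -/
theorem join (h : Cyl G univ N p C) {S T : Set V} (h1 : Conn G S) (h2 : Conn G T) (i j : ℕ)
    (hi : i < N) (hj : j < p) (k1 : C i j ⊆ S) (k2 : C i j ⊆ T) : Conn G (S ∪ T) := by
  obtain ⟨x, hx⟩ := (h.conn i hi j hj).2.1
  exact pl.conn_union h1 h2 (k1 hx) (k2 hx)

theorem one (h : Cyl G univ N p C) {A : Set V} {e i j m lam : ℕ} (h0 : 0 < lam) (hm : 0 < m)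
    (he : e < j) (hp : j + m + 1 < p) (hi : lam ≤ i) (hN : i + m + lam ≤ N)
    (px : PX (res G Aᶜ) (win G C N p A i j m ∪ pL C i j m ∪ pT C i j m lam ∪ pR C i j m ∪
      pB C i j m lam) [pL C i j m, pT C i j m lam, pR C i j m, pB C i j m lam]) :
    ∃ X X', Two G univ X X' ∧ C (i - 1) (p - 1) ⊆ X ∧ C (i + m) e ⊆ X ∧ C i (p - 1) ⊆ X' ∧
      C i e ⊆ X' ∧
      X ∪ X' ⊆ (win G C N p A i j m \ Mesh C N p) ∪ blk C (i - lam) (i + m + lam) e p := by
  obtain ⟨l, t, r, b, hs, P, Q, T, ⟨x1, p1, q1⟩, ⟨x3, p3, q3⟩, ⟨x2, p2, q2⟩, ⟨x4, p4, q4⟩, d⟩ := px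
  have es := hs.eq_of_length rfl
  simp only [List.cons.injEq, and_true] at es
  obtain ⟨rfl, rfl, rfl, rfl⟩ := es
  have d1 := (d _ (by simp)).resolve_left fun k => disjoint_left.1 k p1 q1
  have d2 := (d _ (by simp)).resolve_right fun k => disjoint_left.1 k p2 q2
  have d3 := (d _ (by simp)).resolve_left fun k => disjoint_left.1 k p3 q3
  have d4 := (d _ (by simp)).resolve_right fun k => disjoint_left.1 k p4 q4
  have w : ∀ v ∈ win G C N p A i j m, v ∈ win G C N p A i j m \ Mesh C N p ∨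
      v ∈ blk C i (i + m) j (j + m) := fun v hv =>
    hv.1.imp (fun k => ⟨hv, k.2⟩) id
  have sP : ∀ v ∈ P, v ∈ win G C N p A i j m \ Mesh C N p ∨
      v ∈ blk C i (i + m) (j - 1) (j + m + 1) := by
    intro v hv
    rcases T.sp hv with (((k | k) | k) | k) | k
    · exact (w v k).imp id fun k => blk_mono le_rfl le_rfl (by omega) (by omega) k
    · exact Or.inr (blk_mono le_rfl le_rfl le_rfl (by omega) k)
    · exact (disjoint_left.1 d2 hv k).elim
    · exact Or.inr (blk_mono le_rfl le_rfl (by omega) le_rfl k)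
    · exact (disjoint_left.1 d4 hv k).elim
  have sQ : ∀ v ∈ Q, v ∈ win G C N p A i j m \ Mesh C N p ∨ v ∈ blk C i (i + m) j (j + m) ∨
      v ∈ pT C i j m lam ∨ v ∈ pB C i j m lam := by
    intro v hv
    rcases T.sq hv with (((k | k) | k) | k) | k
    · exact (w v k).imp id Or.inl
    · exact (disjoint_left.1 d1 hv k).elim
    · exact Or.inr (Or.inr (Or.inl k))
    · exact (disjoint_left.1 d3 hv k).elim
    · exact Or.inr (Or.inr (Or.inr k))
  have sX : ∀ v ∈ Q ∪ pT C i j m lam ∪ pB C i j m lam ∪ blk C (i - 1) i (j - 1) p ∪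
      blk C (i + m) (i + m + 1) e (j + m + 1), v ∈ Q ∨ v ∈ blk C (i - lam) i e p ∨
      v ∈ blk C (i + m) (i + m + lam) e p := by
    rintro v ((((k | k) | k) | k) | k)
    · exact Or.inl k
    · exact Or.inr (Or.inl (blk_mono le_rfl le_rfl (by omega) (by omega) k))
    · exact Or.inr (Or.inr (blk_mono le_rfl le_rfl (by omega) (by omega) k))
    · exact Or.inr (Or.inl (blk_mono (by omega) le_rfl (by omega) le_rfl k))
    · exact Or.inr (Or.inr (blk_mono le_rfl (by omega) le_rfl (by omega) k))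
  have sY : ∀ v ∈ P ∪ pL C i j m ∪ pR C i j m ∪ blk C i (i + 1) e j ∪ blk C i (i + 1) (j + m) p,
      v ∈ P ∨ v ∈ blk C i (i + m) e j ∨ v ∈ blk C i (i + m) (j + m) p := by
    rintro v ((((k | k) | k) | k) | k)
    · exact Or.inl k
    · exact Or.inr (Or.inl (blk_mono le_rfl le_rfl (by omega) le_rfl k))
    · exact Or.inr (Or.inr (blk_mono le_rfl le_rfl le_rfl (by omega) k))
    · exact Or.inr (Or.inl (blk_mono le_rfl (by omega) le_rfl le_rfl k))
    · exact Or.inr (Or.inr (blk_mono le_rfl (by omega) le_rfl le_rfl k))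
  refine ⟨Q ∪ pT C i j m lam ∪ pB C i j m lam ∪ blk C (i - 1) i (j - 1) p ∪
      blk C (i + m) (i + m + 1) e (j + m + 1),
    P ∪ pL C i j m ∪ pR C i j m ∪ blk C i (i + 1) e j ∪ blk C i (i + 1) (j + m) p,
    ⟨subset_univ _, subset_univ _, ?_, ?_, disjoint_left.2 fun v k k' => ?_⟩, fun v hv => ?_,
    fun v hv => ?_, fun v hv => ?_, fun v hv => ?_, ?_⟩
  · refine join h (join h (pl.conn_union (pl.conn_union (pl.conn_mono T.cq (res_le _))
      (blk_conn h (by omega) (by omega) (by omega) (by omega)) p2 q2)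
      (blk_conn h (by omega) (by omega) (by omega) (by omega)) (Or.inl p4) q4)
      (blk_conn h (by omega) (by omega) (by omega) le_rfl) (i - 1) (j - 1) (by omega) (by omega)
      (fun v hv => Or.inl (Or.inr (cell_blk (by omega) (by omega) le_rfl (by omega) hv)))
      (cell_blk le_rfl (by omega) le_rfl (by omega)))
      (blk_conn h (by omega) (by omega) (by omega) (by omega)) (i + m) (j - 1) (by omega) (by omega)
      (fun v hv => Or.inl (Or.inr (cell_blk le_rfl (by omega) le_rfl (by omega) hv)))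
      (cell_blk le_rfl (by omega) (by omega) (by omega))
  · refine join h (join h (pl.conn_union (pl.conn_union (pl.conn_mono T.cp (res_le _))
      (blk_conn h (by omega) (by omega) (by omega) (by omega)) p1 q1)
      (blk_conn h (by omega) (by omega) (by omega) (by omega)) (Or.inl p3) q3)
      (blk_conn h (by omega) (by omega) he (by omega)) i (j - 1) (by omega) (by omega)
      (fun v hv => Or.inl (Or.inr (cell_blk le_rfl (by omega) le_rfl (by omega) hv)))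
      (cell_blk le_rfl (by omega) (by omega) (by omega)))
      (blk_conn h (by omega) (by omega) (by omega) le_rfl) i (j + m) (by omega) (by omega)
      (fun v hv => Or.inl (Or.inr (cell_blk le_rfl (by omega) le_rfl (by omega) hv)))
      (cell_blk le_rfl (by omega) le_rfl (by omega))
  · have dQ : ∀ a b, b ≤ j ∨ j + m ≤ a → b ≤ p → v ∈ Q → v ∉ blk C i (i + m) a b := by
      intro a b _ _ k k'
      rcases sQ v k with k | k | k | k
      · exact k.2 (blk_mesh (by omega) (by omega) k')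
      all_goals
        exact disjoint_left.1 (blk_disj h (by omega) (by omega) (by omega) (by omega) (by omega))
          k k'
    have dP : ∀ a b, b ≤ i ∨ i + m ≤ a → b ≤ N → v ∈ blk C a b e p → v ∉ P ∧
        v ∉ blk C i (i + m) e j ∧ v ∉ blk C i (i + m) (j + m) p := by
      intro a b _ _ k
      refine ⟨fun k' => ?_,
        disjoint_left.1 (blk_disj h (by omega) (by omega) (by omega) (by omega) (by omega)) k,
        disjoint_left.1 (blk_disj h (by omega) (by omega) (by omega) (by omega) (by omega)) k⟩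
      rcases sP v k' with k' | k'
      · exact k'.2 (blk_mesh (by omega) (by omega) k)
      · exact disjoint_left.1 (blk_disj h (by omega) (by omega) (by omega) (by omega) (by omega))
          k k'
    rcases sX v k with k | k | k
    · rcases sY v k' with k' | k' | k'
      · exact disjoint_left.1 T.dis k' k
      · exact dQ _ _ (by omega) (by omega) k k'
      · exact dQ _ _ (by omega) (by omega) k k'
    all_goals
      have := dP _ _ (by omega) (by omega) k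
      exact (sY v k').elim this.1 fun k' => k'.elim this.2.1 this.2.2
  · exact Or.inl (Or.inr (cell_blk le_rfl (by omega) (by omega) (by omega) hv))
  · exact Or.inr (cell_blk le_rfl (by omega) le_rfl (by omega) hv)
  · exact Or.inr (cell_blk le_rfl (by omega) (by omega) (by omega) hv)
  · exact Or.inl (Or.inr (cell_blk le_rfl (by omega) le_rfl he hv))
  · rintro v (k | k)
    · rcases sX v k with k | k | k
      · rcases sQ v k with k | k | k | k
        · exact Or.inl k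
        all_goals exact Or.inr (blk_mono (by omega) (by omega) (by omega) (by omega) k)
      all_goals exact Or.inr (blk_mono (by omega) (by omega) le_rfl le_rfl k)
    · rcases sY v k with k | k | k
      · exact (sP v k).imp id fun k => blk_mono (by omega) (by omega) (by omega) (by omega) k
      all_goals exact Or.inr (blk_mono (by omega) (by omega) (by omega) (by omega) k)

/-- a vertex of the window off the mesh hangs on a cell of the square -/
theorem hang {A : Set V} {i j m : ℕ} (hN : i + m ≤ N) (hp : j + m ≤ p) {v : V}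
    (hv : v ∈ win G C N p A i j m \ Mesh C N p) : v ∈ Aᶜ \ Mesh C N p ∧
      ∃ x ∈ cp G (Aᶜ \ Mesh C N p) v, ∃ y ∈ blk C i (i + m) j (j + m), y ∉ A ∧ G.Adj x y := by
  obtain ⟨⟨k1, a, ha, -, k2⟩, k3⟩ := hv
  have m1 : v ∈ Aᶜ \ Mesh C N p := k1.resolve_right fun k => k3 (blk_mesh hN hp k)
  obtain ⟨x, y, -, q1, q2, q3, q4, q5⟩ := link_exit k2.symm m1 fun k => k.2 (blk_mesh hN hp ha)
  refine ⟨m1, x, ⟨q2, ?_⟩, y, q1.resolve_left q3, q4.2.2, q4.1⟩
  refine Link.map (G' := G) id (fun _ ha _ hb e => ?_) q5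
  exact Link.single ha.2 hb.2 (res_le _ e)

end flatq

open flatq in
theorem flatqS : XblkS → FlatqS := by
  intro hx h lam h0
  obtain ⟨w, Q, k⟩ := hx h
  refine ⟨Q, h * h + w + 2 * lam + 4, fun V G N p C A m j lo nk hC hm hj hp far => ?_⟩
  by_contra e
  push Not at e
  have ex := fun s (hs : s < Q) => one hC (e := 3 * N + 5) h0 hm (by omega) hp
    (by have := (far.1 s hs).1; omega) (by have := (far.1 s hs).2.1; omega) (e s hs)
  choose! X X' h1 h2 h3 h4 h5 h6 using ex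
  refine k V G N p C X X' (fun s => lo s - lam) (fun s => lo s + m + lam - 1) (fun s => lo s - 1)
    lo (fun s => lo s + m) lo nk hC (by omega) (fun s hs => ?_) fun s t hst ht => ?_
  · obtain ⟨f1, f2, -⟩ := far.1 s hs
    refine ⟨h1 s hs, by omega, by omega, by omega, by omega, by omega, by omega, by omega,
      by omega, h2 s hs, h3 s hs, h4 s hs, h5 s hs, fun v hv => ?_⟩
    exact blk_mono le_rfl (by omega) le_rfl le_rfl
      ((h6 s hs hv.1).resolve_left fun q => q.2 hv.2)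
  · obtain ⟨f1, f2, f3⟩ := far.1 s (by omega)
    obtain ⟨g1, g2, -⟩ := far.1 t ht
    have f4 := far.2 s t hst ht
    refine ⟨by omega, disjoint_left.2 fun v hv hv' => ?_⟩
    rcases h6 s (by omega) hv with q | q <;> rcases h6 t ht hv' with q' | q'
    · obtain ⟨m1, x, hx, y, ⟨i1, j1, a1, a2, a3, a4, hy⟩, hy', e1⟩ :=
        hang (by omega) (by omega) q
      obtain ⟨-, x', hx', y', ⟨i2, j2, b1, b2, b3, b4, hz⟩, hz', e2⟩ :=
        hang (by omega) (by omega) q'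
      have := (f3 (cp G (Aᶜ \ Mesh C N p) v ∪ {y} ∪ {y'}) y y' i1 i2
        ⟨conn_union_touch (conn_union_touch (cp_conn m1) (conn_singleton _ _) ⟨x, hx, y, rfl, e1⟩)
          (conn_singleton _ _) ⟨x', Or.inl hx', y', rfl, e2⟩, Or.inl (Or.inr rfl), Or.inr rfl,
          by
            rintro z ((q | q) | q) hz
            exacts [(q.1.2 hz).elim, Or.inl q, Or.inr q]⟩
        (disjoint_left.2 (by
          rintro z ((q | rfl) | rfl) hz
          exacts [q.1.1 hz, hy' hz, hz' hz])) a1 a2 (by omega) ⟨j1, by omega, hy⟩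
        ⟨j2, by omega, hz⟩).2
      omega
    · exact q.2 (blk_mesh (by omega) le_rfl q')
    · exact q'.2 (blk_mesh (by omega) le_rfl q)
    · exact disjoint_left.1 (blk_disj hC (by omega) le_rfl (by omega) le_rfl (by omega)) q q'

end Pool.Agent.MP_9d78a0_co.st

end MrgPart4

-- ======== part 5: formerly Pool.Agent.MP_9d78a0_co.st.Win
section MrgPart5

/-! The structure theorem, part G: a flat window in a big grid. -/

set_option autoImplicit false

namespace Pool.Agent.MP_9d78a0_co.st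

open Set Function fb

namespace Win

variable {V : Type} {G : SimpleGraph V}

open CylAux in
/-- cells can be shrunk to unions of three paths -/
theorem shrink2 {U : Set V} {N p : ℕ} {C : ℕ → ℕ → Set V}
    (conn : ∀ i < N, ∀ j < p, C i j ⊆ U ∧ Conn G (C i j))
    (dis : ∀ i < N, ∀ j < p, ∀ i' < N, ∀ j' < p, (i, j) ≠ (i', j') → Disjoint (C i j) (C i' j'))
    (hor : ∀ i < N, ∀ j < p, Touch G (C i j) (C i ((j + 1) % p)))
    (ver : ∀ i, i + 1 < N → ∀ j < p, Touch G (C i j) (C (i + 1) j)) :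
    ∃ C', Cyl G U N p C' ∧ ∀ i < N, ∀ j < p, C' i j ⊆ C i j := by
  classical
  rcases isEmpty_or_nonempty V with hV | hV
  · refine ⟨C, ⟨conn, dis, hor, ver, fun i hi j hj => ?_⟩, fun _ _ _ _ => le_rfl⟩
    exact hV.elim (conn i hi j hj).2.1.some
  choose! hu hhu hv hhv he using hor
  choose! vu hvu vv hvv ve using ver
  let pr : ℕ → ℕ := fun j => if j = 0 then p - 1 else j - 1
  have pr1 : ∀ j < p, pr j < p ∧ (pr j + 1) % p = j := fun j hj => by
    by_cases c : j = 0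
    · have e : p - 1 + 1 = p := by omega
      simp only [pr, c, if_true, e, Nat.mod_self, and_true]
      omega
    · have e : j - 1 + 1 = j := by omega
      simp only [pr, c, if_false, e, Nat.mod_eq_of_lt hj, and_true]
      omega
  have pr2 : ∀ j < p, pr ((j + 1) % p) = j := fun j hj => by
    by_cases c : j + 1 < p
    · simp [pr, Nat.mod_eq_of_lt c]
    · obtain rfl : p = j + 1 := by omega
      simp [pr]
  let b : ℕ → ℕ → Fin 3 → V := fun i j =>
    ![hv i (pr j), if i + 1 < N then vu i j else hu i j, if 0 < i then vv (i - 1) j else hu i j]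
  have hb : ∀ i < N, ∀ j < p, ∀ t, b i j t ∈ C i j := fun i hi j hj t => by
    fin_cases t
    · have k := hhv i hi (pr j) (pr1 j hj).1
      rw [(pr1 j hj).2] at k
      exact k
    · show (if i + 1 < N then vu i j else hu i j) ∈ C i j
      split_ifs with c
      exacts [hvu i c j hj, hhu i hi j hj]
    · show (if 0 < i then vv (i - 1) j else hu i j) ∈ C i j
      split_ifs with c
      · have e : i - 1 + 1 = i := by omega
        have k := hvv (i - 1) (by omega) j hj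
        rwa [e] at k
      · exact hhu i hi j hj
  choose! C' h1 h2 h3 h4 h5 using fun i (hi : i < N) j (hj : j < p) =>
    three_paths (conn i hi j hj).2 (hu i j) (b i j) (hhu i hi j hj) (hb i hi j hj)
  refine ⟨C', ⟨fun i hi j hj => ⟨(h1 i hi j hj).trans (conn i hi j hj).1, h2 i hi j hj⟩,
    fun i hi j hj i' hi' j' hj' e => (dis i hi j hj i' hi' j' hj' e).mono (h1 i hi j hj)
      (h1 i' hi' j' hj'), fun i hi j hj => ?_, fun i hi j hj => ?_, h5⟩, h1⟩
  · have k : hv i (pr ((j + 1) % p)) ∈ C' i ((j + 1) % p) :=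
      h4 i hi ((j + 1) % p) (Nat.mod_lt _ (by omega)) 0
    rw [pr2 j hj] at k
    exact ⟨_, h3 i hi j hj, _, k, he i hi j hj⟩
  · have k : (if i + 1 < N then vu i j else hu i j) ∈ C' i j := h4 i (by omega) j hj 1
    have k' : (if 0 < i + 1 then vv (i + 1 - 1) j else hu (i + 1) j) ∈ C' (i + 1) j :=
      h4 (i + 1) hi j hj 2
    rw [if_pos hi] at k
    rw [if_pos (Nat.succ_pos i), Nat.add_sub_cancel] at k'
    exact ⟨_, k, _, k', ve i hi j hj⟩

theorem link_res {U S : Set V} {a b : V} (hS : S ⊆ U) (h : Link G S a b) :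
    Link (res G U) S a b := by
  induction h with
  | refl => exact Link.refl _ _ _
  | tail _ e ih => exact ih.trans (Link.single e.1 e.2.1 ⟨e.2.2, hS e.1, hS e.2.1⟩)

theorem conn_res {U S : Set V} (hS : S ⊆ U) (h : Conn G S) : Conn (res G U) S :=
  ⟨h.1, fun u hu v hv => link_res hS (h.2 u hu v hv)⟩

theorem touch_res {U S T : Set V} (hS : S ⊆ U) (hT : T ⊆ U) (h : Touch G S T) :
    Touch (res G U) S T := by
  obtain ⟨u, hu, v, hv, e⟩ := h
  exact ⟨u, hu, v, hv, e, hS hu, hT hv⟩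

variable {N p : ℕ} {C : ℕ → ℕ → Set V}

theorem sub_blk {i0 i1 j0 j1 i j : ℕ} (h1 : i0 ≤ i) (h2 : i < i1) (h3 : j0 ≤ j) (h4 : j < j1) :
    C i j ⊆ blk C i0 i1 j0 j1 := fun _ h => ⟨i, j, h1, h2, h3, h4, h⟩

theorem uniq (hC : Cyl G univ N p C) {i j i' j' : ℕ} {v : V} (hi : i < N) (hj : j < p)
    (hi' : i' < N) (hj' : j' < p) (h : v ∈ C i j) (h' : v ∈ C i' j') : i = i' ∧ j = j' := by
  by_contra c
  exact disjoint_left.1 (hC.dis i hi j hj i' hi' j' hj' fun e => c (Prod.mk.inj e)) h h'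

theorem blk_dis (hC : Cyl G univ N p C) {i0 i1 j0 j1 k0 k1 l0 l1 : ℕ} (h1 : i1 ≤ N) (h2 : j1 ≤ p)
    (h3 : k1 ≤ N) (h4 : l1 ≤ p) (h : i1 ≤ k0 ∨ k1 ≤ i0 ∨ j1 ≤ l0 ∨ l1 ≤ j0) :
    Disjoint (blk C i0 i1 j0 j1) (blk C k0 k1 l0 l1) := by
  rw [disjoint_left]
  rintro v ⟨i, j, a1, a2, a3, a4, a⟩ ⟨k, l, b1, b2, b3, b4, b⟩
  have := uniq hC (by omega) (by omega) (by omega) (by omega) a b
  omega

theorem hor (hC : Cyl G univ N p C) {i j j' : ℕ} (hi : i < N) (hj : j' < p) (e : j + 1 = j') :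
    Touch G (C i j) (C i j') := by
  have := hC.hor i hi j (by omega)
  rwa [e, Nat.mod_eq_of_lt hj] at this

theorem ver (hC : Cyl G univ N p C) {i i' j : ℕ} (hi : i' < N) (hj : j < p) (e : i + 1 = i') :
    Touch G (C i j) (C i' j) := e ▸ hC.ver i (e ▸ hi) j hj

theorem conn_blk (hC : Cyl G univ N p C) {i0 i1 j0 j1 : ℕ} (h1 : i0 < i1) (h2 : i1 ≤ N)
    (h3 : j0 < j1) (h4 : j1 ≤ p) : Conn G (blk C i0 i1 j0 j1) := by
  have e : blk C i0 i1 j0 j1 = ⋃ i ∈ Icc i0 (i1 - 1), ⋃ j ∈ Icc j0 (j1 - 1), C i j := by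
    ext v
    simp only [blk, mem_ofPred_eq, mem_iUnion, mem_Icc, exists_prop]
    constructor
    · rintro ⟨i, j, a1, a2, a3, a4, a⟩
      exact ⟨i, ⟨a1, by omega⟩, j, ⟨a3, by omega⟩, a⟩
    · rintro ⟨i, a1, j, a2, a⟩
      exact ⟨i, j, a1.1, by omega, a2.1, by omega, a⟩
  rw [e]
  refine conn_chain (by omega) (fun i hi => conn_chain (by omega)
    (fun j hj => (hC.conn i (by have := hi.2; omega) j (by have := hj.2; omega)).2)
    fun j _ _ => .inr (hor hC (by have := hi.2; omega) (by omega) rfl)) fun i _ _ => .inr ?_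
  exact (ver hC (i := i) (j := j0) (by omega) (by omega) rfl).mono
    (subset_biUnion_of_mem (u := C i) ⟨le_rfl, by omega⟩)
    (subset_biUnion_of_mem (u := C (i + 1)) ⟨le_rfl, by omega⟩)

/-- a vertex of a window hangs on a single vertex of the core -/
theorem hang {A M K : Set V} (hK : K ⊆ Aᶜ) {v : V} (hv : v ∈ lk (res G Aᶜ) ((Aᶜ \ M) ∪ K) K) :
    ∃ x ∈ K, ∃ J ⊆ Aᶜ, Conn G J ∧ x ∈ J ∧ v ∈ J ∧ ∀ y ∈ J, y ∈ M → y = x := by
  obtain ⟨-, a, ha, -, h⟩ := hv
  have one : ∀ x ∈ K, ∃ x' ∈ K, ∃ J ⊆ Aᶜ, Conn G J ∧ x' ∈ J ∧ x ∈ J ∧ ∀ y ∈ J, y ∈ M → y = x' :=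
    fun x hx => ⟨x, hx, {x}, singleton_subset_iff.2 (hK hx), conn_singleton _ _, rfl, rfl,
      fun _ h _ => h⟩
  induction h with
  | refl => exact one a ha
  | @tail b c _ e ih =>
    rcases e.2.1 with hc | hc
    · obtain ⟨x, hx, J, j1, j2, j3, j4, j5⟩ := ih
      refine ⟨x, hx, J ∪ {c}, union_subset j1 (singleton_subset_iff.2 hc.1),
        conn_union_touch j2 (conn_singleton _ _) ⟨b, j4, c, rfl, e.2.2.1⟩, .inl j3, .inr rfl, ?_⟩
      rintro y (hy | rfl) hM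
      exacts [j5 y hy hM, absurd hM hc.2]
    · exact one c hc

theorem few {P : ℕ → Prop} [DecidablePred P] {Q q : ℕ} (h : ∀ t : ℕ → ℕ, (∀ s < Q, t s < q) →
    (∀ s s', s < s' → s' < Q → t s < t s') → ∃ s < Q, ¬P (t s)) :
    ((Finset.range q).filter P).card < Q := by
  by_contra c
  let f := Finset.orderEmbOfCardLe _ (not_lt.1 c)
  have hf := fun i => Finset.mem_filter.1 (Finset.orderEmbOfCardLe_mem _ (not_lt.1 c) i)
  obtain ⟨s, hs, k⟩ := h (fun s => if e : s < Q then f ⟨s, e⟩ else 0)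
    (fun s hs => by rw [dif_pos hs]; exact Finset.mem_range.1 (hf _).1) fun s s' a b => by
      rw [dif_pos b, dif_pos (a.trans b)]
      exact f.strictMono a
  rw [dif_pos hs] at k
  exact k (hf _).2

/-- the window of a good range -/
theorem fw (hC : Cyl G univ N p C) {A : Set V} {i j m lam : ℕ} (hm : 0 < m) (hl : 0 < lam)
    (hi : lam ≤ i) (hN : i + m + lam ≤ N) (hj : 0 < j) (hp : j + m + 1 < p)
    (hA : ∀ r, i ≤ r + lam → r < i + m + lam → Disjoint A (Row C p r))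
    (hq : Quiet G C N p A i (i + m) lam) (hc : ColQ G C N p A i (i + m))
    (hf : ¬ PX (res G Aᶜ) (win G C N p A i j m ∪ pL C i j m ∪ pT C i j m lam ∪ pR C i j m ∪
      pB C i j m lam) [pL C i j m, pT C i j m lam, pR C i j m, pB C i j m lam]) :
    FW (res G Aᶜ) Aᶜ (win G C N p A i j m) (pL C i j m) (pT C i j m lam) (pR C i j m)
      (pB C i j m lam) m fun a b => C (i + a) (j + b) := by
  have cA : ∀ a b, i ≤ a + lam → a < i + m + lam → b < p → C a b ⊆ Aᶜ :=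
    fun a b h1 h2 h3 v hv k => disjoint_left.1 (hA a h1 h2) k ⟨b, h3, hv⟩
  have bA : ∀ i0 i1 j0 j1, i ≤ i0 + lam → i1 ≤ i + m + lam → j1 ≤ p → blk C i0 i1 j0 j1 ⊆ Aᶜ := by
    rintro i0 i1 j0 j1 h1 h2 h3 v ⟨a, b, a1, a2, a3, a4, hv⟩
    exact cA a b (by omega) (by omega) (by omega) hv
  have bc : ∀ i0 i1 j0 j1, i ≤ i0 + lam → i1 ≤ i + m + lam → j1 ≤ p → i0 < i1 → j0 < j1 →
      Conn (res G Aᶜ) (blk C i0 i1 j0 j1) := fun i0 i1 j0 j1 h1 h2 h3 h4 h5 =>
    conn_res (bA _ _ _ _ h1 h2 h3) (conn_blk hC h4 (by omega) h5 h3)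
  have th : ∀ a b b', i ≤ a + lam → a < i + m + lam → b' < p → b + 1 = b' →
      Touch (res G Aᶜ) (C a b) (C a b') := fun a b b' h1 h2 h3 e =>
    touch_res (cA _ _ h1 h2 (by omega)) (cA _ _ h1 h2 h3) (hor hC (by omega) h3 e)
  have tv : ∀ a a' b, i ≤ a + lam → a' < i + m + lam → b < p → a + 1 = a' →
      Touch (res G Aᶜ) (C a b) (C a' b) := fun a a' b h1 h2 h3 e =>
    touch_res (cA _ _ h1 (by omega) h3) (cA _ _ (by omega) h2 h3) (ver hC (by omega) h3 e)
  have kA := bA i (i + m) j (j + m) (by omega) (by omega) (by omega)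
  have kW : blk C i (i + m) j (j + m) ⊆ win G C N p A i j m := fun v hv =>
    ⟨.inr hv, v, hv, .inr hv, Link.refl _ _ _⟩
  have dW : ∀ i0 i1 j0 j1, i1 ≤ N → j1 ≤ p → i + m ≤ i0 ∨ i1 ≤ i ∨ j + m ≤ j0 ∨ j1 ≤ j →
      Disjoint (win G C N p A i j m) (blk C i0 i1 j0 j1) := fun i0 i1 j0 j1 h1 h2 h3 => by
    refine disjoint_left.2 fun v hv hb => hv.1.elim (fun k => k.2 ?_) fun k =>
      disjoint_left.1 (blk_dis hC (by omega) (by omega) h1 h2 h3) k hb
    obtain ⟨a, b, -, a2, -, a4, hb⟩ := hb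
    exact ⟨a, by omega, b, by omega, hb⟩
  refine ⟨⟨fun a ha b hb => ⟨(sub_blk (by omega) (by omega) (by omega) (by omega)).trans kW,
      conn_res (cA _ _ (by omega) (by omega) (by omega))
        (hC.conn _ (by omega) _ (by omega)).2⟩, fun a ha b hb a' ha' b' hb' e => ?_,
      fun a ha b hb => th _ _ _ (by omega) (by omega) (by omega) rfl,
      fun a ha b hb => tv _ _ _ (by omega) (by omega) (by omega) rfl⟩, fun _ _ h => h.2.1, ?_, ?_,
    ⟨bc _ _ _ _ (by omega) (by omega) (by omega) (by omega) (by omega),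
      bc _ _ _ _ (by omega) (by omega) (by omega) (by omega) (by omega),
      bc _ _ _ _ (by omega) (by omega) (by omega) (by omega) (by omega),
      bc _ _ _ _ (by omega) (by omega) (by omega) (by omega) (by omega), ?_, ?_, ?_⟩,
    fun a ha => ⟨?_, ?_, ?_, ?_⟩, fun v hv y e => ?_, hf⟩
  · refine hC.dis _ (by omega) _ (by omega) _ (by omega) _ (by omega) fun c => e ?_
    simp only [Prod.mk.injEq] at c ⊢
    omega
  · refine union_subset (union_subset (union_subset (union_subset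
      (fun v hv => hv.1.elim (·.1) fun k => kA k) ?_) ?_) ?_) ?_ <;>
    exact bA _ _ _ _ (by omega) (by omega) (by omega)
  · simp only [List.pairwise_cons, List.forall_mem_cons, List.not_mem_nil, false_imp_iff,
      implies_true, and_true, List.Pairwise.nil]
    refine ⟨⟨dW _ _ _ _ ?_ ?_ ?_, dW _ _ _ _ ?_ ?_ ?_, dW _ _ _ _ ?_ ?_ ?_, dW _ _ _ _ ?_ ?_ ?_⟩,
      ⟨blk_dis hC ?_ ?_ ?_ ?_ ?_, blk_dis hC ?_ ?_ ?_ ?_ ?_, blk_dis hC ?_ ?_ ?_ ?_ ?_⟩,
      ⟨blk_dis hC ?_ ?_ ?_ ?_ ?_, blk_dis hC ?_ ?_ ?_ ?_ ?_⟩, blk_dis hC ?_ ?_ ?_ ?_ ?_⟩ <;> omega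
  · exact (tv (i - 1) i (j - 1) (by omega) (by omega) (by omega) (by omega)).symm.mono
      (sub_blk (by omega) (by omega) (by omega) (by omega))
      (sub_blk (by omega) (by omega) (by omega) (by omega))
  · exact (tv (i - 1) i (j + m) (by omega) (by omega) (by omega) (by omega)).mono
      (sub_blk (by omega) (by omega) (by omega) (by omega))
      (sub_blk (by omega) (by omega) (by omega) (by omega))
  · exact (tv (i + m - 1) (i + m) (j + m) (by omega) (by omega) (by omega) (by omega)).mono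
      (sub_blk (by omega) (by omega) (by omega) (by omega))
      (sub_blk (by omega) (by omega) (by omega) (by omega))
  · exact (th (i + a) (j - 1) (j + 0) (by omega) (by omega) (by omega) (by omega)).mono
      (sub_blk (by omega) (by omega) (by omega) (by omega)) le_rfl
  · exact (tv (i - 1) (i + 0) (j + a) (by omega) (by omega) (by omega) (by omega)).mono
      (sub_blk (by omega) (by omega) (by omega) (by omega)) le_rfl
  · exact (th (i + a) (j + (m - 1)) (j + m) (by omega) (by omega) (by omega) (by omega)).symm.mono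
      (sub_blk (by omega) (by omega) (by omega) (by omega)) le_rfl
  · exact (tv (i + (m - 1)) (i + m) (j + a) (by omega) (by omega) (by omega) (by omega)).symm.mono
      (sub_blk (by omega) (by omega) (by omega) (by omega)) le_rfl
  · by_cases hy : y ∈ Mesh C N p
    · obtain ⟨x, ⟨a, b, a1, a2, a3, a4, hx⟩, J, j1, j2, j3, j4, j5⟩ := hang kA hv
      have hJ : Jump G (Mesh C N p) (J ∪ {y}) x y := by
        refine ⟨conn_union_touch j2 (conn_singleton _ _) ⟨v, j4, y, rfl, e.1⟩, .inl j3, .inr rfl, ?_⟩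
        rintro z (hz | hz) hM
        exacts [.inl (j5 z hz hM), .inr hz]
      have hD : Disjoint (J ∪ {y}) A :=
        subset_compl_iff_disjoint_right.1 (union_subset j1 (singleton_subset_iff.2 e.2.2))
      obtain ⟨a', ha', b', hb', hy⟩ := hy
      have k1 := hq _ x y a a' hJ hD a1 a2 ha' ⟨b, by omega, hx⟩ ⟨b', hb', hy⟩
      have k2 := hc _ x y a b a' b' hJ hD a1 a2 ha' (by omega) hb' hx hy
      rw [Nat.mod_eq_of_lt (show b + 1 < p by omega)] at k2
      have k3 : b' = b ∨ b' = b + 1 ∨ b = b' + 1 := by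
        refine k2.imp_right (Or.imp_right fun k => ?_)
        by_cases c : b' + 1 < p
        · rwa [Nat.mod_eq_of_lt c] at k
        · rw [show b' + 1 = p by omega, Nat.mod_self] at k
          omega
      by_cases c1 : a' < i
      · exact .inl (.inl (.inr (sub_blk (by omega) c1 (by omega) (by omega) hy)))
      by_cases c2 : i + m ≤ a'
      · exact .inr (sub_blk c2 (by omega) (by omega) (by omega) hy)
      by_cases c3 : b' < j
      · exact .inl (.inl (.inl (.inr (sub_blk (by omega) (by omega) (by omega) c3 hy))))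
      by_cases c4 : j + m ≤ b'
      · exact .inl (.inr (sub_blk (by omega) (by omega) c4 (by omega) hy))
      · exact .inl (.inl (.inl (.inl (kW (sub_blk (by omega) (by omega) (by omega) (by omega) hy)))))
    · obtain ⟨h1, a, ha, h2, h3⟩ := hv
      exact .inl (.inl (.inl (.inl ⟨.inl ⟨e.2.2, hy⟩, a, ha, h2,
        h3.trans (Link.single h1 (.inl ⟨e.2.2, hy⟩) e)⟩)))

end Win

open CylAux Win in
theorem cyl2S : Cyl2S := by
  intro N p hp
  refine ⟨2 * N + p, fun V G B hB => ?_⟩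
  obtain ⟨b1, b2, b3, b4⟩ := hB
  let B' : ℕ × ℕ → Set V := fun z =>
    if h : z.1 < 2 * N + p ∧ z.2 < 2 * N + p then B (⟨z.1, h.1⟩, ⟨z.2, h.2⟩) else ∅
  have e : ∀ z (h : z.1 < 2 * N + p ∧ z.2 < 2 * N + p), B' z = B (⟨z.1, h.1⟩, ⟨z.2, h.2⟩) :=
    fun z h => dif_pos h
  have tc : ∀ z z', z.1 < 2 * N + p ∧ z.2 < 2 * N + p → z'.1 < 2 * N + p ∧ z'.2 < 2 * N + p →
      gridN.Adj z z' → Touch G (B' z) (B' z') := fun z z' h h' a => by
    rw [e z h, e z' h']
    exact b4 _ _ a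
  have tc2 : ∀ i < N, ∀ j, ∀ i' < N, ∀ j', Touch gridN (cell N p i j) (cell N p i' j') →
      Touch G (⋃ z ∈ cell N p i j, B' z) (⋃ z ∈ cell N p i' j', B' z) := by
    rintro i hi j i' hi' j' ⟨z, hz, z', hz', a⟩
    exact (tc z z' (cell_lt hp hi hz) (cell_lt hp hi' hz') a).mono
      (subset_biUnion_of_mem (u := B') hz) (subset_biUnion_of_mem (u := B') hz')
  refine (shrink2 (U := univ) (C := fun i j => ⋃ z ∈ cell N p i j, B' z)
    (fun i hi j _ => ⟨subset_univ _, ?_⟩) (fun i hi j hj i' hi' j' hj' ne => ?_)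
    (fun i hi j hj => tc2 i hi j i hi _ (cell_hor hp hi hj))
    (fun i hi j hj => tc2 i (by omega) j (i + 1) hi j (cell_ver hp hi hj))).imp
    fun C hC => ⟨hC.1, fun i hi j hj => ⟨⟨N + j, by omega⟩, ⟨i, by omega⟩, rfl, rfl, ?_⟩⟩
  · obtain ⟨⟨z0, h0⟩, hc⟩ := cell_conn (j := j) hp hi
    refine conn_biUnion h0 (fun z hz => ?_) fun z hz => ?_
    · rw [e z (cell_lt hp hi hz)]
      exact b2 _
    · have k := hc z0 h0 z hz
      clear hz
      induction k with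
      | refl => exact Relation.ReflTransGen.refl
      | tail _ a ih =>
        exact ih.tail ⟨a.1, a.2.1,
          Or.inr (tc _ _ (cell_lt hp hi a.1) (cell_lt hp hi a.2.1) a.2.2)⟩
  · simp only [disjoint_iUnion_left, disjoint_iUnion_right]
    intro z' hz' z hz
    rw [e z (cell_lt hp hi hz), e z' (cell_lt hp hi' hz')]
    refine b3 _ _ fun c => ne ?_
    have c1 : z = z' := by
      simp only [Prod.mk.injEq, Fin.mk.injEq] at c
      exact Prod.ext c.1 c.2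
    subst c1
    obtain ⟨rfl, rfl⟩ := cell_dis hp hi hj hi' hj' hz hz'
    rfl
  · refine (hC.2 i hi j (by omega)).trans ?_
    simp only [cell, if_pos hj, biUnion_singleton]
    exact (e (N + j, i) ⟨by omega, by omega⟩).le

open Win in
theorem winS (cyl : Cyl2S) (leva : LevaS) (colq : ColqS) (flatq : FlatqS) : WinS := by
  classical
  intro h
  obtain ⟨Q1, u1, colq⟩ := colq h (2 * h + 1)
  obtain ⟨Q2, u2, flatq⟩ := flatq h (2 * h + 1) (by omega)
  obtain ⟨a, q, hq, leva⟩ := leva h (Q1 + Q2)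
  refine ⟨a, fun m hm => ?_⟩
  obtain ⟨N, leva⟩ := leva (m + 2 * (u1 + u2))
  obtain ⟨p, p1, p2, p3⟩ : ∃ p, (2 * Q1 + 1) * (3 * N + 6) ≤ p ∧ 3 * N + 6 + m + 1 < p ∧
      2 * h ≤ p := ⟨(2 * Q1 + 1) * (3 * N + 6) + (3 * N + m + 10 + 2 * h), by omega⟩
  obtain ⟨g, cyl⟩ := cyl N p (by omega)
  refine ⟨g, fun V _ G B hK hB => ?_⟩
  obtain ⟨C, hC, hCB⟩ := cyl V G B hB
  obtain ⟨A, α, hA, h1, h2⟩ := leva V G univ p C p3 hK hC
  have hQ : ∀ e < q, Quiet G C N p A (α e + (u1 + u2)) (α e + (u1 + u2) + m) (2 * h + 1) :=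
    fun e he J u v r r' a1 a2 a3 a4 => (h1 e he).2.2.1 J u v r r' a1 a2 (by omega) (by omega)
  have far : ∀ Q u, u ≤ u1 + u2 → ∀ t : ℕ → ℕ, (∀ s < Q, t s < q) →
      (∀ s s', s < s' → s' < Q → t s < t s') →
      Far G C N p A Q m (2 * h + 1) u fun s => α (t s) + (u1 + u2) := fun Q u hu t t1 t2 => by
    refine ⟨fun s hs => ⟨hu.trans (Nat.le_add_left _ _), ?_, hQ _ (t1 s hs)⟩, fun s s' a b => ?_⟩
    · have := (h1 _ (t1 s hs)).2.1
      beta_reduce
      omega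
    · have := h2 _ _ (t2 s s' a b) (t1 s' b)
      beta_reduce
      omega
  have f1 := few (P := fun e => ¬ColQ G C N p A (α e + (u1 + u2)) (α e + (u1 + u2) + m))
    (Q := Q1) (q := q) fun t t1 t2 => by
      simpa only [not_not] using colq V G N p C A m _ hK hC p1 (far Q1 u1 (by omega) t t1 t2)
  have f2 := few (q := q) (P := fun e => PX (res G Aᶜ)
      (win G C N p A (α e + (u1 + u2)) (3 * N + 6) m ∪ pL C (α e + (u1 + u2)) (3 * N + 6) m ∪
        pT C (α e + (u1 + u2)) (3 * N + 6) m (2 * h + 1) ∪ pR C (α e + (u1 + u2)) (3 * N + 6) m ∪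
        pB C (α e + (u1 + u2)) (3 * N + 6) m (2 * h + 1))
      [pL C (α e + (u1 + u2)) (3 * N + 6) m, pT C (α e + (u1 + u2)) (3 * N + 6) m (2 * h + 1),
        pR C (α e + (u1 + u2)) (3 * N + 6) m, pB C (α e + (u1 + u2)) (3 * N + 6) m (2 * h + 1)])
    fun t t1 t2 =>
    flatq V G N p C A m (3 * N + 6) _ hK hC hm le_rfl p2 (far Q2 u2 (by omega) t t1 t2)
  obtain ⟨e, he, e1⟩ := Finset.exists_mem_notMem_of_card_lt_card (t := Finset.range q)
    ((Finset.card_union_le _ _).trans_lt ((Nat.add_lt_add f1 f2).trans_le (by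
      rw [Finset.card_range]; nlinarith)))
  rw [Finset.mem_union, Finset.mem_filter, Finset.mem_filter, not_or, not_and, not_and] at e1
  have c1 := not_not.1 (e1.1 he)
  have c2 := e1.2 he
  replace he := Finset.mem_range.1 he
  obtain ⟨k1, k2, -, k4⟩ := h1 e he
  refine ⟨A, _, _, _, _, _, _, N + (3 * N + 6), α e + (u1 + u2), hA, fw hC hm (by omega) (by omega)
    (by omega) (by omega) p2 (fun r a b => k4 r (by omega) (by omega)) (hQ e he) c1 c2,
    fun i hi j hj => ?_⟩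
  obtain ⟨x, y, e1, e2, e3⟩ := hCB (α e + (u1 + u2) + i) (by omega) (3 * N + 6 + j) (by omega)
  exact ⟨x, y, by omega, e2, e3⟩

end Pool.Agent.MP_9d78a0_co.st

end MrgPart5

-- ======== part 6: formerly Pool.Agent.MP_9d78a0_co.st.Sit
section MrgPart6

/-! The structure theorem, part G: the first collar round a flat disc. -/

set_option autoImplicit false

namespace Pool.Agent.MP_9d78a0_co.st

open Set Function fb

namespace SitA

variable {V : Type} {G H H0 H1 : SimpleGraph V} {U U0 U1 W I : Set V} {L : List V} {m k : ℕ}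
  {D : ℕ → ℕ → Set V}

theorem conn_le {S : Set V} (hle : H ≤ G) (h : Conn H S) : Conn G S :=
  ⟨h.1, fun u hu v hv =>
    Link.map (G' := G) id (fun _ ha _ hb e => Link.single ha hb (hle e)) (h.2 u hu v hv)⟩

theorem touch_le {S T : Set V} (hle : H ≤ G) (h : Touch H S T) : Touch G S T := by
  obtain ⟨u, hu, v, hv, e⟩ := h
  exact ⟨u, hu, v, hv, hle e⟩

/-- the union of the cells over a set of points (column, row) -/
def bu (D : ℕ → ℕ → Set V) (A : Set (ℕ × ℕ)) : Set V := ⋃ z ∈ A, D z.2 z.1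

theorem sub_bu {A : Set (ℕ × ℕ)} {x y : ℕ} (h : (x, y) ∈ A) : D y x ⊆ bu D A :=
  subset_biUnion_of_mem (u := fun z : ℕ × ℕ => D z.2 z.1) h

/-- the points of the square -/
def Sq (m : ℕ) (A : Set (ℕ × ℕ)) : Prop := ∀ z ∈ A, z.1 < m ∧ z.2 < m

theorem gr_touch (h : Gr H W m D) {z z' : ℕ × ℕ} (h1 : z.1 < m ∧ z.2 < m)
    (h2 : z'.1 < m ∧ z'.2 < m) (a : gridN.Adj z z') : Touch H (D z.2 z.1) (D z'.2 z'.1) := by
  obtain ⟨x, y⟩ := z
  obtain ⟨x', y'⟩ := z'
  dsimp only at h1 h2 ⊢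
  rcases a with ⟨a, b | b⟩ | ⟨a, b | b⟩ <;> dsimp only at a b <;> subst a b
  · exact h.ver _ h2.2 _ h1.1
  · exact (h.ver _ h1.2 _ h1.1).symm
  · exact h.hor _ h1.2 _ h2.1
  · exact (h.hor _ h1.2 _ h1.1).symm

theorem bu_sub (h : Gr H W m D) {A : Set (ℕ × ℕ)} (hA : Sq m A) : bu D A ⊆ W :=
  iUnion₂_subset fun z hz => (h.conn _ (hA z hz).2 _ (hA z hz).1).1

theorem bu_conn (h : Gr H W m D) {A : Set (ℕ × ℕ)} (hA : Sq m A) (hc : Conn gridN A) :
    Conn H (bu D A) := by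
  obtain ⟨⟨z0, h0⟩, hc⟩ := hc
  refine conn_biUnion h0 (fun z hz => (h.conn _ (hA z hz).2 _ (hA z hz).1).2) fun z hz => ?_
  have k := hc z0 h0 z hz
  clear hz
  induction k with
  | refl => exact Relation.ReflTransGen.refl
  | tail _ a ih => exact ih.tail ⟨a.1, a.2.1, Or.inr (gr_touch h (hA _ a.1) (hA _ a.2.1) a.2.2)⟩

theorem bu_touch (h : Gr H W m D) {A B : Set (ℕ × ℕ)} (hA : Sq m A) (hB : Sq m B)
    (t : Touch gridN A B) : Touch H (bu D A) (bu D B) := by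
  obtain ⟨z, hz, z', hz', a⟩ := t
  exact (gr_touch h (hA z hz) (hB z' hz') a).mono (sub_bu hz) (sub_bu hz')

theorem bu_dis (h : Gr H W m D) {A B : Set (ℕ × ℕ)} (hA : Sq m A) (hB : Sq m B)
    (d : ∀ z ∈ A, z ∉ B) : Disjoint (bu D A) (bu D B) := by
  simp only [bu, disjoint_iUnion_left, disjoint_iUnion_right]
  intro z' hz' z hz
  refine h.dis _ (hA z hz).2 _ (hA z hz).1 _ (hB z' hz').2 _ (hB z' hz').1 fun c => d z hz ?_
  simp only [Prod.mk.injEq] at c
  rwa [show z = z' from Prod.ext c.2 c.1]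

section disc

variable (hD : Disc H H0 H1 U U0 U1 W I L m k D)
include hD

theorem le1 : H1 ≤ H := hD.split.sup ▸ le_sup_right

/-- an edge with an end outside the disc is an outer edge -/
theorem adj1 {u v : V} (e : H.Adj u v) (hu : u ∉ U0) : H1.Adj u v := by
  rw [← hD.split.sup] at e
  exact e.resolve_left fun c => hu (hD.split.t1 u v c)

theorem mem1 {v : V} (h : v ∈ U) (h0 : v ∉ U0) : v ∈ U1 := by
  rw [← hD.split.un] at h
  exact h.resolve_left h0

theorem memL {v : V} : v ∈ ls L ↔ v ∈ U0 ∧ v ∈ U1 := by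
  rw [← hD.split.int]; rfl

theorem conn1 {S : Set V} (h : Conn H S) (d : Disjoint S U0) : Conn H1 S :=
  ⟨h.1, fun u hu v hv => Link.map (G' := H1) id
    (fun _ ha _ hb e => Link.single ha hb (adj1 hD e (disjoint_left.1 d ha))) (h.2 u hu v hv)⟩

theorem touch1 {S T : Set V} (h : Touch H S T) (d : Disjoint S U0) : Touch H1 S T := by
  obtain ⟨u, hu, v, hv, e⟩ := h
  exact ⟨u, hu, v, hv, adj1 hD e (disjoint_left.1 d hu)⟩

theorem notI {v : V} (h : v ∈ W) : v ∉ I := fun c => (hD.sub.2.2 c).2 h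

theorem hubU0 : Disjoint I U0 := disjoint_left.2 fun _ h h' => notI hD (hD.sub.1 h') h

end disc

/-- the points of the column `x` between the rows `s + 2` and `k + 3` -/
def vs (s k x : ℕ) : Set (ℕ × ℕ) := {z | z.1 = x ∧ s + 2 ≤ z.2 ∧ z.2 ≤ k + 3}

/-- a path that runs down a column into the disc -/
theorem rail (hD : Disc H H0 H1 U U0 U1 W I L m k D) {s x : ℕ} (hs : s + 2 ≤ k)
    (hm : 2 * k + 10 ≤ m) (h1 : k + 3 ≤ x) (h2 : x + k + 2 ≤ m) :
    ∃ f l e, IsPath H (bu D (vs s k x)) f l ∧ e ≤ l ∧ (∃ u ∈ D (s + 1) x, H1.Adj u (f 0)) ∧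
      (∃ w ∈ D (k + 4) x, H.Adj (f l) w) ∧ f e ∈ ls L ∧ ∀ i < e, f i ∉ U0 := by
  classical
  have hq : Sq m (vs s k x) := fun z hz => by
    obtain ⟨a, b, c⟩ := hz
    omega
  obtain ⟨u, hu, a, ha, e1⟩ := hD.ver (s + 1) (by omega) x (by omega)
  obtain ⟨b, hb, w, hw, e2⟩ := hD.ver (k + 3) (by omega) x (by omega)
  have ha' : a ∈ bu D (vs s k x) :=
    sub_bu (A := vs s k x) (x := x) (y := s + 2) ⟨rfl, le_rfl, by dsimp only; omega⟩ ha
  have hb' : b ∈ bu D (vs s k x) :=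
    sub_bu (A := vs s k x) (x := x) (y := k + 3) ⟨rfl, by dsimp only; omega, le_rfl⟩ hb
  obtain ⟨f, l, hf, f0, fl⟩ := link_path
    ((bu_conn hD.toGr hq (CylAux.vseg x _ _ (by omega))).2 a ha' b hb') ha'
  have u1 : H1.Adj u a := adj1 hD e1
    (disjoint_left.1 (hD.out (s + 1) (by omega) x (by omega) (Or.inl (by omega))) hu)
  have b0 : f l ∈ U0 := by
    by_contra c
    rw [fl] at c
    exact disjoint_left.1 (hD.deep (k + 3) x le_rfl h1 (by omega) h2) hb
      (mem1 hD (hD.sub.2.1 (bu_sub hD.toGr hq hb')) c)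
  have ex : ∃ i, f i ∈ U0 := ⟨l, b0⟩
  have el : Nat.find ex ≤ l := Nat.find_min' ex b0
  refine ⟨f, l, Nat.find ex, hf, el, ⟨u, hu, f0 ▸ u1⟩, ⟨w, hw, fl ▸ e2⟩,
    (memL hD).2 ⟨Nat.find_spec ex, ?_⟩, fun i hi => Nat.find_min ex hi⟩
  rcases Nat.eq_zero_or_pos (Nat.find ex) with c | c
  · rw [c, f0]
    exact hD.split.t2 _ _ u1.symm
  · obtain ⟨e, he⟩ : ∃ e, Nat.find ex = e + 1 := ⟨Nat.find ex - 1, by omega⟩
    rw [he]
    exact hD.split.t2 _ _
      (adj1 hD (hf.2.1 e (by omega)) (Nat.find_min ex (by omega))).symm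

end SitA

open SitA CylAux in
theorem sitS : NfS → InS → CoarS → KhS → OrdS → SitS := by
  classical
  intro nf ins coar kh ord V _ G H H0 H1 U U0 U1 W I L h s t m k D hK hG hD ht hs hm
  obtain ⟨q, hq⟩ : ∃ q, q = h * h := ⟨_, rfl⟩
  rw [← hq] at hm
  obtain ⟨p, hp⟩ : ∃ p, m = 2 * (k + 3) + p := ⟨m - 2 * (k + 3), by omega⟩
  have p3 : 3 ≤ p := by omega
  have gr := hD.toGr
  have : Nonempty V := ⟨hD.hub.1.1.some⟩
  choose! f l e hf el top bot oL off using fun j (hj : j < p) =>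
    rail (s := s) (x := k + 3 + j) hD hs (by omega) (by omega) (by omega)
  -- the rings
  have qc : ∀ i ≤ s + 1, ∀ j, Sq m (cell (k + 3) p i j) := fun i hi j z hz =>
    hp ▸ cell_lt p3 (by omega) hz
  have qv : ∀ j < p, Sq m (vs s k (k + 3 + j)) := fun j hj z hz => by
    obtain ⟨a, b, c⟩ := hz
    omega
  have c0 : ∀ i ≤ s + 1, ∀ j, Disjoint (bu D (cell (k + 3) p i j)) U0 := fun i hi j => by
    simp only [bu, disjoint_iUnion_left]
    intro z hz
    refine hD.out _ (qc i hi j z hz).2 _ (qc i hi j z hz).1 ?_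
    rw [mem_cell] at hz
    omega
  have cs : ∀ i ≤ s + 1, ∀ j < p, D i (k + 3 + j) ⊆ bu D (cell (k + 3) p i j) := fun i hi j hj =>
    sub_bu (mem_cell.2 (by dsimp only; omega))
  have cv : ∀ i ≤ s + 1, ∀ j, ∀ x < p,
      Disjoint (bu D (vs s k (k + 3 + x))) (bu D (cell (k + 3) p i j)) := fun i hi j x hx =>
    bu_dis gr (qv x hx) (qc i hi j) fun z hz hz' => by
      obtain ⟨a, b, c⟩ := hz
      rw [mem_cell] at hz'
      omega
  have vv : ∀ x < p, ∀ y < p, x ≠ y →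
      Disjoint (bu D (vs s k (k + 3 + x))) (bu D (vs s k (k + 3 + y))) := fun x hx y hy ne =>
    bu_dis gr (qv x hx) (qv y hy) fun z hz hz' => by
      have a := hz.1
      have b := hz'.1
      omega
  have cc : ∀ i ≤ s + 1, ∀ j < p, ∀ i' ≤ s + 1, ∀ j' < p, (i, j) ≠ (i', j') →
      Disjoint (bu D (cell (k + 3) p i j)) (bu D (cell (k + 3) p i' j')) :=
    fun i hi j hj i' hi' j' hj' ne => bu_dis gr (qc i hi j) (qc i' hi' j') fun z hz hz' => by
      obtain ⟨rfl, rfl⟩ := cell_dis p3 (by omega) hj (by omega) hj' hz hz'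
      exact ne rfl
  have cW : ∀ i ≤ s + 1, ∀ j, bu D (cell (k + 3) p i j) ⊆ U1 \ (I ∪ ls L) := fun i hi j v hv => by
    have a := bu_sub gr (qc i hi j) hv
    have b := disjoint_left.1 (c0 i hi j) hv
    exact ⟨mem1 hD (hD.sub.2.1 a) b, fun c => c.elim (notI hD a) fun c => b ((memL hD).1 c).1⟩
  have cC : ∀ i ≤ s + 1, ∀ j, Conn H1 (bu D (cell (k + 3) p i j)) := fun i hi j =>
    conn1 hD (bu_conn gr (qc i hi j) (cell_conn p3 (by omega))) (c0 i hi j)
  have cH : ∀ i ≤ s + 1, ∀ j < p,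
      Touch H1 (bu D (cell (k + 3) p i j)) (bu D (cell (k + 3) p i ((j + 1) % p))) :=
    fun i hi j hj => touch1 hD (bu_touch gr (qc i hi _) (qc i hi _) (cell_hor p3 (by omega) hj))
      (c0 i hi j)
  -- the feet of the columns
  have sV : ∀ j < p, ∀ a b, b ≤ l j → f j '' Icc a b ⊆ bu D (vs s k (k + 3 + j)) := by
    rintro j hj a b hb _ ⟨i, hi, rfl⟩
    exact (hf j hj).1 i (hi.2.trans hb)
  have lS : ∀ j < p, f j '' Icc 0 (e j) ⊆ U1 \ I := by
    rintro j hj _ ⟨i, hi, rfl⟩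
    have a := bu_sub gr (qv j hj) ((hf j hj).1 i (hi.2.trans (el j hj)))
    refine ⟨?_, notI hD a⟩
    rcases hi.2.lt_or_eq with c | rfl
    · exact mem1 hD (hD.sub.2.1 a) (off j hj i c)
    · exact ((memL hD).1 (oL j hj)).2
  have lC : ∀ j < p, Conn H1 (f j '' Icc 0 (e j)) := fun j hj =>
    conn_seg (Nat.zero_le _) fun i _ hi =>
      adj1 hD ((hf j hj).2.1 i (hi.trans_le (el j hj))) (off j hj i hi)
  have lT : ∀ j < p, Touch H1 (bu D (cell (k + 3) p (s + 1) j)) (f j '' Icc 0 (e j)) :=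
    fun j hj => by
      obtain ⟨u, hu, a⟩ := top j hj
      exact ⟨u, cs _ le_rfl j hj hu, _, ⟨0, ⟨le_rfl, Nat.zero_le _⟩, rfl⟩, a⟩
  have lo : ∀ j, f j (e j) ∈ f j '' Icc 0 (e j) := fun j => ⟨_, ⟨Nat.zero_le _, le_rfl⟩, rfl⟩
  have lL : ∀ j < p, f j '' Icc 0 (e j) ∩ ls L = {f j (e j)} := fun j hj => by
    refine Subset.antisymm ?_ (singleton_subset_iff.2 ⟨lo j, oL j hj⟩)
    rintro _ ⟨⟨i, hi, rfl⟩, c⟩
    rcases hi.2.lt_or_eq with d | rfl
    · exact absurd ((memL hD).1 c).1 (off j hj i d)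
    · rfl
  have hub : ∀ i < p, Touch H1 I (bu D (cell (k + 3) p 0 i)) := fun i hi =>
    touch1 hD ((hD.hub.2 (k + 3 + i) (by omega)).mono Subset.rfl (cs 0 (by omega) i hi)) (hubU0 hD)
  obtain ⟨seg, hseg⟩ := ord V H1 U1 I L p
    (fun j => bu D (cell (k + 3) p (s + 1) j) ∪ f j '' Icc 0 (e j)) (fun j => f j (e j)) hD.nd
    (by omega)
    (fun j hj => ⟨union_subset (fun v hv => ⟨(cW _ le_rfl j hv).1,
        fun c => (cW _ le_rfl j hv).2 (Or.inl c)⟩) (lS j hj),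
      conn_union_touch (cC _ le_rfl j) (lC j hj) (lT j hj), Or.inr (lo j), oL j hj,
      (cH _ le_rfl j hj).mono subset_union_left subset_union_left⟩)
    (fun i hi j hj ne => disjoint_union_left.2
      ⟨disjoint_union_right.2 ⟨cc _ le_rfl i hi _ le_rfl j hj (by simpa using ne),
        ((cv _ le_rfl i j hj).mono_left (sV j hj _ _ (el j hj))).symm⟩,
      disjoint_union_right.2 ⟨(cv _ le_rfl j i hi).mono_left (sV i hi _ _ (el i hi)),
        (vv i hi j hj ne).mono (sV i hi _ _ (el i hi)) (sV j hj _ _ (el j hj))⟩⟩) hD.hf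
  obtain ⟨Ω, hΩ, rot⟩ : ∃ Ω, (Ω = L ∨ Ω = L.reverse) ∧
      List.IsRotated Ω (cyc (fun j => f j (e j)) seg p) :=
    hseg.elim (fun a => ⟨_, Or.inl rfl, a⟩) fun a => ⟨_, Or.inr rfl, a⟩
  have eL : ls Ω = ls L := by
    rcases hΩ with rfl | rfl
    · rfl
    · ext v
      simp [ls]
  let c : CD V := ⟨I, s + 1, p, fun i j => bu D (cell (k + 3) p i j),
    fun j => f j '' Icc 0 (e j), fun j => f j (e j), seg⟩
  have hc : FCol H1 U1 Ω c :=
    { soc := ⟨hD.split.t2, by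
        rcases hΩ with rfl | rfl
        exacts [hD.nd, List.nodup_reverse.2 hD.nd],
        fun x hx => ((memL hD).1 (eL ▸ (show x ∈ ls Ω from hx))).2⟩
      rot := rot
      t4 := by show 4 ≤ p; omega
      cell := fun i hi j _ => ⟨eL ▸ cW i hi j, cC i hi j⟩
      dis := cc
      hor := cH
      ver := fun i (hi : i < s + 1) j hj => touch1 hD
        (bu_touch gr (qc i hi.le _) (qc _ hi _) (cell_ver p3 (by omega) hj)) (c0 i hi.le j)
      lam := fun j hj => ⟨lS j hj, lC j hj, lT j hj, eL ▸ lL j hj⟩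
      lamd := fun i hi j hj => ⟨fun ne =>
        (vv i hi j hj ne).mono (sV i hi _ _ (el i hi)) (sV j hj _ _ (el j hj)),
        fun a ha => (cv a ha j i hi).mono_left (sV i hi _ _ (el i hi))⟩
      hub := ⟨fun v hv => mem1 hD (hD.sub.2.2 hv).1 (disjoint_left.1 (hubU0 hD) hv), hD.hub.1,
        eL ▸ (hubU0 hD).mono_right fun v hv => ((memL hD).1 hv).1, hub⟩
      flat := by
        rcases hΩ with rfl | rfl
        exacts [hD.hf, (nf V H1 U1).2.2.2.2.2.2.2.1 L I hD.hf] }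
  obtain ⟨c', k1, k2, k3, -, -, k4, k5⟩ := coar V H1 U1 Ω c 0 s t (fun i => q + i) (fun _ => I) hc
    (by show 0 + s < s + 1; omega) ht (fun i i' a _ => by omega)
    (fun i hi => by show q + i < p; omega) fun i hi => hub _ (by omega)
  obtain ⟨-, -, i1, -, -, i2⟩ := ins V H1 U1 Ω c hc (s + 1) le_rfl
  have core1 : c.Core H1 U1 ⊆ U1 := by
    rintro v (hv | ⟨j, hj, hv | ⟨i, -, hi, hv⟩⟩)
    · exact hv.1.1
    · exact (lS j hj hv).1
    · exact (cW i hi j hv).1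
  have deep : ∀ i j, k + 3 ≤ i → k + 3 ≤ j → i + k + 2 ≤ m → j + k + 2 ≤ m →
      Disjoint (D i j) (c.Core H1 U1) := fun i j a1 a2 a3 a4 =>
    (hD.deep i j a1 a2 a3 a4).mono_right core1
  have noin : ∀ j < p, ∀ d, e j + d ≤ l j → f j (e j + d) ∉ c.In H1 U1 (s + 1) := by
    intro j hj d
    induction d with
    | zero => exact fun _ a => disjoint_left.1 i1 a (eL ▸ oL j hj)
    | succ d ih =>
      intro hd a
      have b : f j (e j + (d + 1)) ∉ U0 := fun b =>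
        disjoint_left.1 i1 a (eL ▸ (memL hD).2 ⟨b, a.1.1⟩)
      rcases i2 _ a _ (adj1 hD ((hf j hj).2.1 (e j + d) (by omega)).symm b) with r | ⟨i, -, r⟩
      · exact ih (by omega) r
      · exact disjoint_left.1 (cv _ le_rfl i j hj) ((hf j hj).1 _ (by omega)) r
  have railc : ∀ j < p, f j '' Icc (e j) (l j) ∩ c.Core H1 U1 = {f j (e j)} := fun j hj => by
    refine Subset.antisymm ?_ (singleton_subset_iff.2
      ⟨⟨_, ⟨le_rfl, el j hj⟩, rfl⟩, Or.inr ⟨j, hj, Or.inl (lo j)⟩⟩)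
    rintro _ ⟨⟨i, hi, rfl⟩, a | ⟨x, hx, a | ⟨y, -, hy, a⟩⟩⟩
    · obtain ⟨d, rfl⟩ := Nat.exists_eq_add_of_le hi.1
      exact absurd a (noin j hj d hi.2)
    · by_cases r : j = x
      · subst r
        obtain ⟨i', hi', r⟩ := a
        have := (hf j hj).2.2 i' (hi'.2.trans (el j hj)) i hi.2 r
        have a1 := hi.1
        have a2 := hi'.2
        rw [show i = e j by omega]
        rfl
      · exact absurd (sV x hx _ _ (el x hx) a)
          (disjoint_left.1 (vv j hj x hx r) ((hf j hj).1 i hi.2))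
    · exact absurd a (disjoint_left.1 (cv y hy x j hj) ((hf j hj).1 i hi.2))
  let T : ℕ → Set V := fun x => if x < q then D (k + 3) (k + 3 + x) else f x '' Icc (e x) (l x)
  have T1 : ∀ x < q, T x = D (k + 3) (k + 3 + x) := fun x hx => if_pos hx
  have T2 : ∀ x, q ≤ x → T x = f x '' Icc (e x) (l x) := fun x hx => if_neg (by omega)
  have TV : ∀ x < q + t, T x ⊆ bu D (vs s k (k + 3 + x)) := fun x hx => by
    rcases lt_or_ge x q with a | a
    · rw [T1 x a]
      exact sub_bu ⟨rfl, by dsimp only; omega, le_rfl⟩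
    · rw [T2 x a]
      exact sV x (by omega) _ _ le_rfl
  have un : Univ G h (q + t) (c.Core H1 U1) fun j => f j (e j) := by
    refine kh V G h (q + t) (q + t) _ _ (fun z => D (k + 4 + z.2) (k + 3 + z.1)) T hK (by omega)
      (by omega) (by omega) (fun z z1 z2 => ⟨conn_le hG (gr.conn _ (by omega) _ (by omega)).2,
        deep _ _ (by omega) (by omega) (by omega) (by omega), fun x hx => ?_,
        fun z' z3 z4 => ⟨fun ne => gr.dis _ (by omega) _ (by omega) _ (by omega) _ (by omega)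
          fun a => ne ?_, fun a => touch_le hG ?_⟩⟩) fun x hx => ⟨?_, ?_, fun y hy ne =>
        (vv x (by omega) y (by omega) ne).mono (TV x hx) (TV y hy), fun a => ?_, fun a => ?_,
        fun a => ?_⟩
    · refine (bu_dis gr (A := {(k + 3 + z.1, k + 4 + z.2)}) ?_ (qv x (by omega)) ?_).mono
        (sub_bu (mem_singleton _)) (TV x hx)
      · rintro _ rfl
        dsimp only
        omega
      · rintro _ rfl ⟨-, -, a⟩
        dsimp only at a
        omega
    · simp only [Prod.mk.injEq] at a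
      exact Prod.ext (by omega) (by omega)
    · refine gr_touch gr (z := (k + 3 + z.1, k + 4 + z.2)) (z' := (k + 3 + z'.1, k + 4 + z'.2))
        (by dsimp only; omega) (by dsimp only; omega) ?_
      simp only [gridN] at a ⊢
      omega
    · rcases lt_or_ge x q with a | a
      · rw [T1 x a]
        exact conn_le hG (gr.conn _ (by omega) _ (by omega)).2
      · rw [T2 x a]
        exact conn_seg (el x (by omega)) fun i _ hi => hG ((hf x (by omega)).2.1 i hi)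
    · rw [node, if_pos hx]
      rcases lt_or_ge x q with a | a
      · rw [T1 x a]
        exact touch_le hG (gr.ver (k + 3) (by omega) _ (by omega))
      · rw [T2 x a]
        obtain ⟨w, hw, b⟩ := bot x (by omega)
        exact ⟨_, ⟨_, ⟨el x (by omega), le_rfl⟩, rfl⟩, w, hw, hG b⟩
    · rw [T1 x (by omega), T1 (x + 1) (by omega)]
      exact touch_le hG (gr.hor (k + 3) (by omega) (k + 3 + x) (by omega))
    · rw [T1 x (by omega)]
      exact deep _ _ le_rfl (by omega) (by omega) (by omega)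
    · rw [T2 x (by omega)]
      exact railc x (by omega)
  exact ⟨Ω, c', q + t, c.Core H1 U1, fun j => f j (e j), fun i => q + i, hΩ,
    ⟨un, (le1 hD).trans hG, k1, fun i j a _ => by omega,
      fun i hi => ⟨(k5 i (k3 ▸ hi)).1, by omega, by omega⟩, k4⟩, k2, k3⟩

end Pool.Agent.MP_9d78a0_co.st

end MrgPart6

-- marker of a merged file
example : 731051 + 423903 = 731051 + 423903 := rfl
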