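import Pool.Agent.MP_9d78a0_co.gm.Map
import Pool.Agent.MP_9d78a0_co.gm.SpecJ
import Pool.Agent.MP_9d78a0_co.gm.BGrid
import Pool.Agent.MP_9d78a0_co.st.TRg
import Pool.Agent.MP_9d78a0_co.st.Del
import Pool.Agent.MP_9d78a0_co.fb.Part12
import Pool.Agent.MP_9d78a0_co.st.Dbl
import Pool.Agent.MP_9d78a0_co.st.In
import Pool.Agent.MP_9d78a0_co.st.Sit

-- ======== part 0: formerly Pool.Agent.MP_9d78a0_co.fb.Leva
section MrgPart0

/-! Many quiet ranges of rows. -/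

set_option autoImplicit false

namespace Pool.Agent.MP_9d78a0_co.fb

open Set Function

namespace Leva

variable {V : Type} {G : SimpleGraph V}

/-- an increasing enumeration of `n` members of a finite set -/
theorem enum (S : Finset ℕ) {n : ℕ} (hn : n ≤ S.card) :
    ∃ g : ℕ → ℕ, (∀ i < n, g i ∈ S) ∧ ∀ i j, i < j → j < n → g i < g j := by
  refine ⟨fun i => if hi : i < n then S.orderEmbOfCardLe hn ⟨i, hi⟩ else 0, fun i hi => ?_,
    fun i j hij hj => ?_⟩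
  · simp only [dif_pos hi]
    exact Finset.orderEmbOfCardLe_mem S hn _
  · simp only [dif_pos hj, dif_pos (hij.trans hj)]
    exact (S.orderEmbOfCardLe hn).strictMono hij

theorem ncard_un [Finite V] (A : ℕ → Set V) (κ n : ℕ) (h : ∀ i < n, (A i).ncard ≤ κ) :
    {v | ∃ i < n, v ∈ A i}.ncard ≤ n * κ := by
  induction n with
  | zero => simp
  | succ n ih =>
    have e : {v | ∃ i < n + 1, v ∈ A i} = {v | ∃ i < n, v ∈ A i} ∪ A n := by
      ext v
      constructor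
      · rintro ⟨i, hi, hv⟩
        rcases Nat.lt_succ_iff_lt_or_eq.1 hi with k | rfl
        exacts [Or.inl ⟨i, k, hv⟩, Or.inr hv]
      · rintro (⟨i, hi, hv⟩ | hv)
        exacts [⟨i, by omega, hv⟩, ⟨n, by omega, hv⟩]
    rw [e]
    have h1 := ih fun i hi => h i (by omega)
    have h2 := h n (by omega)
    have h3 := ncard_union_le {v | ∃ i < n, v ∈ A i} (A n)
    rw [Nat.succ_mul]
    omega

theorem row_eq {U : Set V} {N p : ℕ} {C : ℕ → ℕ → Set V} (hC : Cyl G U N p C) {x : V} {r r' : ℕ}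
    (hr : r < N) (hr' : r' < N) (h : x ∈ Row C p r) (h' : x ∈ Row C p r') : r = r' := by
  obtain ⟨j, hj, hx⟩ := h
  obtain ⟨j', hj', hx'⟩ := h'
  by_contra k
  exact disjoint_left.1 (hC.dis r hr j hj r' hr' j' hj' fun e => k (Prod.mk.inj e).1) hx hx'

/-- a jump can be taken as a path -/
theorem thin {M J : Set V} {u v : V} (h : Jump G M J u v) (hv : v ∈ M) :
    ∃ J0 ⊆ J, Jump G M J0 u v ∧ ∀ x ∈ J0, x ∉ M →
      ∃ K ⊆ J0, Conn G K ∧ u ∈ K ∧ x ∈ K ∧ ∀ y ∈ K, y ∈ M → y = u := by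
  obtain ⟨hc, hu, hvJ, hm⟩ := h
  obtain ⟨f, l, hp, h0, hl⟩ := link_path (hc.2 u hu v hvJ) hu
  have sub : f '' Icc 0 l ⊆ J := by
    rintro _ ⟨i, hi, rfl⟩
    exact hp.1 i hi.2
  refine ⟨f '' Icc 0 l, sub, ⟨conn_seg (Nat.zero_le _) fun i _ hi => hp.2.1 i hi,
    ⟨0, ⟨le_rfl, Nat.zero_le _⟩, h0⟩, ⟨l, ⟨Nat.zero_le _, le_rfl⟩, hl⟩,
    fun x hx => hm x (sub hx)⟩, ?_⟩
  rintro _ ⟨i, hi, rfl⟩ hx
  refine ⟨f '' Icc 0 i, image_mono (Icc_subset_Icc_right hi.2),
    conn_seg (Nat.zero_le _) fun j _ hj => hp.2.1 j (lt_of_lt_of_le hj hi.2),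
    ⟨0, ⟨le_rfl, Nat.zero_le _⟩, h0⟩, ⟨i, ⟨Nat.zero_le _, le_rfl⟩, rfl⟩, ?_⟩
  rintro _ ⟨j, hj, rfl⟩ hy
  have hjl : j ≤ l := hj.2.trans hi.2
  rcases hm _ (hp.1 j hjl) hy with k | k
  · exact k
  · have e : j = l := hp.2.2 j hjl l le_rfl (k.trans hl.symm)
    have e' : i = l := le_antisymm hi.2 (e ▸ hj.2)
    exact absurd (e' ▸ hl ▸ hv) hx

theorem block {P e r : ℕ} (h1 : e * P ≤ r) (h2 : r < e * P + P) : r / P = e :=
  Nat.div_eq_of_lt_le h1 (by rw [Nat.succ_mul]; exact h2)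

theorem spaced {P e e' : ℕ} (h : e < e') : e * P + P ≤ e' * P := by
  rw [← Nat.succ_mul]
  exact Nat.mul_le_mul_right P h

/-- fewer than `h * h` of the ranges whose jumps stay near have a long jump -/
theorem few (h2 : BusS) {h l N p : ℕ} {U A : Set V} {C : ℕ → ℕ → Set V} (hp : 2 * h ≤ p)
    (hN : 2 * h ≤ N) (hK : NoK h G) (hC : Cyl G U N p C) (S : Finset ℕ)
    (hS : ∀ e ∈ S, e * (l + 6 * h + 2) + (l + 6 * h + 2) ≤ N)
    (near : ∀ e ∈ S, ∀ J u v r r', Jump G (Mesh C N p) J u v → Disjoint J A →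
      e * (l + 6 * h + 2) + 2 * h + 1 ≤ r → r < e * (l + 6 * h + 2) + 2 * h + 1 + l → r' < N →
      u ∈ Row C p r → v ∈ Row C p r' →
      e * (l + 6 * h + 2) < r' ∧ r' < e * (l + 6 * h + 2) + l + 4 * h + 2)
    (loud : ∀ e ∈ S, ¬ Quiet G C N p A (e * (l + 6 * h + 2) + 2 * h + 1)
      (e * (l + 6 * h + 2) + 2 * h + 1 + l) (2 * h + 1)) : S.card < h * h := by
  by_contra hc
  obtain ⟨g, hg, hm⟩ := enum S (not_lt.1 hc)
  generalize hP : l + 6 * h + 2 = P at *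
  have key : ∀ i, ∃ (J : Set V) (u v : Option V) (r r' : ℕ), i < h * h → ∃ u0 v0, u = some u0 ∧
      v = some v0 ∧
      Jump G (Mesh C N p) J u0 v0 ∧ Disjoint J A ∧ g i * P + 2 * h + 1 ≤ r ∧
      r < g i * P + 2 * h + 1 + l ∧ r' < N ∧ u0 ∈ Row C p r ∧ v0 ∈ Row C p r' ∧
      (r + 2 * h ≤ r' ∨ r' + 2 * h ≤ r) ∧ ∀ x ∈ J, x ∉ Mesh C N p →
        ∃ K ⊆ J, Conn G K ∧ u0 ∈ K ∧ x ∈ K ∧ ∀ y ∈ K, y ∈ Mesh C N p → y = u0 := by
    intro i
    by_cases hi : i < h * h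
    · have k := loud _ (hg i hi)
      simp only [Quiet, not_forall] at k
      obtain ⟨J, u, v, r, r', hJ, hA, a1, a2, a3, a4, a5, a6⟩ := k
      obtain ⟨J0, s0, hJ0, hth⟩ := thin hJ ⟨r', a3, a5⟩
      exact ⟨J0, some u, some v, r, r', fun _ => ⟨u, v, rfl, rfl, hJ0, hA.mono_left s0, a1, a2, a3,
        a4, a5, by omega, hth⟩⟩
    · exact ⟨∅, none, none, 0, 0, fun k => absurd k hi⟩
  rcases Nat.eq_zero_or_pos (h * h) with h0 | h0
  · have e : h = 0 := by simpa using h0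
    subst e
    exact hK ⟨fun i => i.elim0, fun i => i.elim0, fun i => i.elim0, fun i => i.elim0⟩
  choose J uo vo r r' hJ using key
  obtain ⟨x0, -⟩ := hJ 0 h0
  have key : ∀ i, i < h * h →
      Jump G (Mesh C N p) (J i) ((uo i).getD x0) ((vo i).getD x0) ∧ Disjoint (J i) A ∧
      g i * P + 2 * h + 1 ≤ r i ∧ r i < g i * P + 2 * h + 1 + l ∧ r' i < N ∧
      (uo i).getD x0 ∈ Row C p (r i) ∧ (vo i).getD x0 ∈ Row C p (r' i) ∧
      (r i + 2 * h ≤ r' i ∨ r' i + 2 * h ≤ r i) ∧ ∀ x ∈ J i, x ∉ Mesh C N p →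
        ∃ K ⊆ J i, Conn G K ∧ (uo i).getD x0 ∈ K ∧ x ∈ K ∧
          ∀ y ∈ K, y ∈ Mesh C N p → y = (uo i).getD x0 := by
    intro i hi
    obtain ⟨u0, v0, e1, e2, k⟩ := hJ i hi
    rw [e1, e2]
    exact k
  clear hJ
  generalize hu : (fun i => (uo i).getD x0) = u
  generalize hv : (fun i => (vo i).getD x0) = v
  have eu : ∀ i, (uo i).getD x0 = u i := fun i => congrFun hu i
  have ev : ∀ i, (vo i).getD x0 = v i := fun i => congrFun hv i
  simp only [eu, ev] at key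
  have rN : ∀ i < h * h, r i < N := fun i hi => by
    have := hS _ (hg i hi)
    have := (key i hi).2.2.2.1
    omega
  have nr : ∀ i < h * h, g i * P < r' i ∧ r' i < g i * P + l + 4 * h + 2 := fun i hi => by
    obtain ⟨a1, a2, a3, a4, a5, a6, a7, -⟩ := key i hi
    exact near _ (hg i hi) _ _ _ _ _ a1 a2 a3 a4 a5 a6 a7
  have sep : ∀ i < h * h, ∀ j < h * h, i ≠ j → g i * P + P ≤ g j * P ∨ g j * P + P ≤ g i * P :=
    fun i hi j hj ne => by
      rcases lt_or_gt_of_ne ne with k | k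
      exacts [Or.inl (spaced (hm i j k hj)), Or.inr (spaced (hm j i k hi))]
  refine hK (h2 h V G U N p C J u v r r' hp hN hC (fun i hi => ?_) fun i hi j hj => ?_)
  · obtain ⟨a1, -, -, -, a5, a6, a7, -⟩ := key i hi
    exact ⟨a1, rN i hi, a5, a6, a7⟩
  obtain ⟨a1, a2, a3, a4, a5, a6, a7, a8, a9⟩ := key i hi
  obtain ⟨b1, b2, b3, b4, b5, b6, b7, -, b9⟩ := key j hj
  have c1 := nr i hi
  have c2 := nr j hj
  refine ⟨?_, fun ne => ?_⟩
  · by_cases ne : i = j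
    · subst ne
      exact a8
    · have := sep i hi j hj ne
      omega
  have c3 := sep i hi j hj ne
  refine ⟨disjoint_left.2 fun x hx hx' => ?_, by omega, by omega⟩
  by_cases hM : x ∈ Mesh C N p
  · rcases a1.2.2.2 x hx hM with e | e <;> rcases b1.2.2.2 x hx' hM with e' | e'
    · have := row_eq hC (rN i hi) (rN j hj) (e ▸ a6) (e' ▸ b6)
      omega
    · have := row_eq hC (rN i hi) b5 (e ▸ a6) (e' ▸ b7)
      omega
    · have := row_eq hC a5 (rN j hj) (e ▸ a7) (e' ▸ b6)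
      omega
    · have := row_eq hC a5 b5 (e ▸ a7) (e' ▸ b7)
      omega
  · obtain ⟨K, s, k1, k2, k3, k4⟩ := a9 x hx hM
    obtain ⟨K', s', k1', k2', k3', k4'⟩ := b9 x hx' hM
    have jj : Jump G (Mesh C N p) (K ∪ K') (u i) (u j) :=
      ⟨pl.conn_union k1 k1' k3 k3', Or.inl k2, Or.inr k2', fun y hy hyM =>
        hy.elim (fun t => Or.inl (k4 y t hyM)) fun t => Or.inr (k4' y t hyM)⟩
    have := near _ (hg i hi) _ _ _ _ _ jj
      (disjoint_union_left.2 ⟨a2.mono_left s, b2.mono_left s'⟩) a3 a4 (rN j hj) a6 b6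
    omega

theorem size {c κ h m : ℕ} (hm : m = c * (2 * κ + 2) + 4 * κ + h * h + 1) :
    c * (2 * (m * κ) + 2) + 1 + 4 * (m * κ) + h * h ≤ m * m := by
  have h1 : 1 ≤ m := by omega
  have h2 : m * m = m * (c * (2 * κ + 2) + 4 * κ + h * h + 1) := by rw [← hm]
  have h3 : c * 2 ≤ m * (c * 2) := Nat.le_mul_of_pos_left _ h1
  have h4 : h * h ≤ m * (h * h) := Nat.le_mul_of_pos_left _ h1
  nlinarith

end Leva

open Leva in
theorem levaS (h1 : CutS) (h2 : BusS) : LevaS := by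
  classical
  intro h c
  obtain ⟨κ, hκ⟩ := h1 h
  obtain ⟨m, hm⟩ : ∃ m, m = c * (2 * κ + 2) + 4 * κ + h * h + 1 := ⟨_, rfl⟩
  have hsz := size hm
  have m0 : 0 < m := by omega
  refine ⟨2 * (m * κ), c * (2 * (m * κ) + 2) + 1, Nat.lt_succ_self _, fun l => ?_⟩
  obtain ⟨P, hP⟩ : ∃ P, P = l + 6 * h + 2 := ⟨_, rfl⟩
  refine ⟨m * m * P + 2 * h + 2, fun V _ G U p C hp hK hC => ?_⟩
  obtain ⟨N, hN⟩ : ∃ N, N = m * m * P + 2 * h + 2 := ⟨_, rfl⟩
  rw [← hN] at hC ⊢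
  have top : ∀ e < m * m, e * P + P ≤ N := fun e he => by
    have := spaced (P := P) he
    omega
  have cut : ∀ (π : ℕ → ℕ) (x : ℕ), ∃ (A : Set V) (Bad : Finset ℕ), A.ncard ≤ κ ∧ Bad.card ≤ κ ∧
      ∀ e < m * m, π e = x → e ∉ Bad → ∀ J u v r r', Jump G (Mesh C N p) J u v → Disjoint J A →
        e * P + 2 * h + 1 ≤ r → r < e * P + 2 * h + 1 + l → r' < N → u ∈ Row C p r →
        v ∈ Row C p r' → ∃ e', π e' = x ∧ e' * P < r' ∧ r' < e' * P + l + 4 * h + 2 := by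
    intro π x
    obtain ⟨A, Bad, a1, a2, a3⟩ := hκ V G U N p l C (fun e => e * P + 2 * h + 1)
      ((Finset.range (m * m)).filter fun e => π e = x) hp (by omega) hK hC
      (fun e he => by
        have := top e (Finset.mem_range.1 (Finset.mem_filter.1 he).1)
        show e * P + 2 * h + 1 + l ≤ N
        omega)
      (fun e _ e' _ lt => by
        have := spaced (P := P) lt
        show e * P + 2 * h + 1 + l + 2 * h ≤ e' * P + 2 * h + 1
        omega)
    refine ⟨A, Bad, a1, a2, fun e he hx hb J u v r r' b1 b2 b3 b4 b5 b6 b7 => ?_⟩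
    obtain ⟨e', he', c1, c2⟩ := a3 e (Finset.mem_filter.2 ⟨Finset.mem_range.2 he, hx⟩) hb J u v r r'
      b1 b2 b3 b4 b5 b6 b7
    exact ⟨e', (Finset.mem_filter.1 he').2, by omega, by omega⟩
  choose A1 B1 a1 b1 c1 using cut fun e => e / m
  choose A2 B2 a2 b2 c2 using cut fun e => e % m
  obtain ⟨A, hA⟩ : ∃ A : Set V, A = {v | ∃ i < m, v ∈ A1 i} ∪ {v | ∃ i < m, v ∈ A2 i} := ⟨_, rfl⟩
  have cA : A.ncard ≤ 2 * (m * κ) := by
    have k1 := ncard_un A1 κ m fun i _ => a1 i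
    have k2 := ncard_un A2 κ m fun i _ => a2 i
    have k3 := ncard_union_le {v | ∃ i < m, v ∈ A1 i} {v | ∃ i < m, v ∈ A2 i}
    rw [hA]
    omega
  have rw0 : ∀ v : V, ∃ ρ, ∀ r < N, v ∈ Row C p r → ρ = r := fun v => by
    by_cases k : ∃ r < N, v ∈ Row C p r
    · obtain ⟨r, hr, hv⟩ := k
      exact ⟨r, fun r' hr' hv' => row_eq hC hr hr' hv hv'⟩
    · exact ⟨0, fun r hr hv => absurd ⟨r, hr, hv⟩ k⟩
  choose ρ hρ using rw0
  obtain ⟨B, hB⟩ : ∃ B : Finset ℕ, B = ((Finset.range m).biUnion B1 ∪ (Finset.range m).biUnion B2) ∪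
      (toFinite A).toFinset.image fun v => ρ v / P := ⟨_, rfl⟩
  have cB : B.card ≤ 4 * (m * κ) := by
    have k1 := Finset.card_biUnion_le_card_mul (Finset.range m) B1 κ fun i _ => b1 i
    have k2 := Finset.card_biUnion_le_card_mul (Finset.range m) B2 κ fun i _ => b2 i
    have k3 := Finset.card_image_le (s := (toFinite A).toFinset) (f := fun v => ρ v / P)
    have k4 := Finset.card_union_le ((Finset.range m).biUnion B1) ((Finset.range m).biUnion B2)
    have k5 := Finset.card_union_le ((Finset.range m).biUnion B1 ∪ (Finset.range m).biUnion B2)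
      ((toFinite A).toFinset.image fun v => ρ v / P)
    rw [← ncard_eq_toFinset_card A] at k3
    rw [Finset.card_range] at k1 k2
    rw [hB]
    omega
  have near : ∀ e < m * m, e ∉ B → ∀ J u v r r', Jump G (Mesh C N p) J u v → Disjoint J A →
      e * P + 2 * h + 1 ≤ r → r < e * P + 2 * h + 1 + l → r' < N → u ∈ Row C p r →
      v ∈ Row C p r' → e * P < r' ∧ r' < e * P + l + 4 * h + 2 := by
    intro e he hb J u v r r' d1 d2 d3 d4 d5 d6 d7
    have x1 : e / m < m := Nat.div_lt_of_lt_mul he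
    have x2 : e % m < m := Nat.mod_lt _ m0
    obtain ⟨e1, p1, q1, q1'⟩ := c1 (e / m) e he rfl
      (fun k => hb (hB ▸ Finset.mem_union_left _ (Finset.mem_union_left _
        (Finset.mem_biUnion.2 ⟨_, Finset.mem_range.2 x1, k⟩)))) J u v r r' d1
      (d2.mono_right fun y hy => hA ▸ Or.inl ⟨_, x1, hy⟩) d3 d4 d5 d6 d7
    obtain ⟨e2, p2, q2, q2'⟩ := c2 (e % m) e he rfl
      (fun k => hb (hB ▸ Finset.mem_union_left _ (Finset.mem_union_right _
        (Finset.mem_biUnion.2 ⟨_, Finset.mem_range.2 x2, k⟩)))) J u v r r' d1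
      (d2.mono_right fun y hy => hA ▸ Or.inr ⟨_, x2, hy⟩) d3 d4 d5 d6 d7
    have y1 : r' / P = e1 := block q1.le (by omega)
    have y2 : r' / P = e2 := block q2.le (by omega)
    have y3 : e1 = e := by
      have z1 := Nat.div_add_mod e1 m
      have z2 := Nat.div_add_mod e m
      rw [← y2, y1] at p2
      rw [p1, p2] at z1
      omega
    rw [← y3]
    exact ⟨q1, q1'⟩
  have clean : ∀ e < m * m, e ∉ B → ∀ r, e * P + 2 * h + 1 ≤ r + (2 * h + 1) →
      r < e * P + 2 * h + 1 + l + (2 * h + 1) → Disjoint A (Row C p r) := by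
    intro e he hb r d1 d2
    refine disjoint_left.2 fun x hx hx' => hb ?_
    have := top e he
    have e1 : ρ x = r := hρ x r (by omega) hx'
    have e2 : r / P = e := block (by omega) (by omega)
    rw [hB]
    exact Finset.mem_union_right _ (Finset.mem_image.2 ⟨x, (Finite.mem_toFinset _).2 hx,
      by rw [e1, e2]⟩)
  obtain ⟨S, hS⟩ : ∃ S : Finset ℕ, S = Finset.range (m * m) \ B := ⟨_, rfl⟩
  have mS : ∀ e ∈ S, e < m * m ∧ e ∉ B := fun e he => by
    rw [hS, Finset.mem_sdiff, Finset.mem_range] at he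
    exact he
  have cS : m * m ≤ S.card + B.card := by
    have := Finset.le_card_sdiff B (Finset.range (m * m))
    rw [Finset.card_range, ← hS] at this
    omega
  have cL := few h2 (l := l) (A := A) hp (by omega) hK hC
    (S.filter fun e => ¬ Quiet G C N p A (e * P + 2 * h + 1) (e * P + 2 * h + 1 + l) (2 * h + 1))
    (fun e he => hP ▸ top e (mS e (Finset.mem_filter.1 he).1).1)
    (fun e he => hP ▸ near e (mS e (Finset.mem_filter.1 he).1).1 (mS e (Finset.mem_filter.1 he).1).2)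
    (fun e he => hP ▸ (Finset.mem_filter.1 he).2)
  have cQ := Finset.card_filter_add_card_filter_not (s := S)
    fun e => Quiet G C N p A (e * P + 2 * h + 1) (e * P + 2 * h + 1 + l) (2 * h + 1)
  obtain ⟨g, hg, hmono⟩ := enum (S.filter
    fun e => Quiet G C N p A (e * P + 2 * h + 1) (e * P + 2 * h + 1 + l) (2 * h + 1))
    (n := c * (2 * (m * κ) + 2) + 1) (by omega)
  refine ⟨A, fun e => g e * P + 2 * h + 1, cA, fun e he => ?_, fun e e' lt he' => ?_⟩
  · obtain ⟨d1, d2⟩ := Finset.mem_filter.1 (hg e he)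
    obtain ⟨d3, d4⟩ := mS _ d1
    have := top _ d3
    refine ⟨?_, ?_, d2, clean _ d3 d4⟩
    · show 2 * h + 1 ≤ g e * P + 2 * h + 1
      omega
    · show g e * P + 2 * h + 1 + l + (2 * h + 1) ≤ N
      omega
  · have := spaced (P := P) (hmono e e' lt he')
    show g e * P + 2 * h + 1 + l + 2 * (2 * h + 1) ≤ g e' * P + 2 * h + 1
    omega

end Pool.Agent.MP_9d78a0_co.fb

end MrgPart0

-- ======== part 1: formerly Pool.Agent.MP_9d78a0_co.gm.JGlue
section MrgPart1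

/-! Block J: gluing with connectors that are joined through the local models. -/

set_option autoImplicit false

namespace Pool.Agent.MP_9d78a0_co.gm

open Set Function

theorem glue2S : Glue2S := by
  intro ι κ X X' ρ ρ' Z' S Y hS hle hρ h1 h2 h3 h4 h5 h6
  choose B hB b1 b2 using fun i => rle_iff.1 (hle i)
  let D : ι → Set W := fun i => VV (X i) ∪ range (ρ i) ∪ Nm
  have m1 : ∀ i k, ρ i k ∈ D i := fun i k => Or.inl (Or.inr ⟨k, rfl⟩)
  have m2 : ∀ i n, Sum.inr n ∈ D i := fun i n => Or.inr ⟨n, rfl⟩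
  have yq : ∀ u ∈ S, ∀ v ∈ S, ∀ x ∈ Y u, x ∈ Y v → u = v := fun u hu v hv x a b => by
    by_contra c
    exact disjoint_left.1 (h6 u hu v hv c) a b
  have k1 : ∀ i, ∀ u ∈ D i, ∀ x ∈ B i u, x ∈ range (ρ' i) → u ∈ S ∧ x ∈ Y u := by
    rintro i u hu _ hx ⟨k, rfl⟩
    rw [(hB i).eq hu (m1 i k) hx (b1 i k)]
    exact hρ i k
  have k2 : ∀ i, ∀ u ∈ D i, ∀ x ∈ B i u, x ∈ Nm → u = x := by
    rintro i u hu _ hx ⟨n, rfl⟩
    exact (hB i).eq hu (m2 i n) hx (b2 i n)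
  have k3 : ∀ i, ∀ u ∈ D i, ∀ v ∈ S, ∀ x ∈ B i u, x ∈ Y v → u = v := by
    intro i u hu v hv x hx hy
    have : x ∈ range (ρ' i) := by
      rcases (hB i).sub u hu hx with (c | c) | c
      exacts [(h5 v hv).2.2.1 i ⟨hy, c⟩, c, absurd c (od_iff.1 ((h5 v hv).1 hy))]
    obtain ⟨a, b⟩ := k1 i u hu x hx this
    exact yq u a v hv x b hy
  have k4 : ∀ i j, ∀ u ∈ D i, ∀ v ∈ D j, ∀ x ∈ B i u, x ∈ B j v → u = v := by
    intro i j u hu v hv x hx hy
    by_cases e : i = j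
    · subst e
      exact (hB i).eq hu hv hx hy
    rcases od_or_nm x with o | o
    · have : x ∈ range (ρ' i) ∨ x ∈ range (ρ' j) := by
        rcases (hB i).sub u hu hx with (c | c) | c
        · rcases (hB j).sub v hv hy with (d | d) | d
          exacts [Or.inl (h4 i j e ⟨⟨c, d⟩, o⟩), Or.inr d, absurd d (od_iff.1 o)]
        exacts [Or.inl c, absurd c (od_iff.1 o)]
      rcases this with c | c
      · obtain ⟨a, b⟩ := k1 i u hu x hx c
        exact (k3 j v hv u a x hy b).symm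
      · obtain ⟨a, b⟩ := k1 j v hv x hy c
        exact k3 i u hu v a x hx b
    · exact (k2 i u hu x hx o).trans (k2 j v hv x hy o).symm
  let C : W → Set W := fun v =>
    {x | (∃ i, v ∈ D i ∧ x ∈ B i v) ∨ (v ∈ S ∧ x ∈ Y v) ∨ (v ∈ Nm ∧ x = v)}
  have sb : ∀ i, ∀ v ∈ D i, B i v ⊆ C v := fun i v hv x hx => Or.inl ⟨i, hv, hx⟩
  have cn : ∀ i, ∀ v ∈ D i, Conn (gr Z') (B i v) := fun i v hv =>
    pl.conn_mono ((hB i).conn v hv) (gr_mono (h3 i))
  have dm : ∀ v ∈ dom (⋃ i, X i, ([] : List W)), v ∈ Od → ∃ i, v ∈ VV (X i) := by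
    rintro v ((c | c) | c) o
    exacts [mem_iUnion.1 (VV_iUnion X ▸ c), absurd c List.not_mem_nil, absurd c (od_iff.1 o)]
  refine ⟨C, ?_, fun v hv => ?_, fun u _ v _ e => ?_, fun u v e => ?_,
    fun n => Or.inr (Or.inr ⟨⟨n, rfl⟩, rfl⟩), List.Forall₂.nil⟩
  · rintro v - x (⟨i, hv, hx⟩ | ⟨hv, hx⟩ | ⟨hv, rfl⟩)
    · rcases (hB i).sub v hv hx with (c | c) | c
      · exact Or.inl (Or.inl (VV_mono (h3 i) c))
      · obtain ⟨a, b⟩ := k1 i v hv x hx c
        exact Or.inl (Or.inl ((h5 v a).2.1 b))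
      · exact Or.inr c
    exacts [Or.inl (Or.inl ((h5 v hv).2.1 hx)), Or.inr hv]
  · by_cases s : v ∈ S
    · have yy : ∀ a ∈ Y v, ∀ b ∈ Y v, Link (gr Z') (C v) a b := fun a ha b hb => by
        have k := (h5 v s).2.2.2 a ha b hb
        clear hb
        induction k with
        | refl => exact Link.refl _ _ _
        | tail _ q ih =>
          refine ih.trans ?_
          rcases q with ⟨q1, q2, q3⟩ | ⟨i, k, k', rfl, e, rfl, rfl⟩
          · exact Link.single (Or.inr (Or.inl ⟨s, q1⟩)) (Or.inr (Or.inl ⟨s, q2⟩)) q3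
          · exact ((cn i _ (m1 i k)).2 _ (b1 i k) _ (e ▸ b1 i k')).mono (sb i _ (m1 i k))
      have zz : ∀ z ∈ C v, ∃ a ∈ Y v, Link (gr Z') (C v) a z := by
        rintro z (⟨i, hi, hz⟩ | ⟨-, hz⟩ | ⟨c, -⟩)
        · obtain ⟨k, rfl⟩ : v ∈ range (ρ i) := by
            rcases hi with (c | c) | c
            exacts [h1 i ⟨s, c⟩, c, absurd c (od_iff.1 (hS s))]
          exact ⟨_, (hρ i k).2, ((cn i _ hi).2 _ (b1 i k) _ hz).mono (sb i _ hi)⟩
        · exact ⟨z, hz, Link.refl _ _ _⟩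
        · exact absurd c (od_iff.1 (hS s))
      obtain ⟨i, hi⟩ := dm v hv (hS s)
      obtain ⟨k, e⟩ := h1 i ⟨s, hi⟩
      refine ⟨⟨ρ' i k, Or.inr (Or.inl ⟨s, e ▸ (hρ i k).2⟩)⟩, fun a ha b hb => ?_⟩
      obtain ⟨a', a1, a2⟩ := zz a ha
      obtain ⟨b', c1, c2⟩ := zz b hb
      exact a2.symm.trans ((yy a' a1 b' c1).trans c2)
    rcases od_or_nm v with o | ⟨n, rfl⟩
    · have vv : ∀ i, v ∈ D i → v ∈ VV (X i) := by
        rintro i ((c | ⟨k, rfl⟩) | c)
        exacts [c, absurd (hρ i k).1 s, absurd c (od_iff.1 o)]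
      obtain ⟨i, hi⟩ := dm v hv o
      have hi' : v ∈ D i := Or.inl (Or.inl hi)
      have : C v = B i v := by
        refine subset_antisymm ?_ (sb i v hi')
        rintro z (⟨j, hj, hz⟩ | ⟨c, -⟩ | ⟨c, -⟩)
        · by_cases e : i = j
          exacts [e ▸ hz, absurd (h2 i j e ⟨⟨hi, vv j hj⟩, o⟩) s]
        exacts [absurd c s, absurd c (od_iff.1 o)]
      rw [this]
      exact cn i v hi'
    · have c0 : ({Sum.inr n} : Set W) ⊆ C (Sum.inr n) :=
        singleton_subset_iff.2 (Or.inr (Or.inr ⟨⟨n, rfl⟩, rfl⟩))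
      refine conn_cover (conn_singleton _ (Sum.inr n)) c0 ?_
      rintro z (⟨i, hi, hz⟩ | ⟨c, -⟩ | ⟨-, rfl⟩)
      exacts [⟨_, sb i _ hi, cn i _ hi, hz, _, b2 i n, rfl⟩, absurd c s,
        ⟨_, c0, conn_singleton _ _, rfl, _, rfl, rfl⟩]
  · rw [disjoint_left]
    rintro x (⟨i, a, b⟩ | ⟨a, b⟩ | ⟨a, rfl⟩) (⟨j, c, d⟩ | ⟨c, d⟩ | ⟨c, d⟩)
    exacts [e (k4 i j u a v c x b d), e (k3 i u a v c x b d), e ((k2 i u a x b (d ▸ c)).trans d),
      e (k3 j v c u a x d b).symm, e (yq u a v c x b d), od_iff.1 ((h5 u a).1 b) (d ▸ c),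
      e (k2 j v c x d a).symm, od_iff.1 ((h5 v c).1 d) a, e d]
  · obtain ⟨i, k⟩ := gr_iUnion e
    obtain ⟨x, hx, y, hy, d⟩ := (hB i).adj u v k
    exact ⟨x, sb i u (Or.inl (Or.inl (gr_mem k))) hx, y,
      sb i v (Or.inl (Or.inl (gr_mem k.symm))) hy, gr_mono (h3 i) d⟩

theorem zip_ofFn {n : ℕ} {ρ ρ' : Fin n → W} {a b : W} :
    (a, b) ∈ (List.ofFn ρ).zip (List.ofFn ρ') ↔ ∃ k, ρ k = a ∧ ρ' k = b := by
  simp only [List.ofFn_eq_map, List.zip_map', List.mem_map, List.mem_finRange, true_and,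
    Prod.mk.injEq]

/-- the gluing lemma with lists of roots -/
theorem glue2L {ι : Type} (X X' : ι → Pc) (l l' : ι → List W) (Z' : Pc) (S : Set W)
    (Y : W → Set W) (hS : S ⊆ Od) (hle : ∀ i, Le (X i, l i) (X' i, l' i))
    (hρ : ∀ i a b, (a, b) ∈ (l i).zip (l' i) → a ∈ S ∧ b ∈ Y a)
    (h1 : ∀ i, ∀ v ∈ S ∩ VV (X i), v ∈ l i) (h2 : ∀ i j, i ≠ j → VV (X i) ∩ VV (X j) ∩ Od ⊆ S)
    (h3 : ∀ i, X' i ⊆ Z') (h4 : ∀ i j, i ≠ j → ∀ v ∈ VV (X' i) ∩ VV (X' j) ∩ Od, v ∈ l' i)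
    (h5 : ∀ v ∈ S, Y v ⊆ Od ∧ Y v ⊆ VV Z' ∧ (∀ i, ∀ w ∈ Y v ∩ VV (X' i), w ∈ l' i) ∧
      ∀ a ∈ Y v, ∀ b ∈ Y v, Relation.ReflTransGen (fun a b => (a ∈ Y v ∧ b ∈ Y v ∧ (gr Z').Adj a b) ∨
        ∃ i, (v, a) ∈ (l i).zip (l' i) ∧ (v, b) ∈ (l i).zip (l' i)) a b)
    (h6 : ∀ u ∈ S, ∀ v ∈ S, u ≠ v → Disjoint (Y u) (Y v)) : Le (⋃ i, X i, []) (Z', []) := by
  choose n ρ' e' using fun i => exists_ofFn' (l' i)
  choose ρ e using fun i => exists_ofFn_len (l := l i) (ρ := ρ' i) (e' i ▸ (hle i).length)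
  obtain rfl : l = fun i => List.ofFn (ρ i) := funext e
  obtain rfl : l' = fun i => List.ofFn (ρ' i) := funext e'
  simp only [zip_ofFn, List.mem_ofFn] at hρ h1 h4 h5
  refine glue2S ι (fun i => Fin (n i)) X X' ρ ρ' Z' S Y hS (fun i => le_ofFn.1 (hle i))
    (fun i k => hρ i _ _ ⟨k, rfl, rfl⟩) (fun i v hv => h1 i v hv) h2 h3
    (fun i j c v hv => h4 i j c v hv) (fun v hv => ?_) h6
  obtain ⟨a1, a2, a3, a4⟩ := h5 v hv
  refine ⟨a1, a2, fun i w hw => a3 i w hw, fun a ha b hb =>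
    Relation.ReflTransGen.mono ?_ _ _ (a4 a ha b hb)⟩
  rintro a b (c | ⟨i, ⟨k, c1, c2⟩, k', c3, c4⟩)
  exacts [Or.inl c, Or.inr ⟨i, k, k', c1, c3, c2, c4⟩]

/-- equal roots of the target come from equal roots -/
theorem Le.zip_inj {X X' : Pc} {l l' : List W} (h : Le (X, l) (X', l')) {a a' b : W}
    (h1 : (a, b) ∈ l.zip l') (h2 : (a', b) ∈ l.zip l') : a = a' := by
  obtain ⟨n, ρ', rfl⟩ := exists_ofFn' l'
  obtain ⟨ρ, rfl⟩ := exists_ofFn_len (l := l) h.length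
  obtain ⟨k, rfl, e⟩ := zip_ofFn.1 h1
  obtain ⟨k', rfl, e'⟩ := zip_ofFn.1 h2
  exact (le_ofFn.1 h).inj (e.trans e'.symm)

/-- two pendant edges to the same name -/
theorem le_pend {v v' : W} (h : v ∈ Od) (h' : v' ∈ Od) (n : ℕ) :
    Le ({(v, Sum.inr n)}, [v]) ({(v', Sum.inr n)}, [v']) := by
  classical
  have d : ∀ u ∈ dom ({(v, Sum.inr n)}, [v]), u = v ∨ u ∈ Nm := by
    rintro u ((⟨_, rfl, c | c⟩ | c) | c)
    exacts [Or.inl c, Or.inr ⟨n, c.symm⟩, Or.inl (List.mem_singleton.1 c), Or.inr c]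
  have nv : ∀ u ∈ Nm, u ≠ v := fun u hu c => od_iff.1 h (c ▸ hu)
  have nv' : ∀ u ∈ Nm, u ≠ v' := fun u hu c => od_iff.1 h' (c ▸ hu)
  refine ⟨fun u => {if u = v then v' else u}, fun u hu => singleton_subset_iff.2 ?_,
    fun _ _ => conn_singleton _ _, fun u hu w hw c => disjoint_singleton.2 ?_, fun u w c => ?_,
    fun i => by simp [nv _ (inr_nm i)], by simp⟩
  · rcases d u hu with rfl | c
    · rw [if_pos rfl]; exact Or.inl (Or.inr (List.mem_singleton.2 rfl))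
    · rw [if_neg (nv u c)]; exact Or.inr c
  · rcases d u hu with rfl | a <;> rcases d w hw with rfl | b
    · exact absurd rfl c
    · rw [if_pos rfl, if_neg (nv w b)]; exact (nv' w b).symm
    · rw [if_pos rfl, if_neg (nv u a)]; exact nv' u a
    · rwa [if_neg (nv u a), if_neg (nv w b)]
  · obtain ⟨-, k | k⟩ := c <;> obtain ⟨rfl, rfl⟩ := Prod.mk.inj (mem_singleton_iff.1 k)
    · refine ⟨_, rfl, _, rfl, ?_⟩
      rw [if_pos rfl, if_neg (nv _ (inr_nm n))]
      exact ⟨(nv' _ (inr_nm n)).symm, Or.inl rfl⟩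
    · refine ⟨_, rfl, _, rfl, ?_⟩
      rw [if_pos rfl, if_neg (nv _ (inr_nm n))]
      exact ⟨nv' _ (inr_nm n), Or.inr rfl⟩

end Pool.Agent.MP_9d78a0_co.gm

end MrgPart1

-- ======== part 2: formerly Pool.Agent.MP_9d78a0_co.st.Perf
section MrgPart2

/-! A linkage is augmented without losing a start (Perfect). -/

set_option autoImplicit false

namespace Pool.Agent.MP_9d78a0_co.st

open Set Function fb

namespace Perf

variable {V : Type}

/-- the outer boundary of `A` inside `W`; the starts outside `A` count -/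
def ob (H : SimpleGraph V) (W X A : Set V) : Set V :=
  {v | v ∈ W ∧ v ∉ A ∧ (v ∈ X ∨ ∃ a ∈ A, H.Adj a v)}

theorem ob_subm [Finite V] (H : SimpleGraph V) (W X A A' : Set V) :
    (ob H W X (A ∪ A')).ncard + (ob H W X (A ∩ A')).ncard ≤
      (ob H W X A).ncard + (ob H W X A').ncard := by
  rw [← ncard_union_add_ncard_inter (ob H W X (A ∪ A')) (ob H W X (A ∩ A')),
    ← ncard_union_add_ncard_inter (ob H W X A) (ob H W X A')]
  refine Nat.add_le_add (ncard_le_ncard ?_) (ncard_le_ncard ?_)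
  · rintro v (⟨h1, h2, h3⟩ | ⟨h1, h2, h3⟩)
    · rcases h3 with h3 | ⟨a, ha | ha, e⟩
      · exact Or.inl ⟨h1, fun c => h2 (Or.inl c), Or.inl h3⟩
      · exact Or.inl ⟨h1, fun c => h2 (Or.inl c), Or.inr ⟨a, ha, e⟩⟩
      · exact Or.inr ⟨h1, fun c => h2 (Or.inr c), Or.inr ⟨a, ha, e⟩⟩
    · by_cases c : v ∈ A
      · exact Or.inr ⟨h1, fun c' => h2 ⟨c, c'⟩, h3.imp id fun ⟨a, ha, e⟩ => ⟨a, ha.2, e⟩⟩
      · exact Or.inl ⟨h1, c, h3.imp id fun ⟨a, ha, e⟩ => ⟨a, ha.1, e⟩⟩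
  · rintro v ⟨⟨h1, h2, -⟩, -, -, h3⟩
    exact ⟨⟨h1, fun c => h2 (Or.inl c), h3.imp id fun ⟨a, ha, e⟩ => ⟨a, ha.1, e⟩⟩,
      h1, fun c => h2 (Or.inr c), h3.imp id fun ⟨a, ha, e⟩ => ⟨a, ha.2, e⟩⟩

/-- a connected set from a start to a vertex outside `A` meets the boundary -/
theorem meet_ob {H : SimpleGraph V} {W X A R : Set V} (hR : R ⊆ W) (hc : Conn H R) {x b : V}
    (hx : x ∈ R) (hX : x ∈ X) (hb : b ∈ R) (hA : b ∉ A) : ∃ z ∈ R, z ∈ ob H W X A := by
  by_cases c : x ∈ A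
  · obtain ⟨u, v, -, h2, h3, h4, h5, -⟩ := link_exit (hc.2 x hx b hb) c hA
    exact ⟨v, h2, hR h2, h4, Or.inr ⟨u, h3, h5⟩⟩
  · exact ⟨x, hx, hR hx, c, Or.inl hX⟩

theorem ncard_range {ι : Type} [Fintype ι] {R : ι → Set V} (hd : Pairwise (Disjoint on R))
    {z : ι → V} (hz : ∀ i, z i ∈ R i) : (range z).ncard = Fintype.card ι := by
  have inj : Injective z := fun i j e => by
    by_contra c
    exact Set.disjoint_left.1 (hd c) (hz i) (e ▸ hz j)
  rw [← image_univ, ncard_image_of_injective _ inj, ncard_univ, Nat.card_eq_fintype_card]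

end Perf

open Perf in
theorem perfS : PerfS := by
  classical
  intro V _ H U T B k x R hR hd
  have hxR : ∀ i, x i ∈ R i ∧ x i ∈ T := fun i => by
    have : x i ∈ R i ∩ T := by rw [(hR i).2.2.1]; rfl
    exact this
  set W : Set V := U \ (T \ range x) with hW
  have hRW : ∀ i, R i ⊆ W := fun i v hv => ⟨(hR i).1 hv, fun c => c.2 ⟨i, by
    have : v ∈ R i ∩ T := ⟨hv, c.1⟩
    rw [(hR i).2.2.1] at this
    exact this.symm⟩⟩
  have pick : ∀ A : Set V, Disjoint A B →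
      ∃ z : Fin k → V, ∀ i, z i ∈ R i ∧ z i ∈ ob H W (range x) A := fun A hA => by
    have : ∀ i, ∃ z ∈ R i, z ∈ ob H W (range x) A := fun i => by
      obtain ⟨b, hb, hb'⟩ := (hR i).2.2.2
      exact meet_ob (hRW i) (hR i).2.1 (hxR i).1 ⟨i, rfl⟩ hb
        fun c => Set.disjoint_left.1 hA c hb'
    choose z hz using this
    exact ⟨z, hz⟩
  have low : ∀ A : Set V, Disjoint A B → k ≤ (ob H W (range x) A).ncard := fun A hA => by
    obtain ⟨z, hz⟩ := pick A hA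
    have := ncard_range hd fun i => (hz i).1
    rw [Fintype.card_fin] at this
    exact this.ge.trans (ncard_le_ncard (by rintro _ ⟨i, rfl⟩; exact (hz i).2))
  have xk : (range x).ncard = k := by
    simpa using ncard_range hd fun i => (hxR i).1
  obtain ⟨A, ⟨hA, hk⟩, hmax⟩ := Set.exists_max_image
    {A : Set V | Disjoint A B ∧ (ob H W (range x) A).ncard ≤ k} ncard (toFinite _)
    ⟨∅, by simp, by
      refine le_trans (ncard_le_ncard fun v hv => ?_) xk.le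
      exact hv.2.2.resolve_right fun ⟨a, ha, _⟩ => ha⟩
  by_cases c : ∀ y ∈ U, y ∈ T → y ∉ range x → y ∈ A
  · left
    obtain ⟨z, hz⟩ := pick A hA
    have e : range z = ob H W (range x) A := by
      refine eq_of_subset_of_ncard_le (by rintro _ ⟨i, rfl⟩; exact (hz i).2) ?_
      have := ncard_range hd fun i => (hz i).1
      rw [Fintype.card_fin] at this
      omega
    refine ⟨z, fun i => (hz i).1, fun S hS hc ⟨t, ht, ht'⟩ => ?_⟩
    rw [e] at hS
    have step : ∀ v ∈ S, (v ∈ range x ∨ ∃ a ∈ A, H.Adj a v) → v ∈ A := fun v hv h => by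
      by_contra n
      by_cases d : v ∈ T \ range x
      · exact n (c v (hS hv).1 d.1 d.2)
      · exact (hS hv).2 ⟨⟨(hS hv).1, d⟩, n, h⟩
    have tA : t ∈ A := by
      by_cases d : t ∈ range x
      · exact step t ht (Or.inl d)
      · exact c t (hS ht).1 ht' d
    refine Set.disjoint_left.2 fun v hv hb => ?_
    by_cases d : v ∈ A
    · exact Set.disjoint_left.1 hA d hb
    · obtain ⟨p, q, -, h2, h3, h4, h5, -⟩ := link_exit (hc.2 t ht v hv) tA d
      exact h4 (step q h2 (Or.inr ⟨p, h3, h5⟩))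
  · right
    push Not at c
    obtain ⟨y, hyU, hyT, hyx, hyA⟩ := c
    have men := mengerS V H (insert y W) (insert y (range x)) B (k + 1) (toFinite _) (by
      intro X hX hXk
      by_contra n
      push Not at n
      set A' : Set V := lk H (insert y W \ X) (insert y (range x)) with hA'
      have dis : Disjoint A' B := by
        refine Set.disjoint_left.2 fun v ⟨_, a, h2, h3, h4⟩ hb => ?_
        have := n (cp H (insert y W \ X) a) cp_sub (cp_conn h3) ⟨a, cp_self h3, h2⟩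
        exact (this ▸ (⟨⟨h4.mem h3, h4⟩, hb⟩ : v ∈ cp H (insert y W \ X) a ∩ B) : v ∈ (∅ : Set V))
      have sub : ob H W (range x) A' ⊆ X ∩ W := by
        rintro v ⟨h1, h2, h3⟩
        refine ⟨?_, h1⟩
        by_contra d
        have hv : v ∈ insert y W \ X := ⟨Or.inr h1, d⟩
        rcases h3 with h3 | ⟨a, ⟨h4, b, h5, h6, h7⟩, e⟩
        · exact h2 ⟨hv, v, Or.inr h3, hv, Link.refl _ _ _⟩
        · exact h2 ⟨hv, b, h5, h6, h7.trans (Link.single h4 hv e)⟩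
      have yW : y ∉ W := fun d => d.2 ⟨hyT, hyx⟩
      have l1 := low A' dis
      have l2 := ncard_le_ncard sub
      have yX : y ∉ X := fun d => by
        have : (X ∩ W).ncard < X.ncard :=
          ncard_lt_ncard ⟨inter_subset_left, fun s => yW (s d).2⟩
        omega
      have l3 : (X ∩ W).ncard ≤ X.ncard := ncard_le_ncard inter_subset_left
      have l4 := ob_subm H W (range x) A A'
      have l5 := low (A ∩ A') (hA.mono_left inter_subset_left)
      have l6 := hmax (A ∪ A') ⟨disjoint_union_left.2 ⟨hA, dis⟩, by omega⟩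
      have l7 : A.ncard < (A ∪ A').ncard := ncard_lt_ncard ⟨subset_union_left, fun s =>
        hyA (s (Or.inr ⟨⟨Or.inl rfl, yX⟩, y, Or.inl rfl, ⟨Or.inl rfl, yX⟩, Link.refl _ _ _⟩))⟩
      omega)
    obtain ⟨Q, hQ, hQd⟩ := men
    let st : Option (Fin k) → V := fun o => o.elim y x
    have h1 : ∀ j, ∃ o, st o ∈ Q j := fun j => by
      obtain ⟨v, hv, rfl | ⟨i, rfl⟩⟩ := (hQ j).2.2.1
      exacts [⟨none, hv⟩, ⟨some i, hv⟩]
    choose φ hφ using h1
    have inj : Injective φ := fun i j e => by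
      by_contra d
      exact Set.disjoint_left.1 (hQd d) (hφ i) (e ▸ hφ j)
    have bij : Bijective φ := (Fintype.bijective_iff_injective_and_card φ).2 ⟨inj, by simp⟩
    let ψ := (Equiv.ofBijective φ bij).symm
    have hψ : ∀ o, st o ∈ Q (ψ o) := fun o => by
      have := hφ (ψ o)
      rwa [show φ (ψ o) = o from (Equiv.ofBijective φ bij).apply_symm_apply o] at this
    have key : ∀ o, Q (ψ o) ∩ T = {st o} := fun o => by
      refine Subset.antisymm ?_ ?_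
      · rintro v ⟨hv, hT⟩
        have : ∃ o', st o' = v := by
          rcases (hQ _).1 hv with rfl | d
          · exact ⟨none, rfl⟩
          · by_contra n
            exact d.2 ⟨hT, fun ⟨i, e⟩ => n ⟨some i, e⟩⟩
        obtain ⟨o', rfl⟩ := this
        have : ψ o = ψ o' := by
          by_contra d
          exact Set.disjoint_left.1 (hQd d) hv (hψ o')
        rw [ψ.injective this]
        rfl
      · rintro _ rfl
        refine ⟨hψ o, ?_⟩
        cases o with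
        | none => exact hyT
        | some i => exact (hxR i).2
    refine ⟨y, fun o => Q (ψ o), fun o => ⟨fun v hv => ?_, (hQ _).2.1, (hQ _).2.2.2⟩,
      fun i => key (some i), key none, fun o o' d => hQd fun e => d (ψ.injective e)⟩
    rcases (hQ _).1 hv with rfl | d
    exacts [hyU, d.1]

end Pool.Agent.MP_9d78a0_co.st

end MrgPart2

-- ======== part 3: formerly Pool.Agent.MP_9d78a0_co.st.Bj
section MrgPart3

/-! Many jumps out of blocks of a band. -/

set_option autoImplicit false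

namespace Pool.Agent.MP_9d78a0_co.st

open Set Function fb

namespace Bj

/-- the buffer rows, in increasing order -/
def rho (w : ℕ) (lo hi : ℕ → ℕ) (i : ℕ) : ℕ :=
  if i % (2 * w) < w then lo (i / (2 * w)) + i % (2 * w)
  else hi (i / (2 * w)) + 1 + i % (2 * w) - 2 * w

theorem rho_at {w : ℕ} (lo hi : ℕ → ℕ) (j i : ℕ) (hi' : i < 2 * w) :
    rho w lo hi (2 * w * j + i) = if i < w then lo j + i else hi j + 1 + i - 2 * w := by
  have h1 : (2 * w * j + i) / (2 * w) = j := by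
    rw [Nat.mul_add_div (by omega), Nat.div_eq_of_lt hi']
    simp
  have h2 : (2 * w * j + i) % (2 * w) = i := by
    rw [Nat.mul_add_mod, Nat.mod_eq_of_lt hi']
  simp only [rho, h1, h2]

theorem rho_mem {w n : ℕ} {lo hi : ℕ → ℕ} (hw : 0 < w) (h : ∀ s < n, lo s + 2 * w ≤ hi s) {i : ℕ}
    (hi' : i < 2 * w * n) : ∃ j < n, lo j ≤ rho w lo hi i ∧ rho w lo hi i ≤ hi j ∧
      (rho w lo hi i < lo j + w ∨ hi j < rho w lo hi i + w) ∧ j = i / (2 * w) := by
  have h1 : i / (2 * w) < n := Nat.div_lt_of_lt_mul hi'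
  have h2 : i % (2 * w) < 2 * w := Nat.mod_lt _ (by omega)
  have h3 := h _ h1
  refine ⟨_, h1, ?_, ?_, ?_, rfl⟩ <;> unfold rho <;> split_ifs <;> omega

theorem rho_lt {w n : ℕ} {lo hi : ℕ → ℕ} (hw : 0 < w) (h : ∀ s < n, lo s + 2 * w ≤ hi s)
    (ho : ∀ s t, s < t → t < n → hi s < lo t) {i k : ℕ} (hik : i < k) (hk : k < 2 * w * n) :
    rho w lo hi i < rho w lo hi k := by
  obtain ⟨j, hj, a1, a2, -, e1⟩ := rho_mem hw h (hik.trans hk)
  obtain ⟨j', hj', b1, b2, -, e2⟩ := rho_mem hw h hk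
  have h1 : j ≤ j' := by
    rw [e1, e2]
    exact Nat.div_le_div_right hik.le
  rcases h1.lt_or_eq with h1 | h1
  · have := ho j j' h1 hj'
    omega
  · have e3 : i / (2 * w) = k / (2 * w) := by omega
    have d1 := Nat.div_add_mod i (2 * w)
    have d2 := Nat.div_add_mod k (2 * w)
    have h2 : k % (2 * w) < 2 * w := Nat.mod_lt _ (by omega)
    have h3 := h _ hj'
    rw [e3] at d1
    have h4 : i % (2 * w) < k % (2 * w) := by omega
    unfold rho
    rw [e3, ← e2]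
    split_ifs <;> omega

theorem core (hM : MksS) (h : ℕ) : ∃ w Q, 0 < w ∧ ∀ (V : Type) (G : SimpleGraph V) (n : ℕ)
    (Ur : Set V) (ob : ℕ → V) (M : ℕ) (a b : ℕ → ℕ) (R X : ℕ → Set V) (e lo hi lam : ℕ → ℕ),
    Univ G h n Ur ob → Rows G Ur ob (h * h) n M a b R →
    (∀ s < Q + 2, X s ⊆ Ur ∧ Conn G (X s) ∧ ob (a (e s)) ∈ X s ∧ ob (lam s) ∈ X s ∧
      lo s + w ≤ e s ∧ e s + w ≤ hi s ∧ hi s < M ∧ h * h ≤ lam s ∧ lam s < n ∧
      lam s ∉ hull b M ∧ lam s ≠ a (e s)) →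
    (∀ s t, s < t → t < Q + 2 → hi s < lo t ∧ Disjoint (X s) (X t)) →
    (∀ s < Q + 2, ∀ t < Q + 2, ∀ r, lo s ≤ r → r ≤ hi s → r < lo s + w ∨ hi s < r + w →
      Disjoint (R r) (X t)) →
    ((∀ s < Q, a (hi (s + 1)) < lam (s + 1) ∧ lam (s + 1) < a (lo (s + 2))) ∨
      (∀ s < Q, a (hi s) < lam (s + 1) ∧ lam (s + 1) < a (lo (s + 1))) ∨
      (((∀ s < Q, a (hi (Q + 1)) < lam (s + 1)) ∨ ∀ s < Q, lam (s + 1) < a (lo 0)) ∧
        Mo (fun s => lam (s + 1)) Q ∧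
        ((∀ s < Q, lam (s + 1) < b 0) ∨ ∀ s < Q, b 0 < lam (s + 1)))) → False := by
  obtain ⟨Q1, W1, h1⟩ := b31_thm (h * h)
  obtain ⟨Q2, W2, h2⟩ := c1S simS capS b31_thm (h * h)
  refine ⟨W1 + W2 + 1, Q1 + Q2, by omega, ?_⟩
  intro V G n Ur ob M a b R X e lo hi lam hU hR hX ho hb hsc
  set w := W1 + W2 + 1 with hw
  set Q := Q1 + Q2 with hQ
  have w0 : 0 < w := by omega
  have hl : ∀ s < Q + 2, lo s + 2 * w ≤ hi s := fun s hs => by
    obtain ⟨-, -, -, -, c1, c2, -⟩ := hX s hs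
    omega
  have ho' : ∀ s t, s < t → t < Q + 2 → hi s < lo t := fun s t c1 c2 => (ho s t c1 c2).1
  have hρM : ∀ i < 2 * w * (Q + 2), rho w lo hi i < M := fun i hi' => by
    obtain ⟨j, hj, -, c2, -⟩ := rho_mem w0 hl hi'
    have := (hX j hj).2.2.2.2.2.2.1
    omega
  have hρ : ∀ i k, i < k → k < 2 * w * (Q + 2) → rho w lo hi i < rho w lo hi k :=
    fun i k c1 c2 => rho_lt w0 hl ho' c1 c2
  have heM : ∀ s < Q + 2, e s < M := fun s hs => by
    obtain ⟨-, -, -, -, c1, c2, c3, -⟩ := hX s hs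
    omega
  have ale : ∀ i j, i ≤ j → j < M → a i ≤ a j := fun i j c1 c2 => by
    rcases c1.lt_or_eq with c | c
    · exact (hR.ma i j c c2).le
    · rw [c]
  obtain ⟨σ, r1, r2, r3, r4⟩ := hM V G Ur ob h n (ℕ ⊕ ℕ)
    {z | Sum.elim (fun i => i < 2 * w * (Q + 2)) (fun s => s < Q + 2) z}
    (Sum.elim (fun i => a (rho w lo hi i)) fun s => a (e s))
    (Sum.elim (fun i => b (rho w lo hi i)) lam)
    (Sum.elim (fun i => R (rho w lo hi i)) X)
    (by
      rintro (i | s) hz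
      · have c := hρM i hz
        obtain ⟨m1, m2, m3, m4⟩ := hR.lkg.mem _ c
        obtain ⟨n1, n2, n3⟩ := hR.ab _ c _ c
        exact ⟨m1, m2, m3, m4, n2.ne, n1, n2.trans n3, n1.trans n2.le, n3⟩
      · obtain ⟨m1, m2, m3, m4, -, -, -, m8, m9, -, m11⟩ := hX s hz
        obtain ⟨n1, n2, n3⟩ := hR.ab _ (heM s hz) _ (heM s hz)
        exact ⟨m1, m2, m3, m4, m11.symm, n1, n2.trans n3, m8, m9⟩)
    (by
      rintro (i | s) hz (k | t) hz' hne
      · refine hR.lkg.dis _ (hρM i hz) _ (hρM k hz') ?_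
        have hik : i ≠ k := fun c => hne (by rw [c])
        rcases lt_or_gt_of_ne hik with c | c
        · exact (hρ i k c hz').ne
        · exact (hρ k i c hz).ne'
      · obtain ⟨j, hj, c1, c2, c3, -⟩ := rho_mem w0 hl hz
        exact hb j hj t hz' _ c1 c2 c3
      · obtain ⟨j, hj, c1, c2, c3, -⟩ := rho_mem w0 hl hz'
        exact (hb j hj s hz _ c1 c2 c3).symm
      · have hst : s ≠ t := fun c => hne (by rw [c])
        rcases lt_or_gt_of_ne hst with c | c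
        · exact (ho s t c hz').2
        · exact (ho t s c hz).2.symm)
  have s1 : ∀ i < 2 * w * (Q + 2), σ (a (rho w lo hi i)) = b (rho w lo hi i) :=
    fun i hi' => (r4 (Sum.inl i) hi').1
  have s2 : ∀ s < Q + 2, σ (a (e s)) = lam s := fun s hs => (r4 (Sum.inr s) hs).1
  have s3 : ∀ s < Q + 2, σ (lam s) = a (e s) := fun s hs => (r4 (Sum.inr s) hs).2
  set x : ℕ → ℕ := fun i => a (rho w lo hi i) with hx
  have hullx : ∀ z ∈ hull x (2 * w * (Q + 2)), h * h ≤ z ∧ a (lo 0) ≤ z ∧ z ≤ a (hi (Q + 1)) ∧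
      ∀ j < M, z < b j := by
    rintro z ⟨i, hi', k, hk, c1, c2⟩
    obtain ⟨j, hj, d1, d2, -⟩ := rho_mem w0 hl hi'
    obtain ⟨j', hj', d3, d4, -⟩ := rho_mem w0 hl hk
    refine ⟨(hR.ab _ (hρM i hi') _ (hρM i hi')).1.trans c1, le_trans (ale _ _ ?_ (hρM i hi')) c1,
      c2.trans (ale _ _ ?_ (hX (Q + 1) (by omega)).2.2.2.2.2.2.1), fun j hj =>
        c2.trans_lt (hR.ab _ (hρM k hk) _ hj).2.1⟩
    · rcases Nat.eq_zero_or_pos j with c | c
      · rw [← c]
        exact d1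
      · have := ho' 0 j c hj
        have := hl 0 (by omega)
        omega
    · rcases (show j' ≤ Q + 1 by omega).lt_or_eq with c | c
      · have := ho' j' (Q + 1) c (by omega)
        have := hl (Q + 1) (by omega)
        omega
      · rw [← c]
        exact d4
  have hulls : ∀ z ∈ hull (σ ∘ x) (2 * w * (Q + 2)), z ∈ hull b M := by
    rintro z ⟨i, hi', k, hk, c1, c2⟩
    refine ⟨_, hρM i hi', _, hρM k hk, ?_, ?_⟩
    · rw [← s1 i hi']
      exact c1
    · rw [← s1 k hk]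
      exact c2
  have M0 : 0 < M := by
    have := heM 0 (by omega)
    omega
  have band : Band σ (Tst h) (2 * w * (Q + 2)) x := by
    refine ⟨Or.inl fun i j c1 c2 => hR.ma _ _ (hρ i j c1 c2) (hρM j c2), ?_, ?_, ?_, ?_⟩
    · rcases hR.mb with c | c
      · refine Or.inl fun i j c1 c2 => ?_
        simp only [comp, hx, s1 i (c1.trans c2), s1 j c2]
        exact c _ _ (hρ i j c1 c2) (hρM j c2)
      · refine Or.inr fun i j c1 c2 => ?_
        simp only [comp, hx, s1 i (c1.trans c2), s1 j c2]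
        exact c _ _ (hρ i j c1 c2) (hρM j c2)
    · refine disjoint_left.2 fun z c1 c2 => ?_
      obtain ⟨i, hi', -, -, c3, -⟩ := hulls z c2
      have := (hullx z c1).2.2.2 i hi'
      omega
    · refine disjoint_left.2 fun z c1 c2 => ?_
      have := (hullx z c2).1
      have := mem_Iio.1 (r3 c1)
      omega
    · refine disjoint_left.2 fun z c1 c2 => ?_
      obtain ⟨i, hi', -, -, c3, -⟩ := hulls z c2
      have := hR.ab i hi' i hi'
      have := mem_Iio.1 (r3 c1)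
      omega
  have sup : Sup σ (Tst h) (2 * w * (Q + 2)) x (Iio n) := by
    refine ⟨fun z hz => (mem_Iio.1 (r3 hz)).trans_le hU.1, fun j _ c => ?_⟩
    obtain ⟨-, n2, n3⟩ := hR.ab _ (hρM j c) _ (hρM j c)
    refine ⟨n2.trans n3, ?_⟩
    simp only [hx, s1 j c]
    exact n3
  have g1 : ∀ s < Q + 2, Btw (x (2 * w * s + (w - 1))) (x (2 * w * s + (w - 1) + 1)) (a (e s)) := by
    intro s hs
    obtain ⟨-, -, -, -, c1, c2, c3, -⟩ := hX s hs
    have e1 : 2 * w * s + (w - 1) + 1 = 2 * w * s + w := by omega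
    refine Or.inl ⟨?_, ?_⟩
    · simp only [hx]
      rw [rho_at lo hi s (w - 1) (by omega), if_pos (by omega)]
      exact hR.ma _ _ (by omega) (heM s hs)
    · simp only [hx]
      rw [e1, rho_at lo hi s w (by omega), if_neg (by omega)]
      exact hR.ma _ _ (by omega) (by omega)
  have g2 : ∀ s z, a (hi s) < z → z < a (lo (s + 1)) →
      Btw (x (2 * w * s + (2 * w - 1))) (x (2 * w * s + (2 * w - 1) + 1)) z := by
    intro s z c1 c2
    have e1 : 2 * w * s + (2 * w - 1) + 1 = 2 * w * (s + 1) + 0 := by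
      have e0 : 2 * w * (s + 1) = 2 * w * s + 2 * w := Nat.mul_succ _ _
      omega
    refine Or.inl ⟨?_, ?_⟩
    · simp only [hx]
      rw [rho_at lo hi s (2 * w - 1) (by omega), if_neg (by omega)]
      have e2 : hi s + 1 + (2 * w - 1) - 2 * w = hi s := by omega
      rwa [e2]
    · simp only [hx]
      rw [e1, rho_at lo hi (s + 1) 0 (by omega), if_pos (by omega)]
      exact c2
  have pn : ∀ s < Q + 2, a (e s) ∈ Iio n ∧ lam s ∈ Iio n := fun s hs => by
    obtain ⟨-, n2, n3⟩ := hR.ab _ (heM s hs) _ (heM s hs)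
    exact ⟨n2.trans n3, (hX s hs).2.2.2.2.2.2.2.2.1⟩
  have mm : ∀ s t : ℕ, s < t → 2 * w * s + 2 * w ≤ 2 * w * t := fun s t c => by
    rw [← Nat.mul_succ]
    exact Nat.mul_le_mul_left _ c
  refine hU.2 σ r2.inv r1 ?_
  rcases hsc with c | c | ⟨c, cm, cb⟩
  · refine h1 σ _ _ x (fun s => 2 * w * (s + 1) + (w - 1)) (fun s => 2 * w * (s + 1) + (2 * w - 1))
      (fun s => a (e (s + 1))) _ r2 band sup (fun s hs => ?_) fun s t d1 d2 => ?_
    · have := mm (s + 1 + 1) (Q + 2) (by omega)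
      have := mm (s + 1) (s + 1 + 1) (by omega)
      have e2 := s2 (s + 1) (by omega)
      refine ⟨by omega, by omega, by omega, g1 _ (by omega), ?_, (pn _ (by omega)).1, ?_⟩
      · rw [e2]
        exact g2 _ _ (c s (by omega)).1 (c s (by omega)).2
      · rw [e2]
        exact (pn _ (by omega)).2
    · have := mm (s + 1) (t + 1) (by omega)
      omega
  · refine h1 σ _ _ x (fun s => 2 * w * s + (2 * w - 1)) (fun s => 2 * w * (s + 1) + (w - 1))
      (fun s => lam (s + 1)) _ r2 band sup (fun s hs => ?_) fun s t d1 d2 => ?_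
    · have := mm (s + 1) (Q + 2) (by omega)
      have := mm s (s + 1) (by omega)
      have e2 := s3 (s + 1) (by omega)
      refine ⟨by omega, by omega, by omega, g2 _ _ (c s (by omega)).1 (c s (by omega)).2, ?_,
        (pn _ (by omega)).2, ?_⟩
      · rw [e2]
        exact g1 _ (by omega)
      · rw [e2]
        exact (pn _ (by omega)).1
    · have := mm s t d1
      have e3 : 2 * w * (s + 1) = 2 * w * s + 2 * w := Nat.mul_succ _ _
      omega
  · have su : ∀ s < Q2, (σ ∘ fun s => a (e (s + 1))) s = lam (s + 1) :=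
      fun s hs => s2 (s + 1) (by omega)
    have hu : ∀ z ∈ hull (σ ∘ fun s => a (e (s + 1))) Q2, ∃ i < Q, ∃ j < Q,
        lam (i + 1) ≤ z ∧ z ≤ lam (j + 1) := by
      rintro z ⟨i, hi', j, hj, d1, d2⟩
      rw [su i hi'] at d1
      rw [su j hj] at d2
      exact ⟨i, by omega, j, by omega, d1, d2⟩
    refine h2 σ _ _ x (fun s => 2 * w * (s + 1) + (w - 1)) (fun s => a (e (s + 1))) _ r2 band sup
      (fun s hs => ?_) (fun s t d1 d2 => ?_) ?_ ?_ ?_ ?_
    · have := mm (s + 1) (Q + 2) (by omega)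
      refine ⟨by omega, by omega, g1 _ (by omega), (pn _ (by omega)).1, ?_⟩
      rw [s2 (s + 1) (by omega)]
      exact (pn _ (by omega)).2
    · have := mm (s + 1) (t + 1) (by omega)
      omega
    · rcases cm with cm | cm
      · refine Or.inl fun i j d1 d2 => ?_
        rw [su i (d1.trans d2), su j d2]
        exact cm i j d1 (by omega)
      · refine Or.inr fun i j d1 d2 => ?_
        rw [su i (d1.trans d2), su j d2]
        exact cm i j d1 (by omega)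
    · refine disjoint_left.2 fun z d1 d2 => ?_
      obtain ⟨i, hi', j, hj, d3, d4⟩ := hu z d1
      obtain ⟨-, d5, d6, -⟩ := hullx z d2
      rcases c with c | c
      · have := c i hi'
        omega
      · have := c j hj
        omega
    · refine disjoint_left.2 fun z d1 d2 => ?_
      obtain ⟨i, hi', j, hj, d3, d4⟩ := hu z d1
      obtain ⟨k, hk, k', hk', d5, d6⟩ := hulls z d2
      rcases cb with cb | cb
      · exact (hX (j + 1) (by omega)).2.2.2.2.2.2.2.2.2.1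
          ⟨k, hk, 0, M0, d5.trans d4, (cb j hj).le⟩
      · exact (hX (i + 1) (by omega)).2.2.2.2.2.2.2.2.2.1
          ⟨0, M0, k', hk', (cb i hi').le, d3.trans d6⟩
    · refine disjoint_left.2 fun z d1 d2 => ?_
      obtain ⟨i, hi', j, hj, d3, d4⟩ := hu z d2
      have := (hX (i + 1) (by omega)).2.2.2.2.2.2.2.1
      have := mem_Iio.1 (r3 d1)
      omega

/-- disjoint intervals are sorted -/
theorem sorted (r : ℕ) : ∃ N, ∀ lo hi : ℕ → ℕ, (∀ s < N, lo s ≤ hi s) →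
    (∀ s < N, ∀ t < N, s ≠ t → Disjoint (Icc (lo s) (hi s)) (Icc (lo t) (hi t))) →
    ∃ S : ℕ → ℕ, (∀ i < r, S i < N) ∧
      ∀ i j, i < j → j < r → S i ≠ S j ∧ hi (S i) < lo (S j) := by
  obtain ⟨N, hN⟩ := ramseyS Prop r
  refine ⟨N, fun lo hi h1 h2 => ?_⟩
  obtain ⟨s, γ, c1, c2, c3⟩ := hN fun i j => lo i < lo j
  have key : ∀ i < N, ∀ j < N, i ≠ j → lo i ≤ lo j → hi i < lo j := fun i hi' j hj d1 d2 => by
    by_contra d3
    exact disjoint_left.1 (h2 i hi' j hj d1) ⟨d2, not_lt.1 d3⟩ ⟨le_rfl, h1 j hj⟩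
  by_cases hγ : γ
  · refine ⟨s, c2, fun i j d1 d2 => ⟨(c1 i j d1 d2).ne, ?_⟩⟩
    have d3 : lo (s i) < lo (s j) := (c3 i j d1 d2).symm ▸ hγ
    exact key _ (c2 i (d1.trans d2)) _ (c2 j d2) (c1 i j d1 d2).ne d3.le
  · refine ⟨fun i => s (r - 1 - i), fun i hi' => c2 _ (by omega), fun i j d1 d2 => ?_⟩
    have d4 := c1 (r - 1 - j) (r - 1 - i) (by omega) (by omega)
    have d3 : ¬ lo (s (r - 1 - j)) < lo (s (r - 1 - i)) :=
      (c3 (r - 1 - j) (r - 1 - i) (by omega) (by omega)).symm ▸ hγ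
    exact ⟨d4.ne', key _ (c2 _ (by omega)) _ (c2 _ (by omega)) d4.ne' (not_lt.1 d3)⟩

end Bj

theorem bjS : MksS → BjS := by
  intro hM h
  obtain ⟨w, Q, w0, hc⟩ := Bj.core hM h
  obtain ⟨N1, hN1⟩ := ramseyS (Prop × Prop × Prop × Prop × Prop × Prop × Prop) (Q + 4)
  obtain ⟨N, hN⟩ := Bj.sorted N1
  refine ⟨w, N, w0, ?_⟩
  intro V G n Ur ob M a b R X e lo hi lam hU hR hX hD
  obtain ⟨S, hS, hS'⟩ := hN lo hi (fun s hs => by
      obtain ⟨-, -, -, -, c1, c2, -⟩ := hX s hs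
      omega) fun s hs t ht hst => ((hD s hs t ht).1 hst).2
  obtain ⟨u, ⟨γ1, γ2, γ3, γ4, γ5, γ6, γ7⟩, u1, u2, u3⟩ := hN1 fun i j =>
    (lam (S i) < a (lo (S j)), a (hi (S j)) < lam (S i), lam (S j) < a (lo (S i)),
      a (hi (S i)) < lam (S j), lam (S i) < lam (S j), a (hi (S i)) < lam (S i), lam (S i) < b 0)
  set T : ℕ → ℕ := fun i => S (u i) with hT
  have tN : ∀ i < Q + 4, T i < N := fun i hi' => hS _ (u2 i hi')
  have tO : ∀ i j, i < j → j < Q + 4 → T i ≠ T j ∧ hi (T i) < lo (T j) :=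
    fun i j c1 c2 => hS' _ _ (u1 i j c1 c2) (u2 j c2)
  have col : ∀ i j, i < j → j < Q + 4 → ((lam (T i) < a (lo (T j))) ↔ γ1) ∧
      (a (hi (T j)) < lam (T i) ↔ γ2) ∧ (lam (T j) < a (lo (T i)) ↔ γ3) ∧
      (a (hi (T i)) < lam (T j) ↔ γ4) ∧ (lam (T i) < lam (T j) ↔ γ5) ∧
      (a (hi (T i)) < lam (T i) ↔ γ6) ∧ (lam (T i) < b 0 ↔ γ7) := fun i j c1 c2 => by
    have := u3 i j c1 c2
    simp only [Prod.mk.injEq, eq_iff_iff] at this
    exact this
  have ale : ∀ i j, i ≤ j → j < M → a i ≤ a j := fun i j c1 c2 => by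
    rcases c1.lt_or_eq with c | c
    · exact (hR.ma i j c c2).le
    · rw [c]
  have bas : ∀ s < N, lo s ≤ e s ∧ e s ≤ hi s ∧ hi s < M := fun s hs => by
    obtain ⟨-, -, -, -, c1, c2, c3, -⟩ := hX s hs
    omega
  have out : ∀ s < N, h * h ≤ lam s ∧ lam s < n ∧ lam s ∉ hull b M ∧
      (lam s < a (lo s) ∨ a (hi s) < lam s) := fun s hs => by
    obtain ⟨-, -, -, -, -, -, c3, c4⟩ := hX s hs
    obtain ⟨b1, b2, -⟩ := bas s hs
    rcases c4 with ⟨r, hr, d1, d2⟩ | ⟨d1, d2, d3, d4⟩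
    · obtain ⟨n1, n2, n3⟩ := hR.ab r hr r hr
      rw [d1]
      refine ⟨n1, n2.trans n3, ?_, ?_⟩
      · rintro ⟨i, hi', -, -, d3, -⟩
        have := (hR.ab r hr i hi').2.1
        omega
      · rw [mem_Icc, not_and_or, not_le, not_le] at d2
        exact d2.imp (fun d => hR.ma _ _ d (by omega)) fun d => hR.ma _ _ d hr
    · refine ⟨d1, d2, d4, ?_⟩
      by_contra d5
      rw [not_or, not_lt, not_lt] at d5
      exact d3 ⟨_, by omega, _, c3, d5.1, d5.2⟩
  have ahl : ∀ i < Q + 4, a (lo (T i)) ≤ a (hi (T i)) := fun i hi' => by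
    obtain ⟨b1, b2, b3⟩ := bas _ (tN i hi')
    exact ale _ _ (by omega) b3
  have aO : ∀ i j, i < j → j < Q + 4 → a (hi (T i)) < a (lo (T j)) := fun i j c1 c2 => by
    obtain ⟨b1, b2, b3⟩ := bas _ (tN j c2)
    exact hR.ma _ _ (tO i j c1 c2).2 (by omega)
  have lne : ∀ i j, i < j → j < Q + 4 → lam (T i) ≠ lam (T j) := fun i j c1 c2 d => by
    have d1 := ((hD _ (tN i (c1.trans c2)) _ (tN j c2)).1 (tO i j c1 c2).1).1
    exact disjoint_left.1 d1 (hX _ (tN i (c1.trans c2))).2.2.2.1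
      (d ▸ (hX _ (tN j c2)).2.2.2.1)
  have M0 : 0 < M := by
    have := bas _ (tN 0 (by omega))
    omega
  refine hc V G n Ur ob M a b R (X ∘ T) (e ∘ T) (lo ∘ T) (hi ∘ T) (lam ∘ T) hU hR
    (fun s hs => ?_) (fun s t c1 c2 => ?_) (fun s hs t ht => ?_) ?_
  · have d := tN s (by omega)
    obtain ⟨c1, c2, c3, c4, c5, c6, c7, -⟩ := hX _ d
    obtain ⟨d1, d2, d3, d4⟩ := out _ d
    obtain ⟨b1, b2, b3⟩ := bas _ d
    refine ⟨c1, c2, c3, c4, c5, c6, c7, d1, d2, d3, ?_⟩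
    have := ale _ _ b1 (by omega)
    have := ale _ _ b2 b3
    simp only [comp]
    omega
  · exact ⟨(tO s t c1 (by omega)).2,
      ((hD _ (tN s (by omega)) _ (tN t (by omega))).1 (tO s t c1 (by omega)).1).1⟩
  · exact (hD _ (tN s (by omega)) _ (tN t (by omega))).2
  · have mo : Mo (fun s => (lam ∘ T) (s + 1)) Q := by
      by_cases g5 : γ5
      · exact Or.inl fun i j c1 c2 => (col (i + 1) (j + 1) (by omega) (by omega)).2.2.2.2.1.2 g5
      · refine Or.inr fun i j c1 c2 => ?_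
        have d1 := (col (i + 1) (j + 1) (by omega) (by omega)).2.2.2.2.1.not.2 g5
        have d2 := lne (i + 1) (j + 1) (by omega) (by omega)
        simp only [comp]
        omega
    have sd : (∀ s < Q, (lam ∘ T) (s + 1) < b 0) ∨ ∀ s < Q, b 0 < (lam ∘ T) (s + 1) := by
      by_cases g7 : γ7
      · exact Or.inl fun s hs => (col (s + 1) (s + 2) (by omega) (by omega)).2.2.2.2.2.2.2 g7
      · refine Or.inr fun s hs => ?_
        have d1 := (col (s + 1) (s + 2) (by omega) (by omega)).2.2.2.2.2.2.not.2 g7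
        have d2 : lam (T (s + 1)) ≠ b 0 := fun d =>
          (out _ (tN (s + 1) (by omega))).2.2.1 ⟨0, M0, 0, M0, d.ge, d.le⟩
        simp only [comp]
        omega
    simp only [comp] at mo sd ⊢
    by_cases g6 : γ6
    · have rt : ∀ s < Q + 3, a (hi (T s)) < lam (T s) := fun s hs =>
        (col s (s + 1) (by omega) (by omega)).2.2.2.2.2.1.2 g6
      by_cases g1 : γ1
      · exact Or.inl fun s hs => ⟨rt _ (by omega), (col (s + 1) (s + 2) (by omega) (by omega)).1.2 g1⟩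
      · refine Or.inr (Or.inr ⟨Or.inl fun s hs => ?_, mo, sd⟩)
        have d1 := (col (s + 1) (Q + 2) (by omega) (by omega)).1.not.2 g1
        have d2 := aO (Q + 1) (Q + 2) (by omega) (by omega)
        omega
    · have lf : ∀ s < Q + 3, lam (T s) < a (lo (T s)) := fun s hs =>
        (out _ (tN s (by omega))).2.2.2.resolve_right
          ((col s (s + 1) (by omega) (by omega)).2.2.2.2.2.1.not.2 g6)
      by_cases g4 : γ4
      · exact Or.inr (Or.inl fun s hs =>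
          ⟨(col s (s + 1) (by omega) (by omega)).2.2.2.1.2 g4, lf _ (by omega)⟩)
      · by_cases g3 : γ3
        · exact Or.inr (Or.inr ⟨Or.inr fun s hs => (col 0 (s + 1) (by omega) (by omega)).2.2.1.2 g3,
            mo, sd⟩)
        · exfalso
          have d1 := (col 0 2 (by omega) (by omega)).2.2.2.1.not.2 g4
          have d2 := (col 1 2 (by omega) (by omega)).2.2.1.not.2 g3
          have d3 := aO 0 1 (by omega) (by omega)
          omega

end Pool.Agent.MP_9d78a0_co.st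

end MrgPart3

-- ======== part 4: formerly Pool.Agent.MP_9d78a0_co.st.End
section MrgPart4

/-! The structure theorem: many pending zones give an item; the recursion. -/

set_option autoImplicit false

namespace Pool.Agent.MP_9d78a0_co.st

open Set Function fb

namespace EndK

variable {V : Type}

theorem pins_mem {G : SimpleGraph V} {ob : ℕ → V} {K : ℕ} {Z : Set V} {lo hi u : ℕ} (hK : 0 < K)
    (h : Pins G ob K Z lo hi u u) : u ∈ Icc lo hi := by
  obtain ⟨-, x, y, X, -, -, h⟩ := h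
  have := h 0 hK
  constructor <;> omega

/-- one more item, no zones -/
def add (x : XD V) (W : Set V) (lo hi ex : ℕ) : XD V :=
  { x with
    m := x.m + 1
    W := fun s => if s = x.m then W else x.W s
    lo := fun s => if s = x.m then lo else x.lo s
    hi := fun s => if s = x.m then hi else x.hi s
    ex := fun s => if s = x.m then ex else x.ex s
    b := 0 }

theorem ctx_add {G : SimpleGraph V} {h n K : ℕ} {Ur U U' I I' : Set V} {ob : ℕ → V}
    {p p' q q' : ℕ} {x : XD V} (hx : Ctx G h n K Ur U I ob p p' x) (hU : U' ⊆ U) (hp : p ≤ q)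
    (hq : q' ≤ p') {W : Set V} {lo hi ex : ℕ} (h1 : Item G ob K W lo hi ex) (h2 : W ⊆ Ur \ U')
    (h3 : h * h ≤ lo ∧ hi < n ∧ h * h ≤ ex ∧ ex < n) (h4 : Disjoint (Icc lo hi) (Icc q q'))
    (h5 : ex ∉ Icc q q')
    (h6 : ∀ s < x.m, Disjoint (x.W s) W ∧ Disjoint (Icc (x.lo s) (x.hi s)) (Icc lo hi) ∧
      x.ex s ∉ Icc lo hi ∧ ex ∉ Icc (x.lo s) (x.hi s) ∧ x.ex s ≠ ex) :
    Ctx G h n K Ur U' I' ob q q' (add x W lo hi ex) := by
  have sub : Icc q q' ⊆ Icc p p' := Icc_subset_Icc hp hq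
  refine ⟨fun s hs => ?_, fun s hs t ht ne => ?_, fun i hi => absurd hi (Nat.not_lt_zero _),
    fun i hi => absurd hi (Nat.not_lt_zero _), fun s _ i hi => absurd hi (Nat.not_lt_zero _)⟩
  · simp only [add] at hs ⊢
    split_ifs with c
    · exact ⟨h1, h2, h3.1, h3.2.1, h3.2.2.1, h3.2.2.2, h4, h5⟩
    · obtain ⟨a1, a2, a3, a4, a5, a6, a7, a8⟩ := hx.item s (by omega)
      exact ⟨a1, a2.trans (sdiff_subset_sdiff_right hU), a3, a4, a5, a6, a7.mono_right sub,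
        fun k => a8 (sub k)⟩
  · simp only [add] at hs ht ⊢
    split_ifs with c c' c'
    · omega
    · obtain ⟨a1, a2, a3, a4, a5⟩ := h6 t (by omega)
      exact ⟨a1.symm, a2.symm, a4, a5.symm⟩
    · obtain ⟨a1, a2, a3, a4, a5⟩ := h6 s (by omega)
      exact ⟨a1, a2, a3, a5⟩
    · exact hx.idis s (by omega) t (by omega) ne

theorem done_junk [Finite V] (kit : DoneS) {H : SimpleGraph V} {U Y U' : Set V} {Ω : List V}
    {α y : ℕ} (hY : Y.ncard ≤ y) (hU : U' = lk H (U \ Y) (ls Ω))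
    (h : Done (res H U') U' [del Y Ω] α α α α) :
    Done H U [Ω] (α + y) (α + y) (α + y) (α + y) := by
  subst hU
  exact (kit V H U α).2.2.2.2.2.1 Y _ y [Ω] hY capi.lk_sub
    (fun _ a _ b e => capi.lk_closed a b e) h

end EndK

open EndK

theorem endAt (hdel : DelS) (kit : DoneS) {h K Q m s t α : ℕ} (hK : 0 < K) (jg : JgAt h K Q)
    (main : MainAt h K (m + 1) 0 s t α) :
    MainAt h K m (2 * Q) ((Q + 1) * (s + 3)) ((Q + 1) * (t + 4 + 1)) (α + Q) := by
  classical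
  intro V _ G H n Ur U ob Ω c π x S hs ht C hm hb
  have F := S.col.toFCol
  have zone := fun i (hi : i < 2 * Q) => C.zone i (by omega)
  have zdis := fun i (hi : i < 2 * Q) j (hj : j < 2 * Q) => C.zdis i (by omega) j (by omega)
  have hz : ∀ i, ∃ z w, i < 2 * Q → z ∈ x.E i ∧ w ∈ c.I ∧ G.Adj z w := by
    intro i
    by_cases k : i < 2 * Q
    · obtain ⟨z, a, w, b, e⟩ := (zone i k).2.2.2.2.2.1
      exact ⟨z, w, fun _ => ⟨a, b, e⟩⟩
    · exact ⟨ob 0, ob 0, fun k' => absurd k' k⟩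
  choose z w hz using hz
  have coreU : c.Core H U ⊆ U := union_subset (capi.lk_sub.trans sdiff_subset)
    ((capi.cols_sub F).trans sdiff_subset)
  have hubC : c.I ⊆ c.Core H U := fun v hv => Or.inl (capi.lk_self hv
    ⟨F.hub.1 hv, fun k => (capi.ring_sub F le_rfl k).2 hv⟩)
  have colC : ∀ j < c.t, c.col j ⊆ c.Core H U := fun j hj v hv => Or.inr ⟨j, hj, hv⟩
  have out : ∀ i < 2 * Q, ∀ v ∈ x.Z i ∪ x.E i, v ∉ U := fun i hi v hv =>
    ((zone i hi).2.2.2.2.1 hv).2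
  have zin : ∀ i < 2 * Q, ∀ j < 2 * Q, z i = z j → i = j := fun i hi j hj e => by_contra fun ne =>
    disjoint_left.1 (zdis i hi j hj ne).1 (Or.inr (hz i hi).1) (e ▸ Or.inr (hz j hj).1)
  have pm : ∀ i j, i ≤ j → j < c.t → π i ≤ π j := fun i j a b =>
    a.eq_or_lt.elim (fun e => e ▸ le_rfl) fun l => (S.mono i j l b).le
  have t4 := F.t4
  by_cases men : ∀ X ⊆ c.Core H U ∪ z '' Iio (2 * Q), X.ncard < Q →
      ∃ R ⊆ (c.Core H U ∪ z '' Iio (2 * Q)) \ X, Conn G R ∧ (R ∩ z '' Iio (2 * Q)).Nonempty ∧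
        (R ∩ c.o '' Iio c.t).Nonempty
  · exfalso
    obtain ⟨R, hR, dR⟩ := mengerS V G _ _ _ Q (toFinite _) men
    have ex : ∀ k : Fin Q, ∃ i j P, i < 2 * Q ∧ j < c.t ∧ z i ∈ R k ∧ c.o j ∈ P ∧
        P ⊆ R k ∩ c.Core H U ∧ Conn G P ∧ Touch G P (x.E i) := by
      intro k
      obtain ⟨a, b, ⟨_, h1, i, hi, rfl⟩, ⟨_, h2, j, hj, rfl⟩⟩ := hR k
      have oc := colC j hj (capi.o_up F hj)
      obtain ⟨u, v, u1, v1, u2, v2, e, l⟩ := link_exit (T := c.Core H U) (b.2 _ h2 _ h1) oc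
        fun q => out i hi _ (Or.inr (hz i hi).1) (coreU q)
      obtain ⟨i', hi', rfl⟩ := (a v1).resolve_left v2
      exact ⟨i', j, cp G (R k ∩ c.Core H U) (c.o j), hi', hj, v1, cp_self ⟨h2, oc⟩, cp_sub,
        cp_conn ⟨h2, oc⟩, u, ⟨⟨u1, u2⟩, l⟩, _, (hz i' hi').1, e⟩
    choose i j P p1 p2 p3 p4 p5 p6 p7 using ex
    rcases Nat.eq_zero_or_pos Q with rfl | hQ
    · exact jg V G n Ur ob (fun _ => ∅) id id id S.univ (by simp) (by simp)
    let f : ℕ → Fin Q := fun k => ⟨k % Q, Nat.mod_lt _ hQ⟩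
    have fi : ∀ k < Q, ∀ k' < Q, k ≠ k' → f k ≠ f k' := fun k a k' b ne e => ne (by
      have := congrArg Fin.val e
      simpa [f, Nat.mod_eq_of_lt a, Nat.mod_eq_of_lt b] using this)
    have pi : ∀ k, π (j k) ∈ Icc (π 0) (π (c.t - 1)) := fun k =>
      ⟨pm _ _ (Nat.zero_le _) (p2 k), pm _ _ (by have := p2 k; omega) (by omega)⟩
    refine jg V G n Ur ob (fun k => x.Z (i (f k)) ∪ (x.E (i (f k)) ∪ P (f k)))
      (fun k => x.zl (i (f k))) (fun k => x.zh (i (f k))) (fun k => π (j (f k))) S.univ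
      (fun k _ => ?_) fun k hk k' hk' ne => ?_
    · obtain ⟨z1, z2, z3, z4, z5, -, z7, z8, z9⟩ := zone _ (p1 (f k))
      obtain ⟨o1, o2, o3⟩ := S.pos _ (p2 (f k))
      refine ⟨Or.inr (Or.inr ⟨fun q => disjoint_left.1 z9 q (pi _), _, _, x.E (i (f k)) ∪ P (f k),
        z1, subset_union_left, fun v hv => ⟨Or.inr hv, ?_⟩,
        conn_union_touch z2 (p6 _) (p7 _).symm, Or.inl z3, Or.inr (o1 ▸ p4 _)⟩), ?_, z7, z8, o2, o3⟩
      · rcases hv with hv | hv
        · exact disjoint_right.1 z4 hv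
        · exact fun q => out _ (p1 _) v (Or.inl q) (coreU (p5 _ hv).2)
      · rintro v (hv | hv | hv)
        · exact (z5 (Or.inl hv)).1
        · exact (z5 (Or.inr hv)).1
        · exact S.core (p5 _ hv).2
    · have d := dR (fi k hk k' hk' ne)
      have ni : i (f k) ≠ i (f k') := fun e => disjoint_left.1 d (p3 _) (e ▸ p3 _)
      obtain ⟨d1, d2⟩ := zdis _ (p1 _) _ (p1 _) ni
      refine ⟨?_, d2, fun q => disjoint_left.1 (zone _ (p1 (f k'))).2.2.2.2.2.2.2.2 q (pi _), fun e => ?_⟩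
      · rw [← union_assoc, ← union_assoc, disjoint_left]
        rintro v (a | a) (b | b)
        · exact disjoint_left.1 d1 a b
        · exact out _ (p1 _) v a (coreU (p5 _ b).2)
        · exact out _ (p1 _) v b (coreU (p5 _ a).2)
        · exact disjoint_left.1 d (p5 _ a).1 (p5 _ b).1
      · refine disjoint_left.1 d (p5 _ (p4 _)).1 ?_
        rw [(S.pos _ (p2 (f k))).1, e, ← (S.pos _ (p2 (f k'))).1]
        exact (p5 _ (p4 _)).1
  push Not at men
  obtain ⟨X, -, hX, cut⟩ := men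
  obtain ⟨⟨c', u, col', e1, e2, e3, e4, e5⟩, junk⟩ := hdel V H U X _ Ω c Q s (t + 4) S.col hX.le hs ht
    (by omega) rfl
  set U' := lk H (U \ X) (ls Ω) with hU'
  have s1 : U' ⊆ U \ X := capi.lk_sub
  have ex : ∀ i, ∃ y P, i < 2 * Q → z i ∉ X → y ∈ X ∧ P ⊆ c.Core H U \ U' ∧ y ∈ P ∧
      Conn G (x.E i ∪ P) := by
    intro i
    by_cases k : i < 2 * Q ∧ z i ∉ X
    swap
    · exact ⟨ob 0, ∅, fun a b => absurd ⟨a, b⟩ k⟩
    obtain ⟨z1, w1, e⟩ := hz i k.1
    have cE := (zone i k.1).2.1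
    by_cases wX : w i ∈ X
    · exact ⟨w i, {w i}, fun _ _ => ⟨wX, singleton_subset_iff.2 ⟨hubC w1, fun q => (s1 q).2 wX⟩, rfl,
        conn_union_touch cE (conn_singleton _ _) ⟨_, z1, _, rfl, e⟩⟩⟩
    have wm : w i ∈ c.Core H U \ X := ⟨hubC w1, wX⟩
    have cP := capi.conn_le S.le (cp_conn (G := H) wm)
    have no : ∀ j < c.t, c.o j ∉ cp H (c.Core H U \ X) (w i) := by
      intro j hj q
      have := cut ({z i} ∪ cp H (c.Core H U \ X) (w i)) (by
        rintro v (rfl | hv)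
        · exact ⟨Or.inr ⟨i, k.1, rfl⟩, k.2⟩
        · exact ⟨Or.inl hv.1.1, hv.1.2⟩)
        (conn_union_touch (conn_singleton _ _) cP ⟨_, rfl, _, cp_self wm, e⟩)
        ⟨_, Or.inl rfl, i, k.1, rfl⟩
      exact (this.le ⟨Or.inr q, j, hj, rfl⟩ :)
    obtain ⟨a, y, a1, y1, a2, y2, e', -⟩ := link_exit (T := cp H (c.Core H U \ X) (w i))
      (((capi.conn_hub_col F (show 0 < c.t by omega)).2 _ (Or.inl w1) _
        (Or.inr (capi.o_up F (by omega)))).mono (union_subset hubC (colC 0 (by omega))))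
      (cp_self wm) (no 0 (by omega))
    have yX : y ∈ X := by_contra fun q => y2 (cp_closed a2 ⟨y1, q⟩ e')
    have dj := junk (w i) ⟨w1, wX⟩ fun ⟨_, _, ⟨j, hj, rfl⟩, b, l⟩ => no j hj ⟨b, l.symm⟩
    refine ⟨y, cp H (c.Core H U \ X) (w i) ∪ {y}, fun _ _ => ⟨yX, ?_, Or.inr rfl, ?_⟩⟩
    · rintro v (hv | rfl)
      · exact ⟨hv.1.1, disjoint_left.1 dj hv⟩
      · exact ⟨y1, fun q => (s1 q).2 yX⟩
    · exact conn_union_touch cE (conn_union_touch cP (conn_singleton _ _) ⟨a, a2, y, rfl, S.le e'⟩)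
        ⟨_, z1, _, Or.inl (cp_self wm), e⟩
  choose y P hP using ex
  obtain ⟨i, hi, j, hj, ne, e⟩ := exists_ne_map_eq_of_ncard_lt_of_maps_to
    (s := Iio (2 * Q)) (t := X ×ˢ (univ : Set Bool))
    (f := fun i => if z i ∈ X then (z i, true) else (y i, false))
    (by rw [ncard_prod, ← Finset.coe_range, ncard_coe_finset]; simp; omega) (fun i hi => by
      split_ifs with k
      · exact ⟨k, trivial⟩
      · exact ⟨(hP i hi k).1, trivial⟩)
  have zz : z i ∉ X ∧ z j ∉ X ∧ y i = y j := by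
    split_ifs at e with k k' k'
    · exact absurd (zin i hi j hj (Prod.mk.inj e).1) ne
    · cases (Prod.mk.inj e).2
    · cases (Prod.mk.inj e).2
    · exact ⟨k, k', (Prod.mk.inj e).1⟩
  obtain ⟨-, a2, a3, a4⟩ := hP i hi zz.1
  obtain ⟨-, b2, b3, b4⟩ := hP j hj zz.2.1
  obtain ⟨z1, -, z3, z4, z5, -, z7, z8, z9⟩ := zone i hi
  obtain ⟨y1, -, y3, -, y5, -, y7, y8, y9⟩ := zone j hj
  obtain ⟨d1, d2⟩ := zdis i hi j hj ne
  have um := pins_mem hK y1
  have sub : Icc (π (u + 0)) (π (u + (c'.t - 1))) ⊆ Icc (π 0) (π (c.t - 1)) :=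
    Icc_subset_Icc (pm _ _ (by omega) (by omega)) (pm _ _ (by omega) (by omega))
  refine done_junk kit hX.le hU' (main V G (res H U') n Ur U' ob (del X Ω) c' (fun k => π (u + k))
    (add x (x.Z i ∪ ((x.E i ∪ P i) ∪ (x.E j ∪ P j))) (x.zl i) (x.zh i) (x.zu j))
    ⟨S.univ, fun _ _ k => S.le k.1, col', fun a b l hb => S.mono _ _ (by omega) (by omega),
      fun a ha => e4 a (by omega) ▸ S.pos _ (by omega), e5.trans S.core⟩ (by omega) (by omega)
    (ctx_add C (s1.trans sdiff_subset) (pm _ _ (by omega) (by omega)) (pm _ _ (by omega) (by omega))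
      (Or.inr (Or.inr ⟨fun q => disjoint_left.1 d2 q um, _, _, (x.E i ∪ P i) ∪ (x.E j ∪ P j), z1,
        subset_union_left, fun v hv => ⟨Or.inr hv, ?_⟩,
        capi.conn_meet a4 b4 ⟨y i, Or.inr a3, Or.inr (zz.2.2 ▸ b3)⟩, Or.inl (Or.inl z3),
        Or.inr (Or.inl y3)⟩)) ?_ ⟨z7, z8, y7.trans um.1, um.2.trans_lt y8⟩ (z9.mono_right sub)
      (fun q => disjoint_left.1 y9 um (sub q)) fun r hr => ?_) (by simp only [add]; omega) le_rfl)
  · rcases hv with (hv | hv) | (hv | hv)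
    · exact disjoint_right.1 z4 hv
    · exact fun q => out i hi v (Or.inl q) (coreU (a2 hv).1)
    · exact fun q => disjoint_left.1 d1 (Or.inl q) (Or.inr hv)
    · exact fun q => out i hi v (Or.inl q) (coreU (b2 hv).1)
  · have k : Ur \ U ⊆ Ur \ U' := sdiff_subset_sdiff_right (s1.trans sdiff_subset)
    rintro v (hv | (hv | hv) | (hv | hv))
    · exact k (z5 (Or.inl hv))
    · exact k (z5 (Or.inr hv))
    · exact ⟨S.core (a2 hv).1, (a2 hv).2⟩
    · exact k (y5 (Or.inr hv))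
    · exact ⟨S.core (b2 hv).1, (b2 hv).2⟩
  · obtain ⟨m1, m2, m3⟩ := C.mix r hr i (by have : i < 2 * Q := hi; omega)
    obtain ⟨n1, n2, n3⟩ := C.mix r hr j (by have : j < 2 * Q := hj; omega)
    have wU := (C.item r hr).2.1
    refine ⟨disjoint_left.2 ?_, m2, m3, fun q => disjoint_left.1 n2 q um, fun q => n3 (q ▸ um)⟩
    rintro v hv (a | (a | a) | (a | a))
    · exact disjoint_left.1 m1 hv (Or.inl a)
    · exact disjoint_left.1 m1 hv (Or.inr a)
    · exact (wU hv).2 (coreU (a2 a).1)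
    · exact disjoint_left.1 n1 hv (Or.inr a)
    · exact (wU hv).2 (coreU (b2 a).1)

theorem endS (_ : InS) (hdel : DelS) (dn : DoneS) (_ : CtxS) : EndS :=
  fun _ _ _ _ _ _ _ hK jg main => ⟨_, _, _, endAt hdel dn hK jg main⟩

theorem EndK.mainAt_mono (kit : DoneS) {h K m b s t α s' t' α' : ℕ} (hs : s ≤ s') (ht : t ≤ t')
    (ha : α ≤ α') (main : MainAt h K m b s t α) : MainAt h K m b s' t' α' := by
  intro V _ G H n Ur U ob Ω c π x S a1 a2 C hm hb
  exact (kit V H U α).1 _ _ (main V G H n Ur U ob Ω c π x S (hs.trans a1) (ht.trans a2) C hm hb) ha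

theorem EndK.mainS (jg : JgS) (kit : DoneS) (en : EndS) (step : StepS) : MainS := by
  intro h
  obtain ⟨K, Q, hK, jg⟩ := jg h
  have out : ∀ k m, m + k = Q → ∃ s t α, MainAt h K m 0 s t α := by
    intro k
    induction k with
    | zero =>
      rintro m rfl
      refine ⟨0, 0, 0, fun V _ G H n Ur U ob Ω c π x S _ _ C hm _ =>
        (jg V G n Ur ob x.W x.lo x.hi x.ex S.univ (fun s hs => ?_) fun s hs t ht =>
          C.idis s (by omega) t (by omega)).elim⟩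
      obtain ⟨a1, a2, a3, a4, a5, a6, -⟩ := C.item s (by omega)
      exact ⟨a1, a2.trans sdiff_subset, a3, a4, a5, a6⟩
    | succ k ih =>
      intro m e
      obtain ⟨s, t, α, main⟩ := ih (m + 1) (by omega)
      have inn : ∀ j b, b + j = 2 * Q → ∃ s t α, MainAt h K m b s t α := by
        intro j
        induction j with
        | zero =>
          rintro b (rfl : b = 2 * Q)
          exact en _ _ _ _ _ _ _ hK jg main
        | succ j ih' =>
          intro b e'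
          obtain ⟨s', t', α', main'⟩ := ih' (b + 1) (by omega)
          exact step h K m b _ _ _ hK
            (mainAt_mono kit (le_max_left s s') (le_max_left t t') (le_max_left α α') main)
            (mainAt_mono kit (le_max_right _ _) (le_max_right _ _) (le_max_right _ _) main')
      exact inn (2 * Q) 0 (by omega)
  obtain ⟨s, t, α, main⟩ := out Q 0 (by omega)
  refine ⟨s, t, α, fun V _ G H n Ur U ob Ω c π S hs ht => main V G H n Ur U ob Ω c π
    ⟨0, fun _ => ∅, id, id, id, 0, fun _ => ∅, fun _ => ∅, id, id, id⟩ S hs ht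
    ⟨?_, ?_, ?_, ?_, ?_⟩ le_rfl le_rfl⟩ <;> exact fun _ k => absurd k (Nat.not_lt_zero _)

end Pool.Agent.MP_9d78a0_co.st

end MrgPart4

-- ======== part 5: formerly Pool.Agent.MP_9d78a0_co.st.Men
section MrgPart5

/-! The structure theorem: many links between two collars give a band. -/

set_option autoImplicit false

namespace Pool.Agent.MP_9d78a0_co.st

open Set Function fb capi

namespace Men

variable {V : Type} {H : SimpleGraph V} {U : Set V} {Ω : List V} {c : CD V}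

theorem miss [Finite V] {k : ℕ} (F : ℕ → Set V) {X : Set V} (hX : X.ncard < k)
    (hd : ∀ i < k, ∀ j < k, i ≠ j → Disjoint (F i) (F j)) : ∃ i < k, Disjoint (F i) X := by
  by_contra n
  push Not at n
  have : ∀ i : Fin k, ∃ v, v ∈ F i ∧ v ∈ X := fun i => not_disjoint_iff.1 (n i i.2)
  choose f hf using this
  have := ncard_le_ncard_of_injOn (s := univ) (t := X) f (fun i _ => (hf i).2) fun i _ j _ e => by
    by_contra q
    exact disjoint_left.1 (hd i i.2 j j.2 fun z => q (Fin.ext z)) (hf i).1 (e ▸ (hf j).1)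
  rw [ncard_univ, Nat.card_eq_fintype_card, Fintype.card_fin] at this
  omega

/-- an intact ring with an intact column -/
theorem side [Finite V] (inS : InS) (F : FCol H U Ω c) {k : ℕ} (hs : k < c.s) (ht : k ≤ c.t)
    {X : Set V} (hX : X.ncard < k) : ∃ l < k, ∃ x < k, ∃ T, T ⊆ c.In H U (k + 1) \ X ∧
      T ⊆ c.cols ∧ Conn H T ∧ c.ring l ⊆ T ∧ c.C k x ⊆ T := by
  obtain ⟨l, hl, d1⟩ := miss c.ring hX fun i hi j hj n => by
    rw [ring_eq (by omega), ring_eq (by omega)]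
    exact reg_dis F fun _ _ _ _ a b => n (a.symm.trans b)
  obtain ⟨x, hx, d2⟩ := miss c.col hX fun i hi j hj n => col_dis F (by omega) (by omega) n
  have c1 := conn_ring F (l := l) (by omega)
  rw [ring_eq (by omega)] at c1
  refine ⟨l, hl, x, hx, _, ?_, reg_sub_cols, conn_or F c1 (conn_vs F (i := x) (l := 0) (l' := k)
    (by omega) (Nat.zero_le _) (by omega)) (l := l) (i := x) (by omega) (by omega) rfl
    ⟨Nat.zero_le _, hl.le, rfl⟩, ?_,
    C_sub_reg hs.le (by omega) (Or.inr ⟨Nat.zero_le _, le_rfl, rfl⟩)⟩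
  · intro v hv
    rcases mem_reg.1 hv with ⟨m, hm, i, hi, a, b⟩ | ⟨i, hi, a, -⟩
    · refine ⟨(inS V H U Ω c F (k + 1) hs).2.2.2.2.1 m (by omega) (Or.inr ⟨i, hi, b⟩), ?_⟩
      rcases a with rfl | ⟨-, -, rfl⟩
      · exact disjoint_left.1 d1 ⟨i, hi, b⟩
      · exact disjoint_left.1 d2 (C_sub_up (Nat.zero_le _) hm b)
    · omega
  · rw [ring_eq (by omega)]
    exact reg_mono fun _ _ _ _ => Or.inl

/-- the selected columns and some further columns are kept -/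
theorem keep (inS : InS) (coar : CoarS) (F : FCol H U Ω c) {M s' t' k j : ℕ} (h3 : 3 ≤ t')
    (hs : j + s' < c.s) (ht : k + M + t' < c.t) (a : ℕ → ℕ) (J : ℕ → Set V)
    (ha : ∀ i i', i < i' → i' ≤ M → a i < a i') (hk : ∀ i ≤ M, a i < k)
    (hJ : ∀ i ≤ M, Touch H (J i) (c.C j (a i))) :
    ∃ (c' : CD V) (φ : ℕ → ℕ), (Col H U Ω c' ∧ c'.s = s' ∧ c'.t = M + t' + 1 ∧
      c.In H U j ⊆ c'.I ∧ c'.Core H U ⊆ c.Core H U ∧ (∀ i i', i < i' → i' < c'.t → φ i < φ i') ∧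
      (∀ i < c'.t, φ i < c.t ∧ c'.o i = c.o (φ i)) ∧ c'.cols ⊆ c.cols) ∧
      ∀ i ≤ M, Touch H (J i) (c'.C 0 i) := by
  have m1 : ∀ i i', i < i' → i' < M + t' + 1 →
      (if i ≤ M then a i else k + i) < if i' ≤ M then a i' else k + i' := by
    intro i i' h1 h2
    split_ifs with p q q
    · exact ha i i' h1 q
    · have := hk i p
      omega
    · omega
    · omega
  have m2 : ∀ i < M + t' + 1, (if i ≤ M then a i else k + i) < c.t := by
    intro i h1
    split_ifs with p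
    · have := hk i p
      omega
    · omega
  obtain ⟨c', h1, h2, h4, h5, -, h6, h7⟩ := coar V H U Ω c j s' (M + t' + 1)
    (fun i => if i ≤ M then a i else k + i) (fun i => if i ≤ M then J i else c.In H U j) F hs
    (by omega) m1 m2 fun i hi => by
      split_ifs with p
      · exact hJ i p
      · exact ((inS V H U Ω c F j (by omega)).2.2.2.1 _ (by omega)).2
  refine ⟨c', fun i => if i ≤ M then a i else k + i, ⟨h1, h2, h4, h5, h6, h4 ▸ m1,
    fun i hi => ⟨m2 i (h4 ▸ hi), (h7 i (h4 ▸ hi)).1⟩, ?_⟩, fun i hi => ?_⟩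
  · rintro v ⟨i, hi, hv | ⟨l, -, hl, hv⟩⟩
    · exact ⟨_, m2 i (h4 ▸ hi), up_sub_col ((h7 i (h4 ▸ hi)).2.1 ▸ hv)⟩
    · obtain ⟨x, hx, q, -⟩ := (h7 i (h4 ▸ hi)).2.2.2 l (h2 ▸ hl) v hv
      exact ⟨x, hx, C_sub_up (Nat.zero_le _) (by omega) q⟩
  · have := (h7 i (by omega)).2.2.1
    rwa [if_pos hi] at this

theorem cols_out (F : FCol H U Ω c) : c.cols ⊆ c.Out H U Ω :=
  fun _ hv => lk_self (Or.inr hv) (cols_sub F hv)

theorem ring_cols {l : ℕ} (hl : l ≤ c.s) : c.ring l ⊆ c.cols := ring_eq hl ▸ reg_sub_cols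

/-- a vertex of `B` that is linked to a vertex off `B` lies in the hub -/
theorem in_hub (F : Col H U Ω c) {B S : Set V} (d : Disjoint (c.Out H U Ω) B)
    (t : ¬ Touch H (c.Out H U Ω) B) (cov : U ⊆ c.I ∪ c.Out H U Ω ∪ B) (hS : S ⊆ U) {u w : V}
    (l : Link H S u w) (hu : u ∈ B) (hw : w ∉ B) : u ∈ c.I := by
  have st : ∀ x ∈ c.I, ∀ y ∈ B, H.Adj x y → y ∈ c.I := fun x hx y hy e =>
    (F.sat x hx y e).resolve_right fun z =>
      disjoint_left.1 d (cols_out F.toFCol (ring_cols (Nat.zero_le _) z)) hy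
  obtain ⟨p, q, -, q1, p2, q2, e, k⟩ := link_exit (T := B) l hu hw
  have q3 : q ∈ c.I := ((cov (hS q1)).resolve_right q2).resolve_right fun z => t ⟨q, z, p, p2, e.symm⟩
  by_contra n
  obtain ⟨x, y, -, y1, x2, y2, e', -⟩ := link_exit (T := c.I) k.symm (st q q3 p p2 e.symm) n
  exact y2 (st x x2 y y1.2 e')

/-- the outside after the hub has grown -/
theorem out_new {c' : CD V} (F : FCol H U Ω c) (F' : Col H U Ω c') {v : V} (hv : v ∈ c.Out H U Ω)
    (n : v ∉ c'.I) : v ∈ c'.Out H U Ω := by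
  obtain ⟨v1, a, ha, a1, l⟩ := hv
  obtain ⟨o, ho, l'⟩ : ∃ o ∈ Ω, Link H U v o := by
    rcases ha with ha | ⟨i, hi, ha⟩
    · exact ⟨a, ha, l.symm.mono sdiff_subset⟩
    · exact ⟨_, o_mem F hi, (l.symm.mono sdiff_subset).trans (((conn_col F hi).2 _ ha _
        (o_up F hi)).mono fun x hx => (up_sub F hi hx).1)⟩
  have m : v ∈ U \ c'.I := ⟨v1.1, n⟩
  by_cases q : o ∈ cp H (U \ c'.I) v
  · exact ⟨m, o, Or.inl ho, q.1, q.2.symm⟩
  · obtain ⟨x, y, -, y1, x2, y2, e, -⟩ := link_exit l' (cp_self m) q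
    have y3 : y ∈ c'.I := by
      by_contra z
      exact y2 (cp_closed x2 ⟨y1, z⟩ e)
    exact ⟨m, x, Or.inr (ring_cols (Nat.zero_le _) ((F'.sat y y3 x e.symm).resolve_left x2.1.2)),
      x2.1, x2.2.symm⟩

/-- a thin connection -/
theorem thin {S : Set V} (h : Conn H S) {a b : V} (ha : a ∈ S) (hb : b ∈ S) :
    ∃ J ⊆ S, Conn H J ∧ Thin H J ∧ a ∈ J ∧ b ∈ J := by
  obtain ⟨f, l, ⟨p1, p2, p3⟩, rfl, rfl⟩ := link_path (h.2 a ha b hb) ha
  refine ⟨f '' Icc 0 l, ?_, conn_seg (Nat.zero_le _) fun i _ hi => p2 i hi,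
    ⟨fun _ => f, fun _ => l, fun _ => ⟨fun j hj => ⟨j, ⟨Nat.zero_le _, hj⟩, rfl⟩, p2, p3⟩, ?_⟩,
    ⟨0, ⟨le_rfl, Nat.zero_le _⟩, rfl⟩, l, ⟨Nat.zero_le _, le_rfl⟩, rfl⟩
  · rintro _ ⟨i, hi, rfl⟩
    exact p1 i hi.2
  · rintro _ ⟨i, hi, rfl⟩
    exact ⟨0, i, hi.2, rfl⟩

end Men

open Men

theorem menS (inS : InS) (prune : PruneS) (coar : CoarS) : MenS := by
  intro M s' t' h3
  obtain ⟨k, es⟩ := prune.2.2.1 (M + 1)
  refine ⟨k, k + 1 + s' + 1, k + M + t' + 1, ?_⟩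
  intro V _ G H h n Ur U ob Ω c π R D hst hR hd
  have F : ∀ i, FCol H U (Ω i) (c i) := fun i => (D.col i).toFCol
  have hs : ∀ i, k + 1 + s' < (c i).s := fun i => (hst i).1
  have ht : ∀ i, k + M + t' < (c i).t := fun i => (hst i).2
  have I : ∀ i, ∀ l ≤ (c i).s, _ := fun i => inS V H U (Ω i) (c i) (F i)
  have p0 : ∀ {S : Set V}, S ⊆ U → ∀ {u w : V}, Link H S u w → u ∈ (c 1).Out H U (Ω 1) →
      w ∉ (c 1).Out H U (Ω 1) → u ∈ (c 0).I :=
    in_hub (D.col 0) D.out.1 D.out.2.1 fun v hv => (D.out.2.2 hv).imp_left (Or.imp_left (·.1))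
  have p1 : ∀ {S : Set V}, S ⊆ U → ∀ {u w : V}, Link H S u w → u ∈ (c 0).Out H U (Ω 0) →
      w ∉ (c 0).Out H U (Ω 0) → u ∈ (c 1).I :=
    in_hub (D.col 1) D.out.1.symm (fun z => D.out.2.1 z.symm) fun v hv => by
      rcases D.out.2.2 hv with (z | z) | z
      exacts [Or.inl (Or.inl z.2), Or.inr z, Or.inl (Or.inr z)]
  have hl : ∀ i, ∀ v ∈ (c i).cols, ∃ w, Link H U v w ∧ w ∉ (c i).Out H U (Ω i) := by
    rintro i v ⟨x, hx, hv⟩
    obtain ⟨w, hw⟩ := (F i).hub.2.1.1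
    exact ⟨w, ((conn_hub_col (F i) hx).2 _ (Or.inr hv) _ (Or.inl hw)).mono
      (union_subset (F i).hub.1 fun y hy => (up_sub (F i) hx hy).1), fun z => z.1.2 hw⟩
  have o0 : (c 0).cols ⊆ (c 1).I := fun v hv => by
    obtain ⟨w, l, n⟩ := hl 0 v hv
    exact p1 Subset.rfl l (cols_out (F 0) hv) n
  have o1 : (c 1).cols ⊆ (c 0).I := fun v hv => by
    obtain ⟨w, l, n⟩ := hl 1 v hv
    exact p0 Subset.rfl l (cols_out (F 1) hv) n
  have s0 := hs 0
  have s1 := hs 1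
  have t0 := ht 0
  have t1 := ht 1
  have tch : ∀ i x, ∃ a, x < k → a ∈ (c i).C k x ∧ Touch H {a} ((c i).C (k + 1) x) := fun i x => by
    by_cases hx : x < k
    · obtain ⟨a, ha, b, hb, e⟩ := (F i).ver k (by have := hs i; omega) x (by have := ht i; omega)
      exact ⟨a, fun _ => ⟨ha, a, rfl, b, hb, e⟩⟩
    · exact ⟨(c i).o 0, fun q => absurd q hx⟩
  choose a ha using tch
  obtain ⟨P, hP, dP⟩ := mengerS V H ((c 0).In H U (k + 1) ∩ (c 1).In H U (k + 1)) (a 0 '' Iio k)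
    (a 1 '' Iio k) k (toFinite _) fun X _ hX => by
      obtain ⟨l0, hl0, x0, hx0, T0, a1, a2, a3, a4, a5⟩ := side inS (F 0) (by omega) (by omega) hX
      obtain ⟨l1, hl1, x1, hx1, T1, b1, b2, b3, b4, b5⟩ := side inS (F 1) (by omega) (by omega) hX
      obtain ⟨r, hr, dr⟩ := miss (fun r => if hr : r < k then R ⟨r, hr⟩ else ∅) hX
        fun i hi j hj n => by
          rw [dif_pos hi, dif_pos hj]
          exact hd fun e => n (congrArg Fin.val e)
      rw [dif_pos hr] at dr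
      obtain ⟨r1, r2, r3⟩ := hR ⟨r, hr⟩
      obtain ⟨u0, u01, u03, u02⟩ := r3 0
      obtain ⟨u1, u11, u13, u12⟩ := r3 1
      obtain ⟨p, q, p5, -, p2, q2, e, lk1⟩ := link_exit (T := (c 0).In H U l0) (r2.2 _ u11 _ u01)
        ((I 0 l0 (by omega)).2.1 (p0 r1 (r2.2 _ u11 _ u01) u13 (disjoint_left.1 D.out.1 u03)))
        fun z => u02 ((I 0 _ le_rfl).2.2.2.2.1 l0 (by omega) (Or.inl z))
      have q3 := ((I 0 l0 (by omega)).2.2.2.2.2 p p2 q e).resolve_left q2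
      have p3 : p ∈ (c 1).In H U l1 := (I 1 l1 (by omega)).2.1
        (((D.col 1).sat q (o0 (a2 (a4 q3))) p e.symm).resolve_right fun z => D.out.2.1
          ⟨q, cols_out (F 0) (a2 (a4 q3)), p, cols_out (F 1) (ring_cols (Nat.zero_le _) z), e.symm⟩)
      obtain ⟨p', q', ⟨p1', p4⟩, -, p2', q2', e', lk2⟩ := link_exit (T := (c 1).In H U l1) lk1.symm
        p3 fun z => u12 ((I 1 _ le_rfl).2.2.2.2.1 l1 (by omega) (Or.inl z))
      have q3' := ((I 1 l1 (by omega)).2.2.2.2.2 p' p2' q' e').resolve_left q2'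
      have pm : p ∈ R ⟨r, hr⟩ ∩ (c 0).In H U l0 ∩ (c 1).In H U l1 := ⟨⟨p5, p2⟩, p3⟩
      refine ⟨T0 ∪ cp H _ p ∪ T1, ?_, conn_union_touch (conn_union_touch a3 (cp_conn pm)
        ⟨q, a4 q3, p, cp_self pm, e.symm⟩) b3 ⟨p', Or.inr ⟨⟨⟨p1', p4⟩, p2'⟩, lk2⟩, q', b4 q3', e'⟩,
        ⟨_, Or.inl (Or.inl (a5 (ha 0 x0 hx0).1)), x0, hx0, rfl⟩,
        _, Or.inr (b5 (ha 1 x1 hx1).1), x1, hx1, rfl⟩
      rintro v ((hv | hv) | hv)
      · exact ⟨⟨(a1 hv).1, (I 1 _ (by omega)).2.1 (o0 (a2 hv))⟩, (a1 hv).2⟩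
      · exact ⟨⟨(I 0 _ (by omega)).2.2.2.2.1 l0 (by omega) (Or.inl hv.1.1.2),
          (I 1 _ (by omega)).2.2.2.2.1 l1 (by omega) (Or.inl hv.1.2)⟩, disjoint_left.1 dr hv.1.1.1⟩
      · exact ⟨⟨(I 0 _ (by omega)).2.1 (o1 (b2 hv)), (b1 hv).1⟩, (b1 hv).2⟩
  have key : ∀ r, ∃ x y J, ∀ hr : r < k, x < k ∧ y < k ∧ J ⊆ P ⟨r, hr⟩ ∧ Conn H J ∧ Thin H J ∧
      a 0 x ∈ J ∧ a 1 y ∈ J := fun r => by
    by_cases hr : r < k
    · obtain ⟨-, p2, ⟨_, p3, x, hx, rfl⟩, _, p4, y, hy, rfl⟩ := hP ⟨r, hr⟩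
      obtain ⟨J, hJ⟩ := thin p2 p3 p4
      exact ⟨x, y, J, fun _ => ⟨hx, hy, hJ⟩⟩
    · exact ⟨0, 0, ∅, fun q => absurd q hr⟩
  choose x y J hJ using key
  have dJ : ∀ r < k, ∀ r' < k, r ≠ r' → Disjoint (J r) (J r') := fun r hr r' hr' n =>
    (dP (i := ⟨r, hr⟩) (j := ⟨r', hr'⟩) fun e => n (congrArg Fin.val e)).mono (hJ r hr).2.2.1
      (hJ r' hr').2.2.1
  obtain ⟨e, e1, e2, e3⟩ := es x y
    (fun r hr r' hr' q => by
      by_contra n
      exact disjoint_left.1 (dJ r hr r' hr' n) (hJ r hr).2.2.2.2.2.1 (q ▸ (hJ r' hr').2.2.2.2.2.1))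
    fun r hr r' hr' q => by
      by_contra n
      exact disjoint_left.1 (dJ r hr r' hr' n) (hJ r hr).2.2.2.2.2.2 (q ▸ (hJ r' hr').2.2.2.2.2.2)
  have k1 := fun i (hi : i ≤ M) => hJ (e i) (e1 i (Nat.lt_succ_of_le hi))
  obtain ⟨c0, φ0, g0, g0'⟩ := keep inS coar (F 0) h3 s0 t0 (x ∘ e) (J ∘ e)
    (fun i i' p q => e2 i i' p (by omega)) (fun i hi => (k1 i hi).1) fun i hi =>
      (ha 0 _ (k1 i hi).1).2.mono (singleton_subset_iff.2 (k1 i hi).2.2.2.2.2.1) Subset.rfl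
  have ty : ∀ i ≤ M, Touch H (J (e i)) ((c 1).C (k + 1) (y (e i))) := fun i hi =>
    (ha 1 _ (k1 i hi).2.1).2.mono (singleton_subset_iff.2 (k1 i hi).2.2.2.2.2.2) Subset.rfl
  obtain ⟨up, c1, φ1, g1, g1'⟩ : ∃ (up : Bool) (c' : CD V) (φ : ℕ → ℕ), (Col H U (Ω 1) c' ∧
      c'.s = s' ∧ c'.t = M + t' + 1 ∧ (c 1).In H U (k + 1) ⊆ c'.I ∧
      c'.Core H U ⊆ (c 1).Core H U ∧ (∀ i i', i < i' → i' < c'.t → φ i < φ i') ∧
      (∀ i < c'.t, φ i < (c 1).t ∧ c'.o i = (c 1).o (φ i)) ∧ c'.cols ⊆ (c 1).cols) ∧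
      ∀ i ≤ M, Touch H (J (e i)) (c'.C 0 (if up then i else M - i)) := by
    rcases e3 with e3 | e3
    · obtain ⟨c1, φ1, g1, g1'⟩ := keep inS coar (F 1) h3 s1 t1 (y ∘ e) (J ∘ e)
        (fun i i' p q => e3 i i' p (by omega)) (fun i hi => (k1 i hi).2.1) ty
      exact ⟨true, c1, φ1, g1, g1'⟩
    · obtain ⟨c1, φ1, g1, g1'⟩ := keep inS coar (F 1) h3 s1 t1 (fun i => y (e (M - i)))
        (fun i => J (e (M - i))) (fun i i' p q => e3 (M - i') (M - i) (by omega) (by omega))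
        (fun i _ => (k1 _ (Nat.sub_le _ _)).2.1) fun i _ => ty _ (Nat.sub_le _ _)
      refine ⟨false, c1, φ1, g1, fun i hi => ?_⟩
      have := g1' (M - i) (Nat.sub_le _ _)
      rwa [Nat.sub_sub_self hi] at this
  obtain ⟨c', φ, rfl, rfl, g⟩ : ∃ (c' : Fin 2 → CD V) (φ : Fin 2 → ℕ → ℕ), c' 0 = c0 ∧ c' 1 = c1 ∧
      ∀ i, Col H U (Ω i) (c' i) ∧ (c' i).s = s' ∧ (c' i).t = M + t' + 1 ∧
        (c i).In H U (k + 1) ⊆ (c' i).I ∧ (c' i).Core H U ⊆ (c i).Core H U ∧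
        (∀ a a', a < a' → a' < (c' i).t → φ i a < φ i a') ∧
        (∀ a < (c' i).t, φ i a < (c i).t ∧ (c' i).o a = (c i).o (φ i a)) ∧
        (c' i).cols ⊆ (c i).cols :=
    ⟨![c0, c1], ![φ0, φ1], rfl, rfl, Fin.forall_fin_two.2 ⟨g0, g1⟩⟩
  have mono : ∀ i p q, p ≤ q → q < (c i).t → π i p ≤ π i q := fun i p q a b =>
    a.lt_or_eq.elim (fun z => (D.mono i p q z b).le) fun z => z ▸ le_rfl
  have lt : ∀ i, ∀ p < (c' i).t, φ i p < (c i).t := fun i p hp => ((g i).2.2.2.2.2.2.1 p hp).1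
  have tp : ∀ i, 0 < (c' i).t := fun i => by rw [(g i).2.2.1]; omega
  have b1 : ∀ i, π i 0 ≤ π i (φ i 0) := fun i => mono i _ _ (Nat.zero_le _) (lt i 0 (tp i))
  have b2 : ∀ i, π i (φ i ((c' i).t - 1)) ≤ π i ((c i).t - 1) := fun i => by
    have := tp i
    have := lt i ((c' i).t - 1) (by omega)
    exact mono i _ _ (by omega) (by omega)
  have gr : ∀ i, (c i).I ⊆ (c' i).I := fun i v z =>
    (g i).2.2.2.1 ((I i _ (by have := hs i; omega)).2.1 z)
  have out : ∀ i, (c' i).Out H U (Ω i) ⊆ (c i).Out H U (Ω i) := fun i =>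
    lk_mono (fun v hv => ⟨hv.1, fun z => hv.2 (gr i z)⟩)
      (union_subset_union_right _ (g i).2.2.2.2.2.2.2)
  have hl' : ∀ i, ∀ v ∈ (c' i).I, ∃ w, Link H (c' i).I v w ∧ w ∉ (c i).Out H U (Ω i) := by
    intro i v hv
    obtain ⟨w, hw⟩ := (F i).hub.2.1.1
    exact ⟨w, (g i).1.hub.2.1.2 _ hv _ (gr i hw), fun z => z.1.2 hw⟩
  have cov : U ⊆ ((c' 0).I ∩ (c' 1).I) ∪ (c' 0).Out H U (Ω 0) ∪ (c' 1).Out H U (Ω 1) := by
    intro v hv
    rcases D.out.2.2 hv with (z | z) | z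
    · exact Or.inl (Or.inl ⟨gr 0 z.1, gr 1 z.2⟩)
    · by_cases q : v ∈ (c' 0).I
      · obtain ⟨w, l, n⟩ := hl' 0 v q
        exact Or.inl (Or.inl ⟨q, gr 1 (p1 (g 0).1.hub.1 l z n)⟩)
      · exact Or.inl (Or.inr (out_new (F 0) (g 0).1 z q))
    · by_cases q : v ∈ (c' 1).I
      · obtain ⟨w, l, n⟩ := hl' 1 v q
        exact Or.inl (Or.inl ⟨gr 0 (p0 (g 1).1.hub.1 l z n), q⟩)
      · exact Or.inr (out_new (F 1) (g 1).1 z q)
  refine ⟨c', fun i p => π i (φ i p), up, J ∘ e, ⟨D.univ, D.le, fun i => (g i).1,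
    fun i p q a b => D.mono i _ _ ((g i).2.2.2.2.2.1 p q a b) (lt i q b),
    fun i p hp => ((g i).2.2.2.2.2.2.1 p hp).2 ▸ D.pos i _ (lt i p hp),
    lt_of_le_of_lt (b2 0) (lt_of_lt_of_le D.ord (b1 1)), (g 0).2.1.trans (g 1).2.1.symm,
    ⟨D.out.1.mono (out 0) (out 1), fun z => D.out.2.1 (z.mono (out 0) (out 1)), cov⟩,
    (inter_subset_inter (g 0).2.2.2.2.1 (g 1).2.2.2.2.1).trans D.core⟩,
    ⟨fun i hi => ⟨?_, (k1 i hi).2.2.2.1, (k1 i hi).2.2.2.2.1, g0' i hi, g1' i hi⟩,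
      fun i hi i' hi' n => dJ _ (e1 i (by omega)) _ (e1 i' (by omega)) fun z => ?_,
      fun i => by rw [(g i).2.2.1]; omega⟩, fun i => ⟨(g i).2.1, b1 i, b2 i⟩⟩
  · exact ((k1 i hi).2.2.1.trans (hP _).1).trans
      (inter_subset_inter (g 0).2.2.2.1 (g 1).2.2.2.1)
  · rcases lt_or_gt_of_ne n with q | q
    · exact (e2 i i' q (by omega)).ne (by rw [z])
    · exact (e2 i' i q (by omega)).ne (by rw [z])

end Pool.Agent.MP_9d78a0_co.st

end MrgPart5

-- ======== part 6: formerly Pool.Agent.MP_9d78a0_co.st.Ord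
section MrgPart6

/-! The order of the letters of a ring; a node in every block of a wall. -/

set_option autoImplicit false

namespace Pool.Agent.MP_9d78a0_co.st

open Set Function fb

namespace ord

variable {V : Type}

/-- a list is cut at increasing places -/
theorem cut {L : List V} {o : ℕ → V} {t : ℕ} {p : ℕ → ℕ} (h : ∀ i < t, L[p i]? = some (o i))
    (h0 : p 0 = 0) (ht : 0 < t) (hm : ∀ i, i + 1 < t → p i < p (i + 1)) :
    ∃ seg, L = cyc o seg t := by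
  classical
  let q : ℕ → ℕ := fun i => if i < t then p i else L.length
  have hq : ∀ n < t, q n = p n ∧ q n < q (n + 1) := by
    intro n hn
    have e : q n = p n := if_pos hn
    refine ⟨e, ?_⟩
    rw [e]
    by_cases k : n + 1 < t
    · rw [show q (n + 1) = p (n + 1) from if_pos k]
      exact hm n k
    · rw [show q (n + 1) = L.length from if_neg k]
      exact (List.getElem?_eq_some_iff.1 (h n hn)).1
  refine ⟨fun i => (L.take (q (i + 1))).drop (q i + 1), ?_⟩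
  have key : ∀ n ≤ t, cyc o (fun i => (L.take (q (i + 1))).drop (q i + 1)) n = L.take (q n) := by
    intro n hn
    induction n with
    | zero => rw [(hq 0 ht).1, h0]; rfl
    | succ n ih =>
      obtain ⟨e1, e2⟩ := hq n hn
      have e3 : (L.take (q (n + 1)))[q n]? = some (o n) := by
        rw [List.getElem?_take_of_lt e2, e1]
        exact h n hn
      obtain ⟨e4, e5⟩ := List.getElem?_eq_some_iff.1 e3
      have ih' := ih (by omega)
      unfold cyc at ih' ⊢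
      rw [List.range_succ, List.flatMap_append, ih', List.flatMap_singleton, ← e5,
        ← List.drop_eq_getElem_cons e4]
      conv_rhs => rw [← List.take_append_drop (q n) (L.take (q (n + 1)))]
      rw [List.take_take, min_eq_left e2.le]
  rw [key t le_rfl, show q t = L.length from if_neg (lt_irrefl _), List.take_length]

variable {H : SimpleGraph V} {U I : Set V} {t : ℕ} {K : ℕ → Set V} {o : ℕ → V}

theorem main {M : List V} (nd : (o 0 :: M).Nodup) (t4 : 4 ≤ t)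
    (hK : ∀ i < t, K i ⊆ U \ I ∧ Conn H (K i) ∧ o i ∈ K i ∧ Touch H (K i) (K ((i + 1) % t)))
    (ho : ∀ i < t, o i ∈ o 0 :: M) (hd : ∀ i < t, ∀ j < t, i ≠ j → Disjoint (K i) (K j))
    (hf : HF H U (o 0 :: M) I) (h12 : List.Sublist [o 1, o 2] (o 0 :: M)) :
    ∃ seg, o 0 :: M = cyc o seg t := by
  have uq : ∀ (i j : ℕ) (x : V), (o 0 :: M)[i]? = some x → (o 0 :: M)[j]? = some x → i = j := by
    intro i j x h1 h2
    obtain ⟨a, e⟩ := List.getElem?_eq_some_iff.1 h1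
    obtain ⟨b, e'⟩ := List.getElem?_eq_some_iff.1 h2
    exact nd.getElem_inj_iff.1 (e.trans e'.symm)
  have : ∀ i, ∃ n : ℕ, i < t → (o 0 :: M)[n]? = some (o i) := by
    intro i
    by_cases h : i < t
    · obtain ⟨n, hn⟩ := List.mem_iff_getElem?.1 (ho i h)
      exact ⟨n, fun _ => hn⟩
    · exact ⟨0, fun k => absurd k h⟩
  choose p hp using this
  have p0 : p 0 = 0 := uq _ _ _ (hp 0 (by omega)) rfl
  have inj : ∀ i < t, ∀ j < t, i ≠ j → p i ≠ p j := by
    intro i hi j hj n e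
    have := (hp i hi).symm.trans (e ▸ hp j hj)
    exact disjoint_left.1 (hd i hi j hj n) (hK i hi).2.2.1 (Option.some.inj this ▸ (hK j hj).2.2.1)
  -- unions of the sets `K`
  let A : (ℕ → Prop) → Set V := fun s => {v | ∃ i < t, s i ∧ v ∈ K i}
  have Asub : ∀ s, A s ⊆ U \ I := fun s v ⟨i, hi, _, h⟩ => (hK i hi).1 h
  have Ao : ∀ (s : ℕ → Prop), ∀ i < t, s i → o i ∈ A s := fun s i hi h => ⟨i, hi, h, (hK i hi).2.2.1⟩
  have Adis : ∀ s s' : ℕ → Prop, (∀ i, s i → s' i → False) → Disjoint (A s) (A s') := by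
    intro s s' h
    refine disjoint_left.2 ?_
    rintro v ⟨i, hi, h1, h2⟩ ⟨j, hj, h3, h4⟩
    by_cases e : i = j
    · exact h i h1 (e ▸ h3)
    · exact disjoint_left.1 (hd i hi j hj e) h2 h4
  have Aseg : ∀ a b, a ≤ b → b < t → Conn H (A fun i => a ≤ i ∧ i ≤ b) := by
    intro a b hab hb
    have := conn_chain (G := H) (S := K) hab (fun i hi => (hK i (by have := hi.2; omega)).2.1)
      fun i _ h2 => Or.inr (by
        have := (hK i (by omega)).2.2.2
        rwa [Nat.mod_eq_of_lt (by omega)] at this)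
    convert this using 1
    ext v
    simp only [mem_iUnion, mem_Icc, exists_prop]
    exact ⟨fun ⟨i, _, h1, h2⟩ => ⟨i, h1, h2⟩, fun ⟨i, h1, h2⟩ => ⟨i, by omega, h1, h2⟩⟩
  have Aback : ∀ a, a < t → Conn H (A fun i => a ≤ i ∨ i = 0) := by
    intro a ha
    have k := (hK (t - 1) (by omega)).2.2.2
    rw [show t - 1 + 1 = t by omega, Nat.mod_self] at k
    have := conn_union_touch (Aseg a (t - 1) (by omega) (by omega)) (hK 0 (by omega)).2.1
      (k.mono (fun v hv => ⟨t - 1, by omega, ⟨by omega, le_rfl⟩, hv⟩) Subset.rfl)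
    convert this using 1
    ext v
    constructor
    · rintro ⟨i, hi, h | rfl, hv⟩
      exacts [Or.inl ⟨i, hi, ⟨h, by omega⟩, hv⟩, Or.inr hv]
    · rintro (⟨i, hi, h, hv⟩ | hv)
      exacts [⟨i, hi, Or.inl h.1, hv⟩, ⟨0, by omega, Or.inr rfl, hv⟩]
  -- no alternation
  have na : ∀ (s s' : ℕ → Prop) (x y z : ℕ), Conn H (A s) → Conn H (A s') →
      (∀ i, s i → s' i → False) → x < t → y < t → z < t → s 0 → s y → s' x → s' z → x ≠ 0 →
      p x < p y → p y < p z → False := by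
    intro s s' x y z c1 c2 d hx hy hz h0 h1 h2 h3 n k1 k2
    have k0 : p 0 < p x := by
      have := inj x hx 0 (by omega) n
      omega
    obtain ⟨⟨v, hv, hv'⟩, -⟩ := hf _ _ _ _ (nf.sub4_iff.2 ⟨_, _, _, _, k0, k1, k2, hp 0 (by omega),
      hp x hx, hp y hy, hp z hz⟩) (A s) (A s') ⟨fun v h => (Asub s h).1, fun v h => (Asub s' h).1,
      c1, c2, Adis s s' d⟩ (Ao s 0 (by omega) h0) (Ao s y hy h1) (Ao s' x hx h2) (Ao s' z hz h3)
    exact (Asub s hv).2 hv'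
  have btw : ∀ j k l, 0 < j → j < k → k < l → l < t → p j < p k → p k < p l := by
    intro j k l h0 h1 h2 h3 e
    by_contra n
    have n1 := inj k (by omega) l h3 (by omega)
    have n2 := inj j (by omega) l h3 (by omega)
    rcases Nat.lt_or_gt_of_ne n2 with e' | e'
    · exact na _ _ j l k (Aback l h3) (Aseg j k h1.le (by omega)) (fun i a b => by omega)
        (by omega) h3 (by omega) (Or.inr rfl) (Or.inl le_rfl) ⟨le_rfl, h1.le⟩ ⟨h1.le, le_rfl⟩
        (by omega) e' (by omega)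
    · exact na _ _ l j k (Aseg 0 j (by omega) (by omega)) (Aseg k l h2.le h3)
        (fun i a b => by omega) h3 (by omega) (by omega) ⟨le_rfl, by omega⟩ ⟨by omega, le_rfl⟩
        ⟨h2.le, le_rfl⟩ ⟨le_rfl, h2.le⟩ (by omega) e' e
  have p12 : p 1 < p 2 := by
    obtain ⟨i, j, e, h1, h2⟩ := nf.sub2_iff.1 h12
    rwa [uq _ _ _ (hp 1 (by omega)) h1, uq _ _ _ (hp 2 (by omega)) h2]
  have p1 : ∀ i, 1 < i → i < t → p 1 < p i := by
    intro i h1 h2
    rcases (show i = 2 ∨ 2 < i by omega) with rfl | e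
    · exact p12
    · exact p12.trans (btw 1 2 i (by omega) (by omega) e h2 p12)
  refine cut hp p0 (by omega) fun i hi => ?_
  rcases (show i = 0 ∨ i = 1 ∨ 1 < i by omega) with rfl | rfl | e
  · have := inj 0 (by omega) 1 (by omega) (by omega)
    simp only [Nat.zero_add]
    omega
  · exact p12
  · exact btw 1 i (i + 1) (by omega) e (by omega) hi (p1 i e (by omega))

end ord

theorem ordS : NfS → OrdS := by
  intro _ V H U I Ω t K o nd t4 hK hd hf
  obtain ⟨X, Y, rfl⟩ := List.append_of_mem (hK 0 (by omega)).2.2.2.1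
  have r : List.IsRotated (X ++ o 0 :: Y) (o 0 :: (Y ++ X)) := List.isRotated_append
  have r' : List.IsRotated (X ++ o 0 :: Y).reverse (o 0 :: (Y ++ X).reverse) := by
    refine r.reverse.trans ?_
    rw [List.reverse_cons]
    exact List.isRotated_append
  have hK' : ∀ i < t, K i ⊆ U \ I ∧ Conn H (K i) ∧ o i ∈ K i ∧ Touch H (K i) (K ((i + 1) % t)) :=
    fun i hi => ⟨(hK i hi).1, (hK i hi).2.1, (hK i hi).2.2.1, (hK i hi).2.2.2.2⟩
  have ne : ∀ i < t, ∀ j < t, i ≠ j → o i ≠ o j := fun i hi j hj n e =>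
    disjoint_left.1 (hd i hi j hj n) (hK i hi).2.2.1 (e ▸ (hK j hj).2.2.1)
  have mem : ∀ i < t, i ≠ 0 → ∃ n : ℕ, (Y ++ X)[n]? = some (o i) := fun i hi n =>
    List.mem_iff_getElem?.1 ((List.mem_cons.1 (r.mem_iff.1 (hK i hi).2.2.2.1)).resolve_left
      (ne i hi 0 (by omega) n))
  obtain ⟨a, ha⟩ := mem 1 (by omega) (by omega)
  obtain ⟨b, hb⟩ := mem 2 (by omega) (by omega)
  rcases lt_trichotomy a b with e | rfl | e
  · obtain ⟨seg, h⟩ := ord.main (r.nodup_iff.1 nd) t4 hK'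
      (fun i hi => r.mem_iff.1 (hK i hi).2.2.2.1) hd (nf.hf_rot r hf)
      ((nf.sub2_iff.2 ⟨a, b, e, ha, hb⟩).cons _)
    exact ⟨seg, Or.inl (h ▸ r)⟩
  · exact absurd (Option.some.inj (ha.symm.trans hb)) (ne 1 (by omega) 2 (by omega) (by omega))
  · obtain ⟨seg, h⟩ := ord.main (r'.nodup_iff.1 (List.nodup_reverse.2 nd)) t4 hK'
      (fun i hi => r'.mem_iff.1 (List.mem_reverse.2 (hK i hi).2.2.2.1)) hd
      (nf.hf_rot r' (nf.hf_rev hf))
      ((List.reverse_sublist.2 (nf.sub2_iff.2 ⟨b, a, e, hb, ha⟩)).cons _)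
    exact ⟨seg, Or.inr (h ▸ r')⟩

theorem wallS : InvS → WallS := by
  intro inv V H U X cs Y g d R hD hR hc cX nX hRi hRd
  obtain ⟨i1, i2⟩ := inv V cs [Y] g hD
  have i3 := i2 fun c h x hx => (hc c h).1.soc.sub x hx
  have i4 : ∀ c ∈ cs, ∀ c' ∈ cs, ∀ x ∈ c.W, x ∈ c'.W → x ∉ c.N → c = c' := by
    intro c h c' h' x h1 h2 h3
    by_contra n
    have : Std.Symm fun c c' : Cell V => c.W ∩ c'.W ⊆ ls c.N ∩ ls c'.N :=
      ⟨fun _ _ k v hv => (k hv.symm).symm⟩
    exact h3 (i3.forall h h' n ⟨h1, h2⟩).1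
  by_contra no
  push Not at no
  obtain ⟨u, hu, v, hv, n⟩ := nX
  obtain ⟨w, ⟨-, hw, e⟩, -⟩ := (cX.2 u hu v hv).cases_head.resolve_left n
  obtain ⟨c, h, e'⟩ := (hR.adj _ _).1 e
  have ck : c.k = .cell := by
    rcases k : c.k with _ | _ | _
    · rfl
    · exact absurd k (hc c h).2
    · rw [((hc c h).1.void k).1] at e'
      exact e'.elim
  have st : ∀ x ∈ c.W, x ∉ c.N → ∀ y, H.Adj x y → y ∈ c.W := by
    intro x h1 h2 y e
    obtain ⟨c', h', e'⟩ := (hR.adj _ _).1 e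
    rw [i4 c h c' h' x h1 ((hc c' h').1.soc.tight _ _ e') h2]
    exact (hc c' h').1.soc.tight _ _ e'.symm
  have Xc : ∀ x ∈ X, x ∈ c.W := by
    intro x hx
    by_contra k
    obtain ⟨a, b, h1, -, h3, h4, h5, -⟩ := link_exit (T := c.W) (cX.2 u hu x hx)
      ((hc c h).1.soc.tight _ _ e') k
    exact h4 (st a h3 (no a h1 c h ck) b h5)
  have ex : ∀ i, ∃ b ∈ R i, b ∈ c.N := by
    intro i
    obtain ⟨h1, ⟨x, hx, hx'⟩, y, hy, hy'⟩ := hRi i
    have k : y ∉ c.W \ ls c.N := by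
      obtain ⟨c', h', k⟩ := i1 Y (by simp) y hy'
      intro k'
      exact k'.2 (i4 c h c' h' y k'.1 ((hc c' h').1.soc.sub y k) k'.2 ▸ k)
    obtain ⟨a, b, -, h2, h3, h4, h5, -⟩ := link_exit (T := c.W \ ls c.N) (h1.2 x hx y hy)
      ⟨Xc x hx', no x hx' c h ck⟩ k
    exact ⟨b, h2, by_contra fun k => h4 ⟨st a h3.1 h3.2 b h5, k⟩⟩
  choose f hf hN using ex
  have inj : Injective f := fun i j e =>
    by_contra fun n => disjoint_left.1 (hRd n) (hf i) (e ▸ hf j)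
  have := (List.subperm_of_subset (List.nodup_ofFn.2 inj)
    (fun x hx => by obtain ⟨i, rfl⟩ := List.mem_ofFn.1 hx; exact hN i)).length_le
  have := (hc c h).1.len ck
  simp only [List.length_ofFn] at *
  omega

end Pool.Agent.MP_9d78a0_co.st

end MrgPart6

-- marker of a merged file
example : 731051 + 781446 = 731051 + 781446 := rfl
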