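import Pool.Agent.MP_9d78a0_co.gm.Map
import Pool.Agent.MP_9d78a0_co.fb.Conv
import Pool.Agent.MP_9d78a0_co.st.Del
import Pool.Agent.MP_9d78a0_co.fb.Part12

-- ======== part 0: formerly Pool.Agent.MP_9d78a0_co.fb.Blob
section MrgPart0

/-! Sequences of blobs: a least one is a vital linkage of the graph of blobs. -/

set_option autoImplicit false

namespace Pool.Agent.MP_9d78a0_co.fb

open Set Function

namespace Blob

variable {V : Type} {k : ℕ} {G : SimpleGraph V} {S : Set V} {D : ℕ → Set V} {s : ℕ}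
  {σ τ : Fin k → V} {len : Fin k → ℕ} {β : Vx k → Set V}

theorem exists_min {α : Type} (P : α → Prop) (m : α → ℕ) (h : ∃ a, P a) :
    ∃ a, P a ∧ ∀ b, P b → m a ≤ m b := by
  obtain ⟨a, ha, hm⟩ := (wellFounded_lt.onFun (f := m)).has_min {a | P a} h
  exact ⟨a, ha, fun b hb => not_lt.1 (hm b hb)⟩

theorem vs_fin (len : Fin k → ℕ) : (Vs len).Finite :=
  (finite_univ.prod (finite_Iic (Finset.univ.sup len))).subset fun v hv =>
    ⟨trivial, le_trans hv (Finset.le_sup (f := len) (Finset.mem_univ v.1))⟩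

theorem start {Q : Fin k → Set V} (h : Lk G S σ τ Q) : ∃ len β, Blobs G S D s σ τ len β := by
  choose f l h1 h2 h3 using fun p =>
    link_path ((h.mem p).2.1.2 _ (h.mem p).2.2.1 _ (h.mem p).2.2.2) (h.mem p).2.2.1
  refine ⟨l, fun v => {f v.1 v.2}, fun v hv => ⟨?_, conn_singleton _ _⟩, ?_,
    fun p i hi => ⟨_, rfl, _, rfl, (h1 p).2.1 i hi⟩, fun p => ⟨(h2 p).symm, (h3 p).symm⟩, fun v _ => ?_⟩
  · exact singleton_subset_iff.2 ((h.mem _).1 ((h1 _).1 _ hv))
  · rintro ⟨p, i⟩ hu ⟨q, j⟩ hv e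
    refine disjoint_singleton.2 fun c => e ?_
    by_cases d : p = q
    · subst d
      rw [(h1 p).2.2 i hu j hv c]
    · exact absurd (c ▸ (h1 q).1 j hv) (disjoint_left.1 (h.dis d) ((h1 p).1 i hu))
  · by_cases c : ∃ m ≤ s, f v.1 v.2 ∈ D m
    · obtain ⟨m, hm, c⟩ := c
      exact Or.inl ⟨m, hm, singleton_subset_iff.2 c⟩
    · push Not at c
      exact Or.inr ⟨_, rfl, c⟩

/-- two consecutive blobs in one ring are merged -/
theorem merge (h : Blobs G S D s σ τ len β) {i : Fin k} {j m : ℕ} (hj : j < len i) (hm : m ≤ s)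
    (h1 : β (i, j) ⊆ D m) (h2 : β (i, j + 1) ⊆ D m) :
    ∃ len' β', Blobs G S D s σ τ len' β' ∧ (Vs len').ncard < (Vs len).ncard := by
  classical
  let g : Vx k → Vx k := fun v => if v.1 = i ∧ j < v.2 then (v.1, v.2 + 1) else v
  let len' : Fin k → ℕ := fun p => if p = i then len i - 1 else len p
  let β' : Vx k → Set V := fun v => {x | x ∈ β (g v) ∨ (v = (i, j) ∧ x ∈ β (i, j + 1))}
  have g1 : ∀ v ∈ Vs len', g v ∈ Vs len := by
    rintro ⟨p, x⟩ hv
    simp only [Vs, mem_ofPred_eq, len', g] at hv ⊢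
    split_ifs at hv ⊢ with a b b
    · subst b
      simp only
      omega
    · exact absurd a.1 b
    · subst b
      simp only
      omega
    · exact hv
  have g2 : ∀ v, g v ≠ (i, j + 1) := by
    rintro ⟨p, x⟩ e
    simp only [g] at e
    split_ifs at e with a
    · have := (Prod.mk.inj e).2
      omega
    · obtain ⟨rfl, rfl⟩ := Prod.mk.inj e
      exact a ⟨rfl, by omega⟩
  have g3 : Injective g := by
    rintro ⟨p, x⟩ ⟨q, y⟩ e
    simp only [g] at e
    split_ifs at e with a b b <;> obtain ⟨e1, e2⟩ := Prod.mk.inj e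
    · exact Prod.ext e1 (by simp only; omega)
    · exact absurd ⟨e1 ▸ a.1, by omega⟩ b
    · exact absurd ⟨e1 ▸ b.1, by omega⟩ a
    · exact e
  have g4 : g (i, j) = (i, j) := by simp [g]
  have b1 : β' (i, j) = β (i, j) ∪ β (i, j + 1) := by
    ext x
    simp [β', g4]
  have b2 : ∀ v, v ≠ (i, j) → β' v = β (g v) := fun v e => by
    ext x
    simp [β', e]
  have b3 : ∀ v, β (g v) ⊆ β' v := fun v x hx => Or.inl hx
  have b4 : ∀ v w, g v = w → β w ⊆ β' v := fun v w e => e ▸ b3 v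
  have v1 : (i, j) ∈ Vs len := hj.le
  have v2 : (i, j + 1) ∈ Vs len := hj
  refine ⟨len', β', ⟨fun v hv => ?_, fun u hu v hv e => ?_, fun p x hx => ?_, fun p => ⟨?_, ?_⟩,
    fun v hv => ?_⟩, ?_⟩
  · by_cases c : v = (i, j)
    · rw [c, b1]
      exact ⟨union_subset (h.conn _ v1).1 (h.conn _ v2).1,
        conn_union_touch (h.conn _ v1).2 (h.conn _ v2).2 (h.touch i j hj)⟩
    · rw [b2 v c]
      exact h.conn _ (g1 v hv)
  · rw [disjoint_left]
    rintro x (a | a) (b | b)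
    · exact disjoint_left.1 (h.dis _ (g1 u hu) _ (g1 v hv) fun c => e (g3 c)) a b
    · exact disjoint_left.1 (h.dis _ (g1 u hu) _ v2 (g2 u)) a b.2
    · exact disjoint_left.1 (h.dis _ (g1 v hv) _ v2 (g2 v)) b a.2
    · exact e (a.1.trans b.1.symm)
  · by_cases c : p = i
    · subst c
      simp only [len', if_true] at hx
      rcases lt_trichotomy x j with d | rfl | d
      · have e1 : g (p, x) = (p, x) := if_neg fun c => absurd c.2 (by simp only; omega)
        have e2 : g (p, x + 1) = (p, x + 1) := if_neg fun c => absurd c.2 (by simp only; omega)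
        exact (h.touch p x (by omega)).mono (b4 _ _ e1) (b4 _ _ e2)
      · have e2 : g (p, x + 1) = (p, x + 1 + 1) := by simp [g]
        exact (h.touch p (x + 1) (by omega)).mono (b1 ▸ subset_union_right) (b4 _ _ e2)
      · have e1 : g (p, x) = (p, x + 1) := by simp [g, d]
        have e2 : g (p, x + 1) = (p, x + 1 + 1) := by simp [g, Nat.lt_succ_of_lt d]
        exact (h.touch p (x + 1) (by omega)).mono (b4 _ _ e1) (b4 _ _ e2)
    · simp only [len', c, if_false] at hx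
      have e1 : g (p, x) = (p, x) := by simp [g, c]
      have e2 : g (p, x + 1) = (p, x + 1) := by simp [g, c]
      exact (h.touch p x hx).mono (b4 _ _ e1) (b4 _ _ e2)
  · have e1 : g (p, 0) = (p, 0) := by simp [g]
    exact b3 (p, 0) (e1.symm ▸ (h.ends p).1)
  · by_cases c : p = i
    · subst c
      simp only [len', if_true]
      by_cases d : j < len p - 1
      · have e1 : g (p, len p - 1) = (p, len p) := by
          simp only [g, d, and_self, if_true, Prod.mk.injEq, true_and]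
          omega
        exact b3 _ (e1.symm ▸ (h.ends p).2)
      · have e1 : len p - 1 = j := by omega
        have e2 : j + 1 = len p := by omega
        rw [e1, b1, e2]
        exact Or.inr (h.ends p).2
    · simp only [len', c, if_false]
      have e1 : g (p, len p) = (p, len p) := by simp [g, c]
      exact b3 _ (e1.symm ▸ (h.ends p).2)
  · by_cases c : v = (i, j)
    · rw [c, b1]
      exact Or.inl ⟨m, hm, union_subset h1 h2⟩
    · rw [b2 v c]
      exact h.kind _ (g1 v hv)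
  · refine ncard_lt_ncard ((ssubset_iff_of_subset ?_).2 ⟨(i, len i), le_refl (len i), ?_⟩) (vs_fin _)
    · rintro ⟨p, x⟩ hv
      simp only [Vs, mem_ofPred_eq, len'] at hv ⊢
      split_ifs at hv with a
      · subst a
        omega
      · exact hv
    · simp only [Vs, mem_ofPred_eq, len', if_true]
      omega

/-- the graph of blobs -/
def bg (G : SimpleGraph V) (D : ℕ → Set V) (s : ℕ) (len : Fin k → ℕ) (β : Vx k → Set V) :
    SimpleGraph (Vx k) where
  Adj u v := u ≠ v ∧ u ∈ Vs len ∧ v ∈ Vs len ∧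
    ((u.1 = v.1 ∧ (u.2 + 1 = v.2 ∨ v.2 + 1 = u.2)) ∨
      ∃ m ≤ s, β u ⊆ D m ∧ β v ⊆ D m ∧ Touch G (β u) (β v))
  symm := ⟨by
    rintro u v ⟨h1, h2, h3, h4 | ⟨m, h4, h5, h6, h7⟩⟩
    exacts [⟨h1.symm, h3, h2, Or.inl ⟨h4.1.symm, h4.2.symm⟩⟩,
      ⟨h1.symm, h3, h2, Or.inr ⟨m, h4, h6, h5, h7.symm⟩⟩]⟩
  loopless := ⟨fun _ h => h.1 rfl⟩

theorem bg_touch (h : Blobs G S D s σ τ len β) {u v : Vx k} (e : (bg G D s len β).Adj u v) :
    Touch G (β u) (β v) := by
  obtain ⟨p, i⟩ := u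
  obtain ⟨q, j⟩ := v
  obtain ⟨-, h2, h3, ⟨rfl, h4 | h4⟩ | ⟨m, -, -, -, h7⟩⟩ := e
  · obtain rfl : i + 1 = j := h4
    exact h.touch _ i h3
  · obtain rfl : j + 1 = i := h4
    exact (h.touch _ j h2).symm
  · exact h7

theorem vital (h : Blobs G S D s σ τ len β)
    (hmin : ∀ len' β', Blobs G S D s σ τ len' β' → (Vs len).ncard ≤ (Vs len').ncard) :
    Vital len (bg G D s len β) := by
  refine ⟨fun i p hp => ⟨by simp, hp.le, hp, Or.inl ⟨rfl, Or.inl rfl⟩⟩, fun Q hQ hd => ?_⟩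
  choose f l h1 h2 h3 using fun p =>
    link_path ((hQ p).2.1.2 _ (hQ p).2.2.1 _ (hQ p).2.2.2) (hQ p).2.2.1
  have a1 : ∀ v ∈ Vs l, f v.1 v.2 ∈ Vs len := fun v hv => (hQ _).1 ((h1 _).1 _ hv)
  have a2 : ∀ u ∈ Vs l, ∀ v ∈ Vs l, f u.1 u.2 = f v.1 v.2 → u = v := by
    rintro ⟨p, i⟩ hu ⟨q, j⟩ hv c
    by_cases d : p = q
    · subst d
      rw [(h1 p).2.2 i hu j hv c]
    · exact absurd (c ▸ (h1 q).1 j hv) (disjoint_left.1 (hd d) ((h1 p).1 i hu))
  have hb : Blobs G S D s σ τ l fun v => β (f v.1 v.2) :=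
    ⟨fun v hv => h.conn _ (a1 v hv), fun u hu v hv e => h.dis _ (a1 u hu) _ (a1 v hv)
      fun c => e (a2 u hu v hv c), fun p i hi => bg_touch h ((h1 p).2.1 i hi),
      fun p => ⟨by simpa only [h2] using (h.ends p).1, by simpa only [h3] using (h.ends p).2⟩,
      fun v hv => h.kind _ (a1 v hv)⟩
  have a3 : (Vs l).ncard ≤ (Vs len).ncard :=
    ncard_le_ncard_of_injOn (fun v => f v.1 v.2) a1 (fun u hu v hv => a2 u hu v hv) (vs_fin _)
  intro i
  have key : ∀ j ≤ l i, (f i j).1 = i ∧ ∀ p ≤ (f i j).2, (i, p) ∈ Q i := by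
    intro j
    induction j with
    | zero =>
      intro _
      rw [h2]
      refine ⟨rfl, fun p hp => ?_⟩
      obtain rfl : p = 0 := Nat.le_zero.1 hp
      exact (hQ i).2.2.1
    | succ j ih =>
      intro hj
      obtain ⟨i1, i2⟩ := ih (by omega)
      obtain ⟨-, -, -, ⟨c1, c2⟩ | ⟨m, c1, c2, c3, -⟩⟩ := (h1 i).2.1 j hj
      · refine ⟨c1 ▸ i1, fun p hp => ?_⟩
        by_cases d : p ≤ (f i j).2
        · exact i2 p d
        · have e : (i, p) = f i (j + 1) := Prod.ext (i1.symm.trans c1) (by simp only; omega)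
          exact e ▸ (h1 i).1 _ hj
      · obtain ⟨len', β', b1, b2⟩ := merge hb hj c1 c2 c3
        have := hmin len' β' b1
        omega
  intro p hp
  exact (key _ le_rfl).2 p (by rw [h3]; exact hp)

theorem in_ring (h : Blobs G S D s σ τ len β)
    (hD : ∀ l ≤ s, ∀ l' ≤ s, l ≠ l' → Disjoint (D l) (D l')) {m : ℕ} (hm : m ≤ s) {u : Vx k}
    (hu : u ∈ Vs len) {x : V} (h1 : x ∈ β u) (h2 : x ∈ D m) : β u ⊆ D m := by
  rcases h.kind u hu with ⟨l, hl, c⟩ | ⟨y, e, c⟩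
  · obtain rfl : l = m := not_not.1 fun d => disjoint_left.1 (hD l hl m hm d) (c h1) h2
    exact c
  · rw [e] at h1
    exact absurd (h1 ▸ h2) (c m hm)

/-- a ring that contains a blob is covered by blobs -/
theorem covered [Finite V] (h : Blobs G S D s σ τ len β) (hC : ∀ l ≤ s, D l ⊆ S ∧ Conn G (D l))
    (hD : ∀ l ≤ s, ∀ l' ≤ s, l ≠ l' → Disjoint (D l) (D l'))
    (hmax : ∀ β', Blobs G S D s σ τ len β' →
      (⋃ v ∈ Vs len, β' v).ncard ≤ (⋃ v ∈ Vs len, β v).ncard)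
    {m : ℕ} (hm : m ≤ s) {v : Vx k} (hv : v ∈ Vs len) (h1 : β v ⊆ D m) :
    D m ⊆ ⋃ v ∈ Vs len, β v := by
  classical
  intro y hy
  by_contra hn
  obtain ⟨x, hx⟩ := (h.conn v hv).2.1
  obtain ⟨a, b, a1, b1, a2, b2, e, -⟩ := link_exit ((hC m hm).2.2 x (h1 hx) y hy)
    (mem_biUnion hv hx : x ∈ ⋃ v ∈ Vs len, β v) hn
  obtain ⟨u, hu, a3⟩ := mem_iUnion₂.1 a2
  have a4 := in_ring h hD hm hu a3 a1
  have b3 : ∀ w ∈ Vs len, b ∉ β w := fun w hw c => b2 (mem_biUnion hw c)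
  let β' : Vx k → Set V := fun w => {z | z ∈ β w ∨ (w = u ∧ z = b)}
  have c1 : β' u = insert b (β u) := by
    ext z
    simp [β', or_comm]
  have c2 : ∀ w, w ≠ u → β' w = β w := fun w e => by
    ext z
    simp [β', e]
  have c3 : ∀ w, β w ⊆ β' w := fun w z hz => Or.inl hz
  have hb : Blobs G S D s σ τ len β' := by
    refine ⟨fun w hw => ?_, fun w hw w' hw' e => ?_,
      fun p i hi => (h.touch p i hi).mono (c3 _) (c3 _),
      fun p => ⟨c3 _ (h.ends p).1, c3 _ (h.ends p).2⟩, fun w hw => ?_⟩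
    · by_cases c : w = u
      · rw [c, c1]
        exact ⟨insert_subset ((hC m hm).1 b1) (h.conn u hu).1, (h.conn u hu).2.insert a3 e.symm⟩
      · rw [c2 w c]
        exact h.conn w hw
    · rw [disjoint_left]
      rintro z (c | c) (d | d)
      · exact disjoint_left.1 (h.dis w hw w' hw' e) c d
      · exact b3 w hw (d.2 ▸ c)
      · exact b3 w' hw' (c.2 ▸ d)
      · exact e (c.1.trans d.1.symm)
    · by_cases c : w = u
      · rw [c, c1]
        exact Or.inl ⟨m, hm, insert_subset b1 a4⟩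
      · rw [c2 w c]
        exact h.kind w hw
  refine absurd (hmax β' hb) (not_le.2 (ncard_lt_ncard ((ssubset_iff_of_subset
    (iUnion₂_mono fun w _ => c3 w)).2 ⟨b, mem_biUnion hu (Or.inr ⟨rfl, rfl⟩), b2⟩) (toFinite _)))

theorem ring_conn (h : Blobs G S D s σ τ len β) (hC : ∀ l ≤ s, D l ⊆ S ∧ Conn G (D l))
    (hD : ∀ l ≤ s, ∀ l' ≤ s, l ≠ l' → Disjoint (D l) (D l')) {m : ℕ} (hm : m ≤ s) {v : Vx k}
    (hv : v ∈ Vs len) (h1 : β v ⊆ D m) (hc : D m ⊆ ⋃ v ∈ Vs len, β v) :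
    Conn (bg G D s len β) {u | u ∈ Vs len ∧ β u ⊆ D m} := by
  have k0 : ∀ x, ∃ u, x ∈ D m → u ∈ Vs len ∧ x ∈ β u := fun x => by
    by_cases c : x ∈ D m
    · obtain ⟨u, hu, a⟩ := mem_iUnion₂.1 (hc c)
      exact ⟨u, fun _ => ⟨hu, a⟩⟩
    · exact ⟨v, fun d => absurd d c⟩
  choose φ hφ using k0
  have k1 : ∀ u ∈ Vs len, ∀ x ∈ β u, x ∈ D m → φ x = u := fun u hu x hx c =>
    not_not.1 fun d => disjoint_left.1 (h.dis _ (hφ x c).1 u hu d) (hφ x c).2 hx
  have k2 : ∀ x ∈ D m, φ x ∈ {u | u ∈ Vs len ∧ β u ⊆ D m} := fun x c =>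
    ⟨(hφ x c).1, in_ring h hD hm (hφ x c).1 (hφ x c).2 c⟩
  refine ⟨⟨v, hv, h1⟩, fun u hu w hw => ?_⟩
  obtain ⟨x, hx⟩ := (h.conn u hu.1).2.1
  obtain ⟨y, hy⟩ := (h.conn w hw.1).2.1
  rw [← k1 u hu.1 x hx (hu.2 hx), ← k1 w hw.1 y hy (hw.2 hy)]
  refine Link.map φ (fun a ha b hb e => ?_) ((hC m hm).2.2 x (hu.2 hx) y (hw.2 hy))
  by_cases c : φ a = φ b
  · rw [c]
    exact Link.refl _ _ _
  · exact Link.single (k2 a ha) (k2 b hb) ⟨c, (k2 a ha).1, (k2 b hb).1, Or.inr ⟨m, hm, (k2 a ha).2,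
      (k2 b hb).2, a, (hφ a ha).2, b, (hφ b hb).2, e⟩⟩

end Blob

theorem blobS (h : UltS) : BlobS := by
  intro k
  obtain ⟨n, T, h⟩ := h k
  refine ⟨n + 1, T, fun V _ G S D s σ τ Q hC hD hQ => ?_⟩
  obtain ⟨len, ⟨β0, h0⟩, hmin⟩ := Blob.exists_min (fun len => ∃ β, Blobs G S D s σ τ len β)
    (fun len => (Vs len).ncard) (Blob.start hQ)
  obtain ⟨β, hβ, hmax⟩ := Blob.exists_min (fun β => Blobs G S D s σ τ len β)
    (fun β => Nat.card V - (⋃ v ∈ Vs len, β v).ncard) ⟨β0, h0⟩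
  have hmax' : ∀ β', Blobs G S D s σ τ len β' →
      (⋃ v ∈ Vs len, β' v).ncard ≤ (⋃ v ∈ Vs len, β v).ncard := fun β' hb => by
    have a1 := hmax β' hb
    have a2 : (⋃ v ∈ Vs len, β' v).ncard ≤ Nat.card V :=
      ncard_univ V ▸ ncard_le_ncard (subset_univ _) (toFinite _)
    omega
  refine ⟨len, β, hβ, fun I a hI ha hb => ?_⟩
  have sub : ∀ b < n + 1, (I b).set ⊆ Vs len := fun b hb v hv => by
    have := (hI.1 b hb).2
    rw [← hv.1] at this
    exact hv.2.2.trans this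
  refine h len (Blob.bg G D s len β) I (fun j => {u | u ∈ Vs len ∧ β u ⊆ D (a + 1 + j)})
    (Blob.vital hβ fun len' β' c => hmin len' ⟨β', c⟩)
    ⟨⟨fun b c => hI.1 b (by omega), fun b c b' c' => hI.2 b (by omega) b' (by omega)⟩,
      fun j hj => ⟨fun u hu => hu.1, ?_, fun b c => ?_⟩, fun i hi j hj e => ?_⟩
  · obtain ⟨v, v1, v2⟩ := hb 0 (by omega) (a + 1 + j) (by omega) (by omega)
    have v3 := sub 0 (by omega) v1
    exact Blob.ring_conn hβ hC hD (by omega) v3 v2 (Blob.covered hβ hC hD hmax' (by omega) v3 v2)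
  · obtain ⟨v, v1, v2⟩ := hb b (by omega) (a + 1 + j) (by omega) (by omega)
    exact ⟨v, ⟨sub b (by omega) v1, v2⟩, v1⟩
  · rw [disjoint_left]
    intro u hu hu'
    obtain ⟨x, hx⟩ := (hβ.conn u hu.1).2.1
    exact disjoint_left.1 (hD _ (by omega) _ (by omega) (by omega)) (hu.2 hx) (hu'.2 hx)

end Pool.Agent.MP_9d78a0_co.fb

end MrgPart0

-- ======== part 1: formerly Pool.Agent.MP_9d78a0_co.fb.River
section MrgPart1

/-! Row RIVER: a range of levels that is crossed by rivers only. -/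

set_option autoImplicit false

namespace Pool.Agent.MP_9d78a0_co.fb

open Set Function

namespace River

/-- a shortest stretch from `P` to `Q` -/
lemma short (P Q : ℕ → Prop) {i j : ℕ} (hij : i ≤ j) (hP : P i) (hQ : Q j) :
    ∃ lo hi, i ≤ lo ∧ lo ≤ hi ∧ hi ≤ j ∧ P lo ∧ Q hi ∧ (∀ x, lo < x → x ≤ hi → ¬ P x) ∧
      ∀ x, lo ≤ x → x < hi → ¬ Q x := by
  classical
  have ex : ∃ n, ∃ lo, i ≤ lo ∧ lo + n ≤ j ∧ P lo ∧ Q (lo + n) :=
    ⟨j - i, i, le_rfl, by omega, hP, by rwa [Nat.add_sub_cancel' hij]⟩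
  obtain ⟨lo, h1, h2, h3, h4⟩ := Nat.find_spec ex
  refine ⟨lo, lo + Nat.find ex, h1, by omega, h2, h3, h4, fun x a b c => ?_, fun x a b c => ?_⟩
  · exact Nat.find_min ex (m := lo + Nat.find ex - x) (by omega)
      ⟨x, by omega, by omega, c, by rwa [Nat.add_sub_cancel' b]⟩
  · exact Nat.find_min ex (m := x - lo) (by omega)
      ⟨lo, h1, by omega, h3, by rwa [Nat.add_sub_cancel' a]⟩

variable {k : ℕ} {len : Fin k → ℕ} {lam : Vx k → ℕ} {s : ℕ}

/-- the interval crosses the levels from `a` to `b` -/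
def Cross (lam : Vx k → ℕ) (a b : ℕ) (I : Iv k) : Prop :=
  (∀ x, I.lo ≤ x → x ≤ I.hi → a ≤ lam (I.p, x) ∧ lam (I.p, x) ≤ b) ∧
    ((lam (I.p, I.lo) = a ∧ lam (I.p, I.hi) = b) ∨ (lam (I.p, I.lo) = b ∧ lam (I.p, I.hi) = a))

/-- levels change by at most one along the paths -/
def Step (len : Fin k → ℕ) (lam : Vx k → ℕ) (s : ℕ) : Prop :=
  ∀ p i, i < len p →
    (0 < lam (p, i) ∧ lam (p, i) < s) ∨ (0 < lam (p, i + 1) ∧ lam (p, i + 1) < s) →
      lam (p, i) ≤ lam (p, i + 1) + 1 ∧ lam (p, i + 1) ≤ lam (p, i) + 1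

lemma cross (hS : Step len lam s) {p : Fin k} {i j a b : ℕ} (hij : i ≤ j) (hj : j ≤ len p)
    (hab : a ≤ b) (hin : ∀ x, i ≤ x → x < j → 0 < lam (p, x) ∧ lam (p, x) < s)
    (h : (lam (p, i) ≤ a ∧ b ≤ lam (p, j)) ∨ (b ≤ lam (p, i) ∧ lam (p, j) ≤ a)) :
    ∃ lo hi, i ≤ lo ∧ lo ≤ hi ∧ hi ≤ j ∧ Cross lam a b ⟨p, lo, hi⟩ := by
  have st : ∀ x, i ≤ x → x < j →
      lam (p, x) ≤ lam (p, x + 1) + 1 ∧ lam (p, x + 1) ≤ lam (p, x) + 1 := fun x h1 h2 =>
    hS p x (by omega) (Or.inl (hin x h1 h2))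
  rcases h with ⟨h1, h2⟩ | ⟨h1, h2⟩
  · obtain ⟨lo, hi, a1, a2, a3, a4, a5, a6, a7⟩ :=
      short (fun x => lam (p, x) ≤ a) (fun x => b ≤ lam (p, x)) hij h1 h2
    have e : lam (p, lo) = a ∧ lam (p, hi) = b := by
      rcases a2.eq_or_lt with rfl | c
      · omega
      · obtain ⟨y, rfl⟩ : ∃ y, hi = y + 1 := ⟨hi - 1, by omega⟩
        have := a6 (lo + 1) (by omega) (by omega)
        have := a7 y (by omega) (by omega)
        have := st lo a1 (by omega)
        have := st y (by omega) (by omega)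
        omega
    refine ⟨lo, hi, a1, a2, a3, fun x x1 x2 => ?_, Or.inl e⟩
    simp only at x1 x2 ⊢
    constructor
    · rcases x1.eq_or_lt with rfl | c
      · omega
      · have := a6 x c x2
        omega
    · rcases x2.eq_or_lt with rfl | c
      · omega
      · have := a7 x x1 c
        omega
  · obtain ⟨lo, hi, a1, a2, a3, a4, a5, a6, a7⟩ :=
      short (fun x => b ≤ lam (p, x)) (fun x => lam (p, x) ≤ a) hij h1 h2
    have e : lam (p, lo) = b ∧ lam (p, hi) = a := by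
      rcases a2.eq_or_lt with rfl | c
      · omega
      · obtain ⟨y, rfl⟩ : ∃ y, hi = y + 1 := ⟨hi - 1, by omega⟩
        have := a6 (lo + 1) (by omega) (by omega)
        have := a7 y (by omega) (by omega)
        have := st lo a1 (by omega)
        have := st y (by omega) (by omega)
        omega
    refine ⟨lo, hi, a1, a2, a3, fun x x1 x2 => ?_, Or.inr e⟩
    simp only at x1 x2 ⊢
    constructor
    · rcases x2.eq_or_lt with rfl | c
      · omega
      · have := a7 x x1 c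
        omega
    · rcases x1.eq_or_lt with rfl | c
      · omega
      · have := a6 x c x2
        omega

/-- `r` disjoint crossings -/
def Crs (len : Fin k → ℕ) (lam : Vx k → ℕ) (r a b : ℕ) (I : ℕ → Iv k) : Prop :=
  Ivs len I r ∧ ∀ c < r, Cross lam a b (I c)

/-- a crossing of a smaller range inside a crossing -/
lemma sub1 (hS : Step len lam s) {a b a' b' : ℕ} {I : Iv k} (h0 : 0 < a) (hs : b < s)
    (h1 : a ≤ a') (h2 : a' ≤ b') (h3 : b' ≤ b) (hv : I.lo ≤ I.hi ∧ I.hi ≤ len I.p)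
    (hc : Cross lam a b I) :
    ∃ J : Iv k, J.p = I.p ∧ I.lo ≤ J.lo ∧ J.lo ≤ J.hi ∧ J.hi ≤ I.hi ∧ Cross lam a' b' J := by
  obtain ⟨lo, hi, c1, c2, c3, c4⟩ := cross hS (a := a') (b := b') hv.1 hv.2 h2
    (fun x x1 x2 => by have := hc.1 x x1 x2.le; omega) (by have := hc.2; omega)
  exact ⟨⟨I.p, lo, hi⟩, rfl, c1, c2, c3, c4⟩

lemma sub (hS : Step len lam s) {r a b a' b' : ℕ} {I : ℕ → Iv k} (h0 : 0 < a) (hs : b < s)
    (h1 : a ≤ a') (h2 : a' ≤ b') (h3 : b' ≤ b) (h : Crs len lam r a b I) :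
    ∃ J, Crs len lam r a' b' J ∧ ∀ c < r, (J c).set ⊆ (I c).set := by
  have : ∀ c, ∃ J : Iv k, c < r → J.p = (I c).p ∧ (I c).lo ≤ J.lo ∧ J.lo ≤ J.hi ∧
      J.hi ≤ (I c).hi ∧ Cross lam a' b' J := fun c => by
    by_cases hc : c < r
    · obtain ⟨J, hJ⟩ := sub1 hS h0 hs h1 h2 h3 (h.1.1 c hc) (h.2 c hc)
      exact ⟨J, fun _ => hJ⟩
    · exact ⟨I c, fun c' => (hc c').elim⟩
  choose J hJ using this
  have hs : ∀ c < r, (J c).set ⊆ (I c).set := fun c hc v hv => by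
    obtain ⟨a1, a2, a3, a4, -⟩ := hJ c hc
    exact ⟨hv.1.trans a1, a2.trans hv.2.1, hv.2.2.trans a4⟩
  refine ⟨J, ⟨⟨fun c hc => ?_, fun c hc c' hc' e => (h.1.2 c hc c' hc' e).mono (hs c hc) (hs c' hc')⟩,
    fun c hc => (hJ c hc).2.2.2.2⟩, hs⟩
  obtain ⟨a1, a2, a3, a4, -⟩ := hJ c hc
  exact ⟨a3, by rw [a1]; exact a4.trans (h.1.1 c hc).2⟩

/-- one more crossing -/
lemma push {r a b : ℕ} {I : ℕ → Iv k} {K : Iv k} (h : Crs len lam r a b I)
    (hv : K.lo ≤ K.hi ∧ K.hi ≤ len K.p) (hc : Cross lam a b K)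
    (hd : ∀ c < r, Disjoint (I c).set K.set) :
    Crs len lam (r + 1) a b fun c => if c < r then I c else K := by
  refine ⟨⟨fun c hc => ?_, fun c hc c' hc' e => ?_⟩, fun c hc => ?_⟩
  · by_cases e : c < r <;> simp only [e, if_true, if_false]
    exacts [h.1.1 c e, hv]
  · by_cases e1 : c < r <;> by_cases e2 : c' < r <;> simp only [e1, e2, if_true, if_false]
    exacts [h.1.2 c e1 c' e2 e, hd c e1, (hd c' e2).symm, by omega]
  · by_cases e : c < r <;> simp only [e, if_true, if_false]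
    exacts [h.2 c e, ‹Cross lam a b K›]

/-- two crossings inside one member of the family -/
lemma split {r a b a0 b0 c0 : ℕ} {I J : ℕ → Iv k} {K K' : Iv k} (hI : Crs len lam r a0 b0 I)
    (h : Crs len lam r a b J) (hs : ∀ c < r, (J c).set ⊆ (I c).set) (h0 : c0 < r)
    (hv : K.lo ≤ K.hi ∧ K.hi ≤ len K.p) (hc : Cross lam a b K) (hK : K.set ⊆ (I c0).set)
    (hv' : K'.lo ≤ K'.hi ∧ K'.hi ≤ len K'.p) (hc' : Cross lam a b K') (hK' : K'.set ⊆ (I c0).set)
    (hd : Disjoint K.set K'.set) : ∃ L, Crs len lam (r + 1) a b L := by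
  have hL : Crs len lam r a b fun c => if c = c0 then K else J c := by
    refine ⟨⟨fun c hc => ?_, fun c hc c' hc' e => ?_⟩, fun c hc => ?_⟩
    · by_cases e : c = c0 <;> simp only [e, if_true, if_false]
      exacts [hv, h.1.1 c hc]
    · by_cases e1 : c = c0 <;> by_cases e2 : c' = c0 <;> simp only [e1, e2, if_true, if_false]
      exacts [by omega, (hI.1.2 c0 h0 c' hc' (Ne.symm e2)).mono hK (hs c' hc'),
        (hI.1.2 c hc c0 h0 e1).mono (hs c hc) hK, h.1.2 c hc c' hc' e]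
    · by_cases e : c = c0 <;> simp only [e, if_true, if_false]
      exacts [‹Cross lam a b K›, h.2 c hc]
  refine ⟨_, push hL hv' hc' fun c hc => ?_⟩
  by_cases e : c = c0 <;> simp only [e, if_true, if_false]
  exacts [hd, (hI.1.2 c hc c0 h0 e).mono (hs c hc) hK']

lemma only (hS : Step len lam s) (hE : ∀ p, lam (p, len p) = 0 ∨ lam (p, len p) = s)
    {r a b c g c' : ℕ} {I : ℕ → Iv k} (h0 : 0 < a) (hs : b < s) (h1 : a < c) (h2 : c' + g < b)
    (h3 : c + g < c') (h : Crs len lam r a b I) (n1 : ∀ L, ¬ Crs len lam (r + 1) c (c + g) L)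
    (n2 : ∀ L, ¬ Crs len lam (r + 1) c' (c' + g) L) {v : Vx k} (hv : v ∈ Vs len)
    (l1 : c + g < lam v) (l2 : lam v < c') : ∃ x < r, v ∈ (I x).set := by
  obtain ⟨p, i⟩ := v
  by_contra hn
  push Not at hn
  have hi : i ≤ len p := hv
  obtain ⟨lo, j, a1, a2, a3, a4, a5, -, a7⟩ := short (fun x => x = i)
    (fun x => lam (p, x) ≤ c ∨ c' + g ≤ lam (p, x)) hi rfl (by have := hE p; omega)
  subst a4
  have hin : ∀ x, lo ≤ x → x < j → c < lam (p, x) ∧ lam (p, x) < c' + g := fun x x1 x2 => by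
    have := a7 x x1 x2
    omega
  have hj : a < lam (p, j) ∧ lam (p, j) < b := by
    rcases a2.eq_or_lt with rfl | e
    · omega
    · obtain ⟨y, rfl⟩ : ∃ y, j = y + 1 := ⟨j - 1, by omega⟩
      have := hin y (by omega) (by omega)
      have := hS p y (by omega) (Or.inl (by omega))
      omega
  have hd : ∀ x < r, ∀ y, lo ≤ y → y ≤ j → (p, y) ∉ (I x).set := fun x hx y y1 y2 hy => by
    obtain ⟨e, z1, z2⟩ := hy
    simp only at e z1 z2
    have hl : lo < (I x).lo := by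
      by_contra c
      exact hn x hx ⟨e, not_lt.1 c, y1.trans z2⟩
    have := (h.2 x hx).2
    rw [← e] at this
    rcases (z1.trans y2).eq_or_lt with e' | e'
    · rw [e'] at this
      omega
    · have := hin _ hl.le e'
      omega
  have key : ∀ e, a < e → e + g < b →
      ((lam (p, lo) ≤ e ∧ e + g ≤ lam (p, j)) ∨ (e + g ≤ lam (p, lo) ∧ lam (p, j) ≤ e)) →
      ∃ L, Crs len lam (r + 1) e (e + g) L := fun e e1 e2 e3 => by
    obtain ⟨J, hJ, hs'⟩ := sub hS (a' := e) (b' := e + g) h0 hs e1.le (by omega) e2.le h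
    obtain ⟨u, w, c1, c2, c3, c4⟩ := cross hS (a := e) (b := e + g) a2 a3 (by omega)
      (fun x x1 x2 => by have := hin x x1 x2; omega) e3
    refine ⟨_, push hJ (K := ⟨p, u, w⟩) ⟨c2, c3.trans a3⟩ c4 fun x hx => disjoint_left.2 ?_⟩
    rintro ⟨q, y⟩ hy ⟨e4, e5, e6⟩
    simp only at e4 e5 e6
    subst e4
    exact hd x hx y (by omega) (by omega) (hs' x hx hy)
  rcases a5 with a5 | a5
  · obtain ⟨L, hL⟩ := key c h1 (by omega) (Or.inr ⟨l1.le, a5⟩)
    exact n1 L hL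
  · obtain ⟨L, hL⟩ := key c' (by omega) h2 (Or.inl ⟨l2.le, a5⟩)
    exact n2 L hL

/-- a crossing does not zigzag over a range without further crossings -/
lemma zig (hS : Step len lam s) {r a b c g x : ℕ} {I : ℕ → Iv k} (h0 : 0 < a) (hs : b < s)
    (h1 : a < c) (h2 : c + g < b) (h : Crs len lam r a b I)
    (n1 : ∀ L, ¬ Crs len lam (r + 1) c (c + g) L) (hx : x < r) {i y j : ℕ} (i1 : (I x).lo ≤ i)
    (i2 : i ≤ y) (i3 : y ≤ j) (i4 : j ≤ (I x).hi) (l1 : lam ((I x).p, i) ≤ c)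
    (l2 : c + g < lam ((I x).p, y)) (l3 : lam ((I x).p, j) ≤ c) : False := by
  obtain ⟨J, hJ, hs'⟩ := sub hS (a' := c) (b' := c + g) h0 hs h1.le (by omega) h2.le h
  have hv := h.1.1 x hx
  have hin : ∀ z, (I x).lo ≤ z → z ≤ (I x).hi →
      0 < lam ((I x).p, z) ∧ lam ((I x).p, z) < s := fun z z1 z2 => by
    have := (h.2 x hx).1 z z1 z2
    omega
  obtain ⟨u, w, c1, c2, c3, c4⟩ := cross hS (p := (I x).p) (a := c) (b := c + g) i2 (by omega)
    (by omega) (fun z z1 z2 => hin z (by omega) (by omega)) (Or.inl ⟨l1, l2.le⟩)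
  obtain ⟨u', w', d1, d2, d3, d4⟩ := cross hS (p := (I x).p) (a := c) (b := c + g) i3 (by omega)
    (by omega) (fun z z1 z2 => hin z (by omega) (by omega)) (Or.inr ⟨l2.le, l3⟩)
  have e1 : w < y := by
    rcases c3.eq_or_lt with rfl | e
    · have := (c4.1 w c2 le_rfl).2
      simp only at this
      omega
    · exact e
  obtain ⟨L, hL⟩ := split (K := ⟨(I x).p, u, w⟩) (K' := ⟨(I x).p, u', w'⟩) h hJ hs' hx
    ⟨c2, by simp only; omega⟩ c4
    (fun v hv => ⟨hv.1, (i1.trans c1).trans hv.2.1, hv.2.2.trans (by simp only; omega)⟩)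
    ⟨d2, by simp only; omega⟩ d4
    (fun v hv => ⟨hv.1, le_trans (by simp only; omega) hv.2.1, hv.2.2.trans (d3.trans i4)⟩)
    (disjoint_left.2 fun v a1 a2 => by
      have b1 : v.2 ≤ w := a1.2.2
      have b2 : u' ≤ v.2 := a2.2.1
      omega)
  exact n1 L hL

lemma rivers (hS : Step len lam s) (hE : ∀ p, lam (p, len p) = 0 ∨ lam (p, len p) = s)
    {r a g m : ℕ} {I : ℕ → Iv k} (hm : 2 ≤ m) (h0 : 0 < a) (hs : a + (m * (g + 1) + 2) < s)
    (h : Crs len lam r a (a + (m * (g + 1) + 2)) I)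
    (hn : ∀ i < m, ∀ L, ¬ Crs len lam (r + 1) (a + 1 + i * (g + 1)) (a + 1 + i * (g + 1) + g) L) :
    Rivers len lam s g m (fun i => a + 1 + i * (g + 1)) r I
      fun x => decide (lam ((I x).p, (I x).lo) = a) := by
  have hb : ∀ i < m, a + 1 + i * (g + 1) + g < a + (m * (g + 1) + 2) := fun i hi => by
    have : (i + 1) * (g + 1) ≤ m * (g + 1) := Nat.mul_le_mul_right _ hi
    rw [Nat.succ_mul] at this
    omega
  have hl := hb (m - 1) (by omega)
  refine ⟨h.1, fun i _ => ?_, fun x hx v hv => ?_, ⟨by omega, by omega⟩, fun x hx => ?_,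
    fun x hx => ?_, fun v hv l1 l2 => ?_, fun x hx i hi u u' u1 u2 l1 => ?_⟩
  · rw [Nat.succ_mul]
    omega
  · obtain ⟨p, y⟩ := v
    obtain ⟨e, y1, y2⟩ := hv
    simp only at e y1 y2
    subst e
    have := (h.2 x hx).1 y y1 y2
    omega
  · have := (h.2 x hx).2
    by_cases e : lam ((I x).p, (I x).lo) = a <;>
      simp only [riv, e, decide_true, decide_false, if_true, Bool.false_eq_true, if_false,
        Nat.add_zero, Nat.sub_zero] <;> omega
  · have := (h.2 x hx).2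
    have hv := (h.1.1 x hx).1
    by_cases e : lam ((I x).p, (I x).lo) = a
    · simp only [riv, e, decide_true, if_true, Nat.add_sub_cancel' hv]
      omega
    · simp only [riv, e, decide_false, Bool.false_eq_true, if_false, Nat.sub_sub_self hv]
      omega
  · have e : 1 * (g + 1) ≤ (m - 1) * (g + 1) := Nat.mul_le_mul_right _ (by omega)
    exact only hS hE h0 hs (by omega) hl (by omega) h (hn 0 (by omega)) (hn (m - 1) (by omega)) hv
      l1 l2
  · have hc := (h.2 x hx).2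
    have hv := (h.1.1 x hx).1
    have hi' := hb i hi
    by_contra l2
    by_cases e : lam ((I x).p, (I x).lo) = a
    · simp only [riv, e, decide_true, if_true, not_lt] at l1 l2
      exact zig hS h0 hs (by omega) hi' h (hn i hi) hx (i := (I x).lo) (y := (I x).lo + u)
        (j := (I x).lo + u') le_rfl (by omega) (by omega) (by omega) (by omega) l1 l2
    · simp only [riv, e, decide_false, Bool.false_eq_true, if_false, not_lt] at l1 l2
      exact zig hS h0 hs (by omega) hi' h (hn i hi) hx (i := (I x).hi - u') (y := (I x).hi - u)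
        (j := (I x).hi) (by omega) (by omega) (by omega) le_rfl l2 l1 (by omega)

/-- the lengths of the ranges -/
def ff (g m : ℕ) : ℕ → ℕ
  | 0 => g
  | d + 1 => m * (ff g m d + 1) + 2

lemma le_ff {g m : ℕ} (hm : 2 ≤ m) (d : ℕ) : g ≤ ff g m d := by
  induction d with
  | zero => exact le_rfl
  | succ d ih =>
    have : 1 * (ff g m d + 1) ≤ m * (ff g m d + 1) := Nat.mul_le_mul_right _ (by omega)
    simp only [ff]
    omega

lemma main {n g m : ℕ} (hm : 2 ≤ m) (hS : Step len lam s)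
    (hE : ∀ p, lam (p, len p) = 0 ∨ lam (p, len p) = s)
    (hB : ∀ r a b I, n ≤ r → 0 < a → a + g ≤ b → b < s → ¬ Crs len lam r a b I) (d : ℕ) :
    ∀ r a I, n ≤ r + d → 0 < a → a + ff g m d < s → Crs len lam r a (a + ff g m d) I →
      ∃ g' c r I d, g ≤ g' ∧ r < n ∧ Rivers len lam s g' m c r I d := by
  induction d with
  | zero => exact fun r a I h1 h2 h3 h => (hB r a _ I h1 h2 le_rfl h3 h).elim
  | succ d ih =>
    intro r a I h1 h2 h3 h
    by_cases c : ∃ i < m, ∃ L, Crs len lam (r + 1) (a + 1 + i * (ff g m d + 1))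
      (a + 1 + i * (ff g m d + 1) + ff g m d) L
    · obtain ⟨i, hi, L, hL⟩ := c
      refine ih (r + 1) _ L (by omega) (by omega) ?_ hL
      have : (i + 1) * (ff g m d + 1) ≤ m * (ff g m d + 1) := Nat.mul_le_mul_right _ hi
      rw [Nat.succ_mul] at this
      simp only [ff] at h3
      omega
    · push Not at c
      refine ⟨_, _, r, I, _, le_ff hm d, ?_, rivers hS hE hm h2 h3 h c⟩
      by_contra hr
      exact hB r a _ I (by omega) h2 (Nat.add_le_add_left (le_ff hm _) a) h3 h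

/-- the statement for a positive number of paths -/
theorem pos (k n T g m : ℕ) (hk : 0 < k) (hT : T ≤ g) (hm : 2 ≤ m) :
    ∃ s0, ∀ (len : Fin k → ℕ) (lam : Vx k → ℕ) (s : ℕ), s0 ≤ s →
    (∀ p, (lam (p, 0) = 0 ∨ lam (p, 0) = s) ∧ (lam (p, len p) = 0 ∨ lam (p, len p) = s)) →
    (∀ v ∈ Vs len, lam v ≤ s) →
    (∀ p i, i < len p → (0 < lam (p, i) ∧ lam (p, i) < s) ∨ (0 < lam (p, i + 1) ∧ lam (p, i + 1) < s) →
      lam (p, i) ≤ lam (p, i + 1) + 1 ∧ lam (p, i + 1) ≤ lam (p, i) + 1) →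
    (∀ (I : ℕ → Iv k) (a : ℕ), Ivs len I n → 0 < a → a + T < s →
      (∀ b < n, (∀ v ∈ (I b).set, a ≤ lam v ∧ lam v ≤ a + T) ∧ (∃ v ∈ (I b).set, lam v = a) ∧
        ∃ v ∈ (I b).set, lam v = a + T) → False) →
    ∃ g' c r I d, g ≤ g' ∧ r < n ∧ Rivers len lam s g' m c r I d := by
  refine ⟨ff g m n + 2, fun len lam s hs hE _ hS hB => ?_⟩
  refine main hm hS (fun p => (hE p).2) (fun r a b I h1 h2 h3 h4 h => ?_) n 0 1
    (fun _ => ⟨⟨0, hk⟩, 0, 0⟩) (by omega) Nat.one_pos (by omega)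
    ⟨⟨fun a ha => by omega, fun a ha => by omega⟩, fun a ha => by omega⟩
  obtain ⟨J, hJ, -⟩ := sub hS (a' := a) (b' := a + T) h2 h4 le_rfl (by omega) (by omega) h
  refine hB J a ⟨fun c hc => hJ.1.1 c (by omega), fun c hc c' hc' =>
    hJ.1.2 c (by omega) c' (by omega)⟩ h2 (by omega) fun c hc => ?_
  have hv := (hJ.1.1 c (by omega)).1
  obtain ⟨c1, c2⟩ := hJ.2 c (by omega)
  have m1 : ((J c).p, (J c).lo) ∈ (J c).set := ⟨rfl, le_rfl, hv⟩
  have m2 : ((J c).p, (J c).hi) ∈ (J c).set := ⟨rfl, hv, le_rfl⟩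
  refine ⟨?_, ?_, ?_⟩
  · rintro ⟨p, y⟩ ⟨e, y1, y2⟩
    simp only at e y1 y2
    subst e
    exact c1 y y1 y2
  · rcases c2 with c2 | c2
    exacts [⟨_, m1, c2.1⟩, ⟨_, m2, c2.2⟩]
  · rcases c2 with c2 | c2
    exacts [⟨_, m2, c2.2⟩, ⟨_, m1, c2.1⟩]

end River

theorem riverS : RiverS := River.pos

end Pool.Agent.MP_9d78a0_co.fb

end MrgPart1

-- ======== part 2: formerly Pool.Agent.MP_9d78a0_co.fb.Comb
section MrgPart2

/-! Combing a linkage through a band: blobs, rivers, one stage. -/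

set_option autoImplicit false

namespace Pool.Agent.MP_9d78a0_co.fb

open Set Function

namespace Comb

theorem flip (P : ℕ → Prop) {i j : ℕ} (h : i ≤ j) (c : ¬ (P i ↔ P j)) :
    ∃ x, i ≤ x ∧ x < j ∧ ¬ (P x ↔ P (x + 1)) := by
  induction j, h using Nat.le_induction with
  | base => exact absurd Iff.rfl c
  | succ j hj ih =>
    by_cases e : P j ↔ P (j + 1)
    · obtain ⟨x, h1, h2, h3⟩ := ih fun d => c (d.trans e)
      exact ⟨x, h1, by omega, h3⟩
    · exact ⟨j, hj, by omega, e⟩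

variable {V : Type} {G : SimpleGraph V} {A W S : Set V} {lev : V → ℕ} {D : ℕ → Set V}
  {ρ : ℕ → ℕ → Set V} {s t k : ℕ} {σ τ : Fin k → V} {len : Fin k → ℕ} {β : Vx k → Set V}
  {lam : Vx k → ℕ}

theorem level (hL : LBand G A W lev D ρ s t) (hB : Blobs G S D s σ τ len β) :
    ∃ lam : Vx k → ℕ, ∀ v ∈ Vs len, ∀ x ∈ β v, (x ∈ W → lev x = lam v) ∧ (x ∉ W → lam v = 0) := by
  classical
  refine ⟨fun v => if h : ∃ x ∈ β v, x ∈ W then lev h.choose else 0, fun v hv x hx => ?_⟩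
  rcases hB.kind v hv with ⟨l, hl, h⟩ | ⟨y, h, -⟩
  · have a := (hL.ring l hl).2 x (h hx)
    have e : ∃ x ∈ β v, x ∈ W := ⟨x, hx, a.1⟩
    refine ⟨fun _ => ?_, fun c => absurd a.1 c⟩
    simp only [dif_pos e]
    rw [a.2, ((hL.ring l hl).2 _ (h e.choose_spec.1)).2]
  · have u : ∀ z ∈ β v, z = x := fun z hz => by
      rw [h] at hz hx
      exact hz.trans (Eq.symm hx)
    refine ⟨fun c => ?_, fun c => ?_⟩
    · have e : ∃ x ∈ β v, x ∈ W := ⟨x, hx, c⟩
      simp only [dif_pos e]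
      rw [u _ e.choose_spec.1]
    · have e : ¬ ∃ x ∈ β v, x ∈ W := fun ⟨z, h1, h2⟩ => c (u z h1 ▸ h2)
      simp only [dif_neg e]

theorem step (hL : LBand G A W lev D ρ s t) (hA : Disjoint S A) (hB : Blobs G S D s σ τ len β)
    (hl : ∀ v ∈ Vs len, ∀ x ∈ β v, (x ∈ W → lev x = lam v) ∧ (x ∉ W → lam v = 0))
    {u v : Vx k} (hu : u ∈ Vs len) (hv : v ∈ Vs len) (h : Touch G (β u) (β v)) (h0 : 0 < lam u)
    (hs : lam u < s) : lam u ≤ lam v + 1 ∧ lam v ≤ lam u + 1 ∧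
      (lam v = lam u + 1 → β v ⊆ D (lam v)) := by
  obtain ⟨x, hx, y, hy, e⟩ := h
  have xW : x ∈ W := by_contra fun c => by have := (hl u hu x hx).2 c; omega
  have ex := (hl u hu x hx).1 xW
  rcases hL.nbr x xW (by omega) (by omega) y e with c | ⟨yW, c1, c2⟩
  · exact absurd c (disjoint_left.1 hA ((hB.conn v hv).1 hy))
  have ey := (hl v hv y hy).1 yW
  refine ⟨by omega, by omega, fun c => ?_⟩
  have d := hL.up x xW y yW e (by omega)
  rcases hB.kind v hv with ⟨l, h1, h2⟩ | ⟨z, h1, h2⟩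
  · rwa [← ey, ((hL.ring l h1).2 y (h2 hy)).2]
  · rw [h1] at hy
    exact absurd (hy ▸ d) (h2 _ (hL.le y yW))

end Comb

theorem combS (h1 : BlobS) (h2 : RiverS) (h3 : StageS) : CombS := by
  intro k
  rcases Nat.eq_zero_or_pos k with rfl | hk
  · exact ⟨2, 0, fun V _ G A W S lev D ρ s t σ τ Q hs _ _ _ _ _ hQ =>
      ⟨1, Q, Nat.one_pos, hs, hQ, fun p => p.elim0⟩⟩
  obtain ⟨n, T, hb⟩ := h1 k
  obtain ⟨g0, m, hm, hst⟩ := h3 k n
  obtain ⟨s0, hr⟩ := h2 k n T (max T g0) m hk (le_max_left _ _) hm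
  refine ⟨s0, n, fun V _ G A W S lev D ρ s t σ τ Q hs ht hL hW hA he hQ => ?_⟩
  obtain ⟨len, β, hB, hno⟩ := hb V G S D s σ τ Q
    (fun l hl => ⟨fun v hv => hW ((hL.ring l hl).2 v hv).1, (hL.ring l hl).1⟩)
    (fun l hl l' hl' c => disjoint_left.2 fun v a b =>
      c (((hL.ring l hl).2 v a).2.symm.trans ((hL.ring l' hl').2 v b).2)) hQ
  obtain ⟨lam, hl⟩ := Comb.level hL hB
  obtain ⟨g', c, r, I, d, hg, hrn, hR⟩ := hr len lam s hs
    (fun p => ⟨Or.inl ((hl (p, 0) (Nat.zero_le _) _ (hB.ends p).1).2 (he p).1),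
      Or.inl ((hl (p, len p) (le_refl (len p)) _ (hB.ends p).2).2 (he p).2)⟩)
    (fun v hv => by
      obtain ⟨x, hx⟩ := (hB.conn v hv).2.1
      by_cases c : x ∈ W
      · rw [← (hl v hv x hx).1 c]
        exact hL.le x c
      · rw [(hl v hv x hx).2 c]
        exact Nat.zero_le _)
    (fun p i hi c => by
      have a : (p, i) ∈ Vs len := hi.le
      have b : (p, i + 1) ∈ Vs len := hi
      rcases c with c | c
      · have := Comb.step hL hA hB hl a b (hB.touch p i hi) c.1 c.2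
        omega
      · have := Comb.step hL hA hB hl b a (hB.touch p i hi).symm c.1 c.2
        omega)
    (fun I a hI h0 hT h => hno I a hI hT.le fun b hb l l1 l2 => by
      obtain ⟨hin, ⟨⟨_, u⟩, ⟨rfl, u1, u2⟩, eu⟩, ⟨_, w⟩, ⟨rfl, w1, w2⟩, ew⟩ := h b hb
      have hi := (hI.1 b hb).2
      have key : ∃ x, (I b).lo ≤ x ∧ x < (I b).hi ∧
          ¬ (l ≤ lam ((I b).p, x) ↔ l ≤ lam ((I b).p, x + 1)) := by
        have eu' : lam ((I b).p, u) = a := eu
        have ew' : lam ((I b).p, w) = a + T := ew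
        simp only at u1 u2 w1 w2
        rcases le_total u w with o | o
        · obtain ⟨x, x1, x2, x3⟩ := Comb.flip (fun x => l ≤ lam ((I b).p, x)) o (by omega)
          exact ⟨x, by omega, by omega, x3⟩
        · obtain ⟨x, x1, x2, x3⟩ := Comb.flip (fun x => l ≤ lam ((I b).p, x)) o (by omega)
          exact ⟨x, by omega, by omega, x3⟩
      obtain ⟨x, x1, x2, x3⟩ := key
      have m1 : ((I b).p, x) ∈ (I b).set := ⟨rfl, x1, x2.le⟩
      have m2 : ((I b).p, x + 1) ∈ (I b).set := ⟨rfl, Nat.le_succ_of_le x1, x2⟩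
      have v1 : ((I b).p, x) ∈ Vs len := x2.le.trans hi
      have v2 : ((I b).p, x + 1) ∈ Vs len := le_trans x2 hi
      have r1 := hin _ m1
      have r2 := hin _ m2
      have tc := hB.touch (I b).p x (lt_of_lt_of_le x2 hi)
      have s1 := Comb.step hL hA hB hl v1 v2 tc (by omega) (by omega)
      have s2 := Comb.step hL hA hB hl v2 v1 tc.symm (by omega) (by omega)
      by_cases o : l ≤ lam ((I b).p, x)
      · have e : lam ((I b).p, x) = l := by omega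
        exact ⟨_, m1, e ▸ s2.2.2 (by omega)⟩
      · have e : lam ((I b).p, x + 1) = l := by omega
        exact ⟨_, m2, e ▸ s1.2.2 (by omega)⟩)
  exact hst g' ((le_max_right _ _).trans hg) V G A W S lev D ρ s t σ τ len β lam c r I d ht hrn hL
    hW hA hB hl hR

end Pool.Agent.MP_9d78a0_co.fb

end MrgPart2

-- ======== part 3: formerly Pool.Agent.MP_9d78a0_co.fb.Dich
section MrgPart3

/-! The shrinking process and the two limits. -/

set_option autoImplicit false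

namespace Pool.Agent.MP_9d78a0_co.fb

open Set Function Filter Topology

namespace Dich

variable {V U : Type} {G : SimpleGraph V}

theorem card_sUnion (P : Finset (Set V)) {K : ℕ} (h : ∀ p ∈ P, p.ncard ≤ K) :
    (⋃₀ (P : Set (Set V))).ncard ≤ P.card * K := by
  classical
  induction P using Finset.induction_on with
  | empty => simp
  | insert p P hp ih =>
    rw [Finset.coe_insert, sUnion_insert, Finset.card_insert_of_notMem hp, add_one_mul]
    have a := ih fun q hq => h q (Finset.mem_insert_of_mem hq)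
    have b := h p (Finset.mem_insert_self _ _)
    have c := ncard_union_le p (⋃₀ (P : Set (Set V)))
    omega

/-- A model of a connected graph in a union of untouching sets lies in one of them. -/
theorem model_piece {Γ : SimpleGraph U} [Nontrivial U] (hc : Γ.Connected) {Q : Set (Set V)}
    (h : ∀ p ∈ Q, ∀ p' ∈ Q, p ≠ p' → Disjoint p p' ∧ ¬ Touch G p p')
    (m : IsMinor Γ (within G (⋃₀ Q))) : ∃ p ∈ Q, ∃ B, Model Γ G p B := by
  have key : ∀ a b, (within G (⋃₀ Q)).Adj a b → {p | p ∈ Q ∧ a ∈ p} ⊆ {p | p ∈ Q ∧ b ∈ p} := by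
    rintro a b ⟨-, ⟨q, hq, hb⟩, e⟩ p ⟨hp, ha⟩
    by_cases c : p = q
    exacts [⟨hp, c ▸ hb⟩, absurd ⟨a, ha, b, hb, e⟩ (h p hp q hq c).2]
  obtain ⟨i, B, hB⟩ := exists_model_part hc (fun v => {p | p ∈ Q ∧ v ∈ p})
    (fun a b e => subset_antisymm (key a b e) (key b a e.symm)) m
  have h2 := model_supp (S' := ⋃₀ Q) hc hB fun _ _ e => e.1
  obtain ⟨w⟩ := hc.nonempty
  obtain ⟨x, hx⟩ := (hB.2.1 w).1
  obtain ⟨p, hp, hxp⟩ := h2.1 w hx
  refine ⟨p, hp, B, model_mono hB (fun v hv => ?_) fun _ _ _ _ e => e.2.2⟩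
  have e1 : {p | p ∈ Q ∧ v ∈ p} = i := hv
  have e2 : {p | p ∈ Q ∧ x ∈ p} = i := hB.1 w hx
  exact ((e2.trans e1.symm).le ⟨hp, hxp⟩).2

end Dich

theorem dichS (hB : BlackS) (hR : RdivS) (hP : PlS) (hL : LeakS) (hD : RedS) (hE : DelS) :
    DichS := by
  classical
  intro F s hF hs
  obtain ⟨c, hc⟩ := exists_sparse s
  obtain ⟨a, q, K, U, _, _, Γ, g1, g2, g3, g4⟩ := hB s s c
  obtain ⟨b, hP⟩ := hP c K
  obtain ⟨β, hD⟩ := hD F s b hs
  obtain ⟨C1, hP⟩ := hP β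
  obtain ⟨K2, hR⟩ := hR s (2 * (C1 + 1))
  refine ⟨2 * (C1 + 1) * ((2 * a + 1) * K2 + 1), fun V _ G S R h hn => ?_⟩
  have kf := h.kf hF hs
  have sp := hc V G kf
  obtain ⟨P, p1, p2, p3⟩ := hR V G (S \ (R ∪ nbs G R)) kf
  set Wd := P.filter fun p => ∃ B, Model Γ G p B with hWd
  have w1 : ∀ p ∈ Wd, p ∈ P := fun p hp => (Finset.mem_filter.1 hp).1
  rcases le_or_gt ((2 * a + 1) * ((nbs G R).ncard + 1)) Wd.card with k | k
  · obtain ⟨p, hp, W, a1, a2, a3⟩ := hL c a q V G (Zone s G) (nbs G R) Wd g2 sp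
      (fun p hp => ⟨disjoint_left.2 fun x hx d => ((p1 p (w1 p hp)).1 hx).2 (Or.inr d), by
        obtain ⟨B, hB⟩ := (Finset.mem_filter.1 hp).2
        exact g4 V G p B kf hB⟩)
      (fun p hp p' hp' e => (p2 p (w1 p hp) p' (w1 p' hp') e).1) k
    refine hE F s V G S R W hs h (fun x hx => ?_) (disjoint_left.2 fun x hx hr => ?_) a2 a1
    · obtain ⟨m, b1, -, b2⟩ := a3 x hx
      rcases b2.cases_head with rfl | ⟨z, d, -⟩
      exacts [((p1 p (w1 p hp)).1 b1).1, h.supp _ _ d.2.2]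
    · obtain ⟨m, b1, -, b2⟩ := a3 x hx
      obtain ⟨u, v, -, c2, c3, c4, c5, -⟩ := link_exit (T := R) b2 hr
        fun d => ((p1 p (w1 p hp)).1 b1).2 (Or.inl d)
      exact disjoint_left.1 a2 c2 ⟨c4, u, c3, c5⟩
  · set X := ⋃₀ ((P \ Wd : Finset (Set V)) : Set (Set V)) with hX
    have x1 : X ⊆ S \ (R ∪ nbs G R) := by
      rintro x ⟨p, hp, hx⟩
      exact (p1 p (Finset.mem_sdiff.1 hp).1).1 hx
    have x2 : pl.HasDec K (within G X) := g3 V _ fun m => by
      obtain ⟨p, hp, hB⟩ := Dich.model_piece g1 (fun p hp p' hp' =>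
        p2 p (Finset.mem_sdiff.1 hp).1 p' (Finset.mem_sdiff.1 hp').1) m
      exact (Finset.mem_sdiff.1 hp).2 (Finset.mem_filter.2 ⟨(Finset.mem_sdiff.1 hp).1, hB⟩)
    have x3 : ((S \ R) \ X).ncard ≤ (nbs G R).ncard +
        ((S \ (R ∪ nbs G R)) \ ⋃₀ (P : Set (Set V))).ncard + Wd.card * K2 := by
      refine (ncard_le_ncard (t := (nbs G R ∪ (S \ (R ∪ nbs G R)) \ ⋃₀ (P : Set (Set V))) ∪
        ⋃₀ (Wd : Set (Set V))) fun x hx => ?_).trans ((ncard_union_le _ _).trans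
          (add_le_add (ncard_union_le _ _) (Dich.card_sUnion Wd fun p hp => (p1 p (w1 p hp)).2)))
      by_cases d : x ∈ nbs G R
      · exact Or.inl (Or.inl d)
      by_cases e : x ∈ ⋃₀ (P : Set (Set V))
      · obtain ⟨p, hp, hxp⟩ := e
        exact Or.inr ⟨p, not_not.1 fun f => hx.2 ⟨p, Finset.mem_sdiff.2 ⟨hp, f⟩, hxp⟩, hxp⟩
      · exact Or.inl (Or.inr ⟨⟨hx.1.1, fun f => f.elim hx.1.2 d⟩, e⟩)
    have x4 : (S \ R).ncard ≤ X.ncard + ((S \ R) \ X).ncard :=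
      (ncard_le_ncard fun x hx => by
        by_cases d : x ∈ X
        exacts [Or.inl d, Or.inr ⟨hx, d⟩]).trans (ncard_union_le _ _)
    have x5 : (S \ (R ∪ nbs G R)).ncard ≤ (S \ R).ncard :=
      ncard_le_ncard (sdiff_subset_sdiff_right subset_union_left)
    obtain ⟨Q, q1, q2, q3⟩ := hP V G X ((S \ R) \ X) sp x2 disjoint_sdiff_right
      (fun z ⟨z1, x, hx, e⟩ => ⟨⟨h.supp _ _ e.symm, fun d =>
        (x1 hx).2 (Or.inr ⟨fun f => (x1 hx).2 (Or.inl f), z, d, e.symm⟩)⟩, z1⟩) (by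
        by_contra hc
        rw [not_lt] at hc
        generalize ((S \ R) \ X).ncard = z at *
        generalize ((S \ (R ∪ nbs G R)) \ ⋃₀ (P : Set (Set V))).ncard = y at *
        generalize (nbs G R).ncard = t at *
        have y1 : 2 * (C1 + 1) * y ≤ (S \ R).ncard :=
          ((Nat.mul_le_mul_left _ (Nat.le_add_right _ _)).trans p3).trans x5
        have y2 : Wd.card * K2 ≤ (2 * a + 1) * (t + 1) * K2 := Nat.mul_le_mul_right _ k.le
        have y3 : (C1 + 1) * (z + 1) ≤ (C1 + 1) * (t + y + (2 * a + 1) * (t + 1) * K2 + 1) :=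
          Nat.mul_le_mul_left _ (by omega)
        nlinarith)
    exact hD V G S R Q h (fun x hx => (x1 (q1 hx)).1)
      (disjoint_left.2 fun x hx => (x1 (q1 hx)).2) q2 q3

theorem replS (hD : DichS) (hF : FinS) : ReplS := by
  intro F s hn hs
  obtain ⟨C, hC⟩ := hD F s hn hs
  obtain ⟨c, h, hc, hh⟩ := exists_bounds hn
  have key : ∀ (m : ℕ) (V : Type) [Finite V] (G : SimpleGraph V) (S R : Set V), S.ncard = m →
      Inv F G S R → ∃ n, R.ncard ≤ n ∧ n ≤ R.ncard + C * ((nbs G R).ncard + 1) ∧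
        2 * Mminus F n ≤ eAt G R + (c + 2 * h) * (C * ((nbs G R).ncard + 1)) := by
    intro m
    induction m using Nat.strong_induction_on with
    | _ m ih =>
    intro V _ G S R hm hi
    rcases le_or_gt (S \ R).ncard (C * ((nbs G R).ncard + 1)) with k | k
    · have := ncard_sdiff_add_ncard_of_subset hi.sub
      exact ⟨S.ncard, by omega, by omega, (hF F c h V G S R hc hh hi).trans
        (Nat.add_le_add_left (Nat.mul_le_mul_left _ k) _)⟩
    · obtain ⟨V', _, G', S', R', a1, a2, a3, a4, a5⟩ := hC V G S R hi k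
      obtain ⟨n, b1, b2, b3⟩ := ih _ (hm ▸ a2) V' G' S' R' rfl a1
      have c1 := Nat.mul_le_mul_left C (Nat.add_le_add_right a5 1)
      have c2 := Nat.mul_le_mul_left (c + 2 * h) c1
      exact ⟨n, by omega, by omega, by omega⟩
  refine ⟨C + (c + 2 * h) * C, fun V _ G R hG => ?_⟩
  obtain ⟨n, b1, b2, b3⟩ := key _ V G univ R rfl (inv_of_edgeMax hG R)
  rw [add_mul, mul_assoc]
  exact ⟨n, b1, by omega, by omega⟩

namespace Dich

variable {F : Family} {s : ℕ}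

theorem kf_of_free (hF : F.Nonempty) (hs : Bd F s) {V : Type} {G : SimpleGraph V}
    (h : EdgeMax F G) : KF s G := (inv_of_edgeMax h ∅).kf hF hs

theorem free_induce {c : ℕ} (hc : EdgeBound F c) {V : Type} [Finite V] {G : SimpleGraph V}
    (k : Free F G) (d : ℕ) (A : Set V) : dd (G.induce A) ≤ (c + d) * A.ncard :=
  (hc _ _ (k.of_inj Subtype.val Subtype.val_injective fun _ _ d => d)).trans
    (Nat.mul_le_mul_right _ (Nat.le_add_right _ _))

theorem minus (hR : RegS) (hP : ReplS) (hS : StepS) (hF : F.Nonempty) (hs : Bd F s)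
    (he : ∀ H ∈ F, H.2 ≠ ⊥) : ∃ a, Tendsto (fun n => (Mminus F n : ℝ) / n) atTop (𝓝 a) := by
  obtain ⟨c, h, hc, -⟩ := exists_bounds hF
  obtain ⟨C, hC⟩ := hS F s hF hs he
  obtain ⟨D, hD⟩ := hP F s hF hs
  have hC' : ∀ n r, Mminus F (n + r) ≤ Mminus F n + C * r := fun n r => by
    induction r with
    | zero => simp
    | succ r ih =>
      have := hC (n + r)
      rw [← add_assoc, Nat.mul_succ]
      omega
  refine tendsto_of_freq (c := c) (fun n => by positivity) (fun n => ?_) fun γ ε hγ hε hfr => ?_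
  · refine le_trans ?_ (Mplus_div_le he hc n)
    gcongr
    exact_mod_cast Mminus_le_Mplus he n
  obtain ⟨δ, d0, d1⟩ : ∃ δ : ℝ, 0 < δ ∧
      ((c + ⌈2 * γ⌉₊ : ℕ) + D + 2 * C * (1 + 2 * D)) * δ ≤ ε :=
    ⟨ε / ((c + ⌈2 * γ⌉₊ : ℕ) + D + 2 * C * (1 + 2 * D) + 1), by positivity, by
      rw [← mul_div_assoc, div_le_iff₀ (by positivity)]
      linarith⟩
  obtain ⟨N0, hr⟩ := hR s (c + ⌈2 * γ⌉₊) ε δ hε d0
  obtain ⟨N1, hN1⟩ := exists_nat_ge ((D + 2 * C * (D + 1)) / (2 * ε))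
  have big : ∀ᶠ M : ℕ in atTop, ∃ N : ℕ, N0 + N1 + 1 ≤ N ∧ N + D * (δ * N + 1) ≤ M ∧
      (M : ℝ) ≤ N + D * (δ * N + 1) + (D * δ + 1) := by
    have t : (0 : ℝ) < 1 + D * δ := by positivity
    filter_upwards [eventually_ge_atTop ⌈(N0 + N1 + 1 : ℕ) * (1 + D * δ) + D⌉₊] with M hM
    have m1 := Nat.ceil_le.1 hM
    have m2 : ((N0 + N1 + 1 : ℕ) : ℝ) ≤ (M - D) / (1 + D * δ) := by
      rw [le_div_iff₀ t]
      linarith
    have m3 := Nat.floor_le ((Nat.cast_nonneg _).trans m2)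
    have m4 := Nat.lt_floor_add_one ((M - D : ℝ) / (1 + D * δ))
    rw [le_div_iff₀ t] at m3
    rw [div_lt_iff₀ t] at m4
    exact ⟨_, Nat.le_floor m2, by linarith, by linarith⟩
  filter_upwards [big] with M ⟨N, n1, n2, n3⟩
  obtain ⟨n0, hr⟩ := hr N (by omega)
  obtain ⟨n, h1, h2⟩ := (hfr.and_eventually (eventually_ge_atTop (n0 + 1))).exists
  obtain ⟨G, hG, hd⟩ := exists_Mminus he n
  rw [div_le_iff₀ (by exact_mod_cast (by omega : 0 < n))] at h1
  obtain ⟨R, a1, a2, a3, a4⟩ := hr _ G 1 (2 * γ) (kf_of_free hF hs hG) (free_induce hc hG.1 _)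
    (Or.inl rfl) (by positivity) (by push_cast; linarith [Nat.le_ceil (2 * γ), c.cast_nonneg (α := ℝ)])
    (by rw [hd, Nat.card_fin]; push_cast; linarith) (by rw [Nat.card_fin]; omega)
  obtain ⟨m, m1, m2, m3⟩ := hD _ G R hG
  have e1 : (D : ℝ) * ((nbs G R).ncard + 1) ≤ D * (δ * N + 1) := by gcongr
  have e2 : (m : ℝ) ≤ R.ncard + D * ((nbs G R).ncard + 1) := by exact_mod_cast m2
  have e3 : (R.ncard : ℝ) ≤ N := by exact_mod_cast a3
  have e4 : (R.ncard : ℝ) ≤ m := by exact_mod_cast m1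
  obtain ⟨r, hr⟩ := Nat.exists_eq_add_of_le (show m ≤ M by exact_mod_cast (by linarith : (m : ℝ) ≤ M))
  have b1 := hC' m r
  rw [← hr] at b1
  have b2 : (Mminus F M : ℝ) ≤ Mminus F m + C * r := by exact_mod_cast b1
  have b3 : (2 * Mminus F m : ℝ) ≤ eAt G R + D * ((nbs G R).ncard + 1) := by exact_mod_cast m3
  have b4 : (M : ℝ) = m + r := by exact_mod_cast hr
  have n4 : (1 : ℝ) ≤ N := by exact_mod_cast (by omega : 1 ≤ N)
  have n5 : D * δ ≤ D * δ * N := le_mul_of_one_le_right (by positivity) n4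
  have b5 : (C : ℝ) * r ≤ C * (δ * N + 2 * (D * δ * N) + (D + 1)) := by gcongr; linarith
  have b6 := mul_le_mul_of_nonneg_right d1 (N.cast_nonneg (α := ℝ))
  have b7 : (N1 : ℝ) * (2 * ε) ≤ N * (2 * ε) := by gcongr; omega
  have b9 : (0 : ℝ) ≤ D * (δ * N + 1) := by positivity
  have b8 : (γ + 2 * ε) * N ≤ (γ + 2 * ε) * M :=
    mul_le_mul_of_nonneg_left (by linarith) (by positivity)
  rw [div_le_iff₀ (by positivity)] at hN1
  rw [div_le_iff₀ (by linarith)]
  linarith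

theorem plus (hR : RegS) (hF : F.Nonempty) (hs : Bd F s) (he : ∀ H ∈ F, H.2 ≠ ⊥) :
    ∃ a, Tendsto (fun n => (Mplus F n : ℝ) / n) atTop (𝓝 a) := by
  obtain ⟨c, h, hc, -⟩ := exists_bounds hF
  refine (tendsto_of_freq (u := fun n => c - (Mplus F n : ℝ) / n) (c := c)
    (fun n => sub_nonneg.2 (Mplus_div_le he hc n)) (fun n => sub_le_self _ (by positivity)) ?_).elim
    fun a ha => ⟨c - a, by simpa using ha.const_sub (c : ℝ)⟩
  intro γ ε hγ hε hfr
  have c0 := c.cast_nonneg (α := ℝ)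
  obtain ⟨δ, d0, d1⟩ : ∃ δ : ℝ, 0 < δ ∧ (6 * c) * δ ≤ ε :=
    ⟨ε / (6 * c + 1), by positivity, by
      rw [← mul_div_assoc, div_le_iff₀ (by positivity)]
      linarith⟩
  obtain ⟨N0, hr⟩ := hR s (c + c) ε δ hε d0
  have big : ∀ᶠ M : ℕ in atTop, ∃ N : ℕ, N0 + ⌈1 / δ⌉₊ + 1 ≤ N ∧ N + δ * N ≤ M ∧
      (M : ℝ) ≤ N + δ * N + (δ + 1) := by
    have t : (0 : ℝ) < 1 + δ := by positivity
    filter_upwards [eventually_ge_atTop ⌈(N0 + ⌈1 / δ⌉₊ + 1 : ℕ) * (1 + δ)⌉₊] with M hM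
    have m1 := Nat.ceil_le.1 hM
    have m2 : ((N0 + ⌈1 / δ⌉₊ + 1 : ℕ) : ℝ) ≤ M / (1 + δ) := by rwa [le_div_iff₀ t]
    have m3 := Nat.floor_le ((Nat.cast_nonneg _).trans m2)
    have m4 := Nat.lt_floor_add_one ((M : ℝ) / (1 + δ))
    rw [le_div_iff₀ t] at m3
    rw [div_lt_iff₀ t] at m4
    exact ⟨_, Nat.le_floor m2, by linarith, by linarith⟩
  filter_upwards [big] with M ⟨N, n1, n2, n3⟩
  obtain ⟨n0, hr⟩ := hr N (by omega)
  obtain ⟨n, h1, h2⟩ := (hfr.and_eventually (eventually_ge_atTop (n0 + 1 + M))).exists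
  obtain ⟨G, hG, hd⟩ := exists_Mplus he n
  have g1 : max (c - γ) 0 ≤ (Mplus F n : ℝ) / n := max_le (by linarith) (by positivity)
  have g2 : max (c - γ) 0 ≤ c := max_le (by linarith) c0
  have g3 := le_max_left (c - γ) 0
  have g4 := le_max_right (c - γ) 0
  generalize max (c - γ) 0 = g at *
  rw [le_div_iff₀ (by exact_mod_cast (by omega : 0 < n))] at g1
  obtain ⟨R, a1, -, a3, a4⟩ := hr _ G (-1) (2 * g) (kf_of_free hF hs hG) (free_induce hc hG.1 _)
    (Or.inr rfl) (by positivity) (by push_cast; linarith)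
    (by rw [hd, Nat.card_fin]; push_cast; linarith) (by rw [Nat.card_fin]; omega)
  have e3 : (R.ncard : ℝ) ≤ N := by exact_mod_cast a3
  have e4 : ((R ∪ nbs G R).ncard : ℝ) ≤ R.ncard + (nbs G R).ncard := by
    exact_mod_cast ncard_union_le _ _
  obtain ⟨A', k1, -, k2⟩ := exists_subsuperset_card_eq (subset_univ (R ∪ nbs G R)) (n := M)
    (by exact_mod_cast (by linarith : ((R ∪ nbs G R).ncard : ℝ) ≤ M))
    (by rw [ncard_univ, Nat.card_fin]; omega)
  have b1 := le_two_Mplus (G := G.induce A')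
    (hG.1.of_inj Subtype.val Subtype.val_injective fun _ _ d => d)
  rw [Nat.card_coe_set_eq, k2] at b1
  have b2 : eAt G R ≤ dd (G.induce A') := by
    have k : ∀ u v, G.Adj u v → u ∈ R → v ∈ A' := fun u v e hu => k1 (by
      by_cases d : v ∈ R
      exacts [Or.inl d, Or.inr ⟨d, u, hu, e⟩])
    rw [pl.dd_induce]
    refine ncard_le_ncard ?_
    rintro p ⟨e, d | d⟩
    exacts [⟨k1 (Or.inl d), k _ _ e d, e⟩, ⟨k _ _ e.symm d, k1 (Or.inl d), e⟩]
  have b3 : (eAt G R : ℝ) ≤ 2 * Mplus F M := by exact_mod_cast b2.trans b1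
  have n4 : (1 : ℝ) ≤ N := by exact_mod_cast (by omega : 1 ≤ N)
  have n5 : δ ≤ δ * N := le_mul_of_one_le_right d0.le n4
  have n6 : 1 ≤ δ * N := by
    have : 1 / δ ≤ N := Nat.ceil_le.1 (by omega)
    rwa [div_le_iff₀' d0] at this
  have b4 := mul_le_mul_of_nonneg_right d1 (N.cast_nonneg (α := ℝ))
  have b5 : (c - γ - 2 * ε) * M ≤ (g - 2 * ε) * M := by gcongr
  have b6 : g * M ≤ g * N + c * (3 * (δ * N)) := by
    have k1 : g * M ≤ g * (N + 3 * (δ * N)) := mul_le_mul_of_nonneg_left (by linarith) g4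
    have k2 : g * (3 * (δ * N)) ≤ c * (3 * (δ * N)) := by gcongr
    linarith
  have b7 : ε * N ≤ ε * M := mul_le_mul_of_nonneg_left (by linarith) hε.le
  have b8 : 0 ≤ ε * N := by positivity
  rw [sub_le_comm, le_div_iff₀ (by linarith)]
  push_cast at *
  linarith

end Dich

theorem limS (hR : RegS) (hP : ReplS) (hS : StepS) : LimS :=
  fun _ _ hF hs he => ⟨Dich.minus hR hP hS hF hs he, Dich.plus hR hF hs he⟩

/-- Families with a finite basis. -/
theorem lim_basis (hL : LimS) {F F0 : Family} (hF : F.Nonempty) (he : ∀ H ∈ F, H.2 ≠ ⊥)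
    (h0 : F0.Finite) (h : ∀ (n : ℕ) (G : SimpleGraph (Fin n)), Free F G ↔ Free F0 G) :
    (∃ a, Tendsto (fun n => (Mminus F n : ℝ) / n) atTop (𝓝 a)) ∧
      ∃ b, Tendsto (fun n => (Mplus F n : ℝ) / n) atTop (𝓝 b) := by
  have e : ∀ n, edgeCounts F n = edgeCounts F0 n := fun n => by
    simp only [edgeCounts, EdgeMax, h]
  have r : ∀ {n : ℕ} (G : SimpleGraph (Fin n)), IsMinor G G := fun G =>
    isMinor_of_inj id injective_id fun _ _ d => d
  obtain ⟨s, hs⟩ := (h0.image (·.1)).bddAbove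
  simp only [Mminus, Mplus, e]
  refine hL F0 s ?_ (fun H hH => hs ⟨H, hH, rfl⟩) fun H hH d => ?_
  · obtain ⟨H, hH⟩ := hF
    by_contra d
    exact (h _ H.2).2 (fun K hK => absurd ⟨K, hK⟩ d) H hH (r _)
  · exact (h _ H.2).1 (d ▸ free_bot he) H hH (r _)

end Pool.Agent.MP_9d78a0_co.fb

end MrgPart3

-- ======== part 4: formerly Pool.Agent.MP_9d78a0_co.fb.Reg
section MrgPart4

/-! Regions of prescribed size with small boundary and typical density. -/

set_option autoImplicit false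

namespace Pool.Agent.MP_9d78a0_co.fb

open Set Function

namespace Reg

theorem card_le {α β : Type} [Finite β] (f : Set α → Set β) (Q : Finset (Set α)) :
    {x | ∃ p ∈ Q, x ∈ f p}.ncard ≤ ∑ p ∈ Q, (f p).ncard := by
  classical
  induction Q using Finset.induction_on with
  | empty => simp
  | insert p Q hp ih =>
    rw [Finset.sum_insert hp]
    refine le_trans (ncard_le_ncard (t := f p ∪ {x | ∃ p ∈ Q, x ∈ f p}) ?_)
      ((ncard_union_le _ _).trans (Nat.add_le_add_left ih _))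
    rintro x ⟨q, hq, hx⟩
    rcases Finset.mem_insert.1 hq with rfl | hq
    exacts [Or.inl hx, Or.inr ⟨q, hq, hx⟩]

theorem card_eq {α β : Type} [Finite β] (f : Set α → Set β) (Q : Finset (Set α))
    (h : ∀ p ∈ Q, ∀ q ∈ Q, p ≠ q → Disjoint (f p) (f q)) :
    {x | ∃ p ∈ Q, x ∈ f p}.ncard = ∑ p ∈ Q, (f p).ncard := by
  classical
  induction Q using Finset.induction_on with
  | empty => simp
  | insert p Q hp ih =>
    rw [Finset.sum_insert hp, ← ih fun a ha b hb =>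
      h a (Finset.mem_insert_of_mem ha) b (Finset.mem_insert_of_mem hb), ← ncard_union_eq]
    · congr 1
      ext x
      simp only [Finset.mem_insert, exists_eq_or_imp, mem_ofPred_eq, mem_union]
    · rw [Set.disjoint_left]
      rintro x hx ⟨q, hq, hx'⟩
      exact Set.disjoint_left.1 (h p (Finset.mem_insert_self _ _) q (Finset.mem_insert_of_mem hq)
        fun e => hp (e ▸ hq)) hx hx'

/-- the numerical part -/
theorem abs (c : ℕ) {η δ : ℝ} (hη : 0 < η) (hδ : 0 < δ) : ∃ d : ℕ, ∀ K : ℕ, ∃ N0 : ℕ, ∀ N ≥ N0,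
    ∃ n0 : ℕ, ∀ (ι : Type) (P : Finset ι) (v e b : ι → ℕ) (n z D : ℕ) (σ γ : ℝ),
      d * (z + ∑ p ∈ P, b p) ≤ n → ∑ p ∈ P, v p + z = n → ∑ p ∈ P, e p ≤ D →
      D ≤ ∑ p ∈ P, e p + c * z → (∀ p ∈ P, v p ≤ K ∧ e p ≤ c * (v p + b p)) →
      (σ = 1 ∨ σ = -1) → 0 ≤ γ → γ ≤ c → σ * (D - γ * n) ≤ 0 → n0 ≤ n →
      ∃ Q ⊆ P, ((∑ p ∈ Q, b p : ℕ) : ℝ) ≤ δ * N ∧ (1 - δ) * N ≤ (∑ p ∈ Q, v p : ℕ) ∧
        ∑ p ∈ Q, v p ≤ N ∧ σ * ((∑ p ∈ Q, e p : ℕ) - γ * N) ≤ (η + c * δ) * N := by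
  classical
  have c0 : (0 : ℝ) ≤ c := Nat.cast_nonneg c
  obtain ⟨μ, m0, m1⟩ : ∃ μ : ℝ, 0 < μ ∧ μ * δ = η + c :=
    ⟨(η + c) / δ, by positivity, div_mul_cancel₀ _ hδ.ne'⟩
  refine ⟨⌈2 * (η + c + μ) / η⌉₊, fun K => ⟨⌈K / δ⌉₊, fun N hN =>
    ⟨⌈2 * (η + c) * N / η⌉₊, ?_⟩⟩⟩
  intro ι P v e b n z D σ γ h1 h2 h3 h4 h5 hs g0 g1 htot hn
  have n1 : (K : ℝ) ≤ N * δ := by
    rw [← div_le_iff₀ hδ]
    exact Nat.ceil_le.1 hN
  have n2 : 2 * (η + c) * N ≤ n * η := by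
    rw [← div_le_iff₀ hη]
    exact Nat.ceil_le.1 hn
  have n3 : 2 * (η + c + μ) * (z + (∑ p ∈ P, b p : ℕ)) ≤ n * η := by
    have a1 := Nat.le_ceil (2 * (η + c + μ) / η)
    rw [div_le_iff₀ hη] at a1
    have a2 : ((⌈2 * (η + c + μ) / η⌉₊ : ℕ) : ℝ) * (z + (∑ p ∈ P, b p : ℕ)) ≤ n := by
      exact_mod_cast h1
    have a3 := mul_le_mul_of_nonneg_right a1
      (show (0 : ℝ) ≤ z + (∑ p ∈ P, b p : ℕ) by positivity)
    have a4 := mul_le_mul_of_nonneg_right a2 hη.le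
    linarith
  have low : ∀ p ∈ P, -(c * (v p : ℝ)) ≤ σ * (e p - γ * v p) + c * b p := by
    intro p hp
    have a1 : (e p : ℝ) ≤ c * (v p + b p) := by exact_mod_cast (h5 p hp).2
    have a2 : γ * v p ≤ c * v p := mul_le_mul_of_nonneg_right g1 (Nat.cast_nonneg _)
    have a3 : (0 : ℝ) ≤ γ * v p := by positivity
    have a4 : (0 : ℝ) ≤ c * b p := by positivity
    have a5 : (0 : ℝ) ≤ e p := by positivity
    rcases hs with rfl | rfl <;> linarith
  let good : ι → Prop := fun p => σ * (e p - γ * v p) + (c + μ) * b p ≤ η * v p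
  have s1 : ∀ p ∈ P, η * v p - (η + c) * (if good p then (v p : ℝ) else 0) ≤
      σ * e p - σ * γ * v p + (c + μ) * b p := by
    intro p hp
    have a1 := low p hp
    have a2 : (0 : ℝ) ≤ μ * b p := by positivity
    split_ifs with k
    · linarith
    · linarith [not_le.1 k]
  have s2 := Finset.sum_le_sum s1
  rw [Finset.sum_sub_distrib, Finset.sum_add_distrib, Finset.sum_sub_distrib, ← Finset.mul_sum,
    ← Finset.mul_sum, ← Finset.mul_sum, ← Finset.mul_sum, ← Finset.mul_sum, ← Finset.sum_filter,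
    ← Nat.cast_sum, ← Nat.cast_sum, ← Nat.cast_sum, ← Nat.cast_sum] at s2
  have s3 : N ≤ ∑ p ∈ P.filter good, v p := by
    have a1 : ((∑ p ∈ P, v p : ℕ) : ℝ) = n - z := by
      rw [← h2]
      push_cast
      ring
    have a2 : ((∑ p ∈ P, e p : ℕ) : ℝ) ≤ D := by exact_mod_cast h3
    have a3 : (D : ℝ) ≤ (∑ p ∈ P, e p : ℕ) + c * z := by exact_mod_cast h4
    have a4 : γ * z ≤ c * z := mul_le_mul_of_nonneg_right g1 (Nat.cast_nonneg _)
    have a5 : (0 : ℝ) ≤ γ * z := by positivity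
    have a6 : (0 : ℝ) ≤ μ * z := by positivity
    have a7 : (0 : ℝ) ≤ η * (∑ p ∈ P, b p : ℕ) := by positivity
    rw [a1] at s2
    have : (η + c) * N ≤ (η + c) * (∑ p ∈ P.filter good, v p : ℕ) := by
      rcases hs with rfl | rfl <;> linarith
    exact_mod_cast le_of_mul_le_mul_left this (by positivity)
  obtain ⟨Q, q1, q2, q3⟩ := pl.exists_fill v _ (fun p hp => (h5 p (Finset.mem_filter.1 hp).1).1) s3
  have q4 : Q ⊆ P := q1.trans (Finset.filter_subset _ _)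
  have q5 : ∀ p ∈ Q, good p := fun p hp => (Finset.mem_filter.1 (q1 hp)).2
  have r2 : (N : ℝ) ≤ (∑ p ∈ Q, v p : ℕ) + K := by exact_mod_cast q2
  have r3 : ((∑ p ∈ Q, v p : ℕ) : ℝ) ≤ N := by exact_mod_cast q3
  refine ⟨Q, q4, ?_, by linarith, q3, ?_⟩
  · have t1 : ∀ p ∈ Q, (b p : ℝ) ≤ δ * v p := by
      intro p hp
      have a1 := low p (q4 hp)
      have a2 : σ * (e p - γ * v p) + (c + μ) * b p ≤ η * v p := q5 p hp
      refine le_of_mul_le_mul_left ?_ m0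
      rw [← mul_assoc, m1]
      linarith
    have t2 := Finset.sum_le_sum t1
    rw [← Finset.mul_sum, ← Nat.cast_sum, ← Nat.cast_sum] at t2
    exact t2.trans (mul_le_mul_of_nonneg_left r3 hδ.le)
  · have t1 : ∀ p ∈ Q, σ * e p - σ * γ * v p ≤ η * v p := by
      intro p hp
      have a1 : (0 : ℝ) ≤ (c + μ) * b p := by positivity
      have a2 : σ * (e p - γ * v p) + (c + μ) * b p ≤ η * v p := q5 p hp
      linarith
    have t2 := Finset.sum_le_sum t1
    rw [Finset.sum_sub_distrib, ← Finset.mul_sum, ← Finset.mul_sum, ← Finset.mul_sum,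
      ← Nat.cast_sum, ← Nat.cast_sum] at t2
    have a1 := mul_le_mul_of_nonneg_left r3 hη.le
    have a2 := mul_le_mul_of_nonneg_left r3 g0
    have a3 := mul_le_mul_of_nonneg_left (r2.trans (add_le_add le_rfl n1)) g0
    have a4 : γ * (N * δ) ≤ c * (N * δ) := mul_le_mul_of_nonneg_right g1 (by positivity)
    have a5 : (0 : ℝ) ≤ c * (N * δ) := by positivity
    rcases hs with rfl | rfl <;> linarith

variable {V : Type} [Finite V] {G : SimpleGraph V}

theorem card_un (Q : Finset (Set V)) (h : ∀ p ∈ Q, ∀ q ∈ Q, p ≠ q → Disjoint p q) :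
    (⋃₀ (Q : Set (Set V))).ncard = ∑ p ∈ Q, p.ncard := card_eq id Q h

theorem eAt_un (Q : Finset (Set V)) (h : ∀ p ∈ Q, ∀ q ∈ Q, p ≠ q → Disjoint p q ∧ ¬ Touch G p q) :
    eAt G (⋃₀ (Q : Set (Set V))) = ∑ p ∈ Q, eAt G p := by
  unfold eAt
  rw [← card_eq (fun R : Set V => {p : V × V | G.Adj p.1 p.2 ∧ (p.1 ∈ R ∨ p.2 ∈ R)}) Q]
  · congr 1
    ext x
    constructor
    · rintro ⟨e, ⟨p, hp, k⟩ | ⟨p, hp, k⟩⟩
      exacts [⟨p, hp, e, Or.inl k⟩, ⟨p, hp, e, Or.inr k⟩]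
    · rintro ⟨p, hp, e, k | k⟩
      exacts [⟨e, Or.inl ⟨p, hp, k⟩⟩, ⟨e, Or.inr ⟨p, hp, k⟩⟩]
  · intro p hp q hq e
    obtain ⟨a1, a2⟩ := h p hp q hq e
    rw [Set.disjoint_left]
    rintro x ⟨k, k1 | k1⟩ ⟨-, k2 | k2⟩
    exacts [Set.disjoint_left.1 a1 k1 k2, a2 ⟨_, k1, _, k2, k⟩, a2 ⟨_, k1, _, k2, k.symm⟩,
      Set.disjoint_left.1 a1 k1 k2]

theorem eAt_le (R : Set V) : eAt G R ≤ dd G := ncard_le_ncard fun _ h => h.1

theorem dd_le (R : Set V) : dd G ≤ eAt G R + dd (G.induce (univ \ R)) := by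
  rw [pl.dd_induce]
  refine le_trans (ncard_le_ncard fun x hx => ?_) (ncard_union_le _ _)
  by_cases k : x.1 ∈ R ∨ x.2 ∈ R
  · exact Or.inl ⟨hx, k⟩
  · exact Or.inr ⟨⟨trivial, fun d => k (Or.inl d)⟩, ⟨trivial, fun d => k (Or.inr d)⟩, hx⟩

theorem eAt_le_nbs (R : Set V) : eAt G R ≤ dd (G.induce (R ∪ nbs G R)) := by
  rw [pl.dd_induce]
  refine ncard_le_ncard ?_
  rintro x ⟨e, k | k⟩
  · refine ⟨Or.inl k, ?_, e⟩
    by_cases d : x.2 ∈ R
    exacts [Or.inl d, Or.inr ⟨d, _, k, e⟩]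
  · refine ⟨?_, Or.inl k, e⟩
    by_cases d : x.1 ∈ R
    exacts [Or.inl d, Or.inr ⟨d, _, k, e.symm⟩]

theorem nbs_un (Q : Finset (Set V)) :
    (nbs G (⋃₀ (Q : Set (Set V)))).ncard ≤ ∑ p ∈ Q, (nbs G p).ncard := by
  refine le_trans (ncard_le_ncard ?_) (card_le (nbs G) Q)
  rintro z ⟨k, x, ⟨p, hp, hx⟩, e⟩
  exact ⟨p, hp, fun d => k ⟨p, hp, d⟩, x, hx, e⟩

end Reg

theorem regS (hR : RdivS) : RegS := by
  intro h c η δ hη hδ
  obtain ⟨d, hd⟩ := Reg.abs c hη hδ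
  obtain ⟨K, hK⟩ := hR h d
  obtain ⟨N0, hN0⟩ := hd K
  refine ⟨N0, fun N hN => (hN0 N hN).imp ?_⟩
  intro n0 k V _ G σ γ kf hc hs g0 g1 htot hn
  obtain ⟨P, p1, p2, p3⟩ := hK V G univ kf
  simp only [inter_univ, ncard_univ] at p3
  obtain ⟨Q, q1, q2, q3, q4, q5⟩ := k (Set V) P ncard (eAt G) (fun p => (nbs G p).ncard)
    (Nat.card V) (univ \ ⋃₀ (P : Set (Set V))).ncard (dd G) σ γ p3
    (by
      rw [← Reg.card_un P fun p hp q hq e => (p2 p hp q hq e).1, ← ncard_univ, add_comm]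
      exact ncard_sdiff_add_ncard_of_subset (subset_univ _))
    (by rw [← Reg.eAt_un P p2]; exact Reg.eAt_le _)
    (by rw [← Reg.eAt_un P p2]; exact (Reg.dd_le _).trans (Nat.add_le_add_left (hc _) _))
    (fun p hp => ⟨(p1 p hp).2, (Reg.eAt_le_nbs p).trans ((hc _).trans
      (Nat.mul_le_mul_left _ (ncard_union_le _ _)))⟩) hs g0 g1 htot hn
  rw [← Reg.card_un Q fun p hp q hq e => (p2 p (q1 hp) q (q1 hq) e).1] at q3 q4
  rw [← Reg.eAt_un Q fun p hp q hq e => p2 p (q1 hp) q (q1 hq) e] at q5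
  exact ⟨_, le_trans (Nat.cast_le.2 (Reg.nbs_un Q)) q2, q3, q4, q5⟩

end Pool.Agent.MP_9d78a0_co.fb

end MrgPart4

-- ======== part 5: formerly Pool.Agent.MP_9d78a0_co.st.Riv
section MrgPart5

/-! A linkage is rerouted so that it makes no turns in the middle levels. -/

set_option autoImplicit false

namespace Pool.Agent.MP_9d78a0_co.st

open Set Function fb

namespace Riv

/-- a chain of blobs contains a path that visits the blobs in order -/
theorem chain_path {V : Type} {H : SimpleGraph V} {U : Set V} {β : ℕ → Set V} {n : ℕ}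
    (hc : ∀ i ≤ n, β i ⊆ U ∧ Conn H (β i))
    (hd : ∀ i ≤ n, ∀ j ≤ n, i ≠ j → Disjoint (β i) (β j))
    (ht : ∀ i < n, Touch H (β i) (β (i + 1))) {a b : V} (ha : a ∈ β 0) (hb : b ∈ β n) :
    ∃ (f : ℕ → V) (l : ℕ) (t : ℕ → ℕ), IsPath H U f l ∧ f 0 = a ∧ f l = b ∧ t l = n ∧
      (∀ j ≤ l, t j ≤ n ∧ f j ∈ β (t j)) ∧ ∀ j < l, t j ≤ t (j + 1) ∧ t (j + 1) ≤ t j + 1 := by
  classical
  induction n generalizing b with
  | zero =>
    obtain ⟨f, l, h1, h2, h3⟩ := link_path ((hc 0 le_rfl).2.2 a ha b hb) ha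
    exact ⟨f, l, fun _ => 0, ⟨fun j hj => (hc 0 le_rfl).1 (h1.1 j hj), h1.2⟩, h2, h3, rfl,
      fun j hj => ⟨le_rfl, h1.1 j hj⟩, fun _ _ => ⟨le_rfl, Nat.zero_le _⟩⟩
  | succ n ih =>
    obtain ⟨x, hx, y, hy, e⟩ := ht n (by omega)
    obtain ⟨f, l, t, ⟨p1, p2, p3⟩, h2, h3, h4, h5, h6⟩ := ih (fun i hi => hc i (by omega))
      (fun i hi j hj => hd i (by omega) j (by omega)) (fun i hi => ht i (by omega)) hx
    obtain ⟨g, m, ⟨q1, q2, q3⟩, k2, k3⟩ := link_path ((hc _ le_rfl).2.2 y hy b hb) hy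
    have ne : ∀ i ≤ l, ∀ j ≤ m, f i ≠ g j := fun i hi j hj c =>
      Set.disjoint_left.1 (hd (t i) (by have := (h5 i hi).1; omega) (n + 1) le_rfl
        (by have := (h5 i hi).1; omega)) (h5 i hi).2 (c ▸ q1 j hj)
    refine ⟨fun j => if j ≤ l then f j else g (j - (l + 1)), l + 1 + m,
      fun j => if j ≤ l then t j else n + 1, ⟨fun j hj => ?_, fun j hj => ?_,
      fun i hi j hj => ?_⟩, by simpa using h2, ?_, ?_, fun j hj => ?_, fun j hj => ?_⟩
    · by_cases c : j ≤ l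
      · simpa [c] using p1 j c
      · simpa [c] using (hc _ le_rfl).1 (q1 _ (by omega))
    · rcases lt_trichotomy j l with c | rfl | c
      · simpa [c.le, Nat.succ_le_of_lt c] using p2 j c
      · simpa [h3, k2] using e
      · have c1 : ¬ j ≤ l := by omega
        have c2 : ¬ j + 1 ≤ l := by omega
        simp only [c1, c2, if_false]
        rw [show j + 1 - (l + 1) = j - (l + 1) + 1 by omega]
        exact q2 _ (by omega)
    · by_cases c : i ≤ l <;> by_cases d : j ≤ l <;> simp only [c, d, if_true, if_false]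
      · exact p3 i c j d
      · exact fun e => absurd e (ne i c _ (by omega))
      · exact fun e => absurd e.symm (ne j d _ (by omega))
      · intro e
        have := q3 _ (by omega) _ (by omega) e
        omega
    · have c : ¬ l + 1 + m ≤ l := by omega
      simp only [c, if_false]
      rw [show l + 1 + m - (l + 1) = m by omega, k3]
    · have c : ¬ l + 1 + m ≤ l := by omega
      simp only [c, if_false]
    · by_cases c : j ≤ l
      · simp only [c, if_true]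
        exact ⟨by have := (h5 j c).1; omega, (h5 j c).2⟩
      · simp only [c, if_false]
        exact ⟨le_rfl, q1 _ (by omega)⟩
    · rcases lt_trichotomy j l with c | rfl | c
      · simpa [c.le, Nat.succ_le_of_lt c] using h6 j c
      · simp [h4]
      · have c1 : ¬ j ≤ l := by omega
        have c2 : ¬ j + 1 ≤ l := by omega
        simp [c1, c2]

/-- a shortest passage through a range of levels -/
theorem cross {L : ℕ → ℕ} {A B : ℕ} (hAB : A ≤ B) {i j : ℕ} (hij : i ≤ j)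
    (step : ∀ z, i ≤ z → z < j → L (z + 1) ≤ L z + 1 ∧ L z ≤ L (z + 1) + 1)
    (h : (L i ≤ A ∧ B < L j) ∨ (B < L i ∧ L j ≤ A)) :
    ∃ x y, i ≤ x ∧ x ≤ y ∧ y ≤ j ∧ ((L x ≤ A ∧ B < L y) ∨ (B < L x ∧ L y ≤ A)) ∧
      ∀ z, x ≤ z → z ≤ y → A ≤ L z ∧ L z ≤ B + 1 := by
  induction e : j - i using Nat.strong_induction_on generalizing i j with
  | _ n ih =>
    by_cases c : ∃ z, i < z ∧ z < j ∧ (L z ≤ A ∨ B < L z)
    · obtain ⟨z, z1, z2, z3⟩ := c
      by_cases d : (L i ≤ A ∧ B < L z) ∨ (B < L i ∧ L z ≤ A)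
      · obtain ⟨x, y, h1, h2, h3, h4⟩ := ih (z - i) (by omega) z1.le
          (fun w w1 w2 => step w w1 (by omega)) d rfl
        exact ⟨x, y, h1, h2, by omega, h4⟩
      · obtain ⟨x, y, h1, h2, h3, h4⟩ := ih (j - z) (by omega) z2.le
          (fun w w1 w2 => step w (by omega) w2) (by omega) rfl
        exact ⟨x, y, by omega, h2, h3, h4⟩
    · push Not at c
      have lt : i < j := by
        rcases hij.lt_or_eq with d | rfl
        exacts [d, by omega]
      obtain ⟨j, rfl⟩ : ∃ j', j = j' + 1 := ⟨j - 1, by omega⟩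
      have s1 := step i le_rfl lt
      have s2 := step j (by omega) (by omega)
      refine ⟨i, j + 1, le_rfl, hij, le_rfl, h, fun z z1 z2 => ?_⟩
      by_cases d : i = j
      · subst d
        rcases (by omega : z = i ∨ z = i + 1) with rfl | rfl <;> omega
      · have c1 := c (i + 1) (by omega) (by omega)
        have c2 := c j (by omega) (by omega)
        rcases (by omega : z = i ∨ z = j + 1 ∨ (i < z ∧ z < j + 1)) with rfl | rfl | d
        · omega
        · omega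
        · have := c z d.1 d.2
          omega

variable {k : ℕ} {len : Fin k → ℕ} {lam : Vx k → ℕ} {s g r : ℕ} {c : ℕ → ℕ} {I : ℕ → Iv k}
  {d : ℕ → Bool}

/-- a river, in plain indices -/
theorem facts (h : Rivers len lam s g 5 c r I d) {a : ℕ} (ha : a < r) :
    (lam ((I a).p, (I a).lo) < c 0 ∧ c 4 + g < lam ((I a).p, (I a).hi) ∧
      ∀ x y, (I a).lo ≤ x → x < y → y ≤ (I a).hi → c 2 + g < lam ((I a).p, x) →
        c 2 < lam ((I a).p, y)) ∨
    (lam ((I a).p, (I a).hi) < c 0 ∧ c 4 + g < lam ((I a).p, (I a).lo) ∧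
      ∀ x y, (I a).lo ≤ x → x < y → y ≤ (I a).hi → c 2 + g < lam ((I a).p, y) →
        c 2 < lam ((I a).p, x)) := by
  have h0 := (h.ivs.1 a ha).1
  have h1 := h.first a ha
  have h2 := h.last a ha
  have h3 := h.ret a ha 2 (by omega)
  cases e : d a <;> simp only [e, riv, if_true, Bool.false_eq_true, if_false] at h1 h2 h3
  · refine Or.inr ⟨by simpa using h1, ?_, fun x y x1 x2 x3 x4 => ?_⟩
    · rwa [show (I a).hi - ((I a).hi - (I a).lo) = (I a).lo by omega] at h2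
    · have := h3 ((I a).hi - y) ((I a).hi - x) (by omega) (by omega)
      rw [show (I a).hi - ((I a).hi - y) = y by omega,
        show (I a).hi - ((I a).hi - x) = x by omega] at this
      exact this x4
  · refine Or.inl ⟨by simpa using h1, ?_, fun x y x1 x2 x3 x4 => ?_⟩
    · rwa [show (I a).lo + ((I a).hi - (I a).lo) = (I a).hi by omega] at h2
    · have := h3 (x - (I a).lo) (y - (I a).lo) (by omega) (by omega)
      rw [show (I a).lo + (x - (I a).lo) = x by omega,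
        show (I a).lo + (y - (I a).lo) = y by omega] at this
      exact this x4

theorem gaps (h : Rivers len lam s g 5 c r I d) :
    c 0 + g < c 1 ∧ c 1 + g < c 2 ∧ c 2 + g < c 3 ∧ c 3 + g < c 4 ∧ c 4 + g < s :=
  ⟨h.gap 0 (by omega), h.gap 1 (by omega), h.gap 2 (by omega), h.gap 3 (by omega), h.pos.2⟩

theorem inriv (h : Rivers len lam s g 5 c r I d) {p : Fin k} {b : ℕ} (hb : b ≤ len p)
    (h1 : c 0 + g < lam (p, b)) (h2 : lam (p, b) < c 4) :
    ∃ a < r, (I a).p = p ∧ (I a).lo ≤ b ∧ b ≤ (I a).hi := by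
  obtain ⟨a, ha, e, h3⟩ := h.only (p, b) hb h1 h2
  exact ⟨a, ha, e.symm, h3⟩

theorem r1 (h : Rivers len lam s g 5 c r I d) {p : Fin k} {x b y : ℕ} (h1 : x ≤ b) (h2 : b ≤ y)
    (h3 : y ≤ len p) (hx : c 2 + g < lam (p, x)) (hy : c 2 + g < lam (p, y))
    (hb : lam (p, b) ≤ c 2) : ∃ e, x ≤ e ∧ e ≤ y ∧ lam (p, e) ≤ c 0 + g := by
  have G := gaps h
  by_cases o : lam (p, b) ≤ c 0 + g
  · exact ⟨b, h1, h2, o⟩
  obtain ⟨a, ha, rfl, l1, l2⟩ := inriv h (h2.trans h3) (by omega) (by omega)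
  have n1 : x ≠ b := fun e => by subst e; omega
  have n2 : b ≠ y := fun e => by subst e; omega
  rcases facts h ha with ⟨f1, -, f3⟩ | ⟨f1, -, f3⟩
  · by_cases o' : x ≤ (I a).lo
    · exact ⟨_, o', by omega, by omega⟩
    · have := f3 x b (by omega) (by omega) l2 hx
      omega
  · by_cases o' : (I a).hi ≤ y
    · exact ⟨_, by omega, o', by omega⟩
    · have := f3 b y l1 (by omega) (by omega) hy
      omega

theorem r2 (h : Rivers len lam s g 5 c r I d) (hg : 2 ≤ g) {p : Fin k} {x b y : ℕ} (h1 : x ≤ b)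
    (h2 : b ≤ y) (h3 : y ≤ len p) (hx : lam (p, x) ≤ c 2) (hy : lam (p, y) ≤ c 2)
    (hb : c 2 + g < lam (p, b)) : ∃ e, x ≤ e ∧ e ≤ y ∧ c 2 + g + 3 ≤ lam (p, e) := by
  have G := gaps h
  by_cases o : c 2 + g + 3 ≤ lam (p, b)
  · exact ⟨b, h1, h2, o⟩
  obtain ⟨a, ha, rfl, l1, l2⟩ := inriv h (h2.trans h3) (by omega) (by omega)
  have n1 : x ≠ b := fun e => by subst e; omega
  have n2 : b ≠ y := fun e => by subst e; omega
  rcases facts h ha with ⟨-, f2, f3⟩ | ⟨-, f2, f3⟩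
  · by_cases o' : (I a).hi ≤ y
    · exact ⟨_, by omega, o', by omega⟩
    · have := f3 b y l1 (by omega) (by omega) hb
      omega
  · by_cases o' : x ≤ (I a).lo
    · exact ⟨_, o', by omega, by omega⟩
    · have := f3 x b (by omega) (by omega) l2 hb
      omega

theorem mono {t : ℕ → ℕ} {l : ℕ} (h : ∀ j < l, t j ≤ t (j + 1) ∧ t (j + 1) ≤ t j + 1) {a b : ℕ}
    (hab : a ≤ b) (hb : b ≤ l) : t a ≤ t b := by
  induction b, hab using Nat.le_induction with
  | base => exact le_rfl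
  | succ n _ ih => exact (ih (by omega)).trans (h n (by omega)).1

end Riv

/-- a linkage is rerouted so that it makes no turns in the middle levels -/
def RivS' : Prop :=
  ∀ k, ∃ g s0, ∀ (V : Type) [Finite V] (H : SimpleGraph V) (U : Set V) (lev : V → ℕ)
    (D : ℕ → Set V) (s : ℕ) (u v : ℕ → V) (Q : ℕ → Set V), s0 ≤ s →
    LBand H ∅ U lev D (fun _ _ => ∅) s 0 → (∀ x ∈ U, ∀ y ∈ U, H.Adj x y → lev y ≤ lev x + 1) →
    Lkg H U k u v Q →
    (∀ i < k, (lev (u i) = 0 ∨ lev (u i) = s) ∧ (lev (v i) = 0 ∨ lev (v i) = s)) →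
    ∃ (f : ℕ → ℕ → V) (l : ℕ → ℕ) (α β lam : ℕ), α + g ≤ β ∧ β + 3 ≤ lam ∧ lam + 2 < s ∧
      (∀ i < k, IsPath H U (f i) (l i) ∧ f i 0 = u i ∧ f i (l i) = v i) ∧
      (∀ i < k, ∀ j < k, i ≠ j → ∀ a ≤ l i, ∀ b ≤ l j, f i a ≠ f j b) ∧
      (∀ i < k, ∀ a b c, a < b → b < c → c ≤ l i →
        (lam ≤ lev (f i a) + 1 → lam ≤ lev (f i c) + 1 → lev (f i b) ≤ β →
          ∃ e, a < e ∧ e < c ∧ lev (f i e) ≤ α) ∧
        (lev (f i a) ≤ β → lev (f i c) ≤ β → lam ≤ lev (f i b) + 1 →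
          ∃ e, a < e ∧ e < c ∧ lam + 1 ≤ lev (f i e))) ∧
      ∀ F : Finset (ℕ × ℕ × ℕ),
        (∀ t ∈ F, t.1 < k ∧ t.2.2 ≤ l t.1 ∧ (∃ a ∈ Icc t.2.1 t.2.2, lev (f t.1 a) ≤ β) ∧
          ∃ a ∈ Icc t.2.1 t.2.2, lam ≤ lev (f t.1 a) + 1) →
        (∀ t ∈ F, ∀ t' ∈ F, t ≠ t' → t.1 = t'.1 → t.2.2 < t'.2.1 ∨ t'.2.2 < t.2.1) → F.card ≤ g

open Riv in
theorem rivS' : RivS' := by
  classical
  intro k
  rcases Nat.eq_zero_or_pos k with rfl | hk
  · refine ⟨0, 6, fun V _ H U lev D s u v Q hs _ _ _ _ => ⟨fun i _ => u i, fun _ => 0, 0, 0, 3,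
      le_rfl, le_rfl, hs, fun i hi => by omega, fun i hi => by omega, fun i hi => by omega,
      fun F h _ => ?_⟩⟩
    rw [Nat.le_zero, Finset.card_eq_zero, Finset.eq_empty_iff_forall_notMem]
    exact fun t ht => absurd (h t ht).1 (Nat.not_lt_zero _)
  obtain ⟨n, T, hb⟩ := blobS ult_thm k
  obtain ⟨s0, hr⟩ := riverS k n T (T + n + 2) 5 hk (by omega) (by omega)
  refine ⟨n, s0, fun V _ G W lev D s u v Q hs hL hst hQ he => ?_⟩
  have hA : Disjoint W (∅ : Set V) := disjoint_empty _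
  obtain ⟨len, β, hB, hno⟩ := hb V G W D s (fun p => u p) (fun p => v p) (fun p => Q p)
    (fun l hl => ⟨fun v hv => ((hL.ring l hl).2 v hv).1, (hL.ring l hl).1⟩)
    (fun l hl l' hl' c => disjoint_left.2 fun v a b =>
      c (((hL.ring l hl).2 v a).2.symm.trans ((hL.ring l' hl').2 v b).2))
    ⟨fun p => hQ.mem p p.2, fun p q e => hQ.dis p p.2 q q.2 fun c => e (Fin.ext c)⟩
  obtain ⟨lam, hl⟩ := Comb.level hL hB
  have hl' : ∀ w ∈ Vs len, ∀ x ∈ β w, lev x = lam w := fun w hw x hx =>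
    (hl w hw x hx).1 ((hB.conn w hw).1 hx)
  obtain ⟨g, c, r, I, d, hg, hrn, hR⟩ := hr len lam s hs
    (fun p => by
      rw [← hl' (p, 0) (Nat.zero_le _) _ (hB.ends p).1,
        ← hl' (p, len p) (le_refl (len p)) _ (hB.ends p).2]
      exact he p p.2)
    (fun v hv => by
      obtain ⟨x, hx⟩ := (hB.conn v hv).2.1
      rw [← hl' v hv x hx]
      exact hL.le x ((hB.conn v hv).1 hx))
    (fun p i hi c => by
      have a : (p, i) ∈ Vs len := hi.le
      have b : (p, i + 1) ∈ Vs len := hi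
      rcases c with c | c
      · have := Comb.step hL hA hB hl a b (hB.touch p i hi) c.1 c.2
        omega
      · have := Comb.step hL hA hB hl b a (hB.touch p i hi).symm c.1 c.2
        omega)
    (fun I a hI h0 hT h => hno I a hI hT.le fun b hb l l1 l2 => by
      obtain ⟨hin, ⟨⟨_, u⟩, ⟨rfl, u1, u2⟩, eu⟩, ⟨_, w⟩, ⟨rfl, w1, w2⟩, ew⟩ := h b hb
      have hi := (hI.1 b hb).2
      have key : ∃ x, (I b).lo ≤ x ∧ x < (I b).hi ∧
          ¬ (l ≤ lam ((I b).p, x) ↔ l ≤ lam ((I b).p, x + 1)) := by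
        have eu' : lam ((I b).p, u) = a := eu
        have ew' : lam ((I b).p, w) = a + T := ew
        simp only at u1 u2 w1 w2
        rcases le_total u w with o | o
        · obtain ⟨x, x1, x2, x3⟩ := Comb.flip (fun x => l ≤ lam ((I b).p, x)) o (by omega)
          exact ⟨x, by omega, by omega, x3⟩
        · obtain ⟨x, x1, x2, x3⟩ := Comb.flip (fun x => l ≤ lam ((I b).p, x)) o (by omega)
          exact ⟨x, by omega, by omega, x3⟩
      obtain ⟨x, x1, x2, x3⟩ := key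
      have m1 : ((I b).p, x) ∈ (I b).set := ⟨rfl, x1, x2.le⟩
      have m2 : ((I b).p, x + 1) ∈ (I b).set := ⟨rfl, Nat.le_succ_of_le x1, x2⟩
      have v1 : ((I b).p, x) ∈ Vs len := x2.le.trans hi
      have v2 : ((I b).p, x + 1) ∈ Vs len := le_trans x2 hi
      have r1 := hin _ m1
      have r2 := hin _ m2
      have tc := hB.touch (I b).p x (lt_of_lt_of_le x2 hi)
      have s1 := Comb.step hL hA hB hl v1 v2 tc (by omega) (by omega)
      have s2 := Comb.step hL hA hB hl v2 v1 tc.symm (by omega) (by omega)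
      by_cases o : l ≤ lam ((I b).p, x)
      · have e : lam ((I b).p, x) = l := by omega
        exact ⟨_, m1, e ▸ s2.2.2 (by omega)⟩
      · have e : lam ((I b).p, x + 1) = l := by omega
        exact ⟨_, m2, e ▸ s1.2.2 (by omega)⟩)
  have GP := gaps hR
  have paths : ∀ i : ℕ, ∃ (f : ℕ → V) (l : ℕ) (t : ℕ → ℕ), ∀ h : i < k,
      IsPath G W f l ∧ f 0 = u i ∧ f l = v i ∧
      (∀ j ≤ l, t j ≤ len ⟨i, h⟩ ∧ f j ∈ β (⟨i, h⟩, t j)) ∧
      ∀ j < l, t j ≤ t (j + 1) ∧ t (j + 1) ≤ t j + 1 := fun i => by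
    by_cases h : i < k
    · obtain ⟨f, l, t, h1, h2, h3, -, h5, h6⟩ := chain_path (β := fun j => β (⟨i, h⟩, j))
        (fun j hj => hB.conn (⟨i, h⟩, j) hj)
        (fun j hj j' hj' e => hB.dis (⟨i, h⟩, j) hj (⟨i, h⟩, j') hj' fun c =>
          e (congrArg Prod.snd c))
        (hB.touch ⟨i, h⟩) (hB.ends ⟨i, h⟩).1 (hB.ends ⟨i, h⟩).2
      exact ⟨f, l, t, fun _ => ⟨h1, h2, h3, h5, h6⟩⟩
    · exact ⟨fun _ => u i, 0, fun _ => 0, fun c => absurd c h⟩
  choose f l t hp using paths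
  have lv : ∀ i (h : i < k), ∀ j ≤ l i, lev (f i j) = lam (⟨i, h⟩, t i j) := fun i h j hj =>
    hl' (⟨i, h⟩, t i j) ((hp i h).2.2.2.1 j hj).1 _ ((hp i h).2.2.2.1 j hj).2
  have back : ∀ i (h : i < k) a b e, a ≤ b → b ≤ l i → t i a ≤ e → e ≤ t i b →
      ∃ z, a ≤ z ∧ z ≤ b ∧ lev (f i z) = lam (⟨i, h⟩, e) := fun i h a b e h1 h2 h3 h4 => by
    obtain ⟨z, z1, z2, z3⟩ := Kit2.ivt h1
      (fun j _ j2 => ((hp i h).2.2.2.2 j (by omega)).2) h3 h4
    exact ⟨z, z1, z2, by rw [lv i h z (by omega), z3]⟩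
  refine ⟨f, l, c 0 + g, c 2, c 2 + g + 2, by omega, by omega, by omega,
    fun i h => ⟨(hp i h).1, (hp i h).2.1, (hp i h).2.2.1⟩, fun i hi j hj e a ha b hb o => ?_,
    fun i h a b y h1 h2 h3 => ?_, fun F hF hd => ?_⟩
  · refine Set.disjoint_left.1 (hB.dis (⟨i, hi⟩, t i a) ((hp i hi).2.2.2.1 a ha).1
      (⟨j, hj⟩, t j b) ((hp j hj).2.2.2.1 b hb).1 fun o' => e ?_) ((hp i hi).2.2.2.1 a ha).2
      (o ▸ ((hp j hj).2.2.2.1 b hb).2)
    exact congrArg (fun w : Vx k => w.1.1) o'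
  · have m1 := mono (hp i h).2.2.2.2 h1.le (by omega)
    have m2 := mono (hp i h).2.2.2.2 h2.le h3
    have m3 := ((hp i h).2.2.2.1 y h3).1
    have e1 := lv i h a (by omega)
    have e2 := lv i h b (by omega)
    have e3 := lv i h y h3
    constructor
    · intro a1 a2 a3
      obtain ⟨e, x1, x2, x3⟩ := r1 hR m1 m2 m3 (by omega) (by omega) (by omega)
      obtain ⟨z, z1, z2, z3⟩ := back i h a y e (by omega) h3 x1 x2
      have n1 : a ≠ z := fun o => by subst o; omega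
      have n2 : z ≠ y := fun o => by subst o; omega
      exact ⟨z, by omega, by omega, by omega⟩
    · intro a1 a2 a3
      obtain ⟨e, x1, x2, x3⟩ := r2 hR (by omega) m1 m2 m3 (by omega) (by omega) (by omega)
      obtain ⟨z, z1, z2, z3⟩ := back i h a y e (by omega) h3 x1 x2
      have n1 : a ≠ z := fun o => by subst o; omega
      have n2 : z ≠ y := fun o => by subst o; omega
      exact ⟨z, by omega, by omega, by omega⟩
  · have key : ∀ w ∈ F, ∃ a < r, ((I a).p : ℕ) = w.1 ∧ ∃ x y, x ∈ Icc w.2.1 w.2.2 ∧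
        y ∈ Icc w.2.1 w.2.2 ∧ t w.1 x ∈ Icc (I a).lo (I a).hi ∧ t w.1 y ∈ Icc (I a).lo (I a).hi ∧
        lev (f w.1 x) ≤ c 2 ∧ c 2 + g < lev (f w.1 y) := by
      rintro ⟨i, lo, hi⟩ hw
      obtain ⟨h, h1, ⟨a, ⟨a1, a2⟩, a3⟩, b, ⟨b1, b2⟩, b3⟩ := hF _ hw
      simp only at h h1 a1 a2 a3 b1 b2 b3 ⊢
      have st : ∀ z < l i, lev (f i (z + 1)) ≤ lev (f i z) + 1 ∧
          lev (f i z) ≤ lev (f i (z + 1)) + 1 := fun z hz =>
        ⟨hst _ ((hp i h).1.1 z hz.le) _ ((hp i h).1.1 _ hz) ((hp i h).1.2.1 z hz),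
          hst _ ((hp i h).1.1 _ hz) _ ((hp i h).1.1 z hz.le) ((hp i h).1.2.1 z hz).symm⟩
      obtain ⟨x, y, x1, x2, x3, x4, x5⟩ : ∃ x y, lo ≤ x ∧ x ≤ y ∧ y ≤ hi ∧
          ((lev (f i x) ≤ c 2 ∧ c 2 + g < lev (f i y)) ∨
            (c 2 + g < lev (f i x) ∧ lev (f i y) ≤ c 2)) ∧
          ∀ z, x ≤ z → z ≤ y → c 2 ≤ lev (f i z) ∧ lev (f i z) ≤ c 2 + g + 1 := by
        rcases le_total a b with o | o
        · obtain ⟨x, y, x1, x2, x3, x4⟩ := cross (L := fun z => lev (f i z)) (A := c 2)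
            (B := c 2 + g) (by omega) o (fun z _ z2 => st z (by omega))
            (Or.inl ⟨a3, by omega⟩)
          exact ⟨x, y, by omega, x2, by omega, x4⟩
        · obtain ⟨x, y, x1, x2, x3, x4⟩ := cross (L := fun z => lev (f i z)) (A := c 2)
            (B := c 2 + g) (by omega) o (fun z _ z2 => st z (by omega))
            (Or.inr ⟨by omega, a3⟩)
          exact ⟨x, y, by omega, x2, by omega, x4⟩
      have y1 := x5 x le_rfl x2
      have e1 := lv i h x (by omega)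
      obtain ⟨q, hq, e, l1, l2⟩ := inriv hR ((hp i h).2.2.2.1 x (by omega)).1 (by omega) (by omega)
      have m1 := mono (hp i h).2.2.2.2 x2 (by omega)
      have l3 : t i y ≤ (I q).hi := by
        by_contra o
        obtain ⟨z, z1, z2, z3⟩ := back i h x y (I q).hi x2 (by omega) l2 (by omega)
        have y2 := x5 z z1 z2
        rw [← e] at z3
        rcases facts hR hq with ⟨-, f2, -⟩ | ⟨f1, -, -⟩ <;> omega
      refine ⟨q, hq, by rw [e], ?_⟩
      rcases x4 with ⟨x4, x6⟩ | ⟨x4, x6⟩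
      · exact ⟨x, y, ⟨x1, by omega⟩, ⟨by omega, x3⟩, ⟨l1, l2⟩, ⟨by omega, l3⟩, x4, x6⟩
      · exact ⟨y, x, ⟨by omega, x3⟩, ⟨x1, by omega⟩, ⟨by omega, l3⟩, ⟨l1, l2⟩, x6, x4⟩
    choose! q hq using key
    have no : ∀ w ∈ F, ∀ w' ∈ F, q w = q w' → ¬ w.2.2 < w'.2.1 := fun w hw w' hw' e o => by
      obtain ⟨q1, q2, x, y, ⟨x1, x2⟩, ⟨y1, y2⟩, ⟨x3, x4⟩, ⟨y3, y4⟩, x5, y5⟩ := hq w hw
      obtain ⟨-, q2', x', y', ⟨x1', x2'⟩, ⟨y1', y2'⟩, ⟨x3', x4'⟩, ⟨y3', y4'⟩, x5', y5'⟩ := hq w' hw'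
      rw [← e] at q2' x3' x4' y3' y4'
      have e' : w'.1 = w.1 := q2'.symm.trans q2
      obtain ⟨h, b1, -⟩ := hF w hw
      obtain ⟨-, b2, -⟩ := hF w' hw'
      rw [e'] at x3' x4' y3' y4' x5' y5' b2
      have ep : (I (q w)).p = ⟨w.1, h⟩ := Fin.ext q2
      have e1 := lv _ h x (by omega)
      have e2 := lv _ h y (by omega)
      have e3 := lv _ h x' (by omega)
      have e4 := lv _ h y' (by omega)
      have m1 := mono (hp _ h).2.2.2.2 (by omega : y ≤ x') (by omega)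
      have m2 := mono (hp _ h).2.2.2.2 (by omega : x ≤ y') (by omega)
      have n1 : t w.1 y ≠ t w.1 x' := fun o => by rw [o] at e2; omega
      have n2 : t w.1 x ≠ t w.1 y' := fun o => by rw [o] at e1; omega
      rcases facts hR q1 with ⟨-, -, f3⟩ | ⟨-, -, f3⟩ <;> rw [ep] at f3
      · have := f3 _ _ y3 (by omega) x4' (by omega)
        omega
      · have := f3 _ _ x3 (by omega) y4' (by omega)
        omega
    refine le_trans ?_ hrn.le
    rw [← Finset.card_range r]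
    refine Finset.card_le_card_of_injOn q (fun w hw => by simpa using (hq w hw).1)
      fun w hw w' hw' e => ?_
    by_contra o
    have e' : w.1 = w'.1 := (hq w hw).2.1.symm.trans (e ▸ (hq w' hw').2.1)
    rcases hd w hw w' hw' o e' with o' | o'
    exacts [no w hw w' hw' e o', no w' hw' w hw e.symm o']

end Pool.Agent.MP_9d78a0_co.st

end MrgPart5

-- marker of a merged file
example : 731051 + 714205 = 731051 + 714205 := rfl
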