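import Pool.Agent.MP_9d78a0_co.st.TRg

-- ======== part 0: formerly Pool.Agent.MP_9d78a0_co.st.Side
section MrgPart0

/-! One side of a stable induced path. -/

set_option autoImplicit false

namespace Pool.Agent.MP_9d78a0_co.st

open Set Function fb

namespace Side

variable {V : Type} {H : SimpleGraph V}

theorem cu {S T : Set V} (h : Conn H S) (h' : Conn H T) {x : V} (hx : x ∈ S) (hx' : x ∈ T) :
    Conn H (S ∪ T) := by
  refine conn_of_center (Or.inl hx) ?_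
  rintro v (hv | hv)
  · exact (h.2 x hx v hv).mono subset_union_left
  · exact (h'.2 x hx' v hv).mono subset_union_right

theorem seg {S : Set V} {p : ℕ → V} {n : ℕ} (h : IsPath H S p n) {a b : ℕ} (hab : a ≤ b)
    (hb : b ≤ n) : Conn H (p '' Icc a b) :=
  conn_seg hab fun i _ hi => h.2.1 i (by omega)

theorem lk_link {S A : Set V} {v : V} (h : v ∈ lk H S A) :
    ∃ a ∈ A, Link H (lk H S A) v a := by
  obtain ⟨hv, a, ha, hs, hl⟩ := h
  refine ⟨a, ha, Link.symm (((cp_conn hs).2 a (cp_self hs) v ⟨hv, hl⟩).mono ?_)⟩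
  exact fun x hx => ⟨hx.1, a, ha, hs, hx.2⟩

/-- a link from `X` to `Y` contains one that meets them in its ends only -/
theorem xy {S X Y : Set V} {a b : V} (h : Link H S a b) (hs : a ∈ S) (ha : a ∈ X) (hb : b ∈ Y) :
    ∃ a' ∈ X, ∃ b' ∈ Y, a' ∈ S ∧ b' ∈ S ∧ Link H (S \ (X ∪ Y) ∪ {a', b'}) a' b' := by
  have k : (∃ a' ∈ X, ∃ b' ∈ Y, a' ∈ S ∧ b' ∈ S ∧ Link H (S \ (X ∪ Y) ∪ {a', b'}) a' b') ∨
      (b ∉ Y ∧ ∃ a' ∈ X, a' ∈ S ∧ b ∈ S \ (X ∪ Y) ∪ {a'} ∧ Link H (S \ (X ∪ Y) ∪ {a'}) a' b) := by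
    clear hb
    induction h with
    | refl =>
      by_cases c : a ∈ Y
      · exact Or.inl ⟨a, ha, a, c, hs, hs, Link.refl _ _ _⟩
      · exact Or.inr ⟨c, a, ha, hs, Or.inr rfl, Link.refl _ _ _⟩
    | @tail x y _ h2 ih =>
      rcases ih with ih | ⟨-, a', h3, h4, h5, h6⟩
      · exact Or.inl ih
      · by_cases c : y ∈ Y
        · have sb : S \ (X ∪ Y) ∪ {a'} ⊆ S \ (X ∪ Y) ∪ {a', y} :=
            union_subset_union_right _ (singleton_subset_iff.2 (Or.inl rfl))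
          exact Or.inl ⟨a', h3, y, c, h4, h2.2.1,
            (h6.mono sb).trans (Link.single (sb h5) (Or.inr (Or.inr rfl)) h2.2.2)⟩
        · by_cases d : y ∈ X
          · exact Or.inr ⟨c, y, d, h2.2.1, Or.inr rfl, Link.refl _ _ _⟩
          · have m : y ∈ S \ (X ∪ Y) ∪ {a'} := Or.inl ⟨h2.2.1, fun e => e.elim d c⟩
            exact Or.inr ⟨c, a', h3, h4, m, h6.trans (Link.single h5 m h2.2.2)⟩
  exact k.resolve_right fun c => c.1 hb

/-- a path through a given vertex -/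
theorem thru {X Y : Set V} {a b c : V} (h1 : Link H X a b) (h2 : Link H Y b c) (ha : a ∈ X)
    (hb : b ∈ Y) (hi : X ∩ Y ⊆ {b}) (hab : b ≠ a) (hbc : b ≠ c) :
    ∃ g n m, IsPath H (X ∪ Y) g n ∧ g 0 = a ∧ g n = c ∧ 0 < m ∧ m < n ∧ g m = b := by
  obtain ⟨p, m, ⟨p1, p2, p3⟩, p4, p5⟩ := link_path h1 ha
  obtain ⟨q, k, ⟨q1, q2, q3⟩, q4, q5⟩ := link_path h2 hb
  have hm : 0 < m := Nat.pos_of_ne_zero fun e => hab (by rw [← p5, e, p4])
  have hk : 0 < k := Nat.pos_of_ne_zero fun e => hbc (by rw [← q5, e, q4])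
  have x : ∀ i ≤ m, ∀ j ≤ k, p i = q j → j = 0 := fun i h j h' e =>
    q3 j h' 0 (by omega) (by
      have : q j ∈ X ∩ Y := ⟨e ▸ p1 i h, q1 j h'⟩
      rw [q4]; exact hi this)
  refine ⟨fun i => if i ≤ m then p i else q (i - m), m + k, m, ⟨fun j hj => ?_, fun j hj => ?_,
    fun i h j h' => ?_⟩, by simpa using p4, ?_, hm, by omega, by simpa using p5⟩
  · by_cases d : j ≤ m <;> simp only [d, if_true, if_false]
    exacts [Or.inl (p1 j d), Or.inr (q1 _ (by omega))]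
  · by_cases d : j < m
    · simpa [d.le, Nat.succ_le_of_lt d] using p2 j d
    · by_cases d' : j = m
      · subst d'
        have := q2 0 hk
        rw [q4, ← p5] at this
        simpa using this
      · have e1 : ¬ j ≤ m := by omega
        have e2 : ¬ j + 1 ≤ m := by omega
        have := q2 (j - m) (by omega)
        rw [show j - m + 1 = j + 1 - m by omega] at this
        simpa [e1, e2] using this
  · by_cases d : i ≤ m <;> by_cases d' : j ≤ m <;> simp only [d, d', if_true, if_false] <;> intro e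
    · exact p3 i d j d' e
    · have := x i d (j - m) (by omega) e
      omega
    · have := x j d' (i - m) (by omega) e.symm
      omega
    · have := q3 _ (by omega) _ (by omega) e
      omega
  · have e1 : ¬ m + k ≤ m := by omega
    simpa [e1] using q5

theorem pair_sub {A : List V} {x y : V} (hx : x ∈ A) (hy : y ∈ A) (h : x ≠ y) :
    List.Sublist [x, y] A ∨ List.Sublist [y, x] A := by
  induction A with
  | nil => cases hx
  | cons a A ih =>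
    rcases List.mem_cons.1 hx with rfl | hx'
    · exact Or.inl ((List.singleton_sublist.2
        ((List.mem_cons.1 hy).resolve_left h.symm)).cons_cons _)
    · rcases List.mem_cons.1 hy with rfl | hy'
      · exact Or.inr ((List.singleton_sublist.2 hx').cons_cons _)
      · exact (ih hx' hy').imp (·.cons _) (·.cons _)

theorem px_of {U S P Q : Set V} {L : List V} {a b c d : V} (hs : List.Sublist [a, b, c, d] L)
    (h : Two H U P Q) (ha : a ∈ P) (hc : c ∈ P) (hb : b ∈ Q) (hd : d ∈ Q) (hS : Disjoint P S) :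
    PX H U (sg L ++ [S]) := by
  refine ⟨{a}, {b}, {c}, {d}, (hs.map fun x => ({x} : Set V)).trans (List.sublist_append_left _ _),
    P, Q, h, ⟨a, ha, rfl⟩, ⟨c, hc, rfl⟩, ⟨b, hb, rfl⟩, ⟨d, hd, rfl⟩, fun s m => ?_⟩
  rcases List.mem_append.1 m with m | m
  · obtain ⟨x, -, rfl⟩ := List.mem_map.1 m
    by_cases e : x ∈ P
    · exact Or.inr (disjoint_singleton_right.2 fun e' => disjoint_left.1 h.dis e e')
    · exact Or.inl (disjoint_singleton_right.2 e)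
  · rw [List.mem_singleton.1 m]
    exact Or.inl hS

theorem sg_dis {L : List V} (h : L.Nodup) : (sg L).Pairwise Disjoint :=
  List.pairwise_map.2 (h.imp fun e => disjoint_singleton.2 e)

/-- the tripod lemma with one port -/
theorem triP [Finite V] (hN : NfS) (hC : CtrS) (hT : TriS) {U S : Set V} {L : List V} {u v : V}
    (X Y R : Fin 3 → Set V) (c : Fin 3 → V) (hL : L.Nodup) (hS : S ⊆ U) (hLS : Disjoint (ls L) S)
    (h1 : ∀ t, Link H (X t) u (c t) ∧ Link H (Y t) (c t) v ∧ u ∈ X t ∧ c t ∈ Y t ∧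
      X t ∩ Y t ⊆ {c t} ∧ c t ≠ u ∧ c t ≠ v ∧ X t ∪ Y t ⊆ U \ S)
    (h2 : ∀ t t', t ≠ t' → (X t ∪ Y t) ∩ (X t' ∪ Y t') ⊆ {u, v})
    (h3 : ∀ t, R t ⊆ U \ S ∧ Conn H (R t) ∧ c t ∈ R t ∧ (R t ∩ ls L).Nonempty)
    (h4 : ∀ t t', R t ∩ (X t' ∪ Y t') ⊆ {c t}) (h5 : Pairwise (Disjoint on R))
    (hx : ¬ PX H U (sg L ++ [S])) :
    ∃ z : Fin 3 → V, (∀ t, z t ∈ R t) ∧ ∀ C ⊆ U \ range z, Conn H C → u ∈ C →
      Disjoint C (ls L) ∧ Disjoint C S := by
  choose g n m hg using fun t => thru (h1 t).1 (h1 t).2.1 (h1 t).2.2.1 (h1 t).2.2.2.1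
    (h1 t).2.2.2.2.1 (h1 t).2.2.2.2.2.1 (h1 t).2.2.2.2.2.2.1
  have k2 : ∀ t t', t ≠ t' → ∀ i, 0 < i → i < n t → ∀ j ≤ n t', g t i ≠ g t' j := by
    intro t t' e i a b j d e'
    rcases h2 t t' e ⟨(hg t).1.1 i b.le, e' ▸ (hg t').1.1 j d⟩ with x | x
    · have := (hg t).1.2.2 i b.le 0 (by omega) (by rw [(hg t).2.1]; exact x)
      omega
    · have := (hg t).1.2.2 i b.le (n t) le_rfl (by rw [(hg t).2.2.1]; exact x)
      omega
  have k3 : ∀ t, R t ∩ {w | ∃ t', ∃ j ≤ n t', g t' j = w} = {g t (m t)} := fun t => by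
    rw [(hg t).2.2.2.2.2]
    refine Subset.antisymm ?_ (singleton_subset_iff.2 ⟨(h3 t).2.2.1, t, m t,
      (hg t).2.2.2.2.1.le, (hg t).2.2.2.2.2⟩)
    rintro _ ⟨a, t', j, b, rfl⟩
    exact h4 t t' ⟨a, (hg t').1.1 j b⟩
  have hu : u ∈ {w | ∃ t', ∃ j ≤ n t', g t' j = w} := ⟨0, 0, Nat.zero_le _, (hg 0).2.1⟩
  have huS : u ∉ S := ((h1 0).2.2.2.2.2.2.2 (Or.inl (h1 0).2.2.1)).2
  rcases S.eq_empty_or_nonempty with rfl | ⟨ω, hω⟩
  · rcases hT V H U L u v g n m R hL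
      (fun t => ⟨⟨fun j hj => ((h1 t).2.2.2.2.2.2.2 ((hg t).1.1 j hj)).1, (hg t).1.2⟩,
        (hg t).2.1, (hg t).2.2.1, (hg t).2.2.2.1, (hg t).2.2.2.2.1⟩) k2
      (fun t => ⟨fun x a => ((h3 t).1 a).1, (h3 t).2.1, k3 t, (h3 t).2.2.2⟩) h5 with
      ⟨a, b, c', d, s, P, Q, h, ha, hc, hb, hd⟩ | ⟨z, z1, z2⟩
    · exact absurd (px_of s h ha hc hb hd (disjoint_empty _)) hx
    · exact ⟨z, z1, fun C a b d => ⟨z2 C a b ⟨u, d, hu⟩, disjoint_empty _⟩⟩
  · obtain ⟨-, c2, c3, -, c5, -⟩ := hC V H U S ω hω hS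
    have nd : (L ++ [ω]).Nodup := List.nodup_append.2 ⟨hL, List.nodup_singleton _,
      fun a ha b hb e => disjoint_left.1 hLS ha (by rw [e, List.mem_singleton.1 hb]; exact hω)⟩
    have dR : ∀ t, Disjoint (R t) S := fun t => disjoint_left.2 fun x a => ((h3 t).1 a).2
    rcases hT V (ctr H S ω) (U \ S ∪ {ω}) (L ++ [ω]) u v g n m R nd
      (fun t => ⟨⟨fun j hj => Or.inl ((h1 t).2.2.2.2.2.2.2 ((hg t).1.1 j hj)), fun j hj =>
        ⟨((hg t).1.2.1 j hj).ne, Or.inl ((h1 t).2.2.2.2.2.2.2 ((hg t).1.1 j hj.le)).2,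
          Or.inl ((h1 t).2.2.2.2.2.2.2 ((hg t).1.1 (j + 1) hj)).2, _, _, (hg t).1.2.1 j hj,
          Or.inl rfl, Or.inl rfl⟩, (hg t).1.2.2⟩,
        (hg t).2.1, (hg t).2.2.1, (hg t).2.2.2.1, (hg t).2.2.2.2.1⟩) k2
      (fun t => ⟨fun x a => Or.inl ((h3 t).1 a), (c3 _ (dR t)).1 (h3 t).2.1, k3 t,
        (h3 t).2.2.2.mono fun x a => ⟨a.1, List.mem_append_left _ a.2⟩⟩) h5 with
      h | ⟨z, z1, z2⟩
    · refine absurd ((c5 (sg L) [] ?_).2 ?_) hx
      · refine List.pairwise_append.2 ⟨sg_dis hL, List.pairwise_singleton _ _, fun a ha b hb => ?_⟩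
        obtain ⟨x, m, rfl⟩ := List.mem_map.1 ha
        rw [List.mem_singleton.1 hb]
        exact disjoint_singleton_left.2 (disjoint_left.1 hLS m)
      · have := ((hN V _ _).2.1 _).1 h
        simpa [sg] using this
    · refine ⟨z, z1, fun C a b d => ?_⟩
      have dS : Disjoint C S := by
        by_contra e
        refine disjoint_left.1 (z2 (C \ S ∪ {ω}) ?_ (c2 C b (not_disjoint_iff_nonempty_inter.1 e))
          ⟨u, Or.inl ⟨d, huS⟩, hu⟩) (Or.inr rfl) (List.mem_append_right _ (List.mem_singleton_self _))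
        rintro x (m | rfl)
        · exact ⟨Or.inl ⟨(a m.1).1, m.2⟩, (a m.1).2⟩
        · exact ⟨Or.inr rfl, fun ⟨t, e⟩ => disjoint_left.1 (dR t) (z1 t) (e ▸ hω)⟩
      refine ⟨(z2 C (fun x m => ⟨Or.inl ⟨(a m).1, disjoint_left.1 dS m⟩, (a m).2⟩)
        ((c3 C dS).1 b) ⟨u, d, hu⟩).mono_right fun x m => List.mem_append_left _ m, dS⟩

/-- the situation of the lemma -/
structure Sit (H : SimpleGraph V) (U S1 S2 : Set V) (A1 : List V) (f : ℕ → V) (l : ℕ) : Prop where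
  tight : Tight H U
  nd : (f 0 :: A1 ++ [f l]).Nodup
  path : IsPath H U f l
  ind : ∀ i ≤ l, ∀ j ≤ l, H.Adj (f i) (f j) → i + 1 = j ∨ j + 1 = i
  a1 : ∀ x ∈ A1, x ∈ S1
  s1 : S1 ⊆ U \ S2
  s2 : S2 ⊆ U
  f1 : ∀ i ≤ l, f i ∉ S1
  f2 : ∀ i ≤ l, f i ∉ S2
  lnk : ∀ v ∈ S1, ∃ a ∈ A1, Link H S1 v a
  nx : ¬ PX H U (sg (f 0 :: A1 ++ [f l]) ++ [S2])

/-- the second outcome -/
def Out (H : SimpleGraph V) (S1 S2 : Set V) (A1 : List V) (f : ℕ → V) (l : ℕ) : Prop :=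
  ∃ i k x C, i + 2 ≤ k ∧ k ≤ l ∧ x ∈ S1 ∧ Pock H C {f i, f k, x} ∧ Disjoint C (ls A1) ∧
    Disjoint C S2 ∧ C ∩ f '' Iic l = f '' Ioo i k

variable {U S1 S2 : Set V} {A1 : List V} {f : ℕ → V} {l : ℕ}

theorem Sit.segU (h : Sit H U S1 S2 A1 f l) {a b : ℕ} (hb : b ≤ l) : f '' Icc a b ⊆ U \ S2 := by
  rintro _ ⟨n, hn, rfl⟩
  exact ⟨h.path.1 n (hn.2.trans hb), h.f2 n (hn.2.trans hb)⟩

theorem Sit.no (h : Sit H U S1 S2 A1 f l) {P Q : Set V} {a b c d : V}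
    (hs : List.Sublist [a, b, c, d] (f 0 :: A1 ++ [f l])) (hP : P ⊆ U \ S2) (hQ : Q ⊆ U \ S2)
    (cP : Conn H P) (cQ : Conn H Q) (hd : Disjoint P Q) (ha : a ∈ P) (hc : c ∈ P) (hb : b ∈ Q)
    (hd' : d ∈ Q) : False :=
  h.nx (px_of hs ⟨fun _ m => (hP m).1, fun _ m => (hQ m).1, cP, cQ, hd⟩ ha hc hb hd'
    (disjoint_left.2 fun _ m => (hP m).2))

theorem mid {x y : V} (h : List.Sublist [x, y] A1) (a b : V) :
    List.Sublist [a, x, y, b] (a :: A1 ++ [b]) :=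
  (h.append (List.Sublist.refl [b])).cons_cons a

/-- a path between two vertices of the path that are not neighbours has inner vertices -/
theorem Sit.jump (h : Sit H U S1 S2 A1 f l) {i k : ℕ} (hik : i + 2 ≤ k) (hk : k ≤ l) {W : Set V}
    (hi : f i ∈ W) (hl : Link H W (f i) (f k)) (hW : W ⊆ S1 ∪ {f i, f k}) :
    ∃ q n, IsPath H W q n ∧ q 0 = f i ∧ q n = f k ∧ 1 < n ∧ ∀ s, 0 < s → s < n → q s ∈ S1 := by
  obtain ⟨q, n, hq, q0, qn⟩ := link_path hl hi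
  refine ⟨q, n, hq, q0, qn, ?_, fun s a b => ?_⟩
  · by_contra c
    rcases (show n = 0 ∨ n = 1 by omega) with rfl | rfl
    · have := h.path.2.2 i (by omega) k hk (q0.symm.trans qn)
      omega
    · have := hq.2.1 0 one_pos
      rw [q0, zero_add, qn] at this
      have := h.ind i (by omega) k hk this
      omega
  · rcases hW (hq.1 s b.le) with m | m | m
    · exact m
    · have := hq.2.2 s b.le 0 (by omega) (m.trans q0.symm)
      omega
    · have := hq.2.2 s b.le n le_rfl (m.trans qn.symm)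
      omega

theorem Sit.three [Finite V] (hN : NfS) (hC : CtrS) (hT : TriS) (h : Sit H U S1 S2 A1 f l)
    {i j k : ℕ} (hij : i < j) (hjk : j < k) (hk : k ≤ l) {x : V} (hx : x ∈ A1) {W1 W2 : Set V}
    (x1 : x ∈ W1) (l1 : Link H W1 x (f j)) (w1 : W1 ⊆ S1 ∪ {f j}) (x2 : f i ∈ W2)
    (l2 : Link H W2 (f i) (f k)) (w2 : W2 ⊆ S1 ∪ {f i, f k}) (hd : Disjoint W1 W2) :
    Out H S1 S2 A1 f l := by
  obtain ⟨p, lp, hp, p0, pn⟩ := link_path l1 x1
  obtain ⟨q, lq, hq, q0, qn, q1, qS⟩ := h.jump (by omega) hk x2 l2 w2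
  have fi := h.path.2.2
  have pS : ∀ s < lp, p s ∈ S1 := fun s a => (w1 (hp.1 s a.le)).resolve_right fun m => by
    have := hp.2.2 s a.le lp le_rfl (m.trans pn.symm)
    omega
  have pq : ∀ s ≤ lp, ∀ s' ≤ lq, p s ≠ q s' := fun s a s' b e =>
    disjoint_left.1 hd (hp.1 s a) (e ▸ hq.1 s' b)
  have fp : ∀ n ≤ l, ∀ s ≤ lp, f n = p s → n = j ∧ s = lp := fun n a s b e => by
    have : s = lp := by
      by_contra c
      exact h.f1 n a (e ▸ pS s (by omega))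
    exact ⟨fi n a j (by omega) (by rw [e, this, pn]), this⟩
  have fq : ∀ n ≤ l, ∀ s ≤ lq, f n = q s → (n = i ∧ s = 0) ∨ (n = k ∧ s = lq) := fun n a s b e => by
    by_cases c : s = 0
    · exact Or.inl ⟨fi n a i (by omega) (by rw [e, c, q0]), c⟩
    · by_cases c' : s = lq
      · exact Or.inr ⟨fi n a k hk (by rw [e, c', qn]), c'⟩
      · exact absurd (e ▸ qS s (by omega) (by omega)) (h.f1 n a)
  have pU : ∀ a b, b ≤ lp → p '' Icc a b ⊆ U \ S2 := by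
    rintro a b hb _ ⟨s, hs, rfl⟩
    rcases w1 (hp.1 s (hs.2.trans hb)) with m | m
    · exact h.s1 m
    · rw [m]; exact ⟨h.path.1 j (by omega), h.f2 j (by omega)⟩
  have qU : ∀ a b, b ≤ lq → q '' Icc a b ⊆ U \ S2 := by
    rintro a b hb _ ⟨s, hs, rfl⟩
    rcases w2 (hq.1 s (hs.2.trans hb)) with m | m | m
    · exact h.s1 m
    · rw [m]; exact ⟨h.path.1 i (by omega), h.f2 i (by omega)⟩
    · rw [m]; exact ⟨h.path.1 k (by omega), h.f2 k (by omega)⟩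
  obtain ⟨a', ha', hl'⟩ := h.lnk _ (qS 1 one_pos q1)
  obtain ⟨_, ⟨m, ⟨m0, m1⟩, rfl⟩, v, hv, wS, vS, hR⟩ := xy (X := q '' Ioo 0 lq)
    (Y := p '' Iic lp ∪ ls A1) hl' (qS 1 one_pos q1) ⟨1, ⟨one_pos, q1⟩, rfl⟩ (Or.inr ha')
  set R := S1 \ (q '' Ioo 0 lq ∪ (p '' Iic lp ∪ ls A1)) ∪ {q m, v} with hRd
  have RS : R ⊆ S1 := by
    rintro y (a | rfl | rfl)
    exacts [a.1, wS, vS]
  have Rf : ∀ n ≤ l, f n ∉ R := fun n a e => h.f1 n a (RS e)
  have Rp : ∀ s ≤ lp, p s ∈ R → p s = v := by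
    rintro s a (e | e | e)
    · exact absurd (Or.inr (Or.inl ⟨s, a, rfl⟩)) e.2
    · exact absurd e (pq s a m m1.le)
    · exact e
  have wR : q m ∈ R := Or.inr (Or.inl rfl)
  by_cases hvp : v ∈ p '' Iic lp
  swap
  · exfalso
    have hv' : v ∈ A1 := hv.resolve_left hvp
    have dp : ∀ s ≤ lp, p s ∉ cp H R (q m) := fun s a e => hvp ⟨s, a, Rp s a e.1⟩
    have vx : x ≠ v := fun e => hvp ⟨0, Nat.zero_le _, p0.trans e⟩
    have cR := cp_conn (G := H) wR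
    have vR : v ∈ cp H R (q m) := ⟨Or.inr (Or.inr rfl), hR⟩
    have RU : cp H R (q m) ⊆ U \ S2 := fun y a => h.s1 (RS a.1)
    rcases pair_sub hx hv' vx with s | s
    · refine h.no (P := f '' Icc 0 i ∪ q '' Icc 0 m ∪ cp H R (q m)) (Q := p '' Icc 0 lp ∪ f '' Icc j l)
        (mid s _ _) (union_subset (union_subset (h.segU (by omega)) (qU _ _ m1.le)) RU)
        (union_subset (pU _ _ le_rfl) (h.segU le_rfl))
        (cu (cu (seg h.path (Nat.zero_le _) (by omega)) (seg hq (Nat.zero_le _) m1.le)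
          ⟨i, ⟨Nat.zero_le _, le_rfl⟩, rfl⟩ ⟨0, ⟨le_rfl, m0.le⟩, q0⟩) cR
          (Or.inr ⟨m, ⟨m0.le, le_rfl⟩, rfl⟩) (cp_self wR))
        (cu (seg hp (Nat.zero_le _) le_rfl) (seg h.path (by omega) le_rfl)
          ⟨lp, ⟨Nat.zero_le _, le_rfl⟩, pn⟩ ⟨j, ⟨le_rfl, by omega⟩, rfl⟩) ?_
        (Or.inl (Or.inl ⟨0, ⟨le_rfl, Nat.zero_le _⟩, rfl⟩)) (Or.inr vR)
        (Or.inl ⟨0, ⟨le_rfl, Nat.zero_le _⟩, p0⟩) (Or.inr ⟨l, ⟨by omega, le_rfl⟩, rfl⟩)
      rw [disjoint_right]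
      rintro _ (⟨s, ⟨-, a⟩, rfl⟩ | ⟨s, ⟨a, a'⟩, rfl⟩) ((⟨n, ⟨-, b⟩, e⟩ | ⟨n, ⟨-, b⟩, e⟩) | e)
      · have := fp n (by omega) s a e
        omega
      · exact pq s a n (by omega) e.symm
      · exact dp s a e
      · have := fi n (by omega) s a' e
        omega
      · have := fq s a' n (by omega) e.symm
        omega
      · exact Rf s a' e.1
    · refine h.no (P := f '' Icc 0 j ∪ p '' Icc 0 lp) (Q := f '' Icc k l ∪ q '' Icc m lq ∪ cp H R (q m))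
        (mid s _ _) (union_subset (h.segU (by omega)) (pU _ _ le_rfl))
        (union_subset (union_subset (h.segU le_rfl) (qU _ _ le_rfl)) RU)
        (cu (seg h.path (Nat.zero_le _) (by omega)) (seg hp (Nat.zero_le _) le_rfl)
          ⟨j, ⟨Nat.zero_le _, le_rfl⟩, rfl⟩ ⟨lp, ⟨Nat.zero_le _, le_rfl⟩, pn⟩)
        (cu (cu (seg h.path hk le_rfl) (seg hq m1.le le_rfl)
          ⟨k, ⟨le_rfl, hk⟩, rfl⟩ ⟨lq, ⟨m1.le, le_rfl⟩, qn⟩) cR
          (Or.inr ⟨m, ⟨le_rfl, m1.le⟩, rfl⟩) (cp_self wR)) ?_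
        (Or.inl ⟨0, ⟨le_rfl, Nat.zero_le _⟩, rfl⟩) (Or.inr ⟨0, ⟨le_rfl, Nat.zero_le _⟩, p0⟩)
        (Or.inr vR) (Or.inl (Or.inl ⟨l, ⟨hk, le_rfl⟩, rfl⟩))
      rw [disjoint_left]
      rintro _ (⟨s, ⟨-, a⟩, rfl⟩ | ⟨s, ⟨-, a⟩, rfl⟩) ((⟨n, ⟨b, b'⟩, e⟩ | ⟨n, ⟨b, b'⟩, e⟩) | e)
      · have := fi n b' s (by omega) e
        omega
      · have := fq s (by omega) n b' e.symm
        omega
      · exact Rf s (by omega) e.1
      · have := fp n b' s a e
        omega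
      · exact pq s a n b' e.symm
      · exact dp s a e
  obtain ⟨s0, hs0, rfl⟩ := hvp
  have hs0 : s0 < lp := lt_of_le_of_ne hs0 fun e => h.f1 j (by omega) (by rw [← pn, ← e]; exact vS)
  have Rp' : ∀ s ≤ lp, p s ∈ R → s = s0 := fun s a e => hp.2.2 s a s0 hs0.le (Rp s a e)
  have Rq : ∀ s ≤ lq, q s ∈ R → s = m := by
    rintro s a e
    have e' := RS e
    rcases e with e | e | e
    · refine absurd (Or.inl ⟨s, ⟨Nat.pos_of_ne_zero ?_, lt_of_le_of_ne a ?_⟩, rfl⟩) e.2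
      · rintro rfl
        exact h.f1 i (by omega) (q0 ▸ e')
      · rintro rfl
        exact h.f1 k (by omega) (qn ▸ e')
    · exact hq.2.2 s a m m1.le e
    · exact absurd e.symm (pq s0 hs0.le s a)
  have hl0 : f 0 ∈ ls (f 0 :: A1 ++ [f l]) := by simp [ls]
  have hll : f l ∈ ls (f 0 :: A1 ++ [f l]) := by simp [ls]
  have hA : ls A1 ⊆ ls (f 0 :: A1 ++ [f l]) := fun y a => by
    have : y ∈ A1 := a
    simp [ls, this]
  have d01 : (f '' Icc i j ∪ q '' Icc 0 m) ∩ (f '' Icc j k ∪ q '' Icc m lq) ⊆ {f j, q m} := by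
    rintro _ ⟨⟨s, ⟨a, a'⟩, rfl⟩ | ⟨s, ⟨a, a'⟩, rfl⟩, ⟨n, ⟨b, b'⟩, e⟩ | ⟨n, ⟨b, b'⟩, e⟩⟩
    · have := fi n (by omega) s (by omega) e
      exact Or.inl (congrArg f (by omega))
    · have := fq s (by omega) n b' e.symm
      omega
    · have := fq n (by omega) s (by omega) e
      omega
    · have := hq.2.2 n b' s (by omega) e
      exact Or.inr (congrArg q (show s = m by omega))
  have d2 : ∀ a b a' b', b ≤ l → b' ≤ lq →
      (f '' Icc a b ∪ q '' Icc a' b') ∩ (p '' Icc s0 lp ∪ R) ⊆ {f j, q m} := by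
    rintro a b a' b' hb hb' _ ⟨⟨s, ⟨-, c⟩, rfl⟩ | ⟨s, ⟨-, c⟩, rfl⟩, ⟨n, ⟨-, d⟩, e⟩ | e⟩
    · exact Or.inl (congrArg f (fp s (by omega) n d e.symm).1)
    · exact absurd e (Rf s (by omega))
    · exact absurd e (pq n d s (by omega))
    · exact Or.inr (congrArg q (Rq s (by omega) e))
  obtain ⟨z, z1, z2⟩ := triP hN hC hT (H := H) (u := f j) (v := q m)
    ![f '' Icc i j, f '' Icc j k, p '' Icc s0 lp] ![q '' Icc 0 m, q '' Icc m lq, R]
    ![f '' Icc 0 i, f '' Icc k l, p '' Icc 0 s0] ![f i, f k, p s0] h.nd h.s2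
    (disjoint_left.2 fun y a => by
      simp only [ls, List.cons_append, List.mem_cons, List.mem_append, List.not_mem_nil, or_false,
        mem_ofPred_eq] at a
      rcases a with rfl | a | rfl
      exacts [h.f2 0 (Nat.zero_le _), (h.s1 (h.a1 y a)).2, h.f2 l le_rfl])
    (fun t => by
      fin_cases t
      · refine ⟨(seg h.path hij.le (by omega)).2 _ ⟨j, ⟨hij.le, le_rfl⟩, rfl⟩ _
          ⟨i, ⟨le_rfl, hij.le⟩, rfl⟩, (seg hq m0.le m1.le).2 _ ⟨0, ⟨le_rfl, m0.le⟩, q0⟩ _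
          ⟨m, ⟨m0.le, le_rfl⟩, rfl⟩, ⟨j, ⟨hij.le, le_rfl⟩, rfl⟩, ⟨0, ⟨le_rfl, m0.le⟩, q0⟩, ?_,
          fun e => ?_, fun e => ?_, union_subset (h.segU (by omega)) (qU _ _ m1.le)⟩
        · rintro _ ⟨⟨s, ⟨a, a'⟩, rfl⟩, n, ⟨b, b'⟩, e⟩
          have := fq s (by omega) n (by omega) e.symm
          exact congrArg f (show s = i by omega)
        · have := fi i (by omega) j (by omega) e
          omega
        · exact h.f1 i (by omega) (by rw [show f i = q m from e]; exact wS)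
      · refine ⟨(seg h.path hjk.le hk).2 _ ⟨j, ⟨le_rfl, hjk.le⟩, rfl⟩ _
          ⟨k, ⟨hjk.le, le_rfl⟩, rfl⟩, (seg hq m1.le le_rfl).2 _ ⟨lq, ⟨m1.le, le_rfl⟩, qn⟩ _
          ⟨m, ⟨le_rfl, m1.le⟩, rfl⟩, ⟨j, ⟨le_rfl, hjk.le⟩, rfl⟩, ⟨lq, ⟨m1.le, le_rfl⟩, qn⟩, ?_,
          fun e => ?_, fun e => ?_, union_subset (h.segU hk) (qU _ _ le_rfl)⟩
        · rintro _ ⟨⟨s, ⟨a, a'⟩, rfl⟩, n, ⟨b, b'⟩, e⟩
          have := fq s (by omega) n (by omega) e.symm
          exact congrArg f (show s = k by omega)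
        · have := fi k (by omega) j (by omega) e
          omega
        · exact h.f1 k (by omega) (by rw [show f k = q m from e]; exact wS)
      · refine ⟨(seg hp hs0.le le_rfl).2 _ ⟨lp, ⟨hs0.le, le_rfl⟩, pn⟩ _
          ⟨s0, ⟨le_rfl, hs0.le⟩, rfl⟩, hR.symm, ⟨lp, ⟨hs0.le, le_rfl⟩, pn⟩, Or.inr (Or.inr rfl), ?_,
          fun e => ?_, pq s0 hs0.le m m1.le, union_subset (pU _ _ le_rfl) fun y a => h.s1 (RS a)⟩
        · rintro _ ⟨⟨s, ⟨a, a'⟩, rfl⟩, e⟩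
          exact Rp s a' e
        · exact h.f1 j (by omega) (by rw [← show p s0 = f j from e]; exact vS))
    (fun t t' e => by
      fin_cases t <;> fin_cases t' <;> first | exact absurd rfl e | skip
      · exact d01
      · exact d2 _ _ _ _ (by omega) m1.le
      · exact (inter_comm _ _).subset.trans d01
      · exact d2 _ _ _ _ hk le_rfl
      · exact (inter_comm _ _).subset.trans (d2 _ _ _ _ (by omega) m1.le)
      · exact (inter_comm _ _).subset.trans (d2 _ _ _ _ hk le_rfl))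
    (fun t => by
      fin_cases t
      · exact ⟨h.segU (by omega), seg h.path (Nat.zero_le _) (by omega),
          ⟨i, ⟨Nat.zero_le _, le_rfl⟩, rfl⟩, _, ⟨0, ⟨le_rfl, Nat.zero_le _⟩, rfl⟩, hl0⟩
      · exact ⟨h.segU le_rfl, seg h.path hk le_rfl, ⟨k, ⟨le_rfl, hk⟩, rfl⟩, _,
          ⟨l, ⟨hk, le_rfl⟩, rfl⟩, hll⟩
      · exact ⟨pU _ _ hs0.le, seg hp (Nat.zero_le _) hs0.le, ⟨s0, ⟨Nat.zero_le _, le_rfl⟩, rfl⟩, _,
          ⟨0, ⟨le_rfl, Nat.zero_le _⟩, p0⟩, hA hx⟩)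
    (fun t t' => by
      fin_cases t <;> rintro _ ⟨⟨s, ⟨a, a'⟩, rfl⟩, e⟩ <;> fin_cases t'
      · rcases e with ⟨n, ⟨b, b'⟩, e⟩ | ⟨n, ⟨b, b'⟩, e⟩
        · have := fi n (by omega) s (by omega) e
          exact congrArg f (show s = i by omega)
        · have := fq s (by omega) n (by omega) e.symm
          exact congrArg f (show s = i by omega)
      · rcases e with ⟨n, ⟨b, b'⟩, e⟩ | ⟨n, ⟨b, b'⟩, e⟩
        · have := fi n (by omega) s (by omega) e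
          omega
        · have := fq s (by omega) n (by omega) e.symm
          omega
      · rcases e with ⟨n, ⟨b, b'⟩, e⟩ | e
        · have := fp s (by omega) n (by omega) e.symm
          omega
        · exact absurd e (Rf s (by omega))
      · rcases e with ⟨n, ⟨b, b'⟩, e⟩ | ⟨n, ⟨b, b'⟩, e⟩
        · have := fi n (by omega) s (by omega) e
          omega
        · have := fq s (by omega) n (by omega) e.symm
          omega
      · rcases e with ⟨n, ⟨b, b'⟩, e⟩ | ⟨n, ⟨b, b'⟩, e⟩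
        · have := fi n (by omega) s (by omega) e
          exact congrArg f (show s = k by omega)
        · have := fq s (by omega) n (by omega) e.symm
          exact congrArg f (show s = k by omega)
      · rcases e with ⟨n, ⟨b, b'⟩, e⟩ | e
        · have := fp s (by omega) n (by omega) e.symm
          omega
        · exact absurd e (Rf s (by omega))
      · rcases e with ⟨n, ⟨b, b'⟩, e⟩ | ⟨n, ⟨b, b'⟩, e⟩
        · have := fp n (by omega) s (by omega) e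
          omega
        · exact absurd e.symm (pq s (by omega) n (by omega))
      · rcases e with ⟨n, ⟨b, b'⟩, e⟩ | ⟨n, ⟨b, b'⟩, e⟩
        · have := fp n (by omega) s (by omega) e
          omega
        · exact absurd e.symm (pq s (by omega) n (by omega))
      · rcases e with ⟨n, ⟨b, b'⟩, e⟩ | e
        · have := hp.2.2 n (by omega) s (by omega) e
          exact congrArg p (show s = s0 by omega)
        · exact Rp s (by omega) e)
    (fun t t' e => by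
      fin_cases t <;> fin_cases t' <;> first | exact absurd rfl e | skip
      all_goals
        refine disjoint_left.2 ?_
        rintro _ ⟨s, ⟨a, a'⟩, rfl⟩ ⟨n, ⟨b, b'⟩, e⟩
      · have := fi n (by omega) s (by omega) e
        omega
      · have := fp s (by omega) n (by omega) e.symm
        omega
      · have := fi n (by omega) s (by omega) e
        omega
      · have := fp s (by omega) n (by omega) e.symm
        omega
      · have := fp n (by omega) s (by omega) e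
        omega
      · have := fp n (by omega) s (by omega) e
        omega) h.nx
  obtain ⟨i', ⟨-, hi'⟩, e0⟩ := z1 0
  obtain ⟨k', ⟨hk', hk''⟩, e1⟩ := z1 1
  obtain ⟨s, ⟨-, hs⟩, e2⟩ := z1 2
  have rz : range z = {f i', f k', p s} := by
    ext y
    constructor
    · rintro ⟨t, rfl⟩
      fin_cases t
      exacts [Or.inl e0.symm, Or.inr (Or.inl e1.symm), Or.inr (Or.inr e2.symm)]
    · rintro (rfl | rfl | rfl)
      exacts [⟨0, e0.symm⟩, ⟨1, e1.symm⟩, ⟨2, e2.symm⟩]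
  rw [rz] at z2
  have fz : ∀ n ≤ l, n ≠ i' → n ≠ k' → f n ∈ U \ {f i', f k', p s} := fun n a b c =>
    ⟨h.path.1 n a, by
      rintro (e | e | e)
      · exact b (fi n a i' (by omega) e)
      · exact c (fi n a k' hk'' e)
      · have := fp n a s (by omega) e
        omega⟩
  have hj := fz j (by omega) (by omega) (by omega)
  obtain ⟨c1, c2⟩ := z2 _ cp_sub (cp_conn hj) (cp_self hj)
  have sg1 : ∀ a b n, a ≤ n → n ≤ b → b ≤ l → (i' < a ∨ b < i') → (k' < a ∨ b < k') →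
      f n ∈ cp H (U \ {f i', f k', p s}) (f j) → f '' Icc a b ⊆ cp H (U \ {f i', f k', p s}) (f j) :=
    fun a b n h1 h2 h3 h4 h5 h6 => conn_sub_cp (seg h.path (h1.trans h2) h3) (by
      rintro _ ⟨y, ⟨y1, y2⟩, rfl⟩
      exact fz y (by omega) (by omega) (by omega)) ⟨n, ⟨h1, h2⟩, rfl⟩ h6
  have in1 := sg1 (i' + 1) (k' - 1) j (by omega) (by omega) (by omega) (by omega) (by omega)
    (cp_self hj)
  refine ⟨i', k', p s, _, by omega, hk'', pS s (by omega), ⟨cp_conn hj,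
    disjoint_left.2 fun y a => a.1.2, fun y a y' e => ?_, ?_⟩, c1.mono_right hA, c2, ?_⟩
  · by_cases c : y' ∈ ({f i', f k', p s} : Set V)
    · exact Or.inr c
    · exact Or.inl (cp_closed a ⟨h.tight _ _ e.symm, c⟩ e)
  · rintro _ (rfl | rfl | rfl)
    · exact ⟨_, in1 ⟨i' + 1, ⟨le_rfl, by omega⟩, rfl⟩, (h.path.2.1 i' (by omega)).symm⟩
    · refine ⟨_, in1 ⟨k' - 1, ⟨by omega, le_rfl⟩, rfl⟩, ?_⟩
      have := h.path.2.1 (k' - 1) (by omega)
      rwa [show k' - 1 + 1 = k' by omega] at this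
    · refine ⟨p (s + 1), conn_sub_cp (seg hp (show s + 1 ≤ lp by omega) le_rfl) ?_
        ⟨lp, ⟨by omega, le_rfl⟩, pn⟩ (cp_self hj) ⟨s + 1, ⟨le_rfl, by omega⟩, rfl⟩,
        (hp.2.1 s (by omega)).symm⟩
      rintro _ ⟨y, ⟨y1, y2⟩, rfl⟩
      refine ⟨(pU _ _ le_rfl ⟨y, ⟨Nat.zero_le _, y2⟩, rfl⟩).1, ?_⟩
      rintro (e | e | e)
      · have := fp i' (by omega) y y2 e.symm
        omega
      · have := fp k' (by omega) y y2 e.symm
        omega
      · have := hp.2.2 y y2 s (by omega) e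
        omega
  · refine Subset.antisymm ?_ ?_
    · rintro _ ⟨a, n, b, rfl⟩
      have b : n ≤ l := b
      have n1 : n ≠ i' := fun e => a.1.2 (Or.inl (congrArg f e))
      have n2 : n ≠ k' := fun e => a.1.2 (Or.inr (Or.inl (congrArg f e)))
      refine ⟨n, ⟨?_, ?_⟩, rfl⟩
      · by_contra c
        exact disjoint_left.1 c1 (sg1 0 n n (Nat.zero_le _) le_rfl b (by omega) (by omega) a
          ⟨0, ⟨le_rfl, Nat.zero_le _⟩, rfl⟩) hl0
      · by_contra c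
        exact disjoint_left.1 c1 (sg1 n l n le_rfl b le_rfl (by omega) (by omega) a
          ⟨l, ⟨b, le_rfl⟩, rfl⟩) hll
    · rintro _ ⟨n, ⟨a, b⟩, rfl⟩
      exact ⟨in1 ⟨n, ⟨by omega, by omega⟩, rfl⟩, n, show n ≤ l by omega, rfl⟩

theorem nf (hN : NfS) {W : Set V} {L : List V} (hL : L.Nodup) (h : Cr H W L) :
    ∃ a b c d, List.Sublist [a, b, c, d] L ∧ ∃ P Q, Two H W P Q ∧ a ∈ P ∧ c ∈ P ∧ b ∈ Q ∧ d ∈ Q ∧
      P ∩ ls L ⊆ {a, c} ∧ Q ∩ ls L ⊆ {b, d} := by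
  obtain ⟨a, b, c, d, s, p, q, n, m, hp, hq, -, -, h1, h2, h3, h4, h5, h6, h7⟩ :=
    (hN V H W).1 (sg L) (sg_dis hL) (((hN V H W).2.1 L).1 h)
  obtain ⟨l', s', e⟩ := List.sublist_map_iff.1 s
  obtain ⟨a, l', rfl, rfl, e1⟩ := List.map_eq_cons_iff.1 e.symm
  obtain ⟨b, l', rfl, rfl, e2⟩ := List.map_eq_cons_iff.1 e1
  obtain ⟨c, l', rfl, rfl, e3⟩ := List.map_eq_cons_iff.1 e2
  obtain ⟨d, l', rfl, rfl, e4⟩ := List.map_eq_cons_iff.1 e3
  obtain rfl := List.map_eq_nil_iff.1 e4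
  have key : ∀ (g : ℕ → V) (k : ℕ) (x y : V), g 0 = x → g k = y →
      (∀ i, 0 < i → i < k → g i ∉ un (sg L)) → g '' Icc 0 k ∩ ls L ⊆ {x, y} := by
    rintro g k x y a b c _ ⟨⟨i, ⟨-, hi⟩, rfl⟩, m⟩
    by_cases d : i = 0
    · exact Or.inl (d ▸ a)
    · by_cases d' : i = k
      · exact Or.inr (d' ▸ b)
      · exact absurd ⟨{g i}, List.mem_map.2 ⟨g i, m, rfl⟩, rfl⟩ (c i (by omega) (by omega))
  refine ⟨a, b, c, d, s', p '' Icc 0 n, q '' Icc 0 m, ⟨?_, ?_, seg hp (Nat.zero_le _) le_rfl,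
    seg hq (Nat.zero_le _) le_rfl, disjoint_left.2 ?_⟩, ⟨0, ⟨le_rfl, Nat.zero_le _⟩, h1⟩,
    ⟨n, ⟨Nat.zero_le _, le_rfl⟩, h2⟩, ⟨0, ⟨le_rfl, Nat.zero_le _⟩, h3⟩,
    ⟨m, ⟨Nat.zero_le _, le_rfl⟩, h4⟩, key p n a c h1 h2 h6, key q m b d h3 h4 h7⟩
  · rintro _ ⟨i, hi, rfl⟩
    exact hp.1 i hi.2
  · rintro _ ⟨i, hi, rfl⟩
    exact hq.1 i hi.2
  · rintro _ ⟨i, hi, rfl⟩ ⟨j, hj, e⟩
    exact h5 i hi.2 j hj.2 e.symm

theorem Sit.main [Finite V] (hN : NfS) (hC : CtrS) (hT : TriS) (h : Sit H U S1 S2 A1 f l)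
    (hc : Cr H (f '' Iic l ∪ S1) (A1 ++ (List.range (l + 1)).reverse.map f)) :
    Out H S1 S2 A1 f l := by
  have fi := h.path.2.2
  have mr : ∀ n, n ∈ (List.range (l + 1)).reverse ↔ n ≤ l := fun n => by
    simp
  have nd : (A1 ++ (List.range (l + 1)).reverse.map f).Nodup := by
    refine List.nodup_append.2 ⟨(List.nodup_cons.1 (List.nodup_append.1 h.nd).1).2,
      (List.nodup_reverse.2 List.nodup_range).map_on
        fun a ha b hb => fi a ((mr a).1 ha) b ((mr b).1 hb), fun a ha b hb e => ?_⟩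
    obtain ⟨n, m, rfl⟩ := List.mem_map.1 hb
    exact h.f1 n ((mr n).1 m) (e ▸ h.a1 a ha)
  obtain ⟨a, b, c, d, s, P, Q, ⟨sp, sq, cP, cQ, dis⟩, ha, hc', hb, hd, hP, hQ⟩ := nf hN nd hc
  have fm : ∀ n ≤ l, f n ∈ ls (A1 ++ (List.range (l + 1)).reverse.map f) := fun n a =>
    List.mem_append_right _ (List.mem_map.2 ⟨n, (mr n).2 a, rfl⟩)
  have sU : f '' Iic l ∪ S1 ⊆ U \ S2 := by
    rintro _ (⟨n, a, rfl⟩ | a)
    exacts [⟨h.path.1 n a, h.f2 n a⟩, h.s1 a]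
  have wP : P ⊆ S1 ∪ {a, c} := fun y m => by
    rcases sp m with ⟨n, e, rfl⟩ | e
    exacts [Or.inr (hP ⟨m, fm n e⟩), Or.inl e]
  have wQ : Q ⊆ S1 ∪ {b, d} := fun y m => by
    rcases sq m with ⟨n, e, rfl⟩ | e
    exacts [Or.inr (hQ ⟨m, fm n e⟩), Or.inl e]
  obtain ⟨X, Y, e, sX, sY⟩ := List.sublist_append_iff.1 s
  obtain ⟨N, sN, rfl⟩ := List.sublist_map_iff.1 sY
  have pw : N.Pairwise (· > ·) :=
    (List.pairwise_reverse.2 List.pairwise_lt_range).sublist sN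
  have le : ∀ n ∈ N, n ≤ l := fun n m => (mr n).1 (sN.subset m)
  have aS : ∀ y ∈ X, y ∈ S1 := fun y m => h.a1 y (sX.subset m)
  rcases X with _ | ⟨x1, _ | ⟨x2, _ | ⟨x3, _ | ⟨x4, _ | ⟨x5, X⟩⟩⟩⟩⟩
  · obtain ⟨n1, N, rfl, rfl, e1⟩ := List.map_eq_cons_iff.1 e.symm
    obtain ⟨n2, N, rfl, rfl, e2⟩ := List.map_eq_cons_iff.1 e1
    obtain ⟨n3, N, rfl, rfl, e3⟩ := List.map_eq_cons_iff.1 e2
    obtain ⟨n4, N, rfl, rfl, -⟩ := List.map_eq_cons_iff.1 e3
    have l1 := le n1 (by simp)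
    have o : n2 < n1 ∧ n3 < n2 ∧ n4 < n3 := by
      simp only [List.pairwise_cons, List.mem_cons, forall_eq_or_imp] at pw
      exact ⟨pw.1.1, pw.2.1.1, pw.2.2.1.1⟩
    have wP' : P ⊆ S1 ∪ {f n3, f n1} := pair_comm (f n1) (f n3) ▸ wP
    have wQ' : Q ⊆ S1 ∪ {f n4, f n2} := pair_comm (f n2) (f n4) ▸ wQ
    obtain ⟨p, lp, hp, p0, pn, p1, pS⟩ := h.jump (i := n3) (k := n1) (by omega) l1 hc'
      (cP.2 _ hc' _ ha) wP'
    obtain ⟨q, lq, hq, q0, qn, q1, qS⟩ := h.jump (i := n4) (k := n2) (by omega) (by omega) hd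
      (cQ.2 _ hd _ hb) wQ'
    obtain ⟨a', ha', hl'⟩ := h.lnk _ (qS 1 one_pos q1)
    obtain ⟨w, hw, v, hv, wS, vS, hR⟩ := xy (X := p '' Ioo 0 lp ∪ q '' Ioo 0 lq) (Y := ls A1) hl'
      (qS 1 one_pos q1) (Or.inr ⟨1, ⟨one_pos, q1⟩, rfl⟩) ha'
    set R := S1 \ (p '' Ioo 0 lp ∪ q '' Ioo 0 lq ∪ ls A1) ∪ {w, v} with hRd
    have RS : R ⊆ S1 := by
      rintro y (m | rfl | rfl)
      exacts [m.1, wS, vS]
    have vR : v ∈ R := Or.inr (Or.inr rfl)
    have vP : v ∉ P := fun m => by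
      rcases hP ⟨m, List.mem_append_left _ hv⟩ with e | e
      exacts [h.f1 n1 l1 (e ▸ vS), h.f1 n3 (by omega) (e ▸ vS)]
    have vQ : v ∉ Q := fun m => by
      rcases hQ ⟨m, List.mem_append_left _ hv⟩ with e | e
      exacts [h.f1 n2 (by omega) (e ▸ vS), h.f1 n4 (by omega) (e ▸ vS)]
    have pP : ∀ a b, b ≤ lp → p '' Icc a b ⊆ P := by
      rintro a b hb _ ⟨y, m, rfl⟩
      exact hp.1 y (m.2.trans hb)
    have qQ : ∀ a b, b ≤ lq → q '' Icc a b ⊆ Q := by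
      rintro a b hb _ ⟨y, m, rfl⟩
      exact hq.1 y (m.2.trans hb)
    have ends : ∀ (g : ℕ → V) (n a b : ℕ), g 0 = f a → g n = f b → a ≤ l → b ≤ l →
        (∀ s, 0 < s → s < n → g s ∈ S1) → g '' Icc 0 n ⊆ S1 ∪ {f a, f b} ∧
          ∀ y ≤ n, g y ∈ S1 → g y ∈ g '' Ioo 0 n := by
      refine fun g n a b g0 gn ha hb gS => ⟨?_, fun y m e => ⟨y, ⟨Nat.pos_of_ne_zero ?_,
        lt_of_le_of_ne m ?_⟩, rfl⟩⟩
      · rintro _ ⟨y, m, rfl⟩
        by_cases c : y = 0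
        · exact Or.inr (Or.inl (c ▸ g0))
        · by_cases c' : y = n
          · exact Or.inr (Or.inr (c' ▸ gn))
          · exact Or.inl (gS y (by omega) (lt_of_le_of_ne m.2 c'))
      · rintro rfl
        exact h.f1 a ha (g0 ▸ e)
      · rintro rfl
        exact h.f1 b hb (gn ▸ e)
    obtain ⟨ep, ep'⟩ := ends p lp n3 n1 p0 pn (by omega) l1 pS
    obtain ⟨eq, eq'⟩ := ends q lq n4 n2 q0 qn (by omega) (by omega) qS
    rcases hw with ⟨s, ⟨s0, s1⟩, rfl⟩ | ⟨s, ⟨s0, s1⟩, rfl⟩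
    · refine h.three hN hC hT o.2.2 o.2.1 (by omega) hv (W1 := R ∪ p '' Icc 0 s)
        (W2 := q '' Icc 0 lq) (Or.inl vR) ((hR.symm.mono subset_union_left).trans
          (((seg hp s0.le s1.le).2 _ ⟨s, ⟨s0.le, le_rfl⟩, rfl⟩ _ ⟨0, ⟨le_rfl, s0.le⟩, p0⟩).mono
            subset_union_right)) ?_ ⟨0, ⟨le_rfl, Nat.zero_le _⟩, q0⟩
        ((seg hq (Nat.zero_le _) le_rfl).2 _ ⟨0, ⟨le_rfl, Nat.zero_le _⟩, q0⟩ _
          ⟨lq, ⟨Nat.zero_le _, le_rfl⟩, qn⟩) eq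
        (disjoint_union_left.2 ⟨disjoint_left.2 ?_, dis.mono (pP _ _ s1.le) (qQ _ _ le_rfl)⟩)
      · rintro _ (m | ⟨y, m, rfl⟩)
        · exact Or.inl (RS m)
        · by_cases c : y = 0
          · exact Or.inr (c ▸ p0)
          · exact Or.inl (pS y (by omega) (lt_of_le_of_lt m.2 s1))
      · rintro _ m ⟨y, m', rfl⟩
        have m1 := RS m
        rcases m with m | m | m
        · exact m.2 (Or.inl (Or.inr (eq' y m'.2 m1)))
        · exact disjoint_left.1 dis (hp.1 s s1.le) (m ▸ hq.1 y m'.2)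
        · exact vQ (m ▸ hq.1 y m'.2)
    · refine h.three hN hC hT o.2.1 o.1 l1 hv (W1 := R ∪ q '' Icc s lq)
        (W2 := p '' Icc 0 lp) (Or.inl vR) ((hR.symm.mono subset_union_left).trans
          (((seg hq s1.le le_rfl).2 _ ⟨s, ⟨le_rfl, s1.le⟩, rfl⟩ _ ⟨lq, ⟨s1.le, le_rfl⟩, qn⟩).mono
            subset_union_right)) ?_ ⟨0, ⟨le_rfl, Nat.zero_le _⟩, p0⟩
        ((seg hp (Nat.zero_le _) le_rfl).2 _ ⟨0, ⟨le_rfl, Nat.zero_le _⟩, p0⟩ _
          ⟨lp, ⟨Nat.zero_le _, le_rfl⟩, pn⟩) ep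
        (disjoint_union_left.2 ⟨disjoint_left.2 ?_, dis.symm.mono (qQ _ _ le_rfl) (pP _ _ le_rfl)⟩)
      · rintro _ (m | ⟨y, m, rfl⟩)
        · exact Or.inl (RS m)
        · by_cases c : y = lq
          · exact Or.inr (c ▸ qn)
          · exact Or.inl (qS y (lt_of_lt_of_le s0 m.1) (lt_of_le_of_ne m.2 c))
      · rintro _ m ⟨y, m', rfl⟩
        have m1 := RS m
        rcases m with m | m | m
        · exact m.2 (Or.inl (Or.inl (ep' y m'.2 m1)))
        · exact disjoint_left.1 dis (m ▸ hp.1 y m'.2) (hq.1 s s1.le)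
        · exact vP (m ▸ hp.1 y m'.2)
  · obtain ⟨rfl, e1⟩ := List.cons.inj e
    obtain ⟨n1, N, rfl, rfl, e2⟩ := List.map_eq_cons_iff.1 e1.symm
    obtain ⟨n2, N, rfl, rfl, e3⟩ := List.map_eq_cons_iff.1 e2
    obtain ⟨n3, N, rfl, rfl, -⟩ := List.map_eq_cons_iff.1 e3
    have l1 := le n1 (by simp)
    have o : n2 < n1 ∧ n3 < n2 := by
      simp only [List.pairwise_cons, List.mem_cons, forall_eq_or_imp] at pw
      exact ⟨pw.1.1, pw.2.1.1⟩
    refine h.three hN hC hT o.2 o.1 l1 (sX.subset (List.mem_singleton_self _)) ha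
      (cP.2 _ ha _ hc') (fun y m => ?_) hd (cQ.2 _ hd _ hb) (pair_comm (f n1) (f n3) ▸ wQ) dis
    rcases wP m with e | rfl | e
    exacts [Or.inl e, Or.inl (aS _ (by simp)), Or.inr e]
  · obtain ⟨rfl, e1⟩ := List.cons.inj e
    obtain ⟨rfl, e2⟩ := List.cons.inj e1
    obtain ⟨n1, N, rfl, rfl, e3⟩ := List.map_eq_cons_iff.1 e2.symm
    obtain ⟨n2, N, rfl, rfl, -⟩ := List.map_eq_cons_iff.1 e3
    have l1 := le n1 (by simp)
    have o : n2 < n1 := by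
      simp only [List.pairwise_cons, List.mem_cons, forall_eq_or_imp] at pw
      exact pw.1.1
    refine (h.no (P := Q ∪ f '' Icc 0 n2) (Q := P ∪ f '' Icc n1 l) (mid sX _ _)
      (union_subset (sq.trans sU) (h.segU (by omega))) (union_subset (sp.trans sU) (h.segU le_rfl))
      (cu cQ (seg h.path (Nat.zero_le _) (by omega)) hd ⟨n2, ⟨Nat.zero_le _, le_rfl⟩, rfl⟩)
      (cu cP (seg h.path l1 le_rfl) hc' ⟨n1, ⟨le_rfl, l1⟩, rfl⟩) (disjoint_left.2 ?_)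
      (Or.inr ⟨0, ⟨le_rfl, Nat.zero_le _⟩, rfl⟩) (Or.inl hb) (Or.inl ha)
      (Or.inr ⟨l, ⟨l1, le_rfl⟩, rfl⟩)).elim
    rintro y (m | ⟨n, ⟨-, m⟩, rfl⟩) (m' | ⟨n', ⟨m', m''⟩, e⟩)
    · exact disjoint_left.1 dis m' m
    · subst e
      rcases wQ m with e | e | e
      · exact h.f1 n' m'' e
      · exact h.f1 n' m'' (e ▸ aS _ (by simp))
      · have := fi n' m'' n2 (by omega) e
        omega
    · rcases wP m' with e | e | e
      · exact h.f1 n (by omega) e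
      · exact h.f1 n (by omega) (e ▸ aS _ (by simp))
      · have := fi n (by omega) n1 l1 e
        omega
    · have := fi n' m'' n (by omega) e
      omega
  · obtain ⟨rfl, e1⟩ := List.cons.inj e
    obtain ⟨rfl, e2⟩ := List.cons.inj e1
    obtain ⟨rfl, e3⟩ := List.cons.inj e2
    obtain ⟨n1, N, rfl, rfl, -⟩ := List.map_eq_cons_iff.1 e3.symm
    have l1 := le n1 (by simp)
    refine (h.no (P := P) (Q := Q ∪ f '' Icc n1 l)
      ((sX.append (List.Sublist.refl [f l])).cons _) (sp.trans sU)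
      (union_subset (sq.trans sU) (h.segU le_rfl)) cP
      (cu cQ (seg h.path l1 le_rfl) hd ⟨n1, ⟨le_rfl, l1⟩, rfl⟩) (disjoint_left.2 ?_) ha hc'
      (Or.inl hb) (Or.inr ⟨l, ⟨l1, le_rfl⟩, rfl⟩)).elim
    rintro y m (m' | ⟨n, ⟨-, m'⟩, rfl⟩)
    · exact disjoint_left.1 dis m m'
    · rcases wP m with e | e | e
      exacts [h.f1 n m' e, h.f1 n m' (e ▸ aS _ (by simp)), h.f1 n m' (e ▸ aS _ (by simp))]
  · obtain ⟨rfl, e1⟩ := List.cons.inj e
    obtain ⟨rfl, e2⟩ := List.cons.inj e1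
    obtain ⟨rfl, e3⟩ := List.cons.inj e2
    obtain ⟨rfl, -⟩ := List.cons.inj e3
    exact (h.no ((sX.trans (List.sublist_append_left _ [f l])).cons _) (sp.trans sU) (sq.trans sU)
      cP cQ dis ha hc' hb hd).elim
  · simp at e

end Side

open Side in
theorem sideS : NfS → CtrS → TriS → SideS := by
  intro hN hC hT V _ H U S1 S2 A1 A2 f l hs hp hi hA h1 h2 hU hx
  have nd : (f 0 :: A1 ++ [f l]).Nodup :=
    hs.nd.sublist ((List.Sublist.refl _).append (List.singleton_sublist.2 List.mem_cons_self))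
  have s1 : S1 ⊆ U \ f '' Iic l := h1 ▸ fun _ m => m.1
  have s2 : S2 ⊆ U \ f '' Iic l := h2 ▸ fun _ m => m.1
  have a1 : ∀ x ∈ A1, x ∈ U \ f '' Iic l := fun x m =>
    ⟨hs.sub x (by simp [m]), fun ⟨i, a, e⟩ => (hA i a).1 (e ▸ m)⟩
  have qc : Conn H (f '' Iic l) := by
    have := seg hp (Nat.zero_le l) le_rfl
    rwa [show Icc 0 l = Iic l from Icc_bot] at this
  have d12 : ∀ x ∈ S1, x ∉ S2 := fun x m m' => by
    rw [h1] at m
    obtain ⟨m1, a, ha, m2, m3⟩ := m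
    refine hx ⟨{f 0}, {a}, {f l}, S2, ?_, f '' Iic l, cp H (U \ f '' Iic l) a,
      ⟨fun _ ⟨i, b, e⟩ => e ▸ hp.1 i b, fun _ b => b.1.1, qc, cp_conn m2,
        disjoint_left.2 fun _ b c => c.1.2 b⟩, ⟨_, ⟨0, Nat.zero_le _, rfl⟩, rfl⟩,
      ⟨_, ⟨l, le_refl l, rfl⟩, rfl⟩, ⟨a, cp_self m2, rfl⟩, ⟨x, ⟨m1, m3⟩, m'⟩, fun s m => ?_⟩
    · exact ((((List.singleton_sublist.2 ha).append (List.Sublist.refl [f l])).cons_cons
        (f 0)).map fun x => ({x} : Set V)).append (List.Sublist.refl [S2])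
    · rcases List.mem_append.1 m with m | m
      · obtain ⟨y, -, rfl⟩ := List.mem_map.1 m
        by_cases e : y ∈ f '' Iic l
        · exact Or.inr (disjoint_singleton_right.2 fun e' => e'.1.2 e)
        · exact Or.inl (disjoint_singleton_right.2 e)
      · rw [List.mem_singleton.1 m]
        exact Or.inl (disjoint_left.2 fun _ b c => (s2 c).2 b)
  have h : Sit H U S1 S2 A1 f l := ⟨hs.tight, nd, hp, hi,
    fun x m => h1 ▸ ⟨a1 x m, x, m, a1 x m, Link.refl _ _ _⟩, fun x m => ⟨(s1 m).1, d12 x m⟩,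
    fun _ m => (s2 m).1, fun i a m => (s1 m).2 ⟨i, a, rfl⟩, fun i a m => (s2 m).2 ⟨i, a, rfl⟩,
    fun v m => by subst h1; exact lk_link m, hx⟩
  refine or_iff_not_imp_left.2 fun c => h.main hN hC hT ((hN V _ _).2.2.2.2.1 _ _ ?_ (not_not.1 c))
  obtain ⟨k, rfl⟩ : ∃ k, l = k + 1 := by
    refine ⟨l - 1, (Nat.succ_pred_eq_of_pos (Nat.pos_of_ne_zero ?_)).symm⟩
    rintro rfl
    simp at nd
  have e : (List.range (k + 1 + 1)).reverse.map f =
      f (k + 1) :: ((List.range' 1 k).map f).reverse ++ [f 0] := by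
    rw [List.range_eq_range', List.range'_succ, List.range'_concat]
    simp [add_comm]
  rw [e, Nat.add_sub_cancel, List.cons_append, ← List.cons_append, ← List.append_assoc]
  exact List.IsRotated.cons_append_singleton

end Pool.Agent.MP_9d78a0_co.st

end MrgPart0

-- ======== part 1: formerly Pool.Agent.MP_9d78a0_co.st.Cut
section MrgPart1

/-! The relative cut along a connected set. -/

set_option autoImplicit false

namespace Pool.Agent.MP_9d78a0_co.st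

open Set Function fb

namespace CutAux

variable {V : Type} {H H1 H2 G G' : SimpleGraph V} {U U' U1 U2 Q D S S' S1 S2 A K X P R : Set V}
  {a b u v w : V} {A1 A2 Y L : List V}

theorem lk_self (h : v ∈ A) (h' : v ∈ S) : v ∈ lk H S A := ⟨h', v, h, h', Link.refl _ _ _⟩

theorem lk_closed (h : u ∈ lk H S A) (h' : v ∈ S) (e : H.Adj u v) : v ∈ lk H S A := by
  obtain ⟨h1, x, x1, x2, x3⟩ := h
  exact ⟨h', x, x1, x2, x3.trans (Link.single h1 h' e)⟩

theorem lk_in (h : v ∈ lk H S A) : ∃ x ∈ A, x ∈ lk H S A ∧ Link H (lk H S A) x v := by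
  obtain ⟨h1, x, x1, x2, x3⟩ := h
  refine ⟨x, x1, lk_self x1 x2, ?_⟩
  clear h1
  induction x3 with
  | refl => exact Link.refl _ _ _
  | tail h3 h4 ih =>
    exact ih.trans (Link.single ⟨h4.1, x, x1, x2, h3⟩
      (lk_closed ⟨h4.1, x, x1, x2, h3⟩ h4.2.1 h4.2.2) h4.2.2)

theorem lk_mono (h : lk H S A ⊆ S') : lk H S A ⊆ lk H S' A := fun _ hv => by
  obtain ⟨x, x1, x2, x3⟩ := lk_in hv
  exact ⟨h hv, x, x1, h x2, x3.mono h⟩

theorem conn_on (h : Conn G S) (e : ∀ u ∈ S, ∀ v ∈ S, G.Adj u v → G'.Adj u v) : Conn G' S :=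
  ⟨h.1, fun u hu v hv => Link.map (G' := G') id
    (fun x hx y hy k => Link.single hx hy (e x hx y hy k)) (h.2 u hu v hv)⟩

theorem two_symm (h : Two H U P R) : Two H U R P := ⟨h.sq, h.sp, h.cq, h.cp, h.dis.symm⟩

theorem cr_mono (h : Cr G U L) (e : ∀ u v, G.Adj u v → G'.Adj u v) : Cr G' U L := by
  obtain ⟨p, q, r, s, h1, P, R, t, h2⟩ := h
  exact ⟨p, q, r, s, h1, P, R, ⟨t.sp, t.sq, conn_on t.cp fun u _ v _ => e u v,
    conn_on t.cq fun u _ v _ => e u v, t.dis⟩, h2⟩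

theorem port (h : Disjoint P R) (k : Disjoint P S ∨ Disjoint R S) :
    ∀ s ∈ sg L ++ [S], Disjoint P s ∨ Disjoint R s := by
  intro s hs
  rcases List.mem_append.1 hs with hs | hs
  · obtain ⟨x, -, rfl⟩ := List.mem_map.1 hs
    by_cases c : x ∈ P
    · exact Or.inr (disjoint_singleton_right.2 (disjoint_left.1 h c))
    · exact Or.inl (disjoint_singleton_right.2 c)
  · rwa [List.mem_singleton.1 hs]

/-- transfer of a cross with one large port -/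
theorem px_tr (h : PX G U (sg L ++ [S]))
    (t : ∀ P R, Two G U P R → Disjoint P S → ∃ P' R', Two G' U' P' R' ∧ P ⊆ P' ∧ R ⊆ R' ∧
      Disjoint P' S' ∧ ((R ∩ S).Nonempty → (R' ∩ S').Nonempty)) : PX G' U' (sg L ++ [S']) := by
  obtain ⟨p, q, r, s, h1, P, R, tw, h2, h3, h4, h5, h6⟩ := h
  have m : ∀ {P P' s : Set V}, P ⊆ P' → (P ∩ s).Nonempty → (P' ∩ s).Nonempty :=
    fun k k' => k'.mono (inter_subset_inter_left _ k)
  obtain ⟨l1, l2, e, s1, s2⟩ := List.sublist_append_iff.1 h1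
  rcases List.sublist_singleton.1 s2 with rfl | rfl
  · rw [List.append_nil] at e
    subst e
    refine ⟨p, q, r, s, s1.trans (List.sublist_append_left _ _), ?_⟩
    rcases h6 S (by simp) with c | c
    · obtain ⟨P', R', k, k1, k2, k3, -⟩ := t P R tw c
      exact ⟨P', R', k, m k1 h2, m k1 h3, m k2 h4, m k2 h5, port k.dis (Or.inl k3)⟩
    · obtain ⟨R', P', k, k1, k2, k3, -⟩ := t R P (two_symm tw) c
      exact ⟨P', R', two_symm k, m k2 h2, m k2 h3, m k1 h4, m k1 h5, port k.dis.symm (Or.inr k3)⟩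
  · obtain ⟨rfl, e'⟩ := List.append_inj' (s₁ := [p, q, r]) (t₁ := [s]) e rfl
    obtain rfl : s = S := by simpa using e'
    refine ⟨p, q, r, S', s1.append (List.Sublist.refl [S']), ?_⟩
    obtain ⟨P', R', k, k1, k2, k3, k4⟩ := t P R tw
      ((h6 s (by simp)).resolve_right (not_disjoint_iff_nonempty_inter.2 h5))
    exact ⟨P', R', k, m k1 h2, m k1 h3, m k2 h4, k4 h5, port k.dis (Or.inl k3)⟩

theorem px_port (hS : S ⊆ S') (hU : S' ⊆ U) (hl : ∀ v ∈ S', ∃ x ∈ S, Link H S' x v)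
    (h : PX H U (sg L ++ [S'])) : PX H U (sg L ++ [S]) := by
  refine px_tr h fun P R t d => ?_
  by_cases c : (R ∩ S').Nonempty
  · obtain ⟨v, v1, v2⟩ := c
    obtain ⟨x, x1, x2⟩ := hl v v2
    refine ⟨P, R ∪ cp H S' v, ⟨t.sp, union_subset t.sq (cp_sub.trans hU), t.cp,
      conn_of_center (Or.inl v1) ?_, t.dis.union_right (d.mono_right cp_sub)⟩, subset_rfl,
      subset_union_left, d.mono_right hS, fun _ => ⟨x, Or.inr ⟨hS x1, x2.symm⟩, x1⟩⟩
    rintro y (hy | hy)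
    · exact (t.cq.2 v v1 y hy).mono subset_union_left
    · exact ((cp_conn v2).2 v (cp_self v2) y hy).mono subset_union_right
  · exact ⟨P, R, t, subset_rfl, subset_rfl, d.mono_right hS,
      fun k => absurd k c⟩

theorem thru (hK : Pock H K X) (hx : u ∈ X) (hy : v ∈ X) : Link H (K ∪ {u, v}) u v := by
  obtain ⟨x, h1, e⟩ := hK.adj u hx
  obtain ⟨y, h2, e'⟩ := hK.adj v hy
  exact ((Link.single (S := K ∪ {u, v}) (Or.inr (Or.inl rfl)) (Or.inl h1) e.symm).trans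
    ((hK.conn.2 x h1 y h2).mono subset_union_left)).trans
    (Link.single (S := K ∪ {u, v}) (Or.inl h2) (Or.inr (Or.inr rfl)) e')

theorem px_lift [Finite V] (hr : RedS) (hK : Pock H K X) (hX : X.ncard ≤ 3) (hU : K ⊆ U)
    (li : ∀ x ∈ X \ S, ∀ y ∈ X \ S, Link H (K \ S ∪ {x, y}) x y)
    (h : PX (red H K X) (U \ K) (sg L ++ [S \ K])) : PX H U (sg L ++ [S]) := by
  refine px_tr h fun P R t d => ?_
  have r3 := (hr V H K X hK hX).2.2
  have one : ∀ P ⊆ U \ K, Conn (red H K X) P → (P ∩ X).Subsingleton → Conn H P := by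
    intro P h1 h2 h3
    obtain ⟨P', p1, p2, p3⟩ := r3 P ∅ (fun x hx => (h1 hx).2) h2 (empty_subset _)
      fun x hx y hy => by rw [h3 hx hy]; exact Link.refl _ _ _
    rw [union_empty] at p2
    exact Subset.antisymm p2 p1 ▸ p3
  have dS : Disjoint P S := disjoint_left.2 fun x hx hs => disjoint_left.1 d hx ⟨hs, (t.sp hx).2⟩
  have m : ∀ R', R ⊆ R' → (R ∩ (S \ K)).Nonempty → (R' ∩ S).Nonempty :=
    fun _ k k' => k'.mono (inter_subset_inter k sdiff_subset)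
  by_cases c : (P ∩ X).Subsingleton
  · obtain ⟨R', p1, p2, p3⟩ := r3 R K (fun x hx => (t.sq hx).2) t.cq subset_rfl
      fun x hx y hy => thru hK hx.2 hy.2
    exact ⟨P, R', ⟨t.sp.trans sdiff_subset, p2.trans (union_subset (t.sq.trans sdiff_subset) hU),
      one P t.sp t.cp c, p3, (t.dis.union_right
        (disjoint_left.2 fun x hx => (t.sp hx).2)).mono_right p2⟩, subset_rfl, p1, dS, m R' p1⟩
  · have c' : (R ∩ X).Subsingleton := by
      by_contra c'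
      rw [not_subsingleton_iff, ← one_lt_ncard_iff_nontrivial] at c c'
      have e := ncard_union_eq (t.dis.mono (inter_subset_left (t := X)) (inter_subset_left (t := X)))
      have e' : (P ∩ X ∪ R ∩ X).ncard ≤ X.ncard :=
        ncard_le_ncard (union_subset inter_subset_right inter_subset_right)
      omega
    obtain ⟨P', p1, p2, p3⟩ := r3 P (K \ S) (fun x hx => (t.sp hx).2) t.cp sdiff_subset
      fun x hx y hy => li x ⟨hx.2, disjoint_left.1 dS hx.1⟩ y ⟨hy.2, disjoint_left.1 dS hy.1⟩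
    exact ⟨P', R, ⟨p2.trans (union_subset (t.sp.trans sdiff_subset) (sdiff_subset.trans hU)),
      t.sq.trans sdiff_subset, p3, one R t.sq t.cq c', (t.dis.union_left
        (disjoint_right.2 fun x hx k => (t.sq hx).2 k.1)).mono_left p2⟩, p1, subset_rfl,
      (dS.union_left disjoint_sdiff_left).mono_left p2, m R subset_rfl⟩

theorem lk_red [Finite V] (hr : RedS) (hK : Pock H K X) (hX : X.ncard ≤ 3) (kA : Disjoint K A)
    (e : S = lk H (U \ Q) A) (al : ∀ u ∈ X, u ∈ S → ∀ v ∈ X, v ∉ Q → u = v) :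
    S \ K = lk (red H K X) ((U \ K) \ (Q \ K)) A := by
  subst e
  refine Subset.antisymm ?_ ?_
  · rintro v ⟨⟨v1, x, x1, x2, x3⟩, v2⟩
    have xK : x ∉ K := disjoint_right.1 kA x1
    have s : cp H (U \ Q) x \ K ⊆ (U \ K) \ (Q \ K) :=
      fun y hy => ⟨⟨hy.1.1.1, hy.2⟩, fun k => hy.1.1.2 k.1⟩
    have c := (hr V H K X hK hX).2.1 _ (cp_conn x2) ⟨x, cp_self x2, xK⟩
    exact ⟨s ⟨⟨v1, x3⟩, v2⟩, x, x1, s ⟨cp_self x2, xK⟩,
      (c.2 x ⟨cp_self x2, xK⟩ v ⟨⟨v1, x3⟩, v2⟩).mono s⟩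
  · rintro v ⟨v1, x, x1, x2, x3⟩
    have s : (U \ K) \ (Q \ K) ⊆ U \ Q := fun y hy => ⟨hy.1.1, fun k => hy.2 ⟨k, hy.1.2⟩⟩
    refine ⟨?_, v1.1.2⟩
    clear v1
    induction x3 with
    | refl => exact lk_self x1 (s x2)
    | tail _ h4 ih =>
      rcases h4.2.2.2.2.2 with e | e
      · exact lk_closed ih (s h4.2.1) e
      · exact absurd (al _ e.1 ih _ e.2 (s h4.2.1).2) h4.2.2.1

/-- an edge between neighbouring letters makes no cross -/
theorem add_edge (hn : NfS) (nd : L.Nodup) (hi : [u, w] <:+: L)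
    (e : ∀ p q, G'.Adj p q → G.Adj p q ∨ (p = u ∧ q = w) ∨ (p = w ∧ q = u)) (h : Cr G' U L) :
    Cr G U L := by
  classical
  obtain ⟨n1, n2, -⟩ := hn V G' U
  obtain ⟨p, q, r, s, h1, f, g, l, m, hf, hg, l0, m0, f0, fl, g0, gm, fg, fi, gi⟩ := n1 (sg L)
    (List.pairwise_map.2 (nd.imp fun k => disjoint_singleton.2 k)) ((n2 L).1 h)
  obtain ⟨l', s1, e1⟩ := List.sublist_map_iff.1 h1
  obtain ⟨p, q, r, s, rfl⟩ : ∃ p q r s, l' = [p, q, r, s] := by
    have := congrArg List.length e1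
    match l', this with
    | [p, q, r, s], _ => exact ⟨_, _, _, _, rfl⟩
  simp only [List.map_cons, List.map_nil, List.cons.injEq, and_true] at e1
  obtain ⟨rfl, rfl, rfl, rfl⟩ := e1
  have pw : L.Pairwise fun x y => L.idxOf x < L.idxOf y := by
    rw [List.pairwise_iff_getElem]
    intro i j hi hj k
    rwa [nd.idxOf_getElem, nd.idxOf_getElem]
  have uw : L.idxOf w = L.idxOf u + 1 := by
    obtain ⟨t, t', rfl⟩ := hi
    simp only [List.append_assoc, List.cons_append, List.nil_append] at nd ⊢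
    have k := List.nodup_append.1 nd
    have k1 : u ∉ t := fun c => k.2.2 u c u (by simp) rfl
    have k2 : w ∉ t := fun c => k.2.2 w c w (by simp) rfl
    have k3 : u ≠ w := fun c => by simpa [c] using k.2.1
    rw [List.idxOf_append_of_notMem k1, List.idxOf_append_of_notMem k2, List.idxOf_cons_ne _ k3]
    simp
  have o := pw.sublist s1
  simp only [List.pairwise_cons, List.mem_cons, List.not_mem_nil, or_false, forall_eq_or_imp,
    forall_eq] at o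
  have key : ∀ (f : ℕ → V) (l : ℕ), IsPath G' U f l → (∀ i, 0 < i → i < l → f i ∉ un (sg L)) →
      L.idxOf (f 0) + 2 ≤ L.idxOf (f l) → Conn G (f '' Icc 0 l) := by
    intro f l hf fi k
    refine conn_seg (Nat.zero_le _) fun i _ il => (e _ _ (hf.2.1 i il)).resolve_right fun c => ?_
    have mem : ∀ x, x = u ∨ x = w → x ∈ un (sg L) := fun x hx =>
      ⟨{x}, List.mem_map.2 ⟨x, hi.subset (by simpa using hx), rfl⟩, rfl⟩
    have i0 : ¬ 0 < i := fun i0 => fi i i0 il (mem _ (c.imp (·.1) (·.1)))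
    have i1 : ¬ i + 1 < l := fun i1 => fi _ (by omega) i1 (mem _ (c.symm.imp (·.2) (·.2)))
    obtain rfl : i = 0 := by omega
    obtain rfl : l = 0 + 1 := by omega
    rcases c with ⟨c, c'⟩ | ⟨c, c'⟩ <;> rw [c, c'] at k <;> omega
  rw [mem_singleton_iff] at f0 fl g0 gm
  subst f0 fl g0 gm
  refine ⟨_, _, _, _, s1, f '' Icc 0 l, g '' Icc 0 m, ⟨?_, ?_, key f l hf fi (by omega),
    key g m hg gi (by omega), disjoint_left.2 ?_⟩, ⟨0, by simp, rfl⟩, ⟨l, by simp, rfl⟩,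
    ⟨0, by simp, rfl⟩, ⟨m, by simp, rfl⟩⟩
  · rintro _ ⟨j, hj, rfl⟩
    exact hf.1 j hj.2
  · rintro _ ⟨j, hj, rfl⟩
    exact hg.1 j hj.2
  · rintro _ ⟨i, hi, rfl⟩ ⟨j, hj, k⟩
    exact fg i hi.2 j hj.2 k.symm

/-- the hypotheses -/
structure Hyp (H : SimpleGraph V) (U Q S1 S2 : Set V) (a b : V) (A1 A2 : List V) : Prop where
  soc : Soc H U (a :: A1 ++ b :: A2)
  sub : Q ⊆ U
  con : Conn H Q
  ha : a ∈ Q
  hb : b ∈ Q
  d1 : Disjoint Q (ls A1)
  d2 : Disjoint Q (ls A2)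
  e1 : S1 = lk H (U \ Q) (ls A1)
  e2 : S2 = lk H (U \ Q) (ls A2)
  w1 : ¬ PX H U (sg (a :: A1 ++ [b]) ++ [S2])
  w2 : ¬ PX H U (sg (b :: A2 ++ [a]) ++ [S1])

/-- the conclusion -/
structure Wit (H : SimpleGraph V) (U S1 S2 : Set V) (a b : V) (A1 A2 Y : List V)
    (H1 H2 : SimpleGraph V) (U1 U2 : Set V) : Prop where
  sp : Split H H1 H2 U U1 U2 (ls (a :: Y ++ [b]))
  nd : (a :: Y ++ [b]).Nodup
  s1 : S1 ⊆ U1 \ U2
  s2 : S2 ⊆ U2 \ U1
  ln : ∀ y ∈ a :: Y ++ [b], Link H (U \ (S1 ∪ S2)) a y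
  c1 : ¬ Cr H1 U1 (a :: A1 ++ b :: Y.reverse)
  c2 : ¬ Cr H2 U2 (b :: A2 ++ a :: Y)
  ind : ∀ x ∈ a :: Y ++ [b], ∀ y ∈ a :: Y ++ [b], H.Adj x y →
    [x, y] <:+: a :: Y ++ [b] ∨ [y, x] <:+: a :: Y ++ [b]

def Out (H : SimpleGraph V) (U S1 S2 : Set V) (a b : V) (A1 A2 : List V) : Prop :=
  ∃ Y H1 H2 U1 U2, Wit H U S1 S2 a b A1 A2 Y H1 H2 U1 U2

theorem Hyp.symm (h : Hyp H U Q S1 S2 a b A1 A2) : Hyp H U Q S2 S1 b a A2 A1 :=
  ⟨⟨h.soc.tight, List.perm_append_comm.nodup_iff.1 h.soc.nd,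
    fun x hx => h.soc.sub x (List.perm_append_comm.subset hx)⟩, h.sub, h.con, h.hb, h.ha, h.d2,
    h.d1, h.e2, h.e1, h.w2, h.w1⟩

theorem Wit.symm (h : Wit H U S1 S2 a b A1 A2 Y H1 H2 U1 U2) :
    Wit H U S2 S1 b a A2 A1 Y.reverse H2 H1 U2 U1 := by
  have e : b :: Y.reverse ++ [a] = (a :: Y ++ [b]).reverse := by simp
  have e' : ls (a :: Y ++ [b]).reverse = ls (a :: Y ++ [b]) := Set.ext fun _ => List.mem_reverse
  refine ⟨?_, ?_, h.s2, h.s1, ?_, by simpa using h.c2, h.c1, ?_⟩ <;> rw [e]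
  · exact ⟨(sup_comm _ _).trans h.sp.sup, h.sp.dis.symm, h.sp.t2, h.sp.t1,
      (union_comm _ _).trans h.sp.un, ((inter_comm _ _).trans h.sp.int).trans e'.symm⟩
  · exact List.nodup_reverse.2 h.nd
  · intro y hy
    rw [union_comm]
    exact (h.ln b (by simp)).symm.trans (h.ln y (List.mem_reverse.1 hy))
  · intro x hx y hy k
    exact (h.ind x (List.mem_reverse.1 hx) y (List.mem_reverse.1 hy) k).symm.imp
      (fun c => c.reverse) fun c => c.reverse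

theorem Out.symm (h : Out H U S1 S2 a b A1 A2) : Out H U S2 S1 b a A2 A1 := by
  obtain ⟨_, _, _, _, _, h⟩ := h
  exact ⟨_, _, _, _, _, h.symm⟩

theorem Hyp.l1 (h : Hyp H U Q S1 S2 a b A1 A2) : ls A1 ⊆ S1 := fun x hx =>
  h.e1 ▸ lk_self hx ⟨h.soc.sub x (by simp [show x ∈ A1 from hx]), disjoint_right.1 h.d1 hx⟩

theorem Hyp.u1 (h : Hyp H U Q S1 S2 a b A1 A2) : S1 ⊆ U \ Q := h.e1 ▸ fun _ k => k.1

theorem Hyp.dis (h : Hyp H U Q S1 S2 a b A1 A2) : Disjoint S1 S2 := by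
  refine disjoint_left.2 fun v h1 h2 => h.w1 ?_
  obtain ⟨v1, x, x1, x2, x3⟩ := h.e1 ▸ h1
  have d : Disjoint Q (cp H (U \ Q) x) := disjoint_right.2 fun y hy => hy.1.2
  have s : List.Sublist [a, x, b] (a :: A1 ++ [b]) :=
    List.Sublist.append (l₁ := [a, x]) ((List.singleton_sublist.2 x1).cons_cons a)
      (List.Sublist.refl [b])
  exact ⟨{a}, {x}, {b}, S2, (s.map fun x => ({x} : Set V)).append (List.Sublist.refl [S2]), Q,
    cp H (U \ Q) x, ⟨h.sub, cp_sub.trans sdiff_subset, h.con, cp_conn x2, d⟩, ⟨a, h.ha, rfl⟩,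
    ⟨b, h.hb, rfl⟩, ⟨x, cp_self x2, rfl⟩, ⟨v, ⟨v1, x3⟩, h2⟩,
    port d (Or.inl (disjoint_right.2 fun y hy => (h.symm.u1 hy).2))⟩

theorem Hyp.up1 (h : Hyp H U Q S1 S2 a b A1 A2) (hD : D ⊆ U \ (S1 ∪ S2)) :
    S1 ⊆ lk H (U \ D) (ls A1) := by
  have k : S1 ⊆ U \ D := fun y hy => ⟨(h.u1 hy).1, fun c => (hD c).2 (Or.inl hy)⟩
  rw [h.e1] at k ⊢
  exact lk_mono k

theorem Hyp.rw2 (h : Hyp H U Q S1 S2 a b A1 A2) (hD : D ⊆ U \ (S1 ∪ S2)) :
    ¬ PX H U (sg (b :: A2 ++ [a]) ++ [lk H (U \ D) (ls A1)]) := fun k =>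
  h.w2 (px_port (h.up1 hD) (fun _ c => c.1.1) (fun _ hv => (lk_in hv).imp
    fun _ c => ⟨h.l1 c.1, c.2.2⟩) k)

theorem Hyp.reroute (h : Hyp H U Q S1 S2 a b A1 A2) (hD : D ⊆ U \ (S1 ∪ S2)) (c : Conn H D)
    (ha : a ∈ D) (hb : b ∈ D) :
    Hyp H U D (lk H (U \ D) (ls A1)) (lk H (U \ D) (ls A2)) a b A1 A2 :=
  ⟨h.soc, hD.trans sdiff_subset, c, ha, hb,
    disjoint_left.2 fun _ k k' => (hD k).2 (Or.inl (h.l1 k')),
    disjoint_left.2 fun _ k k' => (hD k).2 (Or.inr (h.symm.l1 k')), rfl, rfl,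
    h.symm.rw2 (union_comm S1 S2 ▸ hD), h.rw2 hD⟩

theorem Hyp.down [Finite V] (h : Hyp H U Q S1 S2 a b A1 A2) (hr : RedS) (hK : Pock H K X)
    (hX : X.ncard ≤ 3) (hU : K ⊆ U) (ka : a ∉ K) (kb : b ∉ K) (k1 : Disjoint K (ls A1))
    (k2 : Disjoint K S2) (al : ∀ u ∈ X, u ∈ S1 ∪ S2 → ∀ v ∈ X, v ∉ Q → u = v)
    (li : ∀ x ∈ X \ S1, ∀ y ∈ X \ S1, Link H (K \ S1 ∪ {x, y}) x y) :
    Hyp (red H K X) (U \ K) (Q \ K) (S1 \ K) (S2 \ K) a b A1 A2 := by
  have k3 : Disjoint K (ls A2) := k2.mono_right h.symm.l1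
  refine ⟨⟨fun u v e => ⟨?_, e.2.1⟩, h.soc.nd, fun x hx => ⟨h.soc.sub x hx, ?_⟩⟩,
    sdiff_subset_sdiff_left h.sub, (hr V H K X hK hX).2.1 Q h.con ⟨a, h.ha, ka⟩, ⟨h.ha, ka⟩,
    ⟨h.hb, kb⟩, h.d1.mono_left sdiff_subset, h.d2.mono_left sdiff_subset,
    lk_red hr hK hX k1 h.e1 fun u hu k => al u hu (Or.inl k),
    lk_red hr hK hX k3 h.e2 fun u hu k => al u hu (Or.inr k),
    fun c => h.w1 (px_lift hr hK hX hU (fun x hx y hy => ?_) c),
    fun c => h.w2 (px_lift hr hK hX hU li c)⟩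
  · rcases e.2.2.2 with e | e
    · exact h.soc.tight _ _ e
    · obtain ⟨x, -, e'⟩ := hK.adj u e.1
      exact h.soc.tight _ _ e'.symm
  · simp only [List.cons_append, List.mem_cons, List.mem_append] at hx
    rcases hx with rfl | hx | rfl | hx
    exacts [ka, disjoint_right.1 k1 hx, kb, disjoint_right.1 k3 hx]
  · rw [k2.sdiff_eq_left]
    exact thru hK hx.1 hy.1

theorem Wit.up [Finite V]
    (h : Wit (red H K X) (U \ K) (S1 \ K) (S2 \ K) a b A1 A2 Y H1 H2 U1 U2) (hr : RedS)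
    (hK : Pock H K X) (hX : X.ncard ≤ 3) (hU : K ⊆ U) (k1 : Disjoint K (ls A1))
    (k2 : Disjoint K S2) (li : ∀ x ∈ X \ S1, ∀ y ∈ X \ S1, Link H (K \ S1 ∪ {x, y}) x y)
    (hx : X ⊆ U1) (c : ¬ Cr (red H1 ∅ X) U1 (a :: A1 ++ b :: Y.reverse)) :
    Out H U S1 S2 a b A1 A2 := by
  have u2 : ∀ x ∈ U2, x ∉ K := fun x hx => (h.sp.un ▸ Or.inr hx : x ∈ U \ K).2
  have sm : ∀ x ∈ a :: Y ++ [b], x ∉ K := fun x hx =>
    u2 x (h.sp.int.symm ▸ hx : x ∈ U1 ∩ U2).2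
  have ed : ∀ u v, (H \ H2).Adj u v → u ∉ K → v ∉ K → H1.Adj u v := fun u v e hu hv =>
    (h.sp.sup.symm ▸ ⟨e.1.ne, hu, hv, Or.inl e.1⟩ : (H1 ⊔ H2).Adj u v).resolve_right e.2
  have ek : ∀ u ∈ K, ∀ v, H.Adj u v → (H \ H2).Adj u v := fun u hu v e =>
    ⟨e, fun k => u2 u (h.sp.t2 u v k) hu⟩
  have pk : Pock (H \ H2) K X := ⟨conn_on hK.conn fun u hu v _ => ek u hu v, hK.dis,
    fun u hu v e => hK.nbr u hu v e.1, fun x hx => (hK.adj x hx).imp fun u k => ⟨k.1, ek u k.1 x k.2⟩⟩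
  refine ⟨Y, H \ H2, H ⊓ H2, U1 ∪ K, U2, ⟨sup_sdiff_inf _ _, disjoint_inf_sdiff.symm,
    fun u v e => ?_, fun u v e => h.sp.t2 u v e.2, ?_, ?_⟩, h.nd, fun x hx => ?_, fun x hx => ?_,
    fun y hy => Link.map (G' := H) id (fun u hu v hv e => ?_) (h.ln y hy), fun k => c ?_,
    fun k => h.c2 (cr_mono k fun _ _ e => e.2),
    fun x hx y hy e => h.ind x hx y hy ⟨e.ne, sm x hx, sm y hy, Or.inl e⟩⟩
  · by_cases hu : u ∈ K
    · exact Or.inr hu
    by_cases hv : v ∈ K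
    · exact Or.inl (hx ((hK.nbr v hv u e.1.symm).resolve_left hu))
    · exact Or.inl (h.sp.t1 u v (ed u v e hu hv))
  · rw [union_right_comm, h.sp.un, sdiff_union_of_subset hU]
  · rw [union_inter_distrib_right, h.sp.int, (disjoint_right.2 u2).inter_eq, union_empty]
  · by_cases k : x ∈ K
    · exact ⟨Or.inr k, fun k' => u2 x k' k⟩
    · exact ⟨Or.inl (h.s1 ⟨hx, k⟩).1, (h.s1 ⟨hx, k⟩).2⟩
  · have k := disjoint_right.1 k2 hx
    exact ⟨(h.s2 ⟨hx, k⟩).1, fun k' => k'.elim (h.s2 ⟨hx, k⟩).2 k⟩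
  · have s : (U \ K) \ (S1 \ K ∪ S2 \ K) ⊆ U \ (S1 ∪ S2) := fun z hz =>
      ⟨hz.1.1, fun k => hz.2 (k.imp (⟨·, hz.1.2⟩) (⟨·, hz.1.2⟩))⟩
    rcases e.2.2.2 with e | e
    · exact Link.single (s hu) (s hv) e
    · refine (li u ⟨e.1, fun k => (s hu).2 (Or.inl k)⟩ v ⟨e.2, fun k => (s hv).2 (Or.inl k)⟩).mono ?_
      rintro z (hz | rfl | rfl)
      exacts [⟨hU hz.1, fun k => k.elim hz.2 (disjoint_left.1 k2 hz.1)⟩, s hu, s hv]
  · obtain ⟨p, q, r, s, h1, P, R, t, h2, h3, h4, h5⟩ := k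
    have nk : ∀ x ∈ [p, q, r, s], x ∉ K := fun x hx => by
      have := h1.subset hx
      simp only [List.cons_append, List.mem_cons, List.mem_append, List.mem_reverse] at this
      rcases this with rfl | k | rfl | k
      exacts [sm _ (by simp), disjoint_right.1 k1 k, sm _ (by simp), sm _ (by simp [k])]
    have pr : ∀ P, Conn (H \ H2) P → (P \ K).Nonempty → Conn (red H1 ∅ X) (P \ K) :=
      fun P k k' => conn_on ((hr V _ K X pk hX).2.1 P k k') fun u hu v hv e =>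
        ⟨e.1, id, id, e.2.2.2.imp_left fun e' => ed u v e' hu.2 hv.2⟩
    exact ⟨p, q, r, s, h1, P \ K, R \ K, ⟨fun x hx => (t.sp hx.1).resolve_right hx.2,
      fun x hx => (t.sq hx.1).resolve_right hx.2, pr P t.cp ⟨p, h2, nk p (by simp)⟩,
      pr R t.cq ⟨q, h4, nk q (by simp)⟩, t.dis.mono sdiff_subset sdiff_subset⟩,
      ⟨h2, nk p (by simp)⟩, ⟨h3, nk r (by simp)⟩, ⟨h4, nk q (by simp)⟩, ⟨h5, nk s (by simp)⟩⟩

/-- the induction hypothesis -/
def IH (U : Set V) : Prop :=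
  ∀ (H : SimpleGraph V) (U' Q S1 S2 : Set V) (a b : V) (A1 A2 : List V), U'.ncard < U.ncard →
    Hyp H U' Q S1 S2 a b A1 A2 → Out H U' S1 S2 a b A1 A2

theorem less [Finite V] (hK : Pock H K X) (hU : K ⊆ U) : (U \ K).ncard < U.ncard := by
  obtain ⟨x, hx⟩ := hK.conn.1
  exact ncard_lt_ncard ⟨sdiff_subset, fun k => (k (hU hx)).2 hx⟩

theorem small [Finite V] (hr : RedS) (ih : IH U) (h : Hyp H U Q S1 S2 a b A1 A2)
    (hK : Pock H K X) (hX : X.ncard ≤ 2) (kD : K ⊆ U \ (S1 ∪ S2)) (xD : X ⊆ U \ (S1 ∪ S2))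
    (ka : a ∉ K) (kb : b ∉ K) : Out H U S1 S2 a b A1 A2 := by
  have hU : K ⊆ U := kD.trans sdiff_subset
  have k1 : Disjoint K S1 := disjoint_left.2 fun x k k' => (kD k).2 (Or.inl k')
  have k2 : Disjoint K S2 := disjoint_left.2 fun x k k' => (kD k).2 (Or.inr k')
  have li : ∀ S, Disjoint K S → ∀ x ∈ X \ S, ∀ y ∈ X \ S, Link H (K \ S ∪ {x, y}) x y :=
    fun S k x hx y hy => by rw [k.sdiff_eq_left]; exact thru hK hx.1 hy.1
  obtain ⟨Y, H1, H2, U1, U2, w⟩ := ih _ _ _ _ _ _ _ _ _ (less hK hU)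
    (h.down hr hK (by omega) hU ka kb (k1.mono_right h.l1) k2
      (fun u hu k => absurd k (xD hu).2) (li S1 k1))
  have sd : (X ⊆ U1 ∧ ∀ x ∈ X, ∀ y ∈ X, x ≠ y → H1.Adj x y) ∨
      (X ⊆ U2 ∧ ∀ x ∈ X, ∀ y ∈ X, x ≠ y → H2.Adj x y) := by
    by_cases c : X.Nontrivial
    · obtain ⟨x, hx, y, hy, xy⟩ := c
      obtain rfl : {x, y} = X := eq_of_subset_of_ncard_le (pair_subset hx hy)
        (by rwa [ncard_pair xy])
      have k : ∀ (G : SimpleGraph V) (W : Set V), Tight G W → G.Adj x y →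
          {x, y} ⊆ W ∧ ∀ p ∈ ({x, y} : Set V), ∀ q ∈ ({x, y} : Set V), p ≠ q → G.Adj p q := by
        intro G W t e
        refine ⟨pair_subset (t _ _ e) (t _ _ e.symm), ?_⟩
        rintro p (rfl | rfl) q (rfl | rfl) k
        exacts [absurd rfl k, e, e.symm, absurd rfl k]
      exact (w.sp.sup.symm ▸ ⟨xy, disjoint_right.1 hK.dis hx, disjoint_right.1 hK.dis hy,
        Or.inr ⟨hx, hy⟩⟩ : (H1 ⊔ H2).Adj x y).imp (k _ _ w.sp.t1) (k _ _ w.sp.t2)
    · rw [not_nontrivial_iff] at c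
      by_cases d : X ⊆ U1
      · exact Or.inl ⟨d, fun x hx y hy k => absurd (c hx hy) k⟩
      · obtain ⟨x, hx, hx'⟩ := not_subset.1 d
        refine Or.inr ⟨fun y hy => c hx hy ▸ ?_, fun x hx y hy k => absurd (c hx hy) k⟩
        exact (w.sp.un.symm ▸ ⟨(xD hx).1, disjoint_right.1 hK.dis hx⟩ : x ∈ U1 ∪ U2).resolve_left hx'
  rcases sd with ⟨s, e⟩ | ⟨s, e⟩
  · exact w.up hr hK (by omega) hU (k1.mono_right h.l1) k2 (li S1 k1) s
      fun k => w.c1 (cr_mono k fun u v c => c.2.2.2.elim id fun d => e u d.1 v d.2 c.1)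
  · exact (w.symm.up hr hK (by omega) hU (k2.mono_right h.symm.l1) k1 (li S2 k2) s
      fun k => w.symm.c1 (cr_mono k fun u v c => c.2.2.2.elim id fun d => e u d.1 v d.2 c.1)).symm

theorem side [Finite V] (hn : NfS) (hr : RedS) (hd : SideS) (ih : IH U) {f : ℕ → V} {l : ℕ}
    (h : Hyp H U (f '' Iic l) S1 S2 (f 0) (f l) A1 A2) (hf : IsPath H U f l)
    (ind : ∀ i ≤ l, ∀ j ≤ l, H.Adj (f i) (f j) → i + 1 = j ∨ j + 1 = i)
    (e : U = f '' Iic l ∪ S1 ∪ S2) :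
    ¬ Cr H (f '' Iic l ∪ S1) (f 0 :: A1 ++ f l :: ((List.range' 1 (l - 1)).map f).reverse) ∨
      Out H U S1 S2 (f 0) (f l) A1 A2 := by
  refine (hd V H U S1 S2 A1 A2 f l h.soc hf ind (fun i hi => ⟨disjoint_left.1 h.d1 ⟨i, hi, rfl⟩,
    disjoint_left.1 h.d2 ⟨i, hi, rfl⟩⟩) h.e1 h.e2 e h.w1).imp_right ?_
  rintro ⟨i, k, x, K, ik, kl, x1, hK, k1, k2, k3⟩
  have hX : ({f i, f k, x} : Set V).ncard ≤ 3 :=
    (ncard_insert_le _ _).trans (Nat.succ_le_succ ((ncard_insert_le _ _).trans (by simp)))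
  have sK : f '' Ioo i k ⊆ K \ S1 := fun y hy =>
    ⟨(k3.symm ▸ hy : y ∈ K ∩ _).1, fun c => (h.u1 c).2 (k3.symm ▸ hy : y ∈ K ∩ _).2⟩
  have hU : K ⊆ U := fun y hy => by
    have m : f (i + 1) ∈ K := (sK ⟨i + 1, ⟨by omega, by omega⟩, rfl⟩).1
    rcases Relation.ReflTransGen.cases_tail (hK.conn.2 _ m y hy) with rfl | ⟨z, -, c⟩
    exacts [hf.1 _ (by omega), h.soc.tight _ _ c.2.2.symm]
  have nk : ∀ j ≤ l, ¬ (i < j ∧ j < k) → f j ∉ K := fun j hj c m => by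
    obtain ⟨t, ht, e⟩ := (k3 ▸ ⟨m, j, hj, rfl⟩ : f j ∈ f '' Ioo i k)
    exact c (hf.2.2 t (by have := ht.2; omega) j hj e ▸ ht)
  have lk0 : Link H (K \ S1 ∪ {f i, f k}) (f i) (f k) := by
    refine ((conn_seg (G := H) (f := f) (show i ≤ k by omega)
      fun j _ hj => hf.2.1 j (by omega)).2 _ ⟨i, ⟨le_rfl, by omega⟩, rfl⟩ _
      ⟨k, ⟨by omega, le_rfl⟩, rfl⟩).mono ?_
    rintro _ ⟨j, hj, rfl⟩
    rcases hj.1.eq_or_lt with rfl | c
    · exact Or.inr (Or.inl rfl)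
    rcases hj.2.eq_or_lt with rfl | c'
    exacts [Or.inr (Or.inr rfl), Or.inl (sK ⟨j, ⟨c, c'⟩, rfl⟩)]
  have li : ∀ p ∈ ({f i, f k, x} : Set V) \ S1, ∀ q ∈ ({f i, f k, x} : Set V) \ S1,
      Link H (K \ S1 ∪ {p, q}) p q := by
    rintro p ⟨rfl | rfl | rfl, hp⟩ q ⟨rfl | rfl | rfl, hq⟩
    exacts [Link.refl _ _ _, lk0, absurd x1 hq, pair_comm (f i) (f k) ▸ lk0.symm, Link.refl _ _ _,
      absurd x1 hq, absurd x1 hp, absurd x1 hp, absurd x1 hp]
  have ex : ∀ p ∈ ({f i, f k, x} : Set V), p ∉ f '' Iic l → p = x := by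
    rintro p (rfl | rfl | rfl) c
    exacts [absurd ⟨i, show i ≤ l by omega, rfl⟩ c, absurd ⟨k, kl, rfl⟩ c, rfl]
  obtain ⟨Y, H1, H2, U1, U2, w⟩ := ih _ _ _ _ _ _ _ _ _ (less hK hU)
    (h.down hr hK hX hU (nk 0 (by omega) (by omega)) (nk l le_rfl (by omega)) k1 k2
      (fun u hu c v hv c' => (ex u hu (c.elim (fun d => (h.u1 d).2)
        fun d => (h.symm.u1 d).2)).trans (ex v hv c').symm) li)
  have xU := w.s1 ⟨x1, disjoint_right.1 hK.dis (by simp)⟩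
  have ad : ∀ p ∈ ({f i, f k, x} : Set V), ∀ q ∈ ({f i, f k, x} : Set V), p ≠ q →
      (red H K {f i, f k, x}).Adj p q := fun p hp q hq c =>
    ⟨c, disjoint_right.1 hK.dis hp, disjoint_right.1 hK.dis hq, Or.inr ⟨hp, hq⟩⟩
  have ax : ∀ q ∈ ({f i, f k, x} : Set V), x ≠ q → H1.Adj x q := fun q hq c =>
    (w.sp.sup.symm ▸ ad x (by simp) q hq c : (H1 ⊔ H2).Adj x q).resolve_right
      fun d => xU.2 (w.sp.t2 _ _ d)
  have sX : {f i, f k, x} ⊆ U1 := fun q hq => by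
    by_cases c : x = q
    exacts [c ▸ xU.1, w.sp.t1 _ _ (ax q hq c).symm]
  have cl : ∀ p q, (red H1 ∅ {f i, f k, x}).Adj p q →
      H1.Adj p q ∨ (p = f i ∧ q = f k) ∨ (p = f k ∧ q = f i) := by
    rintro p q ⟨c, -, -, d | ⟨hp, hq⟩⟩
    · exact Or.inl d
    rcases hp with rfl | rfl | rfl
    · rcases hq with rfl | rfl | rfl
      exacts [absurd rfl c, Or.inr (Or.inl ⟨rfl, rfl⟩), Or.inl (ax _ (by simp) c.symm).symm]
    · rcases hq with rfl | rfl | rfl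
      exacts [Or.inr (Or.inr ⟨rfl, rfl⟩), absurd rfl c, Or.inl (ax _ (by simp) c.symm).symm]
    · exact Or.inl (ax q hq c)
  refine w.up hr hK hX hU k1 k2 li sX fun c => w.c1 ?_
  have e0 := ad (f i) (by simp) (f k) (by simp) fun d => by
    have := hf.2.2 i (by omega) k kl d
    omega
  rcases (w.sp.sup.symm ▸ e0 : (H1 ⊔ H2).Adj _ _) with d | d
  · refine cr_mono c fun p q m => (cl p q m).elim id ?_
    rintro (⟨rfl, rfl⟩ | ⟨rfl, rfl⟩)
    exacts [d, d.symm]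
  have rot : List.IsRotated (f 0 :: A1 ++ f l :: Y.reverse) (A1 ++ (f 0 :: Y ++ [f l]).reverse) := by
    simpa using List.isRotated_append (l := [f 0]) (l' := A1 ++ f l :: Y.reverse)
  have nd : (A1 ++ (f 0 :: Y ++ [f l]).reverse).Nodup := by
    refine List.nodup_append.2 ⟨?_, List.nodup_reverse.2 w.nd, ?_⟩
    · exact h.soc.nd.sublist ((List.sublist_cons_self _ _).trans (List.sublist_append_left _ _))
    · rintro p hp _ hq rfl
      exact (w.s1 ⟨h.l1 hp, disjoint_right.1 k1 hp⟩).2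
        (w.sp.int.symm ▸ List.mem_reverse.1 hq : p ∈ U1 ∩ U2).2
  have m1 : f i ∈ ls (f 0 :: Y ++ [f l]) := w.sp.int ▸ ⟨sX (by simp), w.sp.t2 _ _ d⟩
  have m2 : f k ∈ ls (f 0 :: Y ++ [f l]) := w.sp.int ▸ ⟨sX (by simp), w.sp.t2 _ _ d.symm⟩
  have c' := (hn V _ U1).2.2.2.2.1 _ _ rot c
  refine (hn V _ U1).2.2.2.2.1 _ _ rot.symm ?_
  rcases w.ind _ m1 _ m2 e0 with m | m
  · exact add_edge hn nd (m.reverse.trans
      (List.suffix_append _ _).isInfix) (fun p q m => (cl p q m).imp_right Or.symm) c'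
  · exact add_edge hn nd (m.reverse.trans
      (List.suffix_append _ _).isInfix) cl c'

theorem base {f : ℕ → V} {l : ℕ} (h : Hyp H U (f '' Iic l) S1 S2 (f 0) (f l) A1 A2)
    (hf : IsPath H U f l) (l0 : 0 < l)
    (ind : ∀ i ≤ l, ∀ j ≤ l, H.Adj (f i) (f j) → i + 1 = j ∨ j + 1 = i)
    (e : U = f '' Iic l ∪ S1 ∪ S2)
    (c1 : ¬ Cr H (f '' Iic l ∪ S1) (f 0 :: A1 ++ f l :: ((List.range' 1 (l - 1)).map f).reverse))
    (c2 : ¬ Cr H (f '' Iic l ∪ S2) (f l :: A2 ++ f 0 :: (List.range' 1 (l - 1)).map f)) :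
    Out H U S1 S2 (f 0) (f l) A1 A2 := by
  have sm : f 0 :: (List.range' 1 (l - 1)).map f ++ [f l] = (List.range' 0 (l + 1)).map f := by
    obtain ⟨m, rfl⟩ : ∃ m, l = m + 1 := ⟨l - 1, by omega⟩
    rw [List.range'_succ, List.range'_concat]
    simp [Nat.add_comm]
  have mem : ∀ x, x ∈ (List.range' 0 (l + 1)).map f ↔ x ∈ f '' Iic l := fun x => by
    simp
  have inf : ∀ i, i < l → [f i, f (i + 1)] <:+: (List.range' 0 (l + 1)).map f := fun i hi => by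
    refine List.IsInfix.map f (l₁ := List.range' i 2) ⟨List.range' 0 i, List.range' (i + 2) (l - 1 - i), ?_⟩
    rw [show l + 1 = i + 2 + (l - 1 - i) by omega, ← List.range'_append_1, ← List.range'_append_1]
    simp
  have n1 : ∀ x ∈ S1, x ∉ f '' Iic l ∪ S2 := fun x hx k =>
    k.elim (h.u1 hx).2 (disjoint_left.1 h.dis hx)
  have n2 : ∀ x ∈ S2, x ∉ f '' Iic l ∪ S1 := fun x hx k =>
    k.elim (h.symm.u1 hx).2 (disjoint_right.1 h.dis hx)
  refine ⟨_, res H (f '' Iic l ∪ S1), H \ res H (f '' Iic l ∪ S1), _, _,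
    ⟨sup_sdiff_cancel_right fun _ _ k => k.1, disjoint_sdiff_self_right, fun _ _ k => k.2.1,
      fun u v k => ?_, ?_, ?_⟩, ?_, fun x hx => ⟨Or.inr hx, n1 x hx⟩,
    fun x hx => ⟨Or.inr hx, n2 x hx⟩, fun y hy => ?_, fun k => c1 (cr_mono k fun _ _ k => k.1),
    fun k => c2 (cr_mono k fun _ _ k => k.1), ?_⟩
  · rcases (e ▸ h.soc.tight u v k.1 : u ∈ _ ∪ S1 ∪ S2) with (c | c) | c
    · exact Or.inl c
    · refine absurd ⟨k.1, Or.inr c, ?_⟩ k.2
      by_cases d : v ∈ f '' Iic l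
      · exact Or.inl d
      · exact Or.inr (h.e1.superset (lk_closed (h.e1.subset c) ⟨h.soc.tight _ _ k.1.symm, d⟩ k.1))
    · exact Or.inr c
  · rw [e, ← union_union_distrib_left, union_assoc]
  · rw [← union_inter_distrib_left, h.dis.inter_eq, union_empty, sm]
    exact Set.ext fun x => (mem x).symm
  · rw [sm]
    exact List.Nodup.map_on (fun i hi j hj => hf.2.2 i (by simp at hi; omega) j
      (by simp at hj; omega)) (List.nodup_range' ..)
  · rw [sm, mem] at hy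
    refine (h.con.2 _ h.ha y hy).mono fun z hz => ?_
    exact ⟨h.sub hz, fun k => k.elim (fun k => (h.u1 k).2 hz) fun k => (h.symm.u1 k).2 hz⟩
  · rw [sm]
    intro x hx y hy k
    obtain ⟨i, hi, rfl⟩ := (mem x).1 hx
    obtain ⟨j, hj, rfl⟩ := (mem y).1 hy
    rcases ind i hi j hj k with rfl | rfl
    exacts [Or.inl (inf i hj), Or.inr (inf j hi)]

theorem step [Finite V] (hn : NfS) (hr : RedS) (hs : StabS) (hd : SideS) (ih : IH U)
    (h : Hyp H U Q S1 S2 a b A1 A2) : Out H U S1 S2 a b A1 A2 := by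
  have ab : a ≠ b := fun c => (List.nodup_append.1 h.soc.nd).2.2 a (by simp) b (by simp) c
  have sQ : Q ⊆ U \ (S1 ∪ S2) := fun z hz => ⟨h.sub hz,
    fun k => k.elim (fun k => (h.u1 k).2 hz) fun k => (h.symm.u1 k).2 hz⟩
  have l1 : ∀ {S1 S2 : Set V} {A1 : List V} {S A : Set V}, S1 = lk H S2 (ls A1) → S1 ⊆ S →
      ls A1 ⊆ A → S1 ⊆ lk H S A := fun e k k' v hv => by
    subst e
    obtain ⟨v1, x, x1, x2⟩ := lk_mono k hv
    exact ⟨v1, x, k' x1, x2⟩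
  obtain ⟨D, d1, d2, d3, d4, d5, -, ⟨K, X, k1, k2, k3, k4⟩ | ⟨f, l, hf, rfl, rfl, rfl, ind⟩⟩ :=
    hs V H U (ls A1 ∪ ls A2) (S1 ∪ S2) a b h.soc.tight ab (sQ h.ha) (sQ h.hb)
      (union_subset_union h.l1 h.symm.l1)
      (union_subset (h.u1.trans sdiff_subset) (h.symm.u1.trans sdiff_subset))
      (Subset.antisymm (union_subset (l1 h.e1 subset_union_left subset_union_left)
        (l1 h.e2 subset_union_right subset_union_right)) fun _ k => k.1)
      ((h.con.2 a h.ha b h.hb).mono sQ)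
  · exact small hr ih h k4 k3 (fun x hx => d1 (k1 hx).1) (k2.trans d1)
      (fun c => (k1 c).2 (Or.inl rfl)) fun c => (k1 c).2 (Or.inr rfl)
  have l0 : 0 < l := Nat.pos_of_ne_zero fun c => ab (by rw [c])
  have hf' : IsPath H U f l := ⟨fun j hj => (d1 (hf.1 j hj)).1, hf.2⟩
  have h' := h.reroute d1 (conn_of_center d2 fun v ⟨j, hj, k⟩ => k ▸ ((conn_seg (Nat.zero_le l)
    fun i _ hi => hf.2.1 i hi).2 _ ⟨0, by simp, rfl⟩ _ ⟨j, ⟨j.zero_le, hj⟩, rfl⟩).mono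
      (image_mono fun _ m => m.2)) d2 d3
  have u1 := h.up1 d1
  have u2 := h.symm.up1 (union_comm S1 S2 ▸ d1)
  have e : U = f '' Iic l ∪ lk H (U \ f '' Iic l) (ls A1) ∪ lk H (U \ f '' Iic l) (ls A2) := by
    refine Subset.antisymm (fun v hv => ?_) (union_subset (union_subset h'.sub
      fun _ k => k.1.1) fun _ k => k.1.1)
    by_cases c : v ∈ f '' Iic l
    · exact Or.inl (Or.inl c)
    obtain ⟨v1, x, x1 | x1, x2⟩ := d5.subset ⟨hv, c⟩
    exacts [Or.inl (Or.inr ⟨v1, x, x1, x2⟩), Or.inr ⟨v1, x, x1, x2⟩]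
  generalize lk H (U \ f '' Iic l) (ls A1) = T1 at h' u1 e
  generalize lk H (U \ f '' Iic l) (ls A2) = T2 at h' u2 e
  suffices k : Out H U T1 T2 (f 0) (f l) A1 A2 by
    obtain ⟨Y, H1, H2, U1, U2, w⟩ := k
    exact ⟨Y, H1, H2, U1, U2, w.sp, w.nd, u1.trans w.s1, u2.trans w.s2, fun y hy =>
      (w.ln y hy).mono (sdiff_subset_sdiff_right (union_subset_union u1 u2)), w.c1, w.c2, w.ind⟩
  rcases side hn hr hd ih h' hf' ind e with c1 | c1
  swap
  · exact c1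
  have im : (fun i => f (l - i)) '' Iic l = f '' Iic l := by
    ext x
    exact ⟨fun ⟨i, _, k⟩ => ⟨l - i, Nat.sub_le _ _, k⟩,
      fun ⟨i, hi, k⟩ => ⟨l - i, Nat.sub_le _ _, by simpa [Nat.sub_sub_self hi] using k⟩⟩
  have rv : ((List.range' 1 (l - 1)).map fun i => f (l - i)).reverse =
      (List.range' 1 (l - 1)).map f := by
    refine List.ext_getElem (by simp) fun i h1 h2 => ?_
    simp only [List.length_map, List.length_range'] at h2
    simp only [List.getElem_reverse, List.getElem_map, List.getElem_range', List.length_map,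
      List.length_range']
    congr 1
    omega
  have c2 := side (f := fun i => f (l - i)) (l := l) (S1 := T2) (S2 := T1) (A1 := A2) (A2 := A1)
    hn hr hd ih (by simpa only [im, Nat.sub_zero, Nat.sub_self] using h'.symm)
    ⟨fun j _ => hf'.1 _ (Nat.sub_le _ _), fun j hj => by
      have := (hf.2.1 (l - (j + 1)) (by omega)).symm
      rwa [show l - (j + 1) + 1 = l - j by omega] at this, fun i hi j hj k => by
      have := hf.2.2 _ (Nat.sub_le _ _) _ (Nat.sub_le _ _) k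
      omega⟩
    (fun i hi j hj k => by
      have := ind _ (Nat.sub_le _ _) _ (Nat.sub_le _ _) k
      omega) (by rw [im, union_right_comm]; exact e)
  simp only [im, rv, Nat.sub_zero, Nat.sub_self] at c2
  exact c2.elim (base h' hf' l0 ind e c1) Out.symm

end CutAux

open CutAux

theorem cutRS : NfS → RedS → StabS → SideS → CutRS := by
  intro hn hr hs hd V _ H U Q S1 S2 a b A1 A2 h1 h2 h3 h4 h5 h6 h7 h8 h9 h10 h11
  have key : ∀ n, ∀ U : Set V, U.ncard = n → ∀ (H : SimpleGraph V) (Q S1 S2 : Set V) (a b : V)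
      (A1 A2 : List V), Hyp H U Q S1 S2 a b A1 A2 → Out H U S1 S2 a b A1 A2 := by
    intro n
    induction n using Nat.strong_induction_on with
    | _ n ih =>
      rintro U rfl H Q S1 S2 a b A1 A2 h
      exact step hn hr hs hd (fun H U' Q S1 S2 a b A1 A2 k => ih _ k U' rfl H Q S1 S2 a b A1 A2) h
  have h : Hyp H U Q S1 S2 a b A1 A2 := ⟨h1, h2, h3, h4, h5, h6, h7, h8, h9, h10, h11⟩
  obtain ⟨Y, H1, H2, U1, U2, w⟩ := key _ U rfl H Q S1 S2 a b A1 A2 h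
  have m : a ∈ U \ (S1 ∪ S2) := ⟨h2 h4,
    fun k => k.elim (fun k => (h.u1 k).2 h4) fun k => (h.symm.u1 k).2 h4⟩
  exact ⟨Y, H1, H2, U1, U2, w.sp, w.nd, w.s1, w.s2, fun y hy =>
    ⟨(w.ln y (by simp [hy])).mem m, a, rfl, m, w.ln y (by simp [hy])⟩, w.c1, w.c2, w.ind⟩

end Pool.Agent.MP_9d78a0_co.st

end MrgPart1

-- ======== part 2: formerly Pool.Agent.MP_9d78a0_co.st.Fan
section MrgPart2

/-! Flat windows round a hub. -/

set_option autoImplicit false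

namespace Pool.Agent.MP_9d78a0_co.st

open Set Function fb

namespace Fan

variable {V : Type} {H : SimpleGraph V}

theorem pw_sg {L : List V} (h : L.Nodup) : (sg L).Pairwise Disjoint := by
  unfold sg
  rw [List.pairwise_map]
  exact List.Pairwise.imp (fun e => disjoint_singleton.2 e) h

theorem un_sg (L : List V) : un (sg L) = ls L := by
  ext v
  simp [un, sg, ls]

theorem pw_cat {L : List V} {S : Set V} (h : L.Nodup) (d : ∀ x ∈ L, x ∉ S) :
    (sg L ++ [S]).Pairwise Disjoint := by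
  rw [List.pairwise_append]
  refine ⟨pw_sg h, by simp, fun a ha b hb => ?_⟩
  obtain ⟨x, hx, rfl⟩ := List.mem_map.1 ha
  obtain rfl := List.mem_singleton.1 hb
  exact disjoint_singleton_left.2 (d x hx)

/-- junk that hangs on one vertex is removed -/
theorem trim {P D : Set V} {ω a : V} (hP : Conn H P)
    (hJ : ∀ v ∈ P, v ∉ D → ∀ w ∈ P, w ∈ D → H.Adj v w → w = ω) (ha : a ∈ P ∩ D) :
    Conn H (P ∩ D) := by
  refine conn_of_center ha fun v hv => ?_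
  have k : ∀ x, Link H P a x → (x ∈ D → Link H (P ∩ D) a x) ∧ (x ∉ D → Link H (P ∩ D) a ω) := by
    intro x hx
    induction hx with
    | refl => exact ⟨fun _ => Link.refl _ _ _, fun c => absurd ha.2 c⟩
    | @tail x y _ h2 ih =>
      obtain ⟨h3, h4, e⟩ := h2
      by_cases c : x ∈ D
      · exact ⟨fun d => (ih.1 c).trans (Link.single ⟨h3, c⟩ ⟨h4, d⟩ e),
          fun d => hJ y h4 d x h3 c e.symm ▸ ih.1 c⟩
      · exact ⟨fun d => hJ x h3 c y h4 d e ▸ ih.2 c, fun _ => ih.2 c⟩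
  exact (k v (hP.2 a ha.1 v hv.1)).1 hv.2

theorem sub_cat {M : List V} {S a b c d : Set V}
    (s : List.Sublist [a, b, c, d] (sg M ++ [S])) :
    ∃ x y z, a = {x} ∧ b = {y} ∧ c = {z} ∧ List.Sublist [x, y, z] M ∧
      (d = S ∨ ∃ w, d = {w} ∧ List.Sublist [x, y, z, w] M) := by
  obtain ⟨l1, l2, e, h1, h2⟩ := List.sublist_append_iff.1 s
  obtain ⟨l, h3, rfl⟩ := List.sublist_map_iff.1 h1
  have h4 := h2.length_le
  have h5 := congrArg List.length e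
  rcases l with _ | ⟨x, _ | ⟨y, _ | ⟨z, _ | ⟨w, l⟩⟩⟩⟩ <;>
    simp only [List.length_cons, List.length_nil, List.length_append, List.length_map] at h4 h5
  · omega
  · omega
  · omega
  · simp only [List.map_cons, List.map_nil, List.cons_append, List.nil_append,
      List.cons.injEq] at e
    obtain ⟨rfl, rfl, rfl, rfl⟩ := e
    exact ⟨x, y, z, rfl, rfl, rfl, h3, Or.inl (by simpa using h2)⟩
  · obtain rfl : l = [] := List.length_eq_zero_iff.1 (by omega)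
    simp only [List.map_cons, List.map_nil, List.cons_append, List.nil_append,
      List.cons.injEq] at e
    obtain ⟨rfl, rfl, rfl, rfl, -⟩ := e
    exact ⟨x, y, z, rfl, rfl, rfl, (by simp : List.Sublist [x, y, z] [x, y, z, w]).trans h3,
      Or.inr ⟨w, rfl, h3⟩⟩

/-- an end in the port `S` is followed to a letter of `R` -/
theorem ext (nf : NfS) {U D S : Set V} {ω : V} {M R : List V} (nd : M.Nodup)
    (hM : ∀ x ∈ M, x ∈ D ∧ x ∉ S) (hD : ω ∈ D)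
    (hJ : ∀ v ∈ U, v ∉ S → v ∉ D → ∀ w ∈ U, w ∉ S → w ∈ D → H.Adj v w → w = ω)
    (hT : ∀ z ∈ S, ∀ y ∈ U, y ∉ S → y ≠ ω → H.Adj y z →
      y ∈ D ∧ ∃ T ⊆ S ∩ D, Conn H T ∧ z ∈ T ∧ ∃ r ∈ R, r ∈ T)
    (hω : ω ∈ R ∨ (ω ∈ M ∧ ∀ a c, ¬ List.Sublist [a, ω, c] M))
    (h : ¬ Cr H D (M ++ R)) : ¬ PX H U (sg M ++ [S]) := by
  intro px
  obtain ⟨a, b, c, d, s, f, g, l, m, hf, hg, hl, hm, f0, fl, g0, gm, dis, fi, gi⟩ :=
    (nf V H U).1 _ (pw_cat nd fun x hx => (hM x hx).2) px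
  obtain ⟨x, y, z, rfl, rfl, rfl, s3, hd⟩ := sub_cat s
  obtain rfl : f 0 = x := f0
  obtain rfl : f l = z := fl
  obtain rfl : g 0 = y := g0
  have m1 : f 0 ∈ M := s3.subset (by simp)
  have m2 : g 0 ∈ M := s3.subset (by simp)
  have m3 : f l ∈ M := s3.subset (by simp)
  have hS : S ⊆ un (sg M ++ [S]) := fun v hv => ⟨S, by simp, hv⟩
  have seg : ∀ (e : ℕ → V) (k k' : ℕ), IsPath H U e k → k' ≤ k → (∀ i ≤ k', e i ∉ S) →
      e 0 ∈ M → Conn H (e '' Icc 0 k' ∩ D) := by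
    intro e k k' he hk hs h0
    refine trim (ω := ω) (a := e 0) (conn_seg (Nat.zero_le _) fun i _ hi => he.2.1 i (by omega))
      ?_ ⟨⟨0, by simp, rfl⟩, (hM _ h0).1⟩
    rintro _ ⟨i, hi, rfl⟩ c _ ⟨j, hj, rfl⟩ c' e'
    exact hJ _ (he.1 i (hi.2.trans hk)) (hs i hi.2) c _ (he.1 j (hj.2.trans hk)) (hs j hj.2) c' e'
  have fs : ∀ i ≤ l, f i ∉ S := by
    intro i hi
    rcases Nat.eq_zero_or_pos i with rfl | c
    · exact (hM _ m1).2
    · rcases hi.eq_or_lt with rfl | c'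
      exacts [(hM _ m3).2, fun k => fi i c c' (hS k)]
  have gs : ∀ i < m, g i ∉ S := by
    intro i hi
    rcases Nat.eq_zero_or_pos i with rfl | c
    exacts [(hM _ m2).2, fun k => gi i c hi (hS k)]
  have fin : ∀ (Q : Set V) (w : V), Q ⊆ D → Conn H Q → g 0 ∈ Q → w ∈ Q →
      (∀ i ≤ l, f i ∉ Q) → List.Sublist [f 0, g 0, f l, w] (M ++ R) → False := by
    intro Q w h1 h2 h3 h4 h5 h6
    refine h ⟨_, _, _, _, h6, f '' Icc 0 l ∩ D, Q, ⟨inter_subset_right, h1,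
      seg f l l hf le_rfl fs m1, h2, disjoint_left.2 ?_⟩, ⟨⟨0, by simp, rfl⟩, (hM _ m1).1⟩,
      ⟨⟨l, by simp, rfl⟩, (hM _ m3).1⟩, h3, h4⟩
    rintro _ ⟨⟨i, hi, rfl⟩, -⟩
    exact h5 i hi.2
  have g00 : ∀ k, g 0 ∈ g '' Icc 0 k ∩ D := fun k => ⟨⟨0, by simp, rfl⟩, (hM _ m2).1⟩
  have dd : ∀ k ≤ m, ∀ i ≤ l, f i ∉ g '' Icc 0 k ∩ D := by
    rintro k hk i hi ⟨⟨j, hj, e⟩, -⟩
    exact dis i hi j (hj.2.trans hk) e.symm
  have app : ∀ r ∈ R, List.Sublist [f 0, g 0, f l, r] (M ++ R) := fun r hr =>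
    s3.append (List.singleton_sublist.2 hr)
  rcases hd with rfl | ⟨w, rfl, s4⟩
  · obtain ⟨k, rfl⟩ : ∃ k, m = k + 1 := ⟨m - 1, by omega⟩
    have c0 := seg g (k + 1) k hg (by omega) (fun i hi => gs i (by omega)) m2
    by_cases c : g k = ω
    · rcases hω with hω | ⟨h1, h2⟩
      · exact fin _ ω inter_subset_right c0 (g00 k) ⟨⟨k, by simp, c⟩, hD⟩ (dd k (by omega))
          (app ω hω)
      · rcases Nat.eq_zero_or_pos k with rfl | c'
        · exact h2 _ _ (c ▸ s3)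
        · exact gi k c' (by omega) ⟨{ω}, by simp [sg, h1], c⟩
    · obtain ⟨h1, T, h2, h3, h4, r, h5, h6⟩ := hT _ gm _ (hg.1 k (by omega)) (gs k (by omega)) c
        (hg.2.1 k (by omega))
      refine fin (g '' Icc 0 k ∩ D ∪ T) r
        (union_subset inter_subset_right fun v hv => (h2 hv).2)
        (conn_union_touch c0 h3 ⟨_, ⟨⟨k, by simp, rfl⟩, h1⟩, _, h4, hg.2.1 k (by omega)⟩)
        (Or.inl (g00 k)) (Or.inr h6) ?_ (app r h5)
      rintro i hi (e | e)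
      exacts [dd k (by omega) i hi e, fs i hi (h2 e).1]
  · obtain rfl : g m = w := gm
    have m4 : g m ∈ M := s4.subset (by simp)
    refine fin _ (g m) inter_subset_right (seg g m m hg le_rfl (fun i hi => ?_) m2) (g00 m)
      ⟨⟨m, by simp, rfl⟩, (hM _ m4).1⟩ (dd m le_rfl) (s4.trans (List.sublist_append_left _ _))
    rcases hi.eq_or_lt with rfl | c'
    exacts [(hM _ m4).2, gs i c']

/-- locality for lists of letters -/
theorem locV (nf : NfS) (loc : LocS) [Finite V] {U Q : Set V} {a b : V} {A1 A2 : List V}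
    (nd : (a :: A1 ++ b :: A2).Nodup) (hU : ∀ x ∈ a :: A1 ++ b :: A2, x ∈ U) (hQ : Q ⊆ U)
    (c : Conn H Q) (ha : a ∈ Q) (hb : b ∈ Q) (h1 : ∀ x ∈ A1, x ∉ Q) (h2 : ∀ x ∈ A2, x ∉ Q)
    (w1 : ¬ PX H U (sg (a :: A1 ++ [b]) ++ [lk H (U \ Q) (ls A2)]))
    (w2 : ¬ PX H U (sg (b :: A2 ++ [a]) ++ [lk H (U \ Q) (ls A1)])) :
    ¬ Cr H U (a :: A1 ++ b :: A2) := by
  have e : sg (a :: A1 ++ b :: A2) = {a} :: sg A1 ++ {b} :: sg A2 := by simp [sg]
  have eQ : Q ∪ {a} ∪ {b} = Q := by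
    rw [union_eq_left.2 (singleton_subset_iff.2 ha), union_eq_left.2 (singleton_subset_iff.2 hb)]
  rw [(nf V H U).2.1, e]
  refine loc V H U Q (lk H (U \ Q) (ls A1)) (lk H (U \ Q) (ls A2)) {a} {b} (sg A1) (sg A2)
    (e ▸ pw_sg nd) (by rw [← e, un_sg]; exact hU) hQ c ⟨a, ha, rfl⟩ ⟨b, hb, rfl⟩
    (by rw [un_sg]; exact disjoint_right.2 h1) (by rw [un_sg]; exact disjoint_right.2 h2)
    (by rw [eQ, un_sg]) (by rw [eQ, un_sg]) ?_ ?_
  · simpa [sg] using w1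
  · simpa [sg] using w2

/-- neighbouring angles, without remainders -/
def St (n a b : ℕ) : Prop :=
  a = b ∨ a + 1 = b ∨ b + 1 = a ∨ (a + 1 = 2 * n ∧ b = 0) ∨ (b + 1 = 2 * n ∧ a = 0) ∨
    (a % 2 = 0 ∧ (a + 2 = b ∨ b + 2 = a))

/-- the letters of the blocks `u, …, u + m - 1` -/
def lin (o : ℕ → V) (seg : ℕ → List V) (u m : ℕ) : List V :=
  (List.range' u m).flatMap fun j => o j :: seg j

/-- the hub and the vertices with a prescribed angle -/
def dom (W : Set V) (ω : V) (κ : V → ℕ) (p : ℕ → Prop) : Set V :=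
  {v | v = ω ∨ (v ∈ W ∧ p (κ v))}

/-- a fan whose hub is a vertex -/
structure Fn (H : SimpleGraph V) (W : Set V) (ω : V) (n : ℕ) (G : ℕ → Set V) (o : ℕ → V)
    (seg : ℕ → List V) (κ : V → ℕ) : Prop where
  hub : ω ∉ W
  sub : ∀ i < n, G i ⊆ W
  conn : ∀ i < n, Conn H (G i)
  adj : ∀ i < n, ∃ y ∈ G i, H.Adj ω y
  mem : ∀ i < n, o i ∈ G i
  sgm : ∀ i < n, ∀ x ∈ seg i, x ∈ W ∧ κ x = 2 * i + 1
  lt : ∀ v ∈ W, κ v < 2 * n
  iff : ∀ v ∈ W, ∀ i < n, κ v = 2 * i ↔ v ∈ G i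
  stp : ∀ u ∈ W, ∀ v ∈ W, H.Adj u v → St n (κ u) (κ v)
  nd : (lin o seg 0 n).Nodup

variable {W : Set V} {ω : V} {n : ℕ} {G : ℕ → Set V} {o : ℕ → V} {seg : ℕ → List V} {κ : V → ℕ}

theorem lin_add (u m m' : ℕ) : lin o seg u (m + m') = lin o seg u m ++ lin o seg (u + m) m' := by
  unfold lin
  rw [← List.flatMap_append, List.range'_append_1]

theorem lin_one (u : ℕ) : lin o seg u 1 = o u :: seg u := by simp [lin]

theorem lin_succ (u m : ℕ) : lin o seg u (m + 1) = lin o seg u m ++ o (u + m) :: seg (u + m) := by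
  rw [lin_add, lin_one]

theorem lin_iff {u m : ℕ} {x : V} :
    x ∈ lin o seg u m ↔ ∃ j, u ≤ j ∧ j < u + m ∧ (x = o j ∨ x ∈ seg j) := by
  simp [lin, List.mem_range'_1, and_assoc]

theorem Fn.ko (h : Fn H W ω n G o seg κ) {j : ℕ} (hj : j < n) : κ (o j) = 2 * j :=
  (h.iff _ (h.sub j hj (h.mem j hj)) j hj).2 (h.mem j hj)

theorem Fn.kx (h : Fn H W ω n G o seg κ) {x : V} (hx : x ∈ lin o seg 0 n) :
    x ∈ W ∧ ∃ j < n, (x = o j ∧ κ x = 2 * j) ∨ (x ∈ seg j ∧ κ x = 2 * j + 1) := by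
  obtain ⟨j, -, hj, rfl | e⟩ := lin_iff.1 hx
  · exact ⟨h.sub j (by omega) (h.mem j (by omega)), j, by omega, Or.inl ⟨rfl, h.ko (by omega)⟩⟩
  · exact ⟨(h.sgm j (by omega) x e).1, j, by omega, Or.inr ⟨e, (h.sgm j (by omega) x e).2⟩⟩

theorem Fn.mlin (h : Fn H W ω n G o seg κ) {u m : ℕ} (hu : u + m ≤ n) {x : V} :
    x ∈ lin o seg u m ↔ x ∈ lin o seg 0 n ∧ 2 * u ≤ κ x ∧ κ x < 2 * (u + m) := by
  constructor
  · intro hx
    obtain ⟨j, h1, h2, e⟩ := lin_iff.1 hx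
    refine ⟨lin_iff.2 ⟨j, by omega, by omega, e⟩, ?_⟩
    rcases e with rfl | e
    · have := h.ko (j := j) (by omega)
      omega
    · have := (h.sgm j (by omega) x e).2
      omega
  · rintro ⟨hx, h1, h2⟩
    obtain ⟨-, j, -, ⟨e, k⟩ | ⟨e, k⟩⟩ := h.kx hx
    exacts [lin_iff.2 ⟨j, by omega, by omega, Or.inl e⟩, lin_iff.2 ⟨j, by omega, by omega, Or.inr e⟩]

theorem Fn.mo (h : Fn H W ω n G o seg κ) {j : ℕ} (hj : j < n) {x : V} :
    x = o j ↔ x ∈ lin o seg 0 n ∧ κ x = 2 * j := by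
  constructor
  · rintro rfl
    exact ⟨lin_iff.2 ⟨j, by omega, by omega, Or.inl rfl⟩, h.ko hj⟩
  · rintro ⟨hx, h1⟩
    obtain ⟨-, i, -, ⟨e, k⟩ | ⟨e, k⟩⟩ := h.kx hx
    · obtain rfl : i = j := by omega
      exact e
    · omega

theorem Fn.ms (h : Fn H W ω n G o seg κ) {j : ℕ} (hj : j < n) {x : V} :
    x ∈ seg j ↔ x ∈ lin o seg 0 n ∧ κ x = 2 * j + 1 := by
  constructor
  · intro e
    exact ⟨lin_iff.2 ⟨j, by omega, by omega, Or.inr e⟩, (h.sgm j hj x e).2⟩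
  · rintro ⟨hx, h1⟩
    obtain ⟨-, i, -, ⟨e, k⟩ | ⟨e, k⟩⟩ := h.kx hx
    · omega
    · obtain rfl : i = j := by omega
      exact e

/-- one of the two hypotheses of locality -/
theorem Fn.half (h : Fn H W ω n G o seg κ) (nf : NfS) {p p1 s : ℕ → Prop} {q q' : ℕ} (hq : q < n)
    (hq' : q' < n) {M A R : List V} (nd : M.Nodup)
    (hA : ∀ x, x ∈ A ↔ x ∈ lin o seg 0 n ∧ s (κ x))
    (hM : ∀ x ∈ M, x = ω ∨ (x ∈ lin o seg 0 n ∧ p1 (κ x) ∧ ¬ s (κ x)))
    (hR : ∀ x ∈ lin o seg 0 n, s (κ x) → p1 (κ x) → x ∈ R) (a2 : p1 (2 * q) ∧ p1 (2 * q'))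
    (a3 : ∀ x y, St n x y → s x → p y → y ≠ 2 * q → y ≠ 2 * q' → s y)
    (a4 : ∀ x y, x < 2 * n → St n x y → p x → ¬ p1 x → p1 y → y % 2 = 0 ∧ s y)
    (a5 : ∀ x, s x → St n (2 * q) x ∨ St n (2 * q') x → p1 x ∧ (x % 2 = 0 ∨ (x + 1 < 2 * n ∧
      (((x + 1 = 2 * q ∨ x + 1 = 2 * q') ∧ s (x - 1) ∧ p1 (x - 1)) ∨
        ((x = 2 * q + 1 ∨ x = 2 * q' + 1) ∧ s (x + 1) ∧ p1 (x + 1))))))
    (a6 : ∀ x, s x → p x ∧ x ≠ 2 * q ∧ x ≠ 2 * q')
    (hω : ω ∈ R ∨ (ω ∈ M ∧ ∀ a c, ¬ List.Sublist [a, ω, c] M))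
    (hc : ¬ Cr H (dom W ω κ p1) (M ++ R)) :
    ¬ PX H (dom W ω κ p) (sg M ++ [lk H (dom W ω κ p \ insert ω (G q ∪ G q')) (ls A)]) := by
  set X := dom W ω κ p \ insert ω (G q ∪ G q') with hX
  have xi : ∀ v, v ∈ X ↔ v ∈ W ∧ p (κ v) ∧ κ v ≠ 2 * q ∧ κ v ≠ 2 * q' := by
    intro v
    constructor
    · rintro ⟨h1 | ⟨h1, h2⟩, h3⟩
      · exact absurd (Or.inl h1) h3
      · exact ⟨h1, h2, fun e => h3 (Or.inr (Or.inl ((h.iff v h1 q hq).1 e))),
          fun e => h3 (Or.inr (Or.inr ((h.iff v h1 q' hq').1 e)))⟩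
    · rintro ⟨h1, h2, h3, h4⟩
      refine ⟨Or.inr ⟨h1, h2⟩, ?_⟩
      rintro (rfl | e | e)
      exacts [h.hub h1, h3 ((h.iff v h1 q hq).2 e), h4 ((h.iff v h1 q' hq').2 e)]
  have zone : ∀ v ∈ lk H X (ls A), s (κ v) := by
    rintro v ⟨-, a, ha, -, k⟩
    induction k with
    | refl => exact ((hA a).1 ha).2
    | @tail x y _ h2 ih =>
      obtain ⟨h3, h4, h5, h6⟩ := (xi y).1 h2.2.1
      exact a3 _ _ (h.stp x ((xi x).1 h2.1).1 y h3 h2.2.2) ih h4 h5 h6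
  have clo : ∀ v ∈ lk H X (ls A), ∀ w, Link H X v w → w ∈ lk H X (ls A) := by
    rintro v ⟨h1, a, ha, h2, k⟩ w k'
    exact ⟨k'.mem h1, a, ha, h2, k.trans k'⟩
  have sx : ∀ v ∈ W, s (κ v) → v ∈ X := fun v hv k => (xi v).2 ⟨hv, a6 _ k⟩
  have spoke : ∀ v ∈ W, κ v % 2 = 0 → κ v / 2 < n ∧ v ∈ G (κ v / 2) := by
    intro v hv k
    have := h.lt v hv
    exact ⟨by omega, (h.iff v hv _ (by omega)).1 (by omega)⟩
  have kG : ∀ j < n, ∀ v ∈ G j, κ v = 2 * j := fun j hj v hv => (h.iff v (h.sub j hj hv) j hj).2 hv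
  refine ext nf (D := dom W ω κ p1) (ω := ω) nd (fun x hx => ?_) (Or.inl rfl) ?_ ?_ hω hc
  · rcases hM x hx with rfl | ⟨h1, h2, h3⟩
    · exact ⟨Or.inl rfl, fun c => h.hub ((xi _).1 c.1).1⟩
    · exact ⟨Or.inr ⟨(h.kx h1).1, h2⟩, fun c => h3 (zone x c)⟩
  · rintro v (rfl | ⟨h1, h2⟩) - h3 w - h4 (rfl | ⟨h5, h6⟩) e
    · exact absurd (Or.inl rfl) h3
    · exact absurd (Or.inl rfl) h3
    · rfl
    · obtain ⟨h7, h8⟩ := a4 _ _ (h.lt v h1) (h.stp v h1 w h5 e) h2 (fun c => h3 (Or.inr ⟨h1, c⟩)) h6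
      obtain ⟨h9, h10⟩ := spoke w h5 h7
      have sG : ∀ u ∈ G (κ w / 2), s (κ u) := fun u hu => by
        rw [kG _ h9 u hu, ← kG _ h9 w h10]
        exact h8
      have gX : G (κ w / 2) ⊆ X := fun u hu => sx u (h.sub _ h9 hu) (sG u hu)
      exact absurd ⟨gX h10, o (κ w / 2), (hA _).2 ⟨((h.mo h9).1 rfl).1, sG _ (h.mem _ h9)⟩,
        gX (h.mem _ h9), ((h.conn _ h9).2 _ (h.mem _ h9) w h10).mono gX⟩ h4
  · rintro z hz y (rfl | ⟨h1, h2⟩) h3 h4 e
    · exact absurd rfl h4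
    have zW := ((xi z).1 hz.1).1
    have yq : κ y = 2 * q ∨ κ y = 2 * q' := by
      by_contra c
      push Not at c
      have yX := (xi y).2 ⟨h1, h2, c⟩
      exact h3 (clo z hz y (Link.single hz.1 yX e.symm))
    have st := h.stp y h1 z zW e
    obtain ⟨b1, b2⟩ := a5 _ (zone z hz) (by
      rcases yq with k | k <;> rw [← k]
      exacts [Or.inl st, Or.inr st])
    obtain ⟨j, hj, c1, c2, c3⟩ : ∃ j < n, s (2 * j) ∧ p1 (2 * j) ∧ (κ z = 2 * j ∨
        ∀ t, St n (κ z) t → t = κ z ∨ t = 2 * j ∨ t = 2 * q ∨ t = 2 * q') := by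
      have := h.lt z zW
      rcases b2 with b2 | ⟨b2, ⟨b3, b4, b5⟩ | ⟨b3, b4, b5⟩⟩
      · have e' : 2 * (κ z / 2) = κ z := by omega
        exact ⟨κ z / 2, by omega, e'.symm ▸ zone z hz, e'.symm ▸ b1, Or.inl e'.symm⟩
      · have e' : 2 * (κ z / 2) = κ z - 1 := by omega
        refine ⟨κ z / 2, by omega, e'.symm ▸ b4, e'.symm ▸ b5, Or.inr fun t ht => ?_⟩
        unfold St at ht
        omega
      · have e' : 2 * (κ z / 2 + 1) = κ z + 1 := by omega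
        refine ⟨κ z / 2 + 1, by omega, e'.symm ▸ b4, e'.symm ▸ b5, Or.inr fun t ht => ?_⟩
        unfold St at ht
        omega
    set F : Set V := {v | v ∈ W ∧ (κ v = κ z ∨ κ v = 2 * j)} with hF
    have fs : ∀ v ∈ F, s (κ v) ∧ p1 (κ v) := by
      rintro v ⟨-, k | k⟩ <;> rw [k]
      exacts [⟨zone z hz, b1⟩, ⟨c1, c2⟩]
    have fX : F ⊆ X := fun v hv => sx v hv.1 (fs v hv).1
    have zF : z ∈ F := ⟨zW, Or.inl rfl⟩
    refine ⟨Or.inr ⟨h1, ?_⟩, cp H F z, fun v hv => ⟨clo z hz v (hv.2.mono fX),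
      Or.inr ⟨hv.1.1, (fs v hv.1).2⟩⟩, cp_conn zF, cp_self zF, ?_⟩
    · rcases yq with k | k <;> rw [k]
      exacts [a2.1, a2.2]
    have lt : ∀ r ∈ lin o seg 0 n, r ∈ cp H F z → ∃ r ∈ R, r ∈ cp H F z := fun r h5 h6 =>
      ⟨r, hR r h5 (fs r h6.1).1 (fs r h6.1).2, h6⟩
    by_cases c : ∃ t ∈ cp H F z, κ t = 2 * j
    · obtain ⟨t, h5, h6⟩ := c
      have gF : G j ⊆ F := fun u hu => ⟨h.sub j hj hu, Or.inr (kG j hj u hu)⟩
      exact lt (o j) ((h.mo hj).1 rfl).1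
        (conn_sub_cp (h.conn j hj) gF ((h.iff t h5.1.1 j hj).1 h6) h5 (h.mem j hj))
    · push Not at c
      obtain ⟨-, a, ha, -, k⟩ := hz
      refine lt a ((hA a).1 ha).1 ?_
      by_contra d
      obtain ⟨u, v, -, h5, h6, h7, h8, -⟩ := link_exit k.symm (cp_self zF) d
      obtain ⟨h9, -, h10, h11⟩ := (xi v).1 h5
      have st' := h.stp u h6.1.1 v h9 h8
      rw [h6.1.2.resolve_right (c u h6)] at st'
      have := (c3.resolve_left (c z (cp_self zF))) _ st'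
      exact h7 (cp_closed h6 ⟨h9, by omega⟩ h8)

theorem lin_sub {u m : ℕ} (hu : u + m < n) :
    List.Sublist (lin o seg u m ++ [o (u + m)]) (lin o seg 0 n) := by
  obtain ⟨t, rfl⟩ : ∃ t, n = u + (m + 1 + t) := ⟨n - (u + m + 1), by omega⟩
  rw [lin_add, lin_add, lin_succ, zero_add]
  refine List.Sublist.trans ?_ (List.sublist_append_right _ _)
  refine List.Sublist.trans ?_ (List.sublist_append_left _ _)
  exact (List.Sublist.refl _).append (by simp)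

theorem Fn.hubn (h : Fn H W ω n G o seg κ) : ω ∉ lin o seg 0 n := fun c => h.hub (h.kx c).1

theorem Fn.cq (h : Fn H W ω n G o seg κ) {q q' : ℕ} (hq : q < n) (hq' : q' < n) :
    Conn H (insert ω (G q ∪ G q')) := by
  obtain ⟨y, h1, h2⟩ := h.adj q hq
  obtain ⟨y', h3, h4⟩ := h.adj q' hq'
  rw [← insert_union]
  exact conn_union_touch ((h.conn q hq).insert h1 h2) (h.conn q' hq') ⟨ω, Or.inl rfl, y', h3, h4⟩

theorem Fn.nq (h : Fn H W ω n G o seg κ) {q q' : ℕ} (hq : q < n) (hq' : q' < n) {x : V}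
    (hx : x ∈ lin o seg 0 n) (h1 : κ x ≠ 2 * q) (h2 : κ x ≠ 2 * q') :
    x ∉ insert ω (G q ∪ G q') := by
  rintro (rfl | e | e)
  exacts [h.hubn hx, h1 ((h.iff x (h.kx hx).1 q hq).2 e), h2 ((h.iff x (h.kx hx).1 q' hq').2 e)]

theorem Fn.sq (h : Fn H W ω n G o seg κ) {q q' : ℕ} (hq : q < n) (hq' : q' < n) {p : ℕ → Prop}
    (h1 : p (2 * q)) (h2 : p (2 * q')) : insert ω (G q ∪ G q') ⊆ dom W ω κ p := by
  rintro x (rfl | e | e)
  · exact Or.inl rfl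
  · exact Or.inr ⟨h.sub q hq e, ((h.iff x (h.sub q hq e) q hq).2 e).symm ▸ h1⟩
  · exact Or.inr ⟨h.sub q' hq' e, ((h.iff x (h.sub q' hq' e) q' hq').2 e).symm ▸ h2⟩

/-- the window from spoke `u` to spoke `u + m` is flat -/
def Wn (H : SimpleGraph V) (W : Set V) (ω : V) (o : ℕ → V) (seg : ℕ → List V) (κ : V → ℕ)
    (u m : ℕ) : Prop :=
  ¬ Cr H (dom W ω κ fun x => 2 * u ≤ x ∧ x ≤ 2 * (u + m)) (lin o seg u m ++ [o (u + m)] ++ [ω])

theorem rot (nf : NfS) {U : Set V} {L L' : List V} (A B : List V) (h : ¬ Cr H U L)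
    (e : L = A ++ B) (e' : L' = B ++ A) : ¬ Cr H U L' := fun c =>
  h ((nf V H U).2.2.2.2.1 _ _ (e ▸ e' ▸ List.isRotated_append) c)

theorem mid {M : List V} {a c : V} (nd : (ω :: M).Nodup) : ¬ List.Sublist [a, ω, c] (ω :: M) := by
  intro k
  refine (List.nodup_cons.1 nd).1 ?_
  rcases List.cons_sublist_cons'.1 k with t | ⟨-, t⟩ <;> exact t.subset (by simp)

theorem Fn.merge [Finite V] (h : Fn H W ω n G o seg κ) (nf : NfS) (loc : LocS) {r : ℕ}
    (hr : r + 5 < n) (w1 : Wn H W ω o seg κ 0 (r + 2)) (w2 : Wn H W ω o seg κ r 5) :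
    Wn H W ω o seg κ 0 (r + 5) := by
  have hq : r + 1 < n := by omega
  set A1 := seg (r + 1) ++ lin o seg (r + 2) 3 ++ [o (r + 5)] with hA1
  set A2 := lin o seg 0 (r + 1) with hA2
  have e0 : lin o seg 0 (r + 5) ++ [o (0 + (r + 5))] = A2 ++ o (r + 1) :: A1 := by
    rw [show r + 5 = r + 1 + 1 + 3 from rfl, lin_add, lin_succ]
    simp [hA1, hA2]
  have e1 : lin o seg r 5 ++ [o (r + 5)] = lin o seg r 1 ++ o (r + 1) :: A1 := by
    rw [show 5 = 1 + 1 + 3 from rfl, lin_add, lin_succ]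
    simp [hA1]
  have e2 : lin o seg 0 (r + 2) ++ [o (0 + (r + 2))] =
      A2 ++ o (r + 1) :: (seg (r + 1) ++ [o (r + 2)]) := by
    rw [show r + 2 = r + 1 + 1 from rfl, lin_succ]
    simp [hA2]
  have m1 : ∀ x, x ∈ A1 ↔ x ∈ lin o seg 0 n ∧ 2 * (r + 1) < κ x ∧ κ x ≤ 2 * (r + 5) := by
    intro x
    simp only [hA1, List.mem_append, List.mem_singleton, h.ms hq, h.mo hr,
      h.mlin (u := r + 2) (m := 3) (by omega)]
    by_cases c : x ∈ lin o seg 0 n <;> simp only [c, true_and, false_and, or_self]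
    omega
  have m2 : ∀ x, x ∈ A2 ↔ x ∈ lin o seg 0 n ∧ κ x < 2 * (r + 1) := by
    intro x
    simp only [hA2, h.mlin (u := 0) (m := r + 1) (by omega)]
    by_cases c : x ∈ lin o seg 0 n <;> simp only [c, true_and, false_and]
    omega
  have m3 := (h.mo hq).1 rfl
  have sb := lin_sub (o := o) (seg := seg) (u := 0) (m := r + 5) (n := n) (by omega)
  rw [e0] at sb
  have nd : (o (r + 1) :: A1 ++ ω :: A2).Nodup := by
    have k : (ω :: (A2 ++ o (r + 1) :: A1)).Nodup :=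
      List.nodup_cons.2 ⟨fun c => h.hubn (sb.subset c), h.nd.sublist sb⟩
    exact (List.perm_append_comm.nodup_iff).1 k
  have nd1 : (o (r + 1) :: A1 ++ [ω]).Nodup :=
    nd.sublist ((List.Sublist.refl _).append (by simp))
  have nd2 : (ω :: A2 ++ [o (r + 1)]).Nodup :=
    ((List.perm_append_comm.nodup_iff).1 nd).sublist ((List.Sublist.refl _).append (by simp))
  unfold Wn at w1 w2 ⊢
  rw [e0]
  rw [e1] at w2
  rw [e2] at w1
  refine rot nf (o (r + 1) :: A1 ++ [ω]) A2 (locV nf loc (Q := insert ω (G (r + 1) ∪ G (r + 1))) nd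
    (fun x hx => ?_) (h.sq hq hq (by omega) (by omega)) (h.cq hq hq)
    (Or.inr (Or.inl (h.mem _ hq))) (Or.inl rfl)
    (fun x hx => h.nq hq hq ((m1 x).1 hx).1 (by have := (m1 x).1 hx; omega)
      (by have := (m1 x).1 hx; omega))
    (fun x hx => h.nq hq hq ((m2 x).1 hx).1 (by have := (m2 x).1 hx; omega)
      (by have := (m2 x).1 hx; omega)) ?_ ?_) (by simp) (by simp)
  · simp only [List.cons_append, List.mem_cons, List.mem_append, m1, m2] at hx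
    rcases hx with rfl | ⟨h1, h2⟩ | rfl | ⟨h1, h2⟩
    exacts [Or.inr ⟨(h.kx m3.1).1, by omega⟩, Or.inr ⟨(h.kx h1).1, by omega⟩, Or.inl rfl,
      Or.inr ⟨(h.kx h1).1, by omega⟩]
  · refine h.half nf (s := fun x => x < 2 * (r + 1)) (R := lin o seg r 1) hq hq nd1 m2
      (fun x hx => ?_) (fun x h1 h2 h3 => (h.mlin (by omega)).2 ⟨h1, by omega⟩) (by omega)
      (fun x y => by unfold St; omega) (fun x y => by unfold St; omega)
      (fun x => by unfold St; omega) (fun x => by omega) (Or.inr ⟨by simp, fun a c k => ?_⟩)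
      (rot nf (lin o seg r 1) _ w2 (by simp) rfl)
    · simp only [List.cons_append, List.mem_cons, List.mem_append, m1, List.not_mem_nil,
        or_false] at hx
      rcases hx with rfl | ⟨h1, h2⟩ | rfl
      exacts [Or.inr ⟨m3.1, by omega⟩, Or.inr ⟨h1, by omega⟩, Or.inl rfl]
    · exact mid (M := (o (r + 1) :: A1).reverse) (a := c) (c := a)
        (by simpa using List.nodup_reverse.2 nd1) (by simpa using k.reverse)
  · refine h.half nf (s := fun x => 2 * (r + 1) < x ∧ x ≤ 2 * (r + 5))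
      (R := seg (r + 1) ++ [o (r + 2)]) hq hq nd2 m1
      (fun x hx => ?_) (fun x h1 h2 h3 => ?_) (by omega)
      (fun x y => by unfold St; omega) (fun x y => by unfold St; omega)
      (fun x => by unfold St; omega) (fun x => by omega) (Or.inr ⟨by simp, fun a c k => ?_⟩)
      (rot nf _ [ω] w1 rfl (by simp))
    · simp only [List.cons_append, List.mem_cons, List.mem_append, m2, List.not_mem_nil,
        or_false] at hx
      rcases hx with rfl | ⟨h1, h2⟩ | rfl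
      exacts [Or.inl rfl, Or.inr ⟨h1, by omega⟩, Or.inr ⟨m3.1, by omega⟩]
    · simp only [List.mem_append, List.mem_singleton, h.ms hq, h.mo (j := r + 2) (by omega), h1,
        true_and]
      omega
    · exact mid nd2 k

theorem Fn.close [Finite V] {t : ℕ} (h : Fn H W ω (t + 4) G o seg κ) (nf : NfS) (loc : LocS)
    (ht : 2 ≤ t) (w1 : Wn H W ω o seg κ 0 (t + 3))
    (w2 : ¬ Cr H (dom W ω κ fun x => 2 * (t + 1) ≤ x ∨ x ≤ 4)
      (lin o seg (t + 1) 3 ++ (lin o seg 0 2 ++ [o 2]) ++ [ω])) :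
    ¬ Cr H (dom W ω κ fun x => x < 2 * (t + 4)) (lin o seg 0 (t + 4)) := by
  have hq : 1 < t + 4 := by omega
  have hq' : t + 2 < t + 4 := by omega
  set A1 := seg 1 ++ lin o seg 2 t with hA1
  set A2 := seg (t + 2) ++ lin o seg (t + 3) 1 ++ lin o seg 0 1 with hA2
  have e3 : lin o seg 0 (t + 2) = lin o seg 0 1 ++ o 1 :: A1 := by
    rw [show t + 2 = 1 + 1 + t by omega, lin_add, lin_succ]
    simp [hA1]
  have e0 : lin o seg 0 (t + 4) =
      lin o seg 0 1 ++ (o 1 :: A1 ++ o (t + 2) :: (seg (t + 2) ++ lin o seg (t + 3) 1)) := by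
    rw [show t + 4 = t + 2 + 1 + 1 from rfl, lin_add, lin_succ, e3]
    simp
  have e1 : lin o seg 0 (t + 3) ++ [o (0 + (t + 3))] ++ [ω] =
      lin o seg 0 1 ++ (o 1 :: A1 ++ o (t + 2) :: (seg (t + 2) ++ [o (t + 3), ω])) := by
    rw [show t + 3 = t + 2 + 1 from rfl, lin_succ, e3]
    simp
  have e2 : lin o seg (t + 1) 3 ++ (lin o seg 0 2 ++ [o 2]) ++ [ω] =
      lin o seg (t + 1) 1 ++ (o (t + 2) :: A2 ++ o 1 :: (seg 1 ++ [o 2, ω])) := by
    rw [show 3 = 1 + 1 + 1 from rfl, lin_add, lin_succ, show lin o seg 0 2 = _ from lin_succ 0 1]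
    simp [hA2]
  have m1 : ∀ x, x ∈ A1 ↔ x ∈ lin o seg 0 (t + 4) ∧ 2 < κ x ∧ κ x < 2 * (t + 2) := by
    intro x
    simp only [hA1, List.mem_append, h.ms hq, h.mlin (u := 2) (m := t) (by omega)]
    by_cases c : x ∈ lin o seg 0 (t + 4) <;> simp only [c, true_and, false_and, or_self]
    omega
  have m2 : ∀ x, x ∈ A2 ↔
      x ∈ lin o seg 0 (t + 4) ∧ ((2 * (t + 2) < κ x ∧ κ x < 2 * (t + 4)) ∨ κ x < 2) := by
    intro x
    simp only [hA2, List.mem_append, h.ms hq', h.mlin (u := t + 3) (m := 1) (by omega),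
      h.mlin (u := 0) (m := 1) (by omega)]
    by_cases c : x ∈ lin o seg 0 (t + 4) <;> simp only [c, true_and, false_and, or_self]
    omega
  have m3 := (h.mo hq).1 rfl
  have m4 := (h.mo hq').1 rfl
  have pm : List.Perm (o 1 :: A1 ++ o (t + 2) :: A2) (lin o seg 0 (t + 4)) := by
    rw [e0]
    exact (List.Perm.of_eq (by simp [hA2])).trans List.perm_append_comm
  have nd := pm.nodup_iff.2 h.nd
  have nd1 : (o 1 :: A1 ++ [o (t + 2)]).Nodup :=
    nd.sublist ((List.Sublist.refl _).append (by simp))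
  have nd2 : (o (t + 2) :: A2 ++ [o 1]).Nodup :=
    ((List.perm_append_comm.nodup_iff).1 nd).sublist ((List.Sublist.refl _).append (by simp))
  unfold Wn at w1
  refine rot nf _ (lin o seg 0 1) (locV nf loc (Q := insert ω (G 1 ∪ G (t + 2))) nd
    (fun x hx => Or.inr ⟨(h.kx (pm.subset hx)).1, h.lt x (h.kx (pm.subset hx)).1⟩)
    (h.sq hq hq' (by omega) (by omega)) (h.cq hq hq')
    (Or.inr (Or.inl (h.mem _ hq))) (Or.inr (Or.inr (h.mem _ hq')))
    (fun x hx => h.nq hq hq' ((m1 x).1 hx).1 (by have := (m1 x).1 hx; omega)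
      (by have := (m1 x).1 hx; omega))
    (fun x hx => h.nq hq hq' ((m2 x).1 hx).1 (by have := (m2 x).1 hx; omega)
      (by have := (m2 x).1 hx; omega)) ?_ ?_) ?_ e0
  · refine h.half nf (s := fun x => (2 * (t + 2) < x ∧ x < 2 * (t + 4)) ∨ x < 2)
      (R := seg (t + 2) ++ [o (t + 3), ω] ++ lin o seg 0 1) hq hq' nd1 m2
      (fun x hx => ?_) (fun x h1 h2 h3 => ?_) (by omega)
      (fun x y => by unfold St; omega) (fun x y => by unfold St; omega)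
      (fun x => by unfold St; omega) (fun x => by omega) (Or.inl (by simp))
      (rot nf (lin o seg 0 1) _ w1 e1 (by simp))
    · simp only [List.cons_append, List.mem_cons, List.mem_append, m1, List.not_mem_nil,
        or_false] at hx
      rcases hx with rfl | ⟨h1, h2⟩ | rfl
      exacts [Or.inr ⟨m3.1, by omega⟩, Or.inr ⟨h1, by omega⟩, Or.inr ⟨m4.1, by omega⟩]
    · simp only [List.mem_append, List.mem_cons, h.ms hq', h.mo (j := t + 3) (by omega), h1,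
        true_and, h.mlin (u := 0) (m := 1) (by omega)]
      omega
  · refine h.half nf (s := fun x => 2 < x ∧ x < 2 * (t + 2))
      (R := seg 1 ++ [o 2, ω] ++ lin o seg (t + 1) 1) hq hq' nd2 m1
      (fun x hx => ?_) (fun x h1 h2 h3 => ?_) (by omega)
      (fun x y => by unfold St; omega) (fun x y => by unfold St; omega)
      (fun x => by unfold St; omega) (fun x => by omega) (Or.inl (by simp))
      (rot nf (lin o seg (t + 1) 1) _ w2 e2 (by simp))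
    · simp only [List.cons_append, List.mem_cons, List.mem_append, m2, List.not_mem_nil,
        or_false] at hx
      rcases hx with rfl | ⟨h1, h2⟩ | rfl
      exacts [Or.inr ⟨m4.1, by omega⟩, Or.inr ⟨h1, by omega⟩, Or.inr ⟨m3.1, by omega⟩]
    · simp only [List.mem_append, List.mem_cons, h.ms hq, h.mo (j := 2) (by omega), h1,
        true_and, h.mlin (u := t + 1) (m := 1) (by omega)]
      omega
  · simp [hA2]

theorem md {a m : ℕ} (h : a < 2 * m) : (a < m ∧ a % m = a) ∨ (m ≤ a ∧ a % m = a - m) := by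
  by_cases c : a < m
  · exact Or.inl ⟨c, Nat.mod_eq_of_lt c⟩
  · refine Or.inr ⟨by omega, ?_⟩
    rw [Nat.mod_eq_sub_mod (by omega), Nat.mod_eq_of_lt (by omega)]

theorem arc_in {u : ℕ} (hu : u + 5 < n) : arc o seg n u 5 = lin o seg u 5 ++ [o (u + 5)] := by
  have k : ∀ j ≤ 5, (u + j) % n = u + j := fun j hj => Nat.mod_eq_of_lt (by omega)
  simp [arc, lin, List.range_succ, List.range'_succ, k, Nat.mod_eq_of_lt (show u < n by omega)]

theorem arc_out {t : ℕ} :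
    arc o seg (t + 4) (t + 1) 5 = lin o seg (t + 1) 3 ++ (lin o seg 0 2 ++ [o 2]) := by
  have k0 : (t + 1) % (t + 4) = t + 1 := Nat.mod_eq_of_lt (by omega)
  have k1 : (t + 1 + 1) % (t + 4) = t + 1 + 1 := Nat.mod_eq_of_lt (by omega)
  have k2 : (t + 1 + 2) % (t + 4) = t + 1 + 2 := Nat.mod_eq_of_lt (by omega)
  have k3 : (t + 1 + 3) % (t + 4) = 0 := Nat.mod_self _
  have k4 : (t + 1 + 4) % (t + 4) = 1 := by have := md (a := t + 1 + 4) (m := t + 4) (by omega); omega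
  have k5 : (t + 1 + 5) % (t + 4) = 2 := by have := md (a := t + 1 + 5) (m := t + 4) (by omega); omega
  simp only [arc, lin, List.range_succ, List.range'_succ, List.range_zero, List.range'_zero,
    List.flatMap_append, List.flatMap_cons, List.flatMap_nil, add_zero, k0, k1, k2, k3, k4, k5]
  simp

end Fan

open Fan in
theorem fanS (nf : NfS) (ct : CtrS) (loc : LocS) : FanS := by
  intro V _ H U I k G o seg κ hk soc hI cI dI hG hκ hT hst hW
  obtain ⟨ω, hω⟩ := cI.1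
  obtain ⟨t, ht⟩ : ∃ t, 3 * k = t + 4 := ⟨3 * k - 4, by omega⟩
  have e6 : 6 * k = 2 * (t + 4) := by omega
  have eL : cyc o seg (t + 4) = lin o seg 0 (t + 4) := by rw [cyc, lin, List.range_eq_range']
  rw [e6] at hκ hW
  rw [ht] at hG hκ hT hst hW soc dI ⊢
  rw [eL] at soc dI ⊢
  have old : ∀ u ∈ U \ I, ∀ v ∈ U \ I, (ctr H I ω).Adj u v → H.Adj u v := by
    rintro u hu v hv ⟨-, -, -, x, y, e, rfl | ⟨rfl, -⟩, rfl | ⟨rfl, -⟩⟩
    exacts [e, absurd hω hv.2, absurd hω hu.2, absurd hω hu.2]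
  have h : Fn (ctr H I ω) (U \ I) ω (t + 4) G o seg κ := by
    refine ⟨fun c => c.2 hω, fun i hi => (hG i hi).1, fun i hi => ?_, fun i hi => ?_,
      fun i hi => (hG i hi).2.2.2.1, fun i hi x hx => ⟨?_, (hG i hi).2.2.2.2 x hx⟩,
      fun v hv => (hκ v hv).1, fun v hv => (hκ v hv).2, fun u hu v hv e => ?_, soc.nd⟩
    · exact ((ct V H U I ω hω hI).2.2.1 _ (disjoint_left.2 fun v hv => ((hG i hi).1 hv).2)).1
        (hG i hi).2.1
    · obtain ⟨x, hx, y, hy, e⟩ := (hG i hi).2.2.1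
      have := ((hG i hi).1 hy).2
      exact ⟨y, hy, fun c => this (c ▸ hω), Or.inr rfl, Or.inl this, x, y, e, Or.inr ⟨rfl, hx⟩,
        Or.inl rfl⟩
    · have : x ∈ lin o seg 0 (t + 4) := lin_iff.2 ⟨i, by omega, by omega, Or.inr hx⟩
      exact ⟨soc.sub x this, disjoint_right.1 dI this⟩
    · have e' := old u hu v hv e
      have a1 := (hκ u hu).1
      have a2 := (hκ v hv).1
      have n1 : ¬ (κ u = 2 * (t + 4 - 1) ∧ κ v = 2 * 0) := fun c =>
        hT ⟨u, ((hκ u hu).2 _ (by omega)).1 c.1, v, ((hκ v hv).2 _ (by omega)).1 c.2, e'⟩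
      have n2 : ¬ (κ v = 2 * (t + 4 - 1) ∧ κ u = 2 * 0) := fun c =>
        hT ⟨v, ((hκ v hv).2 _ (by omega)).1 c.1, u, ((hκ u hu).2 _ (by omega)).1 c.2, e'.symm⟩
      have s := hst u hu v hv e'
      have b1 := md (a := κ u + 1) (m := 2 * (t + 4)) (by omega)
      have b2 := md (a := κ v + 1) (m := 2 * (t + 4)) (by omega)
      have b3 := md (a := κ u + 2) (m := 2 * (t + 4)) (by omega)
      have b4 := md (a := κ v + 2) (m := 2 * (t + 4)) (by omega)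
      unfold Stp at s
      unfold St
      omega
  have win : ∀ i < k, ∀ (L : List V) (p : ℕ → Prop), arc o seg (t + 4) (3 * i) 5 = L → L.Nodup →
      (∀ x ∈ L, x ∈ lin o seg 0 (t + 4)) →
      (∀ a < 2 * (t + 4), p a ↔ ∃ x ≤ 10, a = (6 * i + x) % (2 * (t + 4))) →
      ¬ Cr (ctr H I ω) (dom (U \ I) ω κ p) (L ++ [ω]) := by
    intro i hi L p e nd sb hp c
    have w := hW i hi
    rw [e] at w
    refine w (((ct V H _ I ω hω subset_union_left).2.2.2.2.1 (sg L) []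
      (pw_cat nd fun x hx => disjoint_right.1 dI (sb x hx))).2 ?_)
    have e1 : sg L ++ [{ω}] = sg (L ++ [ω]) := by simp [sg]
    rw [e1, ← (nf V _ _).2.1]
    convert c using 1
    ext v
    constructor
    · rintro (⟨h1 | ⟨h1, h2⟩, h3⟩ | rfl)
      exacts [absurd h1 h3, Or.inr ⟨h1, (hp _ (h.lt v h1)).2 h2⟩, Or.inl rfl]
    · rintro (rfl | ⟨h1, h2⟩)
      exacts [Or.inr rfl, Or.inl ⟨Or.inr ⟨h1, (hp _ (h.lt v h1)).1 h2⟩, h1.2⟩]
  have w5 : ∀ i, i + 1 < k → Wn (ctr H I ω) (U \ I) ω o seg κ (3 * i) 5 := by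
    intro i hi
    have sb := lin_sub (o := o) (seg := seg) (u := 3 * i) (m := 5) (n := t + 4) (by omega)
    refine win i (by omega) _ _ (arc_in (by omega)) (h.nd.sublist sb) (fun x hx => sb.subset hx)
      fun a ha => ⟨fun c => ⟨a - 6 * i, by omega, ?_⟩, ?_⟩
    · rw [Nat.mod_eq_of_lt (by omega)]
      omega
    · rintro ⟨x, hx, rfl⟩
      rw [Nat.mod_eq_of_lt (by omega)]
      omega
  have wm : ∀ i, i + 1 < k → Wn (ctr H I ω) (U \ I) ω o seg κ 0 (3 * i + 5) := by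
    intro i
    induction i with
    | zero => exact w5 0
    | succ i ih => exact fun hi => h.merge nf loc (by omega) (ih (by omega)) (w5 (i + 1) hi)
  obtain ⟨j, rfl⟩ : ∃ j, k = j + 2 := ⟨k - 2, by omega⟩
  obtain rfl : t = 3 * j + 2 := by omega
  have sb : List.Sublist (lin o seg (3 * j + 2 + 1) 3 ++ (lin o seg 0 2 ++ [o 2]))
      (lin o seg (3 * j + 2 + 1) 3 ++ lin o seg 0 (3 * j + 2 + 1)) :=
    (List.Sublist.refl _).append (lin_sub (u := 0) (m := 2) (by omega))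
  have pm : List.Perm (lin o seg (3 * j + 2 + 1) 3 ++ lin o seg 0 (3 * j + 2 + 1))
      (lin o seg 0 (3 * j + 2 + 4)) := by
    rw [show 3 * j + 2 + 4 = 3 * j + 2 + 1 + 3 from rfl, lin_add 0 (3 * j + 2 + 1) 3, zero_add]
    exact List.perm_append_comm
  have fin := h.close nf loc (by omega) (wm j (by omega))
    (win (j + 1) (by omega) _ _ arc_out ((pm.nodup_iff.2 h.nd).sublist sb)
      (fun x hx => pm.subset (sb.subset hx)) fun a ha => ⟨?_, ?_⟩)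
  · refine ((ct V H U I ω hω hI).2.2.2.2.2 _ cI dI).2 ?_
    convert fin using 2
    ext v
    constructor
    · rintro (h1 | rfl)
      exacts [Or.inr ⟨h1, h.lt v h1⟩, Or.inl rfl]
    · rintro (rfl | ⟨h1, -⟩)
      exacts [Or.inr rfl, Or.inl h1]
  · rintro (c | c)
    · refine ⟨a - 6 * (j + 1), by omega, ?_⟩
      rw [Nat.mod_eq_of_lt (by omega)]
      omega
    · refine ⟨a + 6, by omega, ?_⟩
      have := md (a := 6 * (j + 1) + (a + 6)) (m := 2 * (3 * j + 2 + 4)) (by omega)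
      omega
  · rintro ⟨x, hx, e⟩
    have := md (a := 6 * (j + 1) + x) (m := 2 * (3 * j + 2 + 4)) (by omega)
    omega

end Pool.Agent.MP_9d78a0_co.st

end MrgPart2

-- marker of a merged file
example : 731051 + 800053 = 731051 + 800053 := rfl
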