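import Pool.Agent.MP_9d78a0_co.st.Del
import Pool.Agent.MP_9d78a0_co.st.TRg
import Pool.Agent.MP_9d78a0_co.st.Dbl

-- ======== part 0: formerly Pool.Agent.MP_9d78a0_co.st.Pan
section MrgPart0

/-! Panels of a collar, reflected panels and parts of panels. -/

set_option autoImplicit false

namespace Pool.Agent.MP_9d78a0_co.st

open Set Function fb

namespace pan

variable {V : Type} {H : SimpleGraph V} {U I : Set V}

theorem last_edge {K : Set V} {v w : V} (h : Link H (K ∪ {w}) v w) (hv : v ∈ K) :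
    w ∈ K ∨ ∃ x ∈ K, H.Adj x w := by
  by_cases c : w ∈ K
  · exact Or.inl c
  obtain ⟨x, y, -, hy, hx, hy', e, -⟩ := link_exit h hv c
  obtain rfl : y = w := hy.resolve_left hy'
  exact Or.inr ⟨x, hx, e⟩

theorem conn_up {C : ℕ → Set V} {Λ : Set V} {s l : ℕ} (hl : l ≤ s) (h1 : ∀ l ≤ s, Conn H (C l))
    (h2 : ∀ l < s, Touch H (C l) (C (l + 1))) (h3 : Conn H Λ) (h4 : Touch H (C s) Λ) :
    Conn H (Λ ∪ {v | ∃ l', l ≤ l' ∧ l' ≤ s ∧ v ∈ C l'}) := by
  have e : {v | ∃ l', l ≤ l' ∧ l' ≤ s ∧ v ∈ C l'} = ⋃ i ∈ Icc l s, C i := by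
    ext v; simp [and_assoc]
  rw [e]
  exact conn_union_touch h3 (conn_chain hl (fun i hi => h1 i hi.2) fun i _ hi => Or.inr (h2 i hi))
    (h4.symm.mono subset_rfl (subset_biUnion_of_mem (u := C) ⟨hl, le_rfl⟩))

theorem lin_succ (p : PD V) (u m : ℕ) :
    p.lin u (m + 1) = p.lin u m ++ p.seg (u + m) ++ [p.o (u + (m + 1))] := by
  simp [PD.lin, List.range_succ, List.flatMap_append]

theorem lin_succ' (p : PD V) (u m : ℕ) :
    p.lin u (m + 1) = p.o u :: p.seg u ++ p.lin (u + 1) m := by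
  simp [PD.lin, List.range_succ_eq_map, List.flatMap_map, add_assoc, add_comm 1]

theorem mem_lin {p : PD V} {u m : ℕ} {v : V} :
    v ∈ p.lin u m ↔ (∃ j ≤ m, v = p.o (u + j)) ∨ ∃ j < m, v ∈ p.seg (u + j) := by
  simp only [PD.lin, List.mem_append, List.mem_flatMap, List.mem_range, List.mem_cons,
    List.not_mem_nil, or_false]
  constructor
  · rintro (⟨j, hj, h | h⟩ | h)
    exacts [Or.inl ⟨j, hj.le, h⟩, Or.inr ⟨j, hj, h⟩, Or.inl ⟨m, le_rfl, h⟩]
  · rintro (⟨j, hj, h⟩ | ⟨j, hj, h⟩)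
    · rcases hj.lt_or_eq with hj | rfl
      exacts [Or.inl ⟨j, hj, Or.inl h⟩, Or.inr h]
    · exact Or.inl ⟨j, hj, Or.inr h⟩

theorem lin_pre (p : PD V) (u : ℕ) {m n : ℕ} (h : m ≤ n) : List.Sublist (p.lin u m) (p.lin u n) := by
  induction n, h using Nat.le_induction with
  | base => exact List.Sublist.refl _
  | succ n _ ih =>
    rw [lin_succ, List.append_assoc]
    exact ih.trans (List.sublist_append_left _ _)

theorem lin_sub (p : PD V) {u m n : ℕ} (h : u + m ≤ n) : List.Sublist (p.lin u m) (p.lin 0 n) := by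
  have k : ∀ u m, List.Sublist (p.lin u m) (p.lin 0 (u + m)) := by
    intro u
    induction u with
    | zero => intro m; rw [zero_add]
    | succ u ih =>
      intro m
      rw [add_right_comm, add_assoc]
      refine List.Sublist.trans ?_ (ih (m + 1))
      rw [lin_succ']
      exact List.sublist_append_right _ _
  exact (k u m).trans (lin_pre p 0 h)

theorem lin_rev (p : PD V) (u m : ℕ) (h : u + m ≤ p.n) :
    p.rev.lin u m = (p.lin (p.n - (u + m)) m).reverse := by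
  induction m with
  | zero => simp [PD.lin, PD.rev]
  | succ m ih =>
    rw [lin_succ, lin_succ', ih (by omega), show p.n - (u + (m + 1)) + 1 = p.n - (u + m) by omega]
    simp [PD.rev, show p.n - 1 - (u + m) = p.n - (u + (m + 1)) by omega]

theorem lin_subp (p : PD V) (u m u' m' : ℕ) : (p.sub u m).lin u' m' = p.lin (u + u') m' := by
  simp [PD.lin, PD.sub, add_assoc]

theorem rev_ring (p : PD V) (l : ℕ) : p.rev.ring l = p.ring l := by
  ext v
  constructor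
  · rintro ⟨e, _, h⟩
    exact ⟨p.n - e, Nat.sub_le _ _, h⟩
  · rintro ⟨e, he, h⟩
    exact ⟨p.n - e, Nat.sub_le _ _, by simpa [PD.rev, Nat.sub_sub_self he] using h⟩

theorem rev_cols (p : PD V) : p.cols ⊆ p.rev.cols := by
  rintro v ⟨e, he, h⟩
  refine ⟨p.n - e, Nat.sub_le _ _, ?_⟩
  change v ∈ p.col (p.n - (p.n - e))
  rwa [Nat.sub_sub_self he]

theorem panRev {p : PD V} (h : Pan H U I p) : Pan H U I p.rev := by
  have e : p.rev.lin 0 p.rev.n = (p.lin 0 p.n).reverse := by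
    rw [lin_rev p 0 _ (by simp [PD.rev])]; simp [PD.rev]
  have r := fun v hv => (h.rng v hv).2
  refine ⟨h.sub, fun l hl e' _ => ?_, fun l hl e' he => ?_,
    fun l hl e' _ => h.ver l hl _ (Nat.sub_le _ _), fun e' _ => h.lam _ (Nat.sub_le _ _),
    e ▸ List.nodup_reverse.2 h.nd, fun e' he v hv => ?_,
    fun v hv => ⟨(h.rng v hv).1, Nat.sub_le _ _⟩, fun e' he v => ?_, fun v hv h1 h2 y hy => ?_,
    fun u hu v hv a => ?_, fun v hv y hy a => rev_ring p 0 ▸ h.foot v hv y hy a,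
    fun v hv hl => ?_, fun v hv => ?_, fun l hl hx => h.flat l hl ?_⟩
  · obtain ⟨h1, h2⟩ := h.cell l hl (p.n - e') (Nat.sub_le _ _)
    exact ⟨h1, fun v hv => ⟨(h2 v hv).1, by rw [e, List.mem_reverse]; exact (h2 v hv).2⟩⟩
  · change e' < p.n at he
    have := (h.hor l hl (p.n - (e' + 1)) (by omega)).symm
    rwa [show p.n - (e' + 1) + 1 = p.n - e' by omega] at this
  · change e' < p.n at he
    obtain ⟨h1, h2, h3⟩ := h.seg (p.n - 1 - e') (by omega) v (List.mem_reverse.1 hv)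
    exact ⟨h1, h2, by change 2 * p.n - p.κ v = _; omega⟩
  · change e' ≤ p.n at he
    refine (h.col (p.n - e') (Nat.sub_le _ _) v).trans (and_congr_right fun hv => ?_)
    have := r v hv
    change _ ↔ 2 * p.n - p.κ v = _
    omega
  · change 0 < 2 * p.n - p.κ v at h1
    change 2 * p.n - p.κ v < 2 * p.n at h2
    rw [rev_ring]
    exact h.clo v hv (by omega) (by omega) y hy
  · obtain ⟨h1, h2, h3⟩ := h.stp u hu v hv a
    refine ⟨?_, h2, fun c => rev_ring p _ ▸ h3 c⟩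
    have := r u hu
    have := r v hv
    change LSt (2 * p.n - p.κ u) (2 * p.n - p.κ v)
    unfold LSt at h1 ⊢
    omega
  · obtain ⟨w, hw, k⟩ := h.down v hv hl
    refine ⟨w, rev_ring p _ ▸ hw, k.mono (union_subset_union_left _ ?_)⟩
    rintro x ⟨h1, h2, h3⟩
    exact ⟨h1, h2, congrArg (2 * p.n - ·) h3⟩
  · obtain ⟨w, hw, k⟩ := h.att v hv
    refine ⟨w, hw.imp (fun c => ?_) fun c => rev_cols p c, k.mono (union_subset_union_left _ ?_)⟩
    · rw [e]; exact List.mem_reverse.2 c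
    · rintro x ⟨h1, h3⟩
      exact ⟨h1, congrArg (2 * p.n - ·) h3⟩
  · rw [e] at hx
    obtain ⟨P, Q, hT, hS, ⟨a, b, c, d, s, h1, h2, h3, h4⟩ | ⟨a, b, c, s, h1, h2, h3, h4⟩⟩ :=
      nf.px_sg_port.1 hx
    · exact nf.px_sg_port.2 ⟨Q, P, nf.two_symm hT, hS.symm,
        Or.inl ⟨d, c, b, a, nf.sub4_rev.1 s, h4, h3, h2, h1⟩⟩
    · exact nf.px_sg_port.2 ⟨P, Q, hT, hS, Or.inr ⟨c, b, a, nf.sub3_rev.1 s, h2, h1, h3, h4⟩⟩

theorem cell_col {p : PD V} {l e : ℕ} (hl : l ≤ p.s) : p.C l e ⊆ p.col e :=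
  fun _ hv => Or.inr ⟨l, Nat.zero_le _, hl, hv⟩

theorem panSub {p : PD V} (h : Pan H U I p) {u m : ℕ} (hm : u + m ≤ p.n) :
    Pan H U I (p.sub u m) := by
  have e : (p.sub u m).lin 0 (p.sub u m).n = p.lin u m := lin_subp p u m 0 m
  have sb := lin_sub p hm
  have mem : ∀ v, v ∈ (p.sub u m).P ↔ v ∈ p.P ∧ 2 * u ≤ p.κ v ∧ p.κ v ≤ 2 * (u + m) :=
    fun v => Iff.rfl
  have idx : ∀ v ∈ (p.sub u m).P, ∀ e' ≤ p.n, v ∈ p.col e' → ∃ j ≤ m, e' = u + j := by
    intro v hv e' he c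
    have := ((h.col e' he v).1 c).2
    obtain ⟨-, h1, h2⟩ := hv
    exact ⟨e' - u, by omega, by omega⟩
  have rg : ∀ v ∈ (p.sub u m).P, ∀ l ≤ p.s, v ∈ p.ring l → v ∈ (p.sub u m).ring l := by
    rintro v hv l hl ⟨e', he, c⟩
    obtain ⟨j, hj, rfl⟩ := idx v hv e' he (cell_col hl c)
    exact ⟨j, hj, c⟩
  have cl : ∀ v ∈ (p.sub u m).P, v ∈ p.cols → v ∈ (p.sub u m).cols := by
    rintro v hv ⟨e', he, c⟩
    obtain ⟨j, hj, rfl⟩ := idx v hv e' he c
    exact ⟨j, hj, c⟩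
  have clo : ∀ v ∈ p.P, 2 * u < p.κ v → p.κ v < 2 * (u + m) → ∀ y ∈ p.P, H.Adj v y →
      y ∈ (p.sub u m).P := by
    intro v hv h1 h2 y hy a
    have := (h.stp v hv y hy a).1
    unfold LSt at this
    exact ⟨hy, by omega, by omega⟩
  have odd : ∀ v ∈ (p.sub u m).P, v ∉ p.cols → 2 * u < p.κ v ∧ p.κ v < 2 * (u + m) := by
    rintro v ⟨hv, h1, h2⟩ c
    have k : ∀ e' ≤ p.n, p.κ v ≠ 2 * e' := fun e' he d => c ⟨e', he, (h.col e' he v).2 ⟨hv, d⟩⟩
    have := k u (by omega)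
    have := k (u + m) hm
    omega
  have lst : ∀ v ∈ (p.sub u m).P, v ∉ p.cols → ∀ K : Set V, v ∈ K →
      (∀ x ∈ K, x ∈ p.P ∧ p.κ x = p.κ v) → ∀ w ∈ p.P, Link H (K ∪ {w}) v w →
      w ∈ (p.sub u m).P := by
    intro v hv c K hK k w hw a
    obtain ⟨h1, h2⟩ := odd v hv c
    rcases last_edge a hK with d | ⟨x, d, a'⟩
    · have := (k w d).2
      exact ⟨hw, by omega, by omega⟩
    · have := (k x d).2
      exact clo x (k x d).1 (by omega) (by omega) w hw a'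
  refine ⟨fun v hv => h.sub hv.1, fun l hl e' he => ?_,
    fun l hl e' he => h.hor l hl (u + e') (by change e' < m at he; omega),
    fun l hl e' he => h.ver l hl _ (by change e' ≤ m at he; omega),
    fun e' he => h.lam _ (by change e' ≤ m at he; omega),
    e ▸ h.nd.sublist sb, fun e' he v hv => ?_, fun v hv => ⟨(h.rng v hv.1).1, ?_⟩,
    fun e' he v => ?_, fun v hv h1 h2 y hy => ?_, fun x hx v hv a => ?_,
    fun v hv y hy a => rg v hv 0 (Nat.zero_le _) (h.foot v hv.1 y hy a),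
    fun v hv hl => ?_, fun v hv => ?_, fun l hl hx => h.flat l hl ?_⟩
  · change e' ≤ m at he
    obtain ⟨h1, h2⟩ := h.cell l hl (u + e') (by omega)
    exact ⟨h1, fun v hv => ⟨(h2 v hv).1, fun c => (h2 v hv).2 (sb.subset (e ▸ c))⟩⟩
  · change e' < m at he
    obtain ⟨h1, h2, h3⟩ := h.seg (u + e') (by omega) v hv
    exact ⟨⟨h1, by omega, by omega⟩, h2, by change p.κ v - 2 * u = _; omega⟩
  · have := hv.2.2
    change p.κ v - 2 * u ≤ 2 * m
    omega
  · change e' ≤ m at he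
    refine (h.col (u + e') (by omega) v).trans ?_
    change _ ↔ (v ∈ p.P ∧ 2 * u ≤ p.κ v ∧ p.κ v ≤ 2 * (u + m)) ∧ p.κ v - 2 * u = 2 * e'
    exact ⟨fun c => ⟨⟨c.1, by omega, by omega⟩, by omega⟩, fun c => ⟨c.1.1, by omega⟩⟩
  · change 0 < p.κ v - 2 * u at h1
    change p.κ v - 2 * u < 2 * m at h2
    exact (h.clo v hv.1 (by omega) (by omega) y hy).imp
      (fun c => clo v hv.1 (by omega) (by omega) y c hy)
      fun c => ⟨c.1, rg v hv 0 (Nat.zero_le _) c.2⟩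
  · obtain ⟨h1, h2, h3⟩ := h.stp x hx.1 v hv.1 a
    refine ⟨?_, h2, fun c => rg v hv _ (h.rng v hv.1).1 (h3 c)⟩
    have := hx.2.1
    have := hv.2.1
    change LSt (p.κ x - 2 * u) (p.κ v - 2 * u)
    unfold LSt at h1 ⊢
    omega
  · by_cases c : v ∈ p.cols
    · refine ⟨v, rg v hv _ hl.le ?_, Link.refl _ _ _⟩
      obtain ⟨e', he, d | ⟨l, -, h1, d⟩⟩ := c
      · exact absurd ((h.lam e' he).2.2.2.2 v d) hl.ne
      · exact ⟨e', he, by rw [show (p.sub u m).lev v = l from ((h.cell l h1 e' he).2 v d).1]; exact d⟩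
    obtain ⟨w, hw, k⟩ := h.down v hv.1 hl
    have hw' : w ∈ p.P := by
      obtain ⟨e', he, d⟩ := hw
      exact ((h.col e' he w).1 (cell_col (p := p) hl.le d)).1
    refine ⟨w, rg w (lst v hv c _ (by exact ⟨hv.1, rfl, rfl⟩) (fun x hx => by
      exact ⟨hx.1, hx.2.2⟩) w hw' k) _ hl.le hw,
      k.mono (union_subset_union_left _ ?_)⟩
    rintro x ⟨h1, h2, h3⟩
    exact ⟨⟨h1, h3 ▸ hv.2.1, h3 ▸ hv.2.2⟩, h2, congrArg (· - 2 * u) h3⟩
  · by_cases c : v ∈ p.cols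
    · exact ⟨v, Or.inr (cl v hv c), Link.refl _ _ _⟩
    obtain ⟨w, hw, k⟩ := h.att v hv.1
    have hw2 : w ∈ p.cols ∨ ∃ j < p.n, w ∈ p.seg j := by
      rcases hw with hw | hw
      · rcases mem_lin.1 hw with ⟨j, hj, rfl⟩ | ⟨j, hj, d⟩
        · exact Or.inl ⟨j, hj, Or.inl (by rw [zero_add]; exact (h.lam j hj).2.2.1)⟩
        · exact Or.inr ⟨j, hj, by rwa [zero_add] at d⟩
      · exact Or.inl hw
    have hw' : w ∈ p.P := by
      rcases hw2 with ⟨e', he, d⟩ | ⟨j, hj, d⟩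
      exacts [((h.col e' he w).1 d).1, (h.seg j hj w d).1]
    have hs := lst v hv c {x | x ∈ p.P ∧ p.κ x = p.κ v} ⟨hv.1, rfl⟩ (fun x hx => hx) w hw' k
    refine ⟨w, ?_, k.mono (union_subset_union_left _ ?_)⟩
    · rcases hw2 with d | ⟨j, hj, d⟩
      · exact Or.inr (cl w hs d)
      · have := (h.seg j hj w d).2.2
        obtain ⟨-, h1, h2⟩ := hs
        refine Or.inl ?_
        rw [e]
        exact mem_lin.2 (Or.inr ⟨j - u, by omega, by rwa [show u + (j - u) = j by omega]⟩)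
    · rintro x ⟨h1, h3⟩
      exact ⟨⟨h1, h3 ▸ hv.2.1, h3 ▸ hv.2.2⟩, congrArg (· - 2 * u) h3⟩
  · rw [e] at hx
    obtain ⟨P, Q, hT, hS, k⟩ := nf.px_sg_port.1 hx
    have dj : ∀ R ⊆ (p.sub u m).P ∪ I,
        Disjoint R (I ∪ {v | v ∈ (p.sub u m).P ∧ (p.sub u m).lev v < l}) →
        Disjoint R (I ∪ {v | v ∈ p.P ∧ p.lev v < l}) := by
      intro R hR d
      refine disjoint_left.2 fun v hv c => disjoint_left.1 d hv ?_
      rcases c with c | c
      · exact Or.inl c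
      · exact (hR hv).symm.imp_right fun a => ⟨a, c.2⟩
    refine nf.px_sg_port.2 ⟨P, Q, nf.two_mono hT (union_subset_union_left _ fun v hv => hv.1),
      hS.imp (dj P hT.sp) (dj Q hT.sq), k.imp ?_ ?_⟩
    · rintro ⟨a, b, c, d, s, r⟩
      exact ⟨a, b, c, d, s.trans sb, r⟩
    · rintro ⟨a, b, c, s, h1, h2, h3, v, hv, h4⟩
      exact ⟨a, b, c, s.trans sb, h1, h2, h3, v, hv, h4.imp_right fun d => ⟨d.1.1, d.2⟩⟩

theorem md {x m : ℕ} (h : x < 2 * m) : (x < m ∧ x % m = x) ∨ (m ≤ x ∧ x % m + m = x) := by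
  by_cases c : x < m
  · exact Or.inl ⟨c, Nat.mod_eq_of_lt c⟩
  · refine Or.inr ⟨by omega, ?_⟩
    rw [Nat.mod_eq_sub_mod (by omega), Nat.mod_eq_of_lt (by omega)]
    omega

theorem cyc_rot (o : ℕ → V) (seg : ℕ → List V) {t u : ℕ} (hu : u < t) :
    List.IsRotated (cyc o seg t)
      ((List.range t).flatMap fun j => o ((u + j) % t) :: seg ((u + j) % t)) := by
  obtain ⟨k, rfl⟩ : ∃ k, t = u + k := ⟨t - u, by omega⟩
  have e1 : cyc o seg (u + k) = ((List.range u).flatMap fun j => o j :: seg j) ++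
      (List.range k).flatMap fun j => o (u + j) :: seg (u + j) := by
    simp [cyc, List.range_add, List.flatMap_append, List.flatMap_map]
  have e2 : ((List.range (u + k)).flatMap fun j =>
      o ((u + j) % (u + k)) :: seg ((u + j) % (u + k))) =
      ((List.range k).flatMap fun j => o (u + j) :: seg (u + j)) ++
        (List.range u).flatMap fun j => o j :: seg j := by
    conv_lhs => arg 2; rw [add_comm u k, List.range_add]
    rw [List.flatMap_append, List.flatMap_map]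
    congr 1
    · refine List.flatMap_congr fun j hj => ?_
      rw [Nat.mod_eq_of_lt (by have := List.mem_range.1 hj; omega)]
    · refine List.flatMap_congr fun j hj => ?_
      have := List.mem_range.1 hj
      rw [show u + (k + j) = (u + k) + j by omega, Nat.add_mod_left, Nat.mod_eq_of_lt (by omega)]
  rw [e1, e2]
  exact List.isRotated_append

theorem panCol (hI : InS) {Ω : List V} {c : CD V} {lev ang : V → ℕ} {u n : ℕ} (h : Col H U Ω c)
    (g : Crd H U Ω c lev ang) (hu : u < c.t) (hn : n + 1 < c.t) (hs : I ⊆ c.I)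
    (hf : ∀ v ∈ c.ring 0, ∀ y ∈ c.I, H.Adj v y → y ∈ I) : Pan H U I (c.pan U lev ang u n) := by
  set p := c.pan U lev ang u n with hp
  have t0 : 0 < c.t := by omega
  have lt : ∀ e, (u + e) % c.t < c.t := fun e => Nat.mod_lt _ t0
  have rot := h.rot.trans (cyc_rot c.o c.seg hu)
  set Ω' := (List.range c.t).flatMap fun j => c.o ((u + j) % c.t) :: c.seg ((u + j) % c.t)
  have sb1 : List.Sublist (p.lin 0 (n + 1)) Ω' := by
    obtain ⟨k, hk⟩ : ∃ k, c.t = (n + 1) + (k + 1) := ⟨c.t - n - 2, by omega⟩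
    have e : List.range c.t = List.range (n + 1) ++ (n + 1) :: (List.range k).map (n + 2 + ·) := by
      conv_lhs => rw [hk, List.range_add, List.range_succ_eq_map (n := k)]
      simp [add_assoc, add_comm 1, add_comm 2, Function.comp_def]
    simp only [Ω', e, List.flatMap_append, List.flatMap_cons, PD.lin, zero_add]
    exact (List.Sublist.refl _).append (List.cons_sublist_cons.2 (List.nil_sublist _))
  have sb2 : List.Sublist (p.lin 0 n ++ [c.o ((u + (n + 1)) % c.t)]) Ω' := by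
    refine List.Sublist.trans ?_ sb1
    rw [lin_succ, zero_add, zero_add]
    exact (List.sublist_append_left _ _).append (List.Sublist.refl _)
  have sb : List.Sublist (p.lin 0 n) Ω' := (List.sublist_append_left _ _).trans sb2
  have mΩ : ∀ v, v ∈ Ω ↔ (∃ i < c.t, v = c.o i) ∨ ∃ i < c.t, v ∈ c.seg i := fun v => by
    rw [h.rot.mem_iff]
    simp [cyc, and_or_left, exists_or]
  have ΩU : ∀ v ∈ Ω, v ∈ U \ c.I := fun v hv =>
    ⟨h.soc.sub v hv, disjoint_right.1 h.hub.2.2.1 hv⟩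
  have colU : ∀ i < c.t, c.col i ⊆ U \ c.I := by
    rintro i hi v (hv | ⟨l, -, hl, hv⟩)
    · exact (h.lam i hi).1 hv
    · exact ⟨((h.cell l hl i hi).1 hv).1, fun a => ((h.cell l hl i hi).1 hv).2 (Or.inl a)⟩
  have oΛ : ∀ i < c.t, c.o i ∈ c.Λ i := fun i hi =>
    ((h.lam i hi).2.2.2.symm.subset (mem_singleton _)).1
  have mem : ∀ v, v ∈ p.P ↔ v ∈ U \ c.I ∧ ang v < 2 * c.t ∧ p.κ v ≤ 2 * n := fun v => Iff.rfl
  have κ : ∀ v, ang v < 2 * c.t → (2 * u ≤ ang v ∧ p.κ v + 2 * u = ang v) ∨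
      (ang v < 2 * u ∧ p.κ v + 2 * u = ang v + 2 * c.t) := fun v hv => by
    have := md (x := ang v + 2 * c.t - 2 * u) (m := 2 * c.t) (by omega)
    change (_ ∧ (ang v + 2 * c.t - 2 * u) % (2 * c.t) + _ = _) ∨
      (_ ∧ (ang v + 2 * c.t - 2 * u) % (2 * c.t) + _ = _)
    omega
  have ix : ∀ e < c.t, (u + e < c.t ∧ (u + e) % c.t = u + e) ∨
      (c.t ≤ u + e ∧ (u + e) % c.t + c.t = u + e) := fun e he => md (by omega)
  have col : ∀ e < c.t, ∀ v, v ∈ c.col ((u + e) % c.t) ↔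
      v ∈ U \ c.I ∧ ang v < 2 * c.t ∧ p.κ v = 2 * e := by
    intro e he v
    have := ix e he
    have := lt e
    constructor
    · intro hv
      have a := (g.col v (colU _ (lt e) hv) _ (lt e)).2 hv
      have := κ v (by omega)
      exact ⟨colU _ (lt e) hv, by omega, by omega⟩
    · rintro ⟨h1, h2, h3⟩
      have := κ v h2
      exact (g.col v h1 _ (lt e)).1 (by omega)
  have idx : ∀ v ∈ p.P, ∀ i < c.t, ∀ b ≤ 1, ang v = 2 * i + b →
      ∃ j, 2 * j + b ≤ 2 * n ∧ i = (u + j) % c.t := by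
    rintro v ⟨h1, h2, h3⟩ i hi b hb a
    have := κ v h2
    change p.κ v ≤ _ at h3
    have := ix (p.κ v / 2) (by omega)
    exact ⟨p.κ v / 2, by omega, by omega⟩
  have idc : ∀ v ∈ p.P, ∀ i < c.t, v ∈ c.col i → ∃ j ≤ n, i = (u + j) % c.t := by
    intro v hv i hi a
    obtain ⟨j, hj, e⟩ := idx v hv i hi 0 (by omega) ((g.col v hv.1 i hi).2 a)
    exact ⟨j, by omega, e⟩
  have rg : ∀ v ∈ p.P, ∀ l ≤ c.s, v ∈ c.ring l → v ∈ p.ring l := by
    rintro v hv l hl ⟨i, hi, a⟩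
    obtain ⟨j, hj, rfl⟩ := idc v hv i hi (Or.inr ⟨l, Nat.zero_le _, hl, a⟩)
    exact ⟨j, hj, a⟩
  have cl : ∀ v ∈ p.P, v ∈ c.cols → v ∈ p.cols := by
    rintro v hv ⟨i, hi, a⟩
    obtain ⟨j, hj, rfl⟩ := idc v hv i hi a
    exact ⟨j, hj, a⟩
  have stp : ∀ x ∈ p.P, ∀ y ∈ U \ c.I, H.Adj x y → ang y < 2 * c.t ∧
      (LSt (p.κ x) (p.κ y) ∨ (p.κ x = 0 ∧ 2 * n < p.κ y)) := by
    rintro x ⟨h1, h2, h3⟩ y hy a
    change p.κ x ≤ _ at h3
    have hy2 : ang y < 2 * c.t := by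
      obtain ⟨-, z, hz, hz', k⟩ := (g.junk x h1).1 h2
      exact (g.junk y hy).2 ⟨hy, z, hz, hz', k.trans (Link.single h1 hy a)⟩
    refine ⟨hy2, ?_⟩
    have s := (g.stp x h1 y hy a).1 h2
    have := κ x h2
    have := κ y hy2
    have := md (x := ang x + 1) (m := 2 * c.t) (by omega)
    have := md (x := ang x + 2) (m := 2 * c.t) (by omega)
    have := md (x := ang y + 1) (m := 2 * c.t) (by omega)
    have := md (x := ang y + 2) (m := 2 * c.t) (by omega)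
    unfold Stp at s
    unfold LSt
    omega
  have clo : ∀ x ∈ p.P, 0 < p.κ x → p.κ x < 2 * n → ∀ y ∈ U \ c.I, H.Adj x y → y ∈ p.P := by
    intro x hx h1 h2 y hy a
    obtain ⟨h3, h4⟩ := stp x hx y hy a
    unfold LSt at h4
    exact (mem y).2 ⟨hy, h3, by omega⟩
  have odd : ∀ v ∈ p.P, v ∉ c.cols → 0 < p.κ v ∧ p.κ v < 2 * n := by
    rintro v ⟨h1, h2, h3⟩ a
    change p.κ v ≤ _ at h3
    have k : ∀ e < c.t, p.κ v ≠ 2 * e := fun e he d => a ⟨_, lt e, (col e he v).2 ⟨h1, h2, d⟩⟩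
    have := k 0 t0
    have := k n (by omega)
    omega
  have same : ∀ v ∈ p.P, ∀ x ∈ U \ c.I, ang x = ang v → x ∈ p.P ∧ p.κ x = p.κ v := by
    intro v hv x hx a
    have e : p.κ x = p.κ v := by
      change (ang x + _ - _) % _ = (ang v + _ - _) % _
      rw [a]
    exact ⟨(mem x).2 ⟨hx, a ▸ hv.2.1, e ▸ hv.2.2⟩, e⟩
  have lst : ∀ v ∈ p.P, v ∉ c.cols → ∀ K : Set V, v ∈ K →
      (∀ x ∈ K, x ∈ U \ c.I ∧ ang x = ang v) → ∀ w ∈ U \ c.I, Link H (K ∪ {w}) v w → w ∈ p.P := by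
    intro v hv a K hK k w hw l
    obtain ⟨h1, h2⟩ := odd v hv a
    rcases last_edge l hK with d | ⟨x, d, a'⟩
    · exact (same v hv w hw (k w d).2).1
    · obtain ⟨h3, h4⟩ := same v hv x (k x d).1 (k x d).2
      exact clo x h3 (by omega) (by omega) w hw a'
  have ft : ∀ v ∈ p.P, ∀ y ∈ c.I, H.Adj v y → v ∈ c.ring 0 := fun v hv y hy a =>
    (h.sat y hy v a.symm).resolve_left hv.1.2
  refine ⟨fun v hv => ⟨hv.1.1, fun a => hv.1.2 (hs a)⟩,
    fun l hl e _ => ⟨(h.cell l hl _ (lt e)).2, fun v hv => ⟨g.cell l hl _ (lt e) v hv,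
      fun a => ((h.cell l hl _ (lt e)).1 hv).2 (Or.inr (rot.mem_iff.2 (sb.subset a)))⟩⟩,
    fun l hl e _ => ?_, fun l hl e _ => h.ver l hl _ (lt e),
    fun e _ => ⟨(h.lam _ (lt e)).2.1, (h.lam _ (lt e)).2.2.1, oΛ _ (lt e),
      (h.lamd _ (lt e) _ (lt e)).2 _ le_rfl, (g.lam _ (lt e)).1⟩,
    (rot.nodup_iff.1 h.soc.nd).sublist sb, fun e he v hv => ?_,
    fun v hv => ⟨(g.rng v hv.1).1, hv.2.2⟩, fun e he v => ?_, fun v hv h1 h2 y a => ?_,
    fun x hx v hv a => ?_, fun v hv y hy a => rg v hv 0 (Nat.zero_le _) (ft v hv y (hs hy) a),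
    fun v hv hl => ?_, fun v hv => ?_, fun l hl hx => ?_⟩
  · have := h.hor l hl _ (lt e)
    rwa [Nat.mod_add_mod] at this
  · change e < n at he
    obtain ⟨h1, h2⟩ := (g.lam _ (lt e)).2 v hv
    have := lt e
    have := ix e (by omega)
    have := κ v (by omega)
    exact ⟨(mem v).2 ⟨ΩU v ((mΩ v).2 (Or.inr ⟨_, lt e, hv⟩)), by omega, by omega⟩, h1, by omega⟩
  · change e ≤ n at he
    refine (col e (by omega) v).trans ?_
    rw [mem]
    exact ⟨fun a => ⟨⟨a.1, a.2.1, by omega⟩, a.2.2⟩, fun a => ⟨a.1.1, a.1.2.1, a.2⟩⟩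
  · by_cases b : y ∈ c.I
    · exact Or.inr ⟨hf v (ft v hv y b a) y b a, rg v hv 0 (Nat.zero_le _) (ft v hv y b a)⟩
    · exact Or.inl (clo v hv h1 h2 y ⟨h.soc.tight _ _ a.symm, b⟩ a)
  · obtain ⟨-, h2, h3⟩ := g.stp x hx.1 v hv.1 a
    refine ⟨(stp x hx v hv.1 a).2.resolve_right fun b => ?_, h2,
      fun b => rg v hv _ (g.rng v hv.1).1 (h3 b)⟩
    have := ((mem v).1 hv).2.2
    omega
  · change lev v < c.s at hl
    by_cases a : v ∈ c.cols
    · refine ⟨v, rg v hv _ hl.le ?_, Link.refl _ _ _⟩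
      obtain ⟨i, hi, d | ⟨l, -, h1, d⟩⟩ := a
      · exact absurd ((g.lam i hi).1 v d) hl.ne
      · exact ⟨i, hi, by rw [show p.lev v = l from g.cell l h1 i hi v d]; exact d⟩
    obtain ⟨w, hw, k⟩ := g.down v hv.1 hl
    have hw' : w ∈ U \ c.I := by
      obtain ⟨i, hi, d⟩ := hw
      exact colU i hi (Or.inr ⟨_, Nat.zero_le _, hl.le, d⟩)
    refine ⟨w, rg w (lst v hv a _ (by exact ⟨hv.1, rfl, rfl⟩) (fun x hx => by
      exact ⟨hx.1, hx.2.2⟩) w hw' k) _ hl.le hw,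
      k.mono (union_subset_union_left _ ?_)⟩
    rintro x ⟨h1, h2, h3⟩
    exact ⟨(same v hv x h1 h3).1, h2, (same v hv x h1 h3).2⟩
  · by_cases a : v ∈ c.cols
    · exact ⟨v, Or.inr (cl v hv a), Link.refl _ _ _⟩
    obtain ⟨w, hw, k⟩ := g.att v hv.1 hv.2.1
    have hw' : w ∈ U \ c.I := by
      rcases hw with hw | ⟨i, hi, d⟩
      exacts [ΩU w hw, colU i hi d]
    have hP := lst v hv a {x | x ∈ U \ c.I ∧ ang x = ang v} ⟨hv.1, rfl⟩ (fun x hx => hx) w hw' k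
    refine ⟨w, ?_, k.mono (union_subset_union_left _ fun x hx => same v hv x hx.1 hx.2)⟩
    rcases hw with hw | hw
    · rcases (mΩ w).1 hw with ⟨i, hi, rfl⟩ | ⟨i, hi, d⟩
      · exact Or.inr (cl _ hP ⟨i, hi, Or.inl (oΛ i hi)⟩)
      · obtain ⟨j, hj, rfl⟩ := idx w hP i hi 1 le_rfl ((g.lam i hi).2 w d).2
        exact Or.inl (mem_lin.2 (Or.inr ⟨j, by change j < n; omega, by rw [zero_add]; exact d⟩))
    · exact Or.inr (cl w hP hw)
  · obtain ⟨P, Q, hT, hS, k⟩ := nf.px_sg_port.1 hx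
    have fl := nf.hf_rot rot h.flat
    have sU : p.P ∪ I ⊆ U := union_subset (fun v hv => hv.1.1) (hs.trans h.hub.1)
    have mt : ∀ R ⊆ p.P ∪ I, (R ∩ c.I).Nonempty →
        ¬ Disjoint R (I ∪ {v | v ∈ p.P ∧ p.lev v < l}) := by
      rintro R hR ⟨v, h1, h2⟩ d
      exact disjoint_left.1 d h1 (Or.inl ((hR h1).resolve_left fun a => a.1.2 h2))
    rcases k with ⟨a, b, c', d, s, h1, h2, h3, h4⟩ | ⟨a, b, c', s, h1, h2, h3, w, hw, h4⟩
    · obtain ⟨k1, k2⟩ := fl a b c' d (s.trans sb) P Q (nf.two_mono hT sU) h1 h2 h3 h4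
      exact hS.elim (mt P hT.sp k1) (mt Q hT.sq k2)
    have dP := hS.resolve_right fun d => disjoint_left.1 d hw h4
    obtain ⟨i1, i2, -, i3, -, -⟩ := hI V H U Ω c h.toFCol l hl
    have pP : ∀ v ∈ P, v ∈ p.P := fun v hv =>
      (hT.sp hv).resolve_right fun a => disjoint_left.1 dP hv (Or.inl a)
    have cu := conn_up (C := fun l => c.C l ((u + (n + 1)) % c.t)) hl
      (fun l hl => (h.cell l hl _ (lt _)).2) (fun l hl => h.ver l hl _ (lt _))
      (h.lam _ (lt (n + 1))).2.1 (h.lam _ (lt _)).2.2.1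
    have uc : c.up l ((u + (n + 1)) % c.t) ⊆ c.col ((u + (n + 1)) % c.t) :=
      union_subset_union_right _ fun v ⟨l', _, a⟩ => ⟨l', Nat.zero_le _, a⟩
    have cq : Conn H (Q ∪ (c.In H U l ∪ c.up l ((u + (n + 1)) % c.t))) :=
      pl.conn_union hT.cq (conn_union_touch i1 cu ((i3 _ (lt (n + 1))).2.mono subset_rfl
        fun v hv => Or.inr ⟨l, le_rfl, hl, hv⟩)) hw
        (Or.inl (h4.elim (fun a => i2 (hs a)) fun a => (g.inn l hl w a.1.1).2 a.2))
    refine mt P hT.sp (fl a b c' _ ((s.append (List.Sublist.refl _)).trans sb2) P _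
      ⟨hT.sp.trans sU, union_subset (hT.sq.trans sU) (union_subset (fun v hv => hv.1.1)
        fun v hv => (colU _ (lt _) (uc hv)).1), hT.cp, cq, disjoint_left.2 ?_⟩ h1 h2 (Or.inl h3)
      (Or.inr (Or.inr (Or.inl (oΛ _ (lt _)))))).1 dP
    rintro v hv (a | a | a)
    · exact disjoint_left.1 hT.dis hv a
    · exact disjoint_left.1 dP hv (Or.inr ⟨pP v hv, (g.inn l hl v (pP v hv).1).1 a⟩)
    · have := ((col (n + 1) hn v).1 (uc a)).2.2
      have := ((mem v).1 (pP v hv)).2.2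
      omega

end pan

theorem panS : NfS → InS → PanS := fun _ hI _ _ _ _ =>
  ⟨fun _ _ _ _ _ _ h g hu hn hs hf => pan.panCol hI h g hu hn hs hf, fun p h =>
    ⟨⟨pan.panRev h, pan.lin_rev p⟩, fun u m hm => ⟨pan.panSub h hm, pan.lin_subp p u m⟩⟩⟩

end Pool.Agent.MP_9d78a0_co.st

end MrgPart0

-- ======== part 1: formerly Pool.Agent.MP_9d78a0_co.st.Out
section MrgPart1

/-! The outer window of a strip is flat. -/

set_option autoImplicit false

namespace Pool.Agent.MP_9d78a0_co.st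

open Set Function fb

namespace out

variable {V : Type} {H : SimpleGraph V} {U I D Z S : Set V} {F : FD V} {pos : V → ℕ} {p : PD V}

theorem lin_eq (h : 0 < p.n) : p.lin 0 p.n = p.o 0 :: p.opn ++ [p.o p.n] := by
  obtain ⟨k, hk⟩ : ∃ k, p.n = k + 1 := ⟨p.n - 1, by omega⟩
  obtain ⟨Y, e⟩ : ∃ Y, p.lin 0 p.n = p.o 0 :: (Y ++ [p.o p.n]) := by
    rw [hk, pan.lin_succ', PD.lin, ← List.append_assoc, show 0 + 1 + k = k + 1 by omega]
    exact ⟨_, rfl⟩
  rw [PD.opn, e]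
  simp

theorem o_col (h : Pan H U I p) {e : ℕ} (he : e ≤ p.n) : p.o e ∈ p.col e :=
  Or.inl (h.lam e he).2.2.1

theorem col_conn (h : Pan H U I p) {e : ℕ} (he : e ≤ p.n) : Conn H (p.col e) :=
  pan.conn_up (C := fun l => p.C l e) (Nat.zero_le _) (fun l hl => (h.cell l hl e he).1)
    (fun l hl => h.ver l hl e he) (h.lam e he).1 (h.lam e he).2.1

theorem mem_opn (h : Pan H U I p) (h0 : 0 < p.n) {v : V} (hv : v ∈ p.opn) :
    v ∈ p.P ∧ 0 < p.κ v ∧ p.κ v < 2 * p.n ∧ p.lev v = p.s := by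
  have nd := h.nd
  have m : v ∈ p.lin 0 p.n := by simp [lin_eq h0, hv]
  rw [lin_eq h0] at nd
  have n0 : v ≠ p.o 0 := by
    rintro rfl
    exact (List.nodup_cons.1 nd).1 (List.mem_append_left _ hv)
  have n1 : v ≠ p.o p.n := (List.nodup_append.1 (List.nodup_cons.1 nd).2).2.2 v hv _ (by simp)
  rcases pan.mem_lin.1 m with ⟨e, he, k⟩ | ⟨e, he, k⟩
  · rw [Nat.zero_add] at k
    obtain ⟨k1, k2⟩ := (h.col e he _).1 (k ▸ o_col h he)
    have : e ≠ 0 := fun q => n0 (q ▸ k)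
    have : e ≠ p.n := fun q => n1 (q ▸ k)
    exact ⟨k1, by omega, by omega, (h.lam e he).2.2.2.2 v (k ▸ (h.lam e he).2.2.1)⟩
  · rw [Nat.zero_add] at k
    obtain ⟨k1, k2, k3⟩ := h.seg e he v k
    exact ⟨k1, by omega, by omega, k2⟩

theorem walk {f : ℕ → V} {l j : ℕ} {P ok : Set V} (adj : ∀ i < l, H.Adj (f i) (f (i + 1)))
    (N : ∀ v ∈ P, v ∈ ok → ∀ y, H.Adj v y → y ∈ P) (inn : ∀ i, 0 < i → i < l → f i ∈ ok)
    (hj : j ≤ l) (h1 : f j ∈ P) (h2 : f j ∈ ok) : ∀ i ≤ l, f i ∈ P := by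
  intro i hi
  rcases le_total j i with k | k
  · induction i, k using Nat.le_induction with
    | base => exact h1
    | succ i k ih =>
      refine N _ (ih (by omega)) ?_ _ (adj i hi)
      rcases k.eq_or_lt with rfl | k
      exacts [h2, inn i (by omega) hi]
  · clear hi
    induction k using Nat.decreasingInduction with
    | self => exact h1
    | of_succ i k ih =>
      refine N _ ih ?_ _ (adj i (by omega)).symm
      rcases (Nat.succ_le_of_lt k).eq_or_lt with e | e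
      exacts [(show i + 1 = j from e) ▸ h2, inn _ (by omega) (by omega)]

/-- the ends of two paths are prolonged inside the ports -/
theorem lift {W a b c d Ta Tb Tc Td X : Set V} {f g : ℕ → V} {l m : ℕ}
    (pw : [a, b, c, d].Pairwise Disjoint) (hf : ∀ i < l, H.Adj (f i) (f (i + 1)))
    (hg : ∀ i < m, H.Adj (g i) (g (i + 1))) (fa : f 0 ∈ Ta) (fc : f l ∈ Tc) (gb : g 0 ∈ Tb)
    (gd : g m ∈ Td) (ne : ∀ i ≤ l, ∀ j ≤ m, f i ≠ g j) (fi : ∀ i, 0 < i → i < l → f i ∉ X)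
    (gi : ∀ i, 0 < i → i < m → g i ∉ X) (sX : a ∪ b ∪ c ∪ d ⊆ X) (ha : Ta ⊆ a) (hb : Tb ⊆ b)
    (hc : Tc ⊆ c) (hd : Td ⊆ d) (ca : Conn H Ta) (cb : Conn H Tb) (cc : Conn H Tc)
    (cd : Conn H Td) (s1 : Ta ∪ f '' Icc 0 l ∪ Tc ⊆ W) (s2 : Tb ∪ g '' Icc 0 m ∪ Td ⊆ W) :
    Two H W (Ta ∪ f '' Icc 0 l ∪ Tc) (Tb ∪ g '' Icc 0 m ∪ Td) := by
  simp only [List.pairwise_cons, List.mem_cons, List.not_mem_nil, or_false, forall_eq_or_imp,
    forall_eq, disjoint_left] at pw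
  obtain ⟨⟨ab, -, ad⟩, ⟨bc, -⟩, cd', -⟩ := pw
  have k1 : ∀ v ∈ Ta ∪ f '' Icc 0 l ∪ Tc, v ∈ a ∨ v ∈ c ∨ (v ∉ X ∧ ∃ i ≤ l, f i = v) := by
    rintro v ((k | ⟨i, hi, rfl⟩) | k)
    · exact Or.inl (ha k)
    · rcases hi.1.eq_or_lt with rfl | h1
      · exact Or.inl (ha fa)
      rcases hi.2.eq_or_lt with rfl | h2
      · exact Or.inr (Or.inl (hc fc))
      exact Or.inr (Or.inr ⟨fi i h1 h2, i, hi.2, rfl⟩)
    · exact Or.inr (Or.inl (hc k))
  have k2 : ∀ v ∈ Tb ∪ g '' Icc 0 m ∪ Td, v ∈ b ∨ v ∈ d ∨ (v ∉ X ∧ ∃ i ≤ m, g i = v) := by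
    rintro v ((k | ⟨i, hi, rfl⟩) | k)
    · exact Or.inl (hb k)
    · rcases hi.1.eq_or_lt with rfl | h1
      · exact Or.inl (hb gb)
      rcases hi.2.eq_or_lt with rfl | h2
      · exact Or.inr (Or.inl (hd gd))
      exact Or.inr (Or.inr ⟨gi i h1 h2, i, hi.2, rfl⟩)
    · exact Or.inr (Or.inl (hd k))
  refine ⟨s1, s2, pl.conn_union (pl.conn_union ca (conn_seg (Nat.zero_le _) fun i _ => hf i) fa
      ⟨0, ⟨le_rfl, Nat.zero_le _⟩, rfl⟩) cc (Or.inr ⟨l, ⟨Nat.zero_le _, le_rfl⟩, rfl⟩) fc,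
    pl.conn_union (pl.conn_union cb (conn_seg (Nat.zero_le _) fun i _ => hg i) gb
      ⟨0, ⟨le_rfl, Nat.zero_le _⟩, rfl⟩) cd (Or.inr ⟨m, ⟨Nat.zero_le _, le_rfl⟩, rfl⟩) gd,
    disjoint_left.2 fun v h1 h2 => ?_⟩
  rcases k1 v h1 with q | q | ⟨q, i, hi, e⟩ <;> rcases k2 v h2 with q' | q' | ⟨q', j, hj, e'⟩
  exacts [ab q q', ad q q', q' (sX (Or.inl (Or.inl (Or.inl q)))), bc q' q, cd' q q',
    q' (sX (Or.inl (Or.inr q))), q (sX (Or.inl (Or.inl (Or.inr q')))), q (sX (Or.inr q')),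
    ne i hi j hj (e.trans e'.symm)]

theorem row_pos (h : Str H U I D F Z pos) {e : ℕ} (he : e ≤ F.A.n) {v : V} (hv : v ∈ F.row e) :
    pos v = 2 * e ∧ (v ∈ F.A.P → v ∈ F.A.col e) := by
  rcases hv with (k | k) | k
  · have := (h.bas.a.col e he v).1 k
    exact ⟨(h.kap.1 v this.1).trans this.2, fun _ => k⟩
  · exact ⟨((h.rng v (h.z.2 e he k)).2 e he).2 k,
      fun q => ((h.bas.a.sub q).2 ((h.bas.j e he).1 k)).elim⟩
  · have := (h.bas.b.col e (h.bas.n ▸ he) v).1 k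
    exact ⟨(h.kap.2 v this.1).trans this.2,
      fun q => (disjoint_left.1 h.bas.dis.1 q this.1).elim⟩

end out

open out in
theorem outS : NfS → OutS := by
  intro nf V _ H U I D F Z pos S h h2 sS cS jS lS px
  have hA := h.bas.a
  have hB := h.bas.b
  have h0 : 0 < F.A.n := by omega
  have s3 := h.bas.s.1
  have r0 : ∀ v ∈ F.row 0, _ := fun v hv => row_pos h (Nat.zero_le _) (v := v) hv
  have rn : ∀ v ∈ F.row F.A.n, _ := fun v hv => row_pos h le_rfl (v := v) hv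
  have s0 : ∀ v ∈ S, v ∉ F.row 0 := fun v hv q => (sS hv).2 (Or.inl (Or.inr q))
  have sn : ∀ v ∈ S, v ∉ F.row F.A.n := fun v hv q => (sS hv).2 (Or.inr q)
  have cA : ∀ v ∈ F.A.P, v ∉ F.row 0 → v ∉ F.row F.A.n → 0 < F.A.κ v ∧ F.A.κ v < 2 * F.A.n :=
    fun v hv q q' => ⟨Nat.pos_of_ne_zero fun e =>
      q (Or.inl (Or.inl ((hA.col 0 (Nat.zero_le _) v).2 ⟨hv, e⟩))), (hA.rng v hv).2.lt_of_ne
        fun e => q' (Or.inl (Or.inl ((hA.col _ le_rfl v).2 ⟨hv, e⟩)))⟩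
  have ring : ∀ l ≤ F.A.s, ∀ v ∈ F.A.ring l, v ∈ F.A.P ∧ F.A.lev v = l := by
    rintro l hl v ⟨e, he, k⟩
    exact ⟨((hA.col e he v).1 (pan.cell_col hl k)).1, ((hA.cell l hl e he).2 v k).1⟩
  have clo : ∀ T e, 0 < e → e < F.A.n → T ⊆ F.row e → T ⊆ F.dom Z \ F.A.ring 1 → Conn H T →
      Touch H (F.J e) T → T ⊆ S := by
    rintro T e e0 en t1 t2 t3 ⟨x, hx, y, hy, a⟩ v hv
    have t4 : T ⊆ F.dom Z \ (F.A.ring 1 ∪ F.row 0 ∪ F.row F.A.n) := by
      intro z hz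
      have := (row_pos h en.le (t1 hz)).1
      refine ⟨(t2 hz).1, ?_⟩
      rintro ((q | q) | q)
      · exact (t2 hz).2 q
      · have := (r0 z q).1
        omega
      · have := (rn z q).1
        omega
    have k := t3.2 y hy v hv
    clear hv
    induction k with
    | refl => exact cS x (jS e e0 en hx) y (t4 hy) a
    | tail _ q ih => exact cS _ ih _ (t4 q.2.1) q.2.2
  have N : ∀ v ∈ F.A.P, v ∈ (F.row 0 ∪ F.row F.A.n ∪ S)ᶜ → ∀ y, H.Adj v y → y ∈ F.A.P := by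
    intro v hv q y a
    obtain ⟨k1, k2⟩ := cA v hv (fun e => q (Or.inl (Or.inl e))) fun e => q (Or.inl (Or.inr e))
    refine (hA.clo v hv k1 k2 y a).resolve_right ?_
    rintro ⟨-, e, he, k⟩
    have k3 := ((hA.col e he v).1 (pan.cell_col (Nat.zero_le _) k)).2
    refine q (Or.inr (clo _ e (by omega) (by omega)
      (fun z hz => Or.inl (Or.inl (pan.cell_col (Nat.zero_le _) hz))) (fun z hz => ?_)
      (hA.cell 0 (Nat.zero_le _) e he).1 (h.bas.j e he).2.2.1 k))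
    have := ring 0 (Nat.zero_le _) z ⟨e, he, hz⟩
    refine ⟨Or.inl (Or.inr this.1), fun q => ?_⟩
    have := ring 1 (by omega) z q
    omega
  have odd : ∀ y ∈ F.dom Z, y ∉ F.A.P → y ∈ (F.row 0 ∪ F.row F.A.n ∪ S)ᶜ → pos y % 2 = 1 := by
    intro y hy n q
    by_contra o
    have key : ∀ e ≤ F.A.n, y ∈ F.row e → (0 < e → e < F.A.n → y ∈ S) → False := by
      intro e he k k'
      rcases (Nat.zero_le e).eq_or_lt with rfl | e0
      · exact q (Or.inl (Or.inl k))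
      rcases he.eq_or_lt with rfl | en
      · exact q (Or.inl (Or.inr k))
      exact q (Or.inr (k' e0 en))
    rcases hy with (k | k) | k
    · obtain ⟨k1, k2⟩ := h.rng y k
      have := (k2 (pos y / 2) (by omega)).1 (by omega)
      exact key _ (by omega) (Or.inl (Or.inr this)) fun e0 en => jS _ e0 en this
    · exact n k
    · have k1 := (hB.rng y k).2
      have k2 := h.kap.2 y k
      have k3 := h.bas.n
      have := (hB.col (pos y / 2) (by omega) y).2 ⟨k, by omega⟩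
      refine key (pos y / 2) (by omega) (Or.inr this) fun e0 en => clo _ _ e0 en
        subset_union_right (fun z hz => ?_) (col_conn hB (by omega))
        ((h.bas.j _ en.le).2.2.2.mono subset_rfl (pan.cell_col (Nat.zero_le _))) this
      have z1 := ((hB.col _ (by omega) z).1 hz).1
      exact ⟨Or.inr z1, fun q => disjoint_left.1 h.bas.dis.1 (ring 1 (by omega) z q).1 z1⟩
  have down : ∀ v ∈ S ∩ F.A.P, ∃ x ∈ cp H (S ∩ F.A.P) v, ∃ y ∈ S, y ∈ I ∧ H.Adj x y := by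
    intro v hv
    obtain ⟨-, z, z1, -, z3⟩ := lS v hv
    obtain ⟨x, y, q1, q2, q3, q4, q5, q6⟩ := link_exit z3.symm hv.2 fun q => (hA.sub q).2 z1
    obtain ⟨k1, k2⟩ := cA x q3 (s0 x q1) (sn x q1)
    exact ⟨x, ⟨⟨q1, q3⟩, q6⟩, y, q2, ((hA.clo x q3 k1 k2 y q5).resolve_left q4).1, q5⟩
  have lets : ∀ v ∈ F.A.opn, v ∈ F.A.P ∧ v ∈ (F.row 0 ∪ F.row F.A.n ∪ S)ᶜ := by
    intro v hv
    obtain ⟨k1, k2, k3, k4⟩ := mem_opn hA h0 hv
    have k5 := h.kap.1 v k1
    refine ⟨k1, ?_⟩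
    rintro ((q | q) | q)
    · have := (r0 v q).1
      omega
    · have := (rn v q).1
      omega
    · obtain ⟨x, hx, y, -, y1, a⟩ := down v ⟨q, k1⟩
      have k6 : 0 < F.A.lev x := by
        have k := hx.2
        clear hx a
        induction k with
        | refl => omega
        | @tail u w _ e ih =>
          by_contra c
          obtain ⟨-, e1, e2⟩ := hA.stp w e.2.1.2 u e.1.2 e.2.2.symm
          have e3 : F.A.lev u = 1 := by omega
          exact (sS e.1.1).2 (Or.inl (Or.inl (e3 ▸ e2 (by omega))))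
      have := ring 0 (Nat.zero_le _) x (hA.foot x hx.1.2 y y1 a)
      omega
  have pw : (F.row 0 :: sg F.A.opn ++ [F.row F.A.n, S]).Pairwise Disjoint := by
    have nd := hA.nd
    rw [lin_eq h0] at nd
    rw [List.cons_append, List.pairwise_cons, List.pairwise_append]
    refine ⟨fun s hs => ?_, ?_, ?_, fun s hs t ht => ?_⟩
    · simp only [sg, List.mem_append, List.mem_map, List.mem_cons, List.not_mem_nil,
        or_false] at hs
      rcases hs with ⟨x, hx, rfl⟩ | rfl | rfl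
      · exact disjoint_singleton_right.2 fun q => (lets x hx).2 (Or.inl (Or.inl q))
      · refine disjoint_left.2 fun v q q' => ?_
        have := (r0 v q).1
        have := (rn v q').1
        omega
      · exact disjoint_right.2 s0
    · exact List.pairwise_map.2 ((List.nodup_append.1 (List.nodup_cons.1 nd).2).1.imp
        fun e => disjoint_singleton.2 e)
    · simpa using disjoint_right.2 sn
    · obtain ⟨x, hx, rfl⟩ := List.mem_map.1 hs
      simp only [List.mem_cons, List.not_mem_nil, or_false] at ht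
      rcases ht with rfl | rfl
      · exact disjoint_singleton_left.2 fun q => (lets x hx).2 (Or.inl (Or.inr q))
      · exact disjoint_singleton_left.2 fun q => (lets x hx).2 (Or.inr q)
  obtain ⟨a, b, c, d, sl, f, g, l, m, pf, pg, l0, m0, fa, fc, gb, gd, ne, fi, gi⟩ :=
    (nf V H (F.dom Z)).1 _ pw px
  have pw4 := pw.sublist sl
  have sX : a ∪ b ∪ c ∪ d ⊆ un (F.row 0 :: sg F.A.opn ++ [F.row F.A.n, S]) := by
    rintro v (((q | q) | q) | q) <;> exact ⟨_, sl.subset (by simp), q⟩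
  have ok : ∀ v, v ∉ un (F.row 0 :: sg F.A.opn ++ [F.row F.A.n, S]) →
      v ∈ (F.row 0 ∪ F.row F.A.n ∪ S)ᶜ := by
    rintro v n ((q | q) | q) <;> exact n ⟨_, by simp, q⟩
  let φ : ℕ × V → Set V := fun k =>
    if k.1 = 0 then F.row 0 else if k.1 = 1 then {k.2} else if k.1 = 2 then F.row F.A.n else S
  let ψ : ℕ × V → Set V := fun k =>
    if k.1 = 0 then {F.A.o 0} else if k.1 = 1 then {k.2} else if k.1 = 2 then {F.A.o F.A.n}
    else I ∪ {v | v ∈ F.A.P ∧ F.A.lev v < 0}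
  let KL : List (ℕ × V) := (0, f 0) :: F.A.opn.map (fun x => (1, x)) ++ [(2, f 0), (3, f 0)]
  have e1 : F.row 0 :: sg F.A.opn ++ [F.row F.A.n, S] = KL.map φ := by
    simp [KL, φ, sg, comp_def]
  have e2 : sg (F.A.lin 0 F.A.n) ++ [I ∪ {v | v ∈ F.A.P ∧ F.A.lev v < 0}] = KL.map ψ := by
    simp [KL, ψ, sg, comp_def, lin_eq h0]
  have rk : KL.Pairwise fun k k' => k.1 < k'.1 ∨ (k.1 = 1 ∧ k'.1 = 1) := by
    simp only [KL, List.cons_append, List.pairwise_cons, List.pairwise_append, List.pairwise_map]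
    refine ⟨fun k hk => ?_, List.pairwise_of_forall fun _ _ => by simp, by simp, fun k hk k' hk' => ?_⟩
    · simp only [List.mem_append, List.mem_map, List.mem_cons, List.not_mem_nil, or_false] at hk
      rcases hk with ⟨x, -, rfl⟩ | rfl | rfl <;> simp
    · obtain ⟨x, -, rfl⟩ := List.mem_map.1 hk
      simp only [List.mem_cons, List.not_mem_nil, or_false] at hk'
      rcases hk' with rfl | rfl <;> simp
  have mk : ∀ k ∈ KL, (k.1 = 0 ∧ φ k = F.row 0 ∧ ψ k = {F.A.o 0}) ∨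
      (k.1 = 1 ∧ k.2 ∈ F.A.opn ∧ φ k = {k.2} ∧ ψ k = {k.2}) ∨
      (k.1 = 2 ∧ φ k = F.row F.A.n ∧ ψ k = {F.A.o F.A.n}) ∨ (k.1 = 3 ∧ φ k = S ∧ I ⊆ ψ k) := by
    intro k hk
    simp only [KL, List.cons_append, List.mem_append, List.mem_map, List.mem_cons,
      List.not_mem_nil, or_false] at hk
    rcases hk with rfl | ⟨x, hx, rfl⟩ | rfl | rfl
    exacts [Or.inl ⟨rfl, rfl, rfl⟩, Or.inr (Or.inl ⟨rfl, hx, rfl, rfl⟩),
      Or.inr (Or.inr (Or.inl ⟨rfl, rfl, rfl⟩)),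
      Or.inr (Or.inr (Or.inr ⟨rfl, rfl, subset_union_left⟩))]
  have one : ∀ k ∈ KL, k.1 = 1 → ∀ v ∈ φ k, v ∈ F.A.P ∧ v ∈ (F.row 0 ∪ F.row F.A.n ∪ S)ᶜ := by
    intro k hk e v hv
    rcases mk k hk with ⟨q, -⟩ | ⟨-, q, q', -⟩ | ⟨q, -⟩ | ⟨q, -⟩
    any_goals omega
    rw [q'] at hv
    exact hv ▸ lets _ q
  have ext : ∀ k ∈ KL, ∀ v ∈ φ k, v ∈ F.A.P → ∃ T, Conn H T ∧ v ∈ T ∧ T ⊆ φ k ∧
      T ⊆ F.A.P ∪ I ∧ (T ∩ ψ k).Nonempty ∧ (k.1 < 3 → T ⊆ F.A.P) := by
    intro k hk v hv hP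
    have col : ∀ e ≤ F.A.n, φ k = F.row e → ψ k = {F.A.o e} → ∃ T, Conn H T ∧ v ∈ T ∧ T ⊆ φ k ∧
        T ⊆ F.A.P ∪ I ∧ (T ∩ ψ k).Nonempty ∧ (k.1 < 3 → T ⊆ F.A.P) := by
      intro e he q q'
      have s : F.A.col e ⊆ F.A.P := fun z hz => ((hA.col e he z).1 hz).1
      rw [q] at hv
      rw [q, q']
      exact ⟨_, col_conn hA he, (row_pos h he hv).2 hP, fun z hz => Or.inl (Or.inl hz),
        s.trans subset_union_left, ⟨_, o_col hA he, rfl⟩, fun _ => s⟩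
    rcases mk k hk with ⟨-, q, q'⟩ | ⟨-, -, q, q'⟩ | ⟨-, q, q'⟩ | ⟨q0, q, q'⟩
    · exact col 0 (Nat.zero_le _) q q'
    · have s : {v} ⊆ F.A.P := singleton_subset_iff.2 hP
      exact ⟨{v}, conn_singleton _ _, rfl, singleton_subset_iff.2 hv, s.trans subset_union_left,
        ⟨v, rfl, q'.trans q.symm ▸ hv⟩, fun _ => s⟩
    · exact col _ le_rfl q q'
    · rw [q] at hv
      obtain ⟨x, hx, y, y1, y2, e⟩ := down v ⟨hv, hP⟩
      refine ⟨cp H (S ∩ F.A.P) v ∪ {y}, conn_union_touch (cp_conn ⟨hv, hP⟩) (conn_singleton _ _)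
        ⟨x, hx, y, rfl, e⟩, Or.inl (cp_self ⟨hv, hP⟩), ?_, ?_, ⟨y, Or.inr rfl, q' y2⟩,
        fun _ => by omega⟩
      · rw [q]
        exact union_subset (fun z hz => hz.1.1) (singleton_subset_iff.2 y1)
      · exact union_subset_union (fun z hz => hz.1.2) (singleton_subset_iff.2 y2)
  rw [e1] at sl
  obtain ⟨K, sK, eK⟩ := List.sublist_map_iff.1 sl
  obtain ⟨ka, kb, kc, kd, rfl⟩ : ∃ ka kb kc kd, K = [ka, kb, kc, kd] := by
    have := congrArg List.length eK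
    match K, this with
    | [ka, kb, kc, kd], _ => exact ⟨_, _, _, _, rfl⟩
  simp only [List.map_cons, List.map_nil, List.cons.injEq, and_true] at eK
  obtain ⟨rfl, rfl, rfl, rfl⟩ := eK
  have ma : ka ∈ KL := sK.subset (by simp)
  have mb : kb ∈ KL := sK.subset (by simp)
  have mc : kc ∈ KL := sK.subset (by simp)
  have md : kd ∈ KL := sK.subset (by simp)
  have rk4 := rk.sublist sK
  simp only [List.pairwise_cons, List.mem_cons, List.not_mem_nil, or_false, forall_eq_or_imp,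
    forall_eq] at rk4
  have d3 : kd.1 ≤ 3 := by rcases mk kd md with q | q | q | q <;> omega
  have gP : ∀ i ≤ m, g i ∈ F.A.P := walk pg.2.1 N (fun i i0 il => ok _ (gi i i0 il))
    (Nat.zero_le _) (one kb mb (by omega) _ gb).1 (one kb mb (by omega) _ gb).2
  have fP : ∀ i ≤ l, f i ∈ F.A.P := by
    have w := fun j => walk (j := j) pf.2.1 N fun i i0 il => ok _ (fi i i0 il)
    by_cases a1 : ka.1 = 1
    · exact w 0 (Nat.zero_le _) (one ka ma a1 _ fa).1 (one ka ma a1 _ fa).2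
    by_cases c1 : kc.1 = 1
    · exact w l le_rfl (one kc mc c1 _ fc).1 (one kc mc c1 _ fc).2
    by_cases z : ∃ j, 0 < j ∧ j < l ∧ f j ∈ F.A.P
    · obtain ⟨j, j0, jl, q⟩ := z
      exact w j jl.le q (ok _ (fi j j0 jl))
    push Not at z
    have p0 : pos (f 0) = 0 := by
      rcases mk ka ma with ⟨-, q, -⟩ | q | q | q
      · exact (r0 _ (q ▸ fa)).1
      all_goals omega
    have pn : pos (f l) = 2 * F.A.n := by
      rcases mk kc mc with q | q | ⟨-, q, -⟩ | q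
      any_goals omega
      exact (rn _ (q ▸ fc)).1
    have st : ∀ i < l, LSt (pos (f i)) (pos (f (i + 1))) := fun i hi =>
      h.stp _ (pf.1 i hi.le) _ (pf.1 _ hi) (pf.2.1 i hi)
    have p1 : ∀ i < l, pos (f i) ≤ 1 := by
      intro i hi
      induction i with
      | zero => omega
      | succ i ih =>
        have := st i (by omega)
        have := ih (by omega)
        have := odd _ (pf.1 _ hi.le) (z _ (by omega) hi) (ok _ (fi _ (by omega) hi))
        unfold LSt at *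
        omega
    have := st (l - 1) (by omega)
    have := p1 (l - 1) (by omega)
    rw [show l - 1 + 1 = l by omega] at *
    unfold LSt at *
    omega
  obtain ⟨Ta, a1, a2, a3, a4, ⟨xa, a5, a5'⟩, a6⟩ := ext ka ma _ fa (fP 0 (Nat.zero_le _))
  obtain ⟨Tb, b1, b2, b3, b4, ⟨xb, b5, b5'⟩, -⟩ := ext kb mb _ gb (gP 0 (Nat.zero_le _))
  obtain ⟨Tc, c1, c2, c3, c4, ⟨xc, c5, c5'⟩, c6⟩ := ext kc mc _ fc (fP l le_rfl)
  obtain ⟨Td, d1, d2, d3', d4, ⟨xd, d5, d5'⟩, -⟩ := ext kd md _ gd (gP m le_rfl)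
  have sP : Ta ∪ f '' Icc 0 l ∪ Tc ⊆ F.A.P := union_subset (union_subset (a6 (by omega))
    (image_subset_iff.2 fun i hi => fP i hi.2)) (c6 (by omega))
  have T := lift (W := F.A.P ∪ I) pw4 pf.2.1 pg.2.1 a2 c2 b2 d2 ne fi gi sX a3 b3 c3 d3' a1 b1 c1 d1
    (sP.trans subset_union_left) (union_subset (union_subset b4
      (image_subset_iff.2 fun i hi => Or.inl (gP i hi.2))) d4)
  refine hA.flat 0 (Nat.zero_le _) ⟨ψ ka, ψ kb, ψ kc, ψ kd, e2 ▸ sK.map ψ, _, _, T,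
    ⟨xa, Or.inl (Or.inl a5), a5'⟩, ⟨xc, Or.inr c5, c5'⟩, ⟨xb, Or.inl (Or.inl b5), b5'⟩,
    ⟨xd, Or.inr d5, d5'⟩, fun s hs => ?_⟩
  rcases List.mem_append.1 hs with q | q
  · obtain ⟨x, -, rfl⟩ := List.mem_map.1 q
    rw [disjoint_singleton_right, disjoint_singleton_right]
    exact not_and_or.1 fun q => disjoint_left.1 T.dis q.1 q.2
  · obtain rfl := List.mem_singleton.1 q
    exact Or.inl (disjoint_left.2 fun v hv q => q.elim (hA.sub (sP hv)).2 fun q => by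
      have := q.2
      omega)

end Pool.Agent.MP_9d78a0_co.st

end MrgPart1

-- marker of a merged file
example : 731051 + 226345 = 731051 + 226345 := rfl
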