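import Pool.Agent.MP_9d78a0_co.st.Dbl
import Pool.Agent.MP_9d78a0_co.st.Out

-- ======== part 0: formerly Pool.Agent.MP_9d78a0_co.st.Eqv
section MrgPart0

/-! The calculus of panels. -/

set_option autoImplicit false

namespace Pool.Agent.MP_9d78a0_co.st

open Set Function fb

namespace eqv

variable {V : Type} {p q r : PD V}

theorem refl (p : PD V) : p.Eqv p :=
  ⟨rfl, rfl, rfl, fun _ _ => ⟨rfl, rfl⟩, fun _ _ => ⟨fun _ => rfl, rfl, rfl⟩, fun _ _ => rfl⟩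

theorem symm (h : p.Eqv q) : q.Eqv p := by
  obtain ⟨h1, h2, h3, h4, h5, h6⟩ := h
  refine ⟨h1.symm, h2.symm, h3.symm, fun v hv => ?_, fun e he => ?_,
    fun e he => (h6 e (h1 ▸ he)).symm⟩
  · exact ⟨(h4 v (h3 ▸ hv)).1.symm, (h4 v (h3 ▸ hv)).2.symm⟩
  · obtain ⟨a, b, c⟩ := h5 e (h1 ▸ he)
    exact ⟨fun l => (a l).symm, b.symm, c.symm⟩

theorem trans (h : p.Eqv q) (k : q.Eqv r) : p.Eqv r := by
  obtain ⟨h1, h2, h3, h4, h5, h6⟩ := h
  obtain ⟨k1, k2, k3, k4, k5, k6⟩ := k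
  refine ⟨h1.trans k1, h2.trans k2, h3.trans k3, fun v hv => ?_, fun e he => ?_,
    fun e he => (h6 e he).trans (k6 e (h1 ▸ he))⟩
  · exact ⟨(h4 v hv).1.trans (k4 v (h3 ▸ hv)).1, (h4 v hv).2.trans (k4 v (h3 ▸ hv)).2⟩
  · obtain ⟨a, b, c⟩ := h5 e he
    obtain ⟨a', b', c'⟩ := k5 e (h1 ▸ he)
    exact ⟨fun l => (a l).trans (a' l), b.trans b', c.trans c'⟩

theorem rev (h : p.Eqv q) : p.rev.Eqv q.rev := by
  obtain ⟨h1, h2, h3, h4, h5, h6⟩ := h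
  refine ⟨h1, h2, h3, fun v hv => ⟨?_, (h4 v hv).2⟩, fun e _ => ?_, fun e he => ?_⟩
  · show 2 * p.n - p.κ v = 2 * q.n - q.κ v
    rw [h1, (h4 v hv).1]
  · show (∀ l, p.C l (p.n - e) = q.C l (q.n - e)) ∧ p.Λ (p.n - e) = q.Λ (q.n - e) ∧
      p.o (p.n - e) = q.o (q.n - e)
    rw [← h1]
    exact h5 _ (Nat.sub_le _ _)
  · have he' : e < p.n := he
    show (p.seg (p.n - 1 - e)).reverse = (q.seg (q.n - 1 - e)).reverse
    rw [← h1, h6 _ (by omega)]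

theorem sub (h : p.Eqv q) {u m : ℕ} (hm : u + m ≤ p.n) : (p.sub u m).Eqv (q.sub u m) := by
  obtain ⟨h1, h2, h3, h4, h5, h6⟩ := h
  refine ⟨rfl, h2, ?_, fun v hv => ⟨?_, (h4 v hv.1).2⟩, fun e he => ?_, fun e he => ?_⟩
  · ext v
    show v ∈ p.P ∧ 2 * u ≤ p.κ v ∧ p.κ v ≤ 2 * (u + m) ↔
      v ∈ q.P ∧ 2 * u ≤ q.κ v ∧ q.κ v ≤ 2 * (u + m)
    rw [← h3]
    exact and_congr_right fun hv => by rw [(h4 v hv).1]
  · show p.κ v - 2 * u = q.κ v - 2 * u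
    rw [(h4 v hv.1).1]
  · have he' : e ≤ m := he
    exact h5 (u + e) (by omega)
  · have he' : e < m := he
    exact h6 (u + e) (by omega)

theorem lin (h : p.Eqv q) (u m : ℕ) (hm : u + m ≤ p.n) : p.lin u m = q.lin u m := by
  induction m with
  | zero => simp [PD.lin, (h.2.2.2.2.1 u (by omega)).2.2]
  | succ m ih =>
    rw [pan.lin_succ, pan.lin_succ, ih (by omega), h.2.2.2.2.2 _ (by omega),
      (h.2.2.2.2.1 _ hm).2.2]

theorem up (h : p.Eqv q) {e : ℕ} (he : e ≤ p.n) (l : ℕ) : p.up l e = q.up l e := by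
  obtain ⟨a, b, -⟩ := h.2.2.2.2.1 e he
  simp only [PD.up, a, b, h.2.1]

theorem cols (h : p.Eqv q) : p.cols = q.cols := by
  ext v
  show (∃ e ≤ p.n, v ∈ p.up 0 e) ↔ ∃ e ≤ q.n, v ∈ q.up 0 e
  rw [← h.1]
  exact exists_congr fun e => and_congr_right fun he => by rw [up h he]

theorem ring (h : p.Eqv q) (l : ℕ) : p.ring l = q.ring l := by
  ext v
  show (∃ e ≤ p.n, v ∈ p.C l e) ↔ ∃ e ≤ q.n, v ∈ q.C l e
  rw [← h.1]
  exact exists_congr fun e => and_congr_right fun he => by rw [(h.2.2.2.2.1 e he).1]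

theorem rev_rev (hk : ∀ v ∈ p.P, p.κ v ≤ 2 * p.n) : p.rev.rev.Eqv p := by
  refine ⟨rfl, rfl, rfl, fun v hv => ⟨?_, rfl⟩, fun e he => ?_, fun e he => ?_⟩
  · have := hk v hv
    show 2 * p.n - (2 * p.n - p.κ v) = p.κ v
    omega
  · have he' : e ≤ p.n := he
    show (∀ l, p.C l (p.n - (p.n - e)) = p.C l e) ∧ p.Λ (p.n - (p.n - e)) = p.Λ e ∧
      p.o (p.n - (p.n - e)) = p.o e
    rw [show p.n - (p.n - e) = e by omega]
    exact ⟨fun _ => rfl, rfl, rfl⟩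
  · have he' : e < p.n := he
    show (p.seg (p.n - 1 - (p.n - 1 - e))).reverse.reverse = p.seg e
    rw [show p.n - 1 - (p.n - 1 - e) = e by omega, List.reverse_reverse]

theorem sub_zero (hk : ∀ v ∈ p.P, p.κ v ≤ 2 * p.n) : (p.sub 0 p.n).Eqv p := by
  refine ⟨rfl, rfl, ?_, fun v _ => ⟨rfl, rfl⟩, fun e _ => ?_, fun e _ => ?_⟩
  · ext v
    show v ∈ p.P ∧ 2 * 0 ≤ p.κ v ∧ p.κ v ≤ 2 * (0 + p.n) ↔ v ∈ p.P
    exact ⟨fun h => h.1, fun h => ⟨h, Nat.zero_le _, by have := hk v h; omega⟩⟩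
  · simp [PD.sub]
  · simp [PD.sub]

theorem rev_sub (hk : ∀ v ∈ p.P, p.κ v ≤ 2 * p.n) {u m : ℕ} (hm : u + m ≤ p.n) :
    (p.rev.sub u m).Eqv (p.sub (p.n - (u + m)) m).rev := by
  refine ⟨rfl, rfl, ?_, fun v hv => ⟨?_, rfl⟩, fun e he => ?_, fun e he => ?_⟩
  · ext v
    show v ∈ p.P ∧ 2 * u ≤ 2 * p.n - p.κ v ∧ 2 * p.n - p.κ v ≤ 2 * (u + m) ↔
      v ∈ p.P ∧ 2 * (p.n - (u + m)) ≤ p.κ v ∧ p.κ v ≤ 2 * (p.n - (u + m) + m)
    exact and_congr_right fun hv => by have := hk v hv; omega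
  · have h0 : v ∈ p.P ∧ 2 * u ≤ 2 * p.n - p.κ v ∧ 2 * p.n - p.κ v ≤ 2 * (u + m) := hv
    have := hk v h0.1
    show 2 * p.n - p.κ v - 2 * u = 2 * m - (p.κ v - 2 * (p.n - (u + m)))
    omega
  · have he' : e ≤ m := he
    show (∀ l, p.C l (p.n - (u + e)) = p.C l (p.n - (u + m) + (m - e))) ∧
      p.Λ (p.n - (u + e)) = p.Λ (p.n - (u + m) + (m - e)) ∧
      p.o (p.n - (u + e)) = p.o (p.n - (u + m) + (m - e))
    rw [show p.n - (u + m) + (m - e) = p.n - (u + e) by omega]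
    exact ⟨fun _ => rfl, rfl, rfl⟩
  · have he' : e < m := he
    show (p.seg (p.n - 1 - (u + e))).reverse = (p.seg (p.n - (u + m) + (m - 1 - e))).reverse
    rw [show p.n - (u + m) + (m - 1 - e) = p.n - 1 - (u + e) by omega]

theorem sub_sub (p : PD V) (u m : ℕ) {u' m' : ℕ} (hm : u' + m' ≤ m) :
    ((p.sub u m).sub u' m').Eqv (p.sub (u + u') m') := by
  refine ⟨rfl, rfl, ?_, fun v _ => ⟨?_, rfl⟩, fun e _ => ?_, fun e _ => ?_⟩
  · ext v
    show (v ∈ p.P ∧ 2 * u ≤ p.κ v ∧ p.κ v ≤ 2 * (u + m)) ∧ 2 * u' ≤ p.κ v - 2 * u ∧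
      p.κ v - 2 * u ≤ 2 * (u' + m') ↔
      v ∈ p.P ∧ 2 * (u + u') ≤ p.κ v ∧ p.κ v ≤ 2 * (u + u' + m')
    rw [and_assoc]
    exact and_congr_right fun _ => by omega
  · show p.κ v - 2 * u - 2 * u' = p.κ v - 2 * (u + u')
    omega
  · simp [PD.sub, add_assoc]
  · simp [PD.sub, add_assoc]

theorem ang {t a u u' n m : ℕ} (hu : u < t) (hn : n < t) (hm : u' + m ≤ n) (ha : a < 2 * t) :
    (((a + 2 * t - 2 * u) % (2 * t) ≤ 2 * n ∧ 2 * u' ≤ (a + 2 * t - 2 * u) % (2 * t) ∧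
      (a + 2 * t - 2 * u) % (2 * t) ≤ 2 * (u' + m)) ↔
      (a + 2 * t - 2 * ((u + u') % t)) % (2 * t) ≤ 2 * m) ∧
    (2 * u' ≤ (a + 2 * t - 2 * u) % (2 * t) →
      (a + 2 * t - 2 * u) % (2 * t) - 2 * u' = (a + 2 * t - 2 * ((u + u') % t)) % (2 * t)) := by
  have h1 := pan.md (x := u + u') (m := t) (by omega)
  have h2 := pan.md (x := a + 2 * t - 2 * u) (m := 2 * t) (by omega)
  have h3 := pan.md (x := a + 2 * t - 2 * ((u + u') % t)) (m := 2 * t) (by omega)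
  generalize (a + 2 * t - 2 * ((u + u') % t)) % (2 * t) = y at *
  generalize (a + 2 * t - 2 * u) % (2 * t) = x at *
  generalize (u + u') % t = z at *
  omega

theorem pan_sub (c : CD V) (U : Set V) (lev an : V → ℕ) {u n u' m : ℕ} (hu : u < c.t)
    (hn : n < c.t) (hm : u' + m ≤ n) :
    ((c.pan U lev an u n).sub u' m).Eqv (c.pan U lev an ((u + u') % c.t) m) := by
  have e : ∀ e, (u + (u' + e)) % c.t = ((u + u') % c.t + e) % c.t := fun e => by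
    rw [Nat.mod_add_mod, add_assoc]
  refine ⟨rfl, rfl, ?_, fun v hv => ⟨?_, rfl⟩, fun x _ => ?_, fun x _ => ?_⟩
  · ext v
    show (v ∈ U \ c.I ∧ an v < 2 * c.t ∧ (an v + 2 * c.t - 2 * u) % (2 * c.t) ≤ 2 * n) ∧
      2 * u' ≤ (an v + 2 * c.t - 2 * u) % (2 * c.t) ∧
      (an v + 2 * c.t - 2 * u) % (2 * c.t) ≤ 2 * (u' + m) ↔ v ∈ U \ c.I ∧ an v < 2 * c.t ∧
      (an v + 2 * c.t - 2 * ((u + u') % c.t)) % (2 * c.t) ≤ 2 * m
    rw [and_assoc, and_assoc]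
    exact and_congr_right fun _ => and_congr_right fun ha => (ang hu hn hm ha).1
  · exact (ang hu hn hm hv.1.2.1).2 hv.2.1
  · show (∀ l, c.C l ((u + (u' + x)) % c.t) = c.C l (((u + u') % c.t + x) % c.t)) ∧
      c.Λ ((u + (u' + x)) % c.t) = c.Λ (((u + u') % c.t + x) % c.t) ∧
      c.o ((u + (u' + x)) % c.t) = c.o (((u + u') % c.t + x) % c.t)
    rw [e]
    exact ⟨fun _ => rfl, rfl, rfl⟩
  · show c.seg ((u + (u' + x)) % c.t) = c.seg (((u + u') % c.t + x) % c.t)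
    rw [e]

theorem lin_add (p : PD V) (u a b : ℕ) :
    p.lin u (a + 1 + b) = p.lin u a ++ p.seg (u + a) ++ p.lin (u + a + 1) b := by
  induction b with
  | zero => rw [add_zero, pan.lin_succ]; simp [PD.lin, add_assoc]
  | succ b ih =>
    rw [← add_assoc, pan.lin_succ, ih, pan.lin_succ]
    simp only [List.append_assoc, add_assoc]

theorem rot (c : CD V) (U : Set V) (lev an : V → ℕ) {u : ℕ} (hu : u < c.t) :
    List.IsRotated (cyc c.o c.seg c.t)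
      ((c.pan U lev an u (c.t - 1)).lin 0 (c.t - 1) ++ c.seg ((u + (c.t - 1)) % c.t)) := by
  have h := pan.cyc_rot c.o c.seg hu
  have e : List.range c.t = List.range (c.t - 1) ++ [c.t - 1] := by
    rw [← List.range_succ]; congr 1; omega
  rw [e] at h
  simpa [PD.lin, CD.pan, List.flatMap_append] using h

variable {H0 H : SimpleGraph V} {U W : Set V} {F F' : FD V} {pos : V → ℕ} {mid : List V}

theorem half (h : Half H0 H U F W pos mid) (k : F.Eqv F') : Half H0 H U F' W pos mid := by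
  obtain ⟨a, b, j⟩ := k
  have hn := h.n
  have an : F'.A.n = F.A.n := a.1.symm
  have aP : F'.A.P = F.A.P := a.2.2.1.symm
  have bP : F'.B.P = F.B.P := b.2.2.1.symm
  have aC : ∀ e ≤ F.A.n, F'.A.C 0 e = F.A.C 0 e := fun e he => ((a.2.2.2.2.1 e he).1 0).symm
  have bC : ∀ e ≤ F.A.n, F'.B.C 0 e = F.B.C 0 e := fun e he =>
    ((b.2.2.2.2.1 e (hn ▸ he)).1 0).symm
  have ro : ∀ e ≤ F.A.n, F'.row e = F.row e := fun e he => by
    simp only [FD.row, PD.col, up a he, up b (hn ▸ he), j e he]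
  have lo : ∀ e ≤ F.A.n, F'.low e = F.low e := fun e he => by
    simp only [FD.low, aC e he, bC e he, j e he]
  have al : F'.A.lin 0 F.A.n = F.A.lin 0 F.A.n := (lin a 0 _ (by omega)).symm
  have bl : F'.B.lin 0 F.A.n = F.B.lin 0 F.A.n := (lin b 0 _ (by omega)).symm
  refine ⟨h.sub, by rw [an, ← b.1, hn], an ▸ h.rng, ?_, ⟨?_, ?_⟩, ?_, an ▸ h.keep, h.clo, h.stp,
    an ▸ h.nd, ?_, ?_, ?_⟩
  · rw [an]
    intro e he
    rw [ro e he]
    exact h.row e he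
  · rw [aP]
    intro v hv
    rw [← (a.2.2.2.1 v hv).1]
    exact h.kap.1 v hv
  · rw [bP]
    intro v hv
    rw [← (b.2.2.2.1 v hv).1]
    exact h.kap.2 v hv
  · rw [an, aP, bP]
    intro e he
    rw [aC e he, bC e he, ← j e he]
    exact h.j e he
  · rw [an, aP, bP]
    intro v hv hp
    obtain ⟨e, he, u, hu, hl⟩ := h.att v hv hp
    exact ⟨e, he, u, (lo e he).symm ▸ hu, hl⟩
  · rw [an, al, bl]
    exact h.lnk
  · rw [an, al, bl, ro 0 (Nat.zero_le _)]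
    exact h.flat

theorem swap (hN : NfS) (h : Half H0 H U F W pos mid) : Half H0 H U F.swap W pos mid.reverse := by
  have an : F.swap.A.n = F.A.n := h.n
  have ro : ∀ e, F.swap.row e = F.row e := fun e => by
    show F.B.col e ∪ F.J e ∪ F.A.col e = F.A.col e ∪ F.J e ∪ F.B.col e
    ext v; simp only [mem_union]; tauto
  have lo : ∀ e, F.swap.low e = F.low e := fun e => by
    show F.B.C 0 e ∪ F.J e ∪ F.A.C 0 e = F.A.C 0 e ∪ F.J e ∪ F.B.C 0 e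
    ext v; simp only [mem_union]; tauto
  have pp : F.swap.A.P ∪ F.swap.B.P = F.A.P ∪ F.B.P := union_comm _ _
  refine ⟨h.sub, h.n.symm, an ▸ h.rng, ?_, ⟨h.kap.2, h.kap.1⟩, ?_, an ▸ h.keep, h.clo, h.stp,
    ⟨List.nodup_reverse.2 h.nd.1, fun v hv => an ▸ h.nd.2 v (List.mem_reverse.1 hv)⟩, ?_, ?_, ?_⟩
  · rw [an]
    intro e he
    rw [ro e]
    exact h.row e he
  · rw [an, pp]
    intro e he
    obtain ⟨a, b, c, d⟩ := h.j e he
    exact ⟨a, c, b, d⟩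
  · rw [an, pp]
    intro v hv hp
    obtain ⟨e, he, u, hu, hl⟩ := h.att v hv hp
    exact ⟨e, he, u, (lo e).symm ▸ hu, hl⟩
  · rw [an]
    have : ls (F.swap.A.lin 0 F.A.n ++ mid.reverse ++ F.swap.B.lin 0 F.A.n) =
        ls (F.A.lin 0 F.A.n ++ mid ++ F.B.lin 0 F.A.n) := by
      ext v
      show v ∈ F.B.lin 0 F.A.n ++ mid.reverse ++ F.A.lin 0 F.A.n ↔
        v ∈ F.A.lin 0 F.A.n ++ mid ++ F.B.lin 0 F.A.n
      simp only [List.mem_append, List.mem_reverse]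
      tauto
    rw [this]
    exact h.lnk
  · rw [an, ro]
    intro hp
    obtain ⟨-, -, hr, hv, -⟩ := hN V H W
    refine h.flat (hr _ _ ?_ (hv _ hp))
    rw [List.reverse_cons]
    refine (List.isRotated_concat _ _).trans ?_
    have : (sg ((F.swap.A.lin 0 F.A.n).tail ++ mid.reverse ++
        (F.swap.B.lin 0 F.A.n).tail.reverse)).reverse =
        sg ((F.A.lin 0 F.A.n).tail ++ mid ++ (F.B.lin 0 F.A.n).tail.reverse) := by
      show (sg ((F.B.lin 0 F.A.n).tail ++ mid.reverse ++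
        (F.A.lin 0 F.A.n).tail.reverse)).reverse = _
      simp only [sg, ← List.map_reverse, List.reverse_append, List.reverse_reverse,
        List.append_assoc]
    rw [this]

end eqv

theorem eqvS : NfS → EqvS := fun hN _ =>
  ⟨eqv.refl, fun _ _ => eqv.symm, fun _ _ _ => eqv.trans,
    fun _ _ h _ => ⟨eqv.rev h, fun u m hm => ⟨eqv.sub h hm, eqv.lin h u m hm⟩,
      fun _ he l => eqv.up h he l, eqv.cols h, eqv.ring h⟩,
    fun p hk => ⟨eqv.rev_rev hk, eqv.sub_zero hk, fun u m hm => ⟨eqv.rev_sub hk hm,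
      fun _ _ hm' => eqv.sub_sub p u m hm'⟩⟩,
    fun c U lev an _ _ _ _ hu hn hm => eqv.pan_sub c U lev an hu hn hm, eqv.lin_add,
    fun c U lev an _ hu => eqv.rot c U lev an hu,
    fun _ _ _ _ _ _ _ h => ⟨fun _ k => eqv.half h k, eqv.swap hN h⟩⟩

end Pool.Agent.MP_9d78a0_co.st

end MrgPart0

-- ======== part 1: formerly Pool.Agent.MP_9d78a0_co.st.Twoc
section MrgPart1

/-! A band between two collars leaves one child and one chord. -/

set_option autoImplicit false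

namespace Pool.Agent.MP_9d78a0_co.st

open Set Function fb

namespace twoc

variable {V : Type} {H H' : SimpleGraph V} {U U' O : Set V} {p p' Q : PD V} {w : ℕ} {Ω : List V}

/-- the letters between the columns `w` and `w + 4` -/
def gp (p : PD V) (w : ℕ) : List V := p.seg w ++ p.lin (w + 1) 2 ++ p.seg (w + 3)

/-- `Q` runs from column `w + 4` of `p` round the collar to column `w` -/
structure Rnd (H : SimpleGraph V) (U : Set V) (p Q : PD V) (w : ℕ) (O : Set V) (Ω : List V) :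
    Prop where
  n : p.n = 2 * w + 4
  qn : 2 * w + 2 ≤ Q.n
  kp : ∀ v ∈ p.P, p.κ v ≤ 2 * p.n
  pan : ∃ I, Pan H U I Q
  e0 : (p.sub 0 w).Eqv (Q.sub (Q.n - w) w)
  e1 : (p.sub (w + 4) w).Eqv (Q.sub 0 w)
  far : ∀ v ∈ Q.P, v ∈ p.P → p.κ v ≤ 2 * w ∨ 2 * (w + 4) ≤ p.κ v
  cov : ∀ v ∈ O, v ∈ Q.P ∨ (v ∈ p.P ∧ 2 * w < p.κ v ∧ p.κ v < 2 * (w + 4))
  sub : p.P ⊆ O ∧ Q.P ⊆ O
  word : List.IsRotated (Q.lin 0 Q.n ++ gp p w) Ω ∨
    List.IsRotated (Q.lin 0 Q.n ++ gp p w).reverse Ω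

theorem ksub (p : PD V) (u m : ℕ) : ∀ v ∈ (p.sub u m).P, (p.sub u m).κ v ≤ 2 * (p.sub u m).n := by
  intro v hv
  have := hv.2.2
  show p.κ v - 2 * u ≤ 2 * m
  omega

theorem Rnd.kq (h : Rnd H U p Q w O Ω) : ∀ v ∈ Q.P, Q.κ v ≤ 2 * Q.n :=
  let ⟨_, k⟩ := h.pan
  fun v hv => (k.rng v hv).2

theorem Rnd.r0 (h : Rnd H U p Q w O Ω) : (p.sub 0 w).rev.Eqv (Q.rev.sub 0 w) := by
  have k := eqv.rev_sub h.kq (u := 0) (m := w) (by have := h.qn; omega)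
  rw [zero_add] at k
  exact eqv.trans (eqv.rev h.e0) (eqv.symm k)

theorem Rnd.r1 (h : Rnd H U p Q w O Ω) : (p.sub (w + 4) w).rev.Eqv (Q.rev.sub (Q.n - w) w) := by
  have := h.qn
  have k := eqv.rev_sub h.kq (u := Q.n - w) (m := w) (by omega)
  rw [show Q.n - (Q.n - w + w) = 0 by omega] at k
  exact eqv.trans (eqv.rev h.e1) (eqv.symm k)

theorem Rnd.r0' (h : Rnd H U p Q w O Ω) : (p.sub 0 w).Eqv (Q.rev.sub 0 w).rev :=
  eqv.trans (eqv.symm (eqv.rev_rev (ksub p 0 w))) (eqv.rev h.r0)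

theorem lin_rev0 (Q : PD V) : Q.rev.lin 0 Q.rev.n = (Q.lin 0 Q.n).reverse := by
  rw [pan.lin_rev Q 0 _ (by simp [PD.rev])]
  simp [PD.rev]

theorem Rnd.rev (h : Rnd H U p Q w O Ω) : Rnd H U p.rev Q.rev w O Ω := by
  have hn := h.n
  have k0 := eqv.rev_sub h.kp (u := 0) (m := w) (by omega)
  have k1 := eqv.rev_sub h.kp (u := w + 4) (m := w) (by omega)
  rw [show p.n - (0 + w) = w + 4 by omega] at k0
  rw [show p.n - (w + 4 + w) = 0 by omega] at k1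
  have g : gp p.rev w = (gp p w).reverse := by
    unfold gp
    rw [pan.lin_rev p _ _ (by omega), show p.n - (w + 1 + 2) = w + 1 by omega]
    simp [PD.rev, show p.n - 1 - w = w + 3 by omega, show p.n - 1 - (w + 3) = w by omega]
  refine ⟨hn, h.qn, fun v _ => Nat.sub_le _ _, h.pan.imp fun _ => pan.panRev,
    eqv.trans k0 h.r1, eqv.trans k1 h.r0, fun v hv hp => ?_, fun v hv => ?_, h.sub, ?_⟩
  · have := h.far v hv hp
    have := h.kp v hp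
    show 2 * p.n - p.κ v ≤ _ ∨ _ ≤ 2 * p.n - p.κ v
    omega
  · refine (h.cov v hv).imp_right fun k => ⟨k.1, ?_⟩
    show _ < 2 * p.n - p.κ v ∧ 2 * p.n - p.κ v < _
    omega
  · rw [lin_rev0, g, ← List.reverse_append, List.reverse_reverse]
    rcases h.word with k | k
    · exact Or.inr (List.isRotated_append.trans k)
    · exact Or.inl (List.isRotated_append.reverse.trans k)

theorem Rnd.eqv (h : Rnd H U p Q w O Ω) (e : p'.Eqv p) : Rnd H U p' Q w O Ω := by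
  have hn := h.n
  have n' := e.1
  have eP := e.2.2.1
  have eκ := fun v hv => (e.2.2.2.1 v hv).1
  have g : gp p' w = gp p w := by
    unfold gp
    rw [eqv.lin e _ _ (by omega), e.2.2.2.2.2 w (by omega), e.2.2.2.2.2 (w + 3) (by omega)]
  refine ⟨by omega, h.qn, fun v hv => ?_, h.pan, eqv.trans (eqv.sub e (by omega)) h.e0,
    eqv.trans (eqv.sub e (by omega)) h.e1, fun v hv hp => ?_, fun v hv => ?_, eP ▸ h.sub,
    g ▸ h.word⟩
  · rw [eκ v hv, n']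
    exact h.kp v (eP ▸ hv)
  · rw [eκ v hp]
    exact h.far v hv (eP ▸ hp)
  · refine (h.cov v hv).imp_right fun k => ?_
    have hp : v ∈ p'.P := eP ▸ k.1
    rw [eκ v hp]
    exact ⟨hp, k.2⟩

theorem mem_out {c : CD V} {lev ang : V → ℕ} (g : Crd H U Ω c lev ang) {v : V} :
    v ∈ c.Out H U Ω ↔ v ∈ U \ c.I ∧ ang v < 2 * c.t :=
  ⟨fun h => ⟨h.1, (g.junk v h.1).2 h⟩, fun h => (g.junk v h.1).1 h.2⟩

theorem rnd_pan (hP : PanS) {c : CD V} {lev ang : V → ℕ} (h : Col H U Ω c)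
    (g : Crd H U Ω c lev ang) {f : ℕ} (hf : f + 2 * w + 6 ≤ c.t) :
    Rnd H U (c.pan U lev ang f (2 * w + 4)) (c.pan U lev ang (f + w + 4) (c.t - 4)) w
      (c.Out H U Ω) Ω := by
  have m : ∀ a b, a = b + c.t → a % c.t = b % c.t := fun a b e => by rw [e, Nat.add_mod_right]
  have ar : ∀ a < 2 * c.t, ((a + 2 * c.t - 2 * (f + w + 4)) % (2 * c.t) ≤ 2 * (c.t - 4) ↔
      (a + 2 * c.t - 2 * f) % (2 * c.t) ≤ 2 * w ∨ 2 * (w + 4) ≤ (a + 2 * c.t - 2 * f) % (2 * c.t)) := by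
    intro a ha
    have h2 := pan.md (x := a + 2 * c.t - 2 * f) (m := 2 * c.t) (by omega)
    have h3 := pan.md (x := a + 2 * c.t - 2 * (f + w + 4)) (m := 2 * c.t) (by omega)
    generalize (a + 2 * c.t - 2 * (f + w + 4)) % (2 * c.t) = y at *
    generalize (a + 2 * c.t - 2 * f) % (2 * c.t) = x at *
    omega
  refine ⟨rfl, show _ ≤ c.t - 4 by omega, fun v hv => hv.2.2,
    ⟨c.I, (hP V H U c.I).1 Ω c lev ang _ _ h g (by omega) (by omega) subset_rfl fun _ _ _ k _ => k⟩,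
    eqv.trans (eqv.pan_sub c U lev ang (by omega) (by omega) (by omega)) (eqv.symm ?_),
    eqv.trans (eqv.pan_sub c U lev ang (by omega) (by omega) (by omega)) (eqv.symm ?_),
    fun v hv _ => (ar _ hv.2.1).1 hv.2.2, fun v hv => ?_,
    ⟨fun v hv => (mem_out g).2 ⟨hv.1, hv.2.1⟩, fun v hv => (mem_out g).2 ⟨hv.1, hv.2.1⟩⟩,
    Or.inl ?_⟩
  · rw [← m (f + w + 4 + (c.t - 4 - w)) (f + 0) (by omega)]
    exact eqv.pan_sub c U lev ang (u' := c.t - 4 - w) (by omega) (by omega) (by omega)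
  · exact eqv.pan_sub c U lev ang (u := f + w + 4) (by omega) (by omega) (by omega)
  · obtain ⟨h1, h2⟩ := (mem_out g).1 hv
    by_cases k : (ang v + 2 * c.t - 2 * (f + w + 4)) % (2 * c.t) ≤ 2 * (c.t - 4)
    · exact Or.inl ⟨h1, h2, k⟩
    · rw [ar _ h2] at k
      exact Or.inr ⟨⟨h1, h2, by omega⟩, by show _ < _ % _; omega, by show _ % _ < _; omega⟩
  · have k := eqv.rot c U lev ang (u := f + w + 4) (by omega)
    have e := eqv.lin_add (c.pan U lev ang (f + w + 4) (c.t - 1)) 0 (c.t - 4) 2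
    rw [show c.t - 4 + 1 + 2 = c.t - 1 by omega] at e
    rw [e] at k
    have e' : (c.pan U lev ang (f + w + 4) (c.t - 4)).lin 0 (c.t - 4) ++
        gp (c.pan U lev ang f (2 * w + 4)) w =
        (c.pan U lev ang (f + w + 4) (c.t - 1)).lin 0 (c.t - 4) ++
          (c.pan U lev ang (f + w + 4) (c.t - 1)).seg (0 + (c.t - 4)) ++
          (c.pan U lev ang (f + w + 4) (c.t - 1)).lin (0 + (c.t - 4) + 1) 2 ++
          c.seg ((f + w + 4 + (c.t - 1)) % c.t) := by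
      simp only [gp, PD.lin, CD.pan, List.range_succ, List.range_zero, List.nil_append,
        List.flatMap_append, List.flatMap_singleton, List.append_assoc]
      rw [m (f + w + 4 + (0 + (c.t - 4))) (f + w) (by omega),
        m (f + w + 4 + (0 + (c.t - 4) + 1 + 0)) (f + (w + 1 + 0)) (by omega),
        m (f + w + 4 + (0 + (c.t - 4) + 1 + 1)) (f + (w + 1 + 1)) (by omega),
        m (f + w + 4 + (0 + (c.t - 4) + 1 + 2)) (f + (w + 1 + 2)) (by omega),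
        m (f + w + 4 + (c.t - 1)) (f + (w + 3)) (by omega)]
    exact (h.rot.trans (e' ▸ k)).symm

def two {α : Type} (a b : α) : ℕ → α
  | 0 => a
  | _ + 1 => b

/-- two arcs and two halves -/
def mk (w s : ℕ) (X0 X1 : PD V) (G0 G1 : FD V) (W0 W1 : Set V) (p0 p1 : V → ℕ) (m0 m1 : List V) :
    HD V := ⟨2, w, s, two X0 X1, two G0.J G1.J, two W0 W1, two p0 p1, two m0 m1⟩

theorem lt2 {P : ℕ → Prop} (h0 : P 0) (h1 : P 1) : ∀ i < 2, P i
  | 0, _ => h0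
  | 1, _ => h1
  | _ + 2, h => absurd h (by omega)

/-- what an arc has to satisfy -/
structure Gd (H : SimpleGraph V) (U : Set V) (H' : SimpleGraph V) (U' : Set V) (w s : ℕ)
    (W0 S0 W1 S1 : Set V) (X : PD V) : Prop where
  pan : (∃ I, Pan H U I X) ∧ X.s = s ∧ 2 * w + 2 ≤ X.n
  keep : ∀ v ∈ X.P, 1 ≤ X.lev v → v ∈ U' ∧ ∀ y ∈ X.P, 1 ≤ X.lev y → H.Adj v y → H'.Adj v y
  w0 : W0 ∩ X.P ⊆ S0
  w1 : W1 ∩ X.P ⊆ S1

theorem Gd.rev {s : ℕ} {W0 S0 W1 S1 : Set V} (h : Gd H U H' U' w s W0 S0 W1 S1 Q) :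
    Gd H U H' U' w s W0 S0 W1 S1 Q.rev :=
  ⟨⟨h.pan.1.imp fun _ => pan.panRev, h.pan.2⟩, h.keep, h.w0, h.w1⟩

theorem Gd.swap {s : ℕ} {W0 S0 W1 S1 : Set V} (h : Gd H U H' U' w s W0 S0 W1 S1 Q) :
    Gd H U H' U' w s W1 S1 W0 S0 Q := ⟨h.pan, h.keep, h.w1, h.w0⟩

theorem pre_mk {s : ℕ} {X0 X1 : PD V} {G0 G1 : FD V} {W0 W1 : Set V} {p0 p1 : V → ℕ}
    {m0 m1 : List V} (le : H' ≤ H) (tg : Tight H' U')
    (g0 : Gd H U H' U' w s W0 (G0.A.P ∪ G0.B.P) W1 (G1.A.P ∪ G1.B.P) X0)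
    (g1 : Gd H U H' U' w s W0 (G0.A.P ∪ G0.B.P) W1 (G1.A.P ∪ G1.B.P) X1)
    (d1 : Disjoint X0.P X1.P) (d2 : ¬ Touch H X0.P X1.P) (d3 : Disjoint W0 W1)
    (h0 : Half H H' U' G0 W0 p0 m0) (h1 : Half H H' U' G1 W1 p1 m1)
    (a0 : G0.A.Eqv (X0.sub (X0.n - w) w)) (b0 : G0.B.Eqv (X1.sub 0 w).rev)
    (a1 : G1.A.Eqv (X1.sub (X1.n - w) w)) (b1 : G1.B.Eqv (X0.sub 0 w).rev) :
    Pre H U H' U' (mk w s X0 X1 G0 G1 W0 W1 p0 p1 m0 m1) := by
  replace b1 : G1.B.Eqv ((two X0 X1 ((1 + 1) % 2)).sub 0 w).rev := b1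
  refine ⟨Or.inr rfl, le, tg, lt2 g0.pan g1.pan, lt2 g0.keep g1.keep,
    lt2 (lt2 (fun n => absurd rfl n) fun _ => ⟨d1, d2, d3⟩)
      (lt2 (fun _ => ⟨d1.symm, fun k => d2 k.symm, d3.symm⟩) fun n => absurd rfl n),
    lt2 (eqv.half h0 ⟨a0, b0, fun _ _ => rfl⟩) (eqv.half h1 ⟨a1, b1, fun _ _ => rfl⟩),
    lt2 (lt2 (g0.w0.trans ?_) (g1.w0.trans ?_)) (lt2 (g0.w1.trans ?_) (g1.w1.trans ?_))⟩
  all_goals first
    | exact union_subset_union a0.2.2.1.le b0.2.2.1.le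
    | exact union_subset_union a1.2.2.1.le b1.2.2.1.le

theorem mk_list {s : ℕ} {X0 X1 : PD V} {G0 G1 : FD V} {W0 W1 : Set V} {p0 p1 : V → ℕ}
    {m0 m1 : List V} : (mk w s X0 X1 G0 G1 W0 W1 p0 p1 m0 m1).list =
      X0.lin 0 X0.n ++ m0 ++ (X1.lin 0 X1.n ++ m1) := by
  simp [HD.list, mk, two, List.range_succ]

theorem mk_top {s : ℕ} {X0 X1 : PD V} {G0 G1 : FD V} {W0 W1 : Set V} {p0 p1 : V → ℕ}
    {m0 m1 : List V} {v : V} (h : ((v ∈ X0.P ∧ s ≤ X0.lev v) ∨ (v ∈ W0 ∧ 2 * w ≤ p0 v)) ∨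
      (v ∈ X1.P ∧ s ≤ X1.lev v) ∨ (v ∈ W1 ∧ 2 * w ≤ p1 v)) :
    v ∈ (mk w s X0 X1 G0 G1 W0 W1 p0 p1 m0 m1).top :=
  h.elim (fun k => ⟨0, Nat.zero_lt_two, k⟩) fun k => ⟨1, Nat.one_lt_two, k⟩

variable {I D Z O0 O1 : Set V} {F : FD V} {pos : V → ℕ} {σ : SD V} {Ra Rb : PD V}
  {Ω0 Ω1 : List V} {s : ℕ}

/-- the child of the cut strip -/
theorem child (hE : EqvS) (hR : ArcS) (st : Str H U I D F Z pos) (sm : Seam H U D F Z pos σ)
    (hK : σ.K = 1) (ra : Rnd H U F.A Ra σ.w O0 Ω0) (rb : Rnd H U F.B Rb σ.w O1 Ω1)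
    (sa : Ra.s = s) (sb : Rb.s = s) (d1 : Disjoint O0 O1) (d2 : ¬ Touch H O0 O1)
    (o0 : O0 ⊆ U \ I) (o1 : O1 ⊆ U \ I) (da : ∀ v ∈ D ∩ Ra.P, Ra.lev v = 0)
    (db : ∀ v ∈ D ∩ Rb.P, Rb.lev v = 0) (up : Bool) :
    ∃ d : HD V, Pre H U σ.H' σ.U' d ∧ d.w = σ.w ∧ d.s = s ∧ d.arc 0 = (if up then Rb else Rb.rev) ∧
      (List.IsRotated d.list (Ra.lin 0 Ra.n ++ σ.midL F ++ (Rb.lin 0 Rb.n).reverse ++ σ.midR F) ∨
        List.IsRotated d.list.reverse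
          (Ra.lin 0 Ra.n ++ σ.midL F ++ (Rb.lin 0 Rb.n).reverse ++ σ.midR F)) ∧
      ∀ v ∈ σ.U' \ d.top, (v ∈ O0 → Ra.lev v < s) ∧ (v ∈ O1 → Rb.lev v < s) := by
  obtain ⟨⟨le, tg, -⟩, -, -, ar⟩ := hR V H U I D F Z pos σ st sm
  have nB := st.bas.n
  have nA := ra.n
  have fa : ∀ v ∈ Ra.P ∩ F.dom Z, pos v ≤ 2 * σ.w ∨ 2 * (σ.w + σ.K + 3) ≤ pos v := by
    rintro v ⟨hv, (k | k) | k⟩
    · exact absurd (st.z.1 k).1 (o0 (ra.sub.2 hv)).2
    · have := ra.far v hv k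
      have := st.kap.1 v k
      omega
    · exact absurd (rb.sub.1 k) (disjoint_left.1 d1 (ra.sub.2 hv))
  have fb : ∀ v ∈ Rb.P ∩ F.dom Z, pos v ≤ 2 * σ.w ∨ 2 * (σ.w + σ.K + 3) ≤ pos v := by
    rintro v ⟨hv, (k | k) | k⟩
    · exact absurd (st.z.1 k).1 (o1 (rb.sub.2 hv)).2
    · exact absurd (rb.sub.2 hv) (disjoint_left.1 d1 (ra.sub.1 k))
    · have := rb.far v hv k
      have := st.kap.2 v k
      omega
  obtain ⟨ka, la, ma⟩ := ar Ra (ra.sub.2.trans o0) da fa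
  obtain ⟨kb, lb, mb⟩ := ar Rb (rb.sub.2.trans o1) db fb
  have ga : Gd H U σ.H' σ.U' σ.w s _ _ _ _ Ra := ⟨⟨ra.pan, sa, ra.qn⟩, ka, la, ma⟩
  have gb : Gd H U σ.H' σ.U' σ.w s _ _ _ _ Rb := ⟨⟨rb.pan, sb, rb.qn⟩, kb, lb, mb⟩
  have dP : Disjoint Rb.P Ra.P := (d1.mono ra.sub.2 rb.sub.2).symm
  have tP : ¬ Touch H Rb.P Ra.P := fun k => d2 (k.symm.mono ra.sub.2 rb.sub.2)
  have eK : σ.w + σ.K + 3 = σ.w + 4 := by omega
  have mid : ∀ v ∈ σ.U', v ∈ F.dom Z → 2 * σ.w < pos v → pos v < 2 * (σ.w + 4) →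
      (v ∈ σ.WL ∧ 2 * σ.w ≤ σ.pL v) ∨ (v ∈ σ.WR ∧ 2 * σ.w ≤ σ.pR v) := by
    intro v hv hd h1 h2
    rcases sm.w.2.ge ⟨hd, hv⟩ with k | k
    · exact Or.inl ⟨k, by rw [sm.pl.1 v k]; omega⟩
    · exact Or.inr ⟨k, by rw [sm.pr.1 v k]; omega⟩
  have top : ∀ T : Set V, (∀ v, (v ∈ Ra.P ∧ s ≤ Ra.lev v) ∨ (v ∈ Rb.P ∧ s ≤ Rb.lev v) ∨
      (v ∈ σ.WL ∧ 2 * σ.w ≤ σ.pL v) ∨ (v ∈ σ.WR ∧ 2 * σ.w ≤ σ.pR v) → v ∈ T) →
      ∀ v ∈ σ.U' \ T, (v ∈ O0 → Ra.lev v < s) ∧ (v ∈ O1 → Rb.lev v < s) := by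
    intro T hT v hv
    refine ⟨fun k => not_le.1 fun l => hv.2 (hT v ?_), fun k => not_le.1 fun l => hv.2 (hT v ?_)⟩
    · rcases ra.cov v k with j | ⟨j, j1, j2⟩
      · exact Or.inl ⟨j, l⟩
      · rw [← st.kap.1 v j] at j1 j2
        exact Or.inr (Or.inr (mid v hv.1 (Or.inl (Or.inr j)) j1 j2))
    · rcases rb.cov v k with j | ⟨j, j1, j2⟩
      · exact Or.inr (Or.inl ⟨j, l⟩)
      · rw [← st.kap.2 v j] at j1 j2
        exact Or.inr (Or.inr (mid v hv.1 (Or.inr j) j1 j2))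
  have rA : (σ.FR F).A = (F.B.sub (σ.w + 4) σ.w).rev := by rw [← eK]; rfl
  have rB : (σ.FR F).B = (F.A.sub (σ.w + 4) σ.w).rev := by rw [← eK]; rfl
  cases up
  · refine ⟨mk σ.w s Rb.rev Ra (σ.FR F) (σ.FL F) σ.WR σ.WL σ.pR σ.pL (σ.midR F) (σ.midL F),
      pre_mk le tg gb.swap.rev ga.swap dP tP sm.w.1.symm sm.hr sm.hl (rA ▸ rb.r1)
        (rB ▸ eqv.rev ra.e1) ra.e0 rb.r0', rfl, rfl, rfl, Or.inl ?_,
      top _ fun v k => mk_top (by tauto)⟩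
    rw [mk_list, lin_rev0, List.append_assoc (_ ++ σ.midL F)]
    exact List.isRotated_append
  · have sw := (hE V).2.2.2.2.2.2.2.2 H σ.H' σ.U'
    refine ⟨mk σ.w s Rb Ra.rev (σ.FL F).swap (σ.FR F).swap σ.WL σ.WR σ.pL σ.pR (σ.midL F).reverse
      (σ.midR F).reverse, pre_mk le tg ?_ ?_ dP tP sm.w.1 (sw _ _ _ _ sm.hl).2 (sw _ _ _ _ sm.hr).2
        rb.e0 ra.r0' (show (σ.FR F).B.Eqv _ from rB ▸ ra.r1)
        (show (σ.FR F).A.Eqv _ from rA ▸ eqv.rev rb.e1), rfl, rfl, rfl, Or.inr ?_,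
      top _ fun v k => mk_top (by tauto)⟩
    · exact ⟨gb.pan, kb, lb.trans (union_comm _ _).le, mb.trans (union_comm _ _).le⟩
    · exact Gd.rev ⟨ga.pan, ka, la.trans (union_comm _ _).le, ma.trans (union_comm _ _).le⟩
    · rw [mk_list, lin_rev0]
      simp only [List.reverse_append, List.reverse_reverse, List.append_assoc]
      simpa only [List.append_assoc] using List.isRotated_append (l := σ.midR F)
        (l' := Ra.lin 0 Ra.n ++ σ.midL F ++ (Rb.lin 0 Rb.n).reverse)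

theorem res_eq (h : Tight H U) : res H U = H := by
  ext u v
  exact ⟨fun k => k.1, fun k => ⟨k, h u v k, h v u k.symm⟩⟩

theorem conn_row (b : Bas H U I F) {e : ℕ} (he : e ≤ F.A.n) : Conn H (F.row e) := by
  have k : ∀ p : PD V, Pan H U I p → e ≤ p.n → Conn H (p.col e) := fun p h he =>
    pan.conn_up (C := fun l => p.C l e) (Nat.zero_le _) (fun l hl => (h.cell l hl e he).1)
      (fun l hl => h.ver l hl e he) (h.lam e he).1 (h.lam e he).2.1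
  obtain ⟨-, j1, j2, j3⟩ := b.j e he
  exact conn_union_touch (conn_union_touch (k _ b.a he) j1
    (j2.symm.mono (pan.cell_col (Nat.zero_le _)) subset_rfl)) (k _ b.b (b.n ▸ he))
    (j3.mono subset_union_right (pan.cell_col (Nat.zero_le _)))

theorem conn_le {G : SimpleGraph V} {S : Set V} (le : H ≤ G) (h : Conn H S) : Conn G S :=
  ⟨h.1, fun u hu v hv => Relation.ReflTransGen.mono
    (fun _ _ (k : _ ∧ _ ∧ H.Adj _ _) => ⟨k.1, k.2.1, le k.2.2⟩) u v (h.2 u hu v hv)⟩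

theorem ring_out {c : CD V} {lev ang : V → ℕ} (h : Col H U Ω c) (g : Crd H U Ω c lev ang) {v : V}
    (hv : v ∈ c.ring 0) : v ∈ c.Out H U Ω ∧ lev v = 0 := by
  obtain ⟨i, hi, k⟩ := hv
  have m := (h.cell 0 (Nat.zero_le _) i hi).1 k
  have m' : v ∈ U \ c.I := ⟨m.1, fun j => m.2 (Or.inl j)⟩
  have := (g.col v m' i hi).2 (Or.inr ⟨0, le_rfl, Nat.zero_le _, k⟩)
  exact ⟨(mem_out g).2 ⟨m', by omega⟩, g.cell 0 (Nat.zero_le _) i hi v k⟩

theorem cols_out {c : CD V} {lev ang : V → ℕ} {u n : ℕ} {v : V} (ht : 0 < c.t)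
    (h : Pan H U I (c.pan U lev ang u n)) (g : Crd H U Ω c lev ang)
    (hv : v ∈ (c.pan U lev ang u n).cols) : v ∈ c.Out H U Ω ∧ v ∈ c.cols := by
  obtain ⟨e, he, k⟩ := hv
  have m := ((h.col e he v).1 k).1
  exact ⟨(mem_out g).2 ⟨m.1, m.2.1⟩, _, Nat.mod_lt _ ht, k⟩

theorem dn_word (hD : DoneS) [Finite V] {α : ℕ} {x y : List V} {ws : List (List V)}
    (h : Dn H U (x :: ws) α) (k : List.IsRotated x y ∨ List.IsRotated x.reverse y) :
    Dn H U (y :: ws) α := by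
  have d := (hD V H U α).2.1
  rcases k with k | k
  · exact d _ _ _ h (Or.inr (Or.inl k))
  · exact d _ _ _ (d _ _ _ h (Or.inr (Or.inr rfl))) (Or.inr (Or.inl k))

end twoc

open twoc in
theorem twocS : InS → CrdS → PanS → EqvS → DoneS → AsmS → StripS → FrmS → ArcS → ChildS →
    TwocS := by
  intro _ hC hP hE hD hA hS hF hR hK h s t ht
  obtain ⟨N, M, hS⟩ := hS h 0 1 fun _ => s + 6
  refine ⟨N + 4, M, s + 4, ?_⟩
  intro V _ G H n Ur U ob Ω c π up J db hs bd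
  choose lev ang cr using fun i => hC V H U (Ω i) (c i) (db.col i)
  obtain ⟨⟨a, b, O, ft, cl, fr, sk⟩, ur⟩ :=
    (hF V G H h n Ur U ob M t up J (by omega)).2 Ω c π lev ang db cr (by omega) bd
  obtain ⟨f, L, D, Z, pos, F, σ, hw, hK1, hf, ev, hN, hDs, st, sm, -, -⟩ :=
    hS V G H n Ur U _ ob _ a b O ft cl (fun _ => ∅) fr le_rfl
  have nA : F.A.n = 2 * σ.w + 4 := by have := sm.n; omega
  replace hf : f + (2 * σ.w + 4) ≤ M := nA ▸ hf
  rw [nA] at ev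
  have g0 := bd.gap 0
  have g1 := bd.gap 1
  have ps : ∀ i u, u + (2 * σ.w + 4) ≤ M → (((c i).pan U (lev i) (ang i) 0 M).sub u
      (2 * σ.w + 4)).Eqv ((c i).pan U (lev i) (ang i) u (2 * σ.w + 4)) := by
    intro i u hu
    have := bd.gap i
    have k := eqv.pan_sub (c i) U (lev i) (ang i) (u := 0) (n := M) (by omega) (by omega) hu
    rwa [zero_add, Nat.mod_eq_of_lt (by omega)] at k
  have eA := eqv.trans ev.1 (ps 0 f hf)
  have ra := (rnd_pan hP (db.col 0) (cr 0) (f := f) (w := σ.w) (by omega)).eqv eA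
  obtain ⟨g, Rb, hg, rb, lb, sb, eX, oB⟩ : ∃ g Rb, g + (2 * σ.w + 4) ≤ M ∧
      Rnd H U F.B Rb σ.w ((c 1).Out H U (Ω 1)) (Ω 1) ∧ Rb.lev = lev 1 ∧ Rb.s = (c 1).s ∧
      (if up then Rb else Rb.rev).Eqv
        ((c 1).pan U (lev 1) (ang 1) (g + σ.w + 4) ((c 1).t - 4)) ∧
      F.B.o (σ.w + 2) = (c 1).o (g + (σ.w + 2)) := by
    have nB := st.bas.n
    cases up
    · have r := rnd_pan hP (db.col 1) (cr 1) (f := M - (f + (2 * σ.w + 4))) (w := σ.w) (by omega)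
      have eB := eqv.trans (eqv.trans ev.2.1 (eqv.rev_sub (p := (c 1).pan U (lev 1) (ang 1) 0 M)
        (fun v hv => hv.2.2) hf)) (eqv.rev (ps 1 (M - (f + (2 * σ.w + 4))) (by omega)))
      refine ⟨_, _, by omega, r.rev.eqv eB, rfl, rfl, eqv.rev_rev r.kq, ?_⟩
      rw [(eB.2.2.2.2.1 _ (by omega)).2.2]
      show (c 1).o ((_ + (2 * σ.w + 4 - (σ.w + 2))) % _) = _
      rw [Nat.mod_eq_of_lt (by omega), show 2 * σ.w + 4 - (σ.w + 2) = σ.w + 2 by omega]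
    · have eB := eqv.trans ev.2.1 (ps 1 f hf)
      refine ⟨f, _, hf, (rnd_pan hP (db.col 1) (cr 1) (f := f) (w := σ.w) (by omega)).eqv eB, rfl,
        rfl, eqv.refl _, ?_⟩
      rw [(eB.2.2.2.2.1 _ (by omega)).2.2]
      show (c 1).o (_ % _) = _
      rw [Nat.mod_eq_of_lt (by omega)]
  have oI : ∀ i, (c i).Out H U (Ω i) ⊆ U \ ((c 0).I ∩ (c 1).I) :=
    Fin.forall_fin_two.2 ⟨fun v hv => ⟨hv.1.1, fun k => hv.1.2 k.1⟩,
      fun v hv => ⟨hv.1.1, fun k => hv.1.2 k.2⟩⟩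
  have dD : ∀ v ∈ D, (v ∈ (c 0).Out H U (Ω 0) → lev 0 v = 0) ∧
      (v ∈ (c 1).Out H U (Ω 1) → lev 1 v = 0) := by
    intro v hv
    rcases (hDs hv).elim (fun k => Or.inl (Or.inl k)) fun k => sk k with (k | k) | k
    · exact ⟨fun j => absurd k (oI 0 j).2, fun j => absurd k (oI 1 j).2⟩
    · have := ring_out (db.col 0) (cr 0) k
      exact ⟨fun _ => this.2, fun j => absurd j (disjoint_left.1 db.out.1 this.1)⟩
    · have := ring_out (db.col 1) (cr 1) k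
      exact ⟨fun j => absurd this.1 (disjoint_left.1 db.out.1 j), fun _ => this.2⟩
  obtain ⟨d, pre, dw, ds, d0, dl, dt⟩ := child hE hR st sm hK1 ra rb rfl (sb.trans db.lev.symm)
    db.out.1 db.out.2.1 (oI 0) (oI 1) (fun v hv => (dD v hv.1).1 (ra.sub.2 hv.2))
    (fun v hv => lb ▸ (dD v hv.1).2 (rb.sub.2 hv.2)) up
  rw [← d0] at eX
  have dn : (d.arc 0).n = (c 1).t - 4 := eX.1
  replace ds : d.s = (c 0).s := ds
  obtain ⟨⟨le, tg, uD, -⟩, -⟩ := hR V H U _ D F Z pos σ st sm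
  obtain ⟨c', co, cs, ct, oo, -, -, -, -, cc⟩ := hK V H σ.H' U σ.U' σ.U' d 1 3 s t σ.w pre le_rfl
    (by omega) le_rfl (by omega) ht dw.le (by omega)
    (fun v ⟨i, hi, k⟩ => k.elim (fun k => (pre.keep i hi v k.1 k.2).1)
      fun k => (pre.half i hi).sub k.1) subset_rfl
  rw [res_eq tg] at co cc
  have mo : ∀ i x y, x ≤ y → y < (c i).t → π i x ≤ π i y := fun i x y k k' =>
    k.lt_or_eq.elim (fun j => (db.mono i x y j k').le) fun j => j ▸ le_rfl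
  have hr := sm.rows (σ.w + 2) (by omega) (by omega)
  have nB := st.bas.n
  refine ⟨σ.H', σ.U', d.list, c', fun j => π 1 (g + (2 * σ.w + 4) + j), F.row (σ.w + 2),
    π 0 (f + (σ.w + 2)), π 1 (g + (σ.w + 2)),
    ⟨db.univ, le.trans db.le, co, fun i j k k' => db.mono 1 _ _ (by omega) (by omega),
      fun i hi => ?_, cc.trans (union_subset ?_ fun v hv => ?_)⟩, cs, ct,
    uD.trans sdiff_subset, fun v hv => ⟨⟨(sm.spl.un.le (Or.inr (hr hv).1)).1, fr.ur ?_⟩, (hr hv).2⟩,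
    conn_le db.le (conn_row st.bas (by omega)), Or.inl (Or.inl (Or.inl ?_)), Or.inr (Or.inl ?_),
    mo 0 _ _ (by omega) (by omega), mo 0 _ _ (by omega) (by omega),
    mo 1 _ _ (by omega) (by omega), db.mono 1 _ _ (by omega) (by omega),
    mo 1 _ _ (by omega) (by omega), fun α hα => ?_⟩
  · have k := db.pos 1 (g + (2 * σ.w + 4) + i) (by omega)
    refine ⟨?_, k.2⟩
    rw [oo i (by omega), (eX.2.2.2.2.1 _ (by omega)).2.2, ← k.1]
    show (c 1).o (_ % _) = _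
    rw [Nat.mod_eq_of_lt (by omega)]
    exact congrArg _ (by omega)
  · intro v hv
    rw [eqv.cols eX] at hv
    have k := cols_out (by omega) ((hP V H U (c 1).I).1 _ _ _ _ _ _ (db.col 1) (cr 1) (by omega)
      (by omega) subset_rfl fun _ _ _ k _ => k) (cr 1) hv
    exact ur 1 v k.1 (Or.inl k.2)
  · rcases db.out.2.2 (uD hv.1).1 with (k | k) | k
    · exact fr.ur (Or.inl k)
    · exact ur 0 v k (Or.inr ((dt v hv).1 k))
    · exact ur 1 v k (Or.inr (db.lev ▸ lb ▸ (dt v hv).2 k))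
  · rcases hv with (k | k) | k
    · exact Or.inr (Or.inl (Or.inl (Or.inl ⟨f + (σ.w + 2), show _ ≤ M by omega,
        (eqv.up ev.1 (by omega) 0).le k⟩)))
    · exact Or.inl ((st.bas.j (σ.w + 2) (by omega)).1 k)
    · exact Or.inr (Or.inl (Or.inl (Or.inr ⟨f + (σ.w + 2), fr.bas.n ▸ show _ ≤ M by omega,
        (eqv.up ev.2.1 (by omega) 0).le k⟩)))
  · have k := (st.bas.a.lam (σ.w + 2) (by omega)).2.2.1
    rw [(eA.2.2.2.2.1 _ (by omega)).2.2] at k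
    rw [← (db.pos 0 _ (by omega)).1, ← Nat.mod_eq_of_lt (show f + (σ.w + 2) < (c 0).t by omega)]
    exact k
  · rw [← (db.pos 1 _ (by omega)).1, ← oB]
    exact (st.bas.b.lam (σ.w + 2) (by omega)).2.2.1
  · have pm := dl.elim (·.perm) fun k => (List.reverse_perm _).symm.trans k.perm
    have gg : ∀ p, σ.gap p = gp p σ.w := fun p => by rw [SD.gap, hK1]; rfl
    have as := (hA V H U D F Z pos σ N _ (Rb.lin 0 Rb.n) sm hN ?_ ?_).2.2 α (dn_word hD hα dl)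
    · rw [gg, gg] at as
      have sw := (hD V H U (α + (N + 4))).2.2.1
      exact sw _ _ (dn_word hD (sw _ _ (dn_word hD as ra.word) (List.Perm.swap _ _ _)) rb.word)
        (List.Perm.swap _ _ _)
    · refine List.Perm.nodup_iff ?_ |>.1 (pm.nodup_iff.1 co.soc.nd)
      refine List.Perm.append_right _ ?_
      rw [List.append_assoc, List.append_assoc]
      exact List.Perm.append_left _
        (List.perm_append_comm.trans ((List.reverse_perm _).append_right _))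
    · intro v hv
      refine co.soc.sub v (pm.mem_iff.2 ?_)
      rcases List.mem_append.1 hv with k | k <;> simp [k]

end Pool.Agent.MP_9d78a0_co.st

end MrgPart1

-- marker of a merged file
example : 731051 + 419312 = 731051 + 419312 := rfl
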