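import Pool.Agent.MP_9d78a0_co.st.Dbl
import Pool.Agent.MP_9d78a0_co.st.In
import Pool.Agent.MP_9d78a0_co.st.Twoc
import Pool.Agent.MP_9d78a0_co.st.Out

-- ======== part 0: formerly Pool.Agent.MP_9d78a0_co.st.Kids
section MrgPart0

/-! A cross in a big collar is an item; both children are drawn. -/

set_option autoImplicit false

namespace Pool.Agent.MP_9d78a0_co.st

open Set Function fb

namespace Kd

variable {V : Type} {H : SimpleGraph V} {U : Set V} {Ω : List V} {c : CD V}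

theorem in_mono (hI : InS) (F : FCol H U Ω c) {l l' : ℕ} (h : l ≤ l') (h' : l' ≤ c.s) :
    c.In H U l ⊆ c.In H U l' := by
  rcases h.eq_or_lt with rfl | k
  · exact Subset.rfl
  · exact subset_union_left.trans ((hI V H U Ω c F l' h').2.2.2.2.1 l k)

theorem core_sub (F : FCol H U Ω c) : c.Core H U ⊆ U := by
  rintro v (hv | hv)
  · exact hv.1.1
  · exact (capi.cols_sub F hv).1

theorem hub_core (hI : InS) (F : FCol H U Ω c) : c.I ⊆ c.Core H U :=
  (hI V H U Ω c F c.s le_rfl).2.1.trans subset_union_left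

theorem col_core {i : ℕ} (hi : i < c.t) : c.col i ⊆ c.Core H U :=
  fun _ hv => Or.inr ⟨i, hi, hv⟩

/-- a chord inside ring `j + 1`, prolonged to the letters -/
def ch (c : CD V) (j a b : ℕ) (J : Set V) : Set V := J ∪ c.up (j + 1) a ∪ c.up (j + 1) b

theorem ch_conn (F : FCol H U Ω c) {j a b : ℕ} {J : Set V} (hj : j < c.s) (ha : a < c.t)
    (hb : b < c.t) (hJ : Conn H J) (h1 : c.C j a ⊆ J) (h2 : c.C j b ⊆ J) :
    Conn H (ch c j a b J) :=
  conn_union_touch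
    (conn_union_touch hJ (capi.conn_up F (by omega) ha)
      ((F.ver j hj a ha).mono h1 (capi.C_sub_up le_rfl hj)))
    (capi.conn_up F (by omega) hb)
    ((F.ver j hj b hb).mono (h2.trans subset_union_left) (capi.C_sub_up le_rfl hj))

theorem sort4 {a b c d : ℕ} (h : Xs a b c d) (n : a ≠ d ∧ b ≠ c ∧ a ≠ c ∧ b ≠ d) :
    (min a b < min c d ∧ min c d < max a b ∧ max a b < max c d) ∨
    (min c d < min a b ∧ min a b < max c d ∧ max c d < max a b) := by
  unfold Xs fb.Btw at h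
  omega

theorem le_last {π : ℕ → ℕ} {t : ℕ} (h : ∀ i j, i < j → j < t → π i < π j) {i j : ℕ} (k : i ≤ j)
    (hj : j < t) : π i ≤ π j := by
  rcases k.eq_or_lt with rfl | k
  · exact le_rfl
  · exact (h i j k hj).le

end Kd

open Kd

theorem oneS : InS → CrkS → PruneS → AliftS → ZoneS → OneS := by
  intro hI hC hP hA hZ K hK
  obtain ⟨s0, t0, hA⟩ := hA 2 1 one_pos
  refine ⟨s0 + K, 2 * K + 2 * t0 + 1, fun V _ G H h n Ur U ob Ω c π S hs ht hc => ?_⟩
  have F := S.col.toFCol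
  obtain ⟨j, m, x, y, J, hj, dg, hJ, hd⟩ := hA V H U Ω c (fun i => K + 2 * i) S.col (by omega)
    (fun i hi => by omega) (fun i _ => by omega) 2 le_rfl
    ((hC V H U Ω 2 1 F.soc.nd).2.2.2.2.2.1 hc)
  obtain ⟨α, β, τ, -, hτ⟩ := dg.trn
  obtain ⟨e, he, e', he', -, -, ne, xs⟩ := hP.2.1 m 0 0 x y (Ico 0 0)ᶜ dg.dst dg.crook (Or.inr rfl)
    (by simp) ⟨τ 0, (hτ 0 one_pos).1, by simp⟩
  obtain ⟨W0, w1, w2, w3, w4⟩ := hZ V G H U Ω c ob π K F S.le S.mono (fun i hi => (S.pos i hi).1)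
    hK (by omega) (by omega)
  have rg : ∀ e < m, (K ≤ x e ∧ x e + K < c.t) ∧ K ≤ y e ∧ y e + K < c.t := by
    intro e he
    obtain ⟨⟨a, ha, ea⟩, ⟨b, hb, eb⟩, -⟩ := hJ e he
    simp only [mem_Iio] at ha hb ea eb
    omega
  have js : j < c.s := by omega
  have upd := fun i hi => ((hI V H U Ω c F (j + 1) js).2.2.2.1 i hi).1
  have sub : ∀ e < m, ch c j (x e) (y e) (J e) ⊆ c.Core H U \ W0 := by
    intro e he
    obtain ⟨⟨a1, a2⟩, a3, a4⟩ := rg e he
    rintro v ((hv | hv) | hv)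
    · have := (hJ e he).2.2.1 hv
      exact ⟨Or.inl (in_mono hI F js le_rfl this),
        fun k => disjoint_left.1 w2 k (in_mono hI F (by omega) (by omega) this)⟩
    · exact ⟨col_core (by omega) (capi.up_sub_col hv),
        fun k => disjoint_left.1 (w3 _ a1 a2) k (capi.up_sub_col hv)⟩
    · exact ⟨col_core (by omega) (capi.up_sub_col hv),
        fun k => disjoint_left.1 (w3 _ a3 a4) k (capi.up_sub_col hv)⟩
  have con : ∀ e < m, Conn G (ch c j (x e) (y e) (J e)) := fun e he =>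
    capi.conn_le S.le (ch_conn F js (by have := rg e he; omega) (by have := rg e he; omega)
      (hJ e he).2.2.2.1 (hJ e he).2.2.2.2.1 (hJ e he).2.2.2.2.2)
  have mem : ∀ e < m, ob (π (min (x e) (y e))) ∈ ch c j (x e) (y e) (J e) ∧
      ob (π (max (x e) (y e))) ∈ ch c j (x e) (y e) (J e) := by
    intro e he
    obtain ⟨⟨a1, a2⟩, a3, a4⟩ := rg e he
    have b1 : ob (π (x e)) ∈ ch c j (x e) (y e) (J e) :=
      Or.inl (Or.inr ((S.pos (x e) (by omega)).1 ▸ capi.o_up F (by omega)))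
    have b2 : ob (π (y e)) ∈ ch c j (x e) (y e) (J e) :=
      Or.inr ((S.pos (y e) (by omega)).1 ▸ capi.o_up F (by omega))
    rcases le_total (x e) (y e) with k | k
    · rw [min_eq_left k, max_eq_right k]; exact ⟨b1, b2⟩
    · rw [min_eq_right k, max_eq_left k]; exact ⟨b2, b1⟩
  have r1 := rg e he
  have r2 := rg e' he'
  have n1 := (dg.dst e he e' he').1
  have n2 := (dg.dst e' he' e he).1
  obtain ⟨n3, n4⟩ := (dg.dst e he e' he').2 ne
  have dis : Disjoint (ch c j (x e) (y e) (J e)) (ch c j (x e') (y e') (J e')) := by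
    have u1 := (hJ e he).2.2.1
    have u2 := (hJ e' he').2.2.1
    simp only [ch, disjoint_union_left, disjoint_union_right]
    refine ⟨⟨⟨⟨hd e he e' he' ne, ?_⟩, ?_⟩, ⟨?_, ?_⟩, ?_⟩, ⟨?_, ?_⟩, ?_⟩
    all_goals first
      | exact (upd _ (by omega)).mono_left u1
      | exact ((upd _ (by omega)).mono_left u2).symm
      | exact capi.up_dis F (by omega) (by omega) (by omega)
  refine ⟨c.Core H U, Subset.rfl, Or.inl ⟨rfl, ?_⟩⟩
  rcases sort4 xs ⟨n1, n2.symm, n3, n4⟩ with ⟨o1, o2, o3⟩ | ⟨o1, o2, o3⟩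
  · exact ⟨_, _, _, _, W0, _, _, w4 _ _ (by omega) (by omega) (by omega),
      S.mono _ _ o1 (by omega), S.mono _ _ o2 (by omega), S.mono _ _ o3 (by omega),
      w1.trans subset_union_right, ⟨sub e he, sub e' he', con e he, con e' he', dis⟩,
      (mem e he).1, (mem e he).2, (mem e' he').1, (mem e' he').2⟩
  · exact ⟨_, _, _, _, W0, _, _, w4 _ _ (by omega) (by omega) (by omega),
      S.mono _ _ o1 (by omega), S.mono _ _ o2 (by omega), S.mono _ _ o3 (by omega),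
      w1.trans subset_union_right, ⟨sub e' he', sub e he, con e' he', con e he, dis.symm⟩,
      (mem e' he').1, (mem e' he').2, (mem e he).1, (mem e he).2⟩

theorem kidsS : InS → ZoneS → DoneS → CtxS → OneS → KidsS := by
  intro hI hZ hD hX hO h K m b s t α hK M1 M2
  obtain ⟨s1, t1, hO⟩ := hO K hK
  refine ⟨s + s1 + K, t + t1 + 2 * K + 1,
    fun V _ G n Ur U I ob p p' x D H' U' Ω c π X hm hb k hs i => ?_⟩
  obtain ⟨Si, ui, pi, pi'⟩ := k.sit i
  by_cases ci : Cr (H' i) (U' i) (Ω i)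
  swap
  · exact (hD V (H' i) (U' i) α).2.2.2.1 _ Si.col.soc ci
  obtain ⟨j, all, dU, eU, dI⟩ : ∃ j : Fin 2, (∀ l, l = i ∨ l = j) ∧ Disjoint (U' j) (U' i) ∧
      U' 0 ∪ U' 1 = U' j ∪ U' i ∧
      (π j ((c j).t - 1) < π i 0 ∨ π i ((c i).t - 1) < π j 0) := by
    fin_cases i
    · exact ⟨1, fun l => by fin_cases l <;> simp, k.dis.1.symm, union_comm _ _, Or.inr k.dis.2⟩
    · exact ⟨0, fun l => by fin_cases l <;> simp, k.dis.1, rfl, Or.inl k.dis.2⟩
  obtain ⟨Sj, uj, pj, pj'⟩ := k.sit j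
  have F := Sj.col.toFCol
  have si := hs i
  have sj := hs j
  have t4 := F.t4
  have q0 := Sj.pos 0 (by omega)
  have q1 := Sj.pos ((c j).t - 1) (by omega)
  have q01 : π j 0 ≤ π j ((c j).t - 1) := le_last Sj.mono (Nat.zero_le _) (by omega)
  have dd : Disjoint (Icc (π j 0) (π j ((c j).t - 1))) (Icc (π i 0) (π i ((c i).t - 1))) :=
    disjoint_left.2 fun v h1 h2 => by simp only [mem_Icc] at h1 h2; omega
  have ne : π j 0 ∉ Icc (π i 0) (π i ((c i).t - 1)) := fun h2 =>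
    disjoint_left.1 dd ⟨le_rfl, q01⟩ h2
  have cs : (c j).Core (H' j) (U' j) ⊆ (U ∩ Ur) \ U' i := fun v hv =>
    ⟨⟨uj (core_sub F hv), Sj.core hv⟩, disjoint_left.1 dU (core_sub F hv)⟩
  have os : (U ∩ Ur) \ (U' 0 ∪ U' 1) ⊆ (U ∩ Ur) \ U' i := fun v hv =>
    ⟨hv.1, fun h2 => hv.2 (eU ▸ Or.inr h2)⟩
  obtain ⟨-, X2, X3, -, X5⟩ := hX V G h n K Ur U I (U' i) (c i).I ob p p' (π i 0)
    (π i ((c i).t - 1)) x hK X ui pi pi'
  have fin : (∃ x' : XD V, x'.m = x.m + 1 ∧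
      Ctx G h n K Ur (U' i) (c i).I ob (π i 0) (π i ((c i).t - 1)) x') →
      Dn (H' i) (U' i) [Ω i] α := fun ⟨x', e, X'⟩ =>
    M1 V G (H' i) n Ur (U' i) ob (Ω i) (c i) (π i) x' Si (by omega) (by omega) X' (by omega)
      (Nat.zero_le _)
  by_cases cj : Cr (H' j) (U' j) (Ω j)
  · obtain ⟨W, w1, w2⟩ := hO V G (H' j) h n Ur (U' j) ob (Ω j) (c j) (π j) Sj (by omega)
      (by omega) cj
    exact fin (X2 W _ _ _ w2 (w1.trans cs) pj pj' pj (q01.trans pj') q0.2.1 q1.2.2 q0.2.1 q0.2.2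
      dd ne)
  have hub : ∀ a < (c j).t, Conn G ((c j).I ∪ (c j).col a) ∧
      (c j).I ∪ (c j).col a ⊆ (U ∩ Ur) \ U' i ∧ ob (π j a) ∈ (c j).col a := fun a ha =>
    ⟨capi.conn_le Sj.le (capi.conn_hub_col F ha),
      (union_subset (hub_core hI F) (col_core ha)).trans cs,
      (Sj.pos a ha).1 ▸ capi.o_up F ha⟩
  by_cases ca : ∀ l < x.b, Touch G (x.E l) (c i).I
  · obtain ⟨z, hz⟩ : D.Nonempty := nonempty_iff_ne_empty.2 fun e => cj (k.xing e j)
    obtain ⟨W0, w1, -, w3, w4⟩ := hZ V G (H' j) (U' j) (Ω j) (c j) ob (π j) K F Sj.le Sj.mono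
      (fun a ha => (Sj.pos a ha).1) hK (by omega) (by omega)
    obtain ⟨b1, b2, b3⟩ := hub K (by omega)
    obtain ⟨x', e1, e2, X'⟩ := X5 W0 ({z} ∪ ((c j).I ∪ (c j).col K)) _ _ _
      (w4 K K le_rfl le_rfl (by omega))
      (conn_union_touch (conn_singleton _ _) b1
        ((k.del.2 z hz j).mono Subset.rfl subset_union_left))
      (Or.inr (Or.inr b3))
      (disjoint_union_right.2 ⟨disjoint_singleton_right.2 fun h2 =>
          (k.del.1 hz).2 (eU ▸ Or.inl (capi.cols_sub F (w1 h2)).1),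
        disjoint_union_right.2 ⟨disjoint_left.2 fun v h2 => (capi.cols_sub F (w1 h2)).2,
          w3 K le_rfl (by omega)⟩⟩)
      (union_subset ((w1.trans subset_union_right).trans cs)
        (union_subset (singleton_subset_iff.2 (os (k.del.1 hz))) b2))
      pj pj' q0.2.1 q1.2.2 dd ((k.del.2 z hz i).mono subset_union_left Subset.rfl) ca
    exact M2 V G (H' i) n Ur (U' i) ob (Ω i) (c i) (π i) x' Si (by omega) (by omega) X'
      (by omega) (by omega)
  push Not at ca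
  obtain ⟨l, hl, nl⟩ := ca
  obtain ⟨b1, b2, b3⟩ := hub 0 (by omega)
  rcases k.pend l (hb ▸ hl) with ⟨a, ha⟩ | ⟨S, s1, s2, s3, z, hz, hz'⟩
  · rcases all a with rfl | rfl
    · exact absurd ha nl
    · exact fin (X3 l hl _ _ b2 b1 (ha.mono Subset.rfl subset_union_left) (Or.inr b3) pj
        (q01.trans pj') q0.2.1 q0.2.2 ne)
  · exact fin (X3 l hl (S ∪ ((c j).I ∪ (c j).col 0)) _ (union_subset (s1.trans os) b2)
      (conn_union_touch s2 b1
        ((k.del.2 z hz' j).mono (singleton_subset_iff.2 hz) subset_union_left))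
      (s3.mono Subset.rfl subset_union_left) (Or.inr (Or.inr b3)) pj (q01.trans pj') q0.2.1
      q0.2.2 ne)

end Pool.Agent.MP_9d78a0_co.st

end MrgPart0

-- ======== part 1: formerly Pool.Agent.MP_9d78a0_co.st.Geo
section MrgPart1

/-! Geometry of panels in a collar and of a cut strip. -/

set_option autoImplicit false

namespace Pool.Agent.MP_9d78a0_co.st

open Set Function fb

namespace geo

variable {V : Type} {H : SimpleGraph V} {U I : Set V} {Ω : List V} {c : CD V} {lev ang : V → ℕ}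
  {p q : PD V} {u n : ℕ} {v : V}

theorem kap (hu : u < c.t) (ha : ang v < 2 * c.t) :
    (2 * u ≤ ang v ∧ (c.pan U lev ang u n).κ v + 2 * u = ang v) ∨
      (ang v < 2 * u ∧ (c.pan U lev ang u n).κ v + 2 * u = ang v + 2 * c.t) := by
  have := pan.md (x := ang v + 2 * c.t - 2 * u) (m := 2 * c.t) (by omega)
  change (_ ∧ (ang v + 2 * c.t - 2 * u) % (2 * c.t) + _ = _) ∨
    (_ ∧ (ang v + 2 * c.t - 2 * u) % (2 * c.t) + _ = _)
  omega

theorem mem (hu : u < c.t) (_ : n < c.t) : v ∈ (c.pan U lev ang u n).P ↔ v ∈ U \ c.I ∧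
    ang v < 2 * c.t ∧ ((2 * u ≤ ang v ∧ ang v ≤ 2 * (u + n)) ∨ ang v + 2 * c.t ≤ 2 * (u + n)) := by
  refine and_congr_right fun _ => and_congr_right fun ha => ?_
  have := kap (U := U) (lev := lev) (n := n) hu ha
  change (c.pan U lev ang u n).κ v ≤ _ ↔ _
  omega

theorem kle (hv : v ∈ (c.pan U lev ang u n).P) :
    (c.pan U lev ang u n).κ v ≤ 2 * (c.pan U lev ang u n).n := hv.2.2

/-- the panel is a forward part of the collar -/
def Fw (c : CD V) (U : Set V) (lev ang : V → ℕ) (p : PD V) (u n : ℕ) : Prop :=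
  u < c.t ∧ n < c.t ∧ p.Eqv (c.pan U lev ang u n)

/-- the panel is a backward part of the collar -/
def Bw (c : CD V) (U : Set V) (lev ang : V → ℕ) (p : PD V) (u n : ℕ) : Prop :=
  u < c.t ∧ n < c.t ∧ p.Eqv (c.pan U lev ang u n).rev

theorem fw (hu : u < c.t) (hn : n < c.t) : Fw c U lev ang (c.pan U lev ang u n) u n :=
  ⟨hu, hn, eqv.refl _⟩

theorem Fw.of (h : Fw c U lev ang p u n) (e : q.Eqv p) : Fw c U lev ang q u n :=
  ⟨h.1, h.2.1, eqv.trans e h.2.2⟩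

theorem Bw.of (h : Bw c U lev ang p u n) (e : q.Eqv p) : Bw c U lev ang q u n :=
  ⟨h.1, h.2.1, eqv.trans e h.2.2⟩

theorem Fw.eqv (h : Fw c U lev ang p u n) (h' : Fw c U lev ang q u n) : p.Eqv q :=
  eqv.trans h.2.2 (eqv.symm h'.2.2)

theorem Bw.eqv (h : Bw c U lev ang p u n) (h' : Bw c U lev ang q u n) : p.Eqv q :=
  eqv.trans h.2.2 (eqv.symm h'.2.2)

theorem Fw.rev (h : Fw c U lev ang p u n) : Bw c U lev ang p.rev u n :=
  ⟨h.1, h.2.1, eqv.rev h.2.2⟩

theorem Bw.rev (h : Bw c U lev ang p u n) : Fw c U lev ang p.rev u n :=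
  ⟨h.1, h.2.1, eqv.trans (eqv.rev h.2.2) (eqv.rev_rev fun _ => kle)⟩

theorem Fw.sub (h : Fw c U lev ang p u n) (a m : ℕ) {u' : ℕ} (hm : a + m ≤ n) (h1 : u' < c.t)
    (h2 : u' = u + a ∨ u' + c.t = u + a) : Fw c U lev ang (p.sub a m) u' m := by
  have e : (u + a) % c.t = u' := by
    rcases h2 with k | k
    · rw [← k, Nat.mod_eq_of_lt h1]
    · rw [← k, Nat.add_mod_right, Nat.mod_eq_of_lt h1]
  have := h.2.1
  exact ⟨h1, by omega, eqv.trans (eqv.sub h.2.2 (h.2.2.1 ▸ hm))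
    (e ▸ eqv.pan_sub c U lev ang h.1 h.2.1 hm)⟩

theorem Bw.sub (h : Bw c U lev ang p u n) (a m : ℕ) {u' : ℕ} (hm : a + m ≤ n) (h1 : u' < c.t)
    (h2 : u' + a + m = u + n ∨ u' + a + m + c.t = u + n) : Bw c U lev ang (p.sub a m) u' m := by
  have k := ((fw (U := U) (lev := lev) (ang := ang) h.1 h.2.1).sub (n - (a + m)) m (by omega) h1
    (by omega)).rev
  exact k.of (eqv.trans (eqv.sub h.2.2 (h.2.2.1 ▸ hm)) (eqv.rev_sub (fun _ => kle) hm))

theorem Fw.n_eq (h : Fw c U lev ang p u n) : p.n = n := h.2.2.1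
theorem Bw.n_eq (h : Bw c U lev ang p u n) : p.n = n := h.2.2.1

theorem Fw.mem (h : Fw c U lev ang p u n) : v ∈ p.P ↔ v ∈ U \ c.I ∧
    ang v < 2 * c.t ∧ ((2 * u ≤ ang v ∧ ang v ≤ 2 * (u + n)) ∨ ang v + 2 * c.t ≤ 2 * (u + n)) :=
  h.2.2.2.2.1 ▸ geo.mem h.1 h.2.1

theorem Bw.mem (h : Bw c U lev ang p u n) : v ∈ p.P ↔ v ∈ U \ c.I ∧
    ang v < 2 * c.t ∧ ((2 * u ≤ ang v ∧ ang v ≤ 2 * (u + n)) ∨ ang v + 2 * c.t ≤ 2 * (u + n)) :=
  h.rev.mem

theorem Fw.kap (h : Fw c U lev ang p u n) (hv : v ∈ p.P) :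
    (2 * u ≤ ang v ∧ p.κ v + 2 * u = ang v) ∨
      (ang v < 2 * u ∧ p.κ v + 2 * u = ang v + 2 * c.t) := by
  rw [(h.2.2.2.2.2.1 v hv).1]
  exact geo.kap h.1 (h.mem.1 hv).2.1

theorem Bw.kap (h : Bw c U lev ang p u n) (hv : v ∈ p.P) :
    (2 * u ≤ ang v ∧ p.κ v + ang v = 2 * (u + n)) ∨
      (ang v < 2 * u ∧ p.κ v + ang v + 2 * c.t = 2 * (u + n)) := by
  rw [(h.2.2.2.2.2.1 v hv).1]
  have k := h.mem.1 hv
  have := geo.kap (U := U) (lev := lev) (n := n) h.1 k.2.1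
  have := h.2.1
  change (_ ∧ 2 * n - (c.pan U lev ang u n).κ v + _ = _) ∨
    (_ ∧ 2 * n - (c.pan U lev ang u n).κ v + _ + _ = _)
  omega

theorem Fw.up (h : Fw c U lev ang p u n) {e i : ℕ} (l : ℕ) (he : e ≤ n) (h1 : i < c.t)
    (h2 : i = u + e ∨ i + c.t = u + e) : p.up l e = c.up l i ∧ p.o e = c.o i ∧ p.C l e = c.C l i := by
  have k : (u + e) % c.t = i := by
    rcases h2 with k | k
    · rw [← k, Nat.mod_eq_of_lt h1]
    · rw [← k, Nat.add_mod_right, Nat.mod_eq_of_lt h1]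
  have he' : e ≤ p.n := h.n_eq ▸ he
  rw [eqv.up h.2.2 he', (h.2.2.2.2.2.2.1 e he').2.2, (h.2.2.2.2.2.2.1 e he').1, ← k]
  exact ⟨rfl, rfl, rfl⟩

theorem Bw.up (h : Bw c U lev ang p u n) {e i : ℕ} (l : ℕ) (he : e ≤ n) (h1 : i < c.t)
    (h2 : i + e = u + n ∨ i + e + c.t = u + n) :
    p.up l e = c.up l i ∧ p.o e = c.o i ∧ p.C l e = c.C l i := by
  have := h.rev.up (e := n - e) l (by omega) h1 (by omega)
  have k : p.n - (n - e) = e := by rw [h.n_eq]; omega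
  change p.up l (p.n - (n - e)) = _ ∧ p.o (p.n - (n - e)) = _ ∧ p.C l (p.n - (n - e)) = _ at this
  rwa [k] at this

theorem Fw.ring (h : Fw c U lev ang p u n) (l : ℕ) : p.ring l ⊆ c.ring l := by
  rw [eqv.ring h.2.2]
  exact fun _ ⟨_, _, k⟩ => ⟨_, Nat.mod_lt _ (Nat.zero_lt_of_lt h.1), k⟩

theorem Bw.ring (h : Bw c U lev ang p u n) (l : ℕ) : p.ring l ⊆ c.ring l :=
  pan.rev_ring p l ▸ h.rev.ring l

theorem Fw.cols (h : Fw c U lev ang p u n) : p.cols ⊆ c.cols := by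
  rw [eqv.cols h.2.2]
  exact fun _ ⟨_, _, k⟩ => ⟨_, Nat.mod_lt _ (Nat.zero_lt_of_lt h.1), k⟩

theorem Bw.cols (h : Bw c U lev ang p u n) : p.cols ⊆ c.cols :=
  (pan.rev_cols p).trans h.rev.cols

theorem Fw.ring' (h : Fw c U lev ang p u n) (C : Crd H U Ω c lev ang) {l : ℕ} (hl : l ≤ c.s)
    (hv : v ∈ p.P) (hr : v ∈ c.ring l) : v ∈ p.ring l := by
  obtain ⟨i, hi, k⟩ := hr
  obtain ⟨m1, -, m3⟩ := h.mem.1 hv
  have a := (C.col v m1 i hi).2 (capi.C_sub_up (Nat.zero_le _) hl k)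
  have := h.1
  have := h.2.1
  by_cases q : u ≤ i
  · exact ⟨i - u, by rw [h.n_eq]; omega,
      (h.up (e := i - u) l (by omega) hi (by omega)).2.2 ▸ k⟩
  · exact ⟨i + c.t - u, by rw [h.n_eq]; omega,
      (h.up (e := i + c.t - u) l (by omega) hi (by omega)).2.2 ▸ k⟩

theorem Bw.ring' (h : Bw c U lev ang p u n) (C : Crd H U Ω c lev ang) {l : ℕ} (hl : l ≤ c.s)
    (hv : v ∈ p.P) (hr : v ∈ c.ring l) : v ∈ p.ring l :=
  pan.rev_ring p l ▸ h.rev.ring' C hl hv hr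

/-- without junk every vertex outside the hub has a proper angle -/
theorem nojunk (S : Col H U Ω c) (C : Crd H U Ω c lev ang) (hU : U = lk H U (ls Ω))
    (hv : v ∈ U \ c.I) : ang v < 2 * c.t := by
  obtain ⟨-, a, ha, aU, l⟩ : v ∈ lk H U (ls Ω) := hU ▸ hv.1
  refine (C.junk v hv).2 ?_
  induction l with
  | refl => exact capi.lk_self (Or.inl ha) hv
  | @tail x y _ e ih =>
    by_cases k : x ∈ c.I
    · obtain ⟨i, hi, q⟩ := (S.sat x k y e.2.2).resolve_left hv.2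
      exact capi.lk_self (Or.inr ⟨i, hi, capi.C_sub_up le_rfl (Nat.zero_le _) q⟩) hv
    · exact capi.lk_closed (ih ⟨e.1, k⟩) hv e.2.2

theorem lin_mem (h : Pan H U I p) (hv : v ∈ p.lin 0 p.n) : v ∈ p.P ∧ p.lev v = p.s := by
  rcases pan.mem_lin.1 hv with ⟨e, he, k⟩ | ⟨e, he, k⟩
  · rw [Nat.zero_add] at k
    exact ⟨((h.col e he _).1 (k ▸ out.o_col h he)).1,
      (h.lam e he).2.2.2.2 v (k ▸ (h.lam e he).2.2.1)⟩
  · rw [Nat.zero_add] at k
    exact ⟨(h.seg e he v k).1, (h.seg e he v k).2.1⟩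

theorem o_lin {e : ℕ} (he : e ≤ n) : p.o e ∈ p.lin 0 n :=
  pan.mem_lin.2 (Or.inl ⟨e, he, by rw [Nat.zero_add]⟩)

theorem o_sub {L : List ℕ} (h : L.Pairwise (· < ·)) (k : ∀ i ∈ L, i ≤ n) :
    List.Sublist (L.map p.o) (p.lin 0 n) := by
  have a : ∀ n, List.Sublist ((List.range (n + 1)).map p.o) (p.lin 0 n) := by
    intro n
    induction n with
    | zero => simp [PD.lin]
    | succ n ih =>
      rw [List.range_succ, List.map_append, pan.lin_succ, Nat.zero_add, Nat.zero_add]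
      exact (ih.trans (List.sublist_append_left _ _)).append (List.Sublist.refl _)
  refine List.Sublist.trans (List.Sublist.map _ ?_) (a n)
  exact List.sublist_of_subperm_of_pairwise
    (List.subperm_of_subset (h.imp ne_of_lt) fun i hi => List.mem_range.2 (Nat.lt_succ_of_le (k i hi)))
    h List.pairwise_lt_range

/-- two disjoint sets with alternating ends among the columns of a panel -/
theorem cr_of_xs {a b a' b' : ℕ} {P Q : Set V} (T : Two H U P Q) (x : Xs a b a' b')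
    (ne : a ≠ b' ∧ b ≠ a' ∧ a ≠ a' ∧ b ≠ b') (le : a ≤ n ∧ b ≤ n ∧ a' ≤ n ∧ b' ≤ n)
    (h1 : p.o a ∈ P) (h2 : p.o b ∈ P) (h3 : p.o a' ∈ Q) (h4 : p.o b' ∈ Q) :
    Cr H U (p.lin 0 n) := by
  have key : ∀ {i j k l : ℕ} {P Q : Set V}, Two H U P Q → i < j → j < k → k < l → l ≤ n →
      p.o i ∈ P → p.o k ∈ P → p.o j ∈ Q → p.o l ∈ Q → Cr H U (p.lin 0 n) := by
    intro i j k l P Q T a b c d e f g h
    refine ⟨_, _, _, _, o_sub (L := [i, j, k, l]) ?_ ?_, P, Q, T, e, f, g, h⟩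
    · simp; omega
    · simp; omega
  have T' : Two H U Q P := ⟨T.sq, T.sp, T.cq, T.cp, T.dis.symm⟩
  have m : ∀ {i j : ℕ} {P : Set V}, p.o i ∈ P → p.o j ∈ P → p.o (min i j) ∈ P ∧ p.o (max i j) ∈ P := by
    intro i j P a b
    rcases le_total i j with k | k
    · rw [min_eq_left k, max_eq_right k]; exact ⟨a, b⟩
    · rw [min_eq_right k, max_eq_left k]; exact ⟨b, a⟩
  unfold Xs fb.Btw at x
  by_cases k : min a b < min a' b'
  · exact key T k (by omega) (by omega) (by omega) (m h1 h2).1 (m h1 h2).2 (m h3 h4).1 (m h3 h4).2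
  · exact key T' (show min a' b' < min a b by omega) (by omega) (by omega) (by omega)
      (m h3 h4).1 (m h3 h4).2 (m h1 h2).1 (m h1 h2).2

/-! words -/

/-- the letters from column `u` to column `u + m` -/
def wd (c : CD V) (u m : ℕ) : List V := arc c.o c.seg c.t u m

/-- the letters strictly between column `u` and column `u + K + 3` -/
def gp (c : CD V) (u K : ℕ) : List V :=
  c.seg (u % c.t) ++ wd c (u + 1) (K + 1) ++ c.seg ((u + K + 2) % c.t)

theorem wd_mod (u m : ℕ) : wd c (u + c.t) m = wd c u m := by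
  simp only [wd, arc, Nat.add_right_comm u c.t, Nat.add_mod_right]

theorem gp_mod (u K : ℕ) : gp c (u + c.t) K = gp c u K := by
  simp only [gp, Nat.add_right_comm u c.t, Nat.add_right_comm (u + K) c.t, Nat.add_mod_right, wd_mod]

theorem pan_lin (a m : ℕ) : (c.pan U lev ang u n).lin a m = wd c (u + a) m := by
  simp [PD.lin, CD.pan, wd, arc, add_assoc]

theorem Fw.lin (h : Fw c U lev ang p u n) : p.lin 0 p.n = wd c u n := by
  rw [eqv.lin h.2.2 0 _ (by omega), pan_lin, h.n_eq, Nat.add_zero]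

theorem Bw.lin (h : Bw c U lev ang p u n) : p.lin 0 p.n = (wd c u n).reverse := by
  rw [← h.rev.lin, pan.lin_rev p 0 p.rev.n (by simp [PD.rev])]
  simp [PD.rev]

theorem wd_add (u a b : ℕ) :
    wd c u (a + 1 + b) = wd c u a ++ c.seg ((u + a) % c.t) ++ wd c (u + a + 1) b := by
  have := eqv.lin_add (c.pan ∅ (fun _ => 0) (fun _ => 0) 0 0) u a b
  simp only [pan_lin, Nat.zero_add] at this
  simpa only [CD.pan, Nat.zero_add] using this

theorem wd_gp (u a K b : ℕ) :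
    wd c u (a + K + 3 + b) = wd c u a ++ gp c (u + a) K ++ wd c (u + a + K + 3) b := by
  rw [show a + K + 3 + b = a + 1 + (K + 1 + 1 + b) by omega, wd_add, wd_add, gp,
    show u + a + 1 + (K + 1) = u + a + K + 2 by omega]
  simp only [List.append_assoc]

theorem cyc_one {K : ℕ} (hu : u < c.t) (h : n + K + 3 = c.t) :
    List.IsRotated (cyc c.o c.seg c.t) (wd c u n ++ gp c (u + n) K) := by
  have := eqv.rot c ∅ (fun _ => 0) (fun _ => 0) hu
  rw [pan_lin, show c.t - 1 = n + 1 + (K + 1) by omega, wd_add, Nat.add_zero,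
    show u + (n + 1 + (K + 1)) = u + n + K + 2 by omega] at this
  simpa only [gp, List.append_assoc] using this

theorem Fw.gap (h : Fw c U lev ang p u n) (σ : SD V) (hn : n = 2 * σ.w + σ.K + 3) :
    σ.gap p = gp c (u + σ.w) σ.K := by
  have e := h.n_eq
  rw [SD.gap, eqv.lin h.2.2 _ _ (by omega), pan_lin, h.2.2.2.2.2.2.2 _ (by omega),
    h.2.2.2.2.2.2.2 _ (by omega)]
  simp only [gp, CD.pan, add_assoc]

theorem Bw.gap (h : Bw c U lev ang p u n) (σ : SD V) (hn : n = 2 * σ.w + σ.K + 3) :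
    (σ.gap p).reverse = gp c (u + σ.w) σ.K := by
  have e := h.n_eq
  rw [← h.rev.gap σ hn, SD.gap, SD.gap, pan.lin_rev p _ _ (by omega)]
  simp only [PD.rev, List.reverse_append, List.append_assoc, e]
  rw [show n - 1 - σ.w = σ.w + σ.K + 2 by omega, show n - (σ.w + 1 + (σ.K + 1)) = σ.w + 1 by omega,
    show n - 1 - (σ.w + σ.K + 2) = σ.w by omega]

/-! the cut strip -/

variable {D Z : Set V} {F : FD V} {pos : V → ℕ} {σ : SD V}

theorem row_conn (h : Bas H U I F) {e : ℕ} (he : e ≤ F.A.n) : Conn H (F.row e) := by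
  obtain ⟨-, j1, j2, j3⟩ := h.j e he
  exact conn_union_touch (conn_union_touch (out.col_conn h.a he) j1
    (j2.symm.mono (pan.cell_col (Nat.zero_le _)) subset_rfl)) (out.col_conn h.b (h.n ▸ he))
    (j3.mono subset_union_right (pan.cell_col (Nat.zero_le _)))

theorem feet_dom (h : Bas H U I F) : F.feet ⊆ F.A.P ∪ F.B.P := by
  rintro v (⟨e, he, k⟩ | ⟨e, he, k⟩)
  · exact Or.inl ((h.a.col e he v).1 (pan.cell_col (Nat.zero_le _) k)).1
  · exact Or.inr ((h.b.col e he v).1 (pan.cell_col (Nat.zero_le _) k)).1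

theorem win_dom (h : Bas H U I F) {e e' : ℕ} (hv : v ∈ F.win Z pos e e') : v ∈ F.dom Z :=
  hv.1.elim (fun k => Or.inl (Or.inl k)) fun k =>
    (feet_dom h k).elim (fun k => Or.inl (Or.inr k)) Or.inr

theorem win_L (h : Bas H U I F) (s : Seam H U D F Z pos σ) {e e' : ℕ} (he : e' ≤ σ.w)
    (hv : v ∈ F.win Z pos e e') : v ∈ σ.WL ∧ 2 * e < σ.pL v ∧ σ.pL v < 2 * e' := by
  have := hv.2
  have k := s.pl.2 v (win_dom h hv) (by omega)
  rw [s.pl.1 v k]
  exact ⟨k, by omega⟩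

theorem win_R (h : Bas H U I F) (s : Seam H U D F Z pos σ) {e e' : ℕ} (he : e' ≤ σ.w) (l : e ≤ e')
    (hv : v ∈ F.win Z pos (F.A.n - e') (F.A.n - e)) :
    v ∈ σ.WR ∧ 2 * e < σ.pR v ∧ σ.pR v < 2 * e' := by
  have := hv.2
  have := s.n
  have k := s.pr.2 v (win_dom h hv) (by omega)
  rw [s.pr.1 v k]
  exact ⟨k, by omega⟩

theorem mid_top (s : Seam H U D F Z pos σ) (hv : v ∈ F.dom Z ∩ σ.U') (h1 : 2 * σ.w < pos v)
    (h2 : pos v < 2 * (σ.w + σ.K + 3)) :
    (v ∈ σ.WL ∧ 2 * σ.w ≤ σ.pL v) ∨ (v ∈ σ.WR ∧ 2 * σ.w ≤ σ.pR v) := by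
  have := s.n
  rw [← s.w.2] at hv
  exact hv.imp (fun k => ⟨k, by rw [s.pl.1 v k]; omega⟩) fun k => ⟨k, by rw [s.pr.1 v k]; omega⟩

theorem mid_off {H0 : SimpleGraph V} {W : Set V} {mid : List V} (h : Half H0 H U F W pos mid)
    (hA : ∀ v ∈ F.A.P, F.A.κ v ≤ 2 * F.A.n) (hB : ∀ v ∈ F.B.P, F.B.κ v ≤ 2 * F.A.n)
    (hv : v ∈ mid) : v ∉ F.A.P ∪ F.B.P := by
  have := (h.nd.2 v hv).2
  rintro (k | k)
  · have := (h.kap.1 v k).2
    have := hA v k
    omega
  · have := (h.kap.2 v k).2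
    have := hB v k
    omega

/-- the two arcs and the two middle words have no common letter -/
theorem nodup (s : Seam H U D F Z pos σ) {R : List V} (hR : R.Nodup)
    (k : ∀ v ∈ R, (v ∈ σ.WL → v ∈ (σ.FL F).A.P ∪ (σ.FL F).B.P) ∧
      (v ∈ σ.WR → v ∈ (σ.FR F).A.P ∪ (σ.FR F).B.P)) : (R ++ σ.midL F ++ σ.midR F).Nodup := by
  have l := fun v => mid_off (v := v) s.hl (fun v hv => by
    have := hv.2.2
    change F.A.κ v - 2 * 0 ≤ 2 * σ.w
    omega) fun v hv => by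
    have := hv.2.2
    change F.B.κ v - 2 * 0 ≤ 2 * σ.w
    omega
  have r := fun v => mid_off (v := v) s.hr (fun v _ => Nat.sub_le _ _) fun v _ => Nat.sub_le _ _
  refine List.nodup_append.2 ⟨List.nodup_append.2 ⟨hR, s.hl.nd.1, ?_⟩, s.hr.nd.1, ?_⟩
  · rintro v a _ b rfl
    exact l v b ((k v a).1 (s.hl.nd.2 v b).1)
  · rintro v a _ b rfl
    rcases List.mem_append.1 a with a | a
    · exact r v b ((k v a).2 (s.hr.nd.2 v b).1)
    · exact disjoint_left.1 s.w.1 (s.hl.nd.2 v a).1 (s.hr.nd.2 v b).1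

end geo

end Pool.Agent.MP_9d78a0_co.st

end MrgPart1

-- ======== part 2: formerly Pool.Agent.MP_9d78a0_co.st.Plan
section MrgPart2

/-! A planar band is cut out of a collar. -/

set_option autoImplicit false

namespace Pool.Agent.MP_9d78a0_co.st

open Set Function fb geo

namespace plan

variable {V : Type}

/-- one arc and one half -/
def mk (w s : ℕ) (p : PD V) (J : ℕ → Set V) (W : Set V) (pos : V → ℕ) (mid : List V) : HD V :=
  ⟨1, w, s, fun _ => p, fun _ => J, fun _ => W, fun _ => pos, fun _ => mid⟩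

variable {w s : ℕ} {p : PD V} {J : ℕ → Set V} {W : Set V} {pos : V → ℕ} {mid : List V} {v : V}

theorem mk_list : (mk w s p J W pos mid).list = p.lin 0 p.n ++ mid := by simp [mk, HD.list]

theorem mk_X {l g : ℕ} : v ∈ (mk w s p J W pos mid).X l g ↔
    (v ∈ p.P ∧ l ≤ p.lev v) ∨ (v ∈ W ∧ 2 * g ≤ pos v) := by simp [mk, HD.X]

theorem mk_den {G : SimpleGraph V} {L : ℕ} {S : Set V} (T : ℕ → Set V)
    (h : ∀ e, e + L ≤ w → Touch G S (T e) ∧ ∀ v ∈ T e,
      (v ∈ W ∧ 2 * e < pos v ∧ pos v < 2 * (e + L)) ∧ (v ∈ p.P → v ∈ p.ring 0)) :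
    (mk w s p J W pos mid).Den G L S := fun _ _ e he =>
  (h e he).1.mono subset_rfl fun v hv =>
    have k := (h e he).2 v hv
    ⟨k.1.1, k.1.2.1, k.1.2.2, fun _ _ => k.2⟩

theorem mk_pre {H H' : SimpleGraph V} {U U' I : Set V} {F : FD V} (h1 : H' ≤ H) (h2 : Tight H' U')
    (h3 : Pan H U I p) (h4 : p.s = s) (h5 : 2 * w + 2 ≤ p.n)
    (h6 : ∀ v ∈ p.P, 1 ≤ p.lev v → v ∈ U' ∧ ∀ y ∈ p.P, 1 ≤ p.lev y → H.Adj v y → H'.Adj v y)
    (h7 : Half H H' U' F W pos mid) (h8 : F.Eqv ⟨p.sub (p.n - w) w, (p.sub 0 w).rev, J⟩)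
    (h9 : W ∩ p.P ⊆ F.A.P ∪ F.B.P) : Pre H U H' U' (mk w s p J W pos mid) :=
  ⟨Or.inl rfl, h1, h2, fun _ _ => ⟨⟨I, h3⟩, h4, h5⟩, fun _ _ => h6,
    fun i hi j hj ne => absurd ((Nat.lt_one_iff.1 hi).trans (Nat.lt_one_iff.1 hj).symm) ne,
    fun _ _ => eqv.half h7 h8, fun _ _ _ _ => by
      rw [h8.1.2.2.1, h8.2.1.2.2.1] at h9
      exact h9⟩

theorem cr_app {H : SimpleGraph V} {U : Set V} {A B : List V} (h : Cr H U A) : Cr H U (A ++ B) := by
  obtain ⟨a, b, c, d, k, r⟩ := h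
  exact ⟨a, b, c, d, k.trans (List.sublist_append_left _ _), r⟩

/-- a chord prolonged to its letters -/
def ch (c : CD V) (x y : ℕ → ℕ) (J : ℕ → Set V) (e : ℕ) : Set V :=
  c.col (x e) ∪ J e ∪ c.col (y e)

variable {H : SimpleGraph V} {U : Set V} {Ω : List V} {c : CD V} {M t uA uB m : ℕ} {up : Bool}
  {x y : ℕ → ℕ}

theorem ch_ok (F : FCol H U Ω c) (B : Bnd H c M t uA uB up m x y J) {e : ℕ} (he : e < m) :
    ch c x y J e ⊆ U ∧ Conn H (ch c x y J e) ∧ c.o (x e) ∈ ch c x y J e ∧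
      c.o (y e) ∈ ch c x y J e := by
  obtain ⟨a1, a2, a3, a4, -, a6, a7⟩ := B.ch e he
  refine ⟨union_subset (union_subset ((capi.up_sub F a1).trans sdiff_subset) (a3.trans F.hub.1))
    ((capi.up_sub F a2).trans sdiff_subset), ?_, Or.inl (Or.inl (capi.o_up F a1)),
    Or.inr (capi.o_up F a2)⟩
  exact conn_union_touch (conn_union_touch (capi.conn_col F a1) a4
    (a6.symm.mono (capi.C_sub_up le_rfl (Nat.zero_le _)) subset_rfl)) (capi.conn_col F a2)
    (a7.mono subset_union_right (capi.C_sub_up le_rfl (Nat.zero_le _)))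

theorem ch_dis (F : FCol H U Ω c) (B : Bnd H c M t uA uB up m x y J) {e e' : ℕ} (he : e < m)
    (he' : e' < m) (ne : e ≠ e') : Disjoint (ch c x y J e) (ch c x y J e') := by
  obtain ⟨a1, a2, a3, -⟩ := B.ch e he
  obtain ⟨b1, b2, b3, -⟩ := B.ch e' he'
  obtain ⟨d1, d2⟩ := B.dst e he e' he'
  have d3 := (B.dst e' he' e he).1
  refine disjoint_left.2 ?_
  rintro v ((a | a) | a) ((b | b) | b)
  · exact disjoint_left.1 (capi.col_dis F a1 b1 (d2 ne).1) a b
  · exact (capi.up_sub F a1 a).2 (b3 b)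
  · exact disjoint_left.1 (capi.col_dis F a1 b2 d1) a b
  · exact (capi.up_sub F b1 b).2 (a3 a)
  · exact disjoint_left.1 (B.dis e he e' he' ne) a b
  · exact (capi.up_sub F b2 b).2 (a3 a)
  · exact disjoint_left.1 (capi.col_dis F a2 b1 d3.symm) a b
  · exact (capi.up_sub F a2 a).2 (b3 b)
  · exact disjoint_left.1 (capi.col_dis F a2 b2 (d2 ne).2) a b

/-- the index of column `z` in a panel that starts at column `u` -/
def rt (t u z : ℕ) : ℕ := if u ≤ z then z - u else z + t - u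

theorem rt_spec {t u z : ℕ} (hu : u < t) (_ : z < t) :
    (u ≤ z ∧ z = u + rt t u z) ∨ (z < u ∧ z + t = u + rt t u z) := by
  unfold rt
  split_ifs <;> omega

theorem rt_btw {t u a b z : ℕ} (hu : u < t) (ha : a < t) (hb : b < t) (hz : z < t) (h1 : z ≠ a)
    (h2 : z ≠ b) : Btw (rt t u a) (rt t u b) (rt t u z) ↔ (Btw a b z ↔ ((u ≤ a) ↔ (u ≤ b))) := by
  have := rt_spec hu ha
  have := rt_spec hu hb
  have := rt_spec hu hz
  unfold fb.Btw
  omega

theorem rt_ne {t u a b : ℕ} (hu : u < t) (ha : a < t) (hb : b < t) (h : a ≠ b) :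
    rt t u a ≠ rt t u b := by
  have := rt_spec hu ha
  have := rt_spec hu hb
  omega

theorem rt_o {lev ang : V → ℕ} {u k z : ℕ} (h : Fw c U lev ang p u k) (hz : z < c.t)
    (hk : rt c.t u z ≤ k) : p.o (rt c.t u z) = c.o z :=
  (h.up 0 hk hz ((rt_spec h.1 hz).imp And.right And.right)).2.1

/-- two crossing chords with their ends in a panel -/
theorem cross (F : FCol H U Ω c) (B : Bnd H c M t uA uB up m x y J) {lev ang : V → ℕ} {u k : ℕ}
    (h : Fw c U lev ang p u k) {H' : SimpleGraph V} {U' : Set V} {i j : ℕ} (hi : i < m)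
    (hj : j < m) (ne : i ≠ j) (xs : Xs (x i) (y i) (x j) (y j))
    (a : (ch c x y J i ⊆ U' ∧ Conn H' (ch c x y J i)) ∧ rt c.t u (x i) ≤ k ∧ rt c.t u (y i) ≤ k)
    (b : (ch c x y J j ⊆ U' ∧ Conn H' (ch c x y J j)) ∧ rt c.t u (x j) ≤ k ∧ rt c.t u (y j) ≤ k) :
    Cr H' U' (p.lin 0 p.n ++ mid) := by
  obtain ⟨x1, y1, -⟩ := B.ch i hi
  obtain ⟨x2, y2, -⟩ := B.ch j hj
  obtain ⟨d1, d2⟩ := B.dst i hi j hj
  obtain ⟨d3, d4⟩ := d2 ne
  have d5 := (B.dst j hj i hi).1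
  rw [h.n_eq]
  refine cr_app (cr_of_xs ⟨a.1.1, b.1.1, a.1.2, b.1.2, ch_dis F B hi hj ne⟩ ?_
    ⟨rt_ne h.1 x1 y2 d1, rt_ne h.1 y1 x2 d5.symm, rt_ne h.1 x1 x2 d3, rt_ne h.1 y1 y2 d4⟩
    ⟨a.2.1, a.2.2, b.2.1, b.2.2⟩ (rt_o h x1 a.2.1 ▸ (ch_ok F B hi).2.2.1)
    (rt_o h y1 a.2.2 ▸ (ch_ok F B hi).2.2.2) (rt_o h x2 b.2.1 ▸ (ch_ok F B hj).2.2.1)
    (rt_o h y2 b.2.2 ▸ (ch_ok F B hj).2.2.2))
  unfold Xs at xs ⊢
  rw [rt_btw h.1 x1 y1 x2 d3.symm d5, rt_btw h.1 x1 y1 y2 d1.symm d4.symm]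
  by_cases q : u ≤ x i ↔ u ≤ y i
  · simpa only [q, iff_true] using xs
  · simpa only [q, iff_false, not_not, and_comm, or_comm] using xs

end plan

open plan

theorem planS (hP : PruneS) (_ : CrkS) (hI : InS) (hC : CrdS) (hN : PanS) (_ : EqvS) (hD : DoneS)
    (hA : AsmS) (hS : StripS) (hF : FrmS) (hR : ArcS) : PlanS := by
  classical
  intro h K b Φ
  obtain ⟨N, M0, hS⟩ := hS h b K Φ
  refine ⟨N + 4, M0, fun V _ G H n Ur U ob Ω c π M t uA uB m x y J E S hU s3 hM ht B hE => ?_⟩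
  obtain ⟨lev, ang, C⟩ := hC V H U Ω c S.col
  obtain ⟨a, b', O, ft, cl, fr, sk⟩ :=
    (hF V G H h n Ur U ob M t false J ht).1 Ω c π lev ang uA uB m x y S C s3 B
  obtain ⟨f, L, D, Z, pos, F, σ, e1, rfl, e3, eq, cD, sD, st, se, den, pend⟩ :=
    hS V G H n Ur U c.I ob _ a b' O ft cl E fr hM
  clear hS fr
  have FC := S.col.toFCol
  obtain ⟨g1, g2⟩ := B.gap
  have hn := se.n
  change f + F.A.n ≤ M at e3
  obtain ⟨a0, ha0⟩ : ∃ a0, a0 = uA + f := ⟨_, rfl⟩
  obtain ⟨b0, hb0⟩ : ∃ b0, b0 + f + F.A.n = uB + M := ⟨uB + M - f - F.A.n, by omega⟩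
  obtain ⟨n0, hn0⟩ : ∃ n0, n0 + a0 + σ.K + 3 = b0 := ⟨b0 - a0 - σ.K - 3, by omega⟩
  obtain ⟨n1, hn1⟩ : ∃ n1, n1 + b0 + σ.K + 3 = c.t + a0 := ⟨c.t + a0 - b0 - σ.K - 3, by omega⟩
  obtain ⟨u0, hu0⟩ : ∃ u0, u0 = a0 + σ.w + σ.K + 3 := ⟨_, rfl⟩
  obtain ⟨u1, hu1⟩ : ∃ u1, u1 = b0 + σ.w + σ.K + 3 := ⟨_, rfl⟩
  have fA : Fw c U lev ang F.A a0 F.A.n :=
    ((fw (u := uA) (n := M) (by omega) (by omega)).sub f _ e3 (by omega) (Or.inl ha0)).of eq.1
  have fB : Bw c U lev ang F.B b0 F.A.n :=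
    ((fw (u := uB) (n := M) (by omega) (by omega)).rev.sub f _ e3 (by omega)
      (Or.inl hb0)).of eq.2.1
  have fJ : ∀ e ≤ F.A.n, F.J e = J (f + e) := eq.2.2
  clear eq
  have f0 : Fw c U lev ang (c.pan U lev ang u0 n0) u0 n0 := fw (by omega) (by omega)
  have f1 : Fw c U lev ang (c.pan U lev ang u1 n1) u1 n1 := fw (by omega) (by omega)
  have p0 := (hN V H U c.I).1 Ω c lev ang u0 n0 S.col C (by omega) (by omega) subset_rfl
    fun _ _ _ k _ => k
  have p1 := (hN V H U c.I).1 Ω c lev ang u1 n1 S.col C (by omega) (by omega) subset_rfl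
    fun _ _ _ k _ => k
  have l0 : (c.pan U lev ang u0 n0).lev = lev ∧ (c.pan U lev ang u0 n0).s = c.s := ⟨rfl, rfl⟩
  have l1 : (c.pan U lev ang u1 n1).lev = lev ∧ (c.pan U lev ang u1 n1).s = c.s := ⟨rfl, rfl⟩
  generalize c.pan U lev ang u0 n0 = q0 at f0 p0 l0
  generalize c.pan U lev ang u1 n1 = q1 at f1 p1 l1
  have m0 := f0.n_eq
  have m1 := f1.n_eq
  have fLA : Fw c U lev ang (σ.FL F).A a0 σ.w := fA.sub 0 _ (by omega) (by omega) (by omega)
  have fLB : Bw c U lev ang (σ.FL F).B u1 σ.w := fB.sub 0 _ (by omega) (by omega) (by omega)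
  have fRA : Fw c U lev ang (σ.FR F).A b0 σ.w :=
    (fB.sub (σ.w + σ.K + 3) _ (by omega) (by omega) (by omega)).rev
  have fRB : Bw c U lev ang (σ.FR F).B u0 σ.w :=
    (fA.sub (σ.w + σ.K + 3) _ (by omega) (by omega) (by omega)).rev
  obtain ⟨⟨r1, r2, r3, r4, r5⟩, r6, r7, r8⟩ := hR V H U c.I D F Z pos σ st se
  have sD' : D ⊆ c.I ∪ c.ring 0 := sD.trans (union_subset subset_union_left sk)
  have core : c.I ∪ c.cols ⊆ U ∩ Ur := fun v hv =>
    have k : v ∈ c.Core H U := hv.elim (fun k => Kd.hub_core hI FC k) Or.inr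
    ⟨Kd.core_sub FC k, S.core k⟩
  have rc : c.ring 0 ⊆ c.cols := fun v ⟨i, hi, k⟩ =>
    ⟨i, hi, capi.C_sub_up le_rfl (Nat.zero_le _) k⟩
  have posA : ∀ v ∈ F.A.P, pos v + 2 * a0 = ang v ∧ pos v ≤ 2 * F.A.n := fun v hv => by
    have := fA.kap hv
    have := (fA.mem.1 hv).2
    have := st.kap.1 v hv
    omega
  have posB : ∀ v ∈ F.B.P, pos v + ang v = 2 * (b0 + F.A.n) ∧ pos v ≤ 2 * F.A.n := fun v hv => by
    have := fB.kap hv
    have := (fB.mem.1 hv).2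
    have := st.kap.2 v hv
    omega
  have arcs : ∀ {q : PD V} {u k : ℕ}, Fw c U lev ang q u k → q.lev = lev →
      (u = u0 ∧ k = n0) ∨ (u = u1 ∧ k = n1) → _ := fun {q u k} fq lq hq =>
    r8 q (fun v hv => (fq.mem.1 hv).1) (by
      rintro v ⟨h1, h2⟩
      obtain ⟨i, hi, k⟩ := (sD' h1).resolve_left (fq.mem.1 h2).1.2
      rw [lq]
      exact C.cell 0 (Nat.zero_le _) i hi v k) (by
      rintro v ⟨h1, (h2 | h2) | h2⟩
      · exact ((fq.mem.1 h1).1.2 (st.z.1 h2).1).elim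
      · have := posA v h2
        have := (fq.mem.1 h1).2
        omega
      · have := posB v h2
        have := (fq.mem.1 h1).2
        omega)
  obtain ⟨k0, wl0, wr0⟩ := arcs f0 l0.1 (Or.inl ⟨rfl, rfl⟩)
  obtain ⟨k1, wl1, wr1⟩ := arcs f1 l1.1 (Or.inr ⟨rfl, rfl⟩)
  have d01 : ∀ v ∈ q0.P, v ∉ q1.P := fun v a b => by
    have := (f0.mem.1 a).2
    have := (f1.mem.1 b).2
    omega
  have wd : σ.WL ∪ σ.WR ⊆ F.dom Z ∩ σ.U' := se.w.2.le
  have ring : ∀ {q : PD V} {u k e e' : ℕ}, Fw c U lev ang q u k → ∀ v ∈ F.win Z pos e e',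
      v ∈ q.P → v ∈ q.ring 0 := fun fq v hv k => fq.ring' C (Nat.zero_le _) k (by
    rcases hv.1 with z | z | z
    · exact ((fq.mem.1 k).1.2 (st.z.1 z).1).elim
    · exact fA.ring 0 z
    · exact fB.ring 0 z)
  have dens : ∀ T, F.Den G Z pos L T → ∀ i : Fin 2,
      (![mk σ.w c.s q0 (σ.FR F).J σ.WR σ.pR (σ.midR F),
        mk σ.w c.s q1 (σ.FL F).J σ.WL σ.pL (σ.midL F)] i).Den G L T := fun T hT =>
    Fin.forall_fin_two.2 ⟨mk_den (fun e => F.win Z pos (F.A.n - (e + L)) (F.A.n - e)) fun e he =>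
      ⟨by simpa only [show F.A.n - (e + L) + L = F.A.n - e by omega] using
        hT (F.A.n - (e + L)) (by omega),
        fun v hv => ⟨win_R st.bas se he (by omega) hv, ring f0 v hv⟩⟩,
      mk_den (fun e => F.win Z pos e (e + L)) fun e he =>
        ⟨hT e (by omega), fun v hv => ⟨win_L st.bas se he hv, ring f1 v hv⟩⟩⟩
  have row : ∀ r ≤ F.A.n, F.row r = ch c x y J (f + r) ∧ x (f + r) = a0 + r ∧
      y (f + r) + r = b0 + F.A.n ∧ f + r < m := fun r hr => by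
    obtain ⟨b1, b2⟩ := B.band.2 (f + r) (by omega)
    have := B.band.1
    simp only [Bool.false_eq_true, if_false] at b2
    refine ⟨?_, by omega, by omega, by omega⟩
    rw [FD.row, ch, PD.col, PD.col, (fA.up (i := x (f + r)) 0 hr (by omega) (by omega)).1,
      (fB.up (i := y (f + r)) 0 hr (by omega) (by omega)).1, fJ r hr]
    rfl
  have pm := fun i j => Kd.le_last S.mono (i := i) (j := j)
  refine ⟨L, D, σ.H', σ.U', ![mk σ.w c.s q0 (σ.FR F).J σ.WR σ.pR (σ.midR F),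
    mk σ.w c.s q1 (σ.FL F).J σ.WL σ.pL (σ.midL F)], ![uA + M + 1 - u0, c.t - t - u1],
    ![fun a => π (uA + M + 1 + a), fun a => π (c.t - t + a)],
    {v | ∃ i < σ.K, v ∈ F.row (σ.w + 2 + i)}, π 0, π (c.t - t - 1), e1, S.univ, S.le,
    Fin.forall_fin_two.2 ⟨⟨mk_pre r1 r2 p0 l0.2 (by omega) k0 se.hr ⟨?_, ?_, fun _ _ => rfl⟩ wr0,
      rfl, rfl, rfl⟩, mk_pre r1 r2 p1 l1.2 (by omega) k1 se.hl ⟨?_, ?_, fun _ _ => rfl⟩ wl1,
      rfl, rfl, rfl⟩, ?_, ⟨r3, ?_, Fin.forall_fin_two.2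
        ⟨fun v hv => (core (Or.inr (f0.cols hv))).2, fun v hv => (core (Or.inr (f1.cols hv))).2⟩⟩,
    ?_, ⟨FC.hub.2.1, subset_union_left.trans core, ?_⟩,
    ⟨sD'.trans ((union_subset_union_right _ rc).trans core), fun z hz => dens _ (den z hz)⟩,
    fun j hj => ?_, Fin.forall_fin_two.2 ⟨?_, ?_⟩, ⟨?_, ?_, le_rfl, (S.pos 0 (by omega)).2.1,
      pm _ _ (Nat.zero_le _) (by omega), pm _ _ (by omega) (by omega),
      S.mono _ _ (by omega) (by omega), pm _ _ (by omega) (by omega)⟩, ?_, ?_⟩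
  · exact fRA.eqv (f0.sub _ _ (by omega) (by omega) (by omega))
  · exact fRB.eqv (f0.sub 0 _ (by omega) (by omega) (by omega)).rev
  · exact fLA.eqv (f1.sub _ _ (by omega) (by omega) (by omega))
  · exact fLB.eqv (f1.sub 0 _ (by omega) (by omega) (by omega)).rev
  · refine disjoint_left.2 fun v a b => ?_
    rcases mk_X.1 a with ⟨a, -⟩ | ⟨a, -⟩ <;> rcases mk_X.1 b with ⟨b, -⟩ | ⟨b, -⟩
    · exact d01 v a b
    · have := (f0.mem.1 a).2
      rcases wl0 ⟨b, a⟩ with k | k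
      · have := (fLA.mem.1 k).2
        omega
      · have := (fLB.mem.1 k).2
        omega
    · have := (f1.mem.1 b).2
      rcases wr1 ⟨a, b⟩ with k | k
      · have := (fRA.mem.1 k).2
        omega
      · have := (fRB.mem.1 k).2
        omega
    · exact disjoint_left.1 se.w.1 b a
  · rintro v ⟨hv, no⟩
    by_cases k : v ∈ c.I
    · exact (core (Or.inl k)).2
    have vm : v ∈ U \ c.I := ⟨(r3 hv).1, k⟩
    by_cases k' : lev v < c.s
    · exact S.core (Or.inl ((C.inn _ le_rfl v vm).2 k'))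
    have an := nojunk S.col C hU vm
    refine (no ?_).elim
    by_cases i0 : v ∈ q0.P
    · exact Or.inl (mk_X.2 (Or.inl ⟨i0, l0.1 ▸ not_lt.1 k'⟩))
    by_cases i1 : v ∈ q1.P
    · exact Or.inr (mk_X.2 (Or.inl ⟨i1, l1.1 ▸ not_lt.1 k'⟩))
    rw [f0.mem] at i0
    rw [f1.mem] at i1
    simp only [vm, an, true_and] at i0 i1
    have : v ∈ F.dom Z ∧ 2 * σ.w < pos v ∧ pos v < 2 * (σ.w + σ.K + 3) := by
      by_cases q : ang v ≤ 2 * (a0 + F.A.n)
      · have k := fA.mem.2 ⟨vm, an, by omega⟩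
        have := posA v k
        exact ⟨Or.inl (Or.inr k), by omega⟩
      · have k := fB.mem.2 ⟨vm, an, by omega⟩
        have := posB v k
        exact ⟨Or.inr k, by omega⟩
    exact (mid_top se ⟨this.1, hv⟩ this.2.1 this.2.2).symm.imp (fun k => mk_X.2 (Or.inr k))
      fun k => mk_X.2 (Or.inr k)
  · refine fun v hv => r5 v ⟨hv.1, fun k => hv.2 (k.symm.imp (fun k => ?_) fun k => ?_)⟩
    · exact (mk_list ▸ List.mem_append_right _ k : v ∈ (mk _ _ _ _ _ _ _).list)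
    · exact (mk_list ▸ List.mem_append_right _ k : v ∈ (mk _ _ _ _ _ _ _).list)
  · obtain ⟨v, hv⟩ := (se.hr.j σ.w le_rfl).1.1
    have := (se.hr.row σ.w le_rfl v).1 (Or.inl (Or.inr hv))
    exact ⟨v, (st.bas.j (σ.w + σ.K + 3 + (σ.w - σ.w)) (by omega)).1 hv,
      mk_X.2 (Or.inr ⟨this.1, this.2.ge⟩)⟩
  · rcases pend j hj with k | k
    · exact Or.inl (dens _ k)
    obtain ⟨z, hz, v, hv, e⟩ := hE j hj
    by_cases vD : v ∈ D
    · exact Or.inr (Or.inl ⟨z, hz, v, vD, e⟩)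
    refine Or.inr (Or.inr ⟨z, hz, v, ?_, e⟩)
    have n0 : v ∉ q0.P := fun q => (f0.mem.1 q).1.2 hv
    have n1 : v ∉ q1.P := fun q => (f1.mem.1 q).1.2 hv
    suffices v ∈ σ.U' ∧ (v ∈ σ.WR → σ.pR v < 2) ∧ (v ∈ σ.WL → σ.pL v < 2) from
      ⟨⟨hv, this.1⟩, fun q => q.elim
        (fun q => (mk_X.1 q).elim (fun q => n0 q.1) fun q => absurd (this.2.1 q.1) (by omega))
        fun q => (mk_X.1 q).elim (fun q => n1 q.1) fun q => absurd (this.2.2 q.1) (by omega)⟩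
    by_cases vZ : v ∈ F.dom Z
    · have z' : v ∈ Z := by
        rcases vZ with (q | q) | q
        · exact q
        · exact ((st.bas.a.sub q).2 hv).elim
        · exact ((st.bas.b.sub q).2 hv).elim
      have := (st.rng v z').1
      have : pos v = 0 ∨ pos v = 2 * F.A.n := by
        by_contra q
        exact k ⟨z, hz, v, ⟨Or.inl z', by omega, by omega⟩, e⟩
      rcases this with q | q
      · have wl := se.pl.2 v vZ (by omega)
        exact ⟨(wd (Or.inl wl)).2, fun r => (disjoint_left.1 se.w.1 wl r).elim,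
          fun r => by rw [se.pl.1 v r]; omega⟩
      · have wr := se.pr.2 v vZ (by omega)
        exact ⟨(wd (Or.inr wr)).2, fun r => by rw [se.pr.1 v r]; omega,
          fun r => (disjoint_left.1 se.w.1 r wr).elim⟩
    · exact ⟨r4 ⟨FC.hub.1 hv, fun q => q.elim vD vZ⟩, fun r => (vZ (wd (Or.inr r)).1).elim,
        fun r => (vZ (wd (Or.inl r)).1).elim⟩
  · refine ⟨show σ.w ≤ uA + M + 1 - u0 by omega, show uA + M + 1 - u0 + t + σ.w ≤ q0.n by omega,
      fun a a' l k => S.mono _ _ (by omega) (by omega), fun a ha => ?_⟩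
    have := S.pos (uA + M + 1 + a) (by omega)
    exact ⟨(f0.up 0 (by change _ - _ + _ ≤ _; omega) (by omega)
      (by change _ = _ + (_ - _ + _) ∨ _; omega)).2.1.trans this.1, this.2⟩
  · refine ⟨show σ.w ≤ c.t - t - u1 by omega, show c.t - t - u1 + t + σ.w ≤ q1.n by omega,
      fun a a' l k => S.mono _ _ (by omega) (by omega), fun a ha => ?_⟩
    have := S.pos (c.t - t + a) (by omega)
    exact ⟨(f1.up 0 (by change _ - _ + _ ≤ _; omega) (by omega)
      (by change _ = _ + (_ - _ + _) ∨ _; omega)).2.1.trans this.1, this.2⟩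
  · rintro v ⟨i, hi, hv⟩
    refine ⟨core ?_, (se.rows _ (by omega) (by omega) hv).2⟩
    rcases hv with (k | k) | k
    · exact Or.inr (fA.cols ⟨_, by omega, k⟩)
    · exact Or.inl ((st.bas.j _ (by omega)).1 k)
    · exact Or.inr (fB.cols ⟨_, by rw [fB.n_eq]; omega, k⟩)
  · intro z z1 z2
    change π (uA + M + 1 + 0) ≤ z at z1
    change z ≤ π (uA + M + 1 + (t - 1)) at z2
    have rw := fun i (hi : i < σ.K) => row (σ.w + 2 + i) (by omega)
    have lt : ∀ i < σ.K, π (x (f + (σ.w + 2 + i))) < z ∧ z < π (y (f + (σ.w + 2 + i))) :=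
      fun i hi => have := (rw i hi).2
        ⟨(S.mono _ _ (by omega) (by omega)).trans_le z1,
          z2.trans_lt (S.mono _ _ (by omega) (by omega))⟩
    have mo : ∀ i j, i < j → j < σ.K → π (x (f + (σ.w + 2 + i))) < π (x (f + (σ.w + 2 + j))) ∧
        π (y (f + (σ.w + 2 + j))) < π (y (f + (σ.w + 2 + i))) := fun i j l hj =>
      have := (rw i (by omega)).2
      have := (rw j hj).2
      ⟨S.mono _ _ (by omega) (by omega), S.mono _ _ (by omega) (by omega)⟩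
    refine ⟨le_rfl, fun i => π (x (f + (σ.w + 2 + i))), fun i => π (y (f + (σ.w + 2 + i))),
      fun i => F.row (σ.w + 2 + i), ⟨⟨fun i hi => ?_, fun i hi j hj ne => ?_⟩,
        fun i hi j hj => ⟨((lt i hi).1.trans (lt j hj).2).ne, fun ne => ?_⟩⟩, mo, fun i hi => ?_⟩
    · obtain ⟨b1, b2, b3, b4⟩ := rw i hi
      obtain ⟨-, c2, c3, c4⟩ := ch_ok FC B b4
      refine ⟨fun v hv => ⟨i, hi, hv⟩, ?_⟩
      simp only [comp]
      rw [b1, ← (S.pos _ (by omega)).1, ← (S.pos _ (by omega)).1]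
      exact ⟨capi.conn_le S.le c2, c3, c4⟩
    · rw [(rw i hi).1, (rw j hj).1]
      exact ch_dis FC B (rw i hi).2.2.2 (rw j hj).2.2.2 (by omega)
    · rcases Nat.lt_or_gt_of_ne ne with l | l
      · exact ⟨(mo i j l hj).1.ne, (mo i j l hj).2.ne'⟩
      · exact ⟨(mo j i l hi).1.ne', (mo j i l hi).2.ne⟩
    · have := (rw i hi).2
      exact ⟨pm _ _ (Nat.zero_le _) (by omega), (lt i hi).1, (lt i hi).2,
        pm _ _ (by omega) (by omega)⟩
  · rintro rfl dis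
    change Disjoint (lk _ _ (ls (mk _ _ _ _ _ _ _).list)) (lk _ _ (ls (mk _ _ _ _ _ _ _).list)) at dis
    rw [mk_list, mk_list] at dis
    have o0 : ∀ z, u0 ≤ z → z ≤ u0 + n0 → rt c.t u0 z ≤ n0 := fun z z1 z2 => by
      rw [rt, if_pos z1]
      omega
    have o1 : ∀ z < c.t, z ≤ a0 + σ.w ∨ u1 ≤ z → rt c.t u1 z ≤ n1 := fun z z1 z2 => by
      have := rt_spec f1.1 z1
      omega
    have cls : ∀ e < m, (a0 + σ.w < x e ∧ x e < u0 ∧ u0 + n0 < y e ∧ y e < u1) ∨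
        ((ch c x y J e ⊆ σ.U' ∧ Conn σ.H' (ch c x y J e)) ∧
          ((u0 ≤ x e ∧ x e ≤ u0 + n0 ∧ u0 ≤ y e ∧ y e ≤ u0 + n0) ∨
            ((x e ≤ a0 + σ.w ∨ u1 ≤ x e) ∧ (y e ≤ a0 + σ.w ∨ u1 ≤ y e)))) := by
      intro e he
      by_cases k : f ≤ e ∧ e ≤ f + F.A.n
      · obtain ⟨r, rfl⟩ := Nat.exists_eq_add_of_le k.1
        obtain ⟨b1, b2, b3, -⟩ := row r (by omega)
        by_cases q : r ≤ σ.w ∨ σ.w + σ.K + 3 ≤ r
        · refine Or.inr ⟨b1 ▸ r7 r (by omega) q, q.symm.imp (fun q => ?_) fun q => ?_⟩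
          · omega
          · exact ⟨Or.inl (by omega), Or.inr (by omega)⟩
        · exact Or.inl (by omega)
      have ne : ∀ r ≤ F.A.n, e ≠ f + r := fun r hr q => k (by omega)
      clear k
      have off : ∀ z, z = x e ∨ z = y e → (z < a0 ∨ a0 + F.A.n < z) ∧ (z < b0 ∨ b0 + F.A.n < z) := by
        intro z hz
        have nz : ∀ r ≤ F.A.n, z ≠ x (f + r) ∧ z ≠ y (f + r) := fun r hr => by
          have b4 := (row r hr).2.2.2
          obtain ⟨d1, d2⟩ := B.dst e he _ b4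
          rcases hz with rfl | rfl
          · exact ⟨(d2 (ne r hr)).1, d1⟩
          · exact ⟨(B.dst _ b4 e he).1.symm, (d2 (ne r hr)).2⟩
        clear hz
        constructor
        · by_contra q
          have := (row (z - a0) (by omega)).2.1
          exact (nz (z - a0) (by omega)).1 (by omega)
        · by_contra q
          have := (row (b0 + F.A.n - z) (by omega)).2.2.1
          exact (nz (b0 + F.A.n - z) (by omega)).2 (by omega)
      obtain ⟨c1, c2, c3, c4⟩ := ch_ok FC B he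
      obtain ⟨x1, y1, -⟩ := B.ch e he
      have om := capi.up_sub FC x1 (capi.o_up (l := 0) FC x1)
      have an := (C.col _ om _ x1).2 (capi.o_up FC x1)
      obtain ⟨s1, s2⟩ := r6 (ch c x y J e) (by rwa [sdiff_empty]) c2 (by
        rw [(row 0 (by omega)).1, (row _ le_rfl).1]
        exact disjoint_union_right.2 ⟨ch_dis FC B he (row 0 (by omega)).2.2.2 (ne 0 (by omega)),
          ch_dis FC B he (row _ le_rfl).2.2.2 (ne _ le_rfl)⟩) ⟨_, c3, by
        rintro ((q | q) | q)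
        · exact om.2 (st.z.1 q).1
        · have := posA _ q
          have := (off _ (Or.inl rfl)).1
          omega
        · have := posB _ q
          have := (off _ (Or.inl rfl)).2
          omega⟩
      have s1' := s1.trans sdiff_subset
      have no : ∀ z z', c.o z ∈ ch c x y J e → c.o z' ∈ ch c x y J e → z < c.t → z' < c.t →
          rt c.t u0 z ≤ n0 → rt c.t u1 z' ≤ n1 → False := fun z z' h1 h2 h3 h4 h5 h6 =>
        disjoint_left.1 dis (capi.lk_link (capi.lk_self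
          (List.mem_append_left _ (rt_o f0 h3 h5 ▸ o_lin (m0 ▸ h5))) (s1' h1))
          ((s2.2 _ h1 _ h2).mono s1'))
          (capi.lk_self (List.mem_append_left _ (rt_o f1 h4 h6 ▸ o_lin (m1 ▸ h6))) (s1' h2))
      have tri : ∀ z, z = x e ∨ z = y e → (u0 ≤ z ∧ z ≤ u0 + n0) ∨ z ≤ a0 + σ.w ∨ u1 ≤ z :=
        fun z hz => by
          have := off z hz
          clear hz
          omega
      refine Or.inr ⟨⟨s1', s2⟩, ?_⟩
      rcases tri _ (Or.inl rfl) with a | a <;> rcases tri _ (Or.inr rfl) with b | b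
      · exact Or.inl ⟨a.1, a.2, b⟩
      · exact (no _ _ c3 c4 x1 y1 (o0 _ a.1 a.2) (o1 _ y1 b)).elim
      · exact (no _ _ c4 c3 y1 x1 (o0 _ b.1 b.2) (o1 _ x1 a)).elim
      · exact Or.inr ⟨a, b⟩
    change ∀ i : Fin 2, Cr _ _ _
    refine Fin.forall_fin_two.2 ⟨?_, ?_⟩
    · have pick : ∀ e < m, x e ∈ Ico u0 (u0 + n0 + 1) → (ch c x y J e ⊆ σ.U' ∧
          Conn σ.H' (ch c x y J e)) ∧ rt c.t u0 (x e) ≤ n0 ∧ rt c.t u0 (y e) ≤ n0 := by
        rintro e he ⟨i1, i2⟩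
        rcases cls e he with a | ⟨a, b | ⟨b, -⟩⟩
        · omega
        · exact ⟨a, o0 _ b.1 b.2.1, o0 _ b.2.2.1 b.2.2.2⟩
        · omega
      obtain ⟨i, hi, j, hj, i1, j1, ne, xs⟩ := hP.2.1 m u0 (u0 + n0 + 1) x y _ B.dst B.crook
        (Or.inl rfl) (fun e he => by
          simp only [mem_Ico]
          rcases cls e he with a | ⟨-, a | ⟨a, b⟩⟩
          · exact iff_of_false (by omega) (by omega)
          · exact iff_of_true (by omega) (by omega)
          · exact iff_of_false (by clear b; omega) (by clear a; omega))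
        ⟨_, (row _ le_rfl).2.2.2, by
          have := (row _ le_rfl).2.1
          exact ⟨by omega, by omega⟩⟩
      exact mk_list ▸ cross FC B f0 hi hj ne xs (pick i hi i1) (pick j hj j1)
    · have pick : ∀ e < m, x e ∈ (Ico (a0 + σ.w + 1) u1)ᶜ → (ch c x y J e ⊆ σ.U' ∧
          Conn σ.H' (ch c x y J e)) ∧ rt c.t u1 (x e) ≤ n1 ∧ rt c.t u1 (y e) ≤ n1 := by
        rintro e he i1
        rcases cls e he with a | ⟨a, b | b⟩
        · exact (i1 ⟨by omega, by omega⟩).elim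
        · exact (i1 ⟨by omega, by omega⟩).elim
        · exact ⟨a, o1 _ (B.ch e he).1 b.1, o1 _ (B.ch e he).2.1 b.2⟩
      obtain ⟨i, hi, j, hj, i1, j1, ne, xs⟩ := hP.2.1 m (a0 + σ.w + 1) u1 x y _ B.dst B.crook
        (Or.inr rfl) (fun e he => by
          simp only [mem_compl_iff, mem_Ico]
          rcases cls e he with a | ⟨-, a | ⟨a, b⟩⟩
          · exact iff_of_false (by omega) (by omega)
          · exact iff_of_false (by omega) (by omega)
          · exact iff_of_true (by clear b; omega) (by clear a; omega))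
        ⟨_, (row 0 (by omega)).2.2.2, fun q => by
          have := (row 0 (by omega)).2.1
          have := q.1
          omega⟩
      exact mk_list ▸ cross FC B f1 hi hj ne xs (pick i hi i1) (pick j hj j1)
  · intro α hα
    change Dn _ _ [(mk _ _ _ _ _ _ _).list, (mk _ _ _ _ _ _ _).list] α at hα
    rw [mk_list, mk_list] at hα
    have mem : ∀ v ∈ q0.lin 0 q0.n ++ q1.lin 0 q1.n,
        (v ∈ q0.P ∧ q0.lev v = q0.s) ∨ (v ∈ q1.P ∧ q1.lev v = q1.s) := fun v hv =>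
      (List.mem_append.1 hv).imp (lin_mem p0) (lin_mem p1)
    have := (hA V H U D F Z pos σ N _ _ se cD (nodup se (List.nodup_append.2 ⟨p0.nd, p1.nd, by
      rintro v a _ b rfl
      exact d01 v (lin_mem p0 a).1 (lin_mem p1 b).1⟩) fun v hv => (mem v hv).elim
        (fun k => ⟨fun q => wl0 ⟨q, k.1⟩, fun q => wr0 ⟨q, k.1⟩⟩)
        fun k => ⟨fun q => wl1 ⟨q, k.1⟩, fun q => wr1 ⟨q, k.1⟩⟩) fun v hv => (mem v hv).elim
        (fun k => (k0 v k.1 (by omega)).1) fun k => (k1 v k.1 (by omega)).1).1 α hα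
    refine (hD V H U _).2.1 _ _ _ this (Or.inr (Or.inl (List.IsRotated.symm ?_)))
    have r := cyc_one (c := c) (u := u1) (n := n1 + σ.K + 3 + n0) (K := σ.K) (by omega) (by omega)
    rw [wd_gp, show u1 + n1 = a0 + σ.w + c.t by omega,
      show a0 + σ.w + c.t + σ.K + 3 = u0 + c.t by omega,
      show u1 + (n1 + σ.K + 3 + n0) = b0 + σ.w + c.t by omega, gp_mod, gp_mod, wd_mod] at r
    rw [f0.lin, f1.lin, fA.gap σ hn, fB.gap σ hn]
    exact FC.rot.trans r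

end Pool.Agent.MP_9d78a0_co.st

end MrgPart2

-- marker of a merged file
example : 731051 + 271146 = 731051 + 271146 := rfl
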