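import Pool.Agent.MP_9d78a0_co.st.Del
import Pool.Agent.MP_9d78a0_co.st.Kh

-- ======== part 0: formerly Pool.Agent.MP_9d78a0_co.st.Prune
section MrgPart0

/-! Pruning of crooked diagrams, crossing pairs, monotone transactions. -/

set_option autoImplicit false

namespace Pool.Agent.MP_9d78a0_co.st

open Set Function fb

namespace Prune

theorem xing {n α β : ℕ} {x y : ℕ → ℕ} {J : Set ℕ} (hd : Dst n x y) (hc : Crook n x y)
    (hJ : J = Ico α β ∨ J = (Ico α β)ᶜ) (cl : ∀ i < n, x i ∈ J ↔ y i ∈ J)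
    (ne : ∃ i < n, x i ∈ J) :
    ∃ i < n, ∃ j < n, x i ∈ J ∧ x j ∈ J ∧ i ≠ j ∧ Xs (x i) (y i) (x j) (y j) := by
  by_cases g : {i | i < n ∧ x i ∈ J ∧ ∀ z, fb.Btw (x i) (y i) z → z ∈ J}.Nonempty
  · obtain ⟨i, ⟨hi, h1, h2⟩, hm⟩ := exists_min_image _ (fun i => x i - y i + (y i - x i))
      ((finite_lt_nat n).subset fun _ h => h.1) g
    obtain ⟨j, hj, h3⟩ := (hc i hi).1
    have h4 : x j ∈ J := h3.elim (h2 _) fun k => (cl j hj).2 (h2 _ k)
    refine ⟨i, hi, j, hj, h1, h4, ?_, ?_⟩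
    · rintro rfl
      unfold fb.Btw at h3
      omega
    · by_contra c
      have := hm j ⟨hj, h4, fun z k => h2 z (by unfold Xs fb.Btw at *; omega)⟩
      unfold Xs fb.Btw at *
      omega
  · have g' : ∀ i < n, x i ∈ J → ∃ z, fb.Btw (x i) (y i) z ∧ z ∉ J := fun i hi h => by
      by_contra c
      push Not at c
      exact g ⟨i, hi, h, c⟩
    obtain ⟨i, ⟨hi, h1⟩, hm⟩ := exists_max_image {i | i < n ∧ x i ∈ J}
      (fun i => x i - y i + (y i - x i)) ((finite_lt_nat n).subset fun _ h => h.1) ne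
    obtain ⟨j, hj, h2, h3⟩ := (hc i hi).2
    obtain ⟨z, h4, h5⟩ := g' i hi h1
    have h6 := (cl i hi).1 h1
    have h7 := cl j hj
    have d1 := hd i hi j hj
    have d2 := (hd j hj i hi).1
    have d3 := d1.2 h2.symm
    rcases hJ with rfl | rfl
    · simp only [mem_Ico, fb.Btw] at h1 h4 h5 h6
      omega
    have h8 : x j ∈ (Ico α β)ᶜ := by
      simp only [mem_compl_iff, mem_Ico, fb.Btw] at h1 h3 h4 h5 h6 h7 ⊢
      omega
    refine ⟨i, hi, j, hj, h1, h8, h2.symm, ?_⟩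
    obtain ⟨w, h9, h10⟩ := g' j hj h8
    have := hm j ⟨hj, h8⟩
    simp only [mem_compl_iff, mem_Ico, fb.Btw, Xs] at h1 h3 h4 h5 h6 h9 h10 this ⊢
    omega

/-- `z` lies on the side `σ` of the chord `a b` -/
def Sd (σ a b z : ℕ) : Prop :=
  (σ = 0 ∧ fb.Btw a b z) ∨ (σ ≠ 0 ∧ ((z < a ∧ z < b) ∨ (a < z ∧ b < z)))

theorem dst4 {n : ℕ} {x y : ℕ → ℕ} (hd : Dst n x y) {i j : ℕ} (hi : i < n) (hj : j < n)
    (h : i ≠ j) : x i ≠ x j ∧ x i ≠ y j ∧ y i ≠ x j ∧ y i ≠ y j :=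
  ⟨((hd i hi j hj).2 h).1, (hd i hi j hj).1, (hd j hj i hi).1.symm, ((hd i hi j hj).2 h).2⟩

theorem sd_symm {σ a b z : ℕ} : Sd σ a b z ↔ Sd σ b a z := by
  unfold Sd fb.Btw
  tauto

theorem sd_iff {σ a b z : ℕ} (h1 : a ≠ z) (h2 : b ≠ z) : Sd σ a b z ↔ (σ = 0 ↔ fb.Btw a b z) := by
  unfold Sd fb.Btw
  omega

theorem xs_symm {a b c d : ℕ} (n : a ≠ c ∧ a ≠ d ∧ b ≠ c ∧ b ≠ d) (h : Xs a b c d) :
    Xs c d a b := by
  unfold Xs fb.Btw at *
  omega

theorem xs_sd {a b c d : ℕ} (n : a ≠ c ∧ a ≠ d ∧ b ≠ c ∧ b ≠ d) (h : Xs a b c d) (σ : ℕ) :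
    Sd σ a b c ∨ Sd σ a b d := by
  rw [sd_iff n.1 n.2.2.1, sd_iff n.2.1 n.2.2.2]
  unfold Xs at h
  by_cases s : σ = 0 <;> simp only [s, true_iff, false_iff] <;> tauto

theorem uniq {a b c d α β σ σ' : ℕ} (n : a ≠ c ∧ a ≠ d ∧ b ≠ c ∧ b ≠ d)
    (a1 : ¬ (Sd σ a b c ∨ Sd σ a b d)) (a2 : ¬ (Sd σ' c d a ∨ Sd σ' c d b))
    (a3 : a ∈ Ico α β ↔ b ∉ Ico α β) (a4 : c ∈ Ico α β ↔ d ∉ Ico α β)
    (h : (σ = 0 ↔ a < α ∨ b < α) ↔ (σ' = 0 ↔ c < α ∨ d < α)) : False := by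
  wlog h1 : a ≤ b generalizing a b
  · exact this (a := b) (b := a) (by tauto) (by rwa [sd_symm, sd_symm (z := d)])
      (by rwa [or_comm]) (by tauto) (by rwa [or_comm (a := b < α)]) (by omega)
  wlog h2 : c ≤ d generalizing c d
  · exact this (c := d) (d := c) (by tauto) (by tauto) (by rwa [or_comm])
      (by rwa [sd_symm, sd_symm (z := b)]) (by rwa [or_comm (a := d < α)]) (by omega)
  have t1 : (a < α ∧ α ≤ b ∧ b < β) ∨ (α ≤ a ∧ a < β ∧ β ≤ b) := by
    simp only [mem_Ico] at a3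
    omega
  have t2 : (c < α ∧ α ≤ d ∧ d < β) ∨ (α ≤ c ∧ c < β ∧ β ≤ d) := by
    simp only [mem_Ico] at a4
    omega
  clear a3 a4
  by_cases s : σ = 0 <;> by_cases s' : σ' = 0 <;>
    simp only [Sd, fb.Btw, s, s', true_and, false_and, ne_eq, not_true_eq_false, not_false_eq_true,
      or_false, false_or, true_iff, false_iff] at a1 a2 h <;>
    rcases t1 with t1 | t1 <;> rcases t2 with t2 | t2 <;> omega

theorem fix {n : ℕ} {x y : ℕ → ℕ} (hd : Dst n x y) (hc : Crook n x y) {i : ℕ} (hi : i < n)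
    (σ : ℕ) : ∃ j < n, ∃ j' < n, j ≠ j' ∧ Xs (x j) (y j) (x j') (y j') ∧
      (Sd σ (x i) (y i) (x j) ∨ Sd σ (x i) (y i) (y j)) := by
  by_cases cl : ∀ j < n, Sd σ (x i) (y i) (x j) ↔ Sd σ (x i) (y i) (y j)
  · have ne : ∃ j < n, Sd σ (x i) (y i) (x j) := by
      obtain ⟨⟨j, hj, h1⟩, k, hk, h2, h3⟩ := hc i hi
      by_cases s : σ = 0
      · exact ⟨j, hj, h1.elim (fun k => .inl ⟨s, k⟩) fun k => (cl j hj).2 (.inl ⟨s, k⟩)⟩
      · obtain ⟨d1, d2, d3, d4⟩ := dst4 hd hi hk h2.symm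
        have e := cl k hk
        refine ⟨k, hk, ?_⟩
        rw [sd_iff d2 d4] at e
        rw [sd_iff d1 d3] at e ⊢
        tauto
    have hJ : ∃ α β, {z | Sd σ (x i) (y i) z} = Ico α β ∨
        {z | Sd σ (x i) (y i) z} = (Ico α β)ᶜ := by
      by_cases s : σ = 0
      · refine ⟨min (x i) (y i) + 1, max (x i) (y i), .inl (Set.ext fun z => ?_)⟩
        simp only [mem_ofPred_eq, mem_Ico, Sd, fb.Btw]
        omega
      · refine ⟨min (x i) (y i), max (x i) (y i) + 1, .inr (Set.ext fun z => ?_)⟩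
        simp only [mem_ofPred_eq, mem_compl_iff, mem_Ico, Sd, fb.Btw]
        omega
    obtain ⟨α, β, hJ⟩ := hJ
    obtain ⟨j, hj, j', hj', h1, -, h2, h3⟩ := xing hd hc hJ cl ne
    exact ⟨j, hj, j', hj', h2, h3, .inl h1⟩
  · push Not at cl
    obtain ⟨j, hj, h⟩ := cl
    have h1 : j ≠ i := by
      rintro rfl
      rcases h with ⟨h, -⟩ | ⟨-, h⟩ <;> unfold Sd fb.Btw at h <;> omega
    have d := dst4 hd hi hj h1.symm
    refine ⟨j, hj, i, hi, h1, xs_symm d ?_, by tauto⟩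
    rw [sd_iff d.1 d.2.2.1, sd_iff d.2.1 d.2.2.2] at h
    unfold Xs
    by_cases s : σ = 0 <;> simp only [s, true_iff, false_iff, not_not] at h <;> tauto

theorem ext_list {p : ℕ} {t : ℕ → ℕ} (ht : InjOn t (Iio p)) (l : List ℕ) :
    ∃ (m : ℕ) (e : ℕ → ℕ), p ≤ m ∧ m ≤ p + l.length ∧ InjOn e (Iio m) ∧ (∀ i < p, e i = t i) ∧
      (∀ i < m, i < p ∨ e i ∈ l) ∧ ∀ j ∈ l, ∃ i < m, e i = j := by
  induction l with
  | nil => exact ⟨p, t, le_rfl, le_rfl, ht, fun _ _ => rfl, fun _ h => .inl h, by simp⟩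
  | cons a l ih =>
    obtain ⟨m, e, h1, h2, h3, h4, h5, h6⟩ := ih
    by_cases c : ∃ i < m, e i = a
    · exact ⟨m, e, h1, by simp only [List.length_cons]; omega, h3, h4,
        fun i hi => (h5 i hi).imp id (List.mem_cons_of_mem a),
        fun j hj => (List.mem_cons.1 hj).elim (fun k => k ▸ c) (h6 j)⟩
    have u : ∀ i < m, update e m a i = e i := fun i hi => update_of_ne hi.ne _ _
    refine ⟨m + 1, update e m a, by omega, by simp only [List.length_cons]; omega,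
      fun i hi j hj k => ?_, fun i hi => (u i (by omega)).trans (h4 i hi), fun i hi => ?_,
      fun j hj => ?_⟩
    · rcases Nat.lt_succ_iff_lt_or_eq.1 hi with hi | rfl <;>
        rcases Nat.lt_succ_iff_lt_or_eq.1 hj with hj | rfl
      · exact h3 hi hj (by rwa [u i hi, u j hj] at k)
      · exact absurd ⟨i, hi, by rwa [u i hi, update_self] at k⟩ c
      · exact absurd ⟨j, hj, by rw [u j hj, update_self] at k; exact k.symm⟩ c
      · rfl
    · rcases Nat.lt_succ_iff_lt_or_eq.1 hi with hi | rfl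
      · rw [u i hi]
        exact (h5 i hi).imp id (List.mem_cons_of_mem a)
      · simp
    · rcases List.mem_cons.1 hj with rfl | hj
      · exact ⟨m, by omega, update_self ..⟩
      · obtain ⟨i, hi, k⟩ := h6 j hj
        exact ⟨i, by omega, (u i hi).trans k⟩

theorem prune {n p α β : ℕ} {x y t : ℕ → ℕ} (hd : Dst n x y) (hc : Crook n x y) (hp : 0 < p)
    (ht : InjOn t (Iio p)) (tr : ∀ i < p, t i < n ∧ (x (t i) ∈ Ico α β ↔ y (t i) ∉ Ico α β)) :
    ∃ (m : ℕ) (e : ℕ → ℕ), p ≤ m ∧ m ≤ p + 4 ∧ InjOn e (Iio m) ∧ (∀ i < m, e i < n) ∧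
      (∀ i < p, e i = t i) ∧ Dg m (x ∘ e) (y ∘ e) p := by
  let On : ℕ → ℕ → ℕ → Prop := fun σ k j => Sd σ (x k) (y k) (x j) ∨ Sd σ (x k) (y k) (y j)
  let Bad : ℕ → ℕ → ℕ → Prop := fun b i σ => i < p ∧ σ ≤ 1 ∧ (∀ j < p, ¬ On σ (t i) (t j)) ∧
    (b = 0 ↔ (σ = 0 ↔ x (t i) < α ∨ y (t i) < α))
  have ch : ∀ b, ∃ j < n, ∃ j' < n, j ≠ j' ∧ Xs (x j) (y j) (x j') (y j') ∧
      ∀ i σ, Bad b i σ → On σ (t i) j := fun b => by
    by_cases c : ∃ i σ, Bad b i σ
    · obtain ⟨i, σ, h1, h2, h3, h4⟩ := c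
      obtain ⟨j, hj, j', hj', k1, k2, k3⟩ := fix hd hc (tr i h1).1 σ
      refine ⟨j, hj, j', hj', k1, k2, fun i' σ' ⟨l1, l2, l3, l4⟩ => ?_⟩
      obtain rfl : i = i' := by
        by_contra c
        exact uniq (dst4 hd (tr i h1).1 (tr i' l1).1 fun k => c (ht h1 l1 k)) (h3 i' l1) (l3 i h1)
          (tr i h1).2 (tr i' l1).2 (h4.symm.trans l4)
      obtain rfl : σ = σ' := by omega
      exact k3
    · obtain ⟨j, hj, j', hj', k1, k2, -⟩ := fix hd hc (tr 0 hp).1 0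
      exact ⟨j, hj, j', hj', k1, k2, fun i σ h => absurd ⟨i, σ, h⟩ c⟩
  choose j hj j' hj' k1 k2 k3 using ch
  obtain ⟨m, e, h1, h2, h3, h4, h5, h6⟩ := ext_list ht [j 0, j' 0, j 1, j' 1]
  have en : ∀ i < m, e i < n := fun i hi => by
    rcases h5 i hi with k | k
    · exact h4 i k ▸ (tr i k).1
    · simp only [List.mem_cons, List.not_mem_nil, or_false] at k
      rcases k with k | k | k | k <;> rw [k]
      exacts [hj 0, hj' 0, hj 1, hj' 1]
  have sd : ∀ i < m, ∀ σ ≤ 1, ∃ k < m, On σ (e i) (e k) := fun i hi σ hσ => by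
    have cr : ∀ b ≤ 1, e i = j b ∨ e i = j' b → ∃ k < m, On σ (e i) (e k) := fun b hb h => by
      obtain ⟨u, hu, e1⟩ := h6 (j b) (by interval_cases b <;> simp)
      obtain ⟨v, hv, e2⟩ := h6 (j' b) (by interval_cases b <;> simp)
      have d := dst4 hd (hj b) (hj' b) (k1 b)
      rcases h with h | h
      · exact ⟨v, hv, by rw [h, e2]; exact xs_sd d (k2 b) σ⟩
      · exact ⟨u, hu, by
          rw [h, e1]
          exact xs_sd (dst4 hd (hj' b) (hj b) (k1 b).symm) (xs_symm d (k2 b)) σ⟩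
    rcases h5 i hi with k | k
    · by_contra c
      have c' : ∀ l < p, ¬ On σ (t i) (t l) := fun l hl o =>
        c ⟨l, by omega, by rwa [h4 i k, h4 l hl]⟩
      obtain ⟨b, hb, hb'⟩ : ∃ b ≤ 1, b = 0 ↔ (σ = 0 ↔ x (t i) < α ∨ y (t i) < α) := by
        by_cases s : σ = 0 ↔ x (t i) < α ∨ y (t i) < α
        exacts [⟨0, by omega, by tauto⟩, ⟨1, le_rfl, by tauto⟩]
      obtain ⟨u, hu, e1⟩ := h6 (j b) (by interval_cases b <;> simp)
      exact c ⟨u, hu, by rw [h4 i k, e1]; exact k3 b i σ ⟨k, hσ, c', hb'⟩⟩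
    · simp only [List.mem_cons, List.not_mem_nil, or_false] at k
      rcases k with k | k | k | k
      exacts [cr 0 (by omega) (.inl k), cr 0 (by omega) (.inr k), cr 1 le_rfl (.inl k),
        cr 1 le_rfl (.inr k)]
  refine ⟨m, e, h1, h2, h3, en, h4, fun i hi l hl => ⟨(hd _ (en i hi) _ (en l hl)).1,
    fun k => (hd _ (en i hi) _ (en l hl)).2 fun q => k (h3 hi hl q)⟩, fun i hi => ⟨?_, ?_⟩,
    α, β, id, injOn_id _, fun i hi => ⟨by simp only [id]; omega, ?_⟩⟩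
  · obtain ⟨k, hk, o⟩ := sd i hi 0 (by omega)
    exact ⟨k, hk, by simpa [On, Sd] using o⟩
  · obtain ⟨k, hk, o⟩ := sd i hi 1 le_rfl
    refine ⟨k, hk, ?_, ?_⟩
    · rintro rfl
      simp only [On, Sd, fb.Btw] at o
      omega
    · simp only [On, Sd, fb.Btw, comp_apply] at o ⊢
      omega
  · simp only [id, comp_apply, h4 i hi]
    exact (tr i hi).2

theorem es (M : ℕ) : ∃ N, ∀ (x y : ℕ → ℕ) (κ : ℕ → Prop), InjOn x (Iio N) → InjOn y (Iio N) →
    ∃ e : ℕ → ℕ, (∀ i < M, e i < N) ∧ (∀ i j, i < j → j < M → x (e i) < x (e j)) ∧ Mo (y ∘ e) M ∧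
      ∀ i < M, ∀ j < M, κ (e i) ↔ κ (e j) := by
  obtain ⟨N, h⟩ := ramseyS (Prop × Prop × Prop) (M + 1)
  refine ⟨N, fun x y κ hx hy => ?_⟩
  obtain ⟨s, ⟨a, b, c⟩, h1, h2, h3⟩ := h fun i j => (x i < x j, y i < y j, κ i)
  simp only [Prod.mk.injEq, eq_iff_iff] at h3
  have k0 : ∀ i < M, κ (s i) ↔ c := fun i hi => (h3 i M hi (by omega)).2.2
  have k1 : ∀ (z : ℕ → ℕ) (d : Prop), InjOn z (Iio N) → ¬ d → ∀ i j, i < j → j < M →
      (z (s i) < z (s j) ↔ d) → z (s j) < z (s i) := fun z d hz hd i j k l q =>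
    lt_of_le_of_ne (not_lt.1 fun r => hd (q.1 r)) fun r =>
      (h1 i j k (by omega)).ne' (hz (h2 j (by omega)) (h2 i (by omega)) r)
  have my : Mo (y ∘ s) M := by
    by_cases d : b
    · exact .inl fun i j k l => (h3 i j k (by omega)).2.1.2 d
    · exact .inr fun i j k l => k1 y b hy d i j k l (h3 i j k (by omega)).2.1
  by_cases d : a
  · exact ⟨s, fun i hi => h2 i (by omega), fun i j k l => (h3 i j k (by omega)).1.2 d, my,
      fun i hi j hj => (k0 i hi).trans (k0 j hj).symm⟩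
  · refine ⟨fun i => s (M - 1 - i), fun i hi => h2 _ (by omega), fun i j k l =>
      k1 x a hx d _ _ (by omega) (by omega) (h3 _ _ (by omega) (by omega)).1, ?_,
      fun i hi j hj => (k0 _ (by omega)).trans (k0 _ (by omega)).symm⟩
    exact my.symm.imp (fun q i j k l => q _ _ (by omega) (by omega))
      fun q i j k l => q _ _ (by omega) (by omega)

end Prune

open Prune

theorem pruneS : PruneS := by
  refine ⟨fun _ _ _ _ _ _ _ => prune, fun _ _ _ _ _ _ => xing, fun M => ?_, fun M => ?_⟩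
  · obtain ⟨N, h⟩ := es M
    exact ⟨N, fun x y hx hy =>
      let ⟨e, a, b, c, _⟩ := h x y (fun _ => True) hx hy; ⟨e, a, b, c⟩⟩
  obtain ⟨N, h⟩ := es M
  refine ⟨N, fun n x y hd ⟨α, β, t, ht, tr⟩ => ?_⟩
  have d : ∀ i < N, ∀ j < N, i ≠ j → min (x (t i)) (y (t i)) ≠ min (x (t j)) (y (t j)) ∧
      max (x (t i)) (y (t i)) ≠ max (x (t j)) (y (t j)) := fun i hi j hj c => by
    have d1 := hd _ (tr i hi).1 _ (tr j hj).1
    have d2 := (hd _ (tr j hj).1 _ (tr i hi).1).1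
    have d3 := d1.2 fun k => c (ht hi hj k)
    omega
  obtain ⟨e, h1, h2, h3, h4⟩ := h (fun i => min (x (t i)) (y (t i)))
    (fun i => max (x (t i)) (y (t i))) (fun i => min (x (t i)) (y (t i)) < α)
    (fun i hi j hj k => by_contra fun c => (d i hi j hj c).1 k)
    fun i hi j hj k => by_contra fun c => (d i hi j hj c).2 k
  refine ⟨t ∘ e, fun i hi j hj k => ?_, fun i hi => (tr _ (h1 i hi)).1, h2, h3,
    fun i hi j hj => ?_⟩
  · simp only [comp_apply] at k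
    rcases lt_trichotomy i j with c | c | c
    · exact absurd (h2 i j c hj) (by rw [k]; exact lt_irrefl _)
    · exact c
    · exact absurd (h2 j i c hi) (by rw [k]; exact lt_irrefl _)
  · have a1 := (tr _ (h1 i hi)).2
    have a2 := (tr _ (h1 j hj)).2
    have a3 := h4 i hi j hj
    simp only [mem_Ico, comp_apply] at a1 a2 a3 ⊢
    omega

end Pool.Agent.MP_9d78a0_co.st

end MrgPart0

-- ======== part 1: formerly Pool.Agent.MP_9d78a0_co.st.Runs
section MrgPart1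

/-! The deep runs of a family of paths. -/

set_option autoImplicit false

namespace Pool.Agent.MP_9d78a0_co.st

open Set Function fb

namespace Runs

theorem xs_l {a b c d : ℕ} (h : Xs a b c d) : Xs b a c d := by
  unfold Xs fb.Btw at *; omega

theorem xs_r {a b c d : ℕ} (h : Xs a b c d) : Xs a b d c := by
  unfold Xs fb.Btw at *; omega

/-- a set that does not alternate with its complement is an interval or a co-interval -/
theorem interval {ι : Type} (E : Finset ι) (w : ι → ℕ) (X : ι → Prop)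
    (hw : ∀ a ∈ E, ∀ b ∈ E, X a → ¬ X b → w a ≠ w b)
    (h : ∀ a ∈ E, ∀ b ∈ E, ∀ c ∈ E, ∀ d ∈ E, X a → X b → ¬ X c → ¬ X d →
      ¬ Xs (w a) (w b) (w c) (w d)) :
    ∃ α β, (∀ e ∈ E, w e ∈ Ico α β ↔ X e) ∨ ∀ e ∈ E, w e ∈ Ico α β ↔ ¬ X e := by
  classical
  by_cases c0 : (E.filter X).Nonempty
  swap
  · refine ⟨0, 0, Or.inl fun e he => ⟨fun h => by simp at h, fun h => absurd ⟨e, ?_⟩ c0⟩⟩
    exact Finset.mem_filter.2 ⟨he, h⟩
  obtain ⟨a, ha, ha'⟩ := Finset.exists_min_image _ w c0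
  obtain ⟨b, hb, hb'⟩ := Finset.exists_max_image _ w c0
  simp only [Finset.mem_filter] at ha ha' hb hb'
  by_cases c1 : ∃ c ∈ E, ¬ X c ∧ w a < w c ∧ w c < w b
  swap
  · refine ⟨w a, w b + 1, Or.inl fun e he => ⟨fun h1 => ?_, fun h1 => ?_⟩⟩
    · by_contra h2
      have h3 := hw a ha.1 e he ha.2 h2
      have h4 := hw b hb.1 e he hb.2 h2
      exact c1 ⟨e, he, h2, by have := h1.1; omega, by have := h1.2; omega⟩
    · exact ⟨ha' e ⟨he, h1⟩, Nat.lt_succ_of_le (hb' e ⟨he, h1⟩)⟩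
  obtain ⟨c0, hc0, hc1, hc2, hc3⟩ := c1
  have ne : (E.filter fun e => ¬ X e).Nonempty := ⟨c0, Finset.mem_filter.2 ⟨hc0, hc1⟩⟩
  obtain ⟨c, hc, hc'⟩ := Finset.exists_min_image _ w ne
  obtain ⟨d, hd, hd'⟩ := Finset.exists_max_image _ w ne
  simp only [Finset.mem_filter] at hc hc' hd hd'
  refine ⟨w c, w d + 1, Or.inr fun e he => ⟨fun h1 h2 => ?_, fun h1 => ?_⟩⟩
  · have h3 := hw e he c hc.1 h2 hc.2
    have h4 := hw e he d hd.1 h2 hd.2
    have h5 := h a ha.1 b hb.1 c0 hc0 c hc.1 ha.2 hb.2 hc1 hc.2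
    have h6 := h a ha.1 e he c hc.1 d hd.1 ha.2 h2 hc.2 hd.2
    have h7 := hc' c0 ⟨hc0, hc1⟩
    have h8 := hw a ha.1 c hc.1 ha.2 hc.2
    have h9 := h1.1
    have h10 := h1.2
    unfold Xs fb.Btw at h5 h6
    omega
  · exact ⟨hc' e ⟨he, h1⟩, Nat.lt_succ_of_le (hd' e ⟨he, h1⟩)⟩

/-- the end of a chord -/
def nd (x y : ℕ → ℕ) (e : ℕ × Bool) : ℕ := if e.2 then y e.1 else x e.1

theorem nd_inj {n : ℕ} {x y : ℕ → ℕ} (h : Dst n x y) {e e' : ℕ × Bool} (he : e.1 < n)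
    (he' : e'.1 < n) (ne : e ≠ e') : nd x y e ≠ nd x y e' := by
  obtain ⟨i, b⟩ := e
  obtain ⟨j, b'⟩ := e'
  have h1 := h i he j he'
  have h2 := h j he' i he
  cases b <;> cases b' <;> simp only [nd, if_true, if_false, Bool.false_eq_true]
  · exact (h1.2 fun c => ne (by rw [c])).1
  · exact h1.1
  · exact h2.1.symm
  · exact (h1.2 fun c => ne (by rw [c])).2

/-- a relabelling of the ends that preserves crossings preserves diagrams -/
theorem transfer {n p : ℕ} {x y x' y' : ℕ → ℕ} (h : Dg n x y p) (hd : Dst n x' y')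
    (hx : ∀ a b c d : ℕ × Bool, a.1 < n → b.1 < n → c.1 < n → d.1 < n → a ≠ b → a ≠ c → a ≠ d →
      b ≠ c → b ≠ d → c ≠ d → Xs (nd x y a) (nd x y b) (nd x y c) (nd x y d) →
      Xs (nd x' y' a) (nd x' y' b) (nd x' y' c) (nd x' y' d)) : Dg n x' y' p := by
  classical
  refine ⟨hd, fun i hi => ?_, ?_⟩
  · obtain ⟨⟨j, hj, h1⟩, j', hj', ne, h2⟩ := h.crook i hi
    obtain ⟨b, hb⟩ : ∃ b, Btw (x i) (y i) (nd x y (j, b)) := by
      rcases h1 with h1 | h1
      exacts [⟨false, h1⟩, ⟨true, h1⟩]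
    obtain ⟨b', hb'⟩ : ∃ b, ¬ Btw (x i) (y i) (nd x y (j', b)) := by
      rcases h2 with h2 | h2
      exacts [⟨false, h2⟩, ⟨true, h2⟩]
    have ne' : j ≠ i := by
      rintro rfl
      cases b <;> simp only [nd, fb.Btw, if_true, if_false, Bool.false_eq_true] at hb <;> omega
    have k := hx (i, false) (i, true) (j, b) (j', b') hi hi hj hj' (by simp)
      (fun c => ne' (congrArg Prod.fst c).symm) (fun c => ne (congrArg Prod.fst c).symm)
      (fun c => ne' (congrArg Prod.fst c).symm) (fun c => ne (congrArg Prod.fst c).symm)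
      (fun c => hb' (c ▸ hb)) (Or.inl ⟨hb, hb'⟩)
    have a1 : ∀ q c, Btw (x' i) (y' i) (nd x' y' (q, c)) →
        Btw (x' i) (y' i) (x' q) ∨ Btw (x' i) (y' i) (y' q) := fun q c h => by
      cases c
      exacts [Or.inl h, Or.inr h]
    have a2 : ∀ q c, ¬ Btw (x' i) (y' i) (nd x' y' (q, c)) →
        ¬ Btw (x' i) (y' i) (x' q) ∨ ¬ Btw (x' i) (y' i) (y' q) := fun q c h => by
      cases c
      exacts [Or.inl h, Or.inr h]
    rcases k with ⟨k1, k2⟩ | ⟨k1, k2⟩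
    · exact ⟨⟨j, hj, a1 _ _ k1⟩, j', hj', ne, a2 _ _ k2⟩
    · exact ⟨⟨j', hj', a1 _ _ k1⟩, j, hj, ne', a2 _ _ k2⟩
  · obtain ⟨α, β, t, ht, ht'⟩ := h.trn
    obtain ⟨α', β', k⟩ := interval (Finset.range n ×ˢ (Finset.univ : Finset Bool)) (nd x' y')
      (fun e => nd x y e ∈ Ico α β)
      (fun a ha b hb h1 h2 => nd_inj hd (by simpa using ha) (by simpa using hb)
        fun c => h2 (c ▸ h1))
      (fun a ha b hb c hc d hd' h1 h2 h3 h4 h5 => by
        have ha : a.1 < n := by simpa using ha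
        have hb : b.1 < n := by simpa using hb
        have hc : c.1 < n := by simpa using hc
        have hd' : d.1 < n := by simpa using hd'
        have ab : a ≠ b := by
          rintro rfl
          unfold Xs fb.Btw at h5; omega
        have cd : c ≠ d := by
          rintro rfl
          unfold Xs fb.Btw at h5; omega
        have ac : a ≠ c := fun e => h3 (e ▸ h1)
        have ad : a ≠ d := fun e => h4 (e ▸ h1)
        have bc : b ≠ c := fun e => h3 (e ▸ h2)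
        have bd : b ≠ d := fun e => h4 (e ▸ h2)
        have k1 := hx a c b d ha hc hb hd' ac ab ad bc.symm cd bd
        have k2 := hx a d b c ha hd' hb hc ad ab ac bd.symm cd.symm bc
        have := nd_inj h.dst ha hb ab
        have := nd_inj h.dst hc hd' cd
        have := nd_inj hd ha hb ab
        have := nd_inj hd ha hc ac
        have := nd_inj hd ha hd' ad
        have := nd_inj hd hb hc bc
        have := nd_inj hd hb hd' bd
        have := nd_inj hd hc hd' cd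
        simp only [mem_Ico] at h1 h2 h3 h4
        by_cases q1 : Xs (nd x y a) (nd x y c) (nd x y b) (nd x y d)
        · have := k1 q1
          unfold Xs fb.Btw at this h5; omega
        by_cases q2 : Xs (nd x y a) (nd x y d) (nd x y b) (nd x y c)
        · have := k2 q2
          unfold Xs fb.Btw at this h5; omega
        unfold Xs fb.Btw at q1 q2; omega)
    refine ⟨α', β', t, ht, fun i hi => ⟨(ht' i hi).1, ?_⟩⟩
    have m : ∀ b, (t i, b) ∈ Finset.range n ×ˢ (Finset.univ : Finset Bool) := fun b => by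
      simpa using (ht' i hi).1
    have k0 := (ht' i hi).2
    rcases k with k | k
    · have k1 : x' (t i) ∈ Ico α' β' ↔ x (t i) ∈ Ico α β := k _ (m false)
      have k2 : y' (t i) ∈ Ico α' β' ↔ y (t i) ∈ Ico α β := k _ (m true)
      tauto
    · have k1 : x' (t i) ∈ Ico α' β' ↔ ¬ x (t i) ∈ Ico α β := k _ (m false)
      have k2 : y' (t i) ∈ Ico α' β' ↔ ¬ y (t i) ∈ Ico α β := k _ (m true)
      tauto

/-- the two ends of some chords are exchanged -/
theorem swap {n p : ℕ} {x y x' y' : ℕ → ℕ} (h : Dg n x y p)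
    (hs : ∀ i < n, (x' i = x i ∧ y' i = y i) ∨ (x' i = y i ∧ y' i = x i)) : Dg n x' y' p := by
  refine ⟨fun i hi j hj => ?_, fun i hi => ?_, ?_⟩
  · have h1 := h.dst i hi j hj
    have h2 := h.dst j hj i hi
    have h3 := h.dst i hi i hi
    have h4 := hs i hi
    by_cases c : i = j
    · subst c
      omega
    · have h5 := hs j hj
      have h6 := h1.2 c
      omega
  · obtain ⟨⟨j, hj, h1⟩, j', hj', ne, h2⟩ := h.crook i hi
    have h4 := hs i hi
    have h5 := hs j hj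
    have h6 := hs j' hj'
    refine ⟨⟨j, hj, ?_⟩, j', hj', ne, ?_⟩
    · unfold fb.Btw at *; omega
    · unfold fb.Btw at *; omega
  · obtain ⟨α, β, t, ht, ht'⟩ := h.trn
    refine ⟨α, β, t, ht, fun i hi => ⟨(ht' i hi).1, ?_⟩⟩
    have k := (ht' i hi).2
    rcases hs _ (ht' i hi).1 with ⟨h1, h2⟩ | ⟨h1, h2⟩ <;> rw [h1, h2] <;> tauto

/-- the involution of a symmetric functional relation -/
theorem invol (R : ℕ → ℕ → Prop) (hs : ∀ a b, R a b → R b a)
    (hf : ∀ a b c, R a b → R a c → b = c) :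
    ∃ σ : ℕ → ℕ, Involutive σ ∧ (∀ a b, R a b → σ a = b) ∧ ∀ a, σ a ≠ a → R a (σ a) := by
  classical
  have k : ∀ a, ∃ b, (∀ c, R a c → b = c) ∧ (b ≠ a → R a b) := fun a => by
    by_cases c : ∃ b, R a b
    · obtain ⟨b, hb⟩ := c
      exact ⟨b, fun c hc => hf a b c hb hc, fun _ => hb⟩
    · exact ⟨a, fun b hb => absurd ⟨b, hb⟩ c, fun h => absurd rfl h⟩
  choose σ h1 h2 using k
  refine ⟨σ, fun a => ?_, h1, h2⟩
  by_cases c : σ a = a
  · rw [c, c]
  · exact h1 _ _ (hs _ _ (h2 a c))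

/-- a maximal interval of deep indices -/
def Run (deep : ℕ → Prop) (l s t : ℕ) : Prop :=
  s ≤ t ∧ t ≤ l ∧ St deep s ∧ En deep l t ∧ ∀ k, s ≤ k → k ≤ t → deep k

variable {deep : ℕ → Prop} {l : ℕ}

theorem run_of_st {s : ℕ} (hs : St deep s) (hl : s ≤ l) : ∃ t, Run deep l s t := by
  classical
  have ex : ∃ t, s ≤ t ∧ (t = l ∨ ¬ deep (t + 1)) := ⟨l, hl, Or.inl rfl⟩
  have h1 := Nat.find_spec ex
  have h2 : ∀ k, s ≤ k → k ≤ Nat.find ex → deep k := fun k hk hk' => by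
    rcases hk.eq_or_lt with rfl | hk
    · exact hs.1
    · obtain ⟨k, rfl⟩ : ∃ j, k = j + 1 := ⟨k - 1, by omega⟩
      by_contra c
      exact Nat.find_min ex (m := k) (by omega) ⟨by omega, Or.inr c⟩
  exact ⟨_, h1.1, Nat.find_min' ex ⟨hl, Or.inl rfl⟩, hs, ⟨h2 _ h1.1 le_rfl, h1.2⟩, h2⟩

theorem run_of_en {t : ℕ} (ht : En deep l t) (hl : t ≤ l) : ∃ s, Run deep l s t := by
  have k : ∀ t, deep t → ∃ s ≤ t, St deep s ∧ ∀ k, s ≤ k → k ≤ t → deep k := by
    intro t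
    induction t with
    | zero => exact fun h => ⟨0, le_rfl, ⟨h, Or.inl rfl⟩, fun k _ hk => by rwa [Nat.le_zero.1 hk]⟩
    | succ t ih =>
      intro h
      by_cases c : deep t
      · obtain ⟨s, h1, h2, h3⟩ := ih c
        refine ⟨s, by omega, h2, fun k hk hk' => ?_⟩
        rcases hk'.eq_or_lt with rfl | hk'
        exacts [h, h3 k hk (by omega)]
      · exact ⟨t + 1, le_rfl, ⟨h, Or.inr c⟩, fun k hk hk' => by rwa [le_antisymm hk' hk]⟩
  obtain ⟨s, h1, h2, h3⟩ := k t ht.1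
  exact ⟨s, h1, hl, h2, ht, h3⟩

theorem run_t {s t t' : ℕ} (h : Run deep l s t) (h' : Run deep l s t') : t = t' := by
  have k : ∀ t t', Run deep l s t → Run deep l s t' → ¬ t < t' := fun t t' h h' c => by
    rcases h.2.2.2.1.2 with e | e
    · have := h'.2.1
      omega
    · exact e (h'.2.2.2.2 _ (by have := h.1; omega) c)
  have := k _ _ h h'
  have := k _ _ h' h
  omega

theorem run_s {s s' t : ℕ} (h : Run deep l s t) (h' : Run deep l s' t) : s = s' := by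
  have k : ∀ s s', Run deep l s t → Run deep l s' t → ¬ s < s' := fun s s' h h' c => by
    rcases h'.2.2.1.2 with e | e
    · omega
    · exact e (h.2.2.2.2 _ (by omega) (by have := h'.1; omega))
  have := k _ _ h h'
  have := k _ _ h' h
  omega

theorem cap_en {k k' : ℕ} (h : Cap deep l k k') : En deep l k :=
  ⟨h.2.2.1, Or.inr (h.2.2.2.2 _ (by omega) h.1)⟩

theorem cap_st {k k' : ℕ} (h : Cap deep l k k') : St deep k' :=
  ⟨h.2.2.2.1, Or.inr (h.2.2.2.2 _ (by have := h.1; omega) (by have := h.1; omega))⟩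

theorem cap_r {k a b : ℕ} (h : Cap deep l k a) (h' : Cap deep l k b) : a = b := by
  have q : ∀ a b, Cap deep l k a → Cap deep l k b → ¬ a < b := fun a b h h' c =>
    h'.2.2.2.2 a (by have := h.1; omega) c h.2.2.2.1
  have := q _ _ h h'
  have := q _ _ h' h
  omega

theorem cap_l {k a b : ℕ} (h : Cap deep l a k) (h' : Cap deep l b k) : a = b := by
  have q : ∀ a b, Cap deep l a k → Cap deep l b k → ¬ a < b := fun a b h h' c =>
    h.2.2.2.2 b c (by have := h'.1; omega) h'.2.2.1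
  have := q _ _ h h'
  have := q _ _ h' h
  omega

theorem cap_of_st {s f : ℕ} (hs : St deep s) (hl : s ≤ l) (hf : deep f) (h : f < s) :
    ∃ k, Cap deep l k s := by
  classical
  have h1 : deep (Nat.findGreatest deep (s - 1)) :=
    Nat.findGreatest_spec (P := deep) (m := f) (by omega) hf
  have h2 := Nat.findGreatest_le (P := deep) (s - 1)
  have h3 : Nat.findGreatest deep (s - 1) ≠ s - 1 := fun c => by
    rcases hs.2 with e | e
    · omega
    · exact e (c ▸ h1)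
  exact ⟨_, by omega, hl, h1, hs.1, fun j hj hj' => Nat.findGreatest_is_greatest hj (by omega)⟩

theorem cap_of_en {t f : ℕ} (ht : En deep l t) (hl : f ≤ l) (hf : deep f) (h : t < f) :
    ∃ k, Cap deep l t k := by
  classical
  have ex : ∃ k, t < k ∧ deep k := ⟨f, h, hf⟩
  have h1 := Nat.find_spec ex
  have h2 := Nat.find_min' ex ⟨h, hf⟩
  have h3 : Nat.find ex ≠ t + 1 := fun c => by
    rcases ht.2 with e | e
    · omega
    · exact e (c ▸ h1.2)
  exact ⟨_, by have := h1.1; omega, by omega, ht.1, h1.2,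
    fun j hj hj' c => Nat.find_min ex hj' ⟨hj, c⟩⟩

end Runs

open Runs in
theorem runsS (hU : UncapS) : RunsS := by
  classical
  intro n p x y l fs la deep π hD h1 h2 h3 h4 h5
  have hfl : ∀ i < n, fs i ≤ la i := fun i hi => by
    by_contra c
    exact (h1 i hi).2.1 _ (by omega) (h1 i hi).2.2.1
  have hll : ∀ i < n, la i ≤ l i := fun i hi => (h1 i hi).2.2.2.1
  have hfl' : ∀ i < n, fs i ≤ l i := fun i hi => (hfl i hi).trans (hll i hi)
  have hfs : ∀ i < n, St (deep i) (fs i) := fun i hi => ⟨(h1 i hi).1, by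
    by_cases c : fs i = 0
    exacts [Or.inl c, Or.inr ((h1 i hi).2.1 _ (by omega))]⟩
  have hla : ∀ i < n, En (deep i) (l i) (la i) := fun i hi => ⟨(h1 i hi).2.2.1, by
    by_cases c : la i = l i
    exacts [Or.inl c, Or.inr ((h1 i hi).2.2.2.2 _ (by omega) (by have := hll i hi; omega))]⟩
  have hlo : ∀ i < n, ∀ k, deep i k → fs i ≤ k := fun i hi k hk => by
    by_contra c
    exact (h1 i hi).2.1 _ (by omega) hk
  have hhi : ∀ i < n, ∀ k ≤ l i, deep i k → k ≤ la i := fun i hi k hk hk' => by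
    by_contra c
    exact (h1 i hi).2.2.2.2 _ (by omega) hk hk'
  have hlt : ∀ i < n, ∀ s t, Run (deep i) (l i) s t → s < t := fun i hi s t h =>
    lt_of_le_of_ne h.1 fun c => h2 i hi s (h.1.trans h.2.1) h.2.2.1 (c ▸ h.2.2.2.1)
  have SS : ∀ i < n, ∀ k ≤ l i, ∀ i' < n, ∀ k' ≤ l i', St (deep i) k → St (deep i') k' →
      π i k = π i' k' → i = i' ∧ k = k' := fun i hi k hk i' hi' k' hk' a b =>
    h3 i hi k hk i' hi' k' hk' (Or.inl a) (Or.inl b)
  have EE : ∀ i < n, ∀ k ≤ l i, ∀ i' < n, ∀ k' ≤ l i', En (deep i) (l i) k →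
      En (deep i') (l i') k' → π i k = π i' k' → i = i' ∧ k = k' :=
    fun i hi k hk i' hi' k' hk' a b => h3 i hi k hk i' hi' k' hk' (Or.inr a) (Or.inr b)
  have SE : ∀ i < n, ∀ k ≤ l i, ∀ i' < n, ∀ k' ≤ l i', St (deep i) k →
      En (deep i') (l i') k' → π i k ≠ π i' k' := fun i hi k hk i' hi' k' hk' a b c => by
    obtain ⟨rfl, rfl⟩ := h3 i hi k hk i' hi' k' hk' (Or.inl a) (Or.inr b) c
    exact h2 i hi k hk a b
  obtain ⟨σ, σi, σ1, -⟩ := invol (fun a b => ∃ i < n, ∃ s t, Run (deep i) (l i) s t ∧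
      ((a = π i s ∧ b = π i t) ∨ (a = π i t ∧ b = π i s)))
    (fun a b ⟨i, hi, s, t, h, e⟩ => ⟨i, hi, s, t, h, e.symm.imp And.symm And.symm⟩) (by
      rintro a b c ⟨i, hi, s, t, h, e⟩ ⟨i', hi', s', t', h', e'⟩
      have q := h.1.trans h.2.1
      have q' := h'.1.trans h'.2.1
      rcases e with ⟨rfl, rfl⟩ | ⟨rfl, rfl⟩ <;> rcases e' with ⟨e', rfl⟩ | ⟨e', rfl⟩
      · obtain ⟨rfl, rfl⟩ := SS i hi s q i' hi' s' q' h.2.2.1 h'.2.2.1 e'
        rw [run_t h h']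
      · exact absurd e' (SE i hi s q i' hi' t' h'.2.1 h.2.2.1 h'.2.2.2.1)
      · exact absurd e'.symm (SE i' hi' s' q' i hi t h.2.1 h'.2.2.1 h.2.2.2.1)
      · obtain ⟨rfl, rfl⟩ := EE i hi t h.2.1 i' hi' t' h'.2.1 h.2.2.2.1 h'.2.2.2.1 e'
        rw [run_s h h'])
  have cl : ∀ i k k', Cap (deep i) (l i) k k' → k ≤ l i := fun i k k' h => by
    have := h.1
    have := h.2.1
    omega
  obtain ⟨ν, νi, ν1, ν2⟩ := invol (fun a b => ∃ i < n, ∃ k k', Cap (deep i) (l i) k k' ∧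
      ((a = π i k ∧ b = π i k') ∨ (a = π i k' ∧ b = π i k)))
    (fun a b ⟨i, hi, s, t, h, e⟩ => ⟨i, hi, s, t, h, e.symm.imp And.symm And.symm⟩) (by
      rintro a b c ⟨i, hi, s, t, h, e⟩ ⟨i', hi', s', t', h', e'⟩
      have q := cl _ _ _ h
      have q' := cl _ _ _ h'
      rcases e with ⟨rfl, rfl⟩ | ⟨rfl, rfl⟩ <;> rcases e' with ⟨e', rfl⟩ | ⟨e', rfl⟩
      · obtain ⟨rfl, rfl⟩ := EE i hi s q i' hi' s' q' (cap_en h) (cap_en h') e'
        rw [cap_r h h']
      · exact absurd e'.symm (SE i' hi' t' h'.2.1 i hi s q (cap_st h') (cap_en h))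
      · exact absurd e' (SE i hi t h.2.1 i' hi' s' q' (cap_st h) (cap_en h'))
      · obtain ⟨rfl, rfl⟩ := SS i hi t h.2.1 i' hi' t' h'.2.1 (cap_st h) (cap_st h') e'
        rw [cap_l h h'])
  let E : Finset ℕ := (Finset.range n).biUnion fun i =>
    ((Finset.range (l i + 1)).filter fun k => St (deep i) k ∨ En (deep i) (l i) k).image (π i)
  have hE : ∀ z, z ∈ E ↔ ∃ i < n, ∃ k ≤ l i, (St (deep i) k ∨ En (deep i) (l i) k) ∧ π i k = z :=
    fun z => by
      simp only [E, Finset.mem_biUnion, Finset.mem_range, Finset.mem_image, Finset.mem_filter,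
        Nat.lt_succ_iff, and_assoc]
  have hrun : ∀ z ∈ E, ∃ i < n, ∃ s t, Run (deep i) (l i) s t ∧
      ((z = π i s ∧ σ z = π i t) ∨ (z = π i t ∧ σ z = π i s)) := fun z hz => by
    obtain ⟨i, hi, k, hk, a | a, rfl⟩ := (hE z).1 hz
    · obtain ⟨t, ht⟩ := run_of_st a hk
      exact ⟨i, hi, k, t, ht, Or.inl ⟨rfl, σ1 _ _ ⟨i, hi, k, t, ht, Or.inl ⟨rfl, rfl⟩⟩⟩⟩
    · obtain ⟨s, hs⟩ := run_of_en a hk
      exact ⟨i, hi, s, k, hs, Or.inr ⟨rfl, σ1 _ _ ⟨i, hi, s, k, hs, Or.inr ⟨rfl, rfl⟩⟩⟩⟩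
  have hfix : ∀ z ∈ E, ν z = z ↔ ∃ i < n, z = π i (fs i) ∨ z = π i (la i) := fun z hz => by
    constructor
    · intro e
      obtain ⟨i, hi, k, hk, a | a, rfl⟩ := (hE z).1 hz
      · rcases (hlo i hi k a.1).eq_or_lt with c | c
        · exact ⟨i, hi, Or.inl (by rw [c])⟩
        · obtain ⟨j, hj⟩ := cap_of_st a hk (hfs i hi).1 c
          rw [ν1 _ _ ⟨i, hi, j, k, hj, Or.inr ⟨rfl, rfl⟩⟩] at e
          exact absurd e.symm (SE i hi k hk i hi j (cl _ _ _ hj) a (cap_en hj))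
      · rcases (hhi i hi k hk a.1).eq_or_lt with c | c
        · exact ⟨i, hi, Or.inr (by rw [c])⟩
        · obtain ⟨j, hj⟩ := cap_of_en a (hll i hi) (hla i hi).1 c
          rw [ν1 _ _ ⟨i, hi, k, j, hj, Or.inl ⟨rfl, rfl⟩⟩] at e
          exact absurd e (SE i hi j hj.2.1 i hi k hk (cap_st hj) a)
    · rintro ⟨i, hi, e⟩
      by_contra c
      obtain ⟨j, hj, k, k', h, e'⟩ := ν2 z c
      have q := cl _ _ _ h
      rcases e with rfl | rfl <;> rcases e' with ⟨e', -⟩ | ⟨e', -⟩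
      · exact SE i hi _ (hfl' i hi) j hj k q (hfs i hi) (cap_en h) e'
      · obtain ⟨rfl, rfl⟩ := SS i hi _ (hfl' i hi) j hj k' h.2.1 (hfs i hi) (cap_st h) e'
        have := hlo i hi k h.2.2.1
        have := h.1
        omega
      · obtain ⟨rfl, rfl⟩ := EE i hi _ (hll i hi) j hj k q (hla i hi) (cap_en h) e'
        have := hhi i hi k' h.2.1 h.2.2.2.1
        have := h.1
        omega
      · exact SE j hj k' h.2.1 i hi _ (hll i hi) (cap_st h) (hla i hi) e'.symm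
  have hD' : Dg n (fun i => π i (fs i)) (fun i => π i (la i)) p := by
    refine transfer hD (fun i hi j hj => ⟨?_, fun c => ⟨fun e => c ?_, fun e => c ?_⟩⟩) ?_
    · exact SE i hi _ (hfl' i hi) j hj _ (hll j hj) (hfs i hi) (hla j hj)
    · exact (SS i hi _ (hfl' i hi) j hj _ (hfl' j hj) (hfs i hi) (hfs j hj) e).1
    · exact (EE i hi _ (hll i hi) j hj _ (hll j hj) (hla i hi) (hla j hj) e).1
    · intro a b c d ha hb hc hd ab ac ad bc bd cd k
      have q : ∀ e : ℕ × Bool, nd (fun i => π i (fs i)) (fun i => π i (la i)) e =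
          π e.1 (if e.2 then la e.1 else fs e.1) := fun e => by
        obtain ⟨i, b⟩ := e
        cases b <;> rfl
      simp only [q]
      refine h4 ![a, b, c, d] ?_ (fun t => ?_) k
      · intro s t e
        fin_cases s <;> fin_cases t <;> first | rfl | exact absurd e ‹_› | exact absurd e.symm ‹_›
      · fin_cases t <;> assumption
  obtain ⟨m, u, hu, hm⟩ := hU E σ ν n p (fun i => π i (fs i)) (fun i => π i (la i)) σi νi
    (fun z hz => by
      obtain ⟨i, hi, s, t, h, e⟩ := hrun z hz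
      have q := h.1.trans h.2.1
      have ne := SE i hi s q i hi t h.2.1 h.2.2.1 h.2.2.2.1
      refine ⟨?_, ?_, ?_⟩
      · rcases e with ⟨-, e⟩ | ⟨-, e⟩
        · exact (hE _).2 ⟨i, hi, t, h.2.1, Or.inr h.2.2.2.1, e.symm⟩
        · exact (hE _).2 ⟨i, hi, s, q, Or.inl h.2.2.1, e.symm⟩
      · rcases e with ⟨e, e'⟩ | ⟨e, e'⟩ <;> rw [e', e]
        exacts [ne.symm, ne]
      · by_cases c : ν z = z
        · rwa [c]
        · obtain ⟨j, hj, k, k', h, ⟨-, e⟩ | ⟨-, e⟩⟩ := ν2 z c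
          · exact (hE _).2 ⟨j, hj, k', h.2.1, Or.inl (cap_st h), e.symm⟩
          · exact (hE _).2 ⟨j, hj, k, cl _ _ _ h, Or.inr (cap_en h), e.symm⟩)
    (fun z _ w _ hz hw n1 n2 => by
      obtain ⟨i, hi, k, k', h, e⟩ := ν2 z hz
      obtain ⟨j, hj, a, a', h', e'⟩ := ν2 w hw
      have q := (h5 i hi k k' h).1 j hj a a' h' (fun c => by
        obtain ⟨rfl, rfl⟩ := Prod.mk.inj c
        obtain rfl := cap_r h h'
        rcases e with ⟨e1, e2⟩ | ⟨e1, e2⟩ <;> rcases e' with ⟨e3, -⟩ | ⟨e3, -⟩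
        exacts [n1 (e3.trans e1.symm), n2 (e3.trans e2.symm), n2 (e3.trans e2.symm),
          n1 (e3.trans e1.symm)])
      rcases e with ⟨e1, e2⟩ | ⟨e1, e2⟩ <;> rcases e' with ⟨e3, e4⟩ | ⟨e3, e4⟩ <;>
        rw [e2, e4, e1, e3] <;> intro c
      exacts [q c, q (xs_r c), q (xs_l c), q (xs_l (xs_r c))])
    (fun z _ hz a ha b hb ea eb => by
      obtain ⟨i, hi, k, k', h, e⟩ := ν2 z hz
      obtain ⟨j, hj, e1⟩ := (hfix a ha).1 ea
      obtain ⟨j', hj', e2⟩ := (hfix b hb).1 eb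
      obtain ⟨r, hr, rfl⟩ : ∃ r, (r = fs j ∨ r = la j) ∧ a = π j r := by
        rcases e1 with e1 | e1
        exacts [⟨_, Or.inl rfl, e1⟩, ⟨_, Or.inr rfl, e1⟩]
      obtain ⟨r', hr', rfl⟩ : ∃ r, (r = fs j' ∨ r = la j') ∧ b = π j' r := by
        rcases e2 with e2 | e2
        exacts [⟨_, Or.inl rfl, e2⟩, ⟨_, Or.inr rfl, e2⟩]
      have q := (h5 i hi k k' h).2 j hj j' hj' r r' hr hr'
      rcases e with ⟨e1, e2⟩ | ⟨e1, e2⟩ <;> rw [e2, e1] <;> intro c
      exacts [q c, q (xs_l c)])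
    hfix
    (fun i hi => by
      refine ⟨(hE _).2 ⟨i, hi, _, hfl' i hi, Or.inl (hfs i hi), rfl⟩,
        (hE _).2 ⟨i, hi, _, hll i hi, Or.inr (hla i hi), rfl⟩, ?_⟩
      have k : ∀ k ≤ l i, St (deep i) k ∨ En (deep i) (l i) k → CC σ ν (π i (fs i)) (π i k) := by
        intro k
        induction k using Nat.strong_induction_on with
        | _ k ih =>
          rintro hk (a | a)
          · rcases (hlo i hi k a.1).eq_or_lt with c | c
            · rw [c]
              exact Relation.ReflTransGen.refl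
            · obtain ⟨j, hj⟩ := cap_of_st a hk (hfs i hi).1 c
              exact (ih j (by have := hj.1; omega) (cl _ _ _ hj) (Or.inr (cap_en hj))).tail
                (Or.inr (ν1 _ _ ⟨i, hi, j, k, hj, Or.inl ⟨rfl, rfl⟩⟩).symm)
          · obtain ⟨s, hs⟩ := run_of_en a hk
            exact (ih s (hlt i hi s k hs) (hs.1.trans hk) (Or.inl hs.2.2.1)).tail
              (Or.inl (σ1 _ _ ⟨i, hi, s, k, hs, Or.inl ⟨rfl, rfl⟩⟩).symm)
      exact k _ (hll i hi) (Or.inr (hla i hi)))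
    hD'
  have ch : ∀ j, ∃ i s t, j < m → i < n ∧ Run (deep i) (l i) s t ∧
      ((u j = π i s ∧ σ (u j) = π i t) ∨ (u j = π i t ∧ σ (u j) = π i s)) := fun j => by
    by_cases c : j < m
    · obtain ⟨i, hi, s, t, h⟩ := hrun _ (hu j c)
      exact ⟨i, s, t, fun _ => ⟨hi, h⟩⟩
    · exact ⟨0, 0, 0, fun h => absurd h c⟩
  choose r s t hr using ch
  refine ⟨m, r, s, t, fun j hj => ?_, swap hm fun j hj => ?_⟩
  · obtain ⟨a, b, -⟩ := hr j hj
    exact ⟨a, hlt _ a _ _ b, b.2⟩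
  · rcases (hr j hj).2.2 with ⟨a, b⟩ | ⟨a, b⟩
    exacts [Or.inl ⟨a.symm, b.symm⟩, Or.inr ⟨b.symm, a.symm⟩]

end Pool.Agent.MP_9d78a0_co.st

end MrgPart1

-- marker of a merged file
example : 731051 + 788148 = 731051 + 788148 := rfl
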