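import Pool.Agent.MP_9d78a0_co.st.TRg
import Pool.Agent.MP_9d78a0_co.st.Dbl
import Pool.Agent.MP_9d78a0_co.st.Del
import Pool.Agent.MP_9d78a0_co.st.In
import Mathlib.Data.Nat.Nth
import Pool.Agent.MP_9d78a0_co.st.Out
import Pool.Agent.MP_9d78a0_co.gm.BGrid

-- ======== part 0: formerly Pool.Agent.MP_9d78a0_co.st.Kit
section MrgPart0

/-! Operations on drawings. -/

set_option autoImplicit false

namespace Pool.Agent.MP_9d78a0_co.st

open Set Function fb

namespace Kit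

variable {V : Type}

theorem Ends.mem {Y : List V} {a b : V} (h : Ends Y a b) : a ∈ Y ∧ b ∈ Y :=
  ⟨List.mem_of_mem_head? h.1, List.mem_of_mem_getLast? h.2⟩

theorem letters {cs : List (Cell V)} {ws : List (List V)} {g : ℕ} (h : Dr cs ws g) :
    ∀ w ∈ ws, ∀ x ∈ w, ∃ c ∈ cs, x ∈ c.N := by
  have L : ∀ {cs cs' : List (Cell V)} {x : V}, (∃ c ∈ cs, x ∈ c.N) → ∃ c ∈ cs ++ cs', x ∈ c.N :=
    fun ⟨c, h1, h2⟩ => ⟨c, List.mem_append_left _ h1, h2⟩
  have R : ∀ {cs cs' : List (Cell V)} {x : V}, (∃ c ∈ cs', x ∈ c.N) → ∃ c ∈ cs ++ cs', x ∈ c.N :=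
    fun ⟨c, h1, h2⟩ => ⟨c, List.mem_append_right _ h1, h2⟩
  induction h with
  | new c =>
    intro w hw x hx
    rw [List.mem_singleton] at hw
    subst hw
    exact ⟨c, List.mem_singleton_self _, hx⟩
  | union _ _ _ i1 i2 =>
    intro w hw x hx
    rcases List.mem_append.1 hw with h | h
    · exact L (i1 w h x hx)
    · exact R (i2 w h x hx)
  | nil _ i1 =>
    intro w hw x hx
    rcases List.mem_cons.1 hw with rfl | h
    · simp at hx
    · exact i1 w h x hx
  | @join cs cs' ws ws' g g' Y A B a b _ _ _ _ e i1 i2 =>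
    have e1 := Ends.mem e
    have j1 := i1 _ List.mem_cons_self
    have j2 := i2 _ List.mem_cons_self
    intro w hw x hx
    rcases List.mem_cons.1 hw with rfl | h
    · simp only [List.mem_append, List.mem_cons] at hx
      rcases hx with (rfl | h) | rfl | h
      · exact L (j1 _ (by simp [e1.2]))
      · exact L (j1 _ (by simp [h]))
      · exact L (j1 _ (by simp [e1.1]))
      · exact R (j2 _ (by simp [h]))
    · rcases List.mem_append.1 h with h | h
      · exact L (i1 w (List.mem_cons_of_mem _ h) x hx)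
      · exact R (i2 w (List.mem_cons_of_mem _ h) x hx)
  | @x2 cs cs' ws ws' g g' Y Z A B C D a b c d _ _ _ _ e e' i1 i2 =>
    have e1 := Ends.mem e
    have e2 := Ends.mem e'
    have j1 := i1 _ List.mem_cons_self
    have j2 := i2 _ List.mem_cons_self
    intro w hw x hx
    rcases List.mem_cons.1 hw with rfl | h
    · simp only [List.mem_append, List.mem_cons, List.mem_reverse] at hx
      rcases hx with (((rfl | h) | rfl | h) | rfl | h) | rfl | h
      · exact L (j1 _ (by simp [e1.2]))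
      · exact L (j1 _ (by simp [h]))
      · exact L (j1 _ (by simp [e2.1]))
      · exact R (j2 _ (by simp [h]))
      · exact L (j1 _ (by simp [e1.1]))
      · exact L (j1 _ (by simp [h]))
      · exact L (j1 _ (by simp [e2.2]))
      · exact R (j2 _ (by simp [h]))
    · rcases List.mem_append.1 h with h | h
      · exact L (i1 w (List.mem_cons_of_mem _ h) x hx)
      · exact R (i2 w (List.mem_cons_of_mem _ h) x hx)
  | @s2 cs cs' ws ws' g g' Y Z A B C D a b c d _ _ _ _ e e' i1 i2 =>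
    have e1 := Ends.mem e
    have e2 := Ends.mem e'
    have j1 := i1 _ List.mem_cons_self
    have j2 := i2 _ List.mem_cons_self
    intro w hw x hx
    rcases List.mem_cons.1 hw with rfl | h
    · simp only [List.mem_append, List.mem_cons] at hx
      rcases hx with (rfl | h) | rfl | h
      · exact L (j1 _ (by simp [e1.2]))
      · exact L (j1 _ (by simp [h]))
      · exact L (j1 _ (by simp [e2.1]))
      · exact R (j2 _ (by simp [h]))
    rcases List.mem_cons.1 h with rfl | h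
    · simp only [List.mem_append, List.mem_cons] at hx
      rcases hx with (rfl | h) | rfl | h
      · exact L (j1 _ (by simp [e2.2]))
      · exact L (j1 _ (by simp [h]))
      · exact L (j1 _ (by simp [e1.1]))
      · exact R (j2 _ (by simp [h]))
    · rcases List.mem_append.1 h with h | h
      · exact L (i1 w (List.mem_cons_of_mem _ h) x hx)
      · exact R (i2 w (List.mem_cons_of_mem _ h) x hx)
  | @m2 cs cs' ws ws' g g' Y Z A B C D a b c d _ _ _ _ e e' i1 i2 =>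
    have e1 := Ends.mem e
    have e2 := Ends.mem e'
    have j1 := i1 _ List.mem_cons_self
    have j3 := i1 _ (List.mem_cons_of_mem _ List.mem_cons_self)
    have j2 := i2 _ List.mem_cons_self
    intro w hw x hx
    rcases List.mem_cons.1 hw with rfl | h
    · simp only [List.mem_append, List.mem_cons] at hx
      rcases hx with (((rfl | h) | rfl | h) | rfl | h) | rfl | h
      · exact L (j1 _ (by simp [e1.2]))
      · exact L (j1 _ (by simp [h]))
      · exact L (j1 _ (by simp [e1.1]))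
      · exact R (j2 _ (by simp [h]))
      · exact L (j3 _ (by simp [e2.2]))
      · exact L (j3 _ (by simp [h]))
      · exact L (j3 _ (by simp [e2.1]))
      · exact R (j2 _ (by simp [h]))
    · rcases List.mem_append.1 h with h | h
      · exact L (i1 w (List.mem_cons_of_mem _ (List.mem_cons_of_mem _ h)) x hx)
      · exact R (i2 w (List.mem_cons_of_mem _ h) x hx)
  | sub _ hs i1 =>
    intro w hw x hx
    rcases List.mem_cons.1 hw with rfl | h
    · exact i1 _ List.mem_cons_self x (hs.subset hx)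
    · exact i1 w (List.mem_cons_of_mem _ h) x hx
  | forget _ i1 => exact fun w hw x hx => i1 w (List.mem_cons_of_mem _ hw) x hx
  | rot _ hs i1 =>
    intro w hw x hx
    rcases List.mem_cons.1 hw with rfl | h
    · exact i1 _ List.mem_cons_self x (hs.mem_iff.2 hx)
    · exact i1 w (List.mem_cons_of_mem _ h) x hx
  | rev _ i1 =>
    intro w hw x hx
    rcases List.mem_cons.1 hw with rfl | h
    · exact i1 _ List.mem_cons_self x (List.mem_reverse.1 hx)
    · exact i1 w (List.mem_cons_of_mem _ h) x hx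
  | perm _ p1 p2 _ i1 =>
    intro w hw x hx
    obtain ⟨c, h1, h2⟩ := i1 w (p2.mem_iff.2 hw) x hx
    exact ⟨c, p1.mem_iff.1 h1, h2⟩

/-- the relation of the second invariant -/
def Rl (c c' : Cell V) : Prop := c.W ∩ c'.W ⊆ ls c.N ∩ ls c'.N

theorem Rl.symm {c c' : Cell V} (h : Rl c c') : Rl c' c :=
  fun _ hv => ⟨(h ⟨hv.2, hv.1⟩).2, (h ⟨hv.2, hv.1⟩).1⟩

theorem node_of {cs : List (Cell V)} (h1 : ∀ c ∈ cs, ls c.N ⊆ c.W) (h2 : cs.Pairwise Rl)
    {c : Cell V} (hc : c ∈ cs) {v : V} (hv : v ∈ c.W) (h3 : ∃ c0 ∈ cs, v ∈ c0.N) : v ∈ c.N := by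
  obtain ⟨c0, h4, h5⟩ := h3
  by_cases e : c = c0
  · exact e ▸ h5
  · have : Std.Symm (Rl (V := V)) := ⟨fun _ _ => Rl.symm⟩
    exact (h2.forall hc h4 e ⟨hv, h1 c0 h4 h5⟩).1

theorem pw_app {cs cs' : List (Cell V)} {S : Set V} (i1 : (∀ c ∈ cs, ls c.N ⊆ c.W) → cs.Pairwise Rl)
    (i2 : (∀ c ∈ cs', ls c.N ⊆ c.W) → cs'.Pairwise Rl) (hS : Vc cs ∩ Vc cs' ⊆ S)
    (l1 : ∀ x ∈ S, ∃ c ∈ cs, x ∈ c.N) (l2 : ∀ x ∈ S, ∃ c ∈ cs', x ∈ c.N)
    (h : ∀ c ∈ cs ++ cs', ls c.N ⊆ c.W) : (cs ++ cs').Pairwise Rl := by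
  have h1 : ∀ c ∈ cs, ls c.N ⊆ c.W := fun c hc => h c (List.mem_append_left _ hc)
  have h2 : ∀ c ∈ cs', ls c.N ⊆ c.W := fun c hc => h c (List.mem_append_right _ hc)
  refine List.pairwise_append.2 ⟨i1 h1, i2 h2, fun c hc c' hc' v hv => ?_⟩
  have hv' := hS ⟨⟨c, hc, hv.1⟩, ⟨c', hc', hv.2⟩⟩
  exact ⟨node_of h1 (i1 h1) hc hv.1 (l1 v hv'), node_of h2 (i2 h2) hc' hv.2 (l2 v hv')⟩

theorem pw {cs : List (Cell V)} {ws : List (List V)} {g : ℕ} (h : Dr cs ws g) :
    (∀ c ∈ cs, ls c.N ⊆ c.W) → cs.Pairwise Rl := by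
  induction h with
  | new c => exact fun _ => List.pairwise_singleton _ _
  | union _ _ hd i1 i2 =>
    exact pw_app (S := ∅) i1 i2 (Set.disjoint_iff.1 hd) (by simp) (by simp)
  | nil _ i1 => exact i1
  | join d1 d2 hS _ _ i1 i2 =>
    exact pw_app i1 i2 hS
      (fun x hx => letters d1 _ List.mem_cons_self x (by simp only [ls, mem_ofPred_eq] at hx; simp [hx]))
      (fun x hx => letters d2 _ List.mem_cons_self x (by simp only [ls, mem_ofPred_eq] at hx; simp [hx]))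
  | x2 d1 d2 hS _ _ _ i1 i2 =>
    refine pw_app i1 i2 hS (fun x hx => letters d1 _ List.mem_cons_self x ?_)
      (fun x hx => letters d2 _ List.mem_cons_self x ?_)
    all_goals
      simp only [ls, mem_ofPred_eq, List.mem_append] at hx
      rcases hx with hx | hx <;> simp [hx]
  | s2 d1 d2 hS _ _ _ i1 i2 =>
    refine pw_app i1 i2 hS (fun x hx => letters d1 _ List.mem_cons_self x ?_)
      (fun x hx => letters d2 _ List.mem_cons_self x ?_)
    all_goals
      simp only [ls, mem_ofPred_eq, List.mem_append] at hx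
      rcases hx with hx | hx <;> simp [hx]
  | m2 d1 d2 hS _ _ _ i1 i2 =>
    refine pw_app i1 i2 hS (fun x hx => ?_) (fun x hx => letters d2 _ List.mem_cons_self x ?_)
    · simp only [ls, mem_ofPred_eq, List.mem_append] at hx
      rcases hx with hx | hx
      · exact letters d1 _ List.mem_cons_self x (by simp [hx])
      · exact letters d1 _ (List.mem_cons_of_mem _ List.mem_cons_self) x (by simp [hx])
    · simp only [ls, mem_ofPred_eq, List.mem_append] at hx
      rcases hx with hx | hx <;> simp [hx]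
  | sub _ _ i1 => exact i1
  | forget _ i1 => exact i1
  | rot _ _ i1 => exact i1
  | rev _ i1 => exact i1
  | perm _ p1 _ _ i1 =>
    intro h
    exact (p1.pairwise_iff fun h => Rl.symm h).1 (i1 fun c hc => h c (p1.mem_iff.1 hc))

variable {H H1 H2 : SimpleGraph V} {U U1 U2 S : Set V} {ws ws' : List (List V)}
  {g g' q q' d : ℕ}

theorem mem (h : Drawn H U ws g q d) {w : List V} (hw : w ∈ ws) {x : V} (hx : x ∈ w) : x ∈ U := by
  obtain ⟨cs, h1, h2, h3, -⟩ := h
  obtain ⟨c, h4, h5⟩ := letters h1 w hw x hx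
  exact h2.cov ▸ ⟨c, h4, (h3 c h4).soc.sub x h5⟩

theorem tight (h : Drawn H U ws g q d) : Tight H U := by
  obtain ⟨cs, -, h2, h3, -⟩ := h
  intro u v e
  obtain ⟨c, h4, h5⟩ := (h2.adj u v).1 e
  exact h2.cov ▸ ⟨c, h4, (h3 c h4).soc.tight u v h5⟩

theorem depth_mono {L : List V} {d' : ℕ} (h : Depth H U L d) (hd : d ≤ d') : Depth H U L d' := by
  intro X Y hr R hR hp
  refine h X Y hr (fun i => R (Fin.castLE (by omega) i)) (fun i => hR _) fun i j hij => ?_
  exact hp fun e => hij (Fin.castLE_injective _ e)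

theorem mono {d' : ℕ} (h : Drawn H U ws g q d) (h1 : g ≤ g') (h2 : q ≤ q') (h3 : d ≤ d') :
    Drawn H U ws g' q' d' := by
  obtain ⟨cs, a1, a2, a3, a4⟩ := h
  refine ⟨cs, a1.perm (.refl _) (.refl _) h1, a2, fun c hc => ?_, a4.trans h2⟩
  have o := a3 c hc
  exact ⟨o.soc, o.len, o.two, o.star, fun e => depth_mono (o.hole e) h3, o.void⟩

theorem one {ws' : List (List V)} (h : Drawn H U ws g q d)
    (f : ∀ cs : List (Cell V), Dr cs ws g → Dr cs ws' g') : Drawn H U ws' g' q d := by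
  obtain ⟨cs, a1, a2⟩ := h
  exact ⟨cs, f cs a1, a2⟩

theorem sub {w w' : List V} (h : Drawn H U (w :: ws) g q d) (hs : List.Sublist w' w) :
    Drawn H U (w' :: ws) g q d := one h fun _ a => a.sub hs

theorem rot {w w' : List V} (h : Drawn H U (w :: ws) g q d) (hs : List.IsRotated w w') :
    Drawn H U (w' :: ws) g q d := one h fun _ a => a.rot hs

theorem rev {w : List V} (h : Drawn H U (w :: ws) g q d) : Drawn H U (w.reverse :: ws) g q d :=
  one h fun _ a => a.rev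

theorem forget {w : List V} (h : Drawn H U (w :: ws) g q d) : Drawn H U ws g q d :=
  one h fun _ a => a.forget

theorem nil (h : Drawn H U ws g q d) : Drawn H U ([] :: ws) g q d := one h fun _ a => a.nil

theorem perm (h : Drawn H U ws g q d) (p : List.Perm ws ws') : Drawn H U ws' g q d :=
  one h fun _ a => a.perm (.refl _) p le_rfl

theorem swap {w w' : List V} (h : Drawn H U (w :: w' :: ws) g q d) :
    Drawn H U (w' :: w :: ws) g q d := perm h (List.Perm.swap _ _ _)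

/-- the word is cut in two parts, which change places -/
theorem turn {w w' : List V} (X Y : List V) (h : Drawn H U (w :: ws) g q d) (e : w = X ++ Y)
    (e' : w' = Y ++ X) : Drawn H U (w' :: ws) g q d := by
  subst e e'
  exact rot h List.isRotated_append

theorem cast {w w' : List V} (h : Drawn H U (w :: ws) g q d) (e : w = w') :
    Drawn H U (w' :: ws) g q d := e ▸ h

theorem rend_app {cs cs' : List (Cell V)} (s : Split H H1 H2 U U1 U2 S) (r1 : Rend H1 U1 cs)
    (r2 : Rend H2 U2 cs') : Rend H U (cs ++ cs') := by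
  refine ⟨fun u v => ?_, List.pairwise_append.2 ⟨r1.dis, r2.dis, fun c hc c' hc' => ?_⟩, ?_⟩
  · rw [← s.sup, SimpleGraph.sup_adj, r1.adj, r2.adj]
    simp only [List.mem_append, or_and_right, exists_or]
  · exact s.dis.mono (fun u v e => (r1.adj u v).2 ⟨c, hc, e⟩) fun u v e => (r2.adj u v).2 ⟨c', hc', e⟩
  · rw [← s.un, ← r1.cov, ← r2.cov]
    ext v
    simp only [Vc, List.mem_append, or_and_right, exists_or, mem_ofPred_eq, mem_union]

theorem two {w3 : List (List V)} {g3 : ℕ} (s : Split H H1 H2 U U1 U2 S) (h1 : Drawn H1 U1 ws g q d)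
    (h2 : Drawn H2 U2 ws' g' q' d)
    (f : ∀ cs cs' : List (Cell V), Dr cs ws g → Dr cs' ws' g' → Vc cs ∩ Vc cs' = S →
      Dr (cs ++ cs') w3 g3) : Drawn H U w3 g3 (q + q') d := by
  obtain ⟨cs, a1, a2, a3, a4⟩ := h1
  obtain ⟨cs', b1, b2, b3, b4⟩ := h2
  refine ⟨cs ++ cs', f cs cs' a1 b1 (by rw [a2.cov, b2.cov, s.int]), rend_app s a2 b2,
    fun c hc => (List.mem_append.1 hc).elim (a3 c) (b3 c), ?_⟩
  rw [List.countP_append]
  omega

theorem single (c : Cell V) (o : c.Ok d) (k : c.k ≠ .hole) : Drawn c.g c.W [c.N] 0 0 d := by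
  refine ⟨[c], Dr.new c, ⟨by simp, List.pairwise_singleton _ _, ?_⟩, by simpa using o, by simp [k]⟩
  ext v
  simp [Vc]

/-- the drawing of a void cell -/
theorem void {x y : V} (e : x ≠ y) (d : ℕ) : Drawn (⊥ : SimpleGraph V) {x, y} [[x, y]] 0 0 d := by
  refine single ⟨⊥, {x, y}, [x, y], .void⟩ ⟨⟨fun _ _ h => h.elim, by simp [e], by simp⟩, ?_, ?_, ?_,
    ?_, fun _ => ⟨rfl, ?_, rfl⟩⟩ (by simp)
  all_goals first | (ext v; simp [ls]) | simp

/-- one cell without nodes -/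
theorem junk (t : Tight H U) (d : ℕ) : Drawn H U [] 0 0 d :=
  forget (single ⟨H, U, [], .cell⟩ ⟨⟨t, by simp, by simp⟩, by simp, by simp, by simp, by simp,
    by simp⟩ (by simp))

theorem union (s : Split H H1 H2 U U1 U2 ∅) (h1 : Drawn H1 U1 ws g q d)
    (h2 : Drawn H2 U2 ws' g' q' d) : Drawn H U (ws ++ ws') (g + g') (q + q') d :=
  two s h1 h2 fun _ _ a b e => a.union b (Set.disjoint_iff_inter_eq_empty.2 e)

theorem add_junk (s : Split H H1 H2 U U1 U2 ∅) (h1 : Drawn H1 U1 ws g q d) : Drawn H U ws g q d := by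
  simpa using union s h1 (junk s.t2 d)

theorem split_void (t : Tight H U) (T : Set V) : Split H H ⊥ (U ∪ T) U T (U ∩ T) :=
  ⟨sup_bot_eq _, disjoint_bot_right, t, fun _ _ h => h.elim, rfl, rfl⟩

theorem split_in (t : Tight H U) {x y : V} (hx : x ∈ U) (hy : y ∈ U) :
    Split H H ⊥ U U {x, y} (ls ([x] ++ [y])) := by
  have h : ({x, y} : Set V) ⊆ U := by
    rintro _ (rfl | rfl) <;> assumption
  refine ⟨sup_bot_eq _, disjoint_bot_right, t, fun _ _ h => h.elim, union_eq_left.2 h, ?_⟩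
  rw [inter_eq_right.2 h]
  ext v
  simp [ls]

theorem ends_one (x : V) : Ends [x] x x := ⟨rfl, rfl⟩

theorem ends_of {Y : List V} (h : Y ≠ []) : ∃ a b, Ends Y a b ∧ hd Y = [a] ∧ lt Y = [b] := by
  refine ⟨Y.head h, Y.getLast h, ⟨List.head?_eq_some_head h, List.getLast?_eq_some_getLast h⟩, ?_, ?_⟩
  · rw [hd, List.head?_eq_some_head h]; rfl
  · rw [lt, List.getLast?_eq_some_getLast h]; rfl

theorem join1 {Y A B : List V} {a b : V} (s : Split H H1 H2 U U1 U2 S) (hS : S ⊆ ls Y)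
    (n : Y.Nodup) (e : Ends Y a b) (h1 : Drawn H1 U1 ((Y ++ A) :: ws) g q d)
    (h2 : Drawn H2 U2 ((Y.reverse ++ B) :: ws') g' q' d) :
    Drawn H U ((b :: A ++ a :: B) :: (ws ++ ws')) (g + g') (q + q') d :=
  two s h1 h2 fun _ _ a b e' => a.join b (e' ▸ hS) n e

/-- two words of disjoint drawings are written one after the other -/
theorem cat {A B : List V} (s : Split H H1 H2 U U1 U2 ∅) (h1 : Drawn H1 U1 (A :: ws) g q d)
    (h2 : Drawn H2 U2 (B :: ws') g' q' d) :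
    Drawn H U ((A ++ B) :: (ws ++ ws')) (g + g') (q + q') d := by
  rcases A with _ | ⟨x, A⟩
  · exact perm (union s (forget h1) h2) (by simp)
  rcases B with _ | ⟨y, B⟩
  · simpa using union s h1 (forget h2)
  have hx : x ∈ U1 := mem h1 List.mem_cons_self List.mem_cons_self
  have hy : y ∈ U2 := mem h2 List.mem_cons_self List.mem_cons_self
  have hn : ∀ v ∈ U1, v ∉ U2 := fun v a b => (s.int ▸ (⟨a, b⟩ : v ∈ U1 ∩ U2) : v ∈ (∅ : Set V))
  have e : x ≠ y := fun e => hn x hx (e ▸ hy)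
  have k1 := join1 (Y := [x]) (A := A) (B := [y]) (split_void (tight h1) {x, y}) (by
    rintro v ⟨a, rfl | rfl⟩
    · simp [ls]
    · exact (hn _ a hy).elim) (by simp) (ends_one x) h1 (void e d)
  have s2 : Split H H1 H2 U (U1 ∪ {x, y}) U2 (ls [y]) := by
    refine ⟨s.sup, s.dis, fun u v h => Or.inl (s.t1 u v h), s.t2, ?_, ?_⟩
    · rw [← s.un]
      ext v
      constructor
      · rintro ((h | rfl | rfl) | h)
        exacts [Or.inl h, Or.inl hx, Or.inr hy, Or.inr h]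
      · rintro (h | h)
        exacts [Or.inl (Or.inl h), Or.inr h]
    · ext v
      simp only [ls, List.mem_singleton, mem_ofPred_eq]
      constructor
      · rintro ⟨h | rfl | rfl, h'⟩
        exacts [(hn _ h h').elim, (hn _ hx h').elim, rfl]
      · rintro rfl
        exact ⟨Or.inr (Or.inr rfl), hy⟩
  have k2 := join1 (Y := [y]) (A := x :: A ++ [x]) (B := B) s2 subset_rfl (by simp) (ends_one y)
    (turn (x :: A ++ [x]) [y] k1 (by simp) rfl) h2
  have k3 := sub (w' := x :: A ++ y :: B) k2 (by simp)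
  simpa using k3

/-- gluing along one seam -/
theorem join {Y A B : List V} (s : Split H H1 H2 U U1 U2 S) (hS : S ⊆ ls Y) (n : Y.Nodup)
    (h1 : Drawn H1 U1 ((Y ++ A) :: ws) g q d) (h2 : Drawn H2 U2 ((Y.reverse ++ B) :: ws') g' q' d) :
    Drawn H U ((lt Y ++ A ++ hd Y ++ B) :: (ws ++ ws')) (g + g') (q + q') d := by
  by_cases e : Y = []
  · subst e
    have : S = ∅ := eq_empty_of_forall_notMem fun v hv => by simpa [ls] using hS hv
    subst this
    simpa [lt, hd] using cat s h1 h2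
  · obtain ⟨a, b, e1, e2, e3⟩ := ends_of e
    exact cast (join1 s hS n e1 h1 h2) (by simp [e2, e3])

theorem twist1 {P Q : List V} (e : ∀ x y, P.head? = some x → Q.head? = some y → x ≠ y)
    (h : Drawn H U ((P ++ Q) :: ws) g q d) : Drawn H U ((P ++ Q.reverse) :: ws) (g + 2) q d := by
  rcases P with _ | ⟨x, A⟩
  · exact mono (by simpa using rev h) (by omega) le_rfl le_rfl
  rcases Q with _ | ⟨y, B⟩
  · exact mono (by simpa using h) (by omega) le_rfl le_rfl
  have e' := e x y rfl rfl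
  have k := two (split_in (tight h) (mem h List.mem_cons_self (x := x) (by simp))
    (mem h List.mem_cons_self (x := y) (by simp))) h (void e' d) fun _ _ a b e2 =>
      Dr.x2 (Y := [x]) (Z := [y]) (A := A) (B := B) (C := []) (D := []) (ws' := [])
        (by simpa using a) (by simpa using b) e2.le (by simp [e']) (ends_one x) (ends_one y)
  have k3 := sub (w' := x :: A ++ (y :: B).reverse) k (by simp)
  simpa using k3

/-- a part of a word is reversed -/
theorem twist {P Q : List V} (n : Q.Nodup) (e : ∀ x ∈ P, x ∈ Q → ∀ y ∈ P, y ∈ Q → x = y)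
    (h : Drawn H U ((P ++ Q) :: ws) g q d) : Drawn H U ((P ++ Q.reverse) :: ws) (g + 2) q d := by
  by_cases c1 : ∀ x y, P.head? = some x → Q.head? = some y → x ≠ y
  · exact twist1 c1 h
  by_cases c2 : ∀ x y, P.reverse.head? = some x → Q.reverse.head? = some y → x ≠ y
  · have k := twist1 c2 (turn Q.reverse P.reverse (rev h) (by simp) rfl)
    exact turn Q.reverse P (rev k) (by simp) rfl
  push Not at c1 c2
  obtain ⟨x, _, a1, a2, rfl⟩ := c1
  obtain ⟨y, _, b1, b2, rfl⟩ := c2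
  have e1 : x = y := e x (List.mem_of_mem_head? a1) (List.mem_of_mem_head? a2) y
    (List.mem_reverse.1 (List.mem_of_mem_head? b1)) (List.mem_reverse.1 (List.mem_of_mem_head? b2))
  subst e1
  have e2 : Q.reverse = Q := by
    rcases Q with _ | ⟨z, Q⟩
    · rfl
    obtain rfl : z = x := by simpa using a2
    rcases Q with _ | ⟨w, Q⟩
    · rfl
    rw [List.head?_reverse, List.getLast?_cons_cons] at b2
    exact ((List.nodup_cons.1 n).1 (List.mem_of_mem_getLast? b2)).elim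
  rw [e2]
  exact mono h (by omega) le_rfl le_rfl

/-- a word is cut in two words -/
theorem split {P Q : List V} (e : List.Disjoint P Q) (h : Drawn H U ((P ++ Q) :: ws) g q d) :
    Drawn H U (P :: Q :: ws) (g + 2) q d := by
  rcases P with _ | ⟨x, A⟩
  · exact mono (nil h) (by omega) le_rfl le_rfl
  rcases Q with _ | ⟨y, B⟩
  · exact mono (swap (nil (by simpa using h))) (by omega) le_rfl le_rfl
  have e' : x ≠ y := fun e2 => e List.mem_cons_self (e2 ▸ List.mem_cons_self)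
  have k := two (split_in (tight h) (mem h List.mem_cons_self (x := x) (by simp))
    (mem h List.mem_cons_self (x := y) (by simp))) h (void e' d) fun _ _ a b e2 =>
      Dr.s2 (Y := [x]) (Z := [y]) (A := A) (B := B) (C := []) (D := []) (ws' := [])
        (by simpa using a) (by simpa using b) e2.le (by simp [e']) (ends_one x) (ends_one y)
  have k3 := swap (sub (w' := y :: B) (swap (sub (w' := x :: A) k (by simp))) (by simp))
  simpa using k3

/-- two words become one -/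
theorem merge {P Q : List V} (e : List.Disjoint P Q) (h : Drawn H U (P :: Q :: ws) g q d) :
    Drawn H U ((P ++ Q) :: ws) (g + 2) q d := by
  rcases P with _ | ⟨x, A⟩
  · exact mono (forget h) (by omega) le_rfl le_rfl
  rcases Q with _ | ⟨y, B⟩
  · exact mono (by simpa using forget (swap h)) (by omega) le_rfl le_rfl
  have e' : x ≠ y := fun e2 => e List.mem_cons_self (e2 ▸ List.mem_cons_self)
  have k := two (split_in (tight h) (mem h List.mem_cons_self (x := x) (by simp))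
    (mem h (List.mem_cons_of_mem _ List.mem_cons_self) (x := y) (by simp))) h (void e' d)
    fun _ _ a b e2 =>
      Dr.m2 (Y := [x]) (Z := [y]) (A := A) (B := B) (C := []) (D := []) (ws' := [])
        (by simpa using a) (by simpa using b) e2.le (by simp [e']) (ends_one x) (ends_one y)
  have k3 := sub (w' := x :: A ++ y :: B) k (by simp)
  simpa using k3

theorem hd_sub (Y : List V) : List.Sublist (hd Y) Y := by
  rcases Y with _ | ⟨x, Y⟩ <;> simp [hd]

theorem lt_sub (Y : List V) : List.Sublist (lt Y) Y := by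
  by_cases e : Y = []
  · subst e; simp [lt]
  · obtain ⟨a, b, e1, -, e3⟩ := ends_of e
    rw [e3]
    simpa using (Ends.mem e1).2

theorem lt_one {Y : List V} {x y : V} (hx : x ∈ lt Y) (hy : y ∈ lt Y) : x = y := by
  by_cases e : Y = []
  · subst e; simp [lt] at hx
  · obtain ⟨a, b, -, -, e3⟩ := ends_of e
    rw [e3, List.mem_singleton] at hx hy
    rw [hx, hy]

theorem lt_rev (Y : List V) : (lt Y).reverse = lt Y := by
  by_cases e : Y = []
  · subst e; simp [lt]
  · obtain ⟨a, b, -, -, e3⟩ := ends_of e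
    simp [e3]

theorem hd_rev (Y : List V) : (hd Y).reverse = hd Y := by
  rcases Y with _ | ⟨x, Y⟩ <;> simp [hd]

theorem hd_nil : hd ([] : List V) = [] := rfl

theorem lt_nil : lt ([] : List V) = [] := rfl

/-- the side conditions of a twist after a join -/
theorem tw_cond {Y A B C D : List V} (n : (Y ++ A ++ B ++ C ++ D).Nodup) {l h : List V}
    (h2 : List.Sublist h Y) (h3 : ∀ x ∈ l, ∀ y ∈ l, x = y) :
    (B ++ h ++ C).Nodup ∧
      ∀ x ∈ D ++ l ++ A, x ∈ B ++ h ++ C → ∀ y ∈ D ++ l ++ A, y ∈ B ++ h ++ C → x = y := by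
  classical
  rw [List.nodup_iff_count_le_one] at n
  have k : ∀ x ∈ D ++ l ++ A, x ∈ B ++ h ++ C → x ∈ l := by
    intro x a b
    have n1 := n x
    have c2 := h2.count_le x
    rw [← List.count_pos_iff] at a b ⊢
    simp only [List.count_append] at n1 a b
    omega
  refine ⟨List.nodup_iff_count_le_one.2 fun x => ?_, fun x a b y a' b' => h3 x (k x a b) y (k y a' b')⟩
  have n1 := n x
  have c2 := h2.count_le x
  simp only [List.count_append] at n1 ⊢
  omega

variable {Y Z A B C D : List V}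

theorem nd2 (n : (Y ++ Z ++ A ++ B ++ C ++ D).Nodup) : (Y ++ Z).Nodup :=
  n.of_append_left.of_append_left.of_append_left.of_append_left

theorem x2 (s : Split H H1 H2 U U1 U2 S) (hS : S ⊆ ls (Y ++ Z))
    (n : (Y ++ Z ++ A ++ B ++ C ++ D).Nodup) (h1 : Drawn H1 U1 ((Y ++ A ++ Z ++ B) :: ws) g q d)
    (h2 : Drawn H2 U2 ((Y.reverse ++ C ++ Z ++ D) :: ws') g' q' d) :
    Drawn H U ((lt Y ++ A ++ hd Z ++ C.reverse ++ hd Y ++ B.reverse ++ lt Z ++ D) ::
      (ws ++ ws')) (g + g' + 2) (q + q') d := by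
  classical
  by_cases eZ : Z = []
  · subst eZ
    simp only [List.append_nil] at hS n h1 h2
    have k := join (A := A ++ B) (B := C ++ D) s hS
      n.of_append_left.of_append_left.of_append_left.of_append_left (by simpa using h1)
      (by simpa using h2)
    have c := tw_cond n (l := lt Y) (hd_sub Y) fun _ a _ b => lt_one a b
    have k2 := twist c.1 c.2 (turn (lt Y ++ A ++ B ++ hd Y ++ C) D k (by simp) (by simp))
    exact turn D (lt Y ++ A ++ C.reverse ++ hd Y ++ B.reverse) k2 (by simp [hd_rev])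
      (by simp [hd_nil, lt_nil])
  by_cases eY : Y = []
  · subst eY
    simp only [List.nil_append, List.reverse_nil] at hS n h1 h2
    have k := join (A := B ++ A) (B := C.reverse ++ D.reverse) s hS
      n.of_append_left.of_append_left.of_append_left.of_append_left
      (turn A (Z ++ B) h1 (by simp) (by simp))
      (turn D.reverse (Z.reverse ++ C.reverse) (rev h2) (by simp) (by simp))
    have n' : (Z ++ B ++ A ++ C.reverse ++ D.reverse).Nodup := by
      rw [List.nodup_iff_count_le_one] at n ⊢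
      intro x
      have := n x
      simp only [List.count_append, List.count_reverse] at this ⊢
      omega
    have c := tw_cond n' (l := lt Z) (hd_sub Z) fun _ a _ b => lt_one a b
    have k2 := twist c.1 c.2 (turn (lt Z ++ B ++ A ++ hd Z ++ C.reverse) D.reverse k (by simp)
      (by simp))
    exact cast (rev k2) (by simp [hd_rev, lt_rev, hd_nil, lt_nil])
  obtain ⟨a, b, e1, e2, e3⟩ := ends_of eY
  obtain ⟨c, d', f1, f2, f3⟩ := ends_of eZ
  exact cast (two s h1 h2 fun _ _ x y e => Dr.x2 x y (e ▸ hS) (nd2 n) e1 f1)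
    (by simp [e2, e3, f2, f3])

theorem s2 (s : Split H H1 H2 U U1 U2 S) (hS : S ⊆ ls (Y ++ Z)) (n : (Y ++ Z).Nodup)
    (h1 : Drawn H1 U1 ((Y ++ A ++ Z ++ B) :: ws) g q d)
    (h2 : Drawn H2 U2 ((Y.reverse ++ C ++ Z.reverse ++ D) :: ws') g' q' d) {P Q : List V}
    (hP : List.Sublist P (lt Y ++ A ++ hd Z ++ D)) (hQ : List.Sublist Q (lt Z ++ B ++ hd Y ++ C))
    (hd : List.Disjoint P Q) : Drawn H U (P :: Q :: (ws ++ ws')) (g + g' + 2) (q + q') d := by
  by_cases eZ : Z = []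
  · subst eZ
    simp only [List.append_nil, List.reverse_nil, hd_nil, lt_nil, List.nil_append] at hS n h1 h2 hP hQ
    have k := join (A := A ++ B) (B := C ++ D) s hS n (by simpa using h1) (by simpa using h2)
    obtain ⟨P1, P2, rfl, p1, p2⟩ := List.sublist_append_iff.1 hP
    have k2 := sub (turn (w' := D ++ (lt Y ++ A) ++ (B ++ st.hd Y ++ C))
      (lt Y ++ A ++ B ++ st.hd Y ++ C) D k (by simp) (by simp)) ((p2.append p1).append hQ)
    have k3 := split (fun x a b => hd (by simpa [or_comm] using a) b) k2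
    exact turn P2 P1 k3 rfl rfl
  by_cases eY : Y = []
  · subst eY
    simp only [List.append_nil, List.reverse_nil, hd_nil, lt_nil, List.nil_append] at hS n h1 h2 hP hQ
    have k := join (A := B ++ A) (B := D ++ C) s hS n (turn A (Z ++ B) h1 (by simp) (by simp))
      (turn C (Z.reverse ++ D) h2 (by simp) (by simp))
    obtain ⟨Q1, Q2, rfl, p1, p2⟩ := List.sublist_append_iff.1 hQ
    have k2 := sub (turn (w' := (A ++ st.hd Z ++ D) ++ (C ++ (lt Z ++ B)))
      (lt Z ++ B) (A ++ st.hd Z ++ D ++ C) k (by simp) (by simp)) (hP.append (p2.append p1))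
    have k3 := split (fun x a b => hd a (by simpa [or_comm] using b)) k2
    exact swap (turn Q2 Q1 (swap k3) rfl rfl)
  obtain ⟨a, b, e1, e2, e3⟩ := ends_of eY
  obtain ⟨c, d', f1, f2, f3⟩ := ends_of eZ
  have k := two s h1 h2 fun _ _ x y e => Dr.s2 x y (e ▸ hS) n e1 f1
  exact swap (sub (swap (sub k (by simpa [e3, f2] using hP))) (by simpa [e2, f3] using hQ))

theorem m2 (s : Split H H1 H2 U U1 U2 S) (hS : S ⊆ ls (Y ++ Z))
    (n : (Y ++ Z ++ A ++ B ++ C ++ D).Nodup) (h1 : Drawn H1 U1 ((Y ++ A) :: (Z ++ B) :: ws) g q d)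
    (h2 : Drawn H2 U2 ((Y.reverse ++ C ++ Z.reverse ++ D) :: ws') g' q' d) :
    Drawn H U ((lt Y ++ A ++ hd Y ++ C ++ lt Z ++ B ++ hd Z ++ D) :: (ws ++ ws'))
      (g + g' + 2) (q + q') d := by
  classical
  have n0 := nd2 n
  rw [List.nodup_iff_count_le_one] at n
  by_cases eZ : Z = []
  · subst eZ
    simp only [List.append_nil, List.reverse_nil, List.nil_append] at hS n n0 h1 h2
    have k := join (B := C ++ D) s hS n0 h1 (by simpa using h2)
    have k2 := merge (P := D ++ (lt Y ++ A ++ hd Y ++ C)) (Q := B) (fun x a b => by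
      have n1 := n x
      have c1 := (lt_sub Y).count_le x
      have c2 := (hd_sub Y).count_le x
      rw [← List.count_pos_iff] at a b
      simp only [List.count_append] at n1 a
      omega) (turn (lt Y ++ A ++ hd Y ++ C) D k (by simp) rfl)
    exact turn D (lt Y ++ A ++ hd Y ++ C ++ B) k2 (by simp) (by simp [hd_nil, lt_nil])
  by_cases eY : Y = []
  · subst eY
    simp only [List.reverse_nil, List.nil_append] at hS n n0 h1 h2
    have k := join (B := D ++ C) s hS n0 (swap h1) (turn C (Z.reverse ++ D) h2 (by simp) (by simp))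
    have k2 := merge (P := C ++ (lt Z ++ B ++ hd Z ++ D)) (Q := A) (fun x a b => by
      have n1 := n x
      have c1 := (lt_sub Z).count_le x
      have c2 := (hd_sub Z).count_le x
      rw [← List.count_pos_iff] at a b
      simp only [List.count_append] at n1 a
      omega) (turn (lt Z ++ B ++ hd Z ++ D) C k (by simp) rfl)
    exact turn (C ++ (lt Z ++ B ++ hd Z ++ D)) A k2 rfl (by simp [hd_nil, lt_nil])
  obtain ⟨a, b, e1, e2, e3⟩ := ends_of eY
  obtain ⟨c, d', f1, f2, f3⟩ := ends_of eZ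
  exact cast (two s h1 h2 fun _ _ x y e => Dr.m2 x y (e ▸ hS) n0 e1 f1)
    (by simp [e2, e3, f2, f3])

end Kit

theorem invS : InvS := fun _ _ _ _ h => ⟨Kit.letters h, Kit.pw h⟩

theorem kitS : KitS := by
  intro V d
  refine ⟨fun _ _ _ _ _ _ _ _ h a b c => Kit.mono h a b c, fun _ _ _ _ _ _ _ h e => ?_,
    fun _ _ _ _ _ _ h => Kit.forget h, fun _ _ _ _ _ _ h p => Kit.perm h p,
    fun H H1 H2 U U1 U2 S ws ws' g g' q q' Y Z A B C D s =>
      ⟨fun e h => Kit.add_junk (e ▸ s) h,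
        fun hS n h1 h2 => Kit.join s hS n.of_append_left.of_append_left h1 h2,
        fun hS n => ⟨Kit.x2 s hS n, fun h1 h2 P Q hP hQ hd => ?_, fun h1 h2 => ?_⟩⟩⟩
  · rcases e with e | e | rfl
    exacts [Kit.sub h e, Kit.rot h e, Kit.rev h]
  · exact Kit.mono (Kit.s2 s hS (Kit.nd2 n) h1 h2 hP hQ hd) (by omega) le_rfl le_rfl
  · exact Kit.mono (Kit.m2 s hS n h1 h2) (by omega) le_rfl le_rfl

end Pool.Agent.MP_9d78a0_co.st

end MrgPart0

-- ======== part 1: formerly Pool.Agent.MP_9d78a0_co.st.Done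
section MrgPart1

/-! Operations on finished societies. -/

set_option autoImplicit false

namespace Pool.Agent.MP_9d78a0_co.st

open Set Function fb

namespace DoneAux

variable {V : Type} {H : SimpleGraph V} {U W T W1 W2 A B : Set V} {ws ws' : List (List V)}
  {g g' q q' d : ℕ}

theorem res_tight (H : SimpleGraph V) (U : Set V) : Tight (res H U) U := fun _ _ h => h.2.1

theorem res_self (t : Tight H U) : res H U = H := by
  ext u v
  exact ⟨fun h => h.1, fun h => ⟨h, t u v h, t v u h.symm⟩⟩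

theorem res_res (h : W ⊆ U) : res (res H U) W = res H W := by
  ext u v
  exact ⟨fun e => ⟨e.1.1, e.2⟩, fun e => ⟨⟨e.1, h e.2.1, h e.2.2⟩, e.2⟩⟩

theorem del_empty (L : List V) : del ∅ L = L := by simp [del]

theorem del_del (A B : Set V) (L : List V) : del A (del B L) = del (A ∪ B) L := by
  simp only [del, List.filter_filter]
  exact List.filter_congr fun x _ => by
    by_cases a : x ∈ A <;> by_cases b : x ∈ B <;> simp [a, b]

theorem del_congr {L : List V} (h : ∀ x ∈ L, x ∈ A ↔ x ∈ B) : del A L = del B L :=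
  List.filter_congr fun x hx => by simp [h x hx]

theorem del_sub {L L' : List V} (h : List.Sublist L' L) : List.Sublist (del A L') (del A L) :=
  h.filter _

theorem del_rev (L : List V) : del A L.reverse = (del A L).reverse := List.filter_reverse

/-- two sets without edges between them -/
theorem split_res (hd : Disjoint W1 W2) (he : ∀ u ∈ W1, ∀ v ∈ W2, ¬ H.Adj u v) :
    Split (res H (W1 ∪ W2)) (res H W1) (res H W2) (W1 ∪ W2) W1 W2 ∅ := by
  refine ⟨?_, ?_, res_tight _ _, res_tight _ _, rfl, hd.inter_eq⟩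
  · ext u v
    constructor
    · rintro (h | h)
      exacts [⟨h.1, Or.inl h.2.1, Or.inl h.2.2⟩, ⟨h.1, Or.inr h.2.1, Or.inr h.2.2⟩]
    · rintro ⟨h, a | a, b | b⟩
      exacts [Or.inl ⟨h, a, b⟩, (he u a v b h).elim, (he v b u a h.symm).elim, Or.inr ⟨h, a, b⟩]
  · rw [disjoint_iff_inf_le]
    exact fun u v h => Set.disjoint_left.1 hd h.1.2.1 h.2.2.1

/-- the rest is one cell -/
theorem grow (hW : W ⊆ T) (hc : ∀ u ∈ W, ∀ v ∈ T, H.Adj u v → v ∈ W)
    (h : Drawn (res H W) W ws g q d) : Drawn (res H T) T ws g q d := by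
  have s := split_res (H := H) (W1 := W) (W2 := T \ W) disjoint_sdiff_right
    fun u a v b e => b.2 (hc u a v b.1 e)
  rw [union_sdiff_cancel hW] at s
  exact Kit.add_junk s h

theorem plain (t : Tight H U) (h : Drawn H U ws g q d) {α : ℕ} (h1 : g ≤ α) (h2 : q ≤ α)
    (h3 : d ≤ α) : Dn H U ws α := by
  refine ⟨∅, by simp, ?_⟩
  rw [sdiff_empty, res_self t, show del (∅ : Set V) = id from funext del_empty, List.map_id]
  exact Kit.mono h h1 h2 h3

section col

variable {Ω : List V} {c : CD V}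

theorem link_in (S : Set V) (hS : S ⊆ U) {a v : V} (ha : a ∈ lk H U A) (h : Link H S a v) :
    v ∈ lk H U A ∧ Link (res H (lk H U A)) (S ∩ lk H U A) a v := by
  induction h with
  | refl => exact ⟨ha, Link.refl _ _ _⟩
  | tail _ e ih =>
    have h2 := capi.lk_closed ih.1 (hS e.2.1) e.2.2
    exact ⟨h2, ih.2.trans (Link.single ⟨e.1, ih.1⟩ ⟨e.2.1, h2⟩ ⟨e.2.2, ih.1, h2⟩)⟩

theorem lk_res (hB : B ⊆ lk H U A) (R : Set V) :
    lk (res H (lk H U A)) (lk H U A \ R) B = lk H (U \ R) B := by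
  ext v
  constructor
  · rintro ⟨h1, a, h2, h3, h4⟩
    exact ⟨⟨h1.1.1, h1.2⟩, a, h2, ⟨h3.1.1, h3.2⟩,
      (Del.link_of_res h4).mono (sdiff_subset_sdiff_left capi.lk_sub)⟩
  · rintro ⟨h1, a, h2, h3, h4⟩
    have k := link_in (U \ R) sdiff_subset (hB h2) h4
    exact ⟨⟨k.1, h1.2⟩, a, h2, ⟨hB h2, h3.2⟩, k.2.mono fun x hx => mem_sdiff_of_mem hx.2 hx.1.2⟩

theorem col_in (F : FCol H U Ω c) {i : ℕ} (hi : i < c.t) : c.col i ⊆ lk H U (ls Ω) :=
  capi.sub_lk_meet (capi.conn_col F hi) (Del.col_sub F hi)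
    ⟨c.o i, capi.o_up F hi, capi.lk_self (capi.o_mem F hi) (F.soc.sub _ (capi.o_mem F hi))⟩

theorem cell_in (F : FCol H U Ω c) {l i : ℕ} (hl : l ≤ c.s) (hi : i < c.t) :
    c.C l i ⊆ lk H U (ls Ω) := (capi.C_sub_up (Nat.zero_le l) hl).trans (col_in F hi)

theorem lam_in (F : FCol H U Ω c) {i : ℕ} (hi : i < c.t) : c.Λ i ⊆ lk H U (ls Ω) :=
  (capi.lam_sub_up (l := 0)).trans (col_in F hi)

theorem hub_in (F : FCol H U Ω c) : c.I ⊆ lk H U (ls Ω) :=
  have h0 : 0 < c.t := by have := F.t4; omega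
  capi.sub_lk_touch F.hub.2.1 F.hub.1
    ((F.hub.2.2.2 0 h0).symm.mono (cell_in F (Nat.zero_le _) h0) subset_rfl)

theorem col_res (C : Col H U Ω c) : Col (res H (lk H U (ls Ω))) (lk H U (ls Ω)) Ω c := by
  have F := C.toFCol
  have h0 : 0 < c.t := by have := F.t4; omega
  refine ⟨⟨⟨res_tight _ _, F.soc.nd, fun x hx => capi.lk_self hx (F.soc.sub x hx)⟩, F.rot, F.t4,
    fun l hl i hi => ⟨fun v hv => ⟨cell_in F hl hi hv, ((F.cell l hl i hi).1 hv).2⟩,
      Del.conn_res (cell_in F hl hi) (F.cell l hl i hi).2⟩, F.dis,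
    fun l hl i hi => Del.touch_res (cell_in F hl hi) (cell_in F hl (Nat.mod_lt _ h0))
      (F.hor l hl i hi),
    fun l hl i hi => Del.touch_res (cell_in F hl.le hi) (cell_in F hl hi) (F.ver l hl i hi),
    fun i hi => ⟨fun v hv => ⟨lam_in F hi hv, ((F.lam i hi).1 hv).2⟩,
      Del.conn_res (lam_in F hi) (F.lam i hi).2.1,
      Del.touch_res (cell_in F le_rfl hi) (lam_in F hi) (F.lam i hi).2.2.1, (F.lam i hi).2.2.2⟩,
    F.lamd, ⟨hub_in F, Del.conn_res (hub_in F) F.hub.2.1, F.hub.2.2.1, fun i hi =>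
      Del.touch_res (hub_in F) (cell_in F (Nat.zero_le _) hi) (F.hub.2.2.2 i hi)⟩,
    fun a b x y hs P Q t => F.flat a b x y hs P Q ⟨t.sp.trans capi.lk_sub, t.sq.trans capi.lk_sub,
      Del.conn_of_res t.cp, Del.conn_of_res t.cq, t.dis⟩⟩, fun l hl i hi => ?_,
    fun u hu v e => C.sat u hu v e.1⟩
  obtain ⟨f, m, h1, h2⟩ := C.thin l hl i hi
  exact ⟨f, m, fun t => ⟨(h1 t).1, fun j hj => ⟨(h1 t).2.1 j hj,
    cell_in F hl hi ((h1 t).1 j hj.le), cell_in F hl hi ((h1 t).1 (j + 1) hj)⟩, (h1 t).2.2⟩, h2⟩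

end col

end DoneAux

open DoneAux

theorem doneS : KitS → TwoS → InS → DoneS := by
  intro _ two _ V _ H U α
  refine ⟨fun ws α' ⟨A, h1, h2⟩ h => ⟨A, h1.trans h, Kit.mono h2 h h h⟩,
    fun w w' ws ⟨A, h1, h2⟩ e => ⟨A, h1, ?_⟩,
    fun ws ws' ⟨A, h1, h2⟩ p => ⟨A, h1, Kit.perm h2 (p.map _)⟩,
    fun L s h => plain s.tight (two V H U L s h) (Nat.zero_le _) (Nat.zero_le _) (Nat.zero_le _),
    fun L s h => plain s.tight h (by omega) (by omega) (by omega),
    fun Y U1 y ws hY hU hc ⟨A, h1, h2⟩ => ⟨A ∪ Y, (ncard_union_le _ _).trans (by omega), ?_⟩,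
    fun Y U1 U2 y w1 w2 hY hU hd c1 c2 l1 l2 ⟨A1, a1, b1⟩ ⟨A2, a2, b2⟩ =>
      ⟨A1 ∩ U1 ∪ A2 ∩ U2 ∪ Y, ?_, ?_⟩,
    fun Ω c C => ⟨col_res C, ?_, ?_⟩⟩
  · rcases e with e | e | rfl
    · exact Kit.sub h2 (del_sub e)
    · exact Kit.rot h2 (Del.del_rot e)
    · exact Kit.cast (Kit.rev h2) (del_rev w).symm
  · rw [res_res sdiff_subset, List.map_map,
      show del A ∘ del Y = del (A ∪ Y) from funext (del_del A Y)] at h2
    refine Kit.mono (grow ?_ ?_ h2) (by omega) (by omega) (by omega)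
    · exact fun v hv => ⟨(hU hv.1).1, fun e => e.elim hv.2 (hU hv.1).2⟩
    · exact fun u a v b e =>
        ⟨hc u a.1 v ⟨b.1, fun k => b.2 (Or.inr k)⟩ e, fun k => b.2 (Or.inl k)⟩
  · have e1 := ncard_le_ncard (inter_subset_left (s := A1) (t := U1))
    have e2 := ncard_le_ncard (inter_subset_left (s := A2) (t := U2))
    have e3 := ncard_union_le (A1 ∩ U1) (A2 ∩ U2)
    have e4 := ncard_union_le (A1 ∩ U1 ∪ A2 ∩ U2) Y
    omega
  · rw [res_res sdiff_subset] at b1 b2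
    have n1 : ∀ v ∈ U1, v ∉ U2 := fun v hv => Set.disjoint_left.1 hd hv
    have m1 : ∀ v ∈ U1, v ∈ A1 ↔ v ∈ A1 ∩ U1 ∪ A2 ∩ U2 ∪ Y := fun v hv =>
      ⟨fun h => Or.inl (Or.inl ⟨h, hv⟩), fun h => h.elim (fun h => h.elim (·.1)
        fun h => (n1 v hv h.2).elim) fun h => ((hU (Or.inl hv)).2 h).elim⟩
    have m2 : ∀ v ∈ U2, v ∈ A2 ↔ v ∈ A1 ∩ U1 ∪ A2 ∩ U2 ∪ Y := fun v hv =>
      ⟨fun h => Or.inl (Or.inr ⟨h, hv⟩), fun h => h.elim (fun h => h.elim
        (fun h => (n1 v h.2 hv).elim) (·.1)) fun h => ((hU (Or.inr hv)).2 h).elim⟩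
    have k := Kit.union (split_res (H := H) (W1 := U1 \ A1) (W2 := U2 \ A2)
      (hd.mono sdiff_subset sdiff_subset)
      fun u a v b e => n1 v (c1 u a.1 v (hU (Or.inr b.1)) e) b.1) b1 b2
    simp only [List.map_cons, List.map_nil, List.cons_append, List.nil_append] at k ⊢
    rw [del_congr fun x hx => m1 x (l1 hx), del_congr (L := w2) fun x hx => m2 x (l2 hx)] at k
    refine Kit.mono (grow ?_ ?_ k) (by omega) (by omega) (by omega)
    · rintro v (h | h)
      · exact ⟨(hU (Or.inl h.1)).1, fun e => h.2 ((m1 v h.1).2 e)⟩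
      · exact ⟨(hU (Or.inr h.1)).1, fun e => h.2 ((m2 v h.1).2 e)⟩
    · rintro u (a | a) v b e
      · have h := c1 u a.1 v ⟨b.1, fun k => b.2 (Or.inr k)⟩ e
        exact Or.inl ⟨h, fun k => b.2 ((m1 v h).1 k)⟩
      · have h := c2 u a.1 v ⟨b.1, fun k => b.2 (Or.inr k)⟩ e
        exact Or.inr ⟨h, fun k => b.2 ((m2 v h).1 k)⟩
  · rw [CD.Core, CD.Core, CD.In, CD.In, lk_res (hub_in C.toFCol)]
  · have k := lk_res (H := H) (U := U) (A := ls Ω) (B := ls Ω)
      (fun x hx => capi.lk_self hx (C.soc.sub x hx)) ∅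
    rwa [sdiff_empty, sdiff_empty] at k

end Pool.Agent.MP_9d78a0_co.st

end MrgPart1

-- ======== part 2: formerly Pool.Agent.MP_9d78a0_co.st.Bnd
section MrgPart2

/-! A crooked linkage gives a band on consecutive columns. -/

set_option autoImplicit false

namespace Pool.Agent.MP_9d78a0_co.st

open Set Function fb

namespace bnd

theorem mo_le {W : ℕ → ℕ} {N : ℕ} (h : Mo W N) :
    (∀ i j, i ≤ j → j < N → W i + (j - i) ≤ W j ∨ (i < j ∧ W i < W j)) ∨
      ∀ i j, i ≤ j → j < N → W j + (j - i) ≤ W i ∨ (i < j ∧ W j < W i) :=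
  h.imp (fun h i j a b => a.eq_or_lt.imp (fun e => by subst e; omega) fun e => ⟨e, h i j e b⟩)
    fun h i j a b => a.eq_or_lt.imp (fun e => by subst e; omega) fun e => ⟨e, h i j e b⟩

theorem uniq {W : ℕ → ℕ} {N k k' z : ℕ} (h : Mo W N) (a : k + 1 < N) (a' : k' + 1 < N)
    (b : Btw (W k) (W (k + 1)) z) (b' : Btw (W k') (W (k' + 1)) z) : k = k' := by
  wlog l : k < k' generalizing k k'
  · exact (Nat.eq_or_lt_of_not_lt l).elim id fun q => (this a' a b' b q).symm
  unfold fb.Btw at b b'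
  rcases mo_le h with h | h <;> have := h k (k + 1) (by omega) a <;>
    have := h k' (k' + 1) (by omega) a' <;> have := h (k + 1) k' (by omega) (by omega) <;> omega

theorem nobtw {W : ℕ → ℕ} {N k i : ℕ} (h : Mo W N) (a : k + 1 < N) (a' : i < N) :
    ¬ Btw (W k) (W (k + 1)) (W i) := by
  unfold fb.Btw
  rcases le_or_gt i k with l | l <;> rcases mo_le h with h | h <;> have := h k (k + 1) (by omega) a
  · have := h i k l (by omega); omega
  · have := h i k l (by omega); omega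
  · have := h (k + 1) i l a'; omega
  · have := h (k + 1) i l a'; omega

variable {P : ℕ → Prop} [DecidablePred P]

theorem run {a r : ℕ} (h : ∀ k < r, P (a + k)) : Nat.count P (a + r) = Nat.count P a + r := by
  induction r with
  | zero => rfl
  | succ r ih =>
    rw [← add_assoc, Nat.count_succ_eq_succ_count (h r (by omega)), ih fun k l => h k (by omega),
      add_assoc]

theorem step {a b : ℕ} (l : a < b) (h : P a) (k : ∀ z, Btw a b z → ¬ P z) :
    Nat.count P b = Nat.count P a + 1 := by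
  induction b, l using Nat.le_induction with
  | base => exact Nat.count_succ_eq_succ_count h
  | succ b l ih =>
    rw [Nat.count_succ_eq_count (k b (Or.inl ⟨l, by omega⟩))]
    exact ih fun z q => k z (by unfold fb.Btw at *; omega)

theorem btw_count {a b z : ℕ} (ha : P a) (hb : P b) (hz : P z) :
    Btw (Nat.count P a) (Nat.count P b) (Nat.count P z) ↔ Btw a b z := by
  have k : ∀ {u v}, P u → (Nat.count P u < Nat.count P v ↔ u < v) := fun h =>
    ⟨Nat.lt_of_count_lt_count, Nat.count_strict_mono h⟩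
  unfold fb.Btw
  rw [k ha, k hz, k hb, k hz]

theorem comb (h : PruneS) (M T : ℕ) : ∃ p, 0 < p ∧ ∀ (m ct : ℕ) (x y : ℕ → ℕ) (R : Set ℕ),
    Dg m x y p → (∀ e < m, x e ∈ R ∧ y e ∈ R) → (∀ u ∈ R, ∀ v ∈ R, u < v → u + T < v) →
    (∀ u ∈ R, u + T < ct) →
    ∃ (t' : ℕ) (φ : ℕ → ℕ) (uA uB : ℕ) (up : Bool) (m' : ℕ) (X Y r : ℕ → ℕ),
      StrictMono φ ∧ (∀ i < t', φ i < ct) ∧ Dst m' X Y ∧ Crook m' X Y ∧
      (∀ e < m', r e < m ∧ X e < t' ∧ Y e < t' ∧ φ (X e) = min (x (r e)) (y (r e)) ∧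
        φ (Y e) = max (x (r e)) (y (r e))) ∧ InjOn r (Iio m') ∧
      (M < m' ∧ ∀ e ≤ M, X e = uA + e ∧ Y e = if up then uB + e else uB + M - e) ∧
      uA + M + T < uB ∧ uB + M + T < t' := by
  classical
  obtain ⟨N, hN⟩ : ∃ N, N = 9 * (M + 1) := ⟨_, rfl⟩
  obtain ⟨p, hp⟩ := h.2.2.2 N
  refine ⟨p + 1, by omega, fun m ct x y R G hR R1 R2 => ?_⟩
  obtain ⟨t, t1, t2, t3, t4, t5⟩ := hp m x y G.dst (by
    obtain ⟨α, β, t, a, b⟩ := G.trn
    exact ⟨α, β, t, a.mono (Iio_subset_Iio (by omega)), fun i k => b i (by omega)⟩)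
  obtain ⟨m', e, e1, e2, e3, e4, e5, G'⟩ := h.1 m N 0 (min (x (t (N - 1))) (y (t (N - 1))) + 1)
    (fun i => min (x i) (y i)) (fun i => max (x i) (y i)) t
    (fun i hi j hj => by
      have := G.dst i hi j hj; have := (G.dst j hj i hi).1; have := (G.dst i hi i hi).1
      beta_reduce
      by_cases q : i = j
      · subst q; omega
      · have := (G.dst i hi j hj).2 q
        omega)
    (fun i hi => by
      obtain ⟨⟨a, a1, a2⟩, b, b1, b2, b3⟩ := G.crook i hi
      have k : ∀ z, Btw (min (x i) (y i)) (max (x i) (y i)) z ↔ Btw (x i) (y i) z := fun z => by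
        unfold fb.Btw; omega
      refine ⟨⟨a, a1, ?_⟩, b, b1, b2, ?_⟩ <;> simp only [k]
      · rcases le_total (x a) (y a) with q | q <;> simp only [q, min_eq_left, max_eq_right,
          min_eq_right, max_eq_left] <;> tauto
      · rcases le_total (x b) (y b) with q | q <;> simp only [q, min_eq_left, max_eq_right,
          min_eq_right, max_eq_left] <;> tauto)
    (by omega) t1 fun i hi => ⟨t2 i hi, by
      have := t5 (N - 1) (by omega) i hi
      have := t3 i (N - 1)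
      simp only [mem_Ico]
      by_cases q : i = N - 1
      · subst q; omega
      · omega⟩
  obtain ⟨X, hX⟩ : ∃ X : ℕ → ℕ, ∀ i, X i = min (x (e i)) (y (e i)) := ⟨_, fun _ => rfl⟩
  obtain ⟨Y, hY⟩ : ∃ Y : ℕ → ℕ, ∀ i, Y i = max (x (e i)) (y (e i)) := ⟨_, fun _ => rfl⟩
  rw [show (fun i => min (x i) (y i)) ∘ e = X from (funext hX).symm,
    show (fun i => max (x i) (y i)) ∘ e = Y from (funext hY).symm] at G'
  have x1 : ∀ i j, i < j → j < N → X i < X j := fun i j a b => by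
    rw [hX, hX, e5 i (by omega), e5 j b]; exact t3 i j a b
  have y1 : Mo Y N := t4.imp (fun k i j a b => by
    rw [hY, hY, e5 i (by omega), e5 j b]; exact k i j a b) fun k i j a b => by
    rw [hY, hY, e5 i (by omega), e5 j b]; exact k i j a b
  have xy : ∀ i < N, ∀ j < N, X i < Y j := fun i a j b => by
    rw [hX, hY, e5 i a, e5 j b]; exact t5 i a j b
  have xr : ∀ i < m', X i ∈ R ∧ Y i ∈ R := fun i a => by
    have := hR _ (e4 i a)
    rw [hX, hY]
    rcases le_total (x (e i)) (y (e i)) with q | q <;> simp [q, this]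
  obtain ⟨a, a1, a2⟩ : ∃ a, a + M < N ∧ ∀ i, N ≤ i → i < m' → ∀ z, z = X i ∨ z = Y i →
      ∀ k, a ≤ k → k < a + M → ¬ Btw (X k) (X (k + 1)) z ∧ ¬ Btw (Y k) (Y (k + 1)) z := by
    by_contra q
    have k : ∀ g < 9, ∃ w : ℕ × Bool, w ∈ Finset.Ico N (N + 4) ×ˢ Finset.univ ∧ ∃ k,
        g * (M + 1) ≤ k ∧ k < g * (M + 1) + M ∧
        (Btw (X k) (X (k + 1)) (if w.2 then X w.1 else Y w.1) ∨
          Btw (Y k) (Y (k + 1)) (if w.2 then X w.1 else Y w.1)) := fun g hg => by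
      by_contra n
      refine q ⟨g * (M + 1), by nlinarith, fun i b c z d k f f' => not_or.1 fun o => n ?_⟩
      rcases d with rfl | rfl
      exacts [⟨(i, true), by simp; omega, k, f, f', o⟩, ⟨(i, false), by simp; omega, k, f, f', o⟩]
    choose! w w1 κ k1 k2 k3 using k
    obtain ⟨g, hg, g', hg', n, q⟩ := Finset.exists_ne_map_eq_of_card_lt_of_maps_to
      (s := Finset.range 9) (t := Finset.Ico N (N + 4) ×ˢ Finset.univ) (by simp) (f := w)
      fun g hg => w1 g (by simpa using hg)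
    rw [Finset.mem_range] at hg hg'
    have b : ∀ g < 9, κ g + 1 < N := fun g hg => by have := k2 g hg; nlinarith
    have c : κ g ≠ κ g' := fun c => by
      have := k1 g hg; have := k2 g hg; have := k1 g' hg'; have := k2 g' hg'
      rcases lt_or_gt_of_ne n with l | l <;> nlinarith
    have d := k3 g hg
    have d' := k3 g' hg'
    rw [q] at d
    have f : ∀ {k k' z}, k + 1 < N → k' + 1 < N → Btw (X k) (X (k + 1)) z →
        ¬ Btw (Y k') (Y (k' + 1)) z := fun {k k' z} u v o => by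
      have := xy k (by omega) k' (by omega); have := xy (k + 1) u k' (by omega)
      have := xy k (by omega) _ v; have := xy _ u _ v
      unfold fb.Btw at *; omega
    rcases d with d | d <;> rcases d' with d' | d'
    exacts [c (uniq (Or.inl x1) (b g hg) (b g' hg') d d'), f (b g hg) (b g' hg') d d',
      f (b g' hg') (b g hg) d' d, c (uniq y1 (b g hg) (b g' hg') d d')]
  obtain ⟨P, hP⟩ : ∃ P : ℕ → Prop, ∀ z, P z ↔ (∃ i < m', z = X i ∨ z = Y i) ∨
      (X (a + M) < z ∧ z ≤ X (a + M) + T) ∨ ct ≤ z + T := ⟨_, fun _ => Iff.rfl⟩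
  have px : ∀ i < m', P (X i) := fun i k => (hP _).2 (Or.inl ⟨i, k, Or.inl rfl⟩)
  have py : ∀ i < m', P (Y i) := fun i k => (hP _).2 (Or.inl ⟨i, k, Or.inr rfl⟩)
  have inf : (Set.ofPred P).Infinite := (Set.Ici_infinite ct).mono fun z k =>
    (hP z).2 (Or.inr (Or.inr (le_add_right k)))
  have g1 : ∀ i < N, X (a + M) + T < Y i := fun i k =>
    R1 _ (xr _ (by omega)).1 _ (xr i (by omega)).2 (xy _ a1 i k)
  have sx : ∀ k, a ≤ k → k < a + M → Nat.count P (X (k + 1)) = Nat.count P (X k) + 1 := by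
    intro k b c
    have l := x1 k (k + 1) (by omega) (by omega)
    refine step l (px k (by omega)) fun z q o => ?_
    rcases (hP z).1 o with ⟨i, d, f⟩ | f | f
    · by_cases g : i < N
      · rcases f with rfl | rfl
        · exact nobtw (Or.inl x1) (by omega) g q
        · have := xy (k + 1) (by omega) i g
          unfold fb.Btw at q; omega
      · exact (a2 i (by omega) d z f k b c).1 q
    · have := x1 (k + 1) (a + M)
      by_cases g : k + 1 = a + M
      · rw [← g] at f; unfold fb.Btw at q; omega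
      · unfold fb.Btw at q; omega
    · have := R2 _ (xr (k + 1) (by omega)).1
      unfold fb.Btw at q; omega
  have sy : ∀ k, a ≤ k → k < a + M → ∀ z, Btw (Y k) (Y (k + 1)) z → ¬ P z := by
    intro k b c z q o
    rcases (hP z).1 o with ⟨i, d, f⟩ | f | f
    · by_cases g : i < N
      · rcases f with rfl | rfl
        · have := xy i g (k + 1) (by omega); have := xy i g k (by omega)
          unfold fb.Btw at q; omega
        · exact nobtw y1 (by omega) g q
      · exact (a2 i (by omega) d z f k b c).2 q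
    · have := g1 k (by omega); have := g1 (k + 1) (by omega)
      unfold fb.Btw at q; omega
    · have := R2 _ (xr (k + 1) (by omega)).2; have := R2 _ (xr k (by omega)).2
      unfold fb.Btw at q; omega
  have cx : ∀ k ≤ M, Nat.count P (X (a + k)) = Nat.count P (X a) + k := fun k b => by
    induction k with
    | zero => rfl
    | succ k ih => rw [← add_assoc, sx _ (by omega) (by omega), ih (by omega), add_assoc]
  have g2 : ∀ i < N, Nat.count P (X a) + M + T < Nat.count P (Y i) := fun i k => by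
    have u := run (P := P) (a := X (a + M)) (r := T + 1) fun j l => by
      rcases j.eq_zero_or_pos with rfl | o
      exacts [px _ (by omega), (hP _).2 (Or.inr (Or.inl ⟨by omega, by omega⟩))]
    have := Nat.count_monotone P (show X (a + M) + (T + 1) ≤ Y i from g1 i k)
    have := cx M le_rfl
    omega
  have g3 : ∀ z ∈ R, P z → Nat.count P z + T < Nat.count P ct := fun z k o => by
    have l := R2 z k
    have u := run (P := P) (a := ct - T) (r := T) fun j _ => (hP _).2 (Or.inr (Or.inr (by omega)))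
    rw [show ct - T + T = ct by omega] at u
    have := Nat.count_strict_mono o (show z < ct - T by omega)
    omega
  obtain ⟨up, uB, u1, u2, u3⟩ : ∃ (up : Bool) (uB : ℕ),
      (∀ k ≤ M, Nat.count P (Y (a + k)) = if up then uB + k else uB + M - k) ∧
      Nat.count P (X a) + M + T < uB ∧ uB + M + T < Nat.count P ct := by
    rcases y1 with y2 | y2
    · have c : ∀ k ≤ M, Nat.count P (Y (a + k)) = Nat.count P (Y a) + k := fun k b => by
        induction k with
        | zero => rfl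
        | succ k ih =>
          rw [← add_assoc, step (y2 (a + k) _ (by omega) (by omega)) (py _ (by omega))
            (sy _ (by omega) (by omega)), ih (by omega), add_assoc]
      exact ⟨true, _, c, g2 a (by omega), c M le_rfl ▸ g3 _ (xr _ (by omega)).2 (py _ (by omega))⟩
    · have c : ∀ k ≤ M, Nat.count P (Y (a + k)) + k = Nat.count P (Y a) := fun k b => by
        induction k with
        | zero => rfl
        | succ k ih =>
          rw [← ih (by omega), step (y2 (a + k) (a + k + 1) (by omega) (by omega)) (py _ (by omega))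
            fun z q => sy (a + k) (by omega) (by omega) z q.symm, ← add_assoc a]
          omega
      refine ⟨false, Nat.count P (Y (a + M)), fun k b => ?_, g2 _ a1,
        (c M le_rfl).symm ▸ g3 _ (xr _ (by omega)).2 (py _ (by omega))⟩
      have := c k b; have := c M le_rfl
      simp only [Bool.false_eq_true, if_false]
      omega
  obtain ⟨σ, s1, s2, s3, s4⟩ : ∃ σ : ℕ → ℕ, (∀ i < m', σ i < m') ∧ Injective σ ∧
      (∀ i < m', ∃ j < m', σ j = i) ∧ ∀ i ≤ M, σ i = a + i := by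
    refine ⟨fun i => if i ≤ M then a + i else if i ≤ a + M then i - (M + 1) else i, fun i k => ?_,
      fun i j k => ?_, fun i k => ?_, fun i k => if_pos k⟩
    · beta_reduce; split_ifs <;> omega
    · simp only at k; split_ifs at k <;> omega
    · refine ⟨if i < a then i + M + 1 else if i ≤ a + M then i - a else i, ?_, ?_⟩ <;>
        beta_reduce <;> split_ifs <;> omega
  refine ⟨Nat.count P ct, Nat.nth P, Nat.count P (X a), uB, up, m', fun i => Nat.count P (X (σ i)),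
    fun i => Nat.count P (Y (σ i)), fun i => e (σ i), Nat.nth_strictMono inf,
    fun i => Nat.nth_lt_of_lt_count, fun i hi j hj => ?_, fun i hi => ?_, fun i hi => ?_,
    fun i hi j hj k => s2 (e3 (s1 i hi) (s1 j hj) k), ⟨by omega, fun i k => ?_⟩, u2, u3⟩
  · have d := G'.dst _ (s1 i hi) _ (s1 j hj)
    exact ⟨fun k => d.1 (Nat.count_injective (px _ (s1 i hi)) (py _ (s1 j hj)) k), fun n =>
      ⟨fun k => (d.2 (s2.ne n)).1 (Nat.count_injective (px _ (s1 i hi)) (px _ (s1 j hj)) k),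
        fun k => (d.2 (s2.ne n)).2 (Nat.count_injective (py _ (s1 i hi)) (py _ (s1 j hj)) k)⟩⟩
  · obtain ⟨⟨u, b1, b2⟩, v, c1, c2, c3⟩ := G'.crook _ (s1 i hi)
    obtain ⟨u, d1, rfl⟩ := s3 u b1
    obtain ⟨v, d2, rfl⟩ := s3 v c1
    have k := fun z => btw_count (z := z) (px _ (s1 i hi)) (py _ (s1 i hi))
    exact ⟨⟨u, d1, by rwa [k _ (px _ b1), k _ (py _ b1)]⟩, v, d2, fun q => c2 (q ▸ rfl),
      by rwa [k _ (px _ c1), k _ (py _ c1)]⟩
  · have := g3 _ (xr _ (s1 i hi)).1 (px _ (s1 i hi))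
    have := g3 _ (xr _ (s1 i hi)).2 (py _ (s1 i hi))
    exact ⟨e4 _ (s1 i hi), by beta_reduce; omega, by beta_reduce; omega, (Nat.nth_count (px _ (s1 i hi))).trans (hX _),
      (Nat.nth_count (py _ (s1 i hi))).trans (hY _)⟩
  · simp only [s4 i k]
    exact ⟨cx i k, u1 i k⟩

end bnd

theorem bndS : InS → CrkS → PruneS → AliftS → CoarS → BndS := by
  intro h1 h2 h3 h4 h5 M s' t'
  obtain ⟨p, hp, hc⟩ := bnd.comb h3 M (t' + 4)
  obtain ⟨s0, t0, ha⟩ := h4 (p + 4) p hp
  refine ⟨p, s0 + s' + 1, (t' + 5) * t0 + (t' + 6), ?_⟩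
  intro V _ G H h n Ur U ob Ω c π S hs ht ⟨n0, hk⟩
  have F := S.col.toFCol
  obtain ⟨n1, k1, k2⟩ := (h2 V H U Ω n0 p F.soc.nd).2.2.2.2.1 hp hk
  obtain ⟨j, m, x, y, J, j0, D, a1, a2⟩ := ha V H U Ω c (fun i => (t' + 5) * i + 1) S.col (by omega)
    (fun i k => by nlinarith) (fun i _ => by nlinarith) n1 k1 k2
  obtain ⟨t, φ, uA, uB, up, m', X, Y, r, b1, b2, b3, b4, b5, b6, b7, b8, b9⟩ := hc m c.t x y _ D
    (fun e k => ⟨(a1 e k).1, (a1 e k).2.1⟩)
    (by
      rintro _ ⟨u, -, rfl⟩ _ ⟨v, -, rfl⟩ k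
      have : u < v := by by_contra q; nlinarith
      nlinarith)
    (by
      rintro _ ⟨u, k, rfl⟩
      have : u < t0 := k
      nlinarith)
  obtain ⟨c', C, c1, c2, c3, -, c5, c6⟩ := h5 V H U Ω c (j + 1) s' t φ (fun i => c.C j (φ i)) F
    (by omega) (by omega) (fun i i' k _ => b1 k) b2 fun i k => F.ver j (by omega) _ (b2 i k)
  have ex : ∀ e, ∃ J', e < m' → J' ⊆ J (r e) ∧ Conn H J' ∧ Thin H J' ∧
      Touch H J' (c'.C 0 (X e)) ∧ Touch H J' (c'.C 0 (Y e)) := fun e => by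
    by_cases k : e < m'
    swap
    · exact ⟨∅, fun q => absurd q k⟩
    obtain ⟨d1, d2, d3, d4, d5⟩ := b5 e k
    obtain ⟨-, -, -, f2, f3, f4⟩ := a1 _ d1
    obtain ⟨u, u1, u', u2, u3⟩ := (c6 _ d2).2.2.1
    obtain ⟨v, v1, v', v2, v3⟩ := (c6 _ d3).2.2.1
    have g : c.C j (φ (X e)) ⊆ J (r e) ∧ c.C j (φ (Y e)) ⊆ J (r e) := by
      rw [d4, d5]
      rcases le_total (x (r e)) (y (r e)) with q | q <;> simp [q, f3, f4]
    obtain ⟨f, l, ⟨p1, p2, p3⟩, p4, p5⟩ := link_path (f2.2 u (g.1 u1) v (g.2 v1)) (g.1 u1)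
    exact ⟨f '' Icc 0 l, fun _ => ⟨by rintro _ ⟨i, q, rfl⟩; exact p1 i q.2,
      conn_seg (by omega) fun i _ => p2 i, ⟨fun _ => f, fun _ => l,
      fun _ => ⟨fun i q => ⟨i, ⟨by omega, q⟩, rfl⟩, p2, p3⟩, by
        rintro _ ⟨i, q, rfl⟩; exact ⟨0, i, q.2, rfl⟩⟩,
      ⟨u, ⟨0, ⟨le_rfl, by omega⟩, p4⟩, u', u2, u3⟩, v, ⟨l, ⟨by omega, le_rfl⟩, p5⟩, v', v2, v3⟩⟩
  choose J' hJ using ex
  have mo : ∀ a b, a ≤ b → b < c.t → π a ≤ π b := fun a b k q =>
    k.eq_or_lt.elim (fun e => e ▸ le_rfl) fun e => (S.mono a b e q).le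
  have t4 := F.t4
  refine ⟨c', fun i => π (φ i), uA, uB, up, m', X, Y, J', ⟨S.univ, S.le, C,
    fun a b k q => S.mono _ _ (b1 k) (b2 b (c2 ▸ q)), fun i k => ?_, c5.trans S.core⟩, c1,
    (h1 V H U Ω c F (j + 1) (by omega)).2.1.trans c3, mo _ _ (by omega) (b2 0 (by omega)),
    mo _ _ (by have := b2 (c'.t - 1) (by omega); omega) (by omega), b3, b4, fun e k => ?_,
    fun e k e' k' q => (a2 _ (b5 e k).1 _ (b5 e' k').1 fun z => q (b6 k k' z)).mono (hJ e k).1
      (hJ e' k').1, b7, by omega, by omega⟩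
  · rw [(c6 i (c2 ▸ k)).1]
    exact S.pos _ (b2 i (c2 ▸ k))
  · exact ⟨c2 ▸ (b5 e k).2.1, c2 ▸ (b5 e k).2.2.1,
      ((hJ e k).1.trans (a1 _ (b5 e k).1).2.2.1).trans c3, (hJ e k).2⟩

end Pool.Agent.MP_9d78a0_co.st

end MrgPart2

-- ======== part 3: formerly Pool.Agent.MP_9d78a0_co.st.Pos
section MrgPart3

/-! Positions in a flat block. -/

set_option autoImplicit false

namespace Pool.Agent.MP_9d78a0_co.st

open Set Function fb

namespace posn

variable {V : Type} {H : SimpleGraph V} {U I D Z lam rho : Set V} {F : FD V}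

theorem inc_sub {l : List ℕ} {N : ℕ} (h : l.Pairwise (· < ·)) (k : ∀ x ∈ l, x < N) :
    List.Sublist l (List.range N) :=
  List.sublist_of_subperm_of_pairwise
    (List.Nodup.subperm (h.imp ne_of_lt) fun x m => List.mem_range.2 (k x m)) h
    List.pairwise_lt_range

theorem sg_sub (o : ℕ → V) {l : List ℕ} {N : ℕ} (h : l.Pairwise (· < ·)) (k : ∀ x ∈ l, x < N) :
    List.Sublist (sg (l.map o)) (sg ((List.range N).map o)) := ((inc_sub h k).map o).map _

theorem grow {W P Q s : Set V} (hs : Conn H s) (sW : s ⊆ W) (h : Two H W P Q)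
    (d : Disjoint P s ∨ Disjoint Q s) :
    ∃ P' Q', Two H W P' Q' ∧ P ⊆ P' ∧ Q ⊆ Q' ∧ P' ⊆ P ∪ s ∧ Q' ⊆ Q ∪ s ∧
      ((P ∩ s).Nonempty → s ⊆ P') ∧ ((Q ∩ s).Nonempty → s ⊆ Q') := by
  by_cases p : (P ∩ s).Nonempty
  · have d' := d.resolve_left (not_disjoint_iff_nonempty_inter.2 p)
    exact ⟨P ∪ s, Q, ⟨union_subset h.sp sW, h.sq, capi.conn_meet h.cp hs p, h.cq,
      disjoint_union_left.2 ⟨h.dis, d'.symm⟩⟩, subset_union_left, subset_rfl, subset_rfl,
      subset_union_left, fun _ => subset_union_right,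
      fun q => (not_disjoint_iff_nonempty_inter.2 q d').elim⟩
  by_cases q : (Q ∩ s).Nonempty
  · exact ⟨P, Q ∪ s, ⟨h.sp, union_subset h.sq sW, h.cp, capi.conn_meet h.cq hs q,
      disjoint_union_right.2 ⟨h.dis, d.resolve_right (not_disjoint_iff_nonempty_inter.2 q)⟩⟩,
      subset_rfl, subset_union_left, subset_union_left, subset_rfl, fun k => (p k).elim,
      fun _ => subset_union_right⟩
  · exact ⟨P, Q, h, subset_rfl, subset_rfl, subset_union_left, subset_union_left,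
      fun k => (p k).elim, fun k => (q k).elim⟩

/-- two connected ports are replaced by letters -/
theorem merge {W s t : Set V} {x y : V} {M N : List V} (hs : Conn H s) (ht : Conn H t)
    (sW : s ⊆ W) (tW : t ⊆ W) (d : Disjoint s t) (hx : x ∈ s) (hy : y ∈ t)
    (h : PX H W (s :: sg M ++ t :: sg N)) : Cr H W (x :: M ++ y :: N) := by
  obtain ⟨a, b, c, e, sl, P, Q, tw, h1, h2, h3, h4, h5⟩ := h
  obtain ⟨P1, Q1, t1, a1, a2, a3, a4, a5, a6⟩ := grow hs sW tw (h5 s (by simp))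
  obtain ⟨P2, Q2, t2, b1, b2, -, -, b5, b6⟩ := grow ht tW t1 ((h5 t (by simp)).imp
    (fun k => (disjoint_union_left.2 ⟨k, d⟩).mono_left a3)
    fun k => (disjoint_union_left.2 ⟨k, d⟩).mono_left a4)
  set LL : List (Set V × V) :=
    (s, x) :: M.map (fun z => ({z}, z)) ++ (t, y) :: N.map (fun z => ({z}, z)) with hLL
  have e1 : s :: sg M ++ t :: sg N = LL.map Prod.fst := by simp [hLL, sg, Function.comp_def]
  have e2 : x :: M ++ y :: N = LL.map Prod.snd := by simp [hLL, Function.comp_def]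
  have key : ∀ p ∈ LL, ((P ∩ p.1).Nonempty → p.2 ∈ P2) ∧ ((Q ∩ p.1).Nonempty → p.2 ∈ Q2) := by
    have one : ∀ z : V, ((P ∩ {z}).Nonempty → z ∈ P2) ∧ ((Q ∩ {z}).Nonempty → z ∈ Q2) := fun z =>
      ⟨fun ⟨_, k, q⟩ => b1 (a1 (q ▸ k)), fun ⟨_, k, q⟩ => b2 (a2 (q ▸ k))⟩
    intro p hp
    simp only [hLL, List.cons_append, List.mem_cons, List.mem_append, List.mem_map] at hp
    rcases hp with rfl | ⟨z, -, rfl⟩ | rfl | ⟨z, -, rfl⟩
    · exact ⟨fun k => b1 (a5 k hx), fun k => b2 (a6 k hx)⟩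
    · exact one z
    · exact ⟨fun k => b5 (k.mono (inter_subset_inter_left _ a1)) hy,
        fun k => b6 (k.mono (inter_subset_inter_left _ a2)) hy⟩
    · exact one z
  rw [e1] at sl
  obtain ⟨p1, p2, p3, p4, sl', rfl, rfl, rfl, rfl⟩ := nf.sub4_map.1 sl
  have m := nf.sub4_mem sl'
  exact ⟨p1.2, p2.2, p3.2, p4.2, e2 ▸ sl'.map Prod.snd, P2, Q2, t2, (key _ m.1).1 h1,
    (key _ m.2.2.1).1 h2, (key _ m.2.1).2 h3, (key _ m.2.2.2).2 h4⟩

/-- the inner vertices of the bridges -/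
def R (F : FD V) (Z : Set V) : Set V := Z \ {x | ∃ e' ≤ F.A.n, x ∈ F.J e'}

/-- the bridge of `v` touches the row `e` -/
def T (H : SimpleGraph V) (F : FD V) (Z : Set V) (v : V) (e : ℕ) : Prop :=
  e ≤ F.A.n ∧ Touch H (cp H (R F Z) v) (F.low e)

/-- the bridge of `v` is kept -/
def Kp (H : SimpleGraph V) (F : FD V) (Z : Set V) (v : V) : Prop :=
  v ∈ R F Z ∧ ∀ e, T H F Z v e → 1 ≤ e ∧ e + 1 ≤ F.A.n

open Classical in
noncomputable def p0 (H : SimpleGraph V) (F : FD V) (Z : Set V) (v : V) : ℕ :=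
  if v ∈ F.A.P then F.A.κ v else if v ∈ F.B.P then F.B.κ v else
    if v ∈ R F Z then 2 * min (sInf {e | T H F Z v e}) (F.A.n - 2) + 1 else
      2 * sInf {e | e ≤ F.A.n ∧ v ∈ F.J e}

def Zn (H : SimpleGraph V) (F : FD V) (Z : Set V) : Set V :=
  {v | (∃ e, 1 ≤ e ∧ e + 1 ≤ F.A.n ∧ v ∈ F.J e) ∨ Kp H F Z v}

theorem low_row {e : ℕ} : F.low e ⊆ F.row e :=
  union_subset_union (union_subset_union_left _ (pan.cell_col (Nat.zero_le _)))
    (pan.cell_col (Nat.zero_le _))

theorem T_eq {v y : V} (k : y ∈ cp H (R F Z) v) : T H F Z y = T H F Z v := by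
  have : cp H (R F Z) y = cp H (R F Z) v := Set.ext fun x =>
    ⟨fun q => ⟨q.1, k.2.trans q.2⟩, fun q => ⟨q.1, k.2.symm.trans q.2⟩⟩
  funext e
  rw [T, this, T]

theorem col_conn {p : PD V} (h : Pan H U I p) {e : ℕ} (he : e ≤ p.n) : Conn H (p.col e) :=
  pan.conn_up (C := fun l => p.C l e) (Nat.zero_le _) (fun l k => (h.cell l k e he).1)
    (fun l k => h.ver l k e he) (h.lam e he).1 (h.lam e he).2.1

theorem pA {v : V} (k : v ∈ F.A.P) : p0 H F Z v = F.A.κ v := if_pos k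

variable (h : Blk H U I D F Z lam rho)
include h

theorem row_conn {e : ℕ} (he : e ≤ F.A.n) : Conn H (F.row e) := by
  have j := h.bas.j e he
  exact conn_union_touch (conn_union_touch (col_conn h.bas.a he) j.2.1
    (j.2.2.1.symm.mono (pan.cell_col (Nat.zero_le _)) subset_rfl))
    (col_conn h.bas.b (h.bas.n ▸ he))
    (j.2.2.2.mono subset_union_right (pan.cell_col (Nat.zero_le _)))

theorem pB {v : V} (k : v ∈ F.B.P) : p0 H F Z v = F.B.κ v := by
  rw [p0, if_neg fun m => disjoint_left.1 h.bas.dis.1 m k, if_pos k]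

theorem pR {v : V} (k : v ∈ R F Z) :
    p0 H F Z v = 2 * min (sInf {e | T H F Z v e}) (F.A.n - 2) + 1 := by
  have i := (h.z.1 k.1).1
  rw [p0, if_neg fun m => (h.bas.a.sub m).2 i, if_neg fun m => (h.bas.b.sub m).2 i, if_pos k]

theorem prow {v : V} {e : ℕ} (he : e ≤ F.A.n) (k : v ∈ F.row e) : p0 H F Z v = 2 * e := by
  rcases k with (k | k) | k
  · have := (h.bas.a.col e he v).1 k
    rw [pA this.1, this.2]
  · have i := (h.bas.j e he).1 k
    rw [p0, if_neg fun m => (h.bas.a.sub m).2 i, if_neg fun m => (h.bas.b.sub m).2 i,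
      if_neg fun m => m.2 ⟨e, he, k⟩]
    have := Nat.sInf_mem (s := {e | e ≤ F.A.n ∧ v ∈ F.J e}) ⟨e, he, k⟩
    rw [by_contra fun n => disjoint_left.1 (h.bas.jd _ this.1 e he n) this.2 k]
  · have := (h.bas.b.col e (h.bas.n ▸ he) v).1 k
    rw [pB h this.1, this.2]

theorem row_sub {e : ℕ} (he : e ≤ F.A.n) : F.row e ⊆ Z ∪ F.core := by
  rintro v ((k | k) | k)
  · exact Or.inr (Or.inl (Or.inl (Or.inl ⟨e, he, k⟩)))
  · exact Or.inl (h.z.2 e he k)
  · exact Or.inr (Or.inl (Or.inl (Or.inr ⟨e, h.bas.n ▸ he, k⟩)))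

theorem core_sub : Z ∪ F.core ⊆ F.dom Z := by
  rintro v (k | ((⟨e, he, k⟩ | ⟨e, he, k⟩) | k) | k)
  · exact Or.inl (Or.inl k)
  · exact Or.inl (Or.inr ((h.bas.a.col e he v).1 k).1)
  · exact Or.inr ((h.bas.b.col e he v).1 k).1
  · exact Or.inl (Or.inr k.1)
  · exact Or.inr k.1

theorem oA {e : ℕ} (he : e ≤ F.A.n) : F.A.o e ∈ F.row e :=
  Or.inl (Or.inl (Or.inl (h.bas.a.lam e he).2.2.1))

theorem oB {e : ℕ} (he : e ≤ F.A.n) : F.B.o e ∈ F.row e :=
  Or.inr (Or.inl (h.bas.b.lam e (h.bas.n ▸ he)).2.2.1)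

theorem off {S : Set V} (k : S ⊆ Z ∪ F.core) : Disjoint S lam ∧ Disjoint S rho :=
  disjoint_union_right.1 (h.port.2.symm.mono_left (k.trans (core_sub h)))

/-- nothing passes a row -/
theorem cross {m : ℕ} (hm : m ≤ F.A.n) {P : Set V} (sp : P ⊆ Z ∪ F.core ∪ lam ∪ rho)
    (cp : Conn H P) (d : Disjoint P (F.row m))
    (l : (P ∩ lam).Nonempty ∨ ∃ e < m, F.A.o e ∈ P)
    (r : (P ∩ rho).Nonempty ∨ ∃ e, m < e ∧ e ≤ F.A.n ∧ F.A.o e ∈ P) : False := by
  have tw : Two H (Z ∪ F.core ∪ lam ∪ rho) P (F.row m) :=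
    ⟨sp, (row_sub h hm).trans (subset_union_left.trans subset_union_left), cp, row_conn h hm, d⟩
  have y : List.Sublist [{F.B.o m}] (sg ((List.range (F.A.n + 1)).map F.B.o).reverse) :=
    List.singleton_sublist.2 (nf.mem_sg.2 ⟨_, List.mem_reverse.2
      (List.mem_map_of_mem (List.mem_range.2 (by omega))), rfl⟩)
  have fin : ∀ a c, List.Sublist [a, {F.A.o m}, c, {F.B.o m}]
      (lam :: sg ((List.range (F.A.n + 1)).map F.A.o) ++
        rho :: sg ((List.range (F.A.n + 1)).map F.B.o).reverse) → (P ∩ a).Nonempty →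
      (P ∩ c).Nonempty → False := fun a c s k1 k2 => by
    refine h.flat ⟨_, _, _, _, s, P, F.row m, tw, k1, k2, ⟨_, oA h hm, rfl⟩, ⟨_, oB h hm, rfl⟩,
      fun t m => ?_⟩
    simp only [List.cons_append, List.mem_cons, List.mem_append, nf.mem_sg] at m
    rcases m with rfl | ⟨x, -, rfl⟩ | rfl | ⟨x, -, rfl⟩
    · exact Or.inr (off h (row_sub h hm)).1
    · exact nf.two_single tw x
    · exact Or.inr (off h (row_sub h hm)).2
    · exact nf.two_single tw x
  rcases l with l | ⟨e, e1, l⟩ <;> rcases r with r | ⟨f, f1, f2, r⟩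
  · exact fin _ _ (((sg_sub F.A.o (l := [m]) (by simp) (by simp; omega)).append
      (y.cons_cons rho)).cons_cons lam) l r
  · exact fin _ _ (((sg_sub F.A.o (l := [m, f]) (by simpa) (by simp; omega)).append
      (y.cons rho)).cons_cons lam) l ⟨_, r, rfl⟩
  · exact fin _ _ (((sg_sub F.A.o (l := [e, m]) (by simpa) (by simp; omega)).append
      (y.cons_cons rho)).cons lam) ⟨_, l, rfl⟩ r
  · exact fin _ _ (((sg_sub F.A.o (l := [e, m, f]) (by simp; omega) (by simp; omega)).append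
      (y.cons rho)).cons lam) ⟨_, l, rfl⟩ ⟨_, r, rfl⟩

/-- the neighbours of a row with a bridge -/
theorem nb {K : Set V} {e : ℕ} (he : e ≤ F.A.n) (c : Conn H K) (k1 : F.row e ⊆ K)
    (k2 : K ⊆ F.row e ∪ R F Z) {v y : V} (hv : v ∈ K) (a : H.Adj v y) :
    (∀ e' ≤ F.A.n, y ∈ F.low e' → e ≤ e' + 1 ∧ e' ≤ e + 1) ∧ (y ∈ lam → e = 0) ∧
      (y ∈ rho → e = F.A.n) := by
  have s : K ⊆ Z ∪ F.core := k2.trans (union_subset (row_sub h he) fun x m => Or.inl m.1)
  have s' : K ⊆ Z ∪ F.core ∪ lam ∪ rho := s.trans (subset_union_left.trans subset_union_left)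
  have d : ∀ m ≤ F.A.n, m ≠ e → Disjoint K (F.row m) := fun m hm ne => by
    refine disjoint_left.2 fun x p q => ?_
    have := prow h hm q
    rcases k2 p with p | p
    · have := prow h he p
      omega
    · have := pR h p
      omega
  have o := k1 (oA h he)
  refine ⟨fun e' he' m => ?_, fun m => ?_, fun m => ?_⟩
  · have key : ∀ j ≤ F.A.n, j ≠ e → j ≠ e' → (∃ i < j, F.A.o i ∈ K ∪ F.row e') →
        (∃ i, j < i ∧ i ≤ F.A.n ∧ F.A.o i ∈ K ∪ F.row e') → False := fun j hj n1 n2 l r => by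
      refine cross h hj (union_subset s' ((row_sub h he').trans
        (subset_union_left.trans subset_union_left)))
        (conn_union_touch c (row_conn h he') ⟨v, hv, y, low_row m, a⟩)
        (disjoint_union_left.2 ⟨d j hj n1, disjoint_left.2 fun x p q => ?_⟩) (Or.inr l) (Or.inr r)
      have := prow h he' p
      have := prow h hj q
      omega
    refine ⟨not_lt.1 fun q => ?_, not_lt.1 fun q => ?_⟩
    · exact key (e' + 1) (by omega) (by omega) (by omega) ⟨e', by omega, Or.inr (oA h he')⟩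
        ⟨e, q, he, Or.inl o⟩
    · exact key (e + 1) (by omega) (by omega) (by omega) ⟨e, by omega, Or.inl o⟩
        ⟨e', q, he', Or.inr (oA h he')⟩
  · by_contra n
    refine cross h (m := e - 1) (by omega)
      (union_subset s' (singleton_subset_iff.2 (Or.inl (Or.inr m))))
      (conn_union_touch c (conn_singleton H y) ⟨v, hv, y, rfl, a⟩)
      (disjoint_union_left.2 ⟨d _ (by omega) (by omega), disjoint_singleton_left.2 fun q =>
        disjoint_left.1 (off h (row_sub h (by omega))).1 q m⟩)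
      (Or.inl ⟨y, Or.inr rfl, m⟩) (Or.inr ⟨e, by omega, he, Or.inl o⟩)
  · by_contra n
    refine cross h (m := e + 1) (by omega)
      (union_subset s' (singleton_subset_iff.2 (Or.inr m)))
      (conn_union_touch c (conn_singleton H y) ⟨v, hv, y, rfl, a⟩)
      (disjoint_union_left.2 ⟨d _ (by omega) (by omega), disjoint_singleton_left.2 fun q =>
        disjoint_left.1 (off h (row_sub h (by omega))).2 q m⟩)
      (Or.inr ⟨e, by omega, Or.inl o⟩) (Or.inl ⟨y, Or.inr rfl, m⟩)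

theorem nbl {e : ℕ} (he : e ≤ F.A.n) {v y : V} (hv : v ∈ F.low e) (a : H.Adj v y) :
    (∀ e' ≤ F.A.n, y ∈ F.low e' → e ≤ e' + 1 ∧ e' ≤ e + 1) ∧ (y ∈ lam → e = 0) ∧
      (y ∈ rho → e = F.A.n) :=
  nb h he (row_conn h he) subset_rfl subset_union_left (low_row hv) a

theorem nbr {e : ℕ} {v x y : V} (hv : v ∈ R F Z) (t : T H F Z v e) (hx : x ∈ cp H (R F Z) v)
    (a : H.Adj x y) : (∀ e' ≤ F.A.n, y ∈ F.low e' → e ≤ e' + 1 ∧ e' ≤ e + 1) ∧
      (y ∈ lam → e = 0) ∧ (y ∈ rho → e = F.A.n) :=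
  nb h t.1 (conn_union_touch (row_conn h t.1) (cp_conn hv) (t.2.symm.mono low_row subset_rfl))
    subset_union_left (union_subset_union_right _ cp_sub) (Or.inr hx) a

theorem T_near {e e' : ℕ} {v : V} (hv : v ∈ R F Z) (t : T H F Z v e) (t' : T H F Z v e') :
    e' ≤ e + 1 := by
  obtain ⟨x, hx, y, hy, a⟩ := t'.2
  exact ((nbr h hv t hx a).1 e' t'.1 hy).2

theorem T_ex {v : V} (hv : v ∈ R F Z) : ∃ e, T H F Z v e := by
  obtain ⟨e, he, u, hu, l⟩ := h.att v hv.1
  have n : u ∉ R F Z := fun m => by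
    have := prow h he (low_row hu)
    have := pR h m
    omega
  obtain ⟨x, y, -, hy, hx, hy', a, l'⟩ := link_exit l hv n
  obtain rfl : y = u := hy.resolve_left hy'
  exact ⟨e, he, x, ⟨hx, l'.mono inter_subset_right⟩, y, hu, a⟩

theorem pK (n4 : 4 ≤ F.A.n) {v : V} (k : Kp H F Z v) {e : ℕ} (t : T H F Z v e) :
    (p0 H F Z v = 2 * e + 1 ∨ p0 H F Z v + 1 = 2 * e) ∧ 3 ≤ p0 H F Z v ∧
      p0 H F Z v + 3 ≤ 2 * F.A.n := by
  have a1 := Nat.sInf_mem (s := {e | T H F Z v e}) ⟨e, t⟩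
  have a2 := Nat.sInf_le (s := {e | T H F Z v e}) t
  have a3 := T_near h k.1 a1 t
  have a4 := k.2 _ a1
  have a5 := k.2 _ t
  have := pR h k.1
  omega

theorem split {y : V} (k : y ∈ Z ∪ F.feet) : (∃ e ≤ F.A.n, y ∈ F.low e) ∨ y ∈ R F Z := by
  rcases k with k | ⟨e, he, k⟩ | ⟨e, he, k⟩
  · by_cases m : y ∈ R F Z
    · exact Or.inr m
    · obtain ⟨e, he, q⟩ : y ∈ {x | ∃ e' ≤ F.A.n, x ∈ F.J e'} := by_contra fun q => m ⟨k, q⟩
      exact Or.inl ⟨e, he, Or.inl (Or.inr q)⟩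
  · exact Or.inl ⟨e, he, Or.inl (Or.inl k)⟩
  · exact Or.inl ⟨e, h.bas.n ▸ he, Or.inr k⟩

theorem zn_sub : Zn H F Z ⊆ Z := by
  rintro v (⟨e, -, he, k⟩ | k)
  · exact h.z.2 e (by omega) k
  · exact k.1.1

theorem low_dom {e : ℕ} (e1 : 1 ≤ e) (e2 : e + 1 ≤ F.A.n) :
    F.low e ⊆ (F.sub 1 (F.A.n - 2)).dom (Zn H F Z) := by
  rintro v ((k | k) | k)
  · have := (h.bas.a.col e (by omega) v).1 (pan.cell_col (Nat.zero_le _) k)
    exact Or.inl (Or.inr ⟨this.1, by omega, by omega⟩)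
  · exact Or.inl (Or.inl (Or.inl ⟨e, e1, e2, k⟩))
  · have := (h.bas.b.col e (h.bas.n ▸ by omega) v).1 (pan.cell_col (Nat.zero_le _) k)
    exact Or.inr ⟨this.1, by omega, by omega⟩

theorem dom_rng (n4 : 4 ≤ F.A.n) {v : V} (k : v ∈ (F.sub 1 (F.A.n - 2)).dom (Zn H F Z)) :
    2 ≤ p0 H F Z v ∧ p0 H F Z v + 2 ≤ 2 * F.A.n := by
  rcases k with ((⟨e, e1, e2, k⟩ | k) | ⟨k, a, b⟩) | ⟨k, a, b⟩
  · have := prow h (e := e) (by omega) (Or.inl (Or.inr k))
    omega
  · obtain ⟨e, t⟩ := T_ex h k.1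
    have := pK h n4 k t
    omega
  · have := pA (H := H) (Z := Z) k
    change 2 * 1 ≤ F.A.κ v at a
    change F.A.κ v ≤ 2 * (1 + (F.A.n - 2)) at b
    omega
  · have := pB h k
    change 2 * 1 ≤ F.B.κ v at a
    change F.B.κ v ≤ 2 * (1 + (F.A.n - 2)) at b
    omega

omit h in
theorem cls0 {v : V} (k : v ∈ Zn H F Z) : (∃ e ≤ F.A.n, v ∈ F.low e) ∨ Kp H F Z v :=
  k.imp_left fun ⟨e, _, he, k⟩ => ⟨e, by omega, Or.inl (Or.inr k)⟩

theorem cls {v y : V} (k : v ∈ (F.sub 1 (F.A.n - 2)).dom (Zn H F Z)) (hy : y ∈ I)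
    (a : H.Adj v y) : (∃ e ≤ F.A.n, v ∈ F.low e) ∨ Kp H F Z v := by
  rcases k with (k | k) | k
  · exact cls0 k
  · obtain ⟨e, he, q⟩ := h.bas.a.foot v k.1 y hy a
    exact Or.inl ⟨e, he, Or.inl (Or.inl q)⟩
  · obtain ⟨e, he, q⟩ := h.bas.b.foot v k.1 y hy a
    exact Or.inl ⟨e, h.bas.n ▸ he, Or.inr q⟩

theorem same {v y : V} (k : Kp H F Z v) (hy : y ∈ cp H (R F Z) v) :
    Kp H F Z y ∧ p0 H F Z y = p0 H F Z v :=
  ⟨⟨hy.1, T_eq hy ▸ k.2⟩, by rw [pR h k.1, pR h hy.1, T_eq hy]⟩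

theorem lst (n4 : 4 ≤ F.A.n) {u v : V} (hu : (∃ e ≤ F.A.n, u ∈ F.low e) ∨ Kp H F Z u)
    (hv : (∃ e ≤ F.A.n, v ∈ F.low e) ∨ Kp H F Z v) (a : H.Adj u v) :
    LSt (p0 H F Z u) (p0 H F Z v) := by
  unfold LSt
  rcases hu with ⟨e, he, p⟩ | p <;> rcases hv with ⟨f, hf, q⟩ | q
  · have := prow h he (low_row p)
    have := prow h hf (low_row q)
    have := (nbl h he p a).1 f hf q
    omega
  · have := prow h he (low_row p)
    have := pK h n4 q ⟨he, v, cp_self q.1, u, p, a.symm⟩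
    omega
  · have := prow h hf (low_row q)
    have := pK h n4 p ⟨hf, u, cp_self p.1, v, q, a⟩
    omega
  · exact Or.inl (same h p (cp_closed (cp_self p.1) q.1 a)).2.symm

theorem fin {v y : V} (hv : (∃ e ≤ F.A.n, v ∈ F.low e) ∨ Kp H F Z v) (b1 : 2 < p0 H F Z v)
    (b2 : p0 H F Z v + 2 < 2 * F.A.n) (a : H.Adj v y) (k : y ∈ Z ∪ D ∪ F.feet ∪ lam ∪ rho) :
    y ∈ (F.sub 1 (F.A.n - 2)).dom (Zn H F Z) ∪ D := by
  have k' : y ∈ D ∨ y ∈ Z ∪ F.feet ∨ y ∈ lam ∨ y ∈ rho := by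
    simp only [mem_union] at k ⊢
    tauto
  refine k'.elim Or.inr fun k' => Or.inl ?_
  rcases hv with ⟨e, he, p⟩ | p
  · have := prow h he (low_row p)
    have n := nbl h he p a
    rcases k' with q | q | q
    · rcases split h q with ⟨f, hf, q⟩ | q
      · have := n.1 f hf q
        exact low_dom h (by omega) (by omega) q
      · refine Or.inl (Or.inl (Or.inr ⟨q, fun f t => ?_⟩))
        have t0 : T H F Z y e := ⟨he, y, cp_self q, v, p, a.symm⟩
        have := T_near h q t t0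
        have := T_near h q t0 t
        omega
    · have := n.2.1 q
      omega
    · have := n.2.2 q
      omega
  · obtain ⟨e, t⟩ := T_ex h p.1
    have n := nbr h p.1 t (cp_self p.1) a
    have := p.2 e t
    rcases k' with q | q | q
    · rcases split h q with ⟨f, hf, q⟩ | q
      · have := p.2 f ⟨hf, v, cp_self p.1, y, q, a⟩
        exact low_dom h this.1 this.2 q
      · exact Or.inl (Or.inl (Or.inr (same h p (cp_closed (cp_self p.1) q a)).1))
    · have := n.2.1 q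
      omega
    · have := n.2.2 q
      omega

end posn

open posn

theorem posS : NfS → PanS → PosS := by
  intro _ hP V _ H U I D F Z lam rho h n4
  have bn := h.bas.n
  refine ⟨Zn H F Z, fun v => p0 H F Z v - 2, ⟨h.bas.tight, h.bas.iu,
    (((hP V H U I).2 _ h.bas.a).2 1 _ (by omega)).1, (((hP V H U I).2 _ h.bas.b).2 1 _ (by omega)).1,
    rfl, h.bas.s, ⟨h.bas.dis.1.mono (fun _ k => k.1) fun _ k => k.1,
      fun k => h.bas.dis.2 (k.mono (fun _ k => k.1) fun _ k => k.1)⟩,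
    fun e (he : e ≤ F.A.n - 2) => h.bas.j (1 + e) (by omega),
    fun e (he : e ≤ F.A.n - 2) e' (he' : e' ≤ F.A.n - 2) ne =>
      h.bas.jd _ (by omega) _ (by omega) (by omega)⟩,
    ⟨(zn_sub h).trans h.z.1, fun e (he : e ≤ F.A.n - 2) v k =>
      Or.inl ⟨1 + e, by omega, by omega, k⟩⟩,
    h.d.mono_right (union_subset_union (fun _ k => k.1) fun _ k => k.1), fun v hv => ?_,
    ⟨fun v k => congrArg (· - 2) (pA k.1), fun v k => congrArg (· - 2) (pB h k.1)⟩,
    fun v hv b1 (b2 : _ < 2 * (F.A.n - 2)) y a => ?_, fun u hu v hv a => ?_, fun v hv => ?_,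
    fun px => ?_⟩
  · have r := dom_rng h n4 (Or.inl (Or.inl hv))
    refine ⟨show _ ≤ 2 * (F.A.n - 2) by omega, fun e (he : e ≤ F.A.n - 2) => ⟨fun q => ?_, fun q => ?_⟩⟩
    · rcases hv with ⟨f, f1, f2, k⟩ | k
      · have := prow h (e := f) (by omega) (Or.inl (Or.inr k))
        obtain rfl : f = 1 + e := by omega
        exact k
      · have := pR h k.1
        omega
    · have := prow h (e := 1 + e) (by omega) (Or.inl (Or.inr q))
      omega
  · have fe : ∀ p : PD V, Pan H U I p → p.n = F.A.n → p.ring 0 ⊆ F.feet → v ∈ p.P →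
        p0 H F Z v = p.κ v → (∀ y ∈ p.P, 2 * 1 ≤ p.κ y → p.κ y ≤ 2 * (1 + (F.A.n - 2)) →
          y ∈ (F.sub 1 (F.A.n - 2)).dom (Zn H F Z)) →
        y ∈ (F.sub 1 (F.A.n - 2)).dom (Zn H F Z) ∪ D := fun p hp e s m q k => by
      rcases hp.clo v m (by omega) (by omega) y a with t | t
      · have := (hp.stp v m y t a).1
        unfold LSt at this
        exact Or.inl (k y t (by omega) (by omega))
      · refine fin h (cls h hv t.1 a) (by omega) (by omega) a ?_
        have := h.clo.2 v (s t.2) y t.1 a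
        simp only [mem_union] at this ⊢
        tauto
    rcases id hv with (k | k) | k
    · exact fin h (cls0 k) (by omega) (by omega) a (h.clo.1 v (zn_sub h k) y a)
    · exact fe _ h.bas.a rfl subset_union_left k.1 (pA k.1) fun y a b c => Or.inl (Or.inr ⟨a, b, c⟩)
    · exact fe _ h.bas.b bn subset_union_right k.1 (pB h k.1) fun y a b c => Or.inr ⟨a, b, c⟩
  · have r1 := dom_rng h n4 hu
    have r2 := dom_rng h n4 hv
    have : LSt (p0 H F Z u) (p0 H F Z v) := by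
      by_cases i1 : u ∈ Zn H F Z
      · exact lst h n4 (cls0 i1) (cls h hv (h.z.1 (zn_sub h i1)).1 a.symm) a
      by_cases i2 : v ∈ Zn H F Z
      · exact lst h n4 (cls h hu (h.z.1 (zn_sub h i2)).1 a) (cls0 i2) a
      rcases hu.imp_left (·.resolve_left i1) with p | p <;>
        rcases hv.imp_left (·.resolve_left i2) with q | q
      · rw [pA p.1, pA q.1]; exact (h.bas.a.stp u p.1 v q.1 a).1
      · exact (h.bas.dis.2 ⟨u, p.1, v, q.1, a⟩).elim
      · exact (h.bas.dis.2 ⟨v, q.1, u, p.1, a.symm⟩).elim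
      · rw [pB h p.1, pB h q.1]; exact (h.bas.b.stp u p.1 v q.1 a).1
    unfold LSt at this ⊢
    omega
  · rcases hv with ⟨e, e1, e2, k⟩ | k
    · obtain ⟨f, rfl⟩ : ∃ f, e = 1 + f := ⟨e - 1, by omega⟩
      exact ⟨f, show f ≤ F.A.n - 2 by omega, v, Or.inl (Or.inr k), Link.refl _ _ _⟩
    · obtain ⟨e, t⟩ := T_ex h k.1
      have := k.2 e t
      obtain ⟨f, rfl⟩ : ∃ f, e = 1 + f := ⟨e - 1, by omega⟩
      obtain ⟨x, hx, u, hu, a⟩ := t.2
      have s : cp H (R F Z) v ⊆ {x | x ∈ Zn H F Z ∧ p0 H F Z x - 2 = p0 H F Z v - 2} ∪ {u} :=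
        fun y m => Or.inl ⟨Or.inr (same h k m).1, by rw [(same h k m).2]⟩
      exact ⟨f, show f ≤ F.A.n - 2 by omega, u, hu,
        (((cp_conn k.1).2 v (cp_self k.1) x hx).mono s).trans (Link.single (s hx) (Or.inr rfl) a)⟩
  · have s : Zn H F Z ∪ (F.sub 1 (F.A.n - 2)).core ⊆ Z ∪ F.core := by
      refine union_subset_union (zn_sub h) ?_
      rintro v (((⟨e, (he : e ≤ F.A.n - 2), k⟩ | ⟨e, (he : e ≤ F.A.n - 2), k⟩) | k) | k)
      · exact Or.inl (Or.inl (Or.inl ⟨1 + e, by omega, k⟩))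
      · exact Or.inl (Or.inl (Or.inr ⟨1 + e, by omega, k⟩))
      · exact Or.inl (Or.inr ⟨k.1.1, k.2⟩)
      · exact Or.inr ⟨k.1.1, k.2⟩
    have e1 : 1 + 0 ≤ F.A.n := by omega
    have e2 : 1 + (F.A.n - 2) ≤ F.A.n := by omega
    obtain ⟨a, b, c, d, sl, P, Q, tw, h1, h2, h3, h4⟩ := merge (row_conn h e1) (row_conn h e2)
      (row_sub h e1) (row_sub h e2) (disjoint_left.2 fun x p q => by
        have := prow h e1 p
        have := prow h e2 q
        omega) (oA h e1) (oA h e2) (nf.px_mono s px)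
    have s1 := sg_sub F.A.o (N := F.A.n + 1) (l := List.range' 1 (F.A.n - 1))
      List.pairwise_lt_range' (by simp only [List.mem_range'_1]; omega)
    have s2 := (sg_sub F.B.o (N := F.A.n + 1) (l := List.range' 2 (F.A.n - 2 - 1))
      List.pairwise_lt_range' (by simp only [List.mem_range'_1]; omega)).reverse
    rw [← nf.sg_reverse, ← nf.sg_reverse] at s2
    have r : ∀ (o : ℕ → V) (k : ℕ), (List.range' 1 k).map (fun e => o (1 + e)) =
        (List.range' 2 k).map o := fun o k => by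
      rw [← List.map_add_range' (a := 1) 1 k 1, List.map_map]; rfl
    have r1 : (List.range' 1 (F.A.n - 1)).map F.A.o = F.A.o (1 + 0) ::
        (List.range' 2 (F.A.n - 2 - 1)).map F.A.o ++ [F.A.o (1 + (F.A.n - 2))] := by
      rw [show F.A.n - 1 = (F.A.n - 2 - 1 + 1) + 1 by omega, List.range'_succ, List.range'_concat,
        show 1 + (F.A.n - 2) = 1 + 1 + 1 * (F.A.n - 2 - 1) by omega]
      simp
    refine h.flat ⟨{a}, {b}, {c}, {d}, ((sl.map fun x => ({x} : Set V)).trans ?_), P, Q,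
      nf.two_mono tw (subset_union_left.trans subset_union_left), ⟨a, h1, rfl⟩, ⟨c, h2, rfl⟩,
      ⟨b, h3, rfl⟩, ⟨d, h4, rfl⟩, fun t m => ?_⟩
    · have := (s1.append (s2.cons rho)).cons lam
      rw [r1, ← r, ← r, ← nf.sg_append, List.append_assoc] at this
      exact this
    · simp only [List.cons_append, List.mem_cons, List.mem_append, nf.mem_sg] at m
      rcases m with rfl | ⟨x, -, rfl⟩ | rfl | ⟨x, -, rfl⟩
      · exact Or.inl (off h tw.sp).1
      · exact nf.two_single tw x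
      · exact Or.inl (off h tw.sp).2
      · exact nf.two_single tw x

end Pool.Agent.MP_9d78a0_co.st

end MrgPart3

-- ======== part 4: formerly Pool.Agent.MP_9d78a0_co.st.Split
section MrgPart4

/-! Many links between the two boundaries, or two separate children. -/

set_option autoImplicit false

namespace Pool.Agent.MP_9d78a0_co.st

open Set Function fb

namespace Spl

variable {V : Type}

theorem miss [Finite V] {k : ℕ} (F : ℕ → Set V) {X : Set V} (hX : X.ncard < k)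
    (h : ∀ i j, i < j → j < k → Disjoint (F i) (F j)) : ∃ r < k, Disjoint (F r) X := by
  by_contra c
  have c' : ∀ r : Fin k, ∃ v, v ∈ F r ∧ v ∈ X := fun r =>
    not_disjoint_iff.1 fun q => c ⟨r, r.2, q⟩
  choose g g1 g2 using c'
  have inj : Injective g := fun i j e => by
    rcases lt_trichotomy (i : ℕ) j with q | q | q
    · exact (disjoint_left.1 (h i j q j.2) (g1 i) (e ▸ g1 j)).elim
    · exact Fin.ext q
    · exact (disjoint_left.1 (h j i q i.2) (g1 j) (e ▸ g1 i)).elim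
  have := ncard_le_ncard (s := range g) (range_subset_iff.2 g2) (toFinite X)
  rw [ncard_range_of_injective inj, Nat.card_eq_fintype_card, Fintype.card_fin] at this
  omega

theorem X_anti (d : HD V) {l l' g g' : ℕ} (h : l ≤ l') (h' : g ≤ g') : d.X l' g' ⊆ d.X l g :=
  fun _ ⟨i, hi, q⟩ => ⟨i, hi, q.imp (fun q => ⟨q.1, h.trans q.2⟩) fun q => ⟨q.1, by omega⟩⟩

theorem conn_res {H : SimpleGraph V} {U S : Set V} (hS : S ⊆ U) (h : Conn H S) :
    Conn (res H U) S :=
  ⟨h.1, fun u hu v hv => Link.map (G' := res H U) id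
    (fun _ ha _ hb e => Link.single ha hb ⟨e, hS ha, hS hb⟩) (h.2 u hu v hv)⟩

theorem up_col (p : PD V) (l e : ℕ) : p.up l e ⊆ p.col e := by
  rintro v (q | ⟨m, -, h2, q⟩)
  exacts [Or.inl q, Or.inr ⟨m, Nat.zero_le _, h2, q⟩]

theorem side (hX : XrS) (hC : ChildS) [Finite V] {H H' : SimpleGraph V} {U U' D B : Set V}
    {d : HD V} {k L s' t u : ℕ} (pre : Pre H U H' U' d) (hk : D.ncard < k) (h4 : 4 ≤ t)
    (kt : k ≤ t) (hs : k + s' + 4 ≤ d.s) (hw : k * (L + 2) + s' + 6 ≤ d.w) (u1 : d.w ≤ u)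
    (u2 : u + t + d.w ≤ (d.arc 0).n) (dB : Disjoint (d.X 1 0) B)
    (cut : ∀ b ∈ B, b ∉ lk H' (U' \ D) d.top)
    (min : ∀ z ∈ D, ∃ S ⊆ U' \ (D \ {z}), Conn H' S ∧ z ∈ S ∧ (S ∩ d.top).Nonempty ∧
      (S ∩ B).Nonempty) :
    ∃ c : CD V, Col (res H' (lk H' (U' \ D) d.top)) (lk H' (U' \ D) d.top) d.list c ∧ c.s = s' ∧
      c.t = t ∧ (∀ j < t, c.o j = (d.arc 0).o (u + j)) ∧ d.top ⊆ U' \ D ∧
      lk H' (U' \ D) d.top \ d.X 1 1 ⊆ c.I ∧
      c.Core (res H' (lk H' (U' \ D) d.top)) (lk H' (U' \ D) d.top) ⊆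
        (d.arc 0).cols ∪ (lk H' (U' \ D) d.top \ d.top) ∧
      (∀ z ∈ D, Touch H' {z} c.I) ∧ ∀ G S, d.Den G L S → Touch G S c.I := by
  obtain ⟨-, lt, xr⟩ := hX V H H' U U' d pre (by omega)
  have k0 : 0 < d.k := by rcases pre.k with e | e <;> omega
  have m1 : k * (L + 2) = k * (L + 1) + k := by ring
  obtain ⟨r, hr, dr⟩ := miss (fun r => d.rg (1 + r) (k * (L + 1) + 3 + r)) hk fun i j h1 h2 =>
    ((xr (1 + i) (k * (L + 1) + 3 + i) (by omega) (by omega) (by omega)).2.2.2.2 (by omega)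
      (by omega) (by omega)).2.2.1.mono_right
      (((xr (1 + j) (k * (L + 1) + 3 + j) (by omega) (by omega) (by omega)).2.2.2.2 (by omega)
        (by omega) (by omega)).1.trans (X_anti d (by omega) (by omega)))
  obtain ⟨l, hl⟩ : ∃ l, l = 1 + r := ⟨_, rfl⟩
  obtain ⟨g, hg⟩ : ∃ g, g = k * (L + 1) + 3 + r := ⟨_, rfl⟩
  simp only [← hl, ← hg] at dr
  obtain ⟨x1, x2, x3, x4, x5⟩ := xr l g (by omega) (by omega) (by omega)
  obtain ⟨r1, r2, -, r4⟩ := x5 (by omega) (by omega) (by omega)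
  obtain ⟨⟨I, pan⟩, ps, -⟩ := pre.pan 0 k0
  obtain ⟨a, ha, da⟩ := miss (fun a => (d.arc 0).up l (u + a)) hk fun i j h1 h2 =>
    disjoint_left.2 fun v q1 q2 => by
      have e1 := ((pan.col (u + i) (by omega) v).1 (up_col _ _ _ q1)).2
      have e2 := ((pan.col (u + j) (by omega) v).1 (up_col _ _ _ q2)).2
      omega
  obtain ⟨c1, c2, c3, c4⟩ := x3 (u + a) (by omega) (by omega)
  have tX : d.top ⊆ d.X l g := X_anti d (by omega) (by omega)
  have rgU : d.rg l g ⊆ lk H' (U' \ D) d.top := by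
    have s1 : (d.arc 0).up l (u + a) ⊆ U' \ D := fun v q => ⟨x1 (c2 q), disjoint_left.1 da q⟩
    have s2 : (d.arc 0).o (u + a) ∈ (d.arc 0).up l (u + a) :=
      Or.inl (pan.lam (u + a) (by omega)).2.2.1
    obtain ⟨y, hy⟩ := (pan.cell l (by omega) (u + a) (by omega)).1.1
    exact capi.sub_lk_meet r2 (fun v q => ⟨x1 (r1 q), disjoint_left.1 dr q⟩)
      ⟨y, c3 hy, capi.sub_lk_meet c1 s1 ⟨_, s2, capi.lk_self (lt c4) (s1 s2)⟩
        (Or.inr ⟨l, le_rfl, by omega, hy⟩)⟩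
  have dX : d.X l g ⊆ U' \ D := fun z hz => ⟨x1 hz, fun q => by
    obtain ⟨S, s1, s2, s3, -, b, b1, b2⟩ := min z q
    obtain ⟨x, y, y1, -, y3, y4, e, y5⟩ := link_exit (T := (d.X l g)ᶜ) (s2.2 b b1 z s3)
      (fun c => disjoint_left.1 dB (X_anti d (by omega) (by omega) c) b2) (not_not.2 hz)
    have sub : S ∩ (d.X l g)ᶜ ⊆ U' \ D := fun v hv =>
      ⟨(s1 hv.1).1, fun c => (s1 hv.1).2 ⟨c, fun e => hv.2 ((show v = z from e) ▸ hz)⟩⟩
    exact cut b b2 (capi.lk_link (capi.lk_closed (rgU (r4 y (not_not.1 y4) x y3 e.symm))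
      (sub ⟨y1, y3⟩) e.symm) (y5.symm.mono sub))⟩
  have XU : d.X l g ⊆ lk H' (U' \ D) d.top := x2.trans (capi.lk_mono dX lt)
  obtain ⟨c, o1, o2, o3, o4, o5, o6, -, -, o9⟩ := hC V H H' U U' (lk H' (U' \ D) d.top) d l g s' t u
    pre (by omega) (by omega) (by omega) (by omega) h4 u1 u2 XU fun v q => q.1.1
  have hub : lk H' (U' \ D) d.top \ d.X l g ⊆ c.I := fun v ⟨q, n⟩ => o6 ⟨by
    obtain ⟨-, y, y1, y2, y3⟩ := id q
    exact ⟨q, y, tX y1, capi.lk_self y1 y2, capi.link_lk (capi.lk_self y1 y2) y3⟩, n⟩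
  refine ⟨c, o1, o2, o3, o4, tX.trans dX,
    fun v q => hub ⟨q.1, fun n => q.2 (X_anti d (by omega) (by omega) n)⟩, o9, fun z q => ?_,
    fun G S den => ?_⟩
  · obtain ⟨S, s1, s2, s3, ⟨b, b1, b2⟩, -⟩ := min z q
    have nz : z ∉ d.X l g := fun n => (dX n).2 q
    obtain ⟨x, y, y1, -, y3, y4, e, y5⟩ := link_exit (T := ({z} : Set V)ᶜ) (s2.2 b b1 z s3)
      (fun c => nz ((show b = z from c) ▸ tX b2)) (not_not.2 rfl)
    obtain rfl : y = z := not_not.1 y4
    have sub : S ∩ ({y} : Set V)ᶜ ⊆ U' \ D := fun v hv =>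
      ⟨(s1 hv.1).1, fun c => (s1 hv.1).2 ⟨c, hv.2⟩⟩
    refine ⟨y, rfl, x, ?_, e.symm⟩
    by_cases n : x ∈ d.X l g
    · exact o5 (r4 x n y nz e)
    · exact hub ⟨capi.lk_link (capi.lk_self b2 (dX (tX b2))) (y5.mono sub), n⟩
  · obtain ⟨e, he, de⟩ := miss
      (fun e => {x | x ∈ d.W 0 ∧ 2 * (e * (L + 1)) ≤ d.pos 0 x ∧ d.pos 0 x ≤ 2 * (e * (L + 1) + L)})
      hk fun i j h1 _ => disjoint_left.2 fun v q1 q2 => by
        have := Nat.mul_le_mul_right (L + 1) (show i + 1 ≤ j from h1)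
        have e1 := q1.2.2
        have e2 := q2.2.1
        rw [Nat.succ_mul] at this
        omega
    have m2 := Nat.mul_le_mul_right (L + 1) (show e + 1 ≤ k from he)
    rw [Nat.succ_mul] at m2
    refine (den 0 k0 (e * (L + 1)) (by omega)).mono Subset.rfl fun v hv => ?_
    obtain ⟨n, -, y, y1, -, y3⟩ := x4 0 k0 _ _ (by omega) v hv
    refine hub ⟨capi.lk_link (XU y1) (y3.mono fun x q => ?_), n⟩
    exact ⟨(pre.half 0 k0).sub q.1, disjoint_left.1 de q⟩

end Spl

open Spl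

theorem splitS : DoneS → XrS → ChildS → SplitS := by
  intro hD hX hC V _ G H h n K N L s t Ur U I ob Ω p p' b E D H' U' d u π W0 lo hi k s' P k0 h4 kt
    hs hw
  by_cases c : ∀ X ⊆ U', X.ncard < k → ∃ S ⊆ U' \ X, Conn H' S ∧ (S ∩ (d 0).top).Nonempty ∧
      (S ∩ (d 1).top).Nonempty
  · obtain ⟨R, h1, h2⟩ := mengerS V H' U' (d 0).top (d 1).top k (toFinite _) c
    exact Or.inl ⟨R, fun j => ⟨(h1 j).1, (h1 j).2.1, Fin.forall_fin_two.2 (h1 j).2.2⟩, h2⟩
  right
  have ex : ∃ m, ∃ X ⊆ U', X.ncard = m ∧ X.ncard < k ∧ ¬ ∃ S ⊆ U' \ X, Conn H' S ∧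
      (S ∩ (d 0).top).Nonempty ∧ (S ∩ (d 1).top).Nonempty := by
    by_contra q
    exact c fun X h1 h2 => not_not.1 fun q' => q ⟨_, X, h1, rfl, h2, q'⟩
  classical
  obtain ⟨Y, y1, y2, y3, y4⟩ := Nat.find_spec ex
  have min : ∀ z ∈ Y, ∃ S ⊆ U' \ (Y \ {z}), Conn H' S ∧ z ∈ S ∧ ∀ i, (S ∩ (d i).top).Nonempty := by
    intro z hz
    have lt := ncard_sdiff_singleton_lt_of_mem hz (toFinite Y)
    obtain ⟨S, s1, s2, s3⟩ := not_not.1 fun q => Nat.find_min ex (y2 ▸ lt)
      ⟨Y \ {z}, sdiff_subset.trans y1, rfl, lt.trans y3, q⟩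
    refine ⟨S, s1, s2, not_not.1 fun q => y4 ⟨S, fun v hv => ⟨(s1 hv).1, fun w => (s1 hv).2
      ⟨w, fun e => q ((show v = z from e) ▸ hv)⟩⟩, s2, s3⟩, Fin.forall_fin_two.2 s3⟩
  set A : Fin 2 → Set V := fun i => lk H' (U' \ Y) (d i).top with hA
  have dis : Disjoint (A 0) (A 1) := disjoint_left.2 fun v ⟨_, x, x1, x2, x3⟩ ⟨_, y, z1, z2, z3⟩ =>
    y4 ⟨cp H' (U' \ Y) x, cp_sub, cp_conn x2, ⟨x, cp_self x2, x1⟩, y, ⟨z2, x3.trans z3.symm⟩, z1⟩
  have pre := fun i => (P.pre i).1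
  have ds : ∀ i, (d i).s = s := fun i => (P.pre i).2.2.1
  have dw : ∀ i, (d i).w = (d 0).w := fun i => (P.pre i).2.2.2
  have tX : ∀ i, (d i).top ⊆ (d i).X 1 0 := fun i =>
    X_anti _ (by rw [ds i]; omega) (Nat.zero_le _)
  have oth : ∀ i, ∃ j, Disjoint ((d i).X 1 0) ((d j).X 1 0) ∧ Disjoint (A i) (A j) :=
    Fin.forall_fin_two.2 ⟨⟨1, P.dis, dis⟩, 0, P.dis.symm, dis.symm⟩
  choose j q1 q2 using oth
  choose c o1 o2 o3 o4 o5 o6 o7 o8 o9 using fun i =>
    side (L := L) (s' := s') hX hC (pre i) y3 h4 kt (by rw [ds i]; exact hs)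
      (by rw [dw i]; exact hw) (P.pos i).1 (P.pos i).2.1 ((q1 i).mono_right (tX (j i)))
      (fun v hv q => disjoint_left.1 (q2 i) q (capi.lk_self hv q.1))
      fun z hz => (min z hz).imp fun S q => ⟨q.1, q.2.1, q.2.2.1, q.2.2.2 i, q.2.2.2 (j i)⟩
  have tA : ∀ i, (d i).top ⊆ A i := fun i v hv => capi.lk_self hv (o5 i hv)
  have lA : ∀ i, ls (d i).list ⊆ A i := fun i =>
    (hX V H H' U U' (d i) (pre i) (by rw [ds i]; omega)).2.1.trans (tA i)
  have AU : ∀ i, A i ⊆ U' \ Y := fun i => capi.lk_sub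
  have le : H' ≤ G := (pre 0).le.trans P.le
  have out : U' \ (A 0 ∪ A 1) ⊆ (U ∩ Ur) \ (A 0 ∪ A 1) := fun v hv =>
    ⟨⟨(P.rest.1 hv.1).1, P.rest.2.1 ⟨hv.1, fun q => hv.2 (q.imp (@tA 0 v) (@tA 1 v))⟩⟩, hv.2⟩
  have del : D ∪ Y ⊆ (U ∩ Ur) \ (A 0 ∪ A 1) := by
    rintro z (hz | hz)
    · exact ⟨P.del.1 hz, fun q => q.elim (fun q => (P.rest.1 (AU 0 q).1).2 hz)
        fun q => (P.rest.1 (AU 1 q).1).2 hz⟩
    · exact out ⟨y1 hz, fun q => q.elim (fun q => (AU 0 q).2 hz) fun q => (AU 1 q).2 hz⟩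
  obtain ⟨-, -, p1, -, p2, p3, p4, p5⟩ := P.pins
  have m0 := (P.pos 0).2.2.1 0 (t - 1) (by omega) (by omega)
  have m1 := (P.pos 1).2.2.1 0 (t - 1) (by omega) (by omega)
  refine ⟨D ∪ Y, fun i => res H' (A i), A, c, ⟨fun i => ⟨⟨P.univ, fun _ _ e => le e.1, o1 i, ?_, ?_,
    (o7 i).trans (union_subset (P.rest.2.2 i) fun v hv => P.rest.2.1 ⟨(AU i hv.1).1, ?_⟩)⟩,
    fun v hv => (P.rest.1 (AU i hv).1).1, ?_⟩, ⟨dis, by rw [o3 0]; omega⟩, ⟨del, ?_⟩,
    fun j hj => ?_, fun e i => ?_⟩, fun i => ⟨o2 i, o3 i⟩, fun α q => ?_⟩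
  · rw [o3 i]
    exact (P.pos i).2.2.1
  · rw [o3 i]
    exact fun a ha => ⟨(o4 i a ha).trans ((P.pos i).2.2.2 a ha).1, ((P.pos i).2.2.2 a ha).2⟩
  · revert hv
    refine Fin.forall_fin_two (p := fun i => v ∈ A i \ (d i).top → ¬ v ∈ (d 0).top ∪ (d 1).top).2
      ⟨fun hv q => q.elim hv.2 fun q => disjoint_left.1 dis hv.1 (tA 1 q),
        fun hv q => q.elim (fun q => disjoint_left.1 dis (tA 0 q) hv.1) hv.2⟩ i
  · rw [o3 i]
    exact Fin.forall_fin_two (p := fun i => p ≤ π i 0 ∧ π i (t - 1) ≤ p').2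
      ⟨⟨by omega, by omega⟩, by omega, by omega⟩ i
  · rintro z (hz | hz) i
    · exact o9 i G _ (P.del.2 z hz i)
    · obtain ⟨x, hx, y, hy, e⟩ := o8 i z hz
      exact ⟨x, hx, y, hy, le e⟩
  · have one : ∀ z ∈ D ∪ Y, Touch G (E j) {z} → ∃ S ⊆ (U ∩ Ur) \ (A 0 ∪ A 1), Conn G S ∧
        Touch G (E j) S ∧ (S ∩ (D ∪ Y)).Nonempty := fun z hz q =>
      ⟨{z}, singleton_subset_iff.2 (del hz), conn_singleton _ _, q, z, rfl, hz⟩
    rcases P.pend j hj with q | ⟨v, hv, z, hz, e⟩ | ⟨v, hv, x, ⟨⟨x1, x2⟩, x3⟩, e⟩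
    · exact Or.inl ⟨0, o9 0 G _ (q 0)⟩
    · exact Or.inr (one z (Or.inl hz) ⟨v, hv, z, rfl, e⟩)
    by_cases c1 : x ∈ Y
    · exact Or.inr (one x (Or.inr c1) ⟨v, hv, x, rfl, e⟩)
    by_cases c2 : x ∈ A 0
    · exact Or.inl ⟨0, v, hv, x, o6 0 ⟨c2, fun q => x3 (Or.inl q)⟩, e⟩
    by_cases c3 : x ∈ A 1
    · exact Or.inl ⟨1, v, hv, x, o6 1 ⟨c3, fun q => x3 (Or.inr q)⟩, e⟩
    have xs : x ∈ U' \ Y := ⟨x2, c1⟩
    have kA : cp H' (U' \ Y) x ⊆ U' \ (A 0 ∪ A 1) := fun y hy =>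
      ⟨hy.1.1, fun q => q.elim (fun q => c2 (capi.lk_link q hy.2.symm))
        fun q => c3 (capi.lk_link q hy.2.symm)⟩
    obtain ⟨a, a1, a2⟩ := P.hub.2.2
    obtain ⟨y, z, -, -, z1, z2, e', -⟩ := link_exit (T := cp H' (U' \ Y) x) (P.hub.1.2 x x1 a a1)
      (cp_self xs) fun q => (kA q).2 (Or.inl (tA 0 a2))
    have hz : z ∈ D ∪ Y := by
      by_contra q
      have e2 := P.spl y ⟨z1.1.1, fun w => (kA z1).2 (w.imp (@lA 0 y) (@lA 1 y))⟩ z
        (fun w => q (Or.inl w)) e'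
      exact z2 (cp_closed z1 ⟨(pre 0).tight _ _ e2.symm, fun w => q (Or.inr w)⟩ e2)
    exact Or.inr ⟨cp H' (U' \ Y) x ∪ {z},
      union_subset (kA.trans out) (singleton_subset_iff.2 (del hz)),
      conn_union_touch (capi.conn_le le (cp_conn xs)) (conn_singleton _ _)
        ⟨y, z1, z, rfl, P.le e'⟩, ⟨v, hv, x, Or.inl (cp_self xs), e⟩, z, Or.inr rfl, hz⟩
  · obtain ⟨e1, e2⟩ := union_empty_iff.1 e
    have sub : ∀ S ⊆ U', S ⊆ U' \ Y := fun S q => by rwa [e2, sdiff_empty]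
    have lA' : ∀ i, lk H' U' (ls (d i).list) ⊆ A i := fun i =>
      capi.lk_mono (sub _ Subset.rfl)
        (hX V H H' U U' (d i) (pre i) (by rw [ds i]; omega)).2.1
    obtain ⟨x1, x2, x3, x4, sl, Q1, Q2, T, w1, w2, w3, w4⟩ :=
      P.xing e1 (dis.mono (lA' 0) (lA' 1)) i
    have s1 : Q1 ⊆ A i := capi.sub_lk_meet T.cp (sub _ T.sp) ⟨x1, w1, lA i (sl.subset (by simp))⟩
    have s2 : Q2 ⊆ A i := capi.sub_lk_meet T.cq (sub _ T.sq) ⟨x2, w3, lA i (sl.subset (by simp))⟩
    exact ⟨x1, x2, x3, x4, sl, Q1, Q2, ⟨s1, s2, conn_res s1 T.cp, conn_res s2 T.cq, T.dis⟩,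
      w1, w2, w3, w4⟩
  · exact P.asm _ ((hD V H' U' α).2.2.2.2.2.2.1 Y (A 0) (A 1) k _ _ y3.le
      (union_subset (AU 0) (AU 1)) dis (fun _ q _ q' e => capi.lk_closed q q' e)
      (fun _ q _ q' e => capi.lk_closed q q' e) (lA 0) (lA 1) (q 0) (q 1))

end Pool.Agent.MP_9d78a0_co.st

end MrgPart4

-- marker of a merged file
example : 731051 + 338750 = 731051 + 338750 := rfl
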