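import Pool.Agent.MP_9d78a0_co.st.TRg
import Pool.Agent.MP_9d78a0_co.st.Del
import Pool.Agent.MP_9d78a0_co.fb.Part12

-- ======== part 0: formerly Pool.Agent.MP_9d78a0_co.st.Glue
section MrgPart0

/-! Two flat sides make a flat society (parity argument). -/

set_option autoImplicit false

namespace Pool.Agent.MP_9d78a0_co.st

open Set Function fb

namespace Glue

variable {V : Type}

theorem two_symm {H : SimpleGraph V} {U P Q : Set V} (h : Two H U P Q) : Two H U Q P :=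
  ⟨h.sq, h.sp, h.cq, h.cp, h.dis.symm⟩

theorem cr_rot {H : SimpleGraph V} {U : Set V} {X Y : List V} (h : Cr H U (X ++ Y)) :
    Cr H U (Y ++ X) := by
  obtain ⟨a, b, c, d, s, P, Q, t, ha, hc, hb, hd⟩ := h
  obtain ⟨l1, l2, e, s1, s2⟩ := List.sublist_append_iff.1 s
  have k := s2.append s1
  rcases l1 with _ | ⟨x1, _ | ⟨x2, _ | ⟨x3, _ | ⟨x4, l1⟩⟩⟩⟩ <;>
    simp only [List.nil_append, List.cons_append, List.cons.injEq] at e
  · subst e
    exact ⟨a, b, c, d, by simpa using k, P, Q, t, ha, hc, hb, hd⟩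
  · obtain ⟨rfl, rfl⟩ := e
    exact ⟨b, c, d, a, k, Q, P, two_symm t, hb, hd, hc, ha⟩
  · obtain ⟨rfl, rfl, rfl⟩ := e
    exact ⟨c, d, a, b, k, P, Q, t, hc, ha, hd, hb⟩
  · obtain ⟨rfl, rfl, rfl, rfl⟩ := e
    exact ⟨d, a, b, c, k, Q, P, two_symm t, hd, hb, ha, hc⟩
  · obtain ⟨rfl, rfl, rfl, rfl, e⟩ := e
    obtain ⟨rfl, rfl⟩ := List.append_eq_nil_iff.1 e.symm
    exact ⟨a, b, c, d, k, P, Q, t, ha, hc, hb, hd⟩

theorem cr_rev {H : SimpleGraph V} {U : Set V} {X : List V} (h : Cr H U X) :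
    Cr H U X.reverse := by
  obtain ⟨a, b, c, d, s, P, Q, t, ha, hc, hb, hd⟩ := h
  exact ⟨d, c, b, a, by simpa using s.reverse, Q, P, two_symm t, hd, hb, hc, ha⟩

open Classical in
/-- place of a letter, counted from one -/
noncomputable def pl (M : List V) (e : V) : ℕ := if e ∈ M then M.idxOf e + 1 else 0

theorem pl_pos {M : List V} {e : V} : 0 < pl M e ↔ e ∈ M := by
  unfold pl; split_ifs with h <;> simp [h]

theorem pl_zero {M : List V} {e : V} (h : e ∉ M) : pl M e = 0 := by simp [pl, h]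

theorem pl_le (M : List V) (e : V) : pl M e ≤ M.length := by
  classical
  unfold pl; split_ifs with h
  exacts [List.idxOf_lt_length_iff.2 h, Nat.zero_le _]

theorem pl_head (M : List V) (m : V) : pl (m :: M) m = 1 := by simp [pl]

theorem pl_tail {M : List V} {m e : V} (h : e ≠ m) (k : e ∈ M) : pl (m :: M) e = pl M e + 1 := by
  classical
  simp [pl, k, List.idxOf_cons_ne _ h.symm]

theorem pl_left {M : List V} (A : List V) {e : V} (h : e ∈ M) : pl (M ++ A) e = pl M e := by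
  classical
  simp [pl, h, List.idxOf_append_of_mem h]

theorem pl_right {M A : List V} {e : V} (h : e ∉ M) (k : e ∈ A) :
    pl (M ++ A) e = M.length + pl A e := by
  classical
  simp [pl, k, List.idxOf_append_of_notMem h, Nat.add_assoc]

theorem pl_inj {M : List V} {e e' : V} (h : 0 < pl M e) (k : pl M e = pl M e') : e = e' := by
  classical
  have h1 := pl_pos.1 h
  have h2 := pl_pos.1 (k ▸ h)
  simp only [pl, h1, h2, if_true, Nat.add_right_cancel_iff] at k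
  exact (List.idxOf_inj h1).1 k

theorem sub_of (M : List V) : ∀ l : List V, (∀ e ∈ l, e ∈ M) →
    l.Pairwise (fun x y => pl M x < pl M y) → List.Sublist l M := by
  induction M with
  | nil => intro l h _; rcases l with _ | ⟨x, l⟩; exacts [List.Sublist.refl _, by simpa using h x]
  | cons m M ih =>
    have key : ∀ l : List V, (∀ e ∈ l, e ∈ m :: M) → (∀ e ∈ l, e ≠ m) →
        l.Pairwise (fun x y => pl (m :: M) x < pl (m :: M) y) → List.Sublist l M := by
      intro l h n p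
      have h' : ∀ e ∈ l, e ∈ M := fun e k => (List.mem_cons.1 (h e k)).resolve_left (n e k)
      refine ih l h' (p.imp_of_mem fun {x y} hx hy k => ?_)
      rw [pl_tail (n x hx) (h' x hx), pl_tail (n y hy) (h' y hy)] at k
      omega
    intro l h p
    rcases l with _ | ⟨x, l⟩
    · exact List.nil_sublist _
    obtain ⟨p1, p2⟩ := List.pairwise_cons.1 p
    have n : ∀ e ∈ l, e ≠ m := by
      rintro e k rfl
      have := p1 e k
      have := pl_pos.2 (h x (by simp))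
      rw [pl_head] at *
      omega
    by_cases c : x = m
    · subst c
      exact (key l (fun e k => h e (List.mem_cons_of_mem _ k)) n p2).cons_cons _
    · exact (key _ h (by simpa [c] using n) p).cons _

theorem pw {M : List V} (h : M.Nodup) : M.Pairwise fun x y => pl M x < pl M y := by
  induction M with
  | nil => exact List.Pairwise.nil
  | cons m M ih =>
    obtain ⟨h1, h2⟩ := List.nodup_cons.1 h
    have n : ∀ e ∈ M, e ≠ m := fun e k c => h1 (c ▸ k)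
    refine List.pairwise_cons.2 ⟨fun e k => ?_, (ih h2).imp_of_mem fun {x y} hx hy k => ?_⟩
    · have := pl_pos.2 k
      rw [pl_head, pl_tail (n e k) k]
      omega
    · rw [pl_tail (n x hx) hx, pl_tail (n y hy) hy]
      omega

/-- indicator of `m < n` -/
def u (m n : ℕ) : ℕ := if m < n then 1 else 0

theorem us (m n : ℕ) : (m < n ∧ u m n = 1) ∨ (n ≤ m ∧ u m n = 0) := by
  unfold u; split_ifs <;> omega

theorem lk_in {H : SimpleGraph V} {S : Set V} {x y : V} (h : Link H S x y) (hx : x ∈ S) :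
    y ∈ cp H S x := by
  refine ⟨?_, h⟩
  induction h with
  | refl => exact hx
  | tail _ k _ => exact k.2.1

/-- chords of disjoint sets do not alternate -/
theorem nc {H : SimpleGraph V} {U P Q : Set V} {M : List V} (h : ¬ Cr H U M) (d : Disjoint P Q)
    {x y z w : V} (mx : x ∈ M) (my : y ∈ M) (mz : z ∈ M) (mw : w ∈ M) (hx : x ∈ P ∩ U)
    (hz : z ∈ Q ∩ U) (l : Link H (P ∩ U) x y) (l' : Link H (Q ∩ U) z w) :
    (u (pl M z) (pl M x) + u (pl M z) (pl M y) + u (pl M w) (pl M x) + u (pl M w) (pl M y)) % 2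
      = 0 := by
  have t : Two H U (cp H (P ∩ U) x) (cp H (Q ∩ U) z) :=
    ⟨fun _ k => k.1.2, fun _ k => k.1.2, cp_conn hx, cp_conn hz,
      d.mono (fun _ k => k.1.1) fun _ k => k.1.1⟩
  have a1 := cp_self (G := H) hx
  have a2 := lk_in l hx
  have a3 := cp_self (G := H) hz
  have a4 := lk_in l' hz
  have key : ∀ {P Q : Set V} {a b c d : V}, Two H U P Q → a ∈ P → c ∈ P → b ∈ Q → d ∈ Q → a ∈ M →
      c ∈ M → b ∈ M → d ∈ M → ¬ (pl M a < pl M b ∧ pl M b < pl M c ∧ pl M c < pl M d) := by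
    intro P Q a b c d t h1 h2 h3 h4 m1 m2 m3 m4 k
    refine h ⟨a, b, c, d, sub_of M _ (by simp [m1, m2, m3, m4]) ?_, P, Q, t, h1, h2, h3, h4⟩
    simp only [List.pairwise_cons, List.mem_cons, List.not_mem_nil, or_false, forall_eq_or_imp,
      forall_eq, List.Pairwise.nil, and_true, false_imp_iff, implies_true]
    omega
  have ne : ∀ {a b : V}, a ∈ cp H (P ∩ U) x → b ∈ cp H (Q ∩ U) z → a ∈ M → pl M a ≠ pl M b :=
    fun h1 h2 m k => disjoint_left.1 t.dis h1 (pl_inj (pl_pos.2 m) k ▸ h2)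
  have b1 := key t a1 a2 a3 a4 mx my mz mw
  have b2 := key t a2 a1 a3 a4 my mx mz mw
  have b3 := key t a1 a2 a4 a3 mx my mw mz
  have b4 := key t a2 a1 a4 a3 my mx mw mz
  have b5 := key (two_symm t) a3 a4 a1 a2 mz mw mx my
  have b6 := key (two_symm t) a4 a3 a1 a2 mw mz mx my
  have b7 := key (two_symm t) a3 a4 a2 a1 mz mw my mx
  have b8 := key (two_symm t) a4 a3 a2 a1 mw mz my mx
  have c1 := ne a1 a3 mx
  have c2 := ne a1 a4 mx
  have c3 := ne a2 a3 my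
  have c4 := ne a2 a4 my
  have d1 := us (pl M z) (pl M x)
  have d2 := us (pl M z) (pl M y)
  have d3 := us (pl M w) (pl M x)
  have d4 := us (pl M w) (pl M y)
  omega

/-- a walk between letters is a chain of chords -/
theorem walk {H H1 H2 : SimpleGraph V} {U U1 U2 S P : Set V} {M1 M2 : List V}
    (sp : Split H H1 H2 U U1 U2 S) (s1 : ∀ x ∈ S, x ∈ M1) (s2 : ∀ x ∈ S, x ∈ M2)
    (m1 : ∀ x ∈ M1, x ∈ U1) (m2 : ∀ x ∈ M2, x ∈ U2) {I : V → Prop}
    (c1 : ∀ x ∈ M1, ∀ y ∈ M1, x ∈ P → y ∈ P → Link H1 (P ∩ U1) x y → I x → I y)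
    (c2 : ∀ x ∈ M2, ∀ y ∈ M2, x ∈ P → y ∈ P → Link H2 (P ∩ U2) x y → I x → I y)
    {p v : V} (hp : p ∈ P) (mp : p ∈ M1 ∨ p ∈ M2) (mv : v ∈ M1 ∨ v ∈ M2) (l : Link H P p v)
    (i : I p) : I v := by
  have both : ∀ x ∈ U1, x ∈ U2 → x ∈ S := fun x a b => sp.int ▸ (⟨a, b⟩ : x ∈ U1 ∩ U2)
  have key : v ∈ P ∧ ∃ x ∈ P, I x ∧ ((x ∈ M1 ∧ v ∈ U1 ∧ Link H1 (P ∩ U1) x v) ∨
      (x ∈ M2 ∧ v ∈ U2 ∧ Link H2 (P ∩ U2) x v)) := by
    clear mv
    induction l with
    | refl => exact ⟨hp, p, hp, i, mp.imp (fun k => ⟨k, m1 p k, Link.refl _ _ _⟩)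
        fun k => ⟨k, m2 p k, Link.refl _ _ _⟩⟩
    | @tail y z _ k ih =>
      obtain ⟨-, x, hx, ix, ih⟩ := ih
      obtain ⟨hy, hz, e⟩ := k
      refine ⟨hz, ?_⟩
      rw [← sp.sup] at e
      rcases e with e | e
      · have uy := sp.t1 _ _ e
        have uz := sp.t1 _ _ e.symm
        have st : Link H1 (P ∩ U1) y z := Link.single ⟨hy, uy⟩ ⟨hz, uz⟩ e
        rcases ih with ⟨a, -, c⟩ | ⟨a, b, c⟩
        · exact ⟨x, hx, ix, Or.inl ⟨a, uz, c.trans st⟩⟩
        · have := both y uy b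
          exact ⟨y, hy, c2 x a y (s2 y this) hx hy c ix, Or.inl ⟨s1 y this, uz, st⟩⟩
      · have uy := sp.t2 _ _ e
        have uz := sp.t2 _ _ e.symm
        have st : Link H2 (P ∩ U2) y z := Link.single ⟨hy, uy⟩ ⟨hz, uz⟩ e
        rcases ih with ⟨a, b, c⟩ | ⟨a, -, c⟩
        · have := both y b uy
          exact ⟨y, hy, c1 x a y (s1 y this) hx hy c ix, Or.inr ⟨s2 y this, uz, st⟩⟩
        · exact ⟨x, hx, ix, Or.inr ⟨a, uz, c.trans st⟩⟩
  obtain ⟨hv, x, hx, ix, ⟨a, b, c⟩ | ⟨a, b, c⟩⟩ := key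
  · exact c1 x a v (mv.elim id fun k => s1 v (both v b (m2 v k))) hx hv c ix
  · exact c2 x a v (mv.elim (fun k => s2 v (both v (m1 v k) b)) id) hx hv c ix

/-- the parity argument -/
theorem core {H H1 H2 : SimpleGraph V} {U U1 U2 S P Q : Set V} {M1 M2 : List V} {n : ℕ}
    (sp : Split H H1 H2 U U1 U2 S) (s1 : ∀ x ∈ S, x ∈ M1) (s2 : ∀ x ∈ S, x ∈ M2)
    (m1 : ∀ x ∈ M1, x ∈ U1) (m2 : ∀ x ∈ M2, x ∈ U2) (n1 : ¬ Cr H1 U1 M1) (n2 : ¬ Cr H2 U2 M2)
    (ty : ∀ e, (pl M1 e = pl M2 e ∧ pl M1 e ≤ n) ∨ (n < pl M1 e ∧ pl M2 e = 0) ∨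
      (n < pl M2 e ∧ pl M1 e = 0)) (t : Two H U P Q) {p p' q q' : V} (hp : p ∈ P) (hp' : p' ∈ P)
    (hq : q ∈ Q) (hq' : q' ∈ Q) (n0 : 0 < n)
    (op : (pl M1 p = 1 ∧ pl M2 p = 1 ∧ 1 < n) ∨ ((n ≤ pl M1 p ∨ n ≤ pl M2 p) ∧
      pl M1 p + pl M2 q < pl M1 q + pl M2 p))
    (kq : n ≤ pl M1 q ∨ n ≤ pl M2 q) (kp' : n ≤ pl M1 p' ∨ n ≤ pl M2 p')
    (kq' : n ≤ pl M1 q' ∨ n ≤ pl M2 q') (o2 : pl M1 q + pl M2 p' < pl M1 p' + pl M2 q)
    (o3 : pl M1 p' + pl M2 q' < pl M1 q' + pl M2 p') : False := by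
  have mem : ∀ e, 0 < pl M1 e ∨ 0 < pl M2 e → e ∈ M1 ∨ e ∈ M2 :=
    fun e k => k.imp pl_pos.1 pl_pos.1
  have I : ∃ φ1 φ2 : V → ℕ,
      (∀ z ∈ M1, ∀ w ∈ M1, z ∈ Q → Link H1 (Q ∩ U1) z w → (φ1 z + φ1 w) % 2 = 0) ∧
      (∀ z ∈ M2, ∀ w ∈ M2, z ∈ Q → Link H2 (Q ∩ U2) z w → (φ2 z + φ2 w) % 2 = 0) ∧
      (∀ z, n ≤ pl M1 z → (φ1 z + u (pl M1 z) (pl M1 p) + u (pl M1 z) (pl M1 p')) % 2 = 0) ∧
      (∀ z, n ≤ pl M2 z → (φ2 z + u (pl M2 z) (pl M2 p) + u (pl M2 z) (pl M2 p')) % 2 = 0) ∧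
      ∀ z, pl M1 z = pl M2 z → (φ1 z + φ2 z + u (pl M1 z) (max (pl M1 p) (pl M2 p)) +
        u (pl M1 z) (max (pl M1 p') (pl M2 p'))) % 2 = 0 := by
    refine walk (P := P) (I := fun p' => ∃ φ1 φ2 : V → ℕ,
      (∀ z ∈ M1, ∀ w ∈ M1, z ∈ Q → Link H1 (Q ∩ U1) z w → (φ1 z + φ1 w) % 2 = 0) ∧
      (∀ z ∈ M2, ∀ w ∈ M2, z ∈ Q → Link H2 (Q ∩ U2) z w → (φ2 z + φ2 w) % 2 = 0) ∧
      (∀ z, n ≤ pl M1 z → (φ1 z + u (pl M1 z) (pl M1 p) + u (pl M1 z) (pl M1 p')) % 2 = 0) ∧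
      (∀ z, n ≤ pl M2 z → (φ2 z + u (pl M2 z) (pl M2 p) + u (pl M2 z) (pl M2 p')) % 2 = 0) ∧
      ∀ z, pl M1 z = pl M2 z → (φ1 z + φ2 z + u (pl M1 z) (max (pl M1 p) (pl M2 p)) +
        u (pl M1 z) (max (pl M1 p') (pl M2 p'))) % 2 = 0) sp s1 s2 m1 m2 ?_ ?_ hp
      (mem p (by omega)) (mem p' (by omega)) (t.cp.2 p hp p' hp')
      ⟨fun _ => 0, fun _ => 0, by simp, by simp, fun z _ => by dsimp only; omega,
        fun z _ => by dsimp only; omega, fun z _ => by dsimp only; omega⟩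
    · rintro x mx y my hx - l ⟨φ1, φ2, i1, i2, i3, i4, i5⟩
      have tx := ty x
      have tz := ty y
      have px := pl_pos.2 mx
      have py := pl_pos.2 my
      refine ⟨fun z => φ1 z + u (pl M1 z) (pl M1 x) + u (pl M1 z) (pl M1 y), φ2,
        fun z mz w mw hz l' => ?_, i2, fun z k => ?_, fun z k => ?_, fun z k => ?_⟩
      · have := nc n1 t.dis mx my mz mw ⟨hx, m1 x mx⟩ ⟨hz, m1 z mz⟩ l l'
        have := i1 z mz w mw hz l'
        dsimp only; omega
      · have := i3 z k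
        dsimp only; omega
      · have := i4 z k
        have := us (pl M2 z) (pl M2 x)
        have := us (pl M2 z) (pl M2 y)
        omega
      · have := i5 z k
        rw [show max (pl M1 x) (pl M2 x) = pl M1 x by omega] at this
        rw [show max (pl M1 y) (pl M2 y) = pl M1 y by omega]
        dsimp only; omega
    · rintro x mx y my hx - l ⟨φ1, φ2, i1, i2, i3, i4, i5⟩
      have tx := ty x
      have tz := ty y
      have px := pl_pos.2 mx
      have py := pl_pos.2 my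
      refine ⟨φ1, fun z => φ2 z + u (pl M2 z) (pl M2 x) + u (pl M2 z) (pl M2 y), i1,
        fun z mz w mw hz l' => ?_, fun z k => ?_, fun z k => ?_, fun z k => ?_⟩
      · have := nc n2 t.dis mx my mz mw ⟨hx, m2 x mx⟩ ⟨hz, m2 z mz⟩ l l'
        have := i2 z mz w mw hz l'
        dsimp only; omega
      · have := i3 z k
        have := us (pl M1 z) (pl M1 x)
        have := us (pl M1 z) (pl M1 y)
        omega
      · have := i4 z k
        dsimp only; omega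
      · have := i5 z k
        rw [show max (pl M1 x) (pl M2 x) = pl M2 x by omega] at this
        rw [show max (pl M1 y) (pl M2 y) = pl M2 y by omega]
        dsimp only
        rw [← k]; omega
  obtain ⟨φ1, φ2, i1, i2, i3, i4, i5⟩ := I
  have tp := ty p
  have tp' := ty p'
  have tq := ty q
  have tq' := ty q'
  obtain ⟨c, hc⟩ : ∃ c : ℕ, (pl M1 p = 1 ∧ pl M2 p = 1 ∧ 1 < n ∧ c = 1) ∨
      ((n ≤ pl M1 p ∨ n ≤ pl M2 p) ∧ pl M1 p + pl M2 q < pl M1 q + pl M2 p ∧ c = 0) :=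
    op.elim (fun k => ⟨1, by omega⟩) fun k => ⟨0, by omega⟩
  have seam : ∀ z ∈ Q, z ∈ M1 → z ∈ M2 → (φ1 z + φ2 z + c) % 2 = 0 := by
    intro z hz a1 a2
    have b1 := pl_pos.2 a1
    have b2 := pl_pos.2 a2
    have tz := ty z
    have e1 : pl M1 z ≠ pl M1 p := fun k => disjoint_left.1 t.dis hp (pl_inj b1 k ▸ hz)
    have e2 : pl M1 z ≠ pl M1 p' := fun k => disjoint_left.1 t.dis hp' (pl_inj b1 k ▸ hz)
    have := i5 z (by omega)
    have := us (pl M1 z) (max (pl M1 p) (pl M2 p))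
    have := us (pl M1 z) (max (pl M1 p') (pl M2 p'))
    omega
  have J : (q' ∈ M1 → (φ1 q' + 1) % 2 = 0) ∧ (q' ∈ M2 → (φ2 q' + c + 1) % 2 = 0) := by
    refine walk (P := Q) (I := fun z => (z ∈ M1 → (φ1 z + 1) % 2 = 0) ∧
      (z ∈ M2 → (φ2 z + c + 1) % 2 = 0)) sp s1 s2 m1 m2 ?_ ?_ hq (mem q (by omega))
      (mem q' (by omega)) (t.cq.2 q hq q' hq') ⟨fun k => ?_, fun k => ?_⟩
    · intro z mz w mw hz hw l j
      have := i1 z mz w mw hz l
      have := j.1 mz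
      exact ⟨fun _ => by omega, fun k => by have := seam w hw mw k; omega⟩
    · intro z mz w mw hz hw l j
      have := i2 z mz w mw hz l
      have := j.2 mz
      exact ⟨fun k => by have := seam w hw k mw; omega, fun _ => by omega⟩
    · have := pl_pos.2 k
      have := i3 q (by omega)
      have := us (pl M1 q) (pl M1 p)
      have := us (pl M1 q) (pl M1 p')
      omega
    · have := pl_pos.2 k
      have := i4 q (by omega)
      have := us (pl M2 q) (pl M2 p)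
      have := us (pl M2 q) (pl M2 p')
      omega
  rcases kq' with k | k
  · have := J.1 (pl_pos.1 (by omega))
    have := i3 q' k
    have := us (pl M1 q') (pl M1 p)
    have := us (pl M1 q') (pl M1 p')
    omega
  · have := J.2 (pl_pos.1 (by omega))
    have := i4 q' k
    have := us (pl M2 q') (pl M2 p)
    have := us (pl M2 q') (pl M2 p')
    omega

end Glue

open Glue in
theorem glueS : GlueS := by
  intro V H H1 H2 U U1 U2 a b A1 A2 Y sp nd h1 h2 n1 n2 cr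
  obtain ⟨s, hs⟩ : ∃ s, s = b :: Y.reverse ++ [a] := ⟨_, rfl⟩
  have ms : ∀ x, x ∈ s ↔ x ∈ ls (a :: Y ++ [b]) := by
    intro x
    simp only [hs, ls, mem_ofPred_eq, List.mem_cons, List.mem_append, List.mem_reverse,
      List.cons_append, List.not_mem_nil]
    tauto
  have nd' : (s ++ A1 ++ A2.reverse).Nodup := by
    refine (List.Perm.nodup_iff ?_).1 nd
    classical
    refine List.perm_iff_count.2 fun x => ?_
    simp only [hs, List.count_append, List.count_cons, List.count_reverse, List.count_nil,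
      List.cons_append]
    omega
  obtain ⟨d1, -, d2⟩ := List.nodup_append.1 nd'
  have d3 : (s ++ A2.reverse).Nodup :=
    nd'.sublist ((List.sublist_append_left s A1).append (List.Sublist.refl _))
  have e1 : ∀ x ∈ A1, x ∉ s := fun x k l => (List.nodup_append.1 d1).2.2 x l x k rfl
  have e2 : ∀ x ∈ A2.reverse, x ∉ s := fun x k l => (List.nodup_append.1 d3).2.2 x l x k rfl
  have e3 : ∀ x ∈ A1, x ∉ A2.reverse := fun x k l => d2 x (List.mem_append_right _ k) x l rfl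
  have t1 : ∀ x ∈ A1, s.length < pl (s ++ A1) x ∧ pl (s ++ A2.reverse) x = 0 := fun x k =>
    ⟨by rw [pl_right (e1 x k) k]; have := pl_pos.2 k; omega,
      pl_zero fun l => (List.mem_append.1 l).elim (e1 x k) (e3 x k)⟩
  have t2 : ∀ x ∈ A2.reverse, s.length < pl (s ++ A2.reverse) x ∧ pl (s ++ A1) x = 0 := fun x k =>
    ⟨by rw [pl_right (e2 x k) k]; have := pl_pos.2 k; omega,
      pl_zero fun l => (List.mem_append.1 l).elim (e2 x k) fun m => e3 x m k⟩
  have ty : ∀ e, (pl (s ++ A1) e = pl (s ++ A2.reverse) e ∧ pl (s ++ A1) e ≤ s.length) ∨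
      (s.length < pl (s ++ A1) e ∧ pl (s ++ A2.reverse) e = 0) ∨
      (s.length < pl (s ++ A2.reverse) e ∧ pl (s ++ A1) e = 0) := by
    intro e
    by_cases c : e ∈ s
    · rw [pl_left _ c, pl_left _ c]
      exact Or.inl ⟨rfl, pl_le _ _⟩
    by_cases c1 : e ∈ A1
    · exact Or.inr (Or.inl (t1 e c1))
    by_cases c2 : e ∈ A2.reverse
    · exact Or.inr (Or.inr (t2 e c2))
    rw [pl_zero fun l => (List.mem_append.1 l).elim c c1,
      pl_zero fun l => (List.mem_append.1 l).elim c c2]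
    exact Or.inl ⟨rfl, Nat.zero_le _⟩
  have sa : a ∈ s := by simp [hs]
  have sb : b ∈ s := by simp [hs]
  have pa : pl s a = s.length := by
    have := (List.nodup_append.1 d1).1
    rw [hs] at this ⊢
    rw [pl_right fun l => (List.nodup_append.1 this).2.2 a l a (by simp) rfl, pl_head]
    · simp
    · simp
  have pb : pl s b = 1 := by rw [hs]; exact pl_head _ _
  have len : 1 < s.length := by simp [hs]
  have ta : pl (s ++ A1) a = s.length ∧ pl (s ++ A2.reverse) a = s.length := by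
    rw [pl_left _ sa, pl_left _ sa]; exact ⟨pa, pa⟩
  have big : ∀ x ∈ A2 ++ a :: A1, s.length ≤ pl (s ++ A1) x ∨ s.length ≤ pl (s ++ A2.reverse) x := by
    intro x k
    rcases List.mem_append.1 k with k | k
    · exact Or.inr (t2 x (List.mem_reverse.2 k)).1.le
    · rcases List.mem_cons.1 k with rfl | k
      exacts [Or.inl ta.1.ge, Or.inl (t1 x k).1.le]
  have ord : (A2 ++ a :: A1).Pairwise fun x y =>
      pl (s ++ A1) x + pl (s ++ A2.reverse) y < pl (s ++ A1) y + pl (s ++ A2.reverse) x := by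
    refine List.pairwise_append.2 ⟨?_, List.pairwise_cons.2 ⟨fun x k => ?_, ?_⟩, fun x k y l => ?_⟩
    · refine (List.pairwise_reverse.1 ((pw d3).sublist (List.sublist_append_right _ _))).imp_of_mem
        fun {x y} hx hy k => ?_
      have := t2 x (List.mem_reverse.2 hx)
      have := t2 y (List.mem_reverse.2 hy)
      omega
    · have := t1 x k
      omega
    · refine ((pw d1).sublist (List.sublist_append_right _ _)).imp_of_mem fun {x y} hx hy k => ?_
      have := t1 x hx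
      have := t1 y hy
      omega
    · have := t2 x (List.mem_reverse.2 k)
      rcases List.mem_cons.1 l with rfl | l
      · omega
      · have := t1 y l
        omega
  have su : ∀ x ∈ s, x ∈ U1 ∩ U2 := fun x k => sp.int ▸ (ms x).1 k
  obtain ⟨p, q, p', q', sub, P, Q, t, hp, hp', hq, hq'⟩ :=
    cr_rot (X := a :: A1) (Y := b :: A2) cr
  have sub' : List.Sublist [p, q, p', q'] (b :: (A2 ++ a :: A1)) := sub
  have tl : List.Sublist [q, p', q'] (A2 ++ a :: A1) := sub'.tail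
  have o := ord.sublist tl
  simp only [List.pairwise_cons, List.mem_cons, List.not_mem_nil, or_false, forall_eq_or_imp,
    forall_eq] at o
  refine core (M1 := s ++ A1) (M2 := s ++ A2.reverse) (n := s.length) sp
    (fun x k => List.mem_append_left _ ((ms x).2 k)) (fun x k => List.mem_append_left _ ((ms x).2 k))
    (fun x k => (List.mem_append.1 k).elim (fun l => (su x l).1) (h1 x))
    (fun x k => (List.mem_append.1 k).elim (fun l => (su x l).2)
      fun l => h2 x (List.mem_reverse.1 l)) (fun k => n1 ?_) (fun k => n2 ?_) ty t hp hp' hq hq'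
    (by omega) ?_ (big q (tl.subset (by simp))) (big p' (tl.subset (by simp)))
    (big q' (tl.subset (by simp))) o.1.1 o.2.1
  · exact cr_rot (X := b :: Y.reverse) (Y := a :: A1) (by simpa [hs] using k)
  · have := cr_rev k
    simpa using cr_rot (X := A2 ++ a :: Y) (Y := [b]) (by simpa [hs] using this)
  · rcases List.sublist_cons_iff.1 sub' with k | ⟨r, k, -⟩
    · have o' := ord.sublist k
      exact Or.inr ⟨big p (k.subset (by simp)), (List.pairwise_cons.1 o').1 q (by simp)⟩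
    · obtain rfl : p = b := (List.cons.inj k).1
      rw [pl_left _ sb, pl_left _ sb]
      exact Or.inl ⟨pb, pb, len⟩

end Pool.Agent.MP_9d78a0_co.st

end MrgPart0

-- ======== part 1: formerly Pool.Agent.MP_9d78a0_co.st.Vor
section MrgPart1

/-! One vortex or a crooked linkage. -/

set_option autoImplicit false

namespace Pool.Agent.MP_9d78a0_co.st

open Set Function fb

namespace Vor

variable {V : Type} {H : SimpleGraph V}

theorem pos_pw {L : List V} (h : L.Nodup) : L.Pairwise fun a b => pos L a < pos L b := by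
  classical
  rw [List.pairwise_iff_getElem]
  intro i j hi hj hij
  unfold pos
  rw [h.idxOf_getElem, h.idxOf_getElem]
  exact hij

theorem pos_inj {L : List V} {a b : V} (ha : a ∈ L) (e : pos L a = pos L b) : a = b := by
  classical
  unfold pos at e
  exact (List.idxOf_inj ha).1 e

theorem sub_of_pos {L W : List V} (h : L.Nodup) (h1 : ∀ z ∈ W, z ∈ L)
    (h2 : W.Pairwise fun a b => pos L a < pos L b) : List.Sublist W L := by
  have : Std.Antisymm fun a b => pos L a < pos L b := ⟨fun a b h h' => by omega⟩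
  refine List.sublist_of_subperm_of_pairwise (List.subperm_of_subset ?_ h1) h2 (pos_pw h)
  exact h2.imp fun h e => by rw [e] at h; omega

theorem split {l1 l2 r : List V} {a : V} (h : List.Sublist (l1 ++ a :: l2) r) :
    ∃ r1 r2, r = r1 ++ a :: r2 ∧ List.Sublist l1 r1 ∧ List.Sublist l2 r2 := by
  obtain ⟨r1, r2, rfl, h1, h2⟩ := List.append_sublist_iff.1 h
  obtain ⟨s1, s2, rfl, h3, h4⟩ := List.cons_sublist_iff.1 h2
  obtain ⟨t1, t2, rfl⟩ := List.append_of_mem h3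
  exact ⟨r1 ++ t1, t2 ++ s2, by simp, h1.trans (List.sublist_append_left _ _),
    h4.trans (List.sublist_append_right _ _)⟩

theorem sub_lk {S A P : Set V} (hP : Conn H P) (h : P ⊆ S) {a : V} (ha : a ∈ P) (hA : a ∈ A) :
    P ⊆ lk H S A := fun v hv => ⟨h hv, a, hA, h ha, (hP.2 a ha v hv).mono h⟩

theorem sub_lk' {S A P : Set V} (hP : Conn H P) (h : P ⊆ S) {a : V} (ha : a ∈ P)
    (hA : a ∈ lk H S A) : P ⊆ lk H S A := fun v hv => by
  obtain ⟨-, b, h1, h2, h3⟩ := hA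
  exact ⟨h hv, b, h1, h2, h3.trans ((hP.2 a ha v hv).mono h)⟩

theorem link_lk {S A : Set V} {a v : V} (hA : a ∈ A) (ha : a ∈ S) (h : Link H S a v) :
    Link H (lk H S A) a v := by
  induction h with
  | refl => exact Link.refl _ _ _
  | tail h1 h2 ih =>
    exact ih.trans (Link.single ⟨h2.1, a, hA, ha, h1⟩
      ⟨h2.2.1, a, hA, ha, Link.trans h1 (Link.single h2.1 h2.2.1 h2.2.2)⟩ h2.2.2)

/-- a link is followed to the first vertex of `T` -/
theorem ext {S T : Set V} {w a : V} (hw : w ∈ S) (h : Link H S w a) (ha : a ∈ T) :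
    ∃ E ⊆ S, Conn H E ∧ w ∈ E ∧ ∃ z ∈ E, z ∈ T ∧ ∀ v ∈ E, v ∈ T → v = z := by
  by_cases c : w ∈ T
  · exact ⟨{w}, by simpa using hw, conn_singleton _ _, rfl, w, rfl, c, fun v hv _ => hv⟩
  obtain ⟨x, y, h1, h2, h3, h4, h5, h6⟩ := link_exit (T := Tᶜ) h c (fun d => d ha)
  have hw' : w ∈ S ∩ Tᶜ := ⟨hw, c⟩
  refine ⟨cp H (S ∩ Tᶜ) w ∪ {y}, ?_, conn_union_touch (cp_conn hw') (conn_singleton _ _)
    ⟨x, ⟨⟨h1, h3⟩, h6⟩, y, rfl, h5⟩, Or.inl (cp_self hw'), y, Or.inr rfl, not_not.1 h4, ?_⟩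
  · rintro v (hv | rfl)
    exacts [hv.1.1, h2]
  · rintro v (hv | rfl) hT
    exacts [absurd hT hv.1.2, rfl]

theorem path_conn {U : Set V} {f : ℕ → V} {l a b : ℕ} (h : IsPath H U f l) (hab : a ≤ b)
    (hb : b ≤ l) : f '' Icc a b ⊆ U ∧ Conn H (f '' Icc a b) := by
  refine ⟨?_, conn_seg hab fun i _ hi => h.2.1 i (by omega)⟩
  rintro _ ⟨i, hi, rfl⟩
  exact h.1 i (hi.2.trans hb)

/-- a connection with no inner letter -/
theorem clean {R A B : Set V} (hc : Conn H R) (hA : (R ∩ A).Nonempty)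
    (hB : (R ∩ B).Nonempty) :
    ∃ Q ⊆ R, Conn H Q ∧ ∃ a ∈ A, ∃ b ∈ B, Q ∩ (A ∪ B) = {a, b} := by
  obtain ⟨a, ha, ha'⟩ := hA
  obtain ⟨b, hb, hb'⟩ := hB
  obtain ⟨E, h1, h2, h3, z, h4, h5, h6⟩ := ext ha (hc.2 a ha b hb) hb'
  obtain ⟨F, k1, k2, k3, w, k4, k5, k6⟩ := ext h4 (h2.2 z h4 a h3) ha'
  refine ⟨F, k1.trans h1, k2, w, k5, z, h5, subset_antisymm ?_ ?_⟩
  · rintro v ⟨hv, hv' | hv'⟩
    exacts [Or.inl (k6 v hv hv'), Or.inr (h6 v (k1 hv) hv')]
  · rintro v (rfl | rfl)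
    exacts [⟨k4, Or.inl k5⟩, ⟨k3, Or.inr h5⟩]

/-- a crooked linkage from a finite family -/
theorem crk_fam {ι : Type} [Finite ι] [Nonempty ι] {U : Set V} {L : List V} {p β : ℕ}
    (u v : ι → V) (Q : ι → Set V) (t : Fin p → ι)
    (h1 : ∀ i, Q i ⊆ U ∧ Conn H (Q i) ∧ u i ∈ Q i ∧ v i ∈ Q i) (h2 : Pairwise (Disjoint on Q))
    (h3 : ∀ i, u i ∈ L ∧ v i ∈ L) (h4 : ∀ i, u i ≠ v i)
    (h5 : ∀ i, ∃ j j' e e', j ≠ i ∧ j' ≠ i ∧ (e = u j ∨ e = v j) ∧ (e' = u j' ∨ e' = v j') ∧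
      Xs (pos L (u i)) (pos L (v i)) (pos L e) (pos L e'))
    (h6 : Injective t) (h7 : ∀ i, pos L (u (t i)) < β ∧ β ≤ pos L (v (t i))) : Crk H U L p := by
  classical
  obtain ⟨n, ⟨E⟩⟩ := Finite.exists_equiv_fin ι
  obtain ⟨s, s1, s2⟩ : ∃ s : ℕ → ι, (∀ i < n, ∀ j < n, s i = s j → i = j) ∧ ∀ j, s (E j) = j := by
    refine ⟨fun i => if h : i < n then E.symm ⟨i, h⟩ else Classical.arbitrary ι,
      fun i hi j hj e => ?_, fun j => by simp⟩
    simpa [hi, hj] using e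
  have dis : ∀ i < n, ∀ j < n, i ≠ j → Disjoint (Q (s i)) (Q (s j)) :=
    fun i hi j hj c => h2 fun e => c (s1 i hi j hj e)
  refine ⟨n, u ∘ s, v ∘ s, Q ∘ s, ⟨fun i _ => h1 _, dis⟩, fun i _ => h3 _, fun i hi j hj => ?_,
    fun i hi => ?_, 0, β, fun i => if h : i < p then E (t ⟨i, h⟩) else 0, fun i hi j hj e => ?_,
    fun i hi => ?_⟩
  · refine ⟨fun e => ?_, fun c => ⟨fun e => ?_, fun e => ?_⟩⟩
    · have e' := pos_inj (h3 _).1 e
      by_cases c : i = j
      · exact h4 _ (c ▸ e')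
      · exact disjoint_left.1 (dis i hi j hj c) (h1 _).2.2.1 (e' ▸ (h1 _).2.2.2)
    · exact disjoint_left.1 (dis i hi j hj c) (h1 _).2.2.1 (pos_inj (h3 _).1 e ▸ (h1 _).2.2.1)
    · exact disjoint_left.1 (dis i hi j hj c) (h1 _).2.2.2 (pos_inj (h3 _).2 e ▸ (h1 _).2.2.2)
  · have ne : ∀ j, j ≠ s i → (E j : ℕ) ≠ i := fun j c e => c (by rw [← e, s2])
    obtain ⟨j, j', e, e', a1, a2, a3, a4, ⟨a5, a6⟩ | ⟨a5, a6⟩⟩ := h5 (s i)
    · refine ⟨⟨E j, (E j).2, ?_⟩, E j', (E j').2, ne _ a2, ?_⟩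
      · simp only [comp, s2]
        rcases a3 with rfl | rfl
        exacts [Or.inl a5, Or.inr a5]
      · simp only [comp, s2]
        rcases a4 with rfl | rfl
        exacts [Or.inl a6, Or.inr a6]
    · refine ⟨⟨E j', (E j').2, ?_⟩, E j, (E j).2, ne _ a1, ?_⟩
      · simp only [comp, s2]
        rcases a4 with rfl | rfl
        exacts [Or.inl a5, Or.inr a5]
      · simp only [comp, s2]
        rcases a3 with rfl | rfl
        exacts [Or.inl a6, Or.inr a6]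
  · have hi' : i < p := hi
    have hj' : j < p := hj
    simp only [hi', hj', dif_pos] at e
    simpa using h6 (E.injective (Fin.ext e))
  · simp only [hi, dif_pos, comp, s2, mem_Ico]
    have := h7 ⟨i, hi⟩
    exact ⟨(E _).2, by omega⟩

theorem mem_un_sg {L : List V} {S : Set V} {v : V} : v ∈ un (sg L ++ [S]) ↔ v ∈ L ∨ v ∈ S := by
  simp only [un, sg, mem_ofPred_eq, List.mem_append, List.mem_map, List.mem_singleton]
  constructor
  · rintro ⟨s, ⟨a, ha, rfl⟩ | rfl, hv⟩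
    · exact Or.inl (hv ▸ ha)
    · exact Or.inr hv
  · rintro (h | h)
    exacts [⟨_, Or.inl ⟨v, h, rfl⟩, rfl⟩, ⟨_, Or.inr rfl, h⟩]

theorem sg_pw {L : List V} (h : L.Nodup) : (sg L).Pairwise Disjoint := by
  unfold sg
  rw [List.pairwise_map]
  exact h.imp fun h => by simpa using h

theorem sg3 {a b c : Set V} {L : List V} (h : List.Sublist [a, b, c] (sg L)) :
    ∃ x y z, List.Sublist [x, y, z] L ∧ a = {x} ∧ b = {y} ∧ c = {z} := by
  obtain ⟨l, h1, h2⟩ := List.sublist_map_iff.1 h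
  rcases l with _ | ⟨x, _ | ⟨y, _ | ⟨z, _ | ⟨w, l⟩⟩⟩⟩ <;> simp at h2
  exact ⟨x, y, z, h1, h2⟩

theorem sg4 {a b c d : Set V} {L : List V} (h : List.Sublist [a, b, c, d] (sg L)) :
    ∃ x y z w, List.Sublist [x, y, z, w] L ∧ a = {x} ∧ b = {y} ∧ c = {z} ∧ d = {w} := by
  obtain ⟨l, h1, h2⟩ := List.sublist_map_iff.1 h
  rcases l with _ | ⟨x, _ | ⟨y, _ | ⟨z, _ | ⟨w, _ | ⟨w', l⟩⟩⟩⟩⟩ <;> simp at h2
  exact ⟨x, y, z, w, h1, h2⟩

theorem snoc4 {α : Type} {a b c d S : α} {L : List α} (h : List.Sublist [a, b, c, d] (L ++ [S])) :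
    List.Sublist [a, b, c, d] L ∨ (List.Sublist [a, b, c] L ∧ d = S) := by
  obtain ⟨l1, l2, e, h1, h2⟩ := List.sublist_append_iff.1 h
  rcases List.sublist_singleton.1 h2 with rfl | rfl
  · exact Or.inl (by simpa [e] using h1)
  · obtain ⟨rfl, e'⟩ := List.append_inj' (show [a, b, c] ++ [d] = l1 ++ [S] from e) rfl
    exact Or.inr ⟨h1, by simpa using e'⟩

/-- the shape of a cross on one side of a barrier -/
theorem shape (nf : NfS) {U K S : Set V} {y x : V} {M : List V} (nd : (y :: M ++ [x]).Nodup)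
    (hU : S ⊆ U) (hK : K ⊆ U) (cK : Conn H K) (hy : y ∈ K) (hx : x ∈ K) (hKS : Disjoint K S)
    (h : PX H U (sg (y :: M ++ [x]) ++ [S])) :
    ∃ a b c P G, Two H U P G ∧ a ∈ P ∧ c ∈ P ∧ b ∈ G ∧ Disjoint P S ∧
      ((∃ t ∈ G, List.Sublist [a, b, c, t] (y :: M ++ [x]) ∧ Disjoint G S) ∨
        (List.Sublist [a, b, c] (y :: M ++ [x]) ∧ ∃ w ∈ G, w ∈ S ∧ ∀ v ∈ G, v ∈ S → v = w)) := by
  by_cases c : ∃ z ∈ y :: M ++ [x], z ∈ S
  · obtain ⟨z, h1, h2⟩ := c
    have hz : z ∉ K := fun d => disjoint_left.1 hKS d h2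
    have hM : z ∈ M := by
      simp only [List.cons_append, List.mem_cons, List.mem_append, List.not_mem_nil,
        or_false] at h1
      rcases h1 with rfl | h1 | rfl
      exacts [absurd hy hz, h1, absurd hx hz]
    refine ⟨y, z, x, K, {z}, ⟨hK, by simpa using hU h2, cK, conn_singleton _ _, by simpa using hz⟩,
      hy, hx, rfl, hKS, Or.inr ⟨?_, z, rfl, h2, fun v hv _ => hv⟩⟩
    exact ((List.singleton_sublist.2 hM).append (List.Sublist.refl [x])).cons_cons y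
  push Not at c
  generalize y :: M ++ [x] = L at *
  obtain ⟨a, b, c', d, hs0, f, g, l, m, hf, hg, hl, hm, f0, fl, g0, gm, hd, hf', hg'⟩ :=
    (nf V H U).1 _ (List.pairwise_append.2 ⟨sg_pw nd, List.pairwise_singleton _ _, by
      intro s hs t ht
      obtain ⟨z, hz, rfl⟩ := List.mem_map.1 hs
      rw [List.mem_singleton.1 ht]
      simpa using c z hz⟩) h
  have two : Two H U (f '' Icc 0 l) (g '' Icc 0 m) :=
    ⟨(path_conn hf l.zero_le le_rfl).1, (path_conn hg m.zero_le le_rfl).1,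
      (path_conn hf l.zero_le le_rfl).2, (path_conn hg m.zero_le le_rfl).2, disjoint_left.2 (by
        rintro _ ⟨i, hi, rfl⟩ ⟨j, hj, e⟩
        exact hd i hi.2 j hj.2 e.symm)⟩
  have off : ∀ (f : ℕ → V) (l : ℕ), (∀ i, 0 < i → i < l → f i ∉ un (sg L ++ [S])) → f 0 ∈ L →
      ∀ v ∈ f '' Icc 0 l, v ∈ S → v = f l := by
    rintro f l h1 h2 _ ⟨i, hi, rfl⟩ hS
    rcases Nat.eq_zero_or_pos i with rfl | h3
    · exact absurd hS (c _ h2)
    · rcases hi.2.eq_or_lt with rfl | h4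
      exacts [rfl, absurd (mem_un_sg.2 (Or.inr hS)) (h1 i h3 h4)]
  have l0 : ∀ (f : ℕ → V) (l : ℕ), f 0 ∈ f '' Icc 0 l := fun f l => ⟨0, by simp, rfl⟩
  have l1 : ∀ (f : ℕ → V) (l : ℕ), f l ∈ f '' Icc 0 l := fun f l => ⟨l, by simp, rfl⟩
  rcases snoc4 hs0 with hs1 | ⟨hs1, rfl⟩
  · obtain ⟨a, b, c', d, hs, rfl, rfl, rfl, rfl⟩ := sg4 hs1
    obtain rfl : f 0 = a := f0
    obtain rfl : f l = c' := fl
    obtain rfl : g 0 = b := g0
    obtain rfl : g m = d := gm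
    refine ⟨_, _, _, _, _, two, l0 f l, l1 f l, l0 g m, disjoint_left.2 fun v hv hS => ?_,
      Or.inl ⟨_, l1 g m, hs, disjoint_left.2 fun v hv hS => ?_⟩⟩
    · exact c _ (hs.subset (by simp)) (off f l hf' (hs.subset (by simp)) v hv hS ▸ hS)
    · exact c _ (hs.subset (by simp)) (off g m hg' (hs.subset (by simp)) v hv hS ▸ hS)
  · obtain ⟨a, b, c', hs, rfl, rfl, rfl⟩ := sg3 hs1
    obtain rfl : f 0 = a := f0
    obtain rfl : f l = c' := fl
    obtain rfl : g 0 = b := g0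
    refine ⟨_, _, _, _, _, two, l0 f l, l1 f l, l0 g m, disjoint_left.2 fun v hv hS => ?_,
      Or.inr ⟨hs, _, l1 g m, gm, off g m hg' (hs.subset (by simp))⟩⟩
    exact c _ (hs.subset (by simp)) (off f l hf' (hs.subset (by simp)) v hv hS ▸ hS)

/-- a leap over all middle paths, or a crossing pair that uses at most one of them -/
theorem half (nf : NfS) {U K K' Mid Rc : Set V} {y x r : V} {M : List V} {n : ℕ} {T : ℕ → Set V}
    {z : ℕ → V} (nd : (y :: M ++ [x]).Nodup) (hK : K ⊆ U) (cK : Conn H K) (hy : y ∈ K) (hx : x ∈ K)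
    (hK' : K' ⊆ U \ K) (cK' : Conn H K') (hr : r ∈ K') (hr' : r ∈ Rc)
    (hD : Mid ∪ Rc ⊆ U \ K)
    (hT : ∀ j < n, T j ⊆ U \ K ∧ Conn H (T j) ∧ z j ∈ T j ∧ z j ∈ Mid ∧ Disjoint (T j) K')
    (hT' : ∀ i < n, ∀ j < n, i ≠ j → Disjoint (T i) (T j))
    (h : PX H U (sg (y :: M ++ [x]) ++ [lk H (U \ K) (Mid ∪ Rc)])) :
    (∃ G ⊆ U, Conn H G ∧ (∃ b ∈ y :: M ++ [x], b ∈ G) ∧ (∃ b ∈ Rc, b ∈ G) ∧
      ∀ j < n, Disjoint G (T j)) ∨
    ∃ a b c t P G j0, Two H U P G ∧ a ∈ P ∧ c ∈ P ∧ b ∈ G ∧ t ∈ G ∧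
      (List.Sublist [a, b, c, t] (y :: M ++ [x]) ∨
        (List.Sublist [a, b, c] (y :: M ++ [x]) ∧ t ∈ Mid)) ∧
      P ⊆ lk H (U \ K') (Mid ∪ ls (y :: M ++ [x])) ∧ G ⊆ lk H (U \ K') (Mid ∪ ls (y :: M ++ [x])) ∧
      Disjoint P (lk H (U \ K) (Mid ∪ Rc)) ∧ ∀ j < n, j ≠ j0 → Disjoint G (T j) := by
  set S := lk H (U \ K) (Mid ∪ Rc) with hS
  have s1 : K' ⊆ S := sub_lk cK' hK' hr (Or.inr hr')
  have s2 : ∀ j < n, T j ⊆ S := fun j hj =>
    sub_lk (hT j hj).2.1 (hT j hj).1 (hT j hj).2.2.1 (Or.inl (hT j hj).2.2.2.1)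
  have s3 : Mid ∪ Rc ⊆ S := fun v hv => ⟨hD hv, v, hv, hD hv, Link.refl _ _ _⟩
  obtain ⟨a, b, c, P, G, two, ha, hc, hb, hP, k⟩ := shape nf nd (fun v hv => hv.1.1) hK cK hy hx
    (disjoint_left.2 fun v hv hv' => hv'.1.2 hv) h
  generalize y :: M ++ [x] = L at *
  have key : ∀ {G : Set V} {b : V}, G ⊆ U → Conn H G → b ∈ G → b ∈ L → Disjoint G K' →
      G ⊆ lk H (U \ K') (Mid ∪ ls L) := fun h1 h2 h3 h4 h5 =>
    sub_lk h2 (fun v hv => ⟨h1 hv, disjoint_left.1 h5 hv⟩) h3 (Or.inr h4)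
  rcases k with ⟨t, ht, hs, hG⟩ | ⟨hs, w, hw, hw', hG⟩
  · exact Or.inr ⟨a, b, c, t, P, G, 0, two, ha, hc, hb, ht, Or.inl hs,
      key two.sp two.cp ha (hs.subset (by simp)) (hP.mono_right s1),
      key two.sq two.cq hb (hs.subset (by simp)) (hG.mono_right s1), hP,
      fun j hj _ => hG.mono_right (s2 j hj)⟩
  obtain ⟨-, a0, a1, a2, a3⟩ := id hw'
  obtain ⟨E, e1, e2, e3, q, e4, e5, e6⟩ := ext (T := {v | ∃ j < n, v ∈ T j} ∪ K' ∪ (Mid ∪ Rc)) hw'
    (link_lk a1 a2 a3).symm (Or.inr a1)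
  have g1 : G ∪ E ⊆ U := union_subset two.sq fun v hv => (e1 hv).1.1
  have g2 : Conn H (G ∪ E) := pl.conn_union two.cq e2 hw e3
  have g3 : ∀ v ∈ G ∪ E, v ∈ {v | ∃ j < n, v ∈ T j} ∪ K' ∪ (Mid ∪ Rc) → v = q := by
    rintro v (hv | hv) hv'
    · refine e6 v (hG v hv ?_ ▸ e3) hv'
      rcases hv' with (⟨j, hj, h1⟩ | h1) | h1
      exacts [s2 j hj h1, s1 h1, s3 h1]
    · exact e6 v hv hv'
  have g4 : Disjoint P (G ∪ E) := disjoint_union_right.2 ⟨two.dis, hP.mono_right e1⟩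
  have bL : b ∈ L := hs.subset (by simp)
  have pP := key two.sp two.cp ha (hs.subset (by simp)) (hP.mono_right s1)
  by_cases c1 : ∃ j < n, q ∈ T j
  · obtain ⟨j, hj, hq⟩ := c1
    obtain ⟨t1, t2, t3, t4, t5⟩ := hT j hj
    have u1 : G ∪ E ∪ T j ⊆ U := union_subset g1 fun v hv => (t1 hv).1
    have u2 : Conn H (G ∪ E ∪ T j) := pl.conn_union g2 t2 (Or.inr e4) hq
    refine Or.inr ⟨a, b, c, z j, P, G ∪ E ∪ T j, j, ⟨two.sp, u1, two.cp, u2,
      disjoint_union_right.2 ⟨g4, hP.mono_right (s2 j hj)⟩⟩, ha, hc, Or.inl (Or.inl hb), Or.inr t3,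
      Or.inr ⟨hs, t4⟩, pP, key u1 u2 (Or.inl (Or.inl hb)) bL (disjoint_union_left.2
        ⟨disjoint_left.2 fun v hv hv' => ?_, t5⟩), hP, fun i hi ne => disjoint_union_left.2
        ⟨disjoint_left.2 fun v hv hv' => ?_, hT' j hj i hi ne.symm⟩⟩
    · exact disjoint_left.1 t5 hq (g3 v hv (Or.inl (Or.inr hv')) ▸ hv')
    · exact disjoint_left.1 (hT' j hj i hi ne.symm) hq
        (g3 v hv (Or.inl (Or.inl ⟨i, hi, hv'⟩)) ▸ hv')
  have g5 : ∀ j < n, Disjoint (G ∪ E) (T j) := fun j hj => disjoint_left.2 fun v hv hv' =>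
    c1 ⟨j, hj, g3 v hv (Or.inl (Or.inl ⟨j, hj, hv'⟩)) ▸ hv'⟩
  by_cases c2 : q ∈ K'
  · exact Or.inl ⟨G ∪ E ∪ K', union_subset g1 fun v hv => (hK' hv).1,
      pl.conn_union g2 cK' (Or.inr e4) c2, ⟨b, bL, Or.inl (Or.inl hb)⟩, ⟨r, hr', Or.inr hr⟩,
      fun j hj => disjoint_union_left.2 ⟨g5 j hj, (hT j hj).2.2.2.2.symm⟩⟩
  rcases e5 with (e5 | e5) | e5 | e5
  · exact absurd e5 c1
  · exact absurd e5 c2
  · exact Or.inr ⟨a, b, c, q, P, G ∪ E, 0, ⟨two.sp, g1, two.cp, g2, g4⟩, ha, hc, Or.inl hb,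
      Or.inr e4, Or.inr ⟨hs, e5⟩, pP, key g1 g2 (Or.inl hb) bL (disjoint_left.2 fun v hv hv' =>
        c2 (g3 v hv (Or.inl (Or.inr hv')) ▸ hv')), hP, fun j hj _ => g5 j hj⟩
  · exact Or.inl ⟨G ∪ E, g1, g2, ⟨b, bL, Or.inl hb⟩, ⟨q, e5, Or.inr e4⟩, g5⟩

theorem pick (p j0 j1 : ℕ) :
    ∃ s : Fin p → ℕ, Injective s ∧ ∀ i, s i < p + 2 ∧ s i ≠ j0 ∧ s i ≠ j1 := by
  refine ⟨fun i => if i.1 < min j0 j1 then i else if i.1 + 1 < max j0 j1 then i + 1 else i + 2,
    fun i j e => Fin.ext ?_, fun i => ?_⟩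
  · dsimp only at e
    split_ifs at e <;> omega
  · have := i.2
    dsimp only
    split_ifs <;> omega

theorem ls3 (B L D : List V) :
    ls (B ++ L ++ D) = ls B ∪ ls D ∪ ls L ∧ ls (D ++ L ++ B) = ls B ∪ ls D ∪ ls L := by
  constructor <;> ext w <;> simp only [ls, mem_union, mem_ofPred_eq, List.mem_append] <;> tauto

/-- crosses on both sides of the middle paths -/
theorem both (nf : NfS) {U K K' : Set V} {y x y' x' : V} {M B M' D : List V} {p : ℕ}
    {T : ℕ → Set V} {u v : ℕ → V} (hp : 0 < p)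
    (soc : Soc H U ((y :: M ++ [x]) ++ B ++ (y' :: M' ++ [x']) ++ D))
    (hK : K ⊆ U) (cK : Conn H K) (hK' : K' ⊆ U) (cK' : Conn H K') (dK : Disjoint K K')
    (e : K ∩ ls ((y :: M ++ [x]) ++ B ++ (y' :: M' ++ [x']) ++ D) = {x, y})
    (e' : K' ∩ ls ((y :: M ++ [x]) ++ B ++ (y' :: M' ++ [x']) ++ D) = {x', y'})
    (hT : ∀ j < p + 2, T j ⊆ U ∧ Conn H (T j) ∧ u j ∈ T j ∧ v j ∈ T j ∧ u j ∈ B ∧ v j ∈ D ∧
      Disjoint (T j) K ∧ Disjoint (T j) K')
    (hT' : ∀ i < p + 2, ∀ j < p + 2, i ≠ j → Disjoint (T i) (T j))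
    (h : PX H U (sg (y :: M ++ [x]) ++ [lk H (U \ K) (ls (B ++ (y' :: M' ++ [x']) ++ D))]))
    (h' : PX H U (sg (y' :: M' ++ [x']) ++ [lk H (U \ K') (ls (D ++ (y :: M ++ [x]) ++ B))])) :
    Crk H U ((y :: M ++ [x]) ++ B ++ (y' :: M' ++ [x']) ++ D) p := by
  have hx : x ∈ K := (e.ge (Or.inl rfl)).1
  have hy : y ∈ K := (e.ge (Or.inr rfl)).1
  have hx' : x' ∈ K' := (e'.ge (Or.inl rfl)).1
  have hy' : y' ∈ K' := (e'.ge (Or.inr rfl)).1
  have pw := pos_pw soc.nd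
  have nd := soc.nd
  have mx : x ∈ y :: M ++ [x] := by simp
  have my : y ∈ y :: M ++ [x] := by simp
  have mx' : x' ∈ y' :: M' ++ [x'] := by simp
  have my' : y' ∈ y' :: M' ++ [x'] := by simp
  have k1 := fun a1 a2 a3 a4 a5 => half nf (Mid := ls B ∪ ls D) (Rc := ls (y' :: M' ++ [x']))
    (M := M) (n := p + 2) (T := T) (z := u) a1 hK cK hy hx a2 cK' hx' mx' a3 a4 hT' a5
  have k2 := fun a1 a2 a3 a4 a5 => half nf (Mid := ls B ∪ ls D) (Rc := ls (y :: M ++ [x]))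
    (M := M') (n := p + 2) (T := T) (z := u) a1 hK' cK' hy' hx' a2 cK hx mx a3 a4 hT' a5
  generalize y :: M ++ [x] = L at *
  generalize y' :: M' ++ [x'] = L' at *
  obtain ⟨π, hπ⟩ : ∃ π, π = pos (L ++ B ++ L' ++ D) := ⟨_, rfl⟩
  rw [← hπ] at pw
  simp only [List.pairwise_append, List.mem_append] at pw
  obtain ⟨⟨⟨pL, -, o1⟩, pL', o2⟩, -, o3⟩ := pw
  have mem : ∀ w, w ∈ L ++ B ++ L' ++ D ↔ ((w ∈ L ∨ w ∈ B) ∨ w ∈ L') ∨ w ∈ D := fun w => by
    simp only [List.mem_append]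
  have mL : ∀ w ∈ L, w ∈ L ++ B ++ L' ++ D := fun w hw => (mem _).2 (Or.inl (Or.inl (Or.inl hw)))
  have mL' : ∀ w ∈ L', w ∈ L ++ B ++ L' ++ D := fun w hw => (mem _).2 (Or.inl (Or.inr hw))
  have mM : ∀ w ∈ ls B ∪ ls D, w ∈ L ++ B ++ L' ++ D := fun w hw =>
    (mem _).2 (hw.imp (fun hw => Or.inl (Or.inr hw)) id)
  have inK : ∀ w ∈ K, w ∈ L ++ B ++ L' ++ D → w ∈ L := fun w h1 h2 => by
    rcases e.le ⟨h1, h2⟩ with rfl | rfl
    exacts [mx, my]
  have inK' : ∀ w ∈ K', w ∈ L ++ B ++ L' ++ D → w ∈ L' := fun w h1 h2 => by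
    rcases e'.le ⟨h1, h2⟩ with rfl | rfl
    exacts [mx', my']
  replace k1 := k1 (nd.sublist (by simp [List.append_assoc]))
    (fun w hw => ⟨hK' hw, disjoint_right.1 dK hw⟩)
    (fun w hw => by
      have m : w ∈ L ++ B ++ L' ++ D := hw.elim (mM w) (mL' w)
      refine ⟨soc.sub w m, fun c => ?_⟩
      have c' := inK w c m
      rcases hw with (hw | hw) | hw
      exacts [lt_irrefl _ (o1 w c' w hw), lt_irrefl _ (o3 w (Or.inl (Or.inl c')) w hw),
        lt_irrefl _ (o2 w (Or.inl c') w hw)])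
    (fun j hj => by
      obtain ⟨t1, t2, t3, -, t5, -, t7, t8⟩ := hT j hj
      exact ⟨fun w hw => ⟨t1 hw, disjoint_left.1 t7 hw⟩, t2, t3, Or.inl t5, t8⟩)
    ((ls3 B L' D).1 ▸ h)
  replace k2 := k2 (nd.sublist ((List.sublist_append_right _ _).trans (List.sublist_append_left _ _)))
    (fun w hw => ⟨hK hw, disjoint_left.1 dK hw⟩)
    (fun w hw => by
      have m : w ∈ L ++ B ++ L' ++ D := hw.elim (mM w) (mL w)
      refine ⟨soc.sub w m, fun c => ?_⟩
      have c' := inK' w c m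
      rcases hw with (hw | hw) | hw
      exacts [lt_irrefl _ (o2 w (Or.inr hw) w c'), lt_irrefl _ (o3 w (Or.inr c') w hw),
        lt_irrefl _ (o2 w (Or.inl hw) w c')])
    (fun j hj => by
      obtain ⟨t1, t2, t3, -, t5, -, t7, t8⟩ := hT j hj
      exact ⟨fun w hw => ⟨t1 hw, disjoint_left.1 t8 hw⟩, t2, t3, Or.inl t5, t7⟩)
    ((ls3 B L D).2 ▸ h')
  have mid : ∀ j < p + 2, ∀ b ∈ L, ∀ b' ∈ L', π b < π (u j) ∧ π (u j) < π b' ∧ π b' < π (v j) :=
    fun j hj b hb b' hb' => ⟨o1 _ hb _ (hT j hj).2.2.2.2.1, o2 _ (Or.inr (hT j hj).2.2.2.2.1) _ hb',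
      o3 _ (Or.inr hb') _ (hT j hj).2.2.2.2.2.1⟩
  have leap : ∀ G ⊆ U, Conn H G → ∀ b ∈ L, b ∈ G → ∀ b' ∈ L', b' ∈ G → ∀ j0 j1,
      (∀ j < p + 2, j ≠ j0 → j ≠ j1 → Disjoint G (T j)) → Crk H U (L ++ B ++ L' ++ D) p := by
    intro G g1 g2 b b1 b2 b' b3 b4 j0 j1 g3
    obtain ⟨s, s1, s2⟩ := pick p j0 j1
    refine crk_fam (β := π b') (fun i : Option (Fin p) => i.elim b (u ∘ s))
      (fun i => i.elim b' (v ∘ s)) (fun i => i.elim G (T ∘ s)) some ?_ ?_ ?_ ?_ ?_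
      (Option.some_injective _) ?_
    · rintro (_ | i)
      · exact ⟨g1, g2, b2, b4⟩
      · obtain ⟨t1, t2, t3, t4, -⟩ := hT _ (s2 i).1
        exact ⟨t1, t2, t3, t4⟩
    · rintro (_ | i) (_ | j) c
      · exact absurd rfl c
      · exact g3 _ (s2 j).1 (s2 j).2.1 (s2 j).2.2
      · exact (g3 _ (s2 i).1 (s2 i).2.1 (s2 i).2.2).symm
      · exact hT' _ (s2 i).1 _ (s2 j).1 fun d => c (congrArg some (s1 d))
    · rintro (_ | i)
      · exact ⟨(mem _).2 (Or.inl (Or.inl (Or.inl b1))), (mem _).2 (Or.inl (Or.inr b3))⟩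
      · obtain ⟨-, -, -, -, t5, t6, -⟩ := hT _ (s2 i).1
        exact ⟨(mem _).2 (Or.inl (Or.inl (Or.inr t5))), (mem _).2 (Or.inr t6)⟩
    · rintro (_ | i) c
      · have := o2 b (Or.inl b1) b' b3
        rw [show b = b' from c] at this
        omega
      · have := mid _ (s2 i).1 b b1 b' b3
        rw [show u (s i) = v (s i) from c] at this
        omega
    · rw [← hπ]
      rintro (_ | i)
      · have := mid _ (s2 ⟨0, hp⟩).1 b b1 b' b3
        exact ⟨some ⟨0, hp⟩, some ⟨0, hp⟩, _, _, by simp, by simp, Or.inl rfl, Or.inr rfl, by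
          simp only [Option.elim, comp, Xs, fb.Btw]; omega⟩
      · have := mid _ (s2 i).1 b b1 b' b3
        exact ⟨none, none, _, _, by simp, by simp, Or.inl rfl, Or.inr rfl, by
          simp only [Option.elim, comp, Xs, fb.Btw]; omega⟩
    · rw [← hπ]
      intro i
      have := mid _ (s2 i).1 b b1 b' b3
      simp only [Option.elim, comp]
      omega
  rcases k1 with ⟨G, g1, g2, ⟨b, b1, b2⟩, ⟨b', b3, b4⟩, g3⟩ |
    ⟨a, b, c, t, P, G, j0, two, ha, hc, hb, ht, hs, q1, q2, q3, q4⟩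
  · exact leap G g1 g2 b b1 b2 b' b3 b4 0 0 fun j hj _ _ => g3 j hj
  rcases k2 with ⟨G, g1, g2, ⟨b, b1, b2⟩, ⟨b', b3, b4⟩, g3⟩ |
    ⟨a', b', c', t', P', G', j1, two', ha', hc', hb', ht', hs', r1, r2, r3, r4⟩
  · exact leap G g1 g2 b' b3 b4 b b1 b2 0 0 fun j hj _ _ => g3 j hj
  have f1 : a ∈ L ∧ b ∈ L ∧ c ∈ L ∧ t ∈ L ++ B ++ L' ++ D ∧ π a < π b ∧ π b < π c ∧ π c < π t := by
    rcases hs with hs | ⟨hs, h1⟩
    · have := pL.sublist hs
      simp only [List.pairwise_cons, List.mem_cons, forall_eq_or_imp] at this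
      exact ⟨hs.subset (by simp), hs.subset (by simp), hs.subset (by simp),
        (mem _).2 (Or.inl (Or.inl (Or.inl (hs.subset (by simp))))), this.1.1, this.2.1.1,
        this.2.2.1.1⟩
    · have := pL.sublist hs
      simp only [List.pairwise_cons, List.mem_cons, forall_eq_or_imp] at this
      have cL : c ∈ L := hs.subset (by simp)
      refine ⟨hs.subset (by simp), hs.subset (by simp), cL,
        mM _ h1, this.1.1, this.2.1.1, ?_⟩
      rcases h1 with h1 | h1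
      exacts [o1 _ cL _ h1, o3 _ (Or.inl (Or.inl cL)) _ h1]
  have f2 : a' ∈ L' ∧ b' ∈ L' ∧ c' ∈ L' ∧ t' ∈ L ++ B ++ L' ++ D ∧ π a' < π b' ∧ π b' < π c' ∧
      (π c' < π t' ∨ π t' < π a') := by
    rcases hs' with hs | ⟨hs, h1⟩
    · have := pL'.sublist hs
      simp only [List.pairwise_cons, List.mem_cons, forall_eq_or_imp] at this
      exact ⟨hs.subset (by simp), hs.subset (by simp), hs.subset (by simp),
        (mem _).2 (Or.inl (Or.inr (hs.subset (by simp)))), this.1.1, this.2.1.1,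
        Or.inl this.2.2.1.1⟩
    · have := pL'.sublist hs
      simp only [List.pairwise_cons, List.mem_cons, forall_eq_or_imp] at this
      have cL : c' ∈ L' := hs.subset (by simp)
      have aL : a' ∈ L' := hs.subset (by simp)
      refine ⟨aL, hs.subset (by simp), cL,
        mM _ h1, this.1.1, this.2.1.1, ?_⟩
      rcases h1 with h1 | h1
      exacts [Or.inr (o2 _ (Or.inr h1) _ aL), Or.inl (o3 _ (Or.inr cL) _ h1)]
  obtain ⟨aL, bL, cL, tL, i1, i2, i3⟩ := f1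
  obtain ⟨aL', bL', cL', tL', i4, i5, i6⟩ := f2
  by_cases cG : Disjoint G G'
  swap
  · obtain ⟨w, w1, w2⟩ := not_disjoint_iff.1 cG
    exact leap (G ∪ G') (union_subset two.sq two'.sq) (pl.conn_union two.cq two'.cq w1 w2) b bL
      (Or.inl hb) b' bL' (Or.inr hb') j0 j1 fun j hj n0 n1 =>
        disjoint_union_left.2 ⟨q4 j hj n0, r4 j hj n1⟩
  obtain ⟨s, s1, s2⟩ := pick p j0 j1
  have d1 : Disjoint P P' := q3.mono_right r1
  have d2 : Disjoint P G' := q3.mono_right r2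
  have d3 : Disjoint G P' := (r3.mono_right q2).symm
  have d4 : ∀ j < p + 2, Disjoint P (T j) ∧ Disjoint P' (T j) := fun j hj => by
    obtain ⟨t1, t2, t3, -, t5, -, t7, t8⟩ := hT j hj
    exact ⟨q3.mono_right (sub_lk (S := U \ K) t2 (fun w hw => ⟨t1 hw, disjoint_left.1 t7 hw⟩) t3
      (Or.inl (Or.inl t5))), r3.mono_right (sub_lk (S := U \ K') t2
      (fun w hw => ⟨t1 hw, disjoint_left.1 t8 hw⟩) t3 (Or.inl (Or.inl t5)))⟩
  have ex : ∀ (i : Fin p) (k : Fin 4), Disjoint (![P, G, P', G'] k) (T (s i)) := fun i k => by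
    fin_cases k
    exacts [(d4 _ (s2 i).1).1, q4 _ (s2 i).1 (s2 i).2.1, (d4 _ (s2 i).1).2,
      r4 _ (s2 i).1 (s2 i).2.2]
  refine crk_fam (β := π a') (Sum.elim (u ∘ s) ![a, b, a', b']) (Sum.elim (v ∘ s) ![c, t, c', t'])
    (Sum.elim (T ∘ s) ![P, G, P', G']) Sum.inl ?_ ?_ ?_ ?_ ?_ Sum.inl_injective ?_
  · rintro (i | k)
    · obtain ⟨t1, t2, t3, t4, -⟩ := hT _ (s2 i).1
      exact ⟨t1, t2, t3, t4⟩
    · fin_cases k
      exacts [⟨two.sp, two.cp, ha, hc⟩, ⟨two.sq, two.cq, hb, ht⟩, ⟨two'.sp, two'.cp, ha', hc'⟩,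
        ⟨two'.sq, two'.cq, hb', ht'⟩]
  · rintro (i | k) (j | k') c
    · exact hT' _ (s2 i).1 _ (s2 j).1 fun d => c (congrArg Sum.inl (s1 d))
    · exact (ex i k').symm
    · exact ex j k
    · fin_cases k <;> fin_cases k'
      exacts [absurd rfl c, two.dis, d1, d2, two.dis.symm, absurd rfl c, d3, cG, d1.symm, d3.symm,
        absurd rfl c, two'.dis, d2.symm, cG.symm, two'.dis.symm, absurd rfl c]
  · rintro (i | k)
    · obtain ⟨-, -, -, -, t5, t6, -⟩ := hT _ (s2 i).1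
      exact ⟨(mem _).2 (Or.inl (Or.inl (Or.inr t5))), (mem _).2 (Or.inr t6)⟩
    · fin_cases k
      exacts [⟨mL _ aL, mL _ cL⟩, ⟨mL _ bL, tL⟩, ⟨mL' _ aL', mL' _ cL'⟩, ⟨mL' _ bL', tL'⟩]
  · rintro (i | k) e
    · have := mid _ (s2 i).1 a aL a' aL'
      rw [show u (s i) = v (s i) from e] at this
      omega
    · fin_cases k
      · rw [show a = c from e] at i1; omega
      · rw [show b = t from e] at i2; omega
      · rw [show a' = c' from e] at i4; omega
      · rw [show b' = t' from e] at i4 i5; omega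
  · rw [← hπ]
    rintro (i | k)
    · have := mid _ (s2 i).1 a aL a' aL'
      refine ⟨Sum.inr 0, Sum.inr 2, a, a', by simp, by simp, Or.inl rfl, Or.inl rfl, ?_⟩
      change Xs (π (u (s i))) (π (v (s i))) _ _
      simp only [Xs, fb.Btw]; omega
    · fin_cases k
      · refine ⟨Sum.inr 1, Sum.inr 1, b, t, by simp, by simp, Or.inl rfl, Or.inr rfl, ?_⟩
        change Xs (π a) (π c) _ _
        simp only [Xs, fb.Btw]; omega
      · refine ⟨Sum.inr 0, Sum.inr 0, a, c, by simp, by simp, Or.inl rfl, Or.inr rfl, ?_⟩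
        change Xs (π b) (π t) _ _
        simp only [Xs, fb.Btw]; omega
      · refine ⟨Sum.inr 3, Sum.inr 3, b', t', by simp, by simp, Or.inl rfl, Or.inr rfl, ?_⟩
        change Xs (π a') (π c') _ _
        simp only [Xs, fb.Btw]; omega
      · refine ⟨Sum.inr 2, Sum.inr 2, a', c', by simp, by simp, Or.inl rfl, Or.inr rfl, ?_⟩
        change Xs (π b') (π t') _ _
        simp only [Xs, fb.Btw]; omega
  · rw [← hπ]
    intro i
    have := mid _ (s2 i).1 a aL a' aL'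
    change π (u (s i)) < _ ∧ _ ≤ π (v (s i))
    omega

/-- the indicator of equality -/
def dl [DecidableEq V] (a b : V) : ℕ := List.count a [b]

theorem cnt_cons [DecidableEq V] (a b : V) (l : List V) :
    List.count a (b :: l) = dl a b + List.count a l := by
  rw [dl, ← List.count_append]
  rfl

theorem nd_of [DecidableEq V] {L L' : List V} (h : L.Nodup)
    (hc : ∀ a, List.count a L' ≤ List.count a L) : L'.Nodup :=
  List.nodup_iff_count_le_one.2 fun a => (hc a).trans (List.nodup_iff_count_le_one.1 h a)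

theorem un_sg {L : List V} {v : V} : v ∈ un (sg L) ↔ v ∈ L := by
  simp [un, sg]

theorem un_app {A B : List (Set V)} {v : V} : v ∈ un (A ++ B) ↔ v ∈ un A ∨ v ∈ un B := by
  simp only [un, mem_ofPred_eq, List.mem_append, or_and_right, exists_or]

theorem un_cons {S : Set V} {B : List (Set V)} {v : V} : v ∈ un (S :: B) ↔ v ∈ S ∨ v ∈ un B := by
  simp [un]

theorem conn_side {H1 H2 : SimpleGraph V} {U U1 U2 S P : Set V} (sp : Split H H1 H2 U U1 U2 S)
    (h : P ⊆ U2 \ U1) {a b : V} (k : Link H P a b) : Link H2 P a b :=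
  Link.map (G' := H2) id (fun c hc d hd e => Link.single hc hd (by
    rw [← sp.sup] at e
    exact e.resolve_left fun e' => (h hc).2 (sp.t1 _ _ e'))) k

/-- the flat side is cut off -/
theorem hold [Finite V] (nf : NfS) (cut : CutPS) (kit : KitS) (two : TwoS) (crk : CrkS)
    {p m d : ℕ} (hp : 0 < p) (hm : 0 < m)
    (sl : ∀ (H : SimpleGraph V) (U : Set V) (L1 Y L2 Ld : List V)
      (x y : ℕ → V) (Q : ℕ → Set V), Soc H U (L1 ++ Y ++ L2 ++ Ld) → Lkg H U m x y Q →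
      (∀ l < m, Q l ∩ ls (L1 ++ Y ++ L2 ++ Ld) = {x l, y l}) →
      List.Sublist ((List.range m).map y).reverse L1 → List.Sublist ((List.range m).map x) L2 →
      L1.head? = some (y (m - 1)) → L2.getLast? = some (x (m - 1)) →
      ¬ PX H U (sg (L1 ++ Y ++ L2) ++ [lk H (U \ Q (m - 1)) (ls Ld)]) →
      ∀ n' ≤ p + 4, CrkN H U (L1 ++ Y ++ L2 ++ Ld) n' p → Crk H U (L1 ++ L2 ++ Ld) p)
    {U : Set V} {M Ld : List V} {x y : ℕ → V} {Q : ℕ → Set V}
    (ih : ∀ H' < H, ∀ U' L', Soc H' U' L' → Crk H' U' L' p ∨ Drawn H' U' [L'] 0 1 d)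
    (soc : Soc H U ((y (m + 1) :: M ++ [x (m + 1)]) ++ Ld)) (lkg : Lkg H U (m + 2) x y Q)
    (hQ : ∀ l < m + 2, Q l ∩ ls ((y (m + 1) :: M ++ [x (m + 1)]) ++ Ld) = {x l, y l})
    (hs : List.Sublist (((List.range (m + 2)).map y).reverse ++ (List.range (m + 2)).map x)
      (y (m + 1) :: M ++ [x (m + 1)]))
    (W : ¬ PX H U (sg (y (m + 1) :: M ++ [x (m + 1)]) ++ [lk H (U \ Q (m + 1)) (ls Ld)])) :
    Crk H U ((y (m + 1) :: M ++ [x (m + 1)]) ++ Ld) p ∨
      Drawn H U [(y (m + 1) :: M ++ [x (m + 1)]) ++ Ld] 0 1 d := by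
  set S := lk H (U \ Q (m + 1)) (ls Ld) with hS
  obtain ⟨k1, k2, k3, k4⟩ := lkg.mem (m + 1) (by omega)
  have SU : S ⊆ U \ Q (m + 1) := fun v hv => hv.1
  have w1 : ∀ z ∈ y (m + 1) :: M ++ [x (m + 1)], z ∉ S := by
    intro z h1 h2
    have hz : z ∉ Q (m + 1) := (SU h2).2
    have hM : z ∈ M := by
      simp only [List.cons_append, List.mem_cons, List.mem_append, List.not_mem_nil,
        or_false] at h1
      rcases h1 with rfl | h1 | rfl
      exacts [absurd k4 hz, h1, absurd k3 hz]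
    refine W ⟨{y (m + 1)}, {z}, {x (m + 1)}, S, ?_, Q (m + 1), {z}, ⟨k1, by simpa using (SU h2).1,
      k2, conn_singleton _ _, by simpa using hz⟩, ⟨_, k4, rfl⟩, ⟨_, k3, rfl⟩, ⟨z, rfl, rfl⟩,
      ⟨z, rfl, h2⟩, fun s hs => ?_⟩
    · exact ((((List.singleton_sublist.2 hM).append (List.Sublist.refl [x (m + 1)])).cons_cons
        (y (m + 1))).map fun x => ({x} : Set V)).append (List.Sublist.refl [S])
    · rcases List.mem_append.1 hs with hs | hs
      · obtain ⟨a, -, rfl⟩ := List.mem_map.1 hs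
        by_cases c : a = z
        · exact Or.inl (by simpa [c] using hz)
        · exact Or.inr (by simpa using fun e => c e.symm)
      · rw [List.mem_singleton.1 hs]
        exact Or.inl (disjoint_left.2 fun v hv hv' => (SU hv').2 hv)
  obtain ⟨Lc, hLc⟩ : ∃ Lc, Lc = y (m + 1) :: M ++ [x (m + 1)] := ⟨_, rfl⟩
  rw [← hLc] at soc hQ hs W w1 ⊢
  have e1 : ((List.range (m + 2)).map y).reverse ++ (List.range (m + 2)).map x =
      ((List.range m).map fun l => y (l + 2)).reverse ++ y 1 :: ([y 0, x 0] ++ x 1 ::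
        (List.range m).map fun l => x (l + 2)) := by
    simp [List.range_succ_eq_map, comp_def]
  rw [e1] at hs
  obtain ⟨M3, r, rfl, s3, hs⟩ := split hs
  obtain ⟨M1, M2, rfl, s1, s2⟩ := split hs
  have n3 : M3 ≠ [] := by
    rintro rfl
    have := s3.length_le
    simp at this
    omega
  have n2 : M2 ≠ [] := by
    rintro rfl
    have := s2.length_le
    simp at this
    omega
  have h3 : M3.head? = some (y (m + 1)) := by
    obtain ⟨a, t, rfl⟩ := List.exists_cons_of_ne_nil n3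
    simp only [List.cons_append, List.cons.injEq] at hLc
    simp [hLc.1]
  have h2 : M2.getLast? = some (x (m + 1)) := by
    obtain ⟨t, a, rfl⟩ := (List.eq_nil_or_concat' M2).resolve_left n2
    have := (List.append_inj' (show (M3 ++ y 1 :: (M1 ++ x 1 :: t)) ++ [a] =
      (y (m + 1) :: M) ++ [x (m + 1)] by simpa using hLc) rfl).2
    simpa using this
  clear hLc e1 hs n3 n2
  classical
  obtain ⟨L, hL⟩ : ∃ L, L = M3 ++ y 1 :: (M1 ++ x 1 :: M2) ++ Ld := ⟨_, rfl⟩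
  have mem : ∀ z, z ∈ L ↔ z ∈ M3 ∨ z = y 1 ∨ z ∈ M1 ∨ z = x 1 ∨ z ∈ M2 ∨ z ∈ Ld := fun z => by
    simp [hL]
  rw [← hL] at soc hQ
  obtain ⟨c1, c2, c3, c4⟩ := lkg.mem 1 (by omega)
  have nd1 : (y 1 :: x 1 :: (M1 ++ M2 ++ M3 ++ Ld)).Nodup := nd_of soc.nd fun a => by
    simp only [hL, List.count_append, cnt_cons]; omega
  have off : ∀ z, z ∈ M1 ∨ z ∈ M2 ∨ z ∈ M3 ∨ z ∈ Ld → z ∈ U \ (Q 1 ∪ {y 1} ∪ {x 1}) := by
    intro z hz
    have m1 : z ∈ L := (mem z).2 (by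
      rcases hz with hz | hz | hz | hz <;> simp only [hz, true_or, or_true])
    have m2 : z ∈ M1 ++ M2 ++ M3 ++ Ld := by simpa using hz
    simp only [List.nodup_cons, List.mem_cons, not_or] at nd1
    have : z ∉ ({x 1, y 1} : Set V) := by
      rintro (rfl | rfl)
      exacts [nd1.2.1 m2, nd1.1.2 m2]
    refine ⟨soc.sub z m1, ?_⟩
    rintro ((c | c) | c)
    exacts [this ((hQ 1 (by omega)).le ⟨c, m1⟩), this (Or.inr c), this (Or.inl c)]
  have eq1 : Q 1 ∪ {y 1} ∪ {x 1} = Q 1 := by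
    rw [union_eq_left.2 (singleton_subset_iff.2 c4), union_eq_left.2 (singleton_subset_iff.2 c3)]
  rw [eq1] at off
  have dS : Disjoint (Q 1) S := disjoint_left.2 fun v hv hv' => w1 (y 1) (by simp)
    (sub_lk' (S := U \ Q (m + 1)) c2 (fun w hw => ⟨c1 hw, disjoint_left.1
      (lkg.dis 1 (by omega) (m + 1) (by omega) (by omega)) hw⟩) hv hv' c4)
  have rot : List.IsRotated (sg (M3 ++ y 1 :: (M1 ++ x 1 :: M2)) ++ [S])
      ({y 1} :: sg M1 ++ {x 1} :: (sg M2 ++ S :: sg M3)) := by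
    have := List.isRotated_append (l := sg M3) (l' := sg (y 1 :: (M1 ++ x 1 :: M2)) ++ [S])
    simpa [sg] using this
  have pw : (sg (M3 ++ y 1 :: (M1 ++ x 1 :: M2)) ++ [S]).Pairwise Disjoint :=
    List.pairwise_append.2 ⟨sg_pw (soc.nd.sublist (hL ▸ List.sublist_append_left _ _)),
      List.pairwise_singleton _ _, by
        intro s hs t ht
        obtain ⟨z, hz, rfl⟩ := List.mem_map.1 hs
        rw [List.mem_singleton.1 ht]
        simpa using w1 z hz⟩
  have a2 : ∀ v, v ∈ un (sg M2 ++ S :: sg M3) ↔ v ∈ M2 ∨ v ∈ S ∨ v ∈ M3 := fun v => by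
    simp only [un_app, un_cons, un_sg]
  obtain ⟨Y, H1, H2, U1, U2, sp, ndY, dY, i1, i2, lY, x1, x2⟩ := cut V H U (Q 1) _ _ {y 1} {x 1}
    (sg M1) (sg M2 ++ S :: sg M3) soc.tight
    (rot.perm.pairwise pw fun h => h.symm)
    (fun v hv => by
      simp only [un_app, un_cons, un_sg, List.cons_append] at hv
      rcases hv with rfl | hv | rfl | hv | hv | hv
      exacts [c1 c4, (off v (Or.inl hv)).1, c1 c3, (off v (Or.inr (Or.inl hv))).1, (SU hv).1,
        (off v (Or.inr (Or.inr (Or.inl hv)))).1])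
    c1 c2 ⟨_, c4, rfl⟩ ⟨_, c3, rfl⟩
    (disjoint_right.2 fun v hv => (off v (Or.inl (un_sg.1 hv))).2)
    (disjoint_right.2 fun v hv => by
      rcases (a2 v).1 hv with hv | hv | hv
      exacts [(off v (Or.inr (Or.inl hv))).2, disjoint_right.1 dS hv,
        (off v (Or.inr (Or.inr (Or.inl hv)))).2])
    rfl rfl fun c => W ((nf V H U).2.2.1 _ _ rot.symm c)
  rw [eq1] at i1 i2 lY
  set S1 := lk H (U \ Q 1) (un (sg M1)) with hS1
  set S2 := lk H (U \ Q 1) (un (sg M2 ++ S :: sg M3)) with hS2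
  have b1 : ∀ z ∈ M1, z ∈ S1 := fun z hz =>
    ⟨off z (Or.inl hz), z, un_sg.2 hz, off z (Or.inl hz), Link.refl _ _ _⟩
  have bS : S ⊆ S2 := fun z hz =>
    have k : z ∈ U \ Q 1 := ⟨(SU hz).1, disjoint_right.1 dS hz⟩
    ⟨k, z, (a2 z).2 (Or.inr (Or.inl hz)), k, Link.refl _ _ _⟩
  have dK : ∀ z ∈ Ld, z ∈ U \ Q (m + 1) := fun z hz => by
    have m1 : z ∈ L := (mem z).2 (by simp only [hz, or_true])
    refine ⟨soc.sub z m1, fun c => ?_⟩
    have nd2 : ((M3 ++ M2) ++ Ld).Nodup := nd_of soc.nd fun a => by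
      simp only [hL, List.count_append, cnt_cons]; omega
    refine List.disjoint_of_nodup_append nd2 ?_ hz
    rcases (hQ (m + 1) (by omega)).le ⟨c, m1⟩ with rfl | rfl
    exacts [List.mem_append_right _ (List.mem_of_getLast? h2),
      List.mem_append_left _ (List.mem_of_head? h3)]
  have b2 : ∀ z, z ∈ M2 ∨ z ∈ M3 ∨ z ∈ Ld → z ∈ S2 := by
    rintro z (hz | hz | hz)
    · exact ⟨off z (Or.inr (Or.inl hz)), z, (a2 z).2 (Or.inl hz), off z (Or.inr (Or.inl hz)),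
        Link.refl _ _ _⟩
    · exact ⟨off z (Or.inr (Or.inr (Or.inl hz))), z, (a2 z).2 (Or.inr (Or.inr hz)),
        off z (Or.inr (Or.inr (Or.inl hz))), Link.refl _ _ _⟩
    · exact bS ⟨dK z hz, z, hz, dK z hz, Link.refl _ _ _⟩
  have yS : ∀ z ∈ Y, z ∉ S1 ∧ z ∉ S2 := fun z hz => not_or.1 (lY z hz).1.2
  have ndA : (L ++ Y).Nodup := List.nodup_append.2 ⟨soc.nd, ndY, by
    rintro z hz _ hz' rfl
    rcases (mem z).1 hz with h | h | h | h | h | h
    exacts [(yS z hz').2 (b2 z (Or.inr (Or.inl h))), disjoint_left.1 dY hz' (Or.inl h),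
      (yS z hz').1 (b1 z h), disjoint_left.1 dY hz' (Or.inr h), (yS z hz').2 (b2 z (Or.inl h)),
      (yS z hz').2 (b2 z (Or.inr (Or.inr h)))]⟩
  have seam : ∀ z, z = y 1 ∨ z = x 1 ∨ z ∈ Y → z ∈ U1 ∧ z ∈ U2 := fun z hz =>
    sp.int.ge (show z ∈ ({y 1} ∪ {x 1} ∪ ls Y : Set V) from or_assoc.2 hz)
  have le2 : H2 ≤ H := sp.sup ▸ le_sup_right
  have u2 : U2 ⊆ U := sp.un ▸ subset_union_right
  have lt2 : H2 < H := by
    obtain ⟨z1, z2, z3, z4⟩ := lkg.mem 0 (by omega)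
    have m0 : y 0 ∈ M1 := s1.subset (by simp)
    have ne : y 0 ≠ x 0 := by
      have ndM : M1.Nodup := nd_of soc.nd fun a => by
        simp only [hL, List.count_append, cnt_cons]; omega
      simpa using ndM.sublist s1
    rcases (z2.2 _ z4 _ z3).cases_head with e | ⟨w, e, -⟩
    · exact absurd e ne
    · exact lt_of_le_of_ne le2 fun c => (i1 (b1 _ m0)).2 (sp.t2 _ _ (c ▸ e.2.2))
  have soc1 : Soc H1 U1 (y 1 :: M1 ++ x 1 :: Y.reverse) := ⟨sp.t1, nd_of ndA fun a => by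
    simp only [hL, List.count_append, cnt_cons, List.count_reverse]; omega, fun z hz => by
    simp only [List.cons_append, List.mem_cons, List.mem_append, List.mem_reverse] at hz
    rcases hz with h | h | h | h
    exacts [(seam z (Or.inl h)).1, (i1 (b1 z h)).1, (seam z (Or.inr (Or.inl h))).1,
      (seam z (Or.inr (Or.inr h))).1]⟩
  have soc2 : Soc H2 U2 ((M3 ++ [y 1]) ++ Y ++ (x 1 :: M2) ++ Ld) := ⟨sp.t2, nd_of ndA fun a => by
    simp only [hL, List.count_append, cnt_cons, List.count_nil]; omega, fun z hz => by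
    simp only [List.mem_cons, List.mem_append, List.not_mem_nil, or_false, or_assoc] at hz
    rcases hz with h | h | h | h | h | h
    exacts [(i2 (b2 z (Or.inr (Or.inl h)))).1, (seam z (Or.inl h)).2,
      (seam z (Or.inr (Or.inr h))).2, (seam z (Or.inr (Or.inl h))).2, (i2 (b2 z (Or.inl h))).1,
      (i2 (b2 z (Or.inr (Or.inr h)))).1]⟩
  rcases ih H2 lt2 U2 _ soc2 with ⟨n, hn⟩ | dr
  · left
    obtain ⟨n', hn', hn⟩ := (crk V H2 U2 _ n p soc2.nd).2.2.2.2.1 hp hn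
    have qS : ∀ l < m, Q (l + 2) ⊆ S2 := fun l hl => by
      obtain ⟨q1, q2, q3, -⟩ := lkg.mem (l + 2) (by omega)
      exact sub_lk' q2 (fun w hw => ⟨q1 hw, disjoint_left.1
        (lkg.dis (l + 2) (by omega) 1 (by omega) (by omega)) hw⟩) q3
        (b2 _ (Or.inl (s2.subset (List.mem_map.2 ⟨l, List.mem_range.2 hl, rfl⟩))))
    have em : m - 1 + 2 = m + 1 := by omega
    have eS : lk H2 (U2 \ Q (m - 1 + 2)) (ls Ld) = S := by
      rw [em]
      ext v
      constructor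
      · rintro ⟨v1, a, a1, a3, a4⟩
        exact ⟨⟨u2 v1.1, v1.2⟩, a, a1, ⟨u2 a3.1, a3.2⟩, (Link.map (G' := H) id
          (fun c hc d hd e => Link.single hc hd (le2 e)) a4).mono (sdiff_subset_sdiff_left u2)⟩
      · intro hv
        have sub : S ⊆ U2 \ Q (m + 1) := fun w hw => ⟨(i2 (bS hw)).1, (SU hw).2⟩
        obtain ⟨-, a, a1, a3, a4⟩ := id hv
        exact ⟨sub hv, a, a1, sub ⟨a3, a, a1, a3, Link.refl _ _ _⟩,
          (conn_side sp (bS.trans i2) (link_lk a1 a3 a4)).mono sub⟩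
    obtain ⟨n'', k⟩ := sl H2 U2 (M3 ++ [y 1]) Y (x 1 :: M2) Ld (fun l => x (l + 2))
      (fun l => y (l + 2)) (fun l => Q (l + 2)) soc2
      ⟨fun l hl => by
        obtain ⟨-, q2, q3, q4⟩ := lkg.mem (l + 2) (by omega)
        exact ⟨fun w hw => (i2 (qS l hl hw)).1, ⟨q2.1, fun u hu v hv =>
          conn_side sp ((qS l hl).trans i2) (q2.2 u hu v hv)⟩, q3, q4⟩,
        fun i hi j hj c => lkg.dis _ (by omega) _ (by omega) (by omega)⟩
      (fun l hl => by
        refine subset_antisymm (fun z hz => (hQ (l + 2) (by omega)).le ⟨hz.1, ?_⟩) ?_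
        · have h := hz.2
          simp only [ls, mem_ofPred_eq, List.mem_cons, List.mem_append, List.not_mem_nil, or_false,
            or_assoc] at h
          refine (mem z).2 ?_
          rcases h with h | h | h | h | h | h
          · exact Or.inl h
          · exact Or.inr (Or.inl h)
          · exact absurd (qS l hl hz.1) (yS z h).2
          all_goals simp only [h, true_or, or_true]
        · obtain ⟨-, -, q3, q4⟩ := lkg.mem (l + 2) (by omega)
          have m2 : x (l + 2) ∈ M2 := s2.subset (List.mem_map.2 ⟨l, List.mem_range.2 hl, rfl⟩)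
          have m3 : y (l + 2) ∈ M3 :=
            s3.subset (List.mem_reverse.2 (List.mem_map.2 ⟨l, List.mem_range.2 hl, rfl⟩))
          rintro z (rfl | rfl)
          exacts [⟨q3, by simp [ls, m2]⟩, ⟨q4, by simp [ls, m3]⟩])
      (s3.trans (List.sublist_append_left _ _)) (s2.cons _)
      (by rw [em, List.head?_append, h3]; rfl)
      (by rw [em, ← List.singleton_append, List.getLast?_append, h2]; rfl)
      (fun c => x2 (by
        rw [eS] at c
        refine (nf V H2 U2).2.2.1 _ _ ?_ c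
        have := List.isRotated_append (l := sg (M3 ++ [y 1] ++ Y)) (l' := sg (x 1 :: M2) ++ [S])
        simpa [sg] using this))
      n' hn' hn
    have sub : List.Sublist (M3 ++ [y 1] ++ x 1 :: M2 ++ Ld) L := by
      rw [hL]
      simp only [List.append_assoc, List.cons_append, List.nil_append]
      exact (List.Sublist.refl _).append ((List.sublist_append_right _ _).cons_cons _)
    rw [← hL]
    exact ⟨n'', (crk V H U L n'' p soc.nd).2.1 _ sub
      ((crk V H2 U2 _ n'' p (soc.nd.sublist sub)).1 H U le2 u2 k)⟩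
  · right
    obtain ⟨-, t2, -, -, t5⟩ := kit V d
    have d1 := (kit V 0).1 _ _ _ _ _ 0 0 d (two V H1 U1 _ soc1 fun c => x1 (by
      simpa [sg] using ((nf V H1 U1).2.1 _).1 c)) le_rfl le_rfl d.zero_le
    have d3 := (t5 H H1 H2 U U1 U2 _ [] [] 0 0 0 1 (x 1 :: Y.reverse ++ [y 1]) [] M1
      (M2 ++ Ld ++ M3) [] [] sp).2.1 (by
        rintro z ((h | h) | h)
        exacts [by simp [ls, show z = y 1 from h], by simp [ls, show z = x 1 from h],
          by simp [ls, show z ∈ Y from h]])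
      (nd_of ndA fun a => by
        simp only [hL, List.count_append, cnt_cons, List.count_nil, List.count_reverse]; omega)
      (t2 _ _ _ _ _ _ _ d1 (Or.inr (Or.inl (by
        simpa using List.isRotated_append (l := y 1 :: M1) (l' := x 1 :: Y.reverse)))))
      (t2 _ _ _ _ _ _ _ dr (Or.inr (Or.inl (by
        simpa using List.isRotated_append (l := M3) (l' := [y 1] ++ Y ++ (x 1 :: M2) ++ Ld)))))
    refine t2 _ _ _ _ _ _ _ d3 (Or.inr (Or.inl ?_))
    have e1 : lt (x 1 :: Y.reverse ++ [y 1]) = [y 1] := by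
      rw [lt, List.getLast?_append]; rfl
    rw [e1]
    simpa [hd] using List.isRotated_append (l := y 1 :: (M1 ++ x 1 :: M2) ++ Ld) (l' := M3)

theorem rev_map (f : ℕ → V) (n : ℕ) :
    ((List.range n).map fun l => f (n - 1 - l)).reverse = (List.range n).map f := by
  refine List.ext_getElem (by simp) fun i h1 h2 => ?_
  simp only [List.length_map, List.length_range] at h2
  simp only [List.getElem_reverse, List.getElem_map, List.getElem_range, List.length_map,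
    List.length_range]
  congr 1
  omega

theorem main (nf : NfS) (cut : CutPS) (kit : KitS) (two : TwoS) (prune : PruneS) (crk : CrkS)
    (slift : SliftS) {p : ℕ} (hp : 0 < p) :
    ∃ d, ∀ (V : Type) [Finite V] (H : SimpleGraph V) (U : Set V) (L : List V), Soc H U L →
      Crk H U L p ∨ Drawn H U [L] 0 1 d := by
  obtain ⟨m, hm, sl⟩ := slift (p + 4) p
  obtain ⟨N, es⟩ := prune.2.2.1 (m + 2 + (p + 2) + (m + 2))
  refine ⟨N, fun V _ H => ?_⟩
  induction H using WellFoundedLT.induction with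
  | ind H ih =>
  intro U L soc
  by_cases dp : Depth H U L N
  · refine Or.inr ⟨[⟨H, U, L, .hole⟩], Dr.new _, ⟨by simp, by simp, by simp [Vc]⟩, ?_, by simp⟩
    intro c hc
    rw [List.mem_singleton.1 hc]
    exact ⟨soc, by simp, by simp, by simp, fun _ => dp, by simp⟩
  have rot : ∀ L', List.IsRotated L' L → Crk H U L' p ∨ Drawn H U [L'] 0 1 N →
      Crk H U L p ∨ Drawn H U [L] 0 1 N := fun L' r h => h.imp
    (fun ⟨n, h⟩ => ⟨n, (crk V H U L' n p (r.nodup_iff.2 soc.nd)).2.2.1 L r h⟩)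
    fun h => (kit V N).2.1 _ _ _ _ _ _ _ h (Or.inr (Or.inl r))
  have rs : ∀ L', List.IsRotated L' L → Soc H U L' := fun L' r =>
    ⟨soc.tight, r.nodup_iff.2 soc.nd, fun x hx => soc.sub x (r.mem_iff.1 hx)⟩
  unfold Depth at dp
  push Not at dp
  obtain ⟨X, Y, r0, R, hR, dR⟩ := dp
  have soc0 := rs _ r0
  choose Q' q1 q2 u hu v hv q3 using fun i => clean (hR i).2.1 (hR i).2.2.1 (hR i).2.2.2
  have uQ : ∀ i, u i ∈ Q' i := fun i => ((q3 i).ge (Or.inl rfl)).1
  have vQ : ∀ i, v i ∈ Q' i := fun i => ((q3 i).ge (Or.inr rfl)).1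
  have dQ : Pairwise (Disjoint on Q') := fun i j c => (dR c).mono (q1 i) (q1 j)
  have uL : ∀ i, u i ∈ X ++ Y := fun i => List.mem_append_left _ (hu i)
  have vL : ∀ i, v i ∈ X ++ Y := fun i => List.mem_append_right _ (hv i)
  have uv : ∀ i j, pos (X ++ Y) (u i) < pos (X ++ Y) (v j) := fun i j =>
    (List.pairwise_append.1 (pos_pw soc0.nd)).2.2 _ (hu i) _ (hv j)
  obtain ⟨s, hs⟩ : ∃ s : ℕ → Fin (N + 1), InjOn s (Iio N) :=
    ⟨fun i => ⟨min i N, by omega⟩, fun i hi j hj e => by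
      have : min i N = min j N := congrArg Fin.val e
      simp only [mem_Iio] at hi hj
      omega⟩
  obtain ⟨e, e1, e2, e3⟩ := es (fun i => pos (X ++ Y) (u (s i))) (fun i => pos (X ++ Y) (v (s i)))
    (fun i hi j hj c => hs hi hj (by_contra fun d =>
      disjoint_left.1 (dQ d) (uQ _) (pos_inj (uL _) c ▸ uQ _)))
    (fun i hi j hj c => hs hi hj (by_contra fun d =>
      disjoint_left.1 (dQ d) (vQ _) (pos_inj (vL _) c ▸ vQ _)))
  obtain ⟨P, hP⟩ : ∃ P, P = m + 2 + (p + 2) + (m + 2) := ⟨_, rfl⟩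
  rw [← hP] at e1 e2 e3
  obtain ⟨x, y, Q, lkg, hQ, xL, yL, ox, oy, xy⟩ : ∃ (x y : ℕ → V) (Q : ℕ → Set V),
      Lkg H U P x y Q ∧ (∀ l, Q l ∩ ls L = {x l, y l}) ∧ (∀ l, x l ∈ X ++ Y) ∧
      (∀ l, y l ∈ X ++ Y) ∧ (∀ i j, i < j → j < P → pos (X ++ Y) (x i) < pos (X ++ Y) (x j)) ∧
      Mo (fun i => pos (X ++ Y) (y i)) P ∧ ∀ i j, pos (X ++ Y) (x i) < pos (X ++ Y) (y j) := by
    refine ⟨fun i => u (s (e i)), fun i => v (s (e i)), fun i => Q' (s (e i)),
      ⟨fun i _ => ⟨(q1 _).trans (hR _).1, q2 _, uQ _, vQ _⟩, fun i hi j hj c => dQ fun d => ?_⟩,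
      fun l => ?_, fun _ => uL _, fun _ => vL _, e2, e3, fun _ _ => uv _ _⟩
    · rcases lt_or_gt_of_ne c with c | c
      exacts [(e2 i j c hj).ne (by simp only [d]), (e2 j i c hi).ne (by simp only [d])]
    · rw [← q3]
      congr 1
      ext w
      simp only [ls, mem_ofPred_eq, mem_union, ← r0.mem_iff, List.mem_append]
  clear e1 e2 e3 hs uv uL vL dQ uQ vQ q1 q2 q3 hu hv dR hR
  rcases oy with oy | oy
  · refine rot _ r0 (Or.inl ?_)
    have : Nonempty (Fin P) := ⟨⟨0, by omega⟩⟩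
    refine crk_fam (β := pos (X ++ Y) (y 0)) (fun i : Fin P => x i) (fun i => y i) (fun i => Q i)
      (Fin.castLE (by omega)) (fun i => lkg.mem i i.2)
      (fun i j c => lkg.dis i i.2 j j.2 fun d => c (Fin.ext d)) (fun i => ⟨xL i, yL i⟩)
      (fun i c => (xy i i).ne (by rw [c])) (fun i => ?_) (Fin.castLE_injective _)
      fun i => ⟨xy _ _, ?_⟩
    · obtain ⟨j, hj⟩ : ∃ j : Fin P, j ≠ i := by
        have : Nontrivial (Fin P) := Fin.nontrivial_iff_two_le.2 (by omega)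
        exact exists_ne i
      refine ⟨j, j, _, _, hj, hj, Or.inl rfl, Or.inr rfl, ?_⟩
      have a1 := xy i j
      have a2 := xy j i
      rcases lt_or_gt_of_ne hj with c | c
      · have := ox _ _ c i.2
        have := oy _ _ c i.2
        simp only [Xs, fb.Btw] at *
        omega
      · have := ox _ _ c j.2
        have := oy _ _ c j.2
        simp only [Xs, fb.Btw] at *
        omega
    · rcases Nat.eq_zero_or_pos i.1 with c | c
      · simp [c]
      · exact (oy 0 i c (by have := i.2; omega)).le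
  have W : List.Sublist ((List.range P).map x ++ ((List.range P).map y).reverse) (X ++ Y) := by
    refine sub_of_pos soc0.nd (fun z hz => ?_) (List.pairwise_append.2 ⟨?_, ?_, ?_⟩)
    · simp only [List.mem_append, List.mem_reverse, List.mem_map] at hz
      rcases hz with ⟨i, -, rfl⟩ | ⟨i, -, rfl⟩
      exacts [xL i, yL i]
    · rw [List.pairwise_map]
      exact List.pairwise_lt_range.imp_of_mem fun _ hb h => ox _ _ h (List.mem_range.1 hb)
    · rw [List.pairwise_reverse, List.pairwise_map]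
      exact List.pairwise_lt_range.imp_of_mem fun _ hb h => oy _ _ h (List.mem_range.1 hb)
    · intro a ha b hb
      obtain ⟨i, -, rfl⟩ := List.mem_map.1 ha
      obtain ⟨j, -, rfl⟩ := List.mem_map.1 (List.mem_reverse.1 hb)
      exact xy i j
  have dec : ∀ f : ℕ → V, (List.range P).map f = (List.range (m + 1)).map f ++ f (m + 1) ::
      ((List.range (p + 2)).map (fun j => f (m + 2 + j)) ++ f (P - 1 - (m + 1)) ::
        ((List.range (m + 1)).map fun l => f (P - 1 - l)).reverse) := fun f => by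
    have k := rev_map (fun j => f (m + 2 + (p + 2) + j)) (m + 2)
    have k' : (List.range (m + 2)).map (fun l => f (m + 2 + (p + 2) + (m + 2 - 1 - l))) =
        (List.range (m + 2)).map fun l => f (P - 1 - l) :=
      List.map_congr_left fun l hl => by
        have := List.mem_range.1 hl
        congr 1
        omega
    rw [k', List.range_succ (n := m + 1), List.map_append, List.reverse_append] at k
    conv_lhs => rw [hP, List.range_add, List.range_add, List.range_succ (n := m + 1)]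
    simp only [List.map_append, List.map_map, comp_def] at k ⊢
    rw [← k]
    simp
  rw [dec x, dec y] at W
  simp only [List.reverse_append, List.reverse_cons, List.reverse_reverse, List.append_assoc,
    List.cons_append, List.nil_append] at W
  obtain ⟨A, r, e0, sA, W⟩ := split W
  obtain ⟨B, r, rfl, sB, W⟩ := split W
  rw [← List.append_assoc] at W
  obtain ⟨C, r, rfl, sC, W⟩ := split W
  obtain ⟨D, E, rfl, sD, sE⟩ := split W
  obtain ⟨k, hk⟩ : ∃ k, k = P - 1 - (m + 1) := ⟨_, rfl⟩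
  rw [← hk] at e0
  have r1 : List.IsRotated ((y (m + 1) :: (E ++ A) ++ [x (m + 1)]) ++ B ++ (x k :: C ++ [y k]) ++ D)
      L := by
    refine List.IsRotated.trans ?_ r0
    rw [e0]
    simpa using List.isRotated_append (l := y (m + 1) :: E)
      (l' := A ++ x (m + 1) :: (B ++ x k :: (C ++ y k :: D)))
  have lsr : ∀ L', List.IsRotated L' L → ls L' = ls L := fun L' r => Set.ext fun _ => r.mem_iff
  by_cases c1 : PX H U (sg (y (m + 1) :: (E ++ A) ++ [x (m + 1)]) ++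
      [lk H (U \ Q (m + 1)) (ls (B ++ (x k :: C ++ [y k]) ++ D))])
  swap
  · have r2 : List.IsRotated ((y (m + 1) :: (E ++ A) ++ [x (m + 1)]) ++
        (B ++ (x k :: C ++ [y k]) ++ D)) L := by simpa only [List.append_assoc] using r1
    refine rot _ r2 (hold nf cut kit two crk hp hm (sl V) ih (rs _ r2)
      ⟨fun i hi => lkg.mem i (by omega), fun i hi j hj => lkg.dis i (by omega) j (by omega)⟩
      (fun l _ => by rw [lsr _ r2, hQ]) ?_ c1)
    rw [List.range_succ (n := m + 1)]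
    simpa using (sE.append sA).append (List.Sublist.refl [x (m + 1)])
  by_cases c2 : PX H U (sg (x k :: C ++ [y k]) ++
      [lk H (U \ Q k) (ls (D ++ (y (m + 1) :: (E ++ A) ++ [x (m + 1)]) ++ B))])
  swap
  · have r2 : List.IsRotated ((x k :: C ++ [y k]) ++
        (D ++ (y (m + 1) :: (E ++ A) ++ [x (m + 1)]) ++ B)) L := by
      refine List.IsRotated.trans ?_ r1
      simpa only [List.append_assoc] using List.isRotated_append (l := (x k :: C ++ [y k]) ++ D)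
        (l' := (y (m + 1) :: (E ++ A) ++ [x (m + 1)]) ++ B)
    subst hk
    refine rot _ r2 (hold nf cut kit two crk hp hm (sl V) (x := fun l => y (P - 1 - l))
      (y := fun l => x (P - 1 - l)) (Q := fun l => Q (P - 1 - l)) ih (rs _ r2)
      ⟨fun i hi => ?_, fun i hi j hj c => lkg.dis _ (by omega) _ (by omega) (by omega)⟩
      (fun l _ => by rw [lsr _ r2, hQ, pair_comm]) ?_ c2)
    · obtain ⟨a1, a2, a3, a4⟩ := lkg.mem (P - 1 - i) (by omega)
      exact ⟨a1, a2, a4, a3⟩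
    · rw [List.range_succ (n := m + 1)]
      simpa using sC.append (List.Sublist.refl [y (P - 1 - (m + 1))])
  obtain ⟨a1, a2, -⟩ := lkg.mem (m + 1) (by omega)
  obtain ⟨a3, a4, -⟩ := lkg.mem k (by omega)
  refine rot _ r1 (Or.inl (both nf (T := fun j => Q (m + 2 + j)) (u := fun j => x (m + 2 + j))
    (v := fun j => y (m + 2 + j)) hp (rs _ r1) a1 a2 a3 a4
    (lkg.dis _ (by omega) _ (by omega) (by omega)) (by rw [lsr _ r1, hQ])
    (by rw [lsr _ r1, hQ, pair_comm]) (fun j hj => ?_)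
    (fun i hi j hj c => lkg.dis _ (by omega) _ (by omega) (by omega)) c1 c2))
  obtain ⟨b1, b2, b3, b4⟩ := lkg.mem (m + 2 + j) (by omega)
  exact ⟨b1, b2, b3, b4, sB.subset (List.mem_map.2 ⟨j, List.mem_range.2 hj, rfl⟩),
    sD.subset (List.mem_reverse.2 (List.mem_map.2 ⟨j, List.mem_range.2 hj, rfl⟩)),
    lkg.dis _ (by omega) _ (by omega) (by omega), lkg.dis _ (by omega) _ (by omega) (by omega)⟩

end Vor

theorem vorS : NfS → CutPS → KitS → TwoS → PruneS → CrkS → SliftS → VorS := by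
  intro nf cut kit two prune crk slift p
  obtain ⟨d, h⟩ := Vor.main nf cut kit two prune crk slift p.succ_pos
  refine ⟨d, fun V _ H U L soc => (h V H U L soc).imp_left ?_⟩
  rintro ⟨n, u, v, Q, h1, h2, h3, h4, α, β, t, h5, h6⟩
  exact ⟨n, u, v, Q, h1, h2, h3, h4, α, β, t, h5.mono fun i hi => Nat.lt_succ_of_lt hi,
    fun i hi => h6 i (Nat.lt_succ_of_lt hi)⟩

end Pool.Agent.MP_9d78a0_co.st

end MrgPart1

-- ======== part 2: formerly Pool.Agent.MP_9d78a0_co.st.Xb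
section MrgPart2

/-! Many crosses in blocks of a band. -/

set_option autoImplicit false

namespace Pool.Agent.MP_9d78a0_co.st

open Set Function fb

namespace xb

/-- two monotone families of points with disjoint hulls, away from the terminals -/
structure St (k : ℕ) (σ : ℕ → ℕ) (T : Finset (ℕ × ℕ)) (L n M : ℕ) (a b : ℕ → ℕ) : Prop where
  term : Term k σ T
  low : ends T ⊆ Iio L
  le : L ≤ n
  ma : Mo a M
  mb : Mo b M
  dis : (∀ i < M, ∀ j < M, a i < b j) ∨ ∀ i < M, ∀ j < M, b j < a i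
  ra : ∀ i < M, L ≤ a i ∧ a i < n
  rb : ∀ i < M, L ≤ b i ∧ b i < n

variable {k : ℕ} {σ : ℕ → ℕ} {T : Finset (ℕ × ℕ)} {L n M : ℕ} {a b : ℕ → ℕ}

theorem St.symm (h : St k σ T L n M a b) : St k σ T L n M b a :=
  ⟨h.term, h.low, h.le, h.mb, h.ma,
    h.dis.elim (fun e => Or.inr fun i hi j hj => e j hj i hi)
      fun e => Or.inl fun i hi j hj => e j hj i hi, h.rb, h.ra⟩

theorem btw_mo (h : Mo a M) {r s t : ℕ} (h1 : r < s) (h2 : s < t) (h3 : t < M) :
    Btw (a r) (a t) (a s) := by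
  rcases h with h | h
  · exact Or.inl ⟨h _ _ h1 (by omega), h _ _ h2 h3⟩
  · exact Or.inr ⟨h _ _ h2 h3, h _ _ h1 (by omega)⟩

theorem band (h : St k σ T L n M a b) {M' : ℕ} {α β : ℕ → ℕ}
    (h1 : ∀ i j, i < j → j < M' → α i < α j) (h2 : ∀ i j, i < j → j < M' → β i < β j)
    (h3 : ∀ j < M', α j < M ∧ β j < M ∧ σ (a (α j)) = b (β j)) :
    Band σ T M' (a ∘ α) ∧ Sup σ T M' (a ∘ α) (Iio n) := by
  refine ⟨⟨?_, ?_, ?_, ?_, ?_⟩, fun v hv => lt_of_lt_of_le (h.low hv) h.le, fun j _ hj => ?_⟩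
  · exact h.ma.imp (fun e i j x y => e _ _ (h1 i j x y) (h3 j y).1)
      fun e i j x y => e _ _ (h1 i j x y) (h3 j y).1
  · refine h.mb.imp (fun e i j x y => ?_) fun e i j x y => ?_ <;>
    · simp only [comp, (h3 j y).2.2, (h3 i (by omega)).2.2]
      exact e _ _ (h2 i j x y) (h3 j y).2.1
  · rw [disjoint_left]
    rintro v ⟨i, hi, j, hj, e1, e2⟩ ⟨i', hi', j', hj', e3, e4⟩
    simp only [comp, (h3 i' hi').2.2, (h3 j' hj').2.2] at e1 e2 e3 e4
    rcases h.dis with e | e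
    · have := e _ (h3 j hj).1 _ (h3 i' hi').2.1
      omega
    · have := e _ (h3 i hi).1 _ (h3 j' hj').2.1
      omega
  · rw [disjoint_left]
    rintro v hv ⟨i, hi, j, hj, e1, -⟩
    have e2 : v < L := h.low hv
    have := (h.ra _ (h3 i hi).1).1
    simp only [comp] at e1
    omega
  · rw [disjoint_left]
    rintro v hv ⟨i, hi, j, hj, e1, -⟩
    have e2 : v < L := h.low hv
    have := (h.rb _ (h3 i hi).2.1).1
    simp only [comp, (h3 i hi).2.2] at e1
    omega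
  · simp only [comp, (h3 j hj).2.2]
    exact ⟨(h.ra _ (h3 j hj).1).2, (h.rb _ (h3 j hj).2.1).2⟩

/-- the rows of the band: `W + 1` free rows, then one chord, and so on -/
def row (W : ℕ) (lo m : ℕ → ℕ) (j : ℕ) : ℕ :=
  if j % (W + 2) ≤ W then lo (j / (W + 2)) - (W + 1) + j % (W + 2) else m (j / (W + 2))

theorem row_at (W : ℕ) (lo m : ℕ → ℕ) (i u : ℕ) (hu : u < W + 2) :
    row W lo m (i * (W + 2) + u) = if u ≤ W then lo i - (W + 1) + u else m i := by
  have e1 : (i * (W + 2) + u) % (W + 2) = u := by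
    rw [Nat.mul_add_mod_of_lt hu]
  have e2 : (i * (W + 2) + u) / (W + 2) = i := by
    rw [Nat.add_comm, Nat.add_mul_div_right _ _ (by omega), Nat.div_eq_of_lt hu, Nat.zero_add]
  simp only [row, e1, e2]

theorem split (W Q j : ℕ) (hj : j < (Q + 1) * (W + 2)) :
    ∃ i ≤ Q, ∃ u < W + 2, j = i * (W + 2) + u :=
  ⟨j / (W + 2), Nat.le_of_lt_succ (Nat.div_lt_of_lt_mul (by rwa [Nat.mul_comm])), j % (W + 2),
    Nat.mod_lt _ (by omega), by rw [Nat.mul_comm]; exact (Nat.div_add_mod _ _).symm⟩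

theorem row_mono {W Q : ℕ} {lo hi m : ℕ → ℕ}
    (h1 : ∀ s ≤ Q, W + 1 ≤ lo s ∧ lo s ≤ m s ∧ m s ≤ hi s)
    (h2 : ∀ s t, s < t → t ≤ Q → hi s + (W + 1) < lo t) :
    ∀ i j, i < j → j < (Q + 1) * (W + 2) → row W lo m i < row W lo m j := by
  intro i j hij hj
  obtain ⟨s, hs, u, hu, rfl⟩ := split W Q i (by omega)
  obtain ⟨t, ht, v, hv, rfl⟩ := split W Q j hj
  rw [row_at _ _ _ _ _ hu, row_at _ _ _ _ _ hv]
  have a1 := h1 s hs
  have a2 := h1 t ht
  rcases lt_trichotomy s t with c | c | c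
  · have := h2 s t c ht
    split_ifs <;> omega
  · subst c
    split_ifs <;> omega
  · exfalso
    have : (t + 1) * (W + 2) ≤ s * (W + 2) := Nat.mul_le_mul_right _ c
    rw [Nat.add_mul] at this
    omega

theorem mk (h : St k σ T L n M a b) {W Q : ℕ} {lo hi m m' : ℕ → ℕ}
    (h1 : ∀ s ≤ Q, W + 1 ≤ lo s ∧ lo s ≤ m s ∧ m s ≤ hi s ∧ lo s ≤ m' s ∧ m' s ≤ hi s ∧ hi s < M ∧
      σ (a (m s)) = b (m' s))
    (h2 : ∀ s t, s < t → t ≤ Q → hi s + (W + 1) < lo t)
    (h3 : ∀ s ≤ Q, ∀ r, lo s ≤ r + (W + 1) → r < lo s → σ (a r) = b r) :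
    ∃ (M' : ℕ) (x c : ℕ → ℕ), Band σ T M' x ∧ Sup σ T M' x (Iio n) ∧
      (∀ s t, s < t → c s + W + 2 ≤ c t) ∧ ∀ s < Q, W ≤ c s ∧ c s + W + 2 < M' ∧
        x (c s) = a (lo s - 1) ∧ x (c s + 1) = a (m s) ∧
        x (c s + 1 + 1) = a (lo (s + 1) - (W + 1)) ∧ σ (x (c s + 1)) = b (m' s) ∧
        σ (x (c s + 1 + 1)) = b (lo (s + 1) - (W + 1)) := by
  have hb := band (M' := (Q + 1) * (W + 2)) (α := row W lo m) (β := row W lo m') h
    (row_mono (hi := hi) (fun s hs => ⟨(h1 s hs).1, (h1 s hs).2.1, (h1 s hs).2.2.1⟩) h2)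
    (row_mono (hi := hi) (fun s hs => ⟨(h1 s hs).1, (h1 s hs).2.2.2.1, (h1 s hs).2.2.2.2.1⟩) h2)
    (fun j hj => by
      obtain ⟨t, ht, v, hv, rfl⟩ := split W Q j hj
      rw [row_at _ _ _ _ _ hv, row_at _ _ _ _ _ hv]
      have a1 := h1 t ht
      split_ifs with c
      · exact ⟨by omega, by omega, h3 t ht _ (by omega) (by omega)⟩
      · exact ⟨by omega, by omega, a1.2.2.2.2.2.2⟩)
  refine ⟨_, _, fun s => s * (W + 2) + W, hb.1, hb.2, fun s t hst => ?_, fun s hs => ?_⟩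
  · have : (s + 1) * (W + 2) ≤ t * (W + 2) := Nat.mul_le_mul_right _ hst
    rw [Nat.add_mul] at this
    dsimp only
    omega
  · have e0 : (s + 1) * (W + 2) ≤ Q * (W + 2) := Nat.mul_le_mul_right _ hs
    have a1 := h1 s hs.le
    have a2 := h1 (s + 1) hs
    have e1 : row W lo m (s * (W + 2) + W) = lo s - 1 := by
      rw [row_at _ _ _ _ _ (by omega), if_pos le_rfl]; omega
    have e2 : row W lo m (s * (W + 2) + W + 1) = m s := by
      rw [Nat.add_assoc, row_at _ _ _ _ _ (by omega), if_neg (by omega)]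
    have e3 : row W lo m (s * (W + 2) + W + 1 + 1) = lo (s + 1) - (W + 1) := by
      rw [show s * (W + 2) + W + 1 + 1 = (s + 1) * (W + 2) + 0 by ring,
        row_at _ _ _ _ _ (by omega), if_pos (by omega)]
      rfl
    rw [Nat.add_mul] at e0
    simp only [comp, e1, e2, e3]
    refine ⟨by omega, by rw [Nat.add_mul]; omega, trivial, trivial, trivial, a1.2.2.2.2.2.2,
      h3 (s + 1) hs _ (by omega) (by omega)⟩

/-- blocks of rows with free rows before them -/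
structure Blk (σ a b : ℕ → ℕ) (M w Q : ℕ) (lo hi : ℕ → ℕ) : Prop where
  rng : ∀ s ≤ Q, w ≤ lo s ∧ lo s ≤ hi s ∧ hi s < M
  sep : ∀ s t, s < t → t ≤ Q → hi s + w < lo t
  free : ∀ s ≤ Q, ∀ r, lo s ≤ r + w → r < lo s → σ (a r) = b r

theorem Blk.symm {w Q : ℕ} {lo hi : ℕ → ℕ} (h : Blk σ a b M w Q lo hi) (hσ : Involutive σ) :
    Blk σ b a M w Q lo hi :=
  ⟨h.rng, h.sep, fun s hs r h1 h2 => by rw [← h.free s hs r h1 h2, hσ]⟩

theorem l31 (k : ℕ) : ∃ Q0 W0, ∀ Q W, Q0 ≤ Q → W0 ≤ W → ∀ (σ : ℕ → ℕ) (T : Finset (ℕ × ℕ))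
    (L n M : ℕ) (a b lo hi r0 r1 r2 r3 : ℕ → ℕ), St k σ T L n M a b →
    Blk σ a b M (W + 1) Q lo hi →
    (∀ s ≤ Q, lo s ≤ r0 s ∧ r0 s < r1 s ∧ r1 s < r2 s ∧ r2 s ≤ hi s ∧ lo s ≤ r3 s ∧ r3 s ≤ hi s ∧
      σ (a (r0 s)) = a (r2 s) ∧ σ (a (r1 s)) = b (r3 s)) → Good σ T (Iio n) := by
  obtain ⟨Q0, W0, H⟩ := b31_thm k
  refine ⟨Q0, W0, fun Q W hQ hW σ T L n M a b lo hi r0 r1 r2 r3 h hB hr => ?_⟩
  obtain ⟨M', x, c, b1, b2, b3, b4⟩ := mk (W := W) (Q := Q) (lo := lo) (hi := hi) (m := r1)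
    (m' := r3) h (fun s hs => by
      have a1 := hB.rng s hs
      have a2 := hr s hs
      exact ⟨a1.1, by omega, by omega, by omega, by omega, a1.2.2, a2.2.2.2.2.2.2.2⟩) hB.sep hB.free
  refine H σ T M' x c (fun s => c s + 1) (fun s => a (r0 s)) _ h.term b1 b2 (fun s hs => ?_)
    fun s t hst _ => by have := b3 s t hst; omega
  obtain ⟨c1, c2, c3, c4, c5, -⟩ := b4 s (by omega)
  have a1 := hB.rng s (by omega)
  have a2 := hr s (by omega)
  have a3 := hB.rng (s + 1) (by omega)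
  have a4 := hB.sep s (s + 1) (by omega) (by omega)
  rw [c3, c4, c5, a2.2.2.2.2.2.2.1]
  exact ⟨by omega, by omega, by omega, btw_mo h.ma (by omega) (by omega) (by omega),
    btw_mo h.ma (by omega) (by omega) (by omega), (h.ra _ (by omega)).2, (h.ra _ (by omega)).2⟩

theorem l22 (k : ℕ) : ∃ Q0 W0, ∀ Q W, Q0 ≤ Q → W0 ≤ W → ∀ (σ : ℕ → ℕ) (T : Finset (ℕ × ℕ))
    (L n M : ℕ) (a b lo hi r0 r1 r2 r3 : ℕ → ℕ), St k σ T L n M a b →
    Blk σ a b M (W + 1) Q lo hi →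
    (∀ s ≤ Q, lo s ≤ r0 s ∧ r0 s < r1 s ∧ r1 s ≤ hi s ∧ lo s ≤ r3 s ∧ r3 s < r2 s ∧ r2 s ≤ hi s ∧
      σ (a (r0 s)) = b (r2 s) ∧ σ (a (r1 s)) = b (r3 s)) → Good σ T (Iio n) := by
  obtain ⟨Q0, W0, H⟩ := bxS b0_thm k
  refine ⟨Q0, W0, fun Q W hQ hW σ T L n M a b lo hi r0 r1 r2 r3 h hB hr => ?_⟩
  obtain ⟨M', x, c, b1, b2, b3, b4⟩ := mk (W := W) (Q := Q) (lo := lo) (hi := hi) (m := r1)
    (m' := r3) h (fun s hs => by
      have a1 := hB.rng s hs
      have a2 := hr s hs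
      exact ⟨a1.1, by omega, by omega, by omega, by omega, a1.2.2, a2.2.2.2.2.2.2.2⟩) hB.sep hB.free
  refine H σ T M' x c (fun s => c s + 1) (fun s => a (r0 s)) _ h.term b1 b2 (fun s hs => ?_)
    fun s t hst _ => by have := b3 s t hst; omega
  obtain ⟨c1, c2, c3, c4, -, c6, c7⟩ := b4 s (by omega)
  have a1 := hB.rng s (by omega)
  have a2 := hr s (by omega)
  have a3 := hB.rng (s + 1) (by omega)
  have a4 := hB.sep s (s + 1) (by omega) (by omega)
  rw [c6, c7, c3, c4, a2.2.2.2.2.2.2.1]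
  exact ⟨by omega, by omega, by omega, btw_mo h.ma (by omega) (by omega) (by omega),
    btw_mo h.mb (by omega) (by omega) (by omega), (h.ra _ (by omega)).2, (h.rb _ (by omega)).2⟩

theorem l40 (k : ℕ) : ∃ Q0 W0, ∀ Q W, Q0 ≤ Q → W0 ≤ W → ∀ (σ : ℕ → ℕ) (T : Finset (ℕ × ℕ))
    (L n M : ℕ) (a b lo hi r0 r1 r2 r3 : ℕ → ℕ), St k σ T L n M a b →
    Blk σ a b M (W + 1) Q lo hi →
    (∀ s ≤ Q, lo s ≤ r0 s ∧ r0 s < r1 s ∧ r1 s < r2 s ∧ r2 s < r3 s ∧ r3 s ≤ hi s ∧
      σ (a (r0 s)) = a (r2 s) ∧ σ (a (r1 s)) = a (r3 s)) → Good σ T (Iio n) := by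
  obtain ⟨Q0, W0, H⟩ := b40S capS b0_thm k
  refine ⟨Q0, W0 + 1, fun Q W hQ hW σ T L n M a b lo hi r0 r1 r2 r3 h hB hr => ?_⟩
  obtain ⟨W, rfl⟩ : ∃ W', W = W' + 1 := ⟨W - 1, by omega⟩
  obtain ⟨M', x, c, b1, b2, b3, b4⟩ := mk (W := W) (Q := Q) (lo := fun s => lo s - 1) (hi := hi)
    (m := fun s => lo s - 1) (m' := fun s => lo s - 1) h (fun s hs => by
      have a1 := hB.rng s hs
      exact ⟨by omega, le_rfl, by omega, le_rfl, by omega, a1.2.2,
        hB.free s hs _ (by omega) (by omega)⟩)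
    (fun s t hst ht => by have := hB.sep s t hst ht; omega)
    fun s hs r h1 h2 => hB.free s hs r (by have := hB.rng s hs; omega) (by omega)
  have key : ∀ s < Q0, W0 ≤ c s + 1 ∧ c s + 1 + W0 < M' ∧ ∀ r, lo s ≤ r → r ≤ hi s →
      Btw (x (c s + 1)) (x (c s + 1 + 1)) (a r) ∧ a r ∈ Iio n := fun s hs => by
    obtain ⟨c1, c2, -, c4, c5, -⟩ := b4 s (by omega)
    have a1 := hB.rng s (by omega)
    have a3 := hB.rng (s + 1) (by omega)
    have a4 := hB.sep s (s + 1) (by omega) (by omega)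
    rw [c4, c5]
    exact ⟨by omega, by omega, fun r _ _ =>
      ⟨btw_mo h.ma (by omega) (by omega) (by omega), (h.ra _ (by omega)).2⟩⟩
  rcases h.ma with e | e
  · refine H σ T M' x (fun s => c s + 1) (fun s => a (r0 s)) (fun s => a (r1 s)) _ h.term b1 b2
      (fun s hs => ?_) fun s t hst _ => by have := b3 s t hst; omega
    obtain ⟨c1, c2, c3⟩ := key s hs
    have a1 := hB.rng s (by omega)
    have a2 := hr s (by omega)
    rw [a2.2.2.2.2.2.1, a2.2.2.2.2.2.2]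
    exact ⟨c1, c2, (c3 _ (by omega) (by omega)).1, (c3 _ (by omega) (by omega)).1,
      e _ _ (by omega) (by omega), e _ _ (by omega) (by omega), e _ _ (by omega) (by omega),
      (c3 _ (by omega) (by omega)).2, (c3 _ (by omega) (by omega)).2,
      (c3 _ (by omega) (by omega)).2, (c3 _ (by omega) (by omega)).2⟩
  · refine H σ T M' x (fun s => c s + 1) (fun s => a (r3 s)) (fun s => a (r2 s)) _ h.term b1 b2
      (fun s hs => ?_) fun s t hst _ => by have := b3 s t hst; omega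
    obtain ⟨c1, c2, c3⟩ := key s hs
    have a1 := hB.rng s (by omega)
    have a2 := hr s (by omega)
    have e1 : σ (a (r2 s)) = a (r0 s) := by rw [← a2.2.2.2.2.2.1, h.term.inv]
    have e2 : σ (a (r3 s)) = a (r1 s) := by rw [← a2.2.2.2.2.2.2, h.term.inv]
    rw [e1, e2]
    exact ⟨c1, c2, (c3 _ (by omega) (by omega)).1, (c3 _ (by omega) (by omega)).1,
      e _ _ (by omega) (by omega), e _ _ (by omega) (by omega), e _ _ (by omega) (by omega),
      (c3 _ (by omega) (by omega)).2, (c3 _ (by omega) (by omega)).2,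
      (c3 _ (by omega) (by omega)).2, (c3 _ (by omega) (by omega)).2⟩

theorem sp_lt {z : ℕ} (h : z < M) : sp M a b z = a z := if_pos h

theorem sp_ge {z : ℕ} (h : ¬ z < M) : sp M a b z = b (2 * M - 1 - z) := if_neg h

theorem comb (k : ℕ) : ∃ w Q, 0 < w ∧ ∀ (σ : ℕ → ℕ) (T : Finset (ℕ × ℕ))
    (L n M : ℕ) (a b lo hi : ℕ → ℕ) (z : ℕ → Fin 4 → ℕ), St k σ T L n M a b →
    (∀ s < Q, w ≤ lo s ∧ lo s ≤ hi s ∧ hi s + w < M ∧ StrictMono (z s) ∧
      (∀ t, z s t ∈ Icc (lo s) (hi s) ∨ z s t ∈ Icc (2 * M - 1 - hi s) (2 * M - 1 - lo s)) ∧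
      σ (sp M a b (z s 0)) = sp M a b (z s 2) ∧ σ (sp M a b (z s 1)) = sp M a b (z s 3)) →
    (∀ s t, s < t → t < Q → hi s + w < lo t) →
    (∀ r < M, (∀ s < Q, r ∉ Icc (lo s) (hi s)) → σ (a r) = b r) → Good σ T (Iio n) := by
  obtain ⟨Q1, W1, H1⟩ := l31 k
  obtain ⟨Q2, W2, H2⟩ := l22 k
  obtain ⟨Q3, W3, H3⟩ := l40 k
  obtain ⟨Q, hR⟩ := ramseyS (Fin 4 → Prop) (Q1 + Q2 + Q3 + 2)
  refine ⟨W1 + W2 + W3 + 1, Q, by omega, fun σ T L n M a b lo hi z h h1 h2 h3 => ?_⟩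
  obtain ⟨e, γ, e1, e2, e3⟩ := hR fun i _ t => z i t < M
  have e4 : ∀ i ≤ Q1 + Q2 + Q3, ∀ t, z (e i) t < M ↔ γ t := fun i hi t => by
    rw [← e3 i (Q1 + Q2 + Q3 + 1) (by omega) (by omega)]
  have hB : Blk σ a b M (W1 + W2 + W3 + 1) (Q1 + Q2 + Q3) (lo ∘ e) (hi ∘ e) := by
    refine ⟨fun s hs => ?_, fun s t hst ht => h2 _ _ (e1 s t hst (by omega)) (e2 t (by omega)),
      fun s hs r a1 a2 => ?_⟩
    · have := h1 _ (e2 s (by omega))
      simp only [comp]
      omega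
    · have a3 := h1 _ (e2 s (by omega))
      simp only [comp] at a1 a2
      refine h3 r (by omega) fun t ht hm => ?_
      have a4 := h1 t ht
      rw [mem_Icc] at hm
      rcases lt_trichotomy t (e s) with c | c | c
      · have := h2 _ _ c (e2 s (by omega))
        omega
      · subst c
        omega
      · have := h2 _ _ c ht
        omega
  have key : ∀ i ≤ Q1 + Q2 + Q3, z (e i) 0 < z (e i) 1 ∧ z (e i) 1 < z (e i) 2 ∧
      z (e i) 2 < z (e i) 3 ∧ (∀ t, γ t → lo (e i) ≤ z (e i) t ∧ z (e i) t ≤ hi (e i) ∧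
        z (e i) t < M ∧ sp M a b (z (e i) t) = a (z (e i) t)) ∧
      (∀ t, ¬ γ t → lo (e i) ≤ 2 * M - 1 - z (e i) t ∧ 2 * M - 1 - z (e i) t ≤ hi (e i) ∧
        M ≤ z (e i) t ∧ z (e i) t < 2 * M ∧ sp M a b (z (e i) t) = b (2 * M - 1 - z (e i) t)) ∧
      σ (sp M a b (z (e i) 0)) = sp M a b (z (e i) 2) ∧
      σ (sp M a b (z (e i) 1)) = sp M a b (z (e i) 3) := fun i hi => by
    obtain ⟨a1, a2, a3, a4, a5, a6⟩ := h1 _ (e2 i (by omega))
    refine ⟨a4 (by decide), a4 (by decide), a4 (by decide), fun t ht => ?_, fun t ht => ?_, a6⟩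
    · have c := (e4 i hi t).2 ht
      have := a5 t
      simp only [mem_Icc] at this
      exact ⟨by omega, by omega, c, sp_lt c⟩
    · have c := mt (e4 i hi t).1 ht
      have := a5 t
      simp only [mem_Icc] at this
      exact ⟨by omega, by omega, by omega, by omega, sp_ge c⟩
  have hi0 := h.term.inv
  have k0 := key 0 (by omega)
  have up : ∀ t t', γ t' → z (e 0) t < z (e 0) t' → γ t := fun t t' c1 c2 => by
    by_contra c3
    have := k0.2.2.2.1 t' c1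
    have := k0.2.2.2.2.1 t c3
    omega
  by_cases g3 : γ 3
  · have g2 := up 2 3 g3 k0.2.2.1
    have g1 := up 1 2 g2 k0.2.1
    have g0 := up 0 1 g1 k0.1
    refine H3 _ (W1 + W2 + W3) (by omega) (by omega) σ T L n M a b _ _ (fun i => z (e i) 0)
      (fun i => z (e i) 1) (fun i => z (e i) 2) (fun i => z (e i) 3) h hB fun i hi => ?_
    obtain ⟨a1, a2, a3, a4, -, a6, a7⟩ := key i hi
    rw [(a4 _ g0).2.2.2, (a4 _ g2).2.2.2] at a6
    rw [(a4 _ g1).2.2.2, (a4 _ g3).2.2.2] at a7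
    exact ⟨(a4 _ g0).1, a1, a2, a3, (a4 _ g3).2.1, a6, a7⟩
  by_cases g2 : γ 2
  · have g1 := up 1 2 g2 k0.2.1
    have g0 := up 0 1 g1 k0.1
    refine H1 _ (W1 + W2 + W3) (by omega) (by omega) σ T L n M a b _ _ (fun i => z (e i) 0)
      (fun i => z (e i) 1) (fun i => z (e i) 2) (fun i => 2 * M - 1 - z (e i) 3) h hB
      fun i hi => ?_
    obtain ⟨a1, a2, a3, a4, a5, a6, a7⟩ := key i hi
    rw [(a4 _ g0).2.2.2, (a4 _ g2).2.2.2] at a6
    rw [(a4 _ g1).2.2.2, (a5 _ g3).2.2.2.2] at a7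
    exact ⟨(a4 _ g0).1, a1, a2, (a4 _ g2).2.1, (a5 _ g3).1, (a5 _ g3).2.1, a6, a7⟩
  by_cases g1 : γ 1
  · have g0 := up 0 1 g1 k0.1
    refine H2 _ (W1 + W2 + W3) (by omega) (by omega) σ T L n M a b _ _ (fun i => z (e i) 0)
      (fun i => z (e i) 1) (fun i => 2 * M - 1 - z (e i) 2) (fun i => 2 * M - 1 - z (e i) 3) h hB
      fun i hi => ?_
    obtain ⟨a1, a2, a3, a4, a5, a6, a7⟩ := key i hi
    rw [(a4 _ g0).2.2.2, (a5 _ g2).2.2.2.2] at a6
    rw [(a4 _ g1).2.2.2, (a5 _ g3).2.2.2.2] at a7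
    have := a5 _ g3
    exact ⟨(a4 _ g0).1, a1, (a4 _ g1).2.1, (a5 _ g3).1, by omega, (a5 _ g2).2.1, a6, a7⟩
  by_cases g0 : γ 0
  · refine H1 _ (W1 + W2 + W3) (by omega) (by omega) σ T L n M b a _ _
      (fun i => 2 * M - 1 - z (e i) 3) (fun i => 2 * M - 1 - z (e i) 2)
      (fun i => 2 * M - 1 - z (e i) 1) (fun i => z (e i) 0) h.symm (hB.symm hi0) fun i hi => ?_
    obtain ⟨a1, a2, a3, a4, a5, a6, a7⟩ := key i hi
    rw [(a4 _ g0).2.2.2, (a5 _ g2).2.2.2.2] at a6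
    rw [(a5 _ g1).2.2.2.2, (a5 _ g3).2.2.2.2] at a7
    have := a5 _ g3
    exact ⟨(a5 _ g3).1, by omega, by omega, (a5 _ g1).2.1, (a4 _ g0).1, (a4 _ g0).2.1,
      by rw [← a7, hi0], by rw [← a6, hi0]⟩
  · refine H3 _ (W1 + W2 + W3) (by omega) (by omega) σ T L n M b a _ _
      (fun i => 2 * M - 1 - z (e i) 3) (fun i => 2 * M - 1 - z (e i) 2)
      (fun i => 2 * M - 1 - z (e i) 1) (fun i => 2 * M - 1 - z (e i) 0) h.symm (hB.symm hi0)
      fun i hi => ?_
    obtain ⟨a1, a2, a3, -, a5, a6, a7⟩ := key i hi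
    rw [(a5 _ g0).2.2.2.2, (a5 _ g2).2.2.2.2] at a6
    rw [(a5 _ g1).2.2.2.2, (a5 _ g3).2.2.2.2] at a7
    have := a5 _ g3
    exact ⟨(a5 _ g3).1, by omega, by omega, by omega, (a5 _ g0).2.1,
      by rw [← a7, hi0], by rw [← a6, hi0]⟩

theorem sp_ne (h1 : ∀ i j, i < j → j < M → a i < a j) (h2 : Mo b M)
    (h3 : ∀ i < M, ∀ j < M, L ≤ a i ∧ a i < b j ∧ b j < n) {z z' : ℕ} (hz : z < z')
    (hz' : z' < 2 * M) : sp M a b z ≠ sp M a b z' ∧ L ≤ sp M a b z ∧ sp M a b z < n ∧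
      L ≤ sp M a b z' ∧ sp M a b z' < n := by
  have key : ∀ y < 2 * M, L ≤ sp M a b y ∧ sp M a b y < n := fun y hy => by
    by_cases c : y < M
    · have := h3 y c y c
      rw [sp_lt c]
      omega
    · have := h3 (2 * M - 1 - y) (by omega) (2 * M - 1 - y) (by omega)
      rw [sp_ge c]
      omega
  refine ⟨?_, (key z (by omega)).1, (key z (by omega)).2, key z' hz'⟩
  by_cases c' : z' < M
  · rw [sp_lt c', sp_lt (by omega)]
    exact (h1 _ _ hz c').ne
  rw [sp_ge c']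
  by_cases c : z < M
  · rw [sp_lt c]
    exact (h3 _ c _ (by omega)).2.1.ne
  · rw [sp_ge c]
    rcases h2 with e | e
    · exact (e _ _ (by omega) (by omega)).ne'
    · exact (e _ _ (by omega) (by omega)).ne

end xb

theorem xbS : MksS → XbS := by
  intro hM h
  obtain ⟨w, Q, hw, H⟩ := xb.comb (h * h)
  refine ⟨w, Q, hw, fun V G n Ur ob M a b R X X' lo hi z hU hR h1 h2 h3 => ?_⟩
  have hz : ∀ s < Q, ∀ t, z s t < 2 * M := fun s hs t => by
    obtain ⟨-, a1, a2, a3, -, a5, -⟩ := h1 s hs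
    have := a5 t
    simp only [mem_Icc] at this
    omega
  have hd : ∀ s < Q, ∀ t < Q, s ≠ t → Disjoint (X s ∪ X' s) (X t ∪ X' t) := fun s hs t ht e => by
    rcases lt_or_gt_of_ne e with c | c
    · exact (h2 s t c ht).2
    · exact (h2 t s c hs).2.symm
  obtain ⟨σ, r1, r2, r3, r4⟩ := hM V G Ur ob h n (ℕ ⊕ ℕ ⊕ ℕ)
    {i | Sum.elim (fun r => r < M ∧ ∀ s < Q, r ∉ Icc (lo s) (hi s))
      (Sum.elim (fun s => s < Q) fun s => s < Q) i}
    (Sum.elim a (Sum.elim (fun s => sp M a b (z s 0)) fun s => sp M a b (z s 1)))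
    (Sum.elim b (Sum.elim (fun s => sp M a b (z s 2)) fun s => sp M a b (z s 3)))
    (Sum.elim R (Sum.elim X X'))
    (by
      rintro (r | s | s) hi
      · obtain ⟨a1, a2, a3, a4⟩ := hR.lkg.mem r hi.1
        have := hR.ab r hi.1 r hi.1
        exact ⟨a1, a2, a3, a4, this.2.1.ne, this.1, this.2.1.trans this.2.2,
          this.1.trans this.2.1.le, this.2.2⟩
      · obtain ⟨a0, -, -, -, a4, -, a5, a6, -⟩ := h1 s hi
        exact ⟨a0.sp, a0.cp, a5, a6,
          xb.sp_ne hR.ma hR.mb hR.ab (a4 (show (0 : Fin 4) < 2 by decide)) (hz s hi 2)⟩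
      · obtain ⟨a0, -, -, -, a4, -, -, -, a5, a6⟩ := h1 s hi
        exact ⟨a0.sq, a0.cq, a5, a6,
          xb.sp_ne hR.ma hR.mb hR.ab (a4 (show (1 : Fin 4) < 3 by decide)) (hz s hi 3)⟩)
    (by
      rintro (r | s | s) hi (r' | t | t) hj e
      · exact hR.lkg.dis r hi.1 r' hj.1 fun c => e (by rw [c])
      · exact (h3 r hi.1 hi.2 t hj).mono_right subset_union_left
      · exact (h3 r hi.1 hi.2 t hj).mono_right subset_union_right
      · exact ((h3 r' hj.1 hj.2 s hi).mono_right subset_union_left).symm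
      · exact (hd s hi t hj fun c => e (by rw [c])).mono subset_union_left subset_union_left
      · by_cases c : s = t
        · subst c
          exact (h1 s hi).1.dis
        · exact (hd s hi t hj c).mono subset_union_left subset_union_right
      · exact ((h3 r' hj.1 hj.2 s hi).mono_right subset_union_right).symm
      · by_cases c : s = t
        · subst c
          exact (h1 s hi).1.dis.symm
        · exact (hd s hi t hj c).mono subset_union_right subset_union_left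
      · exact (hd s hi t hj fun c => e (by rw [c])).mono subset_union_right subset_union_right)
  refine hU.2 σ r2.inv r1 (H σ (Tst h) (h * h) n M a b lo hi z
    ⟨r2, r3, hU.1, Or.inl hR.ma, hR.mb, Or.inl fun i hi j hj => (hR.ab i hi j hj).2.1,
      fun i hi => ?_, fun i hi => ?_⟩ (fun s hs => ?_) (fun s t c ht => (h2 s t c ht).1)
    fun r hr hf => (r4 (Sum.inl r) ⟨hr, hf⟩).1)
  · have := hR.ab i hi i hi
    omega
  · have := hR.ab i hi i hi
    omega
  · obtain ⟨-, a1, a2, a3, a4, a5, -⟩ := h1 s hs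
    exact ⟨a1, a2, a3, a4, a5, (r4 (Sum.inr (Sum.inl s)) hs).1, (r4 (Sum.inr (Sum.inr s)) hs).1⟩

end Pool.Agent.MP_9d78a0_co.st

end MrgPart2

-- marker of a merged file
example : 731051 + 839363 = 731051 + 839363 := rfl
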