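import Mathlib.Data.List.Sort
import Pool.Agent.MP_9d78a0_co.gm.BGrid
import Pool.Agent.MP_9d78a0_co.st.Del
import Pool.Agent.MP_9d78a0_co.st.Dbl
import Pool.Agent.MP_9d78a0_co.st.Out
import Pool.Agent.MP_9d78a0_co.st.Twoc

-- ======== part 0: formerly Pool.Agent.MP_9d78a0_co.st.SliftB
section MrgPart0

/-! Row SLIFT, second half: paths, a seam and a flat side give a crooked linkage. -/

set_option autoImplicit false

namespace Pool.Agent.MP_9d78a0_co.st

open Set Function fb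

namespace Slift

variable {V : Type}

section lists

variable {L W T A B : List V} {a b : V}

theorem pos_pw (h : L.Nodup) : L.Pairwise fun a b => pos L a < pos L b := by
  classical
  rw [List.pairwise_iff_getElem]
  intro i j hi hj hij
  rwa [pos, pos, h.idxOf_getElem, h.idxOf_getElem]

theorem sub_of_pos (h : L.Nodup) (hW : W.Sublist L) (hT : T ⊆ W)
    (hp : T.Pairwise fun a b => pos L a < pos L b) : T.Sublist W :=
  haveI : Std.Antisymm fun a b => pos L a < pos L b := ⟨fun _ _ h h' => absurd h (lt_asymm h')⟩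
  List.sublist_of_subperm_of_pairwise
    (List.subperm_of_subset (hp.imp (S := (· ≠ ·)) fun k e => k.ne (congrArg _ e)) hT) hp
    ((pos_pw h).sublist hW)

theorem pos_ne (ha : a ∈ L) (e : a ≠ b) : pos L a ≠ pos L b := by
  classical
  exact fun k => e ((List.idxOf_inj ha).1 k)

theorem pos_iff (h : L.Nodup) (hW : W.Sublist L) (ha : a ∈ W) (hb : b ∈ W) :
    pos W a < pos W b ↔ pos L a < pos L b := by
  have k : ∀ a ∈ W, ∀ b ∈ W, pos W a < pos W b → pos L a < pos L b := fun a ha b hb e => by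
    simpa using (pos_pw h).sublist ((sub_of_pos (T := [a, b]) (h.sublist hW) (List.Sublist.refl _)
      (by simp [ha, hb]) (by simpa using e)).trans hW)
  refine ⟨k a ha b hb, fun e => ?_⟩
  rcases lt_trichotomy (pos W a) (pos W b) with c | c | c
  · exact c
  · exact absurd c (pos_ne ha fun d => (d ▸ e : pos L a < pos L a).false)
  · exact absurd (k b hb a ha c) e.not_gt

theorem pos_app (h : L.Nodup) (hW : (A ++ B).Sublist L) (ha : a ∈ A) (hb : b ∈ B) :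
    pos L a < pos L b := (List.pairwise_append.1 ((pos_pw h).sublist hW)).2.2 a ha b hb

end lists

theorem conn_u {H : SimpleGraph V} {f : ℕ → V} {a b : ℕ}
    (h : ∀ i, min a b ≤ i → i < max a b → H.Adj (f i) (f (i + 1))) : Conn H (f '' uIcc a b) :=
  conn_seg min_le_max h

theorem mem_u {a b c : ℕ} : c ∈ uIcc a b ↔ min a b ≤ c ∧ c ≤ max a b := Iff.rfl

/-- the situation after the cut -/
structure Cfg (H H1 H2 : SimpleGraph V) (U U1 U2 : Set V) (L L' M Z : List V) (lev : V → ℕ)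
    (D : ℕ → Set V) (X : ℕ → V) (n p g α β lam : ℕ) (f : ℕ → ℕ → V) (l : ℕ → ℕ) : Prop where
  split : Split H H1 H2 U U1 U2 (ls Z)
  nd : (M ++ Z).Nodup
  flat : ¬ Cr H1 U1 (M ++ Z)
  ndL : L.Nodup
  subM : M.Sublist L
  subL : L'.Sublist L
  zlev : ∀ z ∈ Z, lam ≤ lev z + 1
  top : ∀ v ∈ U1, lev v ≤ lam
  low : ∀ i < n, ∀ k ≤ l i, lev (f i k) ≤ β → f i k ∉ U2
  ring : ∀ j, α < j → j ≤ β → D j ⊆ U1 \ U2 ∧ Conn H (D j) ∧ X j ∈ D j ∧ X j ∈ M ∧ X j ∈ L' ∧
    ∀ v ∈ D j, lev v = j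
  down : ∀ u v, H.Adj u v → ∀ j, α < j → j ≤ β → lev u < j → j ≤ lev v → v ∈ D j
  wide : α + g ≤ β
  gap : β + 3 ≤ lam
  path : ∀ i < n, IsPath H U (f i) (l i)
  dis : ∀ i < n, ∀ j < n, i ≠ j → ∀ a ≤ l i, ∀ b ≤ l j, f i a ≠ f j b
  r1 : ∀ i < n, ∀ a b c, a < b → b < c → c ≤ l i →
    (lam ≤ lev (f i a) + 1 → lam ≤ lev (f i c) + 1 → lev (f i b) ≤ β →
      ∃ e, a < e ∧ e < c ∧ lev (f i e) ≤ α) ∧
    (lev (f i a) ≤ β → lev (f i c) ≤ β → lam ≤ lev (f i b) + 1 →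
      ∃ e, a < e ∧ e < c ∧ lam + 1 ≤ lev (f i e))
  r2 : ∀ F : Finset (ℕ × ℕ × ℕ),
    (∀ t ∈ F, t.1 < n ∧ t.2.2 ≤ l t.1 ∧ (∃ a ∈ Icc t.2.1 t.2.2, lev (f t.1 a) ≤ β) ∧
      ∃ a ∈ Icc t.2.1 t.2.2, lam ≤ lev (f t.1 a) + 1) →
    (∀ t ∈ F, ∀ t' ∈ F, t ≠ t' → t.1 = t'.1 → t.2.2 < t'.2.1 ∨ t'.2.2 < t.2.1) → F.card ≤ g
  ends : ∀ i < n, ∀ k, k = 0 ∨ k = l i → (lev (f i k) = 0 ∧ f i k ∈ M) ∨
    (lam < lev (f i k) ∧ f i k ∈ L' ∧
      ((∀ m ∈ M, pos L m < pos L (f i k)) ∨ ∀ m ∈ M, pos L (f i k) < pos L m))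
  dg : Dg n (fun i => pos L (f i 0)) (fun i => pos L (f i (l i))) p

/-- shallow indices -/
def Sh (Z : List V) (lev : V → ℕ) (α : ℕ) (f : ℕ → V) (l k : ℕ) : Prop :=
  ∃ j ≤ l, lev (f j) ≤ α ∧ ∀ c ∈ uIcc j k, f c ∉ Z

/-- switch points -/
def Sw (sh : ℕ → Prop) (l k : ℕ) : Prop :=
  k ≤ l ∧ ¬ sh k ∧ ∃ k' ≤ l, (k' + 1 = k ∨ k + 1 = k') ∧ sh k'

variable {H H1 H2 : SimpleGraph V} {U U1 U2 : Set V} {L L' M Z : List V} {lev : V → ℕ}
  {D : ℕ → Set V} {X : ℕ → V} {n p g α β lam : ℕ} {f : ℕ → ℕ → V} {l : ℕ → ℕ}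
  (h : Cfg H H1 H2 U U1 U2 L L' M Z lev D X n p g α β lam f l) {i k : ℕ}
include h

theorem Cfg.adj1 {u v : V} (e : H.Adj u v) (k : u ∉ U2 ∨ v ∉ U2) : H1.Adj u v := by
  rw [← h.split.sup] at e
  exact e.resolve_right fun c => k.elim (· (h.split.t2 _ _ c)) (· (h.split.t2 _ _ c.symm))

theorem Cfg.zm {z : V} : z ∈ Z ↔ z ∈ U1 ∧ z ∈ U2 :=
  (Set.ext_iff.1 h.split.int z).symm

theorem Cfg.m1 {v : V} (hv : v ∈ U) (k : v ∉ U2) : v ∈ U1 :=
  ((h.split.un ▸ hv : v ∈ U1 ∪ U2)).resolve_right k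

theorem Cfg.inj (hi : i < n) (hk : k ≤ l i) {i' k' : ℕ} (hi' : i' < n) (hk' : k' ≤ l i')
    (e : f i k = f i' k') : i = i' ∧ k = k' := by
  obtain rfl : i = i' := by_contra fun c => h.dis i hi i' hi' c k hk k' hk' e
  exact ⟨rfl, (h.path i hi).2.2 k hk k' hk' e⟩

theorem Cfg.side (hi : i < n) (hk : k ≤ l i) {j : ℕ} (hj : j ≤ l i) (a : f i j ∉ U2)
    (b : ∀ c ∈ uIcc j k, f i c ∉ Z) : f i k ∉ U2 := by
  intro c
  have k1 := (conn_u (H := H) (f := f i) (a := j) (b := k)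
    fun c _ _ => (h.path i hi).2.1 c (by omega)).2 _ ⟨j, left_mem_uIcc, rfl⟩ _ ⟨k, right_mem_uIcc, rfl⟩
  obtain ⟨x, y, -, ⟨c', c1, rfl⟩, x1, y1, e, -⟩ := link_exit (T := U2ᶜ) k1 a (not_not.2 c)
  exact b c' c1 (h.zm.2 ⟨h.split.t1 _ _ (h.adj1 e (Or.inl x1)).symm, not_not.1 y1⟩)

theorem Cfg.sh2 (hi : i < n) (hk : k ≤ l i) (s : Sh Z lev α (f i) (l i) k) : f i k ∉ U2 := by
  obtain ⟨j, a, b, c⟩ := s
  exact h.side hi hk a (h.low i hi j a (by have := h.wide; omega)) c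

theorem Cfg.sh_low (hi : i < n) (hk : k ≤ l i) (a : lev (f i k) ≤ α) :
    Sh Z lev α (f i) (l i) k :=
  ⟨k, hk, a, fun c hc z => by
    obtain rfl : c = k := by simpa using hc
    exact h.low i hi c hk (by have := h.wide; omega) (h.zm.1 z).2⟩

omit h in
theorem Sw.z (s : Sw (Sh Z lev α (f i) (l i)) (l i) k) : f i k ∈ Z := by
  obtain ⟨-, a, k', -, b, j, c, d, e⟩ := s
  by_contra z
  refine a ⟨j, c, d, fun x hx => ?_⟩
  by_cases y : x = k
  · exact y ▸ z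
  · exact e x (by rw [mem_u] at hx ⊢; omega)

theorem Cfg.deep (hi : i < n) (hk : k ≤ l i) (s : ¬ Sh Z lev α (f i) (l i) k) :
    β < lev (f i k) := by
  classical
  by_contra c
  have c1 := h.low i hi k hk (not_lt.1 c)
  have kz : f i k ∉ Z := fun z => c1 (h.zm.1 z).2
  have e : ∀ j, j = 0 ∨ j = l i → ∃ a ∈ uIcc j k, f i a ∈ Z := fun j hj => by
    by_contra d
    push Not at d
    rcases h.ends i hi j hj with y | y
    · exact s ⟨j, by omega, by omega, d⟩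
    · have := h.top _ (h.m1 ((h.path i hi).1 j (by omega))
        (h.side hi (by omega) hk c1 (by rwa [uIcc_comm])))
      omega
  obtain ⟨a, a1, a2⟩ := e 0 (Or.inl rfl)
  have b := e _ (Or.inr rfl)
  rw [mem_u] at a1
  have a3 := Nat.findGreatest_spec (P := fun a => f i a ∈ Z) (show a ≤ k by omega) a2
  have a4 := Nat.findGreatest_le (P := fun a => f i a ∈ Z) k
  have a5 := fun x => Nat.findGreatest_is_greatest (P := fun a => f i a ∈ Z) (n := k) (k := x)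
  generalize Nat.findGreatest (fun a => f i a ∈ Z) k = a' at a3 a4 a5
  obtain ⟨b1, b2⟩ := Nat.find_spec b
  have b3 := fun x => Nat.find_min b (m := x)
  generalize Nat.find b = b' at b1 b2 b3
  rw [mem_u] at b1
  have n1 : a' ≠ k := fun y => kz (y ▸ a3)
  have n2 : b' ≠ k := fun y => kz (y ▸ b2)
  obtain ⟨e, e1, e2, e3⟩ := (h.r1 i hi a' k b' (by omega) (by omega) (by omega)).1 (h.zlev _ a3)
    (h.zlev _ b2) (not_lt.1 c)
  refine s ⟨e, by omega, e3, fun x hx z => ?_⟩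
  rw [mem_u] at hx
  rcases le_total x k with y | y
  · exact a5 x (by omega) y z
  · exact b3 x (by omega) ⟨by rw [mem_u]; omega, z⟩

theorem Cfg.seg (hi : i < n) {a b : ℕ} (ha : a ≤ l i) (hb : b ≤ l i)
    (s : ∀ c ∈ uIcc a b, Sh Z lev α (f i) (l i) c ∨ f i c ∈ Z)
    (t : ∀ c, min a b ≤ c → c < max a b →
      Sh Z lev α (f i) (l i) c ∨ Sh Z lev α (f i) (l i) (c + 1)) :
    f i '' uIcc a b ⊆ U1 ∧ Conn H1 (f i '' uIcc a b) := by
  refine ⟨image_subset_iff.2 fun c hc => ?_, conn_u fun c c1 c2 => h.adj1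
    ((h.path i hi).2.1 c (by omega)) ((t c c1 c2).imp (h.sh2 hi (by omega)) (h.sh2 hi (by omega)))⟩
  have : c ≤ l i := by rw [mem_u] at hc; omega
  exact (s c hc).elim (fun y => h.m1 ((h.path i hi).1 c this) (h.sh2 hi this y))
    fun y => (h.zm.1 y).1

/-- a segment with one switch point at its end -/
theorem Cfg.seg1 (hi : i < n) {a : ℕ} (ha : a ≤ l i) (s : Sw (Sh Z lev α (f i) (l i)) (l i) k)
    (t : ∀ c ∈ uIcc a k, c ≠ k → Sh Z lev α (f i) (l i) c) :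
    f i '' uIcc a k ⊆ U1 ∧ Conn H1 (f i '' uIcc a k) :=
  h.seg hi ha s.1 (fun c hc => (eq_or_ne c k).elim (fun e => Or.inr (e ▸ s.z))
    fun e => Or.inl (t c hc e)) fun c c1 c2 => (eq_or_ne c k).elim
      (fun e => Or.inr (t _ (by rw [mem_u]; omega) (by omega)))
      fun e => Or.inl (t c (by rw [mem_u]; omega) e)

omit h in
theorem Sw.head (s : Sw (Sh Z lev α (f i) (l i)) (l i) k) : ∃ j ≤ l i, lev (f i j) ≤ α ∧
    (∀ c ∈ uIcc j k, c ≠ k → Sh Z lev α (f i) (l i) c) ∧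
    ∀ c ∈ uIcc j k, c ≠ j → α < lev (f i c) := by
  classical
  have z := s.z
  obtain ⟨a0, -, k', a1, a2, j, a3, a4, a5⟩ := s
  have a6 : k ∉ uIcc j k' := fun c => a5 k c z
  have ex : ∃ d, ∃ c ∈ uIcc j k, lev (f i c) ≤ α ∧ max c k - min c k = d :=
    ⟨_, j, left_mem_uIcc, a4, rfl⟩
  obtain ⟨c, c1, c2, c3⟩ := Nat.find_spec ex
  have mn := fun x => Nat.find_min ex (m := x)
  rw [← c3] at mn
  rw [mem_u] at c1 a6
  refine ⟨c, by omega, c2, fun x hx y => ⟨j, a3, a4, fun w hw => a5 w ?_⟩, fun x hx y => ?_⟩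
  · rw [mem_u] at *; omega
  · rw [mem_u] at hx
    exact not_le.1 fun w => mn _ (by omega) ⟨x, by rw [mem_u]; omega, w, rfl⟩

theorem Cfg.nsw0 (hi : i < n) (c : k = 0 ∨ k = l i) : ¬ Sw (Sh Z lev α (f i) (l i)) (l i) k :=
  fun w => by
    have := h.top _ (h.zm.1 w.z).1
    have := h.zlev _ w.z
    have := h.gap
    rcases h.ends i hi k c with y | y <;> omega

theorem Cfg.run2 (hi : i < n) (hk : k ≤ l i) (a : St (fun k => ¬ Sh Z lev α (f i) (l i) k) k) :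
    ¬ En (fun k => ¬ Sh Z lev α (f i) (l i) k) (l i) k := by
  rintro ⟨-, b⟩
  obtain ⟨s, a⟩ := a
  have e := h.nsw0 (k := k) hi
  by_cases k0 : k = 0
  · by_cases kl : k = l i
    · exact (h.dg.dst i hi i hi).1 (by simp only [← kl, k0])
    · exact e (Or.inl k0) ⟨hk, s, k + 1, by omega, Or.inr rfl, not_not.1 (b.resolve_left kl)⟩
  have a := not_not.1 (a.resolve_left k0)
  have w : Sw (Sh Z lev α (f i) (l i)) (l i) k := ⟨hk, s, k - 1, by omega, Or.inl (by omega), a⟩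
  have kl : k ≠ l i := fun c => e (Or.inr c) w
  obtain ⟨j, j1, j2, j3⟩ := a
  obtain ⟨j', j4, j5, j6⟩ := not_not.1 (b.resolve_left kl)
  have n1 : k ∉ uIcc j (k - 1) := fun c => j3 k c w.z
  have n2 : k ∉ uIcc j' (k + 1) := fun c => j6 k c w.z
  rw [mem_u] at n1 n2
  have := h.wide
  obtain ⟨e, e1, e2, e3⟩ := (h.r1 i hi j k j' (by omega) (by omega) j4).2 (by omega) (by omega)
    (h.zlev _ w.z)
  have : f i e ∈ U1 := by
    rcases lt_trichotomy e k with y | rfl | y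
    · exact h.m1 ((h.path i hi).1 e (by omega)) (h.sh2 hi (by omega)
        ⟨j, j1, j2, fun c hc => j3 c (by rw [mem_u] at hc ⊢; omega)⟩)
    · exact (h.zm.1 w.z).1
    · exact h.m1 ((h.path i hi).1 e (by omega)) (h.sh2 hi (by omega)
        ⟨j', j4, j5, fun c hc => j6 c (by rw [mem_u] at hc ⊢; omega)⟩)
  have := h.top _ this
  omega

/-- exits of the switch points -/
theorem Cfg.exits [Finite V] : ∃ (R : ℕ → ℕ → Set V) (e : ℕ → ℕ → V),
    (∀ i < n, ∀ k, Sw (Sh Z lev α (f i) (l i)) (l i) k → R i k ⊆ U1 ∧ Conn H1 (R i k) ∧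
      f i k ∈ R i k ∧ e i k ∈ R i k ∧ e i k ∈ M ∧ e i k ∈ L' ∧
      ∀ i' < n, ∀ c ≤ l i', ¬ Sh Z lev α (f i') (l i') c → f i' c ∈ R i k → i' = i ∧ c = k) ∧
    ∀ i < n, ∀ k, Sw (Sh Z lev α (f i) (l i)) (l i) k → ∀ i' < n, ∀ k',
      Sw (Sh Z lev α (f i') (l i')) (l i') k' → ¬(i = i' ∧ k = k') → Disjoint (R i k) (R i' k') := by
  classical
  set I : Set (ℕ × ℕ) := {b | b.1 < n ∧ Sw (Sh Z lev α (f b.1) (l b.1)) (l b.1) b.2} with hI
  have oi : Injective fun b : I => f b.1.1 b.1.2 := fun b b' e => Subtype.ext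
    (Prod.ext_iff.2 (h.inj b.2.1 b.2.2.1 b'.2.1 b'.2.2.1 e))
  have : Finite I := Finite.of_injective _ oi
  have := Fintype.ofFinite I
  choose j j1 j2 j3 j4 using fun b : I => b.2.2.head
  have jk : ∀ b : I, j b ≠ b.1.2 := fun b e => b.2.2.2.1 (e ▸ h.sh_low b.2.1 (j1 b) (j2 b))
  set j' : I → ℕ := fun b => if j b < b.1.2 then j b + 1 else j b - 1 with hj'
  have jm : ∀ b c, c ∈ uIcc (j' b) b.1.2 ↔ c ∈ uIcc (j b) b.1.2 ∧ c ≠ j b := fun b c => by
    have := jk b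
    simp only [mem_u, hj']
    split_ifs <;> omega
  have jl : ∀ b : I, ∀ c ∈ uIcc (j b) b.1.2, c ≤ l b.1.1 := fun b c hc => by
    have := j1 b
    have := b.2.2.1
    rw [mem_u] at hc
    omega
  have hd := fun b : I => h.seg1 b.2.1 (jl b _ ((jm b _).1 left_mem_uIcc).1) b.2.2
    fun c hc => j3 b c ((jm b c).1 hc).1
  have di : ∀ b b' : I, b ≠ b' → b.1.1 = b'.1.1 →
      ∀ c ∈ uIcc (j' b) b.1.2, c ∉ uIcc (j' b') b'.1.2 := by
    intro b b' ne e c c1 c2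
    have n0 : b.1.2 ≠ b'.1.2 := fun d => ne (Subtype.ext (Prod.ext e d))
    have n1 : b'.1.2 ∉ uIcc (j b) b.1.2 := fun d => b'.2.2.2.1 (e ▸ j3 b _ d n0.symm)
    have n2 : b.1.2 ∉ uIcc (j b') b'.1.2 := fun d => b.2.2.2.1 (e ▸ j3 b' _ d n0)
    have n3 : j b ∈ uIcc (j b') b'.1.2 → j b = j b' := fun d =>
      by_contra fun x => (j4 b' _ d x).not_ge (e ▸ j2 b)
    have n4 : j b' ∈ uIcc (j b) b.1.2 → j b' = j b := fun d =>
      by_contra fun x => (j4 b _ d x).not_ge (e ▸ j2 b')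
    rw [jm] at c1 c2
    simp only [mem_u] at *
    omega
  have hit : ∀ b : I, ∀ t, α < t → t ≤ β → ∃ c ∈ uIcc (j' b) b.1.2, f b.1.1 c ∈ D t := by
    intro b t t1 t2
    have k1 := (conn_u (H := H) (f := f b.1.1) (a := j b) (b := b.1.2) fun c c1 c2 =>
      (h.path _ b.2.1).2.1 c (jl b (c + 1) (by rw [mem_u]; omega))).2 _
        ⟨_, left_mem_uIcc, rfl⟩ _ ⟨_, right_mem_uIcc, rfl⟩
    obtain ⟨x, y, -, ⟨c, c1, rfl⟩, x1, y1, e, -⟩ := link_exit (T := {v | lev v < t}) k1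
      ((j2 b).trans_lt t1) (fun d : lev _ < t => by
        have := h.zlev _ b.2.2.z
        have := h.gap
        omega)
    exact ⟨c, (jm b c).2 ⟨c1, fun d => y1 (d ▸ (j2 b).trans_lt t1)⟩,
      h.down _ _ e t t1 t2 x1 (not_lt.1 y1)⟩
  have card : Nat.card I ≤ g := by
    rcases isEmpty_or_nonempty I with c | ⟨⟨b0⟩⟩
    · simp
    have w := h.wide
    have ab : α < β := by
      have := h.r2 {(b0.1.1, min (j b0) b0.1.2, max (j b0) b0.1.2)} (fun t ht => by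
        rw [Finset.mem_singleton.1 ht]
        exact ⟨b0.2.1, max_le (j1 b0) b0.2.2.1, ⟨_, left_mem_uIcc, (j2 b0).trans (by omega)⟩,
          _, right_mem_uIcc, h.zlev _ b0.2.2.z⟩)
        fun t ht t' ht' ne => absurd ((Finset.mem_singleton.1 ht).trans
          (Finset.mem_singleton.1 ht').symm) ne
      rw [Finset.card_singleton] at this
      omega
    have fi : Injective fun b : I => (b.1.1, min (j' b) b.1.2, max (j' b) b.1.2) := by
      intro b b' e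
      simp only [Prod.mk.injEq] at e
      exact by_contra fun ne => di b b' ne e.1 _ right_mem_uIcc (by rw [mem_u]; omega)
    rw [Nat.card_eq_fintype_card, ← Finset.card_univ, ← Finset.card_image_of_injective _ fi]
    refine h.r2 _ (fun t ht => ?_) fun t ht t' ht' ne e => ?_
    · obtain ⟨b, -, rfl⟩ := Finset.mem_image.1 ht
      obtain ⟨c, c1, c2⟩ := hit b β ab le_rfl
      exact ⟨b.2.1, max_le (jl b _ ((jm b _).1 left_mem_uIcc).1) b.2.2.1,
        ⟨c, c1, ((h.ring β ab le_rfl).2.2.2.2.2 _ c2).le⟩, _, right_mem_uIcc, h.zlev _ b.2.2.z⟩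
    · obtain ⟨b, -, rfl⟩ := Finset.mem_image.1 ht
      obtain ⟨b', -, rfl⟩ := Finset.mem_image.1 ht'
      by_contra c
      refine di b b' (fun d => ne (d ▸ rfl)) e (max (min (j' b) b.1.2) (min (j' b') b'.1.2)) ?_ ?_ <;>
        rw [mem_u] <;> simp only at c <;> omega
  have rc : ∀ t, α < t → t ≤ β → Conn H1 (D t) := fun t t1 t2 =>
    ⟨(h.ring t t1 t2).2.1.1, fun u hu v hv => ((h.ring t t1 t2).2.1.2 u hu v hv).map id
      fun x hx y hy e => Link.single hx hy (h.adj1 e (Or.inl ((h.ring t t1 t2).1 hx).2))⟩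
  obtain ⟨R, r1, r2⟩ := mengerQS mengerS V I H1
    ((⋃ b : I, f b.1.1 '' uIcc (j' b) b.1.2) ∪ ⋃ t ∈ Ioc α β, D t) (X '' Ioc α β)
    (fun b => f b.1.1 b.1.2) (toFinite _) fun Y _ hc => by
      obtain ⟨b, hb⟩ : ∃ b : I, Disjoint (f b.1.1 '' uIcc (j' b) b.1.2) Y := by
        by_contra c
        push Not at c
        choose φ f1 f2 using fun b => not_disjoint_iff.1 (c b)
        refine hc.not_ge ?_
        rw [← ncard_univ]
        refine ncard_le_ncard_of_injOn φ (fun b _ => f2 b) fun b _ b' _ e => by_contra fun ne => ?_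
        obtain ⟨c, c1, c2⟩ := f1 b
        obtain ⟨c', c3, c4⟩ := f1 b'
        obtain ⟨e1, rfl⟩ := h.inj b.2.1 (jl b _ ((jm b _).1 c1).1) b'.2.1
          (jl b' _ ((jm b' _).1 c3).1) (c2.trans (e.trans c4.symm))
        exact di b b' ne e1 c c1 c3
      obtain ⟨t, ⟨t1, t2⟩, ht⟩ : ∃ t ∈ Ioc α β, Disjoint (D t) Y := by
        by_contra c
        push Not at c
        have : Ioc α β ⊆ lev '' Y := fun t ht => by
          obtain ⟨v, v1, v2⟩ := not_disjoint_iff.1 (c t ht)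
          exact ⟨v, v2, (h.ring t ht.1 ht.2).2.2.2.2.2 v v1⟩
        have a1 := (ncard_le_ncard this).trans (ncard_image_le (toFinite Y))
        rw [← Finset.coe_Ioc, ncard_coe_finset, Nat.card_Ioc] at a1
        have := h.wide
        omega
      obtain ⟨c, c1, c2⟩ := hit b t t1 t2
      refine ⟨f b.1.1 '' uIcc (j' b) b.1.2 ∪ D t, subset_sdiff.2 ⟨union_subset_union
        (subset_iUnion (fun b : I => f b.1.1 '' uIcc (j' b) b.1.2) b)
        (subset_biUnion_of_mem (u := D) (show t ∈ Ioc α β from ⟨t1, t2⟩)),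
        disjoint_union_left.2 ⟨hb, ht⟩⟩, conn_of_center (Or.inr c2) ?_,
        ⟨b, Or.inl ⟨_, right_mem_uIcc, rfl⟩⟩,
        X t, Or.inr (h.ring t t1 t2).2.2.1, t, ⟨t1, t2⟩, rfl⟩
      rintro v (hv | hv)
      · exact ((hd b).2.2 _ ⟨c, c1, rfl⟩ v hv).mono subset_union_left
      · exact ((rc t t1 t2).2 _ c2 v hv).mono subset_union_right
  choose e e1 e2 using fun b => (r1 b).2.2.2
  refine ⟨fun i k => if c : (i, k) ∈ I then R ⟨_, c⟩ else ∅,
    fun i k => if c : (i, k) ∈ I then e ⟨_, c⟩ else f 0 0, fun i hi k s => ?_,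
    fun i hi k s i' hi' k' s' ne => ?_⟩
  · have c : (i, k) ∈ I := ⟨hi, s⟩
    simp only [dif_pos c]
    obtain ⟨t, ⟨t1, t2⟩, t3⟩ := e2 ⟨_, c⟩
    refine ⟨(r1 _).1.trans (union_subset (iUnion_subset fun b => (hd b).1)
      (iUnion₂_subset fun t ht => (h.ring t ht.1 ht.2).1.trans sdiff_subset)), (r1 _).2.1,
      (r1 ⟨_, c⟩).2.2.1, e1 _, t3 ▸ (h.ring t t1 t2).2.2.2.1, t3 ▸ (h.ring t t1 t2).2.2.2.2.1,
      fun i' hi' c' c1 c2 c3 => ?_⟩
    rcases (r1 _).1 c3 with y | y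
    · obtain ⟨b, x, x1, x2⟩ := mem_iUnion.1 y
      obtain ⟨rfl, rfl⟩ := h.inj b.2.1 (jl b _ ((jm b _).1 x1).1) hi' c1 x2
      obtain rfl : x = b.1.2 := by_contra fun d => c2 (j3 b x ((jm b _).1 x1).1 d)
      obtain rfl : b = ⟨_, c⟩ := by_contra fun d => disjoint_left.1 (r2 d) (r1 b).2.2.1 c3
      exact ⟨rfl, rfl⟩
    · obtain ⟨t, ht, y⟩ := mem_iUnion₂.1 y
      have := (h.ring t ht.1 ht.2).2.2.2.2.2 _ y
      have := h.deep hi' c1 c2
      have := ht.2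
      omega
  · simp only [dif_pos (show (i, k) ∈ I from ⟨hi, s⟩), dif_pos (show (i', k') ∈ I from ⟨hi', s'⟩)]
    exact r2 fun d => ne (Prod.ext_iff.1 (congrArg Subtype.val d))

omit h in
theorem two_symm {P Q : Set V} (t : Two H U P Q) : Two H U Q P := ⟨t.sq, t.sp, t.cq, t.cp, t.dis.symm⟩

theorem Cfg.nx (hc : CrkS) {P Q : Set V} (t : Two H1 U1 P Q) {a b c d : V} (ha : a ∈ P)
    (hc' : c ∈ P) (hb : b ∈ Q) (hd : d ∈ Q) (a1 : a ∈ M ++ Z) (c1 : c ∈ M ++ Z) (b1 : b ∈ M ++ Z)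
    (d1 : d ∈ M ++ Z) :
    ¬ Xs (pos (M ++ Z) a) (pos (M ++ Z) c) (pos (M ++ Z) b) (pos (M ++ Z) d) := fun x => by
  have ne : ∀ u ∈ P, ∀ v ∈ Q, u ≠ v := fun u hu v hv e => disjoint_left.1 t.dis hu (e ▸ hv)
  obtain ⟨a', b', c', d', s, y | y⟩ := (hc V H1 U1 _ 0 0 h.nd).2.2.2.2.2.2.1 a a1 b b1 c c1 d d1 x
    (ne _ ha _ hb) (ne _ ha _ hd) (ne _ hc' _ hb) (ne _ hc' _ hd) P Q t ha hc' hb hd
  · exact h.flat ⟨a', b', c', d', s, P, Q, t, y⟩
  · exact h.flat ⟨a', b', c', d', s, Q, P, two_symm t, y⟩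

theorem Cfg.mz {m z : V} (hm : m ∈ M) (hz : z ∈ Z) : pos (M ++ Z) m < pos (M ++ Z) z :=
  pos_app h.nd (List.Sublist.refl _) hm hz

theorem Cfg.mm {a b : V} (ha : a ∈ M) (hb : b ∈ M) :
    pos (M ++ Z) a < pos (M ++ Z) b ↔ pos L a < pos L b :=
  (pos_iff h.nd (List.sublist_append_left M Z) ha hb).symm.trans (pos_iff h.ndL h.subM ha hb)

theorem Cfg.ord (hc : CrkS) {P Q : Set V} (t : Two H1 U1 P Q) {m z m' z' : V} (a1 : m ∈ P)
    (a2 : z ∈ P) (a3 : m' ∈ Q) (a4 : z' ∈ Q) (b1 : m ∈ M) (b2 : z ∈ Z) (b3 : m' ∈ M) (b4 : z' ∈ Z) :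
    pos L m < pos L m' ↔ pos (M ++ Z) z' < pos (M ++ Z) z := by
  have x := h.nx hc t a1 a2 a3 a4 (List.mem_append_left _ b1) (List.mem_append_right _ b2)
    (List.mem_append_left _ b3) (List.mem_append_right _ b4)
  have := h.mz b1 b2
  have := h.mz b1 b4
  have := h.mz b3 b2
  have := h.mz b3 b4
  have := pos_ne (List.mem_append_left Z b1) fun e : m = m' => disjoint_left.1 t.dis a1 (e ▸ a3)
  have := pos_ne (List.mem_append_right M b2) fun e : z = z' => disjoint_left.1 t.dis a2 (e ▸ a4)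
  rw [← h.mm b1 b3]
  simp only [Xs, fb.Btw] at x
  omega

theorem Cfg.endM (hi : i < n) (e : k = 0 ∨ k = l i) (s : Sh Z lev α (f i) (l i) k) : f i k ∈ M := by
  refine ((h.ends i hi k e).resolve_right fun y => ?_).2
  have := h.top _ (h.m1 ((h.path i hi).1 k (by omega)) (h.sh2 hi (by omega) s))
  omega

/-- the tail from a shallow end to the nearest deep index -/
theorem Cfg.tail (hi : i < n) {a : ℕ} (e : a = 0 ∨ a = l i) (hk : k ≤ l i) (ne : a ≠ k)
    (s : ¬ Sh Z lev α (f i) (l i) k) (t : ∀ c ∈ uIcc a k, c ≠ k → Sh Z lev α (f i) (l i) c) :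
    Sw (Sh Z lev α (f i) (l i)) (l i) k ∧ f i a ∈ M ∧ f i '' uIcc a k ⊆ U1 ∧
      Conn H1 (f i '' uIcc a k) := by
  have w : Sw (Sh Z lev α (f i) (l i)) (l i) k := by
    rcases lt_or_gt_of_ne ne with c | c
    · exact ⟨hk, s, k - 1, by omega, by omega, t _ (by rw [mem_u]; omega) (by omega)⟩
    · exact ⟨hk, s, k + 1, by omega, by omega, t _ (by rw [mem_u]; omega) (by omega)⟩
  exact ⟨w, h.endM hi e (t a left_mem_uIcc ne), h.seg1 hi (by omega) w t⟩

omit h in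
theorem fs_la (P : ℕ → Prop) (l : ℕ) (e : ∃ k ≤ l, P k) : ∃ a b, P a ∧ (∀ k < a, ¬ P k) ∧ P b ∧
    b ≤ l ∧ ∀ k, b < k → k ≤ l → ¬ P k := by
  classical
  obtain ⟨k, a, b⟩ := e
  exact ⟨Nat.find ⟨k, b⟩, Nat.findGreatest P l, Nat.find_spec (⟨k, b⟩ : ∃ k, P k),
    fun _ => Nat.find_min _, Nat.findGreatest_spec a b, Nat.findGreatest_le l,
    fun _ => Nat.findGreatest_is_greatest⟩

theorem Cfg.two {a b a' b' i' : ℕ} (hi : i < n) (hi' : i' < n) (ha : a ≤ l i) (hb : b ≤ l i)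
    (ha' : a' ≤ l i') (hb' : b' ≤ l i')
    (s : f i '' uIcc a b ⊆ U1 ∧ Conn H1 (f i '' uIcc a b))
    (s' : f i' '' uIcc a' b' ⊆ U1 ∧ Conn H1 (f i' '' uIcc a' b'))
    (d : i = i' → max a b < min a' b' ∨ max a' b' < min a b) :
    Two H1 U1 (f i '' uIcc a b) (f i' '' uIcc a' b') := by
  refine ⟨s.1, s'.1, s.2, s'.2, disjoint_left.2 ?_⟩
  rintro _ ⟨c, c1, rfl⟩ ⟨c', c2, e⟩
  rw [mem_u] at c1 c2
  obtain ⟨e1, rfl⟩ := h.inj hi' (by omega) hi (by omega) e
  have := d e1.symm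
  omega

theorem Cfg.some (hc : CrkS) (hi : i < n) : ∃ k ≤ l i, ¬ Sh Z lev α (f i) (l i) k := by
  generalize hd : max (pos L (f i 0)) (pos L (f i (l i))) -
    min (pos L (f i 0)) (pos L (f i (l i))) = d
  induction d using Nat.strong_induction_on generalizing i with
  | _ d ih =>
  by_contra c
  push Not at c
  have s := h.seg hi (Nat.zero_le _) le_rfl
    (fun x hx => Or.inl (c x (by rw [mem_u] at hx; omega))) fun x _ _ => Or.inl (c x (by omega))
  have m0 := h.endM hi (Or.inl rfl) (c _ (Nat.zero_le _))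
  have m1 := h.endM hi (Or.inr rfl) (c _ le_rfl)
  obtain ⟨j, hj, a, b, ab, x⟩ : ∃ j < n, ∃ a b, ((a = 0 ∧ b = l j) ∨ (a = l j ∧ b = 0)) ∧
      Btw (pos L (f i 0)) (pos L (f i (l i))) (pos L (f j a)) := by
    obtain ⟨j, hj, x | x⟩ := (h.dg.crook i hi).1
    exacts [⟨j, hj, _, _, Or.inl ⟨rfl, rfl⟩, x⟩, ⟨j, hj, _, _, Or.inr ⟨rfl, rfl⟩, x⟩]
  have ij : i ≠ j := by
    rintro rfl
    rcases ab with ⟨rfl, -⟩ | ⟨rfl, -⟩ <;> simp only [fb.Btw] at x <;> omega
  obtain ⟨a1, a2⟩ := (h.ends j hj a (by omega)).resolve_right fun y => by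
    rcases y.2.2 with y | y <;> have := y _ m0 <;> have := y _ m1 <;> simp only [fb.Btw] at x <;> omega
  have sa := h.sh_low hj (by omega : a ≤ l j) (by omega)
  have x' : Btw (pos (M ++ Z) (f i 0)) (pos (M ++ Z) (f i (l i))) (pos (M ++ Z) (f j a)) := by
    simpa only [fb.Btw, h.mm m0 a2, h.mm a2 m0, h.mm m1 a2, h.mm a2 m1] using x
  have key : ∀ k ≤ l j, f j k ∈ M ++ Z → f j '' uIcc a k ⊆ U1 ∧ Conn H1 (f j '' uIcc a k) →
      Btw (pos (M ++ Z) (f i 0)) (pos (M ++ Z) (f i (l i))) (pos (M ++ Z) (f j k)) :=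
    fun k hk k1 k2 => by_contra fun y => h.nx hc (h.two hi hj (Nat.zero_le _) le_rfl (by omega) hk
      s k2 fun e => absurd e ij) ⟨_, left_mem_uIcc, rfl⟩ ⟨_, right_mem_uIcc, rfl⟩
      ⟨_, left_mem_uIcc, rfl⟩ ⟨_, right_mem_uIcc, rfl⟩ (List.mem_append_left _ m0)
      (List.mem_append_left _ m1) (List.mem_append_left _ a2) k1 (Or.inl ⟨x', y⟩)
  by_cases w : ∃ k ≤ l j, ¬ Sh Z lev α (f j) (l j) k
  · obtain ⟨k1, k2, w1, w2, w3, w4, w5⟩ := fs_la _ _ w
    obtain ⟨k, hk, y1, y2⟩ : ∃ k ≤ l j, ¬ Sh Z lev α (f j) (l j) k ∧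
        ∀ c ∈ uIcc a k, c ≠ k → Sh Z lev α (f j) (l j) c := by
      have : k1 ≤ k2 := not_lt.1 fun y => w2 _ y w3
      rcases ab with ⟨rfl, -⟩ | ⟨rfl, -⟩
      · exact ⟨k1, by omega, w1, fun c y z => not_not.1 (w2 c (by rw [mem_u] at y; omega))⟩
      · exact ⟨k2, w4, w3, fun c y z => by
          rw [mem_u] at y
          exact not_not.1 (w5 c (by omega) (by omega))⟩
    obtain ⟨t1, -, t2⟩ := h.tail hj (by omega) hk (fun e => y1 (e ▸ sa)) y1 y2
    have := key k hk (List.mem_append_right _ t1.z) t2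
    have := h.mz m0 t1.z
    have := h.mz m1 t1.z
    simp only [fb.Btw] at *
    omega
  have w' : ∀ k ≤ l j, Sh Z lev α (f j) (l j) k := fun k hk => not_not.1 fun y => w ⟨k, hk, y⟩
  have b2 := h.endM hj (by omega : b = 0 ∨ b = l j) (w' _ (by omega))
  have y := key b (by omega) (List.mem_append_left _ b2) (h.seg hj (by omega) (by omega)
    (fun x hx => Or.inl (w' x (by rw [mem_u] at hx; omega))) fun x _ _ => Or.inl (w' x (by omega)))
  simp only [fb.Btw, h.mm m0 b2, h.mm b2 m0, h.mm m1 b2, h.mm b2 m1] at x y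
  refine w (ih _ ?_ hj rfl)
  rcases ab with ⟨rfl, rfl⟩ | ⟨rfl, rfl⟩ <;> omega

theorem Cfg.crk [Finite V] (hc : CrkS) (hr : RunsS) : Crk H U L' p := by
  classical
  obtain ⟨R, e, r1, r2⟩ := h.exits
  set sh : ℕ → ℕ → Prop := fun i => Sh Z lev α (f i) (l i) with hsh
  set dp : ℕ → ℕ → Prop := fun i k => ¬ sh i k with hdp
  set R' : ℕ → ℕ → Set V := fun i k => if Sw (sh i) (l i) k then R i k else {f i k} with hR'
  set e' : ℕ → ℕ → V := fun i k => if Sw (sh i) (l i) k then e i k else f i k with he'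
  have u1 : U1 ⊆ U := h.split.un ▸ subset_union_left
  have le1 : H1 ≤ H := h.split.sup ▸ le_sup_left
  have nsw : ∀ i < n, ∀ k ≤ l i, St (dp i) k ∨ En (dp i) (l i) k → ¬ Sw (sh i) (l i) k →
      f i k ∈ L' ∧ ((∀ m ∈ M, pos L m < pos L (f i k)) ∨ ∀ m ∈ M, pos L (f i k) < pos L m) := by
    intro i hi k hk a b
    have d : dp i k := a.elim And.left And.left
    refine ((h.ends i hi k ?_).resolve_left fun y => d (h.sh_low hi hk (by omega))).2
    by_contra c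
    rcases a with ⟨-, a⟩ | ⟨-, a⟩
    · exact b ⟨hk, d, k - 1, by omega, by omega, not_not.1 (a.resolve_left (by omega))⟩
    · exact b ⟨hk, d, k + 1, by omega, by omega, not_not.1 (a.resolve_left (by omega))⟩
  have q1 : ∀ i < n, ∀ k ≤ l i, St (dp i) k ∨ En (dp i) (l i) k → R' i k ⊆ U ∧ Conn H (R' i k) ∧
      f i k ∈ R' i k ∧ e' i k ∈ R' i k ∧ e' i k ∈ L' ∧
      ∀ i' < n, ∀ c ≤ l i', dp i' c → f i' c ∈ R' i k → i' = i ∧ c = k := by
    intro i hi k hk a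
    by_cases b : Sw (sh i) (l i) k
    · simp only [hR', he', if_pos b]
      obtain ⟨b1, b2, b3, b4, -, b5, b6⟩ := r1 i hi k b
      exact ⟨b1.trans u1, ⟨b2.1, fun u hu v hv => (b2.2 u hu v hv).map id
        fun x hx y hy z => Link.single hx hy (le1 z)⟩, b3, b4, b5, b6⟩
    · simp only [hR', he', if_neg b]
      exact ⟨singleton_subset_iff.2 ((h.path i hi).1 k hk), conn_singleton _ _, rfl, rfl,
        (nsw i hi k hk a b).1, fun i' hi' c c1 _ c2 => h.inj hi' c1 hi hk c2⟩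
  have q2 : ∀ i < n, ∀ k ≤ l i, St (dp i) k ∨ En (dp i) (l i) k → ∀ i' < n, ∀ k' ≤ l i',
      St (dp i') k' ∨ En (dp i') (l i') k' → ¬(i = i' ∧ k = k') → Disjoint (R' i k) (R' i' k') := by
    intro i hi k hk a i' hi' k' hk' a' ne
    by_cases b : Sw (sh i) (l i) k
    · by_cases b' : Sw (sh i') (l i') k'
      · simp only [hR', if_pos b, if_pos b']
        exact r2 i hi k b i' hi' k' b' ne
      · rw [show R' i' k' = {f i' k'} from if_neg b', disjoint_singleton_right]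
        exact fun c => ne (((q1 i hi k hk a).2.2.2.2.2 i' hi' k' hk'
          (a'.elim And.left And.left) c).imp Eq.symm Eq.symm)
    · rw [show R' i k = {f i k} from if_neg b, disjoint_singleton_left]
      exact fun c => ne ((q1 i' hi' k' hk' a').2.2.2.2.2 i hi k hk (a.elim And.left And.left) c)
  have q3 : ∀ i < n, ∀ k, Sw (sh i) (l i) k → ∀ i' < n, ∀ k', Sw (sh i') (l i') k' →
      ¬(i = i' ∧ k = k') → (pos L' (e' i k) < pos L' (e' i' k') ↔
        pos (M ++ Z) (f i' k') < pos (M ++ Z) (f i k)) := by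
    intro i hi k b i' hi' k' b' ne
    obtain ⟨b1, b2, b3, b4, b5, b6, -⟩ := r1 i hi k b
    obtain ⟨c1, c2, c3, c4, c5, c6, -⟩ := r1 i' hi' k' b'
    simp only [he', if_pos b, if_pos b']
    exact (pos_iff h.ndL h.subL b6 c6).trans
      (h.ord hc ⟨b1, c1, b2, c2, r2 i hi k b i' hi' k' b' ne⟩ b4 b3 c4 c3 b5 b.z c5 b'.z)
  choose! fs la s1 s2 s3 s4 s5 using fun i (hi : i < n) => fs_la (dp i) (l i) (h.some hc hi)
  have st : ∀ i < n, St (dp i) (fs i) := fun i hi =>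
    ⟨s1 i hi, or_iff_not_imp_left.2 fun c => s2 i hi _ (by omega)⟩
  have en : ∀ i < n, En (dp i) (l i) (la i) := fun i hi =>
    ⟨s3 i hi, or_iff_not_imp_left.2 fun c => s5 i hi _ (by omega) (by have := s4 i hi; omega)⟩
  have fl : ∀ i < n, fs i < la i := fun i hi =>
    lt_of_le_of_ne (not_lt.1 fun c => s2 i hi _ c (s3 i hi))
      fun c => h.run2 hi (s4 i hi) (c ▸ st i hi) (en i hi)
  have q4 : ∀ i < n, ∀ a k, (a = 0 ∧ k = fs i) ∨ (a = l i ∧ k = la i) →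
      (e' i k = f i a ∧ f i a ∈ L' ∧
        ((∀ m ∈ M, pos L m < pos L (f i a)) ∨ ∀ m ∈ M, pos L (f i a) < pos L m)) ∨
      (Sw (sh i) (l i) k ∧ f i a ∈ M ∧ f i '' uIcc a k ⊆ U1 ∧ Conn H1 (f i '' uIcc a k)) := by
    intro i hi a k c
    have := fl i hi
    have := s4 i hi
    have d : St (dp i) k ∨ En (dp i) (l i) k := by
      rcases c with ⟨-, rfl⟩ | ⟨-, rfl⟩
      exacts [Or.inl (st i hi), Or.inr (en i hi)]
    by_cases x : a = k
    · subst x
      have y := h.nsw0 (k := a) hi (by omega)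
      exact Or.inl ⟨if_neg y, nsw i hi a (by omega) d y⟩
    · refine Or.inr (h.tail hi (by omega) (by omega) x (d.elim And.left And.left) fun y z w => ?_)
      rw [mem_u] at z
      rcases c with ⟨rfl, rfl⟩ | ⟨rfl, rfl⟩
      · exact not_not.1 (s2 i hi y (by omega))
      · exact not_not.1 (s5 i hi y (by omega) (by omega))
  have qm : ∀ i < n, ∀ k, Sw (sh i) (l i) k → e' i k ∈ M ∧ e' i k ∈ L' := fun i hi k b => by
    simp only [he', if_pos b]
    exact ⟨(r1 i hi k b).2.2.2.2.1, (r1 i hi k b).2.2.2.2.2.1⟩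
  have q5 : ∀ i < n, ∀ a k, (a = 0 ∧ k = fs i) ∨ (a = l i ∧ k = la i) → ∀ i' < n, ∀ a' k',
      (a' = 0 ∧ k' = fs i') ∨ (a' = l i' ∧ k' = la i') → ¬(i = i' ∧ k = k') →
      (pos L (f i a) < pos L (f i' a') ↔ pos L' (e' i k) < pos L' (e' i' k')) := by
    intro i hi a k c i' hi' a' k' c' ne
    rcases q4 i hi a k c with ⟨x1, x2, x3⟩ | ⟨x1, x2, x3⟩ <;>
      rcases q4 i' hi' a' k' c' with ⟨y1, y2, y3⟩ | ⟨y1, y2, y3⟩
    · rw [x1, y1, pos_iff h.ndL h.subL x2 y2]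
    · rw [x1, pos_iff h.ndL h.subL x2 (qm _ hi' _ y1).2]
      rcases x3 with x | x <;> have := x _ y2 <;> have := x _ (qm _ hi' _ y1).1 <;> omega
    · rw [y1, pos_iff h.ndL h.subL (qm _ hi _ x1).2 y2]
      rcases y3 with x | x <;> have := x _ x2 <;> have := x _ (qm _ hi _ x1).1 <;> omega
    · have := fl i hi
      have := s4 i hi
      have := fl i' hi'
      have := s4 i' hi'
      rw [q3 i hi k x1 i' hi' k' y1 ne]
      exact h.ord hc (h.two hi hi' (by omega) x1.1 (by omega) y1.1 x3 y3 fun d => by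
        subst d; omega) ⟨_, left_mem_uIcc, rfl⟩ ⟨_, right_mem_uIcc, rfl⟩ ⟨_, left_mem_uIcc, rfl⟩
        ⟨_, right_mem_uIcc, rfl⟩ x2 x1.z y2 y1.z
  have q6 : ∀ i < n, ∀ k k', Cap (dp i) (l i) k k' → Sw (sh i) (l i) k ∧ Sw (sh i) (l i) k' ∧
      ¬ St (dp i) k ∧ ¬ En (dp i) (l i) k' ∧ f i '' uIcc k k' ⊆ U1 ∧
      Conn H1 (f i '' uIcc k k') := by
    rintro i hi k k' ⟨c1, c2, c3, c4, c5⟩
    have w : Sw (sh i) (l i) k :=
      ⟨by omega, c3, k + 1, by omega, by omega, not_not.1 (c5 _ (by omega) c1)⟩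
    have w' : Sw (sh i) (l i) k' :=
      ⟨c2, c4, k' - 1, by omega, by omega, not_not.1 (c5 _ (by omega) (by omega))⟩
    refine ⟨w, w', fun x => h.run2 hi (by omega) x ⟨c3, Or.inr (c5 _ (by omega) c1)⟩,
      h.run2 hi c2 ⟨c4, Or.inr (c5 _ (by omega) (by omega))⟩,
      h.seg hi (by omega) c2 (fun c x => ?_) fun c x y => ?_⟩
    · rw [mem_u] at x
      rcases (by omega : c = k ∨ c = k' ∨ (k < c ∧ c < k')) with rfl | rfl | y
      exacts [Or.inr w.z, Or.inr w'.z, Or.inl (not_not.1 (c5 c y.1 y.2))]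
    · rcases (by omega : c = k ∨ (k < c ∧ c < k')) with rfl | z
      exacts [Or.inr (not_not.1 (c5 _ (by omega) c1)), Or.inl (not_not.1 (c5 c z.1 z.2))]
  have q7 : ∀ i < n, ∀ k k', Cap (dp i) (l i) k k' → ∀ j < n, ∀ m, m = fs j ∨ m = la j →
      ¬ fb.Btw (pos L' (e' i k)) (pos L' (e' i k')) (pos L' (e' j m)) := by
    intro i hi k k' c j hj m hm
    obtain ⟨w, w', n1, n2, sg⟩ := q6 i hi k k' c
    obtain ⟨a, ha⟩ : ∃ a, (a = 0 ∧ m = fs j) ∨ (a = l j ∧ m = la j) :=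
      hm.elim (fun x => ⟨_, Or.inl ⟨rfl, x⟩⟩) fun x => ⟨_, Or.inr ⟨rfl, x⟩⟩
    rcases q4 j hj a m ha with ⟨y1, y2, y3⟩ | ⟨y1, y2, y3⟩
    · simp only [fb.Btw, y1, pos_iff h.ndL h.subL y2 (qm _ hi _ w).2,
        pos_iff h.ndL h.subL y2 (qm _ hi _ w').2, pos_iff h.ndL h.subL (qm _ hi _ w).2 y2,
        pos_iff h.ndL h.subL (qm _ hi _ w').2 y2]
      rcases y3 with x | x <;> have := x _ (qm _ hi _ w).1 <;> have := x _ (qm _ hi _ w').1 <;> omega
    have d : i = j → m < k ∧ a ≤ m ∨ k' < m ∧ m ≤ a := by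
      rintro rfl
      have := s4 i hi
      rcases ha with ⟨rfl, rfl⟩ | ⟨rfl, rfl⟩
      · exact Or.inl ⟨lt_of_le_of_ne (not_lt.1 fun x => s2 i hi _ x c.2.2.1)
          fun x => n1 (x ▸ st i hi), Nat.zero_le _⟩
      · exact Or.inr ⟨lt_of_le_of_ne (not_lt.1 fun x => s5 i hi _ x c.2.1 c.2.2.2.1)
          fun x => n2 (x ▸ en i hi), this⟩
    have := c.1
    have x := h.nx hc (h.two hi hj w.1 w'.1 (by omega) y1.1 sg y3 fun x => by have := d x; omega)
      ⟨_, left_mem_uIcc, rfl⟩ ⟨_, right_mem_uIcc, rfl⟩ ⟨_, left_mem_uIcc, rfl⟩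
      ⟨_, right_mem_uIcc, rfl⟩ (List.mem_append_right _ w.z) (List.mem_append_right _ w'.z)
      (List.mem_append_left _ y2) (List.mem_append_right _ y1.z)
    have := h.mz y2 w.z
    have := h.mz y2 w'.z
    simp only [Xs, fb.Btw, q3 i hi k w j hj m y1 fun x => by have := d x.1; omega,
      q3 i hi k' w' j hj m y1 fun x => by have := d x.1; omega,
      q3 j hj m y1 i hi k w fun x => by have := d x.1.symm; omega,
      q3 j hj m y1 i hi k' w' fun x => by have := d x.1.symm; omega] at x ⊢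
    omega
  obtain ⟨m, r, s, t, z1, z2⟩ := hr n p _ _ l fs la dp (fun i k => pos L' (e' i k)) h.dg
    (fun i hi => ⟨s1 i hi, s2 i hi, s3 i hi, s4 i hi, s5 i hi⟩) (fun i hi k hk => h.run2 hi hk)
    (fun i hi k hk i' hi' k' hk' a a' x => by_contra fun ne => pos_ne (q1 i hi k hk a).2.2.2.2.1
      (fun y => disjoint_left.1 (q2 i hi k hk a i' hi' k' hk' a' ne) (q1 i hi k hk a).2.2.2.1
        (y ▸ (q1 i' hi' k' hk' a').2.2.2.1)) x)
    (fun ε inj lt => by
      intro o w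
      have ed : ∀ t, ((if (ε t).2 then l (ε t).1 else 0) = 0 ∧
          (if (ε t).2 then la (ε t).1 else fs (ε t).1) = fs (ε t).1) ∨
          ((if (ε t).2 then l (ε t).1 else 0) = l (ε t).1 ∧
          (if (ε t).2 then la (ε t).1 else fs (ε t).1) = la (ε t).1) := fun t => by
        cases (ε t).2 <;> simp
      have eo : ∀ t, o t = pos L (f (ε t).1 (if (ε t).2 then l (ε t).1 else 0)) := fun t => by
        simp only [o]
        cases (ε t).2 <;> simp
      have key : ∀ a b, a ≠ b → (o a < o b ↔ w a < w b) := fun a b ne => by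
        rw [eo, eo]
        refine q5 _ (lt a) _ _ (ed a) _ (lt b) _ _ (ed b) fun x => ne (inj (Prod.ext x.1 ?_))
        have y := x.2
        have := fl _ (lt b)
        rw [x.1] at y
        revert y
        cases (ε a).2 <;> cases (ε b).2 <;> simp <;> omega
      simp only [Xs, fb.Btw, key 0 2 (by decide), key 2 0 (by decide), key 1 2 (by decide),
        key 2 1 (by decide), key 0 3 (by decide), key 3 0 (by decide), key 1 3 (by decide),
        key 3 1 (by decide), imp_self])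
    fun i hi k k' c => ⟨fun j hj a a' c' ne => by
      obtain ⟨w, w', n1, n2, sg⟩ := q6 i hi k k' c
      obtain ⟨v, v', n3, n4, sg'⟩ := q6 j hj a a' c'
      have := c.1
      have := c'.1
      have d : i = j → k' < a ∨ a' < k := by
        rintro rfl
        rcases lt_or_gt_of_ne (fun x : k = a => ne (x ▸ rfl)) with x | x
        · exact Or.inl (lt_of_le_of_ne (not_lt.1 fun y => c.2.2.2.2 a x y c'.2.2.1) fun y => n3
            (y ▸ ⟨c.2.2.2.1, Or.inr (c.2.2.2.2 _ (by omega) (by omega))⟩))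
        · exact Or.inr (lt_of_le_of_ne (not_lt.1 fun y => c'.2.2.2.2 k x y c.2.2.1) fun y => n1
            (y ▸ ⟨c'.2.2.2.1, Or.inr (c'.2.2.2.2 _ (by omega) (by omega))⟩))
      have x := h.nx hc (h.two hi hj w.1 w'.1 v.1 v'.1 sg sg' fun x => by have := d x; omega)
        ⟨_, left_mem_uIcc, rfl⟩ ⟨_, right_mem_uIcc, rfl⟩ ⟨_, left_mem_uIcc, rfl⟩
        ⟨_, right_mem_uIcc, rfl⟩ (List.mem_append_right _ w.z) (List.mem_append_right _ w'.z)
        (List.mem_append_right _ v.z) (List.mem_append_right _ v'.z)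
      simp only [Xs, fb.Btw, q3 i hi k w j hj a v fun x => by have := d x.1; omega,
        q3 i hi k' w' j hj a v fun x => by have := d x.1; omega,
        q3 j hj a v i hi k w fun x => by have := d x.1.symm; omega,
        q3 j hj a v i hi k' w' fun x => by have := d x.1.symm; omega,
        q3 i hi k w j hj a' v' fun x => by have := d x.1; omega,
        q3 i hi k' w' j hj a' v' fun x => by have := d x.1; omega,
        q3 j hj a' v' i hi k w fun x => by have := d x.1.symm; omega,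
        q3 j hj a' v' i hi k' w' fun x => by have := d x.1.symm; omega] at x ⊢
      omega,
    fun j hj j' hj' a a' b b' x => x.elim (fun x => q7 i hi k k' c j hj a b x.1)
      fun x => q7 i hi k k' c j' hj' a' b' x.1⟩
  have ea : ∀ j < m, ∀ k, k = s j ∨ k = t j → k ≤ l (r j) ∧
      (St (dp (r j)) k ∨ En (dp (r j)) (l (r j)) k) := fun j hj k c => by
    obtain ⟨-, a, b, d, e, -⟩ := z1 j hj
    rcases c with rfl | rfl
    exacts [⟨by omega, Or.inl d⟩, ⟨b, Or.inr e⟩]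
  have eb : ∀ j < m, ∀ j' < m, j ≠ j' → ∀ k, k = s j ∨ k = t j → ∀ k', k' = s j' ∨ k' = t j' →
      ¬(r j = r j' ∧ k = k') := by
    rintro j hj j' hj' ne k c k' c' ⟨x, y⟩
    have a := z2.dst j hj j' hj'
    have b := (z2.dst j' hj' j hj).1
    rcases c with rfl | rfl <;> rcases c' with rfl | rfl
    exacts [(a.2 ne).1 (by simp only [x, y]), a.1 (by simp only [x, y]), b (by simp only [x, y]),
      (a.2 ne).2 (by simp only [x, y])]
  have ec : ∀ j < m, ∀ k, s j ≤ k → k ≤ t j → St (dp (r j)) k ∨ En (dp (r j)) (l (r j)) k →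
      k = s j ∨ k = t j := fun j hj k a b c => by
    obtain ⟨-, -, d, -, -, e⟩ := z1 j hj
    by_contra x
    rcases c with ⟨-, c | c⟩ | ⟨-, c | c⟩
    · omega
    · exact c (e _ (by omega) (by omega))
    · omega
    · exact c (e _ (by omega) (by omega))
  have ed : ∀ j < m, ∀ j' < m, j ≠ j' → ∀ k', k' = s j' ∨ k' = t j' →
      Disjoint (f (r j) '' Icc (s j) (t j)) (R' (r j') k') := by
    intro j hj j' hj' ne k' c'
    rw [disjoint_left]
    rintro _ ⟨c, ⟨c1, c2⟩, rfl⟩ x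
    obtain ⟨a, b⟩ := ea j' hj' k' c'
    obtain ⟨y, rfl⟩ := (q1 _ (z1 j' hj').1 k' a b).2.2.2.2.2 _ (z1 j hj).1 c
      (c2.trans (z1 j hj).2.2.1) ((z1 j hj).2.2.2.2.2 c c1 c2) x
    exact eb j hj j' hj' ne c (ec j hj c c1 c2 (y ▸ b)) c c' ⟨y, rfl⟩
  refine ⟨m, fun j => e' (r j) (s j), fun j => e' (r j) (t j),
    fun j => f (r j) '' Icc (s j) (t j) ∪ (R' (r j) (s j) ∪ R' (r j) (t j)),
    ⟨fun j hj => ?_, fun j hj j' hj' ne => ?_⟩, fun j hj => ⟨?_, ?_⟩, z2⟩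
  · obtain ⟨a1, a2, a3, -⟩ := z1 j hj
    obtain ⟨b1, b2, b3, b4, -⟩ := q1 _ a1 _ (ea j hj _ (Or.inl rfl)).1 (ea j hj _ (Or.inl rfl)).2
    obtain ⟨c1, c2, c3, c4, -⟩ := q1 _ a1 _ (ea j hj _ (Or.inr rfl)).1 (ea j hj _ (Or.inr rfl)).2
    have d := conn_seg (G := H) (f := f (r j)) a2.le fun c _ x => (h.path _ a1).2.1 c (by omega)
    have d1 : f (r j) (s j) ∈ f (r j) '' Icc (s j) (t j) := ⟨_, ⟨le_rfl, a2.le⟩, rfl⟩
    refine ⟨union_subset (image_subset_iff.2 fun c x => (h.path _ a1).1 c (x.2.trans a3))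
      (union_subset b1 c1), conn_of_center (Or.inl d1) ?_, Or.inr (Or.inl b4), Or.inr (Or.inr c4)⟩
    rintro v (x | x | x)
    · exact (d.2 _ d1 v x).mono subset_union_left
    · exact (b2.2 _ b3 v x).mono fun y z => Or.inr (Or.inl z)
    · exact ((d.2 _ d1 _ ⟨_, ⟨a2.le, le_rfl⟩, rfl⟩).mono subset_union_left).trans
        ((c2.2 _ c3 v x).mono fun y z => Or.inr (Or.inr z))
  · have ee := fun k c k' c' => q2 _ (z1 j hj).1 k (ea j hj k c).1 (ea j hj k c).2 _ (z1 j' hj').1 k'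
      (ea j' hj' k' c').1 (ea j' hj' k' c').2 (eb j hj j' hj' ne k c k' c')
    simp only [disjoint_union_left, disjoint_union_right]
    refine ⟨⟨disjoint_left.2 ?_, (ed j' hj' j hj ne.symm _ (Or.inl rfl)).symm,
      (ed j' hj' j hj ne.symm _ (Or.inr rfl)).symm⟩,
      ⟨ed j hj j' hj' ne _ (Or.inl rfl), ee _ (Or.inl rfl) _ (Or.inl rfl),
        ee _ (Or.inr rfl) _ (Or.inl rfl)⟩, ed j hj j' hj' ne _ (Or.inr rfl),
      ee _ (Or.inl rfl) _ (Or.inr rfl), ee _ (Or.inr rfl) _ (Or.inr rfl)⟩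
    rintro _ ⟨c, ⟨c1, c2⟩, rfl⟩ ⟨c', ⟨c3, c4⟩, x⟩
    obtain ⟨y, rfl⟩ := h.inj (z1 j' hj').1 (c4.trans (z1 j' hj').2.2.1) (z1 j hj).1
      (c2.trans (z1 j hj).2.2.1) x
    rcases le_total (s j) (s j') with d | d
    · exact eb j hj j' hj' ne _ (ec j hj _ d (by omega) (y ▸ (ea j' hj' _ (Or.inl rfl)).2)) _
        (Or.inl rfl) ⟨y.symm, rfl⟩
    · exact eb j' hj' j hj ne.symm _ (ec j' hj' _ d (by omega) (y ▸ (ea j hj _ (Or.inl rfl)).2)) _
        (Or.inl rfl) ⟨y, rfl⟩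
  · exact (q1 _ (z1 j hj).1 _ (ea j hj _ (Or.inl rfl)).1 (ea j hj _ (Or.inl rfl)).2).2.2.2.2.1
  · exact (q1 _ (z1 j hj).1 _ (ea j hj _ (Or.inr rfl)).1 (ea j hj _ (Or.inr rfl)).2).2.2.2.2.1

end Slift

end Pool.Agent.MP_9d78a0_co.st

end MrgPart0

-- ======== part 1: formerly Pool.Agent.MP_9d78a0_co.st.Slift
section MrgPart1

/-! Row SLIFT: a crooked linkage is moved off the letters behind a flat strip. -/

set_option autoImplicit false

namespace Pool.Agent.MP_9d78a0_co.st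

open Set Function fb

namespace Slift

variable {V : Type} {H : SimpleGraph V}

theorem lk_link {T A : Set V} {v w : V} (h : v ∈ lk H T A) (k : Link H T v w) : w ∈ lk H T A := by
  obtain ⟨h1, a, h2, h3, h4⟩ := h
  exact ⟨k.mem h1, a, h2, h3, h4.trans k⟩

theorem lk_self {T A : Set V} {v : V} (h : v ∈ A) (k : v ∈ T) : v ∈ lk H T A :=
  ⟨k, v, h, k, Link.refl _ _ _⟩

theorem lk_conn {T A P : Set V} {v : V} (c : Conn H P) (s : P ⊆ T) (hv : v ∈ P)
    (h : v ∈ lk H T A) : P ⊆ lk H T A := fun w hw => lk_link h ((c.2 v hv w hw).mono s)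

theorem lk_sub {T T' A A' : Set V} (h : lk H T A ⊆ T') (k : A ⊆ A') : lk H T A ⊆ lk H T' A' := by
  rintro v ⟨-, a, h2, h3, h4⟩
  induction h4 with
  | refl => exact lk_self (k h2) (h (lk_self h2 h3))
  | tail h5 h6 ih => exact lk_link ih (Link.single ih.1 (h ⟨h6.2.1, a, h2, h3, h5.tail h6⟩) h6.2.2)

theorem exG (C : ℕ → Prop) (m : ℕ) (h : ∀ l, l + 1 < m → C (l + 1) → C l) :
    ∃ G, ∀ l < m, C l ↔ l < G := by
  classical
  have ex : ∃ l, l = m ∨ ¬ C l := ⟨m, Or.inl rfl⟩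
  refine ⟨Nat.find ex, fun l hl => ⟨fun c => by_contra fun d => ?_,
    fun c => not_not.1 (not_or.1 (Nat.find_min ex c)).2⟩⟩
  refine (Nat.find_spec ex).elim (by omega) fun e => e ?_
  exact Nat.decreasingInduction (motive := fun k _ => C k) (fun k hk => h k (by omega)) c
    (not_lt.1 d)

theorem mem_un_sg {L : List V} {v : V} : v ∈ un (sg L) ↔ v ∈ L := by
  simp [un, sg]

/-- the hypotheses -/
structure Hy (H : SimpleGraph V) (U : Set V) (L1 Y L2 Ld : List V) (x y : ℕ → V) (Q : ℕ → Set V)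
    (m : ℕ) : Prop where
  m0 : 0 < m
  soc : Soc H U (L1 ++ Y ++ L2 ++ Ld)
  lkg : Lkg H U m x y Q
  int : ∀ l < m, Q l ∩ ls (L1 ++ Y ++ L2 ++ Ld) = {x l, y l}
  sy : List.Sublist ((List.range m).map y).reverse L1
  sx : List.Sublist ((List.range m).map x) L2
  hd : L1.head? = some (y (m - 1))
  lt : L2.getLast? = some (x (m - 1))
  flat : ¬ PX H U (sg (L1 ++ Y ++ L2) ++ [lk H (U \ Q (m - 1)) (ls Ld)])

/-- beyond the ring `l` -/
def Bd (L L0 : List V) (S : Set V) (a b : V) : Set V :=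
  {z | z ∈ L0 ∧ (pos L z < pos L a ∨ pos L b < pos L z)} ∪ S

variable {U : Set V} {L1 Y L2 Ld L0 L : List V} {x y : ℕ → V} {Q : ℕ → Set V} {m l : ℕ}
  {S : Set V} {In : ℕ → Set V} (h : Hy H U L1 Y L2 Ld x y Q m)
include h

theorem Hy.ym (hl : l < m) : y l ∈ L1 := h.sy.subset (by simpa using ⟨l, hl, rfl⟩)

theorem Hy.xm (hl : l < m) : x l ∈ L2 := h.sx.subset (by simpa using ⟨l, hl, rfl⟩)

variable (e0 : L0 = L1 ++ Y ++ L2) (e1 : L = L0 ++ Ld) (e2 : S = lk H (U \ Q (m - 1)) (ls Ld))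
include e0 e1

theorem Hy.nd : L.Nodup := e1 ▸ e0 ▸ h.soc.nd

theorem Hy.p12 {a b : V} (ha : a ∈ L1) (hb : b ∈ L2) : pos L a < pos L b :=
  pos_app (h.nd e0 e1) (by subst e0 e1; simp) ha hb

theorem Hy.mono {k : ℕ} (hk : k < l) (hl : l < m) :
    pos L (y l) < pos L (y k) ∧ pos L (x k) < pos L (x l) := by
  have a := (pos_pw (h.nd e0 e1)).sublist (h.sy.trans (by subst e0 e1; simp))
  have b := (pos_pw (h.nd e0 e1)).sublist (h.sx.trans (by
    subst e0 e1; exact (List.sublist_append_right _ _).trans (List.sublist_append_left _ _)))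
  rw [List.pairwise_reverse, List.pairwise_map, List.pairwise_iff_getElem] at a
  rw [List.pairwise_map, List.pairwise_iff_getElem] at b
  have a' := a k l (by simp; omega) (by simpa) hk
  have b' := b k l (by simp; omega) (by simpa) hk
  rw [List.getElem_range, List.getElem_range] at a' b'
  exact ⟨a', b'⟩

theorem Hy.notQ (hl : l < m) {z : V} (hz : z ∈ L) (a : z ≠ x l) (b : z ≠ y l) : z ∉ Q l := fun c =>
  (((h.int l hl).subset ⟨c, by subst e0 e1; exact hz⟩ : z ∈ ({x l, y l} : Set V))).elim a b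

theorem Hy.mU {z : V} (hz : z ∈ L) : z ∈ U := h.soc.sub z (by subst e0 e1; exact hz)

include e2

theorem Hy.px {P P' : Set V} (t : Two H U P P') (d : Disjoint P S ∨ Disjoint P' S) {a b c : V}
    (ha : a ∈ P) (hb : b ∈ P') (hc : c ∈ P) (a0 : a ∈ L0) (b0 : b ∈ L0) (c0 : c ∈ L0)
    (ab : pos L a < pos L b) (bc : pos L b < pos L c) {w : V} (hw : w ∈ P')
    (k : w ∈ S ∨ (w ∈ L0 ∧ pos L c < pos L w)) : False := by
  have sl : L0.Sublist L := e1 ▸ List.sublist_append_left _ _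
  have po : ∀ s ∈ sg L0 ++ [S], Disjoint P s ∨ Disjoint P' s := fun s hs => by
    rcases List.mem_append.1 hs with e | e
    · obtain ⟨z, -, rfl⟩ := List.mem_map.1 e
      simp only [disjoint_singleton_right]
      exact not_and_or.1 fun c => disjoint_left.1 t.dis c.1 c.2
    · rwa [List.mem_singleton.1 e]
  refine h.flat (e0 ▸ e2 ▸ ?_)
  rcases k with k | k
  · exact ⟨{a}, {b}, {c}, S, ((sub_of_pos (T := [a, b, c]) (h.nd e0 e1) sl (by simp [a0, b0, c0])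
      (by simp; omega)).map _).append (List.Sublist.refl [S]), P, P', t, ⟨a, ha, rfl⟩,
      ⟨c, hc, rfl⟩, ⟨b, hb, rfl⟩, ⟨w, hw, k⟩, po⟩
  · exact ⟨{a}, {b}, {c}, {w}, ((sub_of_pos (T := [a, b, c, w]) (h.nd e0 e1) sl
      (by simp [a0, b0, c0, k.1])
      (by simp; omega)).map _).trans (List.sublist_append_left _ _), P, P', t, ⟨a, ha, rfl⟩,
      ⟨c, hc, rfl⟩, ⟨b, hb, rfl⟩, ⟨w, hw, rfl⟩, po⟩

theorem Hy.LS {z : V} (hz : z ∈ L0) : z ∉ S := fun c => by
  have m1 : m - 1 < m := by have := h.m0; omega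
  obtain ⟨q1, q2, q3, q4⟩ := h.lkg.mem _ m1
  have c' : z ∈ U \ Q (m - 1) := (e2 ▸ c : z ∈ lk _ _ _).1
  have sl : L0.Sublist L := e1 ▸ List.sublist_append_left _ _
  obtain ⟨t, ht⟩ := List.head?_eq_some_iff.1 h.hd
  obtain ⟨t', ht'⟩ := List.getLast?_eq_some_iff.1 h.lt
  refine h.px e0 e1 e2 ⟨q1, singleton_subset_iff.2 c'.1, q2, conn_singleton _ _,
    disjoint_singleton_right.2 c'.2⟩ (Or.inl (disjoint_left.2 fun v a b => (e2 ▸ b : v ∈ lk _ _ _).1.2 a))
    q4 rfl q3 (by simp [e0, h.ym m1]) hz (by simp [e0, h.xm m1]) ?_ ?_ rfl (Or.inl c)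
  · refine pos_app (A := [_]) (B := t ++ Y ++ L2) (h.nd e0 e1) (by simpa [e0, ht] using sl)
      (List.mem_singleton_self _) ?_
    have : z ≠ y (m - 1) := fun e => c'.2 (e ▸ q4)
    simpa [e0, ht, this] using hz
  · refine pos_app (A := L1 ++ Y ++ t') (B := [_]) (h.nd e0 e1) (by simpa [e0, ht'] using sl) ?_
      (List.mem_singleton_self _)
    have : z ≠ x (m - 1) := fun e => c'.2 (e ▸ q3)
    simpa [e0, ht', this] using hz

theorem Hy.QS (hl : l < m) : Disjoint (Q l) S := disjoint_left.2 fun v a b => by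
  obtain ⟨q1, q2, q3, -⟩ := h.lkg.mem _ hl
  by_cases c : l = m - 1
  · exact (e2 ▸ b : v ∈ lk _ _ _).1.2 (c ▸ a)
  · exact h.LS e0 e1 e2 (by simp [e0, h.xm hl]) (e2 ▸ lk_conn q2
      (subset_sdiff.2 ⟨q1, h.lkg.dis _ hl _ (by omega) c⟩) a (e2 ▸ b) q3)

theorem Hy.BU (hl : l < m) : Bd L L0 S (y l) (x l) ⊆ U \ Q l := by
  have := h.p12 e0 e1 (h.ym hl) (h.xm hl)
  rintro z (⟨a, b⟩ | a)
  · have c : z ∈ L := by simp [e1, a]
    exact ⟨h.mU e0 e1 c, h.notQ e0 e1 hl c (by rintro rfl; omega) (by rintro rfl; omega)⟩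
  · exact ⟨(e2 ▸ a : z ∈ lk _ _ _).1.1, disjoint_right.1 (h.QS e0 e1 e2 hl) a⟩

variable (e3 : ∀ l, In l = lk H (U \ Q l) (Bd L L0 S (y l) (x l)))
include e3

theorem Hy.sep (hl : l < m) {z : V} (hz : z ∈ L0) (a : pos L (y l) < pos L z)
    (b : pos L z < pos L (x l)) : z ∉ In l := by
  rw [e3]
  rintro ⟨c1, w, c2, c3, c4⟩
  obtain ⟨q1, q2, q3, q4⟩ := h.lkg.mem _ hl
  have t : Two H U (Q l) (cp H (U \ Q l) w) := ⟨q1, cp_sub.trans sdiff_subset, q2, cp_conn c3,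
    disjoint_left.2 fun v a b => b.1.2 a⟩
  have y0 : y l ∈ L0 := by simp [e0, h.ym hl]
  have x0 : x l ∈ L0 := by simp [e0, h.xm hl]
  rcases c2 with ⟨d, d' | d'⟩ | d
  · exact h.px e0 e1 e2 (two_symm t) (Or.inr (h.QS e0 e1 e2 hl)) (cp_self c3) q4 ⟨c1, c4⟩ d y0 hz d'
      a q3 (Or.inr ⟨x0, b⟩)
  · exact h.px e0 e1 e2 t (Or.inl (h.QS e0 e1 e2 hl)) q4 ⟨c1, c4⟩ q3 y0 hz x0 a b (cp_self c3)
      (Or.inr ⟨d, d'⟩)
  · exact h.px e0 e1 e2 t (Or.inl (h.QS e0 e1 e2 hl)) q4 ⟨c1, c4⟩ q3 y0 hz x0 a b (cp_self c3)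
      (Or.inl d)

theorem Hy.nest (hl : l + 1 < m) : In (l + 1) ∪ Q (l + 1) ⊆ In l := by
  have hl' : l < m := by omega
  obtain ⟨q1, q2, q3, -⟩ := h.lkg.mem _ hl
  obtain ⟨q4, q5, q6, -⟩ := h.lkg.mem _ hl'
  obtain ⟨a, b⟩ := h.mono e0 e1 (Nat.lt_add_one l) hl
  have c := h.p12 e0 e1 (h.ym hl') (h.xm hl')
  have d := h.lkg.dis _ hl _ hl' (by omega)
  refine union_subset ?_ ?_
  · have k := h.sep e0 e1 e2 e3 hl (z := x l) (by simp [e0, h.xm hl']) (a.trans c) b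
    rw [e3] at k
    rw [e3, e3]
    refine lk_sub (fun v hv => ⟨hv.1.1, fun w => k (lk_conn q5 (subset_sdiff.2 ⟨q4, d.symm⟩) w hv q6)⟩)
      (union_subset_union_left _ fun z hz => ⟨hz.1, by have := hz.2; omega⟩)
  · rw [e3]
    exact lk_conn q2 (subset_sdiff.2 ⟨q1, d⟩) q3
      (lk_self (Or.inl ⟨by simp [e0, h.xm hl], Or.inr b⟩) ⟨q1 q3, disjoint_left.1 d q3⟩)

omit e0 e1 e2 in
theorem Hy.edge {u v : V} (e : H.Adj u v) (hv : v ∈ In l) : u ∈ In l ∪ Q l := by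
  rw [e3] at hv ⊢
  exact or_iff_not_imp_right.2 fun c =>
    lk_link hv (Link.single hv.1 ⟨h.soc.tight _ _ e, c⟩ e.symm)

/-- the cut along a ring -/
theorem Hy.cut [Finite V] (hn : NfS) (hc : CutPS) (hl : l + 1 < m) :
    ∃ (M Z : List V) (H1 H2 : SimpleGraph V) (U1 U2 S1 : Set V), Split H H1 H2 U U1 U2 (ls Z) ∧
      (M ++ Z).Nodup ∧ ¬ Cr H1 U1 (M ++ Z) ∧ M.Sublist L ∧ (∀ z ∈ Z, z ∈ In l) ∧
      Disjoint (In (l + 1)) U1 ∧ S1 = lk H (U \ Q (l + 1)) (ls M) ∧ S1 ⊆ U1 \ U2 ∧ Y ⊆ M ∧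
      ∀ z, z ∈ M ↔ z ∈ L0 ∧ pos L (y (l + 1)) < pos L z ∧ pos L z < pos L (x (l + 1)) := by
  obtain ⟨P1, P3, a1⟩ := List.append_of_mem (h.ym hl)
  obtain ⟨P4, P2, a2⟩ := List.append_of_mem (h.xm hl)
  obtain ⟨q1, q2, q3, q4⟩ := h.lkg.mem _ hl
  have nest := h.nest e0 e1 e2 e3 hl
  have bu := h.BU e0 e1 e2 hl
  have sep := fun z => h.sep e0 e1 e2 e3 (l := l) (z := z) (by omega)
  have mo := h.mono e0 e1 (Nat.lt_add_one l) hl
  generalize hM : P3 ++ Y ++ P4 = M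
  have ym : Y ⊆ M := by simp [← hM]
  have e4 : L0 = P1 ++ y (l + 1) :: M ++ x (l + 1) :: P2 := by simp [e0, a1, a2, ← hM]
  have sl : L0.Sublist L := e1 ▸ List.sublist_append_left _ _
  have pw := (pos_pw (h.nd e0 e1)).sublist sl
  have nd := (h.nd e0 e1).sublist sl
  have pm : ∀ z, (z ∈ P1 → pos L z < pos L (y (l + 1))) ∧ (z ∈ P2 → pos L (x (l + 1)) < pos L z) ∧
      (z ∈ M → pos L (y (l + 1)) < pos L z ∧ pos L z < pos L (x (l + 1))) := fun z => by
    simp only [e4, List.pairwise_append, List.pairwise_cons, List.mem_append, List.mem_cons] at pw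
    exact ⟨fun c => pw.1.2.2 z c _ (Or.inl rfl), pw.2.1.1 z,
      fun c => ⟨pw.1.2.1.1 z c, pw.2.2 z (Or.inr (Or.inr c)) _ (Or.inl rfl)⟩⟩
  have yx := h.p12 e0 e1 (h.ym hl) (h.xm hl)
  have m0 : ∀ z, z ∈ L0 ↔ z ∈ P1 ∨ z = y (l + 1) ∨ z ∈ M ∨ z = x (l + 1) ∨ z ∈ P2 := fun z => by
    simp [e4]
  have mM : ∀ z, z ∈ M ↔ z ∈ L0 ∧ pos L (y (l + 1)) < pos L z ∧ pos L z < pos L (x (l + 1)) :=
    fun z => ⟨fun c => ⟨by simp [m0, c], (pm z).2.2 c⟩, fun ⟨c, d, e⟩ => by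
      rcases (m0 z).1 c with c | rfl | c | rfl | c
      exacts [absurd ((pm z).1 c) d.not_gt, d.false.elim, c, e.false.elim,
        absurd ((pm z).2.1 c) e.not_gt]⟩
  have ub : un (sg P2 ++ S :: sg P1) = Bd L L0 S (y (l + 1)) (x (l + 1)) := by
    ext z
    have : z ∈ un (sg P2 ++ S :: sg P1) ↔ z ∈ P2 ∨ z ∈ S ∨ z ∈ P1 := by
      simp [un, sg, or_and_right, exists_or]
    rw [this]
    refine ⟨?_, ?_⟩
    · rintro (c | c | c)
      exacts [Or.inl ⟨by simp [m0, c], Or.inr ((pm z).2.1 c)⟩, Or.inr c,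
        Or.inl ⟨by simp [m0, c], Or.inl ((pm z).1 c)⟩]
    · rintro (⟨c, d⟩ | c)
      · rcases (m0 z).1 c with c | rfl | c | rfl | c
        exacts [Or.inr (Or.inr c), by omega, by have := (pm z).2.2 c; omega, by omega, Or.inl c]
      · exact Or.inr (Or.inl c)
  have rot : List.IsRotated (({y (l + 1)} : Set V) :: sg M ++ {x (l + 1)} :: (sg P2 ++ S :: sg P1))
      (sg L0 ++ [S]) := by
    simpa [e4, sg] using List.isRotated_append (l' := sg P1)
      (l := ({y (l + 1)} : Set V) :: sg M ++ {x (l + 1)} :: sg P2 ++ [S])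
  have uq : Q (l + 1) ∪ {y (l + 1)} ∪ {x (l + 1)} = Q (l + 1) := by simp [q3, q4]
  have us : un (sg M) = ls M := Set.ext fun _ => mem_un_sg
  have mq : ∀ z ∈ M, z ∈ U \ Q (l + 1) := fun z c => by
    obtain ⟨c1, c2, c3⟩ := (mM z).1 c
    exact ⟨h.mU e0 e1 (sl.subset c1), h.notQ e0 e1 hl (sl.subset c1) (by rintro rfl; omega)
      (by rintro rfl; omega)⟩
  obtain ⟨Ys, H1, H2, U1, U2, c1, c2, c3, c4, c5, c6, c7, -⟩ := hc V H U (Q (l + 1)) _ _
    {y (l + 1)} {x (l + 1)} (sg M) (sg P2 ++ S :: sg P1) h.soc.tight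
    ((rot.perm.pairwise_iff fun c => c.symm).2 (List.pairwise_append.2 ⟨List.pairwise_map.2
      (nd.imp fun c => disjoint_singleton.2 c), List.pairwise_singleton _ _, fun s hs t ht => by
        obtain ⟨z, hz, rfl⟩ := List.mem_map.1 hs
        rw [List.mem_singleton.1 ht]
        exact disjoint_singleton_left.2 (h.LS e0 e1 e2 hz)⟩))
    (fun v ⟨s, hs, hv⟩ => by
      rcases List.mem_append.1 (rot.perm.subset hs) with c | c
      · exact h.mU e0 e1 (sl.subset (mem_un_sg.1 ⟨s, c, hv⟩))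
      · exact (bu (Or.inr (List.mem_singleton.1 c ▸ hv))).1)
    q1 q2 ⟨_, q4, rfl⟩ ⟨_, q3, rfl⟩ (disjoint_right.2 fun z c => (mq z (mem_un_sg.1 c)).2)
    (disjoint_right.2 fun z c => (bu (ub ▸ c)).2) rfl rfl
    fun c => h.flat (e0 ▸ e2 ▸ (hn V H U).2.2.1 _ _ rot c)
  rw [uq, us] at c4
  rw [uq, ub, ← e3] at c5
  rw [uq, us] at c6
  have ez : ({y (l + 1)} : Set V) ∪ {x (l + 1)} ∪ ls Ys = ls (x (l + 1) :: Ys.reverse ++ [y (l + 1)]) := by
    ext z
    simp only [ls, mem_union, mem_singleton_iff, mem_ofPred_eq, List.mem_append, List.mem_cons,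
      List.mem_reverse, List.not_mem_nil]
    tauto
  rw [ez] at c1
  have ms : ∀ z ∈ M, z ∈ U1 \ U2 := fun z c => c4 (lk_self c (mq z c))
  refine ⟨M, _, H1, H2, U1, U2, _, c1, ?_, fun c => c7 ?_, List.Sublist.trans (by
      rw [e4]; exact ((List.sublist_cons_self _ _).trans (List.sublist_append_right _ _)).trans
        (List.sublist_append_left _ _)) sl, fun z hz => ?_,
    disjoint_left.2 fun v a b => (c5 a).2 b, rfl, c4, ym, mM⟩
  · refine List.nodup_append.2 ⟨nd.sublist (by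
      rw [e4]; exact ((List.sublist_cons_self _ _).trans (List.sublist_append_right _ _)).trans
        (List.sublist_append_left _ _)), ?_, fun a ha b hb e =>
        (ms a ha).2 (e ▸ (c1.int.superset hb).2)⟩
    have n1 : x (l + 1) ∉ Ys := fun c => disjoint_left.1 c3 c (Or.inr rfl)
    have n2 : y (l + 1) ∉ Ys := fun c => disjoint_left.1 c3 c (Or.inl rfl)
    have n3 : x (l + 1) ≠ y (l + 1) := fun c => by rw [c] at yx; omega
    simp only [List.cons_append, List.nodup_cons, List.nodup_append, List.mem_append,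
      List.mem_reverse, List.mem_singleton, List.nodup_reverse, n1, n3, c2, or_self, not_false_iff,
      true_and, List.not_mem_nil, List.nodup_nil]
    rintro a ha b rfl rfl
    exact n2 ha
  · have := ((hn V H1 U1).2.1 _).1 ((hn V H1 U1).2.2.2.2.1 _ _ (by
      simpa using List.isRotated_append (l := M ++ x (l + 1) :: Ys.reverse) (l' := [y (l + 1)])) c)
    simpa [sg] using this
  · rcases (ez.superset hz : z ∈ _ ∪ _ ∪ _) with (c | c) | c
    · exact nest (Or.inr (c ▸ q4))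
    · exact nest (Or.inr (c ▸ q3))
    obtain ⟨-, w, d1, d2, d3⟩ := c6 z c
    have w1 := nest (Or.inr (d1.elim (· ▸ q4) (· ▸ q3) : w ∈ Q (l + 1)))
    obtain ⟨r1, r2, r3, -⟩ := h.lkg.mem l (by omega)
    have x1 : x l ∈ M := (mM _).2 ⟨by simp [e0, h.xm (l := l) (by omega)],
      h.p12 e0 e1 (h.ym hl) (h.xm (by omega)), mo.2⟩
    have qs := lk_conn r2 (subset_sdiff.2 ⟨r1, h.lkg.dis l (by omega) _ hl (by omega)⟩) r3
      (lk_self (A := ls M) x1 (mq _ x1))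
    rw [e3] at w1 ⊢
    exact lk_link w1 (d3.mono (T := U \ Q l) fun v hv => ⟨hv.1, fun k => hv.2 (Or.inl (qs k))⟩)

end Slift

open Slift

theorem sliftS : NfS → CutPS → PruneS → CrkS → RunsS → RivS → SliftS := by
  intro hn hc _ hk hr hv n p
  choose g s0 hv using hv
  obtain ⟨s, hs⟩ : ∃ s, ∀ k ≤ n, s0 k ≤ s := ⟨(Finset.range (n + 1)).sup s0,
    fun k c => Finset.le_sup (Finset.mem_range.2 (by omega))⟩
  refine ⟨(2 * n + 1) * s + 1, by omega, ?_⟩
  intro V _ H U L1 Y L2 Ld x y Q a1 a2 a3 a4 a5 a6 a7 a8 n' hn' ⟨u, v, R, b1, b2, b3⟩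
  generalize hm : (2 * n + 1) * s + 1 = m at *
  have h : Hy H U L1 Y L2 Ld x y Q m := ⟨by omega, a1, a2, a3, a4, a5, a6, a7, a8⟩
  obtain ⟨L0, e0⟩ : ∃ L0, L0 = L1 ++ Y ++ L2 := ⟨_, rfl⟩
  obtain ⟨L, e1⟩ : ∃ L, L = L0 ++ Ld := ⟨_, rfl⟩
  obtain ⟨S, e2⟩ : ∃ S, S = lk H (U \ Q (m - 1)) (ls Ld) := ⟨_, rfl⟩
  obtain ⟨In, e3⟩ : ∃ In : ℕ → Set V, ∀ l, In l = lk H (U \ Q l) (Bd L L0 S (y l) (x l)) :=
    ⟨_, fun _ => rfl⟩
  rw [← e0, ← e1] at b2 b3
  have nest := fun l => h.nest e0 e1 e2 e3 (l := l)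
  choose G hG using fun w => exG (fun l => w ∈ In l ∪ Q l) m fun l c d => Or.inl (nest l c d)
  have iq : ∀ l, ∀ w ∈ In l, w ∉ Q l := fun l w c => by rw [e3] at c; exact c.1.2
  obtain ⟨a, c1, c2⟩ : ∃ a, a + s < m ∧ ∀ i < n', ∀ w, w = u i ∨ w = v i →
      G w ≤ a + 1 ∨ a + 1 + s ≤ G w := by
    by_contra c
    push Not at c
    have : Finset.range (2 * n + 1) ⊆ (Finset.range n').image (fun i => (G (u i) - 2) / s) ∪
        (Finset.range n').image fun i => (G (v i) - 2) / s := fun b hb => by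
      have := Nat.mul_le_mul_right s (Finset.mem_range.1 hb)
      rw [Nat.succ_mul] at this
      obtain ⟨i, hi, w, d1, d2, d3⟩ := c (b * s) (by omega)
      have d4 : (G w - 2) / s = b :=
        Nat.div_eq_of_lt_le (by omega) (by rw [Nat.succ_mul]; omega)
      simp only [Finset.mem_union, Finset.mem_image, Finset.mem_range]
      rcases d1 with rfl | rfl
      exacts [Or.inl ⟨i, hi, d4⟩, Or.inr ⟨i, hi, d4⟩]
    have d := (Finset.card_le_card this).trans ((Finset.card_union_le _ _).trans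
      (add_le_add Finset.card_image_le Finset.card_image_le))
    simp only [Finset.card_range] at d
    omega
  set lev : V → ℕ := fun w => min s (G w - (a + 1)) with hlev
  have lv : ∀ w j, 0 < j → j ≤ s → (j ≤ lev w ↔ w ∈ In (a + j) ∪ Q (a + j)) := fun w j d e => by
    rw [hG w _ (by omega)]
    simp only [hlev]
    omega
  have le : ∀ w, lev w ≤ s := fun w => min_le_left _ _
  have up : ∀ w w', H.Adj w w' → ∀ j, 0 < j → lev w < j → j ≤ lev w' → w' ∈ Q (a + j) :=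
    fun w w' e j d1 d2 d3 => ((lv w' j d1 (d3.trans (le _))).1 d3).resolve_left fun k =>
      d2.not_ge ((lv w j d1 (d3.trans (le _))).2 (h.edge e3 e k))
  have ring : ∀ j ≤ s, ∀ w ∈ Q (a + j), lev w = j := fun j d w k => by
    have d1 := (hG w (a + j) (by omega)).1 (Or.inr k)
    have d2 : a + j + 1 < m → ¬ a + j + 1 < G w := fun e e' =>
      iq _ w (nest _ e ((hG w _ e).2 e')) k
    simp only [hlev]
    omega
  have st : ∀ w w', H.Adj w w' → lev w' ≤ lev w + 1 := fun w w' e => by_contra fun c => by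
    have := le w'
    have := ring _ (by omega) _ (up w w' e (lev w + 1) (by omega) (by omega) (by omega))
    omega
  have en : ∀ i < n', ∀ w, w = u i ∨ w = v i → lev w = 0 ∨ lev w = s := fun i hi w k => by
    have := c2 i hi w k
    simp only [hlev]
    omega
  obtain ⟨f, l, α, β, lam, d1, d2, d3, d4, d5, d6, d7⟩ := hv n' V H U lev (fun j => Q (a + j)) s u v
    R (hs n' hn') ⟨disjoint_empty _, fun w _ => le w,
      fun w _ _ _ w' e => Or.inr ⟨a1.tight _ _ e.symm, st _ _ e, st _ _ e.symm⟩,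
      fun w _ w' _ e k => up w w' e _ (by omega) (by omega) le_rfl,
      fun j k => ⟨(a2.mem _ (by omega)).2.1, fun w c => ⟨(a2.mem _ (by omega)).1 c, ring j k w c⟩⟩,
      fun _ c => absurd c (Nat.not_lt_zero _), fun _ c => absurd c (Nat.not_lt_zero _),
      fun _ c => absurd c (Nat.not_lt_zero _)⟩ (fun w _ w' _ e => st w w' e) b1
    fun i hi => ⟨en i hi _ (Or.inl rfl), en i hi _ (Or.inr rfl)⟩
  obtain ⟨lam, rfl⟩ : ∃ k, lam = k + 1 := ⟨lam - 1, by omega⟩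
  obtain ⟨M, Z, H1, H2, U1, U2, S1, f1, f2, f3, f4, f5, f6, f7, f8, f9, f10⟩ :=
    h.cut e0 e1 e2 e3 hn hc (l := a + lam) (by omega)
  have nd := h.nd e0 e1
  have hi2 : ∀ w, lam + 1 < lev w → w ∈ In (a + lam + 1) := fun w c => by
    have := le w
    exact nest _ (by omega) ((lv w (lam + 2) (by omega) (by omega)).1 c)
  have xM : ∀ j ≤ lam, x (a + j) ∈ M := fun j c => (f10 _).2
    ⟨by simp [e0, h.xm (l := a + j) (by omega)], h.p12 e0 e1 (h.ym (by omega)) (h.xm (by omega)),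
      (h.mono e0 e1 (by omega) (by omega)).2⟩
  have qs : ∀ j ≤ lam, Q (a + j) ⊆ S1 := fun j c => by
    obtain ⟨r1, r2, r3, -⟩ := a2.mem (a + j) (by omega)
    have r4 := subset_sdiff.2 ⟨r1, a2.dis (a + j) (by omega) (a + lam + 1) (by omega) (by omega)⟩
    exact f7 ▸ lk_conn r2 r4 r3 (lk_self (xM j c) (r4 r3))
  have ld : ∀ z ∈ Ld, z ∈ S := fun z c => by
    have z1 : z ∈ L := by simp [e1, c]
    have z2 : ∀ w ∈ L0, z ≠ w := fun w k e =>
      (List.nodup_append.1 (e1 ▸ nd)).2.2 w k z c e.symm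
    exact e2 ▸ lk_self c ⟨h.mU e0 e1 z1, h.notQ e0 e1 (by omega) z1
      (z2 _ (by simp [e0, h.xm (l := m - 1) (by omega)]))
      (z2 _ (by simp [e0, h.ym (l := m - 1) (by omega)]))⟩
  have eM : ∀ z ∈ L, lev z < lam → z ∈ M := fun z c k => by
    have k1 := fun e => k.not_ge ((lv z lam (by omega) (by omega)).2 e)
    have k2 : z ∉ Bd L L0 S (y (a + lam)) (x (a + lam)) := fun e =>
      k1 (Or.inl (e3 _ ▸ lk_self e (h.BU e0 e1 e2 (by omega) e)))
    have k3 : z ∈ L0 := (List.mem_append.1 (e1 ▸ c)).resolve_right fun e => k2 (Or.inr (ld z e))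
    have k4 := not_or.1 fun e => k2 (Or.inl ⟨k3, e⟩)
    have := h.mono e0 e1 (Nat.lt_add_one (a + lam)) (by omega)
    exact (f10 z).2 ⟨k3, by omega, by omega⟩
  have eL : ∀ i < n', ∀ k, k = 0 ∨ k = l i → f i k ∈ L ∧ (lev (f i k) = 0 ∨ lev (f i k) = s) := by
    rintro i hi k (rfl | rfl)
    · rw [(d4 i hi).2.1]; exact ⟨(b2 i hi).1, en i hi _ (Or.inl rfl)⟩
    · rw [(d4 i hi).2.2]; exact ⟨(b2 i hi).2, en i hi _ (Or.inr rfl)⟩
  have s1 : ∀ w ∈ U, lev w < lam → w ∈ U \ Q (a + lam + 1) := fun w c k =>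
    ⟨c, fun e => by have := ring (lam + 1) (by omega) w e; omega⟩
  have low : ∀ i < n', ∀ k ≤ l i, lev (f i k) < lam → f i k ∈ S1 := fun i hi k c => by
    have pa := (d4 i hi).1
    induction c using Nat.decreasingInduction with
    | self =>
      exact fun c => f7 ▸ lk_self (eM _ (eL i hi _ (Or.inr rfl)).1 c) (s1 _ (pa.1 _ le_rfl) c)
    | of_succ k c ih =>
      intro e
      have k1 : f i (k + 1) ∈ S1 := (lt_or_ge _ lam).elim ih fun w =>
        qs lam le_rfl (up _ _ (pa.2.1 k c) lam (by omega) e w)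
      rw [f7] at k1 ⊢
      exact lk_link k1 (Link.single k1.1 (s1 _ (pa.1 k c.le) e) (pa.2.1 k c).symm)
  refine Cfg.crk (L := L) (D := fun j => Q (a + j)) (X := fun j => x (a + j))
    ⟨f1, f2, f3, nd, f4, by subst e0 e1; simp, fun z c => ?_,
      fun w c => not_lt.1 fun e => disjoint_left.1 f6 (hi2 w e) c,
      fun i hi k c e => (f8 (low i hi k c (by omega))).2, fun j c e => ?_,
      fun w w' e j c _ => up w w' e j (by omega), d1, d2, fun i hi => (d4 i hi).1, d5, d6, d7,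
      fun i hi k c => ?_, ?_⟩ hk hr
  · exact Nat.succ_le_succ ((lv z lam (by omega) (by omega)).2 (Or.inl (f5 z c)))
  · obtain ⟨-, r2, r3, -⟩ := a2.mem (a + j) (by omega)
    exact ⟨(qs j (by omega)).trans f8, r2, r3, xM j (by omega),
      by simp [h.xm (l := a + j) (by omega)], ring j (by omega)⟩
  · obtain ⟨k1, k2 | k2⟩ := eL i hi k c
    · exact Or.inl ⟨k2, eM _ k1 (by omega)⟩
    have k3 := hi2 _ (by omega : lam + 1 < lev (f i k))
    have k4 : f i k ∉ M := fun e => h.sep e0 e1 e2 e3 (by omega) ((f10 _).1 e).1 ((f10 _).1 e).2.1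
      ((f10 _).1 e).2.2 k3
    refine Or.inr ⟨by omega, ?_, ?_⟩
    · have : f i k ∉ Y := fun e => k4 (f9 e)
      simpa [e1, e0, this] using k1
    rcases List.mem_append.1 (e1 ▸ k1) with e | e
    · have k5 := fun e' => k4 ((f10 _).2 ⟨e, e'⟩)
      rcases le_or_gt (pos L (f i k)) (pos L (y (a + lam + 1))) with w | w
      · exact Or.inr fun z c => w.trans_lt ((f10 z).1 c).2.1
      · exact Or.inl fun z c => ((f10 z).1 c).2.2.trans_le (not_lt.1 fun w' => k5 ⟨w, w'⟩)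
    · exact Or.inl fun z c => pos_app nd (e1 ▸ List.Sublist.refl _) ((f10 z).1 c).1 e
  · have k1 : ∀ i < n', pos L (f i 0) = pos L (u i) ∧ pos L (f i (l i)) = pos L (v i) :=
      fun i hi => by rw [(d4 i hi).2.1, (d4 i hi).2.2]; exact ⟨rfl, rfl⟩
    obtain ⟨g1, g2, α', β', t, g3, g4⟩ := b3
    refine ⟨fun i hi j hj => ?_, fun i hi => ⟨?_, ?_⟩, α', β', t, g3, fun i hi => ?_⟩
    · simpa only [(k1 i hi).1, (k1 i hi).2, (k1 j hj).1, (k1 j hj).2] using g1 i hi j hj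
    · obtain ⟨j, hj, c⟩ := (g2 i hi).1
      exact ⟨j, hj, by simpa only [(k1 i hi).1, (k1 i hi).2, (k1 j hj).1, (k1 j hj).2] using c⟩
    · obtain ⟨j, hj, c⟩ := (g2 i hi).2
      exact ⟨j, hj, by simpa only [(k1 i hi).1, (k1 i hi).2, (k1 j hj).1, (k1 j hj).2] using c⟩
    · simpa only [(k1 _ (g4 i hi).1).1, (k1 _ (g4 i hi).1).2] using g4 i hi

end Pool.Agent.MP_9d78a0_co.st

end MrgPart1

-- ======== part 2: formerly Pool.Agent.MP_9d78a0_co.st.Blk
section MrgPart2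

/-! One block of a frame is flat. -/

set_option autoImplicit false

namespace Pool.Agent.MP_9d78a0_co.st

open Set Function fb

namespace blkA

variable {V : Type} {G H : SimpleGraph V} {U I : Set V} {F : FD V}

theorem link_self {S : Set V} {u v : V} (h : Link H (S ∪ {u}) v u) :
    Link H ({x | x ∈ S ∧ Link H (S ∪ {u}) x u} ∪ {u}) v u := by
  induction h using Relation.ReflTransGen.head_induction_on with
  | refl => exact Link.refl _ _ _
  | @head a c h1 h2 ih =>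
    refine Link.trans (Link.single ?_ ?_ h1.2.2) ih
    · exact h1.1.imp_left fun k => ⟨k, Relation.ReflTransGen.head h1 h2⟩
    · exact h1.2.1.imp_left fun k => ⟨k, h2⟩

theorem conn_col {p : PD V} (h : Pan H U I p) {e : ℕ} (he : e ≤ p.n) : Conn H (p.col e) :=
  pan.conn_up (C := fun l => p.C l e) (Nat.zero_le _) (fun l hl => (h.cell l hl e he).1)
    (fun l hl => h.ver l hl e he) (h.lam e he).1 (h.lam e he).2.1

theorem foot_col (p : PD V) (e : ℕ) : p.C 0 e ⊆ p.col e := pan.cell_col (Nat.zero_le _)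

theorem low_row (F : FD V) (e : ℕ) : F.low e ⊆ F.row e :=
  union_subset_union (union_subset_union_left _ (foot_col _ _)) (foot_col _ _)

theorem conn_row (h : Bas H U I F) {e : ℕ} (he : e ≤ F.A.n) : Conn H (F.row e) :=
  conn_union_touch (conn_union_touch (conn_col h.a he) (h.j e he).2.1
      ((h.j e he).2.2.1.symm.mono (foot_col _ _) subset_rfl))
    (conn_col h.b (h.n ▸ he)) ((h.j e he).2.2.2.mono subset_union_right (foot_col _ _))

/-- the part of the panels and of the band between two rows -/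
def band (F : FD V) (x y : ℕ) : Set V :=
  {v | (v ∈ F.A.P ∧ 2 * x ≤ F.A.κ v ∧ F.A.κ v ≤ 2 * y) ∨
    (v ∈ F.B.P ∧ 2 * x ≤ F.B.κ v ∧ F.B.κ v ≤ 2 * y) ∨ ∃ e, x ≤ e ∧ e ≤ y ∧ v ∈ F.J e}

theorem row_band (h : Bas H U I F) {e x y : ℕ} (he : e ≤ F.A.n) (h1 : x ≤ e) (h2 : e ≤ y) :
    F.row e ⊆ band F x y := by
  rintro v ((hv | hv) | hv)
  · have := (h.a.col e he v).1 hv
    exact Or.inl ⟨this.1, by omega, by omega⟩
  · exact Or.inr (Or.inr ⟨e, h1, h2, hv⟩)
  · have := (h.b.col e (h.n ▸ he) v).1 hv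
    exact Or.inr (Or.inl ⟨this.1, by omega, by omega⟩)

theorem band_dis (h : Bas H U I F) {x y x' y' : ℕ} (h1 : y < x') (h2 : y' ≤ F.A.n)
    (h3 : y ≤ F.A.n) : Disjoint (band F x y) (band F x' y') := by
  rw [disjoint_left]
  rintro v (a | a | ⟨e, a1, a2, a⟩) (b | b | ⟨e', b1, b2, b⟩)
  · omega
  · exact disjoint_left.1 h.dis.1 a.1 b.1
  · exact (h.a.sub a.1).2 ((h.j e' (by omega)).1 b)
  · exact disjoint_left.1 h.dis.1 b.1 a.1
  · omega
  · exact (h.b.sub a.1).2 ((h.j e' (by omega)).1 b)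
  · exact (h.a.sub b.1).2 ((h.j e (by omega)).1 a)
  · exact (h.b.sub b.1).2 ((h.j e (by omega)).1 a)
  · exact disjoint_left.1 (h.jd e (by omega) e' (by omega) (by omega)) a b

theorem row_dis (h : Bas H U I F) {e e' : ℕ} (he : e ≤ F.A.n) (he' : e' ≤ F.A.n) (n : e ≠ e') :
    Disjoint (F.row e) (F.row e') := by
  rcases lt_or_gt_of_ne n with c | c
  · exact (band_dis h c he' he).mono (row_band h he le_rfl le_rfl) (row_band h he' le_rfl le_rfl)
  · exact ((band_dis h c he he').mono (row_band h he' le_rfl le_rfl)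
      (row_band h he le_rfl le_rfl)).symm

/-- the rows from `x` to `y` -/
def rows (F : FD V) (x y : ℕ) : Set V := ⋃ e ∈ Icc x y, F.row e

theorem row_rows (F : FD V) {e x y : ℕ} (h1 : x ≤ e) (h2 : e ≤ y) : F.row e ⊆ rows F x y :=
  subset_biUnion_of_mem (u := F.row) ⟨h1, h2⟩

theorem rows_band (h : Bas H U I F) {x y x' y' : ℕ} (hy : y ≤ F.A.n) (h1 : x' ≤ x)
    (h2 : y ≤ y') : rows F x y ⊆ band F x' y' :=
  iUnion₂_subset fun _ he => row_band h (he.2.trans hy) (h1.trans he.1) (he.2.trans h2)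

theorem conn_rows (h : Bas H U I F) {x y : ℕ} (hxy : x ≤ y) (hy : y ≤ F.A.n) :
    Conn H (rows F x y) :=
  conn_chain hxy (fun _ hi => conn_row h (hi.2.trans hy)) fun i _ _ =>
    Or.inr ((h.a.hor 0 (Nat.zero_le _) i (by omega)).mono
      ((foot_col _ _).trans (subset_union_left.trans subset_union_left))
      ((foot_col _ _).trans (subset_union_left.trans subset_union_left)))

/-- the bridges of a block -/
def brd (H : SimpleGraph V) (F : FD V) (S : Set V) (l L : ℕ) : Set V :=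
  {v | v ∈ S ∧ ∃ e, l ≤ e ∧ e ≤ l + L ∧ ∃ u ∈ F.low e, Link H (S ∪ {u}) v u}

def zz (H : SimpleGraph V) (F : FD V) (S : Set V) (l L : ℕ) : Set V :=
  {v | ∃ e ≤ L, v ∈ F.J (l + e)} ∪ brd H F S l L

theorem bas_sub (h : Bas H U I F) {l L : ℕ} (hl : l + L ≤ F.A.n) : Bas H U I (F.sub l L) :=
  ⟨h.tight, h.iu, pan.panSub h.a hl, pan.panSub h.b (h.n ▸ hl), rfl, h.s,
    ⟨h.dis.1.mono (fun _ a => a.1) fun _ a => a.1,
      fun t => h.dis.2 (t.mono (fun _ a => a.1) fun _ a => a.1)⟩,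
    fun e he => h.j (l + e) (le_trans (Nat.add_le_add_left he l) hl),
    fun e he e' he' n => h.jd (l + e) (le_trans (Nat.add_le_add_left he l) hl) (l + e')
      (le_trans (Nat.add_le_add_left he' l) hl) (by omega)⟩

variable {h n : ℕ} {Ur D : Set V} {ob : ℕ → V} {a b : ℕ → ℕ} {O : Set ℕ} {ft cl : ℕ → Set V}

theorem br_band (hb : Bas H U I F) {x y : ℕ} (hy : y ≤ F.A.n) :
    Disjoint (I \ (F.sk O ft ∪ D)) (band F x y) := by
  rw [disjoint_left]
  rintro v hv (a | a | ⟨e, -, a2, a⟩)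
  · exact (hb.a.sub a.1).2 hv.1
  · exact (hb.b.sub a.1).2 hv.1
  · exact hv.2 (Or.inl (Or.inl ⟨e, by omega, Or.inl (Or.inr a)⟩))

theorem mk (hF : Frm G H h n Ur U I ob F a b O ft cl) (hD : D ⊆ I ∪ F.sk O ft) {l L w : ℕ}
    (h1 : w ≤ l) (h2 : l + L + w ≤ F.A.n) (hw : 0 < w)
    (h3 : ∀ e, l ≤ e + w → e ≤ l + L + w → Disjoint D (F.low e))
    (h4 : ∀ e, l ≤ e → e ≤ l + L → ∀ u ∈ F.low e, ∀ v ∈ F.sk O ft \ D,
      Link H ((I \ (F.sk O ft ∪ D)) ∪ {u, v}) u v →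
      ∃ e', l ≤ e' + w ∧ e' ≤ l + L + w ∧ v ∈ F.low e')
    (hf : ¬ PX H (zz H F (I \ (F.sk O ft ∪ D)) l L ∪ (F.sub l L).core ∪ rows F (l - w) (l - 1) ∪
        rows F (l + L + 1) (l + L + w))
      (rows F (l - w) (l - 1) :: sg ((List.range (L + 1)).map (F.sub l L).A.o) ++
        rows F (l + L + 1) (l + L + w) :: sg ((List.range (L + 1)).map (F.sub l L).B.o).reverse)) :
    Blk H U I D (F.sub l L) (zz H F (I \ (F.sk O ft ∪ D)) l L) (rows F (l - w) (l - 1))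
      (rows F (l + L + 1) (l + L + w)) := by
  have hb := hF.bas
  have key : ∀ e, l ≤ e → e ≤ l + L → ∀ u ∈ F.low e, ∀ v,
      Link H ((I \ (F.sk O ft ∪ D)) ∪ {u}) v u → v ∈ (I \ (F.sk O ft ∪ D)) ∪ {u} →
      ∀ y ∈ I ∪ F.sk O ft, H.Adj v y → y ∈ zz H F (I \ (F.sk O ft ∪ D)) l L ∪ D ∪
        (F.sub l L).feet ∪ rows F (l - w) (l - 1) ∪ rows F (l + L + 1) (l + L + w) := by
    intro e e1 e2 u hu v hv hv' y hy adj
    by_cases c1 : y ∈ D
    · exact Or.inl (Or.inl (Or.inl (Or.inr c1)))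
    by_cases c2 : y ∈ F.sk O ft
    · have s1 : (I \ (F.sk O ft ∪ D)) ∪ {u} ⊆ (I \ (F.sk O ft ∪ D)) ∪ {u, y} :=
        union_subset_union_right _ (by simp)
      obtain ⟨e', a1, a2, a3⟩ := h4 e e1 e2 u hu y ⟨c2, c1⟩
        ((hv.symm.mono s1).trans (Link.single (s1 hv') (by simp) adj))
      by_cases c3 : e' < l
      · exact Or.inl (Or.inr (row_rows F (by omega) (by omega) (low_row F e' a3)))
      by_cases c4 : l + L < e'
      · exact Or.inr (row_rows F (by omega) (by omega) (low_row F e' a3))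
      obtain ⟨e', rfl⟩ : ∃ x, e' = l + x := ⟨e' - l, by omega⟩
      have c5 : e' ≤ L := by omega
      rcases a3 with (a3 | a3) | a3
      · exact Or.inl (Or.inl (Or.inr (Or.inl ⟨e', c5, a3⟩)))
      · exact Or.inl (Or.inl (Or.inl (Or.inl (Or.inl ⟨e', c5, a3⟩))))
      · exact Or.inl (Or.inl (Or.inr (Or.inr ⟨e', c5, a3⟩)))
    · have c3 : y ∈ I \ (F.sk O ft ∪ D) := ⟨hy.resolve_right c2, fun c => c.elim c2 c1⟩
      exact Or.inl (Or.inl (Or.inl (Or.inl (Or.inr ⟨c3, e, e1, e2, u, hu,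
        (Link.single (mem_union_left _ c3) hv' adj.symm).trans hv⟩))))
  have zI : zz H F (I \ (F.sk O ft ∪ D)) l L ⊆ I \ D := by
    rintro v (⟨e, he, hv⟩ | hv)
    · exact ⟨(hb.j _ (by omega)).1 hv, fun c =>
        disjoint_left.1 (h3 (l + e) (by omega) (by omega)) c (Or.inl (Or.inr hv))⟩
    · exact ⟨hv.1.1, fun c => hv.1.2 (Or.inr c)⟩
  have ed : ∀ v ∈ I, ∀ y, H.Adj v y → y ∈ I ∪ F.sk O ft := fun v hv y adj => by
    rcases hF.edge v hv y adj with (c | ⟨e, he, c⟩ | ⟨e, he, c⟩) | c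
    · exact Or.inl c
    · exact Or.inr (Or.inl ⟨e, he, Or.inl (Or.inl c)⟩)
    · exact Or.inr (Or.inl ⟨e, hb.n ▸ he, Or.inr c⟩)
    · exact Or.inr (Or.inr c)
  have pb : (F.sub l L).A.P ∪ (F.sub l L).B.P ⊆ band F l (l + L) :=
    fun v hv => hv.elim Or.inl fun c => Or.inr (Or.inl c)
  have pI : Disjoint (F.A.P ∪ F.B.P) I := disjoint_left.2 fun v hv c =>
    hv.elim (fun k => (hb.a.sub k).2 c) fun k => (hb.b.sub k).2 c
  have pP : (F.sub l L).A.P ∪ (F.sub l L).B.P ⊆ F.A.P ∪ F.B.P :=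
    union_subset_union (fun _ c => c.1) fun _ c => c.1
  have out : ∀ x y, y ≤ F.A.n → y < l ∨ l + L < x →
      Disjoint (rows F x y) ((F.sub l L).dom (zz H F (I \ (F.sk O ft ∪ D)) l L)) := by
    intro x y hy c
    have d1 : Disjoint (band F x y) (band F l (l + L)) :=
      c.elim (fun c => band_dis hb c (by omega) hy) fun c => (band_dis hb c hy (by omega)).symm
    refine Disjoint.mono_left (rows_band hb hy le_rfl le_rfl) (disjoint_right.2 ?_)
    rintro v (((⟨e, he, hv⟩ | hv) | hv) | hv)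
    · exact disjoint_right.1 d1 (Or.inr (Or.inr ⟨l + e, by omega, by omega, hv⟩))
    · exact disjoint_left.1 (br_band hb hy) hv.1
    · exact disjoint_right.1 d1 (pb (Or.inl hv))
    · exact disjoint_right.1 d1 (pb (Or.inr hv))
  refine ⟨bas_sub hb (by omega), ⟨zI, fun e he v hv => Or.inl ⟨e, he, hv⟩⟩, ?_,
    ⟨(band_dis hb (by omega) h2 (by omega)).mono (rows_band hb (by omega) le_rfl le_rfl)
      (rows_band hb h2 le_rfl le_rfl),
      disjoint_union_left.2 ⟨out _ _ (by omega) (by omega), out _ _ h2 (by omega)⟩⟩,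
    ?_, ⟨?_, ?_⟩, hf⟩
  · refine disjoint_left.2 fun v hv hp => ?_
    rcases hD hv with c | ⟨e, he, c⟩ | ⟨x, hx, c⟩
    · exact disjoint_left.1 pI (pP hp) c
    · by_cases c1 : e < l
      · exact disjoint_left.1 (band_dis hb c1 (by omega) he)
          (row_band hb he le_rfl le_rfl (low_row F e c)) (pb hp)
      by_cases c2 : l + L < e
      · exact disjoint_left.1 (band_dis hb c2 he (by omega)) (pb hp)
          (row_band hb he le_rfl le_rfl (low_row F e c))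
      exact disjoint_left.1 (h3 e (by omega) (by omega)) hv c
    · obtain ⟨-, -, -, -, -, -, a1, -, -, a2, -⟩ := hF.oth x hx
      exact disjoint_left.1 a2 (a1 c) ((pP hp).elim (fun k => Or.inl (Or.inr k)) Or.inr)
  · rintro v (⟨e, he, hv⟩ | ⟨hv, e, e1, e2, u, hu, hl⟩)
    · exact ⟨e, he, v, Or.inl (Or.inr hv), Link.refl _ _ _⟩
    · obtain ⟨e, rfl⟩ : ∃ x, e = l + x := ⟨e - l, by omega⟩
      refine ⟨e, show e ≤ L by omega, u, hu, (link_self hl).mono (union_subset_union_left _ ?_)⟩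
      rintro x ⟨x1, x2⟩
      refine ⟨Or.inr ⟨x1, _, e1, e2, u, hu, x2⟩, ?_⟩
      rintro ⟨e', he', c⟩
      have : e' ≤ L := he'
      exact x1.2 (Or.inl (Or.inl ⟨l + e', by omega, Or.inl (Or.inr c)⟩))
  · intro v hv y adj
    have hy := ed v (zI hv).1 y adj
    rcases hv with ⟨e, he, hv⟩ | ⟨hv, e, e1, e2, u, hu, hl⟩
    · exact key (l + e) (by omega) (by omega) v (Or.inl (Or.inr hv)) v (Link.refl _ _ _)
        (Or.inr rfl) y hy adj
    · exact key e e1 e2 u hu v hl (Or.inl hv) y hy adj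
  · intro v hv y hy adj
    have k : ∃ e ≤ L, v ∈ F.low (l + e) :=
      hv.elim (fun ⟨e, he, c⟩ => ⟨e, he, Or.inl (Or.inl c)⟩) fun ⟨e, he, c⟩ => ⟨e, he, Or.inr c⟩
    obtain ⟨e, he, c⟩ := k
    rcases key (l + e) (by omega) (by omega) v c v (Link.refl _ _ _) (Or.inr rfl) y (Or.inl hy)
      adj with ((c | ⟨e', he', c⟩ | ⟨e', he', c⟩) | c) | c
    · exact Or.inl (Or.inl c)
    · have : e' ≤ L := he'
      exact absurd hy (hb.a.sub ((hb.a.col (l + e') (by omega) y).1 (foot_col _ _ c)).1).2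
    · have : e' ≤ L := he'
      exact absurd hy
        (hb.b.sub ((hb.b.col (l + e') (by have := hb.n; omega) y).1 (foot_col _ _ c)).1).2
    · exact Or.inl (Or.inr c)
    · exact Or.inr c

open Classical in
/-- a set together with the ports that it meets -/
noncomputable def ext (P S T : Set V) : Set V :=
  P ∪ (if (P ∩ S).Nonempty then S else ∅) ∪ if (P ∩ T).Nonempty then T else ∅

theorem conn_ext1 {P Q S : Set V} [Decidable (P ∩ S).Nonempty] (hQ : Conn H Q) (hS : Conn H S)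
    (h : P ⊆ Q) : Conn H (Q ∪ if (P ∩ S).Nonempty then S else ∅) := by
  split_ifs with c
  · exact pl.conn_union hQ hS (h c.some_mem.1) c.some_mem.2
  · rwa [union_empty]

theorem two_ext {W P Q S T : Set V} (h : Two H W P Q) (hS : Conn H S) (hT : Conn H T)
    (s : S ⊆ W) (t : T ⊆ W) (d : Disjoint S T) (d1 : Disjoint P S ∨ Disjoint Q S)
    (d2 : Disjoint P T ∨ Disjoint Q T) : Two H W (ext P S T) (ext Q S T) := by
  have k : ∀ {X : Set V}, X ⊆ W → ext X S T ⊆ W := fun hX => by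
    unfold ext
    split_ifs <;> simp [*]
  classical
  refine ⟨k h.sp, k h.sq, conn_ext1 (conn_ext1 h.cp hS subset_rfl) hT subset_union_left,
    conn_ext1 (conn_ext1 h.cq hS subset_rfl) hT subset_union_left, ?_⟩
  have d0 := h.dis
  have d' := d.symm
  unfold ext
  simp only [← not_disjoint_iff_nonempty_inter]
  by_cases a1 : Disjoint P S <;> by_cases a2 : Disjoint Q S <;> by_cases a3 : Disjoint P T <;>
    by_cases a4 : Disjoint Q T <;> simp_all [disjoint_comm]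

theorem cross (hb : Bas H U I F) (hp : ∀ e ≤ F.A.n, F.A.o e = ob (a e) ∧ F.B.o e = ob (b e))
    {l L w : ℕ} (h1 : w ≤ l) (h2 : l + L + w ≤ F.A.n) (hw : 0 < w) {W : Set V}
    (s : rows F (l - w) (l - 1) ⊆ W) (t : rows F (l + L + 1) (l + L + w) ⊆ W)
    (hf : PX H W (rows F (l - w) (l - 1) :: sg ((List.range (L + 1)).map (F.sub l L).A.o) ++
        rows F (l + L + 1) (l + L + w) :: sg ((List.range (L + 1)).map (F.sub l L).B.o).reverse)) :
    ∃ (X X' : Set V) (z : Fin 4 → ℕ), Two H W X X' ∧ StrictMono z ∧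
      (∀ t, z t ∈ Icc (l - w) (l + L + w) ∨
        z t ∈ Icc (2 * (F.A.n + 1) - 1 - (l + L + w)) (2 * (F.A.n + 1) - 1 - (l - w))) ∧
      ob (sp (F.A.n + 1) a b (z 0)) ∈ X ∧ ob (sp (F.A.n + 1) a b (z 2)) ∈ X ∧
      ob (sp (F.A.n + 1) a b (z 1)) ∈ X' ∧ ob (sp (F.A.n + 1) a b (z 3)) ∈ X' := by
  classical
  set S := rows F (l - w) (l - 1) with hS
  set T := rows F (l + L + 1) (l + L + w) with hT
  let port : ℕ → Set V := fun z =>
    if z = l - 1 then S else if z = l + L + 1 then T else {ob (sp (F.A.n + 1) a b z)}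
  let ζ : List ℕ := (l - 1) :: (List.range (L + 1)).map (l + ·) ++ (l + L + 1) ::
    ((List.range (L + 1)).map fun e => 2 * (F.A.n + 1) - 1 - (l + e)).reverse
  have e : S :: sg ((List.range (L + 1)).map (F.sub l L).A.o) ++
      T :: sg ((List.range (L + 1)).map (F.sub l L).B.o).reverse = ζ.map port := by
    simp only [ζ, sg, List.map_append, List.map_cons, List.map_map, List.map_reverse]
    refine congrArg₂ _ (congrArg₂ _ (by simp [port]) (List.map_congr_left fun e he => ?_))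
      (congrArg₂ _ ?_ (congrArg _ (List.map_congr_left fun e he => ?_)))
    · rw [List.mem_range] at he
      simp only [comp, port]
      rw [if_neg (by omega), if_neg (by omega), sp, if_pos (by omega), ← (hp _ (by omega)).1]
      rfl
    · simp only [port]
      rw [if_neg (by omega), if_pos trivial]
    · rw [List.mem_range] at he
      simp only [comp, port]
      rw [if_neg (by omega), if_neg (by omega), sp, if_neg (by omega),
        show 2 * (F.A.n + 1) - 1 - (2 * (F.A.n + 1) - 1 - (l + e)) = l + e by omega,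
        ← (hp _ (by omega)).2]
      rfl
  have hζ : ζ.Pairwise (· < ·) := by
    simp only [ζ, List.pairwise_append, List.pairwise_cons, List.pairwise_reverse,
      List.pairwise_map, List.mem_map, List.mem_range, List.mem_cons, List.mem_reverse]
    refine ⟨⟨?_, List.pairwise_lt_range.imp fun _ => by omega⟩,
      ⟨?_, List.pairwise_lt_range.imp_of_mem fun _ k _ => by rw [List.mem_range] at k; omega⟩, ?_⟩
    · rintro _ ⟨x, _, rfl⟩; omega
    · rintro _ ⟨x, _, rfl⟩; omega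
    · rintro _ (rfl | ⟨x, _, rfl⟩) _ (rfl | ⟨y, _, rfl⟩) <;> omega
  have hm : ∀ z ∈ ζ, z ∈ Icc (l - w) (l + L + w) ∨
      z ∈ Icc (2 * (F.A.n + 1) - 1 - (l + L + w)) (2 * (F.A.n + 1) - 1 - (l - w)) := by
    simp only [ζ, List.mem_append, List.mem_cons, List.mem_reverse, List.mem_map, List.mem_range,
      mem_Icc]
    rintro _ ((rfl | ⟨x, _, rfl⟩) | rfl | ⟨x, _, rfl⟩) <;> omega
  have ho : ∀ e ≤ F.A.n, ob (sp (F.A.n + 1) a b e) ∈ F.row e := fun e he => by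
    rw [sp, if_pos (by omega), ← (hp e he).1]
    exact Or.inl (Or.inl (Or.inl (hb.a.lam e he).2.2.1))
  have hx : ∀ (X : Set V) (z : ℕ), (X ∩ port z).Nonempty →
      ob (sp (F.A.n + 1) a b z) ∈ ext X S T := fun X z hz => by
    simp only [port] at hz
    unfold ext
    split_ifs at hz with c1 c2
    · rw [if_pos hz, c1]
      exact Or.inl (Or.inr (row_rows F (by omega) le_rfl (ho _ (by omega))))
    · rw [if_pos hz, c2]
      exact Or.inr (row_rows F le_rfl (by omega) (ho _ (by omega)))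
    · exact Or.inl (Or.inl (inter_singleton_nonempty.1 hz))
  obtain ⟨p0, p1, p2, p3, hs, P, Q, hT, a0, a2, a1, a3, hd⟩ := hf
  have d1 := hd S (by simp)
  have d2 := hd T (by simp)
  rw [e] at hs
  obtain ⟨z0, z1, z2, z3, hz, rfl, rfl, rfl, rfl⟩ := nf.sub4_map.1 hs
  have hl := hζ.sublist hz
  obtain ⟨m0, m1, m2, m3⟩ := nf.sub4_mem hz
  simp only [List.pairwise_cons, List.mem_cons, forall_eq_or_imp] at hl
  refine ⟨ext P S T, ext Q S T, ![z0, z1, z2, z3],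
    two_ext hT (conn_rows hb (by omega) (by omega)) (conn_rows hb (by omega) h2) s t
      ((band_dis hb (by omega) h2 (by omega)).mono (rows_band hb (by omega) le_rfl le_rfl)
        (rows_band hb h2 le_rfl le_rfl)) d1 d2,
    Fin.strictMono_iff_lt_succ.2 fun t => ?_, fun t => ?_, hx _ _ a0, hx _ _ a2, hx _ _ a1,
    hx _ _ a3⟩
  · fin_cases t
    exacts [hl.1.1, hl.2.1.1, hl.2.2.1.1]
  · fin_cases t
    exacts [hm _ m0, hm _ m1, hm _ m2, hm _ m3]

theorem core_sub (hb : Bas H U I F) {l L : ℕ} (hl : l + L ≤ F.A.n) :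
    (F.sub l L).core ⊆ F.core ∩ band F l (l + L) := by
  have hs := bas_sub hb hl
  rintro v (((⟨e, he, c⟩ | ⟨e, he, c⟩) | c) | c)
  · have : e ≤ L := he
    exact ⟨Or.inl (Or.inl (Or.inl ⟨l + e, by omega, c⟩)), Or.inl ((hs.a.col e he v).1 c).1⟩
  · have : e ≤ L := he
    exact ⟨Or.inl (Or.inl (Or.inr ⟨l + e, by have := hb.n; omega, c⟩)),
      Or.inr (Or.inl ((hs.b.col e he v).1 c).1)⟩
  · exact ⟨Or.inl (Or.inr ⟨c.1.1, c.2⟩), Or.inl c.1⟩
  · exact ⟨Or.inr ⟨c.1.1, c.2⟩, Or.inr (Or.inl c.1)⟩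

theorem band_mono {x y x' y' : ℕ} (h1 : x' ≤ x) (h2 : y ≤ y') : band F x y ⊆ band F x' y' := by
  rintro v (a | a | ⟨e, a1, a2, a⟩)
  · exact Or.inl ⟨a.1, by omega, by omega⟩
  · exact Or.inr (Or.inl ⟨a.1, by omega, by omega⟩)
  · exact Or.inr (Or.inr ⟨e, by omega, by omega, a⟩)

end blkA

open blkA

theorem blkS : NfS → PanS → XbS → IsoS → BlkS := by
  intro _ _ hX hI h
  obtain ⟨w0, Q, -, HX⟩ := hX h
  obtain ⟨N, w, hw, HI⟩ := hI h Q w0
  refine ⟨N, fun L => ?_⟩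
  obtain ⟨M, HI⟩ := HI L
  refine ⟨M, fun V _ G H n Ur U I ob F a b O ft cl hF hM => ?_⟩
  obtain ⟨D, lo, d1, d2, d3, d4⟩ := HI V G H n Ur U I ob F a b O ft cl hF hM
  have hb := hF.bas
  by_contra hc
  have rU : ∀ e ≤ F.A.n, F.row e ⊆ Ur := by
    rintro e he v ((c | c) | c)
    · exact hF.ur (Or.inr (Or.inl (Or.inl (Or.inl ⟨e, he, c⟩))))
    · exact hF.ur (Or.inl ((hb.j e he).1 c))
    · exact hF.ur (Or.inr (Or.inl (Or.inl (Or.inr ⟨e, hb.n ▸ he, c⟩))))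
  have key : ∀ q, ∃ (X X' : Set V) (z : Fin 4 → ℕ), q < Q → Two G Ur X X' ∧
      X ∪ X' ⊆ band F (lo q - w) (lo q + L + w) ∪ brd H F (I \ (F.sk O ft ∪ D)) (lo q) L ∧
      StrictMono z ∧ (∀ t, z t ∈ Icc (lo q - w) (lo q + L + w) ∨ z t ∈
        Icc (2 * (F.A.n + 1) - 1 - (lo q + L + w)) (2 * (F.A.n + 1) - 1 - (lo q - w))) ∧
      ob (sp (F.A.n + 1) a b (z 0)) ∈ X ∧ ob (sp (F.A.n + 1) a b (z 2)) ∈ X ∧
      ob (sp (F.A.n + 1) a b (z 1)) ∈ X' ∧ ob (sp (F.A.n + 1) a b (z 3)) ∈ X' := fun q => by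
    by_cases hq : q < Q
    swap
    · exact ⟨∅, ∅, 0, fun c => absurd c hq⟩
    obtain ⟨a1, a2, a3, a4⟩ := d3 q hq
    obtain ⟨X, X', z, hT, hz⟩ := cross hb hF.pos (by omega) (by omega) hw
      (subset_union_right.trans subset_union_left) subset_union_right
      (not_not.1 fun hf => hc ⟨D, lo q, _, _, _, d1, d2, by omega,
        mk hF d2 (by omega) (by omega) hw a3 a4 hf⟩)
    have s : ∀ v ∈ zz H F (I \ (F.sk O ft ∪ D)) (lo q) L ∪ (F.sub (lo q) L).core ∪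
        rows F (lo q - w) (lo q - 1) ∪ rows F (lo q + L + 1) (lo q + L + w), v ∈ Ur ∧
        v ∈ band F (lo q - w) (lo q + L + w) ∪ brd H F (I \ (F.sk O ft ∪ D)) (lo q) L := by
      rintro v ((((⟨e, he, c⟩ | c) | c) | c) | c)
      · exact ⟨hF.ur (Or.inl ((hb.j _ (by omega)).1 c)),
          Or.inl (Or.inr (Or.inr ⟨lo q + e, by omega, by omega, c⟩))⟩
      · exact ⟨hF.ur (Or.inl c.1.1), Or.inr c⟩
      · have := core_sub hb (by omega) c
        exact ⟨hF.ur (Or.inr this.1), Or.inl (band_mono (by omega) (by omega) this.2)⟩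
      · exact ⟨iUnion₂_subset (fun e he => rU e (by have := he.2; omega)) c,
          Or.inl (rows_band hb (by omega) le_rfl (by omega) c)⟩
      · exact ⟨iUnion₂_subset (fun e he => rU e (by have := he.2; omega)) c,
          Or.inl (rows_band hb (by omega) (by omega) le_rfl c)⟩
    exact ⟨X, X', z, fun _ => ⟨⟨fun v c => (s v (hT.sp c)).1, fun v c => (s v (hT.sq c)).1,
      pl.conn_mono hT.cp hF.le, pl.conn_mono hT.cq hF.le, hT.dis⟩,
      fun v c => (s v (c.elim (fun k => hT.sp k) fun k => hT.sq k)).2, hz⟩⟩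
  choose X X' z key using key
  refine HX V G n Ur ob (F.A.n + 1) a b F.row X X' (fun q => lo q - w) (fun q => lo q + L + w) z
    hF.univ ⟨⟨fun e he => ⟨rU e (by omega), pl.conn_mono (conn_row hb (by omega)) hF.le, ?_, ?_⟩,
      fun e he e' he' c => row_dis hb (by omega) (by omega) c⟩,
      fun i j c hj => hF.ma i j c (by omega), hF.mb,
      fun i hi j hj => hF.ab i (by omega) j (by omega)⟩ (fun q hq => ?_) (fun s t c ht => ?_)
    fun r hr hf q hq => ?_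
  · rw [comp_apply, ← (hF.pos e (by omega)).1]
    exact Or.inl (Or.inl (Or.inl (hb.a.lam e (by omega)).2.2.1))
  · rw [comp_apply, ← (hF.pos e (by omega)).2]
    exact Or.inr (Or.inl (hb.b.lam e (by have := hb.n; omega)).2.2.1)
  · obtain ⟨a1, a2, -⟩ := d3 q hq
    obtain ⟨b1, -, b2⟩ := key q hq
    exact ⟨b1, by omega, by omega, by omega, b2⟩
  · obtain ⟨a1, a2, -, a4⟩ := d3 s (by omega)
    obtain ⟨b1, b2, b3, -⟩ := d3 t ht
    have c1 := d4 s t c ht
    refine ⟨by omega, Disjoint.mono (key s (by omega)).2.1 (key t ht).2.1 (disjoint_left.2 ?_)⟩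
    rintro v (x | x) (y | y)
    · exact disjoint_left.1 (band_dis hb (by omega) (by omega) (by omega)) x y
    · exact disjoint_left.1 (br_band hb (by omega)) y.1 x
    · exact disjoint_left.1 (br_band hb (by omega)) x.1 y
    · obtain ⟨-, e, e1, e2, u, hu, l1⟩ := x
      obtain ⟨-, e', f1, f2, u', hu', l2⟩ := y
      obtain ⟨e'', g1, g2, g3⟩ := a4 e e1 e2 u hu u'
        ⟨Or.inl ⟨e', by omega, hu'⟩, disjoint_right.1 (b3 e' (by omega) (by omega)) hu'⟩
        ((l1.symm.mono (union_subset_union_right _ (by simp))).trans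
          (l2.mono (union_subset_union_right _ (by simp))))
      exact disjoint_left.1 (row_dis hb (by omega) (by omega) (show e'' ≠ e' by omega))
        (low_row F _ g3) (low_row F _ hu')
  · obtain ⟨a1, a2, -⟩ := d3 q hq
    have f := hf q hq
    simp only [mem_Icc] at f
    have r1 := row_band hb (show r ≤ F.A.n by omega) le_rfl le_rfl
    refine Disjoint.mono r1 (key q hq).2.1 (disjoint_union_right.2 ⟨?_,
      ((br_band hb (by omega)).mono_left fun _ c => c.1).symm⟩)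
    by_cases c : r < lo q - w
    · exact band_dis hb c (by omega) (by omega)
    · exact (band_dis hb (by omega) (by omega) (by omega)).symm

end Pool.Agent.MP_9d78a0_co.st

end MrgPart2

-- ======== part 3: formerly Pool.Agent.MP_9d78a0_co.st.Xcap
section MrgPart3

/-! A twisted band: one child and one item. -/

set_option autoImplicit false

namespace Pool.Agent.MP_9d78a0_co.st

open Set Function fb

namespace xcap

variable {V : Type} {H : SimpleGraph V} {U D Z : Set V} {Ω : List V} {c : CD V}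
  {lev ang pos : V → ℕ} {F : FD V} {σ : SD V} {a0 b0 r0 r1 u m : ℕ} {v : V}

theorem res_eq (t : Tight H U) : res H U = H := by
  ext a b
  exact ⟨fun h => h.1, fun h => ⟨h, t _ _ h, t _ _ h.symm⟩⟩

theorem memN (hu : u + m < c.t) :
    v ∈ (c.pan U lev ang u m).P ↔ v ∈ U \ c.I ∧ 2 * u ≤ ang v ∧ ang v ≤ 2 * (u + m) := by
  show v ∈ U \ c.I ∧ ang v < 2 * c.t ∧ (ang v + 2 * c.t - 2 * u) % (2 * c.t) ≤ 2 * m ↔ _
  refine and_congr_right fun _ => ⟨fun h => ?_, fun h => ?_⟩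
  · have := pan.md (x := ang v + 2 * c.t - 2 * u) (m := 2 * c.t) (by omega)
    omega
  · have := pan.md (x := ang v + 2 * c.t - 2 * u) (m := 2 * c.t) (by omega)
    omega

theorem kapN (h : 2 * u ≤ ang v) (h' : ang v < 2 * c.t) :
    (c.pan U lev ang u m).κ v = ang v - 2 * u := by
  show (ang v + 2 * c.t - 2 * u) % (2 * c.t) = _
  have := pan.md (x := ang v + 2 * c.t - 2 * u) (m := 2 * c.t) (by omega)
  omega

theorem memW (hu : u < c.t) (h : c.t ≤ u + m) :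
    v ∈ (c.pan U lev ang u m).P ↔
      v ∈ U \ c.I ∧ ang v < 2 * c.t ∧ (2 * u ≤ ang v ∨ ang v + 2 * c.t ≤ 2 * (u + m)) := by
  show v ∈ U \ c.I ∧ ang v < 2 * c.t ∧ (ang v + 2 * c.t - 2 * u) % (2 * c.t) ≤ 2 * m ↔ _
  refine and_congr_right fun _ => and_congr_right fun _ => ?_
  have := pan.md (x := ang v + 2 * c.t - 2 * u) (m := 2 * c.t) (by omega)
  omega

theorem col_cols (ht : 0 < c.t) (e : ℕ) : (c.pan U lev ang u m).col e ⊆ c.cols :=
  fun _ hv => ⟨(u + e) % c.t, Nat.mod_lt _ ht, hv⟩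

theorem lin_arc (a k : ℕ) : (c.pan U lev ang u m).lin a k = arc c.o c.seg c.t (u + a) k := by
  simp [PD.lin, CD.pan, arc, add_assoc]

theorem arc_add (o : ℕ → V) (seg : ℕ → List V) (t x a b : ℕ) :
    arc o seg t x (a + 1 + b) = arc o seg t x a ++ seg ((x + a) % t) ++ arc o seg t (x + a + 1) b := by
  induction b with
  | zero => simp [arc, List.range_succ, List.flatMap_append, add_assoc]
  | succ b ih =>
    have k : ∀ y n, arc o seg t y (n + 1) =
        arc o seg t y n ++ seg ((y + n) % t) ++ [o ((y + (n + 1)) % t)] := fun y n => by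
      simp [arc, List.range_succ, List.flatMap_append]
    rw [← add_assoc, k, ih, k]
    simp only [List.append_assoc, add_assoc]

theorem arc_mod (o : ℕ → V) (seg : ℕ → List V) {t x y : ℕ} (k : ℕ) (h : x = y + t) :
    arc o seg t x k = arc o seg t y k := by
  have e : ∀ j, (y + t + j) % t = (y + j) % t := fun j => by
    rw [add_right_comm, Nat.add_mod_right]
  simp only [arc, h, e]

theorem gap_eqv {p q : PD V} (h : p.Eqv q) (hn : p.n = 2 * σ.w + σ.K + 3) : σ.gap p = σ.gap q := by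
  unfold SD.gap
  rw [h.2.2.2.2.2 _ (by omega), h.2.2.2.2.2 _ (by omega), eqv.lin h _ _ (by omega)]

theorem gap_pan : σ.gap (c.pan U lev ang u m) = c.seg ((u + σ.w) % c.t) ++
    arc c.o c.seg c.t (u + σ.w + 1) (σ.K + 1) ++ c.seg ((u + σ.w + σ.K + 2) % c.t) := by
  unfold SD.gap
  rw [lin_arc]
  simp only [CD.pan, add_assoc]

theorem word (h1 : b0 + σ.w + σ.K + 3 + r1 = a0 + σ.w + c.t)
    (h0 : a0 + σ.w + σ.K + 3 + r0 = b0 + σ.w) (hu : b0 + σ.w + σ.K + 3 < c.t) :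
    List.IsRotated (cyc c.o c.seg c.t)
      ((c.pan U lev ang (b0 + σ.w + σ.K + 3) r1).lin 0 r1 ++ σ.gap (c.pan U lev ang a0 m) ++
        (c.pan U lev ang (a0 + σ.w + σ.K + 3) r0).lin 0 r0 ++ σ.gap (c.pan U lev ang b0 m)) := by
  have h := eqv.rot c U lev ang hu
  have md : ∀ x y, x = y + c.t → x % c.t = y % c.t := fun x y e => by rw [e, Nat.add_mod_right]
  rw [lin_arc, md (b0 + σ.w + σ.K + 3 + (c.t - 1)) (b0 + σ.w + σ.K + 2) (by omega),
    show c.t - 1 = r1 + 1 + (σ.K + 1 + 1 + (r0 + 1 + (σ.K + 1))) by omega, arc_add, arc_add, arc_add,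
    md (b0 + σ.w + σ.K + 3 + 0 + r1) (a0 + σ.w) (by omega),
    arc_mod _ _ (x := b0 + σ.w + σ.K + 3 + 0 + r1 + 1) (y := a0 + σ.w + 1) _ (by omega),
    md (b0 + σ.w + σ.K + 3 + 0 + r1 + 1 + (σ.K + 1)) (a0 + σ.w + σ.K + 2) (by omega),
    arc_mod _ _ (x := b0 + σ.w + σ.K + 3 + 0 + r1 + 1 + (σ.K + 1) + 1)
      (y := a0 + σ.w + σ.K + 3 + 0) _ (by omega),
    md (b0 + σ.w + σ.K + 3 + 0 + r1 + 1 + (σ.K + 1) + 1 + r0) (b0 + σ.w) (by omega),
    arc_mod _ _ (x := b0 + σ.w + σ.K + 3 + 0 + r1 + 1 + (σ.K + 1) + 1 + r0 + 1)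
      (y := b0 + σ.w + 1) _ (by omega)] at h
  rw [lin_arc, lin_arc, gap_pan, gap_pan]
  simpa only [List.append_assoc] using h

/-- the boundary of the child -/
def dd (c : CD V) (U : Set V) (lev ang : V → ℕ) (F : FD V) (σ : SD V) (a0 b0 r0 r1 : ℕ) : HD V where
  k := 2
  w := σ.w
  s := c.s
  arc := fun i => if i = 0 then c.pan U lev ang (b0 + σ.w + σ.K + 3) r1
    else (c.pan U lev ang (a0 + σ.w + σ.K + 3) r0).rev
  J := fun i => if i = 0 then (σ.FL F).J else (σ.FR F).J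
  W := fun i => if i = 0 then σ.WL else σ.WR
  pos := fun i => if i = 0 then σ.pL else σ.pR
  mid := fun i => if i = 0 then σ.midL F else (σ.midR F).reverse

structure Cf (H : SimpleGraph V) (U D Z : Set V) (Ω : List V) (c : CD V) (lev ang pos : V → ℕ)
    (F : FD V) (σ : SD V) (a0 b0 r0 r1 : ℕ) : Prop where
  col : Col H U Ω c
  crd : Crd H U Ω c lev ang
  str : Str H U c.I D F Z pos
  seam : Seam H U D F Z pos σ
  ea : F.A.Eqv (c.pan U lev ang a0 (2 * σ.w + σ.K + 3))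
  eb : F.B.Eqv (c.pan U lev ang b0 (2 * σ.w + σ.K + 3))
  d : D ⊆ c.I ∪ c.ring 0
  h1 : b0 + σ.w + σ.K + 3 + r1 = a0 + σ.w + c.t
  h0 : a0 + σ.w + σ.K + 3 + r0 = b0 + σ.w
  g0 : 2 * σ.w + 2 ≤ r0
  g1 : b0 + 2 * σ.w + σ.K + 4 < c.t

namespace Cf

variable (C : Cf H U D Z Ω c lev ang pos F σ a0 b0 r0 r1)
include C

theorem inA : v ∈ F.A.P ↔
    v ∈ U \ c.I ∧ 2 * a0 ≤ ang v ∧ ang v ≤ 2 * (a0 + (2 * σ.w + σ.K + 3)) := by
  have := C.h0
  have := C.g0
  have := C.g1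
  rw [C.ea.2.2.1, memN (by omega)]

theorem inB : v ∈ F.B.P ↔
    v ∈ U \ c.I ∧ 2 * b0 ≤ ang v ∧ ang v ≤ 2 * (b0 + (2 * σ.w + σ.K + 3)) := by
  have := C.g1
  rw [C.eb.2.2.1, memN (by omega)]

theorem posA (hv : v ∈ F.A.P) : pos v = ang v - 2 * a0 := by
  have := C.h0
  have := C.g0
  have := C.g1
  have := C.inA.1 hv
  rw [C.str.kap.1 v hv, (C.ea.2.2.2.1 v hv).1, kapN (by omega) (by omega)]

theorem posB (hv : v ∈ F.B.P) : pos v = ang v - 2 * b0 := by
  have := C.g1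
  have := C.inB.1 hv
  rw [C.str.kap.2 v hv, (C.eb.2.2.2.1 v hv).1, kapN (by omega) (by omega)]

theorem in1 : v ∈ ((dd c U lev ang F σ a0 b0 r0 r1).arc 0).P ↔ v ∈ U \ c.I ∧ ang v < 2 * c.t ∧
    (2 * (b0 + σ.w + σ.K + 3) ≤ ang v ∨ ang v ≤ 2 * (a0 + σ.w)) := by
  have := C.h0
  have := C.h1
  have := C.g0
  have := C.g1
  show v ∈ (c.pan U lev ang (b0 + σ.w + σ.K + 3) r1).P ↔ _
  rw [memW (by omega) (by omega)]
  exact and_congr_right fun _ => and_congr_right fun _ => by omega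

theorem in0 : v ∈ ((dd c U lev ang F σ a0 b0 r0 r1).arc 1).P ↔ v ∈ U \ c.I ∧
    2 * (a0 + σ.w + σ.K + 3) ≤ ang v ∧ ang v ≤ 2 * (b0 + σ.w) := by
  have := C.h0
  have := C.g1
  show v ∈ (c.pan U lev ang (a0 + σ.w + σ.K + 3) r0).P ↔ _
  rw [memN (by omega)]
  exact and_congr_right fun _ => by omega

theorem pan1 (hP : PanS) : Pan H U c.I (c.pan U lev ang (b0 + σ.w + σ.K + 3) r1) := by
  have := C.h0
  have := C.h1
  have := C.g1
  exact (hP V H U c.I).1 Ω c lev ang _ _ C.col C.crd (by omega) (by omega) subset_rfl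
    fun _ _ _ h _ => h

theorem pan0 (hP : PanS) : Pan H U c.I (c.pan U lev ang (a0 + σ.w + σ.K + 3) r0) := by
  have := C.h0
  have := C.g1
  exact (hP V H U c.I).1 Ω c lev ang _ _ C.col C.crd (by omega) (by omega) subset_rfl
    fun _ _ _ h _ => h

theorem eL (hP : PanS) : (σ.FL F).Eqv ((dd c U lev ang F σ a0 b0 r0 r1).F 0) := by
  have := C.h0
  have := C.h1
  have := C.g0
  have := C.g1
  have hn := C.seam.n
  have hb := C.str.bas.n
  have k0 := fun v hv => ((C.pan0 hP).rng v hv).2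
  refine ⟨?_, ?_, fun _ _ => rfl⟩
  · show (F.A.sub 0 σ.w).Eqv ((c.pan U lev ang (b0 + σ.w + σ.K + 3) r1).sub (r1 - σ.w) σ.w)
    refine eqv.trans (eqv.trans (eqv.sub C.ea (by omega))
      (eqv.pan_sub c U lev ang (by omega) (by omega) (by omega))) (eqv.symm ?_)
    rw [show (a0 + 0) % c.t = (b0 + σ.w + σ.K + 3 + (r1 - σ.w)) % c.t by
      rw [show b0 + σ.w + σ.K + 3 + (r1 - σ.w) = a0 + 0 + c.t by omega, Nat.add_mod_right]]
    exact eqv.pan_sub c U lev ang (by omega) (by omega) (by omega)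
  · show (F.B.sub 0 σ.w).Eqv ((c.pan U lev ang (a0 + σ.w + σ.K + 3) r0).rev.sub 0 σ.w).rev
    refine eqv.trans (eqv.trans (eqv.sub C.eb (by omega))
      (eqv.pan_sub c U lev ang (by omega) (by omega) (by omega))) (eqv.symm ?_)
    have e1 := eqv.rev (eqv.rev_sub k0 (u := 0) (m := σ.w) (show 0 + σ.w ≤ r0 by omega))
    refine eqv.trans e1 (eqv.trans (eqv.rev_rev fun v hv => ?_) ?_)
    · have h3 : _ ∧ 2 * (r0 - (0 + σ.w)) ≤ _ ∧ _ ≤ 2 * (r0 - (0 + σ.w) + σ.w) := hv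
      show _ - 2 * (r0 - (0 + σ.w)) ≤ 2 * σ.w
      omega
    · rw [show b0 + 0 = a0 + σ.w + σ.K + 3 + (r0 - (0 + σ.w)) by omega]
      exact eqv.pan_sub c U lev ang (by omega) (by omega) (show r0 - (0 + σ.w) + σ.w ≤ r0 by omega)

theorem eR (hP : PanS) : (σ.FR F).swap.Eqv ((dd c U lev ang F σ a0 b0 r0 r1).F 1) := by
  have := C.h0
  have := C.h1
  have := C.g0
  have := C.g1
  have hn := C.seam.n
  have hb := C.str.bas.n
  have k0 := fun v hv => ((C.pan0 hP).rng v hv).2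
  refine ⟨?_, ?_, fun _ _ => rfl⟩
  · show (F.A.sub (σ.w + σ.K + 3) σ.w).rev.Eqv
      ((c.pan U lev ang (a0 + σ.w + σ.K + 3) r0).rev.sub (r0 - σ.w) σ.w)
    refine eqv.trans (eqv.rev (eqv.trans (eqv.sub C.ea (by omega))
      (eqv.pan_sub c U lev ang (by omega) (by omega) (by omega)))) (eqv.symm ?_)
    refine eqv.trans (eqv.rev_sub k0 (show r0 - σ.w + σ.w ≤ r0 by omega)) (eqv.rev ?_)
    rw [show a0 + (σ.w + σ.K + 3) = a0 + σ.w + σ.K + 3 + (r0 - (r0 - σ.w + σ.w)) by omega]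
    exact eqv.pan_sub c U lev ang (by omega) (by omega)
      (show r0 - (r0 - σ.w + σ.w) + σ.w ≤ r0 by omega)
  · rw [show ((dd c U lev ang F σ a0 b0 r0 r1).F 1).B =
      ((c.pan U lev ang (b0 + σ.w + σ.K + 3) r1).sub 0 σ.w).rev by simp [HD.F, dd]]
    show (F.B.sub (σ.w + σ.K + 3) σ.w).rev.Eqv _
    refine eqv.rev (eqv.trans (eqv.trans (eqv.sub C.eb (by omega))
      (eqv.pan_sub c U lev ang (by omega) (by omega) (by omega))) (eqv.symm ?_))
    rw [show b0 + (σ.w + σ.K + 3) = b0 + σ.w + σ.K + 3 + 0 by omega]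
    exact eqv.pan_sub c U lev ang (by omega) (by omega) (by omega)

theorem arcs (hA : ArcS) (i : ℕ) (hi : i < 2) :
    (∀ v ∈ ((dd c U lev ang F σ a0 b0 r0 r1).arc i).P,
      1 ≤ ((dd c U lev ang F σ a0 b0 r0 r1).arc i).lev v → v ∈ σ.U' ∧
      ∀ y ∈ ((dd c U lev ang F σ a0 b0 r0 r1).arc i).P,
        1 ≤ ((dd c U lev ang F σ a0 b0 r0 r1).arc i).lev y → H.Adj v y → σ.H'.Adj v y) ∧
    σ.WL ∩ ((dd c U lev ang F σ a0 b0 r0 r1).arc i).P ⊆ (σ.FL F).A.P ∪ (σ.FL F).B.P ∧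
    σ.WR ∩ ((dd c U lev ang F σ a0 b0 r0 r1).arc i).P ⊆ (σ.FR F).A.P ∪ (σ.FR F).B.P := by
  have := C.h0
  have := C.g0
  have lv : ∀ v ∈ D, v ∈ U \ c.I → lev v = 0 := fun v hv k => by
    obtain ⟨j, hj, q⟩ := (C.d hv).resolve_left k.2
    exact C.crd.cell 0 (Nat.zero_le _) j hj v q
  refine (hA V H U c.I D F Z pos σ C.str C.seam).2.2.2 _ ?_ ?_ ?_
  · interval_cases i
    · exact fun v hv => (C.in1.1 hv).1
    · exact fun v hv => (C.in0.1 hv).1
  · interval_cases i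
    · exact fun v hv => lv v hv.1 (C.in1.1 hv.2).1
    · exact fun v hv => lv v hv.1 (C.in0.1 hv.2).1
  · have k : ∀ v ∈ F.dom Z, v ∈ U \ c.I → (2 * (b0 + σ.w + σ.K + 3) ≤ ang v ∨
        ang v ≤ 2 * (a0 + σ.w) ∨ (2 * (a0 + σ.w + σ.K + 3) ≤ ang v ∧ ang v ≤ 2 * (b0 + σ.w))) →
        pos v ≤ 2 * σ.w ∨ 2 * (σ.w + σ.K + 3) ≤ pos v := by
      rintro v ((q | q) | q) h1 h2
      · exact absurd (C.str.z.1 q).1 h1.2
      · have := C.posA q
        have := C.inA.1 q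
        omega
      · have := C.posB q
        have := C.inB.1 q
        omega
    interval_cases i
    · intro v hv
      have := C.in1.1 hv.1
      exact k v hv.2 this.1 (by omega)
    · intro v hv
      have := C.in0.1 hv.1
      exact k v hv.2 this.1 (by omega)

theorem apart : Disjoint ((dd c U lev ang F σ a0 b0 r0 r1).arc 0).P
      ((dd c U lev ang F σ a0 b0 r0 r1).arc 1).P ∧
    ¬ Touch H ((dd c U lev ang F σ a0 b0 r0 r1).arc 0).P
      ((dd c U lev ang F σ a0 b0 r0 r1).arc 1).P := by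
  have := C.h0
  have := C.g0
  have := C.g1
  refine ⟨disjoint_left.2 fun v h1 h2 => ?_, ?_⟩
  · have := C.in1.1 h1
    have := C.in0.1 h2
    omega
  · rintro ⟨x, h1, y, h2, e⟩
    have k1 := C.in1.1 h1
    have k2 := C.in0.1 h2
    have k3 := (C.crd.stp x k1.1 y k2.1 e).1 k1.2.1
    have := pan.md (x := ang x + 1) (m := 2 * c.t) (by omega)
    have := pan.md (x := ang y + 1) (m := 2 * c.t) (by omega)
    have := pan.md (x := ang x + 2) (m := 2 * c.t) (by omega)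
    have := pan.md (x := ang y + 2) (m := 2 * c.t) (by omega)
    unfold Stp at k3
    omega

theorem pre (hP : PanS) (hE : EqvS) (hA : ArcS) :
    Pre H U σ.H' σ.U' (dd c U lev ang F σ a0 b0 r0 r1) := by
  have := C.h0
  have := C.h1
  have := C.g0
  have := C.g1
  have a1 := (hA V H U c.I D F Z pos σ C.str C.seam).1
  have hf := (hE V).2.2.2.2.2.2.2.2
  refine ⟨Or.inr rfl, a1.1, a1.2.1, fun i hi => ?_, fun i hi => (C.arcs hA i hi).1,
    fun i hi j hj n => ?_, fun i hi => ?_, fun i hi j hj => ?_⟩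
  · have hi' : i < 2 := hi
    interval_cases i
    · exact ⟨⟨_, C.pan1 hP⟩, rfl, show 2 * σ.w + 2 ≤ r1 by omega⟩
    · exact ⟨⟨_, ((hP V H U c.I).2 _ (C.pan0 hP)).1.1⟩, rfl, show 2 * σ.w + 2 ≤ r0 by omega⟩
  · have hi' : i < 2 := hi
    have hj' : j < 2 := hj
    interval_cases i <;> interval_cases j
    · exact absurd rfl n
    · exact ⟨C.apart.1, C.apart.2, C.seam.w.1⟩
    · exact ⟨C.apart.1.symm, fun q => C.apart.2 q.symm, C.seam.w.1.symm⟩
    · exact absurd rfl n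
  · have hi' : i < 2 := hi
    interval_cases i
    · exact (hf _ _ _ _ _ _ _ C.seam.hl).1 _ (C.eL hP)
    · exact (hf _ _ _ _ _ _ _ (hf _ _ _ _ _ _ _ C.seam.hr).2).1 _ (C.eR hP)
  · have hi' : i < 2 := hi
    interval_cases i
    · rw [← (C.eL hP).1.2.2.1, ← (C.eL hP).2.1.2.2.1]
      exact (C.arcs hA j hj).2.1
    · rw [← (C.eR hP).1.2.2.1, ← (C.eR hP).2.1.2.2.1, union_comm]
      exact (C.arcs hA j hj).2.2

theorem top (hv : v ∈ σ.U') (hI : v ∈ U \ c.I) (hl : c.s ≤ lev v) (ha : ang v < 2 * c.t) :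
    v ∈ (dd c U lev ang F σ a0 b0 r0 r1).top := by
  have := C.h0
  have := C.g0
  have hn := C.seam.n
  have k : v ∈ F.dom Z → 2 * σ.w < pos v → pos v < 2 * (σ.w + σ.K + 3) →
      v ∈ (dd c U lev ang F σ a0 b0 r0 r1).top := fun h1 h2 h3 => by
    rcases C.seam.w.2.ge ⟨h1, hv⟩ with q | q
    · refine ⟨0, Nat.zero_lt_two, Or.inr ⟨q, ?_⟩⟩
      have := C.seam.pl.1 v q
      show 2 * σ.w ≤ σ.pL v
      omega
    · refine ⟨1, Nat.one_lt_two, Or.inr ⟨q, ?_⟩⟩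
      have := C.seam.pr.1 v q
      show 2 * σ.w ≤ σ.pR v
      omega
  by_cases c1 : 2 * (b0 + σ.w + σ.K + 3) ≤ ang v ∨ ang v ≤ 2 * (a0 + σ.w)
  · exact ⟨0, Nat.zero_lt_two, Or.inl ⟨C.in1.2 ⟨hI, ha, c1⟩, hl⟩⟩
  by_cases c0 : 2 * (a0 + σ.w + σ.K + 3) ≤ ang v ∧ ang v ≤ 2 * (b0 + σ.w)
  · exact ⟨1, Nat.one_lt_two, Or.inl ⟨C.in0.2 ⟨hI, c0⟩, hl⟩⟩
  by_cases c2 : ang v < 2 * (a0 + σ.w + σ.K + 3)
  · have q := C.inA.2 ⟨hI, by omega, by omega⟩
    have := C.posA q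
    exact k (Or.inl (Or.inr q)) (by omega) (by omega)
  · have q := C.inB.2 ⟨hI, by omega, by omega⟩
    have := C.posB q
    exact k (Or.inr q) (by omega) (by omega)

theorem list (hP : PanS) : (dd c U lev ang F σ a0 b0 r0 r1).list =
    (c.pan U lev ang (b0 + σ.w + σ.K + 3) r1).lin 0 r1 ++ σ.midL F ++
      ((c.pan U lev ang (a0 + σ.w + σ.K + 3) r0).lin 0 r0).reverse ++ (σ.midR F).reverse := by
  have e := ((hP V H U c.I).2 _ (C.pan0 hP)).1.2 0 r0 (show 0 + r0 ≤ r0 by omega)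
  rw [show (c.pan U lev ang (a0 + σ.w + σ.K + 3) r0).n - (0 + r0) = 0 from
    show r0 - (0 + r0) = 0 by omega] at e
  show ((c.pan U lev ang (b0 + σ.w + σ.K + 3) r1).lin 0 r1 ++ σ.midL F) ++
    (((c.pan U lev ang (a0 + σ.w + σ.K + 3) r0).rev.lin 0 r0 ++ (σ.midR F).reverse) ++ []) = _
  rw [e]
  simp only [List.append_assoc, List.append_nil]

theorem row {e : ℕ} (he : e ≤ 2 * σ.w + σ.K + 3) : F.row e ⊆ c.I ∪ c.cols := by
  have hn := C.seam.n
  have hb := C.str.bas.n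
  have ht : 0 < c.t := by have := C.g1; omega
  rintro v ((hv | hv) | hv)
  · exact Or.inr (col_cols ht e ((eqv.up C.ea (by omega) 0).le hv))
  · exact Or.inl ((C.str.bas.j e (by omega)).1 hv)
  · exact Or.inr (col_cols ht e ((eqv.up C.eb (by omega) 0).le hv))

theorem oA {e : ℕ} (he : e ≤ 2 * σ.w + σ.K + 3) : c.o (a0 + e) ∈ F.row e := by
  have := C.h0
  have := C.g0
  have := C.g1
  have hn := C.seam.n
  have e1 : F.A.o e = c.o ((a0 + e) % c.t) := (C.ea.2.2.2.2.1 e (by omega)).2.2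
  rw [Nat.mod_eq_of_lt (by omega)] at e1
  exact Or.inl (Or.inl (Or.inl (e1 ▸ (C.str.bas.a.lam e (by omega)).2.2.1)))

theorem oB {e : ℕ} (he : e ≤ 2 * σ.w + σ.K + 3) : c.o (b0 + e) ∈ F.row e := by
  have := C.g1
  have hn := C.seam.n
  have hb := C.str.bas.n
  have e1 : F.B.o e = c.o ((b0 + e) % c.t) := (C.eb.2.2.2.2.1 e (by omega)).2.2
  rw [Nat.mod_eq_of_lt (by omega)] at e1
  exact Or.inr (Or.inl (e1 ▸ (C.str.bas.b.lam e (by omega)).2.2.1))

end Cf

end xcap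

open xcap

theorem xcapS : InS → CrdS → PanS → EqvS → DoneS → AsmS → StripS → FrmS → ArcS → ChildS →
    XcapS := by
  intro hI hC hP hE hD hAs hS hF hA hCh h K s t ht
  obtain ⟨N, M0, hS⟩ := hS h 0 K fun _ => s + 6
  refine ⟨N + 4, M0, s + 4, ?_⟩
  intro V _ G H n Ur U ob Ω c π M t' uA uB m x y J S hU hs hM htt B
  obtain ⟨lev, ang, crd⟩ := hC V H U Ω c S.col
  obtain ⟨a, b, O, ft, cl, fr, sk⟩ := (hF V G H h n Ur U ob M t' true J (by omega)).1 Ω c π lev ang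
    uA uB m x y S crd (by omega) B
  obtain ⟨f, L, D, Z, pos, F, σ, hw, hK, hf, ev, hN, hD', str, seam, -⟩ :=
    hS V G H n Ur U c.I ob _ a b O ft cl (fun _ => ∅) fr hM
  have hn := seam.n
  have hb := str.bas.n
  have hf' : f + F.A.n ≤ M := hf
  obtain ⟨g1, g2⟩ := B.gap
  obtain ⟨a0, ha0⟩ : ∃ a0, a0 = uA + f := ⟨_, rfl⟩
  obtain ⟨b0, hb0⟩ : ∃ b0, b0 = uB + f := ⟨_, rfl⟩
  obtain ⟨r1, h1⟩ : ∃ r1, b0 + σ.w + σ.K + 3 + r1 = a0 + σ.w + c.t :=
    ⟨a0 + σ.w + c.t - (b0 + σ.w + σ.K + 3), by omega⟩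
  obtain ⟨r0, h0⟩ : ∃ r0, a0 + σ.w + σ.K + 3 + r0 = b0 + σ.w :=
    ⟨b0 + σ.w - (a0 + σ.w + σ.K + 3), by omega⟩
  have C : Cf H U D Z Ω c lev ang pos F σ a0 b0 r0 r1 := by
    refine ⟨S.col, crd, str, seam, ?_, ?_, hD'.trans (union_subset subset_union_left sk), h1, h0,
      by omega, by omega⟩
    · have e := eqv.pan_sub c U lev ang (u := uA) (n := M) (u' := f) (m := F.A.n) (by omega)
        (by omega) hf'
      rw [Nat.mod_eq_of_lt (by omega), ← ha0] at e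
      exact hn ▸ eqv.trans ev.1 e
    · have e := eqv.pan_sub c U lev ang (u := uB) (n := M) (u' := f) (m := F.A.n) (by omega)
        (by omega) hf'
      rw [Nat.mod_eq_of_lt (by omega), ← hb0] at e
      exact hn ▸ eqv.trans ev.2.1 e
  have P := C.pre hP hE hA
  have a1 := (hA V H U c.I D F Z pos σ str seam).1
  have ic : c.I ∪ c.cols ⊆ Ur := (union_subset_union_left _
    (hI V H U Ω c S.col.toFCol c.s le_rfl).2.1).trans S.core
  obtain ⟨c', k1, k2, k3, k4, -, -, -, -, k5⟩ := hCh V H σ.H' U σ.U' σ.U' _ 1 3 s t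
    (c.t - t - (b0 + σ.w + σ.K + 3)) P le_rfl (show 1 + s + 3 ≤ c.s by omega) le_rfl
    (show 3 + s + 3 ≤ σ.w by omega) ht (show σ.w ≤ _ by omega) (show _ + t + σ.w ≤ r1 by omega)
    (by
      rintro v ⟨i, hi, q | q⟩
      exacts [(P.keep i hi v q.1 q.2).1, (P.half i hi).sub q.1]) subset_rfl
  rw [res_eq a1.2.1] at k1 k5
  have lt : ∀ i j, i < j → j < c.t → π i < π j := S.mono
  have le : ∀ i j, i ≤ j → j < c.t → π i ≤ π j := fun i j h1 h2 => by
    rcases h1.lt_or_eq with q | rfl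
    exacts [(lt i j q h2).le, le_rfl]
  refine ⟨σ.H', σ.U', _, c', fun j => π (c.t - t + j), {v | ∃ i < K, v ∈ F.row (σ.w + 2 + i)}, π 0,
    π (c.t - t - 1), ⟨S.univ, a1.1.trans S.le, k1, fun i j h1 h2 => lt _ _ (by omega) (by omega),
      fun j hj => ?_, k5.trans (union_subset ?_ ?_)⟩, k2, k3, a1.2.2.1.trans sdiff_subset,
    Or.inr (Or.inl ⟨rfl, fun i => π (a0 + (σ.w + 2 + i)), fun i => π (b0 + (σ.w + 2 + i)),
      fun i => F.row (σ.w + 2 + i), ⟨⟨fun i hi => ?_, fun i hi j hj n => ?_⟩, fun i hi j hj => ?_⟩,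
      fun i j h1 h2 => ⟨lt _ _ (by omega) (by omega), lt _ _ (by omega) (by omega)⟩,
      fun i hi j hj => ⟨le _ _ (by omega) (by omega), lt _ _ (by omega) (by omega),
        le _ _ (by omega) (by omega)⟩⟩), ?_, le_rfl, le _ _ (by omega) (by omega),
    lt _ _ (by omega) (by omega), le _ _ (by omega) (by omega), fun α hα => ?_⟩
  · rw [k4 j (by omega)]
    show c.o ((b0 + σ.w + σ.K + 3 + (c.t - t - (b0 + σ.w + σ.K + 3) + j)) % c.t) = _ ∧ _
    rw [show b0 + σ.w + σ.K + 3 + (c.t - t - (b0 + σ.w + σ.K + 3) + j) = c.t - t + j by omega,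
      Nat.mod_eq_of_lt (by omega)]
    exact S.pos _ (by omega)
  · rintro v ⟨e, -, hv⟩
    exact ic (Or.inr (col_cols (by omega) e hv))
  · rintro v ⟨h2, h3⟩
    have hv := (a1.2.2.1 h2).1
    by_cases q : v ∈ c.I
    · exact ic (Or.inl q)
    by_cases q' : lev v < c.s
    · exact S.core (Or.inl ((crd.inn c.s le_rfl v ⟨hv, q⟩).2 q'))
    refine absurd (C.top h2 ⟨hv, q⟩ (by omega) ((crd.junk v ⟨hv, q⟩).2 ?_)) h3
    exact (dbl.cover S.col (capi.lk_mono subset_rfl subset_union_right (hU.le hv))).resolve_left q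
  · refine ⟨fun v hv => ⟨i, hi, hv⟩, capi.conn_le S.le (blkA.conn_row str.bas (by omega)), ?_, ?_⟩
    · show ob (π _) ∈ _
      rw [← (S.pos _ (by omega)).1]
      exact C.oA (by omega)
    · show ob (π _) ∈ _
      rw [← (S.pos _ (by omega)).1]
      exact C.oB (by omega)
  · exact blkA.row_dis str.bas (by omega) (by omega) (by omega)
  · refine ⟨(lt _ _ (by omega) (by omega)).ne, fun n => ?_⟩
    rcases lt_or_gt_of_ne n with q | q
    · exact ⟨(lt _ _ (by omega) (by omega)).ne, (lt _ _ (by omega) (by omega)).ne⟩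
    · exact ⟨(lt _ _ (by omega) (by omega)).ne', (lt _ _ (by omega) (by omega)).ne'⟩
  · rintro v ⟨i, hi, hv⟩
    have q := seam.rows (σ.w + 2 + i) (by omega) (by omega) hv
    exact ⟨⟨(seam.spl.un.le (Or.inr q.1)).1, ic (C.row (by omega) hv)⟩, q.2⟩
  · have sc := k1.soc
    rw [C.list hP] at hα sc
    have as := (hAs V H U D F Z pos σ N ((c.pan U lev ang (a0 + σ.w + σ.K + 3) r0).lin 0 r0)
      ((c.pan U lev ang (b0 + σ.w + σ.K + 3) r1).lin 0 r1) seam hN ?_ ?_).2.1 α hα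
    · rw [gap_eqv C.ea hn, gap_eqv C.eb (hb.trans hn)] at as
      exact (hD V H U _).2.1 _ _ _ as
        (Or.inr (Or.inl (S.col.rot.trans (word h1 h0 (by omega))).symm))
    · refine (List.Perm.nodup_iff ?_).1 sc.nd
      refine List.Perm.append ?_ (List.reverse_perm _)
      rw [List.append_assoc _ _ (σ.midL F)]
      exact (List.Perm.append_left _ (List.reverse_perm _)).trans List.perm_append_comm
    · intro v hv
      refine sc.sub v ?_
      simp only [ls, mem_ofPred_eq, List.mem_append, List.mem_reverse] at hv ⊢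
      tauto

end Pool.Agent.MP_9d78a0_co.st

end MrgPart3

-- marker of a merged file
example : 731051 + 655605 = 731051 + 655605 := rfl
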