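import Pool.Agent.MP_9d78a0_co.st.Del
import Pool.Agent.MP_9d78a0_co.st.In
import Pool.Agent.MP_9d78a0_co.fb.Final
import Pool.Agent.MP_9d78a0_co.st.Dbl
import Pool.Agent.MP_9d78a0_co.st.Out

-- ======== part 0: formerly Pool.Agent.MP_9d78a0_co.st.AliftA
section MrgPart0

/-! Tails and caps outside a ring of a collar do not cross. -/

set_option autoImplicit false

namespace Pool.Agent.MP_9d78a0_co.st.al

open Set Function fb

variable {V : Type} {H : SimpleGraph V} {U : Set V} {Ω : List V} {c : CD V}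

/-- what is used of a collar -/
structure Env (H : SimpleGraph V) (U : Set V) (Ω : List V) (c : CD V) : Prop where
  col : FCol H U Ω c
  inn : ∀ l ≤ c.s, Conn H (c.In H U l) ∧ c.I ⊆ c.In H U l ∧ Disjoint (c.In H U l) (ls Ω) ∧
    (∀ i < c.t, Disjoint (c.In H U l) (c.up l i) ∧ Touch H (c.In H U l) (c.C l i)) ∧
    (∀ l' < l, c.In H U l' ∪ c.ring l' ⊆ c.In H U l) ∧
    ∀ u ∈ c.In H U l, ∀ v, H.Adj u v → v ∈ c.In H U l ∨ v ∈ c.ring l
  nox : ∀ a ∈ Ω, ∀ a' ∈ Ω, ∀ b ∈ Ω, ∀ b' ∈ Ω, Xs (pos Ω a) (pos Ω a') (pos Ω b) (pos Ω b') →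
    ∀ P Q, Two H U P Q → a ∈ P → a' ∈ P → b ∈ Q → b' ∈ Q →
    (P ∩ c.I).Nonempty ∧ (Q ∩ c.I).Nonempty

theorem env (h1 : CrkS) (h2 : InS) (hc : FCol H U Ω c) : Env H U Ω c := by
  refine ⟨hc, h2 V H U Ω c hc, fun a ha a' ha' b hb b' hb' hx P Q t p p' q q' => ?_⟩
  have n : ∀ {x y}, x ∈ P → y ∈ Q → x ≠ y := fun k l e => disjoint_left.1 t.dis k (e ▸ l)
  obtain ⟨x, y, z, w, s, k | k⟩ := (h1 V H U Ω 0 0 hc.soc.nd).2.2.2.2.2.2.1 a ha b hb a' ha' b' hb'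
    hx (n p q) (n p q') (n p' q) (n p' q') P Q t p p' q q'
  · exact hc.flat x y z w s P Q t k.1 k.2.1 k.2.2.1 k.2.2.2
  · exact (hc.flat x y z w s Q P ⟨t.sq, t.sp, t.cq, t.cp, t.dis.symm⟩ k.1 k.2.1 k.2.2.1
      k.2.2.2).symm

/-- a tail from the letter `z` down to column `w`, above level `l` -/
structure Tl (H : SimpleGraph V) (U : Set V) (Ω : List V) (c : CD V) (l : ℕ) (T : Set V) (z : V)
    (w : ℕ) : Prop where
  sub : T ⊆ U \ c.In H U (l + 1)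
  conn : Conn H T
  mem : z ∈ T
  lt : z ∈ Ω
  wt : w < c.t
  tch : Touch H T (c.C l w)

/-- a cap over the columns `a`, `a'`, above level `l` -/
structure Cp (H : SimpleGraph V) (U : Set V) (c : CD V) (l : ℕ) (K : Set V) (a a' : ℕ) : Prop where
  sub : K ⊆ U \ c.In H U (l + 1)
  conn : Conn H K
  at1 : a < c.t
  at2 : a' < c.t
  t1 : Touch H K (c.C l a)
  t2 : Touch H K (c.C l a')

theorem Cp.symm {l a a' : ℕ} {K : Set V} (h : Cp H U c l K a a') : Cp H U c l K a' a :=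
  ⟨h.sub, h.conn, h.at2, h.at1, h.t2, h.t1⟩

theorem cell_ring {l i : ℕ} (hi : i < c.t) : c.C l i ⊆ c.ring l := fun _ k => ⟨i, hi, k⟩

theorem in_sub (l : ℕ) : c.In H U l ⊆ U \ c.ring l := fun _ k => k.1

theorem xs_symm {a b x y : ℕ} (h : Xs a b x y) (h1 : a ≠ x) (h2 : a ≠ y) (h3 : b ≠ x)
    (h4 : b ≠ y) : Xs x y a b := by
  unfold Xs fb.Btw at *; omega

theorem xs_swap {a b x y : ℕ} (h : Xs a b x y) : Xs b a x y := by
  unfold Xs fb.Btw at *; omega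

theorem xs_iff {a b x y : ℕ} (h : x ≠ a ∧ x ≠ b ∧ y ≠ a ∧ y ≠ b) :
    Xs a b x y ↔ ¬ (Btw x y a ↔ Btw x y b) := by
  have : Xs a b x y ↔ Xs x y a b := ⟨fun k => xs_symm k h.1.symm h.2.2.1.symm h.2.1.symm
    h.2.2.2.symm, fun k => xs_symm k h.1 h.2.1 h.2.2.1 h.2.2.2⟩
  rw [this, Xs]
  by_cases p : Btw x y a <;> by_cases q : Btw x y b <;> simp [p, q]

theorem xs_def {a b x y : ℕ} : Xs a b x y ↔ ¬ (Btw a b x ↔ Btw a b y) := by
  rw [Xs]
  by_cases p : Btw a b x <;> by_cases q : Btw a b y <;> simp [p, q]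

theorem btw_in {a b p q r s : ℕ} (h : Btw a b p) (h' : Btw a b q) (x : Xs p q r s) :
    Btw a b r ∨ Btw a b s := by
  have k : ∀ r, Btw p q r → Btw a b r := fun r k => by unfold fb.Btw at *; omega
  exact x.imp (fun l => k _ l.1) fun l => k _ l.1

theorem xs_three {a b x y : ℕ} (h : a ≠ b ∧ x ≠ y ∧ x ≠ a ∧ x ≠ b ∧ y ≠ a ∧ y ≠ b) :
    Xs a b x y ∨ Xs a x b y ∨ Xs a y b x := by
  have k : ∀ {p q r : ℕ}, r ≠ p → r ≠ q → (Btw p q r ↔ (p < r ↔ r < q)) := fun _ _ => by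
    unfold fb.Btw; omega
  have k' : ∀ {p q : ℕ}, p ≠ q → (q < p ↔ ¬ p < q) := fun _ => by omega
  obtain ⟨h1, h2, h3, h4, h5, h6⟩ := h
  rw [xs_def, xs_def, xs_def, k h3 h4, k h5 h6, k h1.symm h4.symm, k h5 h2.symm,
    k h1.symm h6.symm, k h3 h2, k' h4, k' h6, k' h2]
  generalize (a < b) = p1, (a < x) = p2, (a < y) = p3, (x < b) = p4, (y < b) = p5, (x < y) = p6
  by_cases p1 <;> by_cases p2 <;> by_cases p3 <;> by_cases p4 <;> by_cases p5 <;>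
    by_cases p6 <;> simp [*]

namespace Env

variable (E : Env H U Ω c) {l : ℕ}
include E

theorem ring_sub (hl : l ≤ c.s) : c.ring l ⊆ U \ c.In H U l := by
  rintro v ⟨i, hi, k⟩
  exact ⟨((E.col.cell l hl i hi).1 k).1, fun m => (in_sub l m).2 ⟨i, hi, k⟩⟩

theorem ring_in (hl : l < c.s) : c.ring l ⊆ c.In H U (l + 1) := fun _ k =>
  (E.inn (l + 1) hl).2.2.2.2.1 l (by omega) (Or.inr k)

theorem down (hl : l < c.s) {T : Set V} (h : T ⊆ U \ c.In H U (l + 1)) : T ⊆ U \ c.In H U l :=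
  fun _ k => ⟨(h k).1, fun m => (h k).2 ((E.inn (l + 1) hl).2.2.2.2.1 l (by omega) (Or.inl m))⟩

theorem off (hl : l < c.s) {T A : Set V} (h : T ⊆ U \ c.In H U (l + 1)) (h' : A ⊆ c.ring l) :
    Disjoint T A := disjoint_left.2 fun _ k m => (h k).2 (E.ring_in hl (h' m))

/-- an arc of a ring -/
theorem arc (hl : l ≤ c.s) {a b : ℕ} (ha : a < c.t) (hb : b < c.t) (s : Bool) :
    ∃ A ⊆ c.ring l, Conn H A ∧ c.C l a ⊆ A ∧ c.C l b ⊆ A ∧
      ∀ f < c.t, f ≠ a → f ≠ b → (Btw a b f ↔ s) → Disjoint A (c.C l f) := by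
  have t0 : 0 < c.t := by omega
  have key : ∀ α β, α ≤ β → ∃ A ⊆ c.ring l, Conn H A ∧ (∀ x, α ≤ x → x ≤ β → c.C l (x % c.t) ⊆ A) ∧
      ∀ f < c.t, (∀ x, α ≤ x → x ≤ β → x % c.t ≠ f) → Disjoint A (c.C l f) := by
    intro α β h
    refine ⟨⋃ x ∈ Icc α β, c.C l (x % c.t), iUnion₂_subset fun x _ => cell_ring (Nat.mod_lt _ t0),
      conn_chain h (fun x _ => (E.col.cell l hl _ (Nat.mod_lt _ t0)).2) fun x _ _ => Or.inr ?_,
      fun x h1 h2 => subset_biUnion_of_mem (u := fun x => c.C l (x % c.t)) ⟨h1, h2⟩,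
      fun f hf k => disjoint_iUnion₂_left.2 fun x hx => E.col.dis l hl _ (Nat.mod_lt _ t0) l hl f hf
        fun e => k x hx.1 hx.2 (Prod.ext_iff.1 e).2⟩
    have := E.col.hor l hl _ (Nat.mod_lt x t0)
    rwa [Nat.mod_add_mod] at this
  have m1 : ∀ x < c.t, x % c.t = x := fun x => Nat.mod_eq_of_lt
  have m2 : ∀ x < c.t, (x + c.t) % c.t = x := fun x k => by rw [Nat.add_mod_right, m1 x k]
  cases s
  · obtain ⟨A, a1, a2, a3, a4⟩ := key (min a b) (max a b) min_le_max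
    refine ⟨A, a1, a2, m1 a ha ▸ a3 a (by omega) (by omega), m1 b hb ▸ a3 b (by omega) (by omega),
      fun f hf n1 n2 k => a4 f hf fun x h1 h2 => ?_⟩
    rw [m1 x (by omega)]
    simp only [fb.Btw, Bool.false_eq_true, iff_false] at k
    omega
  · obtain ⟨A, a1, a2, a3, a4⟩ := key (max a b) (min a b + c.t) (by omega)
    have k : ∀ x < c.t, x = min a b ∨ x = max a b → c.C l x ⊆ A := by
      rintro x hx (e | e)
      exacts [m2 x hx ▸ a3 (x + c.t) (by omega) (by omega), m1 x hx ▸ a3 x (by omega) (by omega)]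
    refine ⟨A, a1, a2, k a ha (by omega), k b hb (by omega),
      fun f hf n1 n2 k => a4 f hf fun x h1 h2 => ?_⟩
    simp only [fb.Btw, iff_true] at k
    by_cases d : x < c.t
    · rw [m1 x d]; omega
    · obtain ⟨y, rfl⟩ : ∃ y, x = y + c.t := ⟨x - c.t, by omega⟩
      rw [m2 y (by omega)]; omega

theorem arc2 (hl : l ≤ c.s) {a b f f' : ℕ} (ha : a < c.t) (hb : b < c.t) (hf : f < c.t)
    (hf' : f' < c.t) (n : f ≠ a ∧ f ≠ b ∧ f' ≠ a ∧ f' ≠ b) (h : ¬ Xs a b f f') :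
    ∃ A ⊆ c.ring l, Conn H A ∧ c.C l a ⊆ A ∧ c.C l b ⊆ A ∧ Disjoint A (c.C l f ∪ c.C l f') := by
  classical
  obtain ⟨A, a1, a2, a3, a4, a5⟩ := E.arc hl ha hb (decide (Btw a b f))
  refine ⟨A, a1, a2, a3, a4, disjoint_union_right.2 ⟨a5 f hf n.1 n.2.1 (by simp),
    a5 f' hf' n.2.2.1 n.2.2.2 ?_⟩⟩
  simp only [decide_eq_true_eq]
  exact (not_not.1 (mt xs_def.2 h)).symm

variable {T1 T2 T3 T4 Q K : Set V} {z1 z2 z3 z4 : V} {w1 w2 w3 w4 a a' : ℕ}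

/-- two tails are joined through the inside of ring `l` -/
theorem lemX (hl : l < c.s) (q1 : Q ⊆ U \ c.In H U l) (q2 : Conn H Q) (m1 : z1 ∈ Q) (m2 : z2 ∈ Q)
    (o1 : z1 ∈ Ω) (o2 : z2 ∈ Ω) (h3 : Tl H U Ω c l T3 z3 w3) (h4 : Tl H U Ω c l T4 z4 w4)
    (d : Disjoint Q (T3 ∪ T4)) (d' : Disjoint Q (c.C l w3 ∪ c.C l w4))
    (x : Xs (pos Ω z1) (pos Ω z2) (pos Ω z3) (pos Ω z4)) : False := by
  obtain ⟨i1, i2, -, i4, -⟩ := E.inn l hl.le
  have c3 := E.col.cell l hl.le _ h3.wt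
  have c4 := E.col.cell l hl.le _ h4.wt
  refine (E.nox z1 o1 z2 o2 z3 h3.lt z4 h4.lt x Q
    (c.In H U l ∪ c.C l w3 ∪ c.C l w4 ∪ T3 ∪ T4) ⟨fun _ k => (q1 k).1, ?_, q2, ?_, ?_⟩ m1 m2
    (Or.inl (Or.inr h3.mem)) (Or.inr h4.mem)).1.elim fun v k => (q1 k.1).2 (i2 k.2)
  · rintro v ((((k | k) | k) | k) | k)
    exacts [(in_sub l k).1, (c3.1 k).1, (c4.1 k).1, (h3.sub k).1, (h4.sub k).1]
  · exact conn_union_touch (conn_union_touch (conn_union_touch (conn_union_touch i1 c3.2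
      (i4 _ h3.wt).2) c4.2 ((i4 _ h4.wt).2.mono subset_union_left subset_rfl)) h3.conn
      (h3.tch.symm.mono (fun _ k => Or.inl (Or.inr k)) subset_rfl)) h4.conn
      (h4.tch.symm.mono (fun _ k => Or.inl (Or.inr k)) subset_rfl)
  · refine disjoint_left.2 ?_
    rintro v hv ((((k | k) | k) | k) | k)
    exacts [(q1 hv).2 k, disjoint_left.1 d' hv (Or.inl k), disjoint_left.1 d' hv (Or.inr k),
      disjoint_left.1 d hv (Or.inl k), disjoint_left.1 d hv (Or.inr k)]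

/-- the columns alternate as the letters do -/
theorem lemA (hl : l < c.s) (h1 : Tl H U Ω c l T1 z1 w1) (h2 : Tl H U Ω c l T2 z2 w2)
    (h3 : Tl H U Ω c l T3 z3 w3) (h4 : Tl H U Ω c l T4 z4 w4) (d : Disjoint (T1 ∪ T2) (T3 ∪ T4))
    (n : w3 ≠ w1 ∧ w3 ≠ w2 ∧ w4 ≠ w1 ∧ w4 ≠ w2)
    (x : Xs (pos Ω z1) (pos Ω z2) (pos Ω z3) (pos Ω z4)) : Xs w1 w2 w3 w4 := by
  by_contra k
  obtain ⟨A, a1, a2, a3, a4, a5⟩ := E.arc2 hl.le h1.wt h2.wt h3.wt h4.wt n k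
  have r : c.C l w3 ∪ c.C l w4 ⊆ c.ring l := union_subset (cell_ring h3.wt) (cell_ring h4.wt)
  refine E.lemX hl (Q := A ∪ T1 ∪ T2) (union_subset (union_subset (a1.trans (E.ring_sub hl.le))
    (E.down hl h1.sub)) (E.down hl h2.sub)) (conn_union_touch (conn_union_touch a2 h1.conn
    (h1.tch.symm.mono a3 subset_rfl)) h2.conn (h2.tch.symm.mono (a4.trans subset_union_left)
    subset_rfl)) (Or.inl (Or.inr h1.mem)) (Or.inr h2.mem) h1.lt h2.lt h3 h4 ?_ ?_ x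
  · rw [union_assoc]
    exact disjoint_union_left.2 ⟨(E.off hl (union_subset h3.sub h4.sub) a1).symm, d⟩
  · rw [union_assoc]
    exact disjoint_union_left.2 ⟨a5, E.off hl (union_subset h1.sub h2.sub) r⟩

/-- a cap does not cross a diagonal -/
theorem lemB (hl : l < c.s) (h1 : Tl H U Ω c l T1 z1 w1) (h2 : Tl H U Ω c l T2 z2 w2)
    (h3 : Tl H U Ω c l T3 z3 w3) (h4 : Tl H U Ω c l T4 z4 w4) (hK : Cp H U c l K a a')
    (d : Disjoint (T1 ∪ T2) (T3 ∪ T4)) (d' : Disjoint K (T3 ∪ T4))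
    (n : w3 ≠ w1 ∧ w3 ≠ w2 ∧ w4 ≠ w1 ∧ w4 ≠ w2) (n' : w3 ≠ a ∧ w3 ≠ a' ∧ w4 ≠ a ∧ w4 ≠ a')
    (x : Xs (pos Ω z1) (pos Ω z2) (pos Ω z3) (pos Ω z4)) : ¬ Xs a a' w3 w4 := by
  intro y
  have x' := E.lemA hl h1 h2 h3 h4 d n x
  wlog k : ¬ Xs w1 a w3 w4 ∧ ¬ Xs w2 a' w3 w4 generalizing a a'
  · refine this hK.symm (by tauto) (xs_swap y) ?_
    rw [xs_iff n] at x'
    rw [xs_iff n'] at y
    rw [xs_iff (by tauto), xs_iff (by tauto)] at k ⊢
    by_cases p : Btw w3 w4 a <;> by_cases q : Btw w3 w4 w1 <;> simp_all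
  obtain ⟨A, a1, a2, a3, a4, a5⟩ := E.arc2 hl.le h1.wt hK.at1 h3.wt h4.wt (by tauto) k.1
  obtain ⟨B, b1, b2, b3, b4, b5⟩ := E.arc2 hl.le h2.wt hK.at2 h3.wt h4.wt (by tauto) k.2
  have r : c.C l w3 ∪ c.C l w4 ⊆ c.ring l := union_subset (cell_ring h3.wt) (cell_ring h4.wt)
  have e : A ∪ T1 ∪ K ∪ B ∪ T2 = (A ∪ B) ∪ (K ∪ (T1 ∪ T2)) := by ac_rfl
  have s : K ∪ (T1 ∪ T2) ⊆ U \ c.In H U (l + 1) := union_subset hK.sub (union_subset h1.sub h2.sub)
  refine E.lemX hl (Q := A ∪ T1 ∪ K ∪ B ∪ T2) (e ▸ union_subset ((union_subset a1 b1).trans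
    (E.ring_sub hl.le)) (E.down hl s)) (conn_union_touch (conn_union_touch (conn_union_touch
    (conn_union_touch a2 h1.conn (h1.tch.symm.mono a3 subset_rfl)) hK.conn
    (hK.t1.symm.mono (a4.trans subset_union_left) subset_rfl)) b2
    (hK.t2.mono subset_union_right b4)) h2.conn (h2.tch.symm.mono (b3.trans subset_union_right)
    subset_rfl)) (Or.inl (Or.inl (Or.inl (Or.inr h1.mem)))) (Or.inr h2.mem) h1.lt h2.lt h3 h4 ?_ ?_ x
  · rw [e]
    exact disjoint_union_left.2 ⟨(E.off hl (union_subset h3.sub h4.sub) (union_subset a1 b1)).symm,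
      disjoint_union_left.2 ⟨d', d⟩⟩
  · rw [e]
    exact disjoint_union_left.2 ⟨disjoint_union_left.2 ⟨a5, b5⟩, E.off hl s r⟩

end Env

/-- a system of at least four tails -/
structure Sys {ι : Type} (H : SimpleGraph V) (U : Set V) (Ω : List V) (c : CD V) (l : ℕ)
    (T : ι → Set V) (z : ι → V) (w : ι → ℕ) : Prop where
  tl : ∀ k, Tl H U Ω c l (T k) (z k) (w k)
  dis : ∀ k k', k ≠ k' → Disjoint (T k) (T k') ∧ w k ≠ w k'
  four : ∀ k k' : ι, ∃ m m' : ι, m ≠ m' ∧ m ≠ k ∧ m ≠ k' ∧ m' ≠ k ∧ m' ≠ k'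

variable {ι : Type} {T : ι → Set V} {z : ι → V} {w : ι → ℕ} {l a a' b b' : ℕ} {K K' : Set V}

open Classical in
theorem pos_ne {x y : V} (hx : x ∈ Ω) (h : x ≠ y) : pos Ω x ≠ pos Ω y :=
  fun e => h ((List.idxOf_inj hx).1 e)

theorem Sys.d4 (S : Sys H U Ω c l T z w) {i j k m : ι} (n : k ≠ i ∧ k ≠ j ∧ m ≠ i ∧ m ≠ j) :
    Disjoint (T i ∪ T j) (T k ∪ T m) ∧ w k ≠ w i ∧ w k ≠ w j ∧ w m ≠ w i ∧ w m ≠ w j :=
  ⟨disjoint_union_left.2 ⟨disjoint_union_right.2 ⟨(S.dis _ _ n.1).1.symm, (S.dis _ _ n.2.2.1).1.symm⟩,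
    disjoint_union_right.2 ⟨(S.dis _ _ n.2.1).1.symm, (S.dis _ _ n.2.2.2).1.symm⟩⟩,
    (S.dis _ _ n.1).2, (S.dis _ _ n.2.1).2, (S.dis _ _ n.2.2.1).2, (S.dis _ _ n.2.2.2).2⟩

theorem Sys.pn (S : Sys H U Ω c l T z w) {i j : ι} (n : i ≠ j) : pos Ω (z i) ≠ pos Ω (z j) :=
  pos_ne (S.tl i).lt fun e =>
    disjoint_left.1 (S.dis i j n).1 (S.tl i).mem (e ▸ (S.tl j).mem)

/-- all tails lie on one side of a cap -/
theorem Env.side (E : Env H U Ω c) (hl : l < c.s) (S : Sys H U Ω c l T z w)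
    (hK : Cp H U c l K a a') (d : ∀ k, Disjoint K (T k) ∧ w k ≠ a ∧ w k ≠ a') (k k' : ι) :
    ¬ Xs a a' (w k) (w k') := by
  have key : ∀ i j m m' : ι, m ≠ i ∧ m ≠ j ∧ m' ≠ i ∧ m' ≠ j →
      Xs (pos Ω (z i)) (pos Ω (z j)) (pos Ω (z m)) (pos Ω (z m')) →
      (Btw a a' (w i) ↔ Btw a a' (w j)) ∧ (Btw a a' (w i) ↔ Btw a a' (w m)) ∧
        (Btw a a' (w i) ↔ Btw a a' (w m')) := by
    intro i j m m' n x
    have n' : i ≠ m ∧ i ≠ m' ∧ j ≠ m ∧ j ≠ m' := by tauto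
    have x1 := E.lemA hl (S.tl i) (S.tl j) (S.tl m) (S.tl m') (S.d4 n).1 (S.d4 n).2 x
    have x2 := E.lemB hl (S.tl i) (S.tl j) (S.tl m) (S.tl m') hK (S.d4 n).1
      (disjoint_union_right.2 ⟨(d m).1, (d m').1⟩) (S.d4 n).2
      ⟨(d m).2.1, (d m).2.2, (d m').2⟩ x
    have x3 := E.lemB hl (S.tl m) (S.tl m') (S.tl i) (S.tl j) hK (S.d4 n').1
      (disjoint_union_right.2 ⟨(d i).1, (d j).1⟩) (S.d4 n').2
      ⟨(d i).2.1, (d i).2.2, (d j).2⟩
      (xs_symm x (S.pn n'.1) (S.pn n'.2.1) (S.pn n'.2.2.1) (S.pn n'.2.2.2))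
    have e := (S.d4 n).2
    have y1 := fun p q => btw_in (a := a) (b := a') p q x1
    have y2 := fun p q => btw_in (a := a) (b := a') p q
      (xs_symm x1 e.1.symm e.2.2.1.symm e.2.1.symm e.2.2.2.symm)
    rw [xs_def, not_not] at x2 x3
    rw [← x3, ← x2] at y1 y2 ⊢
    exact ⟨Iff.rfl, ⟨fun k => (y1 k k).elim id id, fun k => (y2 k k).elim id id⟩,
      fun k => (y1 k k).elim id id, fun k => (y2 k k).elim id id⟩
  by_cases e : k = k'
  · rw [e, xs_def]; simp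
  obtain ⟨m, m', n1, n2, n3, n4, n5⟩ := S.four k k'
  rw [xs_def, not_not]
  rcases xs_three ⟨S.pn e, S.pn n1, S.pn n2, S.pn n3, S.pn n4, S.pn n5⟩ with p | p | p
  · exact (key _ _ _ _ ⟨n2, n3, n4, n5⟩ p).1
  · exact (key _ _ _ _ ⟨Ne.symm e, n3.symm, n4, n1.symm⟩ p).2.1
  · exact (key _ _ _ _ ⟨Ne.symm e, n5.symm, n2, n1⟩ p).2.1

theorem Env.cross0 (E : Env H U Ω c) (hl : l + 1 < c.s) (S : Sys H U Ω c (l + 1) T z w)
    (hK : Cp H U c (l + 1) K a a') (hK' : Cp H U c (l + 1) K' b b')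
    (d : ∀ k, Disjoint K (T k) ∧ w k ≠ a ∧ w k ≠ a') (d' : ∀ k, Disjoint K' (T k) ∧ w k ≠ b ∧ w k ≠ b')
    (e : Disjoint K K') (n : a ≠ b ∧ a ≠ b' ∧ a' ≠ b ∧ a' ≠ b') (i : ι)
    (h : (∀ k, ¬ Btw (w i) a (w k)) ∧ ¬ Btw (w i) a b ∧ ¬ Btw (w i) a b') : ¬ Xs a a' b b' := by
  classical
  intro x
  obtain ⟨A, a1, a2, a3, a4, a5⟩ := E.arc hl.le (S.tl i).wt hK.at1 false
  simp only [Bool.false_eq_true, iff_false] at a5
  have cc := fun j hj => (E.col.cell (l + 1) hl.le j hj).2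
  have cs : ∀ j < c.t, c.C (l + 1) j ⊆ U \ c.In H U (l + 1) := fun j hj =>
    (cell_ring hj).trans (E.ring_sub hl.le)
  have cd : ∀ j < c.t, ∀ j' < c.t, j ≠ j' → Disjoint (c.C (l + 1) j) (c.C (l + 1) j') :=
    fun j hj j' hj' e => E.col.dis _ hl.le j hj _ hl.le j' hj' fun k => e (Prod.ext_iff.1 k).2
  have vv := fun j hj => (E.col.ver l (by omega) j hj).symm
  have of : ∀ {X}, X ⊆ U \ c.In H U (l + 1 + 1) → ∀ j < c.t, Disjoint X (c.C (l + 1) j) :=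
    fun k j hj => E.off hl k (cell_ring hj)
  have S' : Sys H U Ω c l
      (fun k => if k = i then A ∪ T i ∪ K ∪ c.C (l + 1) a' else T k ∪ c.C (l + 1) (w k)) z
      (fun k => if k = i then a' else w k) := by
    have dd : ∀ k ≠ i, Disjoint (A ∪ T i ∪ K ∪ c.C (l + 1) a') (T k ∪ c.C (l + 1) (w k)) := by
      intro k hk
      have t := S.tl k
      simp only [disjoint_union_left, disjoint_union_right]
      exact ⟨⟨⟨⟨(E.off hl t.sub a1).symm, (S.dis _ _ hk).1.symm⟩, (d k).1⟩,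
        (of t.sub _ hK.at2).symm⟩, ⟨⟨a5 _ t.wt (S.dis _ _ hk).2 (d k).2.1 (h.1 k),
        of (S.tl i).sub _ t.wt⟩, of hK.sub _ t.wt⟩, cd _ hK.at2 _ t.wt (d k).2.2.symm⟩
    refine ⟨fun k => ?_, fun k k' hk => ?_, S.four⟩
    · have t := S.tl k
      by_cases q : k = i
      · subst q
        simp only [if_true]
        exact ⟨union_subset (union_subset (union_subset (a1.trans (E.ring_sub hl.le))
          (E.down hl t.sub)) (E.down hl hK.sub)) (cs _ hK.at2), conn_union_touch (conn_union_touch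
          (conn_union_touch a2 t.conn (t.tch.symm.mono a3 subset_rfl)) hK.conn
          (hK.t1.symm.mono (a4.trans subset_union_left) subset_rfl)) (cc _ hK.at2)
          (hK.t2.mono subset_union_right subset_rfl), Or.inl (Or.inl (Or.inr t.mem)), t.lt, hK.at2,
          (vv _ hK.at2).mono subset_union_right subset_rfl⟩
      · simp only [if_neg q]
        exact ⟨union_subset (E.down hl t.sub) (cs _ t.wt), conn_union_touch t.conn (cc _ t.wt) t.tch,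
          Or.inl t.mem, t.lt, t.wt, (vv _ t.wt).mono subset_union_right subset_rfl⟩
    · by_cases q : k = i <;> by_cases q' : k' = i <;> simp only [q, q', if_true, if_false]
      · exact absurd (q.trans q'.symm) hk
      · exact ⟨dd k' q', (d k').2.2.symm⟩
      · exact ⟨(dd k q).symm, (d k).2.2⟩
      · refine ⟨?_, (S.dis _ _ hk).2⟩
        simp only [disjoint_union_left, disjoint_union_right]
        exact ⟨⟨(S.dis _ _ hk).1, (of (S.tl k').sub _ (S.tl k).wt).symm⟩,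
          of (S.tl k).sub _ (S.tl k').wt, cd _ (S.tl k).wt _ (S.tl k').wt (S.dis _ _ hk).2⟩
  have C' : Cp H U c l (K' ∪ c.C (l + 1) b ∪ c.C (l + 1) b') b b' :=
    ⟨union_subset (union_subset (E.down hl hK'.sub) (cs _ hK'.at1)) (cs _ hK'.at2),
      conn_union_touch (conn_union_touch hK'.conn (cc _ hK'.at1) hK'.t1) (cc _ hK'.at2)
      (hK'.t2.mono subset_union_left subset_rfl), hK'.at1, hK'.at2,
      (vv _ hK'.at1).mono (fun _ k => Or.inl (Or.inr k)) subset_rfl,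
      (vv _ hK'.at2).mono subset_union_right subset_rfl⟩
  obtain ⟨m, -, -, hm, -⟩ := S.four i i
  have y1 := E.side hl S hK' d' i m
  have y2 := E.side (by omega) S' C' (fun k => ?_) i m
  · simp only [if_true, if_neg hm] at y2
    have y3 : ¬ Xs (w i) a b b' := fun k => k.elim (fun k => h.2.1 k.1) fun k => h.2.2 k.1
    rw [xs_iff ⟨(d' i).2.1.symm, n.1.symm, (d' i).2.2.symm, n.2.1.symm⟩, not_not] at y3
    rw [xs_def, not_not] at y1 y2
    exact (xs_iff ⟨n.1.symm, n.2.2.1.symm, n.2.1.symm, n.2.2.2.symm⟩).1 x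
      (y3.symm.trans (y1.trans y2.symm))
  have t := S.tl k
  by_cases q : k = i
  · subst q
    simp only [if_true, disjoint_union_left, disjoint_union_right]
    exact ⟨⟨⟨⟨⟨⟨(E.off hl hK'.sub a1), (a5 _ hK'.at1 (d' k).2.1.symm n.1.symm h.2.1).symm⟩,
      (a5 _ hK'.at2 (d' k).2.2.symm n.2.1.symm h.2.2).symm⟩, ⟨(d' k).1, (of t.sub _ hK'.at1).symm⟩,
      (of t.sub _ hK'.at2).symm⟩, ⟨e.symm, (of hK.sub _ hK'.at1).symm⟩, (of hK.sub _ hK'.at2).symm⟩,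
      ⟨of hK'.sub _ hK.at2, cd _ hK'.at1 _ hK.at2 n.2.2.1.symm⟩,
      cd _ hK'.at2 _ hK.at2 n.2.2.2.symm⟩, n.2.2⟩
  · simp only [if_neg q, disjoint_union_left, disjoint_union_right]
    exact ⟨⟨⟨⟨(d' k).1, (of t.sub _ hK'.at1).symm⟩, (of t.sub _ hK'.at2).symm⟩,
      ⟨of hK'.sub _ t.wt, cd _ hK'.at1 _ t.wt (d' k).2.1.symm⟩,
      cd _ hK'.at2 _ t.wt (d' k).2.2.symm⟩, (d' k).2⟩

/-- caps do not cross -/
theorem Env.cross [Finite ι] [Nonempty ι] (E : Env H U Ω c) (hl : l + 1 < c.s)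
    (S : Sys H U Ω c (l + 1) T z w)
    (hK : Cp H U c (l + 1) K a a') (hK' : Cp H U c (l + 1) K' b b')
    (d : ∀ k, Disjoint K (T k) ∧ w k ≠ a ∧ w k ≠ a') (d' : ∀ k, Disjoint K' (T k) ∧ w k ≠ b ∧ w k ≠ b')
    (e : Disjoint K K') (n : a ≠ b ∧ a ≠ b' ∧ a' ≠ b ∧ a' ≠ b') : ¬ Xs a a' b b' := by
  intro x
  obtain ⟨⟨i, y⟩, ⟨-, hy⟩, hm⟩ := exists_min_image (univ ×ˢ ({a, a', b, b'} : Set ℕ))
    (fun q : ι × ℕ => w q.1 - q.2 + (q.2 - w q.1)) (finite_univ.prod (toFinite _))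
    ⟨(Classical.arbitrary ι, a), trivial, by simp⟩
  have h1 : ∀ k, ¬ Btw (w i) y (w k) := fun k => by
    have := hm (k, y) ⟨trivial, hy⟩
    simp only [fb.Btw] at this ⊢
    omega
  have h2 : ∀ y' ∈ ({a, a', b, b'} : Set ℕ), ¬ Btw (w i) y y' := fun y' k => by
    have := hm (i, y') ⟨trivial, k⟩
    simp only [fb.Btw] at this ⊢
    omega
  have x' := xs_symm x n.1 n.2.1 n.2.2.1 n.2.2.2
  rcases hy with rfl | rfl | rfl | rfl
  · exact E.cross0 hl S hK hK' d d' e n i ⟨h1, h2 _ (by simp), h2 _ (by simp)⟩ x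
  · exact E.cross0 hl S hK.symm hK' (fun k => ⟨(d k).1, (d k).2.symm⟩) d' e (by tauto) i
      ⟨h1, h2 _ (by simp), h2 _ (by simp)⟩ (xs_swap x)
  · exact E.cross0 hl S hK' hK d' d e.symm (by tauto) i ⟨h1, h2 _ (by simp), h2 _ (by simp)⟩ x'
  · exact E.cross0 hl S hK'.symm hK (fun k => ⟨(d' k).1, (d' k).2.symm⟩) d e.symm (by tauto) i
      ⟨h1, h2 _ (by simp), h2 _ (by simp)⟩ (xs_swap x')

end Pool.Agent.MP_9d78a0_co.st.al

end MrgPart0

-- ======== part 1: formerly Pool.Agent.MP_9d78a0_co.st.AliftB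
section MrgPart1

/-! A linkage on a collar is written as chains of blobs that use one ring in whole cells. -/

set_option autoImplicit false

namespace Pool.Agent.MP_9d78a0_co.st.al

open Set Function fb

/-- chains of blobs: cells of ring `j`, sets inside it, sets outside it -/
structure Bl {V : Type} (H : SimpleGraph V) (U : Set V) (c : CD V) (R : Set ℕ) (j n : ℕ)
    (u v : ℕ → V) (B : ℕ → ℕ → Set V) (l : ℕ → ℕ) : Prop where
  conn : ∀ i < n, ∀ k ≤ l i, B i k ⊆ U ∧ Conn H (B i k)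
  tch : ∀ i < n, ∀ k < l i, Touch H (B i k) (B i (k + 1))
  dis : ∀ i < n, ∀ k ≤ l i, ∀ i' < n, ∀ k' ≤ l i', (i, k) ≠ (i', k') → Disjoint (B i k) (B i' k')
  ends : ∀ i < n, u i ∈ B i 0 ∧ v i ∈ B i (l i)
  kind : ∀ i < n, ∀ k ≤ l i, (∃ w ∈ R, B i k = c.C j w) ∨ B i k ⊆ c.In H U j ∨
    Disjoint (B i k) (c.In H U j ∪ c.ring j)

theorem blobs (n : ℕ) : ∃ s0 t0, ∀ (V : Type) [Finite V] (H : SimpleGraph V) (U : Set V)
    (Ω : List V) (c : CD V) (ρ : ℕ → ℕ) (lev ang : V → ℕ), Col H U Ω c → Crd H U Ω c lev ang →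
    s0 ≤ c.s → (∀ i < t0, ρ i < c.t) → (∀ i < t0, ∀ i' < t0, i ≠ i' → ρ i ≠ ρ i') → ∀ n' ≤ n,
    ∀ (u v : ℕ → V) (Q : ℕ → Set V), Lkg H U n' u v Q → (∀ i < n', u i ∈ Ω ∧ v i ∈ Ω) →
    ∃ j B l, 2 ≤ j ∧ j < s0 ∧ Bl H U c (ρ '' Iio t0) j n' u v B l := by
  classical
  choose S T hc using comb_thm
  refine ⟨(Finset.range (n + 1)).sup S + 2, (Finset.range (n + 1)).sup T, ?_⟩
  have hS : ∀ k ≤ n, S k ≤ (Finset.range (n + 1)).sup S := fun k h =>
    Finset.le_sup (f := S) (Finset.mem_range.2 (by omega))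
  have hT : ∀ k ≤ n, T k ≤ (Finset.range (n + 1)).sup T := fun k h =>
    Finset.le_sup (f := T) (Finset.mem_range.2 (by omega))
  generalize (Finset.range (n + 1)).sup S = s at *
  generalize (Finset.range (n + 1)).sup T = t at *
  intro V _ H U Ω c ρ lev ang C D hs hρ hi n' hn u v Q hQ hΩ
  have F := C.toFCol
  have rl : ∀ l ≤ c.s, ∀ x ∈ c.ring l, x ∈ U \ c.I ∧ lev x = l := by
    rintro l hl x ⟨i, h1, h2⟩
    exact ⟨capi.ring_sub F hl ⟨i, h1, h2⟩, D.cell l hl i h1 x h2⟩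
  have lt : ∀ x ∈ Ω, lev x = c.s := fun x hx => by
    obtain ⟨α, h⟩ := (capi.mem_iff F).1 hx
    obtain ⟨i, h1, ⟨-, rfl⟩ | ⟨-, h2⟩⟩ := capi.ang_cases h
    exacts [(D.lam i h1).1 _ (capi.o_lam F h1), ((D.lam i h1).2 _ h2).1]
  have LB : LBand H ∅ {x | x ∈ U \ c.I ∧ 1 ≤ lev x ∧ lev x ≤ 1 + s} (fun x => lev x - 1)
      (fun l => c.ring (1 + l)) (fun i l => c.C (1 + l) (ρ i)) s t := by
    refine ⟨disjoint_empty _, fun x h => by have := h.2; omega, fun x h h1 h2 y e => Or.inr ?_,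
      fun x h y h' e k => ?_, fun l hl => ⟨capi.conn_ring F (by omega), fun x h => ?_⟩,
      fun i h l hl => ⟨(F.cell _ (by omega) _ (hρ i h)).2, capi.C_sub_ring (hρ i h)⟩,
      fun i h i' h' e l hl => F.dis _ (by omega) _ (hρ i h) _ (by omega) _ (hρ i' h')
        fun k => hi i h i' h' e (Prod.ext_iff.1 k).2,
      fun i h l hl => F.ver (1 + l) (by omega) _ (hρ i h)⟩
    · have hy : y ∈ U \ c.I := ⟨F.soc.tight y x e.symm, fun k => (C.sat y k x e.symm).elim h.1.2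
        fun m => by have := (rl 0 (by omega) x m).2; omega⟩
      have a1 := (D.stp x h.1 y hy e).2.1
      have a2 := (D.stp y hy x h.1 e.symm).2.1
      exact ⟨⟨hy, by omega, by omega⟩, by omega, by omega⟩
    · have a1 := h.2
      have a2 := h'.2
      have a3 := (D.stp x h.1 y h'.1 e).2.2 (by omega)
      rwa [show 1 + (lev y - 1) = lev y by omega]
    · obtain ⟨a1, a2⟩ := rl _ (by omega) x h
      exact ⟨⟨a1, by omega, by omega⟩, by omega⟩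
  obtain ⟨j, Q', j0, js, hL, hC⟩ := hc n' V H ∅ _ U _ _ _ s t (fun p => u p) (fun p => v p)
    (fun p => Q p) (hS n' hn) (hT n' hn) LB (fun x h => h.1.1) (disjoint_empty _)
    (fun p => ⟨fun h => by have := lt _ (hΩ p p.2).1; have := h.2; omega,
      fun h => by have := lt _ (hΩ p p.2).2; have := h.2; omega⟩)
    ⟨fun p => hQ.mem p p.2, fun p q e => hQ.dis p p.2 q q.2 fun k => e (Fin.ext k)⟩
  have hj : 1 + j ≤ c.s := by omega
  have cc := fun i h => F.cell (1 + j) hj (ρ i) (hρ i h)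
  have cd : ∀ i < t, ∀ i' < t, i ≠ i' → Disjoint (c.C (1 + j) (ρ i)) (c.C (1 + j) (ρ i')) :=
    fun i h i' h' e => LB.rdis i h i' h' e j js.le
  rcases n'.eq_zero_or_pos with rfl | n0
  · exact ⟨1 + j, fun _ _ => ∅, fun _ => 0, by omega, by omega, fun _ h => by omega,
      fun _ h => by omega, fun _ h => by omega, fun _ h => by omega, fun _ h => by omega⟩
  have : Nonempty V := ⟨u 0⟩
  choose! r hr using fun i h => (cc i h).2.1
  set Z := {x | x ∈ U \ c.I ∧ lev x = 1 + j} with hZ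
  have cz : ∀ i < t, c.C (1 + j) (ρ i) ⊆ Z := fun i h x k =>
    rl _ hj x (capi.C_sub_ring (hρ i h) k)
  have nz : ∀ x ∈ Ω, x ∉ Z := fun x h k => by have := lt x h; have := k.2; omega
  obtain ⟨P, hP⟩ := quoS V n' t H U Z (fun i => c.C (1 + j) (ρ i)) r _ _ Q'
    (fun i h => ⟨hr i h, cz i h⟩) cd (fun p => ⟨nz _ (hΩ p p.2).1, nz _ (hΩ p p.2).2⟩) hL
    fun p x h k => hC p x h ⟨k.1, by have := k.2; omega, by have := k.2; omega⟩
      (by have := k.2; simp only; omega)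
  have ex : ∀ i, ∃ f l, ∀ h : i < n', IsPath (cutG H (fun i => c.C (1 + j) (ρ i)) r t) (P ⟨i, h⟩) f l ∧
      f 0 = u i ∧ f l = v i := fun i => by
    by_cases h : i < n'
    · obtain ⟨-, a2, a3, a4⟩ := hP.mem ⟨i, h⟩
      obtain ⟨f, l, k⟩ := link_path (a2.2 _ a3 _ a4) a3
      exact ⟨f, l, fun _ => k⟩
    · exact ⟨u, 0, fun k => absurd k h⟩
  choose f l hf using ex
  have kd : ∀ x, x ∈ U ∧ (x ∉ Z ∨ ∃ i < t, r i = x) →
      (∃ i < t, r i = x ∧ cellOf (fun i => c.C (1 + j) (ρ i)) r t x = c.C (1 + j) (ρ i)) ∨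
      (x ∉ Z ∧ cellOf (fun i => c.C (1 + j) (ρ i)) r t x = {x}) := by
    rintro x ⟨-, h | ⟨i, h, rfl⟩⟩
    · refine Or.inr ⟨h, subset_antisymm ?_ fun y k => Or.inl k⟩
      rintro y (k | ⟨i, h1, rfl, -⟩)
      exacts [k, absurd (cz i h1 (hr i h1)) h]
    · refine Or.inl ⟨i, h, rfl, subset_antisymm ?_ fun y k => Or.inr ⟨i, h, rfl, k⟩⟩
      rintro y (rfl | ⟨i', h1, e, k⟩)
      · exact hr i h
      · by_cases d : i' = i
        exacts [d ▸ k, absurd (e ▸ hr i' h1) (disjoint_right.1 (cd i' h1 i h d) (hr i h))]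
  have hm := fun i h k hk => (hP.mem ⟨i, h⟩).1 ((hf i h).1.1 k hk)
  refine ⟨1 + j, fun i k => cellOf (fun i => c.C (1 + j) (ρ i)) r t (f i k), l, by omega, by omega,
    fun i h k hk => ?_, fun i h k hk => ((hf i h).1.2.1 k hk).2, fun i h k hk i' h' k' hk' e => ?_,
    fun i h => ⟨Or.inl (hf i h).2.1.symm, Or.inl (hf i h).2.2.symm⟩, fun i h k hk => ?_⟩
  · rcases kd _ (hm i h k hk) with ⟨x, a1, -, a2⟩ | ⟨-, a2⟩ <;> rw [a2]
    exacts [⟨fun _ k => ((cc x a1).1 k).1, (cc x a1).2⟩,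
      ⟨singleton_subset_iff.2 (hm i h k hk).1, conn_singleton _ _⟩]
  · have ne : f i k ≠ f i' k' := fun q => by
      by_cases d : i = i'
      · subst d
        exact e (by rw [(hf i h).1.2.2 k hk k' hk' q])
      · exact disjoint_left.1 (hP.dis (i := ⟨i, h⟩) (j := ⟨i', h'⟩) fun k => d (congrArg Fin.val k))
          ((hf i h).1.1 k hk) (q ▸ (hf i' h').1.1 k' hk')
    rcases kd _ (hm i h k hk) with ⟨x, a1, a2, a3⟩ | ⟨a2, a3⟩ <;>
      rcases kd _ (hm i' h' k' hk') with ⟨y, b1, b2, b3⟩ | ⟨b2, b3⟩ <;> rw [a3, b3]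
    · exact cd x a1 y b1 fun q => ne (by rw [← a2, ← b2, q])
    · exact disjoint_singleton_right.2 fun q => b2 (cz x a1 q)
    · exact disjoint_singleton_left.2 fun q => a2 (cz y b1 q)
    · exact disjoint_singleton.2 ne
  · rcases kd _ (hm i h k hk) with ⟨x, a1, -, a3⟩ | ⟨a2, a3⟩ <;> rw [a3]
    · exact Or.inl ⟨ρ x, ⟨x, a1, rfl⟩, rfl⟩
    · by_cases d : f i k ∈ c.In H U (1 + j)
      · exact Or.inr (Or.inl (singleton_subset_iff.2 d))
      · exact Or.inr (Or.inr (disjoint_singleton_left.2 fun q => q.elim d fun q => a2 (rl _ hj _ q)))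

end Pool.Agent.MP_9d78a0_co.st.al

end MrgPart1

-- ======== part 2: formerly Pool.Agent.MP_9d78a0_co.st.Alift
section MrgPart2

/-! A crooked linkage on a collar is combed on rails. -/

set_option autoImplicit false

namespace Pool.Agent.MP_9d78a0_co.st

open Set Function fb

namespace al

variable {V : Type} {H : SimpleGraph V} {U : Set V} {Ω : List V} {c : CD V} {R : Set ℕ}
  {j n : ℕ} {u v : ℕ → V} {B : ℕ → ℕ → Set V} {l : ℕ → ℕ}

/-- the union of consecutive blobs -/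
def sgm (B : ℕ → ℕ → Set V) (i a b : ℕ) : Set V := ⋃ k ∈ Icc a b, B i k

theorem sub_sgm {i a b k : ℕ} (h : a ≤ k) (h' : k ≤ b) : B i k ⊆ sgm B i a b :=
  subset_biUnion_of_mem (u := B i) ⟨h, h'⟩

theorem Bl.sconn (D : Bl H U c R j n u v B l) {i a b : ℕ} (hi : i < n) (h : a ≤ b) (h' : b ≤ l i) :
    Conn H (sgm B i a b) :=
  conn_chain h (fun k m => (D.conn i hi k (m.2.trans h')).2) fun k _ m =>
    Or.inr (D.tch i hi k (by omega))

theorem Bl.sdis (D : Bl H U c R j n u v B l) {i a b i' a' b' : ℕ} (hi : i < n) (hi' : i' < n)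
    (h : b ≤ l i) (h' : b' ≤ l i') (e : i ≠ i' ∨ b < a' ∨ b' < a) :
    Disjoint (sgm B i a b) (sgm B i' a' b') :=
  disjoint_iUnion₂_left.2 fun k m => disjoint_iUnion₂_right.2 fun k' m' =>
    D.dis i hi k (m.2.trans h) i' hi' k' (m'.2.trans h') fun q => by
      have := Prod.ext_iff.1 q
      have := m.1; have := m.2; have := m'.1; have := m'.2
      simp only at *
      omega

theorem main (h2 : PruneS) (h4 : RunsS) {p j : ℕ} (hp : 0 < p) (E : Env H U Ω c)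
    (D : Bl H U c R (j + 1 + 1) n u v B l) (hj : j + 1 + 1 < c.s) (hR : ∀ w ∈ R, w < c.t)
    (hΩ : ∀ i < n, u i ∈ Ω ∧ v i ∈ Ω) (G : Dg n (fun i => pos Ω (u i)) (fun i => pos Ω (v i)) p) :
    ∃ (m : ℕ) (x y : ℕ → ℕ) (J : ℕ → Set V), Dg m x y p ∧
      (∀ e < m, x e ∈ R ∧ y e ∈ R ∧ J e ⊆ c.In H U (j + 1 + 1 + 1) ∧ Conn H (J e) ∧
        c.C (j + 1 + 1) (x e) ⊆ J e ∧ c.C (j + 1 + 1) (y e) ⊆ J e) ∧
      ∀ e < m, ∀ e' < m, e ≠ e' → Disjoint (J e) (J e') := by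
  classical
  have hj' : j + 1 < c.s := by omega
  obtain ⟨-, i2, i3, -, -, i6⟩ := E.inn _ hj.le
  have i5 := (E.inn _ hj).2.2.2.2.1 (j + 1 + 1) (by omega)
  obtain ⟨Inn, hI⟩ : ∃ Inn : ℕ → ℕ → Prop, ∀ i k, Inn i k ↔ B i k ⊆ c.In H U (j + 1 + 1) :=
    ⟨_, fun _ _ => Iff.rfl⟩
  obtain ⟨Cel, π, hC, hC'⟩ : ∃ (Cel : ℕ → ℕ → Prop) (π : ℕ → ℕ → ℕ),
      (∀ i k, Cel i k → π i k ∈ R ∧ B i k = c.C (j + 1 + 1) (π i k)) ∧
      ∀ i k, (∃ w ∈ R, B i k = c.C (j + 1 + 1) w) → Cel i k := by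
    choose! π h using fun i k (h : ∃ w ∈ R, B i k = c.C (j + 1 + 1) w) => h
    exact ⟨_, π, h, fun _ _ k => k⟩
  have cr : ∀ i k, Cel i k → B i k ⊆ c.ring (j + 1 + 1) := fun i k h =>
    (hC i k h).2 ▸ cell_ring (hR _ (hC i k h).1)
  have f0 : ∀ i < n, ∀ k ≤ l i, Cel i k → ¬ Inn i k := fun i hi k hk h m => by
    obtain ⟨z, hz⟩ := (D.conn i hi k hk).2.1
    exact (in_sub _ ((hI i k).1 m hz)).2 (cr i k h hz)
  have f1 : ∀ i < n, ∀ k ≤ l i, ¬ Inn i k → B i k ⊆ U \ c.In H U (j + 1 + 1) := fun i hi k hk h => by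
    rcases D.kind i hi k hk with q | q | q
    exacts [(cr i k (hC' i k q)).trans (E.ring_sub hj.le), absurd ((hI i k).2 q) h,
      fun z hz => ⟨(D.conn i hi k hk).1 hz, fun m => disjoint_left.1 q hz (Or.inl m)⟩]
  have f2 : ∀ i < n, ∀ k, ∀ k' ≤ l i, Inn i k → Touch H (B i k) (B i k') → Inn i k' ∨ Cel i k' := by
    rintro i hi k k' hk h ⟨a, a1, b, b1, e⟩
    rcases D.kind i hi k' hk with q | q | q
    exacts [Or.inr (hC' i k' q), Or.inl ((hI i k').2 q),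
      absurd (i6 a ((hI i k).1 h a1) b e) (disjoint_left.1 q b1)]
  have f3 : ∀ i < n, ¬ Inn i 0 ∧ ¬ Inn i (l i) := fun i hi =>
    ⟨fun h => disjoint_left.1 i3 ((hI _ _).1 h (D.ends i hi).1) (hΩ i hi).1,
      fun h => disjoint_left.1 i3 ((hI _ _).1 h (D.ends i hi).2) (hΩ i hi).2⟩
  obtain ⟨dp, hd⟩ : ∃ dp : ℕ → ℕ → Prop, ∀ i k, dp i k ↔ k ≤ l i ∧
      (Inn i k ∨ (Cel i k ∧ ((0 < k ∧ Inn i (k - 1)) ∨ (k < l i ∧ Inn i (k + 1))))) :=
    ⟨_, fun _ _ => Iff.rfl⟩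
  have f4 : ∀ i < n, ∀ k, St (dp i) k → Cel i k ∧ k < l i ∧ Inn i (k + 1) := by
    rintro i hi k ⟨h1, h2⟩
    obtain ⟨h3, h4 | ⟨h4, ⟨h5, h6⟩ | h5⟩⟩ := (hd i k).1 h1
    · obtain _ | k := k
      · exact absurd h4 (f3 i hi).1
      · refine absurd ((hd i k).2 ⟨by omega, ?_⟩) (h2.resolve_left (by omega))
        exact (f2 i hi _ k (by omega) h4 (D.tch i hi k h3).symm).imp id
          fun q => ⟨q, Or.inr ⟨h3, h4⟩⟩
    · exact absurd ((hd i _).2 ⟨by omega, Or.inl h6⟩) (h2.resolve_left (by omega))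
    · exact ⟨h4, h5⟩
  have f5 : ∀ i < n, ∀ k, En (dp i) (l i) k → Cel i k := by
    rintro i hi k ⟨h1, h2⟩
    obtain ⟨h3, h4 | h4⟩ := (hd i k).1 h1
    · have q : k ≠ l i := fun q => (f3 i hi).2 (q ▸ h4)
      refine absurd ((hd i (k + 1)).2 ⟨by omega, ?_⟩) (h2.resolve_left q)
      exact (f2 i hi k _ (by omega) h4 (D.tch i hi k (by omega))).imp id
        fun q => ⟨q, Or.inl ⟨by omega, h4⟩⟩
    · exact h4.1
  have r2 : ∀ i < n, ∀ k, St (dp i) k → ¬ En (dp i) (l i) k := fun i hi k h m => by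
    obtain ⟨-, a, b⟩ := f4 i hi k h
    exact m.2.elim (by omega) fun q => q ((hd i _).2 ⟨a, Or.inl b⟩)
  have ce : ∀ i < n, ∀ k, St (dp i) k ∨ En (dp i) (l i) k → Cel i k ∧ k ≤ l i := fun i hi k h =>
    ⟨h.elim (fun q => (f4 i hi k q).1) (f5 i hi k), ((hd i k).1 (h.elim (·.1) (·.1))).1⟩
  have r3 : ∀ i < n, ∀ k, ∀ i' < n, ∀ k', St (dp i) k ∨ En (dp i) (l i) k →
      St (dp i') k' ∨ En (dp i') (l i') k' → π i k = π i' k' → i = i' ∧ k = k' := by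
    intro i hi k i' hi' k' h h' e
    by_contra q
    obtain ⟨z, hz⟩ := (D.conn i hi k (ce i hi k h).2).2.1
    refine disjoint_left.1 (D.dis i hi k (ce i hi k h).2 i' hi' k' (ce i' hi' k' h').2
      fun m => q (Prod.ext_iff.1 m)) hz ?_
    rwa [(hC _ _ (ce i' hi' k' h').1).2, ← e, ← (hC _ _ (ce i hi k h).1).2]
  have so : ∀ i < n, ∀ a b, b ≤ l i → (∀ k, a ≤ k → k ≤ b → ¬ dp i k ∨ Cel i k) →
      sgm B i a b ⊆ U \ c.In H U (j + 1 + 1) := fun i hi a b hb h =>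
    iUnion₂_subset fun k m => f1 i hi k (m.2.trans hb) ((h k m.1 m.2).elim
      (fun q q' => q ((hd i k).2 ⟨m.2.trans hb, Or.inl q'⟩)) (f0 i hi k (m.2.trans hb)))
  have tc : ∀ i a b k, a ≤ k → k ≤ b → Cel i k → Touch H (sgm B i a b) (c.C (j + 1) (π i k)) :=
    fun i a b k h h' q => (E.col.ver (j + 1) hj' _ (hR _ (hC i k q).1)).symm.mono
      ((hC i k q).2 ▸ sub_sgm h h') subset_rfl
  have t1 : ∀ i < n, ∀ k, dp i k → (∀ k' < k, ¬ dp i k') →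
      St (dp i) k ∧ Tl H U Ω c (j + 1) (sgm B i 0 k) (u i) (π i k) := fun i hi k h h' => by
    have s : St (dp i) k := ⟨h, (Nat.eq_zero_or_pos k).imp id fun q => h' _ (by omega)⟩
    obtain ⟨a, b⟩ := ce i hi k (Or.inl s)
    exact ⟨s, so i hi 0 k b fun k' _ q => q.lt_or_eq.imp (h' k') fun e : k' = k => e ▸ a,
      D.sconn hi (by omega) b, sub_sgm le_rfl (by omega) (D.ends i hi).1, (hΩ i hi).1,
      hR _ (hC _ _ a).1, tc i 0 k k (by omega) le_rfl a⟩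
  have t2 : ∀ i < n, ∀ k, dp i k → (∀ k', k < k' → k' ≤ l i → ¬ dp i k') →
      En (dp i) (l i) k ∧ Tl H U Ω c (j + 1) (sgm B i k (l i)) (v i) (π i k) := fun i hi k h h' => by
    have b := ((hd i k).1 h).1
    have s : En (dp i) (l i) k := ⟨h, b.eq_or_lt.imp id fun q => h' _ (by omega) q⟩
    have a := f5 i hi k s
    exact ⟨s, so i hi k _ le_rfl fun k' q q' => q.lt_or_eq.imp (fun q => h' k' q q')
        fun e : k = k' => e ▸ a,
      D.sconn hi b le_rfl, sub_sgm b le_rfl (D.ends i hi).2, (hΩ i hi).2,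
      hR _ (hC _ _ a).1, tc i k _ k le_rfl b a⟩
  have fst : ∀ i, (∃ k, dp i k) → ∃ k, dp i k ∧ ∀ k' < k, ¬ dp i k' := fun i h =>
    ⟨Nat.find h, Nat.find_spec h, fun _ q => Nat.find_min h q⟩
  have tw : ∀ i < n, ∀ i' < n, i ≠ i' →
      Xs (pos Ω (u i)) (pos Ω (v i)) (pos Ω (u i')) (pos Ω (v i')) →
      (∃ k, dp i k) ∧ ∃ k, dp i' k := by
    intro i hi i' hi' e x
    have su : ∀ i < n, sgm B i 0 (l i) ⊆ U := fun i hi =>
      iUnion₂_subset fun k m => (D.conn i hi k m.2).1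
    have k : ∀ i < n, (sgm B i 0 (l i) ∩ c.I).Nonempty → ∃ k, dp i k := fun i hi ⟨z, z1, z2⟩ => by
      by_contra q
      exact (so i hi 0 _ le_rfl (fun k _ _ => Or.inl fun m => q ⟨k, m⟩) z1).2 (i2 z2)
    exact (E.nox _ (hΩ i hi).1 _ (hΩ i hi).2 _ (hΩ i' hi').1 _ (hΩ i' hi').2 x _ _
      ⟨su i hi, su i' hi', D.sconn hi (by omega) le_rfl, D.sconn hi' (by omega) le_rfl,
        D.sdis hi hi' le_rfl le_rfl (Or.inl e)⟩ (sub_sgm le_rfl (by omega) (D.ends i hi).1)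
      (sub_sgm (by omega) le_rfl (D.ends i hi).2) (sub_sgm le_rfl (by omega) (D.ends i' hi').1)
      (sub_sgm (by omega) le_rfl (D.ends i' hi').2)).imp (k i hi) (k i' hi')
  have dpx : ∀ i < n, ∃ k, dp i k := by
    intro i hi
    by_contra q
    have nx : ∀ i' < n, i' ≠ i → (Btw (pos Ω (u i)) (pos Ω (v i)) (pos Ω (u i')) ↔
        Btw (pos Ω (u i)) (pos Ω (v i)) (pos Ω (v i'))) := fun i' hi' e =>
      not_not.1 fun x => q (tw i hi i' hi' e.symm (xs_def.2 x)).1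
    have ds := fun i' hi' => G.dst i hi i' hi'
    have ds' := fun i' hi' => G.dst i' hi' i hi
    obtain ⟨⟨a, a1, a2⟩, b, b1, b2, b3⟩ := G.crook i hi
    simp only at ds ds' a2 b3
    generalize hx : pos Ω (u i) = x at *
    generalize hy : pos Ω (v i) = y at *
    have g1 : ∀ z, z ∈ Ico (min x y + 1) (max x y) ↔ Btw x y z := fun z => by
      rw [mem_Ico]; unfold fb.Btw; omega
    have g2 : ∀ z, z ∈ (Ico (min x y) (max x y + 1))ᶜ ↔ ¬ Btw x y z ∧ z ≠ x ∧ z ≠ y := fun z => by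
      rw [mem_compl_iff, mem_Ico]; unfold fb.Btw; omega
    have g3 : ¬ Btw x y x ∧ ¬ Btw x y y := by unfold fb.Btw; omega
    have an : a ≠ i := by
      rintro rfl
      rw [hx, hy] at a2
      exact a2.elim g3.1 g3.2
    obtain ⟨a', p1, a'', p2, p3, -, p4, p5⟩ := h2.2.1 n _ _ _ _ _ G.dst G.crook (Or.inl rfl)
      (fun k hk => by
        simp only [g1]
        by_cases e : k = i
        · rw [e, hx, hy]; exact iff_of_false g3.1 g3.2
        · exact nx k hk e) ⟨a, a1, (g1 _).2 (a2.elim id (nx a a1 an).2)⟩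
    obtain ⟨b', q1, b'', q2, q3, -, q4, q5⟩ := h2.2.1 n _ _ _ _ _ G.dst G.crook (Or.inr rfl)
      (fun k hk => by
        simp only [g2]
        by_cases e : k = i
        · rw [e, hx, hy]; simp
        · rw [nx k hk e]
          have := (ds k hk).1.symm
          have := (ds' k hk).1
          have := (ds' k hk).2 e
          tauto) ⟨b, b1, (g2 _).2 ⟨b3.elim id (mt (nx b b1 b2).1), ((ds' b b1).2 b2).1, (ds' b b1).1⟩⟩
    obtain ⟨k, k1, k2⟩ := fst a' (tw a' p1 a'' p2 p4 p5).1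
    obtain ⟨m, m1, m2⟩ := fst b' (tw b' q1 b'' q2 q4 q5).1
    have o := so i hi 0 _ le_rfl fun k _ _ => Or.inl fun m => q ⟨k, m⟩
    have ta := (t1 a' p1 k k1 k2).2
    have tb := (t1 b' q1 m m1 m2).2
    rw [g1] at p3
    rw [g2] at q3
    refine E.lemX hj' (E.down hj' o) (D.sconn hi (by omega) le_rfl)
      (sub_sgm le_rfl (by omega) (D.ends i hi).1) (sub_sgm (by omega) le_rfl (D.ends i hi).2)
      (hΩ i hi).1 (hΩ i hi).2 ta tb (disjoint_union_right.2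
        ⟨D.sdis hi p1 le_rfl ((hd _ _).1 k1).1 (Or.inl ?_),
          D.sdis hi q1 le_rfl ((hd _ _).1 m1).1 (Or.inl ?_)⟩)
      (E.off hj' o (union_subset (cell_ring ta.wt) (cell_ring tb.wt))) ?_
    · rintro rfl
      exact g3.1 (hx ▸ p3)
    · rintro rfl
      exact q3.2.1 hx
    · rw [hx, hy]
      exact Or.inl ⟨p3, q3.1⟩
  choose! fs hf using fun i hi => fst i (dpx i hi)
  have lst : ∀ i < n, ∃ k, dp i k ∧ ∀ k', k < k' → k' ≤ l i → ¬ dp i k' := fun i hi => by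
    obtain ⟨k, hk⟩ := dpx i hi
    exact ⟨Nat.findGreatest (dp i) (l i), Nat.findGreatest_spec ((hd i k).1 hk).1 hk,
      fun _ => Nat.findGreatest_is_greatest⟩
  choose! la hl using lst
  have s1 := fun i hi => t1 i hi _ (hf i hi).1 (hf i hi).2
  have s2 := fun i hi => t2 i hi _ (hl i hi).1 (hl i hi).2
  have lf : ∀ i < n, ∀ k, En (dp i) (l i) k → fs i < k := fun i hi k h =>
    lt_of_le_of_ne (not_lt.1 fun q => (hf i hi).2 k q h.1) fun q => r2 i hi k (q ▸ (s1 i hi).1) h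
  have ll : ∀ i < n, ∀ k, St (dp i) k → k < la i := fun i hi k h =>
    lt_of_le_of_ne (not_lt.1 fun q => (hl i hi).2 k q ((hd i k).1 h.1).1 h.1)
      fun q => r2 i hi k h (q ▸ (s2 i hi).1)
  have fl := fun i hi => lf i hi _ (s2 i hi).1
  have al := fun i hi => ((hd i _).1 (hl i hi).1).1
  have n2 : 2 ≤ n := by
    obtain ⟨α, β, t, -, h⟩ := G.trn
    obtain ⟨-, b, b1, b2, -⟩ := G.crook _ (h 0 hp).1
    have := (h 0 hp).1
    omega
  have se : ∀ e : Fin n × Bool, St (dp e.1) (if e.2 then la e.1 else fs e.1) ∨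
      En (dp e.1) (l e.1) (if e.2 then la e.1 else fs e.1) := by
    rintro ⟨i, _ | _⟩
    exacts [Or.inl (s1 i i.2).1, Or.inr (s2 i i.2).1]
  have S : Sys H U Ω c (j + 1)
      (fun e : Fin n × Bool => if e.2 then sgm B e.1 (la e.1) (l e.1) else sgm B e.1 0 (fs e.1))
      (fun e => if e.2 then v e.1 else u e.1) fun e => π e.1 (if e.2 then la e.1 else fs e.1) := by
    refine ⟨?_, fun e e' h => ⟨?_, fun q => ?_⟩, fun e e' => ?_⟩
    · rintro ⟨i, _ | _⟩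
      exacts [(s1 i i.2).2, (s2 i i.2).2]
    · obtain ⟨i, b⟩ := e
      obtain ⟨i', b'⟩ := e'
      have := fl i i.2; have := fl i' i'.2; have := al i i.2; have := al i' i'.2
      by_cases q : i = i'
      · subst q
        cases b <;> cases b' <;> dsimp only
        exacts [absurd rfl h, D.sdis i.2 i.2 (by omega) le_rfl (by omega),
          D.sdis i.2 i.2 le_rfl (by omega) (by omega), absurd rfl h]
      · have q' := Fin.val_ne_of_ne q
        cases b <;> cases b' <;> dsimp only <;>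
          exact D.sdis i.2 i'.2 (by omega) (by omega) (Or.inl q')
    · obtain ⟨a, b⟩ := r3 _ e.1.2 _ _ e'.1.2 _ (se e) (se e') q
      obtain ⟨i, s⟩ := e
      obtain ⟨i', s'⟩ := e'
      obtain rfl : i = i' := Fin.ext a
      have := fl i i.2
      cases s <;> cases s' <;> simp at b h <;> omega
    · have k : 1 < (Finset.univ \ {e, e'}).card := by
        have := Finset.card_le_two (a := e) (b := e')
        rw [Finset.card_sdiff_of_subset (Finset.subset_univ _)]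
        simp only [Finset.card_univ, Fintype.card_prod, Fintype.card_fin, Fintype.card_bool]
        omega
      obtain ⟨m, a, m', b, q⟩ := Finset.one_lt_card.1 k
      simp only [Finset.mem_sdiff, Finset.mem_univ, Finset.mem_insert, Finset.mem_singleton,
        true_and, not_or] at a b
      exact ⟨m, m', q, a.1, a.2, b.1, b.2⟩
  have cp : ∀ i < n, ∀ k k', Cap (dp i) (l i) k k' → En (dp i) (l i) k ∧ St (dp i) k' ∧
      Cp H U c (j + 1) (sgm B i k k') (π i k) (π i k') ∧ ∀ e : Fin n × Bool,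
      Disjoint (sgm B i k k')
        (if e.2 then sgm B e.1 (la e.1) (l e.1) else sgm B e.1 0 (fs e.1)) ∧
      π e.1 (if e.2 then la e.1 else fs e.1) ≠ π i k ∧
      π e.1 (if e.2 then la e.1 else fs e.1) ≠ π i k' := by
    rintro i hi k k' ⟨a1, a2, a3, a4, a5⟩
    have b1 : En (dp i) (l i) k := ⟨a3, Or.inr (a5 _ (by omega) a1)⟩
    have b2 : St (dp i) k' := ⟨a4, Or.inr (a5 _ (by omega) (by omega))⟩
    have c1 := f5 i hi k b1
    have c2 := (f4 i hi k' b2).1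
    have := lf i hi k b1
    have := ll i hi k' b2
    refine ⟨b1, b2, ⟨so i hi k k' a2 fun m q q' => ?_, D.sconn hi (by omega) a2, hR _ (hC _ _ c1).1,
      hR _ (hC _ _ c2).1, tc i k k' k le_rfl (by omega) c1, tc i k k' k' (by omega) le_rfl c2⟩,
      fun e => ⟨?_, fun q => ?_, fun q => ?_⟩⟩
    · rcases q.eq_or_lt with rfl | q
      · exact Or.inr c1
      · exact q'.lt_or_eq.imp (a5 m q) fun e : m = k' => e ▸ c2
    · obtain ⟨i', s⟩ := e
      have := fl i' i'.2; have := al i' i'.2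
      by_cases q : i = i'
      · subst q
        cases s <;> dsimp only
        exacts [D.sdis hi hi a2 (by omega) (by omega), D.sdis hi hi a2 le_rfl (by omega)]
      · cases s <;> dsimp only <;> exact D.sdis hi i'.2 a2 (by omega) (Or.inl q)
    · obtain ⟨a, b⟩ := r3 _ e.1.2 _ _ hi _ (se e) (Or.inr b1) q
      rw [a] at b
      split_ifs at b <;> omega
    · obtain ⟨a, b⟩ := r3 _ e.1.2 _ _ hi _ (se e) (Or.inl b2) q
      rw [a] at b
      split_ifs at b <;> omega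
  have : Nonempty (Fin n × Bool) := ⟨(⟨0, by omega⟩, true)⟩
  obtain ⟨m, r, s, t, g1, g2⟩ := h4 n p _ _ l fs la dp π G
    (fun i hi => ⟨(hf i hi).1, (hf i hi).2, (hl i hi).1, al i hi, (hl i hi).2⟩)
    (fun i hi k _ => r2 i hi k) (fun i hi k _ i' hi' k' _ => r3 i hi k i' hi' k')
    (fun e he hn => by
      have ne : ∀ a b, a ≠ b → ((⟨(e a).1, hn a⟩, (e a).2) : Fin n × Bool) ≠ (⟨(e b).1, hn b⟩, (e b).2) :=
        fun a b q q' => q (he (Prod.ext (congrArg (fun z : Fin n × Bool => z.1.1) q')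
          (congrArg (fun z : Fin n × Bool => z.2) q')))
      have d := S.d4 ⟨ne 2 0 (by decide), ne 2 1 (by decide), ne 3 0 (by decide), ne 3 1 (by decide)⟩
      intro o w x
      refine E.lemA hj' (S.tl _) (S.tl _) (S.tl _) (S.tl _) d.1 d.2 ?_
      simpa only [apply_ite (pos Ω)] using x)
    (fun i hi k k' h => by
      obtain ⟨a1, a2, a3, a4⟩ := cp i hi k k' h
      refine ⟨fun i' hi' m m' h' e => ?_, fun a ha b hb m m' q q' => ?_⟩
      · obtain ⟨b1, b2, b3, b4⟩ := cp i' hi' m m' h'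
        have z : i ≠ i' ∨ k' < m ∨ m' < k := by
          by_cases q : i = i'
          · subst q
            have e' : k ≠ m := fun q => e (by rw [q])
            have z1 : k' ≠ m := fun q => r2 i hi m (q ▸ a2) b1
            have z2 : m' ≠ k := fun q => r2 i hi k (q ▸ b2) a1
            have z3 : ¬ (k < m ∧ m < k') := fun p => h.2.2.2.2 m p.1 p.2 b1.1
            have z4 : ¬ (m < k ∧ k < m') := fun p => h'.2.2.2.2 k p.1 p.2 a1.1
            omega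
          · exact Or.inl q
        have := h.1
        have := h'.1
        refine E.cross hj' S a3 b3 a4 b4 (D.sdis hi hi' h.2.1 h'.2.1 z) ⟨fun q => ?_, fun q => ?_,
          fun q => ?_, fun q => ?_⟩
        · have := r3 _ hi _ _ hi' _ (Or.inr a1) (Or.inr b1) q; omega
        · have := r3 _ hi _ _ hi' _ (Or.inr a1) (Or.inl b2) q; omega
        · have := r3 _ hi _ _ hi' _ (Or.inl a2) (Or.inr b1) q; omega
        · have := r3 _ hi _ _ hi' _ (Or.inl a2) (Or.inl b2) q; omega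
      · rcases q with rfl | rfl <;> rcases q' with rfl | rfl
        exacts [E.side hj' S a3 a4 (⟨a, ha⟩, false) (⟨b, hb⟩, false),
          E.side hj' S a3 a4 (⟨a, ha⟩, false) (⟨b, hb⟩, true),
          E.side hj' S a3 a4 (⟨a, ha⟩, true) (⟨b, hb⟩, false),
          E.side hj' S a3 a4 (⟨a, ha⟩, true) (⟨b, hb⟩, true)])
  refine ⟨m, _, _, fun e => sgm B (r e) (s e) (t e), g2, fun e he => ?_, fun e he e' he' q => ?_⟩
  · obtain ⟨a1, a2, a3, a4, a5, a6⟩ := g1 e he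
    have c1 := hC _ _ (f4 _ a1 _ a4).1
    have c2 := hC _ _ (f5 _ a1 _ a5)
    refine ⟨c1.1, c2.1, iUnion₂_subset fun k q => ?_, D.sconn a1 a2.le a3,
      c1.2 ▸ sub_sgm le_rfl a2.le, c2.2 ▸ sub_sgm a2.le le_rfl⟩
    rcases ((hd _ _).1 (a6 k q.1 q.2)).2 with z | z
    exacts [fun _ y => i5 (Or.inl ((hI _ _).1 z y)), fun _ y => i5 (Or.inr (cr _ _ z.1 y))]
  · obtain ⟨a1, a2, a3, a4, -, a6⟩ := g1 e he
    obtain ⟨b1, b2, b3, b4, -, b6⟩ := g1 e' he'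
    refine D.sdis a1 b1 a3 b3 (or_iff_not_imp_left.2 fun z => ?_)
    rw [not_not] at z
    have z0 : s e ≠ s e' := fun y => ((g2.dst e he e' he').2 q).1 (by simp only [z, y])
    by_contra y
    rcases lt_or_gt_of_ne z0 with w | w
    · exact b4.2.elim (by omega) fun k => k (z ▸ a6 (s e' - 1) (by omega) (by omega))
    · exact a4.2.elim (by omega) fun k => k (z ▸ b6 (s e - 1) (by omega) (by omega))

end al

theorem aliftS : NfS → PruneS → CrkS → RunsS → InS → CrdS → AliftS := by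
  intro _ h2 h3 h4 h5 h6 n p hp
  obtain ⟨s0, t0, hb⟩ := al.blobs n
  refine ⟨s0, t0, fun V _ H U Ω c ρ C hs h1 hρ n' hn ⟨u, v, Q, a1, a2, a3⟩ => ?_⟩
  obtain ⟨lev, ang, D⟩ := h6 V H U Ω c C
  have mo : ∀ i i', i < i' → i' < t0 → ρ i < ρ i' := fun i i' h => by
    induction i', h using Nat.le_induction with
    | base => exact fun k => Nat.lt_of_succ_lt (hρ i k)
    | succ k _ ih => exact fun q => by have := hρ k q; have := ih (by omega); omega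
  obtain ⟨j, B, l, j2, js, b⟩ := hb V H U Ω c ρ lev ang C D hs (fun i h => by have := h1 i h; omega)
    (fun i h i' h' e => (lt_or_gt_of_ne e).elim (fun k => (mo i i' k h').ne)
      fun k => (mo i' i k h).ne') n' hn u v Q a1 a2
  obtain ⟨j, rfl⟩ : ∃ k, j = k + 1 + 1 := ⟨j - 2, by omega⟩
  obtain ⟨m, x, y, J, k⟩ := al.main h2 h4 hp (al.env h3 h5 C.toFCol) b (by omega)
    (by rintro _ ⟨i, h, rfl⟩; have := h1 i h; omega) a2 a3
  exact ⟨_, m, x, y, J, js, k⟩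

end Pool.Agent.MP_9d78a0_co.st

end MrgPart2

-- ======== part 3: formerly Pool.Agent.MP_9d78a0_co.st.Xr
section MrgPart3

/-! Rings and outsides of the children of a cut strip. -/

set_option autoImplicit false

namespace Pool.Agent.MP_9d78a0_co.st

open Set Function fb

namespace xr

variable {V : Type} {H0 H : SimpleGraph V} {U0 U I S T : Set V} {p : PD V}

theorem link_to {a b : V} (h : Link H0 S a b) (hs : S ⊆ T)
    (e : ∀ u ∈ S, ∀ v ∈ S, H0.Adj u v → H.Adj u v) : Link H T a b :=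
  Link.map (G' := H) id (fun u hu v hv k => Link.single (hs hu) (hs hv) (e u hu v hv k)) h

theorem conn_to (h : Conn H0 S) (e : ∀ u ∈ S, ∀ v ∈ S, H0.Adj u v → H.Adj u v) : Conn H S :=
  ⟨h.1, fun u hu v hv => link_to (h.2 u hu v hv) subset_rfl e⟩

theorem conn_meet {x : V} (h : Conn H S) (h' : Conn H T) (a : x ∈ S) (b : x ∈ T) :
    Conn H (S ∪ T) :=
  conn_of_center (Or.inl a) fun v hv => hv.elim
    (fun hv => (h.2 x a v hv).mono subset_union_left) fun hv => (h'.2 x b v hv).mono subset_union_right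

theorem first_hit {K : Set V} {v w : V} (h : Link H (K ∪ {w}) v w) (hv : v ∈ K) :
    (w ∈ K ∧ Link H K v w) ∨ ∃ x ∈ K, Link H K v x ∧ H.Adj x w := by
  by_cases c : w ∈ K
  · exact Or.inl ⟨c, h.mono (union_subset subset_rfl (singleton_subset_iff.2 c))⟩
  obtain ⟨x, y, -, hy, hx, hy', e, k⟩ := link_exit h hv c
  obtain rfl : y = w := hy.resolve_left hy'
  exact Or.inr ⟨x, hx, k.mono inter_subset_right, e⟩

section panel

variable (h : Pan H U I p)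
include h

theorem cellP {l e : ℕ} {v : V} (hl : l ≤ p.s) (he : e ≤ p.n) (hv : v ∈ p.C l e) :
    v ∈ p.P ∧ p.κ v = 2 * e ∧ p.lev v = l :=
  have k := (h.col e he v).1 (pan.cell_col hl hv)
  ⟨k.1, k.2, ((h.cell l hl e he).2 v hv).1⟩

theorem upP {l e : ℕ} {v : V} (hl : l ≤ p.s) (he : e ≤ p.n) :
    v ∈ p.up l e ↔ v ∈ p.P ∧ p.κ v = 2 * e ∧ l ≤ p.lev v := by
  constructor
  · rintro (k | ⟨l', a, b, k⟩)
    · have c := (h.col e he v).1 (Or.inl k)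
      exact ⟨c.1, c.2, ((h.lam e he).2.2.2.2 v k).symm ▸ hl⟩
    · have c := cellP h b he k
      exact ⟨c.1, c.2.1, c.2.2.symm ▸ a⟩
  · rintro ⟨a, b, c⟩
    rcases (h.col e he v).2 ⟨a, b⟩ with k | ⟨l', -, d, k⟩
    · exact Or.inl k
    · exact Or.inr ⟨l', (cellP h d he k).2.2 ▸ c, d, k⟩

theorem linP {v : V} (hv : v ∈ p.lin 0 p.n) : v ∈ p.P ∧ p.lev v = p.s := by
  rcases pan.mem_lin.1 hv with ⟨j, hj, rfl⟩ | ⟨j, hj, k⟩
  · rw [zero_add]
    have a := (h.lam j hj).2.2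
    exact ⟨((h.col j hj _).1 (Or.inl a.1)).1, a.2.2 _ a.1⟩
  · rw [zero_add] at k
    exact ⟨(h.seg j hj v k).1, (h.seg j hj v k).2.1⟩

theorem up_conn {l e : ℕ} (hl : l ≤ p.s) (he : e ≤ p.n) : Conn H (p.up l e) :=
  pan.conn_up (C := fun l => p.C l e) hl (fun l hl => (h.cell l hl e he).1)
    (fun l hl => h.ver l hl e he) (h.lam e he).1 (h.lam e he).2.1

theorem low_conn {l e : ℕ} (hl : l ≤ p.s) (he : e ≤ p.n) : Conn H (⋃ i ∈ Icc 0 l, p.C i e) :=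
  conn_chain (S := fun i => p.C i e) l.zero_le (fun i hi => (h.cell i (hi.2.trans hl) e he).1)
    fun i _ hi => Or.inr (h.ver i (hi.trans_le hl) e he)

theorem drop {x y : V} (hx : x ∈ p.P) (hy : y ∈ p.P) (o : p.κ x % 2 = 1) (e : H.Adj x y) :
    p.lev x ≤ p.lev y ∧ p.κ x ≤ p.κ y + 1 ∧ p.κ y ≤ p.κ x + 1 := by
  obtain ⟨-, a, b⟩ := h.stp y hy x hx e.symm
  have c := (h.stp x hx y hy e).1
  refine ⟨?_, by unfold LSt at c; omega⟩
  by_contra k
  obtain ⟨j, hj, m⟩ := b (by omega)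
  have := (cellP h (h.rng x hx).1 hj m).2.1
  omega

theorem odd_att {v : V} (hv : v ∈ p.P) (o : p.κ v % 2 = 1) :
    ∃ w, (w ∈ p.lin 0 p.n ∨ p.κ w % 2 = 0) ∧ Link H
      {x | x ∈ p.P ∧ p.lev v ≤ p.lev x ∧ p.κ v ≤ p.κ x + 1 ∧ p.κ x ≤ p.κ v + 1} v w := by
  obtain ⟨w, hw, k⟩ := h.att v hv
  have a : w ∈ p.P ∧ (w ∈ p.lin 0 p.n ∨ p.κ w % 2 = 0) := by
    rcases hw with c | ⟨e, he, c⟩
    · exact ⟨(linP h c).1, Or.inl c⟩
    · have := (h.col e he w).1 c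
      exact ⟨this.1, Or.inr (by omega)⟩
  have m : ∀ x, Link H {x | x ∈ p.P ∧ p.κ x = p.κ v} v x → p.lev v ≤ p.lev x ∧ Link H
      {x | x ∈ p.P ∧ p.lev v ≤ p.lev x ∧ p.κ v ≤ p.κ x + 1 ∧ p.κ x ≤ p.κ v + 1} v x := by
    intro x hx
    induction hx with
    | refl => exact ⟨le_rfl, Link.refl _ _ _⟩
    | tail _ c ih =>
      obtain ⟨⟨c1, c2⟩, ⟨c3, c4⟩, c5⟩ := c
      have := (drop h c1 c3 (c2 ▸ o) c5).1
      exact ⟨ih.1.trans this, ih.2.trans (Link.single ⟨c1, ih.1, by omega, by omega⟩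
        ⟨c3, ih.1.trans this, by omega, by omega⟩ c5)⟩
  refine ⟨w, a.2, ?_⟩
  rcases first_hit k ⟨hv, rfl⟩ with c | ⟨x, ⟨x1, x2⟩, c, e⟩
  · exact (m w c.2).2
  · have d := drop h x1 a.1 (x2 ▸ o) e
    have g := m x c
    exact g.2.trans (Link.single ⟨x1, g.1, by omega, by omega⟩
      ⟨a.1, g.1.trans d.1, by omega, by omega⟩ e)

theorem o_lin {e : ℕ} (he : e ≤ p.n) : p.o e ∈ p.lin 0 p.n ∧ ∀ l, p.o e ∈ p.up l e :=
  ⟨pan.mem_lin.2 (Or.inl ⟨e, he, by rw [zero_add]⟩), fun _ => Or.inl (h.lam e he).2.2.1⟩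

end panel

section half

variable {F : FD V} {W I' : Set V} {pos : V → ℕ} {mid : List V}
  (h : Half H0 H U F W pos mid) (ha : Pan H0 U0 I F.A) (hb : Pan H0 U0 I' F.B)
include h ha hb

theorem row_conn {e : ℕ} (he : e ≤ F.A.n) : Conn H (F.row e) := by
  obtain ⟨a, b, c, -⟩ := h.j e he
  refine conn_to (conn_union_touch (conn_union_touch (up_conn ha (Nat.zero_le _) he) a
    (b.symm.mono (pan.cell_col (Nat.zero_le _)) subset_rfl))
    (up_conn hb (Nat.zero_le _) (h.n ▸ he))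
    (c.mono subset_union_right (pan.cell_col (Nat.zero_le _)))) fun u hu v hv k => ?_
  have := (h.row e he u).1 hu
  exact h.keep u this.1 (by omega) v ((h.row e he v).1 hv).1 k

theorem reach {a b : ℕ} (hn : b ≤ F.A.n) {v : V}
    (hv : v ∈ {x | x ∈ W ∧ 2 * a ≤ pos x ∧ pos x ≤ 2 * b}) :
    ∃ y, (y ∈ F.A.lin 0 F.A.n ∨ y ∈ F.B.lin 0 F.B.n) ∧
      Link H {x | x ∈ W ∧ 2 * a ≤ pos x ∧ pos x ≤ 2 * b} v y := by
  set S := {x | x ∈ W ∧ 2 * a ≤ pos x ∧ pos x ≤ 2 * b} with hS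
  have ev : ∀ v ∈ S, pos v % 2 = 0 → ∃ y, (y ∈ F.A.lin 0 F.A.n ∨ y ∈ F.B.lin 0 F.B.n) ∧
      Link H S v y := by
    rintro v ⟨v1, v2, v3⟩ o
    have he : pos v / 2 ≤ F.A.n := by omega
    refine ⟨_, Or.inl (o_lin ha he).1, ((row_conn h ha hb he).2 v ((h.row _ he v).2 ⟨v1, by omega⟩)
      _ (Or.inl (Or.inl ((o_lin ha he).2 0)))).mono fun x hx => ?_⟩
    have := (h.row _ he x).1 hx
    exact ⟨this.1, by omega, by omega⟩
  rcases Nat.mod_two_eq_zero_or_one (pos v) with o | o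
  · exact ev v hv o
  have pn : ∀ (q : PD V) (J : Set V), Pan H0 U0 J q → (∀ x ∈ q.P, x ∈ W ∧ pos x = q.κ x) →
      v ∈ q.P → ∃ y, (y ∈ q.lin 0 q.n ∨ pos y % 2 = 0) ∧ Link H S v y := by
    intro q J hq k m
    have kv := (k v m).2
    obtain ⟨w, c, d⟩ := odd_att hq m (kv ▸ o)
    have s : {x | x ∈ q.P ∧ q.lev v ≤ q.lev x ∧ q.κ v ≤ q.κ x + 1 ∧ q.κ x ≤ q.κ v + 1} ⊆ S := by
      rintro x ⟨x1, -, x2, x3⟩
      have := k x x1
      obtain ⟨-, v2, v3⟩ := hv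
      exact ⟨this.1, by omega, by omega⟩
    refine ⟨w, c.imp id fun c => ?_, link_to d s fun x hx y hy =>
      h.keep x (s hx).1 ((s hx).2.2.trans (by omega)) y (s hy).1⟩
    rwa [(k w (d.mem ⟨m, le_rfl, by omega, by omega⟩).1).2]
  have fin : (∃ y, ((y ∈ F.A.lin 0 F.A.n ∨ y ∈ F.B.lin 0 F.B.n) ∨ pos y % 2 = 0) ∧ Link H S v y) →
      ∃ y, (y ∈ F.A.lin 0 F.A.n ∨ y ∈ F.B.lin 0 F.B.n) ∧ Link H S v y := by
    rintro ⟨y, c | c, d⟩
    · exact ⟨y, c, d⟩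
    · obtain ⟨z, z1, z2⟩ := ev y (d.mem hv) c
      exact ⟨z, z1, d.trans z2⟩
  refine fin ?_
  by_cases c : v ∈ F.A.P ∪ F.B.P
  · rcases c with c | c
    · obtain ⟨y, y1, y2⟩ := pn _ _ ha h.kap.1 c
      exact ⟨y, y1.imp_left Or.inl, y2⟩
    · obtain ⟨y, y1, y2⟩ := pn _ _ hb h.kap.2 c
      exact ⟨y, y1.imp_left Or.inr, y2⟩
  obtain ⟨v1, v2, v3⟩ := hv
  obtain ⟨e, he, u, hu, k⟩ := h.att v ⟨v1, c⟩ (by omega)
  have r := (h.row e he u).1 (union_subset_union (union_subset_union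
    (pan.cell_col (Nat.zero_le _)) subset_rfl) (pan.cell_col (Nat.zero_le _)) hu)
  have s : {x | x ∈ W \ (F.A.P ∪ F.B.P) ∧ pos x = pos v} ⊆ S := fun x hx =>
    ⟨hx.1.1, hx.2 ▸ v2, hx.2 ▸ v3⟩
  refine ⟨u, Or.inr (by omega), ?_⟩
  rcases first_hit k ⟨⟨v1, c⟩, rfl⟩ with m | ⟨x, hx, m, e⟩
  · exact m.2.mono s
  · have t := h.stp x hx.1.1 u r.1 e
    have := hx.2
    unfold LSt at t
    exact (m.mono s).trans (Link.single (s hx) ⟨r.1, by omega, by omega⟩ e)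

theorem reach' {a : ℕ} (hn : a ≤ F.A.n) {v : V} (hv : v ∈ {x | x ∈ W ∧ 2 * a ≤ pos x}) :
    ∃ y, ((y ∈ F.A.lin 0 F.A.n ∨ y ∈ F.B.lin 0 F.B.n) ∨ y ∈ mid) ∧
      Link H {x | x ∈ W ∧ 2 * a ≤ pos x} v y := by
  have lo : ∀ v ∈ {x | x ∈ W ∧ 2 * a ≤ pos x}, pos v ≤ 2 * F.A.n →
      ∃ y, ((y ∈ F.A.lin 0 F.A.n ∨ y ∈ F.B.lin 0 F.B.n) ∨ y ∈ mid) ∧
        Link H {x | x ∈ W ∧ 2 * a ≤ pos x} v y := fun v hv c => by
    obtain ⟨y, y1, y2⟩ := reach h ha hb (a := a) (v := v) le_rfl ⟨hv.1, hv.2, c⟩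
    exact ⟨y, Or.inl y1, y2.mono fun x hx => And.intro hx.1 hx.2.1⟩
  by_cases c : pos v ≤ 2 * F.A.n
  · exact lo v hv c
  obtain ⟨-, y, y1, -, k⟩ := h.lnk v hv.1
  have y2 : (y ∈ F.A.lin 0 F.A.n ∨ y ∈ F.B.lin 0 F.B.n) ∨ y ∈ mid := by
    simp only [ls, mem_ofPred_eq, List.mem_append] at y1
    rw [h.n]
    tauto
  have m : ∀ x, Link H W v x → (2 * F.A.n < pos x ∧ Link H {x | x ∈ W ∧ 2 * a ≤ pos x} v x) ∨
      ∃ y, ((y ∈ F.A.lin 0 F.A.n ∨ y ∈ F.B.lin 0 F.B.n) ∨ y ∈ mid) ∧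
        Link H {x | x ∈ W ∧ 2 * a ≤ pos x} v y := by
    intro x hx
    induction hx with
    | refl => exact Or.inl ⟨by omega, Link.refl _ _ _⟩
    | @tail x z _ e ih =>
      rcases ih with ⟨i1, i2⟩ | ih
      · have t := h.stp x e.1 z e.2.1 e.2.2
        have := h.rng x e.1
        unfold LSt at t
        have z1 : z ∈ {x | x ∈ W ∧ 2 * a ≤ pos x} := ⟨e.2.1, by omega⟩
        have i3 := i2.trans (Link.single ⟨e.1, by omega⟩ z1 e.2.2)
        by_cases g : pos z ≤ 2 * F.A.n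
        · obtain ⟨w, w1, w2⟩ := lo z z1 g
          exact Or.inr ⟨w, w1, i3.trans w2⟩
        · exact Or.inl ⟨by omega, i3⟩
      · exact Or.inr ih
  exact (m y k.symm).elim (fun g => ⟨y, y2, g.2⟩) id

end half

section pre

variable {d : HD V} (h : Pre H0 U0 H U d) {i j l g : ℕ} {v : V}
include h

theorem nx (hi : i < d.k) : (i + 1) % d.k < d.k ∧ ((i + 1) % d.k + 1) % d.k = i := by
  rcases h.k with e | e <;> rw [e] at hi ⊢ <;> omega

theorem pans (hi : i < d.k) : ∃ I I', Pan H0 U0 I (d.F i).A ∧ Pan H0 U0 I' (d.F i).B := by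
  obtain ⟨⟨I, a⟩, -, a'⟩ := h.pan i hi
  obtain ⟨⟨I', b⟩, -, b'⟩ := h.pan _ (nx h hi).1
  exact ⟨I, I', pan.panSub a (by omega), pan.panRev (pan.panSub b (by omega))⟩

theorem same (hi : i < d.k) (hj : j < d.k) (a : v ∈ (d.arc i).P) (b : v ∈ (d.arc j).P) : i = j := by
  by_contra c
  exact disjoint_left.1 (h.adis i hi j hj c).1 a b

theorem sameW (hi : i < d.k) (hj : j < d.k) (a : v ∈ d.W i) (b : v ∈ d.W j) : i = j := by
  by_contra c
  exact disjoint_left.1 (h.adis i hi j hj c).2.2 a b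

theorem sideA (hi : i < d.k) (a : v ∈ (d.arc i).P)
    (b : 2 * (d.arc i).n ≤ (d.arc i).κ v + 2 * d.w) :
    v ∈ d.W i ∧ d.pos i v + 2 * (d.arc i).n = (d.arc i).κ v + 2 * d.w := by
  obtain ⟨⟨I, c⟩, -, e⟩ := h.pan i hi
  have r := (c.rng v a).2
  have k := (h.half i hi).kap.1 v ⟨a, by omega, by omega⟩
  have k2 : d.pos i v = (d.arc i).κ v - 2 * ((d.arc i).n - d.w) := k.2
  exact ⟨k.1, by omega⟩

theorem sideB (hi : i < d.k) (a : v ∈ (d.arc i).P) (b : (d.arc i).κ v ≤ 2 * d.w) :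
    v ∈ d.W ((i + 1) % d.k) ∧ d.pos ((i + 1) % d.k) v + (d.arc i).κ v = 2 * d.w := by
  have k := (h.half _ (nx h hi).1).kap.2 v
  simp only [HD.F, (nx h hi).2] at k
  have k1 := k ⟨a, by omega, by omega⟩
  have k2 : d.pos ((i + 1) % d.k) v = 2 * d.w - ((d.arc i).κ v - 2 * 0) := k1.2
  exact ⟨k1.1, by omega⟩

theorem both (hi : i < d.k) (hj : j < d.k) (a : v ∈ d.W i) (b : v ∈ (d.arc j).P) :
    d.pos i v + 2 * (d.arc j).n = (d.arc j).κ v + 2 * d.w ∧ d.pos i v ≤ 2 * d.w ∨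
      d.pos i v + (d.arc j).κ v = 2 * d.w := by
  obtain ⟨⟨I, c⟩, -, e⟩ := h.pan j hj
  have r := (c.rng v b).2
  rcases h.war i hi j hj ⟨a, b⟩ with k | k
  · obtain rfl := same h hi hj k.1 b
    have k2 : 2 * ((d.arc i).n - d.w) ≤ (d.arc i).κ v := k.2.1
    have := (sideA h hi b (by omega)).2
    omega
  · obtain rfl := same h (nx h hi).1 hj k.1 b
    have k2 : (d.arc ((i + 1) % d.k)).κ v ≤ 2 * (0 + d.w) := k.2.2
    have := (sideB h hj b (by omega)).2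
    rw [(nx h hi).2] at this
    exact Or.inr this

omit h in
theorem mem_list : v ∈ d.list ↔ ∃ i < d.k, v ∈ (d.arc i).lin 0 (d.arc i).n ∨ v ∈ d.mid i := by
  simp only [HD.list, List.mem_flatMap, List.mem_range, List.mem_append]

theorem let_list (hi : i < d.k)
    (a : (v ∈ (d.F i).A.lin 0 (d.F i).A.n ∨ v ∈ (d.F i).B.lin 0 (d.F i).B.n) ∨ v ∈ d.mid i) :
    v ∈ d.list := by
  have e := (h.pan i hi).2.2
  have e' := (h.pan _ (nx h hi).1).2.2
  rcases a with (a | a) | a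
  · rw [HD.F, pan.lin_subp] at a
    exact mem_list.2 ⟨i, hi, Or.inl ((pan.lin_sub _ (by simp only [PD.sub]; omega)).subset a)⟩
  · rw [HD.F, pan.lin_rev _ _ _ (by simp [PD.rev]), List.mem_reverse, pan.lin_subp] at a
    exact mem_list.2 ⟨_, (nx h hi).1, Or.inl ((pan.lin_sub _
      (by simp only [PD.sub, PD.rev]; omega)).subset a)⟩
  · exact mem_list.2 ⟨i, hi, Or.inr a⟩

theorem list_X (hl : l ≤ d.s) (hg : g ≤ d.w) (a : v ∈ d.list) : v ∈ d.X l g := by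
  obtain ⟨i, hi, a | a⟩ := mem_list.1 a
  · obtain ⟨⟨I, c⟩, e, -⟩ := h.pan i hi
    have := linP c a
    exact ⟨i, hi, Or.inl ⟨this.1, by omega⟩⟩
  · have k := (h.half i hi).nd.2 v a
    have k2 : d.pos i v = 2 * d.w + 1 := k.2
    exact ⟨i, hi, Or.inr ⟨k.1, by omega⟩⟩

theorem X_sub (hl : 1 ≤ l) : d.X l g ⊆ U := by
  rintro v ⟨i, hi, a | a⟩
  · exact (h.keep i hi v a.1 (hl.trans a.2)).1
  · exact (h.half i hi).sub a.1

theorem nodup : d.list.Nodup := by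
  have m : ∀ i < d.k, ∀ j < d.k, ∀ v ∈ (d.arc i).lin 0 (d.arc i).n, v ∉ d.mid j := by
    intro i hi j hj v a b
    obtain ⟨⟨I, c⟩, -, -⟩ := h.pan i hi
    have k := (h.half j hj).nd.2 v b
    have k2 : d.pos j v = 2 * d.w + 1 := k.2
    have := both h hj hi k.1 (linP c a).1
    omega
  refine List.nodup_flatMap.2 ⟨fun i hi => ?_, List.nodup_range.pairwise_of_forall_ne ?_⟩
  · have hi := List.mem_range.1 hi
    obtain ⟨⟨I, c⟩, -, -⟩ := h.pan i hi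
    exact List.nodup_append.2 ⟨c.nd, (h.half i hi).nd.1, fun a ha b hb e =>
      m i hi i hi a ha (e ▸ hb)⟩
  · intro i hi j hj e v a b
    have hi := List.mem_range.1 hi
    have hj := List.mem_range.1 hj
    obtain ⟨⟨I, c⟩, -, -⟩ := h.pan i hi
    obtain ⟨⟨I', c'⟩, -, -⟩ := h.pan j hj
    rcases List.mem_append.1 a with a | a <;> rcases List.mem_append.1 b with b | b
    · exact e (same h hi hj (linP c a).1 (linP c' b).1)
    · exact m i hi j hj v a b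
    · exact m j hj i hi v b a
    · exact e (sameW h hi hj ((h.half i hi).nd.2 v a).1 ((h.half j hj).nd.2 v b).1)

theorem keepS (hi : i < d.k) (hl : 1 ≤ l) (s : ∀ x ∈ S, x ∈ (d.arc i).P ∧ l ≤ (d.arc i).lev x) :
    ∀ u ∈ S, ∀ v ∈ S, H0.Adj u v → H.Adj u v := fun u hu v hv =>
  (h.keep i hi u (s u hu).1 (hl.trans (s u hu).2)).2 v (s v hv).1 (hl.trans (s v hv).2)

theorem up_ok (hi : i < d.k) (hl : 1 ≤ l) (hs : l ≤ d.s) (hj : j ≤ (d.arc i).n) :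
    Conn H ((d.arc i).up l j) ∧ (d.arc i).up l j ⊆ d.X l g ∧ (d.arc i).o j ∈ d.list := by
  obtain ⟨⟨I, c⟩, e, -⟩ := h.pan i hi
  have s : ∀ x ∈ (d.arc i).up l j, x ∈ (d.arc i).P ∧ l ≤ (d.arc i).lev x := fun x hx =>
    have k := (upP c (e ▸ hs) hj).1 hx
    ⟨k.1, k.2.2⟩
  exact ⟨conn_to (up_conn c (e ▸ hs) hj) (keepS h hi hl s), fun x hx => ⟨i, hi, Or.inl (s x hx)⟩,
    mem_list.2 ⟨i, hi, Or.inl (o_lin c hj).1⟩⟩

theorem X_lk (hl : 1 ≤ l) (hs : l ≤ d.s) (hg : g ≤ d.w) :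
    d.X l g ⊆ lk H (d.X l g) (ls d.list) := by
  intro v hv
  suffices k : ∃ y ∈ d.list, Link H (d.X l g) v y by
    obtain ⟨y, a, b⟩ := k
    exact ⟨hv, y, a, list_X h hs hg a, b.symm⟩
  obtain ⟨i, hi, a | a⟩ := hv
  · obtain ⟨⟨I, c⟩, e, -⟩ := h.pan i hi
    have ev : ∀ v ∈ (d.arc i).P, l ≤ (d.arc i).lev v → (d.arc i).κ v % 2 = 0 →
        ∃ y ∈ d.list, Link H (d.X l g) v y := by
      intro v a b o
      have r := (c.rng v a).2
      have hj : (d.arc i).κ v / 2 ≤ (d.arc i).n := by omega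
      obtain ⟨k1, k2, k3⟩ := up_ok h (g := g) hi hl hs hj
      exact ⟨_, k3, (k1.2 v ((upP c (e ▸ hs) hj).2 ⟨a, by omega, b⟩) _ ((o_lin c hj).2 l)).mono k2⟩
    rcases Nat.mod_two_eq_zero_or_one ((d.arc i).κ v) with o | o
    · exact ev v a.1 a.2 o
    obtain ⟨w, w1, w2⟩ := odd_att c a.1 o
    have m := w2.mem ⟨a.1, le_rfl, by omega, by omega⟩
    have k : Link H (d.X l g) v w := link_to w2
      (fun x hx => ⟨i, hi, Or.inl ⟨hx.1, a.2.trans hx.2.1⟩⟩)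
      (keepS h hi hl fun x hx => ⟨hx.1, a.2.trans hx.2.1⟩)
    rcases w1 with w1 | w1
    · exact ⟨w, mem_list.2 ⟨i, hi, Or.inl w1⟩, k⟩
    · obtain ⟨y, y1, y2⟩ := ev w m.1 (a.2.trans m.2.1) w1
      exact ⟨y, y1, k.trans y2⟩
  · obtain ⟨I, I', pa, pb⟩ := pans h hi
    obtain ⟨y, y1, y2⟩ := reach' (h.half i hi) pa pb (a := g) (v := v) hg a
    exact ⟨y, let_list h hi y1, Link.mono (T := d.X l g) (fun x hx => ⟨i, hi, Or.inr hx⟩) y2⟩

theorem win_ok (hi : i < d.k) (hl : 1 ≤ l) (hs : l ≤ d.s) (hg : g ≤ d.w) {e e' : ℕ} (he : e' ≤ g)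
    (hv : v ∈ d.win i e e') : v ∉ d.X l g ∧
      v ∈ lk H {x | x ∈ d.W i ∧ 2 * e ≤ d.pos i x ∧ d.pos i x ≤ 2 * e'} (d.X l g) := by
  obtain ⟨v1, v2, v3, v4⟩ := hv
  constructor
  · rintro ⟨j, hj, a | a⟩
    · obtain ⟨⟨I, c⟩, -, -⟩ := h.pan j hj
      obtain ⟨x, x1, x2⟩ := v4 j hj a.1
      have := (cellP c (Nat.zero_le _) x1 x2).2.2
      omega
    · obtain rfl := sameW h hi hj v1 a.1
      omega
  · obtain ⟨I, I', pa, pb⟩ := pans h hi
    have m : v ∈ {x | x ∈ d.W i ∧ 2 * e ≤ d.pos i x ∧ d.pos i x ≤ 2 * e'} := ⟨v1, v2.le, v3.le⟩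
    obtain ⟨y, y1, y2⟩ := reach (h.half i hi) pa pb (he.trans hg) m
    exact ⟨m, y, list_X h hs hg (let_list h hi (Or.inl y1)), y2.mem m, y2.symm⟩

theorem rg_sub (hs : l ≤ d.s) (hg : g < d.w) : d.rg l g ⊆ d.X l g := by
  rintro v ⟨i, hi, ⟨j, a, b, c⟩ | ⟨a, -⟩⟩
  · obtain ⟨⟨I, k⟩, e, -⟩ := h.pan i hi
    have := cellP k (e ▸ hs) (by omega) c
    exact ⟨i, hi, Or.inl ⟨this.1, this.2.2.ge⟩⟩
  · have := ((h.half i hi).row g hg.le v).1 a
    exact ⟨i, hi, Or.inr ⟨this.1, this.2.ge⟩⟩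

theorem rg_dis (hs : l ≤ d.s) (hg : g < d.w) : Disjoint (d.rg l g) (d.X (l + 1) (g + 1)) := by
  refine disjoint_left.2 ?_
  rintro v ⟨i, hi, ⟨j, a, b, c⟩ | ⟨a, b⟩⟩ ⟨i', hi', m | m⟩
  · obtain ⟨⟨I, k⟩, e, -⟩ := h.pan i hi
    have := cellP k (e ▸ hs) (by omega) c
    obtain rfl := same h hi hi' this.1 m.1
    omega
  · obtain ⟨⟨I, k⟩, e, -⟩ := h.pan i hi
    have := cellP k (e ▸ hs) (by omega) c
    have := both h hi' hi m.1 this.1
    omega
  · have := b i' hi' m.1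
    omega
  · have := ((h.half i hi).row g hg.le v).1 a
    obtain rfl := sameW h hi hi' this.1 m.1
    omega

theorem leave (hl : 1 ≤ l) (hs : l ≤ d.s) (h1 : 1 ≤ g) (hg : g < d.w) {u : V} (hu : u ∈ d.X l g)
    (hv : v ∉ d.X l g) (e : H.Adj u v) : u ∈ d.rg l g := by
  have key : ∀ i < d.k, u ∈ (d.arc i).P → l ≤ (d.arc i).lev u → 0 < (d.arc i).κ u →
      (d.arc i).κ u < 2 * (d.arc i).n → (d.arc i).lev u = l ∧ u ∈ (d.arc i).ring l := by
    intro i hi a b c c'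
    obtain ⟨⟨I, k⟩, -, -⟩ := h.pan i hi
    rcases k.clo u a c c' v (h.le e) with m | ⟨-, x, x1, x2⟩
    · have t := (k.stp v m u a (h.le e).symm).2
      have : ¬ l ≤ (d.arc i).lev v := fun z => hv ⟨i, hi, Or.inl ⟨m, z⟩⟩
      have z : (d.arc i).lev u = l := by omega
      exact ⟨z, z ▸ t.2 (by omega)⟩
    · have := (cellP k (Nat.zero_le _) x1 x2).2.2
      omega
  by_cases c : ∃ i < d.k, u ∈ d.W i ∧ 2 * g ≤ d.pos i u
  · obtain ⟨i, hi, a, b⟩ := c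
    have m := (h.half i hi).clo u a (by omega) v e
    have t := (h.half i hi).stp u a v m e
    have z : ¬ 2 * g ≤ d.pos i v := fun z => hv ⟨i, hi, Or.inr ⟨m, z⟩⟩
    have z' : d.pos i u = 2 * g := by unfold LSt at t; omega
    refine ⟨i, hi, Or.inr ⟨((h.half i hi).row g hg.le u).2 ⟨a, z'⟩, fun j hj k => ?_⟩⟩
    have := both h hi hj a k
    have := (h.pan j hj).2.2
    by_contra y
    have := (key j hj k (by omega) (by omega) (by omega)).1
    omega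
  obtain ⟨i, hi, ⟨a, b⟩ | a⟩ := hu
  swap
  · exact (c ⟨i, hi, a⟩).elim
  obtain ⟨⟨I, k⟩, k1, k2⟩ := h.pan i hi
  have s1 : (d.arc i).κ u + 2 * d.w < 2 * (d.arc i).n + 2 * g := by
    by_contra y
    have := sideA h hi a (by omega)
    exact c ⟨i, hi, this.1, by omega⟩
  have s2 : 2 * d.w < (d.arc i).κ u + 2 * g := by
    by_contra y
    have := sideB h hi a (by omega)
    exact c ⟨_, (nx h hi).1, this.1, by omega⟩
  obtain ⟨-, x, x1, x2⟩ := key i hi a b (by omega) (by omega)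
  have := (cellP k (k1 ▸ hs) x1 x2).2.1
  exact ⟨i, hi, Or.inl ⟨x, by omega, by omega, x2⟩⟩

/-- the part of the ring on an arc -/
def ra (d : HD V) (l g i : ℕ) : Set V :=
  ⋃ j ∈ Icc (d.w - g) ((d.arc i).n - d.w + g), (d.arc i).C l j

/-- the part of the ring on a half -/
def rh (d : HD V) (l g i : ℕ) : Set V :=
  (⋃ x ∈ Icc 0 l, (d.F i).A.C x g) ∪ d.J i g ∪ ⋃ x ∈ Icc 0 l, (d.F i).B.C x g

theorem ra_conn (hi : i < d.k) (hl : 1 ≤ l) (hs : l ≤ d.s) (hg : g ≤ d.w) : Conn H (ra d l g i) := by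
  obtain ⟨⟨I, c⟩, e, e'⟩ := h.pan i hi
  refine conn_to (conn_chain (S := fun j => (d.arc i).C l j) (by omega)
    (fun j hj => (c.cell l (e ▸ hs) j (by have := hj.2; omega)).1)
    fun j _ hj => Or.inr (c.hor l (e ▸ hs) j (by omega))) (keepS h hi hl fun x hx => ?_)
  obtain ⟨j, hj, k⟩ := mem_iUnion₂.1 hx
  have := cellP c (e ▸ hs) (by have := hj.2; omega) k
  exact ⟨this.1, this.2.2.ge⟩

theorem rh_iff (hi : i < d.k) (hs : l < d.s) (hg : g ≤ d.w) : v ∈ rh d l g i ↔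
    v ∈ (d.F i).row g ∧ ∀ j < d.k, v ∈ (d.arc j).P → (d.arc j).lev v ≤ l := by
  obtain ⟨I, I', pa, pb⟩ := pans h hi
  have sa : (d.F i).A.s = d.s := (h.pan i hi).2.1
  have sb : (d.F i).B.s = d.s := (h.pan _ (nx h hi).1).2.1
  constructor
  · rintro ((a | a) | a)
    · obtain ⟨x, ⟨-, x1⟩, x2⟩ := mem_iUnion₂.1 a
      have k := cellP pa (by omega) hg x2
      refine ⟨Or.inl (Or.inl (pan.cell_col (by omega) x2)), fun j hj m => ?_⟩
      obtain rfl := same h hi hj k.1.1 m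
      exact k.2.2.trans_le x1
    · have r : v ∈ (d.F i).row g := Or.inl (Or.inr a)
      exact ⟨r, fun j hj m => (disjoint_left.1 ((h.half i hi).j g hg).2.2.2 a
        (h.war i hi j hj ⟨(((h.half i hi).row g hg v).1 r).1, m⟩)).elim⟩
    · obtain ⟨x, ⟨-, x1⟩, x2⟩ := mem_iUnion₂.1 a
      have k := cellP pb (by omega) hg x2
      refine ⟨Or.inr (pan.cell_col (by omega) x2), fun j hj m => ?_⟩
      obtain rfl := same h (nx h hi).1 hj k.1.1 m
      exact k.2.2.trans_le x1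
  · have low : ∀ (q : PD V) (J : Set V), Pan H0 U0 J q → g ≤ q.n → q.s = d.s → v ∈ q.col g →
        (v ∈ q.P → q.lev v ≤ l) → v ∈ ⋃ x ∈ Icc 0 l, q.C x g := by
      intro q J hq a b c k
      have z := k ((hq.col g a v).1 c).1
      rcases c with c | ⟨x, -, x1, x2⟩
      · have := (hq.lam g a).2.2.2.2 v c
        omega
      · exact mem_iUnion₂.2 ⟨x, ⟨Nat.zero_le _, (cellP hq x1 a x2).2.2 ▸ z⟩, x2⟩
    rintro ⟨(a | a) | a, b⟩
    · exact Or.inl (Or.inl (low _ _ pa hg sa a fun k => b i hi k.1))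
    · exact Or.inl (Or.inr a)
    · exact Or.inr (low _ _ pb hg sb a fun k => b _ (nx h hi).1 k.1)

theorem rh_conn (hi : i < d.k) (hs : l < d.s) (hg : g ≤ d.w) : Conn H (rh d l g i) := by
  obtain ⟨I, I', pa, pb⟩ := pans h hi
  have sa : (d.F i).A.s = d.s := (h.pan i hi).2.1
  have sb : (d.F i).B.s = d.s := (h.pan _ (nx h hi).1).2.1
  obtain ⟨a, b, c, -⟩ := (h.half i hi).j g hg
  have z : 0 ∈ Icc 0 l := ⟨le_rfl, l.zero_le⟩
  refine conn_to (conn_union_touch (conn_union_touch (low_conn pa (by omega) hg) a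
    (b.symm.mono (subset_biUnion_of_mem (u := fun x => (d.F i).A.C x g) z) subset_rfl))
    (low_conn pb (by omega) hg) (c.mono subset_union_right
      (subset_biUnion_of_mem (u := fun x => (d.F i).B.C x g) z))) fun u hu v hv k => ?_
  have k1 := ((h.half i hi).row g hg u).1 ((rh_iff h hi hs hg).1 hu).1
  have k2 := ((h.half i hi).row g hg v).1 ((rh_iff h hi hs hg).1 hv).1
  exact (h.half i hi).keep u k1.1 (k1.2.trans_le (Nat.mul_le_mul_left 2 hg)) v k2.1 k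

theorem rg_conn (hl : 1 ≤ l) (hs : l < d.s) (hg : g ≤ d.w) : Conn H (d.rg l g) := by
  have z : l ∈ Icc 0 l := ⟨l.zero_le, le_rfl⟩
  have q : ∀ i < d.k, Conn H (ra d l g i ∪ rh d l g i) := by
    intro i hi
    obtain ⟨⟨I, c⟩, e, e'⟩ := h.pan i hi
    obtain ⟨x, hx⟩ := (c.cell l (e ▸ hs.le) ((d.arc i).n - d.w + g) (by omega)).1.1
    exact conn_meet (x := x) (ra_conn h hi hl hs.le hg) (rh_conn h hi hs hg)
      (mem_iUnion₂.2 ⟨_, ⟨by omega, le_rfl⟩, hx⟩) (Or.inl (Or.inl (mem_iUnion₂.2 ⟨l, z, hx⟩)))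
  have e : d.rg l g = ⋃ i ∈ Icc 0 (d.k - 1), (ra d l g i ∪ rh d l g i) := by
    have := h.k
    ext v
    rw [mem_iUnion₂]
    constructor
    · rintro ⟨i, hi, ⟨j, a, b, c⟩ | a⟩
      · have := (h.pan i hi).2.2
        exact ⟨i, ⟨i.zero_le, by omega⟩, Or.inl (mem_iUnion₂.2 ⟨j, ⟨by omega, by omega⟩, c⟩)⟩
      · exact ⟨i, ⟨i.zero_le, by omega⟩, Or.inr ((rh_iff h hi hs hg).2 a)⟩
    · rintro ⟨i, ⟨-, hi⟩, a | a⟩
      · obtain ⟨j, ⟨b, c⟩, k⟩ := mem_iUnion₂.1 a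
        have := (h.pan i (by omega)).2.2
        exact ⟨i, by omega, Or.inl ⟨j, by omega, by omega, k⟩⟩
      · exact ⟨i, by omega, Or.inr ((rh_iff h (by omega) hs hg).1 a)⟩
  have := h.k
  rw [e]
  refine conn_chain (S := fun i => ra d l g i ∪ rh d l g i) (Nat.zero_le _)
    (fun i hi => q i (by have := hi.2; omega)) fun i _ hi => Or.inl ?_
  obtain ⟨⟨I, c⟩, e, e'⟩ := h.pan (i + 1) (by omega)
  obtain ⟨x, hx⟩ := (c.cell l (e ▸ hs.le) (d.w - g) (by omega)).1.1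
  refine ⟨x, Or.inr (Or.inr (mem_iUnion₂.2 ⟨l, z, ?_⟩)),
    Or.inl (mem_iUnion₂.2 ⟨_, ⟨le_rfl, by omega⟩, hx⟩)⟩
  show x ∈ (d.arc ((i + 1) % d.k)).C l (0 + (d.w - g))
  rwa [Nat.mod_eq_of_lt (by omega), zero_add]

end pre

end xr

open xr in
theorem xrS : PanS → XrS := by
  intro _ V H0 H U0 U d h hs
  have k0 : 0 < d.k := by have := h.k; omega
  refine ⟨⟨h.tight, nodup h, fun x hx => X_sub h hs (list_X h le_rfl le_rfl hx)⟩,
    fun x hx => list_X h le_rfl le_rfl hx, fun l g hl hs hg => ⟨X_sub h hl, X_lk h hl hs hg,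
      fun j a b => ?_, fun i hi e e' he v hv => win_ok h hi hl hs hg he hv,
      fun a b c => ⟨rg_sub h hs c, rg_conn h hl a hg, rg_dis h hs c,
        fun u hu v hv e => leave h hl hs b c hu hv e⟩⟩⟩
  obtain ⟨k1, k2, k3⟩ := up_ok h (g := g) (j := j) k0 hl hs (by omega)
  exact ⟨k1, k2, fun v hv => ⟨0, k0, Or.inl ⟨j, by omega, by omega, hv⟩⟩, k3⟩

end Pool.Agent.MP_9d78a0_co.st

end MrgPart3

-- marker of a merged file
example : 731051 + 46151 = 731051 + 46151 := rfl
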