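import Pool.Agent.MP_9d78a0_co.st.TRg
import Pool.Agent.MP_9d78a0_co.st.Dbl
import Pool.Agent.MP_9d78a0_co.st.Ord
import Pool.Agent.MP_9d78a0_co.st.Del
import Pool.Agent.MP_9d78a0_co.st.Fan
import Pool.Agent.MP_9d78a0_co.st.Xb
import Pool.Agent.MP_9d78a0_co.st.Split
import Pool.Agent.MP_9d78a0_co.st.Runs
import Pool.Agent.MP_9d78a0_co.st.In
import Pool.Agent.MP_9d78a0_co.st.Riv
import Pool.Agent.MP_9d78a0_co.st.Xcap
import Pool.Agent.MP_9d78a0_co.st.Root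
import Pool.Agent.MP_9d78a0_co.st.Out
import Pool.Agent.MP_9d78a0_co.st.Sit
import Pool.Agent.MP_9d78a0_co.st.Xr
import Pool.Agent.MP_9d78a0_co.st.Kh
import Pool.Agent.MP_9d78a0_co.st.Jg
import Pool.Agent.MP_9d78a0_co.st.Plan
import Mathlib.Combinatorics.Pigeonhole
import Pool.Agent.MP_9d78a0_co.fb.StepB
import Pool.Agent.MP_9d78a0_co.gm.BGrid
import Mathlib.Order.Interval.Set.Nat
import Pool.Agent.MP_9d78a0_co.fb.Trf
import Pool.Agent.MP_9d78a0_co.st.Disc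
import Pool.Agent.MP_9d78a0_co.st.Twoc

-- ======== part 0: formerly Pool.Agent.MP_9d78a0_co.st.All1
section MrgPart0

/-! The statements of parts A to D without hypotheses. -/

set_option autoImplicit false

namespace Pool.Agent.MP_9d78a0_co.st

theorem ctr0 : CtrS := ctrS nfS
theorem side0 : SideS := sideS nfS ctr0 (triS perfS)
theorem cutR0 : CutRS := cutRS nfS redS stabS side0
theorem cutP0 : CutPS := cutPS nfS ctr0 cutR0
theorem loc0 : LocS := locS nfS ctr0 cutR0 glueS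
theorem two0 : TwoS := twoS nfS cutP0 kitS
theorem fan0 : FanS := fanS nfS ctr0 loc0
theorem crk0 : CrkS := crkS pruneS
theorem runs0 : RunsS := runsS uncapS
theorem slift0 : SliftS := sliftS nfS cutP0 pruneS crk0 runs0 rivS'
theorem vor0 : VorS := vorS nfS cutP0 kitS two0 pruneS crk0 slift0
theorem crd0 : CrdS := crdS inS
theorem pan0 : PanS := panS nfS inS
theorem coar0 : CoarS := coarS inS
theorem del0 : DelS := delS inS coar0
theorem zone0 : ZoneS := zoneS inS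
theorem alift0 : AliftS := aliftS nfS pruneS crk0 runs0 inS crd0
theorem jg0 : JgS := jgS mksS
theorem bj0 : BjS := bjS mksS
theorem xb0 : XbS := xbS mksS
theorem done0 : DoneS := doneS kitS two0 inS
theorem kids0 : KidsS := kidsS inS zone0 done0 ctxS (oneS inS crk0 pruneS alift0 zone0)
theorem end0 : EndS := endS inS del0 done0 ctxS
theorem bnd0 : BndS := bndS inS crk0 pruneS alift0 coar0
theorem men0 : MenS := menS inS pruneS coar0
theorem main0 (h : StepS) : MainS := mainS jg0 done0 end0 h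

end Pool.Agent.MP_9d78a0_co.st

end MrgPart0

-- ======== part 1: formerly Pool.Agent.MP_9d78a0_co.st.Iso
section MrgPart1

/-! The structure theorem, part E: after few deletions the bridges of many blocks stay in their
buffers. -/

set_option autoImplicit false

namespace Pool.Agent.MP_9d78a0_co.st

open Set Function fb

namespace Iso

variable {V : Type} {G H : SimpleGraph V} {h n : ℕ} {Ur U I : Set V} {ob : ℕ → V} {F : FD V}
  {a b : ℕ → ℕ} {O : Set ℕ} {ft cl : ℕ → Set V}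

theorem col_conn {p : PD V} (hp : Pan H U I p) {e : ℕ} (he : e ≤ p.n) : Conn H (p.col e) :=
  pan.conn_up (C := fun l => p.C l e) (Nat.zero_le _) (fun l hl => (hp.cell l hl e he).1)
    (fun l hl => hp.ver l hl e he) (hp.lam e he).1 (hp.lam e he).2.1

theorem c0 (p : PD V) (e : ℕ) : p.C 0 e ⊆ p.col e := fun _ hv => Or.inr ⟨0, le_rfl, Nat.zero_le _, hv⟩

theorem low_sub (e : ℕ) : F.low e ⊆ F.row e :=
  union_subset_union (union_subset_union_left _ (c0 _ _)) (c0 _ _)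

/-- a union of nine paths -/
def Nine (H : SimpleGraph V) (S : Set V) : Prop :=
  ∃ (f : Fin 3 × Fin 3 → ℕ → V) (l : Fin 3 × Fin 3 → ℕ), (∀ t, IsPath H S (f t) (l t)) ∧
    ∀ v ∈ S, ∃ t, ∃ x ≤ l t, f t x = v

theorem nine {S : Set V} (T : Fin 3 → Set V) (h1 : ∀ i, Thin H (T i) ∧ T i ⊆ S)
    (h2 : ∀ v ∈ S, ∃ i, v ∈ T i) : Nine H S := by
  choose f l k1 k2 using fun i => (h1 i).1
  refine ⟨fun t => f t.1 t.2, fun t => l t.1 t.2, fun t => ⟨fun j hj => (h1 _).2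
    ((k1 t.1 t.2).1 j hj), (k1 t.1 t.2).2⟩, fun v hv => ?_⟩
  obtain ⟨i, hi⟩ := h2 v hv
  obtain ⟨t, x⟩ := k2 i v hi
  exact ⟨(i, t), x⟩

variable (hF : Frm G H h n Ur U I ob F a b O ft cl)
include hF

theorem row_cases {e : ℕ} (he : e ≤ F.A.n) {x : V} (hx : x ∈ F.row e) :
    (x ∈ F.A.P ∧ F.A.κ x = 2 * e) ∨ (x ∈ I ∧ x ∈ F.J e) ∨ (x ∈ F.B.P ∧ F.B.κ x = 2 * e) := by
  rcases hx with (hx | hx) | hx
  · exact Or.inl ((hF.bas.a.col e he x).1 hx)
  · exact Or.inr (Or.inl ⟨(hF.bas.j e he).1 hx, hx⟩)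
  · exact Or.inr (Or.inr ((hF.bas.b.col e (hF.bas.n ▸ he) x).1 hx))

theorem row_eq {e e' : ℕ} (he : e ≤ F.A.n) (he' : e' ≤ F.A.n) {x : V} (hx : x ∈ F.row e)
    (hx' : x ∈ F.row e') : e = e' := by
  have d := disjoint_left.1 hF.bas.dis.1
  rcases row_cases hF he hx with k | k | k <;> rcases row_cases hF he' hx' with k' | k' | k'
  · omega
  · exact absurd k'.1 (hF.bas.a.sub k.1).2
  · exact absurd k'.1 (d k.1)
  · exact absurd k.1 (hF.bas.a.sub k'.1).2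
  · by_contra c
    exact disjoint_left.1 (hF.bas.jd e he e' he' c) k.2 k'.2
  · exact absurd k.1 (hF.bas.b.sub k'.1).2
  · exact absurd k.1 (d k'.1)
  · exact absurd k'.1 (hF.bas.b.sub k.1).2
  · omega

theorem row_conn {e : ℕ} (he : e ≤ F.A.n) : Conn H (F.row e) := by
  obtain ⟨-, k1, k2, k3⟩ := hF.bas.j e he
  exact conn_union_touch (conn_union_touch (col_conn hF.bas.a he) k1
    (k2.symm.mono (c0 _ _) Subset.rfl)) (col_conn hF.bas.b (hF.bas.n ▸ he))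
    (k3.mono subset_union_right (c0 _ _))

theorem row_ur {e : ℕ} (he : e ≤ F.A.n) : F.row e ⊆ Ur := by
  rintro x ((hx | hx) | hx)
  · exact hF.ur (Or.inr (Or.inl (Or.inl (Or.inl ⟨e, he, hx⟩))))
  · exact hF.ur (Or.inl ((hF.bas.j e he).1 hx))
  · exact hF.ur (Or.inr (Or.inl (Or.inl (Or.inr ⟨e, hF.bas.n ▸ he, hx⟩))))

theorem row_a {e : ℕ} (he : e ≤ F.A.n) : ob (a e) ∈ F.row e :=
  Or.inl (Or.inl (Or.inl ((hF.pos e he).1 ▸ (hF.bas.a.lam e he).2.2.1)))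

theorem rows : Rows G Ur ob (h * h) n (F.A.n + 1) a b F.row where
  lkg := ⟨fun e he => ⟨row_ur hF (by omega), capi.conn_le hF.le (row_conn hF (by omega)),
    row_a hF (by omega), Or.inr (Or.inl (by
      have := (hF.bas.b.lam e (by rw [hF.bas.n]; omega)).2.2.1
      rwa [(hF.pos e (by omega)).2] at this))⟩,
    fun i hi j hj c => disjoint_left.2 fun x h1 h2 => c (row_eq hF (by omega) (by omega) h1 h2)⟩
  ma i j h1 h2 := hF.ma i j h1 (by omega)
  mb := hF.mb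
  ab i hi j hj := hF.ab i (by omega) j (by omega)

omit hF in
/-- landing places: rows and other columns -/
def Val (F : FD V) (O : Set ℕ) (τ : ℕ ⊕ ℕ) : Prop := Sum.elim (· ≤ F.A.n) (· ∈ O) τ

theorem big_eq {τ τ' : ℕ ⊕ ℕ} (h1 : Val F O τ) (h2 : Val F O τ') {x : V}
    (hx : x ∈ Sum.elim F.row cl τ) (hx' : x ∈ Sum.elim F.row cl τ') : τ = τ' := by
  have k : ∀ e ≤ F.A.n, ∀ y ∈ O, x ∈ F.row e → x ∉ cl y := fun e he y hy c1 c2 => by
    refine disjoint_left.1 (hF.oth y hy).2.2.2.2.2.2.2.2.2.1 c2 ?_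
    rcases row_cases hF he c1 with k | k | k
    exacts [Or.inl (Or.inr k.1), Or.inl (Or.inl k.1), Or.inr k.1]
  rcases τ with e | y <;> rcases τ' with e' | y'
  · rw [row_eq hF h1 h2 hx hx']
  · exact absurd hx' (k e h1 y' h2 hx)
  · exact absurd hx (k e' h2 y h1 hx')
  · by_contra c
    exact disjoint_left.1 ((hF.oth y h1).2.2.2.2.2.2.2.2.2.2 y' h2 fun d => c (by rw [d])) hx hx'

theorem big {τ : ℕ ⊕ ℕ} (h1 : Val F O τ) : Sum.elim F.row cl τ ⊆ Ur ∧
    Conn H (Sum.elim F.row cl τ) ∧ Sum.elim F.low ft τ ⊆ Sum.elim F.row cl τ ∧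
    ob (Sum.elim a id τ) ∈ Sum.elim F.row cl τ ∧ Nine H (Sum.elim F.low ft τ) ∧
    ∀ x ∈ Sum.elim F.row cl τ, x ∈ I → x ∈ F.sk O ft := by
  rcases τ with e | y
  · obtain ⟨t1, t2, t3⟩ := hF.thin e h1
    refine ⟨row_ur hF h1, row_conn hF h1, low_sub e, row_a hF h1,
      nine ![F.A.C 0 e, F.J e, F.B.C 0 e] (fun i => ?_) ?_, fun x hx hi => ?_⟩
    · fin_cases i
      exacts [⟨t1, fun _ c => Or.inl (Or.inl c)⟩, ⟨t2, fun _ c => Or.inl (Or.inr c)⟩,
        ⟨t3, fun _ c => Or.inr c⟩]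
    · rintro v ((c | c) | c)
      exacts [⟨0, c⟩, ⟨1, c⟩, ⟨2, c⟩]
    · rcases row_cases hF h1 hx with k | k | k
      · exact absurd hi (hF.bas.a.sub k.1).2
      · exact Or.inl ⟨e, h1, Or.inl (Or.inr k.2)⟩
      · exact absurd hi (hF.bas.b.sub k.1).2
  · obtain ⟨-, -, -, -, k1, k2, k3, k4, k5, k6, -⟩ := hF.oth y h1
    exact ⟨k5, k2, k3, k1, nine (fun _ => ft y) (fun _ => ⟨k4, Subset.rfl⟩) fun v c => ⟨0, c⟩,
      fun x hx hi => absurd (Or.inl (Or.inl hi)) (disjoint_left.1 k6 hx)⟩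

omit hF in
/-- the statement on jumps for given parameters -/
def BjAt (h w N : ℕ) : Prop :=
  ∀ (V : Type) (G : SimpleGraph V) (n : ℕ) (Ur : Set V) (ob : ℕ → V) (M : ℕ)
    (a b : ℕ → ℕ) (R X : ℕ → Set V) (e lo hi lam : ℕ → ℕ), Univ G h n Ur ob →
    Rows G Ur ob (h * h) n M a b R →
    (∀ s < N, X s ⊆ Ur ∧ Conn G (X s) ∧ ob (a (e s)) ∈ X s ∧ ob (lam s) ∈ X s ∧
      lo s + w ≤ e s ∧ e s + w ≤ hi s ∧ hi s < M ∧
      ((∃ r < M, lam s = a r ∧ r ∉ Icc (lo s) (hi s)) ∨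
        (h * h ≤ lam s ∧ lam s < n ∧ lam s ∉ hull a M ∧ lam s ∉ hull b M))) →
    (∀ s < N, ∀ t < N, (s ≠ t → Disjoint (X s) (X t) ∧
        Disjoint (Icc (lo s) (hi s)) (Icc (lo t) (hi t))) ∧
      ∀ r, lo s ≤ r → r ≤ hi s → r < lo s + w ∨ hi s < r + w → Disjoint (R r) (X t)) →
    False

/-- many disjoint jumps are impossible -/
theorem many {w N : ℕ} (hb : BjAt h w N) (J : ℕ → Set V) (u v : ℕ → V) (e lo hi : ℕ → ℕ)
    (τ : ℕ → ℕ ⊕ ℕ)
    (j1 : ∀ s < N * 9 * (2 * N) + 1, Conn H (J s) ∧ u s ∈ J s ∧ v s ∈ J s ∧ u s ∈ F.low (e s) ∧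
      Val F O (τ s) ∧ v s ∈ Sum.elim F.low ft (τ s) ∧
      (∀ z ∈ J s, z = u s ∨ z = v s ∨ z ∈ I \ F.sk O ft) ∧
      lo s + w ≤ e s ∧ e s + w ≤ hi s ∧ hi s ≤ F.A.n)
    (j2 : ∀ s < N * 9 * (2 * N) + 1, ∀ t < N * 9 * (2 * N) + 1,
      (s ≠ t → Disjoint (J s) (J t) ∧ Disjoint (Icc (lo s) (hi s)) (Icc (lo t) (hi t))) ∧
      ∀ r, lo t ≤ r → r ≤ hi t → τ s ≠ .inl r) : False := by
  classical
  generalize hκ : N * 9 * (2 * N) + 1 = κ at j1 j2
  have eb : ∀ s < κ, lo s ≤ e s ∧ e s ≤ hi s ∧ e s ≤ F.A.n := fun s hs => by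
    obtain ⟨-, -, -, -, -, -, -, k1, k2, k3⟩ := j1 s hs
    omega
  have vb : ∀ s < κ, v s ∈ Sum.elim F.row cl (τ s) := fun s hs =>
    (big hF (j1 s hs).2.2.2.2.1).2.2.1 (j1 s hs).2.2.2.2.2.1
  have f1 : ∀ s < κ, ∀ τ', Val F O τ' → ∀ z ∈ F.row (e s) ∪ J s, z ∈ Sum.elim F.row cl τ' →
      τ' = .inl (e s) ∨ (τ' = τ s ∧ z = v s) := by
    intro s hs τ' h1 z hz hz'
    obtain ⟨-, -, -, k4, k5, -, k7, -⟩ := j1 s hs
    have k : z ∈ F.row (e s) → τ' = .inl (e s) := fun c =>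
      big_eq hF h1 (τ' := .inl (e s)) (eb s hs).2.2 hz' c
    rcases hz with c | c
    · exact Or.inl (k c)
    · rcases k7 z c with d | d | d
      · exact Or.inl (k (d ▸ low_sub _ k4))
      · exact Or.inr ⟨big_eq hF h1 k5 hz' (d ▸ vb s hs), d⟩
      · exact absurd ((big hF h1).2.2.2.2.2 z hz' d.1) d.2
  have f0 : ∀ s < κ, ∀ t < κ, ∀ r, lo s ≤ r → r ≤ hi s → r ≠ e t →
      Disjoint (F.row r) (F.row (e t) ∪ J t) := fun s hs t ht r r1 r2 r3 =>
    disjoint_left.2 fun z c1 c2 => by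
      have : hi s ≤ F.A.n := (j1 s hs).2.2.2.2.2.2.2.2.2
      rcases f1 t ht (.inl r) (show r ≤ F.A.n by omega) z c2 c1 with d | d
      · exact r3 (Sum.inl.inj d)
      · exact (j2 t ht s hs).2 r r1 r2 d.1.symm
  have en : ∀ s < κ, ∀ t < κ, s ≠ t → ∀ r, lo s ≤ r → r ≤ hi s → r ≠ e t :=
    fun s hs t ht c r r1 r2 d => disjoint_left.1 ((j2 s hs t ht).1 c).2 ⟨r1, r2⟩
      ⟨d ▸ (eb t ht).1, d ▸ (eb t ht).2.1⟩
  have f2 : ∀ s < κ, ∀ t < κ, s ≠ t → Disjoint (F.row (e s) ∪ J s) (F.row (e t) ∪ J t) := by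
    intro s hs t ht c
    refine disjoint_union_left.2 ⟨f0 s hs t ht _ (eb s hs).1 (eb s hs).2.1
      (en s hs t ht c _ (eb s hs).1 (eb s hs).2.1), disjoint_union_right.2 ⟨?_, ((j2 s hs t ht).1 c).1⟩⟩
    exact ((f0 t ht s hs _ (eb t ht).1 (eb t ht).2.1
      (en t ht s hs c.symm _ (eb t ht).1 (eb t ht).2.1)).mono_right subset_union_right).symm
  have f3 : ∀ s < κ, F.row (e s) ∪ J s ⊆ Ur ∧ Conn H (F.row (e s) ∪ J s) := fun s hs => by
    obtain ⟨k1, k2, -, k4, k5, -, k7, -⟩ := j1 s hs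
    refine ⟨union_subset (row_ur hF (eb s hs).2.2) fun z c => ?_,
      capi.conn_meet (row_conn hF (eb s hs).2.2) k1 ⟨_, low_sub _ k4, k2⟩⟩
    rcases k7 z c with d | d | d
    exacts [d ▸ row_ur hF (eb s hs).2.2 (low_sub _ k4), d ▸ (big hF k5).1 (vb s hs),
      hF.ur (Or.inl d.1)]
  have f4 : ∀ s < κ, ∀ t < κ, ∀ r, lo s ≤ r → r ≤ hi s → r < lo s + w ∨ hi s < r + w →
      Disjoint (F.row r) (F.row (e t) ∪ J t) ∧ Disjoint (F.row r) (Sum.elim F.row cl (τ t)) := by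
    intro s hs t ht r r1 r2 r3
    obtain ⟨-, -, -, -, -, -, -, k1, k2, k3⟩ := j1 s hs
    refine ⟨f0 s hs t ht r r1 r2 ?_, disjoint_left.2 fun z c1 c2 => (j2 t ht s hs).2 r r1 r2
      (big_eq hF (j1 t ht).2.2.2.2.1 (τ' := .inl r) (show r ≤ F.A.n by omega) c2 c1)⟩
    by_cases c : s = t
    · subst c
      omega
    · exact en s hs t ht c r r1 r2
  by_cases hc : N ≤ ((Finset.range κ).filter fun s => ∀ t < s, τ t ≠ τ s).card
  · obtain ⟨σ, s1, s2⟩ := Leva.enum _ hc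
    simp only [Finset.mem_filter, Finset.mem_range] at s1
    have ne : ∀ i < N, ∀ j < N, i ≠ j → τ (σ i) ≠ τ (σ j) := fun i hi j hj c => by
      rcases lt_or_gt_of_ne c with d | d
      exacts [(s1 j hj).2 _ (s2 i j d hj), ((s1 i hi).2 _ (s2 j i d hi)).symm]
    have mix : ∀ i < N, ∀ j < N, i ≠ j →
        Disjoint (F.row (e (σ i)) ∪ J (σ i)) (Sum.elim F.row cl (τ (σ j))) := fun i hi j hj c =>
      disjoint_left.2 fun z c1 c2 => by
        rcases f1 _ (s1 i hi).1 _ (j1 _ (s1 j hj).1).2.2.2.2.1 z c1 c2 with d | d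
        · exact (j2 _ (s1 j hj).1 _ (s1 i hi).1).2 _ (eb _ (s1 i hi).1).1 (eb _ (s1 i hi).1).2.1 d
        · exact ne i hi j hj c d.1.symm
    refine hb V G n Ur ob _ a b F.row
      (fun i => F.row (e (σ i)) ∪ J (σ i) ∪ Sum.elim F.row cl (τ (σ i))) (e ∘ σ) (lo ∘ σ) (hi ∘ σ)
      (fun i => Sum.elim a id (τ (σ i))) hF.univ (rows hF) (fun i hi' => ?_)
      fun i hi' j hj => ⟨fun c => ⟨?_, ((j2 _ (s1 i hi').1 _ (s1 j hj).1).1 fun d =>
        ne i hi' j hj c (by rw [d])).2⟩, fun r r1 r2 r3 =>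
          disjoint_union_right.2 (f4 _ (s1 i hi').1 _ (s1 j hj).1 r r1 r2 r3)⟩
    · have hs := (s1 i hi').1
      obtain ⟨-, -, k3, -, k5, -, -, k8, k9, k10⟩ := j1 _ hs
      obtain ⟨b1, b2, -, b4, -⟩ := big hF k5
      refine ⟨union_subset (f3 _ hs).1 b1, capi.conn_le hF.le (capi.conn_meet (f3 _ hs).2 b2
        ⟨_, Or.inr k3, vb _ hs⟩), Or.inl (Or.inl (row_a hF (eb _ hs).2.2)), Or.inr b4, k8, k9,
        Nat.lt_succ_of_le k10, ?_⟩
      have k := (j2 _ hs _ hs).2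
      generalize τ (σ i) = t at k k5
      rcases t with r | y
      · exact Or.inl ⟨r, Nat.lt_succ_of_le k5, rfl, fun c => k r c.1 c.2 rfl⟩
      · obtain ⟨o1, o2, o3, o4, -⟩ := hF.oth y k5
        exact Or.inr ⟨o1, o2, o3, o4⟩
    · refine disjoint_union_left.2 ⟨disjoint_union_right.2 ⟨f2 _ (s1 i hi').1 _ (s1 j hj).1
        fun d => ne i hi' j hj c (by rw [d]), mix i hi' j hj c⟩,
        disjoint_union_right.2 ⟨(mix j hj i hi' c.symm).symm, disjoint_left.2 fun z c1 c2 =>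
          ne i hi' j hj c (big_eq hF (j1 _ (s1 i hi').1).2.2.2.2.1 (j1 _ (s1 j hj).1).2.2.2.2.1
            c1 c2)⟩⟩
  have pth : ∀ t : ℕ ⊕ ℕ, ∃ (f : Fin 3 × Fin 3 → ℕ → V) (l : Fin 3 × Fin 3 → ℕ), Val F O t →
      (∀ c, IsPath H (Sum.elim F.low ft t) (f c) (l c)) ∧
      ∀ v ∈ Sum.elim F.low ft t, ∃ c, ∃ x ≤ l c, f c x = v := fun t => by
    by_cases c : Val F O t
    · obtain ⟨f, l, k⟩ := (big hF c).2.2.2.2.1
      exact ⟨f, l, fun _ => k⟩
    · exact ⟨fun _ _ => u 0, fun _ => 0, fun d => absurd d c⟩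
  choose f l hf using pth
  have lnd : ∀ s, ∃ c x, s < κ → x ≤ l (τ s) c ∧ f (τ s) c x = v s := fun s => by
    by_cases hs : s < κ
    · obtain ⟨c, x, k⟩ := (hf _ (j1 s hs).2.2.2.2.1).2 _ (j1 s hs).2.2.2.2.2.1
      exact ⟨c, x, fun _ => k⟩
    · exact ⟨0, 0, fun d => absurd d hs⟩
  choose c p hp using lnd
  have ex : ∀ s, ∃ t, τ t = τ s := fun s => ⟨s, rfl⟩
  obtain ⟨⟨s0, c0⟩, -, hfib⟩ := Finset.exists_lt_card_fiber_of_mul_lt_card_of_maps_to
    (s := Finset.range κ) (n := 2 * N) (f := fun s => (Nat.find (ex s), c s))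
    (t := ((Finset.range κ).filter fun s => ∀ t < s, τ t ≠ τ s) ×ˢ Finset.univ)
    (fun s hs => Finset.mem_product.2 ⟨Finset.mem_filter.2 ⟨Finset.mem_range.2
      ((Nat.find_min' (ex s) rfl).trans_lt (Finset.mem_range.1 hs)), fun t ht d =>
        Nat.find_min (ex s) ht (d.trans (Nat.find_spec (ex s)))⟩, Finset.mem_univ _⟩)
    (by
      rw [Finset.card_product, Finset.card_range, ← hκ]
      exact Nat.lt_succ_of_le (Nat.mul_le_mul_right _
        (Nat.mul_le_mul (by rw [hκ]; omega) (by simp))))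
  generalize hS : (Finset.range κ).filter (fun s => (Nat.find (ex s), c s) = (s0, c0)) = S at hfib
  have mS : ∀ s ∈ S, s < κ ∧ τ s = τ s0 ∧ p s ≤ l (τ s0) c0 ∧ f (τ s0) c0 (p s) = v s := by
    intro s hs
    rw [← hS, Finset.mem_filter, Finset.mem_range, Prod.mk.injEq] at hs
    obtain ⟨k1, k2, k3⟩ := hs
    have k4 : τ s = τ s0 := k2 ▸ (Nat.find_spec (ex s)).symm
    exact ⟨k1, k4, k4 ▸ k3 ▸ hp s k1⟩
  have inj : Set.InjOn p S := fun s hs t ht d => by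
    by_contra k
    have k1 : v s = v t := by rw [← (mS s hs).2.2.2, d, (mS t ht).2.2.2]
    exact disjoint_left.1 ((j2 s (mS s hs).1 t (mS t ht).1).1 k).1 (j1 s (mS s hs).1).2.2.1
      (k1 ▸ (j1 t (mS t ht).1).2.2.1)
  obtain ⟨g, g1, g2⟩ := Leva.enum (S.image p) (n := 2 * N)
    (by rw [Finset.card_image_of_injOn inj]; omega)
  have sel : ∀ i, ∃ s, i < 2 * N → s ∈ S ∧ p s = g i := fun i => by
    by_cases hi : i < 2 * N
    · obtain ⟨s, k⟩ := Finset.mem_image.1 (g1 i hi)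
      exact ⟨s, fun _ => k⟩
    · exact ⟨0, fun d => absurd d hi⟩
  choose σ hσ using sel
  have q : ∀ i < 2 * N, σ i < κ ∧ τ (σ i) = τ s0 ∧ g i ≤ l (τ s0) c0 ∧
      f (τ s0) c0 (g i) = v (σ i) := fun i hi => (hσ i hi).2 ▸ mS _ (hσ i hi).1
  have gm : ∀ i < 2 * N, ∀ j < 2 * N, g i ≤ g j → i ≤ j := fun i hi j _ d => by
    by_contra k
    have := g2 j i (by omega) hi
    omega
  have ne : ∀ i < 2 * N, ∀ j < 2 * N, i ≠ j → σ i ≠ σ j := fun i hi j hj d k => by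
    have k1 : g i = g j := by rw [← (hσ i hi).2, k, (hσ j hj).2]
    exact d (le_antisymm (gm i hi j hj k1.le) (gm j hj i hi k1.ge))
  obtain ⟨s1, hs1⟩ : S.Nonempty := Finset.card_pos.1 (by omega)
  have v0 : Val F O (τ s0) := (mS s1 hs1).2.1 ▸ (j1 s1 (mS s1 hs1).1).2.2.2.2.1
  obtain ⟨p1, p2, p3⟩ := (hf _ v0).1 c0
  generalize f (τ s0) c0 = φ at q p1 p2 p3
  have seg : ∀ i < N, φ '' Icc (g (2 * i)) (g (2 * i + 1)) ⊆ Sum.elim F.row cl (τ s0) := by
    rintro i hi _ ⟨x, hx, rfl⟩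
    exact (big hF v0).2.2.1 (p1 x (hx.2.trans (q _ (by omega)).2.2.1))
  have mix : ∀ k < 2 * N, ∀ j < N, k ≠ 2 * j → k ≠ 2 * j + 1 →
      Disjoint (F.row (e (σ k)) ∪ J (σ k)) (φ '' Icc (g (2 * j)) (g (2 * j + 1))) := by
    intro k hk j hj d1 d2
    refine disjoint_left.2 fun z c1 c2 => ?_
    obtain ⟨q1, q2, q3, q4⟩ := q k hk
    rcases f1 _ q1 _ v0 z c1 (seg j hj c2) with d | d
    · exact (j2 _ q1 _ q1).2 _ (eb _ q1).1 (eb _ q1).2.1 (q2.trans d)
    · obtain ⟨x, hx, rfl⟩ := c2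
      obtain rfl := p3 x (hx.2.trans (q _ (by omega)).2.2.1) _ q3 (d.2.trans q4.symm)
      have := gm _ (by omega) _ hk hx.1
      have := gm _ hk _ (by omega) hx.2
      omega
  refine hb V G n Ur ob _ a b F.row
    (fun i => F.row (e (σ (2 * i))) ∪ J (σ (2 * i)) ∪ φ '' Icc (g (2 * i)) (g (2 * i + 1)) ∪
      (F.row (e (σ (2 * i + 1))) ∪ J (σ (2 * i + 1)))) (fun i => e (σ (2 * i)))
    (fun i => lo (σ (2 * i))) (fun i => hi (σ (2 * i))) (fun i => a (e (σ (2 * i + 1)))) hF.univ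
    (rows hF) (fun i hi' => ?_) fun i hi' j hj => ⟨fun d => ⟨?_, ((j2 _ (q _ (by omega)).1 _
      (q _ (by omega)).1).1 (ne _ (by omega) _ (by omega) (by omega))).2⟩, fun r r1 r2 r3 => ?_⟩
  · obtain ⟨q1, -, q3, q4⟩ := q (2 * i) (by omega)
    obtain ⟨q5, -, q7, q8⟩ := q (2 * i + 1) (by omega)
    have lt := g2 (2 * i) (2 * i + 1) (by omega) (by omega)
    obtain ⟨-, -, k3, -, -, -, -, k8, k9, k10⟩ := j1 _ q1
    refine ⟨union_subset (union_subset (f3 _ q1).1 ((seg i hi').trans (big hF v0).1)) (f3 _ q5).1,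
      capi.conn_le hF.le (capi.conn_meet (capi.conn_meet (f3 _ q1).2
        (conn_seg lt.le fun x _ hx => p2 x (by omega)) ⟨_, Or.inr k3, _, ⟨le_rfl, lt.le⟩, q4⟩)
        (f3 _ q5).2 ⟨_, Or.inr ⟨_, ⟨lt.le, le_rfl⟩, q8⟩, Or.inr (j1 _ q5).2.2.1⟩),
      Or.inl (Or.inl (Or.inl (row_a hF (eb _ q1).2.2))), Or.inr (Or.inl (row_a hF (eb _ q5).2.2)),
      k8, k9, Nat.lt_succ_of_le k10, Or.inl ⟨_, Nat.lt_succ_of_le (eb _ q5).2.2, rfl, fun k =>
        en _ q1 _ q5 (ne _ (by omega) _ (by omega) (by omega)) _ k.1 k.2 rfl⟩⟩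
  · have yy : ∀ k < 2 * N, ∀ k' < 2 * N, k ≠ k' →
        Disjoint (F.row (e (σ k)) ∪ J (σ k)) (F.row (e (σ k')) ∪ J (σ k')) := fun k hk k' hk' c =>
      f2 _ (q k hk).1 _ (q k' hk').1 (ne k hk k' hk' c)
    refine disjoint_union_left.2 ⟨disjoint_union_left.2 ⟨?_, ?_⟩, ?_⟩ <;>
      refine disjoint_union_right.2 ⟨disjoint_union_right.2 ⟨?_, ?_⟩, ?_⟩
    · exact yy _ (by omega) _ (by omega) (by omega)
    · exact mix _ (by omega) j hj (by omega) (by omega)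
    · exact yy _ (by omega) _ (by omega) (by omega)
    · exact (mix _ (by omega) i hi' (by omega) (by omega)).symm
    · refine disjoint_left.2 ?_
      rintro _ ⟨x, hx, rfl⟩ ⟨y, hy, k⟩
      obtain rfl := p3 y (hy.2.trans (q _ (by omega)).2.2.1) x
        (hx.2.trans (q _ (by omega)).2.2.1) k
      have := gm _ (by omega) _ (by omega) (hx.1.trans hy.2)
      have := gm _ (by omega) _ (by omega) (hy.1.trans hx.2)
      omega
    · exact (mix _ (by omega) i hi' (by omega) (by omega)).symm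
    · exact yy _ (by omega) _ (by omega) (by omega)
    · exact mix _ (by omega) j hj (by omega) (by omega)
    · exact yy _ (by omega) _ (by omega) (by omega)
  · have k1 := f4 _ (q (2 * i) (by omega)).1 _ (q (2 * j) (by omega)).1 r r1 r2 r3
    have k2 := f4 _ (q (2 * i) (by omega)).1 _ (q (2 * j + 1) (by omega)).1 r r1 r2 r3
    rw [(q _ (by omega)).2.1] at k1
    exact disjoint_union_right.2 ⟨disjoint_union_right.2 ⟨k1.1, k1.2.mono_right (seg j hj)⟩, k2.1⟩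

open Cut in
/-- a small cut confines the jumps from a family of blocks to the buffered blocks -/
theorem cut [Finite V] {w N L κ : ℕ} (hb : BjAt h w N) (hκ : κ = N * 9 * (2 * N) + 1)
    (α : ℕ → ℕ) (Fm : Finset ℕ) (h1 : ∀ β ∈ Fm, α β + L + 2 * w ≤ F.A.n)
    (h2 : ∀ β ∈ Fm, ∀ β' ∈ Fm, β < β' → α β + L + 2 * w < α β') :
    ∃ (D : Set V) (Bad : Finset ℕ), D.ncard ≤ κ ∧ Bad.card ≤ κ ∧ D ⊆ I ∪ F.sk O ft ∧
      ∀ β ∈ Fm, β ∉ Bad → ∀ e, α β + w ≤ e → e ≤ α β + w + L → ∀ u ∈ F.low e,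
        ∀ v ∈ F.sk O ft \ D, Link H ((I \ (F.sk O ft ∪ D)) ∪ {u, v}) u v →
          ∃ β' ∈ Fm, ∃ e', α β' ≤ e' ∧ e' ≤ α β' + L + 2 * w ∧ v ∈ F.low e' := by
  classical
  let Rg : ℕ → Set V := fun β => {x | ∃ e, α β + w ≤ e ∧ e ≤ α β + w + L ∧ x ∈ F.low e}
  let T : Set V := {x | x ∈ F.sk O ft ∧
    ¬ ∃ β' ∈ Fm, ∃ e', α β' ≤ e' ∧ e' ≤ α β' + L + 2 * w ∧ x ∈ F.low e'}
  let U' : Set (V ⊕ ℕ) := Sum.inr '' (Fm : Set ℕ) ∪ Sum.inl '' {x | x ∈ I \ F.sk O ft ∨ x ∈ T}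
  have hU : U'.Finite := (Fm.finite_toSet.image _).union ((toFinite _).image _)
  have ul : ∀ x, Sum.inl x ∈ U' → x ∈ I \ F.sk O ft ∨ x ∈ T := by
    rintro x (⟨_, -, c⟩ | ⟨_, d, c⟩) <;> cases c
    exact d
  have ur : ∀ e, Sum.inr e ∈ U' → e ∈ Fm := by
    rintro x (⟨_, d, c⟩ | ⟨_, -, c⟩) <;> cases c
    exact d
  have nT : ∀ β ∈ Fm, ∀ x ∈ Rg β, x ∈ F.sk O ft ∧ x ∉ T := by
    rintro β hβ x ⟨r, a1, a2, a3⟩
    have := h1 β hβ
    exact ⟨Or.inl ⟨r, by omega, a3⟩, fun c => c.2 ⟨β, hβ, r, by omega, by omega, a3⟩⟩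
  by_cases hc : ∀ X ⊆ U', X.ncard < κ → ∃ S ⊆ U' \ X, Conn (ext H Rg) S ∧
      (S ∩ range Sum.inr).Nonempty ∧ (S ∩ Sum.inl '' T).Nonempty
  · exfalso
    obtain ⟨R, r1, r2⟩ := mengerS _ _ _ _ _ κ hU hc
    have key : ∀ i : Fin κ, ∃ (β : ℕ) (u v : V) (e : ℕ) (τ : ℕ ⊕ ℕ) (J : Set V), Sum.inr β ∈ R i ∧
        u ∈ Rg β ∧ α β + w ≤ e ∧ e ≤ α β + w + L ∧ u ∈ F.low e ∧ v ∈ T ∧ Val F O τ ∧
        v ∈ Sum.elim F.low ft τ ∧ Conn H J ∧ u ∈ J ∧ v ∈ J ∧
        ∀ z ∈ J, z = u ∨ (Sum.inl z ∈ R i ∧ (z = v ∨ z ∉ F.sk O ft)) := by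
      intro i
      obtain ⟨a1, a2, ⟨_, a3, e, rfl⟩, _, a4, v, hv, rfl⟩ := r1 i
      obtain ⟨v, b1, β, u, J, c1, c2, c3⟩ := exists_arc (M := F.sk O ft)
        (fun x hx => (ul x (a1 hx)).imp_left fun c => c.2) hv (a2.2 _ a3 _ a4)
      obtain ⟨r, d1, d2, d3⟩ := id c2
      rcases b1.1 with ⟨x, x1, x2⟩ | ⟨x, x1, x2⟩
      exacts [⟨β, u, v, r, .inl x, J, c1, c2, d1, d2, d3, b1, x1, x2, c3⟩,
        ⟨β, u, v, r, .inr x, J, c1, c2, d1, d2, d3, b1, x1, x2, c3⟩]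
    choose β u v e τ J k1 k2 k3 k4 k5 k6 k7 k8 k9 k10 k11 k12 using key
    have eF : ∀ i, β i ∈ Fm := fun i => ur _ ((r1 i).1 (k1 i))
    have far : ∀ i j, i ≠ j →
        α (β i) + L + 2 * w < α (β j) ∨ α (β j) + L + 2 * w < α (β i) := fun i j hij =>
      (Nat.lt_or_gt_of_ne fun c : β i = β j => disjoint_left.1 (r2 hij) (k1 i) (c ▸ k1 j)).imp
        (h2 _ (eF i) _ (eF j)) (h2 _ (eF j) _ (eF i))
    have off : ∀ i j, Sum.inl (u i) ∉ R j := fun i j c =>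
      (ul _ ((r1 j).1 c)).elim (fun d => d.2 (nT _ (eF i) _ (k2 i)).1) (nT _ (eF i) _ (k2 i)).2
    have hpos : 0 < κ := by omega
    let ι : ℕ → Fin κ := fun i => ⟨i % κ, Nat.mod_lt _ hpos⟩
    refine many hF hb (J ∘ ι) (u ∘ ι) (v ∘ ι) (e ∘ ι) (fun s => α (β (ι s)))
      (fun s => α (β (ι s)) + L + 2 * w) (τ ∘ ι) (fun s _ => ⟨k9 _, k10 _, k11 _, k5 _, k7 _, k8 _,
        fun z hz => (k12 _ z hz).imp_right fun c => c.2.imp_right fun d =>
          (ul _ ((r1 _).1 c.1)).resolve_right fun t => d t.1, k3 _, ?_, h1 _ (eF _)⟩)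
      fun s hs t ht => ⟨fun hst => ?_, fun r a1 a2 c => (k6 (ι s)).2 ⟨_, eF (ι t), r, a1, a2, ?_⟩⟩
    · have := k4 (ι s)
      simp only [comp_apply]
      omega
    · have hne : ι s ≠ ι t := fun c => hst (by
        have := congrArg Fin.val c
        simpa only [ι, Nat.mod_eq_of_lt (hκ ▸ hs), Nat.mod_eq_of_lt (hκ ▸ ht)] using this)
      have f := far _ _ hne
      refine ⟨disjoint_left.2 fun z c1 c2 => ?_, disjoint_left.2 fun z c1 c2 => by
        have := c1.1; have := c1.2; have := c2.1; have := c2.2; omega⟩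
      rcases k12 _ z c1 with c | c <;> rcases k12 _ z c2 with d | d
      · have := h1 _ (eF (ι s))
        have := h1 _ (eF (ι t))
        have := k3 (ι s)
        have := k4 (ι s)
        have := k3 (ι t)
        have := k4 (ι t)
        have := row_eq hF (by omega) (by omega) (low_sub _ (c ▸ k5 (ι s))) (low_sub _ (d ▸ k5 (ι t)))
        omega
      · exact off _ _ (c ▸ d.1)
      · exact off _ _ (d ▸ c.1)
      · exact disjoint_left.1 (r2 hne) c.1 d.1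
    · have := k8 (ι s)
      rwa [show τ (ι s) = .inl r from c] at this
  · push Not at hc
    obtain ⟨X, x1, x2, x3⟩ := hc
    have hX := hU.subset x1
    refine ⟨Sum.inl ⁻¹' X, Fm.filter fun e => Sum.inr e ∈ X,
      (ncard_le_ncard_of_injOn Sum.inl (fun _ c => c) Sum.inl_injective.injOn hX).trans x2.le,
      ?_, fun x hx => (ul x (x1 hx)).imp And.left And.left,
      fun β hβ hb e a1 a2 u hu v hv hl => ?_⟩
    · rw [← ncard_coe_finset]
      exact (ncard_le_ncard_of_injOn Sum.inr (fun _ c => (Finset.mem_filter.1 c).2)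
        Sum.inr_injective.injOn hX).trans x2.le
    by_contra hn
    have hT : v ∈ T := ⟨hv.1, hn⟩
    have hu' : u ∈ Rg β := ⟨e, a1, a2, hu⟩
    have hne : v ≠ u := fun c => (nT β hβ u hu').2 (c ▸ hT)
    have m0 : Sum.inr β ∈ U' \ X :=
      ⟨Or.inl (mem_image_of_mem _ hβ), fun c => hb (Finset.mem_filter.2 ⟨hβ, c⟩)⟩
    have m1 : ∀ y ∈ (I \ (F.sk O ft ∪ Sum.inl ⁻¹' X)) ∪ {u, v}, y ≠ u → Sum.inl y ∈ U' \ X := by
      rintro y (c | c | c) d
      · exact ⟨Or.inr (mem_image_of_mem _ (Or.inl ⟨c.1, fun k => c.2 (Or.inl k)⟩)),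
          fun k => c.2 (Or.inr k)⟩
      · exact absurd c d
      · exact c ▸ ⟨Or.inr (mem_image_of_mem _ (Or.inr hT)), hv.2⟩
    have lk := Link.map (G' := ext H Rg) (T := U' \ X)
      (fun y => if y = u then Sum.inr β else Sum.inl y) (fun x hx y hy c => by
        by_cases d : x = u <;> by_cases d' : y = u <;> simp only [d, d', if_true, if_false]
        · exact Link.refl _ _ _
        · exact Link.single m0 (m1 y hy d') ⟨u, hu', d ▸ c⟩
        · exact Link.single (m1 x hx d) m0 ⟨u, hu', d' ▸ c.symm⟩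
        · exact Link.single (m1 x hx d) (m1 y hy d') c) hl
    rw [if_pos rfl, if_neg hne] at lk
    have := x3 _ cp_sub (cp_conn m0) ⟨_, cp_self m0, β, rfl⟩
    exact (this ▸ ⟨⟨lk.mem m0, lk⟩, mem_image_of_mem _ hT⟩ : Sum.inl v ∈ (∅ : Set (V ⊕ ℕ)))

end Iso

open Iso Leva in
theorem isoS : PanS → BjS → IsoS := by
  classical
  intro _ bj h Q gap
  obtain ⟨w, N, w0, hb⟩ := bj h
  obtain ⟨κ, hκ⟩ : ∃ κ, κ = N * 9 * (2 * N) + 1 := ⟨_, rfl⟩
  obtain ⟨m, hm⟩ : ∃ m, m = 4 * κ + Q + 1 := ⟨_, rfl⟩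
  have hsz : Q + 4 * (m * κ) ≤ m * m := by
    have h2 : m * m = m * (4 * κ + Q + 1) := by rw [← hm]
    have h3 : Q ≤ m * Q := Nat.le_mul_of_pos_left _ (by omega)
    nlinarith
  have m0 : 0 < m := by omega
  refine ⟨2 * (m * κ), w, w0, fun L => ?_⟩
  obtain ⟨P, hP⟩ : ∃ P, P = L + 2 * w + gap + 1 := ⟨_, rfl⟩
  refine ⟨m * m * P + gap, fun V _ G H n Ur U I ob F a b O ft cl hF hM => ?_⟩
  have top : ∀ e < m * m, e * P + P + gap ≤ F.A.n := fun e he => by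
    have := spaced (P := P) he
    omega
  have ct : ∀ (π : ℕ → ℕ) (x : ℕ), ∃ (D : Set V) (Bad : Finset ℕ), D.ncard ≤ κ ∧ Bad.card ≤ κ ∧
      D ⊆ I ∪ F.sk O ft ∧ ∀ β < m * m, π β = x → β ∉ Bad → ∀ e, β * P + gap + w ≤ e →
        e ≤ β * P + gap + w + L → ∀ u ∈ F.low e, ∀ v ∈ F.sk O ft \ D,
        Link H ((I \ (F.sk O ft ∪ D)) ∪ {u, v}) u v → ∃ β' < m * m, π β' = x ∧
          ∃ e', β' * P + gap ≤ e' ∧ e' ≤ β' * P + gap + L + 2 * w ∧ v ∈ F.low e' := by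
    intro π x
    obtain ⟨D, Bad, a1, a2, a3, a4⟩ := cut hF (L := L) hb hκ (fun β => β * P + gap)
      ((Finset.range (m * m)).filter fun β => π β = x)
      (fun e he => by
        have := top e (Finset.mem_range.1 (Finset.mem_filter.1 he).1)
        show e * P + gap + L + 2 * w ≤ F.A.n
        omega)
      (fun e _ e' _ lt => by
        have := spaced (P := P) lt
        show e * P + gap + L + 2 * w < e' * P + gap
        omega)
    refine ⟨D, Bad, a1, a2, a3, fun β hβ hx hb e b1 b2 u b3 v b4 b5 => ?_⟩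
    obtain ⟨β', hβ', c⟩ := a4 β (Finset.mem_filter.2 ⟨Finset.mem_range.2 hβ, hx⟩) hb e b1 b2 u b3
      v b4 b5
    exact ⟨β', Finset.mem_range.1 (Finset.mem_filter.1 hβ').1, (Finset.mem_filter.1 hβ').2, c⟩
  choose A1 B1 a1 b1 s1 c1 using ct fun e => e / m
  choose A2 B2 a2 b2 s2 c2 using ct fun e => e % m
  obtain ⟨A, hA⟩ : ∃ A : Set V, A = {v | ∃ i < m, v ∈ A1 i} ∪ {v | ∃ i < m, v ∈ A2 i} := ⟨_, rfl⟩
  have cA : A.ncard ≤ 2 * (m * κ) := by
    have k1 := ncard_un A1 κ m fun i _ => a1 i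
    have k2 := ncard_un A2 κ m fun i _ => a2 i
    have k3 := ncard_union_le {v | ∃ i < m, v ∈ A1 i} {v | ∃ i < m, v ∈ A2 i}
    rw [hA]
    omega
  have rw0 : ∀ v : V, ∃ ρ, ∀ r ≤ F.A.n, v ∈ F.low r → ρ = r := fun v => by
    by_cases k : ∃ r ≤ F.A.n, v ∈ F.low r
    · obtain ⟨r, hr, hv⟩ := k
      exact ⟨r, fun r' hr' hv' => Iso.row_eq hF hr hr' (low_sub _ hv) (low_sub _ hv')⟩
    · exact ⟨0, fun r hr hv => absurd ⟨r, hr, hv⟩ k⟩
  choose ρ hρ using rw0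
  obtain ⟨B, hB⟩ : ∃ B : Finset ℕ, B = ((Finset.range m).biUnion B1 ∪ (Finset.range m).biUnion B2) ∪
      (toFinite A).toFinset.image fun v => ρ v / P := ⟨_, rfl⟩
  have cB : B.card ≤ 4 * (m * κ) := by
    have k1 := Finset.card_biUnion_le_card_mul (Finset.range m) B1 κ fun i _ => b1 i
    have k2 := Finset.card_biUnion_le_card_mul (Finset.range m) B2 κ fun i _ => b2 i
    have k3 := Finset.card_image_le (s := (toFinite A).toFinset) (f := fun v => ρ v / P)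
    have k4 := Finset.card_union_le ((Finset.range m).biUnion B1) ((Finset.range m).biUnion B2)
    have k5 := Finset.card_union_le ((Finset.range m).biUnion B1 ∪ (Finset.range m).biUnion B2)
      ((toFinite A).toFinset.image fun v => ρ v / P)
    rw [← ncard_eq_toFinset_card A] at k3
    rw [Finset.card_range] at k1 k2
    rw [hB]
    omega
  have cS := Finset.le_card_sdiff B (Finset.range (m * m))
  rw [Finset.card_range] at cS
  obtain ⟨g, hg, hmono⟩ := enum (Finset.range (m * m) \ B) (n := Q) (by omega)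
  refine ⟨A, fun q => g q * P + gap + w, cA, ?_, fun q hq => ?_, fun q q' lt hq => ?_⟩
  · rw [hA]
    rintro x (⟨i, -, c⟩ | ⟨i, -, c⟩)
    exacts [s1 i c, s2 i c]
  · obtain ⟨he, hb⟩ := Finset.mem_sdiff.1 (hg q hq)
    rw [Finset.mem_range] at he
    beta_reduce
    generalize g q = β at he hb
    have := top β he
    refine ⟨by omega, by omega, fun r d1 d2 => disjoint_left.2 fun x hx hx' => hb ?_,
      fun e d1 d2 u d3 v d4 d5 => ?_⟩
    · have e1 : ρ x = r := hρ x r (by omega) hx'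
      have e2 : r / P = β := block (by omega) (by omega)
      rw [hB]
      exact Finset.mem_union_right _ (Finset.mem_image.2 ⟨x, (Finite.mem_toFinset _).2 hx,
        by rw [e1, e2]⟩)
    have x1 : β / m < m := Nat.div_lt_of_lt_mul he
    have x2 : β % m < m := Nat.mod_lt _ m0
    have t1 : A1 (β / m) ⊆ A := fun y hy => hA ▸ Or.inl ⟨_, x1, hy⟩
    have t2 : A2 (β % m) ⊆ A := fun y hy => hA ▸ Or.inr ⟨_, x2, hy⟩
    obtain ⟨β1, l1, p1, e1, q1, q1', q1''⟩ := c1 (β / m) β he rfl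
      (fun k => hb (hB ▸ Finset.mem_union_left _ (Finset.mem_union_left _
        (Finset.mem_biUnion.2 ⟨_, Finset.mem_range.2 x1, k⟩)))) e d1 d2 u d3 v
      ⟨d4.1, fun k => d4.2 (t1 k)⟩ (d5.mono (union_subset_union_left _
        (sdiff_subset_sdiff_right (union_subset_union_right _ t1))))
    obtain ⟨β2, l2, p2, e2, q2, q2', q2''⟩ := c2 (β % m) β he rfl
      (fun k => hb (hB ▸ Finset.mem_union_left _ (Finset.mem_union_right _
        (Finset.mem_biUnion.2 ⟨_, Finset.mem_range.2 x2, k⟩)))) e d1 d2 u d3 v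
      ⟨d4.1, fun k => d4.2 (t2 k)⟩ (d5.mono (union_subset_union_left _
        (sdiff_subset_sdiff_right (union_subset_union_right _ t2))))
    have := top β1 l1
    have := top β2 l2
    obtain rfl : e1 = e2 := (hρ v e1 (by omega) q1'').symm.trans (hρ v e2 (by omega) q2'')
    have y1 : e1 / P = β1 := block (by omega) (by omega)
    have y2 : e1 / P = β2 := block (by omega) (by omega)
    have y3 : β1 = β := by
      have z1 := Nat.div_add_mod β1 m
      have z2 := Nat.div_add_mod β m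
      rw [← y2, y1] at p2
      rw [p1, p2] at z1
      omega
    subst y3
    exact ⟨e1, by omega, by omega, q1''⟩
  · have := spaced (P := P) (hmono q q' lt hq)
    show g q * P + gap + w + L + 2 * w + gap < g q' * P + gap + w
    omega

end Pool.Agent.MP_9d78a0_co.st

end MrgPart1

-- ======== part 2: formerly Pool.Agent.MP_9d78a0_co.st.Sel
section MrgPart2

/-! The structure theorem, part E: a range in which everything is dense or absent. -/

set_option autoImplicit false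

namespace Pool.Agent.MP_9d78a0_co.st

open Set Function fb

namespace Sel

/-- finitely many monotone predicates: a range in which each is dense or absent -/
theorem pure {ι : Type} (Φ : ℕ → ℕ) (T : ι → ℕ → ℕ → Prop)
    (mono : ∀ i e e' d d', T i e e' → d ≤ e → e' ≤ d' → T i d d') (A : Set ι) (k : ℕ) :
    ∀ (s : Set ι) (lo : ℕ), s.Finite → s.ncard ≤ k → (∀ i ∈ A \ s, ¬ T i lo (lo + Φ (Φ^[k] 0))) →
      ∃ f L, f + Φ L ≤ lo + Φ (Φ^[k] 0) ∧ ∀ i ∈ A,
        (∀ e, e + L ≤ Φ L → T i (f + e) (f + (e + L))) ∨ ¬ T i f (f + Φ L) := by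
  induction k with
  | zero =>
    intro s lo hs hk h
    rw [Nat.le_zero, ncard_eq_zero hs] at hk
    exact ⟨lo, _, le_rfl, fun i hi => Or.inr (h i ⟨hi, by simp [hk]⟩)⟩
  | succ k ih =>
    intro s lo hs hk h
    by_cases q : ∀ i ∈ s, ∀ e, e + Φ^[k + 1] 0 ≤ Φ (Φ^[k + 1] 0) →
        T i (lo + e) (lo + (e + Φ^[k + 1] 0))
    · exact ⟨lo, _, le_rfl, fun i hi => (em (i ∈ s)).imp (q i) fun m => h i ⟨hi, m⟩⟩
    push Not at q
    obtain ⟨i, hi, e, he, q⟩ := q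
    rw [iterate_succ_apply'] at he q h ⊢
    obtain ⟨f, L, k1, k2⟩ := ih (s \ {i}) (lo + e) hs.sdiff (by
      have := ncard_sdiff_singleton_add_one hi hs
      omega) fun j hj t => by
      by_cases m : j = i
      · exact q (by rwa [← m, ← add_assoc])
      · exact h j ⟨hj.1, fun r => hj.2 ⟨r, m⟩⟩ (mono _ _ _ _ _ t (by omega) (by omega))
    exact ⟨f, L, by omega, k2⟩

theorem sub_rel {α β : Type} {R : α → β → Prop} {l : List α} {l' : List β}
    (h : List.Forall₂ R l l') : ∀ s, List.Sublist s l → ∃ s', List.Forall₂ R s s' ∧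
      List.Sublist s' l' := by
  induction h with
  | nil => intro s hs; exact ⟨[], List.sublist_nil.1 hs ▸ .nil, .slnil⟩
  | cons r _ ih =>
    intro s hs
    cases hs with
    | cons _ k => exact (ih s k).imp fun _ q => ⟨q.1, q.2.cons _⟩
    | cons_cons _ k => exact (ih _ k).elim fun _ q => ⟨_, .cons r q.1, q.2.cons_cons _⟩

variable {V : Type} {G H : SimpleGraph V} {U I D Z : Set V} {F : FD V} {pos : V → ℕ}

theorem conn_meet {S T : Set V} (h : Conn H S) (h' : Conn H T) (k : (S ∩ T).Nonempty) :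
    Conn H (S ∪ T) := by
  obtain ⟨x, hx, hx'⟩ := k
  refine conn_of_center (Or.inl hx) ?_
  rintro v (hv | hv)
  exacts [(h.2 x hx v hv).mono subset_union_left, (h'.2 x hx' v hv).mono subset_union_right]

theorem cell_col {p : PD V} {e : ℕ} : p.C 0 e ⊆ p.col e := fun _ k =>
  Or.inr ⟨0, le_rfl, Nat.zero_le _, k⟩

theorem col_conn {p : PD V} (h : Pan H U I p) {e : ℕ} (he : e ≤ p.n) : Conn H (p.col e) := by
  have e1 : p.col e = p.Λ e ∪ ⋃ l ∈ Icc 0 p.s, p.C l e := by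
    ext v
    simp [PD.col, PD.up]
  rw [e1]
  refine conn_union_touch (h.lam e he).1 (conn_chain (Nat.zero_le _)
    (fun l hl => (h.cell l hl.2 e he).1) fun l _ hl => Or.inr (h.ver l hl e he)) ?_
  exact (h.lam e he).2.1.symm.mono Subset.rfl
    (subset_biUnion_of_mem (u := fun l => p.C l e) (right_mem_Icc.2 (Nat.zero_le _)))

section str

variable (h : Str H U I D F Z pos)
include h

theorem colA {e : ℕ} (he : e ≤ F.A.n) {v : V} (k : v ∈ F.A.col e) : v ∈ F.A.P ∧ pos v = 2 * e :=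
  have q := (h.bas.a.col e he v).1 k
  ⟨q.1, (h.kap.1 v q.1).trans q.2⟩

theorem colB {e : ℕ} (he : e ≤ F.A.n) {v : V} (k : v ∈ F.B.col e) : v ∈ F.B.P ∧ pos v = 2 * e :=
  have q := (h.bas.b.col e (h.bas.n ▸ he) v).1 k
  ⟨q.1, (h.kap.2 v q.1).trans q.2⟩

theorem row_el {e : ℕ} (he : e ≤ F.A.n) {v : V} (k : v ∈ F.row e) :
    pos v = 2 * e ∧ v ∈ Z ∪ F.core ∧ v ∈ F.dom Z := by
  rcases k with (k | k) | k
  · exact ⟨(colA h he k).2, Or.inr (Or.inl (Or.inl (Or.inl ⟨e, he, k⟩))),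
      Or.inl (Or.inr (colA h he k).1)⟩
  · exact ⟨((h.rng v (h.z.2 e he k)).2 e he).2 k, Or.inl (h.z.2 e he k),
      Or.inl (Or.inl (h.z.2 e he k))⟩
  · exact ⟨(colB h he k).2, Or.inr (Or.inl (Or.inl (Or.inr ⟨e, h.bas.n ▸ he, k⟩))),
      Or.inr (colB h he k).1⟩

theorem row_conn {e : ℕ} (he : e ≤ F.A.n) : Conn H (F.row e) :=
  conn_union_touch (conn_union_touch (col_conn h.bas.a he) (h.bas.j e he).2.1
    ((h.bas.j e he).2.2.1.symm.mono cell_col Subset.rfl)) (col_conn h.bas.b (h.bas.n ▸ he))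
    ((h.bas.j e he).2.2.2.mono subset_union_right cell_col)

theorem rows_conn {a b : ℕ} (hab : a ≤ b) (hb : b ≤ F.A.n) : Conn H (⋃ e ∈ Icc a b, F.row e) :=
  conn_chain hab (fun e he => row_conn h (he.2.trans hb)) fun e _ he => Or.inr
    ((h.bas.a.hor 0 (Nat.zero_le _) e (by omega)).mono
      (fun _ k => Or.inl (Or.inl (cell_col k))) fun _ k => Or.inl (Or.inl (cell_col k)))

variable {f m : ℕ} (hm : f + m ≤ F.A.n)
include hm

omit hm in
theorem mem_dom {v : V} : v ∈ (F.sub f m).dom {v | v ∈ Z ∧ 2 * f ≤ pos v ∧ pos v ≤ 2 * (f + m)} ↔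
    v ∈ F.dom Z ∧ 2 * f ≤ pos v ∧ pos v ≤ 2 * (f + m) := by
  constructor
  · rintro ((k | k) | k)
    · exact ⟨Or.inl (Or.inl k.1), k.2⟩
    · exact ⟨Or.inl (Or.inr k.1), h.kap.1 v k.1 ▸ k.2⟩
    · exact ⟨Or.inr k.1, h.kap.2 v k.1 ▸ k.2⟩
  · rintro ⟨(k | k) | k, q⟩
    · exact Or.inl (Or.inl ⟨k, q⟩)
    · exact Or.inl (Or.inr ⟨k, h.kap.1 v k ▸ q⟩)
    · exact Or.inr ⟨k, h.kap.2 v k ▸ q⟩

theorem win_eq {e e' : ℕ} (he : e' ≤ m) :
    (F.sub f m).win {v | v ∈ Z ∧ 2 * f ≤ pos v ∧ pos v ≤ 2 * (f + m)} (fun v => pos v - 2 * f) e e' =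
      F.win Z pos (f + e) (f + e') := by
  ext v
  constructor
  · rintro ⟨k, q1, q2⟩
    beta_reduce at q1 q2
    refine ⟨?_, by omega, by omega⟩
    rcases k with k | ⟨x, hx, k⟩ | ⟨x, hx, k⟩
    · exact Or.inl k.1
    · exact Or.inr (Or.inl ⟨f + x, (Nat.add_le_add_left hx f).trans hm, k⟩)
    · exact Or.inr (Or.inr ⟨f + x, h.bas.n ▸ (Nat.add_le_add_left hx f).trans hm, k⟩)
  · rintro ⟨k, q1, q2⟩
    refine ⟨?_, by beta_reduce; omega, by beta_reduce; omega⟩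
    rcases k with k | ⟨x, hx, k⟩ | ⟨x, hx, k⟩
    · exact Or.inl ⟨k, by omega, by omega⟩
    · have := (colA h hx (cell_col k)).2
      obtain ⟨y, rfl⟩ : ∃ y, x = f + y := ⟨x - f, by omega⟩
      exact Or.inr (Or.inl ⟨y, show y ≤ m by omega, k⟩)
    · have := (colB h (h.bas.n ▸ hx) (cell_col k)).2
      obtain ⟨y, rfl⟩ : ∃ y, x = f + y := ⟨x - f, by omega⟩
      exact Or.inr (Or.inr ⟨y, show y ≤ m by omega, k⟩)

theorem core_el {v : V}
    (k : v ∈ {v | v ∈ Z ∧ 2 * f ≤ pos v ∧ pos v ≤ 2 * (f + m)} ∪ (F.sub f m).core) :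
    v ∈ Z ∪ F.core ∧ 2 * f ≤ pos v ∧ pos v ≤ 2 * (f + m) := by
  rcases k with k | ((⟨x, hx, k⟩ | ⟨x, hx, k⟩) | k) | k
  · exact ⟨Or.inl k.1, k.2⟩
  · have hx' : x ≤ m := hx
    have := row_el h (e := f + x) (by omega) (Or.inl (Or.inl k))
    exact ⟨this.2.1, by omega, by omega⟩
  · have hx' : x ≤ m := hx
    have := row_el h (e := f + x) (by omega) (Or.inr k)
    exact ⟨this.2.1, by omega, by omega⟩
  · exact ⟨Or.inr (Or.inl (Or.inr ⟨k.1.1, k.2⟩)), h.kap.1 v k.1.1 ▸ k.1.2⟩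
  · exact ⟨Or.inr (Or.inr ⟨k.1.1, k.2⟩), h.kap.2 v k.1.1 ▸ k.1.2⟩

omit h in
theorem let_sub (o : ℕ → V) : List.Sublist ((List.range' 1 (m - 1)).map fun e => o (f + e))
    ((List.range' 1 (F.A.n - 1)).map o) := by
  rw [show (fun e => o (f + e)) = o ∘ fun e => f + e from rfl, ← List.map_map, List.map_add_range']
  rcases m with _ | m
  · simp
  refine (List.Sublist.trans ?_ (List.range'_sublist_right.2 (show f + m ≤ _ by omega))).map o
  rw [← List.range'_append_1, add_comm f]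
  exact List.sublist_append_right _ _

theorem flat : ¬ PX H ({v | v ∈ Z ∧ 2 * f ≤ pos v ∧ pos v ≤ 2 * (f + m)} ∪ (F.sub f m).core)
    (F.row f :: sg ((List.range' 1 (m - 1)).map fun e => F.A.o (f + e)) ++
      F.row (f + m) :: sg ((List.range' 1 (m - 1)).map fun e => F.B.o (f + e)).reverse) := by
  rintro ⟨a, b, c, d, sl, P, Q, t, pa, pc, qb, qd, ds⟩
  have m0 : 0 < m := by
    have := sl.length_le
    simp [sg] at this
    omega
  let E : Set V → Set V := fun X => X ∪ {v | (X ∩ F.row f).Nonempty ∧ v ∈ ⋃ e ∈ Icc 0 f, F.row e} ∪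
    {v | (X ∩ F.row (f + m)).Nonempty ∧ v ∈ ⋃ e ∈ Icc (f + m) F.A.n, F.row e}
  have pl : ∀ v ∈ ⋃ e ∈ Icc 0 f, F.row e, v ∈ Z ∪ F.core ∧ pos v ≤ 2 * f ∧
      (2 * f ≤ pos v → v ∈ F.row f) := fun v k => by
    obtain ⟨e, he, k⟩ := mem_iUnion₂.1 k
    have h1 := he.2
    have := row_el h (by omega) k
    exact ⟨this.2.1, by omega, fun q => (show e = f by omega) ▸ k⟩
  have pr : ∀ v ∈ ⋃ e ∈ Icc (f + m) F.A.n, F.row e, v ∈ Z ∪ F.core ∧ 2 * (f + m) ≤ pos v ∧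
      (pos v ≤ 2 * (f + m) → v ∈ F.row (f + m)) := fun v k => by
    obtain ⟨e, he, k⟩ := mem_iUnion₂.1 k
    have h1 := he.1
    have := row_el h he.2 k
    exact ⟨this.2.1, by omega, fun q => (show e = f + m by omega) ▸ k⟩
  have ml : ∀ e ≤ f, F.row e ⊆ ⋃ e ∈ Icc 0 f, F.row e := fun e he =>
    subset_biUnion_of_mem (u := F.row) ⟨Nat.zero_le _, he⟩
  have mr : ∀ e, f + m ≤ e → e ≤ F.A.n → F.row e ⊆ ⋃ e ∈ Icc (f + m) F.A.n, F.row e :=
    fun e he he' => subset_biUnion_of_mem (u := F.row) ⟨he, he'⟩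
  have add : ∀ X Y R W : Set V, Conn H Y → X ⊆ Y → Conn H W → R ⊆ W →
      Conn H (Y ∪ {v | (X ∩ R).Nonempty ∧ v ∈ W}) := by
    intro X Y R W k1 k2 k3 k4
    by_cases q : (X ∩ R).Nonempty
    · simp only [q, true_and, ofPred_mem_eq]
      exact conn_meet k1 k3 (q.mono (inter_subset_inter k2 k4))
    · simpa only [q, false_and, ofPred_false, union_empty] using k1
  have cE : ∀ X, Conn H X → Conn H (E X) := fun X k =>
    add _ _ _ _ (add _ _ _ _ k Subset.rfl (rows_conn h (Nat.zero_le _) (by omega)) (ml f le_rfl))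
      subset_union_left (rows_conn h hm le_rfl) (mr _ le_rfl hm)
  have dl : ∀ X ⊆ {v | v ∈ Z ∧ 2 * f ≤ pos v ∧ pos v ≤ 2 * (f + m)} ∪ (F.sub f m).core,
      (Disjoint X (F.row f) → Disjoint (E X) (⋃ e ∈ Icc 0 f, F.row e)) ∧
      (Disjoint X (F.row (f + m)) → Disjoint (E X) (⋃ e ∈ Icc (f + m) F.A.n, F.row e)) := by
    intro X hX
    refine ⟨fun k => Set.disjoint_left.2 ?_, fun k => Set.disjoint_left.2 ?_⟩
    · rintro v ((q | q) | q) r
      · exact Set.disjoint_left.1 k q ((pl v r).2.2 (core_el h hm (hX q)).2.1)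
      · exact q.1.ne_empty k.inter_eq
      · have := (pl v r).2.1
        have := (pr v q.2).2.1
        omega
    · rintro v ((q | q) | q) r
      · exact Set.disjoint_left.1 k q ((pr v r).2.2 (core_el h hm (hX q)).2.2)
      · have := (pl v q.2).2.1
        have := (pr v r).2.1
        omega
      · exact q.1.ne_empty k.inter_eq
  have d1 := ds (F.row f) (by simp)
  have d2 := ds (F.row (f + m)) (by simp)
  have dE : Disjoint (E P) (E Q) := by
    rw [Set.disjoint_left]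
    intro v k1 k2
    have a1 : v ∉ ⋃ e ∈ Icc 0 f, F.row e := fun r => d1.elim
      (fun q => Set.disjoint_left.1 ((dl P t.sp).1 q) k1 r)
      fun q => Set.disjoint_left.1 ((dl Q t.sq).1 q) k2 r
    have a2 : v ∉ ⋃ e ∈ Icc (f + m) F.A.n, F.row e := fun r => d2.elim
      (fun q => Set.disjoint_left.1 ((dl P t.sp).2 q) k1 r)
      fun q => Set.disjoint_left.1 ((dl Q t.sq).2 q) k2 r
    exact Set.disjoint_left.1 t.dis
      ((k1.resolve_right fun q => a2 q.2).resolve_right fun q => a1 q.2)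
      ((k2.resolve_right fun q => a2 q.2).resolve_right fun q => a1 q.2)
  have sE : ∀ X ⊆ {v | v ∈ Z ∧ 2 * f ≤ pos v ∧ pos v ≤ 2 * (f + m)} ∪ (F.sub f m).core,
      E X ⊆ Z ∪ F.core := by
    rintro X hX v ((q | q) | q)
    exacts [(core_el h hm (hX q)).1, (pl v q.2).1, (pr v q.2).1]
  let R : Set V → Set V → Prop := fun s s' => ∀ X, (X ∩ s).Nonempty → (E X ∩ s').Nonempty
  have rr : ∀ l : List (Set V), List.Forall₂ R l l := fun l => List.forall₂_same.2 fun s _ X k =>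
    k.mono (inter_subset_inter_left _ fun _ q => Or.inl (Or.inl q))
  have r0 : R (F.row f) (F.row 0) := fun X k => by
    obtain ⟨v, hv⟩ := (row_conn h (Nat.zero_le _)).1
    exact ⟨v, Or.inl (Or.inr ⟨k, ml 0 (Nat.zero_le _) hv⟩), hv⟩
  have r1 : R (F.row (f + m)) (F.row F.A.n) := fun X k => by
    obtain ⟨v, hv⟩ := (row_conn h le_rfl).1
    exact ⟨v, Or.inr ⟨k, mr _ hm le_rfl hv⟩, hv⟩
  obtain ⟨s', k1, k2⟩ := sub_rel (List.rel_append (.cons r0 (rr _)) (.cons r1 (rr _))) _ sl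
  rcases k1 with _ | ⟨ra, _ | ⟨rb, _ | ⟨rc, _ | ⟨rd, _ | _⟩⟩⟩⟩
  refine h.flat ⟨_, _, _, _, k2.trans (List.Sublist.append (((let_sub hm _).map _).cons_cons _)
    (((let_sub hm _).reverse.map _).cons_cons _)), E P, E Q,
    ⟨sE P t.sp, sE Q t.sq, cE P t.cp, cE Q t.cq, dE⟩, ra _ pa, rc _ pc, rb _ qb, rd _ qd, ?_⟩
  have sing : ∀ l : List V, ∀ s ∈ sg l, Disjoint (E P) s ∨ Disjoint (E Q) s := by
    intro l s hs
    obtain ⟨x, -, rfl⟩ := List.mem_map.1 hs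
    simp only [disjoint_singleton_right]
    exact imp_iff_not_or.1 fun q => Set.disjoint_left.1 dE q
  intro s hs
  simp only [List.cons_append, List.mem_cons, List.mem_append] at hs
  rcases hs with rfl | hs | rfl | hs
  · exact d1.imp (fun q => ((dl P t.sp).1 q).mono_right (ml 0 (Nat.zero_le _)))
      fun q => ((dl Q t.sq).1 q).mono_right (ml 0 (Nat.zero_le _))
  · exact sing _ s hs
  · exact d2.imp (fun q => ((dl P t.sp).2 q).mono_right (mr _ hm le_rfl))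
      fun q => ((dl Q t.sq).2 q).mono_right (mr _ hm le_rfl)
  · exact sing _ s hs

/-- the strip in a range; vertices of `D` that do not touch the range are put back -/
theorem str_sub (pan : PanS) {D' : Set V} (hD : D' ⊆ D)
    (ab : ∀ y ∈ D \ D', ¬ Touch H {y} (F.win Z pos f (f + m))) :
    Str H U I D' (F.sub f m) {v | v ∈ Z ∧ 2 * f ≤ pos v ∧ pos v ≤ 2 * (f + m)}
      fun v => pos v - 2 * f := by
  have le : ∀ e ≤ m, f + e ≤ F.A.n := fun e he => by omega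
  have sA : (F.A.sub f m).P ⊆ F.A.P := fun _ k => k.1
  have sB : (F.B.sub f m).P ⊆ F.B.P := fun _ k => k.1
  refine ⟨⟨h.bas.tight, h.bas.iu, (((pan V H U I).2 _ h.bas.a).2 f m hm).1,
      (((pan V H U I).2 _ h.bas.b).2 f m (h.bas.n ▸ hm)).1, rfl, h.bas.s,
      ⟨h.bas.dis.1.mono sA sB, fun k => h.bas.dis.2 (k.mono sA sB)⟩, fun e he => h.bas.j _ (le e he),
      fun e he e' he' n => h.bas.jd _ (le e he) _ (le e' he') (by omega)⟩,
    ⟨fun v k => ⟨(h.z.1 k.1).1, fun q => (h.z.1 k.1).2 (hD q)⟩, fun e he v k => ?_⟩,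
    h.d.mono hD (union_subset_union sA sB), fun v k => ⟨?_, fun e he => ?_⟩,
    ⟨fun v k => congrArg (· - 2 * f) (h.kap.1 v k.1), fun v k => congrArg (· - 2 * f) (h.kap.2 v k.1)⟩,
    fun v k q1 q2 y e => ?_, fun u k v k' e => ?_, fun v k => ?_, flat h hm⟩
  · have he' : e ≤ m := he
    have := (row_el h (le e he) (Or.inl (Or.inr k))).1
    exact ⟨h.z.2 _ (le e he) k, by omega, by omega⟩
  · have := k.2
    show _ ≤ 2 * m
    omega
  · have := k.2
    refine Iff.trans ?_ ((h.rng v k.1).2 _ (le e he))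
    omega
  · obtain ⟨k, k1, k2⟩ := (mem_dom h).1 k
    have q3 : pos v - 2 * f < 2 * m := q2
    rcases h.clo v k (by omega) (by omega) y e with r | r
    · have := h.stp v k y r e
      refine Or.inl ((mem_dom h).2 ⟨r, ?_⟩)
      unfold LSt at this
      omega
    refine Or.inr (by_contra fun n => ?_)
    have nf : v ∉ Z ∪ F.feet := fun w =>
      ab y ⟨r, n⟩ ⟨y, rfl, v, ⟨w, by omega, by omega⟩, e.symm⟩
    rcases k with (k | k) | k
    · exact nf (Or.inl k)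
    · have := h.kap.1 v k
      exact (h.bas.a.clo v k (by omega) (by omega) y e).elim
        (fun w => Set.disjoint_left.1 h.d r (Or.inl w)) fun w => nf (Or.inr (Or.inl w.2))
    · have := h.kap.2 v k
      have := h.bas.n
      exact (h.bas.b.clo v k (by omega) (by omega) y e).elim
        (fun w => Set.disjoint_left.1 h.d r (Or.inr w)) fun w => nf (Or.inr (Or.inr w.2))
  · obtain ⟨k, k1, -⟩ := (mem_dom h).1 k
    obtain ⟨k', k2, -⟩ := (mem_dom h).1 k'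
    have := h.stp u k v k' e
    unfold LSt at this ⊢
    omega
  · obtain ⟨k, k1, k2⟩ := k
    rcases Nat.even_or_odd' (pos v) with ⟨x, q | q⟩
    · obtain ⟨y, rfl⟩ : ∃ y, x = f + y := ⟨x - f, by omega⟩
      exact ⟨y, show y ≤ m by omega, v,
        Or.inl (Or.inr (((h.rng v k).2 _ (by omega)).1 q)), Link.refl _ _ _⟩
    obtain ⟨e, he, u, hu, l⟩ := h.att v k
    have ru := row_el h he (v := u) (hu.imp (Or.imp_left fun w => cell_col w) fun w => cell_col w)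
    have st : ∀ w, Link H ({x | x ∈ Z ∧ pos x = pos v} ∪ {u}) v w → LSt (pos v) (pos w) := by
      intro w l
      induction l with
      | refl => exact Or.inl rfl
      | tail _ r ih =>
        rcases r with ⟨r1 | rfl, r2 | rfl, r3⟩
        · exact Or.inl r2.2.symm
        · exact r1.2 ▸ h.stp _ (Or.inl (Or.inl r1.1)) _ ru.2.2 r3
        · exact Or.inl r2.2.symm
        · exact ih
    have := st u l
    have := ru.1
    unfold LSt at *
    obtain ⟨y, rfl⟩ : ∃ y, e = f + y := ⟨e - f, by omega⟩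
    refine ⟨y, show y ≤ m by omega, u, hu, l.mono (union_subset_union_left _ ?_)⟩
    exact fun x r => ⟨⟨r.1, r.2 ▸ k1, r.2 ▸ k2⟩, congrArg (· - 2 * f) r.2⟩

end str

end Sel

open Sel in
theorem selS (_ : NfS) (pan : PanS) : SelS := by
  intro N b Φ
  refine ⟨Φ (Φ^[N + b] 0), fun V _ G H U I D F Z pos E h hG hD hM => ?_⟩
  let S : V ⊕ ℕ → Set V := Sum.elim (fun z => {z}) E
  have f1 : (Sum.inl '' D : Set (V ⊕ ℕ)).Finite := (toFinite D).image _
  have f2 : (Sum.inr '' Iio b : Set (V ⊕ ℕ)).Finite := (finite_Iio b).image _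
  obtain ⟨f, L, k1, k2⟩ := pure Φ (fun i e e' => Touch G (S i) (F.win Z pos e e'))
    (fun i e e' d d' t q q' => t.mono Subset.rfl fun v r => ⟨r.1, by have := r.2; omega⟩)
    (Sum.inl '' D ∪ Sum.inr '' Iio b) (N + b) _ 0 (f1.union f2)
    ((ncard_union_le _ _).trans (add_le_add ((ncard_image_le (toFinite D)).trans hD)
      ((ncard_image_le (finite_Iio b)).trans (ncard_Iio_nat b).le))) fun i hi => absurd hi.1 hi.2
  have hm : f + Φ L ≤ F.A.n := by omega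
  refine ⟨f, L, {z | z ∈ D ∧ ∀ e, e + L ≤ Φ L → Touch G {z} (F.win Z pos (f + e) (f + (e + L)))},
    _, _, hm, fun _ k => k.1, str_sub h hm pan (fun _ k => k.1) fun y hy t => ?_,
    fun z hz e he => ?_, fun j hj => (k2 (Sum.inr j) (Or.inr ⟨j, hj, rfl⟩)).imp
      (fun q e he => ?_) fun q => ?_⟩
  · refine (k2 (Sum.inl y) (Or.inl ⟨y, hy.1, rfl⟩)).elim (fun q => hy.2 ⟨hy.1, q⟩) fun q => q ?_
    obtain ⟨u, hu, v, hv, e⟩ := t
    exact ⟨u, hu, v, hv, hG e⟩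
  · rw [win_eq h hm he]
    exact hz.2 e he
  · rw [win_eq h hm he]
    exact q e he
  · rw [win_eq h hm le_rfl]
    exact q

theorem stripS (eqv : EqvS) (blk : BlkS) (ps : PosS) (sel : SelS) (top : TopS) (seam : SeamS) :
    StripS := by
  intro h b K Φ
  obtain ⟨N, hN⟩ := blk h
  obtain ⟨M1, h1⟩ := sel N b fun L => 2 * Φ L + K + 3
  obtain ⟨M, hM⟩ := hN (M1 + 4)
  refine ⟨N, M, fun V _ G H n Ur U I ob F a b' O ft cl E fr le => ?_⟩
  obtain ⟨D, lo, Z, lam, rho, d1, d2, d3, bl⟩ := hM V G H n Ur U I ob F a b' O ft cl fr le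
  obtain ⟨Z1, pos1, s1⟩ := ps V H U I D _ Z lam rho bl (Nat.le_add_left _ _)
  obtain ⟨f, L, D', Z2, pos2, k1, k2, s2, k3, k4⟩ :=
    h1 V G H U I D _ Z1 pos1 E s1 fr.le d1 (show M1 ≤ M1 + 4 - 2 by omega)
  have k0 : f + (2 * Φ L + K + 3) ≤ M1 + 4 - 2 := k1
  obtain ⟨σ, w1, w2, w3⟩ := seam V H U I D' _ Z2 pos2 (Φ L) K s2
    (top V H U I D' _ Z2 pos2 s2 (show 2 ≤ 2 * Φ L + K + 3 by omega)) rfl
  obtain ⟨-, -, e3, e4, e5, -⟩ := eqv V
  have e : ∀ p : PD V, Pan H U I p → p.n = F.A.n →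
      (((p.sub lo (M1 + 4)).sub 1 (M1 + 4 - 2)).sub f (2 * Φ L + K + 3)).Eqv
        (p.sub (lo + 1 + f) (2 * Φ L + K + 3)) := fun p hp q => by
    have r := (e5 p fun v hv => (hp.rng v hv).2).2.2
    refine e3 _ _ _ ((e4 _ _ ((r lo _ (q ▸ d3)).2 1 _ (by omega)) fun v hv => ?_).2.1 f _ k0).1
      ((r (lo + 1) _ (by omega)).2 f _ k0)
    have : p.κ v - 2 * lo ≤ 2 * (1 + (M1 + 4 - 2)) := hv.2.2
    show p.κ v - 2 * lo - 2 * 1 ≤ 2 * (M1 + 4 - 2)
    omega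
  refine ⟨lo + 1 + f, L, D', Z2, pos2,
    ((F.sub lo (M1 + 4)).sub 1 (M1 + 4 - 2)).sub f (2 * Φ L + K + 3), σ, w1, w2,
    show _ + (2 * Φ L + K + 3) ≤ _ by omega, ⟨e _ fr.bas.a rfl, e _ fr.bas.b fr.bas.n,
      fun x _ => congrArg F.J (show lo + (1 + (f + x)) = lo + 1 + f + x by omega)⟩,
    (ncard_le_ncard k2).trans d1, k2.trans d2, s2, w3, k3, k4⟩

end Pool.Agent.MP_9d78a0_co.st

end MrgPart2

-- ======== part 3: formerly Pool.Agent.MP_9d78a0_co.st.Top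
section MrgPart3

/-! The structure theorem: the middle window and the whole strip are flat. -/

set_option autoImplicit false

namespace Pool.Agent.MP_9d78a0_co.st

open Set Function fb

namespace TopAux

variable {V : Type} {H : SimpleGraph V} {U I D Z : Set V} {p : PD V} {F : FD V} {pos : V → ℕ}

theorem lk_closed {S A : Set V} {u v : V} (hu : u ∈ lk H S A) (hv : v ∈ S) (e : H.Adj u v) :
    v ∈ lk H S A := by
  obtain ⟨h1, a, h2, h3, h4⟩ := hu
  exact ⟨hv, a, h2, h3, h4.trans (Link.single h1 hv e)⟩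

theorem lk_link {S A : Set V} {v : V} (hv : v ∈ lk H S A) :
    ∃ a ∈ A, a ∈ lk H S A ∧ Link H (lk H S A) a v := by
  obtain ⟨h1, a, h2, h3, h4⟩ := hv
  have ha : a ∈ lk H S A := ⟨h3, a, h2, h3, Link.refl _ _ _⟩
  refine ⟨a, h2, ha, ?_⟩
  clear h1
  induction h4 with
  | refl => exact Link.refl _ _ _
  | tail _ e ih => exact ih.trans (Link.single (ih.mem ha) (lk_closed (ih.mem ha) e.2.1 e.2.2) e.2.2)

theorem conn_lk {S A T : Set V} {a : V} (hT : Conn H T) (hs : T ⊆ S) (h1 : a ∈ T) (h2 : a ∈ A) :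
    T ⊆ lk H S A := fun v hv => ⟨hs hv, a, h2, hs h1, (hT.2 a h1 v hv).mono hs⟩

theorem un_sg (L : List V) : un (sg L) = ls L := by
  ext v
  simp [un, sg, ls]

theorem ls_rev (L : List V) : ls L.reverse = ls L := by
  ext v
  simp [ls]

theorem sg_rev (L : List V) : (sg L).reverse = sg L.reverse := by simp [sg]

theorem flip (hN : NfS) {a b : Set V} {X Y : List (Set V)} (h : PX H U (a :: X ++ b :: Y)) :
    PX H U (a :: Y.reverse ++ b :: X.reverse) := by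
  refine (hN V H U).2.2.1 _ _ ?_ ((hN V H U).2.2.2.1 _ h)
  have e : (a :: X ++ b :: Y).reverse = (Y.reverse ++ b :: X.reverse) ++ [a] := by simp
  rw [e]
  exact List.isRotated_concat _ _

theorem c_up {l l' e : ℕ} (h1 : l ≤ l') (h2 : l' ≤ p.s) : p.C l' e ⊆ p.up l e :=
  fun _ h => Or.inr ⟨l', h1, h2, h⟩

theorem up_col {l e : ℕ} : p.up l e ⊆ p.col e := by
  rintro v (h | ⟨l', -, h2, h3⟩)
  · exact Or.inl h
  · exact Or.inr ⟨l', Nat.zero_le _, h2, h3⟩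

theorem up_conn (hp : Pan H U I p) {l e : ℕ} (hl : l ≤ p.s) (he : e ≤ p.n) :
    Conn H (p.up l e) := by
  have h1 : Conn H (⋃ i ∈ Icc l p.s, p.C i e) :=
    conn_chain hl (fun i hi => (hp.cell i hi.2 e he).1) fun i _ h => Or.inr (hp.ver i h e he)
  have h2 := conn_union_touch (hp.lam e he).1 h1
    ((hp.lam e he).2.1.symm.mono subset_rfl (subset_biUnion_of_mem (u := fun i => p.C i e)
      (right_mem_Icc.2 hl)))
  convert h2 using 1
  ext v
  simp [PD.up, and_assoc]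

theorem ring_conn (hp : Pan H U I p) {l : ℕ} (hl : l ≤ p.s) : Conn H (p.ring l) := by
  have h1 : Conn H (⋃ i ∈ Icc 0 p.n, p.C l i) :=
    conn_chain (Nat.zero_le _) (fun i hi => (hp.cell l hl i hi.2).1)
      fun i _ h => Or.inr (hp.hor l hl i h)
  convert h1 using 1
  ext v
  simp [PD.ring]

theorem ring_lev (hp : Pan H U I p) {l : ℕ} (hl : l ≤ p.s) {v : V} (hv : v ∈ p.ring l) :
    v ∈ p.P ∧ p.lev v = l ∧ v ∉ p.lin 0 p.n := by
  obtain ⟨e, he, h⟩ := hv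
  exact ⟨((hp.col e he v).1 (c_up (Nat.zero_le _) hl h)).1, (hp.cell l hl e he).2 v h⟩

theorem o_up (hp : Pan H U I p) {l e : ℕ} (he : e ≤ p.n) : p.o e ∈ p.up l e :=
  Or.inl (hp.lam e he).2.2.1

theorem up_lev (hp : Pan H U I p) {l e : ℕ} (hl : l ≤ p.s) (he : e ≤ p.n) {v : V}
    (hv : v ∈ p.up l e) : l ≤ p.lev v := by
  rcases hv with h | ⟨l', h1, h2, h3⟩
  · rw [(hp.lam e he).2.2.2.2 v h]; exact hl
  · rw [((hp.cell l' h2 e he).2 v h3).1]; exact h1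

theorem lin_eq (hn : 0 < p.n) : p.lin 0 p.n = p.o 0 :: p.opn ++ [p.o p.n] := by
  obtain ⟨m, hm⟩ : ∃ m, p.n = m + 1 := ⟨p.n - 1, by omega⟩
  unfold PD.opn PD.lin
  rw [hm, List.range_succ_eq_map]
  simp only [List.flatMap_cons, List.cons_append, List.tail_cons, List.dropLast_concat,
    Nat.zero_add]

theorem lin_mem {v : V} :
    v ∈ p.lin 0 p.n ↔ (∃ e ≤ p.n, v = p.o e) ∨ ∃ e < p.n, v ∈ p.seg e := by
  simp only [PD.lin, List.mem_append, List.mem_flatMap, List.mem_range, List.mem_cons,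
    Nat.zero_add, List.not_mem_nil, or_false]
  constructor
  · rintro (⟨e, he, h | h⟩ | h)
    · exact Or.inl ⟨e, he.le, h⟩
    · exact Or.inr ⟨e, he, h⟩
    · exact Or.inl ⟨_, le_rfl, h⟩
  · rintro (⟨e, he, h⟩ | ⟨e, he, h⟩)
    · rcases he.lt_or_eq with he | rfl
      · exact Or.inl ⟨e, he, Or.inl h⟩
      · exact Or.inr h
    · exact Or.inl ⟨e, he, Or.inr h⟩

theorem opn_nd (hp : Pan H U I p) (hn : 0 < p.n) :
    p.opn.Nodup ∧ p.o 0 ∉ p.opn ∧ p.o p.n ∉ p.opn := by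
  have h := hp.nd
  rw [lin_eq hn, List.cons_append, List.nodup_cons, List.nodup_append] at h
  exact ⟨h.2.1, fun c => h.1 (List.mem_append_left _ c),
    fun c => h.2.2.2 _ c _ (List.mem_singleton.2 rfl) rfl⟩

theorem opn_mem (hp : Pan H U I p) (hn : 0 < p.n) {v : V} (hv : v ∈ p.opn) :
    v ∈ p.P ∧ p.lev v = p.s ∧ 0 < p.κ v ∧ p.κ v < 2 * p.n ∧ v ∈ p.lin 0 p.n := by
  have h : v ∈ p.lin 0 p.n := by rw [lin_eq hn]; simp [hv]
  obtain ⟨-, h0, h1⟩ := opn_nd hp hn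
  rcases lin_mem.1 h with ⟨e, he, rfl⟩ | ⟨e, he, h2⟩
  · obtain ⟨k1, k2⟩ := (hp.col e he _).1 (o_up hp he)
    have e0 : e ≠ 0 := fun c => h0 (c ▸ hv)
    have e1 : e ≠ p.n := fun c => h1 (c ▸ hv)
    exact ⟨k1, (hp.lam e he).2.2.2.2 _ (hp.lam e he).2.2.1, by omega, by omega, h⟩
  · obtain ⟨k1, k2, k3⟩ := hp.seg e he v h2
    exact ⟨k1, k2, by omega, by omega, h⟩

theorem o_opn (hp : Pan H U I p) {e : ℕ} (h0 : 0 < e) (h1 : e < p.n) : p.o e ∈ p.opn := by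
  have h : p.o e ∈ p.lin 0 p.n := lin_mem.2 (Or.inl ⟨e, h1.le, rfl⟩)
  have k := fun x (hx : x ≤ p.n) => ((hp.col x hx _).1 (o_up hp hx)).2
  have k1 := k e h1.le
  have k2 := k 0 (Nat.zero_le _)
  have k3 := k _ le_rfl
  rw [lin_eq (by omega)] at h
  simp only [List.cons_append, List.mem_cons, List.mem_append, List.not_mem_nil, or_false] at h
  rcases h with h | h | h
  · rw [h] at k1; omega
  · exact h
  · rw [h] at k1; omega

theorem sw_dom : F.swap.dom Z = F.dom Z := union_right_comm _ _ _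

theorem sw_row (e : ℕ) : F.swap.row e = F.row e := by
  ext v
  simp only [FD.row, FD.swap, mem_union]
  tauto

theorem sw_low (e : ℕ) : F.swap.low e = F.low e := by
  ext v
  simp only [FD.low, FD.swap, mem_union]
  tauto

theorem sw_core : F.swap.core = F.core := by
  ext v
  simp only [FD.core, FD.swap, mem_union]
  tauto

theorem bas_swap (h : Bas H U I F) : Bas H U I F.swap where
  tight := h.tight
  iu := h.iu
  a := h.b
  b := h.a
  n := h.n.symm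
  s := h.s.symm
  dis := ⟨h.dis.1.symm, fun c => h.dis.2 c.symm⟩
  j e he := by
    obtain ⟨h1, h2, h3, h4⟩ := h.j e (h.n ▸ he)
    exact ⟨h1, h2, h4, h3⟩
  jd e he e' he' := h.jd e (h.n ▸ he) e' (h.n ▸ he')

theorem str_swap (hN : NfS) (h : Str H U I D F Z pos) : Str H U I D F.swap Z pos := by
  have hn : F.swap.A.n = F.A.n := h.bas.n
  refine ⟨bas_swap h.bas, ?_, ?_, ?_, h.kap.symm, ?_, ?_, ?_, ?_⟩
  · rw [hn]; exact h.z
  · exact union_comm F.A.P F.B.P ▸ h.d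
  · rw [hn]; exact h.rng
  · rw [hn, sw_dom]; exact h.clo
  · rw [sw_dom]; exact h.stp
  · rw [hn]; simp only [sw_low]; exact h.att
  · rw [hn, sw_core, sw_row, sw_row]
    intro c
    have c2 := flip hN c
    rw [sg_rev, sg_rev, List.reverse_reverse] at c2
    exact h.flat c2

theorem row_iff (h : Str H U I D F Z pos) {e : ℕ} (he : e ≤ F.A.n) {v : V} :
    v ∈ F.row e ↔ v ∈ F.dom Z ∧ pos v = 2 * e := by
  have heb : e ≤ F.B.n := h.bas.n ▸ he
  constructor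
  · rintro ((k | k) | k)
    · obtain ⟨k1, k2⟩ := (h.bas.a.col e he v).1 k
      exact ⟨Or.inl (Or.inr k1), (h.kap.1 v k1).trans k2⟩
    · exact ⟨Or.inl (Or.inl (h.z.2 e he k)), ((h.rng v (h.z.2 e he k)).2 e he).2 k⟩
    · obtain ⟨k1, k2⟩ := (h.bas.b.col e heb v).1 k
      exact ⟨Or.inr k1, (h.kap.2 v k1).trans k2⟩
  · rintro ⟨(k | k) | k, k2⟩
    · exact Or.inl (Or.inr (((h.rng v k).2 e he).1 k2))
    · exact Or.inl (Or.inl ((h.bas.a.col e he v).2 ⟨k, (h.kap.1 v k).symm.trans k2⟩))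
    · exact Or.inr ((h.bas.b.col e heb v).2 ⟨k, (h.kap.2 v k).symm.trans k2⟩)

theorem nbr (h : Str H U I D F Z pos) {u v : V} (hu : u ∈ F.A.P) (hv : v ∈ F.dom Z)
    (e : H.Adj u v) : v ∈ F.A.P ∨ (v ∈ Z ∧ F.A.lev u = 0) := by
  rcases hv with (k | k) | k
  · exact Or.inr ⟨k, (ring_lev h.bas.a (Nat.zero_le _) (h.bas.a.foot u hu v (h.z.1 k).1 e)).2.1⟩
  · exact Or.inl k
  · exact absurd ⟨u, hu, v, k, e⟩ h.bas.dis.2

/-- the strip without the first ring and the two end rows -/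
def Wd (F : FD V) (Z : Set V) : Set V := F.dom Z \ (F.A.ring 1 ∪ F.row 0 ∪ F.row F.A.n)

/-- the part above the first ring -/
def Hi (H : SimpleGraph V) (F : FD V) (Z : Set V) : Set V := lk H (Wd F Z) (ls F.A.opn)

theorem wd_iff (h : Str H U I D F Z pos) {v : V} :
    v ∈ Wd F Z ↔ v ∈ F.dom Z ∧ v ∉ F.A.ring 1 ∧ pos v ≠ 0 ∧ pos v ≠ 2 * F.A.n := by
  simp only [Wd, mem_sdiff, mem_union, row_iff h (Nat.zero_le _), row_iff h le_rfl]
  tauto

theorem hi_sub (h : Str H U I D F Z pos) (hn : 2 ≤ F.A.n) {v : V} (hv : v ∈ Hi H F Z) :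
    v ∈ F.A.P ∧ 1 ≤ F.A.lev v := by
  obtain ⟨h1, a, h2, h3, h4⟩ := hv
  have s3 := h.bas.s.1
  clear h1
  induction h4 with
  | refl =>
    obtain ⟨k1, k2, -⟩ := opn_mem h.bas.a (by omega) h2
    exact ⟨k1, by omega⟩
  | @tail x y _ e ih =>
    rcases nbr h ih.1 e.2.1.1 e.2.2 with k | k
    · refine ⟨k, ?_⟩
      obtain ⟨-, k1, k2⟩ := h.bas.a.stp y k x ih.1 e.2.2.symm
      by_contra c
      have c1 : F.A.lev x = 1 := by omega
      exact ((wd_iff h).1 e.1).2.1 (c1 ▸ k2 (by omega))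
    · omega

theorem up_hi (h : Str H U I D F Z pos) {e : ℕ} (h0 : 0 < e) (h1 : e < F.A.n) :
    F.A.up 2 e ⊆ Hi H F Z := by
  have s3 := h.bas.s.1
  refine conn_lk (up_conn h.bas.a (by omega) h1.le) (fun v hv => ?_) (o_up h.bas.a h1.le)
    (o_opn h.bas.a h0 h1)
  obtain ⟨k1, k2⟩ := (row_iff h h1.le).1 (Or.inl (Or.inl (up_col hv)))
  refine (wd_iff h).2 ⟨k1, fun c => ?_, by omega, by omega⟩
  have := up_lev h.bas.a (by omega) h1.le hv
  have := (ring_lev h.bas.a (by omega) c).2.1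
  omega

theorem col_hi (h : Str H U I D F Z pos) {v : V} {e : ℕ} (he : e ≤ F.A.n) (hv : v ∈ F.A.col e)
    (hw : v ∈ Wd F Z) (hl : 1 ≤ F.A.lev v) : 0 < e ∧ e < F.A.n ∧ v ∈ F.A.up 2 e := by
  obtain ⟨-, k2⟩ := (row_iff h he).1 (Or.inl (Or.inl hv))
  obtain ⟨-, w1, w2, w3⟩ := (wd_iff h).1 hw
  refine ⟨by omega, by omega, ?_⟩
  rcases hv with k | ⟨l, -, l2, l3⟩
  · exact Or.inl k
  · have l4 := ((h.bas.a.cell l l2 e he).2 v l3).1
    have l5 : l ≠ 1 := fun c => w1 ⟨e, he, c ▸ l3⟩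
    exact c_up (by omega) l2 l3

theorem reach (h : Str H U I D F Z pos) (hn : 2 ≤ F.A.n) {v : V} (hv : v ∈ Hi H F Z)
    (hl : F.A.lev v < F.A.s) :
    ∃ e, 0 < e ∧ e < F.A.n ∧ v ∈ F.core ∧ Link H (Hi H F Z ∩ F.core) v (F.A.o e) := by
  have s3 := h.bas.s.1
  obtain ⟨a, a1, a2, a3⟩ := lk_link hv
  obtain ⟨x, y, x1, y1, x2, y2, e, k⟩ := link_exit (T := {x | F.A.lev x < F.A.s}) a3.symm hl
    (by have := (opn_mem h.bas.a (by omega) a1).2.1; simp only [mem_ofPred_eq]; omega)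
  simp only [mem_ofPred_eq] at x2 y2
  obtain ⟨x3, -⟩ := hi_sub h hn x1
  obtain ⟨y3, y4⟩ := hi_sub h hn y1
  obtain ⟨-, k1, k2⟩ := h.bas.a.stp x x3 y y3 e
  have y5 := (h.bas.a.rng y y3).1
  obtain ⟨i, i1, i2⟩ := k2 (by omega)
  obtain ⟨j0, j1, j2⟩ := col_hi h i1 (c_up (Nat.zero_le _) y5 i2) y1.1 y4
  have sub : F.A.up 2 i ⊆ Hi H F Z ∩ F.core := fun w hw =>
    ⟨up_hi h j0 j1 hw, Or.inl (Or.inl (Or.inl ⟨i, i1, up_col hw⟩))⟩
  have low : Hi H F Z ∩ {x | F.A.lev x < F.A.s} ⊆ Hi H F Z ∩ F.core := fun w hw =>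
    ⟨hw.1, Or.inl (Or.inr ⟨(hi_sub h hn hw.1).1, hw.2⟩)⟩
  exact ⟨i, j0, j1, (low ⟨hv, hl⟩).2, (k.mono low).trans ((Link.single (low ⟨x1, x2⟩) (sub j2) e).trans
    (((up_conn h.bas.a (by omega) i1).2 _ j2 _ (o_up h.bas.a i1)).mono sub))⟩

/-- top vertices that are cut off from the letters -/
def Kk (H : SimpleGraph V) (F : FD V) (Z : Set V) : Set V :=
  {v | v ∈ F.A.P ∧ F.A.lev v = F.A.s ∧ v ∉ Hi H F Z ∧ v ∉ F.row 0 ∧ v ∉ F.row F.A.n}

theorem kk_wd (h : Str H U I D F Z pos) {v : V} (hv : v ∈ Kk H F Z) : v ∈ Wd F Z := by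
  obtain ⟨h1, h2, -, h4, h5⟩ := hv
  have s3 := h.bas.s.1
  refine ⟨Or.inl (Or.inr h1), ?_⟩
  rintro ((c | c) | c)
  · have := (ring_lev h.bas.a (by omega) c).2.1
    omega
  · exact h4 c
  · exact h5 c

theorem kk_odd (h : Str H U I D F Z pos) {v : V} (hv : v ∈ Kk H F Z) : pos v % 2 = 1 := by
  by_contra c
  have s3 := h.bas.s.1
  have k1 := h.kap.1 v hv.1
  have k2 := (h.bas.a.rng v hv.1).2
  have k3 := hv.2.1
  have he : pos v / 2 ≤ F.A.n := by omega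
  obtain ⟨j0, j1, j2⟩ := col_hi h he ((h.bas.a.col _ he v).2 ⟨hv.1, by omega⟩) (kk_wd h hv)
    (by omega)
  exact hv.2.2.1 (up_hi h j0 j1 j2)

theorem kk_step (h : Str H U I D F Z pos) {u v : V} (hu : u ∈ Kk H F Z) (hv : v ∈ F.dom Z)
    (h0 : v ∉ F.row 0) (h1 : v ∉ F.row F.A.n) (e : H.Adj u v) :
    v ∈ Kk H F Z ∧ pos v = pos u := by
  have s3 := h.bas.s.1
  have u2 := hu.2.1
  have k : v ∈ Kk H F Z := by
    rcases nbr h hu.1 hv e with k | k
    · refine ⟨k, ?_, fun c => hu.2.2.1 (lk_closed c (kk_wd h hu) e.symm), h0, h1⟩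
      obtain ⟨-, k1, k2⟩ := h.bas.a.stp v k u hu.1 e.symm
      have k3 := (h.bas.a.rng v k).1
      by_contra c
      obtain ⟨i, i1, i2⟩ := k2 (by omega)
      obtain ⟨j0, j1, j2⟩ := col_hi h i1 (c_up (Nat.zero_le _) u2.le i2) (kk_wd h hu) (by omega)
      exact hu.2.2.1 (up_hi h j0 j1 j2)
    · omega
  have o1 := kk_odd h hu
  have o2 := kk_odd h k
  have o3 := h.stp u (kk_wd h hu).1 v hv e
  unfold LSt at o3
  exact ⟨k, by omega⟩

theorem kk_path (h : Str H U I D F Z pos) {f : ℕ → V} {l i j : ℕ} (hf : IsPath H (F.dom Z) f l)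
    (hi : f i ∈ Kk H F Z) (hij : i ≤ j) (hj : j ≤ l)
    (hr : ∀ x, i < x → x ≤ j → f x ∉ F.row 0 ∧ f x ∉ F.row F.A.n) :
    f j ∈ Kk H F Z ∧ pos (f j) = pos (f i) := by
  induction j, hij using Nat.le_induction with
  | base => exact ⟨hi, rfl⟩
  | succ j hij ih =>
    obtain ⟨k1, k2⟩ := ih (by omega) fun x x1 x2 => hr x x1 (by omega)
    obtain ⟨r0, r1⟩ := hr (j + 1) (by omega) le_rfl
    obtain ⟨k3, k4⟩ := kk_step h k1 (hf.1 _ hj) r0 r1 (hf.2.1 j (by omega))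
    exact ⟨k3, k4.trans k2⟩

theorem path_rev {S : Set V} {f : ℕ → V} {l : ℕ} (hf : IsPath H S f l) :
    IsPath H S (fun i => f (l - i)) l := by
  refine ⟨fun j _ => hf.1 _ (by omega), fun j hj => ?_, fun i hi j hj e => ?_⟩
  · have := (hf.2.1 (l - (j + 1)) (by omega)).symm
    rwa [show l - (j + 1) + 1 = l - j by omega] at this
  · have := hf.2.2 _ (by omega) _ (by omega) e
    omega

theorem f_kk (h : Str H U I D F Z pos) (hn : 2 ≤ F.A.n) {f : ℕ → V} {l i : ℕ}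
    (hf : IsPath H (F.dom Z) f l) (h0 : f 0 ∈ F.row 0) (h1 : f l ∈ F.row F.A.n)
    (hr : ∀ x, 0 < x → x < l → f x ∉ F.row 0 ∧ f x ∉ F.row F.A.n) (i0 : 0 < i) (i1 : i < l) :
    f i ∉ Kk H F Z := by
  intro c
  obtain ⟨a1, a2⟩ := kk_path h hf c (j := l - 1) (by omega) (by omega)
    fun x x1 x2 => hr x (by omega) (by omega)
  obtain ⟨b1, b2⟩ := kk_path h (path_rev hf) (i := l - i) (j := l - 1)
    (by rwa [show l - (l - i) = i by omega]) (by omega) (by omega)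
    fun x x1 x2 => hr _ (by omega) (by omega)
  rw [show l - (l - 1) = 0 + 1 by omega] at b1 b2
  rw [show l - (l - i) = i by omega] at b2
  have c1 := h.stp _ (hf.1 (l - 1) (by omega)) _ (hf.1 _ (by omega)) (hf.2.1 (l - 1) (by omega))
  have c2 := h.stp _ (hf.1 0 (by omega)) _ (hf.1 _ (by omega)) (hf.2.1 0 (by omega))
  rw [show l - 1 + 1 = l by omega] at c1
  have d1 := ((row_iff h (Nat.zero_le _)).1 h0).2
  have d2 := ((row_iff h le_rfl).1 h1).2
  have d3 := kk_odd h c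
  unfold LSt at c1 c2
  omega

theorem core_of (h : Str H U I D F Z pos) {v : V} (hv : v ∈ F.dom Z)
    (h0 : v ∉ F.row 0) (h1 : v ∉ F.row F.A.n) (a1 : v ∉ Hi H F Z) (a2 : v ∉ Kk H F Z)
    (b1 : v ∉ Hi H F.swap Z) (b2 : v ∉ Kk H F.swap Z) : v ∈ Z ∪ F.core := by
  rcases hv with (k | k) | k
  · exact Or.inl k
  · refine Or.inr (Or.inl (Or.inr ⟨k, ?_⟩))
    by_contra c
    exact a2 ⟨k, le_antisymm (h.bas.a.rng v k).1 (not_lt.1 c), a1, h0, h1⟩
  · refine Or.inr (Or.inr ⟨k, ?_⟩)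
    by_contra c
    refine b2 ⟨k, le_antisymm (h.bas.b.rng v k).1 (not_lt.1 c), b1, ?_, ?_⟩
    · rwa [sw_row]
    · rw [sw_row, show F.swap.A.n = F.A.n from h.bas.n]; exact h1

theorem row_core (h : Str H U I D F Z pos) {e : ℕ} (he : e ≤ F.A.n) : F.row e ⊆ Z ∪ F.core := by
  rintro v ((k | k) | k)
  · exact Or.inr (Or.inl (Or.inl (Or.inl ⟨e, he, k⟩)))
  · exact Or.inl (h.z.2 e he k)
  · exact Or.inr (Or.inl (Or.inl (Or.inr ⟨e, h.bas.n ▸ he, k⟩)))

theorem g_end (h : Str H U I D F Z pos) (hn : 2 ≤ F.A.n) {u v : V} (hu : u ∈ Hi H F Z)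
    (hv : v ∈ F.dom Z) (h0 : v ∉ F.row 0) (h1 : v ∉ F.row F.A.n) (h2 : v ∉ Hi H F Z)
    (e : H.Adj u v) :
    ∃ X ⊆ Hi H F Z ∩ F.core, Conn H X ∧ u ∈ X ∧ ∃ i, 0 < i ∧ i < F.A.n ∧ F.A.o i ∈ X := by
  have s3 := h.bas.s.1
  have r : v ∈ F.A.ring 1 := by
    by_contra c
    refine h2 (lk_closed hu ⟨hv, ?_⟩ e)
    rintro ((k | k) | k)
    exacts [c k, h0 k, h1 k]
  obtain ⟨r1, r2, -⟩ := ring_lev h.bas.a (by omega) r
  have k := (h.bas.a.stp v r1 u (hi_sub h hn hu).1 e.symm).2.1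
  obtain ⟨i, i0, i1, i2, i3⟩ := reach h hn hu (by omega)
  exact ⟨cp H _ u, cp_sub, cp_conn ⟨hu, i2⟩, cp_self ⟨hu, i2⟩, i, i0, i1, i3.mem ⟨hu, i2⟩, i3⟩

theorem hi_row (v : V) (hv : v ∈ Hi H F Z) : v ∉ F.row 0 ∧ v ∉ F.row F.A.n :=
  ⟨fun c => hv.1.2 (Or.inl (Or.inr c)), fun c => hv.1.2 (Or.inr c)⟩

theorem row_dis (h : Str H U I D F Z pos) (hn : 2 ≤ F.A.n) :
    Disjoint (F.row 0) (F.row F.A.n) := by
  refine disjoint_left.2 fun v a b => ?_
  have := ((row_iff h (Nat.zero_le _)).1 a).2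
  have := ((row_iff h le_rfl).1 b).2
  omega

theorem conn_meet {S T : Set V} {x : V} (h : Conn H S) (h' : Conn H T) (a : x ∈ S) (b : x ∈ T) :
    Conn H (S ∪ T) := by
  refine conn_of_center (Or.inl a) ?_
  rintro v (hv | hv)
  · exact (h.2 _ a _ hv).mono subset_union_left
  · exact (h'.2 _ b _ hv).mono subset_union_right

theorem mid (hN : NfS) (h : Str H U I D F Z pos) (hn : 2 ≤ F.A.n) :
    ¬ PX H (F.dom Z) [F.row 0, Hi H F Z, F.row F.A.n, Hi H F.swap Z] := by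
  intro c
  have h' := str_swap hN h
  have en : F.swap.A.n = F.A.n := h.bas.n
  have hn' : 2 ≤ F.swap.A.n := en ▸ hn
  have rb : ∀ v ∈ Hi H F.swap Z, v ∉ F.row 0 ∧ v ∉ F.row F.A.n := fun v hv => by
    have := hi_row v hv
    rwa [sw_row, sw_row, en] at this
  have ab : ∀ v ∈ Hi H F Z, v ∉ Hi H F.swap Z := fun v a b =>
    disjoint_left.1 h.bas.dis.1 (hi_sub h hn a).1 (hi_sub h' hn' b).1
  have pw : [F.row 0, Hi H F Z, F.row F.A.n, Hi H F.swap Z].Pairwise Disjoint := by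
    simp only [List.pairwise_cons, List.mem_cons, List.not_mem_nil, or_false, forall_eq_or_imp,
      forall_eq, false_imp_iff, implies_true, List.Pairwise.nil, and_true]
    exact ⟨⟨disjoint_right.2 fun v a => (hi_row v a).1, row_dis h hn,
      disjoint_right.2 fun v a => (rb v a).1⟩, ⟨disjoint_left.2 fun v a => (hi_row v a).2,
      disjoint_left.2 ab⟩, disjoint_right.2 fun v a => (rb v a).2⟩
  obtain ⟨a, b, c, d, sl, f, g, l, m, hf, hg, l0, m0, f0, f1, g0, g1, fg, fi, gi⟩ :=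
    (hN V H _).1 _ pw c
  have e4 := sl.eq_of_length rfl
  simp only [List.cons.injEq, and_true] at e4
  obtain ⟨rfl, rfl, rfl, rfl⟩ := e4
  simp only [un, mem_ofPred_eq, List.mem_cons, List.not_mem_nil, or_false, exists_eq_or_imp,
    exists_eq_left, not_or] at fi gi
  have gr : ∀ j ≤ m, g j ∉ F.row 0 ∧ g j ∉ F.row F.A.n := fun j hj => by
    rcases Nat.eq_zero_or_pos j with rfl | j0
    · exact hi_row _ g0
    rcases hj.lt_or_eq with j1 | rfl
    · exact ⟨(gi j j0 j1).1, (gi j j0 j1).2.2.1⟩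
    · exact rb _ g1
  have fr : ∀ i ≤ l, f i ∈ Z ∪ F.core ∧ f i ∉ Hi H F Z ∧ f i ∉ Hi H F.swap Z := fun i hi => by
    rcases Nat.eq_zero_or_pos i with rfl | i0
    · exact ⟨row_core h (Nat.zero_le _) f0, fun c => (hi_row _ c).1 f0, fun c => (rb _ c).1 f0⟩
    rcases hi.lt_or_eq with i1 | rfl
    · obtain ⟨k1, k2, k3, k4⟩ := fi i i0 i1
      refine ⟨core_of h (hf.1 i hi) k1 k3 k2
        (f_kk h hn hf f0 f1 (fun x x0 x1 => ⟨(fi x x0 x1).1, (fi x x0 x1).2.2.1⟩) i0 i1) k4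
        (f_kk h' hn' (sw_dom (F := F) ▸ hf) ?_ ?_ (fun x x0 x1 => ?_) i0 i1), k2, k4⟩
      · rwa [sw_row]
      · rwa [sw_row, en]
      · rw [sw_row, sw_row, en]; exact ⟨(fi x x0 x1).1, (fi x x0 x1).2.2.1⟩
    · exact ⟨row_core h le_rfl f1, fun c => (hi_row _ c).2 f1, fun c => (rb _ c).2 f1⟩
  obtain ⟨X, X1, X2, X3, i, i0, i1, X4⟩ := g_end h hn g0 (hg.1 (0 + 1) m0) (gr _ m0).1 (gr _ m0).2
    (by
      rcases (show 0 + 1 ≤ m from m0).lt_or_eq with j1 | j1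
      · exact (gi _ (by omega) j1).2.1
      · rw [j1]; exact fun c => ab _ c g1) (hg.2.1 0 m0)
  obtain ⟨Y, Y1, Y2, Y3, j, j0, j1, Y4⟩ := g_end h' hn' g1 (v := g (m - 1))
    (sw_dom (F := F) ▸ hg.1 _ (by omega)) (by rw [sw_row]; exact (gr _ (by omega)).1)
    (by rw [sw_row, en]; exact (gr _ (by omega)).2)
    (by
      rcases Nat.eq_zero_or_pos (m - 1) with j1 | j1
      · rw [j1]; exact ab _ g0
      · exact (gi _ j1 (by omega)).2.2.2)
    (by have := (hg.2.1 (m - 1) (by omega)).symm; rwa [show m - 1 + 1 = m by omega] at this)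
  rw [sw_core] at Y1
  rw [en] at j1
  have gc : ∀ x ≤ m, g x ∈ Z ∪ F.core := fun x hx => by
    rcases Nat.eq_zero_or_pos x with rfl | x0
    · exact Or.inr (X1 X3).2
    rcases hx.lt_or_eq with x1 | rfl
    · obtain ⟨k1, k2, k3, k4⟩ := gi x x0 x1
      refine core_of h (hg.1 x hx) k1 k3 k2 (fun c => ?_) k4 fun c => ?_
      · exact disjoint_left.1 h.bas.dis.1
          (kk_path h hg c hx le_rfl fun y _ y2 => gr y y2).1.1 (hi_sub h' hn' g1).1
      · have := (kk_path h' (path_rev (sw_dom (F := F) ▸ hg)) (i := m - x) (j := m)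
          (by rwa [show m - (m - x) = x by omega]) (by omega) le_rfl fun y _ y2 => by
            rw [sw_row, sw_row, en]; exact gr _ (by omega)).1.1
        rw [Nat.sub_self] at this
        exact disjoint_left.1 h.bas.dis.1 (hi_sub h hn g0).1 this
    · exact Or.inr (Y1 Y3).2
  have dis : Disjoint (f '' Icc 0 l) (g '' Icc 0 m ∪ X ∪ Y) := by
    refine disjoint_left.2 ?_
    rintro _ ⟨x, hx, rfl⟩ ((⟨y, hy, k⟩ | k) | k)
    · exact fg x hx.2 y hy.2 k.symm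
    · exact (fr x hx.2).2.1 (X1 k).1
    · exact (fr x hx.2).2.2 (Y1 k).1
  have qr : ∀ v ∈ g '' Icc 0 m ∪ X ∪ Y, v ∉ F.row 0 ∧ v ∉ F.row F.A.n := by
    rintro _ ((⟨y, hy, rfl⟩ | k) | k)
    exacts [gr y hy.2, hi_row _ (X1 k).1, rb _ (Y1 k).1]
  have sing : ∀ L : List V, ∀ s ∈ sg L,
      Disjoint (f '' Icc 0 l) s ∨ Disjoint (g '' Icc 0 m ∪ X ∪ Y) s := by
    intro L s hs
    obtain ⟨x, -, rfl⟩ := List.mem_map.1 hs
    by_cases k : x ∈ f '' Icc 0 l
    · exact Or.inr (disjoint_singleton_right.2 (disjoint_left.1 dis k))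
    · exact Or.inl (disjoint_singleton_right.2 k)
  refine h.flat ⟨F.row 0, {F.A.o i}, F.row F.A.n, {F.B.o j}, ?_, f '' Icc 0 l,
    g '' Icc 0 m ∪ X ∪ Y, ⟨?_, ?_, conn_seg (Nat.zero_le _) fun x _ k => hf.2.1 x k, ?_, dis⟩,
    ⟨_, ⟨0, left_mem_Icc.2 (Nat.zero_le _), rfl⟩, f0⟩,
    ⟨_, ⟨l, right_mem_Icc.2 (Nat.zero_le _), rfl⟩, f1⟩, ⟨_, Or.inl (Or.inr X4), rfl⟩,
    ⟨_, Or.inr Y4, rfl⟩, ?_⟩
  · refine List.Sublist.append (l₁ := [_, _]) (r₁ := [_, _]) ?_ ?_ <;>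
      refine List.Sublist.cons_cons _ (List.singleton_sublist.2 (List.mem_map.2 ⟨_, ?_, rfl⟩))
    · exact List.mem_map.2 ⟨i, List.mem_range'_1.2 (by omega), rfl⟩
    · exact List.mem_reverse.2 (List.mem_map.2 ⟨j, List.mem_range'_1.2 (by omega), rfl⟩)
  · rintro _ ⟨x, hx, rfl⟩
    exact (fr x hx.2).1
  · rintro _ ((⟨y, hy, rfl⟩ | k) | k)
    exacts [gc y hy.2, Or.inr (X1 k).2, Or.inr (Y1 k).2]
  · exact conn_meet (conn_meet (conn_seg (Nat.zero_le _) fun x _ k => hg.2.1 x k) X2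
      ⟨0, left_mem_Icc.2 (Nat.zero_le _), rfl⟩ X3) Y2
      (Or.inl ⟨m, right_mem_Icc.2 (Nat.zero_le _), rfl⟩) Y3
  · intro s hs
    simp only [List.cons_append, List.mem_cons, List.mem_append] at hs
    rcases hs with rfl | hs | rfl | hs
    · exact Or.inr (disjoint_left.2 fun v k => (qr v k).1)
    · exact sing _ s hs
    · exact Or.inr (disjoint_left.2 fun v k => (qr v k).2)
    · exact sing _ s hs

theorem hi_swap (h : Str H U I D F Z pos) : Hi H F.swap Z =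
    lk H (F.dom Z \ (F.B.ring 1 ∪ F.row 0 ∪ F.row F.A.n)) (ls F.B.opn) := by
  unfold Hi Wd
  rw [sw_dom, sw_row, sw_row, show F.swap.A.n = F.A.n from h.bas.n]
  rfl

theorem out [Finite V] (hO : OutS) (h : Str H U I D F Z pos) (hn : 2 ≤ F.A.n) {T : Set V}
    (hT : T ⊆ F.B.P) (ho : ∀ e, 0 < e → e < F.A.n → F.B.o e ∈ T) :
    ¬ PX H (F.dom Z) (F.row 0 :: sg F.A.opn ++ [F.row F.A.n, lk H (Wd F Z) T]) := by
  have s3 := h.bas.s.1
  refine hO V H U I D F Z pos _ h hn (fun v hv => hv.1) (fun u hu v hv e => lk_closed hu hv e)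
    (fun e e0 e1 => ?_) ?_
  · have eb : e ≤ F.B.n := h.bas.n ▸ e1.le
    obtain ⟨j1, j2, -, j3⟩ := h.bas.j e e1.le
    refine subset_union_left.trans (conn_lk (conn_union_touch j2 (up_conn h.bas.b (Nat.zero_le _) eb)
      (j3.mono subset_rfl (c_up le_rfl (Nat.zero_le _)))) (fun v hv => ?_)
      (Or.inr (o_up h.bas.b eb)) (ho e e0 e1))
    obtain ⟨k1, k2⟩ := (row_iff h e1.le (v := v)).1 (hv.elim (fun k => Or.inl (Or.inr k)) Or.inr)
    refine (wd_iff h).2 ⟨k1, fun c => ?_, by omega, by omega⟩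
    have c1 := (ring_lev h.bas.a (by omega) c).1
    rcases hv with k | k
    · exact (h.bas.a.sub c1).2 (j1 k)
    · exact disjoint_left.1 h.bas.dis.1 c1 ((h.bas.b.col e eb v).1 k).1
  · rintro v ⟨v1, v2⟩
    obtain ⟨a, a1, -, a3⟩ := lk_link v1
    obtain ⟨x, y, x1, y1, x2, y2, e, k⟩ := link_exit (T := F.A.P) a3.symm v2
      (disjoint_right.1 h.bas.dis.1 (hT a1))
    rcases nbr h x2 y1.1.1 e with c | c
    · exact absurd c y2
    · exact ⟨v1, y, (h.z.1 c.1).1, y1,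
        (Link.single y1 x1 e.symm).trans (k.mono inter_subset_left).symm⟩

theorem pw_sg {L : List V} (h : L.Nodup) : (sg L).Pairwise Disjoint :=
  List.pairwise_map.2 (h.imp fun k => disjoint_singleton.2 k)

theorem ports {a b : Set V} {X Y : List (Set V)} (hX : X.Pairwise Disjoint)
    (hY : Y.Pairwise Disjoint) (ab : Disjoint a b)
    (h1 : ∀ v ∈ un X, v ∉ a ∧ v ∉ b ∧ v ∉ un Y) (h2 : ∀ v ∈ un Y, v ∉ a ∧ v ∉ b) :
    (a :: X ++ b :: Y).Pairwise Disjoint := by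
  simp only [List.cons_append, List.pairwise_cons, List.pairwise_append, List.mem_append,
    List.mem_cons]
  refine ⟨?_, hX, ⟨fun s hs => disjoint_right.2 fun v k => (h2 v ⟨s, hs, k⟩).2, hY⟩, ?_⟩
  · rintro s (hs | rfl | hs)
    exacts [disjoint_right.2 fun v k => (h1 v ⟨s, hs, k⟩).1, ab,
      disjoint_right.2 fun v k => (h2 v ⟨s, hs, k⟩).1]
  · rintro s hs t (rfl | ht)
    exacts [disjoint_left.2 fun v k => (h1 v ⟨s, hs, k⟩).2.1,
      disjoint_left.2 fun v k k' => (h1 v ⟨s, hs, k⟩).2.2 ⟨t, ht, k'⟩]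

theorem un_four {a b W : Set V} {X Y : List (Set V)} (ha : a ⊆ W) (hb : b ⊆ W) (hX : un X ⊆ W)
    (hY : un Y ⊆ W) : un (a :: X ++ b :: Y) ⊆ W := by
  rintro v ⟨s, hs, k⟩
  simp only [List.cons_append, List.mem_cons, List.mem_append] at hs
  rcases hs with rfl | hs | rfl | hs
  exacts [ha k, hX ⟨s, hs, k⟩, hb k, hY ⟨s, hs, k⟩]

theorem opn_wd (h : Str H U I D F Z pos) (hn : 2 ≤ F.A.n) {v : V} (hv : v ∈ F.A.opn) :
    v ∈ Hi H F Z := by
  obtain ⟨k1, -, k3, k4, k5⟩ := opn_mem h.bas.a (by omega) hv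
  have s3 := h.bas.s.1
  have k6 := h.kap.1 v k1
  have w : v ∈ Wd F Z := (wd_iff h).2 ⟨Or.inl (Or.inr k1),
    fun c => (ring_lev h.bas.a (by omega) c).2.2 k5, by omega, by omega⟩
  exact ⟨w, v, hv, w, Link.refl _ _ _⟩

theorem ring_row (h : Str H U I D F Z pos) {e : ℕ} (he : e ≤ F.A.n) :
    (F.A.ring 1 ∩ F.row e).Nonempty := by
  have s3 := h.bas.s.1
  obtain ⟨v, hv⟩ := (h.bas.a.cell 1 (by omega) e he).1.1
  exact ⟨v, ⟨e, he, hv⟩, Or.inl (Or.inl (c_up (Nat.zero_le _) (by omega) hv))⟩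

/-- one use of locality -/
theorem loc [Finite V] (hL : LocS) (hO : OutS) (h : Str H U I D F Z pos) (hn : 2 ≤ F.A.n)
    {Y : List (Set V)} (hY : Y.Pairwise Disjoint)
    (h1 : ∀ v ∈ un Y, v ∈ F.B.P ∧ v ∉ F.row 0 ∧ v ∉ F.row F.A.n)
    (h2 : ∀ e, 0 < e → e < F.A.n → F.B.o e ∈ un Y)
    (h3 : ¬ PX H (F.dom Z) (F.row F.A.n :: Y ++ [F.row 0, Hi H F Z])) :
    ¬ PX H (F.dom Z) (F.row 0 :: sg F.A.opn ++ F.row F.A.n :: Y) := by
  have s3 := h.bas.s.1
  have rp : ∀ v ∈ F.A.ring 1, v ∈ F.A.P := fun v k => (ring_lev h.bas.a (by omega) k).1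
  refine hL V H _ (F.A.ring 1) (Hi H F Z) (lk H (Wd F Z) (un Y)) _ _ _ _ ?_ ?_
    (fun v k => Or.inl (Or.inr (rp v k))) (ring_conn h.bas.a (by omega))
    (ring_row h (Nat.zero_le _)) (ring_row h le_rfl) ?_ ?_ (by rw [un_sg]; rfl) rfl
    (out hO h hn (fun v k => (h1 v k).1) h2) h3
  · refine ports (pw_sg (opn_nd h.bas.a (by omega)).1) hY (row_dis h hn) ?_ fun v k => (h1 v k).2
    rw [un_sg]
    intro v k
    have k2 := opn_wd h hn k
    exact ⟨(hi_row v k2).1, (hi_row v k2).2,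
      fun c => disjoint_left.1 h.bas.dis.1 (hi_sub h hn k2).1 (h1 v c).1⟩
  · refine un_four (fun v k => ((row_iff h (Nat.zero_le _)).1 k).1)
      (fun v k => ((row_iff h le_rfl).1 k).1) ?_ fun v k => Or.inr (h1 v k).1
    rw [un_sg]
    exact fun v k => (opn_wd h hn k).1.1
  · rw [un_sg]
    exact disjoint_right.2 fun v k c => (opn_wd h hn k).1.2 (Or.inl (Or.inl c))
  · exact disjoint_left.2 fun v k c => disjoint_left.1 h.bas.dis.1 (rp v k) (h1 v c).1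

end TopAux

open TopAux

theorem midS (hN : NfS) : MidS := by
  intro V _ H U I D F Z pos h hn
  rw [← hi_swap h]
  exact mid hN h hn

theorem topS (hN : NfS) (hL : LocS) (hO : OutS) (hM : MidS) : TopS := by
  intro V _ H U I D F Z pos h hn
  have h' := str_swap hN h
  have en : F.swap.A.n = F.A.n := h.bas.n
  have hn' : 2 ≤ F.swap.A.n := en ▸ hn
  have u1 : un [Hi H F Z] = Hi H F Z := by ext v; simp [un]
  have k := loc hL hO h' hn' (Y := [Hi H F Z]) (List.pairwise_singleton _ _) ?_ ?_ ?_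
  · refine loc hL hO h hn (pw_sg (List.nodup_reverse.2 (opn_nd h'.bas.a (by omega)).1)) ?_ ?_ ?_
    · rw [un_sg, ls_rev]
      intro v c
      have c2 := opn_wd h' hn' c
      have c3 := hi_row v c2
      rw [sw_row, sw_row, en] at c3
      exact ⟨(hi_sub h' hn' c2).1, c3⟩
    · rw [un_sg, ls_rev]
      exact fun e e0 e1 => o_opn h.bas.b e0 (h.bas.n ▸ e1)
    · rw [sw_dom, sw_row, sw_row, en] at k
      intro c
      have c2 := (hN V H _).2.2.2.1 _ c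
      refine k ((hN V H _).2.2.1 _ _ ?_ c2)
      have e : (F.row F.A.n :: sg F.B.opn.reverse ++ [F.row 0, Hi H F Z]).reverse =
          [Hi H F Z] ++ (F.row 0 :: sg F.B.opn ++ [F.row F.A.n]) := by simp [sg]
      rw [e]
      refine List.isRotated_append.trans ?_
      simp only [FD.swap, List.cons_append, List.append_assoc, List.nil_append]
      exact List.IsRotated.refl _
  · rw [u1, sw_row, sw_row, en]
    exact fun v c => ⟨(hi_sub h hn c).1, hi_row v c⟩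
  · rw [u1, en]
    exact fun e e0 e1 => opn_wd h hn (o_opn h.bas.a e0 e1)
  · have m := hM V H U I D F Z pos h hn
    rw [← hi_swap h] at m
    rw [sw_dom, sw_row, sw_row, en]
    intro c
    have c2 := (hN V H _).2.2.2.1 _ c
    refine m ((hN V H _).2.2.1 _ _ ?_ c2)
    exact List.isRotated_append (l := [_]) (l' := [_, _, _])

end Pool.Agent.MP_9d78a0_co.st

end MrgPart3

-- ======== part 4: formerly Pool.Agent.MP_9d78a0_co.st.Asm
section MrgPart4

/-! The middle piece of a cut strip is put back. -/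

set_option autoImplicit false

namespace Pool.Agent.MP_9d78a0_co.st

open Set Function fb DoneAux

namespace AsmAux

variable {V : Type} {H H1 H2 : SimpleGraph V} {U U1 U2 S A D : Set V} {g q d : ℕ}

theorem one_rev {x : List V} (h : x.length ≤ 1) : x.reverse = x := by
  rcases x with _ | ⟨a, _ | ⟨b, x⟩⟩
  exacts [rfl, rfl, absurd h (by simp)]

theorem one_hd {x : List V} (h : x.length ≤ 1) (Y Z : List V) :
    List.Sublist x (hd (x ++ Y ++ Z)) := by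
  rcases x with _ | ⟨a, _ | ⟨b, x⟩⟩
  exacts [List.nil_sublist _, by simp [hd], absurd h (by simp)]

theorem one_lt {x : List V} (h : x.length ≤ 1) (Y : List V) : List.Sublist x (lt (Y ++ x)) := by
  rcases x with _ | ⟨a, _ | ⟨b, x⟩⟩
  exacts [List.nil_sublist _, by simp [lt], absurd h (by simp)]

theorem del_app (A : Set V) (L L' : List V) : del A (L ++ L') = del A L ++ del A L' :=
  List.filter_append _ _

theorem del_one (A : Set V) (x : V) : (del A [x]).length ≤ 1 := List.length_filter_le _ _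

theorem lin_eq (p : PD V) (u m : ℕ) :
    ∃ M, p.lin u (m + 1) = [p.o u] ++ M ++ [p.o (u + (m + 1))] :=
  ⟨_, by rw [PD.lin, List.range_succ_eq_map, List.flatMap_cons]; rfl⟩

theorem subs {f f' : List V → List V} (h : ∀ w, List.Sublist (f' w) (f w)) (ws : List (List V)) :
    ∀ t, Drawn H U (ws.map f ++ t) g q d → Drawn H U (ws.map f' ++ t) g q d := by
  induction ws with
  | nil => exact fun _ k => k
  | cons w ws ih =>
    exact fun t k => Kit.perm (ih (f' w :: t) (Kit.perm (Kit.sub k (h w)) List.perm_middle.symm))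
      List.perm_middle

theorem fin [Finite V] {ws : List (List V)} {α N : ℕ} (hA : A.ncard ≤ α) (hD : D.ncard ≤ N)
    (h : Drawn (res H (U \ (A ∪ D))) (U \ (A ∪ D)) (ws.map (del A)) (α + 2) α α) :
    Dn H U ws (α + (N + 4)) := by
  refine ⟨A ∪ D, (ncard_union_le _ _).trans (by omega), ?_⟩
  have k := subs (f := del A) (f' := del (A ∪ D)) (fun w => by
    rw [union_comm, ← del_del]; exact List.filter_sublist) ws [] (by rwa [List.append_nil])
  rw [List.append_nil] at k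
  exact Kit.mono k (by omega) (by omega) (by omega)

theorem split_del (s : Split (res H (U \ D)) H1 H2 (U \ D) U1 U2 S) (A : Set V) :
    Split (res H (U \ (A ∪ D))) (res H1 (U1 \ A)) (res H2 (U2 \ A)) (U \ (A ∪ D)) (U1 \ A)
      (U2 \ A) (S \ A) := by
  have k : ∀ u v, H1.Adj u v ∨ H2.Adj u v ↔ H.Adj u v ∧ u ∈ U \ D ∧ v ∈ U \ D := fun u v =>
    Iff.of_eq (congrArg (fun G : SimpleGraph V => G.Adj u v) s.sup)
  refine ⟨?_, s.dis.mono (fun _ _ h => h.1) fun _ _ h => h.1, res_tight _ _, res_tight _ _, ?_, ?_⟩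
  · ext u v
    constructor
    · intro h
      have a := (k u v).1 (h.imp (·.1) (·.1))
      have b : u ∉ A ∧ v ∉ A := h.elim (fun h => ⟨h.2.1.2, h.2.2.2⟩) fun h => ⟨h.2.1.2, h.2.2.2⟩
      exact ⟨a.1, ⟨a.2.1.1, fun c => c.elim b.1 a.2.1.2⟩, a.2.2.1, fun c => c.elim b.2 a.2.2.2⟩
    · rintro ⟨h, a, b⟩
      have a' : u ∉ A := fun c => a.2 (.inl c)
      have b' : v ∉ A := fun c => b.2 (.inl c)
      exact ((k u v).2 ⟨h, ⟨a.1, fun c => a.2 (.inr c)⟩, b.1, fun c => b.2 (.inr c)⟩).imp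
        (fun e => ⟨e, ⟨s.t1 u v e, a'⟩, s.t1 v u e.symm, b'⟩)
        fun e => ⟨e, ⟨s.t2 u v e, a'⟩, s.t2 v u e.symm, b'⟩
  · ext v
    have := Set.ext_iff.1 s.un v
    simp only [mem_union, mem_sdiff] at this ⊢
    tauto
  · ext v
    have := Set.ext_iff.1 s.int v
    simp only [mem_inter_iff, mem_sdiff] at this ⊢
    tauto

theorem mid_del [Finite V] (two : TwoS) {L : List V} (s : Soc H U L) (h : ¬ Cr H U L) (A : Set V)
    (d : ℕ) : Drawn (res H (U \ A)) (U \ A) [del A L] 0 0 d :=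
  Kit.mono (two V _ _ _ ⟨res_tight _ _, s.nd.filter _, fun x hx =>
    ⟨s.sub x (Del.mem_del.1 hx).1, (Del.mem_del.1 hx).2⟩⟩
    fun ⟨a, b, c, e, k, P, Q, t, r⟩ => h ⟨a, b, c, e, k.trans List.filter_sublist, P, Q,
      ⟨t.sp.trans sdiff_subset, t.sq.trans sdiff_subset, Del.conn_of_res t.cp,
        Del.conn_of_res t.cq, t.dis⟩, r⟩) le_rfl le_rfl (Nat.zero_le _)

theorem core {a1 a2 b1 b2 Y1 Y2 Am Bm p1 p2 r1 r2 R0 R1 : List V}
    (s : Split H H1 H2 U U1 U2 S) (hS : S ⊆ ls (a1 ++ Y1 ++ b1) ∪ ls (a2 ++ Y2 ++ b2))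
    (e1 : a1.length ≤ 1) (e2 : a2.length ≤ 1) (f1 : b1.length ≤ 1) (f2 : b2.length ≤ 1)
    (n : (a1 ++ Y1 ++ b1 ++ a2 ++ Y2 ++ b2 ++ Am ++ Bm ++ R0 ++ R1 ++ p1 ++ p2 ++ r1 ++ r2).Nodup)
    (m : Drawn H2 U2 [a1 ++ Am ++ a2 ++ Y2 ++ (b1 ++ Bm ++ b2).reverse ++ Y1.reverse] 0 0 d) :
    (Drawn H1 U1 [R0 ++ (r2.reverse ++ (a2 ++ Y2 ++ b2).reverse ++ p2),
        R1 ++ (p1 ++ (a1 ++ Y1 ++ b1) ++ r1.reverse)] g q d →
      Drawn H U [R1 ++ (p1 ++ (a1 ++ Am ++ a2) ++ p2) ++ R0 ++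
        (r1 ++ (b1 ++ Bm ++ b2) ++ r2).reverse] (g + 2) q d) ∧
    (Drawn H1 U1 [R1 ++ (p1 ++ (a1 ++ Y1 ++ b1) ++ r1.reverse) ++ R0.reverse ++
        (r2.reverse ++ (a2 ++ Y2 ++ b2).reverse ++ p2).reverse] g q d →
      Drawn H U [R1 ++ (p1 ++ (a1 ++ Am ++ a2) ++ p2) ++ R0 ++
        (r1 ++ (b1 ++ Bm ++ b2) ++ r2)] (g + 2) q d) ∧
    (Drawn H1 U1 [R0 ++ (p1 ++ (a1 ++ Y1 ++ b1) ++ r1.reverse) ++ R1.reverse ++
        (r2.reverse ++ (a2 ++ Y2 ++ b2).reverse ++ p2)] g q d →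
      Drawn H U [R0 ++ (p1 ++ (a1 ++ Am ++ a2) ++ p2), R1 ++ (r1 ++ (b1 ++ Bm ++ b2) ++ r2)]
        (g + 2) q d) := by
  classical
  have i1 := one_rev e1
  have i2 := one_rev e2
  have j1 := one_rev f1
  have j2 := one_rev f2
  have o := @List.Sublist.refl V
  rw [List.nodup_iff_count_le_one] at n
  have m1 : Drawn H2 U2 [(a1 ++ Y1 ++ b1).reverse ++ Am ++ (a2 ++ Y2 ++ b2) ++ Bm.reverse] 0 0 d :=
    Kit.turn (a1 ++ Am ++ a2 ++ Y2 ++ b2 ++ Bm.reverse) (b1 ++ Y1.reverse) m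
      (by simp [j1, j2]) (by simp [i1, j1])
  have m2 : Drawn H2 U2 [(a1 ++ Y1 ++ b1).reverse ++ Am ++ (b2 ++ Y2.reverse ++ a2).reverse ++
      Bm.reverse] 0 0 d := Kit.cast m1 (by simp [i2, j2])
  have S1 : S ⊆ ls ((a1 ++ Y1 ++ b1) ++ (a2 ++ Y2 ++ b2)) := fun x hx => List.mem_append.2 (hS hx)
  have S2 : S ⊆ ls ((a1 ++ Y1 ++ b1) ++ (b2 ++ Y2.reverse ++ a2)) := fun x hx =>
    List.mem_append.2 ((hS hx).imp id fun k => by
      simp only [ls, mem_ofPred_eq, List.mem_append, List.mem_reverse] at k ⊢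
      tauto)
  refine ⟨fun h => ?_, fun h => ?_, fun h => ?_⟩
  · have k := Kit.m2 (A := r1.reverse ++ R1 ++ p1) (B := p2 ++ R0 ++ r2.reverse) s S2
      (List.nodup_iff_count_le_one.2 fun x => by
        have := n x
        simp only [List.count_append, List.count_reverse] at this ⊢
        omega)
      (Kit.turn (R1 ++ p1) (a1 ++ Y1 ++ b1 ++ r1.reverse) (Kit.swap (Kit.turn (R0 ++ r2.reverse)
        (b2 ++ Y2.reverse ++ a2 ++ p2) h (by simp [i2, j2]) (by simp))) (by simp) (by simp)) m2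
    exact Kit.turn (b1 ++ r1.reverse) (R1 ++ p1 ++ a1 ++ Am ++ a2 ++ p2 ++ R0 ++ r2.reverse ++ b2 ++
      Bm.reverse) (Kit.sub k ((((((((one_lt f1 _).append (o _)).append (one_hd e1 _ _)).append
        (o _)).append (one_lt e2 _)).append (o _)).append (one_hd f2 _ _)).append (o _)))
      (by simp) (by simp [j1, j2])
  · have k := Kit.x2 (A := r1.reverse ++ R0.reverse ++ p2.reverse) (B := r2 ++ R1 ++ p1) s S1
      (List.nodup_iff_count_le_one.2 fun x => by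
        have := n x
        simp only [List.count_append, List.count_reverse] at this ⊢
        omega)
      (Kit.turn (R1 ++ p1) (a1 ++ Y1 ++ b1 ++ r1.reverse ++ R0.reverse ++ p2.reverse ++
        (a2 ++ Y2 ++ b2) ++ r2) h (by simp) (by simp)) m1
    exact Kit.turn (Bm ++ b2 ++ r2) (R1 ++ p1 ++ a1 ++ Am ++ a2 ++ p2 ++ R0 ++ r1 ++ b1)
      (Kit.rev (Kit.sub k ((((((((one_lt f1 _).append (o _)).append (one_hd e2 _ _)).append
        (o _)).append (one_hd e1 _ _)).append (o _)).append (one_lt f2 _)).append (o _))))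
      (by simp [i1, i2, j1, j2]) (by simp)
  · have k := Kit.s2 (A := r1.reverse ++ R1.reverse ++ r2.reverse) (B := p2 ++ R0 ++ p1) s S2
      (List.nodup_iff_count_le_one.2 fun x => by
        have := n x
        simp only [List.count_append, List.count_reverse] at this ⊢
        omega)
      (Kit.turn (R0 ++ p1) (a1 ++ Y1 ++ b1 ++ r1.reverse ++ R1.reverse ++ r2.reverse ++
        (b2 ++ Y2.reverse ++ a2) ++ p2) h (by simp [i2, j2]) (by simp)) m2
      ((((one_lt f1 _).append (o _)).append (one_hd f2 _ _)).append (o _))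
      ((((one_lt e2 _).append (o _)).append (one_hd e1 _ _)).append (o _)) (fun x a b => by
        have := n x
        rw [← List.count_pos_iff] at a b
        simp only [List.count_append, List.count_reverse] at this a b
        omega)
    exact Kit.turn (a2 ++ p2) (R0 ++ p1 ++ a1 ++ Am) (Kit.swap (Kit.turn (Bm ++ b2 ++ r2)
      (R1 ++ r1 ++ b1) (Kit.rev k) (by simp [j1, j2]) (by simp))) (by simp) (by simp)

end AsmAux

open AsmAux

theorem asmS : KitS → TwoS → DoneS → AsmS := by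
  classical
  intro _ two _ V _ H U D F Z pos σ N R0 R1 S hD nd hR
  obtain ⟨Am, eA⟩ := lin_eq F.A (σ.w + 1) σ.K
  obtain ⟨Bm, eB⟩ := lin_eq F.B (σ.w + 1) σ.K
  rw [show σ.w + 1 + (σ.K + 1) = σ.w + σ.K + 2 by omega] at eA eB
  have e1 : σ.s1 F = [F.A.o (σ.w + 1)] ++ σ.Y1 ++ [F.B.o (σ.w + 1)] := rfl
  have e2 : σ.s2 F = [F.A.o (σ.w + σ.K + 2)] ++ σ.Y2 ++ [F.B.o (σ.w + σ.K + 2)] := rfl
  have n : ([F.A.o (σ.w + 1)] ++ σ.Y1 ++ [F.B.o (σ.w + 1)] ++ [F.A.o (σ.w + σ.K + 2)] ++ σ.Y2 ++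
      [F.B.o (σ.w + σ.K + 2)] ++ Am ++ Bm ++ R0 ++ R1 ++ F.A.seg σ.w ++ F.A.seg (σ.w + σ.K + 2) ++
      F.B.seg σ.w ++ F.B.seg (σ.w + σ.K + 2)).Nodup := by
    refine List.nodup_iff_count_le_one.2 fun x => ?_
    have n1 := List.nodup_iff_count_le_one.1 nd x
    have n2 := List.nodup_iff_count_le_one.1 S.mid.1.nd x
    have n3 : x ∈ σ.Lm F → x ∈ R0 ++ R1 ++ σ.midL F ++ σ.midR F → x ∈ σ.s1 F ++ σ.s2 F := by
      intro a b
      refine List.mem_append.2 (S.spl.int.le ⟨?_, S.mid.1.sub x a⟩)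
      rcases List.mem_append.1 b with b | b
      · exact (List.mem_append.1 b).elim (fun c => hR c) fun c => S.hl.sub (S.hl.nd.2 x c).1
      · exact S.hr.sub (S.hr.nd.2 x b).1
    simp only [← List.count_pos_iff] at n3
    simp only [SD.midL, SD.midR, SD.Lm, e1, e2, eA, eB, List.count_append,
      List.count_reverse] at n1 n2 n3 ⊢
    omega
  have hS : ∀ A : Set V, (ls (σ.s1 F) ∪ ls (σ.s2 F)) \ A ⊆
      ls (del A (σ.s1 F)) ∪ ls (del A (σ.s2 F)) := fun A x hx =>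
    hx.1.imp (fun k => Del.mem_del.2 ⟨k, hx.2⟩) fun k => Del.mem_del.2 ⟨k, hx.2⟩
  have key := fun (A : Set V) (α : ℕ) => core (g := α) (q := α) (d := α) (split_del S.spl A)
    (by simpa only [e1, e2, del_app] using hS A)
    (del_one A _) (del_one A _) (del_one A _) (del_one A _)
    (by simpa only [del_app] using (show (del A _).Nodup from n.filter _))
    (by simpa only [SD.Lm, eA, eB, del_app, del_rev] using mid_del two S.mid.1 S.mid.2 A α)
  refine ⟨fun α ⟨A, hA, h⟩ => fin hA hD ?_, fun α ⟨A, hA, h⟩ => fin hA hD ?_,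
    fun α ⟨A, hA, h⟩ => fin hA hD ?_⟩ <;>
  simp only [List.map_cons, List.map_nil, SD.midL, SD.midR, SD.gap, e1, e2, eA, eB, del_app,
    del_rev] at h ⊢
  exacts [(key A α).1 h, (key A α).2.1 h, (key A α).2.2 h]

end Pool.Agent.MP_9d78a0_co.st

end MrgPart4

-- ======== part 5: formerly Pool.Agent.MP_9d78a0_co.st.StepB
section MrgPart5

/-! The structure theorem: one step of the recursion. -/

set_option autoImplicit false

namespace Pool.Agent.MP_9d78a0_co.st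

open Set Function fb

theorem stepS (hD : DoneS) (hC : CtxS) (hV : VorS) (hB : BndS) (hP : PlanS) (hX : XcapS)
    (hA : PlaS) : StepS := by
  intro h K m b s t α hK M1 M2
  obtain ⟨s1, t1, α1, Φ, t14, hA⟩ := hA h K m b s t α hK M1 M2
  obtain ⟨N1, M0, hP⟩ := hP h K b Φ
  obtain ⟨N2, M0', s2, hX⟩ := hX h K s (t + 4) (by omega)
  obtain ⟨p, s3, t3, hB⟩ := hB (M0 + M0') (s1 + s2 + 3) (t1 + (t + 4))
  obtain ⟨d, hV⟩ := hV p
  refine ⟨s3, t3, d + 1 + (α1 + N1) + (α + N2), ?_⟩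
  intro V _ G H n Ur U ob Ω c π x S hs ht C hm hb
  obtain ⟨e1, e2, e3⟩ := (hD V H U 0).2.2.2.2.2.2.2 Ω c S.col
  have up : ∀ β, Dn (res H (lk H U (ls Ω))) (lk H U (ls Ω)) [Ω] β → Dn H U [Ω] β := fun β k =>
    (hD V H U β).2.2.2.2.2.1 ∅ (lk H U (ls Ω)) 0 [Ω] (by simp) (fun v hv => ⟨hv.1, id⟩)
      (fun u ⟨hu, a, ha, ha', l⟩ v hv e => ⟨hv.1, a, ha, ha', l.trans (Link.single hu hv.1 e)⟩)
      (by simpa [del] using k)
  have sub : lk H U (ls Ω) ⊆ U := fun v hv => hv.1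
  have S1 : Sit G (res H (lk H U (ls Ω))) h n Ur (lk H U (ls Ω)) ob Ω c π :=
    ⟨S.univ, fun _ _ e => S.le e.1, e1, S.mono, S.pos, e2 ▸ S.core⟩
  generalize lk H U (ls Ω) = U1 at e1 e2 e3 up sub S1
  generalize res H U1 = H1 at e1 e2 e3 up S1
  refine up _ ?_
  have mono := fun β k => (hD V H1 U1 β).1 [Ω] (d + 1 + (α1 + N1) + (α + N2)) k
  rcases hV V H1 U1 Ω e1.soc with k | k
  swap
  · exact mono _ ((hD V H1 U1 d).2.2.2.2.1 Ω e1.soc k) (by omega)
  obtain ⟨c', π', uA, uB, u, m', xx, yy, J, S', f1, f2, f3, f4, B⟩ :=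
    hB V G H1 h n Ur U1 ob Ω c π S1 hs ht k
  have tch : ∀ i < b, Touch G (x.E i) c'.I := fun i hi =>
    let ⟨a, ha, z, hz, e⟩ := (C.zone i (by omega)).2.2.2.2.2.1; ⟨a, ha, z, f2 hz, e⟩
  have C1 := (hC V G h n K Ur U c.I U1 c'.I ob _ _ _ _ x hK C sub f3 f4).1 b hb tch
  cases u
  · obtain ⟨L, D, H', U', dd, uu, π'', W0, lo, hi, g1, g2⟩ := hP V G H1 n Ur U1 ob Ω c' π' _ t1 uA uB
      m' xx yy J x.E S' e3.symm (by omega) (Nat.le_add_right _ M0') (by omega)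
      ⟨B.dst, B.crook, B.ch, B.dis, B.band, by have := B.gap; omega⟩ tch
    exact mono _ (hA V G H1 n N1 L c'.s Ur U1 c'.I c'.I ob Ω _ _ { x with b := b } D H' U' dd uu π''
      W0 lo hi C1 hm rfl g2 (by omega) g1) (by omega)
  · obtain ⟨H', U', Ω', c'', π'', W, lo, hi, S'', g1, g2, g3, g4, g5, g6, g7, g8, g9, g10⟩ :=
      hX V G H1 n Ur U1 ob Ω c' π' _ _ uA uB m' xx yy J S' e3.symm (by omega)
        (Nat.le_add_left _ M0) (Nat.le_add_left _ t1) B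
    have a1 := S''.mono 0 (t + 4 - 1) (by omega) (by omega)
    have a2 := (S''.pos 0 (by omega)).2.2
    have a3 := (S'.pos 0 (by have := S'.col.t4; omega)).2.1
    obtain ⟨x', k1, k2⟩ := (hC V G h n K Ur U1 c'.I U' c''.I ob _ _ (π'' 0) (π'' (c''.t - 1)) _ hK C1
      g3 (by omega) (g2 ▸ g9)).2.1 W lo hi lo g4 g5 g6 (by omega) g6 (by omega) (by omega) (by omega)
      (by omega) (by omega) (disjoint_left.2 fun z h1 h2 => by have := h1.2; have := h2.1; omega)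
      (fun h2 => by have := h2.1; omega)
    exact mono _ (g10 α (M1 V G H' n Ur U' ob Ω' c'' π'' x' S'' g1.ge (by omega) k2
      (by rw [k1]; exact Nat.succ_le_succ hm) (Nat.zero_le _))) (by omega)

end Pool.Agent.MP_9d78a0_co.st

end MrgPart5

-- ======== part 6: formerly Pool.Agent.MP_9d78a0_co.st.Step
section MrgPart6

/-! The structure theorem: the planar case of a step. -/

set_option autoImplicit false

namespace Pool.Agent.MP_9d78a0_co.st

open Set Function fb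

namespace step

theorem wide (hd : DoneS) {h K m b s t α : ℕ} (hm : MainAt h K m b s t α) :
    MainAt h K m b s (max t 4) α := fun V _ G H n Ur U ob Ω c π x hs a1 a2 hc a3 a4 =>
  (hd V H U α).1 [Ω] α (hm V G H n Ur U ob Ω c π x hs a1 ((le_max_left _ _).trans a2) hc a3 a4)
    le_rfl

theorem ends {V : Type} {G H : SimpleGraph V} {h n : ℕ} {Ur U : Set V} {ob : ℕ → V} {Ω : List V}
    {c : CD V} {π : ℕ → ℕ} (s : Sit G H h n Ur U ob Ω c π) :
    h * h ≤ π 0 ∧ π 0 < π (c.t - 1) ∧ π (c.t - 1) < n := by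
  have := s.col.t4
  exact ⟨(s.pos 0 (by omega)).2.1, s.mono _ _ (by omega) (by omega), (s.pos _ (by omega)).2.2⟩

end step

open step

theorem plaS : DoneS → CtxS → KidsS → SplitS → DblS → MenS → TwocS → PlaS := by
  intro hd hc hk hs hb hm ht h K m b s t α hK m1 m2
  obtain ⟨s1, t1, kids⟩ := hk h K m b s t α hK m1 m2
  obtain ⟨N2, M2, s2, twoc⟩ := ht h s (max t 4) (le_max_right _ _)
  obtain ⟨k, s3, t3, men⟩ := hm M2 s2 (max t 4) (by omega)
  refine ⟨k + 1 + max s1 s3 + 4, max (max t1 t3) (max 4 (k + 1)), 2 * α + (k + 1) + N2,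
    fun L => (k + 1) * (L + 2) + max s1 s3 + 6, by omega, ?_⟩
  intro V _ G H n N L s0 Ur U I I0 ob Ω p p' x D H' U' d u π W0 lo hi cx a1 a2 pl a3 a4
  rcases hs V G H h n K N L s0 _ Ur U I ob Ω p p' b x.E D H' U' d u π W0 lo hi (k + 1) (max s1 s3)
    pl (by omega) (by omega) (by omega) a3 a4.ge with ⟨R, r1, r2⟩ | ⟨D', H2, U2, c, kd, sz, fin⟩
  · obtain ⟨H2, U2, c, u2, db, sz, r3, as1⟩ := hb V G H h n K N L s0 _ Ur U I ob Ω p p' b x.E D H'
      U' d u π W0 lo hi (k + 1) (max s1 s3) R pl (by omega) (by omega) (by omega)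
      (by simp only [a4]; omega) r1
    obtain ⟨c', π', up, J, db', bn, sz'⟩ := men V G H2 h n Ur U2 ob _ c π (R ∘ Fin.castSucc) db
      (fun i => by have := sz i; omega) (fun j => r3 _)
      fun i j hij => r2 fun e => hij (Fin.castSucc_injective _ e)
    obtain ⟨H3, U3, Ω3, c3, π3, S, v, ex, st, e1, e2, u3, s1', s2', s3', s4', b1, b2, b3, b4, b5,
      as2⟩ := twoc V G H2 n Ur U2 ob _ c' π' up J db' (sz' 0).1.ge bn
    obtain ⟨w0, pins, p1, p2, p3, p4, p5, p6⟩ := pl.pins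
    obtain ⟨-, q1, q2⟩ := sz' 0
    obtain ⟨-, q3, q4⟩ := sz' 1
    obtain ⟨f1, f2, f3⟩ := ends st
    rw [(sz 0).2] at q2
    rw [(sz 1).2] at q4
    rw [← e2] at b5
    have uU : U2 ⊆ U := u2.trans (pl.rest.1.trans sdiff_subset)
    have it : Item G ob K (W0 ∪ S) lo hi ex := Or.inr (Or.inr ⟨fun c => by have := c.2; omega,
      v, W0, S, pins v (by omega) (by omega), subset_union_left,
      fun z hz => ⟨Or.inr hz, fun c => (w0 c).2 (u2 (s1' hz).1.1)⟩, s2', s3', s4'⟩)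
    obtain ⟨x', g1, g2⟩ := (hc V G h n K Ur U I0 U3 c3.I ob p p' (π3 0) (π3 (c3.t - 1)) x hK cx
      (u3.trans uU) (by omega) (by omega)).2.1 _ lo hi ex it
      (union_subset (fun z hz => ⟨(w0 hz).1, fun c => (w0 hz).2 (u2 (u3 c))⟩)
        fun z hz => ⟨⟨uU (s1' hz).1.1, (s1' hz).1.2⟩, (s1' hz).2⟩)
      p1 (by omega) (by omega) (by omega) p2 (by omega) (by omega) (by omega)
      (disjoint_left.2 fun z h1 h2 => by have := h1.2; have := h2.1; omega)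
      fun c => by have := c.1; omega
    have dn : Dn H3 U3 [Ω3] α := wide hd m1 V G H3 n Ur U3 ob Ω3 c3 π3 x' st e1.ge e2.ge g2
      (by omega) (Nat.zero_le _)
    exact (hd V H U _).1 _ _ (as1 _ (as2 _ dn)) (by omega)
  · exact (hd V H U _).1 _ _ (fin α (kids V G n Ur U I0 ob p p' x D' H2 U2 _ c π cx a1 a2 kd
      fun i => by have := sz i; omega)) (by omega)

end Pool.Agent.MP_9d78a0_co.st

end MrgPart6

-- ======== part 7: formerly Pool.Agent.MP_9d78a0_co.st.GAll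
section MrgPart7

/-! Part G assembled: the structure theorem follows from the recursion on collars. -/

set_option autoImplicit false

namespace Pool.Agent.MP_9d78a0_co.st

namespace gall

theorem cutR : CutRS := cutRS nfS redS stabS (sideS nfS (ctrS nfS) (triS perfS))

theorem cutP : CutPS := cutPS nfS (ctrS nfS) cutR

theorem two : TwoS := twoS nfS cutP kitS

theorem xblk : XblkS := xblkS khS (xbS mksS)

theorem win : WinS :=
  winS cyl2S (fb.levaS (fb.cutS fb.mengerS fb.jumpsS) fb.busS) (colqS xblk) (flatqS xblk)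

theorem disc : DiscS := discS cutP (annS nfS (ctrS nfS) glueS)

theorem sit : SitS := sitS nfS inS (coarS inS) khS (ordS nfS)

end gall

theorem structS_of (main : MainS) : StructS :=
  root gall.win gall.disc gall.sit (wallS invS) main gall.two

end Pool.Agent.MP_9d78a0_co.st

end MrgPart7

-- ======== part 8: formerly Pool.Agent.MP_9d78a0_co.st.All2
section MrgPart8

/-! The strip theorem without hypotheses; the step from its four remaining parts. -/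

set_option autoImplicit false

namespace Pool.Agent.MP_9d78a0_co.st

theorem eqv0 : EqvS := eqvS nfS
theorem asm0 : AsmS := asmS kitS two0 done0
theorem xr0 : XrS := xrS pan0
theorem frm0 : FrmS := frmS inS pan0

theorem strip0 : StripS :=
  stripS eqv0 (blkS nfS pan0 xb0 (isoS pan0 bj0)) (posS nfS pan0) (selS nfS pan0)
    (topS nfS loc0 (outS nfS) (midS nfS)) (seamS nfS pan0 cutP0)

theorem struct_of (hc : ChildS) (hp : PlanS) (hx : XcapS) : StructS :=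
  structS_of (main0 (stepS done0 ctxS vor0 bnd0 hp hx
    (plaS done0 ctxS kids0 (splitS done0 xr0 hc) (dblS inS done0 xr0 hc) men0
      (twocS inS crd0 pan0 eqv0 done0 asm0 strip0 frm0 arcS hc))))

end Pool.Agent.MP_9d78a0_co.st

end MrgPart8

-- marker of a merged file
example : 731051 + 794845 = 731051 + 794845 := rfl
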