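import Pool.Agent.MP_9d78a0_co.gm.FCell
import Pool.Agent.MP_9d78a0_co.gm.BGrid
import Pool.Agent.MP_9d78a0_co.gm.SpecJ
import Pool.Agent.MP_9d78a0_co.st.Dbl
import Pool.Agent.MP_9d78a0_co.st.In
import Pool.Agent.MP_9d78a0_co.st.Twoc

-- ======== part 0: formerly Pool.Agent.MP_9d78a0_co.gm.FSlid
section MrgPart0

/-! Block F, row SLID: new lanes for a kept side. -/

set_option autoImplicit false

namespace Pool.Agent.MP_9d78a0_co.gm

open Set Function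

namespace slid

section gen

variable {σ : AG} {Y Ws U : Set σ.ε} {P : Set W} {x y z : W}

theorem mem_vs : x ∈ σ.vs U ↔ ∃ c ∈ U, x ∈ σ.inc c := by
  simp only [AG.vs, mem_iUnion, exists_prop]

theorem mem_bd : x ∈ σ.bd U ↔ x ∈ σ.vs U ∧ x ∈ σ.vs Uᶜ := by
  rw [σ.bd_eq]; rfl

theorem pc_sub {c : σ.ε} (h : c ∈ U) : σ.pc c ⊆ σ.un U := subset_biUnion_of_mem (u := σ.pc) h

theorem edge (h : (gr (σ.un Y)).Adj x y) (hx : x ∈ Od) (hy : y ∈ Od) :
    ∃ c ∈ Y, x ∈ σ.inc c ∧ y ∈ σ.inc c ∧ (gr (σ.pc c)).Adj x y := by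
  have : ∃ c ∈ Y, (gr (σ.pc c)).Adj x y := by
    rcases h.2 with k | k <;> obtain ⟨c, hc, k⟩ := mem_iUnion₂.1 k
    exacts [⟨c, hc, h.1, Or.inl k⟩, ⟨c, hc, h.1, Or.inr k⟩]
  obtain ⟨c, hc, k⟩ := this
  exact ⟨c, hc, ⟨gr_mem k, hx⟩, ⟨gr_mem k.symm, hy⟩, k⟩

/-- a walk that starts off `Ws` runs off `Ws` until it meets the boundary -/
theorem walk1 (hP : P ⊆ Od) (hx : x ∉ σ.vs Ws) (h : Link (gr (σ.un Y)) P x y) :
    (Link (gr (σ.un (Y \ Ws))) P x y ∧ y ∉ σ.vs Ws) ∨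
      ∃ z ∈ P, z ∈ σ.bd Ws ∧ Link (gr (σ.un (Y \ Ws))) P x z := by
  induction h with
  | refl => exact Or.inl ⟨Link.refl _ _ _, hx⟩
  | @tail y y' _ k ih =>
    rcases ih with ⟨h1, h2⟩ | ih
    · obtain ⟨c, hc, c1, c2, c3⟩ := edge k.2.2 (hP k.1) (hP k.2.1)
      have n : c ∉ Ws := fun e => h2 (mem_vs.2 ⟨c, e, c1⟩)
      have l := h1.trans (Link.single k.1 k.2.1 (gr_mono (pc_sub (U := Y \ Ws) ⟨hc, n⟩) c3))
      by_cases e : y' ∈ σ.vs Ws
      · exact Or.inr ⟨y', k.2.1, mem_bd.2 ⟨e, mem_vs.2 ⟨c, n, c2⟩⟩, l⟩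
      · exact Or.inl ⟨l, e⟩
    · exact Or.inr ih

/-- a connected set with one boundary vertex stays connected inside `Ws` -/
theorem walk2 (hP : P ⊆ Od) (hc : Conn (gr (σ.un Y)) P) (hz : ∀ v ∈ P, v ∈ σ.bd Ws → v = z)
    (hn : (P ∩ σ.vs Ws).Nonempty) : Conn (gr (σ.un Y)) (P ∩ σ.vs Ws) := by
  have k : ∀ x ∈ P ∩ σ.vs Ws, ∀ y, Link (gr (σ.un Y)) P x y →
      (y ∈ σ.vs Ws ∧ Link (gr (σ.un Y)) (P ∩ σ.vs Ws) x y) ∨
        Link (gr (σ.un Y)) (P ∩ σ.vs Ws) x z := by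
    intro x hx y h
    induction h with
    | refl => exact Or.inl ⟨hx.2, Link.refl _ _ _⟩
    | @tail y y' _ k ih =>
      rcases ih with ⟨h1, h2⟩ | ih
      · by_cases e : y' ∈ σ.vs Ws
        · exact Or.inl ⟨e, h2.trans (Link.single ⟨k.1, h1⟩ ⟨k.2.1, e⟩ k.2.2)⟩
        · obtain ⟨c, -, c1, c2, -⟩ := edge k.2.2 (hP k.1) (hP k.2.1)
          have n : c ∉ Ws := fun e' => e (mem_vs.2 ⟨c, e', c2⟩)
          exact Or.inr (hz y k.1 (mem_bd.2 ⟨h1, mem_vs.2 ⟨c, n, c1⟩⟩) ▸ h2)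
      · exact Or.inr ih
  refine ⟨hn, fun x hx y hy => ?_⟩
  rcases k x hx y (hc.2 x hx.1 y hy.1) with h | h
  · exact h.2
  · rcases k y hy x (hc.2 y hy.1 x hx.1) with h' | h'
    exacts [h'.2.symm, h.trans h'.symm]

theorem cp_vs (hP : P ⊆ Od) : fb.cp (gr (σ.un Y)) P x ⊆ σ.vs Y ∪ {x} := by
  rintro y ⟨h1, h2⟩
  rcases h2.symm.cases_head with e | ⟨w, k, -⟩
  · exact Or.inr e
  · exact Or.inl (σ.vs_un Y ▸ ⟨gr_mem k.2.2, hP h1⟩)

theorem f2_mem {R : W → W → Prop} {l l' : List W} (h : List.Forall₂ R l l') (hx : x ∈ l) :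
    ∃ y ∈ l', R x y := by
  induction h with
  | nil => cases hx
  | cons r _ ih =>
    rcases List.mem_cons.1 hx with rfl | hx
    · exact ⟨_, List.mem_cons_self, r⟩
    · obtain ⟨y, h1, h2⟩ := ih hx
      exact ⟨y, List.mem_cons_of_mem _ h1, h2⟩

/-- roots slide along disjoint connected sets -/
theorem slide {X' X : Pc} {ρ' ρ : List W} {I : Set ℕ} {z : ℕ → W} {S : ℕ → Set W} (hX : X' ⊆ X)
    (inj : ∀ l ∈ I, ∀ l' ∈ I, z l = z l' → l = l')
    (dis : ∀ l ∈ I, ∀ l' ∈ I, l ≠ l' → Disjoint (S l) (S l'))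
    (conn : ∀ l ∈ I, z l ∈ dom (X', ρ') → Conn (gr X) (S l))
    (sub : ∀ l ∈ I, S l ⊆ dom (X, ρ))
    (mem : ∀ l ∈ I, z l ∈ VV X' ∪ Nm → z l ∈ S l)
    (one : ∀ l ∈ I, ∀ v ∈ dom (X', ρ'), v ∈ S l → v = z l)
    (root : List.Forall₂ (fun r' r => (∃ l ∈ I, r' = z l ∧ r ∈ S l) ∨
      ((∀ l ∈ I, r' ≠ z l) ∧ r = r')) ρ' ρ) : Le (X', ρ') (X, ρ) := by
  let B : W → Set W := fun v => {x | (∃ l ∈ I, v = z l ∧ x ∈ S l) ∨ ((∀ l ∈ I, v ≠ z l) ∧ x = v)}
  have b1 : ∀ l ∈ I, B (z l) = S l := by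
    intro l hl
    ext x
    refine ⟨?_, fun h => Or.inl ⟨l, hl, rfl, h⟩⟩
    rintro (⟨l', h1, h2, h3⟩ | ⟨h1, -⟩)
    · exact inj l hl l' h1 h2 ▸ h3
    · exact absurd rfl (h1 l hl)
  have b2 : ∀ v, (∀ l ∈ I, v ≠ z l) → B v = {v} := by
    intro v hv
    ext x
    refine ⟨?_, fun h => Or.inr ⟨hv, h⟩⟩
    rintro (⟨l', h1, h2, -⟩ | ⟨-, h1⟩)
    exacts [absurd h2 (hv l' h1), h1]
  have cs : ∀ v, (∃ l ∈ I, v = z l) ∨ ∀ l ∈ I, v ≠ z l := fun v => by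
    by_contra c
    exact c (Or.inr fun l hl e => c (Or.inl ⟨l, hl, e⟩))
  have sf : ∀ v ∈ VV X' ∪ Nm, v ∈ B v := by
    intro v hv
    rcases cs v with ⟨l, hl, rfl⟩ | k
    exacts [Or.inl ⟨l, hl, rfl, mem l hl hv⟩, Or.inr ⟨k, rfl⟩]
  refine ⟨B, fun v hv => ?_, fun v hv => ?_, fun u hu v hv n => ?_,
    fun u v e => ⟨u, sf u (Or.inl (gr_mem e)), v, sf v (Or.inl (gr_mem e.symm)), gr_mono hX e⟩,
    fun n => sf _ (Or.inr (inr_nm n)), root⟩
  · rcases cs v with ⟨l, hl, rfl⟩ | k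
    · rw [b1 l hl]; exact sub l hl
    · rw [b2 v k, singleton_subset_iff]
      rcases hv with (hv | hv) | hv
      · exact Or.inl (Or.inl (VV_mono hX hv))
      · obtain ⟨y, h1, ⟨l, hl, e, -⟩ | ⟨-, rfl⟩⟩ := f2_mem root hv
        exacts [absurd e (k l hl), Or.inl (Or.inr h1)]
      · exact Or.inr hv
  · rcases cs v with ⟨l, hl, rfl⟩ | k
    · rw [b1 l hl]; exact conn l hl hv
    · rw [b2 v k]; exact conn_singleton _ _
  · rcases cs u with ⟨l, hl, rfl⟩ | k <;> rcases cs v with ⟨l', hl', rfl⟩ | k'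
    · rw [b1 l hl, b1 l' hl']; exact dis l hl l' hl' fun c => n (by rw [c])
    · rw [b1 l hl, b2 v k']
      exact disjoint_singleton_right.2 fun c => k' l hl (one l hl v hv c)
    · rw [b1 l' hl', b2 u k]
      exact disjoint_singleton_left.2 fun c => k l' hl' (one l' hl' u hu c)
    · rw [b2 u k, b2 v k']; exact disjoint_singleton.2 n

end gen

theorem ent_d {σ : AG} (t : Sh σ) (j : t.ι) (k : ℕ) : t.ent j k (t.d j) = t.u j k :=
  if_neg (lt_irrefl _)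

theorem ent_lt {σ : AG} {t : Sh σ} {j : t.ι} {l : ℕ} (k : ℕ) (h : l < t.d j) :
    t.ent j k l = t.β j k l := if_pos h

theorem ter_L {σ : AG} {t : Sh σ} {j : t.ι} {k l : ℕ} (h : l < t.d j ∨ t.lk j k ∈ t.s.Rm) :
    t.ter j k l = t.L j k l := if_pos h

/-- the assumptions of the row -/
structure Bs (D : Dat) (j : D.t.ι) (a i b : ℕ) : Prop where
  ok : D.Ok
  md : D.md j = Md.keep
  cl : D.Clear j i
  kp : D.Kp j a i b

variable {D : Dat} {j : D.t.ι} {a i b k k' l l' p s : ℕ} {z1 z2 : ℕ → W} {v z : W}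

theorem bd_vw (h : z ∈ D.Bd) : z ∈ D.Vw := D.σ.bd_vs _ h

namespace Bs

variable (h : Bs D j a i b)
include h

theorem tok : D.t.Ok := h.ok.pre.ok

theorem lam : D.t.Λ = ∅ := (h.ok.pre.old j (by rw [h.md]; simp)).1

theorem str : D.t.Str := (h.ok.pre.keep j h.md).2.1

theorem act (hk : k < D.t.m j) (hl : l ≤ D.t.d j) : D.t.Act j k l :=
  ⟨hk, hl, by simp [h.lam], by simp [h.lam]⟩

theorem act' (hk : k < b) (hl : l ≤ D.t.d j) : D.t.Act j k l := h.act (hk.trans_le h.kp.ord.2.2) hl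

theorem cut : v ∈ D.t.κ j k ↔ ∃ l ≤ D.t.d j, D.t.ent j k l = v := by
  rw [(h.ok.ter.cut j k).1]; rfl

theorem ent_cut (hl : l ≤ D.t.d j) : D.t.ent j k l ∈ D.t.κ j k := h.cut.2 ⟨l, hl, rfl⟩

theorem clr (hl : l ≤ D.t.d j) : D.t.ent j i l ∉ D.Vw := disjoint_left.1 h.cl.2 (h.ent_cut hl)

theorem enda (hl : l ≤ D.t.d j) : D.t.ent j a l ∈ D.Vw := h.kp.ends.1 (Or.inl (h.ent_cut hl))

theorem endb (hl : l ≤ D.t.d j) : D.t.ent j b l ∈ D.Vw := h.kp.ends.1 (Or.inr (h.ent_cut hl))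

theorem e0 (hk : k < D.t.m j) (hl : l ≤ D.t.d j) : D.t.ent j k l ∈ D.t.ter j k l :=
  (h.ok.ter.link j k l (h.act hk hl)).2.1

theorem e1 (hk : k < D.t.m j) (hl : l ≤ D.t.d j) : D.t.ent j (k + 1) l ∈ D.t.ter j k l :=
  (h.ok.ter.link j k l (h.act hk hl)).2.2.1

theorem od (hk : k < D.t.m j) (hl : l ≤ D.t.d j) : D.t.ter j k l ⊆ Od :=
  (h.ok.ter.link j k l (h.act hk hl)).2.2.2.trans sdiff_subset

theorem meet (hk : k < b) (hk' : k' < b) (hl : l ≤ D.t.d j) (hl' : l' ≤ D.t.d j)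
    (h1 : z ∈ D.t.ter j k l) (h2 : z ∈ D.t.ter j k' l') :
    l = l' ∧ ∀ s, k < s → s ≤ k' → z = D.t.ent j s l :=
  (h.ok.ter.meet j k l j k' l' (h.act' hk hl) (h.act' hk' hl') z ⟨h1, h2⟩).2

theorem lane (hk : k < D.t.m j) (hl : l ≤ D.t.d j) (c : l < D.t.d j ∨ D.t.lk j k ∈ D.t.s.Rm) :
    D.t.Lane j k (D.t.ter j k l) (D.t.ent j k l) (D.t.ent j (k + 1) l) := by
  rw [ter_L c]
  rcases hl.lt_or_eq with e | rfl
  · rw [ent_lt _ e, ent_lt _ e]
    exact (h.tok.lane j k hk l e (by simp [h.lam]) (by simp [h.lam])).1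
  · rw [ent_d, ent_d]
    exact h.tok.path j k hk (c.resolve_left (lt_irrefl _))

theorem rest {c : D.σ.ε} (hc : D.t.own c = none) : c ∈ D.Ws :=
  h.ok.hull.sm.2.2 (h.ok.pre.rest hc)

/-- boundary vertices of a territory lie in the region -/
theorem reg (ha : a ≤ k) (hk : k < b) (hl : l ≤ D.t.d j) (h1 : z ∈ D.t.ter j k l) (h2 : z ∈ D.Bd) :
    z ∈ D.Reg j a b := by
  have hm := hk.trans_le h.kp.ord.2.2
  refine ⟨k, ha, hk, ?_⟩
  by_cases c : l < D.t.d j ∨ D.t.lk j k ∈ D.t.s.Rm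
  · rcases ((h.lane hm hl c).2.2.2 h1).1 with e | e
    · exact Or.inl (Or.inl e)
    · exact Or.inl (Or.inr (e ▸ h.ent_cut hl))
  · rw [Sh.ter, if_neg c] at h1
    rcases h1 with (e | e) | ⟨e1, e2⟩
    · exact Or.inl (Or.inr (Or.inl e))
    · exact Or.inr (Or.inl e)
    · obtain ⟨c0, hc, -⟩ := h.str _ ((h.tok.quad j k hm).2.resolve_left fun e => c (Or.inr e))
      refine absurd (h.ok.ter.bdc (D.t.lk j k) (mem_bd.2 ⟨e1, ?_⟩)) fun e => e2 e.symm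
      obtain ⟨⟨c1, a1, b1⟩, c2, a2, b2⟩ := h2
      rw [hc]
      by_cases e : c1 = c0
      · exact mem_vs.2 ⟨c2, fun e' => a2 ((e.trans (Eq.symm e')) ▸ a1), b2⟩
      · exact mem_vs.2 ⟨c1, e, b1⟩

theorem pay (hk : k ≤ k') (hb : k' ≤ b) (hl : l ≤ D.t.d j)
    (c : ¬ (D.t.ent j k l ∈ D.Vw ↔ D.t.ent j k' l ∈ D.Vw)) :
    ∃ s, k ≤ s ∧ s < k' ∧ ∃ z ∈ D.t.ter j s l, z ∈ D.Bd :=
  h.ok.ter.pay D.Ws j l k k' hk (fun _ _ e => h.act' (e.trans_le hb) hl) c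

/-- a vertex of a lane in a bag lies in the territory at this bag -/
theorem inbag (hp : p < D.t.m j) (hs : s < D.t.m j) (hl : l ≤ D.t.d j) (h1 : z ∈ D.t.ter j p l)
    (h2 : z ∈ D.σ.vs (D.t.bag j s)) : z ∈ D.t.ter j s l := by
  obtain ⟨-, a1, a2⟩ := h.ok.ter.inb j p l (h.act hp hl) z h1 j s h2
  rcases lt_trichotomy p s with e | rfl | e
  · exact a1 s e le_rfl ▸ h.e0 hs hl
  · exact h1
  · exact a2 (s + 1) s.lt_succ_self e ▸ h.e1 hs hl

/-- an entry that changes lies in a bag -/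
theorem chg (hl : l < D.t.d j) (hk : k ≤ k') (hm : k' ≤ D.t.m j)
    (c : D.t.ent j k l ≠ D.t.ent j k' l) : D.t.ent j k l ∈ D.σ.vs (⋃ s, D.t.bag j s) ∧
      D.t.ent j k' l ∈ D.σ.vs (⋃ s, D.t.bag j s) := by
  have key : ∀ s < D.t.m j, D.t.ent j s l ≠ D.t.ent j (s + 1) l →
      D.t.ent j s l ∈ D.σ.vs (⋃ s, D.t.bag j s) ∧
        D.t.ent j (s + 1) l ∈ D.σ.vs (⋃ s, D.t.bag j s) := by
    intro s hs n
    obtain ⟨a1, a2, a3, a4⟩ := h.lane hs hl.le (Or.inl hl)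
    refine ⟨D.σ.vs_mono (subset_iUnion _ s) ?_,
      D.σ.vs_mono (subset_iUnion _ s) ((a4 a3).1.resolve_right n.symm)⟩
    rw [← D.σ.vs_un]
    exact ⟨by_contra fun e => n (conn_out a1 a2 a3 e).symm, h.od hs hl.le a2⟩
  constructor
  · induction k', hk using Nat.le_induction with
    | base => exact absurd rfl c
    | succ s hs ih =>
      by_cases e : D.t.ent j k l = D.t.ent j s l
      · exact e ▸ (key s hm (e ▸ c)).1
      · exact ih (Nat.le_of_succ_le hm) e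
  · induction hk using Nat.decreasingInduction with
    | self => exact absurd rfl c
    | of_succ s hs ih =>
      by_cases e : D.t.ent j (s + 1) l = D.t.ent j k' l
      · exact e ▸ (key s (hs.trans_le hm) (e ▸ c)).2
      · exact ih e

end Bs

/-- the boundary vertices of the lanes -/
structure Ctx (D : Dat) (j : D.t.ι) (a i b : ℕ) (z1 z2 : ℕ → W) : Prop extends Bs D j a i b where
  h1 : ∀ l ≤ D.t.d j, z1 l ∈ D.Bd ∧ ∃ p, a ≤ p ∧ p < i ∧ z1 l ∈ D.t.ter j p l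
  h2 : ∀ l ≤ D.t.d j, z2 l ∈ D.Bd ∧ ∃ p, i ≤ p ∧ p < b ∧ z2 l ∈ D.t.ter j p l
  u1 : z1 (D.t.d j) = D.t.u j a
  u2 : z2 (D.t.d j) = D.t.u j b
  all : ∀ z ∈ D.Bd ∩ D.Reg j a b, ∃ l ≤ D.t.d j, z = z1 l ∨ z = z2 l

theorem Bs.ex (h : Bs D j a i b) : ∃ z1 z2, Ctx D j a i b z1 z2 := by
  obtain ⟨o1, o2, o3⟩ := h.kp.ord
  have e1 : ∀ l, ∃ z, l ≤ D.t.d j → (z ∈ D.Bd ∧ ∃ p, a ≤ p ∧ p < i ∧ z ∈ D.t.ter j p l) ∧
      (l = D.t.d j → z = D.t.u j a) := by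
    intro l
    rcases lt_trichotomy l (D.t.d j) with c | rfl | c
    · obtain ⟨s, s1, s2, z, s3, s4⟩ := h.pay o1.le o2.le c.le fun e => h.clr c.le (e.1 (h.enda c.le))
      exact ⟨z, fun _ => ⟨⟨s4, s, s1, s2, s3⟩, fun e => absurd e c.ne⟩⟩
    · exact ⟨D.t.u j a, fun c => ⟨⟨h.kp.ends.2.1, a, le_rfl, o1,
        ent_d D.t j a ▸ h.e0 (by omega) c⟩, fun _ => rfl⟩⟩
    · exact ⟨D.t.u j a, fun e => absurd e c.not_ge⟩
  have e2 : ∀ l, ∃ z, l ≤ D.t.d j → (z ∈ D.Bd ∧ ∃ p, i ≤ p ∧ p < b ∧ z ∈ D.t.ter j p l) ∧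
      (l = D.t.d j → z = D.t.u j b) := by
    intro l
    rcases lt_trichotomy l (D.t.d j) with c | rfl | c
    · obtain ⟨s, s1, s2, z, s3, s4⟩ := h.pay o2.le le_rfl c.le
        fun e => h.clr c.le (e.2 (h.endb c.le))
      exact ⟨z, fun _ => ⟨⟨s4, s, s1, s2, s3⟩, fun e => absurd e c.ne⟩⟩
    · obtain ⟨b, rfl⟩ : ∃ b', b = b' + 1 := ⟨b - 1, by omega⟩
      exact ⟨D.t.u j (b + 1), fun c => ⟨⟨h.kp.ends.2.2, b, by omega, by omega,
        ent_d D.t j (b + 1) ▸ h.e1 o3 c⟩, fun _ => rfl⟩⟩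
    · exact ⟨D.t.u j a, fun e => absurd e c.not_ge⟩
  choose z1 a1 using e1
  choose z2 a2 using e2
  refine ⟨z1, z2, h, fun l hl => (a1 l hl).1, fun l hl => (a2 l hl).1, (a1 _ le_rfl).2 rfl,
    (a2 _ le_rfl).2 rfl, fun z hz => ?_⟩
  let f : Fin (D.t.d j + 1) ⊕ Fin (D.t.d j + 1) → W := Sum.elim (fun l => z1 l) fun l => z2 l
  have x : ∀ l l' : Fin (D.t.d j + 1), z1 l ≠ z2 l' := by
    intro l l' e
    obtain ⟨⟨b1, p, -, p2, p3⟩, -⟩ := a1 l l.is_le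
    obtain ⟨⟨-, q, q1, q2, q3⟩, -⟩ := a2 l' l'.is_le
    exact h.clr l.is_le ((h.meet (by omega) q2 l.is_le l'.is_le p3 (e ▸ q3)).2 i p2 q1 ▸ bd_vw b1)
  have inj : Injective f := by
    rintro (l | l) (l' | l') e
    · obtain ⟨⟨-, p, -, p2, p3⟩, -⟩ := a1 l l.is_le
      obtain ⟨⟨-, q, -, q2, q3⟩, -⟩ := a1 l' l'.is_le
      have e' : z1 l = z1 l' := e
      exact congrArg _ (Fin.ext (h.meet (by omega) (by omega) l.is_le l'.is_le p3 (e' ▸ q3)).1)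
    · exact absurd e (x l l')
    · exact absurd e.symm (x l' l)
    · obtain ⟨⟨-, p, -, p2, p3⟩, -⟩ := a2 l l.is_le
      obtain ⟨⟨-, q, -, q2, q3⟩, -⟩ := a2 l' l'.is_le
      have e' : z2 l = z2 l' := e
      exact congrArg _ (Fin.ext (h.meet p2 q2 l.is_le l'.is_le p3 (e' ▸ q3)).1)
  have sub : range f ⊆ D.Bd ∩ D.Reg j a b := by
    rintro _ ⟨l | l, rfl⟩
    · obtain ⟨⟨b1, p, p1, p2, p3⟩, -⟩ := a1 l l.is_le
      exact ⟨b1, h.reg p1 (by omega) l.is_le p3 b1⟩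
    · obtain ⟨⟨b1, p, p1, p2, p3⟩, -⟩ := a2 l l.is_le
      exact ⟨b1, h.reg (by omega) p2 l.is_le p3 b1⟩
  have e := eq_of_subset_of_ncard_le sub (by
    rw [ncard_range_of_injective inj, Nat.card_sum, Nat.card_eq_fintype_card, Fintype.card_fin]
    exact h.kp.cnt.trans (by omega)) ((D.σ.bd_fin _).subset inter_subset_left)
  obtain ⟨l | l, rfl⟩ := e.ge hz
  exacts [⟨l, l.is_le, Or.inl rfl⟩, ⟨l, l.is_le, Or.inr rfl⟩]

/-- the boundary vertex that belongs to a bag -/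
def zz (i : ℕ) (z1 z2 : ℕ → W) (s l : ℕ) : W := if s < i then z1 l else z2 l

open Classical in
/-- the new entries -/
noncomputable def ne (D : Dat) (j : D.t.ι) (i : ℕ) (z1 z2 : ℕ → W) (k l : ℕ) : W :=
  if D.t.ent j k l ∈ D.Vw then (if k ≤ i then z1 l else z2 l) else D.t.ent j k l

open Classical in
/-- the new lanes -/
def nl (D : Dat) (j : D.t.ι) (i : ℕ) (z1 z2 : ℕ → W) (s l : ℕ) : Set W :=
  if l < D.t.d j ∨ D.t.lk j s ∈ D.t.s.Rm then fb.cp (gr (D.σ.un (D.t.bag j s \ D.Ws)))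
    (D.t.ter j s l ∪ {ne D j i z1 z2 s l}) (ne D j i z1 z2 s l) else ∅

/-- the vertex belongs to lane `l` -/
def Ow (D : Dat) (j : D.t.ι) (b l : ℕ) (z : W) : Prop := ∃ s < b, z ∈ D.t.ter j s l

theorem ne_out (c : D.t.ent j k l ∉ D.Vw) : ne D j i z1 z2 k l = D.t.ent j k l := if_neg c

theorem ne_1 (c : D.t.ent j k l ∈ D.Vw) (hk : k ≤ i) : ne D j i z1 z2 k l = z1 l :=
  (if_pos c).trans (if_pos hk)

theorem ne_2 (c : D.t.ent j k l ∈ D.Vw) (hk : i < k) : ne D j i z1 z2 k l = z2 l :=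
  (if_pos c).trans (if_neg hk.not_ge)

theorem ne_vw (c : ne D j i z1 z2 k l ∈ D.Vw) : D.t.ent j k l ∈ D.Vw :=
  by_contra fun e => e (ne_out (i := i) (z1 := z1) (z2 := z2) e ▸ c)

/-- the new side -/
noncomputable def run (D : Dat) (j : D.t.ι) (a i b : ℕ) (z1 z2 : ℕ → W) : Run :=
  ⟨a, b - a, D.t.d j, fun k => ne D j i z1 z2 (a + k), fun k => nl D j i z1 z2 (a + k), ∅⟩

theorem Bs.ow (h : Bs D j a i b) (hl : l ≤ D.t.d j) (hl' : l' ≤ D.t.d j) (h1 : Ow D j b l z)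
    (h2 : Ow D j b l' z) : l = l' :=
  let ⟨_, a1, a2⟩ := h1
  let ⟨_, b1, b2⟩ := h2
  (h.meet a1 b1 hl hl' a2 b2).1

theorem Bs.ow_ent (h : Bs D j a i b) (hk : k ≤ b) (hl : l ≤ D.t.d j) :
    Ow D j b l (D.t.ent j k l) := by
  obtain ⟨o1, o2, o3⟩ := h.kp.ord
  rcases k with _ | k
  exacts [⟨0, by omega, h.e0 (by omega) hl⟩, ⟨k, hk, h.e1 (by omega) hl⟩]

namespace Ctx

variable (h : Ctx D j a i b z1 z2)
include h

theorem ow1 (hl : l ≤ D.t.d j) : Ow D j b l (z1 l) :=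
  let ⟨_, p, _, p2, p3⟩ := h.h1 l hl
  ⟨p, p2.trans h.kp.ord.2.1, p3⟩

theorem ow2 (hl : l ≤ D.t.d j) : Ow D j b l (z2 l) :=
  let ⟨_, p, _, p2, p3⟩ := h.h2 l hl
  ⟨p, p2, p3⟩

theorem zz_bd (hl : l ≤ D.t.d j) : zz i z1 z2 s l ∈ D.Bd := by
  unfold zz
  split_ifs
  exacts [(h.h1 l hl).1, (h.h2 l hl).1]

theorem ow_zz (hl : l ≤ D.t.d j) : Ow D j b l (zz i z1 z2 s l) := by
  unfold zz
  split_ifs
  exacts [h.ow1 hl, h.ow2 hl]

theorem ne_in (hl : l ≤ D.t.d j) (c : D.t.ent j k l ∈ D.Vw) : ne D j i z1 z2 k l ∈ D.Bd := by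
  rcases le_or_gt k i with e | e
  exacts [ne_1 c e ▸ (h.h1 l hl).1, ne_2 c e ▸ (h.h2 l hl).1]

theorem ow_ne (hk : k ≤ b) (hl : l ≤ D.t.d j) : Ow D j b l (ne D j i z1 z2 k l) := by
  unfold ne
  split_ifs
  exacts [h.ow1 hl, h.ow2 hl, h.ow_ent hk hl]

theorem z12 (hl : l ≤ D.t.d j) : z1 l ≠ z2 l := by
  intro e
  obtain ⟨b1, p, -, p2, p3⟩ := h.h1 l hl
  obtain ⟨-, q, q1, q2, q3⟩ := h.h2 l hl
  exact h.clr hl ((h.meet (by omega) q2 hl hl p3 (e ▸ q3)).2 i p2 q1 ▸ bd_vw b1)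

/-- a territory has at most one boundary vertex -/
theorem one (ha : a ≤ s) (hs : s < b) (hl : l ≤ D.t.d j) (a1 : z ∈ D.t.ter j s l) (a2 : z ∈ D.Bd) :
    z = zz i z1 z2 s l := by
  obtain ⟨l', hl', rfl | rfl⟩ := h.all z ⟨a2, h.reg ha hs hl a1 a2⟩
  · obtain rfl := h.ow hl hl' ⟨s, hs, a1⟩ (h.ow1 hl')
    obtain ⟨-, p, -, p2, p3⟩ := h.h1 l hl
    refine (if_pos (by_contra fun c => h.clr hl ?_)).symm
    exact (h.meet (p2.trans h.kp.ord.2.1) hs hl hl p3 a1).2 i p2 (by omega) ▸ bd_vw a2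
  · obtain rfl := h.ow hl hl' ⟨s, hs, a1⟩ (h.ow2 hl')
    obtain ⟨-, p, p1, p2, p3⟩ := h.h2 l hl
    refine (if_neg fun c => h.clr hl ?_).symm
    exact (h.meet hs p2 hl hl a1 p3).2 i c p1 ▸ bd_vw a2

theorem pl (ha : a ≤ k) (hk : k ≤ k') (hi : k' ≤ i) (hl : l ≤ D.t.d j)
    (c : ¬ (D.t.ent j k l ∈ D.Vw ↔ D.t.ent j k' l ∈ D.Vw)) :
    ∃ s, k ≤ s ∧ s < k' ∧ z1 l ∈ D.t.ter j s l := by
  have o := h.kp.ord
  obtain ⟨s, s1, s2, z, s3, s4⟩ := h.pay hk (by omega) hl c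
  have e := (h.one (by omega) (by omega) hl s3 s4).trans (if_pos (by omega))
  exact ⟨s, s1, s2, e ▸ s3⟩

theorem pr (hi : i ≤ k) (hk : k ≤ k') (hb : k' ≤ b) (hl : l ≤ D.t.d j)
    (c : ¬ (D.t.ent j k l ∈ D.Vw ↔ D.t.ent j k' l ∈ D.Vw)) :
    ∃ s, k ≤ s ∧ s < k' ∧ z2 l ∈ D.t.ter j s l := by
  have o := h.kp.ord
  obtain ⟨s, s1, s2, z, s3, s4⟩ := h.pay hk hb hl c
  have e := (h.one (by omega) (by omega) hl s3 s4).trans (if_neg (by omega))
  exact ⟨s, s1, s2, e ▸ s3⟩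

theorem inl (ha : a ≤ k) (hk : k ≤ s) (hs : s < i) (hl : l ≤ D.t.d j)
    (c : z1 l ∈ D.t.ter j s l) : D.t.ent j k l ∈ D.Vw := by
  have o := h.kp.ord
  by_contra n
  obtain ⟨p, -, p2, p3⟩ := h.pl le_rfl ha (by omega) hl fun e => n (e.1 (h.enda hl))
  exact n ((h.meet (by omega) (by omega) hl hl p3 c).2 k p2 hk ▸ bd_vw (h.h1 l hl).1)

theorem inr (hi : i ≤ s) (hk : s < k) (hb : k ≤ b) (hl : l ≤ D.t.d j)
    (c : z2 l ∈ D.t.ter j s l) : D.t.ent j k l ∈ D.Vw := by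
  by_contra n
  obtain ⟨p, p1, p2, p3⟩ := h.pr (by omega) hb le_rfl hl fun e => n (e.2 (h.endb hl))
  exact n ((h.meet (by omega) p2 hl hl c p3).2 k hk p1 ▸ bd_vw (h.h2 l hl).1)

theorem monoL (ha : a ≤ k) (hk : k ≤ k') (hi : k' ≤ i) (hl : l ≤ D.t.d j)
    (c : D.t.ent j k' l ∈ D.Vw) : D.t.ent j k l ∈ D.Vw := by
  obtain ⟨s, s1, s2, s3⟩ := h.pl (ha.trans hk) hi le_rfl hl fun e => h.clr hl (e.1 c)
  exact h.inl ha (hk.trans s1) s2 hl s3

theorem monoR (hi : i ≤ k) (hk : k ≤ k') (hb : k' ≤ b) (hl : l ≤ D.t.d j)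
    (c : D.t.ent j k l ∈ D.Vw) : D.t.ent j k' l ∈ D.Vw := by
  obtain ⟨s, s1, s2, s3⟩ := h.pr le_rfl hi (hk.trans hb) hl fun e => h.clr hl (e.2 c)
  exact h.inr s1 (s2.trans_le hk) hb hl s3

theorem umid (ha : a < k) (hb : k < b) : D.t.u j k ∉ D.Vw := by
  obtain ⟨o1, o2, o3⟩ := h.kp.ord
  intro c
  rw [← ent_d] at c
  rcases le_total k i with e | e
  · obtain ⟨s, s1, s2, s3⟩ := h.pl ha.le e le_rfl le_rfl fun e => h.clr le_rfl (e.1 c)
    rw [h.u1, ← ent_d] at s3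
    have := (h.meet (by omega) (by omega) le_rfl le_rfl (h.e0 (by omega) le_rfl) s3).2 k ha s1
    rw [ent_d, ent_d] at this
    exact ha.ne (h.ok.up.pos j j a (by omega) k (by omega) this).2
  · obtain ⟨s, s1, s2, s3⟩ := h.pr le_rfl e hb.le le_rfl fun e => h.clr le_rfl (e.2 c)
    obtain ⟨b, rfl⟩ : ∃ b', b = b' + 1 := ⟨b - 1, by omega⟩
    rw [h.u2, ← ent_d] at s3
    have := (h.meet (by omega) (by omega) le_rfl le_rfl s3 (h.e1 o3 le_rfl)).2 k s2 (by omega)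
    rw [ent_d, ent_d] at this
    exact hb.ne' (h.ok.up.pos j j _ o3 k (by omega) this).2

theorem ne_d (ha : a ≤ k) (hb : k ≤ b) : ne D j i z1 z2 k (D.t.d j) = D.t.u j k := by
  obtain ⟨o1, o2, o3⟩ := h.kp.ord
  rcases ha.eq_or_lt with rfl | ha
  · exact (ne_1 (h.enda le_rfl) o1.le).trans h.u1
  rcases hb.eq_or_lt with rfl | hb
  · exact (ne_2 (h.endb le_rfl) o2).trans h.u2
  · exact (ne_out (by rw [ent_d]; exact h.umid ha hb)).trans (ent_d _ _ _)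

theorem ne_l (hl : l ≤ D.t.d j) (c : D.t.ent j s l ∈ D.Vw) :
    ne D j i z1 z2 s l = zz i z1 z2 s l := by
  rcases lt_trichotomy s i with e | rfl | e
  exacts [(ne_1 c e.le).trans (if_pos e).symm, absurd c (h.clr hl),
    (ne_2 c e).trans (if_neg e.not_gt).symm]

omit h in
theorem ne_r (c : D.t.ent j (s + 1) l ∈ D.Vw) : ne D j i z1 z2 (s + 1) l = zz i z1 z2 s l := by
  rcases lt_or_ge s i with e | e
  exacts [(ne_1 c e).trans (if_pos e).symm,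
    (ne_2 c (Nat.lt_succ_of_le e)).trans (if_neg e.not_gt).symm]

/-- a boundary vertex of a territory is a new entry -/
theorem key (ha : a ≤ s) (hs : s < b) (hl : l ≤ D.t.d j) (a1 : z ∈ D.t.ter j s l) (a2 : z ∈ D.Bd) :
    z = ne D j i z1 z2 s l ∨ z = ne D j i z1 z2 (s + 1) l := by
  have e := h.one ha hs hl a1 a2
  rcases lt_or_ge s i with c | c
  · have e' : z = z1 l := e.trans (if_pos c)
    exact Or.inl (e.trans (h.ne_l hl (h.inl ha le_rfl c hl (e' ▸ a1))).symm)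
  · have e' : z = z2 l := e.trans (if_neg c.not_gt)
    exact Or.inr (e.trans (ne_r (h.inr c s.lt_succ_self hs hl (e' ▸ a1))).symm)

theorem od_ne (hk : k ≤ b) (hl : l ≤ D.t.d j) : ne D j i z1 z2 k l ∈ Od :=
  let ⟨_, a1, a2⟩ := h.ow_ne hk hl
  h.od (a1.trans_le h.kp.ord.2.2) hl a2

theorem ow_nl (hs : s < b) (hl : l ≤ D.t.d j) (c : z ∈ nl D j i z1 z2 s l) : Ow D j b l z := by
  unfold nl at c
  split_ifs at c
  · rcases c.1 with e | rfl
    exacts [⟨s, hs, e⟩, h.ow_ne hs.le hl]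
  · exact c.elim

/-- the new lanes -/
theorem lnk (ha : a ≤ s) (hs : s < b) (hl : l ≤ D.t.d j)
    (c : l < D.t.d j ∨ D.t.lk j s ∈ D.t.s.Rm) :
    Conn (gr (D.σ.un (D.t.bag j s \ D.Ws))) (nl D j i z1 z2 s l) ∧
      ne D j i z1 z2 s l ∈ nl D j i z1 z2 s l ∧ ne D j i z1 z2 (s + 1) l ∈ nl D j i z1 z2 s l ∧
      nl D j i z1 z2 s l ⊆ (D.σ.vs (D.t.bag j s \ D.Ws) ∪ {ne D j i z1 z2 s l}) \ ∅ := by
  have hm := hs.trans_le h.kp.ord.2.2
  obtain ⟨a1, a2, a3, -⟩ := h.lane hm hl c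
  have m : ne D j i z1 z2 s l ∈ D.t.ter j s l ∪ {ne D j i z1 z2 s l} := Or.inr rfl
  rw [nl, if_pos c, sdiff_empty]
  refine ⟨fb.cp_conn m, fb.cp_self m, ?_,
    cp_vs (union_subset (h.od hm hl) (singleton_subset_iff.2 (h.od_ne hs.le hl)))⟩
  suffices k : Link (gr (D.σ.un (D.t.bag j s \ D.Ws))) (D.t.ter j s l) (ne D j i z1 z2 s l)
      (ne D j i z1 z2 (s + 1) l) from
    ⟨(k.mono subset_union_left).mem m, k.mono subset_union_left⟩
  by_cases c1 : D.t.ent j s l ∈ D.Vw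
  · by_cases c2 : D.t.ent j (s + 1) l ∈ D.Vw
    · rw [h.ne_l hl c1, ne_r c2]
      exact Link.refl _ _ _
    · rcases walk1 (h.od hm hl) c2 (a1.2 _ a3 _ a2) with ⟨-, k⟩ | ⟨z, b1, b2, k⟩
      · exact absurd c1 k
      · rcases h.key ha hs hl b1 b2 with e | e
        · rw [ne_out c2, ← e]; exact k.symm
        · exact absurd (ne_vw (e ▸ bd_vw b2)) c2
  · rcases walk1 (h.od hm hl) c1 (a1.2 _ a2 _ a3) with ⟨k, c2⟩ | ⟨z, b1, b2, k⟩
    · rw [ne_out c1, ne_out c2]; exact k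
    · rcases h.key ha hs hl b1 b2 with e | e
      · exact absurd (ne_vw (e ▸ bd_vw b2)) c1
      · rw [ne_out c1, ← e]; exact k

theorem rk (hk : k ≤ b - a) :
    v ∈ D.rk j (run D j a i b z1 z2) k ↔ ∃ l ≤ D.t.d j, ne D j i z1 z2 (a + k) l = v := by
  have o := h.kp.ord
  have e := h.ne_d (k := a + k) (by omega) (by omega)
  constructor
  · rintro (c | ⟨l, c, c'⟩)
    exacts [⟨_, le_rfl, e.trans c.symm⟩, ⟨l, c.le, c'⟩]
  · rintro ⟨l, c, c'⟩
    rcases c.lt_or_eq with c | rfl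
    exacts [Or.inr ⟨l, c, c'⟩, Or.inl (c'.symm.trans e)]

/-- a vertex of a new bag that lies in the hull is in the territory of a lane -/
theorem bgv (ha : a ≤ s) (hs : s < b) (a1 : v ∈ D.σ.vs (D.t.bag j s \ D.Ws)) (a2 : v ∈ D.Vw) :
    v ∈ D.Bd ∧ ∃ l ≤ D.t.d j, v ∈ D.t.ter j s l := by
  have o := h.kp.ord
  have b1 : v ∈ D.Bd := mem_bd.2 ⟨a2, D.σ.vs_mono (fun _ c => c.2) a1⟩
  have b2 := D.σ.vs_mono sdiff_subset a1
  obtain ⟨l, hl, e⟩ := h.all v ⟨b1, s, ha, hs, Or.inl (Or.inl b2)⟩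
  obtain ⟨p, p1, p2⟩ : Ow D j b l v := by
    rcases e with rfl | rfl
    exacts [h.ow1 hl, h.ow2 hl]
  exact ⟨b1, l, hl, h.inbag (by omega) (by omega) hl p2 b2⟩

theorem notV (hl : l < D.t.d j) (c : Ow D j b l z) :
    Sum.inl z ∉ D.t.s.Vt ∧ (z ∈ D.Vw → z ∈ D.σ.vs (⋃ s, D.t.bag j s)) := by
  obtain ⟨o1, o2, o3⟩ := h.kp.ord
  obtain ⟨p, p1, p2⟩ := c
  have hm := p1.trans_le o3
  have en : ∀ k ≤ D.t.m j, Sum.inl (D.t.ent j k l) ∉ D.t.s.Vt := fun k hk => by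
    rw [ent_lt _ hl]
    exact (h.tok.inner j k hk l hl).2 (by simp [h.lam])
  rcases ((h.lane hm hl.le (Or.inl hl)).2.2.2 p2).1 with e | rfl
  · refine ⟨fun c => ?_, fun _ => D.σ.vs_mono (subset_iUnion _ p) e⟩
    obtain ⟨c0, c1, c2⟩ := mem_vs.1 e
    rcases (h.tok.share c0 z ⟨c2, by simp [h.lam]⟩ (Or.inl c)).2.1 j p c1 with k | k
    · exact en p hm.le ((h.ok.ter.ink j p l (h.act hm hl.le) z p2 j p hm.le k).2 ▸ c)
    · exact en (p + 1) hm ((h.ok.ter.ink j p l (h.act hm hl.le) z p2 j _ hm k).2 ▸ c)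
  · refine ⟨en p hm.le, fun c => ?_⟩
    rcases le_total p i with e | e
    · exact (h.chg hl e (by omega) fun k => h.clr hl.le (k ▸ c)).1
    · exact (h.chg hl e hm.le fun k => h.clr hl.le (k ▸ c)).2

theorem conv (ha : a ≤ k) (hk : k ≤ s) (hs : s ≤ k') (hb : k' ≤ b) (hl : l < D.t.d j)
    (e : ne D j i z1 z2 k l = ne D j i z1 z2 k' l) : ne D j i z1 z2 s l = ne D j i z1 z2 k l := by
  by_cases c : D.t.ent j k l ∈ D.Vw
  · have c' : D.t.ent j k' l ∈ D.Vw := ne_vw (e ▸ bd_vw (h.ne_in hl.le c))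
    rcases le_or_gt k i with a1 | a1
    · have a2 : k' ≤ i := by
        by_contra a2
        rw [ne_1 c a1, ne_2 c' (not_le.1 a2)] at e
        exact h.z12 hl.le e
      rw [ne_1 c a1, ne_1 (h.monoL (ha.trans hk) hs a2 hl.le c') (hs.trans a2)]
    · rw [ne_2 c a1, ne_2 (h.monoR a1.le hk (hs.trans hb) hl.le c) (a1.trans_le hk)]
  · have c' : D.t.ent j k' l ∉ D.Vw := fun c' => c (ne_vw (e ▸ bd_vw (h.ne_in hl.le c')))
    rw [ne_out c, ne_out c', ent_lt _ hl, ent_lt _ hl] at e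
    have e' := h.tok.conv j l hl k s k' hk hs (hb.trans h.kp.ord.2.2) (by simp [h.lam]) e
    rw [← ent_lt _ hl, ← ent_lt _ hl] at e'
    rw [ne_out c, ne_out (e' ▸ c), e']

theorem ends (hl : l ≤ D.t.d j) :
    ne D j i z1 z2 (a + 0) l = z1 l ∧ ne D j i z1 z2 (a + (b - a)) l = z2 l := by
  obtain ⟨o1, o2, o3⟩ := h.kp.ord
  rw [show a + (b - a) = b by omega]
  exact ⟨ne_1 (h.enda hl) o1.le, ne_2 (h.endb hl) o2⟩

theorem runOk : D.RunOk j (run D j a i b z1 z2) := by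
  obtain ⟨o1, o2, o3⟩ := h.kp.ord
  have cc : D.Cc = ∅ := h.ok.cc.str h.str
  have nl0 : ∀ v, v ∉ D.t.Λ := by simp [h.lam]
  refine ⟨⟨by change 0 < b - a; omega, by change a + (b - a) ≤ _; omega⟩, le_rfl,
    fun k (hk : k < b - a) => h.kp.seed _ (Nat.le_add_right _ _) (by change a + k < b; omega),
    fun k (hk : k < b - a) => ?_,
    ⟨h.lam.le, empty_subset _, finite_empty, by simp [run], fun v hv => hv.1.elim⟩,
    fun k (hk : k ≤ b - a) l (hl : l < D.t.d j) => ?_,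
    fun k (hk : k ≤ b - a) k' (hk' : k' ≤ b - a) l (hl : l < D.t.d j) l' (hl' : l' < D.t.d j) e =>
      h.ow hl.le hl'.le (h.ow_ne (k := a + k) (by omega) hl.le)
        ((show ne D j i z1 z2 (a + k) l = ne D j i z1 z2 (a + k') l' from e) ▸
          h.ow_ne (by omega) hl'.le),
    fun l (hl : l < D.t.d j) k s k' hk hs (hb : k' ≤ b - a) e =>
      h.conv (k := a + k) (s := a + s) (k' := a + k') (by omega) (by omega) (by omega) (by omega)
        hl e,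
    fun k (hk : k < b - a) v hv => ?_, fun k (hk : k ≤ b - a) l (hl : l < D.t.d j) n c => ?_,
    fun k h0 (hk : k < b - a) => ?_, fun k (hk : k ≤ b - a) c => ?_,
    fun k (hk : k < b - a) l (hl : l < D.t.d j) =>
      ⟨h.lnk (s := a + k) (by omega) (by omega) hl.le (Or.inl hl), fun c => ?_, fun c => ?_⟩,
    fun k (hk : k < b - a) c => ?_,
    fun k (hk : k < b - a) l hl l' hl' n => disjoint_left.2 fun z c c' =>
      n (h.ow hl hl' (h.ow_nl (s := a + k) (by omega) hl c) (h.ow_nl (s := a + k) (by omega) hl' c')),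
    fun k (hk : k < b - a) l hl l' (hl' : l' < D.t.d j) n =>
      ⟨fun c => n (h.ow hl hl'.le (h.ow_nl (s := a + k) (by omega) hl c)
        (h.ow_ne (k := a + k) (by omega) hl'.le)),
      fun c => n (h.ow hl hl'.le (h.ow_nl (s := a + k) (by omega) hl c)
        (h.ow_ne (k := a + (k + 1)) (by omega) hl'.le))⟩,
    fun l (hl : l < D.t.d j) e => h.z12 hl.le
      ((h.ends hl.le).1.symm.trans (Eq.trans e (h.ends hl.le).2))⟩
  · have hm : a + k < D.t.m j := by omega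
    refine (h.tok.quad j _ hm).2.imp_right fun c => ⟨c, ?_⟩
    rw [cc, union_empty]
    intro e
    obtain ⟨a1, a2, -⟩ := h.ok.ter.lk j _ hm
    rcases k with _ | k
    · exact h.umid (by omega) (by omega) (h.ok.kc.ins _ e a2)
    · exact h.umid (by omega) (by omega) (h.ok.kc.ins _ e a1)
  · have hb : a + k ≤ b := by omega
    obtain ⟨a1, a2⟩ := h.notV hl (h.ow_ne hb hl.le)
    refine ⟨h.od_ne hb hl.le, a1, id, ?_⟩
    by_cases c : D.t.ent j (a + k) l ∈ D.Vw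
    · exact ⟨a2 (bd_vw (h.ne_in hl.le c)), Or.inl (h.ne_in hl.le c)⟩
    · change ne D j i z1 z2 (a + k) l ∈ _ ∧ (_ ∨ ∃ k' ≤ _, ne D j i z1 z2 (a + k) l ∈ _)
      rw [ne_out c]
      exact ⟨(h.chg hl hb o3 fun e => c (e ▸ h.endb hl.le)).1,
        Or.inr ⟨a + k, by omega, h.ent_cut hl.le⟩⟩
  · have hb : a + k < b := by omega
    rw [mem_union, h.rk hk.le, h.rk (k := k + 1) hk]
    refine or_iff_not_imp_left.2 fun n => ?_
    have n1 : v ∉ D.Vw := fun c => by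
      obtain ⟨b1, l, hl, b2⟩ := h.bgv (Nat.le_add_right a k) hb hv.1 c
      exact n ((h.key (Nat.le_add_right a k) hb hl b2 b1).imp (fun e => ⟨l, hl, e.symm⟩)
        fun e => ⟨l, hl, e.symm⟩)
    have n2 : ∀ s, v ∈ D.t.κ j s → ∃ l ≤ D.t.d j, ne D j i z1 z2 s l = v := fun s c =>
      let ⟨l, hl, e⟩ := h.cut.1 c
      ⟨l, hl, (ne_out (e ▸ n1)).trans e⟩
    obtain ⟨c0, c1, c2⟩ := mem_vs.1 hv.1
    have sh := fun c => n (((h.tok.share c0 v ⟨c2, nl0 v⟩ c).2.1 j _ c1.1).imp (n2 _) (n2 _))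
    refine ⟨fun c => sh (Or.inl c), fun c => ?_, fun s (hs : s ≤ b - a) c => ?_⟩
    · obtain ⟨c', d1, d2⟩ := mem_vs.1 c
      have w : c' ∉ D.Ws := fun e => n1 (mem_vs.2 ⟨c', e, d2⟩)
      exact sh (Or.inr (Or.inr ⟨c', fun e => d1 ⟨e.trans c1.1, w⟩, fun e => w (h.rest e), d2⟩))
    · obtain ⟨l, hl, e⟩ := (h.rk hs).1 c
      have e' : D.t.ent j (a + s) l ∉ D.Vw := fun w => n1 (e ▸ bd_vw (h.ne_in hl w))
      rw [ne_out e'] at e
      exact sh (Or.inr (Or.inl ⟨j, a + s, by omega, e ▸ h.ent_cut hl⟩))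
  · change ne D j i z1 z2 (a + k) l ∉ _ at n
    change ne D j i z1 z2 (a + k) l ∈ _ at c
    have e : D.t.ent j (a + k) l ∉ D.Vw := fun e => n (by
      rcases le_or_gt (a + k) i with w | w
      · exact Or.inl ((h.rk (Nat.zero_le _)).2 ⟨l, hl.le, (h.ends hl.le).1.trans (ne_1 e w).symm⟩)
      · exact Or.inr ((h.rk le_rfl).2 ⟨l, hl.le, (h.ends hl.le).2.trans (ne_2 e w).symm⟩))
    rw [ne_out e] at c
    obtain ⟨c0, c1, c2⟩ := mem_vs.1 c
    have w : c0 ∉ D.Ws := fun w => e (mem_vs.2 ⟨c0, w, c2⟩)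
    obtain ⟨p, p1, p2⟩ := h.ow_ent (k := a + k) (by omega) hl.le
    rcases ho : D.t.own c0 with _ | x | ⟨j', s⟩
    · exact w (h.rest ho)
    · exact hl.ne (h.ok.ter.inc j p l (h.act' p1 hl.le) _ p2 x (mem_vs.2 ⟨c0, ho, c2⟩)).1
    · obtain ⟨rfl, -⟩ := h.ok.ter.inb j p l (h.act' p1 hl.le) _ p2 j' s (mem_vs.2 ⟨c0, ho, c2⟩)
      by_cases q : s < a ∨ b ≤ s
      · exact w (h.kp.outb s (h.tok.ownb c0 _ s ho) q ho)
      · obtain ⟨s, rfl⟩ : ∃ s', s = a + s' := ⟨s - a, by omega⟩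
        exact c1 (mem_iUnion₂.2 ⟨s, (by change s < b - a; omega), ho, w⟩)
  · have u := h.umid (k := a + k) (by omega) (by omega)
    rintro ((c | c) | c)
    · exact u (bd_vw c)
    · simp [cc] at c
    · exact u c
  · have e : _ = D.ru j (run D j a i b z1 z2) k := h.ne_d (k := a + k) (by omega) (by omega)
    exact c.2 (e ▸ h.ne_in le_rfl (by rw [ent_d]; exact c.1))
  · have e : _ = D.ru j (run D j a i b z1 z2) k := h.ne_d (k := a + k) (by omega) (by omega)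
    exact hl.ne (h.ow hl.le le_rfl (h.ow_nl (s := a + k) (by omega) hl.le c)
      (e ▸ h.ow_ne (by omega) le_rfl))
  · have e : _ = D.ru j (run D j a i b z1 z2) (k + 1) :=
      h.ne_d (k := a + (k + 1)) (by omega) (by omega)
    exact hl.ne (h.ow hl.le le_rfl (h.ow_nl (s := a + k) (by omega) hl.le c)
      (e ▸ h.ow_ne (by omega) le_rfl))
  · have := h.lnk (s := a + k) (by omega) (by omega) le_rfl (Or.inr c)
    rw [h.ne_d (by omega) (by omega), h.ne_d (by omega) (by omega)] at this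
    exact this

/-- the new letters are below the old ones -/
theorem full (hk : k < b - a) : Le (D.σ.un (D.bg j (run D j a i b z1 z2) k),
    D.rl j (run D j a i b z1 z2) k) (D.t.letter j (a + k)) := by
  obtain ⟨o1, o2, o3⟩ := h.kp.ord
  have ha : a ≤ a + k := Nat.le_add_right _ _
  have hb : a + k < b := by omega
  have hm : a + k < D.t.m j := by omega
  have d0 := h.ne_d ha hb.le
  have d1 := h.ne_d (k := a + k + 1) (by omega) hb
  have rt : ∀ v ∈ D.rl j (run D j a i b z1 z2) k, ∃ l ≤ D.t.d j,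
      v = ne D j i z1 z2 (a + k) l ∨ v = ne D j i z1 z2 (a + k + 1) l := by
    intro v hv
    simp only [Dat.rl, List.mem_append, List.mem_cons, List.mem_map, List.mem_range] at hv
    rcases hv with (e | ⟨l, hl, e⟩) | e | ⟨l, hl, e⟩
    exacts [⟨_, le_rfl, Or.inl (e.trans d0.symm)⟩, ⟨l, hl.le, Or.inl e.symm⟩,
      ⟨_, le_rfl, Or.inr (e.trans d1.symm)⟩, ⟨l, hl.le, Or.inr e.symm⟩]
  have vv : ∀ l < D.t.d j, ∀ v, Ow D j b l v → v ∈ D.Vw →
      v ∈ VV (D.σ.un (D.t.bag j (a + k) \ D.Ws)) ∪ Nm → v ∈ D.Bd ∧ v ∈ D.t.ter j (a + k) l := by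
    intro l hl v ⟨p, p1, p2⟩ w c
    have od := h.od (by omega) hl.le p2
    obtain ⟨b1, l', hl', b2⟩ := h.bgv ha hb
      (D.σ.vs_un _ ▸ ⟨c.resolve_right (od_iff.1 od), od⟩) w
    exact ⟨b1, h.ow hl' hl.le ⟨_, hb, b2⟩ ⟨p, p1, p2⟩ ▸ b2⟩
  have vr : ∀ l < D.t.d j, ∀ v, Ow D j b l v → v ∈ D.Vw → v ∈ D.rl j (run D j a i b z1 z2) k →
      v = zz i z1 z2 (a + k) l ∧ (D.t.ter j (a + k) l ∩ D.Vw).Nonempty := by
    intro l hl v o w c
    obtain ⟨l', hl', rfl | rfl⟩ := rt v c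
    · obtain rfl := h.ow hl.le hl' o (h.ow_ne hb.le hl')
      exact ⟨h.ne_l hl' (ne_vw w), _, h.e0 hm hl', ne_vw w⟩
    · obtain rfl := h.ow hl.le hl' o (h.ow_ne hb hl')
      exact ⟨ne_r (ne_vw w), _, h.e1 hm hl', ne_vw w⟩
  have rel : ∀ s, s = a + k ∨ s = a + k + 1 → ∀ l ≤ D.t.d j,
      (∃ l' ∈ Iio (D.t.d j), ne D j i z1 z2 s l = zz i z1 z2 (a + k) l' ∧
        D.t.ent j s l ∈ D.t.ter j (a + k) l' ∩ D.Vw) ∨
      ((∀ l' ∈ Iio (D.t.d j), ne D j i z1 z2 s l ≠ zz i z1 z2 (a + k) l') ∧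
        D.t.ent j s l = ne D j i z1 z2 s l) := by
    intro s hs l hl
    have s1 : a ≤ s := by omega
    have s2 : s ≤ b := by omega
    rcases hl.lt_or_eq with c | rfl
    · by_cases w : D.t.ent j s l ∈ D.Vw
      · rcases hs with rfl | rfl
        exacts [Or.inl ⟨l, c, h.ne_l hl w, h.e0 hm hl, w⟩, Or.inl ⟨l, c, ne_r w, h.e1 hm hl, w⟩]
      · exact Or.inr ⟨fun l' hl' e => w (ne_vw (e ▸ bd_vw (h.zz_bd (le_of_lt hl')))),
          (ne_out w).symm⟩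
    · exact Or.inr ⟨fun l' hl' e => ne_of_gt hl' (h.ow le_rfl (le_of_lt hl') (h.ow_ne s2 le_rfl)
        (e ▸ h.ow_zz (le_of_lt hl'))), (ent_d _ _ _).trans (h.ne_d s1 s2).symm⟩
  have f2 : ∀ s, s = a + k ∨ s = a + k + 1 → List.Forall₂ (fun r' r =>
      (∃ l ∈ Iio (D.t.d j), r' = zz i z1 z2 (a + k) l ∧ r ∈ D.t.ter j (a + k) l ∩ D.Vw) ∨
      ((∀ l ∈ Iio (D.t.d j), r' ≠ zz i z1 z2 (a + k) l) ∧ r = r'))
      (D.t.u j s :: (List.range (D.t.d j)).map (ne D j i z1 z2 s))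
      (D.t.u j s :: (List.range (D.t.d j)).map (D.t.β j s)) := by
    intro s hs
    refine List.Forall₂.cons ?_ ?_
    · have := rel s hs _ le_rfl
      rwa [ent_d, h.ne_d (by omega) (by omega)] at this
    · rw [List.forall₂_map_left_iff, List.forall₂_map_right_iff, List.forall₂_same]
      intro l hl
      have hl' := List.mem_range.1 hl
      have := rel s hs l hl'.le
      rwa [ent_lt _ hl'] at this
  refine slide (I := Iio (D.t.d j)) (z := zz i z1 z2 (a + k))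
    (S := fun l => D.t.ter j (a + k) l ∩ D.Vw) (D.σ.un_mono sdiff_subset)
    (fun l hl l' hl' e => h.ow (le_of_lt hl) (le_of_lt hl') (h.ow_zz (le_of_lt hl))
      (e ▸ h.ow_zz (le_of_lt hl')))
    (fun l hl l' hl' n => disjoint_left.2 fun z c c' =>
      n (h.ow (le_of_lt hl) (le_of_lt hl') ⟨_, hb, c.1⟩ ⟨_, hb, c'.1⟩))
    (fun l (hl : l < D.t.d j) c => ?_) (fun l (hl : l < D.t.d j) z c => ?_)
    (fun l (hl : l < D.t.d j) c =>
      ⟨(vv l hl _ (h.ow_zz hl.le) (bd_vw (h.zz_bd hl.le)) c).2, bd_vw (h.zz_bd hl.le)⟩)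
    (fun l (hl : l < D.t.d j) v c c' => ?_)
    (List.rel_append (f2 _ (Or.inl rfl)) (f2 _ (Or.inr rfl)))
  · have w := bd_vw (h.zz_bd (s := a + k) hl.le)
    refine walk2 (h.od hm hl.le) (h.lane hm hl.le (Or.inl hl)).1
      (fun v c c' => h.one ha hb hl.le c c') ?_
    rcases c with (c | c) | c
    exacts [⟨_, (vv l hl _ (h.ow_zz hl.le) w (Or.inl c)).2, w⟩, (vr l hl _ (h.ow_zz hl.le) w c).2,
      ⟨_, (vv l hl _ (h.ow_zz hl.le) w (Or.inr c)).2, w⟩]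
  · rcases ((h.lane hm hl.le (Or.inl hl)).2.2.2 c.1).1 with e | rfl
    · exact Or.inl (Or.inl (D.σ.vs_VV _ e))
    · refine Or.inl (Or.inr ?_)
      rw [ent_lt _ hl]
      exact List.mem_append_left _ (List.mem_cons_of_mem _
        (List.mem_map_of_mem (List.mem_range.2 hl)))
  · have o : Ow D j b l v := ⟨_, hb, c'.1⟩
    rcases c with (c | c) | c
    exacts [h.one ha hb hl.le c'.1 (vv l hl v o c'.2 (Or.inl c)).1, (vr l hl v o c'.2 c).1,
      h.one ha hb hl.le c'.1 (vv l hl v o c'.2 (Or.inr c)).1]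

end Ctx

end slid

theorem slidS : SlidS := by
  intro D ok j a i b md cl kp
  obtain ⟨z1, z2, h⟩ := slid.Bs.ex ⟨ok, md, cl, kp⟩
  obtain ⟨o1, o2, o3⟩ := kp.ord
  have out : ∀ k ≤ D.t.m j, k < a ∨ a + (b - a) < k → ∀ x ∈ D.Ck, D.t.u j k ∉ D.t.s.nb x :=
    fun k hk c => kp.outc k hk (by omega)
  refine ⟨slid.run D j a i b z1 z2, ⟨finite_singleton _, (ncard_singleton _).le⟩, ?_, ?_, ?_, ?_, ?_⟩
  · rintro _ rfl
    exact h.runOk
  · rintro _ rfl _ rfl n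
    exact absurd rfl n
  · refine (ncard_le_ncard (t := {0}) ?_).trans (ncard_singleton _).le
    rintro k ⟨hk, ⟨x, h1, h2⟩, h3⟩
    exact absurd h2 (out k hk (h3 _ rfl) x h1)
  · rintro _ rfl
    exact Or.inl ⟨⟨by rw [md]; simp, rfl, fun k hk => ⟨empty_disjoint _, h.full hk⟩⟩, fun _ => rfl⟩
  · rintro - _ rfl -
    refine ⟨?_, out⟩
    rintro v (c | c)
    · obtain ⟨l, hl, rfl⟩ := (h.rk (Nat.zero_le _)).1 c
      exact (h.ends hl).1 ▸ (h.h1 l hl).1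
    · obtain ⟨l, hl, rfl⟩ := (h.rk le_rfl).1 c
      exact (h.ends hl).2 ▸ (h.h2 l hl).1

end Pool.Agent.MP_9d78a0_co.gm

end MrgPart0

-- ======== part 1: formerly Pool.Agent.MP_9d78a0_co.gm.FGen1
section MrgPart1

/-! Block F, row GEN: cuts, lanes and kept bags. -/

set_option autoImplicit false

namespace Pool.Agent.MP_9d78a0_co.gm

open Set Function

namespace Gn

theorem iff_ind {p : ℕ → Prop} {a b : ℕ} (h : ∀ k, a ≤ k → k < b → (p k ↔ p (k + 1))) :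
    ∀ k, a ≤ k → k ≤ b → (p k ↔ p a) := by
  intro k hk
  induction k, hk using Nat.le_induction with
  | base => exact fun _ => Iff.rfl
  | succ k hk ih => exact fun h1 => (h k hk h1).symm.trans (ih (by omega))

theorem first_move {α : Type} (f : ℕ → α) {a b : ℕ} (hab : a ≤ b) (h : f a ≠ f b) :
    ∃ k, a ≤ k ∧ k < b ∧ f k = f a ∧ f k ≠ f (k + 1) := by
  induction b, hab using Nat.le_induction with
  | base => exact absurd rfl h
  | succ b hb ih =>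
    by_cases e : f a = f b
    · exact ⟨b, hb, by omega, e.symm, e ▸ h⟩
    · obtain ⟨k, h1, h2, h3⟩ := ih e
      exact ⟨k, h1, by omega, h3⟩

theorem last_move {α : Type} (f : ℕ → α) {a b : ℕ} (hab : a ≤ b) (h : f a ≠ f b) :
    ∃ k, a ≤ k ∧ k < b ∧ f (k + 1) = f b ∧ f k ≠ f (k + 1) := by
  induction b, hab using Nat.le_induction with
  | base => exact absurd rfl h
  | succ b hb ih =>
    by_cases e : f b = f (b + 1)
    · obtain ⟨k, h1, h2, h3, h4⟩ := ih (e ▸ h)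
      exact ⟨k, h1, by omega, h3.trans e, h4⟩
    · exact ⟨b, hb, by omega, rfl, e⟩

theorem enum (p : ℕ → Prop) (d : ℕ) : ∃ (d' : ℕ) (e : ℕ → ℕ), d' ≤ d ∧ e d' = d ∧
    (∀ n < d', e n < d ∧ p (e n)) ∧ (∀ n < d', ∀ n' < d', e n = e n' → n = n') ∧
    (∀ l < d, p l → ∃ n < d', e n = l) ∧ (d' = d → ∀ n < d, e n = n) := by
  classical
  set L := (List.range d).filter fun l => decide (p l) with hL
  have mem : ∀ l, l ∈ L ↔ l < d ∧ p l := fun l => by simp [hL]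
  have nd : L.Nodup := List.nodup_range.filter _
  have gd : ∀ n (hn : n < L.length), L.getD n d = L[n] := fun n hn => by simp [hn]
  refine ⟨L.length, fun n => L.getD n d, ?_, ?_, ?_, ?_, ?_, ?_⟩
  · simpa using List.length_filter_le (fun l => decide (p l)) (List.range d)
  · simp
  · intro n hn
    simp only [gd n hn]
    exact (mem _).1 (List.getElem_mem hn)
  · intro n hn n' hn' e
    simp only [gd n hn, gd n' hn'] at e
    exact (nd.getElem_inj_iff).1 e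
  · intro l hl hp
    obtain ⟨n, hn, e⟩ := List.getElem_of_mem ((mem l).2 ⟨hl, hp⟩)
    exact ⟨n, hn, (gd n hn).trans e⟩
  · intro e n hn
    have : L = List.range d :=
      (List.filter_sublist (l := List.range d)).eq_of_length (by simpa using e)
    simp [this, hn]

theorem cnt {α : Type} {S : Set α} (hS : S.Finite) {T : Set ℕ} (R : ℕ → α → Prop)
    (h : ∀ i ∈ T, ∃ v ∈ S, R i v) (u : ∀ v ∈ S, ∀ i i', i < i' → R i v → R i' v → False) :
    T.ncard ≤ S.ncard := by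
  rcases T.eq_empty_or_nonempty with rfl | ⟨i0, h0⟩
  · simp
  have : Nonempty α := ⟨(h i0 h0).choose⟩
  choose! g hg using fun i (hi : i ∈ T) => h i hi
  refine ncard_le_ncard_of_injOn g (fun i hi => (hg i hi).1) (fun i hi i' hi' e => ?_) hS
  rcases lt_trichotomy i i' with c | c | c
  · exact (u _ (hg i hi).1 i i' c (hg i hi).2 (e ▸ (hg i' hi').2)).elim
  · exact c
  · exact (u _ (hg i hi).1 i' i c (e ▸ (hg i' hi').2) (hg i hi).2).elim

section sh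

variable {σ : AG} {t : Sh σ} {j : t.ι} {i k l : ℕ} {v : W}

theorem mem_vs {U : Set σ.ε} : v ∈ σ.vs U ↔ ∃ a ∈ U, v ∈ σ.inc a := by
  simp [AG.vs]

theorem vs_od {U : Set σ.ε} (h : v ∈ σ.vs U) : v ∈ Od := by
  obtain ⟨a, -, ha⟩ := mem_vs.1 h
  exact ha.2

theorem vs_mono {U U' : Set σ.ε} (h : U ⊆ U') : σ.vs U ⊆ σ.vs U' := fun _ hv => by
  obtain ⟨a, ha, k⟩ := mem_vs.1 hv
  exact mem_vs.2 ⟨a, h ha, k⟩

theorem adj_atom {U : Set σ.ε} {x y : W} (h : (gr (σ.un U)).Adj x y) :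
    ∃ a ∈ U, (gr (σ.pc a)).Adj x y := by
  obtain ⟨n, h | h⟩ := h
  · obtain ⟨a, ha, k⟩ := mem_iUnion₂.1 h
    exact ⟨a, ha, n, Or.inl k⟩
  · obtain ⟨a, ha, k⟩ := mem_iUnion₂.1 h
    exact ⟨a, ha, n, Or.inr k⟩

theorem un_mono {U U' : Set σ.ε} (h : U ⊆ U') : σ.un U ⊆ σ.un U' := biUnion_subset_biUnion_left h

theorem u_vt (te : t.Ter) (hi : i ≤ t.m j) : Sum.inl (t.u j i) ∈ t.s.Vt := (te.node j i hi).1.1

theorem u_kap : t.u j i ∈ t.κ j i := Or.inl rfl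

theorem b_kap (hl : l < t.d j) : t.β j i l ∈ t.κ j i := Or.inr ⟨l, hl, rfl⟩

theorem b_ne_u (o : t.Ok) (te : t.Ter) (hi : i ≤ t.m j) (hk : k ≤ t.m j) (hl : l < t.d j)
    (h : t.β j i l ∉ t.Λ) : t.β j i l ≠ t.u j k := fun e =>
  (o.inner j i hi l hl).2 h (e ▸ u_vt te hk)

theorem kap_lane (o : t.Ok) (te : t.Ter) (hi : i ≤ t.m j) (hk : k ≤ t.m j) (hl : l < t.d j)
    (h : t.β j i l ∉ t.Λ) (hv : t.β j i l ∈ t.κ j k) : t.β j k l = t.β j i l := by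
  rcases hv with e | ⟨l', hl', e⟩
  · exact absurd e (b_ne_u o te hi hk hl h)
  · obtain ⟨-, rfl⟩ := o.priv j j i hi k hk l hl l' hl' h e.symm
    exact e

theorem kap_two (o : t.Ok) (up : t.Up) (te : t.Ter) (hi : i ≤ t.m j) (hk : k ≤ t.m j) (n : i ≠ k)
    (h : v ∉ t.Λ) (h1 : v ∈ t.κ j i) (h2 : v ∈ t.κ j k) :
    ∃ l < t.d j, t.β j i l = v ∧ t.β j k l = v := by
  rcases h1 with e | ⟨l, hl, e⟩
  · obtain rfl : v = t.u j i := e
    rcases h2 with e | ⟨l, hl, e⟩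
    · exact absurd (up.pos j j i hi k hk e).2 n
    · exact absurd e (b_ne_u o te hk hi hl (e ▸ h))
  · subst e
    exact ⟨l, hl, rfl, kap_lane o te hi hk hl h h2⟩

theorem kap_conv (o : t.Ok) (up : t.Up) (te : t.Ter) {a b c : ℕ} (hab : a ≤ b) (hbc : b ≤ c)
    (hc : c ≤ t.m j) (h : v ∉ t.Λ) (h1 : v ∈ t.κ j a) (h2 : v ∈ t.κ j c) : v ∈ t.κ j b := by
  by_cases n : a = c
  · obtain rfl : b = a := by omega
    exact h1
  obtain ⟨l, hl, e1, e2⟩ := kap_two o up te (by omega) hc n h h1 h2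
  exact Or.inr ⟨l, hl, (o.conv j l hl a b c hab hbc hc (e1 ▸ h) (e1.trans e2.symm)).trans e1⟩

theorem share_bag (o : t.Ok) (hv : v ∈ σ.vs (t.bag j i)) (h : v ∉ t.Λ)
    (c : Sum.inl v ∈ t.s.Vt ∨ ∃ k ≤ t.m j, v ∈ t.κ j k) : v ∈ t.κ j i ∪ t.κ j (i + 1) := by
  obtain ⟨a, ha, k⟩ := mem_vs.1 hv
  exact (o.share a v ⟨k, h⟩ (c.imp id fun c => Or.inl ⟨j, c⟩)).2.1 j i ha

theorem lane_out {U : Set σ.ε} {P : Set W} {w : W} (h : t.Lane j i P v w) (hv : v ∈ Od)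
    (h1 : v ∉ σ.vs U) (h2 : Disjoint P (σ.bd U)) :
    Conn (gr (σ.un (t.bag j i \ U))) P ∧ P ⊆ σ.vs (t.bag j i \ U) ∪ {v} := by
  obtain ⟨c, m1, -, s⟩ := h
  have od : ∀ x ∈ P, x ∈ Od := fun x hx => (s hx).1.elim vs_od fun e => e ▸ hv
  have step : ∀ x ∈ P, ∀ y ∈ P, x ∉ σ.vs U → (gr (σ.un (t.bag j i))).Adj x y →
      y ∉ σ.vs U ∧ (gr (σ.un (t.bag j i \ U))).Adj x y := by
    intro x hx y hy n e
    obtain ⟨a, ha, e⟩ := adj_atom e
    have na : a ∉ U := fun k => n (mem_vs.2 ⟨a, k, gr_mem e, od x hx⟩)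
    refine ⟨fun k => disjoint_left.1 h2 hy ⟨mem_vs.1 k, a, na, gr_mem e.symm, od y hy⟩, ?_⟩
    exact gr_mono (subset_biUnion_of_mem (u := σ.pc) (show a ∈ t.bag j i \ U from ⟨ha, na⟩)) e
  have out : ∀ x ∈ P, x ∉ σ.vs U := by
    intro x hx
    have k := c.2 v m1 x hx
    clear hx
    induction k with
    | refl => exact h1
    | tail _ h3 ih => exact (step _ h3.1 _ h3.2.1 ih h3.2.2).1
  refine ⟨⟨c.1, fun x hx y hy => Link.map (G' := gr (σ.un (t.bag j i \ U))) id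
    (fun p hp q hq e => Link.single hp hq (step p hp q hq (out p hp) e).2) (c.2 x hx y hy)⟩, ?_⟩
  intro x hx
  rcases (s hx).1 with k | k
  · obtain ⟨a, ha, k⟩ := mem_vs.1 k
    exact Or.inl (mem_vs.2 ⟨a, ⟨ha, fun n => out x hx (mem_vs.2 ⟨a, n, k⟩)⟩, k⟩)
  · exact Or.inr k

theorem lane_ends {P : Set W} {w : W} (h : t.Lane j i P v w) (hv : v ∈ Od) (n : v ≠ w) :
    v ∈ σ.vs (t.bag j i) ∧ w ∈ σ.vs (t.bag j i) := by
  obtain ⟨c, m1, m2, s⟩ := h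
  refine ⟨?_, (s m2).1.resolve_right n.symm⟩
  rcases (c.2 v m1 w m2).cases_head with e | ⟨x, ⟨-, -, e⟩, -⟩
  · exact absurd e n
  · obtain ⟨a, ha, e⟩ := adj_atom e
    exact mem_vs.2 ⟨a, ha, gr_mem e, hv⟩

theorem ent_lt (hl : l < t.d j) : t.ent j i l = t.β j i l := if_pos hl

theorem ent_d : t.ent j i (t.d j) = t.u j i := if_neg (lt_irrefl _)

theorem ter_lt (hl : l < t.d j) : t.ter j i l = t.L j i l := if_pos (Or.inl hl)

theorem fib {S : Set (t.ι × ℕ)} (h : ∀ p ∈ S, p.2 < t.m p.1) (j : t.ι) :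
    {i | (j, i) ∈ S}.ncard ≤ S.ncard := by
  have : S.Finite := (finite_iUnion fun j : t.ι => (finite_singleton j).prod
    (finite_Iio (t.m j))).subset fun p hp => mem_iUnion.2 ⟨p.1, rfl, h p hp⟩
  exact ncard_le_ncard_of_injOn (fun i => (j, i)) (fun _ hi => hi)
    (fun _ _ _ _ e => (Prod.ext_iff.1 e).2) this

end sh

end Gn

end Pool.Agent.MP_9d78a0_co.gm

end MrgPart1

-- ======== part 2: formerly Pool.Agent.MP_9d78a0_co.gm.FGen
section MrgPart2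

/-! Block F, row GEN: runs of kept bags. -/

set_option autoImplicit false

namespace Pool.Agent.MP_9d78a0_co.gm

open Set Function

namespace Gn

variable {D : Dat} {j : D.t.ι} {a b i k l : ℕ} {v : W}

/-- a bag with its two cuts -/
def rg (D : Dat) (j : D.t.ι) (i : ℕ) : Set W :=
  D.σ.vs (D.t.bag j i) ∪ D.t.κ j i ∪ D.t.κ j (i + 1)

/-- an exposed vertex of the bag is not in both cuts -/
def Ev (D : Dat) (j : D.t.ι) (i : ℕ) : Prop :=
  ∃ v ∈ D.E \ D.t.Λ, v ∈ rg D j i ∧ ¬ (v ∈ D.t.κ j i ∧ v ∈ D.t.κ j (i + 1))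

/-- kept bags -/
def Kb (D : Dat) (j : D.t.ι) (i : ℕ) : Prop :=
  i < D.t.m j ∧ ¬ D.Sb j i ∧ ¬ Ev D j i ∧ D.t.u j i ∉ D.Vw

/-- an interval of kept bags -/
def Seg (D : Dat) (j : D.t.ι) (a b : ℕ) : Prop := a < b ∧ ∀ i, a ≤ i → i < b → Kb D j i

/-- retained lanes -/
def Ret (D : Dat) (j : D.t.ι) (a b l : ℕ) : Prop :=
  D.t.β j a l ∉ D.t.Λ ∧ D.t.β j a l ≠ D.t.β j b l ∧ D.t.β j a l ∉ D.Vw

/-- the named vertices -/
def Qs (D : Dat) (j : D.t.ι) (a b : ℕ) : Set W :=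
  D.t.Λ ∪ {v | ∃ l < D.t.d j, D.t.β j a l = v ∧ D.t.β j b l = v}

/-- the run on the bags `a, …, b - 1` -/
def run (D : Dat) (j : D.t.ι) (a b d : ℕ) (e : ℕ → ℕ) : Run :=
  ⟨a, b - a, d, fun i l => D.t.β j (a + i) (e l), fun i l => D.t.L j (a + i) (e l), Qs D j a b⟩

theorem bd_E : D.Bd ⊆ D.E := subset_union_left

theorem to_bd {x : D.σ.ε} (hx : x ∉ D.Ws) (h : v ∈ D.σ.inc x) (h' : v ∈ D.Vw) : v ∈ D.Bd :=
  ⟨mem_vs.1 h', x, hx, h⟩

theorem Seg.le (s : Seg D j a b) : b ≤ D.t.m j := by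
  have := s.1
  have := (s.2 (b - 1) (by omega) (by omega)).1
  omega

variable (ok : D.Ok)
include ok

theorem both (hi : i < D.t.m j) (n : ¬ Ev D j i) (h : v ∈ D.E) (h' : v ∉ D.t.Λ)
    (r : v ∈ rg D j i) : ∃ l < D.t.d j, D.t.β j i l = v ∧ D.t.β j (i + 1) l = v := by
  have : v ∈ D.t.κ j i ∧ v ∈ D.t.κ j (i + 1) := by
    by_contra c
    exact n ⟨v, ⟨h, h'⟩, r, c⟩
  exact kap_two ok.pre.ok ok.up ok.ter hi.le hi (by omega) h' this.1 this.2

theorem u_E (hi : i < D.t.m j) (n : ¬ Ev D j i) :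
    D.t.u j i ∉ D.E ∧ D.t.u j (i + 1) ∉ D.E := by
  have o := ok.pre.ok
  refine ⟨fun c => ?_, fun c => ?_⟩
  · obtain ⟨l, hl, e, -⟩ := both ok hi n c (o.ulam j i hi.le) (Or.inl (Or.inr u_kap))
    exact b_ne_u o ok.ter hi.le hi.le hl (e ▸ o.ulam j i hi.le) e
  · obtain ⟨l, hl, e, -⟩ := both ok hi n c (o.ulam j _ hi) (Or.inr u_kap)
    exact b_ne_u o ok.ter hi.le hi hl (e ▸ o.ulam j _ hi) e

theorem lane_bd (hi : i < D.t.m j) (n : ¬ Ev D j i) (hl : l ≤ D.t.d j) {x y : W}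
    (h : D.t.Lane j i (D.t.L j i l) x y) (hx : x ∈ D.t.κ j i) (hv : v ∈ D.t.L j i l)
    (hb : v ∈ D.Bd) : l < D.t.d j ∧ D.t.β j i l = v ∧ D.t.β j (i + 1) l = v := by
  obtain ⟨h1, h2⟩ := h.2.2.2 hv
  obtain ⟨l', hl', e1, e2⟩ := both ok hi n (bd_E hb) h2
    (Or.inl (h1.imp id fun e => (show v = x from e) ▸ hx))
  obtain rfl : l = l' := by
    by_contra c
    exact (ok.pre.ok.lent j i hi l hl l' hl' c).1 (e1 ▸ hv)
  exact ⟨hl', e1, e2⟩

theorem lk_cases (hi : i < D.t.m j) (n : ¬ Ev D j i) : D.t.lk j i ∈ D.t.s.Rm ∪ D.Ck ∨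
    (D.t.lk j i ∉ D.t.s.Rm ∧ D.t.u j i ∈ D.Vw ∧ D.t.u j (i + 1) ∈ D.Vw) := by
  by_cases r : D.t.lk j i ∈ D.t.s.Rm
  · exact Or.inl (Or.inl r)
  have c := (ok.pre.ok.quad j i hi).2.resolve_left r
  obtain ⟨n1, n2, -⟩ := ok.ter.lk j i hi
  by_cases c1 : D.t.lk j i ∈ D.Ci
  · exact Or.inr ⟨r, ok.kc.ins _ c1 n1, ok.kc.ins _ c1 n2⟩
  exact Or.inl (Or.inr ⟨c, fun k => k.elim c1 fun k =>
    (u_E ok hi n).1 (Or.inr (mem_biUnion k n1))⟩)

theorem u_Vw (hi : i < D.t.m j) (n : ¬ Ev D j i) :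
    D.t.u j i ∈ D.Vw ↔ D.t.u j (i + 1) ∈ D.Vw := by
  have o := ok.pre.ok
  by_contra c
  obtain ⟨i', h1, h2, z, hz, hb⟩ := ok.ter.pay D.Ws j (D.t.d j) i (i + 1) (by omega)
    (fun k h1 h2 => by
      obtain rfl : k = i := by omega
      exact ⟨hi, le_rfl, ent_d ▸ o.ulam j k hi.le, ent_d ▸ o.ulam j _ hi⟩)
    (by rwa [ent_d, ent_d])
  obtain rfl : i' = i := by omega
  by_cases r : D.t.lk j i' ∈ D.t.s.Rm
  · rw [Sh.ter, if_pos (Or.inr r)] at hz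
    exact lt_irrefl _ (lane_bd ok hi n le_rfl (o.path j i' hi r) u_kap hz hb).1
  rw [Sh.ter, if_neg (by simpa using r)] at hz
  rcases lk_cases ok hi n with (k | k) | k
  · exact r k
  · rcases hz with (e | e) | e
    · exact (u_E ok hi n).1 (e ▸ bd_E hb)
    · exact (u_E ok hi n).2 ((show z = _ from e) ▸ bd_E hb)
    · exact e.2 (ok.cc.ins _ k ⟨hb, e.1⟩)
  · exact c (iff_of_true k.2.1 k.2.2)

variable (s : Seg D j a b)
include s

theorem lamc (hl : l < D.t.d j) (h1 : a ≤ i) (h2 : i ≤ b) :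
    D.t.β j i l ∈ D.t.Λ ↔ D.t.β j a l ∈ D.t.Λ :=
  iff_ind (p := fun i => D.t.β j i l ∈ D.t.Λ) (fun k k1 k2 => by
    by_contra c
    exact (s.2 k k1 k2).2.1 (ok.pre.tr (j, k) ⟨(s.2 k k1 k2).1, l, hl, c⟩)) i h1 h2

theorem u_out (h1 : a ≤ i) (h2 : i ≤ b) : D.t.u j i ∉ D.E ∪ D.Vw := by
  have := s.1
  rcases h2.eq_or_lt with rfl | h2
  · obtain ⟨k, rfl⟩ : ∃ k, i = k + 1 := ⟨i - 1, by omega⟩
    obtain ⟨c1, -, c2, c3⟩ := s.2 k (by omega) (by omega)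
    exact fun c => c.elim (u_E ok c1 c2).2 fun c => c3 ((u_Vw ok c1 c2).2 c)
  · obtain ⟨c1, -, c2, c3⟩ := s.2 i h1 h2
    exact fun c => c.elim (u_E ok c1 c2).1 c3

theorem econst (h1 : a ≤ i) (h2 : i < b) (h : v ∈ D.E) (h' : v ∉ D.t.Λ) (r : v ∈ rg D j i) :
    ∃ l < D.t.d j, D.t.β j a l = v ∧ D.t.β j b l = v := by
  have := s.le
  have ab := s.1
  have key := iff_ind (p := fun k => v ∈ D.t.κ j k) (a := a) (b := b) fun k k1 k2 => by
    obtain ⟨c1, -, c2, -⟩ := s.2 k k1 k2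
    refine ⟨fun c => ?_, fun c => ?_⟩
    · obtain ⟨l, hl, -, e⟩ := both ok c1 c2 h h' (Or.inl (Or.inr c))
      exact e ▸ b_kap hl
    · obtain ⟨l, hl, e, -⟩ := both ok c1 c2 h h' (Or.inr c)
      exact e ▸ b_kap hl
  obtain ⟨l, hl, e, -⟩ := both ok (s.2 i h1 h2).1 (s.2 i h1 h2).2.2.1 h h' r
  have ka := (key i h1 h2.le).1 (e ▸ b_kap hl)
  exact kap_two ok.pre.ok ok.up ok.ter (by omega) this ab.ne h' ka ((key b ab.le le_rfl).2 ka)

theorem lane_mv (hl : l < D.t.d j) (r1 : D.t.β j a l ∉ D.t.Λ) (r2 : D.t.β j a l ≠ D.t.β j b l)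
    (h1 : a ≤ i) (h2 : i < b) :
    (D.t.Lane j i (D.t.L j i l) (D.t.β j i l) (D.t.β j (i + 1) l) ∧ D.t.u j i ∉ D.t.L j i l ∧
      D.t.u j (i + 1) ∉ D.t.L j i l) ∧ Disjoint (D.t.L j i l) D.Bd := by
  have o := ok.pre.ok
  have := s.le
  have n1 := mt (lamc ok s hl h1 h2.le).1 r1
  have la := o.lane j i (by omega) l hl n1 (mt (lamc ok s hl (by omega) h2).1 r1)
  refine ⟨la, disjoint_left.2 fun z hz hb => ?_⟩
  obtain ⟨-, e, -⟩ := lane_bd ok (by omega) (s.2 i h1 h2).2.2.1 hl.le la.1 (b_kap hl) hz hb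
  obtain ⟨l', hl', e1, e2⟩ := econst ok s h1 h2 (bd_E hb) (e ▸ n1) (Or.inl (Or.inr (e ▸ b_kap hl)))
  obtain ⟨-, rfl⟩ := o.priv j j i (by omega) a (by omega) l hl l' hl' n1 (e.trans e1.symm)
  exact r2 (e1.trans e2.symm)

theorem vwc (hl : l < D.t.d j) (r1 : D.t.β j a l ∉ D.t.Λ) (r2 : D.t.β j a l ≠ D.t.β j b l)
    (h1 : a ≤ i) (h2 : i ≤ b) : D.t.β j a l ∈ D.Vw ↔ D.t.β j i l ∈ D.Vw := by
  have := s.le
  by_contra c
  obtain ⟨k, k1, k2, z, hz, hb⟩ := ok.ter.pay D.Ws j l a i h1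
    (fun k k1 k2 => ⟨by omega, hl.le, ent_lt hl ▸ mt (lamc ok s hl k1 (by omega)).1 r1,
      ent_lt hl ▸ mt (lamc ok s hl (by omega) (by omega)).1 r1⟩)
    (by rwa [ent_lt hl, ent_lt hl])
  exact disjoint_left.1 (lane_mv ok s hl r1 r2 k1 (by omega)).2 (ter_lt hl ▸ hz) hb

theorem q_ent (h1 : a ≤ i) (h2 : i ≤ b) (h : v ∈ Qs D j a b) (h' : v ∉ D.t.Λ) :
    ∃ l < D.t.d j, D.t.β j a l = D.t.β j b l ∧ D.t.β j i l = v := by
  obtain ⟨l, hl, e1, e2⟩ := h.resolve_left h'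
  exact ⟨l, hl, e1.trans e2.symm,
    (ok.pre.ok.conv j l hl a i b h1 h2 s.le (e1 ▸ h') (e1.trans e2.symm)).trans e1⟩

theorem ln_of (h1 : a ≤ i) (h2 : i < b) (hl : l ≤ D.t.d j) {x y : W}
    (h : D.t.Lane j i (D.t.L j i l) x y) (hx : x ∈ Od) (hx' : x ∉ D.Vw)
    (hb : Disjoint (D.t.L j i l) D.Bd) (mv : l < D.t.d j → D.t.β j a l ≠ D.t.β j b l) :
    Conn (gr (D.σ.un (D.t.bag j i \ D.Ws))) (D.t.L j i l) ∧ x ∈ D.t.L j i l ∧ y ∈ D.t.L j i l ∧
      D.t.L j i l ⊆ (D.σ.vs (D.t.bag j i \ D.Ws) ∪ {x}) \ Qs D j a b := by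
  obtain ⟨c1, c2⟩ := lane_out h hx hx' hb
  refine ⟨c1, h.2.1, h.2.2.1, fun z hz => ⟨c2 hz, fun q => ?_⟩⟩
  obtain ⟨l', hl', e1, e2⟩ := q_ent ok s h1 h2.le q (h.2.2.2 hz).2
  by_cases c : l = l'
  · exact mv (c ▸ hl') (c ▸ e1)
  · exact (ok.pre.ok.lent j i (s.2 i h1 h2).1 l hl l' hl' c).1 (e2 ▸ hz)

theorem ret_in (hl : l < D.t.d j) (r : Ret D j a b l) (h1 : a ≤ i) (h2 : i ≤ b) :
    D.t.β j i l ∉ D.t.Λ ∧ D.t.β j i l ∉ D.Vw ∧ D.t.β j i l ∉ Qs D j a b ∧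
      D.t.β j i l ∈ D.σ.vs (⋃ k, D.t.bag j k) := by
  have o := ok.pre.ok
  have := s.le
  have n1 := mt (lamc ok s hl h1 h2).1 r.1
  refine ⟨n1, mt (vwc ok s hl r.1 r.2.1 h1 h2).2 r.2.2, fun q => ?_, ?_⟩
  · obtain ⟨l', hl', e1, e2⟩ := q_ent ok s h1 h2 q n1
    obtain ⟨-, rfl⟩ := o.priv j j i (by omega) i (by omega) l hl l' hl' n1 e2.symm
    exact r.2.1 e1
  by_cases c : D.t.β j i l = D.t.β j b l
  · obtain ⟨k, k1, k2, e, n⟩ := last_move (fun i => D.t.β j i l) h1 (c ▸ r.2.1)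
    exact e ▸ vs_mono (subset_iUnion _ k) (lane_ends (lane_mv ok s hl r.1 r.2.1 k1 (by omega)).1.1
      (o.inner j k (by omega) l hl).1 n).2
  · obtain ⟨k, k1, k2, e, n⟩ := first_move (fun i => D.t.β j i l) h2 c
    exact e ▸ vs_mono (subset_iUnion _ k)
      (lane_ends (lane_mv ok s hl r.1 r.2.1 (by omega) k2).1.1 (o.inner j k (by omega) l hl).1 n).1

theorem runOk {d : ℕ} {e : ℕ → ℕ} (e1 : d ≤ D.t.d j) (e2 : e d = D.t.d j)
    (e3 : ∀ n < d, e n < D.t.d j ∧ Ret D j a b (e n))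
    (e4 : ∀ n < d, ∀ n' < d, e n = e n' → n = n')
    (e5 : ∀ l < D.t.d j, Ret D j a b l → ∃ n < d, e n = l) : D.RunOk j (run D j a b d e) := by
  have o := ok.pre.ok
  have te := ok.ter
  have ab := s.1
  have bm := s.le
  have eb : a + (b - a) = b := by omega
  have rin := fun i (hi : i ≤ b - a) n (hn : n < d) =>
    ret_in ok s (e3 n hn).1 (e3 n hn).2 (Nat.le_add_right a i) (by omega)
  have rk : ∀ i, D.rk j (run D j a b d e) i ⊆ D.t.κ j (a + i) := by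
    rintro i v (h | ⟨n, hn, h⟩)
    · exact Or.inl h
    · exact Or.inr ⟨_, (e3 n hn).1, h⟩
  have ele : ∀ n ≤ d, e n ≤ D.t.d j := fun n hn => by
    rcases hn.eq_or_lt with rfl | hn
    exacts [e2.le, (e3 n hn).1.le]
  have ene : ∀ n ≤ d, ∀ n' ≤ d, n ≠ n' → e n ≠ e n' := fun n hn n' hn' c h => by
    rcases hn.eq_or_lt with rfl | hn <;> rcases hn'.eq_or_lt with rfl | hn'
    · exact c rfl
    · have := (e3 n' hn').1; omega
    · have := (e3 n hn).1; omega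
    · exact c (e4 n hn n' hn' h)
  refine
    { len := ⟨show 0 < b - a by omega, show a + (b - a) ≤ _ by omega⟩
      dep := e1
      seed := fun i (hi : i < b - a) => (s.2 (a + i) (by omega) (by omega)).2.1
      lk := fun i (hi : i < b - a) => ?_
      nm := ⟨subset_union_left, ?_, ?_, ?_, ?_⟩
      inner := fun i hi n hn => ?_
      priv := fun i (hi : i ≤ b - a) i' (hi' : i' ≤ b - a) n hn n' hn' h => e4 n hn n' hn'
        (o.priv j j _ (by omega) _ (by omega) _ (e3 n hn).1 _ (e3 n' hn').1 (rin i hi n hn).1 h).2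
      conv := fun n hn i k i' h1 h2 (h3 : i' ≤ b - a) h => o.conv j _ (e3 n hn).1 (a + i) (a + k)
        (a + i') (by omega) (by omega) (by omega) (rin i (by omega) n hn).1 h
      shb := fun i (hi : i < b - a) v hv => ?_
      mid := fun i (hi : i ≤ b - a) n hn h c => ?_
      midu := fun i _ (hi : i < b - a) => u_out ok s (i := a + i) (by omega) (by omega)
      endu := fun i (hi : i ≤ b - a) c =>
        u_out ok s (i := a + i) (by omega) (by omega) (Or.inr c.1)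
      lane := fun i (hi : i < b - a) n hn => ?_
      path := fun i (hi : i < b - a) r => ?_
      ldis := fun i (hi : i < b - a) n hn n' hn' c =>
        o.ldis j (a + i) (by omega) _ (ele n hn) _ (ele n' hn') (ene n hn n' hn' c)
      lent := fun i (hi : i < b - a) n hn n' hn' c =>
        o.lent j (a + i) (by omega) _ (ele n hn) _ (e3 n' hn').1 (ene n hn n' (le_of_lt hn') c)
      move := fun n hn => ?_ }
  · obtain ⟨c1, -, c2, c3⟩ := s.2 (a + i) (by omega) (by omega)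
    exact (lk_cases ok c1 c2).resolve_right fun c => c3 c.2.1
  · rintro v (h | ⟨l, hl, h, -⟩)
    exacts [o.lam.1 h, h ▸ (o.inner j a (by omega) l hl).1]
  · exact o.lam.2.union ((te.cut j a).2.1.subset fun v ⟨l, hl, h, _⟩ => Or.inr ⟨l, hl, h⟩)
  · have h1 : {v | ∃ l < D.t.d j, D.t.β j a l = v ∧ D.t.β j b l = v}.ncard ≤ D.t.d j :=
      (ncard_le_ncard (t := D.t.β j a '' Iio (D.t.d j)) (by rintro v ⟨l, hl, h, -⟩; exact ⟨l, hl, h⟩)
        ((finite_Iio _).image _)).trans ((ncard_image_le (finite_Iio _)).trans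
          (by rw [← Finset.coe_range, ncard_coe_finset, Finset.card_range]))
    have h2 := ncard_union_le D.t.Λ {v | ∃ l < D.t.d j, D.t.β j a l = v ∧ D.t.β j b l = v}
    have h3 := ok.pre.cnt.2.2.1
    have h4 := ok.pre.cnt.2.2.2.2 j
    change (D.t.Λ ∪ _).ncard ≤ _
    omega
  · rintro v ⟨h, h'⟩
    obtain ⟨l, hl, h, -⟩ := h.resolve_left h'
    exact ⟨h ▸ (o.inner j a (by omega) l hl).2 (h ▸ h'), a, by omega, Or.inr ⟨l, hl, h⟩⟩
  · have hi' : i ≤ b - a := hi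
    obtain ⟨c1, -, c3, c4⟩ := rin i hi n hn
    obtain ⟨c5, c6⟩ := o.inner j (a + i) (by omega) _ (e3 n hn).1
    exact ⟨c5, c6 c1, c3, c4, Or.inr ⟨a + i, by omega, b_kap (e3 n hn).1⟩⟩
  · obtain ⟨hv, q⟩ := hv
    obtain ⟨x, ⟨x1, x2⟩, x3⟩ := mem_vs.1 hv
    have hb : v ∈ D.σ.vs (D.t.bag j (a + i)) := mem_vs.2 ⟨x, x1, x3⟩
    have nl : v ∉ D.t.Λ := fun c => q (Or.inl c)
    have nw : v ∉ D.Vw := fun c => q (Or.inr (econst ok s (Nat.le_add_right a i) (by omega)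
      (bd_E (to_bd x2 x3 c)) nl (Or.inl (Or.inl hb))))
    have key : ∀ k ≤ b - a, v ∈ D.t.κ j (a + k) → v ∈ D.rk j (run D j a b d e) k := by
      rintro k hk (h | ⟨l, hl, h⟩)
      · exact Or.inl h
      have r1 : D.t.β j a l ∉ D.t.Λ :=
        mt (lamc ok s hl (Nat.le_add_right a k) (by omega)).2 (h ▸ nl)
      have r2 : D.t.β j a l ≠ D.t.β j b l := fun c => by
        have := (o.conv j l hl a (a + k) b (by omega) (by omega) bm r1 c).symm.trans h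
        exact q (Or.inr ⟨l, hl, this, c ▸ this⟩)
      obtain ⟨n, hn, rfl⟩ := e5 l hl ⟨r1, r2,
        mt (vwc ok s hl r1 r2 (Nat.le_add_right a k) (by omega)).1 (h ▸ nw)⟩
      exact Or.inr ⟨n, hn, h⟩
    by_cases c : v ∈ D.t.κ j (a + i) ∪ D.t.κ j (a + i + 1)
    · exact Or.inl (c.imp (key i hi.le) (key (i + 1) hi))
    refine Or.inr ⟨fun h => c (share_bag o hb nl (Or.inl h)), fun h => ?_,
      fun k (hk : k ≤ b - a) h => c (share_bag o hb nl (Or.inr ⟨a + k, by omega, rk k h⟩))⟩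
    obtain ⟨y, y1, y2⟩ := mem_vs.1 h
    have : y ∉ D.t.bag j (a + i) := fun h => y1 ⟨h, fun h => nw (mem_vs.2 ⟨y, h, y2⟩)⟩
    exact (te.bdb j (a + i) ⟨⟨x, x1, x3⟩, y, this, y2⟩).elim c nl
  · obtain ⟨x, x1, x2⟩ := mem_vs.1 c
    have hl := (e3 n hn).1
    obtain ⟨c1, c2, -⟩ := rin i hi n hn
    have xw : x ∉ D.Ws := fun h => c2 (mem_vs.2 ⟨x, h, x2⟩)
    have na : D.t.β j (a + i) (e n) ≠ D.t.β j a (e n) := fun q =>
      h (Or.inl (Or.inr ⟨n, hn, q.symm⟩))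
    have nb : D.t.β j (a + i) (e n) ≠ D.t.β j b (e n) := fun q =>
      h (Or.inr (Or.inr ⟨n, hn, by change D.t.β j (a + (b - a)) (e n) = _; rw [eb]; exact q.symm⟩))
    have ib : a + i < b := lt_of_le_of_ne (by omega) fun q => nb (by rw [q])
    have act : D.t.Act j (a + i) (e n) :=
      ⟨by omega, hl.le, ent_lt hl ▸ c1, ent_lt hl ▸ (rin (i + 1) (by omega) n hn).1⟩
    have zt : D.t.β j (a + i) (e n) ∈ D.t.ter j (a + i) (e n) := ent_lt hl ▸ (te.link _ _ _ act).2.1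
    rcases ho : D.t.own x with _ | y | ⟨j', i'⟩
    · exact xw (ok.hull.sm.2.2 (ok.pre.rest ho))
    · exact hl.ne (te.inc _ _ _ act _ zt y (mem_vs.2 ⟨x, ho, x2⟩)).1
    obtain ⟨rfl, k1, k2⟩ := te.inb _ _ _ act _ zt j' i' (mem_vs.2 ⟨x, ho, x2⟩)
    by_cases q1 : i' < a
    · exact na ((k2 a q1 (by omega)).trans (ent_lt hl))
    by_cases q2 : b ≤ i'
    · exact nb ((k1 b ib q2).trans (ent_lt hl))
    refine x1 (mem_iUnion₂.2 ⟨i' - a, show i' - a < b - a by omega, ?_, xw⟩)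
    change D.t.own x = some (Sum.inr (j', a + (i' - a)))
    rw [ho, Nat.add_sub_cancel' (by omega)]
  · obtain ⟨hl, r⟩ := e3 n hn
    obtain ⟨⟨c1, c2⟩, c3⟩ := lane_mv ok s hl r.1 r.2.1 (Nat.le_add_right a i) (by omega)
    exact ⟨ln_of ok s (Nat.le_add_right a i) (by omega) hl.le c1
      (o.inner j _ (by omega) _ hl).1 (rin i hi.le n hn).2.1 c3 fun _ => r.2.1, c2⟩
  · have la := o.path j (a + i) (by omega) r
    obtain ⟨c1, -, c2, c3⟩ := s.2 (a + i) (by omega) (by omega)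
    have := ln_of ok s (Nat.le_add_right a i) (by omega) le_rfl la
      (o.ok.od _ (u_vt te c1.le)) c3
      (disjoint_left.2 fun z hz hb => lt_irrefl _ (lane_bd ok c1 c2 le_rfl la u_kap hz hb).1)
      fun c => absurd c (lt_irrefl _)
    rw [← e2] at this
    exact this
  · change D.t.β j a (e n) ≠ D.t.β j (a + (b - a)) (e n)
    rw [eb]
    exact (e3 n hn).2.2.1

theorem exRun (hk : D.md j = Md.keep → ∀ i, ¬ D.Clear j i) : ∃ r : Run, D.RunOk j r ∧ r.lo = a ∧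
    r.lo + r.m = b ∧ (D.md j = Md.keep → r.d ≠ D.t.d j) ∧
    (D.Full j r ∨ (D.md j ≠ Md.new → r.d < D.t.d j)) := by
  obtain ⟨d, e, e1, e2, e3, e4, e5, e6⟩ := enum (Ret D j a b) (D.t.d j)
  have ab := s.1
  have bm := s.le
  have all : d = D.t.d j → ∀ l < D.t.d j, Ret D j a b l := fun c l hl =>
    e6 c l hl ▸ (e3 l (c ▸ hl)).2
  refine ⟨run D j a b d e, runOk ok s e1 e2 e3 e4 e5, rfl, show a + (b - a) = b by omega,
    fun c (h : d = _) => hk c a ⟨by omega, disjoint_left.2 ?_⟩, ?_⟩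
  · rintro v (q | ⟨l, hl, q⟩)
    · exact (show v = _ from q) ▸ (s.2 a le_rfl ab).2.2.2
    · exact q ▸ (all h l hl).2.2
  by_cases c : D.md j = Md.new
  · exact Or.inr fun n => absurd c n
  rcases e1.eq_or_lt with h | h
  swap
  · exact Or.inr fun _ => h
  refine Or.inl ⟨c, h, fun i _ => ⟨disjoint_left.2 ?_, ?_⟩⟩
  · rintro v (q | ⟨l, hl, q1, q2⟩)
    · rw [(ok.pre.old j c).1] at q
      exact q.elim
    · exact absurd (q1.trans q2.symm) (all h l hl).2.1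
  · have k : ∀ i, (List.range d).map (fun l => D.t.β j i (e l)) =
        (List.range (D.t.d j)).map (D.t.β j i) := fun i => by
      rw [h]
      exact List.map_congr_left fun l hl => by rw [e6 h l (List.mem_range.1 hl)]
    have : D.rl j (run D j a b d e) i = D.t.rl j (a + i) := by
      change (_ :: (List.range d).map fun l => D.t.β j (a + i) (e l)) ++
        (_ :: (List.range d).map fun l => D.t.β j (a + i + 1) (e l)) = _
      rw [k, k]
      rfl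
    rw [this]
    exact Le.mono (un_mono sdiff_subset) _

omit s

theorem ev_cnt : {i | i < D.t.m j ∧ Ev D j i}.ncard ≤ 21 * D.n := by
  have o := ok.pre.ok
  obtain ⟨f, c, -⟩ := ok.kc.fin
  have h1 := cnt f (T := {i | i < D.t.m j ∧ ∃ v ∈ D.E \ D.t.Λ, v ∉ D.t.κ j i ∧ v ∈ D.t.κ j (i + 1)})
    (fun i v => i < D.t.m j ∧ v ∉ D.t.Λ ∧ v ∉ D.t.κ j i ∧ v ∈ D.t.κ j (i + 1))
    (fun i ⟨hi, v, hv, h⟩ => ⟨v, hv.1, hi, hv.2, h⟩)
    fun v _ i i' c h h' => h'.2.2.1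
      (kap_conv o ok.up ok.ter c (Nat.le_succ i') h'.1 h.2.1 h.2.2.2 h'.2.2.2)
  have h2 := cnt f (T := {i | i < D.t.m j ∧ ∃ v ∈ D.E \ D.t.Λ, v ∈ D.t.κ j i ∧ v ∉ D.t.κ j (i + 1)})
    (fun i v => i < D.t.m j ∧ v ∉ D.t.Λ ∧ v ∈ D.t.κ j i ∧ v ∉ D.t.κ j (i + 1))
    (fun i ⟨hi, v, hv, h⟩ => ⟨v, hv.1, hi, hv.2, h⟩)
    fun v _ i i' c h h' => h.2.2.2
      (kap_conv o ok.up ok.ter (Nat.le_succ i) c h'.1.le h.2.1 h.2.2.1 h'.2.2.1)
  have h3 := cnt f (T := {i | i < D.t.m j ∧ ∃ v ∈ D.E \ D.t.Λ, v ∈ D.σ.vs (D.t.bag j i) ∧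
      v ∉ D.t.κ j i ∪ D.t.κ j (i + 1)})
    (fun i v => v ∉ D.t.Λ ∧ v ∈ D.σ.vs (D.t.bag j i) ∧ v ∉ D.t.κ j i ∪ D.t.κ j (i + 1))
    (fun i ⟨_, v, hv, h⟩ => ⟨v, hv.1, hv.2, h⟩)
    fun v _ i i' c h h' => by
      obtain ⟨y, y1, y2⟩ := mem_vs.1 h'.2.1
      refine (ok.ter.bdb j i ⟨mem_vs.1 h.2.1, y, fun q => ?_, y2⟩).elim h.2.2 h.1
      have : D.t.own y = some (Sum.inr (j, i')) := y1
      rw [show D.t.own y = some (Sum.inr (j, i)) from q] at this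
      simp only [Option.some.injEq, Sum.inr.injEq, Prod.mk.injEq] at this
      omega
  refine le_trans (ncard_le_ncard (t := _ ∪ _ ∪ _) ?_ ((finite_Iio (D.t.m j)).subset ?_))
    (((ncard_union_le _ _).trans (Nat.add_le_add ((ncard_union_le _ _).trans
      (Nat.add_le_add h1 h2)) h3)).trans (by omega))
  · rintro i ⟨hi, v, hv, r, n⟩
    by_cases c1 : v ∈ D.t.κ j i
    · exact Or.inl (Or.inr ⟨hi, v, hv, c1, fun c2 => n ⟨c1, c2⟩⟩)
    by_cases c2 : v ∈ D.t.κ j (i + 1)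
    · exact Or.inl (Or.inl ⟨hi, v, hv, c1, c2⟩)
    exact Or.inr ⟨hi, v, hv, (r.resolve_right c2).resolve_right c1, fun c => c.elim c1 c2⟩
  · rintro i ((h | h) | h) <;> exact h.1

end Gn

open Gn

theorem genS : GenS := by
  intro n
  refine ⟨43 * n + 2, fun D ok hn j hk => ?_⟩
  classical
  have ex : ∀ a, ∃ b, a ≤ b ∧ ¬ Kb D j b := fun a =>
    ⟨a + D.t.m j, by omega, fun c => by have := c.1; omega⟩
  let hi : ℕ → ℕ := fun a => Nat.find (ex a)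
  have h1 : ∀ a, a ≤ hi a ∧ ¬ Kb D j (hi a) := fun a => Nat.find_spec (ex a)
  have h2 : ∀ a i, a ≤ i → i < hi a → Kb D j i := fun a i k1 k2 =>
    not_not.1 fun c => Nat.find_min (ex a) k2 ⟨k1, c⟩
  let S : Set ℕ := {a | Kb D j a ∧ ∀ k, a = k + 1 → ¬ Kb D j k}
  have seg : ∀ a ∈ S, Seg D j a (hi a) := fun a ha =>
    ⟨lt_of_le_of_ne (h1 a).1 fun c => (h1 a).2 (c ▸ ha.1), h2 a⟩
  have : Nonempty Run := ⟨⟨0, 0, 0, fun _ _ => Sum.inl 0, fun _ _ => ∅, ∅⟩⟩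
  choose! f f1 f2 f3 f4 f5 using fun a (ha : a ∈ S) => exRun ok (seg a ha) hk
  have start : ∀ i, Kb D j i → ∃ a ∈ S, a ≤ i ∧ i < hi a := by
    intro i
    induction i with
    | zero => exact fun c => ⟨0, ⟨c, fun k e => by omega⟩, le_rfl, (seg 0 ⟨c, fun k e => by omega⟩).1⟩
    | succ i ih =>
      intro c
      by_cases q : Kb D j i
      · obtain ⟨a, ha, k1, k2⟩ := ih q
        exact ⟨a, ha, by omega, lt_of_le_of_ne k2 fun e => (h1 a).2 (e ▸ c)⟩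
      · have : i + 1 ∈ S := ⟨c, fun k e => Nat.succ_injective e ▸ q⟩
        exact ⟨i + 1, this, le_rfl, (seg _ this).1⟩
  have ev := ev_cnt ok (j := j)
  have wn := ok.num.1
  have bk := (fib (fun p (hp : p ∈ {p : D.t.ι × ℕ | p.2 + 1 < D.t.m p.1 ∧
    ¬ (D.Sb p.1 p.2 ↔ D.Sb p.1 (p.2 + 1))}) => Nat.lt_of_succ_lt hp.1) j).trans ok.pre.brk
  have lo := (fib (fun p (hp : p ∈ {p : D.t.ι × ℕ | p.2 + 1 < D.t.m p.1 ∧ D.Sb p.1 p.2 ∧
    D.Sb p.1 (p.2 + 1) ∧ D.t.u p.1 (p.2 + 1) ∉ D.σ.vs D.Sd ∧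
    D.t.Att D.Sd (D.t.u p.1 (p.2 + 1))}) => Nat.lt_of_succ_lt hp.1) j).trans ok.pre.loose
  have fS : S.Finite := (finite_Iio (D.t.m j)).subset fun a ha => ha.1.1
  have bound : ∀ (T A B : Set ℕ), A ⊆ Iio (D.t.m j) → B ⊆ Iio (D.t.m j) →
      T ⊆ {0, D.t.m j} ∪ A ∪ Nat.succ '' (A ∪ B) → T.ncard ≤ 2 + 2 * A.ncard + B.ncard := by
    intro T A B hA hB hT
    have fA := (finite_Iio _).subset hA
    have fB := (finite_Iio _).subset hB
    have k1 := ncard_le_ncard hT (((toFinite _).union fA).union ((fA.union fB).image _))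
    have k2 := ncard_union_le (({0, D.t.m j} : Set ℕ) ∪ A) (Nat.succ '' (A ∪ B))
    have k3 := ncard_union_le ({0, D.t.m j} : Set ℕ) A
    have k4 := ncard_image_le (f := Nat.succ) (fA.union fB)
    have k5 := ncard_union_le A B
    have k6 := ncard_insert_le 0 ({D.t.m j} : Set ℕ)
    rw [ncard_singleton] at k6
    omega
  refine ⟨f '' S, ⟨fS.image _, (ncard_image_le fS).trans ?_⟩, ?_, ?_, ?_, ?_, ?_⟩
  · refine (bound S _ _ (fun _ h => h.1) (fun _ h => Nat.lt_of_succ_lt h.1) ?_).trans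
      ((Nat.add_le_add (Nat.add_le_add_left (Nat.mul_le_mul_left 2 ev) 2) bk).trans (by omega))
    rintro (_ | k) ⟨c, c'⟩
    · exact Or.inl (Or.inl (Or.inl rfl))
    have km : k < D.t.m j := Nat.lt_of_succ_lt c.1
    refine Or.inr ⟨k, ?_, rfl⟩
    by_cases q : Ev D j k
    · exact Or.inl ⟨km, q⟩
    refine Or.inr ⟨c.1, fun e => c' k rfl ⟨km, mt e.1 c.2.1, q, mt (u_Vw ok km q).1 c.2.2.2⟩⟩
  · rintro _ ⟨a, ha, rfl⟩
    exact f1 a ha
  · have key : ∀ a ∈ S, ∀ a' ∈ S, a < a' → hi a < a' := fun a ha a' ha' c => by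
      obtain ⟨k, rfl⟩ : ∃ k, a' = k + 1 := ⟨a' - 1, by omega⟩
      by_contra q
      exact ha'.2 k rfl (h2 a k (by omega) (by omega))
    rintro _ ⟨a, ha, rfl⟩ _ ⟨a', ha', rfl⟩ c
    rw [f3 a ha, f3 a' ha', f2 a ha, f2 a' ha']
    rcases lt_trichotomy a a' with q | q | q
    exacts [Or.inl (key a ha a' ha' q), absurd (congrArg f q) c, Or.inr (key a' ha' a ha q)]
  · refine (bound _ _ _ (fun _ h => h.1) (fun _ h => Nat.lt_of_succ_lt h.1) ?_).trans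
      ((Nat.add_le_add (Nat.add_le_add_left (Nat.mul_le_mul_left 2 ev) 2) lo).trans (by omega))
    rintro (_ | k) ⟨c, ⟨x, x1, x2⟩, c'⟩
    · exact Or.inl (Or.inl (Or.inl rfl))
    rcases c.eq_or_lt with c | c
    · exact Or.inl (Or.inl (Or.inr c))
    have km : k < D.t.m j := Nat.lt_of_succ_lt c
    have nk : ∀ i, i = k ∨ i = k + 1 → ¬ Kb D j i := fun i e q => by
      obtain ⟨a, ha, k1, k2⟩ := start i q
      have := c' _ ⟨a, ha, rfl⟩
      rw [f3 a ha, f2 a ha] at this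
      omega
    by_cases q1 : Ev D j (k + 1)
    · exact Or.inl (Or.inr ⟨c, q1⟩)
    refine Or.inr ⟨k, ?_, rfl⟩
    by_cases q : Ev D j k
    · exact Or.inl ⟨km, q⟩
    have nw : D.t.u j (k + 1) ∉ D.Vw := fun w =>
      (u_E ok c q1).1 (bd_E ((ok.kc.out x x1).1 ⟨x2, w⟩))
    refine Or.inr ⟨c, not_not.1 fun w => nk k (Or.inl rfl) ⟨km, w, q, mt (u_Vw ok km q).1 nw⟩,
      not_not.1 fun w => nk _ (Or.inr rfl) ⟨c, w, q1, nw⟩,
      fun w => nw (vs_mono ok.hull.sm.2.2 w), x, ⟨x1.1, (ok.kc.out x x1).2⟩, x2⟩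
  · rintro _ ⟨a, ha, rfl⟩
    exact (f5 a ha).imp (fun h => ⟨h, fun c => absurd h.2.1 (f4 a ha c)⟩) id
  · rintro c _ ⟨a, ha, rfl⟩ h
    exact absurd h (f4 a ha c)

end Pool.Agent.MP_9d78a0_co.gm

end MrgPart2

-- ======== part 3: formerly Pool.Agent.MP_9d78a0_co.st.Child
section MrgPart3

/-! The collar of the child. -/

set_option autoImplicit false

namespace Pool.Agent.MP_9d78a0_co.st

open Set Function fb

namespace child

variable {V : Type} {H0 H : SimpleGraph V} {U0 U U' I : Set V} {d : HD V} {p : PD V}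

theorem conn_keep {G G' : SimpleGraph V} {S : Set V} (h : Conn G S)
    (k : ∀ x ∈ S, ∀ y ∈ S, G.Adj x y → G'.Adj x y) : Conn G' S :=
  ⟨h.1, fun u hu v hv =>
    Link.map (G' := G') id (fun a ha b hb e => Link.single ha hb (k a ha b hb e)) (h.2 u hu v hv)⟩

theorem conn_res {S : Set V} (h : Conn H S) (hS : S ⊆ U') : Conn (res H U') S :=
  conn_keep h fun _ hx _ hy e => ⟨e, hS hx, hS hy⟩

theorem touch_res {S T : Set V} (h : Touch H S T) (hS : S ⊆ U') (hT : T ⊆ U') :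
    Touch (res H U') S T := by
  obtain ⟨x, hx, y, hy, e⟩ := h
  exact ⟨x, hx, y, hy, e, hS hx, hT hy⟩

theorem X_mono {l g l' g' : ℕ} (h : l ≤ l') (h' : g ≤ g') : d.X l' g' ⊆ d.X l g := by
  rintro v ⟨i, hi, ⟨a, b⟩ | ⟨a, b⟩⟩
  · exact ⟨i, hi, Or.inl ⟨a, h.trans b⟩⟩
  · exact ⟨i, hi, Or.inr ⟨a, by omega⟩⟩

theorem cell_P (h : Pan H0 U0 I p) {l e : ℕ} (hl : l ≤ p.s) (he : e ≤ p.n) {v : V}
    (hv : v ∈ p.C l e) : v ∈ p.P ∧ p.κ v = 2 * e ∧ p.lev v = l :=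
  have k := (h.col e he v).1 (pan.cell_col hl hv)
  ⟨k.1, k.2, ((h.cell l hl e he).2 v hv).1⟩

theorem up_col {l e : ℕ} : p.up l e ⊆ p.col e := by
  rintro v (k | ⟨m, -, h2, k⟩)
  · exact Or.inl k
  · exact Or.inr ⟨m, Nat.zero_le _, h2, k⟩

theorem lin_P (h : Pan H0 U0 I p) {v : V} (hv : v ∈ p.lin 0 p.n) :
    v ∈ p.P ∧ ∀ e, p.κ v = 2 * e → v = p.o e := by
  rcases pan.mem_lin.1 hv with ⟨j, hj, rfl⟩ | ⟨j, hj, k⟩
  · rw [zero_add]
    have k := (h.col j hj _).1 (Or.inl (h.lam j hj).2.2.1)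
    refine ⟨k.1, fun e he => ?_⟩
    obtain rfl : j = e := by omega
    rfl
  · rw [zero_add] at k
    have k' := h.seg j hj v k
    exact ⟨k'.1, fun e he => by omega⟩

/-- the part of a column up to level `l` -/
def low (p : PD V) (l e : ℕ) : Set V := ⋃ m ∈ Icc 0 l, p.C m e

theorem low_conn (h : Pan H0 U0 I p) {l e : ℕ} (hl : l ≤ p.s) (he : e ≤ p.n) :
    Conn H0 (low p l e) :=
  conn_chain (S := fun m => p.C m e) (Nat.zero_le l)
    (fun m hm => (h.cell m (hm.2.trans hl) e he).1)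
    fun m _ hm => Or.inr (h.ver m (by omega) e he)

theorem mem_low (h : Pan H0 U0 I p) {l e : ℕ} (hl : l < p.s) (he : e ≤ p.n) {v : V} :
    v ∈ low p l e ↔ v ∈ p.col e ∧ p.lev v ≤ l := by
  constructor
  · intro hv
    obtain ⟨m, hm, k⟩ := mem_iUnion₂.1 hv
    have hm' : m ≤ p.s := hm.2.trans hl.le
    exact ⟨pan.cell_col hm' k, (cell_P h hm' he k).2.2 ▸ hm.2⟩
  · rintro ⟨k | ⟨m, -, hm, k⟩, hv⟩
    · have := (h.lam e he).2.2.2.2 v k
      omega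
    · exact mem_iUnion₂.2 ⟨m, ⟨Nat.zero_le _, (cell_P h hm he k).2.2 ▸ hv⟩, k⟩

theorem cell_low {l m e : ℕ} (hm : m ≤ l) : p.C m e ⊆ low p l e :=
  fun _ k => mem_iUnion₂.2 ⟨m, ⟨Nat.zero_le _, hm⟩, k⟩

/-- cells of level `l` of arc `i` -/
def K (d : HD V) (l i e e' : ℕ) : Set V := ⋃ j ∈ Icc e e', (d.arc i).C l j

/-- the low part of a row -/
def Rw (d : HD V) (l g i : ℕ) : Set V :=
  {v | v ∈ (d.F i).row g ∧ ∀ j < d.k, v ∈ (d.arc j).P → (d.arc j).lev v ≤ l}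

theorem cell_K {l i e e' j : ℕ} (h : e ≤ j) (h' : j ≤ e') : (d.arc i).C l j ⊆ K d l i e e' :=
  fun _ k => mem_iUnion₂.2 ⟨j, ⟨h, h'⟩, k⟩

variable (P : Pre H0 U0 H U d)
include P

theorem kpos : 0 < d.k := by rcases P.k with h | h <;> omega

theorem nxt (i : ℕ) : (i + 1) % d.k < d.k := Nat.mod_lt _ (kpos P)

theorem same {i j : ℕ} (hi : i < d.k) (hj : j < d.k) {v : V} (h : v ∈ (d.arc i).P)
    (h' : v ∈ (d.arc j).P) : i = j := by
  by_contra n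
  exact disjoint_left.1 (P.adis i hi j hj n).1 h h'

theorem cell_conn {i l e : ℕ} (hi : i < d.k) (h1 : 1 ≤ l) (hl : l ≤ d.s) (he : e ≤ (d.arc i).n) :
    Conn H ((d.arc i).C l e) := by
  obtain ⟨⟨I, h⟩, hs, -⟩ := P.pan i hi
  have hl' : l ≤ (d.arc i).s := hs ▸ hl
  refine conn_keep (h.cell l hl' e he).1 fun x hx y hy => ?_
  have a := cell_P h hl' he hx
  have b := cell_P h hl' he hy
  exact (P.keep i hi x a.1 (by omega)).2 y b.1 (by omega)

theorem cell_touch {i l e l' e' : ℕ} (hi : i < d.k) (h1 : 1 ≤ l) (hl : l ≤ d.s)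
    (he : e ≤ (d.arc i).n) (h1' : 1 ≤ l') (hl' : l' ≤ d.s) (he' : e' ≤ (d.arc i).n)
    (t : Touch H0 ((d.arc i).C l e) ((d.arc i).C l' e')) :
    Touch H ((d.arc i).C l e) ((d.arc i).C l' e') := by
  obtain ⟨⟨I, h⟩, hs, -⟩ := P.pan i hi
  obtain ⟨x, hx, y, hy, k⟩ := t
  have a := cell_P h (hs ▸ hl) he hx
  have b := cell_P h (hs ▸ hl') he' hy
  exact ⟨x, hx, y, hy, (P.keep i hi x a.1 (by omega)).2 y b.1 (by omega) k⟩

theorem hor {i l e : ℕ} (hi : i < d.k) (h1 : 1 ≤ l) (hl : l ≤ d.s) (he : e < (d.arc i).n) :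
    Touch H ((d.arc i).C l e) ((d.arc i).C l (e + 1)) := by
  obtain ⟨⟨I, h⟩, hs, -⟩ := P.pan i hi
  exact cell_touch P hi h1 hl he.le h1 hl he (h.hor l (hs ▸ hl) e he)

theorem ver {i l e : ℕ} (hi : i < d.k) (h1 : 1 ≤ l) (hl : l < d.s) (he : e ≤ (d.arc i).n) :
    Touch H ((d.arc i).C l e) ((d.arc i).C (l + 1) e) := by
  obtain ⟨⟨I, h⟩, hs, -⟩ := P.pan i hi
  exact cell_touch P hi h1 hl.le he (by omega) hl he (h.ver l (hs ▸ hl) e he)

theorem K_conn {i l e e' : ℕ} (hi : i < d.k) (h1 : 1 ≤ l) (hl : l ≤ d.s) (he : e ≤ e')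
    (he' : e' ≤ (d.arc i).n) : Conn H (K d l i e e') :=
  conn_chain (S := fun j => (d.arc i).C l j) he
    (fun _ hj => cell_conn P hi h1 hl (hj.2.trans he'))
    fun _ _ hj => Or.inr (hor P hi h1 hl (by omega))

theorem J_off {i j g : ℕ} (hi : i < d.k) (hj : j < d.k) (hg : g ≤ d.w) {v : V}
    (hv : v ∈ d.J i g) : v ∉ (d.arc j).P := fun k =>
  disjoint_left.1 ((P.half i hi).j g hg).2.2.2 hv
    (P.war i hi j hj ⟨(((P.half i hi).row g hg v).1 (Or.inl (Or.inr hv))).1, k⟩)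

omit P in
theorem mem_row {i g : ℕ} {v : V} : v ∈ (d.F i).row g ↔
    (v ∈ (d.arc i).col ((d.arc i).n - d.w + g) ∨ v ∈ d.J i g) ∨
      v ∈ (d.arc ((i + 1) % d.k)).col (0 + (d.w - g)) := Iff.rfl

theorem Rw_eq {i l g : ℕ} (hi : i < d.k) (hl : l < d.s) (hg : g ≤ d.w) :
    Rw d l g i = low (d.arc i) l ((d.arc i).n - d.w + g) ∪ d.J i g ∪
      low (d.arc ((i + 1) % d.k)) l (0 + (d.w - g)) := by
  obtain ⟨⟨I, h⟩, hs, hn⟩ := P.pan i hi
  obtain ⟨⟨I', h'⟩, hs', hn'⟩ := P.pan _ (nxt P i)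
  have e1 : (d.arc i).n - d.w + g ≤ (d.arc i).n := by omega
  have e2 : 0 + (d.w - g) ≤ (d.arc ((i + 1) % d.k)).n := by omega
  ext v
  simp only [mem_union, mem_low h (hs ▸ hl) e1, mem_low h' (hs' ▸ hl) e2]
  constructor
  · rintro ⟨hv, k⟩
    rcases mem_row.1 hv with (a | a) | a
    · exact Or.inl (Or.inl ⟨a, k i hi ((h.col _ e1 v).1 a).1⟩)
    · exact Or.inl (Or.inr a)
    · exact Or.inr ⟨a, k _ (nxt P i) ((h'.col _ e2 v).1 a).1⟩
  · rintro ((⟨a, b⟩ | a) | ⟨a, b⟩)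
    · refine ⟨mem_row.2 (Or.inl (Or.inl a)), fun j hj k => ?_⟩
      obtain rfl := same P hi hj ((h.col _ e1 v).1 a).1 k
      exact b
    · exact ⟨mem_row.2 (Or.inl (Or.inr a)), fun j hj k => (J_off P hi hj hg a k).elim⟩
    · refine ⟨mem_row.2 (Or.inr a), fun j hj k => ?_⟩
      obtain rfl := same P (nxt P i) hj ((h'.col _ e2 v).1 a).1 k
      exact b

theorem Rw_conn {i l g : ℕ} (hi : i < d.k) (hl : l < d.s) (hg : g ≤ d.w) :
    Conn H (Rw d l g i) := by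
  obtain ⟨⟨I, h⟩, hs, hn⟩ := P.pan i hi
  obtain ⟨⟨I', h'⟩, hs', hn'⟩ := P.pan _ (nxt P i)
  have hf := P.half i hi
  have k := hf.j g hg
  have c : Conn H0 (Rw d l g i) := by
    rw [Rw_eq P hi hl hg]
    refine conn_union_touch (conn_union_touch (low_conn h (hs ▸ hl.le) (by omega)) k.1
      (k.2.1.symm.mono (cell_low (Nat.zero_le _)) subset_rfl))
      (low_conn h' (hs' ▸ hl.le) (by omega))
      (k.2.2.1.mono subset_union_right (cell_low (Nat.zero_le _)))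
  refine conn_keep c fun x hx y hy => ?_
  have a := (hf.row g hg x).1 hx.1
  have b := (hf.row g hg y).1 hy.1
  have e : (d.F i).A.n = d.w := rfl
  exact hf.keep x a.1 (by omega) y b.1

theorem Rw_kap {i l g : ℕ} (hi : i < d.k) (hg : g ≤ d.w) {v : V} (hv : v ∈ Rw d l g i)
    (h0 : v ∈ (d.arc 0).P) :
    (d.arc 0).κ v = 2 * ((d.arc 0).n - d.w + g) ∨ (d.arc 0).κ v = 2 * (d.w - g) := by
  obtain ⟨⟨I, h⟩, hs, hn⟩ := P.pan i hi
  obtain ⟨⟨I', h'⟩, hs', hn'⟩ := P.pan _ (nxt P i)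
  rcases mem_row.1 hv.1 with (a | a) | a
  · have b := (h.col _ (by omega) v).1 a
    obtain rfl := same P hi (kpos P) b.1 h0
    exact Or.inl b.2
  · exact (J_off P hi (kpos P) hg a h0).elim
  · have b := (h'.col _ (by omega) v).1 a
    have e := same P (nxt P i) (kpos P) b.1 h0
    rw [e, zero_add] at b
    exact Or.inr b.2

omit P in
/-- the ring without the cells `u, …, u + m - 1` of the first arc -/
def rest (d : HD V) (l g u m : ℕ) : Set V :=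
  d.rg l g \ {v | ∃ j < m, v ∈ (d.arc 0).C l (u + j)}

theorem K_rest {i l g u m e e' : ℕ} (hi : i < d.k) (hl : l ≤ d.s) (hg : g ≤ d.w)
    (hn : u + m ≤ (d.arc 0).n) (he : d.w - g ≤ e) (he' : e' ≤ (d.arc i).n - d.w + g)
    (h : i ≠ 0 ∨ e' < u ∨ u + m ≤ e) : K d l i e e' ⊆ rest d l g u m := by
  obtain ⟨⟨I, hp⟩, hs, hw⟩ := P.pan i hi
  obtain ⟨⟨I', hp'⟩, hs', -⟩ := P.pan 0 (kpos P)
  intro v hv
  obtain ⟨j, ⟨j1, j2⟩, k⟩ := mem_iUnion₂.1 hv
  refine ⟨⟨i, hi, Or.inl ⟨j, by omega, by omega, k⟩⟩, ?_⟩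
  rintro ⟨j', hj', k'⟩
  have a := cell_P hp (hs ▸ hl) (show j ≤ _ by omega) k
  have b := cell_P hp' (hs' ▸ hl) (show u + j' ≤ _ by omega) k'
  obtain rfl := same P hi (kpos P) a.1 b.1
  omega

theorem Rw_rest {i l g u m : ℕ} (hi : i < d.k) (hl : l ≤ d.s) (h1 : 1 ≤ g) (hg : g ≤ d.w)
    (hu : d.w ≤ u) (hn : u + m + d.w ≤ (d.arc 0).n) : Rw d l g i ⊆ rest d l g u m := by
  obtain ⟨⟨I', hp'⟩, hs', -⟩ := P.pan 0 (kpos P)
  intro v hv
  refine ⟨⟨i, hi, Or.inr hv⟩, ?_⟩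
  rintro ⟨j', hj', k'⟩
  have b := cell_P hp' (hs' ▸ hl) (show u + j' ≤ _ by omega) k'
  have := Rw_kap P hi hg hv b.1
  omega

theorem rest_cases {l g u m : ℕ} (hg : g ≤ d.w) {v : V} (hv : v ∈ rest d l g u m) :
    v ∈ K d l 0 (d.w - g) (u - 1) ∨ v ∈ K d l 0 (u + m) ((d.arc 0).n - d.w + g) ∨
      ∃ i < d.k, (i ≠ 0 ∧ v ∈ K d l i (d.w - g) ((d.arc i).n - d.w + g)) ∨ v ∈ Rw d l g i := by
  obtain ⟨⟨i, hi, ⟨j, j1, j2, k⟩ | k⟩, hn⟩ := hv
  · have hw := (P.pan i hi).2.2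
    by_cases c : i = 0
    · subst c
      by_cases c1 : j < u
      · exact Or.inl (cell_K (by omega) (by omega) k)
      by_cases c2 : u + m ≤ j
      · exact Or.inr (Or.inl (cell_K c2 (by omega) k))
      exact (hn ⟨j - u, by omega, by rwa [show u + (j - u) = j by omega]⟩).elim
    · exact Or.inr (Or.inr ⟨i, hi, Or.inl ⟨c, cell_K (by omega) (by omega) k⟩⟩)
  · exact Or.inr (Or.inr ⟨i, hi, Or.inr k⟩)

theorem rest_conn {l g u m : ℕ} (h0 : 1 ≤ l) (hl : l < d.s) (h1 : 1 ≤ g) (hg : g ≤ d.w)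
    (hu : d.w ≤ u) (hn : u + m + d.w ≤ (d.arc 0).n) : Conn H (rest d l g u m) := by
  have k0 := kpos P
  have up : ∀ i < d.k, ∀ e ≤ (d.arc i).n - d.w + g,
      (K d l i e ((d.arc i).n - d.w + g) ∩ Rw d l g i).Nonempty := by
    intro i hi e he
    have hw := (P.pan i hi).2.2
    obtain ⟨x, hx⟩ := (cell_conn P hi h0 hl.le (e := (d.arc i).n - d.w + g) (by omega)).1
    refine ⟨x, cell_K he le_rfl hx, ?_⟩
    rw [Rw_eq P hi hl hg]
    exact Or.inl (Or.inl (cell_low le_rfl hx))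
  have dn : ∀ i < d.k, ∀ j, (i + 1) % d.k = j → ∀ e, d.w - g ≤ e →
      (Rw d l g i ∩ K d l j (d.w - g) e).Nonempty := by
    rintro i hi j rfl e he
    have hw := (P.pan _ (nxt P i)).2.2
    obtain ⟨x, hx⟩ := (cell_conn P (nxt P i) h0 hl.le (e := d.w - g) (by omega)).1
    refine ⟨x, ?_, cell_K le_rfl he hx⟩
    rw [Rw_eq P hi hl hg, zero_add]
    exact Or.inr (cell_low le_rfl hx)
  have cA : Conn H (K d l 0 (u + m) ((d.arc 0).n - d.w + g) ∪ Rw d l g 0) :=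
    capi.conn_meet (K_conn P k0 h0 hl.le (by omega) (by omega)) (Rw_conn P k0 hl hg)
      (up 0 k0 _ (by omega))
  have cB : Conn H (K d l 0 (d.w - g) (u - 1)) := K_conn P k0 h0 hl.le (by omega) (by omega)
  have sA : K d l 0 (u + m) ((d.arc 0).n - d.w + g) ∪ Rw d l g 0 ⊆ rest d l g u m :=
    union_subset (K_rest P k0 hl.le hg (by omega) (by omega) le_rfl (by omega))
      (Rw_rest P k0 hl.le h1 hg hu hn)
  have sB : K d l 0 (d.w - g) (u - 1) ⊆ rest d l g u m :=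
    K_rest P k0 hl.le hg (by omega) le_rfl (by omega) (by omega)
  rcases P.k with hk | hk
  · have e : rest d l g u m = (K d l 0 (u + m) ((d.arc 0).n - d.w + g) ∪ Rw d l g 0) ∪
        K d l 0 (d.w - g) (u - 1) := by
      refine Subset.antisymm (fun v hv => ?_) (union_subset sA sB)
      rcases rest_cases P hg hv with a | a | ⟨i, hi, a⟩
      · exact Or.inr a
      · exact Or.inl (Or.inl a)
      · obtain rfl : i = 0 := by omega
        exact Or.inl (Or.inr (a.resolve_left fun c => c.1 rfl))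
    rw [e]
    exact capi.conn_meet cA cB ((dn 0 k0 0 (by rw [hk]) _ (by omega)).mono
      (inter_subset_inter_left _ subset_union_right))
  · have k1 : 1 < d.k := by omega
    have hw := (P.pan 1 k1).2.2
    have cC : Conn H (K d l 1 (d.w - g) ((d.arc 1).n - d.w + g) ∪ Rw d l g 1) :=
      capi.conn_meet (K_conn P k1 h0 hl.le (by omega) (by omega)) (Rw_conn P k1 hl hg)
        (up 1 k1 _ (by omega))
    have e : rest d l g u m = ((K d l 0 (u + m) ((d.arc 0).n - d.w + g) ∪ Rw d l g 0) ∪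
        (K d l 1 (d.w - g) ((d.arc 1).n - d.w + g) ∪ Rw d l g 1)) ∪
        K d l 0 (d.w - g) (u - 1) := by
      refine Subset.antisymm (fun v hv => ?_) (union_subset (union_subset sA (union_subset
        (K_rest P k1 hl.le hg (by omega) le_rfl le_rfl (by omega))
        (Rw_rest P k1 hl.le h1 hg hu hn))) sB)
      rcases rest_cases P hg hv with a | a | ⟨i, hi, a⟩
      · exact Or.inr a
      · exact Or.inl (Or.inl (Or.inl a))
      · obtain rfl | rfl : i = 0 ∨ i = 1 := by omega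
        · exact Or.inl (Or.inl (Or.inr (a.resolve_left fun c => c.1 rfl)))
        · exact Or.inl (Or.inr (a.imp (·.2) id))
    rw [e]
    refine capi.conn_meet (capi.conn_meet cA cC ((dn 0 k0 1 (by rw [hk]) _ (by omega)).mono
      (inter_subset_inter subset_union_right subset_union_left))) cB
      ((dn 1 k1 0 (by rw [hk]) _ (by omega)).mono
        (inter_subset_inter_left _ (subset_union_right.trans subset_union_right)))

theorem mid_off {j : ℕ} (hj : j < d.k) {v : V} (hv : v ∈ d.mid j) : v ∉ (d.arc 0).P := by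
  intro k
  have hf := P.half j hj
  have a := hf.nd.2 v hv
  have e : (d.F j).A.n = d.w := rfl
  have hw := (P.pan j hj).2.2
  rcases P.war j hj 0 (kpos P) ⟨a.1, k⟩ with b | b
  · have c : d.pos j v = (d.arc j).κ v - 2 * ((d.arc j).n - d.w) := (hf.kap.1 v b).2
    have c' : (d.arc j).κ v ≤ 2 * ((d.arc j).n - d.w + d.w) := b.2.2
    omega
  · have c : d.pos j v = 2 * d.w - ((d.arc ((j + 1) % d.k)).κ v - 2 * 0) := (hf.kap.2 v b).2
    omega

theorem col_list {e : ℕ} (he : e ≤ (d.arc 0).n) {v : V} (hv : v ∈ (d.arc 0).col e)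
    (hl : v ∈ d.list) : v = (d.arc 0).o e := by
  obtain ⟨⟨I, h⟩, -, -⟩ := P.pan 0 (kpos P)
  have a := (h.col e he v).1 hv
  simp only [HD.list, List.mem_flatMap, List.mem_range, List.mem_append] at hl
  obtain ⟨j, hj, b | b⟩ := hl
  · obtain ⟨⟨I', h'⟩, -, -⟩ := P.pan j hj
    have c := lin_P h' b
    obtain rfl := same P hj (kpos P) c.1 a.1
    exact c.2 e a.2
  · exact (mid_off P hj b a.1).elim

theorem list_split {u m : ℕ} (hu : 1 ≤ u) (hn : u + m + 1 ≤ (d.arc 0).n) :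
    ∃ A B, d.list = A ++ (d.arc 0).lin u m ++ B := by
  obtain ⟨k, hk⟩ : ∃ k, d.k = k + 1 := ⟨d.k - 1, by have := kpos P; omega⟩
  obtain ⟨a, rfl⟩ : ∃ a, u = a + 1 := ⟨u - 1, by omega⟩
  obtain ⟨b, hb⟩ : ∃ b, (d.arc 0).n = a + 1 + (m + 1 + b) :=
    ⟨(d.arc 0).n - (a + 1 + (m + 1)), by omega⟩
  have e : (d.arc 0).lin 0 (d.arc 0).n = (d.arc 0).lin 0 a ++ (d.arc 0).seg a ++
      ((d.arc 0).lin (a + 1) m ++ (d.arc 0).seg (a + 1 + m) ++ (d.arc 0).lin (a + 1 + m + 1) b) := by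
    rw [hb, eqv.lin_add, zero_add, eqv.lin_add]
  rw [HD.list, hk, List.range_succ_eq_map, List.flatMap_cons, e]
  exact ⟨(d.arc 0).lin 0 a ++ (d.arc 0).seg a, _, by simp only [List.append_assoc]; rfl⟩

omit P in
/-- the collar with coarse last cells -/
def mk (d : HD V) (H : SimpleGraph V) (U' : Set V) (l g s t u : ℕ) (T : List V) : CD V where
  I := lk H (U' \ d.rg (l + 1) (g + 1)) (d.rg l g)
  s := s + 1
  t := t + 1
  C := fun r j => if j < t then (d.arc 0).C (l + 1 + r) (u + j)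
    else rest d (l + 1 + r) (g + 1 + r) u t
  Λ := fun j => (d.arc 0).up (l + s + 3) (u + j)
  o := fun j => (d.arc 0).o (u + j)
  seg := fun j => if j < t then (d.arc 0).seg (u + j) else T

omit P in
theorem mk_cyc {l g s t u : ℕ} {T : List V} :
    cyc (mk d H U' l g s t u T).o (mk d H U' l g s t u T).seg (mk d H U' l g s t u T).t =
      (d.arc 0).lin u t ++ T := by
  simp only [cyc, mk, PD.lin, List.range_succ, List.flatMap_append, List.flatMap_cons,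
    List.flatMap_nil, lt_irrefl, if_false, List.append_nil, List.append_assoc, List.cons_append,
    List.nil_append]
  congr 1
  refine List.flatMap_congr fun j hj => ?_
  rw [if_pos (List.mem_range.1 hj)]

omit P in
/-- a link enters the outside through the ring -/
theorem enter {G : SimpleGraph V} {S A X R : Set V} (hG : G ≤ H)
    (h : ∀ u ∈ X, ∀ v ∉ X, H.Adj u v → u ∈ R) (hA : Disjoint A X)
    (hR : Disjoint (lk G S A) R) : Disjoint (lk G S A) X := by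
  refine disjoint_left.2 fun v hv hX => ?_
  obtain ⟨x, hx, y, hy, hS, e⟩ := capi.lk_hit hA hv hX
  exact disjoint_left.1 hR (capi.lk_closed (capi.lk_mono sdiff_subset subset_rfl hx) hS e)
    (h y hy x hx.1.2 (hG e).symm)

end child

open child in
theorem childS : InS → CoarS → XrS → HubS → ChildS := by
  intro hin hco hxr hhub V _ H0 H U0 U U' d l g s t' u P h1 hs h3 hw h4 hu hn hX hU
  obtain ⟨t, rfl⟩ : ∃ t, t' = t + 1 := ⟨t' - 1, by omega⟩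
  obtain ⟨soc, top, xr⟩ := hxr V H0 H U0 U d P (by omega)
  have k0 := kpos P
  obtain ⟨⟨I0, hp⟩, hs0, -⟩ := P.pan 0 k0
  obtain ⟨A, B, hAB⟩ := list_split P (u := u) (m := t) (by omega) (by omega)
  have hle : res H U' ≤ H := fun _ _ e => e.1
  have rg : ∀ r ≤ s + 2, d.rg (l + r) (g + r) ⊆ d.X (l + r) (g + r) ∧
      Conn H (d.rg (l + r) (g + r)) ∧
      Disjoint (d.rg (l + r) (g + r)) (d.X (l + r + 1) (g + r + 1)) ∧
      ∀ u ∈ d.X (l + r) (g + r), ∀ v ∉ d.X (l + r) (g + r), H.Adj u v →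
        u ∈ d.rg (l + r) (g + r) := fun r hr =>
    (xr (l + r) (g + r) (by omega) (by omega) (by omega)).2.2.2.2 (by omega) (by omega) (by omega)
  have rg1 : ∀ r ≤ s + 1, d.rg (l + 1 + r) (g + 1 + r) ⊆ d.X (l + 1 + r) (g + 1 + r) ∧
      Disjoint (d.rg (l + 1 + r) (g + 1 + r)) (d.X (l + 1 + r + 1) (g + 1 + r + 1)) ∧
      ∀ u ∈ d.X (l + 1 + r) (g + 1 + r), ∀ v ∉ d.X (l + 1 + r) (g + 1 + r), H.Adj u v →
        u ∈ d.rg (l + 1 + r) (g + 1 + r) := fun r hr => by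
    have := rg (1 + r) (by omega)
    rw [← add_assoc, ← add_assoc] at this
    exact ⟨this.1, this.2.2⟩
  have XU : ∀ {a b : ℕ}, l ≤ a → g ≤ b → d.X a b ⊆ U' := fun a b => (X_mono a b).trans hX
  have tX : ∀ {a b : ℕ}, a ≤ d.s → b ≤ d.w → d.top ⊆ d.X a b := fun a b => X_mono a b
  obtain ⟨c, hc⟩ : ∃ c, c = mk d H U' l g s t u (B ++ A) := ⟨_, rfl⟩
  have cs : c.s = s + 1 := by rw [hc]; rfl
  have ct : c.t = t + 1 := by rw [hc]; rfl
  have cI : c.I = lk H (U' \ d.rg (l + 1) (g + 1)) (d.rg l g) := by rw [hc]; rfl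
  have cL : ∀ j, c.Λ j = (d.arc 0).up (l + s + 3) (u + j) := by rw [hc]; exact fun _ => rfl
  have co : ∀ j, c.o j = (d.arc 0).o (u + j) := by rw [hc]; exact fun _ => rfl
  have c1 : ∀ r j, j < t → c.C r j = (d.arc 0).C (l + 1 + r) (u + j) := by
    rw [hc]; exact fun _ _ h => if_pos h
  have c2 : ∀ r, c.C r t = rest d (l + 1 + r) (g + 1 + r) u t := by
    rw [hc]; exact fun _ => if_neg (lt_irrefl _)
  have crg : ∀ a b j, 1 ≤ a → a ≤ d.s → b ≤ d.w → j ≤ t → (d.arc 0).C a (u + j) ⊆ d.rg a b :=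
    fun a b j a1 a2 b2 hj => ((xr a b a1 a2 b2).2.2.1 (u + j) (by omega) (by omega)).2.2.1
  have sub : ∀ r ≤ s + 1, ∀ j ≤ t, c.C r j ⊆ d.rg (l + 1 + r) (g + 1 + r) := by
    intro r hr j hj
    rcases hj.lt_or_eq with k | rfl
    · rw [c1 r j k]
      exact crg _ _ j (by omega) (by omega) (by omega) hj
    · rw [c2]
      exact sdiff_subset
  have sup : ∀ r ≤ s + 1, ∀ j ≤ t, (d.arc 0).C (l + 1 + r) (u + j) ⊆ c.C r j := by
    intro r hr j hj
    rcases hj.lt_or_eq with k | rfl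
    · rw [c1 r j k]
    · rw [c2]
      exact (cell_K le_rfl le_rfl).trans (K_rest P k0 (by omega) (by omega) (by omega) (by omega)
        (by omega) (by omega))
  have ring : ∀ r ≤ s + 1, d.rg (l + 1 + r) (g + 1 + r) ⊆ c.ring r := by
    intro r hr v hv
    by_cases k : ∃ j < t, v ∈ (d.arc 0).C (l + 1 + r) (u + j)
    · obtain ⟨j, hj, k⟩ := k
      exact ⟨j, by omega, sup r hr j hj.le k⟩
    · exact ⟨t, by omega, c2 r ▸ ⟨hv, k⟩⟩
  have cX : ∀ r ≤ s + 1, ∀ j ≤ t, c.C r j ⊆ d.X (l + 1 + r) (g + 1 + r) :=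
    fun r hr j hj => (sub r hr j hj).trans (rg1 r hr).1
  have cU : ∀ r ≤ s + 1, ∀ j ≤ t, c.C r j ⊆ U' :=
    fun r hr j hj => (cX r hr j hj).trans (XU (by omega) (by omega))
  have cT : ∀ r ≤ s + 1, ∀ j ≤ t, ∀ a b, l + 1 + r < a → g + 1 + r < b →
      Disjoint (c.C r j) (d.X a b) :=
    fun r hr j hj a b ha hb => (rg1 r hr).2.1.mono (sub r hr j hj) (X_mono ha hb)
  have lam := fun j (hj : j ≤ t) => (xr (l + s + 3) (g + s + 3) (by omega) (by omega)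
    (by omega)).2.2.1 (u + j) (by omega) (by omega)
  have lX : ∀ j ≤ t, c.Λ j ⊆ d.X (l + s + 3) (g + s + 3) := fun j hj => cL j ▸ (lam j hj).2.1
  have r0 : d.rg l g ⊆ U' \ d.rg (l + 1) (g + 1) := fun v hv =>
    ⟨hX ((rg 0 (by omega)).1 hv), fun k =>
      disjoint_left.1 (rg 0 (by omega)).2.2.1 hv ((rg 1 (by omega)).1 k)⟩
  have rI : d.rg l g ⊆ c.I := fun v hv => cI ▸ capi.lk_self hv (r0 hv)
  have IU : c.I ⊆ U' := fun v hv => (cI ▸ hv : v ∈ lk _ _ _).1.1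
  have IX : Disjoint c.I (d.X (l + 1) (g + 1)) := by
    rw [cI]
    exact enter le_rfl (rg 1 (by omega)).2.2.2 (rg 0 (by omega)).2.2.1
      (disjoint_left.2 fun v hv => hv.1.2)
  have kap : ∀ j ≤ t, ∀ v ∈ (d.arc 0).col (u + j), (d.arc 0).κ v = 2 * (u + j) :=
    fun j hj v hv => ((hp.col _ (by omega) v).1 hv).2
  have F : FCol (res H U') U' d.list c := by
    refine ⟨⟨fun _ _ e => e.2.1, soc.nd, fun x hx => hX (tX (by omega) (by omega) (top hx))⟩, ?_,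
      by omega, ?_, ?_, ?_, ?_, ?_, ?_, ?_, ?_⟩
    · rw [hc, mk_cyc, hAB, List.append_assoc, ← List.append_assoc _ B]
      exact List.isRotated_append
    · rw [cs, ct]
      intro r hr j hj
      have hj' : j ≤ t := by omega
      refine ⟨fun v hv => ⟨cU r hr j hj' hv, ?_⟩, conn_res ?_ (cU r hr j hj')⟩
      · rintro (k | k)
        · exact disjoint_left.1 IX k (X_mono (by omega) (by omega) (cX r hr j hj' hv))
        · exact disjoint_left.1 (cT r hr j hj' d.s d.w (by omega) (by omega)) hv (top k)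
      · rcases hj'.lt_or_eq with k | rfl
        · rw [c1 r j k]
          exact cell_conn P k0 (by omega) (by omega) (by omega)
        · rw [c2]
          exact rest_conn P (by omega) (by omega) (by omega) (by omega) hu (by omega)
    · rw [cs, ct]
      intro r hr j hj r' hr' j' hj' ne
      rcases lt_trichotomy r r' with k | rfl | k
      · exact (cT r hr j (by omega) _ _ (by omega) (by omega)).mono_right (cX r' hr' j' (by omega))
      · have ne' : j ≠ j' := fun e => ne (by rw [e])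
        have aux : ∀ a < t, Disjoint (c.C r a) (c.C r t) := fun a ha => by
          rw [c1 r a ha, c2]
          exact disjoint_left.2 fun v hv k => k.2 ⟨a, ha, hv⟩
        rcases (show j ≤ t by omega).lt_or_eq with k | rfl
        · rcases (show j' ≤ t by omega).lt_or_eq with k' | rfl
          · rw [c1 r j k, c1 r j' k']
            refine disjoint_left.2 fun v hv hv' => ?_
            have a := kap j k.le v (pan.cell_col (by omega) hv)
            have b := kap j' k'.le v (pan.cell_col (by omega) hv')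
            omega
          · exact aux j k
        · exact (aux j' (by omega)).symm
      · exact ((cT r' hr' j' (by omega) _ _ (by omega) (by omega)).mono_right
          (cX r hr j (by omega))).symm
    · rw [cs, ct]
      intro r hr j hj
      rcases (show j ≤ t by omega).lt_or_eq with k | rfl
      · rw [Nat.mod_eq_of_lt (by omega)]
        exact touch_res ((hor P k0 (by omega) (by omega) (by omega)).mono (sup r hr j k.le)
          (sup r hr (j + 1) k)) (cU r hr j k.le) (cU r hr (j + 1) k)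
      · rw [Nat.mod_self]
        refine touch_res ((hor P k0 (l := l + 1 + r) (e := u - 1) (by omega) (by omega)
          (by omega)).mono ?_ ?_) (cU r hr j le_rfl) (cU r hr 0 (by omega))
        · rw [c2]
          exact (cell_K le_rfl le_rfl).trans (K_rest P k0 (by omega) (by omega) (by omega)
            (by omega) (by omega) (by omega))
        · rw [show u - 1 + 1 = u + 0 by omega]
          exact sup r hr 0 (by omega)
    · rw [cs, ct]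
      intro r hr j hj
      exact touch_res ((ver P k0 (by omega) (by omega) (by omega)).mono (sup r hr.le j (by omega))
        (sup (r + 1) hr j (by omega))) (cU r hr.le j (by omega)) (cU (r + 1) hr j (by omega))
    · rw [cs, ct]
      intro j hj
      have hj' : j ≤ t := by omega
      have lU : c.Λ j ⊆ U' := (lX j hj').trans (XU (by omega) (by omega))
      refine ⟨fun v hv => ⟨lU hv, fun k =>
        disjoint_left.1 IX k (X_mono (by omega) (by omega) (lX j hj' hv))⟩,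
        conn_res (cL j ▸ (lam j hj').1) lU, touch_res ((ver P k0 (by omega) (by omega)
          (by omega)).mono (sup (s + 1) le_rfl j hj') ?_) (cU _ le_rfl j hj') lU, ?_⟩
      · rw [cL]
        exact fun v hv => Or.inr ⟨_, by omega, by omega, hv⟩
      · rw [cL, co]
        refine Subset.antisymm (fun v hv => col_list P (by omega) (up_col hv.1) hv.2) ?_
        rintro v rfl
        exact ⟨Or.inl (hp.lam _ (by omega)).2.2.1, (lam j hj').2.2.2⟩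
    · rw [cs, ct]
      intro j hj j' hj'
      refine ⟨fun ne => ?_, fun r hr => ((cT r hr j' (by omega) _ _ (by omega)
        (by omega)).mono_right (lX j (by omega))).symm⟩
      rw [cL, cL]
      refine disjoint_left.2 fun v hv hv' => ?_
      have a := kap j (by omega) v (up_col hv)
      have b := kap j' (by omega) v (up_col hv')
      omega
    · refine ⟨IU, conn_res (cI ▸ capi.lk_conn (rg 0 (by omega)).2.1 r0) IU,
        IX.mono_right (top.trans (tX (by omega) (by omega))), fun j hj => ?_⟩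
      exact touch_res ((ver P k0 h1 (by omega) (by omega)).mono
        ((crg l g j h1 (by omega) (by omega) (by omega)).trans rI) (sup 0 (by omega) j (by omega)))
        IU (cU 0 (by omega) j (by omega))
    · rw [cI]
      exact hhub V H0 H U0 U U' d l g P h1 (by omega) h3 (by omega) hX hU
  obtain ⟨c', C', s', t', i1, i2, -, hc'⟩ := hco V _ U' d.list c 0 s (t + 1) id (fun _ => c.I) F
    (by omega) h4 (fun _ _ h _ => h) (fun _ h => ct ▸ h) fun i hi => F.hub.2.2.2 i (ct ▸ hi)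
  have II : c.I ⊆ c'.I := (hin V _ _ _ c F 0 (by omega)).2.1.trans i1
  have upc : ∀ j ≤ t, c'.Λ j = c.up (s + 1) j := fun j hj => by
    have := (hc' j (by omega)).2.1
    rwa [zero_add] at this
  have cols : ∀ v ∈ c'.cols, (∃ j ≤ t, v ∈ c.Λ j) ∨ ∃ r ≤ s + 1, ∃ j ≤ t, v ∈ c.C r j := by
    rintro v ⟨j, hj, k | ⟨r, -, hr, k⟩⟩
    · rw [upc j (by omega)] at k
      rcases k with k | ⟨r, -, hr, k⟩
      · exact Or.inl ⟨j, by omega, k⟩
      · exact Or.inr ⟨r, by omega, j, by omega, k⟩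
    · obtain ⟨x, hx, k', -⟩ := (hc' j (by omega)).2.2.2 r (by omega) v k
      exact Or.inr ⟨0 + r, by omega, x, by omega, k'⟩
  have in1 : Disjoint (c.In (res H U') U' (0 + 1)) (d.X (l + 1 + 1) (g + 1 + 1)) :=
    enter hle (rg1 1 (by omega)).2.2 (IX.mono_right (X_mono (by omega) (by omega)))
      (disjoint_left.2 fun v hv k => hv.1.2 (ring 1 (by omega) k))
  have inT : Disjoint (c'.In (res H U') U' s) d.top := by
    refine (enter hle (rg1 (s + 1) le_rfl).2.2 (in1.mono i2 (X_mono (by omega) (by omega)))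
      (disjoint_left.2 fun v hv k => ?_)).mono_right (tX (by omega) (by omega))
    obtain ⟨j, hj, k'⟩ := ring (s + 1) le_rfl k
    refine disjoint_left.1 ((hin V _ _ _ c' C'.toFCol s (by omega)).2.2.2.1 j (by omega)).1 hv
      (Or.inl ?_)
    rw [upc j (by omega)]
    exact Or.inr ⟨s + 1, le_rfl, by omega, k'⟩
  refine ⟨c', C', s', t', fun j hj => (hc' j hj).1.trans (co j), rI.trans II, ?_, ?_, inT, ?_⟩
  · rintro v ⟨⟨hv, a, ha, -, k⟩, hv'⟩
    obtain ⟨x, y, hx, hy, hx', hy', e, k'⟩ := link_exit (T := (d.X l g)ᶜ) k.symm hv' (fun z => z ha)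
    have hy1 : y ∈ d.rg l g := (rg 0 (by omega)).2.2.2 y (not_not.1 hy') x hx' e.symm
    have ss : U' ∩ (d.X l g)ᶜ ⊆ U' \ d.rg (l + 1) (g + 1) := fun z hz =>
      ⟨hz.1, fun q => hz.2 (X_mono (by omega) (by omega) ((rg 1 (by omega)).1 q))⟩
    refine II (cI ▸ capi.lk_link (capi.lk_closed (capi.lk_self hy1 (r0 hy1)) (ss ⟨hx, hx'⟩) e.symm)
      (k'.symm.mono ss))
  · intro v hv
    rcases cols v hv with ⟨j, hj, k⟩ | ⟨r, hr, j, hj, k⟩
    · exact X_mono (by omega) (by omega) (lX j hj k)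
    · exact X_mono (by omega) (by omega) (cX r hr j hj k)
  · rintro v (hv | hv)
    · rw [s'] at hv
      exact Or.inr ⟨hv.1.1, disjoint_left.1 inT hv⟩
    · rcases cols v hv with ⟨j, hj, k⟩ | ⟨r, hr, j, hj, k⟩
      · exact Or.inl ⟨u + j, by omega, up_col (cL j ▸ k)⟩
      · exact Or.inr ⟨cU r hr j hj k, disjoint_left.1 (cT r hr j hj d.s d.w (by omega) (by omega)) k⟩

end Pool.Agent.MP_9d78a0_co.st

end MrgPart3

-- marker of a merged file
example : 731051 + 614706 = 731051 + 614706 := rfl
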