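import Pool.Agent.MP_9d78a0_co.st.Dbl
import Pool.Agent.MP_9d78a0_co.st.In
import Pool.Agent.MP_9d78a0_co.st.TRg
import Pool.Agent.MP_9d78a0_co.st.Twoc

/-! The child of a cut strip is flat outside its hub. -/

set_option autoImplicit false

namespace Pool.Agent.MP_9d78a0_co.st

open Set Function fb

namespace hub

variable {V : Type}

section gen

variable {G H : SimpleGraph V} {U S I : Set V}

theorem conn_of (h : Conn G S) (k : ∀ u ∈ S, ∀ v ∈ S, G.Adj u v → H.Adj u v) : Conn H S :=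
  ⟨h.1, fun u hu v hv => Link.map (G' := H) id
    (fun _ ha _ hb e => Link.single ha hb (k _ ha _ hb e)) (h.2 u hu v hv)⟩

theorem conn_res (h : Conn H S) (hS : S ⊆ U) : Conn (res H U) S :=
  conn_of h fun _ hu _ hv e => ⟨e, hS hu, hS hv⟩

theorem cut {b : V} (hS : Conn H S) (hb : b ∈ S) (hI : b ∉ I) (k : (S ∩ I).Nonempty) :
    Touch H (cp H (S \ I) b) I := by
  obtain ⟨z, z1, z2⟩ := k
  obtain ⟨x, y, x1, -, x2, y2, e, h⟩ := link_exit (T := Iᶜ) (hS.2 b hb z z1) hI fun c => c z2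
  exact ⟨x, ⟨⟨x1, x2⟩, h⟩, y, not_not.1 y2, e⟩

/-- a window with a last port is carried to a larger flat region -/
theorem win {L L' : List V} {Z T : Set V} (hle : H ≤ G) (hL : ∀ x ∈ L, x ∉ I)
    (hs : List.Sublist L L') (hZ : U \ I ⊆ Z \ T)
    (hx : ∀ x ∈ U \ I, ∀ y ∈ I, H.Adj x y →
      ∃ R, R ⊆ Z ∧ R ⊆ I ∧ Conn G R ∧ y ∈ R ∧ (R ∩ T).Nonempty)
    (h : PX H U (sg L ++ [I])) : PX G Z (sg L' ++ [T]) := by
  have key : ∀ P Q a b c, Two H U P Q → Disjoint P I → (Q ∩ I).Nonempty →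
      List.Sublist [a, b, c] L → a ∈ P → c ∈ P → b ∈ Q → PX G Z (sg L' ++ [T]) := by
    intro P Q a b c hT hP hQ s ha hc hb
    have bI : b ∉ I := hL b (s.subset (by simp))
    have pz : P ⊆ Z \ T := fun v hv => hZ ⟨hT.sp hv, disjoint_left.1 hP hv⟩
    have qs : cp H (Q \ I) b ⊆ U \ I := fun v hv => ⟨hT.sq hv.1.1, hv.1.2⟩
    obtain ⟨x, x1, y, y1, e⟩ := cut hT.cq hb bI hQ
    obtain ⟨R, r1, r2, r3, r4, t, t1, t2⟩ := hx x (qs x1) y y1 e
    refine nf.px_sg_port.2 ⟨P, cp H (Q \ I) b ∪ R, ⟨fun v hv => (pz hv).1,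
      union_subset (fun v hv => (hZ (qs hv)).1) r1, capi.conn_le hle hT.cp,
      conn_union_touch (capi.conn_le hle (cp_conn ⟨hb, bI⟩)) r3 ⟨x, x1, y, r4, hle e⟩,
      disjoint_union_right.2 ⟨hT.dis.mono_right fun v hv => hv.1.1, hP.mono_right r2⟩⟩,
      Or.inl (disjoint_left.2 fun v hv => (pz hv).2),
      Or.inr ⟨a, b, c, s.trans hs, ha, hc, Or.inl (cp_self ⟨hb, bI⟩), t, Or.inr t1, t2⟩⟩
  obtain ⟨P, Q, hT, hd, ⟨a, b, c, e, s, ha, hc, hb, he⟩ | ⟨a, b, c, s, ha, hc, hb, hQ⟩⟩ :=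
    nf.px_sg_port.1 h
  · by_cases p : Disjoint P I <;> by_cases q : Disjoint Q I
    · have pz : P ⊆ Z \ T := fun v hv => hZ ⟨hT.sp hv, disjoint_left.1 p hv⟩
      exact nf.px_sg_port.2 ⟨P, Q, ⟨fun v hv => (pz hv).1,
        fun v hv => (hZ ⟨hT.sq hv, disjoint_left.1 q hv⟩).1, capi.conn_le hle hT.cp,
        capi.conn_le hle hT.cq, hT.dis⟩, Or.inl (disjoint_left.2 fun v hv => (pz hv).2),
        Or.inl ⟨a, b, c, e, s.trans hs, ha, hc, hb, he⟩⟩
    · exact key P Q a b c hT p (not_disjoint_iff_nonempty_inter.1 q)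
        ((List.sublist_append_left [a, b, c] [e]).trans s) ha hc hb
    · exact key Q P b c e (nf.two_symm hT) q (not_disjoint_iff_nonempty_inter.1 p)
        ((List.sublist_cons_self a _).trans s) hb he hc
    · exact (hd.elim p q).elim
  · exact key P Q a b c hT (hd.resolve_right (not_disjoint_iff_nonempty_inter.2 hQ)) hQ s ha hc hb

variable {p : PD V}

theorem mem_up (h : Pan H U I p) {l e : ℕ} (hl : l ≤ p.s) (he : e ≤ p.n) {v : V} :
    v ∈ p.up l e ↔ v ∈ p.P ∧ p.κ v = 2 * e ∧ l ≤ p.lev v := by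
  constructor
  · rintro (k | ⟨m, m1, m2, k⟩)
    · have := (h.col e he v).1 (Or.inl k)
      exact ⟨this.1, this.2, ((h.lam e he).2.2.2.2 v k).symm ▸ hl⟩
    · have := (h.col e he v).1 (pan.cell_col m2 k)
      exact ⟨this.1, this.2, ((h.cell m m2 e he).2 v k).1.symm ▸ m1⟩
  · rintro ⟨a, b, c⟩
    rcases (h.col e he v).2 ⟨a, b⟩ with k | ⟨m, -, m2, k⟩
    · exact Or.inl k
    · exact Or.inr ⟨m, ((h.cell m m2 e he).2 v k).1 ▸ c, m2, k⟩

theorem mem_C (h : Pan H U I p) {l e : ℕ} (hl : l ≤ p.s) (he : e ≤ p.n) {v : V}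
    (hv : v ∈ p.C l e) : v ∈ p.P ∧ p.κ v = 2 * e ∧ p.lev v = l :=
  have := (h.col e he v).1 (pan.cell_col hl hv)
  ⟨this.1, this.2, ((h.cell l hl e he).2 v hv).1⟩

theorem mem_lin (h : Pan H U I p) {u m : ℕ} (hm : u + m ≤ p.n) {v : V} (hv : v ∈ p.lin u m) :
    v ∈ p.P ∧ 2 * u ≤ p.κ v ∧ p.κ v ≤ 2 * (u + m) := by
  rcases pan.mem_lin.1 hv with ⟨j, hj, rfl⟩ | ⟨j, hj, k⟩
  · have := (h.col (u + j) (by omega) _).1 (Or.inl (h.lam (u + j) (by omega)).2.2.1)
    exact ⟨this.1, by omega, by omega⟩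
  · have := h.seg (u + j) (by omega) v k
    exact ⟨this.1, by omega, by omega⟩

end gen

/-! the six spokes of an arc -/

def cl (a m r : ℕ) : ℕ := if r ≤ 2 then a + 1 + r else a + m + 2 + r

def ph (a m x : ℕ) : ℕ :=
  if x ≤ 2 * a + 6 then x - (2 * a + 2) else if 2 * (a + m + 5) ≤ x then x - 2 * (a + m + 2) else 5

theorem ph_cases (a m x : ℕ) : (x ≤ 2 * a + 6 ∧ ph a m x = x - (2 * a + 2)) ∨
    (2 * (a + m + 5) ≤ x ∧ ph a m x = x - 2 * (a + m + 2)) ∨
    (2 * a + 6 < x ∧ x < 2 * (a + m + 5) ∧ ph a m x = 5) := by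
  unfold ph
  split_ifs <;> omega

theorem cl_cases (a m r : ℕ) :
    (r ≤ 2 ∧ cl a m r = a + 1 + r) ∨ (2 < r ∧ cl a m r = a + m + 2 + r) := by
  unfold cl
  split_ifs <;> omega

variable (d : HD V) (a : ℕ) (m : ℕ → ℕ)

def Lf (i : ℕ) : List V := (d.arc i).lin 0 a ++ (d.arc i).seg a

def Md (i : ℕ) : List V := (d.arc i).lin (a + 1) (m i + 6)

def Rt (i : ℕ) : List V := (d.arc i).seg (a + m i + 7) ++ (d.arc i).lin (a + m i + 8) a

def oo (j : ℕ) : V := (d.arc (j / 6)).o (cl a (m (j / 6)) (j % 6))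

def GG (l j : ℕ) : Set V := (d.arc (j / 6)).up l (cl a (m (j / 6)) (j % 6))

def sm (i r : ℕ) : List V :=
  if r = 2 then (d.arc i).seg (a + 3) ++ (d.arc i).lin (a + 4) (m i) ++ (d.arc i).seg (a + 4 + m i)
  else if r = 5 then Rt d a m i ++ d.mid i ++ Lf d a ((i + 1) % d.k)
  else (d.arc i).seg (cl a (m i) r)

def ss (j : ℕ) : List V := sm d a m (j / 6) (j % 6)

theorem md_eq (i : ℕ) : Md d a m i =
    (d.arc i).o (a + 1) :: (d.arc i).seg (a + 1) ++ (d.arc i).o (a + 2) :: (d.arc i).seg (a + 2) ++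
    (d.arc i).o (a + 3) :: (d.arc i).seg (a + 3) ++ (d.arc i).lin (a + 4) (m i) ++
    (d.arc i).seg (a + 4 + m i) ++ (d.arc i).o (a + m i + 5) :: (d.arc i).seg (a + m i + 5) ++
    (d.arc i).o (a + m i + 6) :: (d.arc i).seg (a + m i + 6) ++ [(d.arc i).o (a + m i + 7)] := by
  unfold Md
  rw [show m i + 6 = m i + 1 + 1 + 1 + 1 + 1 + 1 by omega, pan.lin_succ', pan.lin_succ',
    pan.lin_succ', pan.lin_succ, pan.lin_succ, pan.lin_succ]
  simp only [List.append_assoc, List.cons_append, List.nil_append]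
  rw [show a + 1 + 1 + 1 + 1 = a + 4 by omega, show a + 4 + (m i + 1) = a + m i + 5 by omega,
    show a + 4 + (m i + 1 + 1) = a + m i + 6 by omega,
    show a + 4 + (m i + 1 + 1 + 1) = a + m i + 7 by omega]

theorem lin_eq {i : ℕ} (h : (d.arc i).n = 2 * a + m i + 8) :
    (d.arc i).lin 0 (d.arc i).n = Lf d a i ++ Md d a m i ++ Rt d a m i := by
  rw [h, show 2 * a + m i + 8 = a + 1 + (m i + 6 + 1 + a) by omega, eqv.lin_add, eqv.lin_add]
  simp only [Lf, Md, Rt, List.append_assoc, zero_add]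
  rw [show a + 1 + (m i + 6) = a + m i + 7 by omega]

theorem rot (hk : d.k = 1 ∨ d.k = 2) (h : ∀ i < d.k, (d.arc i).n = 2 * a + m i + 8) :
    List.IsRotated (cyc (oo d a m) (ss d a m) (3 * (2 * d.k))) d.list := by
  unfold HD.list
  rcases hk with hk | hk
  · have e : cyc (oo d a m) (ss d a m) (3 * (2 * d.k)) =
        (Md d a m 0 ++ Rt d a m 0 ++ d.mid 0) ++ Lf d a 0 := by
      simp [cyc, hk, List.range_succ, oo, ss, sm, cl, md_eq, add_assoc]
    rw [e]
    convert List.isRotated_append using 1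
    simp [hk, lin_eq d a m (h 0 (by omega))]
  · have e : cyc (oo d a m) (ss d a m) (3 * (2 * d.k)) =
        (Md d a m 0 ++ Rt d a m 0 ++ d.mid 0 ++ Lf d a 1 ++ Md d a m 1 ++ Rt d a m 1 ++ d.mid 1) ++
          Lf d a 0 := by
      simp [cyc, hk, List.range_succ, oo, ss, sm, cl, md_eq, add_assoc]
    rw [e]
    convert List.isRotated_append using 1
    simp [hk, List.range_succ, lin_eq d a m (h 0 (by omega)), lin_eq d a m (h 1 (by omega))]

theorem arc_ev (hk : d.k = 1 ∨ d.k = 2) {i : ℕ} (hi : i < d.k) :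
    arc (oo d a m) (ss d a m) (3 * (2 * d.k)) (3 * (2 * i)) 5 = Md d a m i := by
  obtain ⟨hk, rfl⟩ | ⟨hk, rfl⟩ | ⟨hk, rfl⟩ :
      (d.k = 1 ∧ i = 0) ∨ (d.k = 2 ∧ i = 0) ∨ (d.k = 2 ∧ i = 1) := by omega
  all_goals simp [arc, hk, List.range_succ, oo, ss, sm, cl, md_eq, add_assoc]

theorem arc_od (hk : d.k = 1 ∨ d.k = 2) {i : ℕ} (hi : i < d.k) :
    arc (oo d a m) (ss d a m) (3 * (2 * d.k)) (3 * (2 * i + 1)) 5 =
      (d.arc i).lin (a + m i + 5) (2 + 1 + a) ++ d.mid i ++
        (d.arc ((i + 1) % d.k)).lin 0 (a + 1 + 2) := by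
  rw [eqv.lin_add, eqv.lin_add]
  obtain ⟨hk, rfl⟩ | ⟨hk, rfl⟩ | ⟨hk, rfl⟩ :
      (d.k = 1 ∧ i = 0) ∨ (d.k = 2 ∧ i = 0) ∨ (d.k = 2 ∧ i = 1) := by omega
  all_goals simp [arc, hk, List.range_succ, oo, ss, sm, cl, Rt, Lf, pan.lin_succ', add_assoc,
    show ∀ (p : PD V) u, p.lin u 0 = [p.o u] from fun _ _ => rfl]

/-- the part of an arc between its outer spokes -/
def M (i : ℕ) : Set V :=
  {v | v ∈ (d.arc i).P ∧ 2 * (a + 1) ≤ (d.arc i).κ v ∧ (d.arc i).κ v ≤ 2 * (a + m i + 7)}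

open Classical in
noncomputable def ka (v : V) : ℕ :=
  if v ∈ M d a m 0 then ph a (m 0) ((d.arc 0).κ v)
  else if 1 < d.k ∧ v ∈ M d a m 1 then 12 + ph a (m 1) ((d.arc 1).κ v)
  else if v ∈ d.W 0 then 11 else 23

variable {d a m}

theorem X_mono {l g l' g' : ℕ} (h : l ≤ l') (h' : g ≤ g') : d.X l' g' ⊆ d.X l g := by
  rintro v ⟨i, hi, k | k⟩
  · exact ⟨i, hi, Or.inl ⟨k.1, h.trans k.2⟩⟩
  · exact ⟨i, hi, Or.inr ⟨k.1, by omega⟩⟩

variable {H0 H : SimpleGraph V} {U0 U : Set V} (hP : Pre H0 U0 H U d) {i j : ℕ} {v : V}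
include hP

theorem nxt (i : ℕ) : (i + 1) % d.k < d.k := Nat.mod_lt _ (by have := hP.k; omega)

theorem p_eq (hi : i < d.k) (hj : j < d.k) (h : v ∈ (d.arc i).P) (h' : v ∈ (d.arc j).P) : i = j :=
  by_contra fun c => disjoint_left.1 (hP.adis i hi j hj c).1 h h'

theorem w_eq (hi : i < d.k) (hj : j < d.k) (h : v ∈ d.W i) (h' : v ∈ d.W j) : i = j :=
  by_contra fun c => disjoint_left.1 (hP.adis i hi j hj c).2.2 h h'

theorem inA (hi : i < d.k) (h : v ∈ (d.arc i).P) (k : 2 * (d.arc i).n ≤ (d.arc i).κ v + 2 * d.w) :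
    v ∈ d.W i ∧ d.pos i v + 2 * (d.arc i).n = (d.arc i).κ v + 2 * d.w := by
  obtain ⟨⟨I, hI⟩, -, hn⟩ := hP.pan i hi
  have r := (hI.rng v h).2
  have := (hP.half i hi).kap.1 v ⟨h, by omega, by omega⟩
  have e : d.pos i v = (d.arc i).κ v - 2 * ((d.arc i).n - d.w) := this.2
  exact ⟨this.1, by omega⟩

theorem inB (hi : i < d.k) (h : v ∈ (d.arc ((i + 1) % d.k)).P)
    (k : (d.arc ((i + 1) % d.k)).κ v ≤ 2 * d.w) :
    v ∈ d.W i ∧ d.pos i v + (d.arc ((i + 1) % d.k)).κ v = 2 * d.w := by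
  have := (hP.half i hi).kap.2 v ⟨h, by omega, by omega⟩
  have e : d.pos i v = 2 * d.w - ((d.arc ((i + 1) % d.k)).κ v - 2 * 0) := this.2
  exact ⟨this.1, by omega⟩

theorem posk (hi : i < d.k) (hj : j < d.k) (h : v ∈ (d.arc i).P) (hW : v ∈ d.W j) :
    (j = i ∧ d.pos j v + 2 * (d.arc i).n = (d.arc i).κ v + 2 * d.w) ∨
      ((j + 1) % d.k = i ∧ d.pos j v + (d.arc i).κ v = 2 * d.w) := by
  rcases hP.war j hj i hi ⟨hW, h⟩ with ⟨k1, k2, -⟩ | ⟨k1, -, k2⟩
  · obtain rfl := p_eq hP hi hj h k1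
    exact Or.inl ⟨rfl, (inA hP hi h (by have := (hP.pan i hi).2.2; omega)).2⟩
  · obtain rfl := p_eq hP hi (nxt hP j) h k1
    exact Or.inr ⟨rfl, (inB hP hj h (by omega)).2⟩

theorem keep (hi : i < d.k) {S : Set V} (hS : ∀ v ∈ S, v ∈ (d.arc i).P ∧ 1 ≤ (d.arc i).lev v)
    (h : Conn H0 S) : Conn H S :=
  conn_of h fun u hu v hv e => (hP.keep i hi u (hS u hu).1 (hS u hu).2).2 v (hS v hv).1 (hS v hv).2 e

variable {l g : ℕ} (hw : d.w = g + a + 1) (hn : ∀ i < d.k, (d.arc i).n = 2 * a + m i + 8)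
include hw hn

theorem posM (hi : i < d.k) (hj : j < d.k) (h : v ∈ M d a m i) (hW : v ∈ d.W j) :
    d.pos j v ≤ 2 * g := by
  have := posk hP hi hj h.1 hW
  have := hn i hi
  have := h.2
  omega

omit hw hn in
theorem kM (hi : i < d.k) (h : v ∈ M d a m i) :
    ka d a m v = 12 * i + ph a (m i) ((d.arc i).κ v) := by
  obtain rfl | ⟨rfl, hk⟩ : i = 0 ∨ (i = 1 ∧ 1 < d.k) := by have := hP.k; omega
  · simp [ka, h]
  · have : v ∉ M d a m 0 := fun c => absurd (p_eq hP (by omega) hi c.1 h.1) (by omega)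
    simp [ka, h, this, hk]

theorem kW (hj : j < d.k) (h : v ∈ d.W j) (hp : 2 * g < d.pos j v) :
    ka d a m v = 12 * j + 11 := by
  have n0 : v ∉ M d a m 0 := fun c => by have := posM hP hw hn (by omega) hj c h; omega
  have n1 : ¬ (1 < d.k ∧ v ∈ M d a m 1) := fun c => by have := posM hP hw hn c.1 hj c.2 h; omega
  obtain rfl | rfl : j = 0 ∨ j = 1 := by have := hP.k; omega
  · simp only [ka, if_neg n0, if_neg n1, if_pos h]
  · have : v ∉ d.W 0 := fun c => absurd (w_eq hP (by omega) hj c h) (by omega)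
    simp only [ka, if_neg n0, if_neg n1, if_neg this]

theorem notX (hi : i < d.k) (h : v ∈ M d a m i) (hl : (d.arc i).lev v ≤ l) :
    v ∉ d.X (l + 1) (g + 1) := by
  rintro ⟨j, hj, k | k⟩
  · obtain rfl := p_eq hP hi hj h.1 k.1
    omega
  · have := posM hP hw hn hi hj h k.1
    omega

/-- the vertices outside the hub -/
theorem cover {I : Set V} (hl : 1 ≤ l) (hs : l < d.s) (rI : d.rg l g ⊆ I)
    (iK : ∀ u ∈ I, ∀ v ∈ d.X l g, v ∉ d.X (l + 1) (g + 1) → H.Adj u v → v ∈ I)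
    (h : v ∈ (d.X l g ∪ I) \ I) : (∃ i < d.k, v ∈ M d a m i ∧ l + 1 ≤ (d.arc i).lev v) ∨
      ∃ j < d.k, v ∈ d.W j ∧ 2 * g < d.pos j v := by
  have hX : v ∈ d.X l g := h.1.resolve_right h.2
  by_cases c : ∃ i < d.k, v ∈ M d a m i
  · obtain ⟨i, hi, c⟩ := c
    refine Or.inl ⟨i, hi, c, by_contra fun k => h.2 ?_⟩
    obtain ⟨⟨I0, p⟩, ps, pn⟩ := hP.pan i hi
    have ni := hn i hi
    have c2 := c.2
    by_cases e : (d.arc i).lev v = l
    · obtain ⟨w, ⟨f, hf, hw'⟩, lk⟩ := p.down v c.1 (by omega)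
      rw [e] at hw'
      have wc := mem_C p (by omega) hf hw'
      have ev : ∀ f' ≤ (d.arc i).n, ∀ x ∈ (d.arc i).C l f', a + 1 ≤ f' → f' ≤ a + m i + 7 → x ∈ I :=
        fun f' _ x hx h1 h2 => rI ⟨i, hi, Or.inl ⟨f', by omega, by omega, hx⟩⟩
      by_cases o : (d.arc i).κ v % 2 = 0
      · rcases (p.col ((d.arc i).κ v / 2) (by omega) v).2 ⟨c.1, by omega⟩ with k' | ⟨l', -, l2, k'⟩
        · have := (p.lam _ (by omega)).2.2.2.2 v k'
          omega
        · have := (mem_C p l2 (by omega) k').2.2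
          exact ev ((d.arc i).κ v / 2) (by omega) v (by rwa [← e, this]) (by omega) (by omega)
      · have wI : w ∈ I := by
          rcases pan.last_edge lk ⟨c.1, rfl, rfl⟩ with k' | ⟨x, k', e'⟩
          · have := k'.2.2
            omega
          · have := (p.stp x k'.1 w wc.1 e').1
            have := k'.2.2
            unfold LSt at *
            exact ev f hf w hw' (by omega) (by omega)
        by_contra nI
        obtain ⟨x, y, x1, y1, x2, y2, e', -⟩ := link_exit lk.symm wI nI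
        have y3 := y1.resolve_right fun q => y2 (q ▸ wI)
        have x3 : x ∈ (d.arc i).P ∧ (d.arc i).lev x = l :=
          x1.elim (fun q => ⟨q.1, q.2.1.trans e⟩) fun q => q ▸ ⟨wc.1, wc.2.2⟩
        have y4 := y3.2
        exact y2 (iK x x2 y ⟨i, hi, Or.inl ⟨y3.1, by omega⟩⟩
          (notX hP hw hn hi ⟨y3.1, by omega, by omega⟩ (by omega))
          ((hP.keep i hi x x3.1 (by omega)).2 y y3.1 (by omega) e'))
    · obtain ⟨j, hj, k' | k'⟩ := hX
      · obtain rfl := p_eq hP hi hj c.1 k'.1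
        omega
      · have := posM hP hw hn hi hj c k'.1
        refine rI ⟨j, hj, Or.inr ⟨((hP.half j hj).row g (show g ≤ d.w by omega) v).2
          ⟨k'.1, by omega⟩, fun i' hi' q => ?_⟩⟩
        obtain rfl := p_eq hP hi hi' c.1 q
        omega
  · right
    obtain ⟨j, hj, k | k⟩ := hX
    · have nj := hn j hj
      have pn := (hP.pan j hj).2.2
      by_cases q : 2 * (a + 1) ≤ (d.arc j).κ v
      · have q' : 2 * (a + m j + 7) < (d.arc j).κ v := not_le.1 fun q' => c ⟨j, hj, k.1, q, q'⟩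
        have := inA hP hj k.1 (by omega)
        exact ⟨j, hj, this.1, by omega⟩
      · obtain ⟨j', hj', rfl⟩ : ∃ j' < d.k, (j' + 1) % d.k = j := by
          rcases hP.k with hk | hk
          · exact ⟨0, by omega, by rw [hk]; omega⟩
          · exact ⟨1 - j, by omega, by rw [hk]; omega⟩
        have := inB hP hj' k.1 (by omega)
        exact ⟨j', hj', this.1, by omega⟩
    · refine ⟨j, hj, k.1, lt_of_le_of_ne k.2 fun e => h.2 (rI ⟨j, hj, Or.inr
        ⟨((hP.half j hj).row g (show g ≤ d.w by omega) v).2 ⟨k.1, e.symm⟩, fun i hi q => ?_⟩⟩)⟩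
      have := posk hP hi hj q k.1
      have := hn i hi
      have := (hP.pan i hi).2.2
      exact (c ⟨i, hi, q, by omega, by omega⟩).elim

theorem seg_k (hi : i < d.k) {r : ℕ} (hr : r < 6) (h : v ∈ sm d a m i r) :
    ka d a m v = 12 * i + 2 * r + 1 := by
  obtain ⟨⟨I0, p⟩, -, pn⟩ := hP.pan i hi
  have ni := hn i hi
  unfold sm at h
  split_ifs at h with h2 h5
  · have k : v ∈ (d.arc i).P ∧ 2 * a + 6 < (d.arc i).κ v ∧ (d.arc i).κ v < 2 * (a + m i + 5) := by
      simp only [List.mem_append] at h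
      rcases h with (h | h) | h
      · have := p.seg _ (by omega) v h
        exact ⟨this.1, by omega, by omega⟩
      · have := mem_lin p (by omega) h
        exact ⟨this.1, by omega, by omega⟩
      · have := p.seg _ (by omega) v h
        exact ⟨this.1, by omega, by omega⟩
    rw [kM hP hi ⟨k.1, by omega, by omega⟩]
    have := ph_cases a (m i) ((d.arc i).κ v)
    omega
  · have k : v ∈ d.W i ∧ 2 * g < d.pos i v := by
      obtain ⟨⟨I1, p'⟩, -, pn'⟩ := hP.pan _ (nxt hP i)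
      simp only [Rt, Lf, List.mem_append] at h
      rcases h with ((h | h) | h) | h | h
      · have t := p.seg _ (by omega) v h
        have := inA hP hi t.1 (by omega)
        exact ⟨this.1, by omega⟩
      · have t := mem_lin p (by omega) h
        have := inA hP hi t.1 (by omega)
        exact ⟨this.1, by omega⟩
      · have t := (hP.half i hi).nd.2 v h
        have e : d.pos i v = 2 * d.w + 1 := t.2
        exact ⟨t.1, by omega⟩
      · have t := mem_lin p' (by omega) h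
        have := inB hP hi t.1 (by omega)
        exact ⟨this.1, by omega⟩
      · have t := p'.seg _ (by omega) v h
        have := inB hP hi t.1 (by omega)
        exact ⟨this.1, by omega⟩
    rw [kW hP hw hn hi k.1 k.2]
    omega
  · have c := cl_cases a (m i) r
    have t := p.seg _ (by omega) v h
    rw [kM hP hi ⟨t.1, by omega, by omega⟩]
    have := ph_cases a (m i) ((d.arc i).κ v)
    omega

theorem core [Finite V] (hF : FanS) {I : Set V} (hl : 1 ≤ l) (hs : l < d.s) (hg : 3 ≤ g)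
    (nd : d.list.Nodup) (tp : ls d.list ⊆ d.X (l + 1) (g + 1))
    (iC : Conn H I) (rI : d.rg l g ⊆ I) (iX : ∀ v ∈ I, v ∉ d.X (l + 1) (g + 1))
    (iK : ∀ u ∈ I, ∀ v ∈ d.X l g, v ∉ d.X (l + 1) (g + 1) → H.Adj u v → v ∈ I) :
    HF (res H (d.X l g ∪ I)) (d.X l g ∪ I) d.list I := by
  have hk := hP.k
  have rt := rot d a m hk hn
  have xx : d.X (l + 1) (g + 1) ⊆ (d.X l g ∪ I) \ I := fun v hv =>
    ⟨Or.inl (X_mono (by omega) (by omega) hv), fun c => iX v c hv⟩
  have le1 : res H (d.X l g ∪ I) ≤ H := fun _ _ e => e.1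
  have cov := fun v h => cover (v := v) hP hw hn hl hs rI iK h
  have lI : ∀ x ∈ d.list, x ∉ I := fun x hx c => iX x c (tp hx)
  have gG : ∀ j < 3 * (2 * d.k), ∀ v, v ∈ GG d a m (l + 1) j ↔ v ∈ (d.arc (j / 6)).P ∧
      (d.arc (j / 6)).κ v = 2 * cl a (m (j / 6)) (j % 6) ∧ l + 1 ≤ (d.arc (j / 6)).lev v := by
    intro j hj v
    obtain ⟨⟨I0, p⟩, ps, -⟩ := hP.pan (j / 6) (by omega)
    have := cl_cases a (m (j / 6)) (j % 6)
    have := hn (j / 6) (by omega)
    exact mem_up p (by omega) (by omega)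
  refine nf.hf_rot rt (hF V _ _ I (2 * d.k) (GG d a m (l + 1)) _ _ (ka d a m) (by omega)
    ⟨fun _ _ e => e.2.1, rt.nodup_iff.2 nd, fun x hx => (xx (tp (rt.mem_iff.1 hx))).1⟩
    subset_union_right (conn_res iC subset_union_right)
    (disjoint_right.2 fun x hx => lI x (rt.mem_iff.1 hx)) (fun j hj => ?_) (fun v hv => ?_) ?_
    (fun u hu v hv e => ?_) fun j hj => ?_)
  · obtain ⟨⟨I0, p⟩, ps, pn⟩ := hP.pan (j / 6) (by omega)
    have c := cl_cases a (m (j / 6)) (j % 6)
    have nj := hn (j / 6) (by omega)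
    have hc : cl a (m (j / 6)) (j % 6) ≤ (d.arc (j / 6)).n := by omega
    have gX : GG d a m (l + 1) j ⊆ (d.X l g ∪ I) \ I := fun v hv =>
      have := (gG j hj v).1 hv
      xx ⟨j / 6, by omega, Or.inl ⟨this.1, this.2.2⟩⟩
    refine ⟨gX, conn_res (keep hP (i := j / 6) (by omega) (fun v hv => ?_) ?_) fun v hv => (gX hv).1,
      ?_, Or.inl (p.lam _ hc).2.2.1, fun x hx => ?_⟩
    · have := (gG j hj v).1 hv
      exact ⟨this.1, by omega⟩
    · exact pan.conn_up (by omega) (fun l' hl' => (p.cell l' hl' _ hc).1)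
        (fun l' hl' => p.ver l' hl' _ hc) (p.lam _ hc).1 (p.lam _ hc).2.1
    · obtain ⟨x, x1, y, y1, e⟩ := p.ver l (by omega) _ hc
      have x2 := mem_C p (by omega) hc x1
      have y2 := mem_C p (by omega) hc y1
      have xI : x ∈ I := rI ⟨j / 6, by omega, Or.inl ⟨_, by omega, by omega, x1⟩⟩
      have yG : y ∈ GG d a m (l + 1) j := (gG j hj y).2 ⟨y2.1, y2.2.1, y2.2.2.ge⟩
      exact ⟨x, xI, y, yG, (hP.keep _ (by omega) x x2.1 (by omega)).2 y y2.1 (by omega) e,
        Or.inr xI, (gX yG).1⟩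
    · have := seg_k hP hw hn (i := j / 6) (r := j % 6) (by omega) (by omega) hx
      omega
  · rcases cov v hv with ⟨i, hi, c, lv⟩ | ⟨i, hi, c, q⟩
    · have e := kM hP hi c
      have f := ph_cases a (m i) ((d.arc i).κ v)
      have c2 := c.2
      refine ⟨by omega, fun j hj => ?_⟩
      rw [gG j hj]
      have cc := cl_cases a (m (j / 6)) (j % 6)
      constructor
      · intro k
        obtain rfl : i = j / 6 := by omega
        exact ⟨c.1, by omega, lv⟩
      · intro k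
        obtain rfl := p_eq hP hi (by omega) c.1 k.1
        omega
    · have e := kW hP hw hn hi c q
      refine ⟨by omega, fun j hj => ⟨fun k => by omega, fun k => ?_⟩⟩
      have k' := (gG j hj v).1 k
      have cc := cl_cases a (m (j / 6)) (j % 6)
      have := posM hP hw hn (i := j / 6) (by omega) hi ⟨k'.1, by omega, by omega⟩ c
      omega
  · rintro ⟨x, x1, y, y1, e⟩
    have x2 := (gG _ (by omega) x).1 x1
    have y2 := (gG _ (by omega) y).1 y1
    have e0 := hP.le e.1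
    by_cases q : (3 * (2 * d.k) - 1) / 6 = 0 / 6
    · rw [q] at x2
      obtain ⟨⟨I0, p⟩, -, -⟩ := hP.pan (0 / 6) (by omega)
      have := (p.stp x x2.1 y y2.1 e0).1
      have := cl_cases a (m (0 / 6)) ((3 * (2 * d.k) - 1) % 6)
      have := cl_cases a (m (0 / 6)) (0 % 6)
      unfold LSt at *
      omega
    · exact (hP.adis _ (by omega) _ (by omega) q).2.1 ⟨x, x2.1, y, y2.1, e0⟩
  · have mw : ∀ u v, H.Adj u v → ∀ i < d.k, u ∈ M d a m i → ∀ j < d.k, v ∈ d.W j →
        2 * g < d.pos j v → (ka d a m u + 1) % (2 * (3 * (2 * d.k))) = ka d a m v ∨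
          (ka d a m v + 1) % (2 * (3 * (2 * d.k))) = ka d a m u := by
      intro u v e i hi c j hj c' q
      have uW := (hP.half j hj).clo v c' (by omega) u e.symm
      have s := (hP.half j hj).stp u uW v c' e
      have := posM hP hw hn hi hj c uW
      have pk := posk hP hi hj c.1 uW
      have := hn i hi
      have := ph_cases a (m i) ((d.arc i).κ u)
      have := c.2
      rw [kM hP hi c, kW hP hw hn hj c' q]
      unfold LSt at s
      rcases hk with hk | hk <;> rw [hk] at pk ⊢ <;> omega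
    rcases cov u hu with ⟨i, hi, c, -⟩ | ⟨i, hi, c, q⟩ <;>
      rcases cov v hv with ⟨j, hj, c', -⟩ | ⟨j, hj, c', q'⟩
    · obtain rfl : i = j :=
        by_contra fun k => (hP.adis i hi j hj k).2.1 ⟨u, c.1, v, c'.1, hP.le e.1⟩
      obtain ⟨⟨I0, p⟩, -, -⟩ := hP.pan i hi
      have s := (p.stp u c.1 v c'.1 (hP.le e.1)).1
      have := ph_cases a (m i) ((d.arc i).κ u)
      have := ph_cases a (m i) ((d.arc i).κ v)
      have := c.2
      have := c'.2
      rw [kM hP hi c, kM hP hi c']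
      unfold LSt at s
      unfold Stp
      rcases hk with hk | hk <;> rw [hk] <;> omega
    · exact Or.inr ((mw u v e.1 i hi c j hj c' q').imp_right Or.inl)
    · exact Or.inr ((mw v u e.1.symm j hj c' i hi c q).symm.imp_right Or.inl)
    · obtain rfl := w_eq hP hi hj ((hP.half i hi).clo u c (by omega) v e.1) c'
      exact Or.inl (by rw [kW hP hw hn hi c q, kW hP hw hn hi c' q'])
  · obtain ⟨i, rfl | rfl⟩ := Nat.even_or_odd' j
    · have hi : i < d.k := by omega
      obtain ⟨⟨I0, p⟩, ps, pn⟩ := hP.pan i hi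
      have ni := hn i hi
      have sb : List.Sublist (Md d a m i) ((d.arc i).lin 0 (d.arc i).n) := pan.lin_sub _ (by omega)
      have wn : ∀ v ∈ (I ∪ {v | v ∈ (d.X l g ∪ I) \ I ∧ ∃ x ≤ 10,
          ka d a m v = (6 * (2 * i) + x) % (6 * (2 * d.k))}) \ I,
          v ∈ M d a m i ∧ l + 1 ≤ (d.arc i).lev v := by
        intro v hv
        obtain ⟨h1, x, hx, e⟩ := hv.1.resolve_left hv.2
        rcases cov v h1 with ⟨j, hj, c, lv⟩ | ⟨j, hj, c, q⟩
        · have := ph_cases a (m j) ((d.arc j).κ v)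
          have := c.2
          rw [kM hP hj c] at e
          obtain rfl : i = j := by rcases hk with hk | hk <;> rw [hk] at e <;> omega
          exact ⟨c, lv⟩
        · rw [kW hP hw hn hj c q] at e
          exfalso
          rcases hk with hk | hk <;> rw [hk] at e <;> omega
      rw [arc_ev d a m hk hi]
      refine fun h => p.flat (l + 1) (by omega) (win (le1.trans hP.le) (fun x hx => lI x ?_) sb
        (fun v hv => ?_) (fun x hx y hy e => ?_) h)
      · exact List.mem_flatMap.2 ⟨i, List.mem_range.2 hi, List.mem_append_left _ (sb.subset hx)⟩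
      · have := wn v hv
        exact ⟨Or.inl this.1.1, fun c => c.elim (p.sub this.1.1).2 fun c => by
          have := c.2; omega⟩
      · have t := (wn x hx).1
        have t2 := t.2
        have yP := (p.clo x t.1 (by omega) (by omega) y (hP.le e.1)).imp_right And.left
        refine ⟨{y}, singleton_subset_iff.2 yP, singleton_subset_iff.2 hy, conn_singleton _ _, rfl,
          y, rfl, yP.symm.imp_right fun q => ⟨q, not_le.1 fun q' => ?_⟩⟩
        exact iX y hy ⟨i, hi, Or.inl ⟨q, q'⟩⟩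
    · have hi : i < d.k := by omega
      obtain ⟨⟨I0, p⟩, ps, pn⟩ := hP.pan i hi
      have ni := hn i hi
      have hf := hP.half i hi
      have pn' := (hP.pan _ (nxt hP i)).2.2
      have wn : ∀ v ∈ (I ∪ {v | v ∈ (d.X l g ∪ I) \ I ∧ ∃ x ≤ 10,
          ka d a m v = (6 * (2 * i + 1) + x) % (6 * (2 * d.k))}) \ I,
          v ∈ d.W i ∧ 0 < d.pos i v := by
        intro v hv
        obtain ⟨h1, x, hx, e⟩ := hv.1.resolve_left hv.2
        rcases cov v h1 with ⟨j, hj, c, lv⟩ | ⟨j, hj, c, q⟩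
        · have := ph_cases a (m j) ((d.arc j).κ v)
          have := c.2
          rw [kM hP hj c] at e
          obtain ⟨rfl, q⟩ | ⟨rfl, q⟩ : (j = i ∧ 2 * (a + m j + 5) ≤ (d.arc j).κ v) ∨
              (j = (i + 1) % d.k ∧ (d.arc j).κ v ≤ 2 * a + 6) := by
            rcases hk with hk | hk <;> rw [hk] at e ⊢ <;> omega
          · have := inA hP hi c.1 (by omega)
            exact ⟨this.1, by omega⟩
          · have := inB hP hi c.1 (by omega)
            exact ⟨this.1, by omega⟩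
        · rw [kW hP hw hn hj c q] at e
          obtain rfl : i = j := by rcases hk with hk | hk <;> rw [hk] at e <;> omega
          exact ⟨c, by omega⟩
      have sb : List.Sublist ((d.arc i).lin (a + m i + 5) (2 + 1 + a) ++ d.mid i ++
          (d.arc ((i + 1) % d.k)).lin 0 (a + 1 + 2)) (((d.F i).A.lin 0 (d.F i).A.n).tail ++
            d.mid i ++ ((d.F i).B.lin 0 (d.F i).A.n).tail.reverse) := by
        refine ((?_ : List.Sublist _ _).append (List.Sublist.refl _)).append ?_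
        · change List.Sublist _ (((d.arc i).sub _ d.w).lin 0 d.w).tail
          rw [pan.lin_subp, show d.w = g - 3 + 1 + (2 + 1 + a) by omega, eqv.lin_add _ _ (g - 3),
            show (d.arc i).n - (g - 3 + 1 + (2 + 1 + a)) + 0 + (g - 3) + 1 = a + m i + 5 by omega,
            List.append_assoc, List.tail_append_of_ne_nil (by simp [PD.lin])]
          exact ((List.sublist_append_right _ _).trans (List.sublist_append_right _ _))
        · change List.Sublist _ (((d.arc _).sub 0 d.w).rev.lin 0 d.w).tail.reverse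
          rw [pan.lin_rev _ 0 d.w (by change 0 + d.w ≤ d.w; omega), pan.lin_subp,
            List.tail_reverse, List.reverse_reverse]
          change List.Sublist _ ((d.arc _).lin (0 + (d.w - (0 + d.w))) d.w).dropLast
          rw [show 0 + (d.w - (0 + d.w)) = 0 by omega,
            show d.w = a + 1 + 2 + 1 + (g - 3) by omega, eqv.lin_add _ _ _ (g - 3),
            List.dropLast_append_of_ne_nil (by simp [PD.lin]), List.append_assoc]
          exact List.sublist_append_left _ _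
      obtain ⟨z, hz⟩ := (p.cell l (by omega) ((d.arc i).n - d.w) (by omega)).1.1
      have z1 := mem_C p (by omega) (by omega) hz
      have z2 := inA hP hi z1.1 (by omega)
      have zI : z ∈ I := rI ⟨i, hi, Or.inl ⟨_, by omega, by omega, hz⟩⟩
      rw [arc_od d a m hk hi]
      refine fun h => hf.flat (nf.px_rot (List.isRotated_concat _ _)
        (win le1 (fun x hx => lI x ?_) sb (fun v hv => ?_) (fun x hx y hy e => ?_) h))
      · simp only [List.mem_append] at hx
        rcases hx with (hx | hx) | hx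
        · exact List.mem_flatMap.2 ⟨i, List.mem_range.2 hi,
            List.mem_append_left _ ((pan.lin_sub _ (by omega)).subset hx)⟩
        · exact List.mem_flatMap.2 ⟨i, List.mem_range.2 hi, List.mem_append_right _ hx⟩
        · exact List.mem_flatMap.2 ⟨_, List.mem_range.2 (nxt hP i),
            List.mem_append_left _ ((pan.lin_sub _ (by omega)).subset hx)⟩
      · have := wn v hv
        exact ⟨this.1, fun c => by have := ((hf.row 0 (Nat.zero_le _) v).1 c).2; omega⟩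
      · have t := wn x hx
        have yW := hf.clo x t.1 t.2 y e.1
        refine ⟨cp H (I ∩ d.W i) y, fun v hv => hv.1.2, fun v hv => hv.1.1, cp_conn ⟨hy, yW⟩,
          cp_self ⟨hy, yW⟩, ?_⟩
        by_cases q : 0 < d.pos i y
        · obtain ⟨x', y', x1, y1, x2, y2, e', k⟩ := link_exit
            (T := {x | x ∈ d.W i ∧ 0 < d.pos i x}) (iC.2 y hy z zI) ⟨yW, q⟩ fun c => by
              have := c.2; omega
          have y3 := hf.clo x' x2.1 x2.2 y' e'
          refine ⟨y', cp_closed (x := x') ⟨⟨x1, x2.1⟩, k.mono (inter_subset_inter_right _ fun _ hv => hv.1)⟩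
            ⟨y1, y3⟩ e',
            (hf.row 0 (Nat.zero_le _) y').2 ⟨y3, by_contra fun c => y2 ⟨y3, by omega⟩⟩⟩
        · exact ⟨y, cp_self ⟨hy, yW⟩, (hf.row 0 (Nat.zero_le _) y).2 ⟨yW, by omega⟩⟩

end hub

theorem hubS : NfS → PanS → FanS → XrS → HubS := by
  intro _ _ hF hX V _ H0 H U0 U U' d l g hP hl hs hg hw xU _
  obtain ⟨soc, tp, xr⟩ := hX V H0 H U0 U d hP (by omega)
  obtain ⟨r1, r2, r3, r4⟩ := (xr l g hl (by omega) (by omega)).2.2.2.2 (by omega) (by omega)
    (by omega)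
  obtain ⟨q1, -, -, q4⟩ := (xr (l + 1) (g + 1) (by omega) (by omega) (by omega)).2.2.2.2 (by omega)
    (by omega) (by omega)
  have xm : d.X (l + 1) (g + 1) ⊆ d.X l g := hub.X_mono (by omega) (by omega)
  have rs : d.rg l g ⊆ U' \ d.rg (l + 1) (g + 1) := fun v hv =>
    ⟨xU (r1 hv), fun c => disjoint_left.1 r3 hv (q1 c)⟩
  set I := lk H (U' \ d.rg (l + 1) (g + 1)) (d.rg l g) with hI
  have rI : d.rg l g ⊆ I := fun v hv => capi.lk_self hv (rs hv)
  have iX : ∀ v ∈ I, v ∉ d.X (l + 1) (g + 1) := by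
    rintro v ⟨-, b, b1, -, b3⟩ c
    obtain ⟨x, y, x1, -, x2, y2, e, -⟩ := link_exit b3.symm c (disjoint_left.1 r3 b1)
    exact x1.2 (q4 x x2 y y2 e)
  have tp' : ls d.list ⊆ d.X (l + 1) (g + 1) := tp.trans (hub.X_mono (by omega) (by omega))
  have key := hub.core (a := d.w - g - 1) (m := fun i => (d.arc i).n - (2 * (d.w - g - 1) + 8)) hP
    (by omega) (fun i hi => by have := (hP.pan i hi).2.2; omega) hF hl (by omega) hg
    soc.nd tp' (capi.lk_conn r2 rs) rI iX
    fun u hu v hv n e => capi.lk_closed hu ⟨xU hv, fun c => n (q1 c)⟩ e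
  have cl : ∀ S ⊆ U', Conn (res H U') S → ∀ x ∈ S, x ∈ d.list → S ⊆ d.X l g ∪ I := by
    intro S hS hc x hx hx' v hv
    by_contra n
    obtain ⟨y, z, -, z1, y2, z2, e, -⟩ :=
      link_exit (T := d.X l g ∪ I) (hc.2 x hx v hv) (Or.inl (xm (tp' hx'))) n
    have yI : y ∈ I := y2.elim (fun q => rI (r4 y q z (fun c => z2 (Or.inl c)) e.1)) id
    exact z2 (Or.inr (capi.lk_closed yI ⟨hS z1, fun c => z2 (Or.inl (xm (q1 c)))⟩ e.1))
  intro a b c e s P Q hT ha hc hb he
  have m := nf.sub4_mem s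
  have p1 := cl P hT.sp hT.cp a ha m.1
  have p2 := cl Q hT.sq hT.cq b hb m.2.1
  have le1 : res H U' ≤ H := fun _ _ e => e.1
  exact key a b c e s P Q ⟨p1, p2, hub.conn_res (capi.conn_le le1 hT.cp) p1,
    hub.conn_res (capi.conn_le le1 hT.cq) p2, hT.dis⟩ ha hc hb he

end Pool.Agent.MP_9d78a0_co.st
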