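import Pool.Agent.MP_9d78a0_co.st.TRg
import Pool.Agent.MP_9d78a0_co.gm.SpecOp
import Pool.Agent.MP_9d78a0_co.gm.Map
import Pool.Agent.MP_9d78a0_co.gm.BGrid

-- ======== part 0: formerly Pool.Agent.MP_9d78a0_co.st.TRh
section MrgPart0

/-! Translation of drawings to maps, part h: the induction on drawings. -/

set_option autoImplicit false
set_option linter.unusedSectionVars false

namespace Pool.Agent.MP_9d78a0_co.st.tr

open Function gm

namespace ST
variable {D V : Type} [DecidableEq D] {α γ : D → D} {l : D → V} {S : Finset D} {sd : D → Prop}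
  {Z : Set V} {n : ℤ} {W : List (List (D × D))}

theorem split {A B : List (D × D)} (h : ST α γ l S sd ((A ++ B) :: W) Z n) :
    ST α γ l S sd (A :: B :: W) Z n := by
  obtain ⟨M, sg, g, ha, hm, hw, hn⟩ := h
  obtain ⟨s, hs⟩ := hw (A ++ B) (by simp)
  obtain ⟨m, hs1, hs2⟩ := (ch_append _ _ _ _).1 hs
  let f : ℕ → ℕ := fun t => if t = m then s else t
  have f1 : f m = s := by simp [f]
  have f2 : f s = s := by simp [f]
  refine ⟨M, f ∘ sg, by simpa using g, fun d => by simp [ha], fun y hy => by simp [hm y hy], ?_, ?_⟩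
  · intro w hw'
    simp only [List.mem_cons] at hw'
    rcases hw' with rfl | rfl | hw'
    · have := ch_comp (sg' := f ∘ sg) f w _ _ hs1 fun _ _ => ⟨rfl, rfl⟩
      rw [f1, f2] at this
      exact ⟨_, this⟩
    · have := ch_comp (sg' := f ∘ sg) f w _ _ hs2 fun _ _ => ⟨rfl, rfl⟩
      rw [f1, f2] at this
      exact ⟨_, this⟩
    · obtain ⟨t, ht⟩ := hw w (by simp [hw'])
      exact ⟨_, ch_comp f w _ _ ht fun _ _ => ⟨rfl, rfl⟩⟩
  · rw [← Finset.image_image]
    simp only [ex, List.map_cons, List.sum_cons, List.length_append] at hn ⊢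
    by_cases e : m = s
    · have : f = id := by
        funext t
        simp only [f, id]
        split_ifs with h
        · rw [h, e]
        · rfl
      rw [this, Finset.image_id]
      omega
    · have a : A ≠ [] := by rintro rfl; exact e (Eq.symm hs1)
      have b : B ≠ [] := by rintro rfl; exact e hs2
      have a' := List.length_pos_iff.2 a
      have b' := List.length_pos_iff.2 b
      have h1 : (S.image sg).erase m ⊆ (S.image sg).image f := by
        intro t ht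
        rw [Finset.mem_erase] at ht
        exact Finset.mem_image.2 ⟨t, ht.2, by simp [f, ht.1]⟩
      have h2 := Finset.card_le_card h1
      have h3 := Finset.pred_card_le_card_erase (s := S.image sg) (a := m)
      omega

theorem opn (h : ST α γ l S sd W Z n) {d : D} (hd : d ∈ S) :
    ∃ x : D × D, l x.1 = l d ∧ ((∃ w ∈ W, x ∈ w) ∨ ST α γ l S sd ([x] :: W) Z n) := by
  obtain ⟨M, sg, g, ha, hm, hw, hn⟩ := h
  obtain ⟨β, -, b2⟩ := g.pm.fn
  obtain ⟨x, hx, e⟩ := b2 d hd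
  refine ⟨x, ?_, ?_⟩
  · rcases e with rfl | rfl
    · rfl
    · exact g.lab x hx
  · rcases Multiset.mem_add.1 hx with hx | hx
    · exact Or.inl (List.mem_flatten.1 hx)
    · obtain ⟨M', rfl⟩ := Multiset.exists_cons_of_mem hx
      refine Or.inr ⟨M', sg, ?_, ha, fun y hy => hm y (by simp [hy]), ?_, by simpa [ex] using hn⟩
      · convert g using 1
        simp only [List.flatten_cons, List.cons_append, List.nil_append, ← Multiset.cons_coe,
          Multiset.cons_add, Multiset.add_cons]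
      · intro w hw'
        rcases List.mem_cons.1 hw' with rfl | hw'
        · exact ⟨_, rfl, (hm x (by simp)).symm⟩
        · exact hw w hw'

theorem nil (h : ST α γ l S sd W Z n) : ST α γ l S sd ([] :: W) Z n := by
  obtain ⟨M, sg, g, ha, hm, hw, hn⟩ := h
  refine ⟨M, sg, by simpa using g, ha, hm, ?_, by simpa [ex] using hn⟩
  intro w hw'
  rcases List.mem_cons.1 hw' with rfl | hw'
  · exact ⟨0, rfl⟩
  · exact hw w hw'

end ST

variable {V ι : Type} [DecidableEq V] [DecidableEq ι]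

namespace IV
variable {N : ι → List V} {I J : Finset ι} {ws ws' : List (List V)} {g g' : ℤ}

theorem nil (h : IV N I ws g) : IV N I ([] :: ws) g := by
  obtain ⟨W, n, rfl, s, c, k⟩ := h
  exact ⟨_, n, rfl, s.nil, c, k⟩

theorem split {A B : List V} (h : IV N I ((A ++ B) :: ws) g) : IV N I (A :: B :: ws) g := by
  obtain ⟨W, n, e, s, c, k⟩ := h
  obtain ⟨w, W, rfl, e1, rfl⟩ := List.map_eq_cons_iff.1 e
  obtain ⟨A', B', rfl, rfl, rfl⟩ := List.map_eq_append_iff.1 e1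
  exact ⟨_, n, rfl, s.split, c, k⟩

theorem opn (h : IV N I ws g) {i : ι} {x : V} (hi : i ∈ I) (hx : x ∈ N i) :
    (∃ w ∈ ws, x ∈ w) ∨ IV N I ([x] :: ws) g := by
  obtain ⟨W, n, rfl, s, c, k⟩ := h
  obtain ⟨y, e, ⟨w, hw, hy⟩ | s'⟩ := s.opn (d := (i, x, true)) (mem_fl.2 ⟨hi, hx⟩)
  · exact Or.inl ⟨_, List.mem_map_of_mem hw, List.mem_map.2 ⟨y, hy, e⟩⟩
  · exact Or.inr ⟨_, n, by rw [List.map_cons, lw_cons, e]; rfl, s', c, k⟩

theorem sub {A B : List V} (h : IV N I (A :: ws) g) (hs : B.Sublist A) : IV N I (B :: ws) g := by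
  have key : ∀ {A B : List V}, B.Sublist A → ∀ C : List V, IV N I ((A ++ C) :: ws) g →
      IV N I ((C ++ B) :: ws) g := by
    intro A B hs
    induction hs with
    | slnil => intro C h; simpa using h
    | cons a _ ih => intro C h; exact ih C h.drop
    | @cons_cons l1 l2 a _ ih =>
      intro C h
      have := ih (C ++ [a]) (by simpa using rot (A := [a]) (B := l2 ++ C) (by simpa using h))
      simpa using this
  simpa using key hs [] (by simpa using h)

theorem rot' {A B : List V} (h : IV N I (A :: ws) g) (hs : A.IsRotated B) : IV N I (B :: ws) g := by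
  obtain ⟨n, hn, rfl⟩ := List.isRotated_iff_mod.1 hs
  rw [List.rotate_eq_drop_append_take hn]
  exact rot (by rwa [List.take_append_drop])

theorem pinch {v : V} {U : List V} {i : ι} (h : IV N I ws g) (h' : IV N J ((v :: U) :: ws') g')
    (hd : Disjoint I J) (hi : i ∈ I) (hv : v ∈ N i)
    (hY : ∀ i ∈ I, ∀ j ∈ J, ∀ x ∈ N i, x ∈ N j → x = v) :
    IV N (I ∪ J) ((v :: U) :: (ws ++ ws')) (g + g') := by
  rcases h.opn hi hv with ⟨w, hw, hx⟩ | h1
  · obtain ⟨A, B, rfl⟩ := List.append_of_mem hx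
    obtain ⟨s, t, rfl⟩ := List.append_of_mem hw
    have h2 := join (y := v) (Y := []) (U := B ++ A) (U' := U)
      (by simpa using (h.perm List.perm_middle).rot) (by simpa using h') hd (by simp) (by simpa using hY)
    have h3 := rot (A := v :: B) (B := A) (split (A := v :: B ++ A) (B := v :: U) (by simpa using h2))
    refine h3.perm ((List.Perm.swap _ _ _).trans (List.Perm.cons _ ?_))
    simpa using (List.perm_middle (a := A ++ v :: B) (l₁ := s) (l₂ := t ++ ws')).symm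
  · have h2 := join (y := v) (Y := []) (U := []) (U' := U)
      (by simpa using h1) (by simpa using h') hd (by simp) (by simpa using hY)
    exact drop (x := v) (by simpa using h2)

/-- a part without nodes -/
theorem void (h : IV N I ws g) (h0 : ∀ j ∈ J, N j = []) : IV N (I ∪ J) ws g := by
  have : fl N (I ∪ J) = fl N I := by
    ext d
    simp only [mem_fl, Finset.mem_union]
    constructor
    · rintro ⟨a | a, b⟩
      · exact ⟨a, b⟩
      · simp [h0 _ a] at b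
    · rintro ⟨a, b⟩; exact ⟨Or.inl a, b⟩
  unfold IV
  rw [this]
  exact h

theorem nils (h : IV N I ws g) (h0 : ∀ w ∈ ws', w = []) : IV N I (ws' ++ ws) g := by
  induction ws' with
  | nil => exact h
  | cons w ws' ih =>
    obtain rfl := h0 w (by simp)
    exact (ih fun w hw => h0 w (by simp [hw])).nil

end IV

/-- cells and virtual cells with two nodes -/
abbrev Id (ι V : Type) : Type := ι ⊕ (ι × ι × V × V)

/-- their nodes -/
def nx (N : ι → List V) : Id ι V → List V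
  | .inl i => N i
  | .inr p => if p.2.2.1 = p.2.2.2 then [] else [p.2.2.1, p.2.2.2]

/-- the cells `I` with some virtual cells are drawn -/
def DI (N : ι → List V) (I : Finset ι) (ws : List (List V)) (g : ℤ) : Prop :=
  ∃ I' : Finset (Id ι V), (∀ i, Sum.inl i ∈ I' ↔ i ∈ I) ∧
    (∀ p, Sum.inr p ∈ I' → p.1 ∈ I ∧ p.2.1 ∈ I ∧ p.2.2.1 ∈ N p.1 ∧ p.2.2.2 ∈ N p.2.1) ∧
    IV (nx N) I' ws g

theorem nx_node {N : ι → List V} {I : Finset ι} {I' : Finset (Id ι V)}
    (h1 : ∀ i, Sum.inl i ∈ I' ↔ i ∈ I)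
    (h2 : ∀ p, Sum.inr p ∈ I' → p.1 ∈ I ∧ p.2.1 ∈ I ∧ p.2.2.1 ∈ N p.1 ∧ p.2.2.2 ∈ N p.2.1) :
    ∀ i ∈ I', ∀ x ∈ nx N i, ∃ j ∈ I, x ∈ N j := by
  rintro (i | p) hi x hx
  · exact ⟨i, (h1 i).1 hi, hx⟩
  · obtain ⟨a, b, c, d⟩ := h2 p hi
    simp only [nx] at hx
    split_ifs at hx
    · simp at hx
    · simp only [List.mem_cons, List.not_mem_nil, or_false] at hx
      rcases hx with rfl | rfl
      · exact ⟨_, a, c⟩
      · exact ⟨_, b, d⟩

namespace DI
variable {N : ι → List V} {I J : Finset ι} {ws ws' ws'' : List (List V)} {g g' g'' : ℤ}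

theorem one (h : DI N I ws g) (f : ∀ I', IV (nx N) I' ws g → IV (nx N) I' ws' g') :
    DI N I ws' g' := by
  obtain ⟨I', a, b, c⟩ := h
  exact ⟨I', a, b, f I' c⟩

theorem two (h : DI N I ws g) (h' : DI N J ws' g') (hd : Disjoint I J) (P : V → Prop)
    (hY : ∀ i ∈ I, ∀ j ∈ J, ∀ x ∈ N i, x ∈ N j → P x)
    (f : ∀ I' J', IV (nx N) I' ws g → IV (nx N) J' ws' g' → Disjoint I' J' →
      (∀ i ∈ I', ∀ j ∈ J', ∀ x ∈ nx N i, x ∈ nx N j → P x) → IV (nx N) (I' ∪ J') ws'' g'') :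
    DI N (I ∪ J) ws'' g'' := by
  obtain ⟨I', a, b, c⟩ := h
  obtain ⟨J', a', b', c'⟩ := h'
  refine ⟨I' ∪ J', by simp [a, a'], ?_, f I' J' c c' ?_ ?_⟩
  · intro p hp
    simp only [Finset.mem_union] at hp ⊢
    rcases hp with hp | hp
    · have := b p hp; tauto
    · have := b' p hp; tauto
  · rw [Finset.disjoint_left] at hd ⊢
    rintro (i | p) h1 h2
    · exact hd ((a i).1 h1) ((a' i).1 h2)
    · exact hd (b p h1).1 (b' p h2).1
  · intro i hi j hj x h1 h2
    obtain ⟨i', hi', h1'⟩ := nx_node a b i hi x h1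
    obtain ⟨j', hj', h2'⟩ := nx_node a' b' j hj x h2
    exact hY i' hi' j' hj' x h1' h2'

theorem letter (h : DI N I ws g) {w : List V} {x : V} (hw : w ∈ ws) (hx : x ∈ w) :
    ∃ i ∈ I, x ∈ N i := by
  obtain ⟨I', a, b, c⟩ := h
  obtain ⟨i, hi, hx⟩ := c.letter hw hx
  exact nx_node a b i hi x hx

theorem union0 (h : DI N I ws g) (h' : DI N J ws' g') (hg : 0 ≤ g')
    (h0 : ∀ j ∈ J, N j = []) : DI N (I ∪ J) (ws ++ ws') (g + g') := by
  have e : ∀ w ∈ ws', w = [] := fun w hw => List.eq_nil_iff_forall_not_mem.2 fun x hx => by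
    obtain ⟨j, hj, c⟩ := h'.letter hw hx
    simp [h0 j hj] at c
  obtain ⟨I', a, b, c⟩ := h
  refine ⟨I' ∪ J.image Sum.inl, by simp [a], ?_, ?_⟩
  · intro p hp
    simp only [Finset.mem_union, Finset.mem_image, reduceCtorEq, and_false, exists_false,
      or_false] at hp ⊢
    have := b p hp; tauto
  · refine (((c.void ?_).nils e).perm List.perm_append_comm).mono (by omega)
    intro j hj
    obtain ⟨j, hj', rfl⟩ := Finset.mem_image.1 hj
    exact h0 j hj'

theorem union (h : DI N I ws g) (h' : DI N J ws' g') (hd : Disjoint I J) (hg : 0 ≤ g)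
    (hg' : 0 ≤ g') (hY : ∀ i ∈ I, ∀ j ∈ J, ∀ x ∈ N i, x ∉ N j) :
    DI N (I ∪ J) (ws ++ ws') (g + g') := by
  by_cases h0 : ∀ j ∈ J, N j = []
  · exact h.union0 h' hg' h0
  by_cases h1 : ∀ i ∈ I, N i = []
  · rw [Finset.union_comm, add_comm]
    exact (h'.union0 h hg h1).one fun _ c => c.perm List.perm_append_comm
  push Not at h0 h1
  obtain ⟨j, hj, h0⟩ := h0
  obtain ⟨i, hi, h1⟩ := h1
  obtain ⟨v, hv⟩ := List.exists_mem_of_ne_nil _ h0
  obtain ⟨u, hu⟩ := List.exists_mem_of_ne_nil _ h1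
  have uv : u ≠ v := fun e => hY i hi j hj u hu (e ▸ hv)
  obtain ⟨I', a, b, c⟩ := h
  obtain ⟨J', a', b', c'⟩ := h'
  have hdl := Finset.disjoint_left.1 hd
  let r : Id ι V := Sum.inr (i, j, u, v)
  have er : nx N r = [u, v] := by simp [r, nx, uv]
  have c0 : IV (nx N) {r} [[u, v]] 0 := by
    rw [← er]; exact IV.new _ r (by simp [er, uv])
  have c1 := c.pinch c0 (i := Sum.inl i) (by
      rw [Finset.disjoint_singleton_right]
      exact fun k => hdl (b _ k).2.1 hj) ((a i).2 hi) hu (by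
      intro i' hi' j' hj' x h1 h2
      rw [Finset.mem_singleton.1 hj', er] at h2
      obtain ⟨k, hk, h3⟩ := nx_node a b i' hi' x h1
      simp only [List.mem_cons, List.not_mem_nil, or_false] at h2
      rcases h2 with rfl | rfl
      · rfl
      · exact absurd hv (hY k hk j hj x h3))
  have c2 := (c'.pinch (v := v) (U := [u]) (IV.rot (A := [u]) (B := [v]) c1) (i := Sum.inl j) (by
      rw [Finset.disjoint_left]
      rintro (k | p) h1 h2
      · simp only [r, Finset.mem_union, Finset.mem_singleton, reduceCtorEq, or_false] at h2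
        exact hdl ((a k).1 h2) ((a' k).1 h1)
      · rcases Finset.mem_union.1 h2 with h2 | h2
        · exact hdl (b p h2).1 (b' p h1).1
        · rw [Finset.mem_singleton.1 h2] at h1
          exact hdl hi (b' _ h1).1) ((a' j).2 hj) hv (by
      intro j' hj' i' hi' x h1 h2
      obtain ⟨k, hk, h3⟩ := nx_node a' b' j' hj' x h1
      rcases Finset.mem_union.1 hi' with hi' | hi'
      · obtain ⟨k', hk', h4⟩ := nx_node a b i' hi' x h2
        exact absurd h3 (hY k' hk' k hk x h4)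
      · rw [Finset.mem_singleton.1 hi', er] at h2
        simp only [List.mem_cons, List.not_mem_nil, or_false] at h2
        rcases h2 with rfl | rfl
        · exact absurd h3 (hY i hi k hk x hu)
        · rfl)).forget
  refine ⟨J' ∪ (I' ∪ {r}), by simp [a, a', r, or_comm], ?_, ?_⟩
  · intro p hp
    simp only [Finset.mem_union, Finset.mem_singleton, r, Sum.inr.injEq] at hp ⊢
    rcases hp with hp | hp | rfl
    · have := b' p hp; tauto
    · have := b p hp; tauto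
    · exact ⟨Or.inl hi, Or.inr hj, hu, hv⟩
  · exact (c2.perm (by simpa using List.perm_append_comm)).mono (by omega)

end DI

theorem ends_cons {Y : List V} {a b : V} (h : Ends Y a b) :
    ∃ Y', Y = a :: Y' ∧ (a :: Y').getLast (by simp) = b := by
  obtain ⟨h1, h2⟩ := h
  rcases Y with _ | ⟨y, Y⟩
  · simp at h1
  · obtain rfl : y = a := by simpa using h1
    refine ⟨Y, rfl, ?_⟩
    rw [List.getLast?_eq_some_getLast (by simp)] at h2
    exact Option.some.inj h2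

theorem dr_two {cell : ι → Cell V} {cs cs' : List (Cell V)} {L : List ι} (hL : L.Nodup)
    (e : L.map cell = cs ++ cs') (hs : ∀ c ∈ cs ++ cs', c.N.Nodup ∧ ls c.N ⊆ c.W) :
    ∃ L1 L2 : List ι, L1.Nodup ∧ L2.Nodup ∧ L1.map cell = cs ∧ L2.map cell = cs' ∧
      L.toFinset = L1.toFinset ∪ L2.toFinset ∧ Disjoint L1.toFinset L2.toFinset ∧
      ∀ i ∈ L1.toFinset, ∀ j ∈ L2.toFinset, ∀ x ∈ (cell i).N, x ∈ (cell j).N → x ∈ Vc cs ∩ Vc cs' := by
  obtain ⟨L1, L2, rfl, rfl, rfl⟩ := List.map_eq_append_iff.1 e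
  refine ⟨L1, L2, hL.of_append_left, hL.of_append_right, rfl, rfl, List.toFinset_append,
    List.disjoint_toFinset_iff_disjoint.2 (List.disjoint_of_nodup_append hL), ?_⟩
  intro i hi j hj x h1 h2
  have a := List.mem_map_of_mem (f := cell) (List.mem_toFinset.1 hi)
  have b := List.mem_map_of_mem (f := cell) (List.mem_toFinset.1 hj)
  exact ⟨⟨_, a, (hs _ (List.mem_append_left _ a)).2 h1⟩, ⟨_, b, (hs _ (List.mem_append_right _ b)).2 h2⟩⟩

theorem dr_di (cell : ι → Cell V) {cs : List (Cell V)} {ws : List (List V)} {g : ℕ}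
    (h : Dr cs ws g) (hs : ∀ c ∈ cs, c.N.Nodup ∧ ls c.N ⊆ c.W) (L : List ι) (hL : L.Nodup)
    (e : L.map cell = cs) : DI (fun i => (cell i).N) L.toFinset ws g := by
  induction h generalizing L with
  | new c =>
    obtain ⟨i, L, rfl, rfl, e'⟩ := List.map_eq_cons_iff.1 e
    obtain rfl := List.map_eq_nil_iff.1 e'
    exact ⟨{Sum.inl i}, by simp, by simp, IV.new _ (Sum.inl i) (hs _ (by simp)).1⟩
  | union _ _ hd ih ih' =>
    obtain ⟨L1, L2, n1, n2, e1, e2, e3, d, hY⟩ := dr_two hL e hs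
    rw [e3]
    push_cast
    exact (ih (fun c hc => hs c (by simp [hc])) L1 n1 e1).union
      (ih' (fun c hc => hs c (by simp [hc])) L2 n2 e2) d (by positivity) (by positivity)
      fun i hi j hj x h1 h2 => Set.disjoint_left.1 hd (hY i hi j hj x h1 h2).1 (hY i hi j hj x h1 h2).2
  | nil _ ih => exact (ih hs L hL e).one fun _ c => c.nil
  | join _ _ hd nd en ih ih' =>
    obtain ⟨L1, L2, n1, n2, e1, e2, e3, d, hY⟩ := dr_two hL e hs
    obtain ⟨Y, rfl, rfl⟩ := ends_cons en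
    rw [e3]
    push_cast
    exact (ih (fun c hc => hs c (by simp [hc])) L1 n1 e1).two
      (ih' (fun c hc => hs c (by simp [hc])) L2 n2 e2) d _
      (fun i hi j hj x h1 h2 => hd (hY i hi j hj x h1 h2)) fun _ _ c c' d' s => c.join c' d' nd s
  | @x2 _ _ _ _ _ _ _ _ A B C D a _ c _ _ _ hd nd en en' ih ih' =>
    obtain ⟨L1, L2, n1, n2, e1, e2, e3, d, hY⟩ := dr_two hL e hs
    obtain ⟨Y, rfl, rfl⟩ := ends_cons en
    obtain ⟨Z, rfl, rfl⟩ := ends_cons en'
    rw [e3]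
    push_cast
    refine (ih (fun c hc => hs c (by simp [hc])) L1 n1 e1).two
      (ih' (fun c hc => hs c (by simp [hc])) L2 n2 e2) d _
      (fun i hi j hj x h1 h2 => hd (hY i hi j hj x h1 h2)) fun _ _ k k' d' s => ?_
    have h1 := (IV.x2 (U1 := A) (U2 := B) (V1 := C) (V2 := D) (by simpa using k) (by simpa using k')
      d' nd s).rev
    have h2 := IV.rot (A := D) (B := (a :: Y).getLast (by simp) :: A ++ c :: C.reverse ++
      a :: B.reverse ++ [(c :: Z).getLast (by simp)]) (by simpa using h1)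
    exact IV.mono (by simpa using h2) (by omega)
  | @s2 _ _ _ _ _ _ _ _ A B C D a _ c _ _ _ hd nd en en' ih ih' =>
    obtain ⟨L1, L2, n1, n2, e1, e2, e3, d, hY⟩ := dr_two hL e hs
    obtain ⟨Y, rfl, rfl⟩ := ends_cons en
    obtain ⟨Z, rfl, rfl⟩ := ends_cons en'
    rw [e3]
    push_cast
    refine (ih (fun c hc => hs c (by simp [hc])) L1 n1 e1).two
      (ih' (fun c hc => hs c (by simp [hc])) L2 n2 e2) d _
      (fun i hi j hj x h1 h2 => hd (hY i hi j hj x h1 h2)) fun _ _ k k' d' s => ?_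
    have h1 := (IV.s2 (U1 := A) (U2 := B) (V1 := C) (V2 := D) (by simpa using k) (by simpa using k')
      d' nd s).perm (List.Perm.swap _ _ _)
    have h2 := IV.rot (A := c :: D) (B := (a :: Y).getLast (by simp) :: A) (by simpa using h1)
    exact IV.mono (by simpa using h2) (by omega)
  | @m2 _ _ _ _ _ _ _ _ A B C D a _ c _ _ _ hd nd en en' ih ih' =>
    obtain ⟨L1, L2, n1, n2, e1, e2, e3, d, hY⟩ := dr_two hL e hs
    obtain ⟨Y, rfl, rfl⟩ := ends_cons en
    obtain ⟨Z, rfl, rfl⟩ := ends_cons en'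
    rw [e3]
    push_cast
    refine (ih (fun c hc => hs c (by simp [hc])) L1 n1 e1).two
      (ih' (fun c hc => hs c (by simp [hc])) L2 n2 e2) d _
      (fun i hi j hj x h1 h2 => hd (hY i hi j hj x h1 h2)) fun _ _ k k' d' s => ?_
    have h1 := IV.m2 (U1 := A) (U2 := B) (V1 := C) (V2 := D) (by simpa using k) (by simpa using k')
      d' nd s
    have h2 := IV.rot (A := (c :: Z).getLast (by simp) :: B ++ c :: D)
      (B := (a :: Y).getLast (by simp) :: A ++ a :: C) (by simpa using h1)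
    simpa using h2
  | sub _ hw ih => exact (ih hs L hL e).one fun _ c => c.sub hw
  | forget _ ih => exact (ih hs L hL e).one fun _ c => c.forget
  | rot _ hw ih => exact (ih hs L hL e).one fun _ c => c.rot' hw
  | rev _ ih => exact (ih hs L hL e).one fun _ c => c.rev
  | @perm cs cs' _ _ _ _ _ p1 p2 hg ih =>
    subst e
    obtain ⟨L', e, p⟩ := (List.perm_comp_forall₂ p1
      (List.forall₂_map_left_iff.2 (List.forall₂_same.2 fun _ _ => rfl) :
        List.Forall₂ (fun a b => a = cell b) (L.map cell) L))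
    have e' : L'.map cell = cs := by
      rw [← List.forall₂_eq_eq_eq, List.forall₂_map_left_iff]
      exact e.flip.imp fun _ _ h => h.symm
    rw [← List.toFinset_eq_of_perm _ _ p]
    exact (ih (fun c hc => hs c (p1.mem_iff.1 hc)) L' (p.nodup_iff.2 hL) e').one
      fun _ c => (c.perm p2).mono (by exact_mod_cast hg)

/-- the hypermap of a subfamily of the cells of a drawing -/
theorem dr_hm (cell : ι → Cell V) {ws : List (List V)} {g : ℕ} (L : List ι) (hL : L.Nodup)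
    (h : Dr (L.map cell) ws g) (hs : ∀ i ∈ L, (cell i).N.Nodup ∧ ls (cell i).N ⊆ (cell i).W)
    (K : Finset ι) (hK : ∀ i ∈ K, i ∈ L) (h0 : ∃ i ∈ K, (cell i).N ≠ []) :
    ∃ β, HM (al (nx fun i => (cell i).N)) β ga lb kp
      (fl (nx fun i => (cell i).N) (K.image Sum.inl)) (4 - 2 * g) := by
  obtain ⟨I', a, -, c⟩ := dr_di cell h (fun c hc => by
    obtain ⟨i, hi, rfl⟩ := List.mem_map.1 hc
    exact hs i hi) L hL rfl
  refine c.toHM ?_ _ ?_ ?_
  · rintro (i | p) hi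
    · exact (hs i (List.mem_toFinset.1 ((a i).1 hi))).1
    · simp only [nx]
      split_ifs with k
      · simp
      · simp [k]
  · intro i hi
    obtain ⟨i, hi', rfl⟩ := Finset.mem_image.1 hi
    exact (a i).2 (List.mem_toFinset.2 (hK i hi'))
  · obtain ⟨i, hi, k⟩ := h0
    obtain ⟨x, hx⟩ := List.exists_mem_of_ne_nil _ k
    exact ⟨(Sum.inl i, x, true), mem_fl.2 ⟨Finset.mem_image_of_mem _ hi, hx⟩⟩

end Pool.Agent.MP_9d78a0_co.st.tr

end MrgPart0

-- ======== part 1: formerly Pool.Agent.MP_9d78a0_co.st.TRr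
section MrgPart1

/-! Translation of drawings to maps, part i: rims at the corners of the holes. -/

set_option autoImplicit false
set_option linter.unusedSectionVars false

namespace Pool.Agent.MP_9d78a0_co.st.tr

open Function gm

section abs

variable {D V ι : Type} [DecidableEq D] [DecidableEq V] [DecidableEq ι]

theorem HM.rims {α β γ : D → D} {l : D → V} {k : D → ι} {S S' H : Finset D} {n : ℤ}
    (ρ π : D → D) (enc : ι → ℕ) (henc : Injective enc) (h : HM α β γ l k S n)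
    (A : Amb γ l S fun _ => True) (A' : Amb γ k S fun _ => True) (ha : Hf α γ k S')
    (mem : ∀ d, d ∈ S' ↔ d ∈ S ∨ ∃ x ∈ H, d = ρ x ∨ d = γ (ρ x)) (hS : H ⊆ S)
    (hg : ∀ x ∈ H, γ x ∈ H) (hal : ∀ x ∈ H, α x ∈ H)
    (hk : ∀ x ∈ H, ∀ d ∈ S, k d ≠ k (ρ x)) (p1 : ∀ x ∈ H, π (ρ x) = x ∧ π (γ (ρ x)) = x)
    (hl : ∀ x ∈ H, l (ρ x) = l x) (a1 : ∀ x ∈ H, α (ρ x) = ρ (α x) ∧ α (γ (ρ x)) = γ (ρ (α x)))
    (two : ∀ x ∈ H, ∀ y ∈ H, k (ρ x) = k (ρ y) → y = x ∨ y = α x) :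
    ∃ β', HM α β' γ l k S' n ∧ ∀ x ∈ H, β' x = γ (ρ x) ∧ β' (γ (ρ x)) = x := by
  obtain ⟨sg, hs, hn⟩ := h.cnt
  have n1 : ∀ x ∈ H, ρ x ∉ S := fun x hx c => hk x hx _ c rfl
  have n2 : ∀ x ∈ H, γ (ρ x) ∉ S := fun x hx c => hk x hx _ c (A'.gl _)
  let R : D → D := fun d => if d ∈ H then ρ d else d
  let β' : D → D := fun d => if d ∈ H then γ (ρ d) else if d ∈ S then R (β d) else
    if d = ρ (π d) then R (β (π d)) else π d
  let sg' : D → ℕ := fun d => if d ∈ H then 2 * enc (k (ρ d)) + 1 else if d ∈ S then 2 * sg d else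
    if d = ρ (π d) then 2 * sg (π d) else 2 * enc (k d) + 1
  have b1 : ∀ x ∈ H, β' x = γ (ρ x) ∧ sg' x = 2 * enc (k (ρ x)) + 1 := fun x hx => by
    simp [β', sg', hx]
  have b2 : ∀ x ∈ H, β' (γ (ρ x)) = x ∧ sg' (γ (ρ x)) = 2 * enc (k (ρ x)) + 1 := fun x hx => by
    have c1 := n2 x hx
    have c2 : γ (ρ x) ∉ H := fun c => c1 (hS c)
    simp [β', sg', c1, c2, (p1 x hx).2, A.gn, A'.gl]
  have b3 : ∀ d ∈ S, β' (R d) = R (β d) ∧ sg' (R d) = 2 * sg d := fun d hd => by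
    by_cases c : d ∈ H
    · have c1 := n1 d c
      have c2 : ρ d ∉ H := fun c => c1 (hS c)
      have e : R d = ρ d := if_pos c
      rw [e]
      simp [β', sg', c1, c2, (p1 d c).1]
    · have e : R d = d := if_neg c
      rw [e]
      simp [β', sg', c, hd]
  have r1 : ∀ d ∈ S, R d ∈ S' ∧ l (R d) = l d ∧ α (R d) = R (α d) := fun d hd => by
    by_cases c : d ∈ H
    · simp only [R, if_pos c, if_pos (hal d c)]
      exact ⟨(mem _).2 (Or.inr ⟨d, c, Or.inl rfl⟩), hl d c, (a1 d c).1⟩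
    · have c' : α d ∉ H := fun c' => c (by simpa [(h.ha.inv d hd).2.1] using hal _ c')
      simp only [R, if_neg c, if_neg c']
      exact ⟨(mem _).2 (Or.inl hd), trivial, trivial⟩
  have r2 : ∀ d ∈ S, ∀ e ∈ S, R d = R e → d = e := fun d hd e he => by
    simp only [R]
    split_ifs with c c' c'
    · intro q; rw [← (p1 d c).1, q, (p1 e c').1]
    · intro q; exact absurd (q ▸ he) (n1 d c)
    · intro q; exact absurd (q ▸ hd) (n1 e c')
    · exact id
  have cov : ∀ d ∈ S', d ∈ H ∨ (∃ x ∈ H, d = γ (ρ x)) ∨ ∃ e ∈ S, d = R e := by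
    intro d hd
    rcases (mem d).1 hd with hd | ⟨x, hx, rfl | rfl⟩
    · by_cases c : d ∈ H
      · exact Or.inl c
      · exact Or.inr (Or.inr ⟨d, hd, (if_neg c).symm⟩)
    · exact Or.inr (Or.inr ⟨x, hS hx, (if_pos hx).symm⟩)
    · exact Or.inr (Or.inl ⟨x, hx, rfl⟩)
  have m2 : ∀ x ∈ H, γ (ρ x) ∈ S' := fun x hx => (mem _).2 (Or.inr ⟨x, hx, Or.inr rfl⟩)
  have m1 : ∀ x ∈ H, ρ x ∈ S' := fun x hx => (mem _).2 (Or.inr ⟨x, hx, Or.inl rfl⟩)
  have inv : ∀ d ∈ S', β' d ∈ S' ∧ β' (β' d) = d ∧ β' d ≠ d := by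
    intro d hd
    rcases cov d hd with c | ⟨x, hx, rfl⟩ | ⟨e, he, rfl⟩
    · rw [(b1 d c).1, (b2 d c).1]
      exact ⟨m2 d c, rfl, fun q => n2 d c (q.symm ▸ hS c)⟩
    · rw [(b2 x hx).1, (b1 x hx).1]
      exact ⟨(mem _).2 (Or.inl (hS hx)), rfl, fun q => n2 x hx (q ▸ hS hx)⟩
    · have i := h.hb.inv e he
      rw [(b3 e he).1, (b3 _ i.1).1, i.2.1]
      exact ⟨(r1 _ i.1).1, rfl, fun q => i.2.2 (r2 _ i.1 e he q)⟩
  have gS : ∀ d ∈ S', γ d ∈ S' := by
    intro d hd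
    rcases (mem d).1 hd with hd | ⟨x, hx, rfl | rfl⟩
    · exact (mem _).2 (Or.inl (A.gs d hd))
    · exact m2 x hx
    · rw [A.gg]; exact m1 x hx
  refine ⟨β', ⟨ha, ⟨inv, ?_, ?_⟩, sg', ?_, ?_⟩, fun x hx => ⟨(b1 x hx).1, (b2 x hx).1⟩⟩
  · intro d hd
    rcases cov d hd with c | ⟨x, hx, rfl⟩ | ⟨e, he, rfl⟩
    · rw [(b1 d c).1, A.gl, hl d c]
    · rw [(b2 x hx).1, A.gl, hl x hx]
    · rw [(b3 e he).1, (r1 _ (h.hb.inv e he).1).2.1, (r1 e he).2.1, h.hb.lab e he]
  · have o1 : ∀ x ∈ H, R x ∈ orb β' γ x := fun x hx =>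
      Relation.ReflTransGen.head (b := γ (ρ x)) (Or.inl (b1 x hx).1.symm)
        (Relation.ReflTransGen.single (Or.inr (by rw [A.gg]; exact if_pos hx)))
    have sy : ∀ {d e : D}, d ∈ S' → e ∈ orb β' γ d → d ∈ orb β' γ e := fun hd c =>
      (orb_symm (S := S') (fun d hd => ⟨(inv d hd).1, (inv d hd).2.1⟩)
        (fun d hd => ⟨gS d hd, A.gg d⟩) hd c).2
    have o2 : ∀ d ∈ S', ∃ e ∈ S, l e = l d ∧ R e ∈ orb β' γ d := by
      intro d hd
      rcases cov d hd with c | ⟨x, hx, rfl⟩ | ⟨e, he, rfl⟩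
      · exact ⟨d, hS c, rfl, o1 d c⟩
      · exact ⟨x, hS hx, by rw [A.gl, hl x hx],
          Relation.ReflTransGen.single (Or.inr (by rw [A.gg]; exact if_pos hx))⟩
      · exact ⟨e, he, (r1 e he).2.1.symm, Relation.ReflTransGen.refl⟩
    have o3 : ∀ d ∈ S, ∀ e ∈ orb β γ d, e ∈ S ∧ R e ∈ orb β' γ (R d) := by
      intro d hd e he
      induction he with
      | refl => exact ⟨hd, Relation.ReflTransGen.refl⟩
      | @tail y z _ hz ih =>
        rcases hz with rfl | rfl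
        · exact ⟨(h.hb.inv y ih.1).1, ih.2.tail (Or.inl (b3 y ih.1).1.symm)⟩
        · refine ⟨A.gs y ih.1, ?_⟩
          by_cases c : y ∈ H
          · exact Relation.ReflTransGen.trans ((Relation.ReflTransGen.trans ih.2
              (sy ((mem _).2 (Or.inl ih.1)) (o1 y c))).tail (Or.inr rfl)) (o1 _ (hg y c))
          · have c' : γ y ∉ H := fun c' => c (by simpa [A.gg] using hg _ c')
            refine ih.2.tail (Or.inr ?_)
            simp only [R, if_neg c, if_neg c']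
    intro d hd e he q
    obtain ⟨d0, hd0, l1, q1⟩ := o2 d hd
    obtain ⟨e0, he0, l2, q2⟩ := o2 e he
    exact Relation.ReflTransGen.trans (Relation.ReflTransGen.trans q1
      (o3 d0 hd0 e0 (h.hb.con d0 hd0 e0 he0 (by rw [l1, l2, q]))).2) (sy he q2)
  · intro d hd
    have ka : ∀ x ∈ H, k (ρ (α x)) = k (ρ x) := fun x hx => by
      rw [← (a1 x hx).1, ha.lab _ (m1 x hx)]
    rcases cov d hd with c | ⟨x, hx, rfl⟩ | ⟨e, he, rfl⟩
    · rw [(b1 d c).1, (b1 d c).2, (b2 d c).2, (b1 _ (hal d c)).2, ka d c]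
      exact ⟨rfl, rfl⟩
    · rw [(a1 x hx).2, (b2 x hx).1, (b1 x hx).2, (b2 x hx).2, (b2 _ (hal x hx)).2, ka x hx]
      exact ⟨rfl, rfl⟩
    · rw [(r1 e he).2.2, (b3 e he).1, (b3 e he).2, (b3 _ (h.ha.inv e he).1).2,
        (b3 _ (h.hb.inv e he).1).2, (hs e he).1, (hs e he).2]
      exact ⟨rfl, rfl⟩
  · have c1 : S'.card ≤ S.card + (H.card + H.card) := by
      have : S' ⊆ S ∪ (H.image ρ ∪ H.image fun x => γ (ρ x)) := by
        intro d hd
        simp only [Finset.mem_union, Finset.mem_image]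
        rcases (mem d).1 hd with hd | ⟨x, hx, rfl | rfl⟩
        · exact Or.inl hd
        · exact Or.inr (Or.inl ⟨x, hx, rfl⟩)
        · exact Or.inr (Or.inr ⟨x, hx, rfl⟩)
      refine (Finset.card_le_card this).trans ((Finset.card_union_le _ _).trans ?_)
      exact Nat.add_le_add_left ((Finset.card_union_le _ _).trans
        (Nat.add_le_add Finset.card_image_le Finset.card_image_le)) _
    have sub : S ⊆ S' := fun d hd => (mem d).2 (Or.inl hd)
    have c2 : (S.image l).card ≤ (S'.image l).card :=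
      Finset.card_le_card (Finset.image_subset_image sub)
    have c3 : H.card ≤ 2 * (H.image fun x => k (ρ x)).card := by
      apply Finset.card_le_mul_card_image
      intro y hy
      obtain ⟨x, hx, rfl⟩ := Finset.mem_image.1 hy
      refine le_trans (Finset.card_le_card (t := {x, α x}) ?_) Finset.card_le_two
      intro z hz
      rw [Finset.mem_filter] at hz
      simpa using two x hx z hz.1 hz.2.symm
    have c4 : (S.image k).card + (H.image fun x => k (ρ x)).card ≤ (S'.image k).card := by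
      rw [← Finset.card_union_of_disjoint]
      · apply Finset.card_le_card
        intro y hy
        simp only [Finset.mem_union, Finset.mem_image] at hy ⊢
        rcases hy with ⟨d, hd, rfl⟩ | ⟨x, hx, rfl⟩
        · exact ⟨d, sub hd, rfl⟩
        · exact ⟨_, m1 x hx, rfl⟩
      · rw [Finset.disjoint_left]
        intro y h1 h2
        obtain ⟨d, hd, rfl⟩ := Finset.mem_image.1 h1
        obtain ⟨x, hx, q⟩ := Finset.mem_image.1 h2
        exact hk x hx d hd q.symm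
    have c5 : (S.image sg).card + (H.image fun x => k (ρ x)).card ≤ (S'.image sg').card := by
      rw [← Finset.card_image_of_injective (f := fun t => 2 * t) (S.image sg)
          (fun a b h => by simpa using h),
        ← Finset.card_image_of_injective (f := fun t => 2 * enc t + 1) (H.image fun x => k (ρ x))
          (fun a b h => henc (by simpa using h)), ← Finset.card_union_of_disjoint]
      · apply Finset.card_le_card
        intro y hy
        simp only [Finset.mem_union, Finset.mem_image] at hy ⊢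
        rcases hy with ⟨_, ⟨d, hd, rfl⟩, rfl⟩ | ⟨_, ⟨x, hx, rfl⟩, rfl⟩
        · exact ⟨_, (r1 d hd).1, (b3 d hd).2⟩
        · exact ⟨_, sub (hS hx), (b1 x hx).2⟩
      · rw [Finset.disjoint_left]
        intro y h1 h2
        obtain ⟨d, _, rfl⟩ := Finset.mem_image.1 h1
        obtain ⟨x, _, q⟩ := Finset.mem_image.1 h2
        omega
    omega

end abs

variable {V ι : Type} [DecidableEq V] [DecidableEq ι]

/-- the outer flag of the rim next to a flag of a hole -/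
def rho (N : ι → List V) : Fl (Id ι V) V → Fl (Id ι V) V
  | (.inl i, x, true) => (.inr (i, i, x, (N i).formPerm x), x, true)
  | (.inl i, x, false) => (.inr (i, i, (N i).formPerm.symm x, x), x, false)
  | d => d

/-- back to the hole -/
def pio : Fl (Id ι V) V → Fl (Id ι V) V
  | (.inr p, x, _) => (.inl p.1, x, decide (x = p.2.2.1))
  | d => d

/-- the cells `K` and the rims of the holes `H` -/
def ids (N : ι → List V) (K H : Finset ι) : Finset (Id ι V) :=
  K.image Sum.inl ∪ H.biUnion fun i => (N i).toFinset.image fun x => .inr (i, i, x, (N i).formPerm x)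

theorem inl_ids {N : ι → List V} {K H : Finset ι} {i : ι} : Sum.inl i ∈ ids N K H ↔ i ∈ K := by
  simp [ids]

theorem inr_ids {N : ι → List V} {K H : Finset ι} {p : ι × ι × V × V} :
    Sum.inr p ∈ ids N K H ↔ ∃ i ∈ H, ∃ x ∈ N i, (i, i, x, (N i).formPerm x) = p := by
  simp [ids]

theorem nx_nodup {N : ι → List V} {K H : Finset ι} (hN : ∀ i ∈ K, (N i).Nodup) :
    ∀ j ∈ ids N K H, (nx N j).Nodup := by
  rintro (i | p) hi
  · exact hN i (inl_ids.1 hi)
  · simp only [nx]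
    split_ifs with k
    · simp
    · simp [k]

theorem hm_rims {N : ι → List V} {K H : Finset ι} {n : ℤ} {β : Fl (Id ι V) V → Fl (Id ι V) V}
    (enc : Id ι V → ℕ) (henc : Injective enc) (hN : ∀ i ∈ K, (N i).Nodup) (hH : H ⊆ K)
    (h2 : ∀ i ∈ H, 2 ≤ (N i).length)
    (h : HM (al (nx N)) β ga lb kp (fl (nx N) (K.image Sum.inl)) n) :
    ∃ β', HM (al (nx N)) β' ga lb kp (fl (nx N) (ids N K H)) n ∧
      ∀ i ∈ H, ∀ x ∈ N i, ∀ s, β' (.inl i, x, s) = ga (rho N (.inl i, x, s)) ∧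
        β' (ga (rho N (.inl i, x, s))) = (.inl i, x, s) ∧
        al (nx N) (ga (rho N (.inl i, x, s))) = ga (rho N (al (nx N) (.inl i, x, s))) := by
  have f1 : ∀ i ∈ H, ∀ x ∈ N i, x ≠ (N i).formPerm x ∧ (N i).formPerm.symm x ∈ N i ∧
      (N i).formPerm.symm x ≠ x := by
    intro i hi x hx
    have a := (List.formPerm_apply_mem_ne_self_iff _ (hN i (hH hi)) x hx).2 (h2 i hi)
    refine ⟨a.symm, ?_, fun c => a ?_⟩
    · rw [← List.formPerm_mem_iff_mem]; simpa using hx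
    · rw [Equiv.symm_apply_eq] at c; exact c.symm
  have mH : ∀ d, d ∈ fl (nx N) (H.image Sum.inl) → ∃ i ∈ H, ∃ x ∈ N i, ∃ s, d = (.inl i, x, s) := by
    rintro ⟨j, x, s⟩ hd
    obtain ⟨a, b⟩ := mem_fl.1 hd
    obtain ⟨i, hi, rfl⟩ := Finset.mem_image.1 a
    exact ⟨i, hi, x, b, s, rfl⟩
  have mH' : ∀ i ∈ H, ∀ x ∈ N i, ∀ s, (Sum.inl i, x, s) ∈ fl (nx N) (H.image Sum.inl) :=
    fun i hi x hx s => mem_fl.2 ⟨Finset.mem_image_of_mem _ hi, hx⟩
  have a1 : ∀ d ∈ fl (nx N) (H.image Sum.inl), al (nx N) (rho N d) = rho N (al (nx N) d) ∧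
      al (nx N) (ga (rho N d)) = ga (rho N (al (nx N) d)) := by
    intro d hd
    obtain ⟨i, hi, x, hx, s, rfl⟩ := mH d hd
    obtain ⟨q1, q2, q3⟩ := f1 i hi x hx
    cases s <;> simp [al, rho, ga, nx, q1, q3]
  refine (h.rims (S' := fl (nx N) (ids N K H)) (H := fl (nx N) (H.image Sum.inl))
    (rho N) pio enc henc (amb _ _ fun _ => True) (ambk _ _) (hf_al (nx_nodup hN)) ?_
    (fun d hd => mem_fl.2 ⟨Finset.image_subset_image hH (mem_fl.1 hd).1, (mem_fl.1 hd).2⟩)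
    (ambk _ _).gs (fun d hd => ((hf_al fun j hj => by
      obtain ⟨i, hi, rfl⟩ := Finset.mem_image.1 hj
      exact hN i (hH hi)).inv d hd).1) ?_ ?_ ?_ a1 ?_).elim fun β' ⟨H', e⟩ => ⟨β', H',
    fun i hi x hx s =>
      ⟨(e _ (mH' i hi x hx s)).1, (e _ (mH' i hi x hx s)).2, (a1 _ (mH' i hi x hx s)).2⟩⟩
  · rintro ⟨j, y, t⟩
    constructor
    · intro hd
      obtain ⟨a, b⟩ := mem_fl.1 hd
      rcases j with i | p
      · exact Or.inl (mem_fl.2 ⟨Finset.mem_image_of_mem _ (inl_ids.1 a), b⟩)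
      · obtain ⟨i, hi, x, hx, rfl⟩ := inr_ids.1 a
        obtain ⟨q1, q2, q3⟩ := f1 i hi x hx
        simp only [nx, q1, if_false, List.mem_cons, List.not_mem_nil, or_false] at b
        right
        rcases b with rfl | rfl
        · exact ⟨_, mH' i hi y hx true, by cases t <;> simp [rho, ga]⟩
        · exact ⟨_, mH' i hi _ (List.formPerm_mem_iff_mem.2 hx) false, by cases t <;> simp [rho, ga]⟩
    · rintro (hd | ⟨d, hd, c⟩)
      · obtain ⟨a, b⟩ := mem_fl.1 hd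
        exact mem_fl.2 ⟨Finset.mem_union_left _ a, b⟩
      · have : rho N d ∈ fl (nx N) (ids N K H) := by
          obtain ⟨i, hi, x, hx, s, rfl⟩ := mH d hd
          obtain ⟨q1, q2, q3⟩ := f1 i hi x hx
          cases s
          · exact mem_fl.2 ⟨inr_ids.2 ⟨i, hi, _, q2, by simp⟩, by simp [rho, nx, q3]⟩
          · exact mem_fl.2 ⟨inr_ids.2 ⟨i, hi, _, hx, rfl⟩, by simp [rho, nx, q1]⟩
        rcases c with c | c
        · rw [c]; exact this
        · rw [c]; exact (ambk _ _).gs _ this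
  · intro d hd e he
    obtain ⟨i, hi, x, hx, s, rfl⟩ := mH d hd
    obtain ⟨j, -, c⟩ := Finset.mem_image.1 (mem_fl.1 he).1
    cases s <;> simp [kp, rho, ← c]
  · intro d hd
    obtain ⟨i, hi, x, hx, s, rfl⟩ := mH d hd
    obtain ⟨q1, q2, q3⟩ := f1 i hi x hx
    cases s <;> simp [rho, pio, ga, q3.symm]
  · intro d hd
    obtain ⟨i, hi, x, hx, s, rfl⟩ := mH d hd
    cases s <;> rfl
  · intro d hd e he
    obtain ⟨i, hi, x, hx, s, rfl⟩ := mH d hd
    obtain ⟨j, hj, y, hy, t, rfl⟩ := mH e he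
    cases s <;> cases t <;> simp only [kp, rho, al, nx, Sum.inr.injEq, Prod.mk.injEq] <;>
      rintro ⟨rfl, -, c1, c2⟩ <;> simp [c1, c2]

end Pool.Agent.MP_9d78a0_co.st.tr

end MrgPart1

-- ======== part 2: formerly Pool.Agent.MP_9d78a0_co.st.TRk
section MrgPart2

/-! Translation of drawings to maps, part k: the skeleton. -/

set_option autoImplicit false
set_option linter.unusedSectionVars false

namespace Pool.Agent.MP_9d78a0_co.st.tr

open Function gm

variable {V ι : Type} [DecidableEq V] [DecidableEq ι]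

/-- the data of a drawn family with rims -/
structure Dat (V ι : Type) [DecidableEq V] [DecidableEq ι] (g : ℕ) where
  φ : V → gm.W
  enc : Id ι V → ℕ
  N : ι → List V
  K : Finset ι
  H : Finset ι
  β : Fl (Id ι V) V → Fl (Id ι V) V
  hφ : Injective φ
  od : ∀ x, φ x ∈ Od
  henc : Injective enc
  nd : ∀ i ∈ K, (N i).Nodup
  hK : H ⊆ K
  h2 : ∀ i ∈ H, 2 ≤ (N i).length
  h3 : ∀ i ∈ K, i ∉ H → (N i).length ≤ 3
  hm : HM (al (nx N)) β ga lb kp (fl (nx N) (ids N K H)) (4 - 2 * g)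
  quad : ∀ i ∈ H, ∀ x ∈ N i, ∀ s, β (.inl i, x, s) = ga (rho N (.inl i, x, s)) ∧
    β (ga (rho N (.inl i, x, s))) = (.inl i, x, s) ∧
    al (nx N) (ga (rho N (.inl i, x, s))) = ga (rho N (al (nx N) (.inl i, x, s)))
  cn : Cn (fl (nx N) (ids N K H))

namespace Dat

variable {g : ℕ} (t : Dat V ι g)

/-- the map -/
def M : FM (Fl (Id ι V) V × Bool) := toFM (al (nx t.N)) t.β ga (fl (nx t.N) (ids t.N t.K t.H))

/-- the vertex of a cell -/
def cv (i : ι) : MV := .inr (t.enc (.inl i))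

open Classical in
/-- the skeleton -/
noncomputable def sk : Sk where
  Φ := Fl (Id ι V) V × Bool
  M := t.M
  vx := fun f => Sum.map t.φ t.enc (vxo lb kp f)
  H := t.cv '' t.H
  Rm := Set.range fun p => .inr (t.enc (.inr p))
  pos := if h : ∃ o, t.M.Ori o then h.choose else fun _ => True

theorem cv_inj : Injective t.cv := fun _ _ h => Sum.inl.inj (t.henc (Sum.inr.inj h))

theorem vx0 (d : Fl (Id ι V) V) : t.sk.vx (d, false) = .inl (t.φ d.2.1) := rfl
theorem vx1 (d : Fl (Id ι V) V) : t.sk.vx (d, true) = .inr (t.enc d.1) := rfl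

theorem memS (d : Fl (Id ι V) V) (u : Bool) :
    (d, u) ∈ t.sk.M.S ↔ d.1 ∈ ids t.N t.K t.H ∧ d.2.1 ∈ nx t.N d.1 := mem_fl

theorem lbl : t.sk.M.Lbl t.sk.vx := fun f hf f' hf' =>
  (t.hφ.sumMap t.henc).eq_iff.trans (t.hm.lbl (amb _ _ fun _ => True) (ambk _ _) f hf f' hf')

theorem ok : t.sk.M.Ok := t.hm.ok (amb _ _ fun _ => True)

theorem con : t.sk.M.Con := t.hm.con (amb _ _ fun _ => True) (ambk _ _) t.cn

theorem eg : t.sk.M.eg ≤ g :=
  t.hm.eg (amb _ _ fun _ => True) (ambk _ _) t.con (fun d => d.2.2 = true) fun d => by simp [ga]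

theorem node_of {j : Id ι V} {x : V} (hj : j ∈ ids t.N t.K t.H) (hx : x ∈ nx t.N j) :
    ∃ i ∈ t.K, x ∈ t.N i :=
  nx_node (fun _ => inl_ids) (fun p hp => by
    obtain ⟨i, hi, y, hy, rfl⟩ := inr_ids.1 hp
    exact ⟨t.hK hi, t.hK hi, hy, List.formPerm_mem_iff_mem.2 hy⟩) j hj x hx

theorem inl_vt {v : gm.W} : Sum.inl v ∈ t.sk.Vt ↔ ∃ i ∈ t.K, ∃ x ∈ t.N i, t.φ x = v := by
  constructor
  · rintro ⟨⟨d, u⟩, hf, e⟩
    cases u
    · obtain ⟨i, hi, hx⟩ := t.node_of ((t.memS d _).1 hf).1 ((t.memS d _).1 hf).2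
      exact ⟨i, hi, _, hx, Sum.inl.inj e⟩
    · cases e
  · rintro ⟨i, hi, x, hx, rfl⟩
    exact ⟨((.inl i, x, true), false), (t.memS _ _).2 ⟨inl_ids.2 hi, hx⟩, rfl⟩

theorem inr_vt {n : ℕ} :
    Sum.inr n ∈ t.sk.Vt ↔ ∃ j ∈ ids t.N t.K t.H, t.enc j = n ∧ ∃ x, x ∈ nx t.N j := by
  constructor
  · rintro ⟨⟨d, u⟩, hf, e⟩
    cases u
    · cases e
    · exact ⟨_, ((t.memS d _).1 hf).1, Sum.inr.inj e, _, ((t.memS d _).1 hf).2⟩
  · rintro ⟨j, hj, rfl, x, hx⟩
    exact ⟨((j, x, true), true), (t.memS _ _).2 ⟨hj, hx⟩, rfl⟩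

theorem cv_vt {i : ι} {x : V} (hi : i ∈ t.K) (hx : x ∈ t.N i) : t.cv i ∈ t.sk.Vt :=
  t.inr_vt.2 ⟨_, inl_ids.2 hi, rfl, x, hx⟩

theorem mem_ce {y : MV} : y ∈ t.sk.Ce ↔ ∃ i ∈ t.K, i ∉ t.H ∧ (∃ x, x ∈ t.N i) ∧ t.cv i = y := by
  constructor
  · rintro ⟨⟨h1, n, rfl⟩, h2⟩
    obtain ⟨j, hj, rfl, x, hx⟩ := t.inr_vt.1 h1
    rcases j with i | p
    · exact ⟨i, inl_ids.1 hj, fun c => h2 (Or.inl ⟨i, c, rfl⟩), ⟨x, hx⟩, rfl⟩
    · exact absurd (Or.inr ⟨p, rfl⟩) h2
  · rintro ⟨i, hi, hH, ⟨x, hx⟩, rfl⟩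
    refine ⟨⟨t.cv_vt hi hx, _, rfl⟩, ?_⟩
    rintro (⟨j, hj, e⟩ | ⟨p, e⟩)
    · exact hH (t.cv_inj e ▸ hj)
    · cases t.henc (Sum.inr.inj e)

theorem adj {i : ι} {v : gm.W} (hi : i ∈ t.K) :
    t.sk.G.Adj (t.cv i) (.inl v) ↔ ∃ x ∈ t.N i, t.φ x = v := by
  constructor
  · rintro ⟨-, ⟨⟨j, x, s⟩, u⟩, hf, e⟩
    have hx := ((t.memS _ _).1 hf).2
    cases u
    · rcases e with ⟨e, -⟩ | ⟨e, e'⟩
      · cases e
      · obtain rfl : j = .inl i := t.henc (Sum.inr.inj e')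
        exact ⟨x, hx, Sum.inl.inj e⟩
    · rcases e with ⟨e, e'⟩ | ⟨e, -⟩
      · obtain rfl : j = .inl i := t.henc (Sum.inr.inj e)
        exact ⟨x, hx, Sum.inl.inj e'⟩
      · cases e
  · rintro ⟨x, hx, rfl⟩
    exact ⟨by simp [cv], ((.inl i, x, true), true), (t.memS _ _).2 ⟨inl_ids.2 hi, hx⟩,
      Or.inl ⟨rfl, rfl⟩⟩

theorem nb {i : ι} (hi : i ∈ t.K) : t.sk.nb (t.cv i) = t.φ '' ls (t.N i) :=
  Set.ext fun _ => t.adj hi

theorem flH {f : t.sk.Φ} (h : f ∈ t.sk.M.fl t.sk.vx t.sk.H) :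
    ∃ i ∈ t.H, ∃ x ∈ t.N i, ∃ s, f = ((.inl i, x, s), true) := by
  obtain ⟨⟨j, x, s⟩, u⟩ := f
  obtain ⟨hf, i, hi, e⟩ := h
  cases u
  · cases e
  · obtain rfl : .inl i = j := t.henc (Sum.inr.inj e)
    exact ⟨i, hi, x, ((t.memS _ _).1 hf).2, s, rfl⟩

theorem al_mem {i : ι} {x : V} (s : Bool) (hx : x ∈ t.N i) :
    ∃ y ∈ t.N i, al (nx t.N) (.inl i, x, s) = (.inl i, y, !s) ∧
      al (nx t.N) (.inl i, y, !s) = (.inl i, x, s) := by
  cases s
  · refine ⟨(t.N i).formPerm.symm x, ?_, rfl, by simp [al, nx]⟩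
    rw [← List.formPerm_mem_iff_mem]; simpa using hx
  · exact ⟨_, List.formPerm_mem_iff_mem.2 hx, rfl, by simp [al, nx]⟩

theorem isQuad {i : ι} {x : V} (s : Bool) (hi : i ∈ t.H) (hx : x ∈ t.N i) :
    t.sk.Quad ((.inl i, x, s), true) := by
  obtain ⟨y, hy, e1, e2⟩ := t.al_mem s hx
  obtain ⟨a1, -, a3⟩ := t.quad i hi x hx s
  obtain ⟨-, b2, -⟩ := t.quad i hi y hy (!s)
  change (al (nx t.N) (t.β (al (nx t.N) (t.β (.inl i, x, s)))), true) = _
  rw [a1, a3, e1, b2, e2]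

theorem link_H {i : ι} {x : V} (s : Bool) (hi : i ∈ t.H) (hx : x ∈ t.N i) :
    t.sk.link ((.inl i, x, s), true) ∉ t.sk.H := by
  rintro ⟨j, -, e⟩
  change Sum.inr _ = Sum.inr (t.enc (t.β (.inl i, x, s)).1) at e
  rw [(t.quad i hi x hx s).1] at e
  have := t.henc (Sum.inr.inj e)
  cases s <;> cases this

theorem vo_card {j : Id ι V} {x : V} (s : Bool) (hj : j ∈ ids t.N t.K t.H) (hx : x ∈ nx t.N j) :
    (t.sk.M.vo ((j, x, s), true)).ncard = 2 * (nx t.N j).length := by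
  have hf : ((j, x, s), true) ∈ t.sk.M.S := (t.memS _ _).2 ⟨hj, hx⟩
  have e : t.sk.M.vo ((j, x, s), true) = (fun p : V × Bool => ((j, p), true)) ''
      ((nx t.N j).toFinset ×ˢ (Finset.univ : Finset Bool) : Finset (V × Bool)) := by
    ext ⟨⟨j', y, s'⟩, u⟩
    constructor
    · intro h
      have m := (orb_inv (S := t.sk.M.S) (fun _ => ()) (fun f hf => ⟨(t.ok.ib f hf).1, rfl⟩)
        (fun f hf => ⟨(t.ok.ic f hf).1, rfl⟩) hf h).1
      have q := (t.lbl _ hf _ m).2 h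
      cases u
      · cases q
      · obtain rfl : j = j' := t.henc (Sum.inr.inj q)
        exact ⟨(y, s'), by simpa using ((t.memS _ _).1 m).2, rfl⟩
    · rintro ⟨⟨z, r⟩, hz, q⟩
      cases q
      exact (t.lbl _ hf _ ((t.memS _ _).2 ⟨hj, by simpa using hz⟩)).1 rfl
  refine (congrArg Set.ncard e).trans ((Set.ncard_image_of_injective _
    (f := fun p : V × Bool => ((j, p), true)) (fun a b h => by simpa using h)).trans ?_)
  rw [Set.ncard_coe_finset, Finset.card_product, List.toFinset_card_of_nodup (nx_nodup t.nd j hj)]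
  simp [mul_comm]

theorem hmm : t.sk.M.Hm t.sk.vx t.sk.H := by
  refine ⟨t.ok, t.lbl, t.con, ?_, ?_⟩
  · rintro ⟨⟨j, x, s⟩, u⟩ hf
    refine ⟨by cases u <;> exact fun e => (by cases e), ?_⟩
    rintro ⟨⟨j', x', s'⟩, u'⟩ - - - e1 e2
    have : j' = j ∧ x' = x ∧ u' = u := by
      cases u <;> cases u'
      · exact ⟨t.henc (Sum.inr.inj e2), t.hφ (Sum.inl.inj e1), rfl⟩
      · cases e1
      · cases e1
      · exact ⟨t.henc (Sum.inr.inj e1), t.hφ (Sum.inl.inj e2), rfl⟩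
    obtain ⟨rfl, rfl, rfl⟩ := this
    cases s <;> cases s'
    · exact Or.inl rfl
    · exact Or.inr rfl
    · exact Or.inr rfl
    · exact Or.inl rfl
  · intro f hf h
    obtain ⟨i, -, x, -, s, rfl⟩ := t.flH ⟨hf, h⟩
    rintro ⟨j, -, e⟩
    cases e

theorem spk : t.sk.Spk := by
  rintro f hf ⟨⟨j', x', s'⟩, u'⟩ - e1 e2
  obtain ⟨i, -, x, -, s, rfl⟩ := t.flH hf
  cases u'
  · cases e1
  obtain rfl : j' = .inl i := t.henc (Sum.inr.inj e1)
  obtain rfl : x' = x := t.hφ (Sum.inl.inj e2)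
  cases s <;> cases s'
  · exact Or.inl rfl
  · exact Or.inr rfl
  · exact Or.inr rfl
  · exact Or.inl rfl

theorem skOk : t.sk.Ok := by
  refine ⟨t.hmm, ?_, ⟨?_, ?_, ?_⟩, ?_, ?_, ?_, ?_⟩
  · by_cases h : ∃ o, t.M.Ori o
    · left
      have : t.sk.pos = h.choose := dif_pos h
      rw [this]
      exact h.choose_spec
    · right
      have : t.sk.pos = fun _ => True := dif_neg h
      rw [this]
      exact ⟨h, fun _ => trivial⟩
  · rintro _ ⟨i, -, rfl⟩; exact ⟨_, rfl⟩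
  · rintro _ ⟨p, rfl⟩; exact ⟨_, rfl⟩
  · rw [Set.disjoint_left]
    rintro _ ⟨i, -, rfl⟩ ⟨p, e⟩
    cases t.henc (Sum.inr.inj e)
  · intro v hv
    obtain ⟨i, -, x, -, rfl⟩ := t.inl_vt.1 hv
    exact t.od x
  · rintro ⟨d, u⟩ hf
    cases u
    · exact iff_of_true ⟨⟨_, hf, rfl⟩, _, rfl⟩ fun ⟨_, _, e⟩ => by cases e
    · exact iff_of_false (fun ⟨_, _, e⟩ => by cases e)
        (not_not.2 ⟨⟨(d, false), hf, rfl⟩, _, rfl⟩)
  · rintro ⟨⟨j, x, s⟩, u⟩ hf
    obtain ⟨hj, hx⟩ := (t.memS _ _).1 hf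
    cases u
    · exact ⟨fun ⟨⟨_, _, e⟩, _⟩ => (by cases e), fun ⟨_, e⟩ => (by cases e)⟩
    · rw [t.vo_card s hj hx]
      refine ⟨fun h => ?_, fun ⟨p, e⟩ => ?_⟩
      · obtain ⟨i, hi, hH, -, e⟩ := t.mem_ce.1 h
        obtain rfl : .inl i = j := t.henc (Sum.inr.inj e)
        have := t.h3 i hi hH
        simp only [nx]
        omega
      · obtain rfl : .inr p = j := t.henc (Sum.inr.inj e)
        simp only [nx] at hx ⊢
        split_ifs at hx ⊢
        · simp at hx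
        · rfl
  · rintro _ ⟨⟨p, rfl⟩, h⟩
    obtain ⟨j, hj, e, -⟩ := t.inr_vt.1 h
    obtain rfl := t.henc e
    obtain ⟨i, hi, x, hx, rfl⟩ := inr_ids.1 hj
    refine ⟨((.inl i, x, true), true), ⟨(t.memS _ _).2 ⟨inl_ids.2 (t.hK hi), hx⟩, i, hi, rfl⟩,
      t.isQuad true hi hx, ?_⟩
    change Sum.inr (t.enc (t.β (.inl i, x, true)).1) = _
    rw [(t.quad i hi x hx true).1]
    rfl

theorem rot_it (i : ι) (x : V) (s : Bool) (m : ℕ) :
    t.sk.M.rot^[m] ((.inl i, x, s), true) =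
      ((.inl i, (((if s = true then t.N i else (t.N i).reverse).formPerm ^ m) x), s), true) := by
  induction m with
  | zero => rfl
  | succ m ih =>
    rw [iterate_succ_apply', ih, pow_succ']
    cases s
    · simp only [Bool.false_eq_true, if_false, List.formPerm_reverse]
      rfl
    · rfl

end Dat

end Pool.Agent.MP_9d78a0_co.st.tr

end MrgPart2

-- ======== part 3: formerly Pool.Agent.MP_9d78a0_co.st.TRj
section MrgPart3

/-! Translation of drawings to maps, part j: projecting a model to the incidence graph. -/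

set_option autoImplicit false

namespace Pool.Agent.MP_9d78a0_co.st.tr

open Function Set

variable {V ι : Type}

/-- holes that stay holes -/
def IsH (c : Cell V) : Prop := c.k = .hole ∧ 2 ≤ c.N.length

/-- cells that may be drawn -/
def Act (c : Cell V) : Prop := c.k ≠ .void ∧ c.N ≠ [] ∧ (IsH c ∨ ∀ x ∈ c.N, ∃ y, c.g.Adj x y)

theorem link_edge {G : SimpleGraph V} {S : Set V} {x y : V} (h : Link G S x y) (hn : x ≠ y) :
    ∃ z, G.Adj x z := by
  rcases Relation.ReflTransGen.cases_head h with e | ⟨z, hz, -⟩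
  · exact absurd e hn
  · exact ⟨z, hz.2.2⟩

theorem act_of_edge {c : Cell V} {d : ℕ} (h : c.Ok d) {x y : V} (e : c.g.Adj x y) (hx : x ∈ c.N) :
    Act c := by
  have k1 : c.k ≠ .void := fun k => by rw [(h.void k).1] at e; exact e
  refine ⟨k1, List.ne_nil_of_mem hx, ?_⟩
  by_cases hH : IsH c
  · exact Or.inl hH
  right
  have nd := h.soc.nd
  rcases hN : c.N with _ | ⟨a, _ | ⟨b, L⟩⟩
  · simp
  · rw [hN] at hx
    obtain rfl : x = a := by simpa using hx
    simpa using ⟨y, e⟩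
  · have k2 : c.k = .cell := by
      rcases hk : c.k with _ | _ | _
      · rfl
      · exact absurd ⟨hk, by simp [hN]⟩ hH
      · exact absurd hk k1
    rcases L with _ | ⟨t, L⟩
    · have l := h.two k2 a b hN
      have ab : a ≠ b := by rw [hN] at nd; simpa using nd
      intro z hz
      simp only [List.mem_cons, List.not_mem_nil, or_false] at hz
      rcases hz with rfl | rfl
      · exact link_edge l ab
      · exact link_edge l.symm ab.symm
    · have l := h.len k2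
      obtain ⟨K, -, -, hK⟩ := h.star k2 (by rw [hN] at l ⊢; simp only [List.length_cons] at l ⊢; omega)
      intro z hz
      obtain ⟨w, -, hw⟩ := hK z (hN ▸ hz)
      exact ⟨w, hw⟩

theorem no4 {L : List V} (h : L.length ≤ 3) {a b c d : V} (ha : a ∈ L) (hb : b ∈ L) (hc : c ∈ L)
    (hd : d ∈ L) : a = b ∨ a = c ∨ a = d ∨ b = c ∨ b = d ∨ c = d := by
  by_contra k
  have nd : [a, b, c, d].Nodup := by simp; tauto
  have := (nd.subperm (l₂ := L) (by
    intro x hx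
    simp only [List.mem_cons, List.not_mem_nil, or_false] at hx
    rcases hx with rfl | rfl | rfl | rfl <;> assumption)).length_le
  simp at this
  omega

theorem exists_asg {P : Type} (H : SimpleGraph P) (tri : ∀ a b c, H.Adj a b → H.Adj b c → ¬ H.Adj a c)
    (X : P → Set V) (dis : ∀ p p' x, x ∈ X p → x ∈ X p' → p = p') (L : List V) (h : L.length ≤ 3)
    {p0 : P} {x0 : V} (h0 : x0 ∈ L) (h1 : x0 ∈ X p0) :
    ∃ m, (∃ x ∈ L, x ∈ X m) ∧ (∀ p, ∀ x ∈ L, ∀ y ∈ L, x ≠ y → x ∈ X p → y ∈ X p → p = m) ∧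
      ∀ p p', H.Adj p p' → ∀ x ∈ L, ∀ y ∈ L, x ∈ X p → y ∈ X p' → p = m ∨ p' = m := by
  have ne : ∀ {p p' x y}, x ∈ X p → y ∈ X p' → p ≠ p' → x ≠ y :=
    fun a b c e => c (dis _ _ _ a (e ▸ b))
  by_cases c1 : ∃ p, ∃ x ∈ L, ∃ y ∈ L, x ≠ y ∧ x ∈ X p ∧ y ∈ X p
  · obtain ⟨m, x, hx, y, hy, xy, a, b⟩ := c1
    refine ⟨m, ⟨x, hx, a⟩, fun p u hu v hv uv a' b' => ?_, fun p p' e u hu v hv a' b' => ?_⟩
    · by_contra k
      have := no4 h hx hy hu hv
      have := ne a' a k; have := ne a' b k; have := ne b' a k; have := ne b' b k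
      tauto
    · by_contra k
      rw [not_or] at k
      have := no4 h hx hy hu hv
      have := ne a' a k.1; have := ne a' b k.1; have := ne b' a k.2; have := ne b' b k.2
      have := ne a' b' e.ne
      tauto
  have c1' : ∀ m p, ∀ x ∈ L, ∀ y ∈ L, x ≠ y → x ∈ X p → y ∈ X p → p = m :=
    fun m p x hx y hy xy a b => absurd ⟨p, x, hx, y, hy, xy, a, b⟩ c1
  by_cases c2 : ∀ p p', H.Adj p p' → ∀ x ∈ L, ∀ y ∈ L, x ∈ X p → y ∈ X p' → p = p0 ∨ p' = p0
  · exact ⟨p0, ⟨x0, h0, h1⟩, c1' p0, c2⟩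
  push Not at c2
  obtain ⟨a, b, ab, xa, ha, xb, hb, a1, b1, a2, b2⟩ := c2
  have all : ∀ p, ∀ x ∈ L, x ∈ X p → p = p0 ∨ p = a ∨ p = b := by
    intro p x hx e
    by_contra k
    simp only [not_or] at k
    have := no4 h h0 ha hb hx
    have := ne a1 h1 a2; have := ne b1 h1 b2; have := ne a1 b1 ab.ne
    have := ne e h1 k.1; have := ne e a1 k.2.1; have := ne e b1 k.2.2
    tauto
  by_cases c3 : H.Adj p0 b
  · refine ⟨b, ⟨xb, hb, b1⟩, c1' b, fun p p' e x hx y hy u v => ?_⟩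
    rcases all p x hx u with rfl | rfl | rfl <;> rcases all p' y hy v with rfl | rfl | rfl
    all_goals first
      | exact Or.inl rfl
      | exact Or.inr rfl
      | exact absurd rfl e.ne
      | exact absurd c3 (tri _ _ _ e ab)
      | exact absurd c3 (tri _ _ _ e.symm ab)
  · refine ⟨a, ⟨xa, ha, a1⟩, c1' a, fun p p' e x hx y hy u v => ?_⟩
    rcases all p x hx u with rfl | rfl | rfl <;> rcases all p' y hy v with rfl | rfl | rfl
    all_goals first
      | exact Or.inl rfl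
      | exact Or.inr rfl
      | exact absurd rfl e.ne
      | exact absurd e c3
      | exact absurd e.symm c3

/-- the nodes of the cells that may be drawn -/
def inc (cell : ι → Cell V) (i : ι) : Set V := {x | Act (cell i) ∧ x ∈ (cell i).N}

theorem ig_adj {cell : ι → Cell V} {i : ι} {x : V} (h : Act (cell i)) (hx : x ∈ (cell i).N) :
    (gm.ig (inc cell)).Adj (.inl x) (.inr i) := ⟨x, i, ⟨h, hx⟩, Or.inl ⟨rfl, rfl⟩⟩

theorem proj {P : Type} (H : SimpleGraph P) (tri : ∀ a b c, H.Adj a b → H.Adj b c → ¬ H.Adj a c)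
    (cell : ι → Cell V) {d : ℕ} (hok : ∀ i, (cell i).Ok d)
    (hsh : ∀ i j, i ≠ j → ∀ x ∈ (cell i).W, x ∈ (cell j).W → x ∈ (cell i).N)
    (G : SimpleGraph V) (hG : ∀ u v, G.Adj u v → ∃ i, (cell i).k = .cell ∧ (cell i).g.Adj u v)
    {S : Set V} (X : P → Set V) (hX : Model H G S X) (hn : ∀ p, ∃ n ∈ X p, ∃ i, n ∈ (cell i).N) :
    ∃ X' : P → Set (V ⊕ ι), Model H (gm.ig (inc cell))
        (range Sum.inl ∪ Sum.inr '' {i | (cell i).k = .cell}) X' ∧
      ∀ p, ∀ n ∈ X p, (∃ i, n ∈ (cell i).N) → Sum.inl n ∈ X' p := by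
  classical
  obtain ⟨-, hc, hd, ht⟩ := hX
  have dis : ∀ p p' x, x ∈ X p → x ∈ X p' → p = p' := fun p p' x a b =>
    by_contra fun k => disjoint_left.1 (hd p p' k) a b
  have node : ∀ {i j x}, x ∈ (cell i).N → x ∈ (cell j).W → x ∈ (cell j).N := by
    intro i j x a b
    by_cases e : j = i
    · rwa [e]
    · exact hsh j i e x b ((hok i).soc.sub x a)
  let As : ι → P → Prop := fun i m => (∃ x ∈ (cell i).N, x ∈ X m) ∧
    (∀ p, ∀ x ∈ (cell i).N, ∀ y ∈ (cell i).N, x ≠ y → x ∈ X p → y ∈ X p → p = m) ∧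
    ∀ p p', H.Adj p p' → ∀ x ∈ (cell i).N, ∀ y ∈ (cell i).N, x ∈ X p → y ∈ X p' → p = m ∨ p' = m
  let X' : P → Set (V ⊕ ι) := fun p => {z | (∃ x ∈ X p, (∃ i, x ∈ (cell i).N) ∧ z = .inl x) ∨
    ∃ i, (cell i).k = .cell ∧ Act (cell i) ∧ (∃ h : ∃ m, As i m, h.choose = p) ∧ z = .inr i}
  have ex : ∀ {i p x}, (cell i).k = .cell → x ∈ (cell i).N → x ∈ X p → ∃ m, As i m :=
    fun k a b => exists_asg H tri X dis _ ((hok _).len k) a b
  have ml : ∀ {p x i}, x ∈ X p → x ∈ (cell i).N → Sum.inl x ∈ X' p :=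
    fun a b => Or.inl ⟨_, a, ⟨_, b⟩, rfl⟩
  have walk : ∀ p, ∀ n ∈ X p, (∃ i, n ∈ (cell i).N) → ∀ u, Link G (X p) n u →
      ∀ j, u ∈ (cell j).W → (u ∈ (cell j).N → Link (gm.ig (inc cell)) (X' p) (.inl n) (.inl u)) ∧
        (u ∉ (cell j).N → Act (cell j) ∧
          ∃ x ∈ (cell j).N, x ∈ X p ∧ Link (gm.ig (inc cell)) (X' p) (.inl n) (.inl x)) := by
    rintro p n hn ⟨i, hi⟩ u l
    induction l with
    | refl => exact fun j a => ⟨fun _ => Link.refl _ _ _, fun b => absurd (node hi a) b⟩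
    | @tail u v _ huv ih =>
      obtain ⟨j, k, e⟩ := hG u v huv.2.2
      have uW := (hok j).soc.tight u v e
      have vW := (hok j).soc.tight v u e.symm
      obtain ⟨ac, x, xN, xX, lx⟩ : Act (cell j) ∧
          ∃ x ∈ (cell j).N, x ∈ X p ∧ Link (gm.ig (inc cell)) (X' p) (.inl n) (.inl x) := by
        by_cases c : u ∈ (cell j).N
        · exact ⟨act_of_edge (hok j) e c, u, c, huv.1, (ih j uW).1 c⟩
        · exact (ih j uW).2 c
      intro j' vW'
      refine ⟨fun c => ?_, fun c => ?_⟩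
      · have vN := node c vW
        by_cases q : x = v
        · exact q ▸ lx
        · have h := ex k xN xX
          have m : Sum.inr j ∈ X' p := Or.inr ⟨j, k, ac,
            ⟨h, (h.choose_spec.2.1 p x xN v vN q xX huv.2.1).symm⟩, rfl⟩
          exact (lx.trans (Link.single (ml xX xN) m (ig_adj ac xN))).trans
            (Link.single m (ml huv.2.1 vN) (ig_adj ac vN).symm)
      · obtain rfl : j' = j := by_contra fun q => c (hsh j' j q v vW' vW)
        exact ⟨ac, x, xN, xX, lx⟩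
  have side : ∀ p, ∀ u ∈ X p, ∀ v j, (cell j).g.Adj u v →
      Act (cell j) ∧ ∃ x ∈ (cell j).N, x ∈ X p := by
    intro p u hu v j e
    obtain ⟨n, a, b⟩ := hn p
    by_cases c : u ∈ (cell j).N
    · exact ⟨act_of_edge (hok j) e c, u, c, hu⟩
    · obtain ⟨ac, x, a1, a2, -⟩ :=
        (walk p n a b u ((hc p).2 n a u hu) j ((hok j).soc.tight u v e)).2 c
      exact ⟨ac, x, a1, a2⟩
  refine ⟨X', ⟨?_, ?_, ?_, ?_⟩, fun p n a ⟨i, b⟩ => ml a b⟩
  · rintro p z (⟨x, -, -, rfl⟩ | ⟨i, k, -, -, rfl⟩)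
    · exact Or.inl ⟨x, rfl⟩
    · exact Or.inr ⟨i, k, rfl⟩
  · intro p
    obtain ⟨n, a, b⟩ := hn p
    have one : ∀ x ∈ X p, ∀ i, x ∈ (cell i).N → Link (gm.ig (inc cell)) (X' p) (.inl n) (.inl x) :=
      fun x hx i hi => (walk p n a b x ((hc p).2 n a x hx) i ((hok i).soc.sub x hi)).1 hi
    have all : ∀ z ∈ X' p, Link (gm.ig (inc cell)) (X' p) (.inl n) z := by
      intro z hz
      rcases id hz with ⟨x, hx, ⟨i, hi⟩, rfl⟩ | ⟨i, k, ac, ⟨h, e⟩, rfl⟩
      · exact one x hx i hi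
      · obtain ⟨x, xN, xX⟩ := h.choose_spec.1
        rw [e] at xX
        exact (one x xX i xN).trans (Link.single (ml xX xN) hz (ig_adj ac xN))
    exact ⟨⟨_, ml a b.choose_spec⟩, fun u hu v hv => (all u hu).symm.trans (all v hv)⟩
  · intro p p' k
    rw [disjoint_left]
    rintro z (⟨x, a, -, rfl⟩ | ⟨i, -, -, ⟨h, e⟩, rfl⟩) (⟨y, b, -, q⟩ | ⟨j, -, -, ⟨h', e'⟩, q⟩)
    · obtain rfl := Sum.inl.inj q
      exact k (dis _ _ _ a b)
    · cases q
    · cases q
    · obtain rfl := Sum.inr.inj q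
      exact k (e.symm.trans e')
  · intro p p' e
    obtain ⟨u, hu, v, hv, uv⟩ := ht p p' e
    obtain ⟨j, k, uv'⟩ := hG u v uv
    obtain ⟨ac, x, xN, xX⟩ := side p u hu v j uv'
    obtain ⟨-, y, yN, yX⟩ := side p' v hv u j uv'.symm
    have h := ex k xN xX
    rcases h.choose_spec.2.2 p p' e x xN y yN xX yX with q | q
    · exact ⟨_, Or.inr ⟨j, k, ac, ⟨h, q.symm⟩, rfl⟩, _, ml yX yN, (ig_adj ac yN).symm⟩
    · exact ⟨_, ml xX xN, _, Or.inr ⟨j, k, ac, ⟨h, q.symm⟩, rfl⟩, ig_adj ac xN⟩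

end Pool.Agent.MP_9d78a0_co.st.tr

end MrgPart3

-- ======== part 4: formerly Pool.Agent.MP_9d78a0_co.st.TRl
section MrgPart4

/-! Translation of drawings to maps, part l: the raw structure. -/

set_option autoImplicit false
set_option linter.unusedSectionVars false

namespace Pool.Agent.MP_9d78a0_co.st.tr

open Function Set gm

variable {V ι : Type} [DecidableEq V] [DecidableEq ι]

theorem depth_cut [Finite V] {H : SimpleGraph V} {U : Set V} {L X Y : List V} {d : ℕ}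
    (h : Depth H U L d) (ht : Tight H U) (hr : List.IsRotated (X ++ Y) L) (hX : ls X ⊆ U) :
    ∃ S R : Set V, S.ncard ≤ d ∧ R ⊆ U ∧ (∀ x ∈ X, x ∈ S ∨ x ∈ R) ∧ (∀ y ∈ Y, y ∉ R) ∧
      ∀ u ∈ R, ∀ v, H.Adj u v → v ∈ S ∨ v ∈ R := by
  by_contra k
  refine (fb.mengerS V H U (ls X) (ls Y) (d + 1) (toFinite _) fun S _ hS => ?_).elim
    fun R hR => h X Y hr R hR.1 hR.2
  by_contra k'
  refine k ⟨S, lk H (U \ S) (ls X), by omega, fun x hx => hx.1.1, fun x hx => ?_, fun y hy c => ?_,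
    fun u hu v e => ?_⟩
  · by_cases c : x ∈ S
    · exact Or.inl c
    · exact Or.inr ⟨⟨hX hx, c⟩, x, hx, ⟨hX hx, c⟩, Link.refl _ _ _⟩
  · obtain ⟨-, x, hx, xm, l⟩ := c
    refine k' ⟨{v | Link H (U \ S) x v}, fun v hv => Link.mem hv xm, ?_, ⟨x, Link.refl _ _ _, hx⟩,
      ⟨y, l, hy⟩⟩
    refine fb.conn_of_center (a := x) (Link.refl _ _ _) fun v hv => ?_
    induction hv with
    | refl => exact Link.refl _ _ _
    | tail a b ih => exact ih.trans (Link.single a (a.tail b) b.2.2)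
  · by_cases c : v ∈ S
    · exact Or.inl c
    · obtain ⟨um, x, hx, xm, l⟩ := hu
      have vm : v ∈ U \ S := ⟨ht v u e.symm, c⟩
      exact Or.inr ⟨vm, x, hx, xm, l.trans (Link.single um vm e)⟩

theorem depth_rev {H : SimpleGraph V} {U : Set V} {L : List V} {d : ℕ} (h : Depth H U L d) :
    Depth H U L.reverse d := by
  intro X Y hr R hR
  refine h Y.reverse X.reverse ?_ R fun i => ⟨(hR i).1, (hR i).2.1, ?_, ?_⟩
  · rw [← List.reverse_append]
    simpa using hr.reverse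
  · simpa [ls] using (hR i).2.2.2
  · simpa [ls] using (hR i).2.2.1

theorem orbit_rot {L : List V} (hL : L.Nodup) {x : V} (hx : x ∈ L) :
    List.IsRotated ((List.range L.length).map fun m => (L.formPerm ^ m) x) L := by
  obtain ⟨a, ha, rfl⟩ := List.getElem_of_mem hx
  refine List.IsRotated.symm ⟨a, ?_⟩
  apply List.ext_getElem (by simp)
  intro m h1 h2
  simp only [List.getElem_rotate, List.getElem_map, List.getElem_range,
    List.formPerm_pow_apply_getElem _ hL, add_comm]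

/-- a graph given by atoms, apices, cells and a drawn family -/
structure Env (σ : AG) (V ι : Type) [DecidableEq V] [DecidableEq ι] (γ d : ℕ) where
  t : Dat V ι γ
  G : SimpleGraph V
  A : Set V
  cell : ι → Cell V
  eu : σ.ε → V
  ev : σ.ε → V
  pc : ∀ a, σ.pc a = {(t.φ (eu a), t.φ (ev a))}
  hG : ∀ u v, G.Adj u v ↔ (gr (σ.un univ)).Adj (t.φ u) (t.φ v)
  hN : ∀ i, t.N i = (cell i).N
  hok : ∀ i, (cell i).Ok d
  hsh : ∀ i j, i ≠ j → ∀ x ∈ (cell i).W, x ∈ (cell j).W → x ∈ (cell i).N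
  adj : ∀ u v, (res G Aᶜ).Adj u v ↔ ∃ i, (cell i).g.Adj u v
  uniq : ∀ i j u v, (cell i).g.Adj u v → (cell j).g.Adj u v → i = j
  off : ∀ i, ∀ x ∈ (cell i).W, x ∉ A
  act : ∀ i ∈ t.K, Act (cell i)
  cl : ∀ i ∈ t.K, ∀ j, Act (cell j) → ∀ x ∈ (cell i).N, x ∈ (cell j).N → j ∈ t.K
  hH : ∀ i, i ∈ t.H ↔ i ∈ t.K ∧ IsH (cell i)

namespace Env

variable {σ : AG} {γ d : ℕ} (E : Env σ V ι γ d)

/-- the atom belongs to the cell -/
def Fit (a : σ.ε) (i : ι) : Prop := (E.cell i).g.Adj (E.eu a) (E.ev a) ∨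
  (¬ (res E.G E.Aᶜ).Adj (E.eu a) (E.ev a) ∧ (E.eu a ∈ (E.cell i).W ∨ E.ev a ∈ (E.cell i).W))

open Classical in
/-- the raw structure -/
noncomputable def rw : Rw σ where
  s := E.t.sk
  Λ := {w | w ∈ E.t.φ '' E.A ∧ ∃ a a', a ≠ a' ∧ w ∈ σ.inc a ∧ w ∈ σ.inc a'}
  own := fun a => if h : ∃ i ∈ E.t.K, E.Fit a i then some (E.t.cv h.choose) else none

theorem mem_inc {a : σ.ε} {w : gm.W} :
    w ∈ σ.inc a ↔ ∃ x, (x = E.eu a ∨ x = E.ev a) ∧ E.t.φ x = w := by
  simp only [AG.inc, VV, E.pc, mem_inter_iff, mem_ofPred_eq, mem_singleton_iff, exists_eq_left]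
  constructor
  · rintro ⟨rfl | rfl, -⟩
    · exact ⟨_, Or.inl rfl, rfl⟩
    · exact ⟨_, Or.inr rfl, rfl⟩
  · rintro ⟨x, rfl | rfl, rfl⟩
    · exact ⟨Or.inl rfl, E.t.od _⟩
    · exact ⟨Or.inr rfl, E.t.od _⟩

theorem mem_inc' {a : σ.ε} {x : V} : E.t.φ x ∈ σ.inc a ↔ x = E.eu a ∨ x = E.ev a := by
  rw [E.mem_inc]
  exact ⟨fun ⟨y, h, e⟩ => E.t.hφ e ▸ h, fun h => ⟨x, h, rfl⟩⟩

theorem own_some {a : σ.ε} {y : MV} (h : E.rw.own a = some y) :
    ∃ i ∈ E.t.K, E.Fit a i ∧ E.t.cv i = y := by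
  simp only [rw] at h
  split_ifs at h with c
  exact ⟨_, c.choose_spec.1, c.choose_spec.2, Option.some.inj h⟩

theorem g_adj {a : σ.ε} (ne : E.eu a ≠ E.ev a) : E.G.Adj (E.eu a) (E.ev a) :=
  (E.hG _ _).2 ⟨fun e => ne (E.t.hφ e), Or.inl (mem_biUnion (mem_univ a) (by rw [E.pc]; rfl))⟩

theorem fit_W {a : σ.ε} {i : ι} {x : V} (h : E.Fit a i) (hx : x = E.eu a ∨ x = E.ev a)
    (hA : x ∉ E.A) : x ∈ (E.cell i).W := by
  rcases h with h | ⟨h, h'⟩
  · rcases hx with rfl | rfl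
    · exact (E.hok i).soc.tight _ _ h
    · exact (E.hok i).soc.tight _ _ h.symm
  · by_contra c
    have ne : E.eu a ≠ E.ev a := by
      intro e
      rw [← e, or_self] at hx h'
      exact c (hx ▸ h')
    have g := E.g_adj ne
    apply h
    rcases hx with rfl | rfl
    · exact ⟨g, hA, E.off i _ (h'.resolve_left c)⟩
    · exact ⟨g, E.off i _ (h'.resolve_right c), hA⟩

theorem own_edge {a : σ.ε} {i : ι} (hi : i ∈ E.t.K) (h : (E.cell i).g.Adj (E.eu a) (E.ev a)) :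
    E.rw.own a = some (E.t.cv i) := by
  have c : ∃ i ∈ E.t.K, E.Fit a i := ⟨i, hi, Or.inl h⟩
  have e : E.rw.own a = some (E.t.cv c.choose) := dif_pos c
  rw [e]
  rcases c.choose_spec.2 with k | k
  · rw [E.uniq _ _ _ _ k h]
  · exact absurd ((E.adj _ _).2 ⟨i, h⟩) k.1

theorem own_none {a : σ.ε} {i : ι} {x : V} (h : E.rw.own a = none) (hi : i ∈ E.t.K)
    (hx : x = E.eu a ∨ x = E.ev a) (hW : x ∈ (E.cell i).W) : False := by
  have c : ¬ ∃ i ∈ E.t.K, E.Fit a i := fun c => by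
    have e : E.rw.own a = some (E.t.cv c.choose) := dif_pos c
    rw [e] at h
    cases h
  by_cases k : (res E.G E.Aᶜ).Adj (E.eu a) (E.ev a)
  · obtain ⟨j, hj⟩ := (E.adj _ _).1 k
    have ij : i ≠ j := fun e => c ⟨i, hi, Or.inl (e ▸ hj)⟩
    obtain ⟨y, hy⟩ : ∃ y, (E.cell j).g.Adj x y := by
      rcases hx with rfl | rfl
      · exact ⟨_, hj⟩
      · exact ⟨_, hj.symm⟩
    have xj := (E.hok j).soc.tight _ _ hy
    have n2 := E.hsh j i ij.symm x xj hW
    exact c ⟨j, E.cl i hi j (act_of_edge (E.hok j) hy n2) x (E.hsh i j ij x hW xj) n2, Or.inl hj⟩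
  · refine c ⟨i, hi, Or.inr ⟨k, ?_⟩⟩
    rcases hx with rfl | rfl
    · exact Or.inl hW
    · exact Or.inr hW

theorem ct_edge {i : ι} {u v : V} (hi : i ∈ E.t.K) (h : (E.cell i).g.Adj u v) :
    (gr (σ.un (E.rw.ct (E.t.cv i)))).Adj (E.t.φ u) (E.t.φ v) := by
  obtain ⟨ne, k⟩ := (E.hG u v).1 ((E.adj u v).2 ⟨i, h⟩).1
  refine ⟨ne, k.imp (fun k => ?_) fun k => ?_⟩ <;>
  · obtain ⟨a, -, ha⟩ := mem_iUnion₂.1 k
    have e := ha
    rw [E.pc] at e
    obtain ⟨e1, e2⟩ := Prod.mk.inj e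
    refine mem_biUnion (E.own_edge hi ?_) ha
    rw [← E.t.hφ e1, ← E.t.hφ e2]
    first | exact h | exact h.symm

theorem notLam {i : ι} {x : V} (h : x ∈ (E.cell i).W) : E.t.φ x ∈ Od \ E.rw.Λ :=
  ⟨E.t.od x, fun ⟨⟨_, hy, e⟩, _⟩ => E.off i x h (E.t.hφ e ▸ hy)⟩

theorem solid {i : ι} (hi : i ∈ E.t.K) (hH : i ∉ E.t.H) :
    Solid (σ.un (E.rw.ct (E.t.cv i))) (E.t.sk.nb (E.t.cv i) \ E.rw.Λ) E.rw.Λ := by
  have ok := E.hok i
  have e : E.t.sk.nb (E.t.cv i) \ E.rw.Λ = E.t.φ '' ls (E.cell i).N := by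
    rw [E.t.nb hi, E.hN, sdiff_eq_left, disjoint_left]
    rintro _ ⟨x, hx, rfl⟩
    exact (E.notLam (ok.soc.sub x hx)).2
  have nH : ¬ IsH (E.cell i) := fun c => hH ((E.hH i).2 ⟨hi, c⟩)
  have len : (E.cell i).N.length ≤ 3 := E.hN i ▸ E.t.h3 i hi hH
  have cd : (E.t.φ '' ls (E.cell i).N).ncard = (E.cell i).N.length := by
    rw [ncard_image_of_injective _ E.t.hφ, ← List.toFinset_card_of_nodup ok.soc.nd,
      ← ncard_coe_finset]
    congr 1
    ext; simp [ls]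
  have kc : 2 ≤ (E.cell i).N.length → (E.cell i).k = .cell := fun c => by
    rcases hk : (E.cell i).k with _ | _ | _
    · rfl
    · exact absurd ⟨hk, c⟩ nH
    · exact absurd hk (E.act i hi).1
  have lift : ∀ {S : Set V} {T : Set gm.W} {x y : V}, (∀ z ∈ S, E.t.φ z ∈ T) →
      Link (E.cell i).g S x y → Link (gr (σ.un (E.rw.ct (E.t.cv i)))) T (E.t.φ x) (E.t.φ y) :=
    fun h l => l.map E.t.φ fun a ha b hb k => Link.single (h a ha) (h b hb) (E.ct_edge hi k)
  rw [e]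
  refine ⟨?_, ⟨(List.finite_toSet _).image _, by omega⟩, ?_, ?_⟩
  · rintro _ ⟨x, hx, rfl⟩
    obtain ⟨y, hy⟩ := (E.act i hi).2.2.resolve_left nH x hx
    have k := E.notLam (ok.soc.sub x hx)
    refine ⟨⟨?_, k.1⟩, k.2⟩
    rcases (E.ct_edge hi hy).2 with c | c
    · exact ⟨_, c, Or.inl rfl⟩
    · exact ⟨_, c, Or.inr rfl⟩
  · rintro _ ⟨x, hx, rfl⟩ _ ⟨y, hy, rfl⟩
    by_cases xy : x = y
    · rw [xy]; exact Link.refl _ _ _
    have l2 : 2 ≤ (E.cell i).N.length := by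
      by_contra c
      rcases hN : (E.cell i).N with _ | ⟨a, _ | ⟨b, L⟩⟩
      · simp [hN, ls] at hx
      · simp only [hN, ls, mem_ofPred_eq, List.mem_singleton] at hx hy
        exact xy (hx.trans hy.symm)
      · simp [hN] at c
    by_cases l3 : (E.cell i).N.length = 3
    · obtain ⟨K, hK, cK, aK⟩ := ok.star (kc l2) l3
      obtain ⟨x', hx', ex⟩ := aK x hx
      obtain ⟨y', hy', ey⟩ := aK y hy
      refine lift (S := K ∪ {x, y}) ?_ ?_
      · rintro z (hz | hz)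
        · exact ⟨E.notLam (hK hz).1, fun ⟨⟨_, hw, q⟩, _⟩ => (hK hz).2 (E.t.hφ q ▸ hw)⟩
        · rcases hz with rfl | rfl
          · exact ⟨E.notLam (ok.soc.sub _ hx), fun c => c.2 (Or.inl rfl)⟩
          · exact ⟨E.notLam (ok.soc.sub _ hy), fun c => c.2 (Or.inr rfl)⟩
      · refine Link.trans (v := x') (Link.single (Or.inr (Or.inl rfl)) (Or.inl hx') ex) ?_
        exact Link.trans (v := y') ((cK.2 _ hx' _ hy').mono subset_union_left)
          (Link.single (Or.inl hy') (Or.inr (Or.inr rfl)) ey.symm)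
    · obtain ⟨a, b, hN⟩ := List.length_eq_two.1 (show (E.cell i).N.length = 2 by omega)
      have l := ok.two (kc l2) a b hN
      simp only [hN, ls, mem_ofPred_eq, List.mem_cons, List.not_mem_nil, or_false] at hx hy
      refine lift (S := (E.cell i).W) (fun z hz => ⟨E.notLam hz, ?_⟩) ?_
      · rintro ⟨⟨w, hw, q⟩, c⟩
        simp only [hN, ls, mem_ofPred_eq, List.mem_cons, List.not_mem_nil, or_false] at hw
        apply c
        rw [← q]
        rcases hx with rfl | rfl <;> rcases hy with rfl | rfl <;> rcases hw with rfl | rfl <;>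
          simp_all
      · rcases hx with rfl | rfl <;> rcases hy with rfl | rfl
        · exact Link.refl _ _ _
        · exact l
        · exact l.symm
        · exact Link.refl _ _ _
  · intro c
    obtain ⟨K, hK, cK, aK⟩ := ok.star (kc (by omega)) (by omega)
    refine ⟨E.t.φ '' K, ?_, ⟨cK.1.image _, ?_⟩, ?_⟩
    · rintro _ ⟨z, hz, rfl⟩
      exact ⟨E.notLam (hK hz).1, fun ⟨_, hw, q⟩ => (hK hz).2 (E.t.hφ q ▸ hw)⟩
    · rintro _ ⟨x, hx, rfl⟩ _ ⟨y, hy, rfl⟩
      exact lift (fun z hz => mem_image_of_mem _ hz) (cK.2 x hx y hy)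
    · rintro _ ⟨x, hx, rfl⟩
      obtain ⟨y, hy, k⟩ := aK x hx
      exact ⟨_, mem_image_of_mem _ hy, E.ct_edge hi k⟩

theorem depth [Finite V] : ∀ f ∈ E.rw.s.M.fl E.rw.s.vx E.rw.s.H, ∀ n ≤ E.rw.dg f,
    ∃ U ⊆ E.rw.ct (E.rw.s.vx f),
    (((σ.vs U ∪ E.rw.arc f 0 n) ∩ (σ.vs (E.rw.ct (E.rw.s.vx f) \ U) ∪ E.rw.arc f n (E.rw.dg f))) \
      (E.rw.Λ ∪ E.rw.arc f 0 n ∩ E.rw.arc f n (E.rw.dg f))).ncard ≤ d := by
  intro f hf n hn
  obtain ⟨i, hi, x, hx, s, rfl⟩ := E.t.flH hf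
  obtain ⟨iK, iH⟩ := (E.hH i).1 hi
  have ok := E.hok i
  obtain ⟨L, eL⟩ : ∃ L, L = if s = true then E.t.N i else (E.t.N i).reverse := ⟨_, rfl⟩
  obtain ⟨l1, l2, l3, l4⟩ : L.Nodup ∧ L.length = (E.t.N i).length ∧ (∀ y, y ∈ L ↔ y ∈ E.t.N i) ∧
      Depth (E.cell i).g (E.cell i).W L d := by
    have h1 := ok.hole iH.1
    have h2 := E.t.nd i iK
    rw [← E.hN] at h1
    cases s
    · exact eL ▸ ⟨List.nodup_reverse.2 h2, List.length_reverse, fun _ => List.mem_reverse, depth_rev h1⟩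
    · exact eL ▸ ⟨h2, rfl, fun _ => Iff.rfl, h1⟩
  have dg : E.rw.dg ((.inl i, x, s), true) = L.length := by
    have := E.t.vo_card (j := .inl i) s (inl_ids.2 iK) hx
    refine (congrArg (· / 2) this).trans ?_
    simp [nx, l2]
  have arc : ∀ a b w, w ∈ E.rw.arc ((.inl i, x, s), true) a b ↔
      ∃ m, a ≤ m ∧ m < b ∧ E.t.φ ((L.formPerm ^ m) x) = w := by
    intro a b w
    refine exists_congr fun m => and_congr_right fun _ => and_congr_right fun _ => ?_
    have := E.t.rot_it i x s m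
    rw [← eL] at this
    exact Eq.congr_left (congrArg E.t.sk.far this)
  rw [dg] at hn ⊢
  have hr := orbit_rot l1 ((l3 x).2 hx)
  rw [show L.length = n + (L.length - n) by omega, List.range_add, List.map_append] at hr
  have sub : ∀ m, (L.formPerm ^ m) x ∈ (E.cell i).W := fun m => ok.soc.sub _ (by
    rw [← E.hN, ← l3]
    induction m with
    | zero => exact (l3 x).2 hx
    | succ m ih => rw [pow_succ']; exact List.formPerm_mem_iff_mem.2 ih)
  obtain ⟨S, R, c1, c0, c2, c3, c4⟩ := depth_cut l4 ok.soc.tight hr (by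
    intro y hy
    obtain ⟨m, -, rfl⟩ := List.mem_map.1 hy
    exact sub m)
  refine ⟨{a | a ∈ E.rw.ct (E.t.cv i) ∧ (E.eu a ∈ R ∨ E.ev a ∈ R)}, fun a ha => ha.1, ?_⟩
  refine le_trans (ncard_le_ncard (t := E.t.φ '' S) ?_ (toFinite _))
    ((ncard_image_le (toFinite _)).trans c1)
  rintro w ⟨⟨h1, h2⟩, h3⟩
  have h3' : w ∉ E.rw.Λ := fun c => h3 (Or.inl c)
  have h4 : ∀ y, E.t.φ y = w → y ∈ R → False := by
    rintro y rfl hy
    rcases h2 with h2 | h2
    · obtain ⟨a, ha, k⟩ := mem_iUnion₂.1 h2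
      refine ha.2 ⟨ha.1, ?_⟩
      rcases E.mem_inc'.1 k with rfl | rfl
      · exact Or.inl hy
      · exact Or.inr hy
    · obtain ⟨m, m1, m2, e⟩ := (arc _ _ _).1 h2
      refine c3 y (List.mem_map.2 ⟨m, List.mem_map.2 ⟨m - n, ?_, by omega⟩, E.t.hφ e⟩) hy
      rw [List.mem_range]; omega
  rcases h1 with h1 | h1
  · obtain ⟨a, ha, k⟩ := mem_iUnion₂.1 h1
    obtain ⟨y, hy, rfl⟩ := E.mem_inc.1 k
    have yR : y ∉ R := h4 y rfl
    have yA : y ∉ E.A := by
      intro c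
      rcases h2 with h2 | h2
      · obtain ⟨a', ha', k'⟩ := mem_iUnion₂.1 h2
        exact h3' ⟨⟨y, c, rfl⟩, a, a', fun q => ha'.2 (q ▸ ha), k, k'⟩
      · obtain ⟨m, -, -, e⟩ := (arc _ _ _).1 h2
        exact E.off i _ (sub m) (E.t.hφ e ▸ c)
    obtain ⟨j, hj, fit, e⟩ := E.own_some ha.1
    obtain rfl := E.t.cv_inj e
    have RA : ∀ u ∈ R, (u = E.eu a ∨ u = E.ev a) → (E.cell j).g.Adj (E.eu a) (E.ev a) := by
      intro u hu hu'
      refine fit.resolve_right fun c => c.1 ?_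
      have uA := E.off j u (c0 hu)
      have uy : u ≠ y := fun q => yR (q ▸ hu)
      rcases hu' with rfl | rfl <;> rcases hy with rfl | rfl
      · exact absurd rfl uy
      · exact ⟨E.g_adj uy, uA, yA⟩
      · exact ⟨E.g_adj uy.symm, yA, uA⟩
      · exact absurd rfl uy
    refine ⟨y, ?_, rfl⟩
    rcases ha.2 with c | c
    · have g := RA _ c (Or.inl rfl)
      rcases hy with rfl | rfl
      · exact absurd c yR
      · exact (c4 _ c _ g).resolve_right yR
    · have g := RA _ c (Or.inr rfl)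
      rcases hy with rfl | rfl
      · exact (c4 _ c _ g.symm).resolve_right yR
      · exact absurd c yR
  · obtain ⟨m, -, m2, rfl⟩ := (arc _ _ _).1 h1
    exact ⟨_, (c2 _ (List.mem_map.2 ⟨m, List.mem_range.2 m2, rfl⟩)).resolve_right (h4 _ rfl), rfl⟩

theorem rwOk [Finite V] {q l : ℕ} (hq : E.t.H.card ≤ q) (hl : E.A.ncard ≤ l) :
    E.rw.Ok γ q 0 d l := by
  refine ⟨E.t.skOk, E.t.eg, ?_, ?_, ⟨?_, ?_, ?_⟩, ?_, ?_, ?_, ?_, ?_, E.depth⟩
  · refine le_trans (ncard_le_ncard inter_subset_left ((Finset.finite_toSet _).image _)) ?_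
    refine (ncard_image_le (Finset.finite_toSet _)).trans ?_
    rwa [ncard_coe_finset]
  · have : E.rw.opn = ∅ := eq_empty_of_forall_notMem fun f hf => by
      obtain ⟨i, hi, x, hx, s, rfl⟩ := E.t.flH hf.1
      exact hf.2 ⟨E.t.isQuad s hi hx, E.t.link_H s hi hx⟩
    simp [this]
  · rintro _ ⟨⟨x, -, rfl⟩, -⟩
    exact E.t.od x
  · exact ((toFinite E.A).image _).subset fun _ h => h.1
  · exact (ncard_le_ncard (fun _ h => h.1) ((toFinite E.A).image _)).trans
      ((ncard_image_le (toFinite _)).trans hl)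
  · intro v hv h
    obtain ⟨i, -, x, hx, rfl⟩ := E.t.inl_vt.1 h
    exact absurd hv (E.notLam ((E.hok i).soc.sub x (E.hN i ▸ hx))).2
  · rintro a v ⟨⟨-, a1, a2, ne, h1, h2⟩, h⟩
    refine ⟨⟨a, rfl, h⟩, ?_⟩
    by_cases c : a1 = a
    · exact ⟨a2, fun q => ne (c.trans (show a2 = a from q).symm), h2⟩
    · exact ⟨a1, c, h1⟩
  · intro a y h
    obtain ⟨i, hi, -, rfl⟩ := E.own_some h
    obtain ⟨x, hx⟩ := List.exists_mem_of_ne_nil _ (E.act i hi).2.1
    rw [← E.hN] at hx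
    by_cases c : i ∈ E.t.H
    · exact Or.inr ⟨⟨i, c, rfl⟩, E.t.cv_vt hi hx⟩
    · exact Or.inl (E.t.mem_ce.2 ⟨i, hi, c, ⟨x, hx⟩, rfl⟩)
  · rintro a v ⟨h1, h2⟩ (nd | ⟨a', ne, h3⟩)
    · obtain ⟨i, hi, x, hx, rfl⟩ := E.t.inl_vt.1 nd
      have xW := (E.hok i).soc.sub x (E.hN i ▸ hx)
      have hx' := E.mem_inc'.1 h1
      rcases e : E.rw.own a with _ | y
      · exact (E.own_none e hi hx' xW).elim
      · obtain ⟨j, hj, fit, rfl⟩ := E.own_some e
        refine ⟨_, rfl, (E.t.adj hj).2 ⟨x, ?_, rfl⟩⟩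
        by_cases q : j = i
        · exact q ▸ hx
        · rw [E.hN]
          exact E.hsh j i q x (E.fit_W fit hx' (E.off i x xW)) xW
    obtain ⟨x, hx, rfl⟩ := E.mem_inc.1 h1
    have hx' := E.mem_inc'.1 h3
    have xA : x ∉ E.A := fun c => h2 ⟨⟨x, c, rfl⟩, a', a, fun q => ne (by rw [q]), h3, h1⟩
    rcases e : E.rw.own a with _ | y <;> rcases e' : E.rw.own a' with _ | y'
    · exact absurd (e'.trans e.symm) ne
    · obtain ⟨j, hj, fit, -⟩ := E.own_some e'
      exact (E.own_none e hj hx (E.fit_W fit hx' xA)).elim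
    · obtain ⟨j, hj, fit, -⟩ := E.own_some e
      exact (E.own_none e' hj hx' (E.fit_W fit hx xA)).elim
    · obtain ⟨i, hi, fit, rfl⟩ := E.own_some e
      obtain ⟨j, hj, fit', rfl⟩ := E.own_some e'
      refine ⟨_, rfl, (E.t.adj hi).2 ⟨x, ?_, rfl⟩⟩
      rw [E.hN]
      exact E.hsh i j (fun q => ne (by rw [e, e', q])) x (E.fit_W fit hx xA) (E.fit_W fit' hx' xA)
  · intro y hy
    obtain ⟨i, hi, hH, -, rfl⟩ := E.t.mem_ce.1 hy
    exact E.solid hi hH

end Env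

end Pool.Agent.MP_9d78a0_co.st.tr

end MrgPart4

-- marker of a merged file
example : 731051 + 355436 = 731051 + 355436 := rfl
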