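import Pool.Agent.MP_9d78a0_co.st.TRg
import Pool.Agent.MP_9d78a0_co.st.Dbl
import Pool.Agent.MP_9d78a0_co.st.Sit
import Pool.Agent.MP_9d78a0_co.st.In

-- ======== part 0: formerly Pool.Agent.MP_9d78a0_co.st.SeamA
section MrgPart0

/-! Two cuts of a flat strip: the three pieces. -/

set_option autoImplicit false

namespace Pool.Agent.MP_9d78a0_co.st

open Set Function fb

namespace SeamAux

variable {V : Type} {G G' : SimpleGraph V} {U W Q S T : Set V} {a b u v x : V} {L : List V}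
  {LL LL' A1 A2 : List (Set V)}

theorem mem_ls : a ∈ ls L ↔ a ∈ L := Iff.rfl

theorem link_on (h : Link G S u v) (e : ∀ u ∈ S, ∀ v ∈ S, G.Adj u v → G'.Adj u v) :
    Link G' S u v :=
  Link.map (G' := G') id (fun x hx y hy k => Link.single hx hy (e x hx y hy k)) h

theorem conn_on (h : Conn G S) (e : ∀ u ∈ S, ∀ v ∈ S, G.Adj u v → G'.Adj u v) : Conn G' S :=
  ⟨h.1, fun u hu v hv => link_on (h.2 u hu v hv) e⟩

theorem px_on (h : PX G U LL) (e : ∀ u ∈ U, ∀ v ∈ U, G.Adj u v → G'.Adj u v) : PX G' U LL := by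
  obtain ⟨p, q, r, s, h1, P, R, t, h2⟩ := h
  exact ⟨p, q, r, s, h1, P, R, ⟨t.sp, t.sq, conn_on t.cp fun u k v k' => e u (t.sp k) v (t.sp k'),
    conn_on t.cq fun u k v k' => e u (t.sq k) v (t.sq k'), t.dis⟩, h2⟩

theorem rot (hn : NfS) (A B : List (Set V)) (e : LL = A ++ B) (e' : LL' = B ++ A)
    (h : ¬ PX G U LL) : ¬ PX G U LL' :=
  fun k => h (e ▸ (hn V G U).2.2.1 _ _ List.isRotated_append (e' ▸ k))

open Classical in
theorem nd_of {L' : List V} (h : L.Nodup) (k : ∀ x, L'.count x ≤ L.count x) : L'.Nodup :=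
  List.nodup_iff_count_le_one.2 fun x => (k x).trans (List.nodup_iff_count_le_one.1 h x)

open Classical in
theorem pd_of (h : LL.Pairwise Disjoint) (k : ∀ x, LL'.count x = LL.count x) :
    LL'.Pairwise Disjoint :=
  ((List.perm_iff_count.2 k).pairwise_iff fun k => k.symm).2 h

theorem pd1 (nd : L.Nodup) (h : ∀ x ∈ L, x ∉ T) : (T :: sg L).Pairwise Disjoint := by
  refine List.pairwise_cons.2 ⟨fun s hs => ?_,
    List.pairwise_map.2 (nd.imp fun k => disjoint_singleton.2 k)⟩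
  obtain ⟨x, hx, rfl⟩ := List.mem_map.1 hs
  exact disjoint_singleton_right.2 (h x hx)

theorem pd2 (nd : L.Nodup) (h : ∀ x ∈ L, x ∉ S ∧ x ∉ T) (d : Disjoint S T) :
    (S :: T :: sg L).Pairwise Disjoint :=
  List.pairwise_cons.2 ⟨fun s hs => (List.mem_cons.1 hs).elim (fun e => e ▸ d)
    ((List.pairwise_cons.1 (pd1 nd fun x hx => (h x hx).1)).1 s), pd1 nd fun x hx => (h x hx).2⟩

theorem un_sg : x ∈ un (sg L) ↔ x ∈ L := by simp [un, sg]

theorem un_port {L' : List V} : x ∈ un (sg L ++ T :: sg L') ↔ x ∈ L ∨ x ∈ T ∨ x ∈ L' := by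
  simp [un, sg, or_and_right, exists_or]

theorem exit (h : Link G T v x) (hv : v ∈ W)
    (e : ∀ u ∈ W, u ∉ S → ∀ y, G.Adj u y → y ∈ W ∧ G'.Adj u y) :
    ∃ y ∈ W, (y ∈ S ∨ y = x) ∧ Link G' W y v := by
  induction h with
  | refl => exact ⟨v, hv, .inr rfl, Link.refl _ _ _⟩
  | tail _ k ih =>
    obtain ⟨y, y1, y2, y3⟩ := ih
    by_cases c : y ∈ S
    · exact ⟨y, y1, .inl c, y3⟩
    · obtain rfl := y2.resolve_left c
      obtain ⟨k1, k2⟩ := e y y1 c _ k.2.2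
      exact ⟨_, k1, .inr rfl, (Link.single k1 y1 k2.symm).trans y3⟩

theorem cut [Finite V] (hc : CutPS) (t : Tight G W) (pd : ({a} :: A1 ++ {b} :: A2).Pairwise Disjoint)
    (s1 : un A1 ⊆ W \ Q) (s2 : un A2 ⊆ W \ Q) (hQ : Q ⊆ W) (c : Conn G Q) (ha : a ∈ Q) (hb : b ∈ Q)
    (f : ¬ PX G W ({a} :: A1 ++ {b} :: A2)) :
    ∃ Y H1 H2 U1 U2, Split G H1 H2 W U1 U2 (ls (a :: Y ++ [b])) ∧ (a :: Y ++ [b]).Nodup ∧
      (∀ T ⊆ W \ Q, (∀ v ∈ T, ∃ x ∈ T, x ∈ un A1 ∧ Link G T v x) → T ⊆ U1 \ U2) ∧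
      (∀ T ⊆ W \ Q, (∀ v ∈ T, ∃ x ∈ T, x ∈ un A2 ∧ Link G T v x) → T ⊆ U2 \ U1) ∧
      ¬ PX H1 U1 ({a} :: A1 ++ {b} :: sg Y.reverse) ∧ ¬ PX H2 U2 ({b} :: A2 ++ {a} :: sg Y) := by
  have e : Q ∪ {a} ∪ {b} = Q := by
    rw [union_eq_left.2 (singleton_subset_iff.2 ha), union_eq_left.2 (singleton_subset_iff.2 hb)]
  obtain ⟨Y, H1, H2, U1, U2, sp, nd, d, k1, k2, -, f1, f2⟩ := hc V G W Q _ _ {a} {b} A1 A2 t pd
    (by
      rintro x ⟨s, hs, hx⟩
      simp only [List.cons_append, List.mem_cons, List.mem_append] at hs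
      rcases hs with rfl | hs | rfl | hs
      exacts [hQ (hx ▸ ha), (s1 ⟨s, hs, hx⟩).1, hQ (hx ▸ hb), (s2 ⟨s, hs, hx⟩).1])
    hQ c ⟨a, ha, rfl⟩ ⟨b, hb, rfl⟩ (disjoint_right.2 fun x hx => (s1 hx).2)
    (disjoint_right.2 fun x hx => (s2 hx).2) rfl rfl f
  rw [e] at k1 k2
  have k : ∀ A : Set V, ∀ T ⊆ W \ Q, (∀ v ∈ T, ∃ x ∈ T, x ∈ A ∧ Link G T v x) →
      T ⊆ lk G (W \ Q) A := fun A T h h' v hv => by
    obtain ⟨x, x1, x2, x3⟩ := h' v hv
    exact ⟨h hv, x, x2, h x1, x3.symm.mono h⟩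
  have ab : a ≠ b := disjoint_singleton.1 ((List.pairwise_cons.1 pd).1 _ (by simp))
  have d1 : a ∉ Y := disjoint_right.1 d (.inl rfl)
  have d2 : b ∉ Y := disjoint_right.1 d (.inr rfl)
  refine ⟨Y, H1, H2, U1, U2, ?_, ?_, fun T h h' => (k _ T h h').trans k1,
    fun T h h' => (k _ T h h').trans k2, f1, f2⟩
  · convert sp using 1
    ext x
    simp only [mem_ls, List.cons_append, List.mem_cons, List.mem_append, List.not_mem_nil,
      mem_union, mem_singleton_iff]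
    tauto
  · simp [List.nodup_append, ab, d1, nd]
    exact fun x hx e => d2 (e ▸ hx)

/-- the vertices with positions between two rows -/
def Rg (W : Set V) (pos : V → ℕ) (i j : ℕ) : Set V := {v | v ∈ W ∧ 2 * i ≤ pos v ∧ pos v ≤ 2 * j}

/-- a flat strip with its letters -/
structure Ab (G : SimpleGraph V) (W : Set V) (pos : V → ℕ) (w K : ℕ) (a0 a1 a2 a3 b0 b1 b2 b3 : V)
    (LA MA RA LB MB RB : List V) : Prop where
  tight : Tight G W
  nd : (LA ++ a1 :: MA ++ a2 :: RA ++ (LB ++ b1 :: MB ++ b2 :: RB)).Nodup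
  l : ∀ x, x ∈ LA ∨ x ∈ LB → x ∈ W ∧ 0 < pos x ∧ pos x < 2 * (w + 1)
  m : ∀ x, x ∈ MA ∨ x ∈ MB → x ∈ W ∧ 2 * (w + 1) < pos x ∧ pos x < 2 * (w + K + 2)
  r : ∀ x, x ∈ RA ∨ x ∈ RB → x ∈ W ∧ 2 * (w + K + 2) < pos x ∧ pos x < 2 * (2 * w + K + 3)
  o0 : ∀ x, x = a0 ∨ x = b0 → x ∈ W ∧ pos x = 0
  o1 : ∀ x, x = a1 ∨ x = b1 → x ∈ W ∧ pos x = 2 * (w + 1)
  o2 : ∀ x, x = a2 ∨ x = b2 → x ∈ W ∧ pos x = 2 * (w + K + 2)
  o3 : ∀ x, x = a3 ∨ x = b3 → x ∈ W ∧ pos x = 2 * (2 * w + K + 3)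
  c1 : Conn G (Rg W pos (w + 1) (w + 1))
  c2 : Conn G (Rg W pos (w + K + 2) (w + K + 2))
  reach : ∀ i j, ∀ v ∈ Rg W pos i j, ∃ x ∈ Rg W pos i j, ((x = a0 ∨ x = b0) ∨ (x ∈ LA ∨ x ∈ LB) ∨
    (x = a1 ∨ x = b1) ∨ (x ∈ MA ∨ x ∈ MB) ∨ (x = a2 ∨ x = b2) ∨ (x ∈ RA ∨ x ∈ RB) ∨
    (x = a3 ∨ x = b3)) ∧ Link G (Rg W pos i j) v x
  flat : ¬ PX G W (Rg W pos 0 0 :: sg (LA ++ a1 :: MA ++ a2 :: RA) ++
    Rg W pos (2 * w + K + 3) (2 * w + K + 3) :: sg (LB ++ b1 :: MB ++ b2 :: RB).reverse)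

/-- an outer piece -/
structure Pc (G HL Hm : SimpleGraph V) (UL Um R R0 : Set V) (a b : V) (L S L' : List V) :
    Prop where
  le : HL ≤ G
  dis : Disjoint HL Hm
  ed : ∀ u ∈ UL, ∀ v, G.Adj u v → ¬ Hm.Adj u v → HL.Adj u v ∧ v ∈ UL
  int : UL ∩ Um = ls S
  rg : R ⊆ UL \ Um
  lt : ∀ x, x ∈ L ∨ x ∈ L' → x ∈ UL \ Um
  nd : (L ++ S ++ L').Nodup
  lnk : ∀ v ∈ UL, ∃ x ∈ UL, (x = a ∨ x = b ∨ x ∈ L ++ S ++ L') ∧ Link HL UL x v
  flat : ¬ PX HL UL (R0 :: sg (L ++ S ++ L'))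

theorem three [Finite V] (hn : NfS) (hc : CutPS) {pos : V → ℕ} {w K : ℕ}
    {a0 a1 a2 a3 b0 b1 b2 b3 : V} {LA MA RA LB MB RB : List V}
    (h : Ab G W pos w K a0 a1 a2 a3 b0 b1 b2 b3 LA MA RA LB MB RB) :
    ∃ Y1 Y2 HL Hm HR UL Um UR, Hm ≤ G ∧ UL ∪ Um ∪ UR = W ∧ Disjoint UL UR ∧
      (∀ u v, G.Adj u v → ¬ Hm.Adj u v → u ∈ UL ∪ UR) ∧
      Pc G HL Hm UL Um (Rg W pos 0 w) (Rg W pos 0 0) a0 b0 LA (a1 :: Y1 ++ [b1]) LB.reverse ∧
      Pc G HR Hm UR Um (Rg W pos (w + K + 3) (2 * w + K + 3))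
        (Rg W pos (2 * w + K + 3) (2 * w + K + 3)) a3 b3 RB.reverse (a2 :: Y2 ++ [b2]).reverse RA ∧
      Rg W pos (w + 2) (w + K + 1) ⊆ Um \ (UL ∪ UR) ∧
      Soc Hm Um (a1 :: MA ++ [a2] ++ Y2 ++ (b1 :: MB ++ [b2]).reverse ++ Y1.reverse) ∧
      ¬ Cr Hm Um (a1 :: MA ++ [a2] ++ Y2 ++ (b1 :: MB ++ [b2]).reverse ++ Y1.reverse) := by
  classical
  have pa1 := h.o1 a1 (.inl rfl)
  have pb1 := h.o1 b1 (.inr rfl)
  have pa2 := h.o2 a2 (.inl rfl)
  have pb2 := h.o2 b2 (.inr rfl)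
  have all : ∀ x ∈ LA ++ a1 :: MA ++ a2 :: RA ++ (LB ++ b1 :: MB ++ b2 :: RB),
      0 < pos x ∧ pos x < 2 * (2 * w + K + 3) := fun x hx => by
    have t0 := h.l x
    have t1 := h.m x
    have t2 := h.r x
    simp only [List.mem_append, List.mem_cons] at hx
    clear * - t0 t1 t2 hx pa1 pa2 pb1 pb2
    grind
  obtain ⟨Y1, H1, HL, U1, UL, sp, n1, k1, kl, f1, fl⟩ := cut (a := a1) (b := b1)
    (A1 := sg (MA ++ a2 :: RA) ++ Rg W pos (2 * w + K + 3) (2 * w + K + 3) ::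
      sg (RB.reverse ++ b2 :: MB.reverse)) (A2 := sg LB.reverse ++ Rg W pos 0 0 :: sg LA)
    (Q := Rg W pos (w + 1) (w + 1)) hc h.tight
    (pd_of (pd2 (S := Rg W pos 0 0) (T := Rg W pos (2 * w + K + 3) (2 * w + K + 3)) h.nd
      (fun x hx => by have := all x hx; simp only [Rg, mem_ofPred_eq]; omega)
      (disjoint_left.2 fun x k k' => by have := k.2.2; have := k'.2.1; omega))
      fun x => by
        simp only [sg, List.map_append, List.map_cons, List.map_reverse, List.count_append,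
          List.count_cons, List.count_reverse]
        omega)
    (fun x hx => by
      have t0 := h.m x
      have t1 := h.r x
      simp only [un_port, List.mem_append, List.mem_cons, List.mem_reverse, Rg, mem_sdiff,
        mem_ofPred_eq] at hx ⊢
      clear * - t0 t1 hx pa2 pb2
      grind)
    (fun x hx => by
      have t0 := h.l x
      simp only [un_port, List.mem_reverse, Rg, mem_sdiff, mem_ofPred_eq] at hx ⊢
      clear * - t0 hx
      grind)
    (fun _ k => k.1) h.c1 ⟨pa1.1, pa1.2.ge, pa1.2.le⟩ ⟨pb1.1, pb1.2.ge, pb1.2.le⟩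
    (rot hn (Rg W pos 0 0 :: sg LA) ({a1} :: sg (MA ++ a2 :: RA) ++
      Rg W pos (2 * w + K + 3) (2 * w + K + 3) :: sg (RB.reverse ++ b2 :: MB.reverse) ++
      {b1} :: sg LB.reverse) (by simp [sg]) (by simp [sg]) h.flat)
  have rc : ∀ i j (A : Set V), (∀ x ∈ Rg W pos i j, ((x = a0 ∨ x = b0) ∨ (x ∈ LA ∨ x ∈ LB) ∨
      (x = a1 ∨ x = b1) ∨ (x ∈ MA ∨ x ∈ MB) ∨ (x = a2 ∨ x = b2) ∨ (x ∈ RA ∨ x ∈ RB) ∨
      (x = a3 ∨ x = b3)) → x ∈ A) →
      ∀ v ∈ Rg W pos i j, ∃ x ∈ Rg W pos i j, x ∈ A ∧ Link G (Rg W pos i j) v x :=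
    fun i j A k v hv => (h.reach i j v hv).imp fun x c => ⟨c.1, k x c.1 c.2.1, c.2.2⟩
  have rl := kl (Rg W pos 0 w) (fun x k => ⟨k.1, fun c => by have := k.2.2; have := c.2.1; omega⟩)
    (rc _ _ _ fun x k c => by
      have t0 := h.o0 x
      have t1 := h.o1 x
      have t2 := h.o2 x
      have t3 := h.o3 x
      have t4 := h.m x
      have t5 := h.r x
      simp only [un_port, List.mem_reverse, Rg, mem_ofPred_eq] at k ⊢
      clear * - t0 t1 t2 t3 t4 t5 k c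
      grind)
  have r1 := k1 (Rg W pos (w + 2) (2 * w + K + 3))
    (fun x k => ⟨k.1, fun c => by have := k.2.1; have := c.2.2; omega⟩)
    (rc _ _ _ fun x k c => by
      have t0 := h.o0 x
      have t1 := h.o1 x
      have t2 := h.o3 x
      have t3 := h.l x
      simp only [un_port, List.mem_append, List.mem_cons, List.mem_reverse, Rg, mem_ofPred_eq] at k ⊢
      clear * - t0 t1 t2 t3 k c
      grind)
  have ll : ∀ x, x ∈ LA ∨ x ∈ LB → x ∈ UL \ U1 := fun x hx =>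
    kl {x} (fun y (e : y = x) => e ▸ ⟨(h.l x hx).1, fun c => by have := h.l x hx; have := c.2.1; omega⟩)
      (fun y (e : y = x) => ⟨x, rfl, by simp only [un_port, List.mem_reverse]; clear * - hx; tauto,
        e ▸ Link.refl _ _ _⟩) rfl
  have l1 : ∀ x, (x ∈ MA ∨ x ∈ MB) ∨ (x ∈ RA ∨ x ∈ RB) → x ∈ U1 \ UL := fun x hx =>
    k1 {x} (fun y (e : y = x) => e ▸ ⟨hx.elim (fun c => (h.m x c).1) fun c => (h.r x c).1, fun c => by
        have := c.2.2
        rcases hx with k | k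
        exacts [by have := h.m x k; omega, by have := h.r x k; omega]⟩)
      (fun y (e : y = x) => ⟨x, rfl, by
        simp only [un_port, List.mem_append, List.mem_cons, List.mem_reverse]; clear * - hx; tauto,
        e ▸ Link.refl _ _ _⟩) rfl
  have e1 : ∀ u ∈ U1 \ UL, ∀ v, G.Adj u v → H1.Adj u v := fun u k v e =>
    (sp.sup.symm ▸ e : (H1 ⊔ HL).Adj u v).resolve_right fun c => k.2 (sp.t2 _ _ c)
  have s1 : ∀ x, x ∈ U1 ∧ x ∈ UL ↔ x = a1 ∨ x ∈ Y1 ∨ x = b1 := fun x => by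
    simpa [mem_ls] using Set.ext_iff.1 sp.int x
  have sub : ∀ {i j i' j'}, i' ≤ i → j ≤ j' → Rg W pos i j ⊆ Rg W pos i' j' :=
    fun k k' x c => ⟨c.1, by have := c.2.1; omega, by have := c.2.2; omega⟩
  have q2 := (sub (show w + 2 ≤ w + K + 2 by omega) (show w + K + 2 ≤ 2 * w + K + 3 by omega)).trans r1
  have ma2 : a2 ∈ Rg W pos (w + K + 2) (w + K + 2) := ⟨pa2.1, pa2.2.ge, pa2.2.le⟩
  have mb2 : b2 ∈ Rg W pos (w + K + 2) (w + K + 2) := ⟨pb2.1, pb2.2.ge, pb2.2.le⟩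
  have q3 := (sub (show w + 2 ≤ 2 * w + K + 3 by omega) le_rfl).trans r1
  have n2 : (Y1 ++ (LA ++ a1 :: MA ++ a2 :: RA ++ (LB ++ b1 :: MB ++ b2 :: RB))).Nodup := by
    refine List.nodup_append.2 ⟨nd_of n1 fun x => by simp [List.count_cons]; omega, h.nd, ?_⟩
    rintro x hx _ k rfl
    have t0 := (s1 x).2 (.inr (.inl hx))
    have t1 := ll x
    have t2 := l1 x
    have t3 := (q2 ma2).2
    have t4 := (q2 mb2).2
    simp only [List.mem_append, List.mem_cons, mem_sdiff, List.cons_append, List.nodup_cons,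
      List.nodup_append] at t1 t2 k n1
    clear * - t0 t1 t2 t3 t4 k n1 hx
    grind
  obtain ⟨Y2, HR, Hm, UR, Um, sq, n3, kr, km, fr, fm⟩ := cut (a := a2) (b := b2)
    (A1 := sg RA ++ Rg W pos (2 * w + K + 3) (2 * w + K + 3) :: sg RB.reverse)
    (A2 := sg (MB.reverse ++ b1 :: Y1.reverse ++ a1 :: MA))
    (Q := Rg W pos (w + K + 2) (w + K + 2)) hc sp.t1
    (pd_of (pd1 (T := Rg W pos (2 * w + K + 3) (2 * w + K + 3))
      (L := Y1 ++ (a1 :: MA ++ a2 :: RA ++ (b1 :: MB ++ b2 :: RB)))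
      (nd_of n2 fun x => by simp only [List.count_append]; omega)
      fun x hx c => (List.mem_append.1 hx).elim
        (fun k => (q3 c).2 ((s1 x).2 (.inr (.inl k))).2) fun k => by
          have := all x (by simp only [List.mem_append, List.mem_cons] at k ⊢; clear * - k; tauto)
          have := c.2.1
          omega)
      fun x => by
        simp only [sg, List.map_append, List.map_cons, List.map_reverse, List.count_append,
          List.count_cons, List.count_reverse]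
        omega)
    (fun x hx => by
      have t0 := h.r x
      have t1 := l1 x
      have t2 := @q3 x
      simp only [un_port, List.mem_reverse, Rg, mem_sdiff, mem_ofPred_eq] at t1 t2 hx ⊢
      clear * - t0 t1 t2 hx
      grind)
    (fun x hx => by
      have t0 := h.m x
      have t1 := l1 x
      have t2 := s1 x
      have t3 := @q2 x
      simp only [un_sg, List.mem_append, List.mem_cons, List.mem_reverse, Rg, mem_sdiff,
        mem_ofPred_eq] at t1 t3 hx ⊢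
      clear * - t0 t1 t2 t3 hx
      grind)
    (fun _ k => (q2 k).1) (conn_on h.c2 fun u k v _ => e1 u (q2 k) v) ma2 mb2
    (rot hn ({a1} :: sg MA) ({a2} :: sg RA ++
      Rg W pos (2 * w + K + 3) (2 * w + K + 3) :: sg (RB.reverse ++ b2 :: MB.reverse) ++
      {b1} :: sg Y1.reverse) (by simp [sg]) (by simp [sg]) f1)
  have rc' : ∀ i j (A : Set V), w + 2 ≤ i → j ≤ 2 * w + K + 3 →
      (∀ v ∈ Rg W pos i j, ∃ x ∈ Rg W pos i j, x ∈ A ∧ Link G (Rg W pos i j) v x) →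
      ∀ v ∈ Rg W pos i j, ∃ x ∈ Rg W pos i j, x ∈ A ∧ Link H1 (Rg W pos i j) v x :=
    fun i j A c c' k v hv => (k v hv).imp fun x d =>
      ⟨d.1, d.2.1, link_on d.2.2 fun u k v _ => e1 u (r1 (sub c c' k)) v⟩
  have rr := kr (Rg W pos (w + K + 3) (2 * w + K + 3))
    (fun x k => ⟨(r1 (sub (by omega) le_rfl k)).1, fun c => by have := k.2.1; have := c.2.2; omega⟩)
    (rc' _ _ _ (by omega) le_rfl (rc _ _ _ fun x k c => by
      have t0 := h.o0 x
      have t1 := h.o1 x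
      have t2 := h.o2 x
      have t3 := h.o3 x
      have t4 := h.l x
      have t5 := h.m x
      simp only [un_port, List.mem_reverse, Rg, mem_ofPred_eq] at k ⊢
      clear * - t0 t1 t2 t3 t4 t5 k c
      grind))
  have rm := km (Rg W pos (w + 2) (w + K + 1))
    (fun x k => ⟨(r1 (sub le_rfl (by omega) k)).1, fun c => by have := k.2.2; have := c.2.1; omega⟩)
    (rc' _ _ _ le_rfl (by omega) (rc _ _ _ fun x k c => by
      have t0 := h.o0 x
      have t1 := h.o1 x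
      have t2 := h.o2 x
      have t3 := h.o3 x
      have t4 := h.l x
      have t5 := h.r x
      simp only [un_sg, List.mem_append, List.mem_cons, List.mem_reverse, Rg, mem_ofPred_eq] at k ⊢
      clear * - t0 t1 t2 t3 t4 t5 k c
      grind))
  have lr : ∀ x, x ∈ RA ∨ x ∈ RB → x ∈ UR \ Um := fun x hx =>
    kr {x} (fun y (e : y = x) => e ▸ ⟨(l1 x (.inr hx)).1, fun c => by
        have := h.r x hx
        have := c.2.2
        omega⟩)
      (fun y (e : y = x) => ⟨x, rfl, by simp only [un_port, List.mem_reverse]; tauto,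
        e ▸ Link.refl _ _ _⟩) rfl
  have lm : ∀ x, (x ∈ MA ∨ x ∈ MB) ∨ x = a1 ∨ x ∈ Y1 ∨ x = b1 → x ∈ Um \ UR := fun x hx =>
    km {x} (fun y (e : y = x) => e ▸ hx.elim (fun k => ⟨(l1 x (.inl k)).1, fun c => by
        have := h.m x k
        have := c.2.1
        omega⟩) fun k => ⟨((s1 x).2 k).1, fun c => (q2 c).2 ((s1 x).2 k).2⟩)
      (fun y (e : y = x) => ⟨x, rfl, by
        simp only [un_sg, List.mem_append, List.mem_cons, List.mem_reverse]; clear * - hx; tauto,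
        e ▸ Link.refl _ _ _⟩) rfl
  have s2 : ∀ x, x ∈ UR ∧ x ∈ Um ↔ x = a2 ∨ x ∈ Y2 ∨ x = b2 := fun x => by
    simpa [mem_ls] using Set.ext_iff.1 sq.int x
  have um : Um ⊆ U1 := sq.un ▸ subset_union_right
  have ur : UR ⊆ U1 := sq.un ▸ subset_union_left
  have d : Disjoint UL UR := disjoint_left.2 fun x k k' => (lm x (.inr ((s1 x).1 ⟨ur k', k⟩))).2 k'
  have ad : ∀ u v, G.Adj u v → (HR.Adj u v ∨ Hm.Adj u v) ∨ HL.Adj u v := fun u v e => by
    rwa [← sp.sup, ← sq.sup] at e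
  have m1 : Hm ≤ H1 := sq.sup ▸ le_sup_right
  have g1 : H1 ≤ G := sp.sup ▸ le_sup_left
  have edl : ∀ u ∈ UL, ∀ v, G.Adj u v → ¬ Hm.Adj u v → HL.Adj u v ∧ v ∈ UL := fun u k v e c =>
    have := (ad u v e).resolve_left fun j => j.elim (fun j => disjoint_left.1 d k (sq.t1 _ _ j)) c
    ⟨this, sp.t2 _ _ this.symm⟩
  have edr : ∀ u ∈ UR, ∀ v, G.Adj u v → ¬ Hm.Adj u v → HR.Adj u v ∧ v ∈ UR := fun u k v e c =>
    have := ((ad u v e).resolve_right fun j => disjoint_left.1 d (sp.t2 _ _ j) k).resolve_right c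
    ⟨this, sq.t1 _ _ this.symm⟩
  have n4 : (Y2 ++ (Y1 ++ (LA ++ a1 :: MA ++ a2 :: RA ++ (LB ++ b1 :: MB ++ b2 :: RB)))).Nodup := by
    refine List.nodup_append.2 ⟨nd_of n3 fun x => by simp [List.count_cons]; omega, n2, ?_⟩
    rintro x hx _ k rfl
    have t0 := (s2 x).2 (.inr (.inl hx))
    have t1 := ll x
    have t2 := lr x
    have t3 := lm x
    have t4 := ur t0.1
    simp only [List.mem_append, List.mem_cons, mem_sdiff, List.cons_append, List.nodup_cons,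
      List.nodup_append] at t1 t2 t3 k n3
    clear * - t0 t1 t2 t3 t4 k n3 hx
    grind
  have ex : ∀ (HP : SimpleGraph V) (UP : Set V), UP ⊆ W →
      (∀ u ∈ UP, ∀ v, G.Adj u v → ¬ Hm.Adj u v → HP.Adj u v ∧ v ∈ UP) → ∀ v ∈ UP, ∃ x ∈ UP,
      (x ∈ Um ∨ (x = a0 ∨ x = b0) ∨ (x ∈ LA ∨ x ∈ LB) ∨ (x = a1 ∨ x = b1) ∨ (x ∈ MA ∨ x ∈ MB) ∨
      (x = a2 ∨ x = b2) ∨ (x ∈ RA ∨ x ∈ RB) ∨ (x = a3 ∨ x = b3)) ∧ Link HP UP x v := by
    intro HP UP k ed v hv
    obtain ⟨x, -, x2, x3⟩ := h.reach 0 (pos v) v ⟨k hv, by omega, by omega⟩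
    obtain ⟨y, y1, y2, y3⟩ := exit (S := Um) (G' := HP) x3 hv fun u c c' y e =>
      (ed u c y e fun j => c' (sq.t2 _ _ j)).symm
    exact ⟨y, y1, y2.imp_right fun (e : y = x) => e ▸ x2, y3⟩
  have r0 : ∀ x, x = a0 ∨ x = b0 → x ∈ UL := fun x k =>
    (rl ⟨(h.o0 x k).1, by omega, by have := (h.o0 x k).2; omega⟩).1
  have r2 : ∀ x, x = a2 ∨ x = b2 → x ∈ UR := fun x k => ((s2 x).2 (k.imp_right .inr)).1
  have r3 : ∀ x, x = a3 ∨ x = b3 → x ∈ UR := fun x k =>
    (rr ⟨(h.o3 x k).1, by have := (h.o3 x k).2; omega, (h.o3 x k).2.le⟩).1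
  refine ⟨Y1, Y2, HL, Hm, HR, UL, Um, UR, m1.trans g1, ?_, d, fun u v e c => (ad u v e).symm.imp
    (sp.t2 _ _) fun j => sq.t1 _ _ (j.resolve_right c),
    ⟨sp.sup ▸ le_sup_right, sp.dis.symm.mono_right m1, edl, ?_, fun x k => ⟨(rl k).1,
      fun c => (rl k).2 (um c)⟩, fun x k => ?_, nd_of n4 fun x => ?_, fun v hv => ?_, ?_⟩,
    ⟨(sq.sup ▸ le_sup_left : HR ≤ H1).trans g1, sq.dis, edr, ?_, rr, fun x k => lr x ?_,
      nd_of n4 fun x => ?_, fun v hv => ?_, ?_⟩, fun x k => ⟨(rm k).1, fun c => c.elim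
      (r1 (sub le_rfl (by omega) k)).2 (rm k).2⟩, ⟨sq.t2, nd_of n4 fun x => ?_, fun x k => ?_⟩,
    fun k => ?_⟩
  · rw [union_assoc, union_comm Um, sq.un, union_comm, sp.un]
  · ext x
    have t0 := s1 x
    have t1 := lm x
    have t2 := @um x
    simp only [mem_ls, List.mem_append, List.mem_cons, List.not_mem_nil, mem_inter_iff,
      mem_sdiff] at t1 ⊢
    clear * - t0 t1 t2
    grind
  · have := ll x (k.imp_right List.mem_reverse.1)
    exact ⟨this.1, fun c => this.2 (um c)⟩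
  · simp only [List.count_append, List.count_cons, List.count_reverse, List.count_nil]
    omega
  · obtain ⟨x, x1, x2, x3⟩ := ex HL UL (sp.un ▸ subset_union_right) edl v hv
    refine ⟨x, x1, ?_, x3⟩
    have t0 := s1 x
    have t1 := l1 x
    have t2 := @um x
    have t3 := r2 x
    have t4 := r3 x
    have t5 := disjoint_left.1 d x1
    simp only [List.mem_append, List.mem_cons, List.mem_reverse, mem_sdiff] at t1 ⊢
    clear * - t0 t1 t2 t3 t4 t5 x1 x2
    grind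
  · exact rot hn ({b1} :: sg LB.reverse) (Rg W pos 0 0 :: sg LA ++ {a1} :: sg Y1) (by simp [sg])
      (by simp [sg]) fl
  · rw [sq.int]
    exact Set.ext fun x => List.mem_reverse.symm
  · exact k.symm.imp_right List.mem_reverse.1
  · simp only [List.count_append, List.count_cons, List.count_reverse, List.count_nil]
    omega
  · obtain ⟨x, x1, x2, x3⟩ := ex HR UR (ur.trans (sp.un ▸ subset_union_left)) edr v hv
    refine ⟨x, x1, ?_, x3⟩
    have t0 := s2 x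
    have t1 := ll x
    have t2 := ur x1
    have t3 := r0 x
    have t4 := lm x
    have t5 := disjoint_right.1 d x1
    simp only [List.mem_append, List.mem_cons, List.mem_reverse, mem_sdiff] at t1 t4 ⊢
    clear * - t0 t1 t2 t3 t4 t5 x1 x2
    grind
  · exact rot hn ({a2} :: sg RA) (Rg W pos (2 * w + K + 3) (2 * w + K + 3) :: sg RB.reverse ++
      {b2} :: sg Y2.reverse) (by simp [sg]) (by simp [sg]) fr
  · simp only [List.count_append, List.count_cons, List.count_reverse, List.count_nil]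
    omega
  · have t0 := s2 x
    have t1 := lm x
    simp only [List.mem_append, List.mem_cons, List.mem_reverse, mem_sdiff] at t1 k
    clear * - t0 t1 k
    grind
  · exact rot hn ({b2} :: sg (MB.reverse ++ b1 :: Y1.reverse)) (sg (a1 :: MA) ++ {a2} :: sg Y2)
      (by simp [sg]) (by simp [sg]) fm (((hn V _ _).2.1 _).1 k)

end SeamAux

end Pool.Agent.MP_9d78a0_co.st

end MrgPart0

-- ======== part 1: formerly Pool.Agent.MP_9d78a0_co.st.Seam
section MrgPart1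

/-! Two cuts of a flat strip. -/

set_option autoImplicit false

namespace Pool.Agent.MP_9d78a0_co.st

open Set Function fb

namespace SeamAux

variable {V : Type} {H : SimpleGraph V} {U I D Z : Set V} {p : PD V} {F : FD V} {pos : V → ℕ}
  {u m e : ℕ} {x v : V}

/-- the letters from `o u` on, without `o (u + m)` -/
def pre (p : PD V) (u m : ℕ) : List V :=
  (List.range m).flatMap fun j => p.o (u + j) :: p.seg (u + j)

/-- the letters strictly between `o u` and `o (u + m + 1)` -/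
def op (p : PD V) (u m : ℕ) : List V := p.seg u ++ pre p (u + 1) m

theorem lin_pre : p.lin u m = pre p u m ++ [p.o (u + m)] := rfl

theorem pre_add (a b : ℕ) : pre p u (a + b) = pre p u a ++ pre p (u + a) b := by
  simp [pre, List.range_add, List.flatMap_map, Nat.add_assoc]

theorem pre_succ : pre p u (m + 1) = p.o u :: op p u m := by
  rw [Nat.add_comm m, pre_add]
  simp [pre, op]

theorem lin_succ : p.lin u (m + 1) = p.o u :: op p u m ++ [p.o (u + (m + 1))] := by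
  rw [lin_pre, pre_succ]

theorem op_add (a b : ℕ) : op p u (a + (b + 1)) = op p u a ++ p.o (u + 1 + a) :: op p (u + 1 + a) b := by
  rw [op, pre_add, pre_succ, ← List.append_assoc]
  rfl

theorem lin_op : p.lin u m ++ p.seg (u + m) = p.o u :: op p u m := by
  rw [← pre_succ, pre_add, lin_pre]
  simp [pre]

theorem lin_cons : p.lin u m = p.o u :: (p.lin u m).tail := by
  cases m with
  | zero => simp [PD.lin]
  | succ m => simp [lin_succ]

theorem tail_op : (p.lin u m).tail ++ p.seg (u + m) = op p u m := by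
  have := lin_op (p := p) (u := u) (m := m)
  rw [lin_cons] at this
  exact (List.cons.inj this).2

theorem o_col (h : Pan H U I p) (he : e ≤ p.n) : p.o e ∈ p.col e := .inl (h.lam e he).2.2.1

theorem C_col : p.C 0 e ⊆ p.col e := fun _ k => .inr ⟨0, le_rfl, Nat.zero_le _, k⟩

theorem col_conn (h : Pan H U I p) (he : e ≤ p.n) : Conn H (p.col e) := by
  have k : {v | ∃ l', 0 ≤ l' ∧ l' ≤ p.s ∧ v ∈ p.C l' e} = ⋃ i ∈ Icc 0 p.s, p.C i e := by
    ext
    simp
  rw [PD.col, PD.up, k]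
  exact conn_union_touch (h.lam e he).1 (conn_chain (S := fun l => p.C l e) (Nat.zero_le _)
    (fun i hi => (h.cell i hi.2 e he).1) fun i _ hi => .inr (h.ver i hi e he))
    ((h.lam e he).2.1.symm.mono subset_rfl
      (subset_biUnion_of_mem (u := fun l => p.C l e) (right_mem_Icc.2 (Nat.zero_le _))))

theorem op_mem (h : Pan H U I p) (k : u + m + 1 ≤ p.n) (hx : x ∈ op p u m) :
    x ∈ p.P ∧ 2 * u < p.κ x ∧ p.κ x < 2 * (u + m + 1) := by
  simp only [op, pre, List.mem_append, List.mem_flatMap, List.mem_range, List.mem_cons] at hx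
  rcases hx with hx | ⟨j, hj, rfl | hx⟩
  · obtain ⟨h1, -, h2⟩ := h.seg u (by omega) x hx
    exact ⟨h1, by omega⟩
  · obtain ⟨h1, h2⟩ := (h.col _ (by omega) _).1 (o_col (e := u + 1 + j) h (by omega))
    exact ⟨h1, by omega⟩
  · obtain ⟨h1, -, h2⟩ := h.seg _ (by omega) x hx
    exact ⟨h1, by omega⟩

theorem o_lin (he : e ≤ m) : p.o e ∈ p.lin 0 m := by
  simp only [PD.lin, List.mem_append, List.mem_flatMap, List.mem_range, List.mem_cons,
    Nat.zero_add]
  exact he.eq_or_lt.symm.imp (fun k => ⟨e, k, .inl rfl⟩) fun k => .inl (by rw [k])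

theorem lin_mem (h : Pan H U I p) (hx : x ∈ p.lin 0 p.n) : x ∈ p.P := by
  simp only [PD.lin, List.mem_append, List.mem_flatMap, List.mem_range, List.mem_cons,
    Nat.zero_add, List.not_mem_nil, or_false] at hx
  rcases hx with ⟨j, hj, rfl | hx⟩ | rfl
  exacts [((h.col _ hj.le _).1 (o_col h hj.le)).1, (h.seg j hj x hx).1,
    ((h.col _ le_rfl _).1 (o_col h le_rfl)).1]

theorem lin_dec {w K : ℕ} (h : p.n = 2 * w + K + 3) : p.lin 0 p.n = p.o 0 ::
    (op p 0 w ++ p.o (w + 1) :: op p (w + 1) K ++ p.o (w + K + 2) :: op p (w + K + 2) w) ++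
      [p.o (2 * w + K + 3)] := by
  rw [h, show 2 * w + K + 3 = w + (K + (w + 1) + 1) + 1 by omega, lin_succ, op_add, op_add,
    show 0 + 1 + w = w + 1 by omega, show w + 1 + 1 + K = w + K + 2 by omega]
  simp

section str

variable (h : Str H U I D F Z pos)
include h

theorem dom_sub : F.dom Z ⊆ U \ D := by
  rintro v ((k | k) | k)
  · exact ⟨h.bas.iu (h.z.1 k).1, (h.z.1 k).2⟩
  · exact ⟨(h.bas.a.sub k).1, disjoint_right.1 h.d (.inl k)⟩
  · exact ⟨(h.bas.b.sub k).1, disjoint_right.1 h.d (.inr k)⟩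

theorem pos_le (k : v ∈ F.dom Z) : pos v ≤ 2 * F.A.n := by
  rcases k with (k | k) | k
  · exact (h.rng v k).1
  · exact h.kap.1 v k ▸ (h.bas.a.rng v k).2
  · exact h.kap.2 v k ▸ h.bas.n ▸ (h.bas.b.rng v k).2

theorem row_iff (he : e ≤ F.A.n) : v ∈ F.row e ↔ v ∈ F.dom Z ∧ pos v = 2 * e := by
  have a := h.bas.a.col e he v
  have b := h.bas.b.col e (h.bas.n ▸ he) v
  constructor
  · rintro ((k | k) | k)
    · exact ⟨.inl (.inr (a.1 k).1), (h.kap.1 v (a.1 k).1).trans (a.1 k).2⟩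
    · exact ⟨.inl (.inl (h.z.2 e he k)), ((h.rng v (h.z.2 e he k)).2 e he).2 k⟩
    · exact ⟨.inr (b.1 k).1, (h.kap.2 v (b.1 k).1).trans (b.1 k).2⟩
  · rintro ⟨(k | k) | k, k'⟩
    · exact .inl (.inr (((h.rng v k).2 e he).1 k'))
    · exact .inl (.inl (a.2 ⟨k, h.kap.1 v k ▸ k'⟩))
    · exact .inr (b.2 ⟨k, h.kap.2 v k ▸ k'⟩)

theorem row_eq (he : e ≤ F.A.n) : F.row e = Rg (F.dom Z) pos e e :=
  Set.ext fun _ => (row_iff h he).trans (and_congr_right fun _ => by omega)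

theorem row_conn (he : e ≤ F.A.n) : Conn H (F.row e) :=
  conn_union_touch (conn_union_touch (col_conn h.bas.a he) (h.bas.j e he).2.1
    ((h.bas.j e he).2.2.1.symm.mono C_col subset_rfl)) (col_conn h.bas.b (h.bas.n ▸ he))
    ((h.bas.j e he).2.2.2.mono subset_union_right C_col)

omit h in
theorem low_row : F.low e ⊆ F.row e :=
  union_subset_union (union_subset_union_left _ C_col) C_col

theorem last {u : V} {S : Set V} (hS : S ⊆ {x | x ∈ F.dom Z ∧ pos x = pos v}) (hu : u ∈ F.dom Z)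
    (k : Link H (S ∪ {u}) v u) : LSt (pos v) (pos u) := by
  rcases Relation.ReflTransGen.cases_tail k with rfl | ⟨c, -, c1 | c1, -, c2⟩
  · exact .inl rfl
  · exact (hS c1).2 ▸ h.stp c (hS c1).1 u hu c2
  · exact absurd c1 c2.ne

theorem reach (i j : ℕ) (hv : v ∈ Rg (F.dom Z) pos i j) : ∃ x ∈ Rg (F.dom Z) pos i j,
    (x ∈ F.A.lin 0 F.A.n ∨ x ∈ F.B.lin 0 F.B.n) ∧ Link H (Rg (F.dom Z) pos i j) v x := by
  have ev : ∀ v ∈ Rg (F.dom Z) pos i j, ∀ e ≤ F.A.n, v ∈ F.row e → ∃ x ∈ Rg (F.dom Z) pos i j,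
      (x ∈ F.A.lin 0 F.A.n ∨ x ∈ F.B.lin 0 F.B.n) ∧ Link H (Rg (F.dom Z) pos i j) v x := by
    intro v hv e he k
    have s : F.row e ⊆ Rg (F.dom Z) pos i j := fun y c => by
      have := (row_iff h he).1 k
      have := (row_iff h he).1 c
      exact ⟨this.1, by have := hv.2; omega⟩
    have o : F.A.o e ∈ F.row e := .inl (.inl (o_col h.bas.a he))
    exact ⟨_, s o, .inl (o_lin he), ((row_conn h he).2 v k _ o).mono s⟩
  by_cases c : pos v % 2 = 0
  · have := pos_le h hv.1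
    exact ev v hv (pos v / 2) (by omega) ((row_iff h (by omega)).2 ⟨hv.1, by omega⟩)
  obtain ⟨u, u1, S, hS, k⟩ : ∃ u, ((u ∈ F.A.lin 0 F.A.n ∨ u ∈ F.B.lin 0 F.B.n) ∨
      ∃ e ≤ F.A.n, u ∈ F.row e) ∧ ∃ S ⊆ {x | x ∈ F.dom Z ∧ pos x = pos v}, Link H (S ∪ {u}) v u := by
    rcases hv.1 with (k | k) | k
    · obtain ⟨e, he, u, hu, l⟩ := h.att v k
      exact ⟨u, .inr ⟨e, he, low_row hu⟩, _, fun x c => ⟨.inl (.inl c.1), c.2⟩, l⟩
    · obtain ⟨u, hu, l⟩ := h.bas.a.att v k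
      exact ⟨u, hu.imp .inl fun ⟨e, he, c⟩ => ⟨e, he, .inl (.inl c)⟩, _, fun x c =>
        ⟨.inl (.inr c.1), by rw [h.kap.1 x c.1, h.kap.1 v k, c.2]⟩, l⟩
    · obtain ⟨u, hu, l⟩ := h.bas.b.att v k
      exact ⟨u, hu.imp .inr fun ⟨e, he, c⟩ => ⟨e, h.bas.n ▸ he, .inr c⟩, _, fun x c =>
        ⟨.inr c.1, by rw [h.kap.2 x c.1, h.kap.2 v k, c.2]⟩, l⟩
  have ud : u ∈ F.dom Z := by
    rcases u1 with (c | c) | ⟨e, he, c⟩
    exacts [.inl (.inr (lin_mem h.bas.a c)), .inr (lin_mem h.bas.b c), ((row_iff h he).1 c).1]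
  have st := last h hS ud k
  have ur : u ∈ Rg (F.dom Z) pos i j := ⟨ud, by have := hv.2; unfold LSt at st; clear * - this st c; omega⟩
  have sS : S ⊆ Rg (F.dom Z) pos i j := fun x c => ⟨(hS c).1, (hS c).2 ▸ hv.2⟩
  have k' := k.mono (union_subset sS (singleton_subset_iff.2 ur))
  rcases u1 with c | ⟨e, he, c⟩
  · exact ⟨u, ur, c, k'⟩
  · obtain ⟨x, x1, x2, x3⟩ := ev u ur e he c
    exact ⟨x, x1, x2, k'.trans x3⟩

theorem ab {w K : ℕ} (t : Top H F Z) (hn : F.A.n = 2 * w + K + 3) :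
    Ab (res H (F.dom Z)) (F.dom Z) pos w K (F.A.o 0) (F.A.o (w + 1)) (F.A.o (w + K + 2))
      (F.A.o (2 * w + K + 3)) (F.B.o 0) (F.B.o (w + 1)) (F.B.o (w + K + 2)) (F.B.o (2 * w + K + 3))
      (op F.A 0 w) (op F.A (w + 1) K) (op F.A (w + K + 2) w) (op F.B 0 w) (op F.B (w + 1) K)
      (op F.B (w + K + 2) w) := by
  have hb := h.bas.n.trans hn
  have da := lin_dec hn
  have db := lin_dec hb
  have om : ∀ u m x, u + m + 1 ≤ F.A.n → x ∈ op F.A u m ∨ x ∈ op F.B u m →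
      x ∈ F.dom Z ∧ 2 * u < pos x ∧ pos x < 2 * (u + m + 1) := fun u m x k c => by
    rcases c with c | c
    · have := op_mem h.bas.a k c
      exact ⟨.inl (.inr this.1), h.kap.1 x this.1 ▸ this.2⟩
    · have := op_mem h.bas.b (h.bas.n ▸ k) c
      exact ⟨.inr this.1, h.kap.2 x this.1 ▸ this.2⟩
  have oo : ∀ e ≤ F.A.n, ∀ x, x = F.A.o e ∨ x = F.B.o e → x ∈ F.dom Z ∧ pos x = 2 * e := by
    rintro e he x (rfl | rfl)
    exacts [(row_iff h he).1 (.inl (.inl (o_col h.bas.a he))),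
      (row_iff h he).1 (.inr (o_col h.bas.b (h.bas.n ▸ he)))]
  have cr : ∀ e ≤ F.A.n, Conn (res H (F.dom Z)) (Rg (F.dom Z) pos e e) := fun e he =>
    conn_on (row_eq h he ▸ row_conn h he) fun u k v k' c => ⟨c, k.1, k'.1⟩
  refine ⟨fun u v k => k.2.1, List.nodup_append.2 ⟨?_, ?_, ?_⟩, fun x k => ?_, fun x k => ?_,
    fun x k => ?_, oo 0 (by omega), oo _ (by omega), oo _ (by omega), oo _ (by omega),
    cr _ (by omega), cr _ (by omega), fun i j v hv => ?_, fun k => t ?_⟩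
  · exact (da ▸ h.bas.a.nd).sublist
      ((List.sublist_cons_self _ _).trans (List.sublist_append_left _ _))
  · exact (db ▸ h.bas.b.nd).sublist
      ((List.sublist_cons_self _ _).trans (List.sublist_append_left _ _))
  · rintro x k _ k' rfl
    exact disjoint_left.1 h.bas.dis.1
      (lin_mem h.bas.a (da ▸ List.mem_append_left _ (List.mem_cons_of_mem _ k)))
      (lin_mem h.bas.b (db ▸ List.mem_append_left _ (List.mem_cons_of_mem _ k')))
  · have := om 0 w x (by omega) k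
    exact ⟨this.1, by omega⟩
  · have := om _ K x (by omega) k
    exact ⟨this.1, by omega⟩
  · have := om _ w x (by omega) k
    exact ⟨this.1, by omega⟩
  · obtain ⟨x, x1, x2, x3⟩ := reach h i j hv
    refine ⟨x, x1, ?_, link_on x3 fun u k v k' c => ⟨c, k.1, k'.1⟩⟩
    rw [da, db] at x2
    simp only [List.mem_append, List.mem_cons, List.not_mem_nil, or_false] at x2
    clear * - x2
    tauto
  · rw [PD.opn, PD.opn, da, db, row_eq h (Nat.zero_le _), row_eq h le_rfl, hn]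
    simpa only [List.cons_append, List.tail_cons, List.dropLast_concat] using
      px_on k fun _ _ _ _ c => c.1

theorem half {G : FD V} {q : V → ℕ} {ι : ℕ → ℕ} {w : ℕ} {HL Hm : SimpleGraph V}
    {UL Um U' R : Set V} {a b : V} {L S L' mid : List V}
    (c : Pc (res H (F.dom Z)) HL Hm UL Um R (G.row 0) a b L S L') (tm : Tight Hm Um)
    (hd : UL ⊆ F.dom Z) (hU : UL ⊆ U') (hR : ∀ v ∈ F.dom Z, q v ≤ 2 * w → v ∈ R)
    (far : ∀ u ∈ UL, 0 < q u → 0 < pos u ∧ pos u < 2 * F.A.n) (na : G.A.n = w) (nb : G.B.n = w)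
    (hι : ∀ e ≤ w, ι e ≤ F.A.n ∧ (∀ v, v ∈ G.row e ↔ v ∈ F.row (ι e)) ∧ F.low (ι e) ⊆ G.low e ∧
      G.J e = F.J (ι e) ∧ Touch H (G.J e) (G.A.C 0 e) ∧ Touch H (G.J e) (G.B.C 0 e) ∧
      ∀ v ∈ F.dom Z, (q v = 2 * e ↔ pos v = 2 * ι e))
    (sur : ∀ e, ∀ v ∈ F.dom Z, pos v = 2 * e → q v ≤ 2 * w → ∃ e' ≤ w, ι e' = e)
    (qq : ∀ u ∈ F.dom Z, ∀ v ∈ F.dom Z, (pos u = pos v → q u = q v) ∧
      (LSt (pos u) (pos v) → LSt (q u) (q v)))
    (pa : ∀ v ∈ G.A.P, v ∈ F.A.P ∪ F.B.P ∧ q v ≤ 2 * w ∧ q v = G.A.κ v)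
    (pb : ∀ v ∈ G.B.P, v ∈ F.A.P ∪ F.B.P ∧ q v ≤ 2 * w ∧ q v = G.B.κ v)
    (pz : ∀ v ∈ F.A.P ∪ F.B.P, q v ≤ 2 * w → v ∈ G.A.P ∪ G.B.P)
    (el : (G.A.lin 0 w).tail ++ mid ++ (G.B.lin 0 w).tail.reverse = L ++ S ++ L')
    (ha : a = G.A.o 0 ∨ a = G.B.o 0) (hb : b = G.A.o 0 ∨ b = G.B.o 0)
    (hm : ∀ v ∈ mid, 2 * w < q v) :
    Half H (res H (U \ D) \ Hm) U' G UL (fun v => min (q v) (2 * w + 1)) mid := by
  have pd : F.A.P ∪ F.B.P ⊆ F.dom Z := fun x k => k.elim (fun k => .inl (.inr k)) .inr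
  have zp : ∀ x ∈ Z, x ∉ F.A.P ∪ F.B.P := fun x k k' =>
    k'.elim (fun k' => (h.bas.a.sub k').2 (h.z.1 k).1) fun k' => (h.bas.b.sub k').2 (h.z.1 k).1
  have gp : G.A.P ∪ G.B.P ⊆ F.A.P ∪ F.B.P := fun x k => k.elim (fun k => (pa x k).1) fun k => (pb x k).1
  have inL : ∀ v ∈ F.dom Z, q v ≤ 2 * w → v ∈ UL := fun v k k' => (c.rg (hR v k k')).1
  have kp : ∀ u ∈ F.dom Z, q u ≤ 2 * w → ∀ v ∈ F.dom Z, H.Adj u v →
      (res H (U \ D) \ Hm).Adj u v := fun u k k' v j e =>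
    ⟨⟨e, dom_sub h k, dom_sub h j⟩, fun d => (c.rg (hR u k k')).2 (tm _ _ d)⟩
  have ml : ∀ v ∈ L ++ S ++ L', v ∈ UL := fun v k => by
    simp only [List.mem_append] at k
    rcases k with (k | k) | k
    exacts [(c.lt v (.inl k)).1, (c.int.symm ▸ k : v ∈ UL ∩ Um).1, (c.lt v (.inr k)).1]
  subst na
  refine ⟨hU, nb, fun v _ => min_le_right _ _, fun e he v => ?_,
    ⟨fun v k => ⟨inL v (pd (pa v k).1) (pa v k).2.1, by have := (pa v k).2; omega⟩,
      fun v k => ⟨inL v (pd (pb v k).1) (pb v k).2.1, by have := (pb v k).2; omega⟩⟩,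
    fun e he => ?_, fun u k k' v j => kp u (hd k) (by omega) v (hd j), fun u k k' v e => ?_,
    fun u k v j e => ?_, ⟨(el ▸ c.nd).sublist
      ((List.sublist_append_right _ _).trans (List.sublist_append_left _ _)), fun v k =>
      ⟨ml v (el ▸ List.mem_append_left _ (List.mem_append_right _ k)), by have := hm v k; omega⟩⟩,
    fun v k k' => ?_, fun v k => ?_, fun k => c.flat ?_⟩
  · obtain ⟨h1, h2, -, -, -, -, h3⟩ := hι e he
    rw [h2, row_iff h h1]
    exact ⟨fun k => have := (h3 v k.1).2 k.2; ⟨inL v k.1 (by omega), by omega⟩,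
      fun k => ⟨hd k.1, (h3 v (hd k.1)).1 (by have := k.2; omega)⟩⟩
  · obtain ⟨h1, -, -, h2, h3, h4, -⟩ := hι e he
    exact ⟨h2 ▸ (h.bas.j _ h1).2.1, h3, h4,
      disjoint_left.2 fun x k k' => zp x (h.z.2 _ h1 (h2 ▸ k)) (gp k')⟩
  · obtain ⟨f1, f2⟩ := far u k (by omega)
    exact (c.ed u k v ⟨e.1.1, hd k, (h.clo u (hd k) f1 f2 v e.1.1).resolve_right e.1.2.2.2⟩ e.2).2
  · have := (qq u (hd k) v (hd j)).2 (h.stp u (hd k) v (hd j) e.1.1)
    unfold LSt at this ⊢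
    omega
  · have vz : v ∈ Z := by
      rcases hd k.1 with (j | j) | j
      exacts [j, absurd (pz v (.inl j) (by omega)) k.2, absurd (pz v (.inr j) (by omega)) k.2]
    obtain ⟨e, he, u, hu, l⟩ := h.att v vz
    obtain ⟨u1, u2⟩ := (row_iff h he).1 (low_row hu)
    have st := (qq v (hd k.1) u u1).2 (last h (fun x c => ⟨.inl (.inl c.1), c.2⟩) u1 l)
    have qu : q u ≤ 2 * G.A.n := by
      unfold LSt at st
      omega
    obtain ⟨e', he', rfl⟩ := sur e u u1 u2 qu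
    have al : ∀ x ∈ {x | x ∈ Z ∧ pos x = pos v} ∪ {u}, x ∈ F.dom Z ∧ q x ≤ 2 * G.A.n := by
      rintro x (j | rfl)
      · have := (qq x (.inl (.inl j.1)) v (hd k.1)).1 j.2
        exact ⟨.inl (.inl j.1), by omega⟩
      · exact ⟨u1, qu⟩
    refine ⟨e', he', u, (hι e' he').2.2.1 hu, (link_on l fun x j y j' =>
      kp x (al x j).1 (al x j).2 y (al y j').1).mono (union_subset_union_left _ fun x j => ?_)⟩
    exact ⟨⟨inL x (al x (.inl j)).1 (al x (.inl j)).2, fun d => zp x j.1 (gp d)⟩,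
      by simp only [(qq x (.inl (.inl j.1)) v (hd k.1)).1 j.2]⟩
  · obtain ⟨x, x1, x2, x3⟩ := c.lnk v k
    refine ⟨k, x, ?_, x1, link_on x3 fun u j y j' e => ⟨⟨(c.le e).1, dom_sub h (hd j),
      dom_sub h (hd j')⟩, fun d => (disjoint_iff.1 c.dis ▸ ⟨e, d⟩ : (⊥ : SimpleGraph V).Adj u y)⟩⟩
    rw [← el] at x2
    rw [mem_ls, lin_cons (p := G.A), lin_cons (p := G.B)]
    simp only [List.mem_append, List.mem_cons, List.mem_reverse] at x2 ⊢
    clear * - x2 ha hb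
    grind
  · rw [← el]
    exact px_on k fun u j v j' e => (c.ed u j v ⟨e.1.1, hd j, hd j'⟩ e.2).1

end str

end SeamAux

open SeamAux

theorem seamS : NfS → PanS → CutPS → SeamS := by
  intro hn hp hc V _ H U I D F Z pos w K h t n
  have nb := h.bas.n.trans n
  obtain ⟨Y1, Y2, HL, Hm, HR, UL, Um, UR, le, un, d, ad, cl, cr, rm, soc, fm⟩ := three hn hc (ab h t n)
  have dl : UL ⊆ F.dom Z := un ▸ subset_union_left.trans subset_union_left
  have dm : Um ⊆ F.dom Z := un ▸ subset_union_right.trans subset_union_left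
  have dr : UR ⊆ F.dom Z := un ▸ subset_union_right
  have il : ∀ v ∈ F.dom Z, pos v ≤ 2 * w → v ∈ Rg (F.dom Z) pos 0 w :=
    fun v k k' => ⟨k, by omega, k'⟩
  have ir : ∀ v ∈ F.dom Z, 2 * (w + K + 3) ≤ pos v → v ∈ Rg (F.dom Z) pos (w + K + 3) (2 * w + K + 3) :=
    fun v k k' => ⟨k, k', n ▸ pos_le h k⟩
  have um : ∀ v ∈ Um, v ∈ F.dom Z ∧ 2 * w < pos v ∧ pos v < 2 * (w + K + 3) := fun v k =>
    ⟨dm k, not_le.1 fun c => (cl.rg (il v (dm k) c)).2 k, not_le.1 fun c => (cr.rg (ir v (dm k) c)).2 k⟩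
  have s2 : UR ∩ Um = ls (F.A.o (w + K + 2) :: Y2 ++ [F.B.o (w + K + 2)]) :=
    cr.int.trans (Set.ext fun _ => List.mem_reverse)
  have w2 : UL ∪ UR = F.dom Z ∩ ((U \ D) \ Um ∪ (UL ∩ Um ∪ UR ∩ Um)) := by
    ext x
    have t0 := @dom_sub _ _ _ _ _ _ _ _ h x
    have t1 := Set.ext_iff.1 un x
    simp only [mem_union, mem_inter_iff, mem_sdiff] at t0 t1 ⊢
    clear * - t0 t1
    tauto
  have lm : ∀ p : PD V, p.lin (w + 1) (K + 1) = p.o (w + 1) :: op p (w + 1) K ++ [p.o (w + K + 2)] :=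
    fun p => by rw [lin_succ, show w + 1 + (K + 1) = w + K + 2 by omega]
  have sa : ∀ e < F.A.n, ∀ v, v ∈ F.A.seg e ∨ v ∈ F.B.seg e → pos v = 2 * e + 1 := by
    rintro e he v (k | k)
    · exact (h.kap.1 v (h.bas.a.seg e he v k).1).trans (h.bas.a.seg e he v k).2.2
    · have := h.bas.b.seg e (h.bas.n ▸ he) v k
      exact (h.kap.2 v this.1).trans this.2.2
  have rv : ∀ p : PD V, Pan H U I p → p.n = 2 * w + K + 3 →
      (((p.sub (w + K + 3) w).rev).lin 0 w).tail = (pre p (w + K + 2 + 1) w).reverse := by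
    intro p k e
    obtain ⟨k1, k2⟩ := ((hp V H U I).2 p k).2 (w + K + 3) w (by omega)
    rw [((hp V H U I).2 _ k1).1.2 0 w (by simp [PD.sub]), k2, lin_pre]
    simp [PD.sub]
  have sb : ∀ p : PD V, Pan H U I p → p.n = 2 * w + K + 3 → (p.sub 0 w).lin 0 w = p.lin 0 w :=
    fun p k e => (((hp V H U I).2 p k).2 0 w (by omega)).2 0 w
  refine ⟨⟨w, K, Hm, res H (U \ D) \ Hm, Um, (U \ D) \ Um ∪ (UL ∩ Um ∪ UR ∩ Um), Y1, Y2, UL, UR,
    fun v => min (pos v) (2 * w + 1), fun v => min (2 * F.A.n - pos v) (2 * w + 1)⟩, rfl, rfl, n,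
    ⟨sdiff_sup_cancel fun u v e => ⟨(le e).1, dom_sub h (le e).2.1, dom_sub h (le e).2.2⟩,
      disjoint_sdiff_self_left, fun u v e => ?_, soc.tight, ?_, ?_⟩, ?_, um, fun e h1 h2 v k => ?_,
    ?_, ?_, ⟨d, w2⟩, ⟨fun _ _ => rfl, fun v k k' => (cl.rg (il v k k')).1⟩,
    ⟨fun _ _ => rfl, fun v k k' => (cr.rg (ir v k k')).1⟩⟩
  · by_cases c : u ∈ Um
    · have := um u c
      have k := (h.clo u this.1 (by omega) (by omega) v e.1.1).resolve_right e.1.2.2.2
      exact .inr ((ad u v ⟨e.1.1, this.1, k⟩ e.2).imp (⟨·, c⟩) (⟨·, c⟩))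
    · exact .inl ⟨e.1.2.1, c⟩
  · exact Subset.antisymm (union_subset (union_subset sdiff_subset (union_subset
      (inter_subset_right.trans (dm.trans (dom_sub h))) (inter_subset_right.trans
      (dm.trans (dom_sub h))))) (dm.trans (dom_sub h))) fun x k =>
      (em (x ∈ Um)).symm.imp_left fun c => .inl ⟨k, c⟩
  · change _ = ls (F.A.o (w + 1) :: Y1 ++ [F.B.o (w + 1)]) ∪
      ls (F.A.o (w + K + 2) :: Y2 ++ [F.B.o (w + K + 2)])
    rw [← cl.int, ← s2]
    ext x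
    simp only [mem_union, mem_inter_iff, mem_sdiff]
    clear * -
    tauto
  · simp only [SD.Lm, lm]
    exact ⟨soc, fm⟩
  · have j := (row_iff h (by change _ < w + K + 2 at h2; omega)).1 k
    have j' := rm ⟨j.1, by change w + 1 < _ at h1; omega, by change _ < w + K + 2 at h2; omega⟩
    exact ⟨j'.1, fun c => j'.2 (w2.superset ⟨j.1, c⟩)⟩
  · refine half h (G := F.sub 0 w) (q := pos) (ι := fun e => 0 + e) (w := w)
      (row_eq h (Nat.zero_le _) ▸ cl) soc.tight dl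
      (fun x k => (w2.subset (.inl k)).2) il (fun u k k' => ⟨k', not_le.1 fun c =>
        disjoint_left.1 d k (cr.rg (ir u (dl k) (by omega))).1⟩) rfl rfl
      (fun e he => ⟨by omega, fun _ => Iff.rfl, subset_rfl, rfl, (h.bas.j _ (by omega)).2.2.1,
        (h.bas.j _ (by omega)).2.2.2, fun v _ => by omega⟩)
      (fun e v _ k k' => ⟨e, by omega, by omega⟩) (fun _ _ _ _ => ⟨id, id⟩)
      (fun v k => ⟨.inl k.1, by have := h.kap.1 v k.1; have := k.2.2; omega, h.kap.1 v k.1⟩)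
      (fun v k => ⟨.inr k.1, by have := h.kap.2 v k.1; have := k.2.2; omega, h.kap.2 v k.1⟩)
      (fun v k k' => k.imp (fun k => ⟨k, by omega, by have := h.kap.1 v k; omega⟩)
        fun k => ⟨k, by omega, by have := h.kap.2 v k; omega⟩) ?_ (.inl rfl) (.inr rfl) fun v k => ?_
    · change ((F.A.sub 0 w).lin 0 w).tail ++ _ ++ ((F.B.sub 0 w).lin 0 w).tail.reverse = _
      rw [sb _ h.bas.a n, sb _ h.bas.b nb, ← tail_op, ← tail_op]
      simp [SD.midL, SD.s1]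
    · simp only [SD.midL, List.mem_append, List.mem_reverse] at k
      rcases k with (k | k) | k
      · exact (sa w (by omega) v (.inl k)).symm ▸ Nat.lt_succ_self _
      · exact (um v (cl.int.superset k).2).2.1
      · exact (sa w (by omega) v (.inr k)).symm ▸ Nat.lt_succ_self _
  · have e0 : (F.sub (w + K + 3) w).rev.swap.row 0 =
        Rg (F.dom Z) pos (2 * w + K + 3) (2 * w + K + 3) := by
      rw [← row_eq h n.ge, show 2 * w + K + 3 = w + K + 3 + (w - 0) by omega]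
      exact (union_comm _ _).trans ((congrArg _ (union_comm _ _)).trans (union_assoc _ _ _).symm)
    refine half h (G := (F.sub (w + K + 3) w).rev.swap) (q := fun v => 2 * F.A.n - pos v)
      (ι := fun e => w + K + 3 + (w - e)) (w := w) (e0 ▸ cr) soc.tight dr
      (fun x k => (w2.subset (.inr k)).2) (fun v k k' => ir v k (by omega))
      (fun u k k' => ⟨not_le.1 fun c => disjoint_right.1 d k (cl.rg (il u (dr k) (by omega))).1,
        by omega⟩) rfl rfl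
      (fun e he => ⟨by omega, fun _ => or_comm.trans ((or_congr_right or_comm).trans or_assoc.symm),
        fun _ k => or_assoc.2 ((or_congr_right or_comm).1 (or_comm.1 k)), rfl,
        (h.bas.j (w + K + 3 + (w - e)) (by omega)).2.2.2,
        (h.bas.j (w + K + 3 + (w - e)) (by omega)).2.2.1, fun v k => by have := pos_le h k; omega⟩)
      (fun e v j k k' => ⟨F.A.n - e, by omega, by have := pos_le h j; omega⟩)
      (fun u k v k' => ⟨fun e => by rw [e], fun e => by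
        have := pos_le h k
        have := pos_le h k'
        unfold LSt at e ⊢
        omega⟩)
      (fun v k => ⟨.inr k.1, by have := h.kap.2 v k.1; have := k.2.1; omega, by
        have := h.kap.2 v k.1
        have := k.2.1
        change _ = 2 * w - (F.B.κ v - 2 * (w + K + 3))
        omega⟩)
      (fun v k => ⟨.inl k.1, by have := h.kap.1 v k.1; have := k.2.1; omega, by
        have := h.kap.1 v k.1
        have := k.2.1
        change _ = 2 * w - (F.A.κ v - 2 * (w + K + 3))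
        omega⟩)
      (fun v k k' => k.symm.imp
        (fun k => ⟨k, by have := h.kap.2 v k; omega, by have := (h.bas.b.rng v k).2; omega⟩)
        fun k => ⟨k, by have := h.kap.1 v k; omega, by have := (h.bas.a.rng v k).2; omega⟩) ?_
      (.inr (congrArg F.A.o (by change _ = w + K + 3 + (w - 0); omega)))
      (.inl (congrArg F.B.o (by change _ = w + K + 3 + (w - 0); omega))) fun v k => ?_
    · change ((F.B.sub (w + K + 3) w).rev.lin 0 w).tail ++ _ ++
        ((F.A.sub (w + K + 3) w).rev.lin 0 w).tail.reverse = _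
      rw [rv _ h.bas.a n, rv _ h.bas.b nb]
      simp [SD.midR, SD.s2, op]
    · simp only [SD.midR, List.mem_append, List.mem_reverse] at k
      rcases k with (k | k) | k
      · have := sa _ (by omega) v (.inr k)
        omega
      · have := (um v (s2.superset k).2).2.2
        omega
      · have := sa _ (by omega) v (.inl k)
        omega

end Pool.Agent.MP_9d78a0_co.st

end MrgPart1

-- ======== part 2: formerly Pool.Agent.MP_9d78a0_co.st.Xblk
section MrgPart2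

/-! Many crosses in a strip of a cylinder. -/

set_option autoImplicit false

namespace Pool.Agent.MP_9d78a0_co.st

open Set Function fb

namespace xblk

variable {V : Type} {G : SimpleGraph V} {N p : ℕ} {C : ℕ → ℕ → Set V}

/-- the row, the column and the neighbouring column of the strip for a position -/
def rw (N x : ℕ) : ℕ := if x < N then x else 2 * N - 1 - x

def cl (N x : ℕ) : ℕ := if x < N then 0 else 3 * N + 4

def sc (N p x : ℕ) : ℕ := if x < N then p - 1 else 3 * N + 5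

theorem cell (hC : Cyl G univ N p C) {i j i' j' : ℕ} {v : V} (h : v ∈ C i j) (h' : v ∈ C i' j')
    (hi : i < N) (hj : j < p) (hi' : i' < N) (hj' : j' < p) : i = i' ∧ j = j' := by
  by_contra c
  exact disjoint_left.1 (hC.dis i hi j hj i' hi' j' hj' fun e => c (Prod.mk.inj e)) h h'

theorem hor (hC : Cyl G univ N p C) {i j : ℕ} (hi : i < N) (hj : j + 1 < p) :
    Touch G (C i j) (C i (j + 1)) := by
  have := hC.hor i hi j (by omega)
  rwa [Nat.mod_eq_of_lt hj] at this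

theorem exists_ob (hC : Cyl G univ N p C) (hp : 3 * N + 5 < p) (hN : 0 < N) :
    ∃ ob : ℕ → V, ∀ x < 2 * N, ob x ∈ C (rw N x) (cl N x) ∧
      ∃ y ∈ C (rw N x) (sc N p x), G.Adj (ob x) y := by
  have key : ∀ x < 2 * N, ∃ u ∈ C (rw N x) (cl N x), ∃ y ∈ C (rw N x) (sc N p x), G.Adj u y := by
    intro x hx
    unfold rw cl sc
    split_ifs with c
    · have := hC.hor x c (p - 1) (by omega)
      rw [show p - 1 + 1 = p by omega, Nat.mod_self] at this
      exact this.symm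
    · exact hor hC (by omega) (by omega)
  have : Nonempty V := ⟨(hC.conn 0 hN 0 (by omega)).2.1.some⟩
  choose! ob h1 h2 using key
  exact ⟨ob, fun x hx => ⟨h1 x hx, h2 x hx⟩⟩

theorem mesh {i j : ℕ} {v : V} (h : v ∈ C i j) (hi : i < N) (hj : j < p) : v ∈ Mesh C N p :=
  ⟨i, hi, j, hj, h⟩

theorem conn_row (hC : Cyl G univ N p C) {i c : ℕ} (hi : i < N) (hc : c < p) :
    Conn G (blk C i (i + 1) c p) := by
  have h := conn_chain (G := G) (S := fun j => C i j) (a := c) (b := p - 1) (by omega)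
    (fun j hj => (hC.conn i hi j (by have := hj.2; omega)).2)
    fun j _ _ => Or.inr (hor hC hi (by omega))
  have e : blk C i (i + 1) c p = ⋃ j ∈ Icc c (p - 1), C i j := by
    ext v
    simp only [blk, mem_ofPred_eq, mem_iUnion, mem_Icc]
    constructor
    · rintro ⟨i', j, h1, h2, h3, h4, h5⟩
      obtain rfl : i' = i := by omega
      exact ⟨j, ⟨h3, by omega⟩, h5⟩
    · rintro ⟨j, ⟨h1, h2⟩, h3⟩
      exact ⟨i, j, le_rfl, by omega, h1, by omega, h3⟩
  rwa [e]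

/-- a set with two more vertices -/
def ad (ob : ℕ → V) (S : Set V) (x y : ℕ) : Set V := insert (ob x) (insert (ob y) S)

theorem ad_dis {ob : ℕ → V} {n : ℕ} (hi : ∀ x < n, ∀ y < n, ob x = ob y → x = y) {S S' : Set V}
    (h : Disjoint S S') (h1 : ∀ x < n, ob x ∉ S) (h2 : ∀ x < n, ob x ∉ S') {x y x' y' : ℕ}
    (hx : x < n) (hy : y < n) (hx' : x' < n) (hy' : y' < n)
    (e : x ≠ x' ∧ x ≠ y' ∧ y ≠ x' ∧ y ≠ y') : Disjoint (ad ob S x y) (ad ob S' x' y') := by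
  rw [disjoint_left]
  rintro v (rfl | rfl | hv) (hv' | hv' | hv')
  · exact e.1 (hi _ hx _ hx' hv')
  · exact e.2.1 (hi _ hx _ hy' hv')
  · exact h2 _ hx hv'
  · exact e.2.2.1 (hi _ hy _ hx' hv')
  · exact e.2.2.2 (hi _ hy _ hy' hv')
  · exact h2 _ hy hv'
  · exact h1 _ hx' (hv' ▸ hv)
  · exact h1 _ hy' (hv' ▸ hv)
  · exact disjoint_left.1 h hv hv'

theorem univ_of (hK : KhS) {h : ℕ} (hG : NoK h G) (hC : Cyl G univ N p C) (hp : 3 * N + 5 < p)
    (hN : h * h ≤ N) {ob : ℕ → V} (ho : ∀ x < 2 * N, ob x ∈ C (rw N x) (cl N x)) :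
    Univ G h (2 * N) ((Mesh C N p)ᶜ ∪ blk C 0 N (3 * N + 5) p ∪ ob '' Ico (h * h) (2 * N)) ob := by
  have hr : ∀ x < 2 * N, rw N x < N ∧ cl N x < p := fun x hx => by
    unfold rw cl
    split_ifs <;> omega
  have key : ∀ i < N, ∀ j < 3 * N + 5, ∀ v ∈ C i j,
      v ∈ (Mesh C N p)ᶜ ∪ blk C 0 N (3 * N + 5) p ∪ ob '' Ico (h * h) (2 * N) →
      ∃ x, h * h ≤ x ∧ x < 2 * N ∧ ob x = v ∧ i = rw N x ∧ j = cl N x := by
    rintro i hi j hj v hv ((c | ⟨i', j', -, a1, a2, a3, a4⟩) | ⟨x, hx, rfl⟩)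
    · exact absurd (mesh hv hi (by omega)) c
    · have := cell hC hv a4 hi (by omega) a1 a3
      omega
    · exact ⟨x, hx.1, hx.2, rfl, cell hC hv (ho x hx.2) hi (by omega) (hr x hx.2).1 (hr x hx.2).2⟩
  refine hK V G h (2 * N) N _ ob (fun z => C z.1 (z.2 + 1)) (fun x => C (rw N x) (cl N x)) hG
    (by omega) hN le_rfl (fun z h1 h2 => ⟨(hC.conn _ h1 _ (by omega)).2, ?_, fun x hx => ?_,
      fun z' h3 h4 => ⟨fun e => ?_, fun e => ?_⟩⟩)
    fun x hx => ⟨(hC.conn _ (hr x hx).1 _ (hr x hx).2).2, ?_, fun y hy e => ?_, fun e => ?_,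
      fun e => ?_, fun e => ?_⟩
  · refine disjoint_left.2 fun v hv hw => ?_
    obtain ⟨x, -, -, -, -, e⟩ := key _ h1 _ (by omega) v hv hw
    unfold cl at e
    split_ifs at e <;> omega
  · refine hC.dis _ h1 _ (by omega) _ (hr x hx).1 _ (hr x hx).2 fun e => ?_
    have := (Prod.mk.inj e).2
    unfold cl at this
    split_ifs at this <;> omega
  · refine hC.dis _ h1 _ (by omega) _ h3 _ (by omega) fun c => e ?_
    have := Prod.mk.inj c
    exact Prod.ext this.1 (by omega)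
  · rcases e with ⟨e1, e | e⟩ | ⟨e1, e | e⟩
    · rw [← e1, ← e]; exact hor hC h1 (by omega)
    · rw [e1, ← e]; exact (hor hC h3 (by omega)).symm
    · rw [← e1, ← e]; exact hC.ver _ (by omega) _ (by omega)
    · rw [e1, ← e]; exact (hC.ver _ (by omega) _ (by omega)).symm
  · unfold rw cl node
    split_ifs with c
    · exact hor hC c (by omega)
    · exact (hor hC (by omega) (by omega)).symm
  · refine hC.dis _ (hr x hx).1 _ (hr x hx).2 _ (hr y hy).1 _ (hr y hy).2 fun c => ?_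
    obtain ⟨e1, e2⟩ := Prod.mk.inj c
    unfold rw at e1
    unfold cl at e2
    split_ifs at e1 e2 <;> omega
  · unfold rw cl
    rw [if_pos (by omega), if_pos (by omega), if_pos (by omega), if_pos (by omega)]
    exact hC.ver _ (by omega) _ (by omega)
  · refine disjoint_left.2 fun v hv hw => ?_
    obtain ⟨y, a1, a2, -, a3, a4⟩ := key _ (hr x hx).1 _ (by unfold cl; split_ifs <;> omega) v hv hw
    unfold rw at a3
    unfold cl at a4
    split_ifs at a3 a4 <;> omega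
  · refine Subset.antisymm (fun v hv => ?_) ?_
    · obtain ⟨y, a1, a2, rfl, a3, a4⟩ :=
        key _ (hr x hx).1 _ (by unfold cl; split_ifs <;> omega) v hv.1 hv.2
      have : y = x := by
        unfold rw at a3
        unfold cl at a4
        split_ifs at a3 a4 <;> omega
      rw [this]; rfl
    · rintro v rfl
      exact ⟨ho x hx, Or.inr ⟨x, ⟨e, hx⟩, rfl⟩⟩

end xblk

open xblk

theorem xblkS : KhS → XbS → XblkS := by
  intro hK hX h
  obtain ⟨w, Q, -, H⟩ := hX h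
  refine ⟨w, Q + 1, fun V G N p C X X' lo hi a a' b b' hG hC hp h1 h2 => ?_⟩
  have hN : h * h < N := by
    have := h1 0 (by omega)
    omega
  obtain ⟨ob, ho⟩ := exists_ob hC hp (by omega)
  have hU := univ_of hK hG hC hp hN.le fun x hx => (ho x hx).1
  generalize hk : h * h = k at *
  have hr : ∀ x < 2 * N, rw N x < N ∧ cl N x < 3 * N + 5 := fun x hx => by
    unfold rw cl
    split_ifs <;> omega
  have hinj : ∀ x < 2 * N, ∀ y < 2 * N, ob x = ob y → x = y := fun x hx y hy e => by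
    obtain ⟨e1, e2⟩ := cell hC (ho x hx).1 (e ▸ (ho y hy).1) (hr x hx).1
      (by have := hr x hx; omega) (hr y hy).1 (by have := hr y hy; omega)
    unfold rw at e1
    unfold cl at e2
    split_ifs at e1 e2 <;> omega
  have nb : ∀ i0 i1, i1 ≤ N → ∀ x < 2 * N, ob x ∉ blk C i0 i1 (3 * N + 5) p := by
    rintro i0 i1 a0 x hx ⟨i, j, -, a1, a2, a3, a4⟩
    have := hr x hx
    have := cell hC (ho x hx).1 a4 this.1 (by omega) (by omega) a3
    omega
  have nX : ∀ s < Q + 1, ∀ x < 2 * N, ob x ∉ X s ∪ X' s := fun s hs x hx c => by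
    have a1 := h1 s hs
    have a2 := hr x hx
    exact nb _ _ (by omega) x hx
      (a1.2.2.2.2.2.2.2.2.2.2.2.2.2 ⟨c, mesh (ho x hx).1 a2.1 (by omega)⟩)
  have cad : ∀ (S : Set V) (i j : ℕ), i < N → j < N → Conn G S → C i (p - 1) ⊆ S →
      C j (3 * N + 5) ⊆ S → Conn G (ad ob S i (2 * N - 1 - j)) := fun S i j a1 a2 a3 a4 a5 => by
    obtain ⟨-, y, hy, e⟩ := ho i (by omega)
    obtain ⟨-, y', hy', e'⟩ := ho (2 * N - 1 - j) (by omega)
    unfold rw sc at hy hy'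
    rw [if_pos a1, if_pos a1] at hy
    rw [if_neg (by omega), if_neg (by omega), show 2 * N - 1 - (2 * N - 1 - j) = j by omega] at hy'
    exact (a3.insert (a5 hy') e').insert (Or.inr (a4 hy)) e
  have sad : ∀ (S : Set V) (x y : ℕ), k ≤ x → x < 2 * N → k ≤ y → y < 2 * N →
      S ∩ Mesh C N p ⊆ blk C 0 N (3 * N + 5) p → ad ob S x y ⊆
        (Mesh C N p)ᶜ ∪ blk C 0 N (3 * N + 5) p ∪ ob '' Ico k (2 * N) := by
    rintro S x y a1 a2 a3 a4 a5 v (rfl | rfl | hv)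
    · exact Or.inr ⟨x, ⟨a1, a2⟩, rfl⟩
    · exact Or.inr ⟨y, ⟨a3, a4⟩, rfl⟩
    · by_cases c : v ∈ Mesh C N p
      · exact Or.inl (Or.inr (a5 ⟨hv, c⟩))
      · exact Or.inl (Or.inl c)
  have bm : ∀ i0 i1, i1 ≤ N → blk C i0 i1 (3 * N + 5) p ⊆ blk C 0 N (3 * N + 5) p := by
    rintro i0 i1 a0 v ⟨i, j, -, a1, a2⟩
    exact ⟨i, j, Nat.zero_le _, by omega, a2⟩
  refine H V G (2 * N) _ ob (N - k) (fun i => k + i) (fun i => 2 * N - 1 - (k + i))
    (fun i => ad ob (blk C (k + i) (k + i + 1) (3 * N + 5) p) (k + i) (2 * N - 1 - (k + i)))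
    (fun s => ad ob (X s) (a s) (2 * N - 1 - b s)) (fun s => ad ob (X' s) (a' s) (2 * N - 1 - b' s))
    (fun s => lo s - k) (fun s => hi s - k)
    (fun s => ![a s - k, a' s - k, 2 * (N - k) - 1 - (b s - k), 2 * (N - k) - 1 - (b' s - k)])
    hU ⟨⟨fun i hi => ⟨?_, ?_, Or.inl rfl, Or.inr (Or.inl rfl)⟩, fun i a1 j a2 e => ?_⟩,
      fun i j _ _ => by omega, Or.inr fun i j _ _ => by dsimp only; omega, fun i _ j _ => by omega⟩
    (fun s hs => ?_) (fun s t hst ht => ?_) fun r a0 hf s hs => ?_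
  · exact sad _ _ _ (by omega) (by omega) (by omega) (by omega)
      (inter_subset_left.trans (bm _ _ (by omega)))
  · exact cad _ _ _ (by omega) (by omega) (conn_row hC (by omega) hp)
      (fun v hv => ⟨_, _, le_rfl, by omega, by omega, by omega, hv⟩)
      fun v hv => ⟨_, _, le_rfl, by omega, le_rfl, hp, hv⟩
  · refine ad_dis hinj (disjoint_left.2 ?_) (nb _ _ (by omega)) (nb _ _ (by omega)) (by omega)
      (by omega) (by omega) (by omega) (by omega)
    rintro v ⟨i1, j1, b1, b2, -, b3, b4⟩ ⟨i2, j2, c1, c2, -, c3, c4⟩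
    have := cell hC b4 c4 (by omega) b3 (by omega) c3
    omega
  · obtain ⟨hT, a1, a2, a3, a4, a5, a6, a7, a8, c1, c2, c3, c4, c5⟩ := h1 s (by omega)
    have n := nX s (by omega)
    have c6 := c5.trans (bm _ _ (by omega))
    have e0 : sp (N - k) (fun i => k + i) (fun i => 2 * N - 1 - (k + i)) (a s - k) = a s := by
      rw [sp, if_pos (by omega)]; omega
    have e1 : sp (N - k) (fun i => k + i) (fun i => 2 * N - 1 - (k + i)) (a' s - k) = a' s := by
      rw [sp, if_pos (by omega)]; omega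
    have e2 : sp (N - k) (fun i => k + i) (fun i => 2 * N - 1 - (k + i))
        (2 * (N - k) - 1 - (b s - k)) = 2 * N - 1 - b s := by
      rw [sp, if_neg (by omega)]; omega
    have e3 : sp (N - k) (fun i => k + i) (fun i => 2 * N - 1 - (k + i))
        (2 * (N - k) - 1 - (b' s - k)) = 2 * N - 1 - b' s := by
      rw [sp, if_neg (by omega)]; omega
    refine ⟨⟨sad _ _ _ (by omega) (by omega) (by omega) (by omega)
        ((inter_subset_inter_left _ subset_union_left).trans c6),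
      sad _ _ _ (by omega) (by omega) (by omega) (by omega)
        ((inter_subset_inter_left _ subset_union_right).trans c6),
      cad _ _ _ (by omega) (by omega) hT.cp c1 c2, cad _ _ _ (by omega) (by omega) hT.cq c3 c4,
      ad_dis hinj hT.dis (fun x hx c => n x hx (Or.inl c)) (fun x hx c => n x hx (Or.inr c))
        (by omega) (by omega) (by omega) (by omega) (by omega)⟩,
      by omega, by omega, by omega, ?_, fun t => ?_, ?_, ?_, ?_, ?_⟩
    · refine Fin.strictMono_iff_lt_succ.2 fun t => ?_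
      fin_cases t <;> simp <;> omega
    · fin_cases t <;> simp <;> omega
    · exact Or.inl (congrArg ob e0)
    · exact Or.inr (Or.inl (congrArg ob e2))
    · exact Or.inl (congrArg ob e1)
    · exact Or.inr (Or.inl (congrArg ob e3))
  · obtain ⟨d1, d2⟩ := h2 s t hst (by omega)
    obtain ⟨-, a1, a2, a3, a4, a5, a6, a7, a8, -⟩ := h1 s (by omega)
    obtain ⟨-, b1, b2, b3, b4, b5, b6, b7, b8, -⟩ := h1 t (by omega)
    have n := nX s (by omega)
    have n' := nX t (by omega)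
    refine ⟨by omega, ?_⟩
    simp only [disjoint_union_left, disjoint_union_right, mem_union, not_or] at d2 n n' ⊢
    refine ⟨⟨ad_dis hinj d2.1.1 (fun x hx => (n x hx).1) (fun x hx => (n' x hx).1) ?_ ?_ ?_ ?_ ?_,
      ad_dis hinj d2.1.2 (fun x hx => (n x hx).2) (fun x hx => (n' x hx).1) ?_ ?_ ?_ ?_ ?_⟩,
      ad_dis hinj d2.2.1 (fun x hx => (n x hx).1) (fun x hx => (n' x hx).2) ?_ ?_ ?_ ?_ ?_,
      ad_dis hinj d2.2.2 (fun x hx => (n x hx).2) (fun x hx => (n' x hx).2) ?_ ?_ ?_ ?_ ?_⟩ <;> omega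
  · obtain ⟨-, a1, a2, a3, a4, a5, a6, a7, a8, -, -, -, -, c5⟩ := h1 s (by omega)
    have n := nX s (by omega)
    have f := hf s hs
    simp only [mem_Icc] at f
    have d : Disjoint (blk C (k + r) (k + r + 1) (3 * N + 5) p) (X s ∪ X' s) := by
      rw [disjoint_left]
      rintro v ⟨i1, j1, b1, b2, -, b3, b4⟩ hv
      obtain ⟨i2, j2, c1, c2, -, c3, c4⟩ := c5 ⟨hv, mesh b4 (by omega) b3⟩
      have := cell hC b4 c4 (by omega) b3 (by omega) c3
      omega
    simp only [disjoint_union_right, mem_union, not_or] at d n ⊢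
    refine ⟨ad_dis hinj d.1 (nb _ _ ?_) (fun x hx => (n x hx).1) ?_ ?_ ?_ ?_ ?_,
      ad_dis hinj d.2 (nb _ _ ?_) (fun x hx => (n x hx).2) ?_ ?_ ?_ ?_ ?_⟩ <;> omega

end Pool.Agent.MP_9d78a0_co.st

end MrgPart2

-- ======== part 3: formerly Pool.Agent.MP_9d78a0_co.st.DiscA
section MrgPart3

/-! Regions of a square of cells, exits, and the cut between two letters. -/

set_option autoImplicit false

namespace Pool.Agent.MP_9d78a0_co.st

open Set Function fb

namespace disc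

variable {V : Type} {H : SimpleGraph V} {W : Set V} {m : ℕ} {D : ℕ → ℕ → Set V}

/-- the cells selected by `A` -/
def rg (D : ℕ → ℕ → Set V) (m : ℕ) (A : ℕ → ℕ → Prop) : Set V :=
  {v | ∃ i < m, ∃ j < m, A i j ∧ v ∈ D i j}

theorem rg_sub (g : Gr H W m D) {A : ℕ → ℕ → Prop} : rg D m A ⊆ W :=
  fun _ ⟨i, hi, j, hj, _, hv⟩ => (g.conn i hi j hj).1 hv

theorem rg_mono {A B : ℕ → ℕ → Prop} (h : ∀ i < m, ∀ j < m, A i j → B i j) :
    rg D m A ⊆ rg D m B :=
  fun _ ⟨i, hi, j, hj, k, hv⟩ => ⟨i, hi, j, hj, h i hi j hj k, hv⟩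

theorem cell_rg {A : ℕ → ℕ → Prop} {i j : ℕ} (hi : i < m) (hj : j < m) (h : A i j) :
    D i j ⊆ rg D m A := fun _ hv => ⟨i, hi, j, hj, h, hv⟩

theorem rg_dis (g : Gr H W m D) {A B : ℕ → ℕ → Prop}
    (h : ∀ i < m, ∀ j < m, A i j → B i j → False) : Disjoint (rg D m A) (rg D m B) := by
  rw [Set.disjoint_left]
  rintro v ⟨i, hi, j, hj, k, hv⟩ ⟨i', hi', j', hj', k', hv'⟩
  by_cases c : (i, j) = (i', j')
  · obtain ⟨rfl, rfl⟩ := Prod.mk.inj c
    exact h i hi j hj k k'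
  · exact Set.disjoint_left.1 (g.dis i hi j hj i' hi' j' hj' c) hv hv'

/-- a rectangle -/
def rc (a b c d : ℕ) (i j : ℕ) : Prop := a ≤ i ∧ i ≤ b ∧ c ≤ j ∧ j ≤ d

theorem rc_conn (g : Gr H W m D) {a b c d : ℕ} (h1 : a ≤ b) (h2 : b < m) (h3 : c ≤ d)
    (h4 : d < m) : Conn H (rg D m (rc a b c d)) := by
  have row : ∀ i ∈ Icc a b, Conn H (⋃ j ∈ Icc c d, D i j) := fun i hi =>
    conn_chain h3 (fun j hj => (g.conn i (by have := hi.2; omega) j (by have := hj.2; omega)).2)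
      fun j _ _ => Or.inr (g.hor i (by have := hi.2; omega) j (by omega))
  have k := conn_chain (S := fun i => ⋃ j ∈ Icc c d, D i j) h1 row fun i _ _ =>
    Or.inr ((g.ver i (by omega) c (by omega)).mono
      (subset_biUnion_of_mem (u := fun j => D i j) (left_mem_Icc.2 h3))
      (subset_biUnion_of_mem (u := fun j => D (i + 1) j) (left_mem_Icc.2 h3)))
  convert k using 1
  ext v
  simp only [rg, rc, mem_ofPred_eq, mem_iUnion, mem_Icc, exists_prop]
  constructor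
  · rintro ⟨i, -, j, -, ⟨e1, e2, e3, e4⟩, hv⟩
    exact ⟨i, ⟨e1, e2⟩, j, ⟨e3, e4⟩, hv⟩
  · rintro ⟨i, ⟨e1, e2⟩, j, ⟨e3, e4⟩, hv⟩
    exact ⟨i, by omega, j, by omega, ⟨e1, e2, e3, e4⟩, hv⟩

theorem rg_meet (g : Gr H W m D) {A B : ℕ → ℕ → Prop} (i j : ℕ) (hi : i < m) (hj : j < m)
    (h : A i j) (h' : B i j) : (rg D m A ∩ rg D m B).Nonempty := by
  obtain ⟨v, hv⟩ := (g.conn i hi j hj).2.1
  exact ⟨v, cell_rg hi hj h hv, cell_rg hi hj h' hv⟩

/-- connectivity passes to a graph that has the same edges inside the set -/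
theorem conn_tr {H' : SimpleGraph V} {K : Set V} (h : Conn H K)
    (e : ∀ u ∈ K, ∀ v ∈ K, H.Adj u v → H'.Adj u v) : Conn H' K :=
  ⟨h.1, fun u hu v hv => Link.map (G' := H') id
    (fun a ha b hb k => Link.single ha hb (e a ha b hb k)) (h.2 u hu v hv)⟩

/-- the first vertex in `T` -/
theorem exit {H' : SimpleGraph V} {K T : Set V} {a b : V} (h : Conn H K) (ha : a ∈ K)
    (ha' : a ∉ T) (hb : b ∈ K) (hb' : b ∈ T)
    (e : ∀ u ∈ K, u ∉ T → ∀ v, H.Adj u v → H'.Adj u v) :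
    ∃ y ∈ T, ∃ R ⊆ K, Conn H' R ∧ a ∈ R ∧ y ∈ R ∧ (∀ x ∈ R, x ∈ T → x = y) ∧
      ∃ x, H'.Adj y x := by
  obtain ⟨x, y, h1, h2, h3, h4, h5, h6⟩ :=
    link_exit (T := Tᶜ) (h.2 a ha b hb) ha' (fun k => k hb')
  have c1 : Conn H' (cp H (K ∩ Tᶜ) a) :=
    conn_tr (cp_conn ⟨ha, ha'⟩) fun u hu v _ k => e u (cp_sub hu).1 (cp_sub hu).2 v k
  refine ⟨y, not_not.1 h4, cp H (K ∩ Tᶜ) a ∪ {y}, ?_,
    conn_union_touch c1 (conn_singleton _ _) ⟨x, ⟨⟨h1, h3⟩, h6⟩, y, rfl, e x h1 h3 y h5⟩,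
    Or.inl (cp_self ⟨ha, ha'⟩), Or.inr rfl, ?_, x, (e x h1 h3 y h5).symm⟩
  · rintro v (hv | rfl)
    exacts [(cp_sub hv).1, h2]
  · rintro v (hv | rfl) k
    exacts [absurd k (cp_sub hv).2, rfl]

section split

variable {H1 H2 : SimpleGraph V} {U U1 U2 S : Set V}

theorem adj1 (s : Split H H1 H2 U U1 U2 S) {u v : V} (e : H.Adj u v) (hu : u ∉ U2) :
    H1.Adj u v := by
  rw [← s.sup] at e
  exact e.resolve_right fun k => hu (s.t2 _ _ k)

theorem adj2 (s : Split H H1 H2 U U1 U2 S) {u v : V} (e : H.Adj u v) (hu : u ∉ U1) :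
    H2.Adj u v := by
  rw [← s.sup] at e
  exact e.resolve_left fun k => hu (s.t1 _ _ k)

theorem conn1 (s : Split H H1 H2 U U1 U2 S) {K : Set V} (h : Conn H K) (hK : ∀ v ∈ K, v ∉ U2) :
    Conn H1 K := conn_tr h fun u hu _ _ e => adj1 s e (hK u hu)

theorem conn2 (s : Split H H1 H2 U U1 U2 S) {K : Set V} (h : Conn H K) (hK : ∀ v ∈ K, v ∉ U1) :
    Conn H2 K := conn_tr h fun u hu _ _ e => adj2 s e (hK u hu)

theorem sub1 (s : Split H H1 H2 U U1 U2 S) : U1 ⊆ U := s.un ▸ subset_union_left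

theorem sub2 (s : Split H H1 H2 U U1 U2 S) : U2 ⊆ U := s.un ▸ subset_union_right

theorem mem1 (s : Split H H1 H2 U U1 U2 S) {v : V} (h : v ∈ U) (h' : v ∉ U2) : v ∈ U1 := by
  rw [← s.un] at h
  exact h.resolve_right h'

theorem mem2 (s : Split H H1 H2 U U1 U2 S) {v : V} (h : v ∈ U) (h' : v ∉ U1) : v ∈ U2 := by
  rw [← s.un] at h
  exact h.resolve_left h'

theorem memS (s : Split H H1 H2 U U1 U2 S) {v : V} : v ∈ S ↔ v ∈ U1 ∧ v ∈ U2 := by
  rw [← s.int]
  rfl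

end split

/-- `a` is joined to a port, `w` and `b` are joined off the ports -/
def Sep (H : SimpleGraph V) (U : Set V) (M : List (Set V)) (a w b : V) : Prop :=
  ∃ P Q, Two H U P Q ∧ a ∈ P ∧ (P ∩ un M).Nonempty ∧ w ∈ Q ∧ b ∈ Q ∧ Disjoint Q (un M)

theorem sep_not {U : Set V} {M : List (Set V)} {Y : List V} {a w b : V}
    (hf : ¬ PX H U (M ++ sg Y)) (h : Sep H U M a w b) :
    ¬ List.Sublist [w, a, b] Y ∧ ¬ List.Sublist [b, a, w] Y := by
  obtain ⟨P, Q, hT, h1, ⟨x, hx, s, hs, hx'⟩, h3, h4, h5⟩ := h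
  have key : ∀ c d, c ∈ Q → d ∈ Q → ¬ List.Sublist [c, a, d] Y := fun c d hc hd k =>
    hf ⟨s, {c}, {a}, {d}, (List.singleton_sublist.2 hs).append (k.map fun x => ({x} : Set V)),
      P, Q, hT, ⟨x, hx, hx'⟩, ⟨a, h1, rfl⟩, ⟨c, hc, rfl⟩, ⟨d, hd, rfl⟩, fun s' hs' => by
        rcases List.mem_append.1 hs' with e | e
        · exact Or.inr (h5.mono_right (nf.sub_un e))
        · obtain ⟨z, -, rfl⟩ := nf.mem_sg.1 e
          exact nf.two_single hT z⟩
  exact ⟨key w b h3 h4, key b w h4 h3⟩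

theorem split2 {Y : List V} {u u' : V} (hu : u ∈ Y) (hu' : u' ∈ Y) (ne : u ≠ u') :
    ∃ Ya y Ym y' Yb, Y = Ya ++ y :: Ym ++ y' :: Yb ∧ ((y = u ∧ y' = u') ∨ (y = u' ∧ y' = u)) := by
  obtain ⟨A, B, rfl⟩ := List.append_of_mem hu
  rcases List.mem_append.1 hu' with h | h
  · obtain ⟨C, E, rfl⟩ := List.append_of_mem h
    exact ⟨C, u', E, u, B, rfl, Or.inr ⟨rfl, rfl⟩⟩
  · rcases List.mem_cons.1 h with h | h
    · exact absurd h.symm ne
    · obtain ⟨C, E, rfl⟩ := List.append_of_mem h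
      exact ⟨A, u, C, u', E, by simp, Or.inl ⟨rfl, rfl⟩⟩

/-- the cut between two letters -/
theorem cut2 [Finite V] (cutp : CutPS) {U Q : Set V} {M : List (Set V)} {Y : List V} {u u' : V}
    (ht : Tight H U) (hd : (M ++ sg Y).Pairwise Disjoint) (hs : un M ∪ ls Y ⊆ U)
    (hf : ¬ PX H U (M ++ sg Y)) (hu : u ∈ Y) (hu' : u' ∈ Y) (ne : u ≠ u') (hQ : Q ⊆ U)
    (cQ : Conn H Q) (q1 : u ∈ Q) (q2 : u' ∈ Q) (q3 : Disjoint Q (un M))
    (q4 : ∀ x ∈ Y, x ∈ Q → x = u ∨ x = u') :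
    ∃ Ya y Ym y' Yb, Y = Ya ++ y :: Ym ++ y' :: Yb ∧ y ∈ Q ∧ y' ∈ Q ∧
      (∀ w ∈ Y, w ∉ Q → Sep H U M u w u' → Sep H U M u' w u → w ∈ Ym) ∧
      ∃ (Z : List V) (H1 H2 : SimpleGraph V) (U1 U2 : Set V),
        Split H H1 H2 U U1 U2 ({y} ∪ {y'} ∪ ls Z) ∧ Z.Nodup ∧ y ∉ Z ∧ y' ∉ Z ∧
        lk H (U \ Q) (ls Ym) ⊆ U1 \ U2 ∧ lk H (U \ Q) (ls Ya ∪ ls Yb ∪ un M) ⊆ U2 \ U1 ∧
        ls Ym ⊆ U \ Q ∧ ls Ya ∪ ls Yb ∪ un M ⊆ U \ Q ∧
        ¬ Cr H1 U1 (y :: Ym ++ y' :: Z.reverse) ∧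
        ¬ PX H2 U2 ({y'} :: (sg Yb ++ M ++ sg Ya) ++ {y} :: sg Z) := by
  obtain ⟨Ya, y, Ym, y', Yb, rfl, hy⟩ := split2 hu hu' ne
  have y1 : y ∈ Q := by rcases hy with ⟨rfl, -⟩ | ⟨rfl, -⟩ <;> assumption
  have y2 : y' ∈ Q := by rcases hy with ⟨-, rfl⟩ | ⟨-, rfl⟩ <;> assumption
  have q5 : ∀ x ∈ Ya ++ y :: Ym ++ y' :: Yb, x ∈ Q → x = y ∨ x = y' := fun x hx k => by
    rcases hy with ⟨rfl, rfl⟩ | ⟨rfl, rfl⟩
    exacts [q4 x hx k, (q4 x hx k).symm]
  have nd : (Ya ++ y :: Ym ++ y' :: Yb).Nodup := nf.sg_disj.1 (List.pairwise_append.1 hd).2.1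
  have rot : List.IsRotated (M ++ sg (Ya ++ y :: Ym ++ y' :: Yb))
      ({y} :: sg Ym ++ {y'} :: (sg Yb ++ M ++ sg Ya)) := by
    have k := List.isRotated_append (l := M ++ sg Ya) (l' := {y} :: sg Ym ++ {y'} :: sg Yb)
    simpa [nf.sg_append, nf.sg_cons] using k
  have m1 : ∀ x ∈ Ym, x ∉ Q := fun x hx k => by
    have := q5 x (by simp [hx]) k
    simp only [List.nodup_append, List.nodup_cons, List.mem_append, List.mem_cons] at nd
    grind
  have m2 : ∀ x ∈ ls Ya ∪ ls Yb ∪ un M, x ∉ Q := by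
    rintro x ((hx | hx) | hx) k
    · have := q5 x (by simp [show x ∈ Ya from hx]) k
      have hx' : x ∈ Ya := hx
      simp only [List.nodup_append, List.nodup_cons, List.mem_append, List.mem_cons] at nd
      grind
    · have := q5 x (by simp [show x ∈ Yb from hx]) k
      have hx' : x ∈ Yb := hx
      simp only [List.nodup_append, List.nodup_cons, List.mem_append, List.mem_cons] at nd
      grind
    · exact Set.disjoint_left.1 q3 k hx
  have e2 : un (sg Yb ++ M ++ sg Ya) = ls Ya ∪ ls Yb ∪ un M := by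
    rw [nf.un_append, nf.un_append, nf.un_sg, nf.un_sg]
    ext x
    simp only [mem_union]
    tauto
  have e3 : Q ∪ {y} ∪ {y'} = Q := by
    rw [union_eq_self_of_subset_right (singleton_subset_iff.2 y1),
      union_eq_self_of_subset_right (singleton_subset_iff.2 y2)]
  have s1 : ls Ym ⊆ U := fun x hx => hs (Or.inr (by simp [ls, show x ∈ Ym from hx]))
  have s2 : ls Ya ∪ ls Yb ∪ un M ⊆ U := by
    rintro x ((hx | hx) | hx)
    · exact hs (Or.inr (by simp [ls, show x ∈ Ya from hx]))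
    · exact hs (Or.inr (by simp [ls, show x ∈ Yb from hx]))
    · exact hs (Or.inl hx)
  obtain ⟨Z, H1, H2, U1, U2, k1, k2, k3, k4, k5, -, k7, k8⟩ :=
    cutp V H U Q _ _ {y} {y'} (sg Ym) (sg Yb ++ M ++ sg Ya) ht
      ((rot.perm.pairwise_iff fun h => h.symm).1 hd)
      (by
        rw [nf.un_append, nf.un_cons, nf.un_cons, nf.un_sg, e2]
        exact union_subset (union_subset (singleton_subset_iff.2 (hQ y1)) s1)
          (union_subset (singleton_subset_iff.2 (hQ y2)) s2))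
      hQ cQ ⟨y, y1, rfl⟩ ⟨y', y2, rfl⟩
      (by rw [nf.un_sg]; exact Set.disjoint_right.2 m1)
      (by rw [e2]; exact Set.disjoint_right.2 m2) rfl rfl fun k => hf (nf.px_rot rot.symm k)
  rw [e3, nf.un_sg] at k4
  rw [e3, e2] at k5
  refine ⟨Ya, y, Ym, y', Yb, rfl, y1, y2, fun w hw hw' a1 a2 => ?_, Z, H1, H2, U1, U2, k1, k2,
    fun k => Set.disjoint_left.1 k3 k (Or.inl rfl), fun k => Set.disjoint_left.1 k3 k (Or.inr rfl),
    k4, k5, fun x hx => ⟨s1 hx, m1 x hx⟩, fun x hx => ⟨s2 hx, m2 x hx⟩,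
    fun k => k7 (by simpa [nf.sg_append, nf.sg_cons] using nf.cr_iff_px.1 k), k8⟩
  have b1 := sep_not hf a1
  have b2 := sep_not hf a2
  have b3 : ¬ List.Sublist [w, y, y'] (Ya ++ y :: Ym ++ y' :: Yb) ∧
      ¬ List.Sublist [y, y', w] (Ya ++ y :: Ym ++ y' :: Yb) := by
    rcases hy with ⟨rfl, rfl⟩ | ⟨rfl, rfl⟩
    exacts [⟨b1.1, b2.2⟩, ⟨b2.1, b1.2⟩]
  simp only [List.mem_append, List.mem_cons] at hw
  rcases hw with (hw | rfl | hw) | rfl | hw
  · refine absurd ?_ b3.1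
    exact ((List.singleton_sublist.2 hw).append ((List.nil_sublist Ym).cons_cons y)).append
      ((List.nil_sublist Yb).cons_cons y')
  · exact absurd y1 hw'
  · exact hw
  · exact absurd y2 hw'
  · refine absurd ?_ b3.2
    exact ((List.nil_sublist Ya).append ((List.nil_sublist Ym).cons_cons y)).append
      ((List.singleton_sublist.2 hw).cons_cons y')

end disc

end Pool.Agent.MP_9d78a0_co.st

end MrgPart3

-- ======== part 4: formerly Pool.Agent.MP_9d78a0_co.st.Disc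
section MrgPart4

/-! Three cuts give a flat disc in a flat window. -/

set_option autoImplicit false

namespace Pool.Agent.MP_9d78a0_co.st

open Set Function fb

namespace disc

variable {V : Type} {H : SimpleGraph V} {U W l t r b : Set V} {m : ℕ} {D : ℕ → ℕ → Set V}

theorem fw_res (f : FW H U W l t r b m D) :
    FW (res H (W ∪ l ∪ t ∪ r ∪ b)) (W ∪ l ∪ t ∪ r ∪ b) W l t r b m D := by
  have sW : W ⊆ W ∪ l ∪ t ∪ r ∪ b := fun x hx => by simp [hx]
  have sl : l ⊆ W ∪ l ∪ t ∪ r ∪ b := fun x hx => by simp [hx]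
  have st : t ⊆ W ∪ l ∪ t ∪ r ∪ b := fun x hx => by simp [hx]
  have sr : r ⊆ W ∪ l ∪ t ∪ r ∪ b := fun x hx => by simp [hx]
  have sb : b ⊆ W ∪ l ∪ t ∪ r ∪ b := fun x hx => by simp [hx]
  have c : ∀ {K}, K ⊆ W ∪ l ∪ t ∪ r ∪ b → Conn H K → Conn (res H (W ∪ l ∪ t ∪ r ∪ b)) K :=
    fun hK h => conn_tr h fun u hu v hv e => ⟨e, hK hu, hK hv⟩
  have tc : ∀ {K K'}, K ⊆ W ∪ l ∪ t ∪ r ∪ b → K' ⊆ W ∪ l ∪ t ∪ r ∪ b → Touch H K K' →
      Touch (res H (W ∪ l ∪ t ∪ r ∪ b)) K K' :=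
    fun hK hK' ⟨u, hu, v, hv, e⟩ => ⟨u, hu, v, hv, e, hK hu, hK' hv⟩
  have sD : ∀ i < m, ∀ j < m, D i j ⊆ W ∪ l ∪ t ∪ r ∪ b :=
    fun i hi j hj => (f.conn i hi j hj).1.trans sW
  obtain ⟨p1, p2, p3, p4, p5, p6, p7⟩ := f.pc
  refine ⟨⟨fun i hi j hj => ⟨(f.conn i hi j hj).1, c (sD i hi j hj) (f.conn i hi j hj).2⟩, f.dis,
    fun i hi j hj => tc (sD i hi j (by omega)) (sD i hi _ hj) (f.hor i hi j hj),
    fun i hi j hj => tc (sD i (by omega) j hj) (sD _ hi j hj) (f.ver i hi j hj)⟩,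
    fun u v e => e.2.1, subset_rfl, f.pd,
    ⟨c sl p1, c st p2, c sr p3, c sb p4, tc sl st p5, tc st sr p6, tc sr sb p7⟩,
    fun i hi => ?_, fun v _ y e => e.2.2, ?_⟩
  · obtain ⟨q1, q2, q3, q4⟩ := f.side i hi
    exact ⟨tc sl (sD i hi 0 (by omega)) q1, tc st (sD 0 (by omega) i hi) q2,
      tc sr (sD i hi _ (by omega)) q3, tc sb (sD _ (by omega) i hi) q4⟩
  · rintro ⟨a1, a2, a3, a4, h1, P, Q, hT, h2⟩
    exact f.flat ⟨a1, a2, a3, a4, h1, P, Q, ⟨hT.sp, hT.sq,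
      conn_tr hT.cp fun _ _ _ _ e => e.1, conn_tr hT.cq fun _ _ _ _ e => e.1, hT.dis⟩, h2⟩

theorem nd_aux {A M B Y : List V} {a c : V} (h : (A ++ a :: M ++ c :: B).Nodup) (hY : Y.Nodup)
    (h1 : a ∉ Y) (h2 : c ∉ Y) (h3 : ∀ x ∈ M, x ∉ Y) : (a :: M ++ c :: Y.reverse).Nodup := by
  simp only [List.nodup_append, List.nodup_cons, List.mem_append, List.mem_cons,
    List.mem_reverse, List.nodup_reverse] at h ⊢
  grind

/-- the result of the three cuts -/
structure Out (H : SimpleGraph V) (W l t r b : Set V) (m k : ℕ) (D : ℕ → ℕ → Set V)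
    (H0 : SimpleGraph V) (U0 : Set V) (L : List V) : Prop where
  le : H0 ≤ H
  tight : Tight H0 U0
  sub : U0 ⊆ W
  lsub : ls L ⊆ U0
  nd : L.Nodup
  flat : ¬ Cr H0 U0 L
  inn : ∀ u ∈ U0, u ∉ L → ∀ v, H.Adj u v → H0.Adj u v
  out : ∀ i < m, ∀ j < m, i < k ∨ j < k ∨ m ≤ i + k ∨ m ≤ j + k → Disjoint (D i j) U0
  deep : ∀ i j, k + 3 ≤ i → k + 3 ≤ j → i + k + 2 ≤ m → j + k + 2 ≤ m →
    ∀ v ∈ D i j, v ∈ U0 ∧ v ∉ L
  hf : ∀ (H1 : SimpleGraph V) (U1 : Set V),
    (∀ u ∈ W, ∀ v, H1.Adj u v → H.Adj u v ∧ ¬ H0.Adj u v) → HF H1 U1 L (l ∪ t ∪ r ∪ b)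

theorem core [Finite V] (cutp : CutPS) (ann : AnnS) {k : ℕ}
    (f : FW H (W ∪ l ∪ t ∪ r ∪ b) W l t r b m D) (hk : 0 < k) (hm : 2 * k + 5 ≤ m) :
    ∃ H0 U0 L, Out H W l t r b m k D H0 U0 L := by
  obtain ⟨xb, hxb⟩ : ∃ xb, xb + k + 1 = m := ⟨m - k - 1, by omega⟩
  have g := f.toGr
  obtain ⟨p1, p2, p3, p4, p5, p6, p7⟩ := f.pc
  have pd := f.pd
  simp only [List.pairwise_cons, List.mem_cons, List.not_mem_nil, or_false, forall_eq_or_imp,
    forall_eq, List.Pairwise.nil, and_true, IsEmpty.forall_iff, implies_true] at pd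
  obtain ⟨⟨dl, dt, dr, db⟩, ⟨dlt, dlr, dlb⟩, ⟨dtr, dtb⟩, drb⟩ := pd
  set U := W ∪ l ∪ t ∪ r ∪ b with hU
  have sW : W ⊆ U := fun x hx => by simp [hU, hx]
  have sl : l ⊆ U := fun x hx => by simp [hU, hx]
  have st : t ⊆ U := fun x hx => by simp [hU, hx]
  have sr : r ⊆ U := fun x hx => by simp [hU, hx]
  have sb : b ⊆ U := fun x hx => by simp [hU, hx]
  -- first cut
  have cQ1 : Conn H (l ∪ rg D m (rc k k 0 (m - 1)) ∪ r) :=
    conn_union_touch (conn_union_touch p1 (rc_conn g le_rfl (by omega) (by omega) (by omega))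
      ((f.side k (by omega)).1.mono subset_rfl (cell_rg (by omega) (by omega) (by simp [rc])))) p3
      ((f.side k (by omega)).2.2.1.symm.mono
        ((cell_rg (by omega) (by omega) (by simp [rc])).trans subset_union_right) subset_rfl)
  obtain ⟨Y1, Hu, Hl, Uu, Ul, s1, n1, d1, a1, a2, -, f1, f2⟩ :=
    cutp V H U (l ∪ rg D m (rc k k 0 (m - 1)) ∪ r) _ _ l r [t] [b] f.tight
      (List.pairwise_cons.1 f.pd).2
      (by
        simp only [List.cons_append, List.nil_append, nf.un_cons, nf.un_nil, union_empty]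
        exact union_subset sl (union_subset st (union_subset sr sb)))
      (union_subset (union_subset sl ((rg_sub g).trans sW)) sr) cQ1
      (by obtain ⟨x, hx⟩ := p1.1; exact ⟨x, Or.inl (Or.inl hx), hx⟩)
      (by obtain ⟨x, hx⟩ := p3.1; exact ⟨x, Or.inr hx, hx⟩)
      (by
        simp only [nf.un_cons, nf.un_nil, union_empty, disjoint_union_left]
        exact ⟨⟨dlt, dt.mono_left (rg_sub g)⟩, dtr.symm⟩)
      (by
        simp only [nf.un_cons, nf.un_nil, union_empty, disjoint_union_left]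
        exact ⟨⟨dlb, db.mono_left (rg_sub g)⟩, drb⟩) rfl rfl f.flat
  simp only [nf.un_cons, nf.un_nil, union_empty] at a1 a2
  have off1 : ∀ {K : Set V}, K ⊆ U → Disjoint K l → Disjoint K r →
      Disjoint K (rg D m (rc k k 0 (m - 1))) →
      K ⊆ U \ (l ∪ rg D m (rc k k 0 (m - 1)) ∪ r ∪ l ∪ r) := fun h1 h2 h3 h4 x hx =>
    ⟨h1 hx, by
      rintro ((((h | h) | h) | h) | h)
      exacts [Set.disjoint_left.1 h2 hx h, Set.disjoint_left.1 h4 hx h, Set.disjoint_left.1 h3 hx h,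
        Set.disjoint_left.1 h2 hx h, Set.disjoint_left.1 h3 hx h]⟩
  have ot := off1 st dlt.symm dtr (dt.mono_left (rg_sub g)).symm
  have ob := off1 sb dlb.symm drb.symm (db.mono_left (rg_sub g)).symm
  have tU : t ⊆ Uu \ Ul := fun x hx => a1 (capi.lk_self hx (ot hx))
  have bL : b ⊆ Ul \ Uu := fun x hx => a2 (capi.lk_self hx (ob hx))
  have Top : rg D m (rc 0 (k - 1) 0 (m - 1)) ⊆ Uu \ Ul := by
    refine (capi.sub_lk_touch (rc_conn g (by omega) (by omega) (by omega) (by omega))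
      (off1 ((rg_sub g).trans sW) (dl.mono_left (rg_sub g)) (dr.mono_left (rg_sub g))
        (rg_dis g fun i _ j _ h h' => by simp only [rc] at h h'; omega)) ?_).trans a1
    exact (f.side 0 (by omega)).2.1.mono (fun x hx => capi.lk_self hx (ot hx))
      (cell_rg (by omega) (by omega) (by simp [rc]))
  have Bot : rg D m (rc (k + 1) (m - 1) 0 (m - 1)) ⊆ Ul \ Uu := by
    refine (capi.sub_lk_touch (rc_conn g (by omega) (by omega) (by omega) (by omega))
      (off1 ((rg_sub g).trans sW) (dl.mono_left (rg_sub g)) (dr.mono_left (rg_sub g))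
        (rg_dis g fun i _ j _ h h' => by simp only [rc] at h h'; omega)) ?_).trans a2
    exact (f.side 0 (by omega)).2.2.2.mono (fun x hx => capi.lk_self hx (ob hx))
      (cell_rg (by omega) (by omega) (by simp only [rc]; omega))
  have lB : ∀ x ∈ l, x ∈ Uu ∧ x ∈ Ul := fun x hx => (memS s1).1 (Or.inl (Or.inl hx))
  have rB : ∀ x ∈ r, x ∈ Uu ∧ x ∈ Ul := fun x hx => (memS s1).1 (Or.inl (Or.inr hx))
  have yB : ∀ x ∈ Y1, x ∈ Uu ∧ x ∈ Ul := fun x hx => (memS s1).1 (Or.inr hx)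
  have wY : ∀ x ∈ W, x ∈ Uu → x ∈ Ul → x ∈ Y1 := fun x hx h1 h2 => by
    rcases (memS s1).2 ⟨h1, h2⟩ with (h | h) | h
    exacts [absurd h (Set.disjoint_left.1 dl hx), absurd h (Set.disjoint_left.1 dr hx), h]
  have yW : ∀ x ∈ Y1, x ∈ W := fun x hx => by
    have h1 := sub1 s1 (yB x hx).1
    have h2 := Set.disjoint_left.1 d1 hx
    simp only [hU, mem_union] at h1 h2
    rcases h1 with (((h | h) | h) | h) | h
    exacts [h, absurd (Or.inl h) h2, absurd (yB x hx).2 (tU h).2, absurd (Or.inr h) h2,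
      absurd (yB x hx).1 (bL h).2]
  have cB : ∀ a1 a2 a3 a4, k < a1 → a1 ≤ a2 → a2 < m → a3 ≤ a4 → a4 < m →
      rg D m (rc a1 a2 a3 a4) ⊆ Ul \ Uu ∧ Conn Hl (rg D m (rc a1 a2 a3 a4)) :=
    fun a1 a2 a3 a4 h1 h2 h3 h4 h5 => by
      have e : rg D m (rc a1 a2 a3 a4) ⊆ Ul \ Uu :=
        (rg_mono fun i _ j _ h => by simp only [rc] at h ⊢; omega).trans Bot
      exact ⟨e, conn2 s1 (rc_conn g h2 h3 h4 h5) fun v hv => (e hv).2⟩
  -- going up to the first seam
  have up : ∀ j < m, ∀ i, k ≤ i → i ≤ k + 1 → ∀ v ∈ D i j, v ∉ Uu → ∃ y ∈ Y1,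
      ∃ R ⊆ rg D m (rc (k - 1) i j j), Conn Hl R ∧ v ∈ R ∧ y ∈ R ∧ R ⊆ Ul ∧
        ∀ x ∈ R, x ∈ Uu → x = y := fun j hj i h1 h2 v hv hv' => by
    obtain ⟨x0, hx0⟩ := (g.conn (k - 1) (by omega) j hj).2.1
    obtain ⟨y, y1, R, r1, r2, r3, r4, r5, x, r6⟩ := exit (H' := Hl) (T := Uu)
      (rc_conn g (a := k - 1) (b := i) (c := j) (d := j) (by omega) (by omega) le_rfl hj)
      (cell_rg (by omega) hj (by simp only [rc]; omega) hv) hv'
      (cell_rg (by omega) hj (by simp only [rc]; omega) hx0)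
      (Top (cell_rg (by omega) hj (by simp only [rc]; omega) hx0)).1
      fun u _ hu v e => adj2 s1 e hu
    have y2 := s1.t2 _ _ r6
    refine ⟨y, wY y (rg_sub g (r1 r4)) y1 y2, R, r1, r2, r3, r4, fun x hx => ?_, r5⟩
    by_cases c : x ∈ Uu
    · exact r5 x hx c ▸ y2
    · exact mem2 s1 (sW (rg_sub g (r1 hx))) c
  have up' : ∀ j, ∃ y R, j < m → y ∈ Y1 ∧ R ⊆ rg D m (rc (k - 1) (k + 1) j j) ∧ Conn Hl R ∧
      (R ∩ D (k + 1) j).Nonempty ∧ y ∈ R ∧ R ⊆ Ul ∧ ∀ x ∈ R, x ∈ Uu → x = y := fun j => by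
    by_cases hj : j < m
    · obtain ⟨v, hv⟩ := (g.conn (k + 1) (by omega) j hj).2.1
      obtain ⟨y, y1, R, r1, r2, r3, r4⟩ := up j hj (k + 1) (by omega) le_rfl v hv
        (Bot (cell_rg (by omega) hj (by simp only [rc]; omega) hv)).2
      exact ⟨y, R, fun _ => ⟨y1, r1, r2, ⟨v, r3, hv⟩, r4⟩⟩
    · exact ⟨p1.1.some, ∅, fun h => absurd h hj⟩
  choose w R hR using up'
  have cR : ∀ j a2 a3 a4, k + 1 ≤ a2 → a2 < m → a3 ≤ j → j ≤ a4 → a4 < m →
      Conn Hl (R j ∪ rg D m (rc (k + 1) a2 a3 a4)) := fun j a2 a3 a4 h1 h2 h3 h4 h5 => by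
    obtain ⟨-, -, r2, ⟨v, r3, r3'⟩, -⟩ := hR j (by omega)
    exact capi.conn_meet r2 (cB _ _ _ _ (by omega) h1 h2 (by omega) h5).2
      ⟨v, r3, cell_rg (by omega) (by omega) (by simp only [rc]; omega) r3'⟩
  have pW : ∀ x ∈ W, x ∉ un [r, b, l] := fun x hx => by
    rw [nf.un_cons, nf.un_cons, nf.un_cons, nf.un_nil]
    rintro (h | h | h | h)
    exacts [Set.disjoint_left.1 dr hx h, Set.disjoint_left.1 db hx h, Set.disjoint_left.1 dl hx h, h]
  have sep1 : ∀ c x1 x2, c < m → x1 ≤ x2 → x2 < m → c < x1 ∨ x2 < c →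
      Sep Hl Ul [r, b, l] (w c) (w x1) (w x2) ∧ Sep Hl Ul [r, b, l] (w c) (w x2) (w x1) := by
    intro c x1 x2 h1 h2 h3 h4
    obtain ⟨-, c1, -, -, c4, c5, -⟩ := hR c h1
    obtain ⟨-, e1, -, -, e4, e5, -⟩ := hR x1 (by omega)
    obtain ⟨-, g1, -, -, g4, g5, -⟩ := hR x2 h3
    have sQ : R x1 ∪ rg D m (rc (k + 1) (k + 1) x1 x2) ∪ (R x2 ∪ rg D m (rc (k + 1) (k + 1) x1 x2)) ⊆
        rg D m (rc 0 m x1 x2) :=
      union_subset (union_subset (e1.trans (rg_mono fun i _ j _ h => by simp only [rc] at h ⊢; omega))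
        (rg_mono fun i _ j _ h => by simp only [rc] at h ⊢; omega))
        (union_subset (g1.trans (rg_mono fun i _ j _ h => by simp only [rc] at h ⊢; omega))
        (rg_mono fun i _ j _ h => by simp only [rc] at h ⊢; omega))
    have hT : Two Hl Ul (R c ∪ rg D m (rc (k + 1) (m - 1) c c) ∪ b)
        (R x1 ∪ rg D m (rc (k + 1) (k + 1) x1 x2) ∪ (R x2 ∪ rg D m (rc (k + 1) (k + 1) x1 x2))) := by
      have e : rg D m (rc (k + 1) (k + 1) x1 x2) ⊆ Ul := fun x hx =>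
        ((cB (k + 1) (k + 1) x1 x2 (by omega) le_rfl (by omega) h2 h3).1 hx).1
      refine ⟨union_subset (union_subset c5 fun x hx => ((cB _ _ _ _ (by omega) (by omega) (by omega)
        le_rfl h1).1 hx).1) fun x hx => (bL hx).1,
        union_subset (union_subset e5 e) (union_subset g5 e),
        conn_union_touch (cR c _ _ _ (by omega) (by omega) le_rfl le_rfl h1)
          (conn2 s1 p4 fun v hv => (bL hv).2) ?_,
        capi.conn_meet (cR x1 _ _ _ le_rfl (by omega) le_rfl h2 h3)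
          (cR x2 _ _ _ le_rfl (by omega) h2 le_rfl h3) ?_, ?_⟩
      · obtain ⟨u, hu, v, hv, e⟩ := (f.side c h1).2.2.2
        exact ⟨v, Or.inr (cell_rg (by omega) h1 (by simp only [rc]; omega) hv), u, hu,
          (adj2 s1 e (bL hu).2).symm⟩
      · obtain ⟨v, hv⟩ := (cB (k + 1) (k + 1) x1 x2 (by omega) le_rfl (by omega) h2 h3).2.1
        exact ⟨v, Or.inr hv, Or.inr hv⟩
      · refine Disjoint.mono_right sQ (disjoint_union_left.2 ⟨?_, (db.mono_left (rg_sub g)).symm⟩)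
        refine Disjoint.mono_left (union_subset (c1.trans ?_) ?_)
          (rg_dis g (A := rc 0 m c c) fun i _ j _ h h' => by simp only [rc] at h h'; omega)
        all_goals exact rg_mono fun i _ j _ h => by simp only [rc] at h ⊢; omega
    obtain ⟨x, hx⟩ := p4.1
    have e1 : ((R c ∪ rg D m (rc (k + 1) (m - 1) c c) ∪ b) ∩ un [r, b, l]).Nonempty :=
      ⟨x, Or.inr hx, b, by simp, hx⟩
    have e2 := Set.disjoint_left.2 fun x hx => pW x (rg_sub g (sQ hx))
    exact ⟨⟨_, _, hT, Or.inl (Or.inl c4), e1, Or.inl (Or.inl e4), Or.inr (Or.inl g4), e2⟩,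
      ⟨_, _, hT, Or.inl (Or.inl c4), e1, Or.inr (Or.inl g4), Or.inl (Or.inl e4), e2⟩⟩
  -- second cut
  obtain ⟨k0, k1, -, -, k4, k5, k6⟩ := hR k (by omega)
  obtain ⟨x0, x1, -, -, x4, x5, x6⟩ := hR xb (by omega)
  set Q2 := R k ∪ rg D m (rc (k + 1) xb k k) ∪ rg D m (rc xb xb k xb) ∪
    (R xb ∪ rg D m (rc (k + 1) xb xb xb)) with hQ2
  have b1 := cB (k + 1) xb k k (by omega) (by omega) (by omega) le_rfl (by omega)
  have b2 := cB xb xb k xb (by omega) (by omega) (by omega) (by omega) (by omega)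
  have b3 := cB (k + 1) xb xb xb (by omega) (by omega) (by omega) le_rfl (by omega)
  have sQ2 : Q2 ⊆ rg D m fun i j => i ≤ xb ∧ k ≤ j ∧ j ≤ xb ∧ (j = k ∨ j = xb ∨ i = xb) := by
    refine union_subset (union_subset (union_subset (k1.trans ?_) ?_) ?_)
      (union_subset (x1.trans ?_) ?_)
    all_goals exact rg_mono fun i _ j _ h => by simp only [rc] at h ⊢; omega
  obtain ⟨Ya, y, Ym, y', Yb, rfl, yQ, yQ', mid, Y2, Hp, Ho, Up, Uo, s2, n2, d2, d2', a3, a4, a5, a6,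
      f3, f4⟩ := cut2 cutp (H := Hl) (U := Ul) (Q := Q2) (M := [r, b, l]) (Y := Y1) (u := w k)
    (u' := w xb) s1.t2
    (by
      refine List.pairwise_append.2 ⟨by simp [drb, dlr.symm, dlb.symm], nf.sg_disj.2 n1, ?_⟩
      intro s hs s' hs'
      obtain ⟨x, hx, rfl⟩ := nf.mem_sg.1 hs'
      exact disjoint_singleton_right.2 fun e => pW x (yW x hx) ⟨s, hs, e⟩)
    (by
      simp only [nf.un_cons, nf.un_nil, union_empty]
      exact union_subset (union_subset (fun x hx => (rB x hx).2)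
        (union_subset (fun x hx => (bL hx).1) fun x hx => (lB x hx).2)) fun x hx => (yB x hx).2)
    f2 k0 x0
    (fun e => Set.disjoint_left.1 (rg_dis g fun i _ j _ h h' => by simp only [rc] at h h'; omega)
      (k1 k4) (x1 (e ▸ x4)))
    (union_subset (union_subset (union_subset k5 fun x hx => (b1.1 hx).1) fun x hx => (b2.1 hx).1)
      (union_subset x5 fun x hx => (b3.1 hx).1))
    (capi.conn_meet (capi.conn_meet (cR k _ _ _ (by omega) (by omega) le_rfl le_rfl (by omega)) b2.2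
      ((rg_meet g xb k (by omega) (by omega) (by simp only [rc]; omega)
        (by simp only [rc]; omega)).mono (inter_subset_inter_left _ subset_union_right)))
      (cR xb _ _ _ (by omega) (by omega) le_rfl le_rfl (by omega))
      ((rg_meet g xb xb (by omega) (by omega) (by simp only [rc]; omega)
        (by simp only [rc]; omega)).mono (inter_subset_inter subset_union_right subset_union_right)))
    (Or.inl (Or.inl (Or.inl k4))) (Or.inr (Or.inl x4))
    (Set.disjoint_left.2 fun x hx => pW x (rg_sub g (sQ2 hx)))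
    (by
      rintro x hx (((h | h) | h) | h | h)
      exacts [Or.inl (k6 x h (yB x hx).1), absurd (yB x hx).1 (b1.1 h).2,
        absurd (yB x hx).1 (b2.1 h).2, Or.inr (x6 x h (yB x hx).1), absurd (yB x hx).1 (b3.1 h).2])
  have oQ2 : ∀ {A : ℕ → ℕ → Prop}, (∀ i < m, ∀ j < m, A i j →
      i ≤ xb ∧ k ≤ j ∧ j ≤ xb ∧ (j = k ∨ j = xb ∨ i = xb) → False) → ∀ x ∈ rg D m A, x ∉ Q2 :=
    fun h x hx e => Set.disjoint_left.1 (rg_dis g h) hx (sQ2 e)
  have RI : ∀ j, k < j → j < xb → w j ∈ Ym ∧ R j ⊆ lk Hl (Ul \ Q2) (ls Ym) := fun j h1 h2 => by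
    obtain ⟨e0, e1, e2, -, e4, e5, -⟩ := hR j (by omega)
    have e6 : R j ⊆ Ul \ Q2 := fun x hx =>
      ⟨e5 hx, oQ2 (fun i _ j _ h h' => by simp only [rc] at h; omega) x (e1 hx)⟩
    have e7 := mid (w j) e0 (e6 e4).2 (sep1 k j xb (by omega) (by omega) (by omega) (by omega)).1
      (sep1 xb k j (by omega) (by omega) (by omega) (by omega)).2
    exact ⟨e7, capi.sub_lk_meet e2 e6 ⟨w j, e4, capi.lk_self e7 (e6 e4)⟩⟩
  have In : rg D m (rc (k + 1) (xb - 1) (k + 1) (xb - 1)) ⊆ Up \ Uo := by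
    have e := cB (k + 1) (xb - 1) (k + 1) (xb - 1) (by omega) (by omega) (by omega) (by omega)
      (by omega)
    obtain ⟨-, -, -, ⟨v, v1, v2⟩, -⟩ := hR (k + 1) (by omega)
    exact (capi.sub_lk_meet (S := Ul \ Q2) e.2 (fun x hx => ⟨(e.1 hx).1,
      oQ2 (fun i _ j _ h h' => by simp only [rc] at h; omega) x hx⟩)
      ⟨v, cell_rg (by omega) (by omega) (by simp only [rc]; omega) v2,
        (RI (k + 1) (by omega) (by omega)).2 v1⟩).trans a3
  have pO : ∀ x ∈ ls Ya ∪ ls Yb ∪ un [r, b, l], x ∈ Uo \ Up :=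
    fun x hx => a4 (capi.lk_self hx (a6 hx))
  have mO : ∀ x ∈ Ym, x ∈ Up \ Uo := fun x hx => a3 (capi.lk_self hx (a5 hx))
  have Ot : ∀ i < m, ∀ j < m, k < i → j < k ∨ xb < j ∨ xb < i → D i j ⊆ Uo \ Up := by
    have key : ∀ a1 a2 a3 a4' (s : Set V), s ∈ [r, b, l] → k < a1 → a1 ≤ a2 → a2 < m → a3 ≤ a4' →
        a4' < m → a4' < k ∨ xb < a3 ∨ xb < a1 → Touch H s (rg D m (rc a1 a2 a3 a4')) →
        rg D m (rc a1 a2 a3 a4') ⊆ Uo \ Up := by
      rintro a1 a2 a3 a4' s hs h1 h2 h3 h4 h5 h6 ⟨u, hu, v, hv, e⟩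
      have c := cB a1 a2 a3 a4' h1 h2 h3 h4 h5
      have hu' : u ∈ ls Ya ∪ ls Yb ∪ un [r, b, l] := Or.inr ⟨s, hs, hu⟩
      exact (capi.sub_lk_touch (S := Ul \ Q2) c.2 (fun x hx => ⟨(c.1 hx).1,
        oQ2 (fun i _ j _ h h' => by simp only [rc] at h; omega) x hx⟩)
        ⟨u, capi.lk_self hu' (a6 hu'), v, hv, (adj2 s1 e.symm (c.1 hv).2).symm⟩).trans a4
    rintro i hi j hj h1 (h | h | h)
    · refine (cell_rg hi hj (by simp [rc])).trans (key i i 0 j l (by simp) h1 le_rfl hi (by omega) hj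
        (by omega) ((f.side i hi).1.mono subset_rfl (cell_rg hi (by omega) (by simp [rc]))))
    · refine (cell_rg hi hj (by simp only [rc]; omega)).trans (key i i j (m - 1) r (by simp) h1 le_rfl
        hi (by omega) (by omega) (by omega) ((f.side i hi).2.2.1.mono subset_rfl
          (cell_rg hi (by omega) (by simp only [rc]; omega))))
    · refine (cell_rg hi hj (by simp only [rc]; omega)).trans (key i (m - 1) j j b (by simp) h1
        (by omega) (by omega) le_rfl hj (by omega) ((f.side j hj).2.2.2.mono subset_rfl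
          (cell_rg (by omega) hj (by simp only [rc]; omega))))
  have y0 : y ∈ Up ∧ y ∈ Uo := (memS s2).1 (Or.inl (Or.inl rfl))
  have y0' : y' ∈ Up ∧ y' ∈ Uo := (memS s2).1 (Or.inl (Or.inr rfl))
  have zB : ∀ x ∈ Y2, x ∈ Up ∧ x ∈ Uo := fun x hx => (memS s2).1 (Or.inr hx)
  have yu : ∀ x ∈ y :: Ym ++ [y'], x ∈ Uu ∧ x ∈ Up := fun x hx => by
    simp only [List.mem_append, List.mem_cons, List.not_mem_nil, or_false] at hx
    rcases hx with (rfl | hx) | rfl
    exacts [⟨(yB x (by simp)).1, y0.1⟩, ⟨(yB x (by simp [hx])).1, (mO x hx).1⟩,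
      ⟨(yB x (by simp)).1, y0'.1⟩]
  have pWp : ∀ x ∈ Up, x ∈ W := fun x hx => by
    have h0 := sub1 s2 hx
    have h1 := sub2 s1 h0
    simp only [hU, mem_union] at h1
    rcases h1 with (((h | h) | h) | h) | h
    exacts [h, absurd hx (pO x (Or.inr ⟨l, by simp, h⟩)).2, absurd h0 (tU h).2,
      absurd hx (pO x (Or.inr ⟨r, by simp, h⟩)).2, absurd hx (pO x (Or.inr ⟨b, by simp, h⟩)).2]
  have up2 : ∀ x ∈ Up, x ∈ Uu → x ∈ y :: Ym ++ [y'] := fun x hx hx' => by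
    have h := wY x (pWp x hx) hx' (sub1 s2 hx)
    simp only [List.mem_append, List.mem_cons, List.not_mem_nil, or_false] at h ⊢
    rcases h with (h | h) | h | h
    exacts [absurd hx (pO x (Or.inl (Or.inl h))).2, Or.inl h, Or.inr h,
      absurd hx (pO x (Or.inl (Or.inr h))).2]
  have zu : ∀ x ∈ Y2, x ∉ Uu := fun x hx hx' => by
    have h := up2 x (zB x hx).1 hx'
    simp only [List.mem_append, List.mem_cons, List.not_mem_nil, or_false] at h
    rcases h with (rfl | h) | rfl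
    exacts [d2 hx, (mO x h).2 (zB x hx).2, d2' hx]
  have cI : ∀ a1 a2 a3 a4, k < a1 → a1 ≤ a2 → a2 < xb → k < a3 → a3 ≤ a4 → a4 < xb →
      rg D m (rc a1 a2 a3 a4) ⊆ Up \ Uo ∧ Conn Hp (rg D m (rc a1 a2 a3 a4)) :=
    fun a1 a2 a3 a4 h1 h2 h3 h4 h5 h6 => by
      have e : rg D m (rc a1 a2 a3 a4) ⊆ Up \ Uo :=
        (rg_mono fun i _ j _ h => by simp only [rc] at h ⊢; omega).trans In
      exact ⟨e, conn1 s2 (cB _ _ _ _ h1 h2 (by omega) h5 (by omega)).2 fun v hv => (e hv).2⟩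
  -- going out to the second seam
  have ex : ∀ a1 a2 a3 a4 i j i' j', k < a1 → a2 < m → a4 < m → rc a1 a2 a3 a4 i j →
      rc a1 a2 a3 a4 i' j' → rc (k + 1) (xb - 1) (k + 1) (xb - 1) i j → j' < k ∨ xb < j' ∨ xb < i' →
      ∃ z ∈ Y2, ∃ Z ⊆ rg D m (rc a1 a2 a3 a4), Conn Hp Z ∧ (Z ∩ D i j).Nonempty ∧ z ∈ Z ∧ Z ⊆ Up ∧
        ∀ x ∈ Z, x ∈ Uo → x = z := by
    intro a1 a2 a3 a4 i j i' j' h1 h2 h3 h4 h5 h6 h7
    have h4' := h4
    have h5' := h5
    simp only [rc] at h4' h5'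
    have c := cB a1 a2 a3 a4 h1 (by omega) h2 (by omega) h3
    obtain ⟨v, hv⟩ := (g.conn i (by omega) j (by omega)).2.1
    obtain ⟨v', hv'⟩ := (g.conn i' (by omega) j' (by omega)).2.1
    obtain ⟨z, z1, Z, r1, r2, r3, r4, r5, x, r6⟩ := exit (H' := Hp) (T := Uo) c.2
      (cell_rg (by omega) (by omega) h4 hv) (In (cell_rg (by omega) (by omega) h6 hv)).2
      (cell_rg (by omega) (by omega) h5 hv')
      (Ot i' (by omega) j' (by omega) (by omega) h7 hv').1 fun u _ hu v e => adj1 s2 e hu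
    have z2 := s2.t1 _ _ r6
    refine ⟨z, ?_, Z, r1, r2, ⟨v, r3, hv⟩, r4, fun x hx => ?_, r5⟩
    · rcases (memS s2).2 ⟨z2, z1⟩ with (rfl | rfl) | h
      exacts [absurd (yu z (by simp)).1 (c.1 (r1 r4)).2, absurd (yu z (by simp)).1 (c.1 (r1 r4)).2, h]
    · by_cases e : x ∈ Uo
      · exact r5 x hx e ▸ z2
      · exact mem1 s2 (c.1 (r1 hx)).1 e
  obtain ⟨za, za0, Za, za1, za2, ⟨va, za3, za3'⟩, za4, za5, za6⟩ := ex (k + 2) (k + 2) (k - 1) (k + 1)
    (k + 2) (k + 1) (k + 2) (k - 1) (by omega) (by omega) (by omega) (by simp only [rc]; omega)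
    (by simp only [rc]; omega) (by simp only [rc]; omega) (by omega)
  obtain ⟨zb, zb0, Zb, zb1, zb2, ⟨vb, zb3, zb3'⟩, zb4, zb5, zb6⟩ := ex (k + 2) (k + 2) (xb - 1)
    (xb + 1) (k + 2) (xb - 1) (k + 2) (xb + 1) (by omega) (by omega) (by omega)
    (by simp only [rc]; omega) (by simp only [rc]; omega) (by simp only [rc]; omega) (by omega)
  obtain ⟨zc, zc0, Zc, zc1, zc2, ⟨vc, zc3, zc3'⟩, zc4, zc5, zc6⟩ := ex (xb - 1) (xb + 1) (k + 2)
    (k + 2) (xb - 1) (k + 2) (xb + 1) (k + 2) (by omega) (by omega) (by omega)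
    (by simp only [rc]; omega) (by simp only [rc]; omega) (by simp only [rc]; omega) (by omega)
  have mU : ∀ {A : ℕ → ℕ → Prop}, (∀ i < m, ∀ j < m, A i j → k < i) →
      Disjoint (rg D m A) (un (sg (y :: Ym ++ [y']))) := fun h => by
    rw [nf.un_sg]
    exact Set.disjoint_left.2 fun x hx e => (Bot (rg_mono (fun i hi j hj e => by
      have := h i hi j hj e
      simp only [rc]
      omega) hx)).2 (yu x e).1
  have sep2 : ∀ (c c1 c2 : ℕ) (z z' : V) (Z Z' : Set V) (A B : ℕ → ℕ → Prop), k < c → c < xb →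
      k < c1 → c1 ≤ k + 2 → k + 2 ≤ c2 → c2 < xb → Conn Hp Z → Conn Hp Z' → Z ⊆ Up → Z' ⊆ Up →
      z ∈ Z → z' ∈ Z' → (Z ∩ D (k + 2) c).Nonempty →
      (Z' ∩ rg D m (rc (k + 2) (k + 2) c1 c2)).Nonempty → Z ⊆ rg D m A → Z' ⊆ rg D m B →
      (∀ i < m, A i c) → (∀ i < m, ∀ j < m, A i j → B i j → False) →
      (∀ i < m, ∀ j < m, B i j → k < i) → (∀ i < m, k < i → B i (k + 2)) →
      (∀ j, c1 ≤ j → j ≤ c2 → B (k + 2) j) →
      Sep Hp Up (sg (y :: Ym ++ [y'])) z zc z' := by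
    intro c c1 c2 z z' Z Z' A B h1 h2 h3 h4 h5 h6 cZ cZ' sZ sZ' hz hz' ⟨v, v1, v2⟩ mZ' aZ bZ hA hAB hB
      hB1 hB2
    obtain ⟨-, e1, e2, ⟨u, u1, u2⟩, e4, -⟩ := hR c (by omega)
    have e5 := (RI c h1 h2).2.trans a3
    have i1 := cI (k + 1) (k + 2) c c (by omega) (by omega) (by omega) h1 le_rfl h2
    have i2 := cI (k + 2) (xb - 1) (k + 2) (k + 2) (by omega) (by omega) (by omega) (by omega) le_rfl
      (by omega)
    have i3 := cI (k + 2) (k + 2) c1 c2 (by omega) le_rfl (by omega) h3 (by omega) h6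
    have sQ : Zc ∪ rg D m (rc (k + 2) (xb - 1) (k + 2) (k + 2)) ∪
        (Z' ∪ rg D m (rc (k + 2) (k + 2) c1 c2)) ⊆ rg D m B := by
      refine union_subset (union_subset (zc1.trans (rg_mono fun i hi j _ h => ?_))
        (rg_mono fun i hi j _ h => ?_)) (union_subset bZ (rg_mono fun i _ j _ h => ?_))
      · simp only [rc] at h
        obtain rfl : j = k + 2 := by omega
        exact hB1 i hi (by omega)
      · simp only [rc] at h
        obtain rfl : j = k + 2 := by omega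
        exact hB1 i hi (by omega)
      · simp only [rc] at h
        obtain rfl : i = k + 2 := by omega
        exact hB2 j (by omega) (by omega)
    have sP : Z ∪ (R c ∪ rg D m (rc (k + 1) (k + 2) c c)) ⊆ rg D m A := by
      refine union_subset aZ (union_subset (e1.trans (rg_mono fun i hi j _ h => ?_))
        (rg_mono fun i hi j _ h => ?_))
      all_goals
        simp only [rc] at h
        obtain rfl : j = c := by omega
        exact hA i hi
    refine ⟨Z ∪ (R c ∪ rg D m (rc (k + 1) (k + 2) c c)),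
      Zc ∪ rg D m (rc (k + 2) (xb - 1) (k + 2) (k + 2)) ∪ (Z' ∪ rg D m (rc (k + 2) (k + 2) c1 c2)),
      ⟨union_subset sZ (union_subset (fun x hx => (e5 hx).1) fun x hx => (i1.1 hx).1),
        union_subset (union_subset zc5 fun x hx => (i2.1 hx).1)
          (union_subset sZ' fun x hx => (i3.1 hx).1),
        capi.conn_meet cZ (capi.conn_meet (conn1 s2 e2 fun x hx => (e5 hx).2) i1.2
          ⟨u, u1, cell_rg (by omega) (by omega) (by simp only [rc]; omega) u2⟩)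
          ⟨v, v1, Or.inr (cell_rg (by omega) (by omega) (by simp only [rc]; omega) v2)⟩,
        capi.conn_meet (capi.conn_meet zc2 i2.2
          ⟨vc, zc3, cell_rg (by omega) (by omega) (by simp only [rc]; omega) zc3'⟩)
          (capi.conn_meet cZ' i3.2 mZ')
          ((rg_meet g (k + 2) (k + 2) (by omega) (by omega) (by simp only [rc]; omega)
            (by simp only [rc]; omega)).mono
            (inter_subset_inter subset_union_right subset_union_right)),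
        (rg_dis g hAB).mono sP sQ⟩, Or.inl hz, ⟨w c, Or.inr (Or.inl e4), ?_⟩,
      Or.inl (Or.inl zc4), Or.inr (Or.inl hz'), (mU hB).mono_left sQ⟩
    rw [nf.un_sg]
    simp [ls, (RI c h1 h2).1]
  -- third cut
  set Q3 := Za ∪ rg D m (rc (k + 2) (k + 2) (k + 1) (xb - 1)) ∪ Zb with hQ3
  have i0 := cI (k + 2) (k + 2) (k + 1) (xb - 1) (by omega) le_rfl (by omega) (by omega) (by omega)
    (by omega)
  have sQ3 : Q3 ⊆ rg D m fun i _ => i = k + 2 := by
    refine union_subset (union_subset (za1.trans ?_) ?_) (zb1.trans ?_)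
    all_goals exact rg_mono fun i _ j _ h => by simp only [rc] at h ⊢; omega
  have n1' : (y :: Ym ++ [y']).Nodup := n1.sublist
    (((List.nil_sublist Ya).append (List.Sublist.refl _)).append ((List.nil_sublist Yb).cons_cons y'))
  obtain ⟨Wa, z', Wm, z, Wb, eY, -, -, mid', Y3, H0, Ht, U0, Ut, s3, n3, d3, d3', a7, a8, a9, a10,
      f5, f6⟩ := cut2 cutp (H := Hp) (U := Up) (Q := Q3) (M := sg (y :: Ym ++ [y']))
    (Y := Y2.reverse) (u := za) (u' := zb) s2.t1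
    (by
      rw [← nf.sg_append, nf.sg_disj]
      exact List.nodup_append.2 ⟨n1', List.nodup_reverse.2 n2,
        fun x hx x' hx' e => zu x' (List.mem_reverse.1 hx') (e ▸ (yu x hx).1)⟩)
    (by
      rw [nf.un_sg]
      exact union_subset (fun x hx => (yu x hx).2) fun x hx => (zB x (List.mem_reverse.1 hx)).1)
    (by
      rw [← nf.sg_append, ← nf.cr_iff_px]
      simpa using f3)
    (List.mem_reverse.2 za0) (List.mem_reverse.2 zb0)
    (fun e => Set.disjoint_left.1 (rg_dis g fun i _ j _ h h' => by simp only [rc] at h h'; omega)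
      (za1 za4) (zb1 (e ▸ zb4)))
    (union_subset (union_subset za5 fun x hx => (i0.1 hx).1) zb5)
    (capi.conn_meet (capi.conn_meet za2 i0.2
      ⟨va, za3, cell_rg (by omega) (by omega) (by simp only [rc]; omega) za3'⟩) zb2
      ⟨vb, Or.inr (cell_rg (by omega) (by omega) (by simp only [rc]; omega) zb3'), zb3⟩)
    (Or.inl (Or.inl za4)) (Or.inr zb4) ((mU fun i _ j _ h => by omega).mono_left sQ3)
    (by
      rintro x hx ((h | h) | h)
      exacts [Or.inl (za6 x h (zB x (List.mem_reverse.1 hx)).2),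
        absurd (zB x (List.mem_reverse.1 hx)).2 (i0.1 h).2,
        Or.inr (zb6 x h (zB x (List.mem_reverse.1 hx)).2)])
  have oQ3 : ∀ {A : ℕ → ℕ → Prop}, (∀ i < m, ∀ j < m, A i j → i = k + 2 → False) →
      ∀ x ∈ rg D m A, x ∉ Q3 := fun h x hx e => Set.disjoint_left.1 (rg_dis g h) hx (sQ3 e)
  have zcm : zc ∈ Wm := mid' zc (List.mem_reverse.2 zc0)
    (oQ3 (fun i _ j _ h h' => by simp only [rc] at h; omega) zc (zc1 zc4))
    (sep2 (k + 1) (k + 2) (xb - 1) za zb Za Zb (fun _ j => j ≤ k + 1) (fun i j => k < i ∧ k + 2 ≤ j)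
      (by omega) (by omega) (by omega) le_rfl (by omega) (by omega) za2 zb2 za5 zb5 za4 zb4
      ⟨va, za3, za3'⟩ ⟨vb, zb3, cell_rg (by omega) (by omega) (by simp only [rc]; omega) zb3'⟩
      (za1.trans (rg_mono fun i _ j _ h => by simp only [rc] at h; omega))
      (zb1.trans (rg_mono fun i _ j _ h => by simp only [rc] at h; omega))
      (fun _ _ => le_rfl) (fun _ _ _ _ _ _ => by omega) (fun _ _ _ _ h => h.1)
      (fun _ _ h => ⟨h, le_rfl⟩) fun _ _ _ => by omega)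
    (sep2 (xb - 1) (k + 1) (k + 2) zb za Zb Za (fun _ j => xb - 1 ≤ j) (fun i j => k < i ∧ j ≤ k + 2)
      (by omega) (by omega) (by omega) (by omega) le_rfl (by omega) zb2 za2 zb5 za5 zb4 za4
      ⟨vb, zb3, zb3'⟩ ⟨va, za3, cell_rg (by omega) (by omega) (by simp only [rc]; omega) za3'⟩
      (zb1.trans (rg_mono fun i _ j _ h => by simp only [rc] at h; omega))
      (za1.trans (rg_mono fun i _ j _ h => by simp only [rc] at h; omega))
      (fun _ _ => le_rfl) (fun _ _ _ _ _ _ => by omega) (fun _ _ _ _ h => h.1)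
      (fun _ _ h => ⟨h, le_rfl⟩) fun _ _ _ => by omega)
  have Deep : rg D m (rc (k + 3) (xb - 1) (k + 1) (xb - 1)) ⊆ U0 \ Ut := by
    have e := cI (k + 3) (xb - 1) (k + 1) (xb - 1) (by omega) (by omega) (by omega) (by omega)
      (by omega) (by omega)
    have e6 : Zc ⊆ Up \ Q3 := fun x hx =>
      ⟨zc5 hx, oQ3 (fun i _ j _ h h' => by simp only [rc] at h; omega) x (zc1 hx)⟩
    exact (capi.sub_lk_meet (S := Up \ Q3) e.2 (fun x hx => ⟨(e.1 hx).1,
      oQ3 (fun i _ j _ h h' => by simp only [rc] at h; omega) x hx⟩)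
      ⟨vc, cell_rg (by omega) (by omega) (by simp only [rc]; omega) zc3',
        capi.sub_lk_meet zc2 e6 ⟨zc, zc4, capi.lk_self zcm (e6 zc4)⟩ zc3⟩).trans a7
  have pT : ∀ x ∈ ls Wa ∪ ls Wb ∪ un (sg (y :: Ym ++ [y'])), x ∈ Ut \ U0 :=
    fun x hx => a8 (capi.lk_self hx (a10 hx))
  have m0 : ∀ x ∈ Wm, x ∈ U0 \ Ut := fun x hx => a7 (capi.lk_self hx (a9 hx))
  have yT : ∀ x ∈ y :: Ym ++ [y'], x ∈ Ut \ U0 := fun x hx => pT x (Or.inr (by rwa [nf.un_sg]))
  have z0 : z ∈ U0 ∧ z ∈ Ut := (memS s3).1 (Or.inl (Or.inr rfl))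
  have z0' : z' ∈ U0 ∧ z' ∈ Ut := (memS s3).1 (Or.inl (Or.inl rfl))
  have t3 : ∀ x ∈ Y3, x ∈ U0 ∧ x ∈ Ut := fun x hx => (memS s3).1 (Or.inr hx)
  have u0 : ∀ x ∈ U0, x ∉ Uu := fun x hx h => (yT x (up2 x (sub1 s3 hx) h)).2 hx
  have mY2 : ∀ x, x ∈ Y2 ↔ x ∈ Wa ∨ x = z' ∨ x ∈ Wm ∨ x = z ∨ x ∈ Wb := fun x => by
    rw [← List.mem_reverse, eY]
    simp
  have po : ∀ x ∈ Up, x ∈ Uo → x = y ∨ x = y' ∨ x ∈ Y2 := fun x h h' => by
    rcases (memS s2).2 ⟨h, h'⟩ with (e | e) | e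
    exacts [Or.inl e, Or.inr (Or.inl e), Or.inr (Or.inr e)]
  have eY2 : Y2 = Wb.reverse ++ z :: Wm.reverse ++ z' :: Wa.reverse := by
    rw [← List.reverse_reverse Y2, eY]
    simp
  refine ⟨H0, U0, z' :: Wm ++ z :: Y3.reverse, ?_, s3.t1, fun x hx => pWp x (sub1 s3 hx), ?_, ?_,
    f5, ?_, ?_, ?_, ?_⟩
  · rw [← s1.sup, ← s2.sup, ← s3.sup]
    exact le_sup_of_le_right (le_sup_of_le_left le_sup_left)
  · intro x hx
    simp only [ls, mem_ofPred_eq, List.mem_append, List.mem_cons, List.mem_reverse] at hx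
    rcases hx with (rfl | hx) | rfl | hx
    exacts [z0'.1, (m0 x hx).1, z0.1, (t3 x hx).1]
  · have e := List.nodup_reverse.2 n2
    rw [eY] at e
    exact nd_aux e n3 d3 d3' fun x hx hx' => (m0 x hx).2 (t3 x hx').2
  · intro u hu hu' v e
    simp only [List.mem_append, List.mem_cons, List.mem_reverse, not_or] at hu'
    refine adj1 s3 (adj1 s2 (adj2 s1 e (u0 u hu)) fun h => ?_) fun h => ?_
    · rcases po u (sub1 s3 hu) h with rfl | rfl | h
      · exact (yT u (by simp)).2 hu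
      · exact (yT u (by simp)).2 hu
      · rcases (mY2 u).1 h with h | h | h | h | h
        exacts [(pT u (Or.inl (Or.inl h))).2 hu, hu'.1.1 h, hu'.1.2 h, hu'.2.1 h,
          (pT u (Or.inl (Or.inr h))).2 hu]
    · rcases (memS s3).2 ⟨hu, h⟩ with (h | h) | h
      exacts [hu'.1.1 h, hu'.2.1 h, hu'.2.2 h]
  · intro i hi j hj h
    refine Set.disjoint_left.2 fun v hv hv' => ?_
    rcases lt_trichotomy i k with c | rfl | c
    · exact u0 v hv' (Top (cell_rg hi hj (by simp only [rc]; omega) hv)).1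
    · obtain ⟨x, x1, T, r1, r2, r3, r4, r5, -⟩ := up j hj i le_rfl (by omega) v hv (u0 v hv')
      have e6 : T ⊆ Ul \ Q2 := fun x hx =>
        ⟨r5 hx, oQ2 (fun i _ j _ h h' => by simp only [rc] at h; omega) x (r1 hx)⟩
      simp only [List.mem_append, List.mem_cons] at x1
      have o : x ∈ ls Ya ∪ ls Yb ∪ un [r, b, l] → False := fun e =>
        (a4 (capi.sub_lk_meet r2 e6 ⟨x, r4, capi.lk_self e (a6 e)⟩ r3)).2 (sub1 s3 hv')
      rcases x1 with (e | rfl | e) | rfl | e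
      · exact o (Or.inl (Or.inl e))
      · exact (e6 r4).2 yQ
      · have e7 := (capi.sub_lk_meet r2 e6 ⟨x, r4, capi.lk_self e (a5 e)⟩).trans a3
        have e8 : x ∈ ls Wa ∪ ls Wb ∪ un (sg (y :: Ym ++ [y'])) :=
          Or.inr (by rw [nf.un_sg]; simp [ls, e])
        exact (a8 (capi.sub_lk_meet (S := Up \ Q3) (conn1 s2 r2 fun x hx => (e7 hx).2)
          (fun x hx => ⟨(e7 hx).1,
          oQ3 (fun i _ j _ h h' => by simp only [rc] at h; omega) x (r1 hx)⟩)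
          ⟨x, r4, capi.lk_self e8 (a10 e8)⟩ r3)).2 hv'
      · exact (e6 r4).2 yQ'
      · exact o (Or.inl (Or.inr e))
    · exact (Ot i hi j hj c (by omega) hv).2 (sub1 s3 hv')
  · intro i j h1 h2 h3 h4 v hv
    have e := Deep (cell_rg (by omega) (by omega) (by simp only [rc]; omega) hv)
    have e' := In (cell_rg (by omega) (by omega) (by simp only [rc]; omega) hv)
    refine ⟨e.1, fun h => ?_⟩
    simp only [List.mem_append, List.mem_cons, List.mem_reverse] at h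
    rcases h with (rfl | h) | rfl | h
    exacts [e.2 z0'.2, e'.2 (zB v ((mY2 v).2 (by simp [h]))).2, e.2 z0.2, e.2 (t3 v h).2]
  · intro H1 U1 hH
    have key := ann V H1 Hu Ht Ho U1 W (l ∪ t ∪ r ∪ b) Uu Ut Uo l t r b y y' z z' Ya Ym Yb
      Wb.reverse Wm.reverse Wa.reverse Y3 s1.t1 s3.t2 s2.t2
    rw [← eY2, List.reverse_reverse Wm, List.reverse_reverse Wb, List.reverse_reverse Wa] at key
    refine key ?_ ?_ f.pd p1.1 (fun x hx => pWp x (sub2 s3 hx)) ?_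
      (Set.disjoint_left.2 fun x hx => (bL hx).2) ?_
      (Set.disjoint_left.2 fun x hx e => (tU hx).2 (sub2 s2 e)) ?_
      (fun x hx => up2 x (sub2 s3 hx.2) hx.1) ?_ ?_ f1 f4 ?_ subset_rfl ?_ ?_
    · refine List.nodup_append.2 ⟨List.nodup_append.2 ⟨n1, n2,
        fun x hx x' hx' e => zu x' hx' (e ▸ (yB x hx).1)⟩, n3, fun x hx x' hx' e => ?_⟩
      subst e
      rcases List.mem_append.1 hx with hx | hx
      · exact u0 x (t3 x hx').1 (yB x hx).1
      · rcases (mY2 x).1 hx with h | rfl | h | rfl | h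
        exacts [(pT x (Or.inl (Or.inl h))).2 (t3 x hx').1, d3 hx', (m0 x h).2 (t3 x hx').2, d3' hx',
          (pT x (Or.inl (Or.inr h))).2 (t3 x hx').1]
    · intro x hx
      rcases List.mem_append.1 hx with hx | hx
      · rcases List.mem_append.1 hx with hx | hx
        exacts [yW x hx, pWp x (zB x hx).1]
      · exact pWp x (sub1 s3 (t3 x hx).1)
    · exact union_subset (union_subset (union_subset (fun x hx => (lB x hx).1)
        fun x hx => (tU hx).1) fun x hx => (rB x hx).1) fun x hx => (yB x hx).1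
    · refine union_subset (union_subset (union_subset (union_subset
        (fun x hx => (pO x (Or.inr ⟨r, by simp, hx⟩)).1)
        fun x hx => (pO x (Or.inr ⟨b, by simp, hx⟩)).1)
        fun x hx => (pO x (Or.inr ⟨l, by simp, hx⟩)).1) fun x hx => ?_) fun x hx => (zB x hx).2
      simp only [ls, mem_ofPred_eq, List.mem_append, List.mem_cons] at hx
      rcases hx with hx | rfl | rfl | hx
      exacts [(pO x (Or.inl (Or.inl hx))).1, y0.2, y0'.2, (pO x (Or.inl (Or.inr hx))).1]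
    · intro x hx
      simp only [ls, mem_ofPred_eq, List.mem_append, List.mem_cons, List.mem_reverse] at hx
      rcases hx with (((rfl | hx) | rfl | hx) | rfl | rfl | hx) | hx
      exacts [(yT x (by simp)).1, (yT x (by simp [hx])).1, (yT x (by simp)).1,
        (pT x (Or.inl (Or.inr hx))).1, z0.2, z0'.2, (pT x (Or.inl (Or.inl hx))).1, (t3 x hx).2]
    · intro x hx
      rcases (memS s1).2 ⟨hx.1, sub2 s2 hx.2⟩ with h | h
      · exact Or.inl h
      · refine Or.inr ?_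
        simp only [ls, mem_ofPred_eq, List.mem_append, List.mem_cons] at h ⊢
        rcases h with (h | h | h) | h | h
        exacts [Or.inl h, Or.inr (Or.inl h), absurd hx.2 (mO x h).2, Or.inr (Or.inr (Or.inl h)),
          Or.inr (Or.inr (Or.inr h))]
    · intro x hx
      have h := po x (sub2 s3 hx.1) hx.2
      rw [mY2] at h
      simp only [ls, mem_ofPred_eq, List.mem_append, List.mem_cons, List.mem_reverse]
      rcases h with h | h | h | h | h | h | h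
      exacts [Or.inl (Or.inl h), Or.inl (Or.inr (Or.inl h)), Or.inr (Or.inr (Or.inr h)),
        Or.inr (Or.inr (Or.inl h)), absurd hx.1 (m0 x h).2, Or.inr (Or.inl h),
        Or.inl (Or.inr (Or.inr h))]
    · intro e
      refine f6 ?_
      simpa [nf.sg_append, nf.sg_cons, sg] using nf.cr_iff_px.1 e
    · exact disjoint_union_left.2 ⟨disjoint_union_left.2 ⟨disjoint_union_left.2
        ⟨dl.symm, dt.symm⟩, dr.symm⟩, db.symm⟩
    · intro u hu v e
      obtain ⟨e1, e2⟩ := hH u hu v e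
      refine ⟨f.clo u hu v e1, ?_⟩
      rw [← s1.sup, ← s2.sup, ← s3.sup] at e1
      rcases e1 with e1 | (e1 | e1) | e1
      exacts [Or.inl (Or.inl e1), absurd e1 e2, Or.inl (Or.inr e1), Or.inr e1]

end disc

open disc in
theorem discS (cutp : CutPS) (ann : AnnS) : DiscS := by
  intro V _ H U W l t r b m k D f hk hm
  obtain ⟨H0, U0, L, o⟩ := core cutp ann (fw_res f) hk hm
  obtain ⟨p1, p2, p3, p4, p5, p6, p7⟩ := f.pc
  have pd := (List.pairwise_cons.1 f.pd).1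
  have le : H0 ≤ H := o.le.trans fun _ _ e => e.1
  have sW : W ⊆ U := fun x hx => f.sub (by simp [hx])
  have dI : ∀ x ∈ l ∪ t ∪ r ∪ b, x ∉ W := fun x hx e => by
    rcases hx with ((h | h) | h) | h
    all_goals exact Set.disjoint_left.1 (pd _ (by simp)) e h
  have sI : l ∪ t ∪ r ∪ b ⊆ U := fun x hx => f.sub (by simp only [mem_union] at hx ⊢; tauto)
  refine ⟨H0, H \ H0, U0, U \ U0 ∪ ls L, l ∪ t ∪ r ∪ b, L, f.toGr,
    ⟨sup_sdiff_cancel_right le, disjoint_sdiff_self_right, o.tight, fun u v e => ?_, ?_, ?_⟩,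
    o.nd, o.flat, ⟨o.sub, sW, fun x hx => ⟨sI hx, dI x hx⟩⟩, ⟨?_, fun j hj => ?_⟩, ?_, o.out, ?_⟩
  · by_contra c
    have c1 : u ∈ U0 := by_contra fun c1 => c (Or.inl ⟨f.tight u v e.1, c1⟩)
    exact e.2 (o.inn u c1 (fun c2 => c (Or.inr c2)) v
      ⟨e.1, by simp [o.sub c1], f.clo u (o.sub c1) v e.1⟩)
  · refine Subset.antisymm (union_subset (o.sub.trans sW)
      (union_subset sdiff_subset (o.lsub.trans (o.sub.trans sW)))) fun x hx => ?_
    by_cases c : x ∈ U0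
    exacts [Or.inl c, Or.inr (Or.inl ⟨hx, c⟩)]
  · refine Subset.antisymm ?_ fun x hx => ⟨o.lsub hx, Or.inr hx⟩
    rintro x ⟨h1, h2 | h2⟩
    exacts [absurd h1 h2.2, h2]
  · exact conn_tr (conn_union_touch (conn_union_touch (conn_union_touch p1 p2 p5) p3
      (p6.mono subset_union_right subset_rfl)) p4 (p7.mono subset_union_right subset_rfl))
      fun u hu v _ e => ⟨e, fun c => dI u hu (o.sub (o.tight u v c))⟩
  · exact (f.side j hj).2.1.mono (fun x hx => by simp [hx]) subset_rfl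
  · exact o.hf _ _ fun u hu v e => ⟨⟨e.1, by simp [hu], f.clo u hu v e.1⟩, e.2⟩
  · intro i j h1 h2 h3 h4
    refine Set.disjoint_left.2 fun v hv c => ?_
    obtain ⟨e1, e2⟩ := o.deep i j h1 h2 h3 h4 v hv
    rcases c with c | c
    exacts [c.2 e1, e2 c]

end Pool.Agent.MP_9d78a0_co.st

end MrgPart4

-- marker of a merged file
example : 731051 + 725380 = 731051 + 725380 := rfl
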