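import Pool.Agent.MP_9d78a0_co.st.Del
import Pool.Agent.MP_9d78a0_co.st.Dbl
import Pool.Agent.MP_9d78a0_co.st.In
import Pool.Agent.MP_9d78a0_co.st.Out
import Pool.Agent.MP_9d78a0_co.st.Sit
import Pool.Agent.MP_9d78a0_co.st.Split

-- ======== part 0: formerly Pool.Agent.MP_9d78a0_co.st.Crd
section MrgPart0

/-! Coordinates on a collar. -/

set_option autoImplicit false

namespace Pool.Agent.MP_9d78a0_co.st

open Set Function fb

namespace crd

variable {V : Type} {H : SimpleGraph V} {U : Set V} {Ω : List V} {c : CD V}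

theorem two_symm {P Q : Set V} (h : Two H U P Q) : Two H U Q P :=
  ⟨h.sq, h.sp, h.cq, h.cp, h.dis.symm⟩

theorem hf_step {I : Set V} {x : V} {L : List V} (h : HF H U (x :: L) I) :
    HF H U (L ++ [x]) I := by
  intro a b e d hs P Q hT ha he hb hd
  obtain ⟨l1, l2, k, h1, h2⟩ := List.sublist_append_iff.1 hs
  rcases List.sublist_singleton.1 h2 with rfl | rfl
  · rw [List.append_nil] at k
    subst k
    exact h a b e d (h1.cons x) P Q hT ha he hb hd
  · obtain ⟨k1, k2⟩ := List.append_inj' (s₁ := [a, b, e]) (t₁ := [d]) k rfl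
    obtain rfl : d = x := by simpa using k2
    subst k1
    exact (h d a b e (h1.cons_cons d) Q P (two_symm hT) hd hb ha he).symm

theorem hf_rot {I : Set V} {L L' : List V} (h : HF H U L I) (r : List.IsRotated L L') :
    HF H U L' I := by
  obtain ⟨n, rfl⟩ := r
  induction n generalizing L with
  | zero => simpa using h
  | succ n ih =>
    cases L with
    | nil => simpa using h
    | cons x L =>
      rw [List.rotate_cons_succ]
      exact ih (hf_step h)

/-- the letters of angle `k` -/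
def pc (c : CD V) (k : ℕ) : List V := if k % 2 = 0 then [c.o (k / 2)] else c.seg (k / 2)

theorem pc_even (i : ℕ) : pc c (2 * i) = [c.o i] := by
  simp [pc]

theorem pc_odd (i : ℕ) : pc c (2 * i + 1) = c.seg i := by
  have h1 : (2 * i + 1) % 2 ≠ 0 := by omega
  have h2 : (2 * i + 1) / 2 = i := by omega
  simp only [pc, h1, h2, if_false]

theorem cyc_eq (t : ℕ) : cyc c.o c.seg t = (List.range (2 * t)).flatMap (pc c) := by
  induction t with
  | zero => rfl
  | succ t ih =>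
    have e : 2 * (t + 1) = 2 * t + 1 + 1 := by omega
    rw [e, List.range_succ, List.range_succ, List.flatMap_append, List.flatMap_append, ← ih]
    simp [cyc, List.range_succ, pc_even, pc_odd]

theorem sub4 {f : ℕ → List V} {n k1 k2 k3 k4 : ℕ} {x1 x2 x3 x4 : V} (h12 : k1 < k2)
    (h23 : k2 < k3) (h34 : k3 < k4) (h4 : k4 < n) (m1 : x1 ∈ f k1) (m2 : x2 ∈ f k2)
    (m3 : x3 ∈ f k3) (m4 : x4 ∈ f k4) :
    List.Sublist [x1, x2, x3, x4] ((List.range n).flatMap f) := by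
  have p : List.Pairwise (· < ·) [k1, k2, k3, k4] := by
    simp only [List.pairwise_cons, List.mem_cons, List.not_mem_nil, or_false, forall_eq_or_imp,
      forall_eq, List.Pairwise.nil, and_true, IsEmpty.forall_iff, implies_true]
    omega
  have s : List.Sublist [k1, k2, k3, k4] (List.range n) := by
    refine List.sublist_of_subperm_of_pairwise (r := (· < ·)) ?_ p List.pairwise_lt_range
    refine List.subperm_of_subset (p.imp fun h => ne_of_lt h) fun k hk => ?_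
    simp only [List.mem_cons, List.not_mem_nil, or_false] at hk
    rw [List.mem_range]
    omega
  refine List.Sublist.trans ?_ (s.flatMap f)
  simp only [List.flatMap_cons, List.flatMap_nil, List.append_nil]
  exact (List.singleton_sublist.2 m1).append ((List.singleton_sublist.2 m2).append
    ((List.singleton_sublist.2 m3).append (List.singleton_sublist.2 m4)))

theorem mem_om (h : FCol H U Ω c) {x : V} : x ∈ Ω ↔ ∃ k < 2 * c.t, x ∈ pc c k := by
  rw [h.rot.mem_iff, cyc_eq]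
  simp

theorem pc_inj (h : FCol H U Ω c) {x : V} {k k' : ℕ} (hk : k < 2 * c.t) (hk' : k' < 2 * c.t)
    (m : x ∈ pc c k) (m' : x ∈ pc c k') : k = k' := by
  have n := h.rot.nodup_iff.1 h.soc.nd
  rw [cyc_eq] at n
  have p := (List.nodup_flatMap.1 n).2
  by_contra e
  have : Std.Symm (List.Disjoint on pc c) := ⟨fun _ _ d => List.Disjoint.symm d⟩
  exact List.Pairwise.forall p (List.mem_range.2 hk) (List.mem_range.2 hk') e m m'

theorem col_cases {i : ℕ} {v : V} (hv : v ∈ c.col i) : v ∈ c.Λ i ∨ ∃ l ≤ c.s, v ∈ c.C l i := by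
  rcases hv with k | ⟨l, -, k1, k2⟩
  exacts [Or.inl k, Or.inr ⟨l, k1, k2⟩]

theorem cell_col {l i : ℕ} (hl : l ≤ c.s) : c.C l i ⊆ c.col i :=
  fun _ hv => Or.inr ⟨l, Nat.zero_le _, hl, hv⟩

theorem col_sub (h : FCol H U Ω c) {i : ℕ} (hi : i < c.t) : c.col i ⊆ U \ c.I := by
  intro v hv
  rcases col_cases hv with k | ⟨l, k1, k2⟩
  · exact (h.lam i hi).1 k
  · have := (h.cell l k1 i hi).1 k2
    exact ⟨this.1, fun e => this.2 (Or.inl e)⟩

theorem o_lam (h : FCol H U Ω c) {i : ℕ} (hi : i < c.t) : c.o i ∈ c.Λ i := by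
  have : c.o i ∈ c.Λ i ∩ ls Ω := by
    rw [(h.lam i hi).2.2.2]
    rfl
  exact this.1

theorem o_col (h : FCol H U Ω c) {i : ℕ} (hi : i < c.t) : c.o i ∈ c.col i := Or.inl (o_lam h hi)

theorem col_conn (h : FCol H U Ω c) {i : ℕ} (hi : i < c.t) : Conn H (c.col i) := by
  have k : Conn H (⋃ l ∈ Icc 0 c.s, c.C l i) :=
    conn_chain (S := fun l => c.C l i) (Nat.zero_le _) (fun l hl => (h.cell l hl.2 i hi).2)
      fun l _ hl => Or.inr (h.ver l hl i hi)
  have e : c.col i = c.Λ i ∪ ⋃ l ∈ Icc 0 c.s, c.C l i := by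
    ext v
    simp [CD.col, CD.up]
  rw [e]
  exact conn_union_touch (h.lam i hi).2.1 k ((h.lam i hi).2.2.1.symm.mono subset_rfl
    (subset_biUnion_of_mem (u := fun l => c.C l i) (show c.s ∈ Icc 0 c.s from ⟨Nat.zero_le _, le_rfl⟩)))

theorem col_inj (h : FCol H U Ω c) {i j : ℕ} (hi : i < c.t) (hj : j < c.t) {v : V}
    (m : v ∈ c.col i) (m' : v ∈ c.col j) : i = j := by
  by_contra e
  rcases col_cases m with k | ⟨l, k1, k2⟩ <;> rcases col_cases m' with k' | ⟨l', k1', k2'⟩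
  · exact disjoint_left.1 ((h.lamd i hi j hj).1 e) k k'
  · exact disjoint_left.1 ((h.lamd i hi j hj).2 l' k1') k k2'
  · exact disjoint_left.1 ((h.lamd j hj i hi).2 l k1) k' k2
  · exact disjoint_left.1 (h.dis l k1 i hi l' k1' j hj fun q => e (congrArg Prod.snd q)) k2 k2'

theorem col_let (h : FCol H U Ω c) {i : ℕ} (hi : i < c.t) {v : V} (m : v ∈ c.col i)
    (m' : v ∈ Ω) : v = c.o i := by
  rcases col_cases m with k | ⟨l, k1, k2⟩
  · have : v ∈ c.Λ i ∩ ls Ω := ⟨k, m'⟩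
    rwa [(h.lam i hi).2.2.2] at this
  · exact absurd (Or.inr m') ((h.cell l k1 i hi).1 k2).2

/-- a connected set off the hub does not cross two columns -/
theorem cross (h : FCol H U Ω c) {P : Set V} (sP : P ⊆ U \ c.I) (cP : Conn H P) {a b i j : ℕ}
    {x y : V} (hx : x ∈ P) (hx' : x ∈ pc c a) (hy : y ∈ P) (hy' : y ∈ pc c b) (hb : b < 2 * c.t)
    (h1 : a < 2 * i) (h2 : 2 * i < b) (hj : j < c.t) (h3 : 2 * j < a ∨ b < 2 * j)
    (di : Disjoint P (c.col i)) (dj : Disjoint P (c.col j)) : False := by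
  have hi : i < c.t := by omega
  have t0 : ∀ e < c.t, Touch H c.I (c.col e) := fun e he =>
    (h.hub.2.2.2 e he).mono subset_rfl (cell_col (Nat.zero_le _))
  have cQ : Conn H (c.I ∪ c.col i ∪ c.col j) :=
    conn_union_touch (conn_union_touch h.hub.2.1 (col_conn h hi) (t0 i hi)) (col_conn h hj)
      ((t0 j hj).mono subset_union_left subset_rfl)
  have dI : Disjoint P c.I := disjoint_left.2 fun v hv => (sP hv).2
  have T : Two H U P (c.I ∪ c.col i ∪ c.col j) :=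
    ⟨fun v hv => (sP hv).1, union_subset (union_subset h.hub.1 fun v hv => (col_sub h hi hv).1)
      fun v hv => (col_sub h hj hv).1, cP, cQ,
      disjoint_union_right.2 ⟨disjoint_union_right.2 ⟨dI, di⟩, dj⟩⟩
  have F := hf_rot h.flat h.rot
  rw [cyc_eq] at F
  have oi : c.o i ∈ pc c (2 * i) := by simp [pc_even]
  have oj : c.o j ∈ pc c (2 * j) := by simp [pc_even]
  have mi : c.o i ∈ c.I ∪ c.col i ∪ c.col j := Or.inl (Or.inr (o_col h hi))
  have mj : c.o j ∈ c.I ∪ c.col i ∪ c.col j := Or.inr (o_col h hj)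
  rcases h3 with h3 | h3
  · obtain ⟨z, hz⟩ := (F _ _ _ _ (sub4 h3 h1 h2 hb oj hx' oi hy') _ _ (two_symm T) mj mi hx hy).2
    exact (sP hz.1).2 hz.2
  · obtain ⟨z, hz⟩ := (F _ _ _ _ (sub4 h1 h2 h3 (by omega) hx' oi hy' oj) _ _ T hx hy mi mj).1
    exact (sP hz.1).2 hz.2

/-- neighbouring angles -/
def Nr (t a b : ℕ) : Prop :=
  a = b ∨ a + 1 = b ∨ b + 1 = a ∨ (a + 1 = 2 * t ∧ b = 0) ∨ (b + 1 = 2 * t ∧ a = 0) ∨
    (a % 2 = 0 ∧ (a + 2 = b ∨ b + 2 = a ∨ (a + 2 = 2 * t ∧ b = 0) ∨ (b + 2 = 2 * t ∧ a = 0)))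

theorem Nr.stp {t a b : ℕ} (h : Nr t a b) (ha : a < 2 * t) (hb : b < 2 * t) : Stp t a b := by
  rcases h with k | k | k | ⟨k, rfl⟩ | ⟨k, rfl⟩ | ⟨k, k1 | k1 | ⟨k1, rfl⟩ | ⟨k1, rfl⟩⟩
  · exact Or.inl k
  · exact Or.inr (Or.inl (by rw [k, Nat.mod_eq_of_lt hb]))
  · exact Or.inr (Or.inr (Or.inl (by rw [k, Nat.mod_eq_of_lt ha])))
  · exact Or.inr (Or.inl (by rw [k, Nat.mod_self]))
  · exact Or.inr (Or.inr (Or.inl (by rw [k, Nat.mod_self])))
  · exact Or.inr (Or.inr (Or.inr ⟨k, Or.inl (by rw [k1, Nat.mod_eq_of_lt hb])⟩))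
  · exact Or.inr (Or.inr (Or.inr ⟨k, Or.inr (by rw [k1, Nat.mod_eq_of_lt ha])⟩))
  · exact Or.inr (Or.inr (Or.inr ⟨k, Or.inl (by rw [k1, Nat.mod_self])⟩))
  · exact Or.inr (Or.inr (Or.inr ⟨k, Or.inr (by rw [k1, Nat.mod_self])⟩))

theorem near_lt (h : FCol H U Ω c) {P : Set V} (sP : P ⊆ U \ c.I) (cP : Conn H P) {a b : ℕ}
    {x y : V} (hx : x ∈ P) (hx' : x ∈ pc c a) (hy : y ∈ P) (hy' : y ∈ pc c b) (hab : a < b)
    (hb : b < 2 * c.t) (d : ∀ i < c.t, 2 * i ≠ a → 2 * i ≠ b → Disjoint P (c.col i)) :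
    2 * (a / 2 + 1) < b → a = 0 ∧ 2 * c.t ≤ b + 2 := by
  intro h2
  by_contra e
  have di := d (a / 2 + 1) (by omega) (by omega) (by omega)
  by_cases z : a = 0
  · exact cross h sP cP hx hx' hy hy' hb (by omega) h2 (j := c.t - 1) (by omega) (by omega) di
      (d _ (by omega) (by omega) (by omega))
  · exact cross h sP cP hx hx' hy hy' hb (by omega) h2 (j := 0) (by omega) (by omega) di
      (d _ (by omega) (by omega) (by omega))

theorem near (h : FCol H U Ω c) {P : Set V} (sP : P ⊆ U \ c.I) (cP : Conn H P) {a b : ℕ}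
    {x y : V} (hx : x ∈ P) (hx' : x ∈ pc c a) (hy : y ∈ P) (hy' : y ∈ pc c b) (ha : a < 2 * c.t)
    (hb : b < 2 * c.t) (d : ∀ i < c.t, 2 * i ≠ a → 2 * i ≠ b → Disjoint P (c.col i)) :
    Nr c.t a b := by
  unfold Nr
  rcases lt_trichotomy a b with k | k | k
  · have := near_lt h sP cP hx hx' hy hy' k hb d
    omega
  · exact Or.inl k
  · have := near_lt h sP cP hy hy' hx hx' k ha fun i hi e1 e2 => d i hi e2 e1
    omega

/-- `a` is an angle on the boundary of sector `j` or in it -/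
def Sec (t j a : ℕ) : Prop := a = 2 * j ∨ a = 2 * j + 1 ∨ a = 2 * j + 2 ∨ (a = 0 ∧ j + 1 = t)

theorem sec_ex {t : ℕ} (ht : 4 ≤ t) {A : Set ℕ} (h0 : A.Nonempty) (h1 : ∀ a ∈ A, a < 2 * t)
    (h2 : ∀ a ∈ A, ∀ b ∈ A, Nr t a b) : ∃ j, j < t ∧ ∀ a ∈ A, Sec t j a := by
  unfold Sec
  unfold Nr at h2
  by_cases o : ∃ a ∈ A, a % 2 = 1
  · obtain ⟨a, ha, k⟩ := o
    have := h1 a ha
    refine ⟨a / 2, by omega, fun b hb => ?_⟩
    have := h2 a ha b hb
    have := h1 b hb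
    omega
  · push Not at o
    obtain ⟨a, ha⟩ := h0
    have := h1 a ha
    have := o a ha
    by_cases n : ∃ e ∈ A, e = a + 2 ∨ (e = 0 ∧ a + 2 = 2 * t)
    · obtain ⟨e, he, k⟩ := n
      refine ⟨a / 2, by omega, fun b hb => ?_⟩
      have := h2 a ha b hb
      have := h2 e he b hb
      have := h1 b hb
      have := h1 e he
      have := o b hb
      omega
    · push Not at n
      by_cases z : a = 0
      · refine ⟨t - 1, by omega, fun b hb => ?_⟩
        have := h2 a ha b hb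
        have := h1 b hb
        have := o b hb
        have := n b hb
        omega
      · refine ⟨a / 2 - 1, by omega, fun b hb => ?_⟩
        have := h2 a ha b hb
        have := h1 b hb
        have := o b hb
        have := n b hb
        omega

/-- the vertices off the hub and the columns -/
def Br (U : Set V) (c : CD V) : Set V := (U \ c.I) \ c.cols

/-- the angles at which the bridge of `v` is attached -/
def Att (H : SimpleGraph V) (U : Set V) (c : CD V) (v : V) : Set ℕ :=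
  {a | a < 2 * c.t ∧ ∃ x ∈ cp H (Br U c) v,
    (∃ i, a = 2 * i ∧ ∃ y ∈ c.col i, H.Adj x y) ∨ ∃ i, a = 2 * i + 1 ∧ x ∈ c.seg i}

theorem att_eq {u v : V} (k : Link H (Br U c) u v) : Att H U c u = Att H U c v := by
  have e : cp H (Br U c) u = cp H (Br U c) v := by
    ext x
    exact ⟨fun m => ⟨m.1, k.symm.trans m.2⟩, fun m => ⟨m.1, k.trans m.2⟩⟩
  unfold Att
  rw [e]

theorem att_set (h : FCol H U Ω c) {v : V} (hv : v ∈ Br U c) {a : ℕ} (ha : a ∈ Att H U c v) :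
    ∃ P ⊆ U \ c.I, Conn H P ∧ v ∈ P ∧ (∃ x ∈ P, x ∈ pc c a) ∧
      ∀ i < c.t, 2 * i ≠ a → Disjoint P (c.col i) := by
  have s : cp H (Br U c) v ⊆ U \ c.I := fun z hz => hz.1.1
  have d : ∀ i < c.t, Disjoint (cp H (Br U c) v) (c.col i) := fun i hi =>
    disjoint_left.2 fun z hz m => hz.1.2 ⟨i, hi, m⟩
  obtain ⟨h1, x, hx, ⟨i, rfl, y, hy, e⟩ | ⟨i, rfl, m⟩⟩ := ha
  · have hi : i < c.t := by omega
    refine ⟨cp H (Br U c) v ∪ c.col i, union_subset s (col_sub h hi),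
      conn_union_touch (cp_conn hv) (col_conn h hi) ⟨x, hx, y, hy, e⟩, Or.inl (cp_self hv),
      ⟨c.o i, Or.inr (o_col h hi), by simp [pc_even]⟩, fun j hj n => ?_⟩
    exact disjoint_union_left.2 ⟨d j hj, disjoint_left.2 fun z m m' =>
      n (by rw [col_inj h hi hj m m'])⟩
  · exact ⟨_, s, cp_conn hv, cp_self hv, ⟨x, hx, by rwa [pc_odd]⟩, fun j hj _ => d j hj⟩

theorem att_near (h : FCol H U Ω c) {v : V} (hv : v ∈ Br U c) {a b : ℕ} (ha : a ∈ Att H U c v)
    (hb : b ∈ Att H U c v) : Nr c.t a b := by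
  obtain ⟨P, p1, p2, p3, ⟨x, p4, p5⟩, p6⟩ := att_set h hv ha
  obtain ⟨Q, q1, q2, q3, ⟨y, q4, q5⟩, q6⟩ := att_set h hv hb
  exact near h (union_subset p1 q1) (pl.conn_union p2 q2 p3 q3) (Or.inl p4) p5 (Or.inr q4) q5
    ha.1 hb.1 fun i hi n n' => disjoint_union_left.2 ⟨p6 i hi n, q6 i hi n'⟩

theorem ang_ex (h : FCol H U Ω c) : ∃ ang : V → ℕ, (∀ i < c.t, ∀ v ∈ c.col i, ang v = 2 * i) ∧
    (∀ v ∈ Br U c, (Att H U c v = ∅ ∧ ang v = 2 * c.t) ∨ ((Att H U c v).Nonempty ∧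
      ∃ j < c.t, ang v = 2 * j + 1 ∧ ∀ a ∈ Att H U c v, Sec c.t j a)) ∧
    ∀ u ∈ Br U c, ∀ v, Link H (Br U c) u v → ang u = ang v := by
  classical
  let g : Set ℕ → ℕ := fun A => if A.Nonempty then
    2 * (Classical.epsilon fun j => j < c.t ∧ ∀ a ∈ A, Sec c.t j a) + 1 else 2 * c.t
  refine ⟨fun v => if k : v ∈ c.cols then 2 * k.choose else g (Att H U c v), fun i hi v hv => ?_,
    fun v hv => ?_, fun u hu v k => ?_⟩
  · have k : v ∈ c.cols := ⟨i, hi, hv⟩
    simp only [k, dif_pos]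
    rw [col_inj h k.choose_spec.1 hi k.choose_spec.2 hv]
  · simp only [hv.2, dif_neg, not_false_eq_true]
    by_cases n : (Att H U c v).Nonempty
    · have s := Classical.epsilon_spec (sec_ex h.t4 n (fun a ha => ha.1)
        fun a ha b hb => att_near h hv ha hb)
      exact Or.inr ⟨n, _, s.1, if_pos n, s.2⟩
    · exact Or.inl ⟨not_nonempty_iff_eq_empty.1 n, if_neg n⟩
  · simp only [hu.2, (k.mem hu).2, dif_neg, not_false_eq_true]
    rw [att_eq k]

theorem lev_ex (hI : InS) (h : Col H U Ω c) : ∃ lev : V → ℕ, (∀ v, lev v ≤ c.s) ∧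
    ∀ l ≤ c.s, ∀ v ∈ U \ c.I, v ∈ c.In H U l ↔ lev v < l := by
  classical
  have n := hI V H U Ω c h.toFCol
  refine ⟨fun v => Nat.findGreatest (fun l => v ∉ c.In H U l) c.s,
    fun v => Nat.findGreatest_le _, fun l hl v hv => ⟨fun m => ?_, fun m => ?_⟩⟩
  · have z : v ∉ c.In H U 0 := by
      rintro ⟨-, a, ha, -, k⟩
      obtain ⟨x, y, -, k1, k2, k3, k4, -⟩ := link_exit k ha hv.2
      exact k1.2 ((h.sat x k2 y k4).resolve_left k3)
    have s := Nat.findGreatest_spec (P := fun l => v ∉ c.In H U l) (Nat.zero_le c.s) z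
    by_contra e
    rcases (not_lt.1 e).eq_or_lt with q | q
    · exact s ((congrArg (fun l => v ∈ c.In H U l) q).mp m)
    · exact s ((n _ (Nat.findGreatest_le _)).2.2.2.2.1 l q (Or.inl m))
  · by_contra e
    exact Nat.findGreatest_is_greatest m hl e

end crd

open crd in
theorem crdS : InS → CrdS := by
  intro hI V H U Ω c hc
  have h := hc.toFCol
  have n := hI V H U Ω c h
  obtain ⟨ang, a1, a2, a3⟩ := ang_ex h
  obtain ⟨lev, l1, l2⟩ := lev_ex hI hc
  have top : ∀ v ∈ U \ c.I, v ∉ c.In H U c.s → lev v = c.s := fun v hv m =>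
    le_antisymm (l1 v) (not_lt.1 fun e => m ((l2 _ le_rfl v hv).2 e))
  have cell : ∀ l ≤ c.s, ∀ i < c.t, ∀ v ∈ c.C l i, lev v = l := by
    intro l hl i hi v hv
    have m := col_sub h hi (cell_col hl hv)
    refine le_antisymm (not_lt.1 fun e => ?_) (not_lt.1 fun e => ?_)
    · exact lt_irrefl _ ((l2 _ (l1 v) v m).1 ((n _ (l1 v)).2.2.2.2.1 l e (Or.inr ⟨i, hi, hv⟩)))
    · exact disjoint_left.1 ((n l hl).2.2.2.1 i hi).1 ((l2 l hl v m).2 e)
        (Or.inr ⟨l, le_rfl, hl, hv⟩)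
  have lam : ∀ i < c.t, ∀ v ∈ c.Λ i, lev v = c.s := fun i hi v hv =>
    top v ((h.lam i hi).1 hv) fun m =>
      disjoint_left.1 ((n _ le_rfl).2.2.2.1 i hi).1 m (Or.inl hv)
  have cs : ∀ v ∈ U \ c.I, (∃ i < c.t, v ∈ c.col i) ∨ v ∈ Br U c := fun v hv =>
    (em (v ∈ c.cols)).imp id fun m => ⟨hv, m⟩
  have segB : ∀ i < c.t, ∀ v ∈ c.seg i, v ∈ Ω ∧ v ∈ Br U c := by
    intro i hi v hv
    have m : v ∈ pc c (2 * i + 1) := by rwa [pc_odd]
    have m' : v ∈ Ω := (mem_om h).2 ⟨_, by omega, m⟩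
    refine ⟨m', ⟨h.soc.sub v m', fun e => disjoint_left.1 h.hub.2.2.1 e m'⟩, ?_⟩
    rintro ⟨j, hj, e⟩
    have := pc_inj h (k := 2 * i + 1) (k' := 2 * j) (by omega) (by omega) m
      (by simp [pc_even, col_let h hj e m'])
    omega
  have att : ∀ v ∈ U \ c.I, ang v < 2 * c.t → ∃ w ∈ ls Ω ∪ c.cols, w ∈ U \ c.I ∧
      Link H ({x | x ∈ U \ c.I ∧ ang x = ang v} ∪ {w}) v w := by
    intro v hv e
    rcases cs v hv with m | m
    · exact ⟨v, Or.inr m, hv, Link.refl _ _ _⟩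
    · have s : cp H (Br U c) v ⊆ {x | x ∈ U \ c.I ∧ ang x = ang v} := fun z hz =>
        ⟨hz.1.1, (a3 v m z hz.2).symm⟩
      rcases a2 v m with ⟨-, k⟩ | ⟨⟨a, k1, x, hx, k2⟩, -⟩
      · omega
      · have k3 := (cp_conn m).2 v (cp_self m) x hx
        rcases k2 with ⟨i, rfl, y, hy, e'⟩ | ⟨i, rfl, hy⟩
        · have hi : i < c.t := by omega
          exact ⟨y, Or.inr ⟨i, hi, hy⟩, col_sub h hi hy,
            (k3.mono (s.trans subset_union_left)).trans
              (Link.single (Or.inl (s hx)) (Or.inr rfl) e')⟩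
        · exact ⟨x, Or.inl (segB i (by omega) x hy).1, hx.1.1, k3.mono (s.trans subset_union_left)⟩
  have edge : ∀ i < c.t, ∀ u ∈ c.col i, ∀ v ∈ Br U c, H.Adj v u →
      ∃ j < c.t, ang v = 2 * j + 1 ∧ Sec c.t j (2 * i) := by
    intro i hi u hu v hv e
    have m : 2 * i ∈ Att H U c v := ⟨by omega, v, cp_self hv, Or.inl ⟨i, rfl, u, hu, e⟩⟩
    rcases a2 v hv with ⟨k, -⟩ | ⟨-, j, hj, k1, k2⟩
    · rw [k] at m
      exact m.elim
    · exact ⟨j, hj, k1, k2 _ m⟩
  refine ⟨lev, ang, fun v hv => ⟨l1 v, ?_⟩, fun v hv i hi => ⟨fun e => ?_, a1 i hi v⟩, cell,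
    fun i hi => ⟨lam i hi, fun v hv => ?_⟩, fun v hv => ⟨fun e => ?_, ?_⟩,
    fun u hu v hv e => ⟨fun e' => ?_, ?_⟩, l2, fun v hv e => ?_, fun v hv e => ?_⟩
  · rcases cs v hv with ⟨i, hi, m⟩ | m
    · have := a1 i hi v m
      omega
    · rcases a2 v m with ⟨-, k⟩ | ⟨-, j, hj, k, -⟩ <;> omega
  · rcases cs v hv with ⟨j, hj, m⟩ | m
    · have := a1 j hj v m
      obtain rfl : i = j := by omega
      exact m
    · rcases a2 v m with ⟨-, k⟩ | ⟨-, j, hj, k, -⟩ <;> omega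
  · obtain ⟨m, m'⟩ := segB i hi v hv
    refine ⟨top v m'.1 fun e => disjoint_left.1 (n _ le_rfl).2.2.1 e m, ?_⟩
    have q : 2 * i + 1 ∈ Att H U c v := ⟨by omega, v, cp_self m', Or.inr ⟨i, rfl, hv⟩⟩
    rcases a2 v m' with ⟨k, -⟩ | ⟨-, j, hj, k1, k2⟩
    · rw [k] at q
      exact q.elim
    · have := k2 _ q
      unfold Sec at this
      omega
  · obtain ⟨w, k1, k2, k3⟩ := att v hv e
    exact ⟨hv, w, k1, k2, (k3.mono (union_subset (fun x hx => hx.1)
      (singleton_subset_iff.2 k2))).symm⟩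
  · rintro ⟨-, w, k1, k2, k3⟩
    rcases cs v hv with ⟨i, hi, m⟩ | m
    · have := a1 i hi v m
      omega
    · have q : (Att H U c v).Nonempty := by
        by_cases z : w ∈ cp H (Br U c) v
        · obtain ⟨k, hk, q⟩ := (mem_om h).1 (k1.resolve_right z.1.2)
          rcases Nat.even_or_odd' k with ⟨i, rfl | rfl⟩
          · rw [pc_even, List.mem_singleton] at q
            exact absurd ⟨i, by omega, q ▸ o_col h (by omega)⟩ z.1.2
          · rw [pc_odd] at q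
            exact ⟨_, hk, w, z, Or.inr ⟨i, rfl, q⟩⟩
        · obtain ⟨x, y, -, q1, q2, q3, q4, -⟩ := link_exit k3.symm (cp_self m) z
          rcases cs y q1 with ⟨i, hi, q⟩ | q
          · exact ⟨2 * i, by omega, x, q2, Or.inl ⟨i, rfl, y, q, q4⟩⟩
          · exact absurd (cp_closed q2 q q4) q3
      rcases a2 v m with ⟨k, -⟩ | ⟨-, j, hj, k, -⟩
      · exact absurd k q.ne_empty
      · omega
  · rcases cs u hu with ⟨i, hi, m⟩ | m <;> rcases cs v hv with ⟨j, hj, m'⟩ | m'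
    · rw [a1 i hi u m, a1 j hj v m']
      refine Nr.stp (near h (union_subset (col_sub h hi) (col_sub h hj))
        (conn_union_touch (col_conn h hi) (col_conn h hj) ⟨u, m, v, m', e⟩) (Or.inl (o_col h hi))
        (by simp [pc_even]) (Or.inr (o_col h hj)) (by simp [pc_even]) (by omega) (by omega)
        fun k hk n1 n2 => disjoint_union_left.2 ⟨disjoint_left.2 fun z q q' => n1 ?_,
          disjoint_left.2 fun z q q' => n2 ?_⟩) (by omega) (by omega)
      · rw [col_inj h hi hk q q']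
      · rw [col_inj h hj hk q q']
    · obtain ⟨j, hj, k1, k2⟩ := edge i hi u m v m' e.symm
      rw [a1 i hi u m, k1]
      refine Nr.stp ?_ (by omega) (by omega)
      unfold Sec at k2
      unfold Nr
      omega
    · obtain ⟨i, hi, k1, k2⟩ := edge j hj v m' u m e
      rw [a1 j hj v m', k1]
      refine Nr.stp ?_ (by omega) (by omega)
      unfold Sec at k2
      unfold Nr
      omega
    · exact Or.inl (a3 u m v (Link.single m m' e))
  · by_cases z : lev u < c.s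
    · rcases (n _ z).2.2.2.2.2 u ((l2 _ z u hu).2 (Nat.lt_succ_self _)) v e with k | ⟨i, hi, k⟩
      · have := (l2 _ z v hv).1 k
        exact ⟨by omega, fun q => by omega⟩
      · have q := cell _ z i hi v k
        exact ⟨q.le, fun _ => q ▸ ⟨i, hi, k⟩⟩
    · have := l1 v
      exact ⟨by omega, fun q => by omega⟩
  · by_cases z : v ∈ c.ring (lev v)
    · exact ⟨v, z, Link.refl _ _ _⟩
    · have m := (l2 _ e v hv).2 (Nat.lt_succ_self _)
      have m' : v ∉ c.In H U (lev v) := fun q => lt_irrefl _ ((l2 _ (l1 v) v hv).1 q)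
      obtain ⟨m1, a, ha, ha', k⟩ := m
      have v0 : v ∈ (U \ c.ring (lev v + 1)) \ c.ring (lev v) := ⟨m1, z⟩
      have out : ∀ x ∈ cp H ((U \ c.ring (lev v + 1)) \ c.ring (lev v)) v,
          x ∉ c.In H U (lev v) := by
        rintro x hx ⟨-, b, hb, hb', q⟩
        exact m' ⟨⟨hv.1, z⟩, b, hb, hb', q.trans
          (Link.mono (T := U \ c.ring (lev v)) (fun y hy => ⟨hy.1.1, hy.2⟩) hx.2.symm)⟩
      have s : ∀ x ∈ cp H ((U \ c.ring (lev v + 1)) \ c.ring (lev v)) v,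
          x ∈ Br U c ∧ lev x = lev v := by
        intro x hx
        have x1 : x ∈ U \ c.I := ⟨hx.1.1.1, fun q => out x hx ((n _ (l1 v)).2.1 q)⟩
        have x2 := (l2 _ e x x1).1 ⟨hx.1.1, a, ha, ha', k.trans (hx.2.mono sdiff_subset)⟩
        have x3 : ¬ lev x < lev v := fun q => out x hx ((l2 _ (l1 v) x x1).2 q)
        have x4 : lev x = lev v := by omega
        refine ⟨⟨x1, ?_⟩, x4⟩
        rintro ⟨i, hi, q⟩
        rcases col_cases q with q | ⟨l, hl, q⟩
        · have := lam i hi x q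
          omega
        · exact hx.1.2 ⟨i, hi, by rwa [← x4, cell l hl i hi x q]⟩
      have s' : cp H ((U \ c.ring (lev v + 1)) \ c.ring (lev v)) v ⊆
          {x | x ∈ U \ c.I ∧ lev x = lev v ∧ ang x = ang v} := fun x hx =>
        ⟨(s x hx).1.1, (s x hx).2, (a3 v (s v (cp_self v0)).1 x
          (((cp_conn v0).2 v (cp_self v0) x hx).mono fun y hy => (s y hy).1)).symm⟩
      obtain ⟨x, y, -, q1, q2, q3, q4, -⟩ := link_exit k.symm (cp_self v0)
        fun q => (s a q).1.1.2 ha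
      refine ⟨y, by_contra fun q => q3 (cp_closed q2 ⟨q1, q⟩ q4), ?_⟩
      exact (((cp_conn v0).2 v (cp_self v0) x q2).mono (s'.trans subset_union_left)).trans
        (Link.single (Or.inl (s' q2)) (Or.inr rfl) q4)
  · obtain ⟨w, k1, -, k3⟩ := att v hv e
    exact ⟨w, k1, k3⟩

end Pool.Agent.MP_9d78a0_co.st

end MrgPart0

-- ======== part 1: formerly Pool.Agent.MP_9d78a0_co.st.Frm
section MrgPart1

/-! Frames of a band, and what a cut leaves of a far panel. -/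

set_option autoImplicit false

namespace Pool.Agent.MP_9d78a0_co.st

open Set Function fb

namespace frm

variable {V : Type}

theorem link_ind {H : SimpleGraph V} {S : Set V} (Q : V → Prop)
    (st : ∀ x ∈ S, ∀ y ∈ S, H.Adj x y → Q x → Q y) {u v : V} (h : Link H S u v) (hu : Q u) :
    Q v := by
  induction h with
  | refl => exact hu
  | tail _ e ih => exact st _ e.1 _ e.2.1 e.2.2 ih

theorem conn_keep {H H' : SimpleGraph V} {S : Set V} (h : Conn H S)
    (k : ∀ x ∈ S, ∀ y ∈ S, H.Adj x y → H'.Adj x y) : Conn H' S := by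
  refine ⟨h.1, fun u hu v hv => ?_⟩
  exact link_ind (fun z => Link H' S u z)
    (fun x hx y hy e q => q.trans (Link.single hx hy (k x hx y hy e))) (h.2 u hu v hv)
    Relation.ReflTransGen.refl

section arc

variable {H : SimpleGraph V} {U I D : Set V} {F : FD V} {Z : Set V} {pos : V → ℕ} {σ : SD V}

theorem dom_sub (St : Str H U I D F Z pos) : F.dom Z ⊆ U \ D := by
  rintro v ((hv | hv) | hv)
  · exact ⟨St.bas.iu (St.z.1 hv).1, (St.z.1 hv).2⟩
  · exact ⟨(St.bas.a.sub hv).1, fun hd => disjoint_left.1 St.d hd (Or.inl hv)⟩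
  · exact ⟨(St.bas.b.sub hv).1, fun hd => disjoint_left.1 St.d hd (Or.inr hv)⟩

theorem row_iff (St : Str H U I D F Z pos) {e : ℕ} (he : e ≤ F.A.n) {v : V} :
    v ∈ F.row e ↔ v ∈ F.dom Z ∧ pos v = 2 * e := by
  have heB : e ≤ F.B.n := by rw [St.bas.n]; exact he
  constructor
  · rintro ((hv | hv) | hv)
    · obtain ⟨h1, h2⟩ := (St.bas.a.col e he v).1 hv
      exact ⟨Or.inl (Or.inr h1), (St.kap.1 v h1).trans h2⟩
    · have hz := St.z.2 e he hv
      exact ⟨Or.inl (Or.inl hz), ((St.rng v hz).2 e he).2 hv⟩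
    · obtain ⟨h1, h2⟩ := (St.bas.b.col e heB v).1 hv
      exact ⟨Or.inr h1, (St.kap.2 v h1).trans h2⟩
  · rintro ⟨(hv | hv) | hv, h⟩
    · exact Or.inl (Or.inr (((St.rng v hv).2 e he).1 h))
    · exact Or.inl (Or.inl ((St.bas.a.col e he v).2 ⟨hv, (St.kap.1 v hv).symm.trans h⟩))
    · exact Or.inr ((St.bas.b.col e heB v).2 ⟨hv, (St.kap.2 v hv).symm.trans h⟩)

theorem pos_le (St : Str H U I D F Z pos) {v : V} (hv : v ∈ F.dom Z) : pos v ≤ 2 * F.A.n := by
  rcases hv with (hv | hv) | hv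
  · exact (St.rng v hv).1
  · rw [St.kap.1 v hv]; exact (St.bas.a.rng v hv).2
  · rw [St.kap.2 v hv, ← St.bas.n]; exact (St.bas.b.rng v hv).2

theorem col_conn {p : PD V} (P : Pan H U I p) {e : ℕ} (he : e ≤ p.n) : Conn H (p.col e) :=
  pan.conn_up (C := fun l => p.C l e) (Nat.zero_le _) (fun l hl => (P.cell l hl e he).1)
    (fun l hl => P.ver l hl e he) (P.lam e he).1 (P.lam e he).2.1

theorem row_conn (B : Bas H U I F) {e : ℕ} (he : e ≤ F.A.n) : Conn H (F.row e) := by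
  have heB : e ≤ F.B.n := by rw [B.n]; exact he
  obtain ⟨-, cj, ta, tb⟩ := B.j e he
  refine conn_union_touch (conn_union_touch (col_conn B.a he) cj
    (ta.symm.mono (pan.cell_col (Nat.zero_le _)) subset_rfl)) (col_conn B.b heB) ?_
  exact tb.mono subset_union_right (pan.cell_col (Nat.zero_le _))

theorem edge_keep (Se : Seam H U D F Z pos σ) {x y : V} (hx : x ∈ U \ D) (hy : y ∈ U \ D)
    (e : H.Adj x y) (hm : x ∉ σ.Um) : σ.H'.Adj x y := by
  have h : (res H (U \ D)).Adj x y := ⟨e, hx, hy⟩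
  rw [← Se.spl.sup] at h
  rcases h with h | h
  · exact h
  · exact absurd (Se.spl.t2 x y h) hm

theorem mem_keep (Se : Seam H U D F Z pos σ) {x : V} (hx : x ∈ U \ D) (hm : x ∉ σ.Um) :
    x ∈ σ.U' := by
  rw [← Se.spl.un] at hx
  exact hx.resolve_right hm

end arc

section frame

variable {G H : SimpleGraph V} {U I : Set V} {Ω : List V} {c : CD V} {lev ang : V → ℕ}
  {u M : ℕ} {y : ℕ → ℕ} {B : PD V}

/-- a panel on the columns `u, …, u + M` of a collar, read in the order `y` -/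
structure PB (H : SimpleGraph V) (U I : Set V) (c : CD V) (lev ang : V → ℕ) (u M : ℕ) (y : ℕ → ℕ)
    (B : PD V) : Prop where
  pan : Pan H U I B
  n : B.n = M
  s : B.s = c.s
  P : ∀ v, v ∈ B.P ↔ v ∈ U \ c.I ∧ 2 * u ≤ ang v ∧ ang v ≤ 2 * (u + M)
  C : ∀ l, ∀ e ≤ M, B.C l e = c.C l (y e)
  Λ : ∀ e ≤ M, B.Λ e = c.Λ (y e)
  o : ∀ e ≤ M, B.o e = c.o (y e)
  lev : B.lev = lev
  rng : ∀ e ≤ M, u ≤ y e ∧ y e ≤ u + M
  sur : ∀ i, u ≤ i → i ≤ u + M → ∃ e ≤ M, y e = i
  mo : Mo y (M + 1)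
  lt : u + M + 1 < c.t

theorem pb_up (hP : PanS) (h : Col H U Ω c) (g : Crd H U Ω c lev ang) (hu : u + M + 1 < c.t)
    (hs : I ⊆ c.I) (hf : ∀ v ∈ c.ring 0, ∀ y ∈ c.I, H.Adj v y → y ∈ I) :
    PB H U I c lev ang u M (fun e => u + e) (c.pan U lev ang u M) := by
  have md : ∀ e ≤ M, (u + e) % c.t = u + e := fun e he => Nat.mod_eq_of_lt (by omega)
  refine ⟨(hP V H U I).1 Ω c lev ang u M h g (by omega) (by omega) hs hf, rfl, rfl, fun v => ?_,
    fun l e he => ?_, fun e he => ?_, fun e he => ?_, rfl, fun e he => by omega,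
    fun i h1 h2 => ⟨i - u, by omega, by omega⟩, Or.inl fun i j h _ => by beta_reduce; omega, hu⟩
  · show (v ∈ U \ c.I ∧ ang v < 2 * c.t ∧ (ang v + 2 * c.t - 2 * u) % (2 * c.t) ≤ 2 * M) ↔ _
    refine and_congr_right fun _ => ⟨fun ⟨h1, h2⟩ => ?_, fun ⟨h1, h2⟩ => ⟨by omega, ?_⟩⟩
    · rcases pan.md (x := ang v + 2 * c.t - 2 * u) (m := 2 * c.t) (by omega) with h3 | h3 <;> omega
    · rcases pan.md (x := ang v + 2 * c.t - 2 * u) (m := 2 * c.t) (by omega) with h3 | h3 <;> omega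
  · show c.C l ((u + e) % c.t) = _
    rw [md e he]
  · show c.Λ ((u + e) % c.t) = _
    rw [md e he]
  · show c.o ((u + e) % c.t) = _
    rw [md e he]

theorem pb_rev (hP : PanS) (b : PB H U I c lev ang u M (fun e => u + e) B) :
    PB H U I c lev ang u M (fun e => u + M - e) B.rev := by
  have hn := b.n
  have k : ∀ e ≤ M, u + (M - e) = u + M - e := fun e he => by omega
  refine ⟨((hP V H U I).2 B b.pan).1.1, b.n, b.s, b.P, fun l e he => ?_, fun e he => ?_,
    fun e he => ?_, b.lev, fun e he => by omega,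
    fun i h1 h2 => ⟨u + M - i, by omega, by omega⟩, Or.inr fun i j h _ => by beta_reduce; omega, b.lt⟩
  · show B.C l (B.n - e) = _
    rw [hn, b.C l _ (Nat.sub_le _ _), k e he]
  · show B.Λ (B.n - e) = _
    rw [hn, b.Λ _ (Nat.sub_le _ _), k e he]
  · show B.o (B.n - e) = _
    rw [hn, b.o _ (Nat.sub_le _ _), k e he]

theorem pb_if (hP : PanS) (h : Col H U Ω c) (g : Crd H U Ω c lev ang) (hu : u + M + 1 < c.t)
    (hs : I ⊆ c.I) (hf : ∀ v ∈ c.ring 0, ∀ y ∈ c.I, H.Adj v y → y ∈ I) (up : Bool) :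
    PB H U I c lev ang u M (fun e => if up then u + e else u + M - e)
      (if up then c.pan U lev ang u M else (c.pan U lev ang u M).rev) := by
  cases up
  · exact pb_rev hP (pb_up hP h g hu hs hf)
  · exact pb_up hP h g hu hs hf

theorem PB.ylt (b : PB H U I c lev ang u M y B) {e : ℕ} (he : e ≤ M) : y e < c.t := by
  have := b.rng e he
  have := b.lt
  omega

theorem PB.cols (b : PB H U I c lev ang u M y B) : B.cols ⊆ c.cols := by
  rintro v ⟨e, he, hv⟩
  rw [b.n] at he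
  refine ⟨y e, b.ylt he, ?_⟩
  rcases hv with hv | ⟨l, h1, h2, hv⟩
  · exact Or.inl (b.Λ e he ▸ hv)
  · exact Or.inr ⟨l, h1, b.s ▸ h2, b.C l e he ▸ hv⟩

theorem PB.foot (b : PB H U I c lev ang u M y B) {i : ℕ} (h1 : u ≤ i) (h2 : i ≤ u + M) :
    c.C 0 i ⊆ B.ring 0 := by
  obtain ⟨e, he, rfl⟩ := b.sur i h1 h2
  intro v hv
  exact ⟨e, by rw [b.n]; exact he, by rw [b.C 0 e he]; exact hv⟩

theorem PB.cell (b : PB H U I c lev ang u M y B) {e : ℕ} (he : e ≤ M) : B.C 0 e ⊆ c.ring 0 := by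
  rw [b.C 0 e he]
  exact capi.C_sub_ring (b.ylt he)

theorem PB.out (b : PB H U I c lev ang u M y B) (g : Crd H U Ω c lev ang) :
    B.P ⊆ c.Out H U Ω := by
  intro v hv
  obtain ⟨h1, -, h3⟩ := (b.P v).1 hv
  have := b.lt
  exact (g.junk v h1).1 (by omega)

theorem PB.far (b : PB H U I c lev ang u M y B) (g : Crd H U Ω c lev ang) {i : ℕ} (hi : i < c.t)
    (hn : i < u ∨ u + M < i) : Disjoint (c.col i) B.P := by
  refine disjoint_left.2 fun v hv hb => ?_
  obtain ⟨h1, h2, h3⟩ := (b.P v).1 hb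
  have := (g.col v h1 i hi).2 hv
  omega

theorem mono_le {π : ℕ → ℕ} {t : ℕ} (m : ∀ i j, i < j → j < t → π i < π j) {i j : ℕ} (hi : i < t)
    (h : π i ≤ π j) : i ≤ j := by
  by_contra k
  have := m j i (by omega) hi
  omega

theorem le_mono {π : ℕ → ℕ} {t : ℕ} (m : ∀ i j, i < j → j < t → π i < π j) {i j : ℕ} (hj : j < t)
    (h : i ≤ j) : π i ≤ π j := by
  rcases h.eq_or_lt with rfl | h
  · exact le_rfl
  · exact (m i j h hj).le

theorem PB.mob (b : PB H U I c lev ang u M y B) {π : ℕ → ℕ}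
    (m : ∀ i j, i < j → j < c.t → π i < π j) : Mo (fun e => π (y e)) (M + 1) := by
  rcases b.mo with h | h
  · exact Or.inl fun i j h1 h2 => m _ _ (h i j h1 h2) (b.ylt (by omega))
  · exact Or.inr fun i j h1 h2 => m _ _ (h i j h1 h2) (b.ylt (by omega))

theorem PB.hul (b : PB H U I c lev ang u M y B) {π : ℕ → ℕ}
    (m : ∀ i j, i < j → j < c.t → π i < π j) {x : ℕ} (hx : x ∈ hull (fun e => π (y e)) (M + 1)) :
    π u ≤ x ∧ x ≤ π (u + M) := by
  obtain ⟨i, hi, j, hj, h1, h2⟩ := hx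
  have := b.lt
  exact ⟨(le_mono m (b.ylt (by omega)) (b.rng i (by omega)).1).trans h1,
    h2.trans (le_mono m (by omega) (b.rng j (by omega)).2)⟩

theorem cols_out (h : Col H U Ω c) : c.cols ⊆ c.Out H U Ω := fun _ hv =>
  capi.lk_self (Or.inr hv) (capi.cols_sub h.toFCol hv)

theorem ring_cols : c.ring 0 ⊆ c.cols := by
  rintro v ⟨i, hi, hv⟩
  exact ⟨i, hi, capi.C_sub_up le_rfl (Nat.zero_le _) hv⟩

theorem mk {h n : ℕ} {Ur : Set V} {ob : ℕ → V} {F : FD V} {a b : ℕ → ℕ} {ι : Type} [Nonempty ι]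
    (T : Set ι) (ρ : ι → ℕ) (fo co : ι → Set V) (R : Set V) (bas : Bas H U I F)
    (univ : Univ G h n Ur ob) (le : H ≤ G)
    (thin : ∀ e ≤ F.A.n, Thin H (F.A.C 0 e) ∧ Thin H (F.J e) ∧ Thin H (F.B.C 0 e))
    (pos : ∀ e ≤ F.A.n, F.A.o e = ob (a e) ∧ F.B.o e = ob (b e))
    (ma : ∀ i j, i < j → j ≤ F.A.n → a i < a j) (mb : Mo b (F.A.n + 1))
    (ab : ∀ i ≤ F.A.n, ∀ j ≤ F.A.n, h * h ≤ a i ∧ a i < b j ∧ b j < n) (inj : InjOn ρ T)
    (oth : ∀ i ∈ T, h * h ≤ ρ i ∧ ρ i < n ∧ ρ i ∉ hull a (F.A.n + 1) ∧ ρ i ∉ hull b (F.A.n + 1) ∧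
      ob (ρ i) ∈ co i ∧ Conn H (co i) ∧ fo i ⊆ co i ∧ Thin H (fo i) ∧ co i ⊆ Ur ∧
      Disjoint (co i) (I ∪ F.A.P ∪ F.B.P) ∧ ∀ j ∈ T, i ≠ j → Disjoint (co i) (co j))
    (edge : ∀ u ∈ I, ∀ v, H.Adj u v → v ∈ I ∪ F.feet ∨ ∃ i ∈ T, v ∈ fo i) (ur : I ∪ F.core ⊆ Ur)
    (r1 : ∀ e ≤ F.A.n, F.low e ⊆ R) (r2 : ∀ i ∈ T, fo i ⊆ R) :
    ∃ a b O ft cl, Frm G H h n Ur U I ob F a b O ft cl ∧ F.sk O ft ⊆ R := by
  have iv : ∀ i ∈ T, invFunOn ρ T (ρ i) = i := fun i hi => inj.leftInvOn_invFunOn hi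
  refine ⟨a, b, ρ '' T, fun x => fo (invFunOn ρ T x), fun x => co (invFunOn ρ T x),
    ⟨bas, univ, le, thin, pos, ma, mb, ab, ?_, ?_, ur⟩, ?_⟩
  · rintro x ⟨i, hi, rfl⟩
    obtain ⟨h1, h2, h3, h4, h5, h6, h7, h8, h9, h10, h11⟩ := oth i hi
    simp only [iv i hi]
    refine ⟨h1, h2, h3, h4, h5, h6, h7, h8, h9, h10, ?_⟩
    rintro y ⟨j, hj, rfl⟩ hne
    rw [iv j hj]
    exact h11 j hj fun e => hne (congrArg ρ e)
  · intro u hu v e
    rcases edge u hu v e with h | ⟨i, hi, h⟩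
    · exact Or.inl h
    · exact Or.inr ⟨ρ i, ⟨i, hi, rfl⟩, by simp only [iv i hi]; exact h⟩
  · rintro v (⟨e, he, hv⟩ | ⟨x, ⟨i, hi, rfl⟩, hv⟩)
    · exact r1 e he hv
    · simp only [iv i hi] at hv
      exact r2 i hi hv

/-- the columns and the low outside of one collar lie in the hub of the other -/
theorem swallow {Ω' : List V} {c' : CD V} (h : Col H U Ω c) (h' : Col H U Ω' c')
    (g : Crd H U Ω c lev ang) (d : Disjoint (c.Out H U Ω) (c'.Out H U Ω'))
    (nt : ¬ Touch H (c.Out H U Ω) (c'.Out H U Ω'))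
    (cov : U ⊆ (c.I ∩ c'.I) ∪ c.Out H U Ω ∪ c'.Out H U Ω') :
    (∀ v ∈ c.ring 0, ∀ y ∈ c.I, H.Adj v y → y ∈ c'.I) ∧
    ∀ v ∈ c.Out H U Ω, v ∈ c.cols ∨ lev v < c.s → v ∈ c'.I := by
  have k0 : ∀ v ∈ c.ring 0, ∀ y ∈ c.I, H.Adj v y → y ∈ c'.I := by
    intro v hv y hy e
    rcases cov (h.hub.1 hy) with (k | k) | k
    · exact k.2
    · exact absurd hy k.1.2
    · exact absurd ⟨v, cols_out h (ring_cols hv), y, k, e⟩ nt
  have st : ∀ x ∈ c'.I, ∀ y ∈ c.Out H U Ω, H.Adj x y → y ∈ c'.I := fun x hx y hy e =>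
    (h'.sat x hx y e).resolve_right fun k => disjoint_left.1 d hy (cols_out h' (ring_cols k))
  have pr : ∀ S ⊆ c.Out H U Ω, ∀ x y, Link H S x y → x ∈ c'.I → y ∈ c'.I := fun S hS x y l hx =>
    link_ind (fun z => z ∈ c'.I) (fun x _ y hy e q => st x q y (hS hy) e) l hx
  have k1 : c.cols ⊆ c'.I := by
    rintro v ⟨i, hi, hv⟩
    obtain ⟨x, hx, z, hz, e⟩ := h.hub.2.2.2 i hi
    have hzr : z ∈ c.ring 0 := capi.C_sub_ring hi hz
    have hzc : z ∈ c.col i := capi.C_sub_up le_rfl (Nat.zero_le _) hz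
    exact pr (c.col i) (fun w hw => cols_out h ⟨i, hi, hw⟩) z v
      ((capi.conn_col h.toFCol hi).2 z hzc v hv)
      (st x (k0 z hzr x hx e.symm) z (cols_out h (ring_cols hzr)) e)
  refine ⟨k0, fun v hv k => k.elim (fun k => k1 k) fun k => ?_⟩
  obtain ⟨w, ⟨i, hi, hw⟩, l⟩ := g.down v hv.1 k
  have hwc : w ∈ c.cols := ⟨i, hi, capi.C_sub_up (Nat.zero_le _) k.le hw⟩
  have ha := (g.junk v hv.1).2 hv
  refine pr _ ?_ w v l.symm (k1 hwc)
  rintro x (⟨h1, -, h3⟩ | rfl)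
  · exact (g.junk x h1).1 (by omega)
  · exact cols_out h hwc

end frame

end frm

open frm in
theorem arcS : ArcS := by
  intro V H U I D F Z pos σ St Se
  have hU' : σ.U' ⊆ U \ D := by rw [← Se.spl.un]; exact subset_union_left
  refine ⟨⟨?_, Se.spl.t1, hU', ?_, ?_⟩, ?_, ?_, ?_⟩
  · intro x y e
    have h : (σ.H' ⊔ σ.Hm).Adj x y := Or.inl e
    rw [Se.spl.sup] at h
    exact h.1
  · rintro v ⟨hv, hn⟩
    exact mem_keep Se ⟨hv, fun h => hn (Or.inl h)⟩ fun h => hn (Or.inr (Se.um v h).1)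
  · rintro x ⟨hx, hn⟩ y hy e
    refine edge_keep Se (hU' hx) ⟨St.bas.tight y x e.symm, hy⟩ e fun hm => hn ?_
    have h : x ∈ σ.U' ∩ σ.Um := ⟨hx, hm⟩
    rw [Se.spl.int] at h
    rcases h with h | h
    · left
      exact List.mem_append_left _ (List.mem_append_right _ h)
    · right
      exact List.mem_append_left _ (List.mem_append_right _ (List.mem_reverse.2 h))
  · rintro S hS cS dS ⟨u, hu, hud⟩
    have key : ∀ v ∈ S, v ∉ F.dom Z := by
      intro v hv
      refine link_ind (fun z => z ∉ F.dom Z) ?_ (cS.2 u hu v hv) hud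
      intro x hx y hy e hxd hyd
      have h0 : pos y ≠ 2 * 0 := fun h =>
        disjoint_left.1 dS hy (Or.inl ((row_iff St (Nat.zero_le _)).2 ⟨hyd, h⟩))
      have h1 : pos y ≠ 2 * F.A.n := fun h =>
        disjoint_left.1 dS hy (Or.inr ((row_iff St le_rfl).2 ⟨hyd, h⟩))
      have h2 := pos_le St hyd
      rcases St.clo y hyd (by omega) (by omega) x e.symm with h | h
      · exact hxd h
      · exact (hS hx).2 h
    refine ⟨fun v hv => ⟨mem_keep Se (hS hv) fun h => key v hv (Se.um v h).1, key v hv⟩, ?_⟩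
    exact conn_keep cS fun x hx y hy e =>
      edge_keep Se (hS hx) (hS hy) e fun h => key x hx (Se.um x h).1
  · intro e he h
    have key : ∀ v ∈ F.row e, v ∈ U \ D ∧ v ∉ σ.Um := by
      intro v hv
      obtain ⟨h1, h2⟩ := (row_iff St he).1 hv
      refine ⟨dom_sub St h1, fun hm => ?_⟩
      obtain ⟨-, h3, h4⟩ := Se.um v hm
      omega
    exact ⟨fun v hv => mem_keep Se (key v hv).1 (key v hv).2,
      conn_keep (row_conn St.bas he) fun x hx y hy a =>
        edge_keep Se (key x hx).1 (key y hy).1 a (key x hx).2⟩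
  · intro p hp hD hfar
    have hm : ∀ v ∈ p.P, v ∉ σ.Um := by
      intro v hv h
      obtain ⟨h1, h3, h4⟩ := Se.um v h
      have := hfar v ⟨hv, h1⟩
      omega
    have hu : ∀ v ∈ p.P, 1 ≤ p.lev v → v ∈ U \ D := by
      intro v hv hl
      refine ⟨(hp hv).1, fun h => ?_⟩
      have := hD v ⟨h, hv⟩
      omega
    have hW : ∀ v, v ∈ σ.WL ∪ σ.WR → v ∈ F.dom Z := by
      intro v hv
      rw [Se.w.2] at hv
      exact hv.1
    have hn := Se.n
    have hB := St.bas.n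
    refine ⟨fun v hv hl => ⟨mem_keep Se (hu v hv hl) (hm v hv), fun y hy hl' e =>
      edge_keep Se (hu v hv hl) (hu y hy hl') e (hm v hv)⟩, ?_, ?_⟩
    · rintro v ⟨hv, hvp⟩
      have hd := hW v (Or.inl hv)
      have h1 : pos v ≤ 2 * σ.w := (hfar v ⟨hvp, hd⟩).resolve_right fun h =>
        disjoint_left.1 Se.w.1 hv (Se.pr.2 v hd h)
      rcases hd with (hd | hd) | hd
      · exact absurd (St.z.1 hd).1 (hp hvp).2
      · have := St.kap.1 v hd
        exact Or.inl ⟨hd, by omega, by omega⟩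
      · have := St.kap.2 v hd
        exact Or.inr ⟨hd, by omega, by omega⟩
    · rintro v ⟨hv, hvp⟩
      have hd := hW v (Or.inr hv)
      have h1 : 2 * (σ.w + σ.K + 3) ≤ pos v := (hfar v ⟨hvp, hd⟩).resolve_left fun h =>
        disjoint_left.1 Se.w.1 (Se.pl.2 v hd h) hv
      have h2 := pos_le St hd
      rcases hd with (hd | hd) | hd
      · exact absurd (St.z.1 hd).1 (hp hvp).2
      · have := St.kap.1 v hd
        exact Or.inr ⟨hd, by omega, by omega⟩
      · have := St.kap.2 v hd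
        exact Or.inl ⟨hd, by omega, by omega⟩

open frm in
theorem frmS : InS → PanS → FrmS := by
  intro hI hP V G H h n Ur U ob M t up J ht
  refine ⟨?_, ?_⟩
  · intro Ω c π lev ang uA uB m x y S g hs Bd
    obtain ⟨g1, g2⟩ := Bd.gap
    have C := S.col
    have a := pb_up (u := uA) (M := M) hP C g (by omega) subset_rfl fun _ _ _ k _ => k
    have b := pb_if (u := uB) (M := M) hP C g (by omega) subset_rfl (fun _ _ _ k _ => k) up
    have hA : (c.frm U lev ang uA uB M up J).A = c.pan U lev ang uA M := rfl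
    have hB : (c.frm U lev ang uA uB M up J).B =
      if up then c.pan U lev ang uB M else (c.pan U lev ang uB M).rev := rfl
    have hJ : (c.frm U lev ang uA uB M up J).J = J := rfl
    rw [← hA] at a
    rw [← hB] at b
    generalize c.frm U lev ang uA uB M up J = F at a b hJ ⊢
    clear hA hB
    subst hJ
    have an := a.n
    have hIn : c.I ⊆ c.In H U c.s := (hI V H U Ω c C.toFCol c.s le_rfl).2.1
    have ch : ∀ e ≤ M, F.J e ⊆ c.I ∧ Conn H (F.J e) ∧ Thin H (F.J e) ∧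
        Touch H (F.J e) (F.A.C 0 e) ∧ Touch H (F.J e) (F.B.C 0 e) := by
      intro e he
      obtain ⟨-, -, h1, h2, h3, h4, h5⟩ := Bd.ch e (lt_of_le_of_lt he Bd.band.1)
      rw [(Bd.band.2 e he).1] at h4
      rw [(Bd.band.2 e he).2] at h5
      rw [a.C 0 e he, b.C 0 e he]
      exact ⟨h1, h2, h3, h4, h5⟩
    refine mk (a := fun e => π (uA + e)) (b := fun e => π (if up then uB + e else uB + M - e))
      {i | i < c.t ∧ (i < uA ∨ uA + M < i) ∧ (i < uB ∨ uB + M < i)} π (c.C 0) c.col _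
      ⟨C.soc.tight, C.hub.1, a.pan, b.pan, b.n.trans an.symm, ⟨a.s ▸ hs, b.s ▸ hs⟩, ⟨?_, ?_⟩,
        fun e he => ?_, fun e he e' he' k => ?_⟩ S.univ S.le (fun e he => ?_) (fun e he => ?_)
      (fun i j h1 h2 => ?_) (an ▸ b.mob S.mono) (fun i hi j hj => ?_) ?_ ?_ ?_ ?_ ?_ ?_
    · refine disjoint_left.2 fun v h1 h2 => ?_
      have := (a.P v).1 h1
      have := (b.P v).1 h2
      omega
    · rintro ⟨u, hu, v, hv, e⟩
      obtain ⟨h1, h2, h3⟩ := (a.P u).1 hu
      obtain ⟨h4, h5, h6⟩ := (b.P v).1 hv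
      rcases (g.stp u h1 v h4 e).1 (by omega) with k | k | k | ⟨-, k | k⟩
      · omega
      · rw [Nat.mod_eq_of_lt (by omega)] at k; omega
      · rw [Nat.mod_eq_of_lt (by omega)] at k; omega
      · rw [Nat.mod_eq_of_lt (by omega)] at k; omega
      · rw [Nat.mod_eq_of_lt (by omega)] at k; omega
    · obtain ⟨h1, h2, -, h4, h5⟩ := ch e (an ▸ he)
      exact ⟨h1, h2, h4, h5⟩
    · have := Bd.band.1
      exact Bd.dis e (by omega) e' (by omega) k
    · rw [an] at he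
      rw [a.C 0 e he, b.C 0 e he]
      exact ⟨C.thin 0 (Nat.zero_le _) _ (a.ylt he), (ch e he).2.2.1,
        C.thin 0 (Nat.zero_le _) _ (b.ylt he)⟩
    · rw [an] at he
      rw [a.o e he, b.o e he]
      exact ⟨(S.pos _ (a.ylt he)).1, (S.pos _ (b.ylt he)).1⟩
    · exact S.mono _ _ (by omega) (by omega)
    · rw [an] at hi hj
      have := b.rng j hj
      exact ⟨(S.pos _ (a.ylt hi)).2.1, S.mono _ _ (by omega) (b.ylt hj), (S.pos _ (b.ylt hj)).2.2⟩
    · rintro i ⟨hi, -⟩ j ⟨hj, -⟩ e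
      exact le_antisymm (mono_le S.mono hi e.le) (mono_le S.mono hj e.ge)
    · rintro i ⟨hi, h1, h2⟩
      obtain ⟨p1, p2, p3⟩ := S.pos i hi
      refine ⟨p2, p3, fun k => ?_, fun k => ?_, p1 ▸ capi.o_up C.toFCol hi,
        capi.conn_col C.toFCol hi, capi.C_sub_up le_rfl (Nat.zero_le _),
        C.thin 0 (Nat.zero_le _) i hi, fun v hv => S.core (Or.inr ⟨i, hi, hv⟩), ?_,
        fun j hj k => capi.col_dis C.toFCol hi hj.1 k⟩
      · rw [an] at k
        obtain ⟨k1, k2⟩ := a.hul S.mono k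
        have := mono_le S.mono (by omega) k1
        have := mono_le S.mono hi k2
        omega
      · rw [an] at k
        obtain ⟨k1, k2⟩ := b.hul S.mono k
        have := mono_le S.mono (by omega) k1
        have := mono_le S.mono hi k2
        omega
      · refine disjoint_union_right.2 ⟨disjoint_union_right.2 ⟨?_, a.far g hi h1⟩, b.far g hi h2⟩
        exact disjoint_left.2 fun v hv => (capi.up_sub C.toFCol hi hv).2
    · intro u hu v e
      rcases C.sat u hu v e with k | ⟨i, hi, k⟩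
      · exact Or.inl (Or.inl k)
      by_cases c1 : uA ≤ i ∧ i ≤ uA + M
      · exact Or.inl (Or.inr (Or.inl (a.foot c1.1 c1.2 k)))
      by_cases c2 : uB ≤ i ∧ i ≤ uB + M
      · exact Or.inl (Or.inr (Or.inr (b.foot c2.1 c2.2 k)))
      exact Or.inr ⟨i, ⟨hi, by omega, by omega⟩, k⟩
    · rintro v (k | ((k | k) | ⟨k, k'⟩) | ⟨k, k'⟩)
      · exact S.core (Or.inl (hIn k))
      · exact S.core (Or.inr (a.cols k))
      · exact S.core (Or.inr (b.cols k))
      · rw [a.lev, a.s] at k'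
        exact S.core (Or.inl ((g.inn _ le_rfl v ((a.P v).1 k).1).2 k'))
      · rw [b.lev, b.s] at k'
        exact S.core (Or.inl ((g.inn _ le_rfl v ((b.P v).1 k).1).2 k'))
    · intro e he
      rw [an] at he
      rintro v ((k | k) | k)
      · exact Or.inr (a.cell he k)
      · exact Or.inl ((ch e he).1 k)
      · exact Or.inr (b.cell he k)
    · exact fun i hi v hv => Or.inr ⟨i, hi.1, hv⟩
  · intro Ω c π lev ang S g hs Bd
    obtain ⟨d, nt, cov⟩ := S.out
    obtain ⟨f0, w0⟩ := swallow (S.col 0) (S.col 1) (g 0) d nt cov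
    obtain ⟨f1, w1⟩ := swallow (S.col 1) (S.col 0) (g 1) d.symm (fun k => nt k.symm)
      (fun v hv => by
        rcases cov hv with (k | k) | k
        · exact Or.inl (Or.inl ⟨k.2, k.1⟩)
        · exact Or.inr k
        · exact Or.inl (Or.inr k))
    have hIn : ∀ i, (c i).I ⊆ (c i).Core H U := fun i v hv =>
      Or.inl ((hI V H U (Ω i) (c i) (S.col i).toFCol (c i).s le_rfl).2.1 hv)
    have hco : ∀ i, ∀ v ∈ (c i).Out H U (Ω i), v ∈ (c i).cols ∨ lev i v < (c i).s →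
        v ∈ (c i).Core H U := fun i v hv k =>
      k.elim Or.inr fun k => Or.inl (((g i).inn _ le_rfl v hv.1).2 k)
    have ur : ∀ i, ∀ v ∈ (c i).Out H U (Ω i), v ∈ (c i).cols ∨ lev i v < (c i).s → v ∈ Ur := by
      rw [Fin.forall_fin_two]
      exact ⟨fun v hv k => S.core ⟨hco 0 v hv k, hIn 1 (w0 v hv k)⟩,
        fun v hv k => S.core ⟨hIn 0 (w1 v hv k), hco 1 v hv k⟩⟩
    refine ⟨?_, ur⟩
    have g0 := Bd.gap 0
    have g1 := Bd.gap 1
    have a := pb_up (u := 0) (M := M) (I := (c 0).I ∩ (c 1).I) hP (S.col 0) (g 0) (by omega)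
      inter_subset_left fun v hv y hy e => ⟨hy, f0 v hv y hy e⟩
    have b := pb_if (u := 0) (M := M) (I := (c 0).I ∩ (c 1).I) hP (S.col 1) (g 1) (by omega)
      inter_subset_right (fun v hv y hy e => ⟨f1 v hv y hy e, hy⟩) up
    have hA : (frm2 c U lev ang M up J).A = (c 0).pan U (lev 0) (ang 0) 0 M := rfl
    have hB : (frm2 c U lev ang M up J).B = if up then (c 1).pan U (lev 1) (ang 1) 0 M
      else ((c 1).pan U (lev 1) (ang 1) 0 M).rev := rfl
    have hJ : (frm2 c U lev ang M up J).J = J := rfl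
    rw [← hA] at a
    rw [← hB] at b
    generalize frm2 c U lev ang M up J = F at a b hJ ⊢
    clear hA hB
    subst hJ
    have an := a.n
    have ch : ∀ e ≤ M, F.J e ⊆ (c 0).I ∩ (c 1).I ∧ Conn H (F.J e) ∧ Thin H (F.J e) ∧
        Touch H (F.J e) (F.A.C 0 e) ∧ Touch H (F.J e) (F.B.C 0 e) := by
      intro e he
      obtain ⟨h1, h2, h3, h4, h5⟩ := Bd.ch e he
      rw [a.C 0 e he, b.C 0 e he]
      simp only [Nat.zero_add]
      exact ⟨h1, h2, h3, h4, h5⟩
    have sep : ∀ i < (c 0).t, ∀ j < (c 1).t, π 0 i < π 1 j := fun i hi j hj =>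
      ((le_mono (S.mono 0) (by omega) (by omega)).trans_lt S.ord).trans_le
        (le_mono (S.mono 1) hj (Nat.zero_le _))
    have cd : ∀ i < (c 0).t, ∀ j < (c 1).t, Disjoint ((c 0).col i) ((c 1).col j) :=
      fun i hi j hj => d.mono (fun v hv => cols_out (S.col 0) ⟨i, hi, hv⟩)
        fun v hv => cols_out (S.col 1) ⟨j, hj, hv⟩
    refine mk (a := fun e => π 0 (0 + e)) (b := fun e => π 1 (if up then 0 + e else 0 + M - e))
      {z : Fin 2 × ℕ | M < z.2 ∧ z.2 < (c z.1).t} (fun z => π z.1 z.2) (fun z => (c z.1).C 0 z.2)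
      (fun z => (c z.1).col z.2) _
      ⟨(S.col 0).soc.tight, fun v hv => (S.col 0).hub.1 hv.1, a.pan, b.pan, b.n.trans an.symm,
        ⟨a.s ▸ hs, by rw [b.s, ← S.lev]; exact hs⟩,
        ⟨d.mono (a.out (g 0)) (b.out (g 1)), fun k => nt (k.mono (a.out (g 0)) (b.out (g 1)))⟩,
        fun e he => ?_, fun e he e' he' k => Bd.dis e (an ▸ he) e' (an ▸ he') k⟩ S.univ S.le
      (fun e he => ?_) (fun e he => ?_)
      (fun i j h1 h2 => ?_) (an ▸ b.mob (S.mono 1)) (fun i hi j hj => ?_) ?_ ?_ ?_ ?_ ?_ ?_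
    · obtain ⟨h1, h2, -, h4, h5⟩ := ch e (an ▸ he)
      exact ⟨h1, h2, h4, h5⟩
    · rw [an] at he
      rw [a.C 0 e he, b.C 0 e he]
      exact ⟨(S.col 0).thin 0 (Nat.zero_le _) _ (a.ylt he), (ch e he).2.2.1,
        (S.col 1).thin 0 (Nat.zero_le _) _ (b.ylt he)⟩
    · rw [an] at he
      rw [a.o e he, b.o e he]
      exact ⟨(S.pos 0 _ (a.ylt he)).1, (S.pos 1 _ (b.ylt he)).1⟩
    · exact S.mono 0 _ _ (by omega) (by omega)
    · rw [an] at hi hj
      exact ⟨(S.pos 0 _ (a.ylt hi)).2.1, sep _ (a.ylt hi) _ (b.ylt hj), (S.pos 1 _ (b.ylt hj)).2.2⟩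
    · rintro ⟨k, i⟩ ⟨-, hi⟩ ⟨k', j⟩ ⟨-, hj⟩ e
      revert k k'
      simp only [Fin.forall_fin_two]
      refine ⟨fun hi => ⟨fun hj e => ?_, fun hj e => absurd e (sep i hi j hj).ne⟩,
        fun hi => ⟨fun hj e => absurd e (sep j hj i hi).ne', fun hj e => ?_⟩⟩
      · rw [le_antisymm (mono_le (S.mono 0) hi e.le) (mono_le (S.mono 0) hj e.ge)]
      · rw [le_antisymm (mono_le (S.mono 1) hi e.le) (mono_le (S.mono 1) hj e.ge)]
    · rintro ⟨k, i⟩ ⟨h1, hi⟩
      dsimp only at h1 hi ⊢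
      obtain ⟨p1, p2, p3⟩ := S.pos k i hi
      have hc : (c k).col i ⊆ (c k).Out H U (Ω k) := fun v hv => cols_out (S.col k) ⟨i, hi, hv⟩
      refine ⟨p2, p3, fun q => ?_, fun q => ?_, p1 ▸ capi.o_up (S.col k).toFCol hi,
        capi.conn_col (S.col k).toFCol hi, capi.C_sub_up le_rfl (Nat.zero_le _),
        (S.col k).thin 0 (Nat.zero_le _) i hi, fun v hv => ur k v (hc hv) (Or.inl ⟨i, hi, hv⟩), ?_,
        ?_⟩
      · rw [an] at q
        obtain ⟨-, k2⟩ := a.hul (S.mono 0) q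
        clear p1 p2 p3 hc q
        revert k
        rw [Fin.forall_fin_two]
        refine ⟨fun hi k2 => ?_, fun hi k2 => ?_⟩
        · have := mono_le (S.mono 0) hi k2
          omega
        · have := sep (0 + M) (by omega) i hi
          omega
      · rw [an] at q
        obtain ⟨k1, k2⟩ := b.hul (S.mono 1) q
        clear p1 p2 p3 hc q
        revert k
        rw [Fin.forall_fin_two]
        refine ⟨fun hi k1 _ => ?_, fun hi _ k2 => ?_⟩
        · have := sep i hi 0 (by omega)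
          omega
        · have := mono_le (S.mono 1) hi k2
          omega
      · clear p1 p2 p3
        revert k
        rw [Fin.forall_fin_two]
        refine ⟨fun hi hc => ?_, fun hi hc => ?_⟩
        · exact disjoint_union_right.2 ⟨disjoint_union_right.2
            ⟨disjoint_left.2 fun v hv k => (hc hv).1.2 k.1, a.far (g 0) hi (by omega)⟩,
            d.mono hc (b.out (g 1))⟩
        · exact disjoint_union_right.2 ⟨disjoint_union_right.2
            ⟨disjoint_left.2 fun v hv k => (hc hv).1.2 k.2, d.symm.mono hc (a.out (g 0))⟩,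
            b.far (g 1) hi (by omega)⟩
      · rintro ⟨k', j⟩ ⟨-, hj⟩ q
        dsimp only at hj ⊢
        by_cases e : k = k'
        · subst e
          exact capi.col_dis (S.col k).toFCol hi hj fun e => q (by rw [e])
        · clear p1 p2 p3 hc q
          revert k k'
          simp only [Fin.forall_fin_two]
          exact ⟨fun hi => ⟨fun _ e => absurd trivial e, fun hj _ => cd i hi j hj⟩,
            fun hi => ⟨fun hj _ => (cd j hj i hi).symm, fun _ e => absurd trivial e⟩⟩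
    · intro u hu v e
      rcases (S.col 0).sat u hu.1 v e with k | ⟨i, hi, k⟩
      · rcases (S.col 1).sat u hu.2 v e with k' | ⟨i, hi, k'⟩
        · exact Or.inl (Or.inl ⟨k, k'⟩)
        · by_cases c1 : i ≤ M
          · exact Or.inl (Or.inr (Or.inr (b.foot (Nat.zero_le _) (by omega) k')))
          · exact Or.inr ⟨(1, i), ⟨by omega, hi⟩, k'⟩
      · by_cases c1 : i ≤ M
        · exact Or.inl (Or.inr (Or.inl (a.foot (Nat.zero_le _) (by omega) k)))
        · exact Or.inr ⟨(0, i), ⟨by omega, hi⟩, k⟩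
    · rintro v (k | ((k | k) | ⟨k, k'⟩) | ⟨k, k'⟩)
      · exact S.core ⟨hIn 0 k.1, hIn 1 k.2⟩
      · exact ur 0 v (cols_out (S.col 0) (a.cols k)) (Or.inl (a.cols k))
      · exact ur 1 v (cols_out (S.col 1) (b.cols k)) (Or.inl (b.cols k))
      · rw [a.lev, a.s] at k'
        exact ur 0 v (a.out (g 0) k) (Or.inr k')
      · rw [b.lev, b.s] at k'
        exact ur 1 v (b.out (g 1) k) (Or.inr k')
    · intro e he
      rw [an] at he
      rintro v ((k | k) | k)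
      · exact Or.inl (Or.inr (a.cell he k))
      · exact Or.inl (Or.inl ((ch e he).1 k))
      · exact Or.inr (b.cell he k)
    · rintro ⟨k, i⟩ ⟨-, hi⟩
      revert k
      simp only [Fin.forall_fin_two]
      exact ⟨fun hi v hv => Or.inl (Or.inr ⟨i, hi, hv⟩), fun hi v hv => Or.inr ⟨i, hi, hv⟩⟩

end Pool.Agent.MP_9d78a0_co.st

end MrgPart1

-- ======== part 2: formerly Pool.Agent.MP_9d78a0_co.st.Ann
section MrgPart2

/-! Three flat pieces round a disc. -/

set_option autoImplicit false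

namespace Pool.Agent.MP_9d78a0_co.st

open Set Function fb

namespace AnnAux

variable {V : Type} {H H1 H2 : SimpleGraph V} {U U1 U2 W P : Set V} {w a b : V}
  {A B L L' A1 A2 Y : List V} {M : List (Set V)}

theorem pw (nd : (A ++ B).Nodup) (hW : ls (A ++ B) ⊆ W) (hM : M.Pairwise Disjoint)
    (h : ∀ s ∈ M, Disjoint W s) : (sg A ++ M ++ sg B).Pairwise Disjoint := by
  obtain ⟨n1, n2, n3⟩ := List.nodup_append.1 nd
  have k : ∀ X : List V, X.Nodup → (sg X).Pairwise Disjoint := fun X n =>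
    List.pairwise_map.2 (n.imp fun k => disjoint_singleton.2 k)
  refine List.pairwise_append.2 ⟨List.pairwise_append.2 ⟨k A n1, hM, fun s hs t ht => ?_⟩, k B n2,
    fun s hs t ht => ?_⟩
  · obtain ⟨x, hx, rfl⟩ := List.mem_map.1 hs
    exact (h t ht).mono_left (singleton_subset_iff.2 (hW (List.mem_append_left _ hx)))
  · obtain ⟨x, hx, rfl⟩ := List.mem_map.1 ht
    rcases List.mem_append.1 hs with hs | hs
    · obtain ⟨y, hy, rfl⟩ := List.mem_map.1 hs
      exact disjoint_singleton.2 (n3 y hy x hx)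
    · exact (h s hs).symm.mono_right (singleton_subset_iff.2 (hW (List.mem_append_right _ hx)))

theorem ctr_flat (hn : NfS) (hc : CtrS) (nd : (A ++ B).Nodup) (hW : ls (A ++ B) ⊆ W)
    (hM : M.Pairwise Disjoint) (h : ∀ s ∈ M, Disjoint W s) (hw : w ∈ un M) (hU : un M ⊆ U)
    (f : ¬ PX H U (sg A ++ M ++ sg B)) :
    ¬ Cr (ctr H (un M) w) (U \ un M ∪ {w}) (A ++ w :: B) := fun k => by
  have p := pw (M := [un M]) nd hW (by simp) fun s hs => by
    rw [List.mem_singleton.1 hs]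
    exact disjoint_left.2 fun x hx ⟨t, ht, k⟩ => disjoint_left.1 (h t ht) hx k
  refine f ((hn V H U).2.2.2.2.2.2.2.2 _ _ _ (pw nd hW hM h)
    (((hc V H U _ w hw hU).2.2.2.2.1 _ _ (by simpa using p)).2 ?_))
  simpa [sg] using ((hn V _ _).2.1 _).1 k

theorem glue (hg : GlueS) (t1 : Tight H1 U1) (t2 : Tight H2 U2)
    (e : U1 ∩ U2 = ls (a :: Y ++ [b])) (nd : (a :: A1 ++ b :: A2 ++ Y).Nodup)
    (s1 : ∀ x ∈ A1, x ∈ U1) (s2 : ∀ x ∈ A2, x ∈ U2) (c1 : ¬ Cr H1 U1 (a :: A1 ++ b :: Y.reverse))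
    (c2 : ¬ Cr H2 U2 (b :: A2 ++ a :: Y)) : ¬ Cr (H1 ⊔ H2) (U1 ∪ U2) (a :: A1 ++ b :: A2) := by
  refine hg V _ H1 (H2 \ H1) _ U1 U2 a b A1 A2 Y ⟨sup_sdiff_self _ _, disjoint_sdiff_self_right, t1,
    fun u v k => t2 u v k.1, rfl, e⟩ nd s1 s2 c1 ?_
  have m : ∀ P, Conn (H2 \ H1) P → Conn H2 P := fun P k => ⟨k.1, fun u hu v hv =>
    Link.map (G := H2 \ H1) (G' := H2) id (fun x hx y hy e => Link.single hx hy e.1) (k.2 u hu v hv)⟩
  rintro ⟨p, q, r, s, h1, P, R, t, h2⟩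
  exact c2 ⟨p, q, r, s, h1, P, R, ⟨t.sp, t.sq, m P t.cp, m R t.cq, t.dis⟩, h2⟩

theorem rot (hn : NfS) (A B : List V) (e : L = A ++ B) (e' : L' = B ++ A) (h : ¬ Cr H U L) :
    ¬ Cr H U L' := fun k => h (e ▸ (hn V H U).2.2.2.2.1 _ _ List.isRotated_append (e' ▸ k))

theorem sub_tight (t : Tight H U) (c : Conn H P) (ha : a ∈ P) (hb : b ∈ P) (n : a ≠ b) : P ⊆ U := by
  intro v hv
  obtain ⟨x, hx, k⟩ : ∃ x ∈ P, v ≠ x := by
    by_cases k : v = a
    exacts [⟨b, hb, k ▸ n⟩, ⟨a, ha, k⟩]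
  rcases Relation.ReflTransGen.cases_tail (c.2 x hx v hv) with e | ⟨z, -, e⟩
  exacts [absurd e k, t _ _ e.2.2.symm]

theorem mem_ls : a ∈ ls L ↔ a ∈ L := Iff.rfl

open Classical in
theorem nd_of (h : L.Nodup) (k : ∀ x, L'.count x ≤ L.count x) : L'.Nodup :=
  List.nodup_iff_count_le_one.2 fun x => (k x).trans (List.nodup_iff_count_le_one.1 h x)

end AnnAux

open AnnAux

theorem annS : NfS → CtrS → GlueS → AnnS := by
  classical
  intro hn hc hg V H1 Hu Ht Ho U1 W I Uu Ut Uo l t r b y y' z z' Ya Ym Yb Z1 Zm Z2 Y3 tu tt tv nd sW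
    pd ⟨w, hw⟩ uW su bu so tO st ut uo tw fu fo ft hI dI cl
  simp only [List.pairwise_cons, List.mem_cons, List.not_mem_nil, or_false, forall_eq_or_imp,
    forall_eq] at pd
  obtain ⟨⟨wl, wt, wr, wb⟩, ⟨lt, lr, lb⟩, ⟨tr, tb⟩, rb, -⟩ := pd
  have wW : w ∉ W := disjoint_right.1 wl hw
  have big : (w :: (Ya ++ y :: Ym ++ y' :: Yb ++ (Z1 ++ z :: Zm ++ z' :: Z2) ++ Y3)).Nodup :=
    List.nodup_cons.2 ⟨fun k => wW (sW k), nd⟩
  have mu : ∀ x, x ∈ un [l, t, r] ↔ x ∈ l ∨ x ∈ t ∨ x ∈ r := fun x => by simp [un]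
  have mo : ∀ x, x ∈ un [r, b, l] ↔ x ∈ r ∨ x ∈ b ∨ x ∈ l := fun x => by simp [un]
  have nu : ∀ x ∈ W, x ∉ un [l, t, r] := fun x hx k => ((mu x).1 k).elim (disjoint_left.1 wl hx)
    fun k => k.elim (disjoint_left.1 wt hx) (disjoint_left.1 wr hx)
  have no : ∀ x ∈ W, x ∉ un [r, b, l] := fun x hx k => ((mo x).1 k).elim (disjoint_left.1 wr hx)
    fun k => k.elim (disjoint_left.1 wb hx) (disjoint_left.1 wl hx)
  have wu := (mu w).2 (.inl hw)
  have wo := (mo w).2 (.inr (.inr hw))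
  have hu : un [l, t, r] ⊆ Uu := fun x hx => su (.inl (by simpa [or_assoc] using (mu x).1 hx))
  have ho : un [r, b, l] ⊆ Uo := fun x hx =>
    so (.inl (.inl (by simpa [or_assoc] using (mo x).1 hx)))
  have c1 := ctr_flat (A := []) (B := (Ya ++ y :: Ym ++ y' :: Yb).reverse) (H := Hu) hn hc
    (nd_of nd fun x => by simp only [List.count_append, List.count_cons, List.count_reverse, List.count_nil]; omega)
    (fun x hx => sW (by simp only [mem_ls, List.mem_append, List.mem_cons, List.mem_reverse, List.not_mem_nil] at hx ⊢; clear * - hx; tauto))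
    (by simp [lt, lr, tr]) (by simp [wl, wt, wr]) wu hu (by simpa [sg] using fu)
  have c2 := ctr_flat (A := y' :: Yb) (B := Ya ++ y :: (Z1 ++ z :: Zm ++ z' :: Z2)) (H := Ho) hn hc
    (nd_of nd fun x => by simp only [List.count_append, List.count_cons]; omega)
    (fun x hx => sW (by simp only [mem_ls, List.mem_append, List.mem_cons] at hx ⊢; clear * - hx; tauto))
    (by simp [rb, lr.symm, lb.symm]) (by simp [wl, wb, wr]) wo ho (by simpa [sg] using fo)
  have t1 := (hc V Hu Uu _ w wu hu).1 tu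
  have t2 := (hc V Ho Uo _ w wo ho).1 tv
  have iu : ∀ x, x = w ∨ x ∈ Ya ++ y :: Ym ++ y' :: Yb → x ∈ Uu \ un [l, t, r] ∪ {w} := fun x k =>
    k.symm.imp_left fun k => ⟨su (.inr k), nu x (sW (by simp only [mem_ls, List.mem_append] at k ⊢; clear * - k; tauto))⟩
  have io : ∀ x, x = w ∨ x ∈ Ya ++ y :: y' :: Yb ∨ x ∈ Z1 ++ z :: Zm ++ z' :: Z2 →
      x ∈ Uo \ un [r, b, l] ∪ {w} := fun x k =>
    k.symm.imp_left fun k => ⟨so (k.imp_left .inr), no x (sW (by simp only [mem_ls, List.mem_append, List.mem_cons] at k ⊢; clear * - k; tauto))⟩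
  have g1 := glue (a := y) (b := y') (A1 := Ya.reverse ++ w :: Yb.reverse) (Y := Ym)
    (A2 := Z2.reverse ++ z' :: Y3 ++ z :: Z1.reverse) hg t1 tt
    (Subset.antisymm (fun x hx => ut ⟨(hx.1.resolve_right fun k => wW (k ▸ uW hx.2)).1, hx.2⟩)
      fun x hx => by
        simp only [mem_ls, List.mem_append, List.mem_cons, List.not_mem_nil] at hx
        exact ⟨iu x (by simp only [List.mem_append, List.mem_cons]; clear * - hx; tauto),
          st (by simp only [mem_ls, List.mem_append, List.mem_cons]; clear * - hx; tauto)⟩)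
    (nd_of big fun x => by simp only [List.count_append, List.count_cons, List.count_reverse]; omega)
    (fun x hx => iu x (by simp only [List.mem_append, List.mem_cons, List.mem_reverse] at hx ⊢; clear * - hx; tauto))
    (fun x hx => st (by simp only [mem_ls, List.mem_append, List.mem_cons, List.mem_reverse] at hx ⊢; clear * - hx; tauto))
    (rot hn (w :: Yb.reverse ++ y' :: Ym.reverse) (y :: Ya.reverse) (by simp) (by simp) c1)
    (rot hn (z :: Z1.reverse ++ y :: Ym) (y' :: Z2.reverse ++ z' :: Y3) (by simp) (by simp) ft)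
  have t3 : Tight (ctr Hu (un [l, t, r]) w ⊔ Ht) (Uu \ un [l, t, r] ∪ {w} ∪ Ut) :=
    fun u v k => k.imp (t1 u v) (tt u v)
  have g2 := glue (a := z') (b := z) (A1 := Y3) (Y := Z2 ++ y' :: Yb ++ w :: Ya ++ y :: Z1)
    (A2 := Zm) hg t3 t2
    (Subset.antisymm (fun x hx => by
        have k : x = w ∨ x ∈ ls (Ya ++ y :: y' :: Yb) ∨ x ∈ ls (y :: y' :: Z1 ++ z :: z' :: Z2) := by
          obtain ⟨(k | k) | k, k' | k'⟩ := hx
          · exact .inr (.inl ((uo ⟨k.1, k'.1⟩).resolve_left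
              fun c => k.2 ((mu x).2 (c.imp_right .inr))))
          exacts [.inl k', .inl k, .inl k, .inr (.inr (tw ⟨k, k'.1⟩)), .inl k']
        simp only [mem_ls, List.mem_append, List.mem_cons, List.not_mem_nil] at k ⊢
        clear * - k
        tauto)
      fun x hx => by
        simp only [mem_ls, List.mem_append, List.mem_cons, List.not_mem_nil] at hx
        refine ⟨?_, io x (by simp only [List.mem_append, List.mem_cons]; clear * - hx; tauto)⟩
        by_cases k : x = w ∨ x ∈ Ya ++ y :: Ym ++ y' :: Yb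
        · exact .inl (iu x k)
        · exact .inr (st (by simp only [mem_ls, List.mem_append, List.mem_cons] at k ⊢; clear * - k hx; tauto)))
    (nd_of big fun x => by simp only [List.count_append, List.count_cons]; omega)
    (fun x hx => .inr (st (List.mem_append_right _ hx)))
    (fun x hx => io x (by simp [hx]))
    (rot hn (y :: Ya.reverse ++ w :: Yb.reverse ++ y' :: Z2.reverse) (z' :: Y3 ++ z :: Z1.reverse)
      (by simp) (by simp) g1)
    (rot hn (y' :: Yb ++ w :: Ya ++ y :: Z1) (z :: Zm ++ z' :: Z2) (by simp) (by simp) c2)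
  have t4 : Tight (ctr Hu (un [l, t, r]) w ⊔ Ht ⊔ ctr Ho (un [r, b, l]) w) _ :=
    fun u v k => (k.imp (t3 u v) (t2 u v) : u ∈ _ ∪ _)
  have e1 : ∀ u ∈ W, ∀ v, H1.Adj u v →
      (ctr Hu (un [l, t, r]) w ⊔ Ht ⊔ ctr Ho (un [r, b, l]) w).Adj u (if v ∈ W then v else w) := by
    intro u h v e
    obtain ⟨k, k'⟩ := cl u h v e
    split_ifs with c
    · exact k'.imp (Or.imp_left fun d => ⟨e.ne, .inl (nu u h), .inl (nu v c), u, v, d, .inl rfl,
        .inl rfl⟩) fun d => ⟨e.ne, .inl (no u h), .inl (no v c), u, v, d, .inl rfl, .inl rfl⟩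
    · have n : u ≠ w := fun k => wW (k ▸ h)
      simp only [mem_union] at k
      rcases k' with (d | d) | d
      · have := disjoint_right.1 bu (tu _ _ d.symm)
        exact .inl (.inl ⟨n, .inl (nu u h), .inr rfl, u, v, d, .inl rfl,
          .inr ⟨rfl, (mu v).2 (by clear * - k c this; tauto)⟩⟩)
      · exact absurd (uW (tt _ _ d.symm)) c
      · have := disjoint_right.1 tO (tv _ _ d.symm)
        exact .inr ⟨n, .inl (no u h), .inr rfl, u, v, d, .inl rfl, .inr ⟨rfl, (mo v).2 (by clear * - k c this; tauto)⟩⟩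
  generalize ctr Hu (un [l, t, r]) w ⊔ Ht ⊔ ctr Ho (un [r, b, l]) w = G at g2 t4 e1
  obtain ⟨π, p1, p2⟩ : ∃ π : V → V, (∀ v ∈ W, π v = v) ∧ ∀ v ∉ W, π v = w :=
    ⟨fun v => if v ∈ W then v else w, fun v k => if_pos k, fun v k => if_neg k⟩
  have e2 : ∀ u ∈ W, ∀ v, H1.Adj u v → G.Adj (π u) (π v) := fun u h v e => by
    have := e1 u h v e
    rw [p1 u h]
    split_ifs at this with c
    exacts [(p1 v c).symm ▸ this, (p2 v c).symm ▸ this]
  have pc : ∀ P, Conn H1 P → Conn G (π '' P) := fun P k => ⟨k.1.image _, by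
    rintro _ ⟨u, hu, rfl⟩ _ ⟨v, hv, rfl⟩
    refine Link.map π (fun x hx y hy e => ?_) (k.2 u hu v hv)
    by_cases c : x ∈ W
    · exact Link.single (mem_image_of_mem _ hx) (mem_image_of_mem _ hy) (e2 x c y e)
    by_cases c' : y ∈ W
    · exact Link.single (mem_image_of_mem _ hx) (mem_image_of_mem _ hy) (e2 y c' x e.symm).symm
    · rw [p2 x c, p2 y c']
      exact Link.refl _ _ _⟩
  have pd : ∀ P Q : Set V, ∀ q ∈ Q, q ∈ W → Conn H1 Q → ¬ (Q ∩ I).Nonempty → Disjoint P Q →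
      Disjoint (π '' P) (π '' Q) := by
    intro P Q q hq qW cQ n d
    have s : ∀ v, Link H1 Q q v → v ∈ W := fun v k => by
      induction k with
      | refl => exact qW
      | tail _ k ih =>
        by_contra c
        exact n ⟨_, k.2.1, hI (by simpa [c, or_assoc] using (cl _ ih _ k.2.2).1)⟩
    refine disjoint_left.2 ?_
    rintro _ ⟨u, hu, rfl⟩ ⟨v, hv, e⟩
    have k := s v (cQ.2 q hq v hv)
    rw [p1 v k] at e
    by_cases c : u ∈ W
    · exact disjoint_left.1 d hu (p1 u c ▸ e ▸ hv)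
    · exact wW (p2 u c ▸ e ▸ k)
  intro p q p' q' hs P Q tw hp hp' hq hq'
  have inW : ∀ x ∈ [p, q, p', q'], x ∈ W := fun x hx => sW (by
    have := hs.subset hx
    simp only [mem_ls, List.mem_append, List.mem_cons, List.mem_reverse] at this ⊢
    clear * - this
    tauto)
  have n4 : [p, q, p', q'].Nodup := List.Nodup.sublist hs (nd_of nd fun x => by
    simp only [List.count_append, List.count_cons, List.count_reverse]; omega)
  simp only [List.nodup_cons, List.mem_cons, List.not_mem_nil, not_or] at n4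
  have m : ∀ {P : Set V}, ∀ x ∈ [p, q, p', q'], x ∈ P → x ∈ π '' P :=
    fun x k k' => ⟨x, k', p1 x (inW x k)⟩
  by_contra c
  refine rot hn (L' := z' :: Zm.reverse ++ z :: Y3.reverse) (Zm.reverse ++ z :: Y3.reverse) [z']
    rfl rfl (fun k => g2 ?_) ⟨p, q, p', q', hs, π '' P, π '' Q,
      ⟨sub_tight t4 (pc P tw.cp) (m p (by simp) hp) (m p' (by simp) hp') n4.1.2.1,
        sub_tight t4 (pc Q tw.cq) (m q (by simp) hq) (m q' (by simp) hq') n4.2.1.2.1,
        pc P tw.cp, pc Q tw.cq, ?_⟩, m p (by simp) hp, m p' (by simp) hp', m q (by simp) hq,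
      m q' (by simp) hq'⟩
  · simpa using (hn V _ _).2.2.2.2.2.1 _ k
  · rcases not_and_or.1 c with c | c
    · exact (pd Q P p hp (inW p (by simp)) tw.cp c tw.dis.symm).symm
    · exact pd P Q q hq (inW q (by simp)) tw.cq c tw.dis

end Pool.Agent.MP_9d78a0_co.st

end MrgPart2

-- ======== part 3: formerly Pool.Agent.MP_9d78a0_co.st.Root
section MrgPart3

/-! The structure theorem from the flat disc and the recursion on collars. -/

set_option autoImplicit false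

namespace Pool.Agent.MP_9d78a0_co.st

open Set Function fb

namespace Root

variable {V : Type} {H H0 H1 : SimpleGraph V} {U U0 U1 W S I : Set V} {m k : ℕ}
  {D : ℕ → ℕ → Set V} {L : List V}

theorem split_del (s : Split H H0 H1 U U0 U1 S) (T : Set V) :
    Split (res H (U \ T)) (res H0 (U0 \ T)) (res H1 (U1 \ T)) (U \ T) (U0 \ T) (U1 \ T) (S \ T) := by
  refine ⟨?_, s.dis.mono (fun _ _ e => e.1) fun _ _ e => e.1, fun _ _ e => e.2.1,
    fun _ _ e => e.2.1, by rw [← s.un, union_sdiff_distrib], ?_⟩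
  · ext u v
    rw [← s.sup, ← s.un]
    constructor
    · rintro (⟨e, a, b⟩ | ⟨e, a, b⟩)
      exacts [⟨Or.inl e, ⟨Or.inl a.1, a.2⟩, Or.inl b.1, b.2⟩,
        ⟨Or.inr e, ⟨Or.inr a.1, a.2⟩, Or.inr b.1, b.2⟩]
    · rintro ⟨e | e, a, b⟩
      exacts [Or.inl ⟨e, ⟨s.t1 _ _ e, a.2⟩, s.t1 _ _ e.symm, b.2⟩,
        Or.inr ⟨e, ⟨s.t2 _ _ e, a.2⟩, s.t2 _ _ e.symm, b.2⟩]
  · rw [← s.int]
    ext v
    simp only [mem_inter_iff, mem_sdiff]
    tauto

theorem close {cs cs' : List (Cell V)} {Y : List V} {g : ℕ} (h : Dr cs [Y] 0)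
    (h' : Dr cs' [Y.reverse] g) (e : Vc cs ∩ Vc cs' ⊆ ls Y) (n : Y.Nodup) :
    Dr (cs ++ cs') [] g := by
  by_cases c : Y = []
  · subst c
    have k := h.union h' (disjoint_iff_inter_eq_empty.2 (eq_empty_of_subset_empty fun v hv => by
      simpa [ls] using e hv))
    rw [Nat.zero_add] at k
    exact k.forget.forget
  · obtain ⟨a, b, z, -⟩ := Kit.ends_of c
    have k := Dr.join (A := []) (B := []) (ws := []) (ws' := []) (by simpa using h)
      (by simpa using h') e n z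
    rw [Nat.zero_add] at k
    exact k.forget

theorem cell_sub {i0 i1 j0 j1 i j : ℕ} (h1 : i0 ≤ i) (h2 : i < i1) (h3 : j0 ≤ j) (h4 : j < j1) :
    D i j ⊆ blk D i0 i1 j0 j1 := fun _ hv => ⟨i, j, h1, h2, h3, h4, hv⟩

theorem blk_conn (g : Gr H W m D) {i0 i1 j0 j1 : ℕ} (h1 : i0 < i1) (h2 : i1 ≤ m) (h3 : j0 < j1)
    (h4 : j1 ≤ m) : Conn H (blk D i0 i1 j0 j1) := by
  have e : blk D i0 i1 j0 j1 = ⋃ i ∈ Icc i0 (i1 - 1), ⋃ j ∈ Icc j0 (j1 - 1), D i j := by
    ext v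
    simp only [blk, mem_iUnion, mem_Icc, mem_ofPred_eq, exists_prop]
    constructor
    · rintro ⟨i, j, a, b, c, d, e⟩
      exact ⟨i, ⟨a, by omega⟩, j, ⟨c, by omega⟩, e⟩
    · rintro ⟨i, ⟨a, b⟩, j, ⟨c, d⟩, e⟩
      exact ⟨i, j, a, by omega, c, by omega, e⟩
  rw [e]
  refine conn_chain (by omega) (fun i hi => conn_chain (by omega)
    (fun j hj => (g.conn i (by have := hi.2; omega) j (by have := hj.2; omega)).2)
    fun j _ b => Or.inr (g.hor i (by have := hi.2; omega) j (by omega))) fun i _ b => Or.inr ?_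
  have z : j0 ∈ Icc j0 (j1 - 1) := ⟨le_rfl, by omega⟩
  exact (g.ver i (by omega) j0 (by omega)).mono (subset_biUnion_of_mem (u := D i) z)
    (subset_biUnion_of_mem (u := D (i + 1)) z)

theorem same {c w a b j : ℕ} (h1 : c + w * a ≤ j) (h2 : j < c + w * a + w) (h3 : c + w * b ≤ j)
    (h4 : j < c + w * b + w) : a = b := by
  rcases lt_trichotomy a b with h | h | h
  · have := Nat.mul_le_mul_left w (Nat.succ_le_of_lt h)
    rw [Nat.mul_succ] at this
    omega
  · exact h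
  · have := Nat.mul_le_mul_left w (Nat.succ_le_of_lt h)
    rw [Nat.mul_succ] at this
    omega

theorem four [Finite V] {A : Set V} {a : ℕ} (hA : A.ncard ≤ a) {e : ℕ → V}
    (he : InjOn e (Iio (a + 4))) :
    ∃ f : Fin 4 → ℕ, Injective f ∧ ∀ i, f i < a + 4 ∧ e (f i) ∉ A := by
  classical
  have k1 : ((Finset.range (a + 4)).filter fun j => e j ∈ A).card ≤ a := by
    rw [← ncard_coe_finset]
    refine le_trans (ncard_le_ncard_of_injOn e (fun j hj => ?_) (he.mono fun j hj => ?_)) hA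
    · exact (Finset.mem_filter.1 hj).2
    · exact Finset.mem_range.1 (Finset.mem_filter.1 hj).1
  have k2 := Finset.card_filter_add_card_filter_not (s := Finset.range (a + 4)) fun j => e j ∈ A
  rw [Finset.card_range] at k2
  have k3 : 4 ≤ ((Finset.range (a + 4)).filter fun j => ¬ e j ∈ A).card := by omega
  refine ⟨Finset.orderEmbOfCardLe _ k3, (Finset.orderEmbOfCardLe _ k3).injective, fun i => ?_⟩
  have k4 := Finset.mem_filter.1 (Finset.orderEmbOfCardLe_mem _ k3 i)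
  exact ⟨Finset.mem_range.1 k4.1, k4.2⟩

theorem adj0 (s : Split H H0 H1 U U0 U1 S) {u v : V} (e : H.Adj u v) (h : u ∉ U1) : H0.Adj u v := by
  rw [← s.sup] at e
  exact Or.resolve_right e fun c => h (s.t2 _ _ c)

theorem conn0 (s : Split H H0 H1 U U0 U1 S) {T X : Set V} (hT : T ⊆ U1) (hX : X ⊆ U0 \ U1)
    (h : Conn H X) : Conn (res H0 (U0 \ T)) X :=
  ⟨h.1, fun u hu v hv => Link.map (G' := res H0 (U0 \ T)) id (fun _ ha _ hb e => Link.single ha hb
    ⟨adj0 s e (hX ha).2, ⟨(hX ha).1, fun c => (hX ha).2 (hT c)⟩, (hX hb).1,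
      fun c => (hX hb).2 (hT c)⟩) (h.2 u hu v hv)⟩

theorem deep (d : Disc H H0 H1 U U0 U1 W I L m k D) {i0 i1 j0 j1 : ℕ} (h1 : k + 3 ≤ i0)
    (h2 : i1 + k + 1 ≤ m) (h3 : k + 3 ≤ j0) (h4 : j1 + k + 1 ≤ m) : blk D i0 i1 j0 j1 ⊆ U0 \ U1 := by
  rintro v ⟨i, j, a, b, c, e, hv⟩
  have z := disjoint_left.1 (d.deep i j (by omega) (by omega) (by omega) (by omega)) hv
  exact ⟨Or.resolve_right (d.split.un.ge (d.sub.2.1 ((d.conn i (by omega) j (by omega)).1 hv))) z, z⟩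

theorem exit (d : Disc H H0 H1 U U0 U1 W I L m k D) (hk : 0 < k) {T : Set V} (hT : T ⊆ U1)
    {i j : ℕ} (h1 : k + 3 ≤ i) (h2 : i + k + 2 ≤ m) (h3 : k + 3 ≤ j) (h4 : j + k + 2 ≤ m) :
    ∃ y ∈ blk D 0 (i + 1) j (j + 1), y ∈ L ∧ ∃ R ⊆ blk D 0 (i + 1) j (j + 1), y ∈ R ∧
      (R ∩ D i j).Nonempty ∧ (y ∉ T → Conn (res H0 (U0 \ T)) R) := by
  obtain ⟨x, hx⟩ := (d.conn i (by omega) j (by omega)).2.1
  obtain ⟨z, hz⟩ := (d.conn 0 (by omega) j (by omega)).2.1
  have mx : x ∈ blk D 0 (i + 1) j (j + 1) := cell_sub (by omega) (by omega) le_rfl (by omega) hx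
  have dx : x ∈ U0 \ U1 := deep d (i0 := i) (i1 := i + 1) (j0 := j) (j1 := j + 1) h1 (by omega) h3
    (by omega) (cell_sub le_rfl (by omega) le_rfl (by omega) hx)
  obtain ⟨u, y, u1, y1, u2, y2, e, lk⟩ := link_exit (T := U0 \ U1)
    ((blk_conn d.toGr (by omega) (by omega) (by omega) (by omega)).2 x mx z
      (cell_sub le_rfl (by omega) le_rfl (by omega) hz)) dx
    fun c => disjoint_left.1 (d.out 0 (by omega) j (by omega) (Or.inl hk)) hz c.1
  have e0 := adj0 d.split e u2.2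
  have y0 := d.split.t1 _ _ e0.symm
  refine ⟨y, y1, d.split.int.le ⟨y0, by_contra fun c => y2 ⟨y0, c⟩⟩,
    cp H (blk D 0 (i + 1) j (j + 1) ∩ (U0 \ U1)) x ∪ {y},
    union_subset (fun v hv => hv.1.1) (singleton_subset_iff.2 y1), Or.inr rfl,
    ⟨x, Or.inl (cp_self ⟨mx, dx⟩), hx⟩, fun c => conn_union_touch
      (conn0 d.split hT (fun v hv => hv.1.2) (cp_conn ⟨mx, dx⟩)) (conn_singleton _ _) ?_⟩
  exact ⟨u, ⟨⟨u1, u2⟩, lk⟩, y, rfl, e0, ⟨u2.1, fun c => u2.2 (hT c)⟩, y0, c⟩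

theorem node [Finite V] (hW : WallS) (d : Disc H H0 H1 U U0 U1 W I L m k D) (hk : 0 < k)
    {A : Set V} {a i j : ℕ} (hA : A.ncard ≤ a) {cs : List (Cell V)} (c1 : Dr cs [del A L] 0)
    (c2 : Rend (res H0 (U0 \ (A ∩ U1))) (U0 \ (A ∩ U1)) cs) (c3 : ∀ c ∈ cs, c.Ok a ∧ c.k ≠ .hole)
    (h1 : k + 3 ≤ i) (h2 : i + (a + 4) + k + 1 ≤ m) (h3 : k + 3 ≤ j)
    (h4 : j + (a + 4) + k + 1 ≤ m) :
    ∃ n ∈ blk D i (i + (a + 4)) j (j + (a + 4)), ∃ c ∈ cs, c.k = .cell ∧ n ∈ c.N := by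
  have z : ∀ x, ∃ y R, x < a + 4 → y ∈ blk D 0 (i + 1) (j + x) (j + x + 1) ∧ y ∈ L ∧
      R ⊆ blk D 0 (i + 1) (j + x) (j + x + 1) ∧ y ∈ R ∧ (R ∩ D i (j + x)).Nonempty ∧
      (y ∉ A ∩ U1 → Conn (res H0 (U0 \ (A ∩ U1))) R) := fun x => by
    by_cases c : x < a + 4
    · obtain ⟨y, a1, a2, R, a3⟩ := exit d hk (T := A ∩ U1) (i := i) (j := j + x) inter_subset_right
        h1 (by omega) (by omega) (by omega)
      exact ⟨y, R, fun _ => ⟨a1, a2, a3⟩⟩
    · exact ⟨(d.conn 0 (by omega) 0 (by omega)).2.1.some, ∅, fun e => absurd e c⟩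
  choose y R z using z
  have ds : ∀ x < a + 4, ∀ x' < a + 4, x ≠ x' →
      Disjoint (blk D 0 (i + 1) (j + x) (j + x + 1)) (blk D 0 (i + 1) (j + x') (j + x' + 1)) := by
    intro x hx x' hx' c
    rw [disjoint_left]
    rintro v ⟨i1, j1, -, a2, a3, a4, a5⟩ ⟨i2, j2, -, b2, b3, b4, b5⟩
    exact disjoint_left.1 (d.dis i1 (by omega) j1 (by omega) i2 (by omega) j2 (by omega)
      fun e => by have := (Prod.mk.inj e).2; omega) a5 b5
  obtain ⟨f, f1, f2⟩ := four hA (e := y) fun x hx x' hx' e => by_contra fun c =>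
    disjoint_left.1 (ds x hx x' hx' c) (z x hx).1 (e ▸ (z x' hx').1)
  refine hW V _ _ _ cs _ 0 a (fun t => R (f t)) c1 c2 c3
    (conn0 d.split inter_subset_right (deep d h1 h2 h3 h4)
      (blk_conn d.toGr (by omega) (by omega) (by omega) (by omega))) ?_ (fun t => ?_)
    fun t t' c => (ds _ (f2 t).1 _ (f2 t').1 (f1.ne c)).mono (z _ (f2 t).1).2.2.1
      (z _ (f2 t').1).2.2.1
  · obtain ⟨u, hu⟩ := (d.conn i (by omega) j (by omega)).2.1
    obtain ⟨v, hv⟩ := (d.conn i (by omega) (j + 1) (by omega)).2.1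
    refine ⟨u, cell_sub le_rfl (by omega) le_rfl (by omega) hu, v,
      cell_sub le_rfl (by omega) (by omega) (by omega) hv, fun e => ?_⟩
    exact disjoint_left.1 (d.dis i (by omega) j (by omega) i (by omega) (j + 1) (by omega)
      (by simp)) hu (e ▸ hv)
  · obtain ⟨-, a2, -, a4, a5, a6⟩ := z _ (f2 t).1
    have := (f2 t).1
    refine ⟨a6 fun c => (f2 t).2 c.1, a5.mono (inter_subset_inter_right _
      (cell_sub le_rfl (by omega) (by omega) (by omega))), _, a4, ?_⟩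
    simpa [ls, del, a2] using (f2 t).2

end Root

open Root

theorem root : WinS → DiscS → SitS → WallS → MainS → TwoS → StructS := by
  intro hW hD hS hL hM hT h
  obtain ⟨s, t, al, hM⟩ := hM h
  obtain ⟨a, hW⟩ := hW h
  refine ⟨a + al, al, al, al, al + 4, fun r => ?_⟩
  obtain ⟨m, hm⟩ : ∃ m, m = 2 * (s + 2) + 3 * (h * h + (t + 4)) + 10 + (al + 4) * r := ⟨_, rfl⟩
  obtain ⟨g, hW⟩ := hW m (by omega)
  refine ⟨g, fun V _ G B hK hB => ?_⟩
  obtain ⟨A0, W, l, tt, rr, b, D, x0, y0, a0, fw, hD0⟩ := hW V G B hK hB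
  obtain ⟨H0, H1, U0, U1, I, L, d⟩ := hD V _ _ _ _ _ _ _ m (s + 2) D fw (by omega) (by omega)
  obtain ⟨Ω, c, n, Ur, ob, π, hΩ, st, e1, e2⟩ := hS V G _ H0 H1 _ U0 U1 W I L h s (t + 4) m (s + 2) D
    hK (fun _ _ e => And.left e) d (by omega) le_rfl (by omega)
  obtain ⟨A1, a1, dr⟩ := hM V G H1 n Ur U1 ob Ω c π st e1.ge (by omega)
  have dr1 : Drawn (res H1 (U1 \ A1)) (U1 \ A1) [(del A1 L).reverse] al al al := by
    rcases hΩ with rfl | rfl
    · exact Kit.rev dr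
    · exact Kit.cast dr List.filter_reverse
  have sp := split_del d.split (A1 ∩ U1)
  have eY : ls L \ (A1 ∩ U1) = ls (del A1 L) := by
    ext v
    have : v ∈ L → v ∈ U1 := fun c => (d.split.int.ge c).2
    simp only [ls, del, mem_sdiff, mem_ofPred_eq, mem_inter_iff, List.mem_filter, decide_eq_true_eq]
    tauto
  have eU : A0ᶜ \ (A1 ∩ U1) = (A0 ∪ A1 ∩ U1)ᶜ := by rw [compl_union, sdiff_eq]
  have eH : res (res G A0ᶜ) (A0 ∪ A1 ∩ U1)ᶜ = res G (A0 ∪ A1 ∩ U1)ᶜ := by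
    ext u v
    exact ⟨fun e => ⟨e.1.1, e.2⟩, fun e => ⟨⟨e.1, fun c => e.2.1 (Or.inl c),
      fun c => e.2.2 (Or.inl c)⟩, e.2⟩⟩
  rw [eY, eU, eH, show U1 \ (A1 ∩ U1) = U1 \ A1 by rw [inter_comm, sdiff_self_inter]] at sp
  have nd : (del A1 L).Nodup := d.nd.filter _
  obtain ⟨cs0, b1, b2, b3, b4⟩ := Kit.mono (hT V (res H0 (U0 \ (A1 ∩ U1))) _ (del A1 L)
    ⟨sp.t1, nd, fun x hx => (sp.int.ge hx).1⟩ fun ⟨p, q, u, v, c1, P, Q, w, c2⟩ =>
      d.flat ⟨p, q, u, v, c1.trans List.filter_sublist, P, Q, ⟨fun _ e => (w.sp e).1,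
        fun _ e => (w.sq e).1, pl.conn_mono w.cp fun _ _ e => e.1,
        pl.conn_mono w.cq fun _ _ e => e.1, w.dis⟩, c2⟩) le_rfl le_rfl (Nat.zero_le al)
  obtain ⟨cs1, c1, c2, c3, c4⟩ := dr1
  have nh : ∀ c ∈ cs0, c.Ok al ∧ c.k ≠ .hole := fun c hc =>
    ⟨b3 c hc, by simpa using List.countP_eq_zero.1 (Nat.le_zero.1 b4) c hc⟩
  have le : res H0 (U0 \ (A1 ∩ U1)) ≤ Gc (cs0 ++ cs1) := fun u v e => by
    obtain ⟨c, k1, k2⟩ := (b2.adj u v).1 e
    refine ⟨c, List.mem_append_left _ k1, ?_, k2⟩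
    rcases z : c.k with _ | _ | _
    · rfl
    · exact absurd z (nh c k1).2
    · rw [((b3 c k1).void z).1] at k2
      exact k2.elim
  have bd : ∀ x : Fin r, s + 2 + 3 + (al + 4) * x.1 + (al + 4) + (s + 2) + 1 ≤ m := fun x => by
    have := Nat.mul_le_mul_left (al + 4) (Nat.succ_le_of_lt x.2)
    rw [Nat.mul_succ] at this
    omega
  obtain ⟨X, hX⟩ : ∃ X : Fin r × Fin r → Set V, ∀ p, X p =
      blk D (s + 2 + 3 + (al + 4) * p.2.1) (s + 2 + 3 + (al + 4) * p.2.1 + (al + 4))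
        (s + 2 + 3 + (al + 4) * p.1.1) (s + 2 + 3 + (al + 4) * p.1.1 + (al + 4)) :=
    ⟨_, fun _ => rfl⟩
  have dp : ∀ p, X p ⊆ U0 \ U1 := fun p =>
    hX p ▸ deep d (Nat.le_add_right _ _) (bd p.2) (Nat.le_add_right _ _) (bd p.1)
  have du : ∀ p, X p ⊆ U0 \ (A1 ∩ U1) := fun p v hv => ⟨(dp p hv).1, fun c => (dp p hv).2 c.2⟩
  have tc : ∀ p p', Touch (res G A0ᶜ) (X p) (X p') → Touch (Gc (cs0 ++ cs1)) (X p) (X p') :=
    fun p p' ⟨u, hu, v, hv, e⟩ => ⟨u, hu, v, hv, le ⟨adj0 d.split e (dp p hu).2, du p hu, du p' hv⟩⟩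
  have tv : ∀ p p' : Fin r × Fin r, p.1.1 = p'.1.1 → p.2.1 + 1 = p'.2.1 →
      Touch (Gc (cs0 ++ cs1)) (X p) (X p') := fun p p' e e' => by
    have k1 := bd p.1
    have k2 := bd p'.2
    refine tc p p' ?_
    rw [hX, hX, ← e]
    rw [← e', Nat.mul_succ] at k2 ⊢
    exact (d.ver (s + 2 + 3 + (al + 4) * p.2.1 + (al + 3)) (by omega)
      (s + 2 + 3 + (al + 4) * p.1.1) (by omega)).mono
      (cell_sub (by omega) (by omega) le_rfl (by omega))
      (cell_sub (by omega) (by omega) le_rfl (by omega))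
  have th : ∀ p p' : Fin r × Fin r, p.2.1 = p'.2.1 → p.1.1 + 1 = p'.1.1 →
      Touch (Gc (cs0 ++ cs1)) (X p) (X p') := fun p p' e e' => by
    have k1 := bd p.2
    have k2 := bd p'.1
    refine tc p p' ?_
    rw [hX, hX, ← e]
    rw [← e', Nat.mul_succ] at k2 ⊢
    exact (d.hor (s + 2 + 3 + (al + 4) * p.2.1) (by omega)
      (s + 2 + 3 + (al + 4) * p.1.1 + (al + 3)) (by omega)).mono
      (cell_sub le_rfl (by omega) (by omega) (by omega))
      (cell_sub le_rfl (by omega) (by omega) (by omega))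
  refine ⟨A0 ∪ A1 ∩ U1, cs0 ++ cs1, X, x0 + (s + 2 + 3), y0 + (s + 2 + 3),
    (ncard_union_le _ _).trans (add_le_add a0 ((ncard_inter_le_ncard_left _ _).trans a1)),
    close b1 c1 (by rw [b2.cov, c2.cov, sp.int]) nd, Kit.rend_app sp b2 c2,
    fun c hc => (List.mem_append.1 hc).elim (b3 c) (c3 c), by rw [List.countP_append]; omega,
    ⟨fun p v hv => sp.un.le (Or.inl (du p hv)), fun p => pl.conn_mono
      (conn0 d.split inter_subset_right (dp p) ?_) le, fun p p' c => ?_, fun p p' e => ?_⟩,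
    fun p => ?_⟩
  · have k1 := bd p.1
    have k2 := bd p.2
    rw [hX]
    exact blk_conn d.toGr (by omega) (by omega) (by omega) (by omega)
  · have k1 := bd p.1
    have k2 := bd p.2
    have k3 := bd p'.1
    have k4 := bd p'.2
    rw [hX, hX, disjoint_left]
    rintro v ⟨i, j, p1, p2, p3, p4, p5⟩ ⟨i', j', q1, q2, q3, q4, q5⟩
    refine disjoint_left.1 (d.dis i (by omega) j (by omega) i' (by omega) j' (by omega)
      fun e => c ?_) p5 q5
    obtain ⟨rfl, rfl⟩ := Prod.mk.inj e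
    exact Prod.ext (Fin.ext (same p3 p4 q3 q4)) (Fin.ext (same p1 p2 q1 q2))
  · rcases e with ⟨e, e' | e'⟩ | ⟨e, e' | e'⟩
    exacts [tv p p' e e', (tv p' p e.symm e').symm, th p p' e e', (th p' p e.symm e').symm]
  · have k1 := bd p.1
    have k2 := bd p.2
    obtain ⟨v, hv, c, z1, z2⟩ := node hL d (by omega) a1 b1 b2 nh (Nat.le_add_right _ _) k2
      (Nat.le_add_right _ _) k1
    refine ⟨v, hX p ▸ hv, ⟨c, List.mem_append_left _ z1, z2⟩, ?_⟩
    obtain ⟨i, j, p1, p2, p3, p4, p5⟩ := hv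
    obtain ⟨x, y, q1, q2, q3⟩ := hD0 i (by omega) j (by omega)
    exact ⟨x, y, q3 p5, by omega, by omega, by omega, by omega⟩

end Pool.Agent.MP_9d78a0_co.st

end MrgPart3

-- marker of a merged file
example : 731051 + 16828 = 731051 + 16828 := rfl
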